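import Pool.Agent.H852.J.G2
import Pool.Graph.R_pool_sql_team_seeded_63374d34.N197.AP.Fin5
import Pool.Graph.R_pool_sql_team_seeded_63374d34.N197.AP.L_CONT1
import Pool.Graph.R_pool_sql_team_seeded_63374d34.N197.AP.L_CONT2

/-!
# From joint tangent vectors to all prime numbers
-/

set_option linter.unusedSectionVars false
set_option autoImplicit false

open TensorProduct Polynomial Matrix Filter Topology Module NumberField IsDedekindDomain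
open Pool.Agent.Y142.ZS (SpLie)
open Pool.Agent.Y142.ZO (GK IsFrobenius)
open Pool.Agent.N171 Pool.Agent.N171.Al Pool.Agent.N171.Pm Pool.Agent.N171.Bg Pool.Agent.N171.TG
open Pool.Agent.N197.AP Pool.Agent.H204R3.GP
open Pool.Agent.N166.CZ (IsTateModule ProductsWith)

namespace Pool.Agent.H852.J

/-- all elements of the symplectic Lie algebras are joint tangent vectors, with zero values -/
def AllTan {K F ι : Type} [Field K] [Field F] [Algebra K F] [Fintype ι]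
    [DecidableEq ι] [IsAlgClosed F] {τ : ι → Type} [∀ i, Fintype (τ i)] [∀ i, DecidableEq (τ i)]
    (α : ∀ i, τ i → F) [∀ i, Hyp (α i)] {d : ℕ}
    (t : (F ≃ₐ[K] F) →* Matrix (Fin d) (Fin d) ℤ_[2]) : Prop :=
  ∀ (h2 : (2 : F) ≠ 0) [∀ i, IsDomain (RG (fP (α i)))]
    (hg : ∀ i (s : F ≃ₐ[K] F), (fP (α i)).map ((s : F ≃+* F) : F →+* F) = fP (α i)),
    ∀ X : ∀ i, Module.End ℤ_[2] (TateMod 2 (ClG (RG (fP (α i))))),
      (∀ i, X i ∈ spQ (BP α h2 i) (p1 _)) → TanA ((joint fun i => rhoG (hg i)).prod t) (X, 0)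

/-- the lattice of a representation given by matrices -/
def IsLatOf {G : Type} [Group G] {d : ℕ} (t : G →* Matrix (Fin d) (Fin d) ℤ_[2])
    (τ : G →* Matrix (Fin d) (Fin d) ℚ_[2]) : Prop :=
  ∀ s, τ s = (t s).map (algebraMap ℤ_[2] ℚ_[2])

theorem hyp_tan {K F ι : Type} [Field K] [Field F] [Algebra K F] [Fintype ι]
    [DecidableEq ι] [IsAlgClosed F] (g : ι → F[X]) [∀ i, IsDomain (RG (g i))]
    (hg : ∀ i (s : F ≃ₐ[K] F), (g i).map ((s : F ≃+* F) : F →+* F) = g i)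
    {τ : ι → Type} [∀ i, Fintype (τ i)] [∀ i, DecidableEq (τ i)] (α : ∀ i, τ i → F)
    [∀ i, Hyp (α i)] (hα : ∀ i, g i = fP (α i)) (h2 : (2 : F) ≠ 0)
    (h3 : ∀ i, 1 < Fintype.card (τ i)) {d : ℕ}
    (t : (F ≃ₐ[K] F) →* Matrix (Fin d) (Fin d) ℤ_[2])
    (τW : (F ≃ₐ[K] F) →* Matrix (Fin d) (Fin d) ℚ_[2]) (ht : IsLatOf t τW) (hT : AllTan α t) :
    ∃ (N : ι → ℕ) (ρ : ∀ i, (F ≃ₐ[K] F) →* Matrix (Fin (N i)) (Fin (N i)) ℚ_[2])
      (J : ∀ i, Matrix (Fin (N i)) (Fin (N i)) ℚ_[2]),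
      (∀ i, 0 < N i) ∧ (∀ i, (J i)ᵀ = -J i) ∧ (∀ i, (J i).det ≠ 0) ∧
      (∀ i g, (ρ i g)ᵀ * J i * ρ i g = cycQ K F g • J i) ∧
      (∀ i, ∃ e : (Fin (N i) → ℚ_[2]) ≃ₗ[ℚ_[2]] (ℚ_[2] ⊗[ℤ_[2]] TateMod 2 (ClG (RG (g i)))),
        ∀ s x, e (ρ i s *ᵥ x) = ratRep (rhoG (hg i)) s (e x)) ∧
      ∀ X : ∀ i, Matrix (Fin (N i)) (Fin (N i)) ℚ_[2], (∀ i, SpLie (J i) (X i)) →
        ∃ σ : ℕ → (F ≃ₐ[K] F),
        (∀ i, Tendsto (fun m : ℕ => (((2 : ℕ) : ℚ_[2]) ^ m)⁻¹ • (ρ i (σ m) - 1)) atTop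
          (𝓝 (X i))) ∧
        Tendsto (fun m : ℕ => (((2 : ℕ) : ℚ_[2]) ^ m)⁻¹ • (τW (σ m) - 1)) atTop (𝓝 0) := by
  obtain rfl : g = fun i => fP (α i) := funext hα
  choose D hD hF using fun i => exists_frame (isClasses_ThG (α := α i)) h2
  have hB : ∀ i s x y, BP α h2 i (rhoG (hg i) s x) (rhoG (hg i) s y) =
      (cyc K F s : ℤ_[2]) * BP α h2 i x y := by
    intro i s x y
    exact BB_act (isCurve_crv (α i)) isClasses_ThG h2 (isAct_G (hg i)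
      (fun k => prm_spec (α i) (hg i) s k)) x y
  let bT : ∀ i, Basis (Fin (finrank ℤ_[2] (TateMod 2 (ClG (RG (fP (α i))))))) ℤ_[2]
      (TateMod 2 (ClG (RG (fP (α i))))) := fun i => Module.finBasis ℤ_[2] _
  obtain ⟨ρ', J, t', k1, k2, k3, k4, k5, k6⟩ := t_MAT ι (fun i => TateMod 2 (ClG (RG (fP (α i)))))
    (F ≃ₐ[K] F) (fun i => rhoG (hg i)) (BP α h2) (cyc K F)
    (fun i => finrank ℤ_[2] (TateMod 2 (ClG (RG (fP (α i)))))) bT d t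
    (fun i => (hF i).alt) (fun i => (hF i).nd) hB (fun X hX => hT h2 hg X hX)
  have e1 : t' = τW := MonoidHom.ext fun s => by rw [k2, ht]
  subst e1
  refine ⟨_, ρ', J, fun i => ?_, k3, k4, k5, fun i => ?_, k6⟩
  · obtain ⟨x, y, hxy⟩ := Fintype.exists_pair_of_one_lt_card (h3 i)
    have hn : Nontrivial (TateMod 2 (ClG (RG (fP (α i))))) := by
      refine ⟨⟨D i x, D i y, fun h => hxy (rr_D_inj (hF i) ?_)⟩⟩
      rw [h]
    exact Module.finrank_pos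
  · refine ⟨(Algebra.TensorProduct.basis ℚ_[2] (bT i)).equivFun.symm, fun s x => ?_⟩
    refine hyp_coord _ (ratRep (rhoG (hg i)) s) (ρ' i s) ?_ x
    rw [k1]
    exact LinearMap.toMatrix_baseChange ℚ_[2] (rhoG (hg i) s) (bT i) (bT i)

/-- from joint tangent vectors to all prime numbers -/
theorem holds_of_tan {K : Type} [Field K] [NumberField K] {ι : Type} [Fintype ι] [Nonempty ι]
    [DecidableEq ι]
    (f : ι → K[X]) [∀ i, HypP (f i)] {n d m : ℕ} {w : ℤ}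
    {κ : ι → Type} [∀ i, Fintype (κ i)] [∀ i, DecidableEq (κ i)]
    (α : ∀ i, κ i → AlgebraicClosure K)
    [∀ i, Hyp (α i)] (hα : ∀ i, (f i).map (algebraMap K (AlgebraicClosure K)) = fP (α i))
    (h3 : ∀ i, 1 < Fintype.card (κ i))
    (t : GK K →* Matrix (Fin d) (Fin d) ℤ_[2])
    (τ : GK K →* Matrix (Fin d) (Fin d) ℚ_[2]) (hτ : Continuous τ) (ht : IsLatOf t τ)
    (hT : AllTan α t)
    (S : Set (HeightOneSpectrum (𝓞 K))) (hS : S.Finite)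
    (P : HeightOneSpectrum (𝓞 K) → ℚ[X]) (Q : HeightOneSpectrum (𝓞 K) → ℚ[X])
    (hP : ∀ v ∉ S, ∀ z : ℂ, aeval z (P v) = 0 →
      ‖z‖ ^ 2 = (Ideal.absNorm v.asIdeal : ℝ) ∧ IsIntegral ℤ ((Ideal.absNorm v.asIdeal : ℂ) ^ m * z))
    (hQ : ∀ v ∉ S, ∀ z : ℂ, aeval z (Q v) = 0 →
      ‖z‖ ^ 2 = (Ideal.absNorm v.asIdeal : ℝ) ^ w ∧
        IsIntegral ℤ ((Ideal.absNorm v.asIdeal : ℂ) ^ m * z))
    (R : GK K →* Matrix (Fin n) (Fin n) ℚ_[2]) (hR : Continuous R)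
    (E : (Fin n → ℚ_[2]) ≃ₗ[ℚ_[2]] (∀ i, Vt (JacP (f i) (AlgebraicClosure K))))
    (hE : ∀ g x i, E (R g *ᵥ x) i = vRep (JacP (f i) (AlgebraicClosure K)) (GK K) g (E x i))
    (hRP : ∀ v ∉ S, (2 : 𝓞 K) ∉ v.asIdeal → ∀ σ : GK K, IsFrobenius v σ →
      (R σ).charpoly = (P v).map (Rat.castHom ℚ_[2]))
    (hτQ : ∀ v ∉ S, (2 : 𝓞 K) ∉ v.asIdeal → ∀ σ : GK K, IsFrobenius v σ →
      (τ σ⁻¹).charpoly = (Q v).map (Rat.castHom ℚ_[2]))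
    (ℓ : ℕ) [hℓ : Fact ℓ.Prime] (V M : Type) [AddCommGroup V] [Module ℚ_[ℓ] V]
    [FiniteDimensional ℚ_[ℓ] V] [AddCommGroup M] [Module ℚ_[ℓ] M] [FiniteDimensional ℚ_[ℓ] M]
    (r : Representation ℚ_[ℓ] (GK K) V) (c : GK K →* ℚ_[ℓ])
    (s : Representation ℚ_[ℓ] (GK K) M) (hr : IsTateModule r c)
    (hf : ∀ v ∉ S, (ℓ : 𝓞 K) ∉ v.asIdeal → ∀ σ : GK K, IsFrobenius v σ →
      c σ = (Ideal.absNorm v.asIdeal : ℚ_[ℓ]) ∧
      LinearMap.charpoly (r σ) = (P v).map (Rat.castHom ℚ_[ℓ]) ∧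
      LinearMap.charpoly (s σ⁻¹) = (Q v).map (Rat.castHom ℚ_[ℓ])) :
    ProductsWith r c s := by
  have h2 : (2 : AlgebraicClosure K) ≠ 0 := by
    have h1 : (2 : AlgebraicClosure K) = algebraMap K (AlgebraicClosure K) 2 := by rw [map_ofNat]
    rw [h1, Ne, map_eq_zero]
    exact two_ne_zero
  obtain ⟨N, ρ, J, hN, hJ, hdet, hsim, hiso, hfull⟩ :=
    hyp_tan (K := K) (F := AlgebraicClosure K)
      (fun i => (f i).map (algebraMap K (AlgebraicClosure K))) (fun i => rf_fix (f i)) α hα h2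
      h3 t τ ht hT
  obtain ⟨hg1, hg2⟩ := t_GLUE ι N (GK K) ρ (fun i => Vt (JacP (f i) (AlgebraicClosure K)))
    (fun i => vRep (JacP (f i) (AlgebraicClosure K)) (GK K)) hiso n R E hE
  obtain ⟨h1, h2, h3, h4, h5⟩ := t_BLOCK ι N d (GK K) ρ τ J hJ hdet hfull
  obtain ⟨i₀⟩ := ‹Nonempty ι›
  have hn : 0 < ∑ i, N i := Finset.sum_pos (fun i _ => hN i) ⟨i₀, Finset.mem_univ _⟩
  refine main20 t_PLACE2' t_TATE2 (m := m) (w := w) hn (hg2 hR) hτ h2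
    (h3 (cycQ K (AlgebraicClosure K)) fun i g => hsim i g) h1
    (S := S ∪ {v | ((2 : ℕ) : 𝓞 K) ∈ v.asIdeal})
    (hS.union (finite_above 2 Nat.prime_two)) (P := P) (Q := Q)
    (fun v hv σ hσ => ?_) (fun v hv => ⟨hP v fun h => hv (Or.inl h), hQ v fun h => hv (Or.inl h)⟩)
    (r := r) hr (T := S ∪ {v | (ℓ : 𝓞 K) ∈ v.asIdeal}) (hS.union (finite_above ℓ hℓ.out))
    fun v hv σ hσ => ?_
  · have hv1 : v ∉ S := fun h => hv (Or.inl h)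
    have hv2 : (2 : 𝓞 K) ∉ v.asIdeal := fun h => hv (Or.inr (by
      rw [Set.mem_setOf_eq, Nat.cast_ofNat]; exact h))
    refine ⟨?_, ?_, t_CYC K v σ hv2 hσ⟩
    · rw [hg1]
      exact hRP v hv1 hv2 σ hσ
    · exact hτQ v hv1 hv2 σ hσ
  · have hv1 : v ∉ S := fun h => hv (Or.inl h)
    have hv2 : (ℓ : 𝓞 K) ∉ v.asIdeal := fun h => hv (Or.inr h)
    obtain ⟨h6, h7, h8⟩ := hf v hv1 hv2 σ hσ
    refine ⟨h6, h7, ?_⟩
    rw [← h8]
    exact LinearMap.aeval_self_charpoly _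

end Pool.Agent.H852.J
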