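import Mathlib
import Pool.Graph.R_pool_sql_team_seeded_63374d34.N171.TG.Tn6

/-!
# Tangent vectors of joint representations: lifting
-/

set_option linter.unusedSectionVars false
set_option autoImplicit false

namespace Pool.Agent.H852.J

open PadicInt Module Pool.Agent.N171 Pool.Agent.N171.Al Pool.Agent.N171.TG

noncomputable section

section gen

variable {A : Type*} [Ring A] [Algebra ℤ_[2] A] {Γ : Type*} [Group Γ]

/-- the tangent vectors form a submodule -/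
def tan (R : Γ →* A) : Submodule ℤ_[2] A where
  carrier := {X | TanA R X}
  zero_mem' := TanA_zero
  add_mem' := fun h h' => TanA_add h h'
  smul_mem' := fun c _ h => TanA_smul c h

theorem mem_tan {R : Γ →* A} {X : A} : X ∈ tan R ↔ TanA R X := Iff.rfl

theorem TanA_pow_cancel {R : Γ →* A} (j : ℕ) {X : A} (h : TanA R ((2 : ℤ_[2]) ^ j • X)) :
    TanA R X := by
  induction j with
  | zero => simpa only [pow_zero, one_smul] using h
  | succ j ih =>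
    rw [pow_succ', mul_smul] at h
    exact ih (TanA_cancel h)

/-- restriction to a smaller group -/
theorem TanA_of_sub {R : Γ →* A} {Δ : Subgroup Γ} {X : A} (h : TanA (R.comp Δ.subtype) X) :
    TanA R X := by
  intro m
  obtain ⟨n₀, h⟩ := h m
  refine ⟨n₀, fun n hn => ?_⟩
  obtain ⟨σ, Z, hσ⟩ := h n hn
  exact ⟨σ.1, Z, hσ⟩

/-- images under homomorphisms of algebras -/
theorem TanA_map {A' : Type*} [Ring A'] [Algebra ℤ_[2] A'] {R : Γ →* A} (f : A →ₐ[ℤ_[2]] A')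
    {X : A} (h : TanA R X) : TanA ((f : A →* A').comp R) (f X) := by
  intro m
  obtain ⟨n₀, h⟩ := h m
  refine ⟨n₀, fun n hn => ?_⟩
  obtain ⟨σ, Z, hσ⟩ := h n hn
  refine ⟨σ, f Z, ?_⟩
  change f (R σ) = _
  rw [hσ]
  simp only [map_add, map_one, map_smul]

/-- two representations with the same values up to an isomorphism of algebras -/
theorem TanA_congr {A' : Type*} [Ring A'] [Algebra ℤ_[2] A'] {R : Γ →* A} {R' : Γ →* A'}
    (f : A →ₐ[ℤ_[2]] A') (hf : ∀ s, f (R s) = R' s)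
    {X : A} (h : TanA R X) : TanA R' (f X) := by
  have h1 := TanA_map f h
  have h2 : (f : A →* A').comp R = R' := MonoidHom.ext hf
  rwa [h2] at h1

/-- images under maps which respect the operations -/
theorem TanA_fun {A' : Type*} [Ring A'] [Algebra ℤ_[2] A'] {R : Γ →* A} {R' : Γ →* A'}
    (f : A → A') (hf : ∀ s, f (R s) = R' s) (hl : ∀ (c d : ℤ_[2]) (X Z : A),
      f (1 + c • (X + d • Z)) = 1 + c • (f X + d • f Z)) {X : A} (h : TanA R X) : TanA R' (f X) := by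
  intro m
  obtain ⟨n₀, h⟩ := h m
  refine ⟨n₀, fun n hn => ?_⟩
  obtain ⟨σ, Z, hσ⟩ := h n hn
  exact ⟨σ, f Z, by rw [← hf, hσ, hl]⟩

theorem pow_two_pow (n : ℕ) (hn : 2 ≤ n) (V : A) (c : ℕ) : ∃ Z : A,
    (1 + (2 : ℤ_[2]) ^ n • V) ^ 2 ^ c = 1 + (2 : ℤ_[2]) ^ (n + c) • (V + (2 : ℤ_[2]) • Z) := by
  induction c with
  | zero => exact ⟨0, by simp⟩
  | succ c ih =>
    obtain ⟨Z, hZ⟩ := ih
    obtain ⟨k, hk⟩ : ∃ k, n + c = k + 2 := ⟨n + c - 2, by omega⟩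
    refine ⟨Z + (2 : ℤ_[2]) ^ k • ((V + (2 : ℤ_[2]) • Z) * (V + (2 : ℤ_[2]) • Z)), ?_⟩
    rw [pow_succ, pow_mul, hZ, pow_two, ← add_assoc n c 1, hk]
    generalize hU : V + (2 : ℤ_[2]) • Z = U
    have h1 : V + (2 : ℤ_[2]) • (Z + (2 : ℤ_[2]) ^ k • (U * U)) = U + (2 : ℤ_[2]) • ((2 : ℤ_[2]) ^ k • (U * U)) := by
      rw [← hU]
      module
    rw [h1]
    simp only [mul_add, add_mul, one_mul, mul_one, smul_add, mul_smul_comm, smul_mul_assoc,
      smul_smul]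
    have e1 : (2 : ℤ_[2]) ^ (k + 2) * 2 ^ (k + 2) = 2 ^ (k + 2 + 1) * (2 * 2 ^ k) := by ring
    have e2 : (2 : ℤ_[2]) ^ (k + 2 + 1) = 2 ^ (k + 2) + 2 ^ (k + 2) := by ring
    rw [e1, e2]
    module

theorem log_tan [Module.Finite ℤ_[2] A] [Module.Free ℤ_[2] A] {R : Γ →* A} {s : Γ} (j : ℕ) {N : A}
    (h : R s * R s = 1 + (4 : ℤ_[2]) • ((2 : ℤ_[2]) ^ j • N)) :
    ∃ Z, TanA R (N + (2 : ℤ_[2]) • Z) := by
  obtain ⟨Y, Z, hY, h1⟩ := exists_logr j N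
  refine ⟨Z, TanA_pow_cancel j ?_⟩
  rw [← hY]
  exact TanA_log h h1

end gen

section lift

variable {A : Type*} [Ring A] [Algebra ℤ_[2] A] [Module.Finite ℤ_[2] A] [Module.Free ℤ_[2] A]
  {A' : Type*} [Ring A'] [Algebra ℤ_[2] A'] [Module.Finite ℤ_[2] A'] [Module.Free ℤ_[2] A']
  {Γ : Type*} [Group Γ]

/-- some power is trivial modulo four -/
theorem exists_pow_four (R : Γ →* A') (s : Γ) : ∃ e : ℕ, 0 < e ∧ ∃ N, R (s ^ e) =
    1 + (4 : ℤ_[2]) • N := by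
  classical
  let b := Module.Free.chooseBasis ℤ_[2] A'
  let f : ℕ → (Module.Free.ChooseBasisIndex ℤ_[2] A' → ZMod (2 ^ 2)) := fun k i =>
    toZModPow 2 (b.repr (R (s ^ k)) i)
  obtain ⟨k, l, hkl, hf⟩ := Finite.exists_ne_map_eq_of_infinite f
  wlog hlt : k < l generalizing k l
  · exact this l k hkl.symm hf.symm (by omega)
  have h1 : ∃ N, R (s ^ l) - R (s ^ k) = (4 : ℤ_[2]) • N := by
    have h2 : ∀ i, ∃ z : ℤ_[2], b.repr (R (s ^ l) - R (s ^ k)) i = 4 * z := by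
      intro i
      have h3 : toZModPow 2 (b.repr (R (s ^ l) - R (s ^ k)) i) = 0 := by
        rw [map_sub, Finsupp.sub_apply, map_sub, sub_eq_zero]
        exact (congrFun hf i).symm
      rw [← RingHom.mem_ker, ker_toZModPow, Ideal.mem_span_singleton] at h3
      obtain ⟨z, hz⟩ := h3
      refine ⟨z, ?_⟩
      rw [hz]
      norm_num
    choose z hz using h2
    refine ⟨∑ i, z i • b i, ?_⟩
    rw [← b.sum_repr (R (s ^ l) - R (s ^ k)), Finset.smul_sum]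
    refine Finset.sum_congr rfl fun i _ => ?_
    rw [hz, mul_smul]
  obtain ⟨N, hN⟩ := h1
  obtain ⟨e, rfl⟩ : ∃ e, l = k + e := ⟨l - k, by omega⟩
  refine ⟨e, by omega, R (s ^ k)⁻¹ * N, ?_⟩
  have h4 : R (s ^ k)⁻¹ * R (s ^ k) = 1 := by rw [← map_mul, inv_mul_cancel, map_one]
  have h5 : R (s ^ k)⁻¹ * (R (s ^ (k + e)) - R (s ^ k)) = R (s ^ e) - 1 := by
    rw [mul_sub, h4, pow_add, map_mul, ← mul_assoc, h4, one_mul]
  rw [hN, mul_smul_comm] at h5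
  rw [h5]
  abel

/-- **Lifting of tangent vectors.** -/
theorem lift (R : Γ →* A) (R' : Γ →* A') {X : A} (hX : TanA R X) :
    ∃ (a : ℕ) (W : A'), TanA (R.prod R') ((2 : ℤ_[2]) ^ a • X, W) := by
  let N : Submodule ℤ_[2] A :=
    { carrier := {X | ∃ (a : ℕ) (W : A'), TanA (R.prod R') ((2 : ℤ_[2]) ^ a • X, W)}
      zero_mem' := ⟨0, 0, by rw [smul_zero]; exact TanA_zero⟩
      add_mem' := by
        rintro X Y ⟨a, W, h⟩ ⟨b, W', h'⟩
        refine ⟨a + b, (2 : ℤ_[2]) ^ b • W + (2 : ℤ_[2]) ^ a • W', ?_⟩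
        have h1 := TanA_add (TanA_smul ((2 : ℤ_[2]) ^ b) h) (TanA_smul ((2 : ℤ_[2]) ^ a) h')
        rw [Prod.smul_mk, Prod.smul_mk, Prod.mk_add_mk] at h1
        convert! h1 using 2
        rw [pow_add, smul_smul, smul_smul, smul_add]
        congr 2
        ring
      smul_mem' := by
        rintro c X ⟨a, W, h⟩
        refine ⟨a, c • W, ?_⟩
        have h1 := TanA_smul c h
        rw [Prod.smul_mk] at h1
        rwa [smul_comm] }
  have hmem : ∀ X, X ∈ N ↔ ∃ (a : ℕ) (W : A'), TanA (R.prod R') ((2 : ℤ_[2]) ^ a • X, W) :=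
    fun _ => Iff.rfl
  suffices h : tan R ≤ N from h hX
  have hle : N ≤ tan R := by
    rintro X ⟨a, W, h⟩
    have h1 := TanA_congr (R' := R) (AlgHom.fst ℤ_[2] A A') (fun _ => rfl) h
    exact TanA_pow_cancel a h1
  refine Submodule.le_of_le_smul_of_le_jacobson_bot (I := Ideal.span {(2 : ℤ_[2])})
    (IsNoetherian.noetherian _) ?_ ?_
  · rw [IsLocalRing.jacobson_eq_maximalIdeal ⊥ bot_ne_top, Ideal.span_singleton_le_iff_mem,
      IsLocalRing.mem_maximalIdeal, mem_nonunits_iff, isUnit_iff_toZModPow, not_not, map_ofNat]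
    rfl
  · intro X hX
    obtain ⟨n₀, h0⟩ := hX 1
    obtain ⟨σ, Z, hσ⟩ := h0 (max n₀ 2) (le_max_left _ _)
    generalize hn : max n₀ 2 = n at hσ
    have hn2 : 2 ≤ n := hn ▸ le_max_right _ _
    clear hn
    obtain ⟨e, he, M, hM⟩ := exists_pow_four R' σ
    obtain ⟨c, e', he', rfl⟩ := Nat.exists_eq_two_pow_mul_odd he.ne'
    -- the first component
    obtain ⟨V, hV⟩ := pow_lin (X + (2 : ℤ_[2]) ^ 1 • Z) n e'
    obtain ⟨k, rfl⟩ : ∃ k, n = k + 2 := ⟨n - 2, by omega⟩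
    have h1 : R (σ ^ e') = 1 + (2 : ℤ_[2]) ^ (k + 2) • ((e' : ℤ_[2]) • X + (2 : ℤ_[2]) •
        ((e' : ℤ_[2]) • Z + (2 : ℤ_[2]) ^ (k + 1) • V)) := by
      rw [map_pow, hσ, hV]
      rw [show k + 2 + (k + 2) = (k + 2) + 1 + (k + 1) by ring, pow_add (2 : ℤ_[2]) (k + 2 + 1),
        pow_add (2 : ℤ_[2]) (k + 2) 1]
      module
    obtain ⟨Z', hZ'⟩ := pow_two_pow (k + 2) (by omega) ((e' : ℤ_[2]) • X + (2 : ℤ_[2]) •
        ((e' : ℤ_[2]) • Z + (2 : ℤ_[2]) ^ (k + 1) • V)) (c + 1)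
    have hs : R (σ ^ (2 ^ c * e')) * R (σ ^ (2 ^ c * e')) = 1 + (2 : ℤ_[2]) ^ (k + 2 + (c + 1)) •
        ((e' : ℤ_[2]) • X + (2 : ℤ_[2]) • ((e' : ℤ_[2]) • Z + (2 : ℤ_[2]) ^ (k + 1) • V) +
          (2 : ℤ_[2]) • Z') := by
      rw [← hZ', ← h1, ← map_mul, ← map_pow, ← pow_mul, ← pow_add]
      congr 2
      ring
    have hs' : R' (σ ^ (2 ^ c * e')) * R' (σ ^ (2 ^ c * e')) = 1 + (4 : ℤ_[2]) • ((2 : ℤ_[2]) •
        (M + (2 : ℤ_[2]) • (M * M))) := by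
      rw [hM]
      simp only [mul_add, add_mul, one_mul, mul_one, smul_add, mul_smul_comm, smul_mul_assoc,
        smul_smul]
      module
    obtain ⟨Y, Z₁, hY, hY'⟩ := exists_logr (k + c + 1) ((e' : ℤ_[2]) • X + (2 : ℤ_[2]) •
        ((e' : ℤ_[2]) • Z + (2 : ℤ_[2]) ^ (k + 1) • V) + (2 : ℤ_[2]) • Z')
    obtain ⟨W, Z₂, hW, hW'⟩ := exists_logr (A := A') 1 (M + (2 : ℤ_[2]) • (M * M))
    have h2 : TanA (R.prod R') (Y, W) := by
      refine TanA_log (s := σ ^ (2 ^ c * e')) (X₀ := ((2 : ℤ_[2]) ^ (k + c + 1) •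
        ((e' : ℤ_[2]) • X + (2 : ℤ_[2]) • ((e' : ℤ_[2]) • Z + (2 : ℤ_[2]) ^ (k + 1) • V) +
          (2 : ℤ_[2]) • Z'), (2 : ℤ_[2]) ^ 1 • (M + (2 : ℤ_[2]) • (M * M)))) ?_ fun m => ?_
      · refine Prod.ext ?_ ?_
        · refine hs.trans ?_
          rw [Prod.fst_add, Prod.fst_one, Prod.smul_fst, smul_smul]
          congr 2
          ring
        · refine hs'.trans ?_
          rw [Prod.snd_add, Prod.snd_one, Prod.smul_snd, pow_one]
      · obtain ⟨U, hU⟩ := hY' m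
        obtain ⟨U', hU'⟩ := hW' m
        refine ⟨(U, U'), ?_⟩
        rw [Yr_prod]
        exact Prod.ext hU hU'
    have he2 : IsUnit (e' : ℤ_[2]) := by
      rw [isUnit_iff_toZMod, map_natCast]
      exact (ZMod.natCast_eq_one_iff_odd).2 he'
    obtain ⟨u, hu⟩ := he2
    have h3 : (e' : ℤ_[2]) • X + (2 : ℤ_[2]) • ((e' : ℤ_[2]) • Z + (2 : ℤ_[2]) ^ (k + 1) • V) +
        (2 : ℤ_[2]) • Z' + (2 : ℤ_[2]) • Z₁ ∈ N := ⟨_, W, by rw [← hY]; exact h2⟩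
    have h4 := N.smul_mem ((u⁻¹ : ℤ_[2]ˣ) : ℤ_[2]) h3
    set Q : A := ((u⁻¹ : ℤ_[2]ˣ) : ℤ_[2]) • (((e' : ℤ_[2]) • Z + (2 : ℤ_[2]) ^ (k + 1) • V) + Z' + Z₁)
      with hQ
    have h5 : ((u⁻¹ : ℤ_[2]ˣ) : ℤ_[2]) • ((e' : ℤ_[2]) • X + (2 : ℤ_[2]) • ((e' : ℤ_[2]) • Z +
        (2 : ℤ_[2]) ^ (k + 1) • V) + (2 : ℤ_[2]) • Z' + (2 : ℤ_[2]) • Z₁) = X + (2 : ℤ_[2]) • Q := by
      rw [hQ, ← hu]
      have h6 : X = ((u⁻¹ : ℤ_[2]ˣ) : ℤ_[2]) • ((u : ℤ_[2]) • X) := by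
        rw [smul_smul, Units.inv_mul, one_smul]
      conv_rhs => rw [h6]
      module
    rw [h5] at h4
    have h6 : Q ∈ tan R := by
      have h7 := Submodule.sub_mem _ (hle h4) (mem_tan.2 hX)
      rw [add_sub_cancel_left] at h7
      exact TanA_cancel h7
    have h8 : X = (X + (2 : ℤ_[2]) • Q) + (2 : ℤ_[2]) • (-Q) := by module
    rw [h8]
    exact Submodule.add_mem_sup h4 (Submodule.smul_mem_smul (Ideal.mem_span_singleton_self _)
      (Submodule.neg_mem _ h6))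

end lift

end

end Pool.Agent.H852.J
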