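import Mathlib
import Pool.Agent.H852.J.T1

/-!
# One factor with values: generation modulo two gives all tangent vectors
-/

set_option linter.unusedSectionVars false
set_option autoImplicit false

namespace Pool.Agent.H852.J

open PadicInt Module Pool.Agent.N171 Pool.Agent.N171.Al Pool.Agent.N171.TG

noncomputable section

variable {T : Type*} [AddCommGroup T] [Module ℤ_[2] T] [Module.Finite ℤ_[2] T]
  [Module.Free ℤ_[2] T] {Γ : Type*} [Group Γ]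
  (ρ : Representation ℤ_[2] Γ T) (χ : Γ →* ℤ_[2]ˣ) {A : Type*} [Ring A] [Algebra ℤ_[2] A]
  [Module.Finite ℤ_[2] A] [Module.Free ℤ_[2] A]
  (t : Γ →* A) (B : T →ₗ[ℤ_[2]] T →ₗ[ℤ_[2]] ℤ_[2])

/-- the character with values in the ring -/
def chR (χ : Γ →* ℤ_[2]ˣ) : Γ →* ℤ_[2] := (Units.coeHom ℤ_[2]).comp χ

theorem chR_apply (s : Γ) : chR χ s = (χ s : ℤ_[2]) := rfl

theorem eq_zero_of_div {z : ℤ_[2]} (h : ∀ m : ℕ, ∃ y, z = (2 : ℤ_[2]) ^ m * y) : z = 0 := by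
  by_contra hz
  obtain ⟨y, hy⟩ := h (z.valuation + 1)
  have h1 : (2 : ℤ_[2]) ^ (z.valuation + 1) ∣ z := ⟨y, hy⟩
  have h2 : ‖z‖ ≤ (2 : ℝ) ^ (-((z.valuation + 1 : ℕ) : ℤ)) := by
    have := (PadicInt.norm_le_pow_iff_mem_span_pow z (z.valuation + 1)).2
      (Ideal.mem_span_singleton.2 (by exact_mod_cast h1))
    exact_mod_cast this
  rw [PadicInt.norm_eq_zpow_neg_valuation hz] at h2
  have h3 : (-((z.valuation + 1 : ℕ) : ℤ)) < -(z.valuation : ℤ) := by push_cast; omega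
  have h4 := zpow_lt_zpow_right₀ (by norm_num : (1 : ℝ) < 2) h3
  have h5 : ((2 : ℕ) : ℝ) = 2 := by norm_num
  rw [h5] at h2
  exact absurd h2 (not_le.2 h4)

variable {ρ χ t B}

/-- Tangent vectors multiply the form. -/
theorem mult_of_tan (hB : ∀ s x y, B (ρ s x) (ρ s y) = (χ s : ℤ_[2]) * B x y)
    {X : Module.End ℤ_[2] T} {c : ℤ_[2]}
    (h : TanA (MonoidHom.prod (ρ : Γ →* Module.End ℤ_[2] T) (chR χ)) (X, c)) (x y : T) :
    B (X x) y + B x (X y) = c * B x y := by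
  rw [← sub_eq_zero]
  refine eq_zero_of_div fun m => ?_
  obtain ⟨n₀, h0⟩ := h m
  obtain ⟨σ, ⟨Z, z⟩, hσ⟩ := h0 (n₀ + m) (by omega)
  have h1 : ρ σ = 1 + (2 : ℤ_[2]) ^ (n₀ + m) • (X + (2 : ℤ_[2]) ^ m • Z) := congrArg Prod.fst hσ
  have h2 : (χ σ : ℤ_[2]) = 1 + (2 : ℤ_[2]) ^ (n₀ + m) • (c + (2 : ℤ_[2]) ^ m • z) :=
    congrArg Prod.snd hσ
  have h3 := hB σ x y
  rw [h1, h2] at h3
  simp only [LinearMap.add_apply, Module.End.one_apply, LinearMap.smul_apply, map_add, map_smul,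
    smul_eq_mul] at h3
  have h4 : (2 : ℤ_[2]) ^ (n₀ + m) ≠ 0 := pow_ne_zero _ (by norm_num)
  refine ⟨z * B x y - B (Z x) y - B x (Z y) - 2 ^ n₀ * ((B (X x) (X y)) + 2 ^ m * B (Z x) (X y) +
    2 ^ m * B (X x) (Z y) + 2 ^ m * 2 ^ m * B (Z x) (Z y)), ?_⟩
  apply mul_left_cancel₀ h4
  rw [pow_add] at h3 ⊢
  linear_combination h3

variable (ρ t B)

/-- The elements of the symplectic algebra which are tangent up to a scalar, with even values. -/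
def PS : Submodule ℤ_[2] (Module.End ℤ_[2] T) where
  carrier := {X | X ∈ spQ B (p1 T) ∧ ∃ (c : ℤ_[2]) (Y : A),
    Tan ρ t (X + c • 1) ((2 : ℤ_[2]) • Y)}
  zero_mem' := ⟨Submodule.zero_mem _, 0, 0, by
    rw [smul_zero, zero_smul, add_zero]; exact Tan_zero⟩
  add_mem' := by
    rintro X X' ⟨h, c, Y, hY⟩ ⟨h', c', Y', hY'⟩
    refine ⟨Submodule.add_mem _ h h', c + c', Y + Y', ?_⟩
    have h1 := Tan_add hY hY'
    rw [← smul_add] at h1
    convert! h1 using 1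
    module
  smul_mem' := by
    rintro a X ⟨h, c, Y, hY⟩
    refine ⟨Submodule.smul_mem _ a h, a * c, a • Y, ?_⟩
    have h1 := Tan_smul a hY
    rw [smul_comm] at h1
    convert! h1 using 1
    module

variable {ρ t B}

theorem PS_bracket {X X' : Module.End ℤ_[2] T} (h : X ∈ PS ρ t B) (h' : X' ∈ PS ρ t B) :
    X * X' - X' * X ∈ PS ρ t B := by
  obtain ⟨h, c, Y, hY⟩ := h
  obtain ⟨h', c', Y', hY'⟩ := h'
  refine ⟨spQ_bracket B (p1 T) h h', 0, (2 : ℤ_[2]) • (Y * Y' - Y' * Y), ?_⟩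
  have h1 := Tan_bracket hY hY'
  simp only [smul_mul_assoc, mul_smul_comm, add_mul, mul_add, one_mul, mul_one] at h1
  rw [zero_smul, add_zero, smul_sub, smul_sub]
  convert! h1 using 1
  module

theorem nnPS_two (X : Module.End ℤ_[2] T) : (2 : ℤ_[2]) • X ∈ nn (PS ρ t B) :=
  ⟨0, Submodule.zero_mem _, X, by rw [zero_add]⟩

theorem nnPS_bracket {X Y : Module.End ℤ_[2] T} (h : X ∈ nn (PS ρ t B)) (h' : Y ∈ nn (PS ρ t B)) :
    X * Y - Y * X ∈ nn (PS ρ t B) := by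
  obtain ⟨X, hX, Z, rfl⟩ := h
  obtain ⟨X', hX', Z', rfl⟩ := h'
  refine ⟨X * X' - X' * X, PS_bracket hX hX', X * Z' + Z * X' +
    (2 : ℤ_[2]) • (Z * Z') - (X' * Z + Z' * X + (2 : ℤ_[2]) • (Z' * Z)), ?_⟩
  simp only [mul_add, add_mul, smul_mul_assoc, mul_smul_comm]
  module

variable (halt : ∀ x, B x x = 0) (hnd : ∀ v, (∀ w, ¬ IsUnit (B v w)) → ∃ u, (2 : ℤ_[2]) • u = v)
  (hB : ∀ s x y, B (ρ s x) (ρ s y) = (χ s : ℤ_[2]) * B x y)

include halt hnd in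
/-- Removing the scalars. -/
theorem PS_start (h : spQ B (p1 T) ≤ PS ρ t B) : spQ B (p1 T) ≤ PLt ρ t B (p1 T) 1 := by
  have hle : PLt ρ t B (p1 T) 1 ≤ spQ B (p1 T) := fun X hX => hX.1
  have h2 : ∀ X, (2 : ℤ_[2]) • X ∈ nn (PLt ρ t B (p1 T) 1) := fun X =>
    ⟨0, Submodule.zero_mem _, X, by rw [zero_add]⟩
  have hE : ∀ x : T, Eo B x x ∈ nn (PLt ρ t B (p1 T) 1) := by
    intro x
    by_cases hu : ∃ w, IsUnit (B x w)
    · obtain ⟨w, c, hc⟩ := hu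
      set m : T := ((c⁻¹ : ℤ_[2]ˣ) : ℤ_[2]) • w with hm
      have hxm : B x m = 1 := by
        rw [hm, map_smul, ← hc, smul_eq_mul, Units.inv_mul]
      have hEx : ∀ y : T, Eo B y y ∈ spQ B (p1 T) := fun y =>
        Eo_spQ B halt (p1 T) (fun _ _ => rfl) (fun _ _ _ h => absurd rfl h) (fun _ _ _ => rfl) () y
      obtain ⟨-, a, Y, hY⟩ := h (hEx x)
      obtain ⟨-, a', Y', hY'⟩ := h (hEx m)
      have h3 := Tan_bracket hY hY'
      have e1 : (Eo B x x + a • 1) * (Eo B m m + a' • 1) - (Eo B m m + a' • 1) * (Eo B x x + a • 1) =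
          Eo B x x * Eo B m m - Eo B m m * Eo B x x := by
        simp only [add_mul, mul_add, smul_mul_assoc, mul_smul_comm, one_mul, mul_one]
        module
      rw [e1, bracket_Eo B halt, hxm, one_smul] at h3
      have h4 := Tan_bracket hY h3
      have e2 : (Eo B x x + a • 1) * so B x m - so B x m * (Eo B x x + a • 1) =
          Eo B x x * so B x m - so B x m * Eo B x x := by
        simp only [add_mul, mul_add, smul_mul_assoc, mul_smul_comm, one_mul, mul_one]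
        module
      rw [e2, bracket_so B halt, hxm, one_smul, halt, zero_smul, add_zero, so_self] at h4
      have h5 : (2 : ℤ_[2]) • Y * ((2 : ℤ_[2]) • Y * (2 : ℤ_[2]) • Y' -
          (2 : ℤ_[2]) • Y' * (2 : ℤ_[2]) • Y) -
          ((2 : ℤ_[2]) • Y * (2 : ℤ_[2]) • Y' -
          (2 : ℤ_[2]) • Y' * (2 : ℤ_[2]) • Y) * (2 : ℤ_[2]) • Y =
          (2 : ℤ_[2]) • ((2 : ℤ_[2]) ^ 1 • ((2 : ℤ_[2]) •
            (Y * (Y * Y' - Y' * Y) - (Y * Y' - Y' * Y) * Y))) := by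
        simp only [smul_mul_assoc, mul_smul_comm, mul_sub, sub_mul, smul_sub, smul_smul, mul_assoc,
          pow_one]
      rw [h5] at h4
      exact ⟨Eo B x x, ⟨hEx x, _, Tan_cancel h4⟩, 0, by rw [smul_zero, add_zero]⟩
    · obtain ⟨y, hy⟩ := hnd x (fun w hw => hu ⟨w, hw⟩)
      rw [← hy, Eo_smul, mul_smul]
      exact h2 _
  refine nakayama_sp B (p1 T) hle ?_
  let n := Fintype.card (Module.Free.ChooseBasisIndex ℤ_[2] T)
  let b₀ : Module.Basis (Fin n) ℤ_[2] T :=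
    (Module.Free.chooseBasis ℤ_[2] T).reindex (Fintype.equivFin _)
  refine spQ_le B hnd (p1 T) halt (fun x => by simp) (fun _ _ => rfl) (fun _ _ _ => rfl) b₀ _
    (fun q u => hE u) fun q u w => ?_
  have h3 : so B u w = Eo B (u + w) (u + w) - Eo B u u - Eo B w w := by
    rw [Eo_add]
    abel
  change so B u w ∈ _
  rw [h3]
  exact Submodule.sub_mem _ (Submodule.sub_mem _ (hE _) (hE _)) (hE _)

include halt hnd in
/-- All elements are tangent with zero values. -/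
theorem Tan_of_PS (h : spQ B (p1 T) ≤ PS ρ t B) {X : Module.End ℤ_[2] T}
    (hX : X ∈ spQ B (p1 T)) : Tan ρ t X 0 := by
  have key : ∀ b, spQ B (p1 T) ≤ PLt ρ t B (p1 T) (b + 1) := by
    intro b
    induction b with
    | zero => exact PS_start halt hnd h
    | succ b ih =>
      exact PLt_succ B halt hnd (p1 T) (fun x => by simp)
        (fun _ _ => rfl) (fun _ _ _ h => absurd rfl h) (fun _ _ _ => rfl) (Nat.succ_pos b) ih
  refine TanA_closed fun b => ?_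
  obtain ⟨-, Y, hY⟩ := key b hX
  refine ⟨(0, (2 : ℤ_[2]) • Y), ?_⟩
  unfold Tan at hY
  rw [Prod.smul_mk, Prod.mk_add_mk, smul_zero, add_zero, zero_add, smul_smul, ← pow_succ]
  exact hY

include hB in
/-- The element of the algebra given by one automorphism. -/
theorem PS_of_elem {s : Γ} {U : Module.End ℤ_[2] T}
    (hU : ∃ Z, ρ s * ρ s = 1 + (4 : ℤ_[2]) • (U + (2 : ℤ_[2]) • Z))
    (hχ : ∃ z, (χ s : ℤ_[2]) = 1 + 8 * z) (ht : ∃ M, t s = 1 + (4 : ℤ_[2]) • M) :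
    U ∈ nn (PS ρ t B) := by
  obtain ⟨Z, hU⟩ := hU
  obtain ⟨z, hz⟩ := hχ
  obtain ⟨M, hM⟩ := ht
  obtain ⟨Y₁, Z₁, hY₁, hL₁⟩ := exists_logr (A := Module.End ℤ_[2] T) 0 (U + (2 : ℤ_[2]) • Z)
  obtain ⟨Y₂, Z₂, hY₂, hL₂⟩ := exists_logr (A := A) 1 (M + (2 : ℤ_[2]) • (M * M))
  obtain ⟨Y₃, Z₃, hY₃, hL₃⟩ := exists_logr (A := ℤ_[2]) 2 (z + 4 * z ^ 2)
  have h1 : TanA (MonoidHom.prod (ρ : Γ →* Module.End ℤ_[2] T) (t.prod (chR χ))) (Y₁, (Y₂, Y₃)) := by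
    refine TanA_log (s := s) (X₀ := ((2 : ℤ_[2]) ^ 0 • (U + (2 : ℤ_[2]) • Z),
      ((2 : ℤ_[2]) ^ 1 • (M + (2 : ℤ_[2]) • (M * M)), (2 : ℤ_[2]) ^ 2 • (z + 4 * z ^ 2)))) ?_
      fun m => ?_
    · refine Prod.ext ?_ (Prod.ext ?_ ?_)
      · change ρ s * ρ s = 1 + (4 : ℤ_[2]) • ((2 : ℤ_[2]) ^ 0 • (U + (2 : ℤ_[2]) • Z))
        rw [hU, pow_zero, one_smul]
      · change t s * t s = 1 + (4 : ℤ_[2]) • ((2 : ℤ_[2]) ^ 1 • (M + (2 : ℤ_[2]) • (M * M)))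
        rw [hM]
        simp only [mul_add, add_mul, one_mul, mul_one, smul_add, mul_smul_comm, smul_mul_assoc,
          smul_smul]
        module
      · change (χ s : ℤ_[2]) * (χ s : ℤ_[2]) = 1 + (4 : ℤ_[2]) • ((2 : ℤ_[2]) ^ 2 • (z + 4 * z ^ 2))
        rw [hz]
        simp only [smul_eq_mul]
        ring
    · obtain ⟨V₁, h1⟩ := hL₁ m
      obtain ⟨V₂, h2⟩ := hL₂ m
      obtain ⟨V₃, h3⟩ := hL₃ m
      refine ⟨(V₁, (V₂, V₃)), ?_⟩
      rw [Yr_prod, Yr_prod]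
      exact Prod.ext h1 (Prod.ext h2 h3)
  have h2 : Tan ρ t Y₁ Y₂ :=
    TanA_congr (R' := MonoidHom.prod (ρ : Γ →* Module.End ℤ_[2] T) t)
      ((AlgHom.fst ℤ_[2] (Module.End ℤ_[2] T) (A × ℤ_[2])).prod
        ((AlgHom.fst ℤ_[2] A ℤ_[2]).comp (AlgHom.snd ℤ_[2] (Module.End ℤ_[2] T) (A × ℤ_[2]))))
      (fun _ => rfl) h1
  have h3 : TanA (MonoidHom.prod (ρ : Γ →* Module.End ℤ_[2] T) (chR χ)) (Y₁, Y₃) :=
    TanA_congr (R' := MonoidHom.prod (ρ : Γ →* Module.End ℤ_[2] T) (chR χ))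
      ((AlgHom.fst ℤ_[2] (Module.End ℤ_[2] T) (A × ℤ_[2])).prod
        ((AlgHom.snd ℤ_[2] A ℤ_[2]).comp (AlgHom.snd ℤ_[2] (Module.End ℤ_[2] T) (A × ℤ_[2]))))
      (fun _ => rfl) h1
  have h4 := mult_of_tan hB h3
  set c : ℤ_[2] := 2 * ((z + 4 * z ^ 2) + 2 * Z₃) with hc
  have hc' : Y₃ = 2 * c := by
    rw [hY₃, hc, smul_eq_mul, smul_eq_mul]
    ring
  refine ⟨Y₁ - c • 1, ⟨⟨fun x y => ?_, fun _ _ => rfl⟩, c,
    M + (2 : ℤ_[2]) • (M * M) + (2 : ℤ_[2]) • Z₂, ?_⟩,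
    -(Z + Z₁) + ((z + 4 * z ^ 2) + 2 * Z₃) • 1, ?_⟩
  · have h5 := h4 x y
    rw [hc'] at h5
    simp only [LinearMap.sub_apply, LinearMap.smul_apply, Module.End.one_apply, map_sub, map_smul,
      smul_eq_mul]
    linear_combination h5
  · rw [sub_add_cancel, hY₂, pow_one] at *
    exact h2
  · rw [hY₁, pow_zero, one_smul, hc]
    module

variable {κ : Type*} (σ : κ → Γ) (U : κ → Module.End ℤ_[2] T)

/-- The elements `U k` generate the symplectic Lie algebra modulo two. -/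
def GenTwo (B : T →ₗ[ℤ_[2]] T →ₗ[ℤ_[2]] ℤ_[2]) (U : κ → Module.End ℤ_[2] T) : Prop :=
  ∀ 𝔫 : Submodule ℤ_[2] (Module.End ℤ_[2] T), (∀ X, (2 : ℤ_[2]) • X ∈ 𝔫) →
    (∀ X ∈ 𝔫, ∀ Y ∈ 𝔫, X * Y - Y * X ∈ 𝔫) → (∀ k, U k ∈ 𝔫) → spQ B (p1 T) ≤ 𝔫

include halt hnd hB in
/-- **One factor, with values.** -/
theorem single {κ : Type*} (σ : κ → Γ) (U : κ → Module.End ℤ_[2] T) (hgen : GenTwo B U)
    (hU : ∀ k, ∃ Z, ρ (σ k) * ρ (σ k) = 1 + (4 : ℤ_[2]) • (U k + (2 : ℤ_[2]) • Z))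
    (hχ : ∀ k, ∃ z, (χ (σ k) : ℤ_[2]) = 1 + 8 * z)
    (ht : ∀ k, ∃ M, t (σ k) = 1 + (4 : ℤ_[2]) • M)
    {X : Module.End ℤ_[2] T} (hX : X ∈ spQ B (p1 T)) : Tan ρ t X 0 :=
  Tan_of_PS halt hnd (nakayama_sp B (p1 T) (fun _ h => h.1) (hgen _ nnPS_two
    (fun _ h _ h' => nnPS_bracket h h') fun k => PS_of_elem hB (hU k) (hχ k) (ht k))) hX

end

end Pool.Agent.H852.J
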