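import Mathlib
import Pool.Agent.H852.J.T2
import Pool.Graph.R_pool_sql_team_seeded_63374d34.N171.TG.Tn7

/-!
# Joint tangent vectors: triangular families
-/

set_option linter.unusedSectionVars false
set_option autoImplicit false

namespace Pool.Agent.H852.J

open PadicInt Module Pool.Agent.N171 Pool.Agent.N171.Al Pool.Agent.N171.TG

noncomputable section

/-- A linear map which vanishes on all `R s - 1` vanishes on the tangent vectors. -/
theorem lin_zero {A : Type*} [Ring A] [Algebra ℤ_[2] A] {Γ : Type*} [Group Γ] {R : Γ →* A}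
    {M : Type*} [AddCommGroup M] [Module ℤ_[2] M] [Module.Finite ℤ_[2] M] [Module.Free ℤ_[2] M]
    (L : A →ₗ[ℤ_[2]] M) (hL : ∀ s, L (R s - 1) = 0) {x : A} (hx : TanA R x) : L x = 0 := by
  let b := Module.Free.chooseBasis ℤ_[2] M
  have h1 : ∀ m : ℕ, ∃ y : M, L x = (2 : ℤ_[2]) ^ m • y := by
    intro m
    obtain ⟨n₀, h⟩ := hx m
    obtain ⟨σ, Z, hσ⟩ := h n₀ le_rfl
    have h2 := hL σ
    rw [hσ, add_sub_cancel_left, map_smul] at h2
    have h3 : L (x + (2 : ℤ_[2]) ^ m • Z) = 0 := by
      have h4 : (2 : ℤ_[2]) ^ n₀ ≠ 0 := pow_ne_zero _ (by norm_num)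
      apply b.repr.injective
      ext i
      have h5 := congrArg (fun y => b.repr y i) h2
      simp only [map_smul, Finsupp.smul_apply, map_zero, Finsupp.zero_apply, smul_eq_mul] at h5
      rw [(mul_eq_zero.1 h5).resolve_left h4, map_zero, Finsupp.zero_apply]
    rw [map_add, map_smul] at h3
    exact ⟨-L Z, by rw [smul_neg]; exact eq_neg_of_add_eq_zero_left h3⟩
  apply b.repr.injective
  ext i
  rw [map_zero, Finsupp.zero_apply]
  refine eq_zero_of_div fun m => ?_
  obtain ⟨y, hy⟩ := h1 m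
  exact ⟨b.repr y i, by rw [hy, map_smul, Finsupp.smul_apply, smul_eq_mul]⟩

section one

variable {T : Type*} [AddCommGroup T] [Module ℤ_[2] T] [Module.Finite ℤ_[2] T]
  [Module.Free ℤ_[2] T] {B : T →ₗ[ℤ_[2]] T →ₗ[ℤ_[2]] ℤ_[2]} (halt : ∀ x, B x x = 0)
  (hnd : ∀ v, (∀ w, ¬ IsUnit (B v w)) → ∃ u, (2 : ℤ_[2]) • u = v)

theorem mem_spQ_iff {X : Module.End ℤ_[2] T} : X ∈ spQ B (p1 T) ↔ ∀ x y, B (X x) y + B x (X y) = 0 :=
  ⟨fun h => h.1, fun h => ⟨h, fun _ _ => rfl⟩⟩

include hnd in
theorem sub_of_zero (h : ∀ x y, B x y = 0) (x : T) : x = 0 := by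
  let n := Fintype.card (Module.Free.ChooseBasisIndex ℤ_[2] T)
  let b₀ : Module.Basis (Fin n) ℤ_[2] T :=
    (Module.Free.chooseBasis ℤ_[2] T).reindex (Fintype.equivFin _)
  exact (exists_dual B hnd b₀).2 x fun j => h _ _

include halt hnd in
/-- A saturated submodule which contains all brackets contains the symplectic Lie algebra. -/
theorem sp_of_brackets {S : Submodule ℤ_[2] (Module.End ℤ_[2] T)} (hle : S ≤ spQ B (p1 T))
    (hbr : ∀ P ∈ spQ B (p1 T), ∀ Q ∈ spQ B (p1 T), P * Q - Q * P ∈ S)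
    (hsat : ∀ X, (2 : ℤ_[2]) • X ∈ S → X ∈ S) : spQ B (p1 T) ≤ S := by
  have hEx : ∀ y : T, Eo B y y ∈ spQ B (p1 T) := fun y =>
    Eo_spQ B halt (p1 T) (fun _ _ => rfl) (fun _ _ _ h => absurd rfl h) (fun _ _ _ => rfl) () y
  have hso : ∀ u w, so B u w = Eo B (u + w) (u + w) - Eo B u u - Eo B w w := by
    intro u w
    rw [Eo_add]
    abel
  have hE : ∀ x : T, Eo B x x ∈ nn S := by
    intro x
    by_cases hu : ∃ w, IsUnit (B x w)
    · obtain ⟨w, c, hc⟩ := hu
      set m : T := ((c⁻¹ : ℤ_[2]ˣ) : ℤ_[2]) • w with hm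
      have hxm : B x m = 1 := by
        rw [hm, map_smul, ← hc, smul_eq_mul, Units.inv_mul]
      have h1 := hbr _ (hEx x) (so B x m) (by
        rw [hso]
        exact Submodule.sub_mem _ (Submodule.sub_mem _ (hEx _) (hEx _)) (hEx _))
      rw [bracket_so B halt, hxm, one_smul, halt, zero_smul, add_zero, so_self] at h1
      exact ⟨_, hsat _ h1, 0, by rw [smul_zero, add_zero]⟩
    · obtain ⟨y, hy⟩ := hnd x (fun w hw => hu ⟨w, hw⟩)
      rw [← hy, Eo_smul, mul_smul]
      exact ⟨0, Submodule.zero_mem _, _, by rw [zero_add]⟩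
  refine nakayama_sp B (p1 T) hle ?_
  let n := Fintype.card (Module.Free.ChooseBasisIndex ℤ_[2] T)
  let b₀ : Module.Basis (Fin n) ℤ_[2] T :=
    (Module.Free.chooseBasis ℤ_[2] T).reindex (Fintype.equivFin _)
  refine spQ_le B hnd (p1 T) halt (fun x => by simp) (fun _ _ => rfl) (fun _ _ _ => rfl) b₀ _
    (fun q u => hE u) fun q u w => ?_
  change so B u w ∈ _
  rw [hso]
  exact Submodule.sub_mem _ (Submodule.sub_mem _ (hE _) (hE _)) (hE _)

end one

section many

variable {ι : Type*} [Fintype ι] [DecidableEq ι] {T : ι → Type*} [∀ i, AddCommGroup (T i)]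
  [∀ i, Module ℤ_[2] (T i)] {Γ : Type*} [Group Γ] [∀ i, Module.Finite ℤ_[2] (T i)]
  [∀ i, Module.Free ℤ_[2] (T i)]
  (ρ : ∀ i, Representation ℤ_[2] Γ (T i)) {A : Type*} [Ring A] [Algebra ℤ_[2] A]
  [Module.Finite ℤ_[2] A] [Module.Free ℤ_[2] A] (t : Γ →* A)
  {B : ∀ i, T i →ₗ[ℤ_[2]] T i →ₗ[ℤ_[2]] ℤ_[2]} {χ : Γ →* ℤ_[2]ˣ}

/-- The action on the summands of lower rank. -/
def lower (r : ι → ℕ) (i : ι) : Γ →* (∀ j, Module.End ℤ_[2] (T j)) where
  toFun s j := if r j < r i then ρ j s else 1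
  map_one' := by
    funext j
    change (if r j < r i then ρ j 1 else 1) = 1
    split_ifs
    · rw [map_one]
    · rfl
  map_mul' s s' := by
    funext j
    change (if r j < r i then ρ j (s * s') else 1) =
      (if r j < r i then ρ j s else 1) * (if r j < r i then ρ j s' else 1)
    split_ifs
    · rw [map_mul]
    · rw [one_mul]

theorem lower_of_lt {r : ι → ℕ} {i j : ι} (h : r j < r i) (s : Γ) : lower ρ r i s j = ρ j s :=
  if_pos h

theorem lower_of_not {r : ι → ℕ} {i j : ι} (h : ¬ r j < r i) (s : Γ) : lower ρ r i s j = 1 :=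
  if_neg h

/-- the joint action with the values -/
abbrev jw : Γ →* (∀ i, Module.End ℤ_[2] (T i)) × A := (joint ρ).prod t

theorem sum_tan {S : Finset ι} {X : ∀ i, Module.End ℤ_[2] (T i)}
    (h : ∀ i ∈ S, TanA (jw ρ t) (Pi.single i (X i), 0)) :
    TanA (jw ρ t) (∑ i ∈ S, Pi.single i (X i), 0) := by
  induction S using Finset.induction_on with
  | empty =>
    rw [Finset.sum_empty]
    exact TanA_zero
  | insert a S ha ih =>
    rw [Finset.sum_insert ha]
    have h1 := TanA_add (h a (Finset.mem_insert_self a S))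
      (ih fun i hi => h i (Finset.mem_insert_of_mem hi))
    rwa [Prod.mk_add_mk, add_zero] at h1

variable {ρ t}

/-- lifting of a tangent vector of a summand with a part of the others -/
theorem lift_joint (i : ι) {A₁ : Type*} [Ring A₁] [Algebra ℤ_[2] A₁] [Module.Finite ℤ_[2] A₁]
    [Module.Free ℤ_[2] A₁] (R₁ : Γ →* A₁) {X : Module.End ℤ_[2] (T i)} {Y : A₁}
    (h : TanA (MonoidHom.prod (ρ i : Γ →* Module.End ℤ_[2] (T i)) R₁) (X, Y)) (χ : Γ →* ℤ_[2]ˣ) :
    ∃ (a : ℕ) (W : ∀ j, Module.End ℤ_[2] (T j)) (Z : A) (c : ℤ_[2]),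
      TanA ((jw ρ t).prod (R₁.prod (chR χ))) ((W, Z), ((2 : ℤ_[2]) ^ a • Y, c)) ∧
      W i = (2 : ℤ_[2]) ^ a • X := by
  obtain ⟨a, ⟨⟨W, Z⟩, c⟩, hW⟩ := lift _ ((jw ρ t).prod (chR χ)) h
  rw [Prod.smul_mk] at hW
  refine ⟨a, W, Z, c, ?_, ?_⟩
  · have h1 := TanA_fun (R' := (jw ρ t).prod (R₁.prod (chR χ)))
      (fun x : (Module.End ℤ_[2] (T i) × A₁) × (((∀ i, Module.End ℤ_[2] (T i)) × A) × ℤ_[2]) =>
        ((x.2.1.1, x.2.1.2), (x.1.2, x.2.2))) (fun _ => rfl) (fun _ _ _ _ => rfl) hW
    exact h1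
  · let L : ((Module.End ℤ_[2] (T i) × A₁) × (((∀ i, Module.End ℤ_[2] (T i)) × A) × ℤ_[2])) →ₗ[ℤ_[2]]
        Module.End ℤ_[2] (T i) :=
      { toFun := fun x => x.2.1.1 i - x.1.1
        map_add' := fun x y => by
          change (x.2.1.1 i + y.2.1.1 i) - (x.1.1 + y.1.1) = _
          abel
        map_smul' := fun c x => by
          change c • x.2.1.1 i - c • x.1.1 = _
          rw [← smul_sub]
          rfl }
    have h1 := lin_zero L (fun s => by
      change (ρ i s - 1) - (ρ i s - 1) = 0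
      rw [sub_self]) hW
    exact sub_eq_zero.1 h1

variable (halt : ∀ i x, B i x x = 0)
  (hnd : ∀ i v, (∀ w, ¬ IsUnit (B i v w)) → ∃ u, (2 : ℤ_[2]) • u = v)
  (hB : ∀ i s x y, B i (ρ i s x) (ρ i s y) = (χ s : ℤ_[2]) * B i x y)

include hnd hB in
/-- the components of a joint tangent vector with one component in the symplectic algebra -/
theorem comp_sp {A₁ : Type*} [Ring A₁] [Algebra ℤ_[2] A₁] {R₁ : Γ →* A₁} {i : ι}
    {W : ∀ j, Module.End ℤ_[2] (T j)} {Z : A} {Y : A₁} {c : ℤ_[2]}
    (h : TanA ((jw ρ t).prod (R₁.prod (chR χ))) ((W, Z), (Y, c)))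
    (hW : W i ∈ spQ (B i) (p1 (T i))) (hi : ∃ x y, B i x y ≠ 0) (j : ι) :
    W j ∈ spQ (B j) (p1 (T j)) := by
  have hm : ∀ j x y, B j (W j x) y + B j x (W j y) = c * B j x y := by
    intro j
    have h1 := TanA_fun (R' := MonoidHom.prod (ρ j : Γ →* Module.End ℤ_[2] (T j)) (chR χ))
      (fun x : ((∀ i, Module.End ℤ_[2] (T i)) × A) × (A₁ × ℤ_[2]) => (x.1.1 j, x.2.2))
      (fun _ => rfl) (fun _ _ _ _ => rfl) h
    exact mult_of_tan (hB j) h1
  obtain ⟨x, y, hxy⟩ := hi
  have hc : c = 0 := by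
    have h1 := hm i x y
    rw [hW.1 x y] at h1
    exact (mul_eq_zero.1 h1.symm).resolve_right hxy
  refine mem_spQ_iff.2 fun x y => ?_
  rw [hm, hc, zero_mul]

include hnd hB in
/-- **Triangular families.** -/
theorem tri (r : ι → ℕ) (hr : Function.Injective r)
    (H : ∀ i, ∀ X ∈ spQ (B i) (p1 (T i)),
      TanA (MonoidHom.prod (ρ i : Γ →* Module.End ℤ_[2] (T i)) ((lower ρ r i).prod t)) (X, (0, 0)))
    {X : ∀ i, Module.End ℤ_[2] (T i)} (hX : ∀ i, X i ∈ spQ (B i) (p1 (T i))) :
    TanA (jw ρ t) (X, 0) := by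
  have key : ∀ (n : ℕ) (i : ι), (∀ j, r j ≤ r i + n) → ∀ X ∈ spQ (B i) (p1 (T i)),
      TanA (jw ρ t) (Pi.single i X, 0) := by
    intro n
    induction n using Nat.strong_induction_on with
    | _ n ih =>
    intro i hn X hX
    by_cases hi : ∃ x y, B i x y ≠ 0
    · obtain ⟨a, W, Z, c, hW, hWi⟩ := lift_joint (t := t) i _ (H i X hX) χ
      rw [Prod.smul_mk, smul_zero, smul_zero] at hW
      have hsp := comp_sp hnd hB hW (i := i) (by rw [hWi]; exact Submodule.smul_mem _ _ hX) hi
      have hZ : Z = 0 := by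
        let L : (((∀ i, Module.End ℤ_[2] (T i)) × A) × (((∀ j, Module.End ℤ_[2] (T j)) × A) × ℤ_[2]))
            →ₗ[ℤ_[2]] A :=
          { toFun := fun x => x.1.2 - x.2.1.2
            map_add' := fun x y => by
              change (x.1.2 + y.1.2) - (x.2.1.2 + y.2.1.2) = _
              abel
            map_smul' := fun c x => by
              change c • x.1.2 - c • x.2.1.2 = _
              rw [← smul_sub]
              rfl }
        have h1 := lin_zero L (fun s => by
          change (t s - 1) - (t s - 1) = 0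
          rw [sub_self]) hW
        change Z - 0 = 0 at h1
        rwa [sub_zero] at h1
      have hlow : ∀ j, r j < r i → W j = 0 := by
        intro j hj
        let L : (((∀ i, Module.End ℤ_[2] (T i)) × A) × (((∀ j, Module.End ℤ_[2] (T j)) × A) × ℤ_[2]))
            →ₗ[ℤ_[2]] Module.End ℤ_[2] (T j) :=
          { toFun := fun x => x.1.1 j - x.2.1.1 j
            map_add' := fun x y => by
              change (x.1.1 j + y.1.1 j) - (x.2.1.1 j + y.2.1.1 j) = _
              abel
            map_smul' := fun c x => by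
              change c • x.1.1 j - c • x.2.1.1 j = _
              rw [← smul_sub]
              rfl }
        have h1 := lin_zero L (fun s => by
          change (ρ j s - 1) - (lower ρ r i s j - 1) = 0
          rw [lower_of_lt ρ hj, sub_self]) hW
        change W j - 0 = 0 at h1
        rwa [sub_zero] at h1
      have h1 : TanA (jw ρ t) (W, 0) := by
        have h2 := TanA_fun (R' := jw ρ t) Prod.fst (fun _ => rfl) (fun _ _ _ _ => rfl) hW
        change TanA (jw ρ t) (W, Z) at h2
        rwa [hZ] at h2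
      have h2 : TanA (jw ρ t) (∑ j ∈ Finset.univ.filter (fun j => r i < r j), Pi.single j (W j), 0) := by
        refine sum_tan ρ t fun j hj => ?_
        rw [Finset.mem_filter] at hj
        have h3 := hn j
        refine ih (r i + n - r j) (by omega) j (fun k => ?_) (W j) (hsp j)
        have h4 := hn k
        omega
      have h3 : W - ∑ j ∈ Finset.univ.filter (fun j => r i < r j), Pi.single j (W j) =
          (2 : ℤ_[2]) ^ a • (Pi.single i X : ∀ i, Module.End ℤ_[2] (T i)) := by
        funext k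
        rw [Pi.sub_apply, Finset.sum_apply, Pi.smul_apply]
        by_cases hk : k = i
        · subst hk
          rw [Pi.single_eq_same, hWi, Finset.sum_eq_zero, sub_zero]
          intro j hj
          rw [Finset.mem_filter] at hj
          rw [Pi.single_eq_of_ne]
          rintro rfl
          exact lt_irrefl _ hj.2
        · rw [Pi.single_eq_of_ne hk, smul_zero]
          by_cases hk2 : r i < r k
          · rw [Finset.sum_eq_single k]
            · rw [Pi.single_eq_same, sub_self]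
            · intro j _ hj
              rw [Pi.single_eq_of_ne hj.symm]
            · intro h
              exact absurd (Finset.mem_filter.2 ⟨Finset.mem_univ k, hk2⟩) h
          · have h4 : r k < r i := lt_of_le_of_ne (not_lt.1 hk2) fun h => hk (hr h)
            rw [hlow k h4, Finset.sum_eq_zero, sub_zero]
            intro j hj
            rw [Finset.mem_filter] at hj
            rw [Pi.single_eq_of_ne]
            rintro rfl
            exact hk2 hj.2
      have h4 := Submodule.sub_mem _ (mem_tan.2 h1) (mem_tan.2 h2)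
      rw [Prod.mk_sub_mk, h3, sub_zero, mem_tan] at h4
      refine TanA_pow_cancel a ?_
      rwa [Prod.smul_mk, smul_zero]
    · push Not at hi
      have h1 : X = 0 := by
        ext x
        rw [sub_of_zero (hnd i) hi x, map_zero, map_zero]
      rw [h1, Pi.single_zero]
      exact TanA_zero
  have h1 : X = ∑ i, Pi.single i (X i) := (Finset.univ_sum_single X).symm
  rw [h1]
  refine sum_tan ρ t fun i _ => ?_
  refine key (∑ j, r j) i (fun j => ?_) (X i) (hX i)
  have := Finset.single_le_sum (f := r) (fun _ _ => Nat.zero_le _) (Finset.mem_univ j)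
  omega

end many

end

end Pool.Agent.H852.J
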