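import Mathlib
import Pool.Agent.H852.J.T3
import Pool.Graph.R_pool_sql_team_seeded_63374d34.N171.Bg6
import Pool.Graph.R_pool_sql_team_seeded_63374d34.N171.Asm2

/-!
# Transvections modulo four from square roots of differences of branch points
-/

set_option linter.unusedSectionVars false
set_option autoImplicit false

namespace Pool.Agent.H852.J

open Polynomial PadicInt Module Pool.Agent.N171 Pool.Agent.N171.Al Pool.Agent.N171.TG
  Pool.Agent.N171.Pm Pool.Agent.N171.Bg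

noncomputable section

section curve

variable {K F τ : Type*} [Field K] [Field F] [Algebra K F] [IsAlgClosed F] [Fintype τ]
  [DecidableEq τ] {α : τ → F} [Hyp α] [IsDomain (RG (fP α))]
  (hg : ∀ s : F ≃ₐ[K] F, (fP α).map ((s : F ≃+* F) : F →+* F) = fP α)

theorem isAct_fix {s : F ≃ₐ[K] F} (hs : ∀ i, (s : F ≃+* F) (α i) = α i) :
    IsAct (crv α) (ThG α) (Pool.Agent.N171.gL hs) s (Pool.Agent.N171.gP hs) (actG hg s) :=
  isAct_G hg (s := s) (π := 1) hs

/-- the signs of the square roots of the differences: `-1` exactly inside the set `I` -/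
def SignsOn (α : τ → F) (s : F ≃ₐ[K] F) (I : Finset τ) : Prop :=
  (∀ i, s (α i) = α i) ∧ ∀ i j, i ≠ j → ∀ w : F, w ^ 2 = α i - α j →
    s w = if i ∈ I ∧ j ∈ I then -w else w

theorem act_four_G {s : F ≃ₐ[K] F} {I : Finset τ} (hI : Even I.card) (hs : SignsOn α s I)
    (h2 : (2 : F) ≠ 0)
    {v : TateMod 2 (ClG (RG (fP α)))} (hv : v.1 1 = DS (ThG α) I)
    (x : TateMod 2 (ClG (RG (fP α)))) :
    ∃ y, rhoG hg s x = x + (2 : ℤ_[2]) • (Bx (isClasses_ThG (α := α)) h2 v x • v) +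
      (4 : ℤ_[2]) • y := by
  set c := Bx (isClasses_ThG (α := α)) h2 v x with hc
  set y₀ : TateMod 2 (ClG (RG (fP α))) := rhoG hg s x - x - (2 : ℤ_[2]) • (c • v) with hy₀
  have h0 : y₀.1 2 = 0 := by
    have e1 : ((2 : ℤ_[2]) • (c • v)).1 2 = (toZModPow 1 c).val • v.1 1 := by
      have e2 : ((2 : ℤ_[2]) • (c • v)) = (2 : ℕ) • (c • v) := by
        rw [← tm_natCast_smul]
        norm_num
      rw [e2]
      change (2 : ℕ) • (c • v).1 (1 + 1) = _
      rw [tm_succ, tm_smul_apply]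
    have e3 : y₀.1 2 = actG hg s (x.1 2) - x.1 2 - ((2 : ℤ_[2]) • (c • v)).1 2 := rfl
    rw [e3, e1, hv]
    have h4 : (4 : ℕ) • x.1 2 = 0 := tm_tors x 2
    have h5 : (2 : ℕ) • x.1 2 = x.1 1 := tm_succ x 1
    have h6 := act_four (isClasses_ThG (α := α)) (σ := (s : F ≃+* F)) hs.1 (isAct_fix hg hs.1)
      hI hs.2 h4
    rw [h5] at h6
    have h7 := BB_mod (isCurve_crv α) (isClasses_ThG (α := α)) h2 v x
    rw [hv] at h7
    change toZModPow 1 c = 0 ↔ e2 (ThG α) (DS (ThG α) I) (x.1 1) = 1 at h7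
    rcases h6 with ⟨h8, h9⟩ | ⟨h8, h9⟩
    · rw [h9, h7.2 h8, ZMod.val_zero, zero_smul, sub_self, sub_zero]
    · have h10 : toZModPow 1 c ≠ 0 := by
        intro h
        rw [h7.1 h] at h8
        exact neg_one_ne h2 h8.symm
      rw [h9, toZ_one h10, one_smul, add_sub_cancel_left, sub_self]
  obtain ⟨y, hy⟩ := tm_shift_pow (n := 2) h0
  refine ⟨y, ?_⟩
  have h4 : ((2 : ℕ) : ℤ_[2]) ^ 2 = 4 := by norm_num
  rw [h4] at hy
  rw [hy, hy₀]
  abel

instance : Module.Finite ℤ_[2] (TateMod 2 (ClG (RG (fP α)))) := finite_T (isClasses_ThG (α := α))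

/-- the representation matrix form of the previous statement -/
theorem rho_four {s : F ≃ₐ[K] F} {I : Finset τ} (hI : Even I.card) (hs : SignsOn α s I)
    (h2 : (2 : F) ≠ 0)
    {v : TateMod 2 (ClG (RG (fP α)))} (hv : v.1 1 = DS (ThG α) I) :
    ∃ W, rhoG hg s = 1 + (2 : ℤ_[2]) • Eo (Bx (isClasses_ThG (α := α)) h2) v v +
      (4 : ℤ_[2]) • W := by
  let b := Module.Free.chooseBasis ℤ_[2] (TateMod 2 (ClG (RG (fP α))))
  choose w hw using fun i => act_four_G hg hI hs h2 hv (b i)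
  refine ⟨b.constr ℤ_[2] w, b.ext fun i => ?_⟩
  rw [hw]
  simp only [LinearMap.add_apply, LinearMap.smul_apply, Module.Basis.constr_basis, Eo_apply]
  rfl

theorem rho_sq {s : F ≃ₐ[K] F} {I : Finset τ} (hI : Even I.card) (hs : SignsOn α s I)
    (h2 : (2 : F) ≠ 0)
    {v : TateMod 2 (ClG (RG (fP α)))} (hv : v.1 1 = DS (ThG α) I) :
    ∃ Z, rhoG hg s * rhoG hg s = 1 + (4 : ℤ_[2]) •
      (Eo (Bx (isClasses_ThG (α := α)) h2) v v + (2 : ℤ_[2]) • Z) := by
  obtain ⟨W, hW⟩ := rho_four hg hI hs h2 hv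
  set E := Eo (Bx (isClasses_ThG (α := α)) h2) v v with hE
  have hEE : E * E = 0 := by
    ext1 x
    rw [Module.End.mul_apply, hE, Eo_apply, Eo_apply, map_smul, BB_self, smul_zero, zero_smul]
    rfl
  refine ⟨W + E * W + W * E + (2 : ℤ_[2]) • (W * W), ?_⟩
  rw [hW]
  simp only [mul_add, add_mul, one_mul, mul_one, smul_mul_assoc, mul_smul_comm, hEE, smul_zero,
    add_zero]
  module

theorem rho_trivial {s : F ≃ₐ[K] F} (hs : SignsOn α s (∅ : Finset τ)) (h2 : (2 : F) ≠ 0) :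
    ∃ W, rhoG hg s = 1 + (4 : ℤ_[2]) • W := by
  have h0 : (0 : TateMod 2 (ClG (RG (fP α)))).1 1 = DS (ThG α) ∅ := by
    rw [DS, Finset.sum_empty]
    rfl
  obtain ⟨W, hW⟩ := rho_four hg (by simp) hs h2 h0
  refine ⟨W, ?_⟩
  rw [hW]
  have h1 : Eo (Bx (isClasses_ThG (α := α)) h2) 0 0 = 0 := by
    ext1 x
    rw [Eo_apply, smul_zero]
    rfl
  rw [h1, smul_zero, add_zero]

/-! ### generation modulo two -/

variable {κ : Type*} (I : κ → Finset τ) (hI : ∀ k, Even (I k).card)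
  (h2 : (2 : F) ≠ 0) (v : κ → TateMod 2 (ClG (RG (fP α))))
  (hv : ∀ k, (v k).1 1 = DS (ThG α) (I k))

/-- The sets `I k` have even cardinality, generate the sets of even cardinality, and are connected by
odd intersections. -/
structure GenSets {τ κ : Type*} [DecidableEq τ] (I : κ → Finset τ) : Prop where
  even : ∀ k, Even (I k).card
  span : ∀ i j : τ, i ≠ j → ind {i, j} ∈ AddSubgroup.closure (Set.range fun k => ind (I k))
  conn : ∀ k k' : κ, Relation.ReflTransGen (fun k k' => Odd (I k ∩ I k').card) k k'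

include hv hI in
theorem adj_of {k k' : κ} (h : Odd (I k ∩ I k').card) :
    Adj (Bx (isClasses_ThG (α := α)) h2) v (fun _ => ()) k k' := by
  refine ⟨rfl, ?_⟩
  rw [isUnit_iff_toZModPow, Ne, BB_mod, hv, hv]
  have h3 := e2_DS (isClasses_ThG (α := α)) (I k) (I k') (hI k)
  intro h4
  rw [show Pool.Agent.N171.e (crv α) (ThG α) 2 (DS (ThG α) (I k))
    (DS (ThG α) (I k')) = _ from h3, h.neg_one_pow] at h4
  exact neg_one_ne h2 h4

include hv in
theorem span_of {f : τ → ZMod 2}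
    (hf : f ∈ AddSubgroup.closure (Set.range fun k => ind (I k))) :
    ∃ w ∈ Wq v (fun _ => ()) (), w.1 1 = Phi (isClasses_ThG (α := α)) f := by
  induction hf using AddSubgroup.closure_induction with
  | mem f hf =>
    obtain ⟨k, rfl⟩ := hf
    refine ⟨v k, Submodule.subset_span (Or.inl ⟨k, rfl, rfl⟩), ?_⟩
    rw [hv, Phi_ind]
  | zero =>
    refine ⟨0, Submodule.zero_mem _, ?_⟩
    rw [map_zero]
    rfl
  | add f g _ _ hf hg =>
    obtain ⟨w, hw, h⟩ := hf
    obtain ⟨w', hw', h'⟩ := hg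
    refine ⟨w + w', Submodule.add_mem _ hw hw', ?_⟩
    rw [map_add, ← h, ← h']
    rfl
  | neg f _ hf =>
    obtain ⟨w, hw, h⟩ := hf
    refine ⟨-w, Submodule.neg_mem _ hw, ?_⟩
    rw [map_neg, ← h]
    rfl

include hv in
theorem mem_Wq (hspan : ∀ i j : τ, i ≠ j →
      ind {i, j} ∈ AddSubgroup.closure (Set.range fun k => ind (I k)))
    (x : TateMod 2 (ClG (RG (fP α)))) : x ∈ Wq v (fun _ => ()) () := by
  have h1 : (2 : ℕ) • x.1 1 = 0 := by
    have h := tm_tors x 1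
    rw [pow_one] at h
    exact h
  obtain ⟨f, hf, hfx⟩ := exists_even (isClasses_ThG (α := α)) h1
  obtain ⟨w, hw, hw1⟩ := span_of I v hv (mem_of_pairs _ hspan hf)
  obtain ⟨y, hy⟩ := tm_half (a := x - w) (by
    change x.1 1 - w.1 1 = 0
    rw [hw1, hfx, sub_self])
  rw [sub_eq_iff_eq_add] at hy
  rw [hy]
  exact Submodule.add_mem _ (Submodule.subset_span (Or.inr ⟨y, rfl⟩)) hw

theorem nd_of (v : TateMod 2 (ClG (RG (fP α))))
    (hv : ∀ w, ¬ IsUnit (Bx (isClasses_ThG (α := α)) h2 v w)) : ∃ u, (2 : ℤ_[2]) • u = v := by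
  obtain ⟨D, -, hF⟩ := exists_frame (isClasses_ThG (α := α)) h2
  exact hF.nd v hv

/-- **Generation modulo two.** -/
theorem genTwo_of (hG : GenSets I) (hv : ∀ k, (v k).1 1 = DS (ThG α) (I k)) :
    GenTwo (Bx (isClasses_ThG (α := α)) h2)
      (fun k => Eo (Bx (isClasses_ThG (α := α)) h2) (v k) (v k)) := by
  intro 𝔫 hn2 hbr hvn
  have halt : ∀ x, Bx (isClasses_ThG (α := α)) h2 x x = 0 := fun x => BB_self _ _ _ x
  have hconn : ∀ k l : κ, (fun _ => () : κ → Unit) k = (fun _ => () : κ → Unit) l →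
      Relation.ReflTransGen (Adj (Bx (isClasses_ThG (α := α)) h2) v (fun _ => ())) k l :=
    fun k l _ => Relation.ReflTransGen.lift (fun k => k)
      (fun a b hab => adj_of I hG.even h2 v hv hab) _ _ (hG.conn k l)
  let n := Fintype.card (Module.Free.ChooseBasisIndex ℤ_[2] (TateMod 2 (ClG (RG (fP α)))))
  let b₀ : Module.Basis (Fin n) ℤ_[2] (TateMod 2 (ClG (RG (fP α)))) :=
    (Module.Free.chooseBasis ℤ_[2] (TateMod 2 (ClG (RG (fP α))))).reindex (Fintype.equivFin _)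
  exact spQ_le _ (nd_of h2) (p1 _) halt (fun x => by simp)
    (fun _ _ => rfl) (fun _ _ _ => rfl) b₀ 𝔫
    (fun c u => Eo_mem _ halt v (fun _ => ()) 𝔫 hn2 hbr hvn hconn
      (mem_Wq I v hv hG.span u))
    (fun c u w => so_mem _ halt v (fun _ => ()) 𝔫 hn2 hbr hvn hconn
      (mem_Wq I v hv hG.span u) (mem_Wq I v hv hG.span w))

end curve

end

end Pool.Agent.H852.J
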