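import Mathlib
import Pool.Agent.H852.J.G1

/-!
# Joint tangent vectors of several Jacobians
-/

set_option linter.unusedSectionVars false
set_option autoImplicit false

namespace Pool.Agent.H852.J

open Polynomial PadicInt Module Pool.Agent.N171 Pool.Agent.N171.Al Pool.Agent.N171.TG
  Pool.Agent.N171.Pm Pool.Agent.N171.Bg

noncomputable section

section several

variable {K F ι : Type*} [Field K] [Field F] [Algebra K F] [IsAlgClosed F] [Fintype ι]
  [DecidableEq ι] {τ : ι → Type*} [∀ i, Fintype (τ i)] [∀ i, DecidableEq (τ i)]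
  (α : ∀ i, τ i → F) [∀ i, Hyp (α i)] [∀ i, IsDomain (RG (fP (α i)))]
  (hg : ∀ i (s : F ≃ₐ[K] F), (fP (α i)).map ((s : F ≃+* F) : F →+* F) = fP (α i))
  {A : Type*} [Ring A] [Algebra ℤ_[2] A] [Module.Finite ℤ_[2] A] [Module.Free ℤ_[2] A]
  (t : (F ≃ₐ[K] F) →* A)

theorem lower_four {r : ι → ℕ} {i : ι} {s : F ≃ₐ[K] F} (h2 : (2 : F) ≠ 0)
    (hs : ∀ j, r j < r i → SignsOn (α j) s ∅) :
    ∃ M, lower (fun i => rhoG (hg i)) r i s = 1 + (4 : ℤ_[2]) • M := by
  have h1 : ∀ j, ∃ M, lower (fun i => rhoG (hg i)) r i s j = 1 + (4 : ℤ_[2]) • M := by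
    intro j
    by_cases hj : r j < r i
    · rw [lower_of_lt _ hj]
      exact rho_trivial (hg j) (hs j hj) h2
    · rw [lower_of_not _ hj]
      exact ⟨0, by rw [smul_zero, add_zero]⟩
  choose M hM using h1
  exact ⟨M, funext hM⟩

/-- **Joint tangent vectors, triangular families.** -/
theorem tan_tri (h2 : (2 : F) ≠ 0) (r : ι → ℕ) (hr : Function.Injective r) {κ : ι → Type*}
    (I : ∀ i, κ i → Finset (τ i)) (hG : ∀ i, GenSets (I i)) (σ : ∀ i, κ i → (F ≃ₐ[K] F))
    (hσi : ∀ i k, SignsOn (α i) (σ i k) (I i k))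
    (hσj : ∀ i k j, r j < r i → SignsOn (α j) (σ i k) ∅)
    (hχ : ∀ i k, ∃ z, ((cyc K F (σ i k) : ℤ_[2]ˣ) : ℤ_[2]) = 1 + 8 * z)
    (ht : ∀ i k, ∃ M, t (σ i k) = 1 + (4 : ℤ_[2]) • M)
    {X : ∀ i, Module.End ℤ_[2] (TateMod 2 (ClG (RG (fP (α i)))))}
    (hX : ∀ i, X i ∈ spQ (BP α h2 i) (p1 _)) :
    TanA (jw (fun i => rhoG (hg i)) t) (X, 0) := by
  have hB : ∀ i s x y, BP α h2 i (rhoG (hg i) s x) (rhoG (hg i) s y) =
      (cyc K F s : ℤ_[2]) * BP α h2 i x y := by
    intro i s x y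
    exact BB_act (isCurve_crv (α i)) isClasses_ThG h2 (isAct_G (hg i)
      (fun k => prm_spec (α i) (hg i) s k)) x y
  refine tri (B := fun i => BP α h2 i) (χ := cyc K F) (fun i v hv => nd_of h2 v hv) hB r hr
    (fun i Y hY => ?_) hX
  have hl : ∀ k : κ i, ∃ v : TateMod 2 (ClG (RG (fP (α i)))), v.1 1 = DS (ThG (α i)) (I i k) :=
    fun k => tm_lift (two_div (isClasses_ThG (α := α i)))
      (two_DS (isClasses_ThG (α := α i)) (I i k))
  choose v hv using hl
  have h1 := single (ρ := rhoG (hg i)) (χ := cyc K F) (B := BP α h2 i)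
    (t := (lower (fun i => rhoG (hg i)) r i).prod t)
    (fun x => BB_self _ _ _ x) (fun v hv => nd_of h2 v hv) (hB i) (σ i)
    (fun k => Eo (BP α h2 i) (v k) (v k)) (genTwo_of (I i) h2 v (hG i) hv)
    (fun k => rho_sq (hg i) ((hG i).even k) (hσi i k) h2 (hv k)) (hχ i) (fun k => ?_) hY
  · exact h1
  · obtain ⟨M, hM⟩ := lower_four α hg h2 (hσj i k)
    obtain ⟨M', hM'⟩ := ht i k
    exact ⟨(M, M'), Prod.ext hM hM'⟩

end several

/-! ### the automorphisms -/

section kummer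

variable {K F : Type*} [Field K] [Field F] [Algebra K F] [Normal K F]

/-- Automorphisms over an intermediate field with prescribed signs. -/
theorem exists_sigma_M [IsAlgClosed F] (h2 : (2 : F) ≠ 0) (M : IntermediateField K F)
    (l : Mˣ →* ℤˣ) (hl1 : l (-1) = 1) (hl2 : ∀ u : Mˣ, (u : M) = 2 → l u = 1)
    {P : Type*} [Fintype P] (d : P → Mˣ) :
    ∃ σ : F ≃ₐ[K] F, (∀ x : M, σ (x : F) = x) ∧
      (∀ p, ∀ w : F, w ^ 2 = ((d p : M) : F) → σ w = ((l (d p) : ℤ) : F) * w) ∧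
      ∃ z, ((cyc K F σ : ℤ_[2]ˣ) : ℤ_[2]) = 1 + 8 * z := by
  classical
  have hN : Normal M F := Normal.tower_top_of_normal K M F
  have h2M : (2 : M) ≠ 0 := by
    intro h
    apply h2
    have h3 : (2 : F) = algebraMap M F 2 := by rw [map_ofNat]
    rw [h3, h, map_zero]
  let d' : P ⊕ Bool → Mˣ := fun x => match x with
    | Sum.inl p => d p
    | Sum.inr false => -1
    | Sum.inr true => Units.mk0 2 h2M
  choose s hs using fun x => IsAlgClosed.exists_pow_nat_eq (algebraMap M F (d' x : M)) two_pos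
  obtain ⟨σ, hσ⟩ := kummer (K := M) (F := F) h2 d' s hs l
  refine ⟨σ.restrictScalars K, fun x => σ.commutes x, ?_, ?_⟩
  · intro p w hw
    have h3 := hσ (Sum.inl p)
    have h4 := hs (Sum.inl p)
    have h5 : w ^ 2 = s (Sum.inl p) ^ 2 := by
      rw [h4, hw]
      rfl
    change σ w = _
    rcases sq_eq_sq_iff_eq_or_eq_neg.1 h5 with h | h
    · rw [h, h3]
    · rw [h, map_neg, h3, mul_neg]
  · have : ∀ i, HasEnoughRootsOfUnity F (2 ^ i) := by
      intro i
      have : NeZero ((2 ^ i : ℕ) : F) := ⟨by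
        push_cast
        exact pow_ne_zero _ h2⟩
      infer_instance
    have h3 := hσ (Sum.inr false)
    have h4 := hs (Sum.inr false)
    have h5 := hσ (Sum.inr true)
    have h6 := hs (Sum.inr true)
    have e1 : d' (Sum.inr false) = -1 := rfl
    have e2 : d' (Sum.inr true) = Units.mk0 2 h2M := rfl
    rw [e1] at h3 h4
    rw [e2] at h5 h6
    rw [hl1, Units.val_one, Int.cast_one, one_mul] at h3
    rw [hl2 _ rfl, Units.val_one, Int.cast_one, one_mul] at h5
    rw [Units.val_neg, Units.val_one, map_neg, map_one] at h4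
    rw [Units.val_mk0, map_ofNat] at h6
    rw [cyc_apply]
    exact chi_eight h2 (σ : F ≃+* F) h4 h6 h3 h5

end kummer

end

end Pool.Agent.H852.J
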