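import Mathlib
import Pool.Agent.H852.J.G2

/-!
# Pairs of branch points and their conjugates
-/

set_option linter.unusedSectionVars false
set_option autoImplicit false

namespace Pool.Agent.H852.J

open Polynomial PadicInt Module Pool.Agent.N171 Pool.Agent.N171.Al Pool.Agent.N171.TG
  Pool.Agent.N171.Pm Pool.Agent.N171.Bg

noncomputable section

section graph

variable {τ : Type*} [Fintype τ] [DecidableEq τ] {κ : Type*} (p q : κ → τ)

/-- two vertices joined by an edge -/
def Edge (x y : τ) : Prop := ∃ k, (p k = x ∧ q k = y) ∨ (p k = y ∧ q k = x)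

theorem Edge.symm {p q : κ → τ} {x y : τ} (h : Edge p q x y) : Edge p q y x := by
  obtain ⟨k, h | h⟩ := h
  · exact ⟨k, Or.inr h⟩
  · exact ⟨k, Or.inl h⟩

/-- **A connected graph with at least three vertices.** -/
theorem genSets_of_graph (hpq : ∀ k, p k ≠ q k) (h3 : 2 < Fintype.card τ)
    (hc : ∀ x y : τ, Relation.ReflTransGen (Edge p q) x y) :
    GenSets (fun k => ({p k, q k} : Finset τ)) := by
  have hcard : ∀ k, ({p k, q k} : Finset τ).card = 2 := fun k => Finset.card_pair (hpq k)
  refine ⟨fun k => ?_, fun i j hij => ?_, ?_⟩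
  · rw [hcard]
    exact even_two
  · -- spanning
    have h1 : ∀ x y : τ, Edge p q x y → (Pi.single x 1 : τ → ZMod 2) + Pi.single y 1 ∈
        AddSubgroup.closure (Set.range fun k => ind ({p k, q k} : Finset τ)) := by
      intro x y hxy
      have key : ∀ k, (Pi.single (p k) 1 : τ → ZMod 2) + Pi.single (q k) 1 =
          ind ({p k, q k} : Finset τ) := by
        intro k
        funext l
        unfold ind
        rw [Pi.add_apply, Pi.single_apply, Pi.single_apply]
        by_cases h3 : l = p k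
        · subst h3
          simp [hpq k]
        · simp [h3]
      obtain ⟨k, ⟨rfl, rfl⟩ | ⟨rfl, rfl⟩⟩ := hxy
      · rw [key]
        exact AddSubgroup.subset_closure ⟨k, rfl⟩
      · rw [add_comm, key]
        exact AddSubgroup.subset_closure ⟨k, rfl⟩
    have h2 : ∀ x y : τ, Relation.ReflTransGen (Edge p q) x y →
        (Pi.single x 1 : τ → ZMod 2) + Pi.single y 1 ∈
        AddSubgroup.closure (Set.range fun k => ind ({p k, q k} : Finset τ)) := by
      intro x y hxy
      induction hxy with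
      | refl =>
        rw [← Pi.single_add, show (1 : ZMod 2) + 1 = 0 from rfl, Pi.single_zero]
        exact AddSubgroup.zero_mem _
      | @tail y z _ hyz ih =>
        have h3 := AddSubgroup.add_mem _ ih (h1 y z hyz)
        have h4 : (Pi.single x 1 : τ → ZMod 2) + Pi.single y 1 + (Pi.single y 1 + Pi.single z 1) =
            Pi.single x 1 + Pi.single z 1 := by
          have h5 : (Pi.single y 1 : τ → ZMod 2) + Pi.single y 1 = 0 := by
            rw [← Pi.single_add, show (1 : ZMod 2) + 1 = 0 from rfl, Pi.single_zero]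
          calc _ = (Pi.single x 1 : τ → ZMod 2) + (Pi.single y 1 + Pi.single y 1) +
              Pi.single z 1 := by abel
            _ = _ := by rw [h5, add_zero]
        rwa [h4] at h3
    have h3 := h2 i j (hc i j)
    have h4 : (Pi.single i 1 : τ → ZMod 2) + Pi.single j 1 = ind ({i, j} : Finset τ) := by
      funext l
      unfold ind
      rw [Pi.add_apply, Pi.single_apply, Pi.single_apply]
      by_cases h3 : l = i
      · subst h3
        simp [hij]
      · simp [h3]
    rwa [h4] at h3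
  · -- connectedness
    set R : κ → κ → Prop := Relation.ReflTransGen
      (fun k k' : κ => Odd (({p k, q k} : Finset τ) ∩ {p k', q k'}).card) with hR
    have hsymm : ∀ k k', R k k' → R k' k := by
      intro k k' h
      induction h with
      | refl => exact Relation.ReflTransGen.refl
      | tail _ hbc ih =>
        refine Relation.ReflTransGen.head ?_ ih
        rwa [Finset.inter_comm]
    have hone : ∀ (k k' : κ) (x : τ), x ∈ ({p k, q k} : Finset τ) → x ∈ ({p k', q k'} : Finset τ) →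
        ({p k, q k} : Finset τ) ≠ {p k', q k'} → R k k' := by
      intro k k' x hx hx' hne
      refine Relation.ReflTransGen.single ?_
      have h1 : (({p k, q k} : Finset τ) ∩ {p k', q k'}).card = 1 := by
        refine le_antisymm ?_ (Finset.card_pos.2 ⟨x, Finset.mem_inter.2 ⟨hx, hx'⟩⟩)
        by_contra h
        push Not at h
        have h2 : (({p k, q k} : Finset τ) ∩ {p k', q k'}).card ≤ 2 :=
          (Finset.card_le_card Finset.inter_subset_left).trans (hcard k).le
        have h3 : ({p k, q k} : Finset τ) ∩ {p k', q k'} = {p k, q k} :=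
          Finset.eq_of_subset_of_card_le Finset.inter_subset_left (by rw [hcard]; omega)
        have h4 : ({p k, q k} : Finset τ) ∩ {p k', q k'} = {p k', q k'} :=
          Finset.eq_of_subset_of_card_le Finset.inter_subset_right (by rw [hcard]; omega)
        exact hne (h3.symm.trans h4)
      rw [h1]
      exact odd_one
    have hsame : ∀ k k' : κ, ({p k, q k} : Finset τ) = {p k', q k'} → R k k' := by
      intro k k' he
      -- a third vertex
      obtain ⟨w, hw⟩ : ∃ w, w ∉ ({p k, q k} : Finset τ) := by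
        by_contra h
        push Not at h
        have h1 : (Finset.univ : Finset τ) ⊆ {p k, q k} := fun w _ => h w
        have h2 := Finset.card_le_card h1
        rw [hcard, Finset.card_univ] at h2
        omega
      -- an edge which leaves the set
      have h1 : ∀ y, Relation.ReflTransGen (Edge p q) (p k) y → y ∉ ({p k, q k} : Finset τ) →
          ∃ a b, a ∈ ({p k, q k} : Finset τ) ∧ b ∉ ({p k, q k} : Finset τ) ∧ Edge p q a b := by
        intro y hy
        induction hy with
        | refl =>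
          intro h
          exact absurd (Finset.mem_insert_self _ _) h
        | @tail b c hb hbc ih =>
          intro hc'
          by_cases hb' : b ∈ ({p k, q k} : Finset τ)
          · exact ⟨b, c, hb', hc', hbc⟩
          · exact ih hb'
      obtain ⟨a, b, ha, hb, m, hm⟩ := h1 w (hc _ _) hw
      have ha' : a ∈ ({p m, q m} : Finset τ) := by
        rcases hm with ⟨rfl, rfl⟩ | ⟨rfl, rfl⟩ <;> simp
      have hb' : b ∈ ({p m, q m} : Finset τ) := by
        rcases hm with ⟨rfl, rfl⟩ | ⟨rfl, rfl⟩ <;> simp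
      have hne : ({p k, q k} : Finset τ) ≠ {p m, q m} := fun h => hb (by rw [h]; exact hb')
      refine (hone k m a ha ha' hne).trans (hsymm _ _ (hone k' m a ?_ ha' ?_))
      · rwa [← he]
      · rwa [← he]
    have hvert : ∀ (k k' : κ) (x : τ), x ∈ ({p k, q k} : Finset τ) → x ∈ ({p k', q k'} : Finset τ) →
        R k k' := by
      intro k k' x hx hx'
      by_cases he : ({p k, q k} : Finset τ) = {p k', q k'}
      · exact hsame k k' he
      · exact hone k k' x hx hx' he
    intro k k'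
    have h1 : ∀ y, Relation.ReflTransGen (Edge p q) (p k) y → ∀ m : κ, y ∈ ({p m, q m} : Finset τ) →
        R k m := by
      intro y hy
      induction hy with
      | refl =>
        intro m hm
        exact hvert k m (p k) (Finset.mem_insert_self _ _) hm
      | @tail b c hb hbc ih =>
        intro m hm
        obtain ⟨n, hn⟩ := hbc
        have hbn : b ∈ ({p n, q n} : Finset τ) := by
          rcases hn with ⟨rfl, rfl⟩ | ⟨rfl, rfl⟩ <;> simp
        have hcn : c ∈ ({p n, q n} : Finset τ) := by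
          rcases hn with ⟨rfl, rfl⟩ | ⟨rfl, rfl⟩ <;> simp
        exact (ih n hbn).trans (hvert n m c hcn hm)
    exact h1 (p k') (hc _ _) k' (Finset.mem_insert_self _ _)

end graph

section several

variable {K F ι : Type*} [Field K] [Field F] [Algebra K F] [IsAlgClosed F] [Normal K F] [Fintype ι]
  [DecidableEq ι] {τ : ι → Type*} [∀ i, Fintype (τ i)] [∀ i, DecidableEq (τ i)]
  (α : ∀ i, τ i → F) [∀ i, Hyp (α i)] [∀ i, IsDomain (RG (fP (α i)))]
  (hg : ∀ i (s : F ≃ₐ[K] F), (fP (α i)).map ((s : F ≃+* F) : F →+* F) = fP (α i))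
  {A : Type*} [Ring A] [Algebra ℤ_[2] A] [Module.Finite ℤ_[2] A] [Module.Free ℤ_[2] A]
  (t : (F ≃ₐ[K] F) →* A)

theorem SignsOn.conj {τ : Type*} [Fintype τ] [DecidableEq τ] {α : τ → F} [Hyp α]
    (hg : ∀ s : F ≃ₐ[K] F, (fP α).map ((s : F ≃+* F) : F →+* F) = fP α)
    {s : F ≃ₐ[K] F} {I : Finset τ} (hs : SignsOn α s I) (g : F ≃ₐ[K] F) :
    SignsOn α (g * s * g⁻¹) (I.image (prm α hg g)) := by
  have hg1 : ∀ i, g⁻¹ (α i) = α ((prm α hg g)⁻¹ i) := by
    intro i
    rw [← map_inv]
    exact prm_spec α hg g⁻¹ i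
  refine ⟨fun i => ?_, fun i j hij w hw => ?_⟩
  · rw [AlgEquiv.mul_apply, AlgEquiv.mul_apply, hg1, hs.1, prm_spec α hg]
    simp
  · have h1 : (g⁻¹ w) ^ 2 = α ((prm α hg g)⁻¹ i) - α ((prm α hg g)⁻¹ j) := by
      rw [← map_pow, hw, map_sub, hg1, hg1]
    have h2 := hs.2 _ _ (fun h => hij ((prm α hg g)⁻¹.injective h)) _ h1
    have h3 : ∀ i, i ∈ I.image (prm α hg g) ↔ (prm α hg g)⁻¹ i ∈ I := by
      intro i
      rw [Finset.mem_image]
      constructor
      · rintro ⟨k, hk, rfl⟩
        simpa using hk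
      · intro h
        exact ⟨_, h, by simp⟩
    have h4 : g (g⁻¹ w) = w := by
      rw [← AlgEquiv.mul_apply, mul_inv_cancel]
      rfl
    rw [AlgEquiv.mul_apply, AlgEquiv.mul_apply, h2]
    simp only [h3]
    split_ifs
    · rw [map_neg, h4]
    · rw [h4]

/-- the edges of the graph of the conjugates of pairs of branch points -/
def ConjEdge {τ κ : Type*} (K : Type*) {F : Type*} [Field K] [Field F] [Algebra K F] (α : τ → F)
    (a b : κ → τ) (x y : τ) : Prop :=
  ∃ (k : κ) (g : F ≃ₐ[K] F),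
    (g (α (a k)) = α x ∧ g (α (b k)) = α y) ∨ (g (α (a k)) = α y ∧ g (α (b k)) = α x)

/-- `σ` is a square root of a transvection, for the pair `a, b` of branch points of the curve `i`, and
trivial for the curves below `i` and for the additional representation -/
structure PairElt (r : ι → ℕ) (i : ι) (a b : τ i) (σ : F ≃ₐ[K] F) : Prop where
  own : SignsOn (α i) σ {a, b}
  low : ∀ j, r j < r i → SignsOn (α j) σ ∅
  cyclo : ∃ z, ((cyc K F σ : ℤ_[2]ˣ) : ℤ_[2]) = 1 + 8 * z
  val : ∃ N, t σ = 1 + (4 : ℤ_[2]) • N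

/-- **Joint tangent vectors from pairs of branch points.** -/
theorem tan_graph (h2 : (2 : F) ≠ 0) (r : ι → ℕ) (hr : Function.Injective r)
    (h3 : ∀ i, 2 < Fintype.card (τ i)) {κ : ι → Type*} (a b : ∀ i, κ i → τ i)
    (hab : ∀ i k, a i k ≠ b i k) (σ : ∀ i, κ i → F ≃ₐ[K] F)
    (hσ : ∀ i k, PairElt α t r i (a i k) (b i k) (σ i k))
    (hc : ∀ i x y, Relation.ReflTransGen (ConjEdge K (α i) (a i) (b i)) x y)
    {X : ∀ i, Module.End ℤ_[2] (TateMod 2 (ClG (RG (fP (α i)))))}
    (hX : ∀ i, X i ∈ spQ (BP α h2 i) (p1 _)) :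
    TanA (jw (fun i => rhoG (hg i)) t) (X, 0) := by
  refine tan_tri α hg t h2 r hr (κ := fun i => κ i × (F ≃ₐ[K] F))
    (fun i g => {prm (α i) (hg i) g.2 (a i g.1), prm (α i) (hg i) g.2 (b i g.1)}) (fun i => ?_)
    (fun i g => g.2 * σ i g.1 * g.2⁻¹) (fun i g => ?_) (fun i g j hj => ?_) (fun i g => ?_)
    (fun i g => ?_) hX
  · refine genSets_of_graph _ _
      (fun g h => hab i g.1 ((prm (α i) (hg i) g.2).injective h)) (h3 i)
      fun x y => Relation.ReflTransGen.lift (fun x => x) (fun x y hxy => ?_) _ _ (hc i x y)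
    obtain ⟨k, g, hg1⟩ := hxy
    rw [prm_spec (α i) (hg i), prm_spec (α i) (hg i)] at hg1
    refine ⟨(k, g), ?_⟩
    rcases hg1 with ⟨h5, h6⟩ | ⟨h5, h6⟩
    · exact Or.inl ⟨Hyp.inj (α := α i) h5, Hyp.inj (α := α i) h6⟩
    · exact Or.inr ⟨Hyp.inj (α := α i) h5, Hyp.inj (α := α i) h6⟩
  · have h1 := (hσ i g.1).own.conj (hg i) g.2
    rwa [Finset.image_insert, Finset.image_singleton] at h1
  · have h1 := ((hσ i g.1).low j hj).conj (hg j) g.2
    rwa [Finset.image_empty] at h1
  · obtain ⟨z, hz⟩ := (hσ i g.1).cyclo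
    refine ⟨z, ?_⟩
    rw [map_mul, map_mul, map_inv, mul_comm (Pool.Agent.N171.cyc K F g.2), mul_assoc,
      mul_inv_cancel, mul_one, hz]
  · obtain ⟨N, hN⟩ := (hσ i g.1).val
    refine ⟨t g.2 * N * t g.2⁻¹, ?_⟩
    rw [map_mul, map_mul, hN, mul_add, add_mul, mul_one, ← map_mul, mul_inv_cancel, map_one,
      mul_smul_comm, smul_mul_assoc]

/-- an element from a character of the multiplicative group of a field which contains the branch points -/
theorem pairElt_of_char (h2 : (2 : F) ≠ 0) (r : ι → ℕ) (i : ι) (a b : τ i)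
    (M : IntermediateField K F) (l : Mˣ →* ℤˣ) (hl1 : l (-1) = 1)
    (hl2 : ∀ (u : Mˣ), (u : M) = 2 → l u = 1)
    (hM : ∀ j, r j ≤ r i → ∀ x, α j x ∈ M)
    (hli : ∀ (x y : τ i) (u : Mˣ), ((u : M) : F) = α i x - α i y →
      l u = if x ∈ ({a, b} : Finset (τ i)) ∧ y ∈ ({a, b} : Finset (τ i)) then -1 else 1)
    (hlj : ∀ j, r j < r i → ∀ (x y : τ j) (u : Mˣ), ((u : M) : F) = α j x - α j y → l u = 1)
    (ht : ∀ (s : F ≃ₐ[K] F), (∀ x : M, s (x : F) = x) → ∃ N, t s = 1 + (4 : ℤ_[2]) • N) :
    ∃ σ, PairElt α t r i a b σ := by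
  classical
  let d : (Σ j : {j : ι // r j ≤ r i}, τ j × τ j) → Mˣ := fun p =>
    if h : (⟨α p.1 p.2.1 - α p.1 p.2.2, sub_mem (hM p.1 p.1.2 _) (hM p.1 p.1.2 _)⟩ : M) = 0
    then 1 else Units.mk0 _ h
  have hd : ∀ (j : ι) (hj : r j ≤ r i) (x y : τ j), x ≠ y →
      ((d ⟨⟨j, hj⟩, (x, y)⟩ : M) : F) = α j x - α j y := by
    intro j hj x y hxy
    have h : (⟨α j x - α j y, sub_mem (hM j hj _) (hM j hj _)⟩ : M) ≠ 0 := by
      intro h
      have h4 := congrArg Subtype.val h
      exact hxy (Hyp.inj (α := α j) (sub_eq_zero.1 h4))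
    change (((if h : (⟨α j x - α j y, _⟩ : M) = 0 then (1 : Mˣ) else Units.mk0 _ h : Mˣ) :
      M) : F) = _
    rw [dif_neg h]
    rfl
  obtain ⟨σ, h4, h5, h6⟩ := exists_sigma_M h2 M l hl1 hl2 d
  have hfix : ∀ j, r j ≤ r i → ∀ x, σ (α j x) = α j x := fun j hj x => h4 ⟨α j x, hM j hj x⟩
  refine ⟨σ, ⟨hfix i le_rfl, fun x y hxy w hw => ?_⟩, fun j hj => ⟨hfix j hj.le,
    fun x y hxy w hw => ?_⟩, h6, ht σ h4⟩
  · have h7 := h5 ⟨⟨i, le_rfl⟩, (x, y)⟩ w (by rw [hd i le_rfl x y hxy, hw])
    rw [h7, hli x y _ (hd i le_rfl x y hxy)]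
    split_ifs <;> simp
  · have h7 := h5 ⟨⟨j, hj.le⟩, (x, y)⟩ w (by rw [hd j hj.le x y hxy, hw])
    rw [h7, hlj j hj x y _ (hd j hj.le x y hxy)]
    simp

end several

end

end Pool.Agent.H852.J
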