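import Mathlib

/-!
# Inertia and valuations in finite Galois extensions of number fields
-/

set_option linter.unusedSectionVars false
set_option autoImplicit false

namespace Pool.Agent.H852.J

open NumberField IsDedekindDomain HeightOneSpectrum WithZero

noncomputable section

/-- the parity of a valuation with values in the integers -/
def par {M : Type*} [Field M] (w : Valuation M ℤᵐ⁰) : Mˣ →* ℤˣ where
  toFun u := (-1 : ℤˣ) ^ (log (w u))
  map_one' := by simp
  map_mul' x y := by
    rw [Units.val_mul, map_mul, log_mul (by simp) (by simp), zpow_add]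

theorem par_of_one {M : Type*} [Field M] (w : Valuation M ℤᵐ⁰) (u : Mˣ) (h : w u = 1) :
    par w u = 1 := by
  change (-1 : ℤˣ) ^ (log (w u)) = 1
  rw [h, log_one, zpow_zero]

theorem par_of_odd {M : Type*} [Field M] (w : Valuation M ℤᵐ⁰) (u : Mˣ) (h : Odd (log (w u))) :
    par w u = -1 := by
  change (-1 : ℤˣ) ^ (log (w u)) = -1
  exact h.neg_one_zpow

theorem par_neg_one {M : Type*} [Field M] (w : Valuation M ℤᵐ⁰) : par w (-1) = 1 := by
  refine par_of_one w _ ?_
  rw [Units.val_neg, Units.val_one, Valuation.map_neg, map_one]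

variable {K M : Type} [Field K] [NumberField K] [Field M] [NumberField M] [Algebra K M]
  (v : HeightOneSpectrum (𝓞 K)) (P : HeightOneSpectrum (𝓞 M)) [P.asIdeal.LiesOver v.asIdeal]

/-- `s` is in the inertia group of `P` -/
def Inert (P : HeightOneSpectrum (𝓞 M)) (s : M ≃ₐ[K] M) : Prop :=
  ∀ x : 𝓞 M, s • x - x ∈ P.asIdeal

theorem val_smul_int {P : HeightOneSpectrum (𝓞 M)} {s : M ≃ₐ[K] M} (hs : Inert P s) (x : 𝓞 M) :
    P.valuation M (s (x : M) - x) < 1 := by
  have h1 : (s (x : M) - x : M) = algebraMap (𝓞 M) M (s • x - x) := by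
    rw [map_sub]
    rfl
  rw [h1, valuation_lt_one_iff_mem]
  exact hs x

/-- inertia acts trivially on the residues of all integral elements of the local ring -/
theorem val_smul {P : HeightOneSpectrum (𝓞 M)} {s : M ≃ₐ[K] M} (hs : Inert P s) (x : M)
    (hx : P.valuation M x ≤ 1) : P.valuation M (s x - x) < 1 := by
  obtain ⟨n, ⟨d, hd⟩, h⟩ := exists_primeCompl_mul_eq_of_integer P x hx
  have hd1 : P.valuation M (d : M) = 1 := by
    have h1 : ¬ P.valuation M (d : M) < 1 := fun h2 => hd ((P.valuation_lt_one_iff_mem (K := M) d).1 h2)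
    exact le_antisymm (P.valuation_le_one d) (not_lt.1 h1)
  have hd2 : P.valuation M (s (d : M)) = 1 := by
    have h1 := val_smul_int hs d
    have h2 : s (d : M) = (s (d : M) - d) + d := by ring
    rw [h2, Valuation.map_add_eq_of_lt_right _ (by rw [hd1]; exact h1), hd1]
  have hd0 : (d : M) ≠ 0 := by
    intro h0
    rw [h0, map_zero] at hd1
    exact zero_ne_one hd1
  -- x * d = n
  have h3 : x * (d : M) = (n : M) := h
  have h4 : s x * s (d : M) = s (n : M) := by rw [← map_mul, h3]
  have h5 : (s x - x) * s (d : M) = (s (n : M) - n) - x * (s (d : M) - d) := by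
    rw [sub_mul, h4, ← h3]
    ring
  have h6 : P.valuation M ((s x - x) * s (d : M)) < 1 := by
    rw [h5]
    refine lt_of_le_of_lt (Valuation.map_sub _ _ _) (max_lt (val_smul_int hs n) ?_)
    rw [map_mul]
    exact lt_of_le_of_lt (mul_le_mul_left hx _) (by rw [one_mul]; exact val_smul_int hs d)
  rwa [map_mul, hd2, mul_one] at h6

/-- distinct residues: inertia acts trivially -/
theorem inert_eq {P : HeightOneSpectrum (𝓞 M)} {s : M ≃ₐ[K] M} (hs : Inert P s) {x : M}
    (hx : P.valuation M x ≤ 1) (h : s x ≠ x → P.valuation M (s x - x) = 1) : s x = x := by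
  by_contra h1
  have h2 := val_smul hs x hx
  rw [h h1] at h2
  exact lt_irrefl _ h2

section galois

variable [IsGalois K M]

/-- the ramification index is the number of elements of the inertia group -/
theorem val_eq_pow_card (x : K) :
    P.valuation M (algebraMap K M x) =
      v.valuation K x ^ Nat.card (P.asIdeal.inertia (M ≃ₐ[K] M)) := by
  have h1 := Ideal.card_inertia_eq_ramificationIdxIn (G := M ≃ₐ[K] M) v.asIdeal P.asIdeal
  rw [h1, Ideal.ramificationIdxIn_eq_ramificationIdx v.asIdeal P.asIdeal (M ≃ₐ[K] M),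
    ← Ideal.ramificationIdx'_eq_ramificationIdx v.asIdeal P.asIdeal]
  · exact (valuation_liesOver M v P x).symm
  · exact v.ne_bot

/-- if the inertia group is trivial the valuation is the same -/
theorem val_eq_of_trivial (h : ∀ s : M ≃ₐ[K] M, Inert P s → s = 1) (x : K) :
    P.valuation M (algebraMap K M x) = v.valuation K x := by
  rw [val_eq_pow_card v P]
  have h1 : P.asIdeal.inertia (M ≃ₐ[K] M) = ⊥ := by
    rw [eq_bot_iff]
    intro s hs
    exact h s hs
  rw [h1, Subgroup.card_bot, pow_one]

theorem inertia_trivial_of_ram (h : v.asIdeal.ramificationIdxIn (𝓞 M) = 1) (s : M ≃ₐ[K] M)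
    (hs : Inert P s) : s = 1 := by
  have h1 := Ideal.card_inertia_eq_ramificationIdxIn (G := M ≃ₐ[K] M) v.asIdeal P.asIdeal
  rw [h, Nat.card_eq_one_iff_unique] at h1
  have := h1.1
  exact congrArg Subtype.val (Subsingleton.elim (⟨s, hs⟩ : P.asIdeal.inertia (M ≃ₐ[K] M)) 1)

end galois

section restrict

variable {N : Type} [Field N] [NumberField N] [Algebra K N] [Algebra N M] [IsScalarTower K N M]
  [IsGalois K N]

/-- elements of the inertia group are trivial on subextensions without ramification -/
theorem inert_fix (h : v.asIdeal.ramificationIdxIn (𝓞 N) = 1) {s : M ≃ₐ[K] M} (hs : Inert P s)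
    (x : N) : s (algebraMap N M x) = algebraMap N M x := by
  have hP : P.asIdeal.under (𝓞 N) ≠ ⊥ := by
    intro h1
    have h2 : P.asIdeal = ⊥ := by
      have : Algebra.IsIntegral (𝓞 N) (𝓞 M) := inferInstance
      exact Ideal.eq_bot_of_comap_eq_bot h1
    exact P.ne_bot h2
  let Q : HeightOneSpectrum (𝓞 N) := ⟨P.asIdeal.under (𝓞 N), inferInstance, hP⟩
  have hQP : P.asIdeal.LiesOver Q.asIdeal := ⟨rfl⟩
  have hQ : Q.asIdeal.LiesOver v.asIdeal := ⟨by
    change v.asIdeal = (P.asIdeal.under (𝓞 N)).under (𝓞 K)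
    rw [Ideal.under_under]
    exact Ideal.LiesOver.over⟩
  have h1 : Inert Q (s.restrictNormal N) := by
    intro y
    change algebraMap (𝓞 N) (𝓞 M) (s.restrictNormal N • y - y) ∈ P.asIdeal
    have h2 : algebraMap (𝓞 N) (𝓞 M) (s.restrictNormal N • y - y) =
        s • (algebraMap (𝓞 N) (𝓞 M) y) - algebraMap (𝓞 N) (𝓞 M) y := by
      rw [map_sub]
      congr 1
      apply RingOfIntegers.ext
      change algebraMap N M (s.restrictNormal N (y : N)) = s (algebraMap N M (y : N))
      exact AlgEquiv.restrictNormal_commutes s N (y : N)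
    rw [h2]
    exact hs _
  have h3 := inertia_trivial_of_ram v Q h _ h1
  have h4 := AlgEquiv.restrictNormal_commutes s N x
  rw [h3] at h4
  exact h4.symm

end restrict

end

end Pool.Agent.H852.J
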