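import Mathlib
import Pool.Agent.H852.J.G4
import Pool.Agent.H852.J.P1

/-!
# Elements of the Galois group from places with one pair of colliding branch points
-/

set_option linter.unusedSectionVars false
set_option autoImplicit false

namespace Pool.Agent.H852.J

open Polynomial PadicInt Module Pool.Agent.N171 Pool.Agent.N171.Al Pool.Agent.N171.TG
  Pool.Agent.N171.Pm Pool.Agent.N171.Bg
open NumberField IsDedekindDomain HeightOneSpectrum WithZero

noncomputable section

section field

variable {K F : Type*} [Field K] [Field F] [Algebra K F]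

theorem fix_sup (σ : F ≃ₐ[K] F) (N : IntermediateField K F) (R : Set F)
    (hN : ∀ x ∈ N, σ x = x) (hR : ∀ x ∈ R, σ x = x) :
    ∀ x ∈ N ⊔ IntermediateField.adjoin K R, σ x = x := by
  let E : IntermediateField K F := IntermediateField.fixedField (Subgroup.zpowers σ)
  have hE : ∀ x, x ∈ E ↔ σ x = x := by
    intro x
    rw [IntermediateField.mem_fixedField_iff]
    constructor
    · intro h
      exact h σ (Subgroup.mem_zpowers σ)
    · intro h g hg
      obtain ⟨k, rfl⟩ := Subgroup.mem_zpowers_iff.1 hg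
      have h1 : σ ∈ MulAction.stabilizer (F ≃ₐ[K] F) x := h
      exact (Subgroup.zpow_mem _ h1 k : σ ^ k ∈ MulAction.stabilizer (F ≃ₐ[K] F) x)
  have h1 : N ⊔ IntermediateField.adjoin K R ≤ E := by
    refine sup_le (fun x hx => (hE x).2 (hN x hx)) ?_
    rw [IntermediateField.adjoin_le_iff]
    exact fun x hx => (hE x).2 (hR x hx)
  exact fun x hx => (hE x).1 (h1 hx)

theorem normal_adjoin [Normal K F] (R : Set F) (hR : ∀ (σ : F ≃ₐ[K] F), ∀ x ∈ R, σ x ∈ R) :
    Normal K (IntermediateField.adjoin K R) := by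
  rw [IntermediateField.normal_iff_forall_map_le']
  intro σ
  rw [IntermediateField.adjoin_map]
  refine IntermediateField.adjoin.mono K _ _ ?_
  rintro _ ⟨x, hx, rfl⟩
  exact hR σ x hx

end field

section places

variable {K F ι : Type} [Field K] [NumberField K] [Field F] [Algebra K F] [IsAlgClosed F]
  [Normal K F] [Fintype ι] [DecidableEq ι] {τ : ι → Type} [∀ i, Fintype (τ i)]
  [∀ i, DecidableEq (τ i)] (α : ∀ i, τ i → F) [∀ i, Hyp (α i)]
  {A : Type*} [Ring A] [Algebra ℤ_[2] A] [Module.Finite ℤ_[2] A] [Module.Free ℤ_[2] A]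
  (t : (F ≃ₐ[K] F) →* A)

theorem exists_place_above {M : Type} [Field M] [NumberField M] [Algebra K M]
    (v : HeightOneSpectrum (𝓞 K)) :
    ∃ P : HeightOneSpectrum (𝓞 M), P.asIdeal.LiesOver v.asIdeal := by
  obtain ⟨Q, hQ1, hQ2⟩ := Ideal.exists_maximal_ideal_liesOver_of_isIntegral (S := 𝓞 M) v.asIdeal
  refine ⟨⟨Q, hQ1.isPrime, ?_⟩, hQ2⟩
  intro h
  apply v.ne_bot
  rw [hQ2.over, h]
  exact Ideal.comap_bot_of_injective _ (FaithfulSMul.algebraMap_injective (𝓞 K) (𝓞 M))

/-- the additional representation is trivial modulo four over a finite extension without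
ramification above `v` -/
def UnramifiedModFour (v : HeightOneSpectrum (𝓞 K)) (t : (F ≃ₐ[K] F) →* A) : Prop :=
  ∃ (N : IntermediateField K F) (_ : NumberField N), Normal K N ∧
    v.asIdeal.ramificationIdxIn (𝓞 N) = 1 ∧
    ∀ s : F ≃ₐ[K] F, (∀ x : N, s x = x) → ∃ Y, t s = 1 + (4 : ℤ_[2]) • Y

/-- **An element of the Galois group from a place with one pair of colliding branch points.** -/
theorem pairElt_of_place (r : ι → ℕ) (hr : Function.Injective r) (i : ι) (Q : τ i → τ i → Prop)
    (hst : ∀ j, r j ≤ r i → ∀ (s : F ≃ₐ[K] F) (x : τ j), ∃ y, s (α j x) = α j y)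
    (v : HeightOneSpectrum (𝓞 K)) (hv : (2 : 𝓞 K) ∉ v.asIdeal) (ht : UnramifiedModFour v t)
    (hint : ∀ (M : IntermediateField K F) [NumberField M] [Normal K M]
      (P : HeightOneSpectrum (𝓞 M)) [P.asIdeal.LiesOver v.asIdeal], ∀ j, r j ≤ r i →
      ∀ (x : τ j) (u : M), (u : F) = α j x → P.valuation M u ≤ 1)
    (hlow : ∀ (M : IntermediateField K F) [NumberField M] [Normal K M]
      (P : HeightOneSpectrum (𝓞 M)) [P.asIdeal.LiesOver v.asIdeal], ∀ j, r j < r i →
      ∀ (x y : τ j) (u u' : M), (u : F) = α j x → (u' : F) = α j y → x ≠ y →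
      P.valuation M (u - u') = 1)
    (hnode : ∀ (M : IntermediateField K F) [NumberField M] [Normal K M]
      (P : HeightOneSpectrum (𝓞 M)) [P.asIdeal.LiesOver v.asIdeal], (∀ x, α i x ∈ M) →
      ∃ a b : τ i, a ≠ b ∧ Q a b ∧
      (∀ (x y : τ i) (u u' : M), (u : F) = α i x → (u' : F) = α i y → x ≠ y →
        ¬ (x ∈ ({a, b} : Finset (τ i)) ∧ y ∈ ({a, b} : Finset (τ i))) →
        P.valuation M (u - u') = 1) ∧
      ∀ (u u' : M), (u : F) = α i a → (u' : F) = α i b →
        (∀ s : M ≃ₐ[K] M, Inert P s → s ≠ 1 → s u = u' ∧ s u' = u) →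
        (∀ s s' : M ≃ₐ[K] M, Inert P s → Inert P s' → s ≠ 1 → s' ≠ 1 → s = s') →
        Odd (log (P.valuation M (u - u')))) :
    ∃ a b, a ≠ b ∧ Q a b ∧ ∃ σ, PairElt α t r i a b σ := by
  classical
  have h2 : (2 : F) ≠ 0 := by
    have h1 : (2 : F) = algebraMap K F 2 := by rw [map_ofNat]
    rw [h1, Ne, map_eq_zero]
    exact two_ne_zero
  obtain ⟨N, hN1, hN2, hN3, hN4⟩ := ht
  -- the roots
  let R : Set F := {z | ∃ j, r j ≤ r i ∧ ∃ x, α j x = z}
  have hRfin : R.Finite := by
    have h1 : R ⊆ ⋃ j : ι, Set.range (α j) := by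
      rintro z ⟨j, -, x, rfl⟩
      exact Set.mem_iUnion.2 ⟨j, ⟨x, rfl⟩⟩
    exact (Set.finite_iUnion fun j => Set.finite_range (α j)).subset h1
  have hRst : ∀ (σ : F ≃ₐ[K] F), ∀ x ∈ R, σ x ∈ R := by
    rintro σ _ ⟨j, hj, x, rfl⟩
    obtain ⟨y, hy⟩ := hst j hj σ x
    exact ⟨j, hj, y, hy.symm⟩
  let M : IntermediateField K F := N ⊔ IntermediateField.adjoin K R
  have hNM : N ≤ M := le_sup_left
  have hRM : ∀ z ∈ R, z ∈ M := fun z hz =>
    (le_sup_right : _ ≤ M) (IntermediateField.subset_adjoin K R hz)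
  have hfdN : FiniteDimensional K N := Module.Finite.of_restrictScalars_finite ℚ K N
  have hfdR : FiniteDimensional K (IntermediateField.adjoin K R) := by
    have := hRfin.to_subtype
    exact IntermediateField.finiteDimensional_adjoin
      fun z _ => Normal.isIntegral (F := K) inferInstance z
  have hfdM : FiniteDimensional K M := IntermediateField.finiteDimensional_sup _ _
  have hnM : NumberField M := NumberField.of_module_finite K M
  have hnR : Normal K (IntermediateField.adjoin K R) := normal_adjoin R hRst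
  have hnormM : Normal K M := IntermediateField.normal_sup K F _ _
  obtain ⟨P, hP⟩ := exists_place_above (M := M) v
  have hαM : ∀ j, r j ≤ r i → ∀ x, α j x ∈ M := fun j hj x => hRM _ ⟨j, hj, x, rfl⟩
  obtain ⟨a, b, hab, hQ, hown, hpar⟩ := hnode M P (fun x => hαM i le_rfl x)
  refine ⟨a, b, hab, hQ, ?_⟩
  -- the action of the inertia group
  have hlift : ∀ (s : M ≃ₐ[K] M) (u : M), (s.liftNormal F) (u : F) = ((s u : M) : F) :=
    fun s u => s.liftNormal_commutes F u
  have hroot : ∀ (s : M ≃ₐ[K] M) (j) (hj : r j ≤ r i) (x : τ j), ∃ y,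
      ((s ⟨α j x, hαM j hj x⟩ : M) : F) = α j y := by
    intro s j hj x
    rw [← hlift]
    exact hst j hj _ x
  let algNM : Algebra N M := (IntermediateField.inclusion hNM).toRingHom.toAlgebra
  have towNM : IsScalarTower K N M := IsScalarTower.of_algebraMap_eq fun x => rfl
  have hgN : IsGalois K N := ⟨⟩
  have hgM : IsGalois K M := ⟨⟩
  have hfixN : ∀ s : M ≃ₐ[K] M, Inert P s → ∀ z ∈ N, s.liftNormal F z = z := by
    intro s hs z hz
    have h3 := inert_fix (N := N) v P hN3 hs ⟨z, hz⟩
    have h4 := hlift s (algebraMap N M ⟨z, hz⟩)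
    rw [h3] at h4
    exact h4
  have hfix1 : ∀ s : M ≃ₐ[K] M, Inert P s → ∀ (j) (hj : r j < r i) (x : τ j),
      s ⟨α j x, hαM j hj.le x⟩ = ⟨α j x, hαM j hj.le x⟩ := by
    intro s hs j hj x
    obtain ⟨y, hy⟩ := hroot s j hj.le x
    refine inert_eq hs (hint M P j hj.le x _ rfl) fun h => ?_
    refine hlow M P j hj y x _ _ hy rfl fun h5 => h ?_
    apply Subtype.ext
    rw [hy, h5]
  have hfix2 : ∀ s : M ≃ₐ[K] M, Inert P s → ∀ (x y : τ i),
      ((s ⟨α i x, hαM i le_rfl x⟩ : M) : F) = α i y → x ≠ y →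
      x ∈ ({a, b} : Finset (τ i)) ∧ y ∈ ({a, b} : Finset (τ i)) := by
    intro s hs x y hy hxy
    by_contra h
    have h3 := val_smul hs _ (hint M P i le_rfl x ⟨α i x, hαM i le_rfl x⟩ rfl)
    rw [hown y x _ _ hy rfl (Ne.symm hxy) fun h4 => h ⟨h4.2, h4.1⟩] at h3
    exact lt_irrefl _ h3
  have hext : ∀ s : M ≃ₐ[K] M, Inert P s →
      (s ⟨α i a, hαM i le_rfl a⟩ : M) = ⟨α i a, hαM i le_rfl a⟩ → s = 1 := by
    intro s hs hsa
    have h3 : ∀ x, (s ⟨α i x, hαM i le_rfl x⟩ : M) = ⟨α i x, hαM i le_rfl x⟩ := by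
      intro x
      by_cases hxa : x = a
      · rw [hxa]
        exact hsa
      · obtain ⟨y, hy⟩ := hroot s i le_rfl x
        by_cases hxy : x = y
        · apply Subtype.ext
          rw [hy, hxy]
        · exfalso
          have h4 := hfix2 s hs x y hy hxy
          rw [Finset.mem_insert, Finset.mem_singleton, Finset.mem_insert,
            Finset.mem_singleton] at h4
          have h5 : x = b := h4.1.resolve_left hxa
          have h6 : y = a := h4.2.resolve_right fun h7 => hxy (h5.trans h7.symm)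
          have h7 : s ⟨α i x, hαM i le_rfl x⟩ = s ⟨α i a, hαM i le_rfl a⟩ := by
            rw [hsa]
            apply Subtype.ext
            rw [hy, h6]
          have h8 := congrArg Subtype.val (s.injective h7)
          exact hxa (Hyp.inj (α := α i) h8)
    have h4 : ∀ z ∈ N ⊔ IntermediateField.adjoin K R, s.liftNormal F z = z := by
      refine fix_sup _ N R (hfixN s hs) ?_
      rintro _ ⟨j, hj, x, rfl⟩
      have h5 : (s ⟨α j x, hαM j hj x⟩ : M) = ⟨α j x, hαM j hj x⟩ := by
        rcases hj.lt_or_eq with h6 | h6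
        · exact hfix1 s hs j h6 x
        · obtain rfl := hr h6
          exact h3 x
      have h6 := hlift s ⟨α j x, hαM j hj x⟩
      rw [h5] at h6
      exact h6
    ext z
    have h5 := hlift s z
    rw [h4 z z.2] at h5
    exact congrArg Subtype.val (Subtype.ext h5.symm : s z = z)
  -- the pair
  set ua : M := ⟨α i a, hαM i le_rfl a⟩ with hua
  set ub : M := ⟨α i b, hαM i le_rfl b⟩ with hub
  have hne : ua ≠ ub := fun h => hab (Hyp.inj (α := α i) (congrArg Subtype.val h))
  have hswap : ∀ s : M ≃ₐ[K] M, Inert P s → s ≠ 1 → s ua = ub ∧ s ub = ua := by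
    intro s hs hs1
    obtain ⟨y, hy⟩ := hroot s i le_rfl a
    have hya : a ≠ y := by
      rintro rfl
      exact hs1 (hext s hs (Subtype.ext hy))
    have h3 := hfix2 s hs a y hy hya
    have h4 : y = b := by
      have h5 := h3.2
      rw [Finset.mem_insert, Finset.mem_singleton] at h5
      exact h5.resolve_left fun h6 => hya h6.symm
    have h5 : s ua = ub := Subtype.ext (by rw [hy, h4])
    refine ⟨h5, ?_⟩
    obtain ⟨z, hz⟩ := hroot s i le_rfl b
    have hzb : b ≠ z := by
      rintro rfl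
      have h6 : s ub = s ua := by
        rw [h5]
        exact Subtype.ext hz
      exact hne (s.injective h6).symm
    have h6 := (hfix2 s hs b z hz hzb).2
    rw [Finset.mem_insert, Finset.mem_singleton] at h6
    have h7 : z = a := h6.resolve_right fun h8 => hzb h8.symm
    exact Subtype.ext (by rw [hz, h7])
  have hodd : Odd (log (P.valuation M (ua - ub))) := by
    refine hpar ua ub rfl rfl hswap fun s s' hs hs' h1 h1' => ?_
    have h3 : Inert P (s⁻¹ * s') := by
      have h4 : s⁻¹ * s' ∈ P.asIdeal.inertia (M ≃ₐ[K] M) := Subgroup.mul_mem _ (Subgroup.inv_mem _ hs) hs'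
      exact h4
    have h5 : s⁻¹ * s' = 1 := by
      refine hext _ h3 ?_
      rw [AlgEquiv.mul_apply]
      rw [(hswap s' hs' h1').1, ← (hswap s hs h1).1, ← AlgEquiv.mul_apply, inv_mul_cancel]
      rfl
    exact inv_mul_eq_one.1 h5
  have hval2 : P.valuation M (2 : M) = 1 := by
    have h3 : (2 : M) = algebraMap (𝓞 M) M 2 := by rw [map_ofNat]
    refine le_antisymm (by rw [h3]; exact P.valuation_le_one _) (not_lt.1 fun h4 => ?_)
    rw [h3, valuation_lt_one_iff_mem] at h4
    apply hv
    rw [hP.over]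
    change algebraMap (𝓞 K) (𝓞 M) 2 ∈ P.asIdeal
    rwa [map_ofNat]
  refine pairElt_of_char α t h2 r i a b M (par (P.valuation M)) (par_neg_one _)
    (fun u hu => par_of_one _ u (by rw [hu, hval2])) hαM (fun x y u hu => ?_)
    (fun j hj x y u hu => ?_) fun s hs => hN4 s fun x => hs ⟨x, hNM x.2⟩
  · have hxy : x ≠ y := by
      rintro rfl
      rw [sub_self] at hu
      exact u.ne_zero (Subtype.ext hu)
    have hu' : (u : M) = ⟨α i x, hαM i le_rfl x⟩ - ⟨α i y, hαM i le_rfl y⟩ := Subtype.ext hu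
    split_ifs with h3
    · refine par_of_odd _ u ?_
      have h4 := h3
      rw [Finset.mem_insert, Finset.mem_singleton, Finset.mem_insert, Finset.mem_singleton] at h4
      rw [hu']
      rcases h4 with ⟨rfl | rfl, rfl | rfl⟩
      · exact absurd rfl hxy
      · exact hodd
      · rw [Valuation.map_sub_swap]
        exact hodd
      · exact absurd rfl hxy
    · refine par_of_one _ u ?_
      rw [hu']
      exact hown x y _ _ rfl rfl hxy h3
  · have hxy : x ≠ y := by
      rintro rfl
      rw [sub_self] at hu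
      exact u.ne_zero (Subtype.ext hu)
    have hu' : (u : M) = ⟨α j x, hαM j hj.le x⟩ - ⟨α j y, hαM j hj.le y⟩ := Subtype.ext hu
    refine par_of_one _ u ?_
    rw [hu']
    exact hlow M P j hj x y _ _ rfl rfl hxy

end places

end

end Pool.Agent.H852.J
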