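import Mathlib
import Pool.Agent.H852.J.G3
import Pool.Agent.H852.J.P2
import Pool.Graph.R_pool_sql_team_seeded_63374d34.Results.MP_640417_ag.HyperellipticEveryPrime

/-!
# From places with one pair of colliding branch points to all prime numbers
-/

set_option linter.unusedSectionVars false
set_option autoImplicit false

namespace Pool.Agent.H852.J

open Matrix Polynomial Filter Topology Module NumberField IsDedekindDomain
open Pool.Agent.Y142.ZO (GK)
open Pool.Agent.N171 Pool.Agent.N171.Al Pool.Agent.N171.Pm Pool.Agent.N171.Bg Pool.Agent.N171.TG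
open Pool.Agent.Results.MP_640417_ag.HyperellipticEveryPrime

/-- the integral matrices of a lattice -/
theorem exists_lat {L : Type} [Field L] {d : ℕ}
    (τ : AbsoluteGaloisGroup L →* Matrix (Fin d) (Fin d) ℚ_[2]) (h : ∀ g a b, ‖τ g a b‖ ≤ 1) :
    ∃ t : AbsoluteGaloisGroup L →* Matrix (Fin d) (Fin d) ℤ_[2], IsLatOf t τ := by
  have hinj : ∀ X Y : Matrix (Fin d) (Fin d) ℤ_[2],
      X.map (algebraMap ℤ_[2] ℚ_[2]) = Y.map (algebraMap ℤ_[2] ℚ_[2]) → X = Y := by
    intro X Y hXY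
    ext1 a b
    have h1 := congrFun (congrFun hXY a) b
    exact Subtype.ext h1
  have hspec : ∀ g, ∃ X : Matrix (Fin d) (Fin d) ℤ_[2], X.map (algebraMap ℤ_[2] ℚ_[2]) = τ g := by
    intro g
    refine ⟨Matrix.of fun a b => ⟨τ g a b, h g a b⟩, ?_⟩
    ext a b
    rfl
  choose T hT using hspec
  refine ⟨{
    toFun := T
    map_one' := hinj _ _ ?_
    map_mul' := fun x y => hinj _ _ ?_ }, fun s => (hT s).symm⟩
  · rw [hT, map_one]
    exact (Matrix.map_one _ (map_zero _) (map_one _)).symm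
  · rw [hT, map_mul, Matrix.map_mul, hT, hT]

/-- from joint tangent vectors to all prime numbers -/
theorem everyPrime_of_tan {L : Type} [Field L] [NumberField L] {ι : Type} [Fintype ι] [Nonempty ι]
    [DecidableEq ι] (f : ι → L[X]) (hf : ∀ i, HypP (f i)) {κ : ι → Type} [∀ i, Fintype (κ i)]
    [∀ i, DecidableEq (κ i)] (α : ∀ i, κ i → AlgebraicClosure L) [∀ i, Hyp (α i)]
    (hα : ∀ i, (f i).map (algebraMap L (AlgebraicClosure L)) = fP (α i))
    (h3 : ∀ i, 1 < Fintype.card (κ i)) {d : ℕ}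
    (t : GK L →* Matrix (Fin d) (Fin d) ℤ_[2])
    (τ : GK L →* Matrix (Fin d) (Fin d) ℚ_[2]) (hτ : Continuous τ) (ht : IsLatOf t τ)
    (hT : AllTan α t) : EveryPrime f τ := by
  refine ⟨hf, fun S m w P Q hS hPQ hJ hτQ ℓ _ V M _ _ _ _ _ _ r χ s hr h2 => ?_⟩
  have h1 := hr.2
  obtain ⟨n, R, ⟨E, hE⟩, hRP⟩ := hJ
  have hR : Continuous R := Pool.Agent.N197.AP.t_CONT2 L (AlgebraicClosure L) ι f
    (fun i x => Pool.Agent.N197.AP.t_CONT1 L (AlgebraicClosure L) (f i) x) n R E hE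
  refine holds_of_tan f α hα h3 t τ hτ ht hT S hS P Q (fun v hv z hz => ?_)
    (fun v hv z hz => (hPQ v hv).2 z hz) R hR E hE hRP (fun v hv hv2 σ hσ => ?_) ℓ V M r χ s hr.1
    (fun v hv hvℓ σ hσ => ⟨(h1 v hv hvℓ σ hσ).1, (h1 v hv hvℓ σ hσ).2, h2 v hv hvℓ σ hσ⟩)
  · have h3 := (hPQ v hv).1 z hz
    rwa [zpow_one] at h3
  · have h3 := hτQ v hv (by rwa [Nat.cast_ofNat]) σ hσ
    rw [← h3]
    exact (Matrix.charpoly_toLin' (τ σ⁻¹)).symm

/-- the matrix `τ s` is congruent to `1` modulo four -/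
def TrivialModFour {L : Type} [Field L] {d : ℕ}
    (τ : AbsoluteGaloisGroup L →* Matrix (Fin d) (Fin d) ℚ_[2]) (s : AbsoluteGaloisGroup L) : Prop :=
  ∀ a b, ‖(τ s - 1) a b‖ < 1 / 2

/-- The lattice of `Z` is unramified at `v` modulo four: there is a finite Galois extension `N` of `L`,
unramified at `v`, such that the Galois group over `N` acts trivially modulo four. -/
def Unramified {L : Type} [Field L] [NumberField L] {d : ℕ}
    (τ : AbsoluteGaloisGroup L →* Matrix (Fin d) (Fin d) ℚ_[2]) (v : HeightOneSpectrum (𝓞 L)) :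
    Prop :=
  ∃ (N : IntermediateField L (AlgebraicClosure L)) (_ : NumberField N), Normal L N ∧
    v.asIdeal.ramificationIdxIn (𝓞 N) = 1 ∧
    ∀ s : AbsoluteGaloisGroup L, (∀ x : N, s x = x) → TrivialModFour τ s

theorem unramified_lat {L : Type} [Field L] [NumberField L] {d : ℕ}
    {τ : AbsoluteGaloisGroup L →* Matrix (Fin d) (Fin d) ℚ_[2]} {v : HeightOneSpectrum (𝓞 L)}
    (h : Unramified τ v) {t : AbsoluteGaloisGroup L →* Matrix (Fin d) (Fin d) ℤ_[2]}
    (ht : IsLatOf t τ) : UnramifiedModFour v t := by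
  obtain ⟨N, h1, h2, h3, h4⟩ := h
  refine ⟨N, h1, h2, h3, fun s hs => ?_⟩
  have h5 : ∀ a b, ∃ y : ℤ_[2], (t s - 1) a b = 4 * y := by
    intro a b
    have h6 : ‖(t s - 1) a b‖ < 1 / 2 := by
      have h7 := h4 s hs a b
      rw [ht s] at h7
      have h8 : ((t s).map (algebraMap ℤ_[2] ℚ_[2]) - 1) a b = (((t s - 1) a b : ℤ_[2]) : ℚ_[2]) := by
        rw [Matrix.sub_apply, Matrix.sub_apply, PadicInt.coe_sub, Matrix.map_apply]
        congr 1
        rw [Matrix.one_apply, Matrix.one_apply]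
        split_ifs <;> simp
      rw [h8] at h7
      exact h7
    have h7 : ‖(t s - 1) a b‖ ≤ (2 : ℝ) ^ (-(2 : ℕ) : ℤ) := by
      have h8 := (PadicInt.norm_le_pow_iff_norm_lt_pow_add_one ((t s - 1) a b) (-(2 : ℕ) : ℤ)).2
      push_cast at h8 ⊢
      refine h8 (lt_of_lt_of_le h6 ?_)
      norm_num
    have h8 : (t s - 1) a b ∈ Ideal.span {((2 : ℕ) : ℤ_[2]) ^ 2} :=
      (PadicInt.norm_le_pow_iff_mem_span_pow ((t s - 1) a b) 2).1 (by exact_mod_cast h7)
    obtain ⟨y, hy⟩ := Ideal.mem_span_singleton'.1 h8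
    refine ⟨y, ?_⟩
    rw [← hy]
    push_cast
    ring
  choose y hy using h5
  refine ⟨Matrix.of y, ?_⟩
  ext1 a b
  have h6 := hy a b
  rw [Matrix.sub_apply] at h6
  rw [Matrix.add_apply, Matrix.smul_apply, Matrix.of_apply, smul_eq_mul, ← h6]
  ring

end Pool.Agent.H852.J
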