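import Mathlib
import Pool.Agent.H852.J.P3

/-!
# The criterion with places
-/

set_option linter.unusedSectionVars false
set_option autoImplicit false

namespace Pool.Agent.H852.J

open Matrix Polynomial Filter Topology Module NumberField IsDedekindDomain WithZero
open Pool.Agent.Y142.ZO (GK)
open Pool.Agent.N171 Pool.Agent.N171.Al Pool.Agent.N171.Pm Pool.Agent.N171.Bg Pool.Agent.N171.TG
open Pool.Agent.Results.MP_640417_ag.HyperellipticEveryPrime
open HeightOneSpectrum

variable {K : Type} [Field K] [NumberField K]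

/-- The roots of `f` are integral and different modulo all places above `v` in all normal extensions. -/
structure GoodAt (f : K[X]) (v : HeightOneSpectrum (𝓞 K)) : Prop where
  int : ∀ (M : IntermediateField K (AlgebraicClosure K)) [NumberField M] [Normal K M]
    (P : HeightOneSpectrum (𝓞 M)) [P.asIdeal.LiesOver v.asIdeal] (u : M), aeval u f = 0 →
    P.valuation M u ≤ 1
  diff : ∀ (M : IntermediateField K (AlgebraicClosure K)) [NumberField M] [Normal K M]
    (P : HeightOneSpectrum (𝓞 M)) [P.asIdeal.LiesOver v.asIdeal] (u u' : M), aeval u f = 0 →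
    aeval u' f = 0 → u ≠ u' → P.valuation M (u - u') = 1

/-- At all places above `v` in a normal extension which contains the roots, there is exactly one pair
`a`, `b` of roots with the same residue, with the property `Q`, and the valuation of `a - b` is odd. -/
structure NodeAt (f : K[X]) (v : HeightOneSpectrum (𝓞 K))
    (Q : AlgebraicClosure K → AlgebraicClosure K → Prop) : Prop where
  int : ∀ (M : IntermediateField K (AlgebraicClosure K)) [NumberField M] [Normal K M]
    (P : HeightOneSpectrum (𝓞 M)) [P.asIdeal.LiesOver v.asIdeal] (u : M), aeval u f = 0 →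
    P.valuation M u ≤ 1
  node : ∀ (M : IntermediateField K (AlgebraicClosure K)) [NumberField M] [Normal K M]
    (P : HeightOneSpectrum (𝓞 M)) [P.asIdeal.LiesOver v.asIdeal],
    (∀ x : AlgebraicClosure K, aeval x f = 0 → x ∈ M) →
    ∃ a b : M, aeval a f = 0 ∧ aeval b f = 0 ∧ a ≠ b ∧
      Q (a : AlgebraicClosure K) (b : AlgebraicClosure K) ∧
      (∀ (u u' : M), aeval u f = 0 → aeval u' f = 0 → u ≠ u' →
        ¬ ((u = a ∨ u = b) ∧ (u' = a ∨ u' = b)) → P.valuation M (u - u') = 1) ∧
      ((∀ s : M ≃ₐ[K] M, Inert P s → s ≠ 1 → s a = b ∧ s b = a) →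
        (∀ s s' : M ≃ₐ[K] M, Inert P s → Inert P s' → s ≠ 1 → s' ≠ 1 → s = s') →
        Odd (log (P.valuation M (a - b))))

/-- the roots of `f` are the vertices of a connected graph, with the conjugates of some pairs of roots
as edges, whenever these pairs have the properties `Q k` -/
def Connects {κ : Type} (f : K[X]) (Q : κ → AlgebraicClosure K → AlgebraicClosure K → Prop) : Prop :=
  ∀ a b : κ → f.rootSet (AlgebraicClosure K), (∀ k, a k ≠ b k) → (∀ k, Q k (a k) (b k)) →
    ∀ x y : f.rootSet (AlgebraicClosure K),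
      Relation.ReflTransGen (ConjEdge K (fun x : f.rootSet (AlgebraicClosure K) =>
        (x : AlgebraicClosure K)) a b) x y

theorem aeval_coe {M : IntermediateField K (AlgebraicClosure K)} (u : M) (f : K[X]) :
    aeval u f = 0 ↔ aeval (u : AlgebraicClosure K) f = 0 := by
  have h1 : aeval (u : AlgebraicClosure K) f = ((aeval u f : M) : AlgebraicClosure K) := by
    have h2 := Polynomial.aeval_algHom_apply M.val u f
    exact h2
  rw [h1]
  exact (ZeroMemClass.coe_eq_zero (S' := M)).symm

/-- **The criterion.** -/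
theorem master {ι : Type} [Fintype ι] [Nonempty ι] (f : ι → K[X]) (hf : ∀ i, HypP (f i))
    (h3 : ∀ i, 2 < (f i).natDegree) (r : ι → ℕ) (hr : Function.Injective r) {κ : ι → Type}
    (Q : ∀ i, κ i → AlgebraicClosure K → AlgebraicClosure K → Prop)
    (v : ∀ i, κ i → HeightOneSpectrum (𝓞 K)) (h2 : ∀ i k, (2 : 𝓞 K) ∉ (v i k).asIdeal)
    (hnode : ∀ i k, NodeAt (f i) (v i k) (Q i k))
    (hgood : ∀ i k j, r j < r i → GoodAt (f j) (v i k))
    (hc : ∀ i, Connects (f i) (Q i)) {d : ℕ}
    (τ : AbsoluteGaloisGroup K →* Matrix (Fin d) (Fin d) ℚ_[2]) (hτ : IsLattice τ)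
    (hun : ∀ i k, Unramified τ (v i k)) : EveryPrime f τ := by
  classical
  obtain ⟨t, ht⟩ := exists_lat τ hτ.2
  have hsp : ∀ i, ((f i).map (algebraMap K (AlgebraicClosure K))).Splits :=
    fun i => IsAlgClosed.splits _
  have hm : ∀ i, ((f i).map (algebraMap K (AlgebraicClosure K))).Monic :=
    fun i => (HypP.monic (f := f i)).map _
  have hnd : ∀ i, ((f i).aroots (AlgebraicClosure K)).Nodup :=
    fun i => nodup_roots (HypP.sep (f := f i)).map
  have hcard : ∀ i, Fintype.card ((f i).rootSet (AlgebraicClosure K)) = (f i).natDegree := fun i =>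
    card_rootSet_eq_natDegree (HypP.sep (f := f i)) (hsp i)
  obtain ⟨i₀⟩ := ‹Nonempty ι›
  have h2F : (2 : AlgebraicClosure K) ≠ 0 := by
    have h1 : (2 : AlgebraicClosure K) = algebraMap K (AlgebraicClosure K) 2 := by rw [map_ofNat]
    rw [h1, Ne, map_eq_zero]
    exact HypP.two (f := f i₀)
  have hne : Nonempty ι := ⟨i₀⟩
  let α : ∀ i, (f i).rootSet (AlgebraicClosure K) → AlgebraicClosure K := fun i x => x
  have hyp : ∀ i, Hyp (α i) := fun i =>
    { inj := Subtype.val_injective
      odd := by
        rw [hcard]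
        exact HypP.odd (f := f i)
      two := h2F }
  have hα : ∀ i, (f i).map (algebraMap K (AlgebraicClosure K)) = fP (α i) := by
    intro i
    rw [(hsp i).eq_prod_roots_of_monic (hm i), fP]
    have h1 : ∏ x ∈ ((f i).aroots (AlgebraicClosure K)).toFinset, (X - C x) =
        ∏ x : (f i).rootSet (AlgebraicClosure K), (X - C (x : AlgebraicClosure K)) :=
      Finset.prod_subtype _ (fun x => Iff.rfl) _
    rw [← h1, Finset.prod, Multiset.toFinset_val, Multiset.Nodup.dedup (hnd i)]
  have hroot : ∀ i (x : (f i).rootSet (AlgebraicClosure K)),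
      aeval (x : AlgebraicClosure K) (f i) = 0 := fun i x => (mem_rootSet.1 x.2).2
  have hroot' : ∀ i (z : AlgebraicClosure K), aeval z (f i) = 0 →
      z ∈ (f i).rootSet (AlgebraicClosure K) := fun i z hz =>
    mem_rootSet.2 ⟨(HypP.monic (f := f i)).ne_zero, hz⟩
  -- the elements of the Galois group
  have key : ∀ i k, ∃ a b : (f i).rootSet (AlgebraicClosure K), a ≠ b ∧
      Q i k (a : AlgebraicClosure K) (b : AlgebraicClosure K) ∧ ∃ σ, PairElt α t r i a b σ := by
    intro i k
    refine pairElt_of_place α t r hr i (fun a b => Q i k (a : AlgebraicClosure K) b)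
      (fun j _ s x => ?_) (v i k) (h2 i k) (unramified_lat (hun i k) ht)
      (fun M _ _ P _ j hj x u hu => ?_) (fun M _ _ P _ j hj x y u u' hu hu' hxy => ?_)
      (fun M _ _ P _ hM => ?_)
    · refine ⟨⟨s (x : AlgebraicClosure K), hroot' j _ ?_⟩, rfl⟩
      have h4 := Polynomial.aeval_algHom_apply (s : AlgebraicClosure K →ₐ[K] AlgebraicClosure K)
        (x : AlgebraicClosure K) (f j)
      rw [hroot j x, map_zero] at h4
      exact h4
    · have h4 : aeval u (f j) = 0 := by
        rw [aeval_coe, hu]
        exact hroot j x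
      rcases hj.lt_or_eq with h5 | h5
      · exact (hgood i k j h5).int M P u h4
      · obtain rfl := hr h5
        exact (hnode j k).int M P u h4
    · refine (hgood i k j hj).diff M P u u' (by rw [aeval_coe, hu]; exact hroot j x)
        (by rw [aeval_coe, hu']; exact hroot j y) ?_
      rintro rfl
      exact hxy (Subtype.ext (hu.symm.trans hu'))
    · obtain ⟨a, b, ha, hb, hab, hQ, h4, h5⟩ := (hnode i k).node M P
        fun x hx => hM ⟨x, hroot' i x hx⟩
      refine ⟨⟨(a : AlgebraicClosure K), hroot' i _ ((aeval_coe a _).1 ha)⟩,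
        ⟨(b : AlgebraicClosure K), hroot' i _ ((aeval_coe b _).1 hb)⟩, fun h => ?_, hQ, ?_, ?_⟩
      · have h6 := congrArg Subtype.val h
        exact hab (Subtype.ext h6)
      · intro x y u u' hu hu' hxy hn
        refine h4 u u' (by rw [aeval_coe, hu]; exact hroot i x)
          (by rw [aeval_coe, hu']; exact hroot i y) ?_ ?_
        · rintro rfl
          exact hxy (Subtype.ext (hu.symm.trans hu'))
        · rintro ⟨h6, h7⟩
          refine hn ⟨?_, ?_⟩
          · rw [Finset.mem_insert, Finset.mem_singleton]
            rcases h6 with h6 | h6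
            · exact Or.inl (Subtype.ext (hu.symm.trans (congrArg Subtype.val h6)))
            · exact Or.inr (Subtype.ext (hu.symm.trans (congrArg Subtype.val h6)))
          · rw [Finset.mem_insert, Finset.mem_singleton]
            rcases h7 with h7 | h7
            · exact Or.inl (Subtype.ext (hu'.symm.trans (congrArg Subtype.val h7)))
            · exact Or.inr (Subtype.ext (hu'.symm.trans (congrArg Subtype.val h7)))
      · intro u u' hu hu' h6 h7
        obtain rfl : u = a := Subtype.ext hu
        obtain rfl : u' = b := Subtype.ext hu'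
        exact h5 h6 h7
  choose a b hab hQ σ hσ using key
  refine everyPrime_of_tan f hf α hα (fun i => by rw [hcard]; exact (h3 i).le) t τ hτ.1 ht ?_
  intro h2' _ hg X hX
  exact tan_graph α hg t h2' r hr (fun i => by rw [hcard]; exact h3 i) a b hab σ hσ
    (fun i => hc i (a i) (b i) (hab i) (hQ i)) hX

end Pool.Agent.H852.J
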