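import Mathlib
import Pool.Agent.H852.J.P4

/-!
# Iterates of quadratic polynomials
-/

set_option linter.unusedSectionVars false
set_option autoImplicit false

namespace Pool.Agent.H852.J

open Matrix Polynomial Filter Topology Module NumberField IsDedekindDomain WithZero
open Pool.Agent.N171 Pool.Agent.N171.Al Pool.Agent.N171.Pm Pool.Agent.N171.Bg Pool.Agent.N171.TG
open HeightOneSpectrum

section basics

variable {K : Type} [Field K] (u κ : K)

/-- the quadratic polynomial -/
noncomputable def quad : K[X] := (X - C u) ^ 2 + C κ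

/-- the iterates of the quadratic polynomial -/
noncomputable def iter : ℕ → K[X]
  | 0 => X
  | n + 1 => (iter n).comp (quad u κ)

theorem quad_natDegree : (quad u κ).natDegree = 2 := by
  unfold quad
  compute_degree!

theorem quad_monic : (quad u κ).Monic := by
  unfold quad
  monicity!

theorem iter_natDegree (n : ℕ) : (iter u κ n).natDegree = 2 ^ n := by
  induction n with
  | zero => exact natDegree_X
  | succ n ih => rw [iter, natDegree_comp, ih, quad_natDegree, pow_succ]

theorem iter_monic (n : ℕ) : (iter u κ n).Monic := by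
  induction n with
  | zero => exact monic_X
  | succ n ih => exact ih.comp (quad_monic u κ) (by rw [quad_natDegree]; norm_num)

variable {B : Type} [Field B] [Algebra K B]

theorem aeval_quad (x : B) :
    aeval x (quad u κ) = (x - algebraMap K B u) ^ 2 + algebraMap K B κ := by
  unfold quad
  simp

theorem aeval_iter_succ (n : ℕ) (x : B) :
    aeval x (iter u κ (n + 1)) = aeval (aeval x (quad u κ)) (iter u κ n) := by
  rw [iter, aeval_comp]

theorem eval_iter_succ (n : ℕ) (x : K) :
    eval x (iter u κ (n + 1)) = eval (eval x (quad u κ)) (iter u κ n) := by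
  rw [iter, eval_comp]

theorem aeval_iter_algebraMap (n : ℕ) (x : K) :
    aeval (algebraMap K B x) (iter u κ n) = algebraMap K B (eval x (iter u κ n)) := by
  rw [aeval_algebraMap_apply_eq_algebraMap_eval]

/-- the numbers `φ ^ n (κ)` -/
noncomputable def crit (n : ℕ) : K := eval κ (iter u κ n)

/-- the polynomial of the curve of level `n` -/
noncomputable def level (n : ℕ) : K[X] := (X - C κ) * iter u κ n

theorem level_natDegree (n : ℕ) : (level u κ n).natDegree = 2 ^ n + 1 := by
  rw [level, (monic_X_sub_C κ).natDegree_mul (iter_monic u κ n), natDegree_X_sub_C,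
    iter_natDegree, add_comm]

theorem level_monic (n : ℕ) : (level u κ n).Monic := (monic_X_sub_C κ).mul (iter_monic u κ n)

theorem aeval_level (n : ℕ) (x : B) : aeval x (level u κ n) =
    (x - algebraMap K B κ) * aeval x (iter u κ n) := by
  rw [level, map_mul, map_sub, aeval_X, aeval_C]

end basics

section sep

variable {K : Type} [Field K] (u κ : K) {F : Type} [Field F] [IsAlgClosed F] [Algebra K F]

theorem derivative_iter_succ (n : ℕ) : derivative (iter u κ (n + 1)) =
    (derivative (iter u κ n)).comp (quad u κ) * (C 2 * (X - C u)) := by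
  rw [iter, derivative_comp, mul_comm]
  congr 1
  unfold quad
  rw [derivative_add, derivative_C, add_zero, derivative_X_sub_C_sq]

theorem iter_simple (h2 : (2 : K) ≠ 0) (n : ℕ) (hc : ∀ j < n, crit u κ j ≠ 0) (z : F)
    (hz : aeval z (iter u κ n) = 0) : aeval z (derivative (iter u κ n)) ≠ 0 := by
  have h2F : (2 : F) ≠ 0 := by
    have h1 : (2 : F) = algebraMap K F 2 := by rw [map_ofNat]
    rw [h1, Ne, map_eq_zero]
    exact h2
  induction n generalizing z with
  | zero =>
    rw [iter, derivative_X, map_one]
    exact one_ne_zero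
  | succ n ih =>
    rw [aeval_iter_succ] at hz
    rw [derivative_iter_succ, map_mul, aeval_comp]
    refine mul_ne_zero (ih (fun j hj => hc j (by omega)) _ hz) ?_
    rw [map_mul, map_sub, aeval_C, aeval_X, aeval_C, map_ofNat]
    refine mul_ne_zero h2F fun h => hc n (by omega) ?_
    have h3 : aeval z (quad u κ) = algebraMap K F κ := by
      rw [aeval_quad, h]
      ring
    rw [h3, aeval_iter_algebraMap, map_eq_zero] at hz
    exact hz

theorem level_separable (h2 : (2 : K) ≠ 0) (n : ℕ) (hc : ∀ j ≤ n, crit u κ j ≠ 0) :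
    (level u κ n).Separable := by
  rw [separable_def, isCoprime_iff_aeval_ne_zero_of_isAlgClosed K (AlgebraicClosure K)]
  intro z
  by_contra h
  push Not at h
  obtain ⟨h3, h4⟩ := h
  rw [level, derivative_mul, map_add, map_mul, map_mul, derivative_sub, derivative_X,
    derivative_C, sub_zero, map_one, one_mul, map_sub, aeval_X, aeval_C] at h4
  rw [aeval_level] at h3
  rcases mul_eq_zero.1 h3 with h5 | h5
  · rw [h5, zero_mul, add_zero] at h4
    have h6 : z = algebraMap K _ κ := sub_eq_zero.1 h5
    rw [h6, aeval_iter_algebraMap, map_eq_zero] at h4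
    exact hc n le_rfl h4
  · rw [h5, zero_add] at h4
    rcases mul_eq_zero.1 h4 with h6 | h6
    · have h7 : z = algebraMap K _ κ := sub_eq_zero.1 h6
      rw [h7, aeval_iter_algebraMap, map_eq_zero] at h5
      exact hc n le_rfl h5
    · exact iter_simple u κ h2 n (fun j hj => hc j hj.le) z h5 h6

theorem iter_separable (h2 : (2 : K) ≠ 0) (n : ℕ) (hc : ∀ j < n, crit u κ j ≠ 0) :
    (iter u κ n).Separable := by
  rw [separable_def, isCoprime_iff_aeval_ne_zero_of_isAlgClosed K (AlgebraicClosure K)]
  intro z
  by_contra h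
  push Not at h
  exact iter_simple u κ h2 n hc z h.1 h.2

theorem level_hypP (h2 : (2 : K) ≠ 0) (n : ℕ) (hn : 1 ≤ n) (hc : ∀ j ≤ n, crit u κ j ≠ 0) :
    HypP (level u κ n) where
  monic := level_monic u κ n
  sep := level_separable u κ h2 n hc
  odd := by
    rw [level_natDegree]
    have h1 : Even (2 ^ n) := (Nat.even_pow.2 ⟨even_two, by omega⟩)
    exact h1.add_one
  two := h2

end sep

section galois

variable {K : Type} [Field K] (u κ : K) {F : Type} [Field F] [IsAlgClosed F] [Algebra K F]
  [IsGalois K F]

theorem map_root (g : F ≃ₐ[K] F) (f : K[X]) {z : F} (hz : aeval z f = 0) : aeval (g z) f = 0 := by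
  have h4 := Polynomial.aeval_algHom_apply (g : F →ₐ[K] F) z f
  rw [hz, map_zero] at h4
  exact h4

theorem map_quad (g : F ≃ₐ[K] F) (z : F) :
    aeval (g z) (quad u κ) = g (aeval z (quad u κ)) :=
  Polynomial.aeval_algHom_apply (g : F →ₐ[K] F) z _

theorem quad_eq_iff (z z' : F) : aeval z (quad u κ) = aeval z' (quad u κ) ↔
    z = z' ∨ z = 2 * algebraMap K F u - z' := by
  rw [aeval_quad, aeval_quad, add_left_inj, sq_eq_sq_iff_eq_or_eq_neg]
  constructor
  · rintro (h | h)
    · exact Or.inl (sub_left_injective h)
    · refine Or.inr ?_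
      linear_combination h
  · rintro (h | h)
    · exact Or.inl (by rw [h])
    · exact Or.inr (by rw [h]; ring)

/-- **The Galois group acts transitively on the roots of the iterates.** -/
theorem iter_transitive (h2 : (2 : K) ≠ 0) (n : ℕ) (hneg : ¬ IsSquare (-κ))
    (hsq : ∀ j, 1 ≤ j → j < n → ¬ IsSquare (crit u κ j)) (z z' : F)
    (hz : aeval z (iter u κ n) = 0) (hz' : aeval z' (iter u κ n) = 0) :
    ∃ g : F ≃ₐ[K] F, g z = z' := by
  classical
  induction n generalizing z z' with
  | zero =>
    rw [iter, aeval_X] at hz hz'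
    exact ⟨1, by rw [hz, hz', map_zero]⟩
  | succ n ih =>
    have ih' := ih (fun j h1 h3 => hsq j h1 (by omega))
    have hc : ∀ j < n, crit u κ j ≠ 0 := by
      intro j hj h
      rcases Nat.eq_zero_or_pos j with rfl | h1
      · apply hneg
        have h3 : κ = 0 := by
          rw [crit, iter, eval_X] at h
          exact h
        rw [h3, neg_zero]
        exact IsSquare.zero
      · apply hsq j h1 (by omega)
        rw [h]
        exact IsSquare.zero
    rw [aeval_iter_succ] at hz hz'
    obtain ⟨g, hg⟩ := ih' _ _ hz hz'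
    rw [← map_quad, quad_eq_iff] at hg
    rcases hg with hg | hg
    · exact ⟨g, hg⟩
    by_contra hno
    push Not at hno
    -- the stabilizer of `β` fixes `z'`
    have hst : ∀ h : F ≃ₐ[K] F, h (aeval z' (quad u κ)) = aeval z' (quad u κ) → h z' = z' := by
      intro h hh
      rw [← map_quad, quad_eq_iff] at hh
      refine hh.resolve_right fun h5 => hno (h * g) ?_
      rw [AlgEquiv.mul_apply, hg, map_sub, map_mul, map_ofNat, AlgEquiv.commutes, h5]
      ring
    -- the square roots
    have hcard : Fintype.card ((iter u κ n).rootSet F) = 2 ^ n := by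
      rw [card_rootSet_eq_natDegree (iter_separable u κ h2 n hc) (IsAlgClosed.splits _),
        iter_natDegree]
    have hmem : ∀ x : F, x ∈ (iter u κ n).rootSet F ↔ aeval x (iter u κ n) = 0 := fun x =>
      ⟨fun h => (mem_rootSet.1 h).2, fun h => mem_rootSet.2 ⟨(iter_monic u κ n).ne_zero, h⟩⟩
    have hch : ∀ β : (iter u κ n).rootSet F, ∃ g : F ≃ₐ[K] F, g (aeval z' (quad u κ)) = β :=
      fun β => ih' _ _ hz' ((hmem _).1 β.2)
    choose G hG using hch
    let s : (iter u κ n).rootSet F → F := fun β => G β z' - algebraMap K F u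
    have hs2 : ∀ β, s β ^ 2 = (β : F) - algebraMap K F κ := by
      intro β
      have h5 := hG β
      rw [← map_quad, aeval_quad] at h5
      exact eq_sub_of_add_eq h5
    have hsg : ∀ (h : F ≃ₐ[K] F) (β β' : (iter u κ n).rootSet F), h (β : F) = β' →
        h (s β) = s β' := by
      intro h β β' hβ
      have h5 : ((G β')⁻¹ * (h * G β)) (aeval z' (quad u κ)) = aeval z' (quad u κ) := by
        rw [AlgEquiv.mul_apply, AlgEquiv.mul_apply, hG, hβ, ← hG β', ← AlgEquiv.mul_apply,
          inv_mul_cancel]
        rfl
      have h6 := hst _ h5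
      rw [AlgEquiv.mul_apply, AlgEquiv.mul_apply] at h6
      have h7 : h (G β z') = G β' z' := by
        have h8 := congrArg (G β') h6
        rw [← AlgEquiv.mul_apply, mul_inv_cancel] at h8
        exact h8
      change h (G β z' - algebraMap K F u) = G β' z' - algebraMap K F u
      rw [map_sub, AlgEquiv.commutes, h7]
    -- the norm
    have hN : ∀ h : F ≃ₐ[K] F, h (∏ β, s β) = ∏ β, s β := by
      intro h
      let e : (iter u κ n).rootSet F ≃ (iter u κ n).rootSet F :=
        { toFun := fun β => ⟨h β, (hmem _).2 (map_root h _ ((hmem _).1 β.2))⟩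
          invFun := fun β => ⟨h⁻¹ β, (hmem _).2 (map_root h⁻¹ _ ((hmem _).1 β.2))⟩
          left_inv := fun β => Subtype.ext (by
            change h⁻¹ (h (β : F)) = β
            rw [← AlgEquiv.mul_apply, inv_mul_cancel]
            rfl)
          right_inv := fun β => Subtype.ext (by
            change h (h⁻¹ (β : F)) = β
            rw [← AlgEquiv.mul_apply, mul_inv_cancel]
            rfl) }
      rw [map_prod]
      exact Fintype.prod_equiv e _ _ fun β => hsg h β (e β) rfl
    obtain ⟨N, hN1⟩ := (InfiniteGalois.mem_range_algebraMap_iff_fixed (∏ β, s β)).2 hN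
    have hprod : aeval (algebraMap K F κ) (iter u κ n) =
        ∏ β : (iter u κ n).rootSet F, (algebraMap K F κ - (β : F)) := by
      rw [(IsAlgClosed.splits _).aeval_eq_prod_aroots_of_monic (iter_monic u κ n)]
      have h1 : ∏ x ∈ ((iter u κ n).aroots F).toFinset, (algebraMap K F κ - x) =
          ∏ x : (iter u κ n).rootSet F, (algebraMap K F κ - (x : F)) :=
        Finset.prod_subtype _ (fun x => Iff.rfl) _
      rw [← h1, Finset.prod, Multiset.toFinset_val, Multiset.Nodup.dedup
        (nodup_roots (iter_separable u κ h2 n hc).map)]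
    have h5 : algebraMap K F (N ^ 2) = algebraMap K F ((-1) ^ (2 ^ n) * crit u κ n) := by
      rw [map_pow, hN1, ← Finset.prod_pow, map_mul, crit, ← aeval_iter_algebraMap, hprod,
        map_pow, map_neg, map_one, ← hcard, ← Finset.card_univ, ← Finset.prod_const,
        ← Finset.prod_mul_distrib]
      refine Finset.prod_congr rfl fun β _ => ?_
      rw [hs2]
      ring
    have h6 := (algebraMap K F).injective h5
    rcases Nat.eq_zero_or_pos n with rfl | h7
    · rw [pow_zero, pow_one, neg_one_mul, crit, iter, eval_X] at h6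
      exact hneg ⟨N, by rw [← h6, sq]⟩
    · rw [Even.neg_one_pow (Nat.even_pow.2 ⟨even_two, by omega⟩), one_mul] at h6
      exact hsq n h7 (by omega) ⟨N, by rw [← h6, sq]⟩

end galois

end Pool.Agent.H852.J
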