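import Mathlib
import Pool.Agent.H852.J.A1

/-!
# The places for the towers of quadratic polynomials
-/

set_option linter.unusedSectionVars false
set_option autoImplicit false

namespace Pool.Agent.H852.J

open Matrix Polynomial Filter Topology Module NumberField IsDedekindDomain WithZero
open Pool.Agent.N171 Pool.Agent.N171.Al Pool.Agent.N171.Pm Pool.Agent.N171.Bg Pool.Agent.N171.TG
open HeightOneSpectrum

section val

variable {K : Type} [Field K] (u κ : K) {M : Type} [Field M] [Algebra K M]
  {Γ : Type} [LinearOrderedCommGroupWithZero Γ] (w : Valuation M Γ)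

theorem val_add_le {w : Valuation M Γ} {x y : M} (hx : w x ≤ 1) (hy : w y ≤ 1) : w (x + y) ≤ 1 :=
  (w.map_add x y).trans (max_le hx hy)

theorem val_sub_le {w : Valuation M Γ} {x y : M} (hx : w x ≤ 1) (hy : w y ≤ 1) : w (x - y) ≤ 1 :=
  (w.map_sub x y).trans (max_le hx hy)

theorem quad_int {w : Valuation M Γ} (hu : w (algebraMap K M u) ≤ 1)
    (hκ : w (algebraMap K M κ) ≤ 1) {x : M} (hx : w x ≤ 1) : w (aeval x (quad u κ)) ≤ 1 := by
  rw [aeval_quad]
  refine val_add_le ?_ hκ
  rw [map_pow]
  exact pow_le_one₀ zero_le (val_sub_le hx hu)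

theorem quad_int_conv {w : Valuation M Γ} (hu : w (algebraMap K M u) ≤ 1)
    (hκ : w (algebraMap K M κ) ≤ 1) {x : M} (hx : w (aeval x (quad u κ)) ≤ 1) : w x ≤ 1 := by
  rw [aeval_quad] at hx
  have h1 : (x - algebraMap K M u) ^ 2 =
      ((x - algebraMap K M u) ^ 2 + algebraMap K M κ) - algebraMap K M κ := by ring
  have h2 : w ((x - algebraMap K M u) ^ 2) ≤ 1 := by
    rw [h1]
    exact val_sub_le hx hκ
  rw [map_pow] at h2
  have h3 : w (x - algebraMap K M u) ≤ 1 := by
    by_contra h
    push Not at h
    exact absurd h2 (not_le.2 (one_lt_pow₀ h two_ne_zero))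
  have h4 : x = (x - algebraMap K M u) + algebraMap K M u := by ring
  rw [h4]
  exact val_add_le h3 hu

theorem iter_root_int {w : Valuation M Γ} (hu : w (algebraMap K M u) ≤ 1)
    (hκ : w (algebraMap K M κ) ≤ 1) (n : ℕ) {x : M} (hx : aeval x (iter u κ n) = 0) :
    w x ≤ 1 := by
  induction n generalizing x with
  | zero =>
    rw [iter, aeval_X] at hx
    rw [hx, map_zero]
    exact zero_le
  | succ n ih =>
    rw [aeval_iter_succ] at hx
    exact quad_int_conv u κ hu hκ (ih hx)

theorem quad_sub (x y : M) : aeval x (quad u κ) - aeval y (quad u κ) =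
    (x - y) * ((x - algebraMap K M u) + (y - algebraMap K M u)) := by
  rw [aeval_quad, aeval_quad]
  ring

theorem iter_sub_le {w : Valuation M Γ} (hu : w (algebraMap K M u) ≤ 1)
    (hκ : w (algebraMap K M κ) ≤ 1) (n : ℕ) {x y : M} (hx : w x ≤ 1) (hy : w y ≤ 1) :
    w (aeval x (iter u κ n) - aeval y (iter u κ n)) ≤ w (x - y) := by
  induction n generalizing x y with
  | zero => rw [iter, aeval_X, aeval_X]
  | succ n ih =>
    rw [aeval_iter_succ, aeval_iter_succ]
    refine (ih (quad_int u κ hu hκ hx) (quad_int u κ hu hκ hy)).trans ?_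
    rw [quad_sub, map_mul]
    exact mul_le_of_le_one_right' (val_add_le (val_sub_le hx hu) (val_sub_le hy hu))

/-- a root is as far from the critical value as possible if `φ ^ n (κ)` is a unit -/
theorem crit_far {w : Valuation M Γ} (hu : w (algebraMap K M u) ≤ 1)
    (hκ : w (algebraMap K M κ) ≤ 1) (n : ℕ) (hc : w (algebraMap K M (crit u κ n)) = 1) {x : M}
    (hx : aeval x (iter u κ n) = 0) : w (algebraMap K M κ - x) = 1 := by
  have h1 := iter_sub_le u κ hu hκ n hκ (iter_root_int u κ hu hκ n hx)
  rw [hx, sub_zero, aeval_iter_algebraMap] at h1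
  change w (algebraMap K M (crit u κ n)) ≤ _ at h1
  rw [hc] at h1
  exact le_antisymm (val_sub_le hκ (iter_root_int u κ hu hκ n hx)) h1

/-- different roots have different residues -/
theorem iter_root_diff {w : Valuation M Γ} (hu : w (algebraMap K M u) ≤ 1)
    (hκ : w (algebraMap K M κ) ≤ 1) (h2 : w (2 : M) = 1) (n : ℕ)
    (hc : ∀ j < n, w (algebraMap K M (crit u κ j)) = 1) {x y : M}
    (hx : aeval x (iter u κ n) = 0) (hy : aeval y (iter u κ n) = 0) (hxy : x ≠ y) :
    w (x - y) = 1 := by
  induction n generalizing x y with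
  | zero =>
    rw [iter, aeval_X] at hx hy
    exact absurd (hx.trans hy.symm) hxy
  | succ n ih =>
    have hxi := iter_root_int u κ hu hκ (n + 1) hx
    have hyi := iter_root_int u κ hu hκ (n + 1) hy
    rw [aeval_iter_succ] at hx hy
    by_cases h : aeval x (quad u κ) = aeval y (quad u κ)
    · have h3 : x - y = 2 * (x - algebraMap K M u) := by
        have h4 := h
        rw [aeval_quad, aeval_quad, add_left_inj, sq_eq_sq_iff_eq_or_eq_neg] at h4
        rcases h4 with h4 | h4
        · exact absurd (sub_left_injective h4) hxy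
        · linear_combination -h4
      have h4 : w ((x - algebraMap K M u) ^ 2) = 1 := by
        have h5 : (x - algebraMap K M u) ^ 2 = -(algebraMap K M κ - aeval x (quad u κ)) := by
          rw [aeval_quad]
          ring
        rw [h5, Valuation.map_neg]
        exact crit_far u κ hu hκ n (hc n (by omega)) hx
      rw [h3, map_mul, h2, one_mul]
      rw [map_pow] at h4
      refine le_antisymm (val_sub_le hxi hu) (not_lt.1 fun h6 => ?_)
      exact absurd h4 (pow_lt_one₀ zero_le h6 two_ne_zero).ne
    · have h3 := ih (fun j hj => hc j (by omega)) hx hy h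
      rw [quad_sub, map_mul] at h3
      have h4 : w (x - y) ≤ 1 := val_sub_le hxi hyi
      have h5 : w ((x - algebraMap K M u) + (y - algebraMap K M u)) ≤ 1 :=
        val_add_le (val_sub_le hxi hu) (val_sub_le hyi hu)
      refine le_antisymm h4 ?_
      calc (1 : Γ) = w (x - y) * w ((x - algebraMap K M u) + (y - algebraMap K M u)) := h3.symm
        _ ≤ w (x - y) := mul_le_of_le_one_right' h5

end val

section places

variable {K : Type} [Field K] [NumberField K] (u κ : K)

/-- `v` is a place, not above two, for which `φ` is integral, the numbers `φ ^ j (κ)`, `j < n`, are units, and the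
valuation of `φ ^ n (κ)` is odd -/
structure CritPlace (n : ℕ) (v : HeightOneSpectrum (𝓞 K)) : Prop where
  two : (2 : 𝓞 K) ∉ v.asIdeal
  int_u : v.valuation K u ≤ 1
  int_κ : v.valuation K κ ≤ 1
  unit : ∀ j < n, v.valuation K (crit u κ j) = 1
  odd : Odd (log (v.valuation K (crit u κ n)))

variable {M : Type} [Field M] [NumberField M] [Algebra K M] [IsGalois K M]
  (v : HeightOneSpectrum (𝓞 K)) (P : HeightOneSpectrum (𝓞 M)) [P.asIdeal.LiesOver v.asIdeal]

theorem val_up_le {x : K} (h : v.valuation K x ≤ 1) : P.valuation M (algebraMap K M x) ≤ 1 := by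
  rw [val_eq_pow_card v P]
  exact pow_le_one₀ zero_le h

theorem val_up_one {x : K} (h : v.valuation K x = 1) : P.valuation M (algebraMap K M x) = 1 := by
  rw [val_eq_pow_card v P, h, one_pow]

theorem val_up_two (h : (2 : 𝓞 K) ∉ v.asIdeal) : P.valuation M (2 : M) = 1 := by
  have h3 : (2 : M) = algebraMap K M (algebraMap (𝓞 K) K 2) := by rw [map_ofNat, map_ofNat]
  rw [h3]
  refine val_up_one v P ?_
  refine le_antisymm (v.valuation_le_one _) (not_lt.1 fun h4 => h ?_)
  rwa [valuation_lt_one_iff_mem] at h4

end places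

section final

variable {K : Type} [Field K] [NumberField K] (u κ : K)

theorem level_good {m n : ℕ} (hmn : m < n) {v : HeightOneSpectrum (𝓞 K)}
    (h : CritPlace u κ n v) : GoodAt (level u κ m) v := by
  refine ⟨fun M _ _ P _ x hx => ?_, fun M _ _ P _ x y hx hy hxy => ?_⟩
  · have : IsGalois K M := ⟨⟩
    have hu := val_up_le v P h.int_u
    have hκ := val_up_le v P h.int_κ
    rw [aeval_level] at hx
    rcases mul_eq_zero.1 hx with h1 | h1
    · rw [sub_eq_zero.1 h1]
      exact hκ
    · exact iter_root_int u κ hu hκ m h1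
  · have : IsGalois K M := ⟨⟩
    have hu := val_up_le v P h.int_u
    have hκ := val_up_le v P h.int_κ
    have h2 := val_up_two v P h.two
    have hc : ∀ j < n, P.valuation M (algebraMap K M (crit u κ j)) = 1 := fun j hj =>
      val_up_one v P (h.unit j hj)
    rw [aeval_level] at hx hy
    rcases mul_eq_zero.1 hx with h1 | h1 <;> rcases mul_eq_zero.1 hy with h3 | h3
    · exact absurd ((sub_eq_zero.1 h1).trans (sub_eq_zero.1 h3).symm) hxy
    · rw [sub_eq_zero.1 h1]
      exact crit_far u κ hu hκ m (hc m hmn) h3
    · rw [sub_eq_zero.1 h3, Valuation.map_sub_swap]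
      exact crit_far u κ hu hκ m (hc m hmn) h1
    · exact iter_root_diff u κ hu hκ h2 m (fun j hj => hc j (by omega)) h1 h3 hxy

theorem level_node {n : ℕ} {v : HeightOneSpectrum (𝓞 K)} (h : CritPlace u κ n v)
    (h2 : (2 : K) ≠ 0) :
    NodeAt (level u κ n) v (fun a _ => a = algebraMap K _ κ) := by
  classical
  refine ⟨fun M _ _ P _ x hx => ?_, fun M _ _ P _ hM => ?_⟩
  · have : IsGalois K M := ⟨⟩
    have hu := val_up_le v P h.int_u
    have hκ := val_up_le v P h.int_κ
    rw [aeval_level] at hx
    rcases mul_eq_zero.1 hx with h1 | h1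
    · rw [sub_eq_zero.1 h1]
      exact hκ
    · exact iter_root_int u κ hu hκ n h1
  · have : IsGalois K M := ⟨⟩
    have hu := val_up_le v P h.int_u
    have hκ := val_up_le v P h.int_κ
    have hv2 := val_up_two v P h.two
    have hc : ∀ j < n, P.valuation M (algebraMap K M (crit u κ j)) = 1 := fun j hj =>
      val_up_one v P (h.unit j hj)
    have hc0 : ∀ j < n, crit u κ j ≠ 0 := by
      intro j hj h0
      have h3 := h.unit j hj
      rw [h0, map_zero] at h3
      exact zero_ne_one h3
    -- the product formula in `M`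
    have hsplit : ((iter u κ n).map (algebraMap K M)).Splits := by
      refine Splits.of_splits_map (algebraMap M (AlgebraicClosure K)) ?_ fun a ha => ?_
      · rw [Polynomial.map_map]
        exact IsAlgClosed.splits _
      · refine ⟨⟨a, hM a ?_⟩, rfl⟩
        rw [aeval_level]
        have h3 : aeval a (iter u κ n) = 0 := by
          have h4 := (mem_roots'.1 ha).2
          rw [Polynomial.map_map, IsRoot.def, eval_map, ← IsScalarTower.algebraMap_eq] at h4
          rw [aeval_def]
          exact h4
        rw [h3, mul_zero]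
    have hnd : ((iter u κ n).aroots M).Nodup :=
      nodup_roots (iter_separable u κ h2 n hc0).map
    have hprod : algebraMap K M (crit u κ n) =
        (((iter u κ n).aroots M).map fun x => algebraMap K M κ - x).prod := by
      rw [crit, ← aeval_iter_algebraMap]
      exact hsplit.aeval_eq_prod_aroots_of_monic (iter_monic u κ n) _
    have hmem : ∀ x : M, x ∈ (iter u κ n).aroots M ↔ aeval x (iter u κ n) = 0 := fun x =>
      ⟨fun h3 => (mem_aroots.1 h3).2, fun h3 => mem_aroots.2 ⟨(iter_monic u κ n).ne_zero, h3⟩⟩
    have hint : ∀ x : M, aeval x (iter u κ n) = 0 → P.valuation M x ≤ 1 := fun x hx =>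
      iter_root_int u κ hu hκ n hx
    have hdiff : ∀ x y : M, aeval x (iter u κ n) = 0 → aeval y (iter u κ n) = 0 → x ≠ y →
        P.valuation M (x - y) = 1 := fun x y hx hy hxy =>
      iter_root_diff u κ hu hκ hv2 n hc hx hy hxy
    have hcn : P.valuation M (algebraMap K M (crit u κ n)) < 1 := by
      rw [val_eq_pow_card v P]
      have h3 : v.valuation K (crit u κ n) ≤ 1 := by
        have h4 : ∀ (n : ℕ) (x : K), v.valuation K x ≤ 1 →
            v.valuation K (eval x (iter u κ n)) ≤ 1 := by
          intro n
          induction n with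
          | zero =>
            intro x hx
            rw [iter, eval_X]
            exact hx
          | succ n ih =>
            intro x hx
            rw [eval_iter_succ]
            refine ih _ ?_
            have h5 := quad_int (M := K) u κ (w := v.valuation K) h.int_u h.int_κ hx
            rwa [coe_aeval_eq_eval] at h5
        exact h4 n κ h.int_κ
      have h4 : v.valuation K (crit u κ n) ≠ 1 := by
        intro h4
        have h5 := h.odd
        rw [h4, log_one] at h5
        exact absurd h5 (by decide)
      exact pow_lt_one₀ zero_le (lt_of_le_of_ne h3 h4) Nat.card_pos.ne'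
    obtain ⟨b, hb, hb1⟩ : ∃ b : M, aeval b (iter u κ n) = 0 ∧
        P.valuation M (algebraMap K M κ - b) < 1 := by
      by_contra hno
      push Not at hno
      have h3 : P.valuation M (algebraMap K M (crit u κ n)) = 1 := by
        rw [hprod, map_multiset_prod, Multiset.map_map]
        refine Multiset.prod_eq_one fun y hy => ?_
        obtain ⟨x, hx, rfl⟩ := Multiset.mem_map.1 hy
        exact le_antisymm (val_sub_le hκ (hint x ((hmem x).1 hx))) (hno x ((hmem x).1 hx))
      rw [h3] at hcn
      exact lt_irrefl _ hcn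
    have hoth : ∀ x : M, aeval x (iter u κ n) = 0 → x ≠ b →
        P.valuation M (algebraMap K M κ - x) = 1 := by
      intro x hx hxb
      refine le_antisymm (val_sub_le hκ (hint x hx)) (not_lt.1 fun h3 => ?_)
      have h4 := hdiff x b hx hb hxb
      have h5 : x - b = (algebraMap K M κ - b) - (algebraMap K M κ - x) := by ring
      rw [h5] at h4
      exact absurd h4 (lt_of_le_of_lt (Valuation.map_sub _ _ _) (max_lt hb1 h3)).ne
    have hval : P.valuation M (algebraMap K M (crit u κ n)) =
        P.valuation M (algebraMap K M κ - b) := by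
      rw [hprod, map_multiset_prod, Multiset.map_map,
        ← Multiset.cons_erase ((hmem b).2 hb), Multiset.map_cons, Multiset.prod_cons]
      rw [Multiset.prod_eq_one, mul_one]
      · rfl
      · intro y hy
        obtain ⟨x, hx, rfl⟩ := Multiset.mem_map.1 hy
        rw [hnd.mem_erase_iff] at hx
        exact hoth x ((hmem x).1 hx.2) hx.1
    have hne : algebraMap K M κ ≠ b := by
      rintro h3
      rw [h3, sub_self, map_zero] at hval
      have h4 : crit u κ n = 0 := by
        rw [map_eq_zero] at hval
        exact (map_eq_zero _).1 hval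
      have h5 := h.odd
      rw [h4, map_zero, log_zero] at h5
      exact absurd h5 (by decide)
    refine ⟨algebraMap K M κ, b, ?_, ?_, hne, rfl, ?_, ?_⟩
    · rw [aeval_level, sub_self, zero_mul]
    · rw [aeval_level, hb, mul_zero]
    · intro x y hx hy hxy hn
      rw [aeval_level] at hx hy
      rcases mul_eq_zero.1 hx with h1 | h1 <;> rcases mul_eq_zero.1 hy with h3 | h3
      · exact absurd ((sub_eq_zero.1 h1).trans (sub_eq_zero.1 h3).symm) hxy
      · rw [sub_eq_zero.1 h1]
        exact hoth y h3 fun h4 => hn ⟨Or.inl (sub_eq_zero.1 h1), Or.inr h4⟩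
      · rw [sub_eq_zero.1 h3, Valuation.map_sub_swap]
        exact hoth x h1 fun h4 => hn ⟨Or.inr h4, Or.inl (sub_eq_zero.1 h3)⟩
      · exact hdiff x y h1 h3 hxy
    · intro h3 _
      have h4 : ∀ s : M ≃ₐ[K] M, Inert P s → s = 1 := by
        intro s hs
        by_contra hs1
        have h5 := (h3 s hs hs1).1
        rw [AlgEquiv.commutes] at h5
        exact hne h5
      rw [← hval, val_eq_of_trivial v P h4]
      exact h.odd

/-- the graph of the conjugates is a star -/
theorem level_connects (h2 : (2 : K) ≠ 0) (n : ℕ) (hneg : ¬ IsSquare (-κ))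
    (hsq : ∀ j, 1 ≤ j → j < n → ¬ IsSquare (crit u κ j)) {ι : Type} [Nonempty ι] :
    Connects (κ := ι) (level u κ n) (fun _ a _ => a = algebraMap K _ κ) := by
  intro a b hab ha x y
  have hb : ∀ k, aeval (b k : AlgebraicClosure K) (iter u κ n) = 0 := by
    intro k
    have h3 := (mem_rootSet.1 (b k).2).2
    rw [aeval_level] at h3
    refine (mul_eq_zero.1 h3).resolve_left fun h4 => hab k ?_
    exact Subtype.ext ((ha k).trans (sub_eq_zero.1 h4).symm)
  obtain ⟨k⟩ := ‹Nonempty ι›
  have hedge : ∀ z : (level u κ n).rootSet (AlgebraicClosure K), z ≠ a k →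
      ConjEdge K (fun x : (level u κ n).rootSet (AlgebraicClosure K) => (x : AlgebraicClosure K))
        a b (a k) z := by
    intro z hz
    have h3 := (mem_rootSet.1 z.2).2
    rw [aeval_level] at h3
    have h4 : aeval (z : AlgebraicClosure K) (iter u κ n) = 0 := by
      refine (mul_eq_zero.1 h3).resolve_left fun h4 => hz ?_
      exact Subtype.ext ((sub_eq_zero.1 h4).trans (ha k).symm)
    obtain ⟨g, hg⟩ := iter_transitive u κ h2 n hneg hsq _ _ (hb k) h4
    refine ⟨k, g, Or.inl ⟨?_, hg⟩⟩
    change g (a k : AlgebraicClosure K) = a k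
    rw [ha k, AlgEquiv.commutes]
  have hsymm : ∀ z w, ConjEdge K (fun x : (level u κ n).rootSet (AlgebraicClosure K) =>
      (x : AlgebraicClosure K)) a b z w → ConjEdge K
        (fun x : (level u κ n).rootSet (AlgebraicClosure K) => (x : AlgebraicClosure K)) a b w z := by
    rintro z w ⟨k, g, h | h⟩
    · exact ⟨k, g, Or.inr h⟩
    · exact ⟨k, g, Or.inl h⟩
  have h1 : ∀ z, Relation.ReflTransGen (ConjEdge K
      (fun x : (level u κ n).rootSet (AlgebraicClosure K) => (x : AlgebraicClosure K)) a b)
      (a k) z := by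
    intro z
    by_cases hz : z = a k
    · rw [hz]
    · exact Relation.ReflTransGen.single (hedge z hz)
  have h3 : ∀ z, Relation.ReflTransGen (ConjEdge K
      (fun x : (level u κ n).rootSet (AlgebraicClosure K) => (x : AlgebraicClosure K)) a b)
      z (a k) := by
    intro z
    by_cases hz : z = a k
    · rw [hz]
    · exact Relation.ReflTransGen.single (hsymm _ _ (hedge z hz))
  exact (h3 x).trans (h1 y)

end final

end Pool.Agent.H852.J
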