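import Mathlib
import Pool.Agent.H852.J.A2

/-!
# Towers of quadratic polynomials: the criterion
-/

set_option linter.unusedSectionVars false
set_option autoImplicit false

namespace Pool.Agent.H852.J

open Matrix Polynomial Filter Topology Module NumberField IsDedekindDomain WithZero
open Pool.Agent.N171 Pool.Agent.N171.Al Pool.Agent.N171.Pm Pool.Agent.N171.Bg Pool.Agent.N171.TG
open Pool.Agent.Results.MP_640417_ag.HyperellipticEveryPrime
open HeightOneSpectrum

section crit

variable {K : Type} [Field K] [NumberField K] {u κ : K}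

theorem CritPlace.not_isSquare {n : ℕ} {v : HeightOneSpectrum (𝓞 K)} (h : CritPlace u κ n v) :
    ¬ IsSquare (crit u κ n) := by
  rintro ⟨x, hx⟩
  have h1 := h.odd
  rw [hx, map_mul] at h1
  by_cases h0 : x = 0
  · rw [h0, map_zero, mul_zero, log_zero] at h1
    exact absurd h1 (by decide)
  · have h3 : v.valuation K x ≠ 0 := (Valuation.ne_zero_iff _).2 h0
    rw [log_mul h3 h3] at h1
    exact (Int.not_odd_iff_even.2 ⟨_, rfl⟩) h1

theorem CritPlace.crit_ne_zero {n : ℕ} {v : HeightOneSpectrum (𝓞 K)} (h : CritPlace u κ n v) {j : ℕ}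
    (hj : j ≤ n) : crit u κ j ≠ 0 := by
  intro h0
  rcases hj.lt_or_eq with h1 | rfl
  · have h3 := h.unit j h1
    rw [h0, map_zero] at h3
    exact zero_ne_one h3
  · apply h.not_isSquare
    rw [h0]
    exact IsSquare.zero

theorem CritPlace.ne {m n : ℕ} (hmn : m < n) {v w : HeightOneSpectrum (𝓞 K)}
    (h : CritPlace u κ m v) (h' : CritPlace u κ n w) : v ≠ w := by
  rintro rfl
  have h1 := h.odd
  rw [h'.unit m hmn, log_one] at h1
  exact absurd h1 (by decide)

/-- every lattice with trivial action is unramified -/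
theorem unramified_one (d : ℕ) (v : HeightOneSpectrum (𝓞 K)) :
    Unramified (1 : AbsoluteGaloisGroup K →* Matrix (Fin d) (Fin d) ℚ_[2]) v := by
  have hnf : NumberField (⊥ : IntermediateField K (AlgebraicClosure K)) :=
    NumberField.of_module_finite K _
  have hn : Normal K (⊥ : IntermediateField K (AlgebraicClosure K)) := by
    rw [IntermediateField.normal_iff_forall_map_le']
    intro σ
    rw [IntermediateField.map_bot]
  refine ⟨⊥, hnf, hn, ?_, fun s _ a b => ?_⟩
  · have hg : IsGalois K (⊥ : IntermediateField K (AlgebraicClosure K)) := ⟨⟩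
    obtain ⟨P, hP⟩ := exists_place_above (M := (⊥ : IntermediateField K (AlgebraicClosure K))) v
    have h1 := Ideal.card_inertia_eq_ramificationIdxIn
      (G := (⊥ : IntermediateField K (AlgebraicClosure K)) ≃ₐ[K]
        (⊥ : IntermediateField K (AlgebraicClosure K))) v.asIdeal P.asIdeal
    rw [← h1, Nat.card_eq_one_iff_unique]
    refine ⟨⟨fun s s' => Subtype.ext (AlgEquiv.ext fun x => ?_)⟩, ⟨1⟩⟩
    obtain ⟨y, hy⟩ := IntermediateField.mem_bot.1 x.2
    have h3 : x = algebraMap K _ y := Subtype.ext hy.symm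
    rw [h3, AlgEquiv.commutes, AlgEquiv.commutes]
  · rw [MonoidHom.one_apply, sub_self, Matrix.zero_apply, norm_zero]
    norm_num

theorem isLattice_one (d : ℕ) :
    IsLattice (1 : AbsoluteGaloisGroup K →* Matrix (Fin d) (Fin d) ℚ_[2]) := by
  refine ⟨continuous_const, fun g a b => ?_⟩
  rw [MonoidHom.one_apply, Matrix.one_apply]
  split_ifs
  · rw [norm_one]
  · rw [norm_zero]
    norm_num

/-- **The criterion for the towers.** -/
theorem tower_everyPrime (hneg : ¬ IsSquare (-κ)) (v : ℕ → HeightOneSpectrum (𝓞 K))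
    (hv : ∀ n, 1 ≤ n → CritPlace u κ n (v n)) (S : Finset ℕ) (hS : S.Nonempty)
    (hS1 : ∀ n ∈ S, 1 ≤ n) {d : ℕ}
    (τ : AbsoluteGaloisGroup K →* Matrix (Fin d) (Fin d) ℚ_[2]) (hτ : IsLattice τ)
    (hun : ∀ n ∈ S, Unramified τ (v n)) :
    EveryPrime (fun n : S => level u κ (n : ℕ)) τ := by
  have h2 : (2 : K) ≠ 0 := two_ne_zero
  have hne : Nonempty S := hS.to_subtype
  refine master (fun n : S => level u κ (n : ℕ))
    (fun n => level_hypP u κ h2 n (hS1 n n.2) fun j hj => (hv n (hS1 n n.2)).crit_ne_zero hj)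
    (fun n => ?_) (fun n => (n : ℕ)) Subtype.val_injective (κ := fun _ => Unit)
    (fun n _ a _ => a = algebraMap K _ κ) (fun n _ => v n) (fun n _ => (hv n (hS1 n n.2)).two)
    (fun n _ => level_node u κ (hv n (hS1 n n.2)) h2)
    (fun n _ m hmn => level_good u κ hmn (hv n (hS1 n n.2)))
    (fun n => level_connects u κ h2 n hneg fun j hj _ => (hv j hj).not_isSquare) τ hτ
    fun n _ => hun n n.2
  rw [level_natDegree]
  have h3 : 2 ^ 1 ≤ 2 ^ (n : ℕ) := Nat.pow_le_pow_right two_pos (hS1 n n.2)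
  omega

end crit

end Pool.Agent.H852.J
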