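import Mathlib
import Pool.Agent.H852.J.A3

/-!
# Towers of quadratic polynomials over the rational numbers
-/

set_option linter.unusedSectionVars false
set_option autoImplicit false

namespace Pool.Agent.H852.J

open Matrix Polynomial Filter Topology Module NumberField IsDedekindDomain WithZero
open HeightOneSpectrum

theorem exists_rat_place (p : ℕ) (hp : p.Prime) : ∃ v : HeightOneSpectrum (𝓞 ℚ),
    v.valuation ℚ (p : ℚ) = exp (-1 : ℤ) ∧
    (∀ m : ℤ, ¬ (p : ℤ) ∣ m → v.valuation ℚ (m : ℚ) = 1) ∧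
    ∀ m : ℤ, ¬ (p : ℤ) ∣ m → (m : 𝓞 ℚ) ∉ v.asIdeal := by
  have hpr : Prime ((p : ℕ) : 𝓞 ℚ) := by
    have h1 : Prime ((p : ℕ) : ℤ) := Nat.prime_iff_prime_int.1 hp
    have h2 := (MulEquiv.prime_iff (p := ((p : ℕ) : 𝓞 ℚ)) (Rat.ringOfIntegersEquiv : 𝓞 ℚ ≃* ℤ))
    rw [← h2]
    have h3 : (Rat.ringOfIntegersEquiv : 𝓞 ℚ ≃* ℤ) ((p : ℕ) : 𝓞 ℚ) = ((p : ℕ) : ℤ) :=
      map_natCast Rat.ringOfIntegersEquiv p
    rw [h3]
    exact h1
  let v : HeightOneSpectrum (𝓞 ℚ) :=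
    ⟨Ideal.span {((p : ℕ) : 𝓞 ℚ)}, (Ideal.span_singleton_prime hpr.ne_zero).2 hpr, by
      rw [Ne, Ideal.span_singleton_eq_bot]
      exact hpr.ne_zero⟩
  have hmem : ∀ m : ℤ, ¬ (p : ℤ) ∣ m → (m : 𝓞 ℚ) ∉ v.asIdeal := by
    intro m hm h
    apply hm
    obtain ⟨c, hc⟩ := Ideal.mem_span_singleton.1 h
    refine ⟨Rat.ringOfIntegersEquiv c, ?_⟩
    have h3 := congrArg Rat.ringOfIntegersEquiv hc
    rw [map_mul, map_intCast, map_natCast] at h3
    exact_mod_cast h3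
  refine ⟨v, ?_, fun m hm => ?_, hmem⟩
  · have h1 : ((p : ℕ) : ℚ) = algebraMap (𝓞 ℚ) ℚ ((p : ℕ) : 𝓞 ℚ) := by rw [map_natCast]
    rw [h1, valuation_of_algebraMap]
    exact v.intValuation_singleton hpr.ne_zero rfl
  · have h1 : (m : ℚ) = algebraMap (𝓞 ℚ) ℚ (m : 𝓞 ℚ) := by rw [map_intCast]
    rw [h1]
    refine le_antisymm (v.valuation_le_one _) (not_lt.1 fun h4 => hmem m hm ?_)
    rwa [valuation_lt_one_iff_mem] at h4

/-- an integer whose absolute value is not a square has a prime factor of odd multiplicity -/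
theorem exists_odd_prime_factor (m : ℤ) (hm0 : m ≠ 0) (hm : ¬ IsSquare m.natAbs) :
    ∃ (p : ℕ) (a b : ℤ), p.Prime ∧ m = a ^ 2 * p * b ∧ ¬ (p : ℤ) ∣ b := by
  obtain ⟨a, b, ha, hb, hab, hsq⟩ := Nat.sq_mul_squarefree_of_pos (Int.natAbs_pos.2 hm0)
  have ha1 : a ≠ 1 := by
    rintro rfl
    apply hm
    rw [← hab, mul_one]
    exact ⟨b, sq b⟩
  obtain ⟨p, hp, hpa⟩ := Nat.exists_prime_and_dvd ha1
  obtain ⟨c, rfl⟩ := hpa
  refine ⟨p, b, c * m.sign, hp, ?_, fun h => ?_⟩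
  · have h1 : m = m.natAbs * m.sign := by
      rw [mul_comm]
      exact (Int.sign_mul_natAbs m).symm
    conv_lhs => rw [h1, ← hab]
    push_cast
    ring
  · have h1 : (p : ℤ) ∣ c := by
      have h3 : m.sign * m.sign = 1 := by
        rcases lt_or_gt_of_ne hm0 with h4 | h4
        · rw [Int.sign_eq_neg_one_of_neg h4]
          norm_num
        · rw [Int.sign_eq_one_of_pos h4]
          norm_num
      have h4 : (c : ℤ) = (c * m.sign) * m.sign := by rw [mul_assoc, h3, mul_one]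
      rw [h4]
      exact Dvd.dvd.mul_right h _
    have h3 : p ∣ c := by exact_mod_cast h1
    obtain ⟨e, rfl⟩ := h3
    have h4 : IsUnit p := hsq p ⟨e, by ring⟩
    exact hp.not_isUnit h4

/-- The places from a sequence of pairwise coprime integers. -/
theorem critPlace_of_seq {u κ : ℚ} (c : ℤ) (W : ℕ → ℤ) (e : ℕ → ℕ)
    (hcrit : ∀ n, crit u κ n * 4 ^ e n = c * W n) (hW : ∀ n, Odd (W n))
    (hcW : ∀ n, IsCoprime c (W n)) (hWW : ∀ m n, m < n → IsCoprime (W m) (W n))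
    (hu : ∃ k : ℤ, u * 2 = k) (hκ : ∃ k : ℤ, κ * 4 = k)
    (hsq : ∀ n, 1 ≤ n → ¬ IsSquare (W n).natAbs) (n : ℕ) (hn : 1 ≤ n) :
    ∃ v : HeightOneSpectrum (𝓞 ℚ), CritPlace u κ n v := by
  have hW0 : W n ≠ 0 := by
    intro h
    have h1 := hW n
    rw [h] at h1
    exact absurd h1 (by decide)
  obtain ⟨p, a, b, hp, hab, hpb⟩ := exists_odd_prime_factor (W n) hW0 (hsq n hn)
  have hpW : (p : ℤ) ∣ W n := ⟨a ^ 2 * b, by rw [hab]; ring⟩
  have hp1 : ¬ IsUnit (p : ℤ) := (Nat.prime_iff_prime_int.1 hp).not_isUnit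
  have hp2 : ¬ (p : ℤ) ∣ 2 := by
    intro h
    have h1 : IsCoprime (2 : ℤ) (W n) := by
      obtain ⟨k, hk⟩ := hW n
      exact ⟨-k, 1, by rw [hk]; ring⟩
    exact hp1 (h1.isUnit_of_dvd' h hpW)
  have hpc : ¬ (p : ℤ) ∣ c := fun h => hp1 ((hcW n).isUnit_of_dvd' h hpW)
  have hpWj : ∀ j < n, ¬ (p : ℤ) ∣ W j := fun j hj h => hp1 ((hWW j n hj).isUnit_of_dvd' h hpW)
  obtain ⟨v, hv1, hv2, hv3⟩ := exists_rat_place p hp
  have h2 : v.valuation ℚ (2 : ℚ) = 1 := by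
    have := hv2 2 hp2
    exact_mod_cast this
  have h4 : ∀ k : ℕ, v.valuation ℚ ((4 : ℚ) ^ k) = 1 := by
    intro k
    have h5 : (4 : ℚ) = 2 * 2 := by norm_num
    rw [map_pow, h5, map_mul, h2, mul_one, one_pow]
  have hle : ∀ k : ℤ, v.valuation ℚ (k : ℚ) ≤ 1 := by
    intro k
    have h1 : (k : ℚ) = algebraMap (𝓞 ℚ) ℚ (k : 𝓞 ℚ) := by rw [map_intCast]
    rw [h1]
    exact v.valuation_le_one _
  have hcr : ∀ j, v.valuation ℚ (crit u κ j) = v.valuation ℚ (W j : ℚ) := by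
    intro j
    have h5 := congrArg (v.valuation ℚ) (hcrit j)
    rwa [map_mul, h4, mul_one, map_mul, hv2 c hpc, one_mul] at h5
  refine ⟨v, ⟨?_, ?_, ?_, fun j hj => ?_, ?_⟩⟩
  · exact_mod_cast hv3 2 hp2
  · obtain ⟨k, hk⟩ := hu
    have h5 := hle k
    rwa [← hk, map_mul, h2, mul_one] at h5
  · obtain ⟨k, hk⟩ := hκ
    have h5 := hle k
    have h6 := h4 1
    rw [pow_one] at h6
    rwa [← hk, map_mul, h6, mul_one] at h5
  · rw [hcr, hv2 _ (hpWj j hj)]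
  · rw [hcr, hab]
    have ha0 : (a : ℚ) ≠ 0 := by
      intro h
      apply hW0
      have h5 : a = 0 := by exact_mod_cast h
      rw [hab, h5]
      ring
    have h5 : v.valuation ℚ (a : ℚ) ≠ 0 := (Valuation.ne_zero_iff _).2 ha0
    have h6 : ((a ^ 2 * p * b : ℤ) : ℚ) = (a : ℚ) ^ 2 * (p : ℚ) * (b : ℚ) := by push_cast; ring
    rw [h6, map_mul, map_mul, map_pow, hv1, hv2 b hpb, mul_one,
      log_mul (pow_ne_zero _ h5) (by simp), log_pow, log_exp]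
    exact ⟨log (v.valuation ℚ (a : ℚ)) - 1, by simp; ring⟩

end Pool.Agent.H852.J
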