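import Mathlib
import Pool.Agent.H852.J.A4

/-!
# The polynomials `x ^ 2 - s x + s`
-/

set_option linter.unusedSectionVars false
set_option autoImplicit false

namespace Pool.Agent.H852.J

open Matrix Polynomial Filter Topology Module NumberField IsDedekindDomain WithZero
open HeightOneSpectrum

section seq

theorem eval_iter_succ' {K : Type} [Field K] (u κ : K) (n : ℕ) (x : K) :
    eval x (iter u κ (n + 1)) = (eval x (iter u κ n) - u) ^ 2 + κ := by
  induction n generalizing x with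
  | zero =>
    rw [eval_iter_succ, iter, eval_X, eval_X]
    unfold quad
    simp
  | succ n ih => rw [eval_iter_succ, ih, eval_iter_succ]

theorem crit_zero {K : Type} [Field K] (u κ : K) : crit u κ 0 = κ := by
  rw [crit, iter, eval_X]

theorem crit_succ {K : Type} [Field K] (u κ : K) (n : ℕ) :
    crit u κ (n + 1) = (crit u κ n - u) ^ 2 + κ := eval_iter_succ' u κ n κ

/-- the sequence for even `s = 2 u` -/
def seqE (u : ℤ) : ℕ → ℤ
  | 0 => 2 - u
  | n + 1 => u * seqE u n ^ 2 - 2 * u * seqE u n + 2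

/-- the sequence for odd `s` -/
def seqO (s : ℤ) : ℕ → ℤ
  | 0 => 4 - s
  | n + 1 => s * seqO s n ^ 2 - s * 4 ^ 2 ^ n * seqO s n + 4 ^ 2 ^ (n + 1)

theorem crit_E (u : ℤ) (n : ℕ) : crit (u : ℚ) (2 * u - u ^ 2) n = u * seqE u n := by
  induction n with
  | zero =>
    rw [crit_zero, seqE]
    push_cast
    ring
  | succ n ih =>
    rw [crit_succ, ih, seqE]
    push_cast
    ring

theorem crit_O (s : ℤ) (n : ℕ) : crit ((s : ℚ) / 2) (s - s ^ 2 / 4) n * 4 ^ 2 ^ n = s * seqO s n := by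
  induction n with
  | zero =>
    rw [crit_zero, seqO]
    push_cast
    ring
  | succ n ih =>
    have h1 : (4 : ℚ) ^ 2 ^ (n + 1) = 4 ^ 2 ^ n * 4 ^ 2 ^ n := by
      rw [← pow_add, pow_succ, mul_two]
    have h2 : (crit ((s : ℚ) / 2) (s - s ^ 2 / 4) n - s / 2) ^ 2 + (s - s ^ 2 / 4) =
        crit ((s : ℚ) / 2) (s - s ^ 2 / 4) n ^ 2 - s * crit ((s : ℚ) / 2) (s - s ^ 2 / 4) n + s := by
      ring
    rw [crit_succ, h2, seqO, h1]
    push_cast
    rw [h1]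
    linear_combination (crit ((s : ℚ) / 2) (s - s ^ 2 / 4) n * 4 ^ 2 ^ n + s * seqO s n -
      s * 4 ^ 2 ^ n) * ih

theorem seqE_odd {u : ℤ} (hu : Odd u) (n : ℕ) : Odd (seqE u n) := by
  induction n with
  | zero =>
    rw [seqE]
    exact Even.sub_odd even_two hu
  | succ n ih =>
    rw [seqE]
    have h1 : Odd (u * seqE u n ^ 2) := hu.mul (ih.pow)
    have h2 : Even (2 * u * seqE u n) := ⟨u * seqE u n, by ring⟩
    exact (h1.sub_even h2).add_even even_two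

theorem seqE_coprime {u : ℤ} (hu : Odd u) (n : ℕ) : IsCoprime u (seqE u n) := by
  obtain ⟨k, hk⟩ := hu
  have h2 : IsCoprime u 2 := ⟨1, -k, by rw [hk]; ring⟩
  cases n with
  | zero =>
    rw [seqE]
    have h3 : (2 : ℤ) - u = 2 + u * (-1) := by ring
    rw [h3]
    exact h2.add_mul_left_right (-1)
  | succ n =>
    rw [seqE]
    have h3 : u * seqE u n ^ 2 - 2 * u * seqE u n + 2 =
        2 + u * (seqE u n ^ 2 - 2 * seqE u n) := by ring
    rw [h3]
    exact h2.add_mul_left_right _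

theorem seqE_pair {u : ℤ} (hu : Odd u) (m n : ℕ) (hmn : m < n) :
    IsCoprime (seqE u m) (seqE u n) := by
  have h1 : ∀ k, ∃ c, seqE u (m + 1 + k) = 2 + seqE u m * c := by
    intro k
    induction k with
    | zero => exact ⟨u * seqE u m - 2 * u, by rw [Nat.add_zero, seqE]; ring⟩
    | succ k ih =>
      obtain ⟨c, hc⟩ := ih
      rw [← Nat.add_assoc, seqE, hc]
      exact ⟨u * (2 * c + seqE u m * c ^ 2), by ring⟩
  obtain ⟨k, rfl⟩ := Nat.exists_eq_add_of_lt hmn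
  obtain ⟨c, hc⟩ := h1 k
  rw [show m + k + 1 = m + 1 + k by ring, hc]
  obtain ⟨e, he⟩ := seqE_odd hu m
  have h2 : IsCoprime (seqE u m) 2 := ⟨1, -e, by rw [he]; ring⟩
  exact h2.add_mul_left_right c

theorem seqE_mod {u : ℤ} (hu : Odd u) (n : ℕ) (hn : 1 ≤ n) : seqE u n % 4 = u % 4 := by
  obtain ⟨m, rfl⟩ := Nat.exists_eq_add_of_le' hn
  obtain ⟨a, ha⟩ := seqE_odd hu m
  obtain ⟨b, hb⟩ := hu
  rw [seqE, ha]
  have h1 : u * (2 * a + 1) ^ 2 - 2 * u * (2 * a + 1) + 2 = u +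
      4 * (u * a * (a + 1) - u * a + -b) := by
    rw [hb]
    ring
  rw [h1, Int.add_mul_emod_self_left]

theorem seqE_pos {u : ℤ} (hu : 3 ≤ u) (n : ℕ) : 0 < seqE u (n + 1) ∧ seqE u (n + 1) ≠ 1 ∧
    seqE u n ≠ 1 := by
  induction n with
  | zero =>
    have h0 : seqE u 0 = 2 - u := rfl
    have h1 : seqE u (0 + 1) = u * (2 - u - 1) ^ 2 + 2 - u := by
      rw [seqE, h0]
      ring
    rw [h1, h0]
    refine ⟨by nlinarith, ?_, by omega⟩
    intro h
    nlinarith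
  | succ n ih =>
    obtain ⟨h1, h2, -⟩ := ih
    have h3 : seqE u (n + 1 + 1) = u * (seqE u (n + 1) - 1) ^ 2 + 2 - u := by
      rw [seqE]
      ring
    have h4 : 1 ≤ (seqE u (n + 1) - 1) ^ 2 := by
      have h5 : 2 ≤ seqE u (n + 1) := by omega
      nlinarith
    rw [h3]
    refine ⟨by nlinarith, ?_, h2⟩
    intro h
    nlinarith

theorem seqE_neg {u : ℤ} (hu : u ≤ -3) (n : ℕ) : seqE u (n + 1) < 0 := by
  induction n with
  | zero =>
    have h0 : seqE u 0 = 2 - u := rfl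
    have h1 : seqE u (0 + 1) = u * (2 - u - 1) ^ 2 + 2 - u := by
      rw [seqE, h0]
      ring
    rw [h1]
    have h2 : 16 ≤ (2 - u - 1) ^ 2 := by nlinarith
    nlinarith
  | succ n ih =>
    have h3 : seqE u (n + 1 + 1) = u * (seqE u (n + 1) - 1) ^ 2 + 2 - u := by
      rw [seqE]
      ring
    have h4 : 4 ≤ (seqE u (n + 1) - 1) ^ 2 := by nlinarith
    rw [h3]
    nlinarith

theorem not_sq_of_mod_four {m : ℕ} (h : m % 4 = 3) : ¬ IsSquare m := by
  rintro ⟨k, hk⟩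
  have h1 : k % 4 = 0 ∨ k % 4 = 1 ∨ k % 4 = 2 ∨ k % 4 = 3 := by omega
  rw [hk, Nat.mul_mod] at h
  rcases h1 with h1 | h1 | h1 | h1 <;> rw [h1] at h <;> omega

theorem seqE_not_sq {u : ℤ} (hu : |u| % 4 = 3) (n : ℕ) (hn : 1 ≤ n) :
    ¬ IsSquare (seqE u n).natAbs := by
  apply not_sq_of_mod_four
  have hodd : Odd u := by
    rcases abs_cases u with ⟨h1, _⟩ | ⟨h1, _⟩ <;> rw [Int.odd_iff] <;> omega
  have h1 := seqE_mod hodd n hn
  obtain ⟨m, rfl⟩ := Nat.exists_eq_add_of_le' hn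
  rcases le_or_gt 0 u with h3 | h3
  · rw [abs_of_nonneg h3] at hu
    have h4 := (seqE_pos (u := u) (by omega) m).1
    omega
  · rw [abs_of_neg h3] at hu
    have h4 := seqE_neg (u := u) (by omega) m
    omega

/-- the sequence `4 ^ 2 ^ n` -/
theorem four_pow_succ (n : ℕ) : (4 : ℤ) ^ 2 ^ (n + 1) = 4 ^ 2 ^ n * 4 ^ 2 ^ n := by
  rw [← pow_add, pow_succ, mul_two]

theorem four_dvd_pow (n : ℕ) : (4 : ℤ) ∣ 4 ^ 2 ^ n := dvd_pow_self 4 (by positivity)

theorem seqO_odd {s : ℤ} (hs : Odd s) (n : ℕ) : Odd (seqO s n) := by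
  induction n with
  | zero =>
    rw [seqO]
    exact Even.sub_odd (by decide) hs
  | succ n ih =>
    rw [seqO]
    obtain ⟨a, ha⟩ := four_dvd_pow n
    obtain ⟨b, hb⟩ := four_dvd_pow (n + 1)
    have h1 : Odd (s * seqO s n ^ 2) := hs.mul (ih.pow)
    have h2 : Even (s * 4 ^ 2 ^ n * seqO s n) := ⟨2 * (s * a * seqO s n), by rw [ha]; ring⟩
    have h3 : Even ((4 : ℤ) ^ 2 ^ (n + 1)) := ⟨2 * b, by rw [hb]; ring⟩
    exact (h1.sub_even h2).add_even h3

theorem coprime_four_pow {s : ℤ} (hs : Odd s) (n : ℕ) : IsCoprime s (4 ^ n) := by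
  obtain ⟨k, hk⟩ := hs
  have h2 : IsCoprime s 2 := ⟨1, -k, by rw [hk]; ring⟩
  have h4 : IsCoprime s 4 := by
    have := h2.mul_right h2
    norm_num at this
    exact this
  exact h4.pow_right

theorem seqO_coprime {s : ℤ} (hs : Odd s) (n : ℕ) : IsCoprime s (seqO s n) := by
  cases n with
  | zero =>
    rw [seqO]
    have h3 : (4 : ℤ) - s = 4 ^ 1 + s * (-1) := by ring
    rw [h3]
    exact (coprime_four_pow hs 1).add_mul_left_right (-1)
  | succ n =>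
    rw [seqO]
    have h3 : s * seqO s n ^ 2 - s * 4 ^ 2 ^ n * seqO s n + 4 ^ 2 ^ (n + 1) =
        4 ^ 2 ^ (n + 1) + s * (seqO s n ^ 2 - 4 ^ 2 ^ n * seqO s n) := by ring
    rw [h3]
    exact (coprime_four_pow hs _).add_mul_left_right _

theorem seqO_pair {s : ℤ} (hs : Odd s) (m n : ℕ) (hmn : m < n) :
    IsCoprime (seqO s m) (seqO s n) := by
  have h1 : ∀ k, ∃ c, seqO s (m + 1 + k) = 4 ^ 2 ^ (m + 1 + k) + seqO s m * c := by
    intro k
    induction k with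
    | zero =>
      exact ⟨s * seqO s m - s * 4 ^ 2 ^ m, by rw [Nat.add_zero, seqO]; ring⟩
    | succ k ih =>
      obtain ⟨c, hc⟩ := ih
      rw [← Nat.add_assoc, seqO, hc]
      exact ⟨s * (4 ^ 2 ^ (m + 1 + k) * c + seqO s m * c ^ 2), by ring⟩
  obtain ⟨k, rfl⟩ := Nat.exists_eq_add_of_lt hmn
  obtain ⟨c, hc⟩ := h1 k
  rw [show m + k + 1 = m + 1 + k by ring, hc]
  exact (coprime_four_pow (seqO_odd hs m) _).add_mul_left_right c

theorem seqO_mod {s : ℤ} (hs : Odd s) (n : ℕ) (hn : 1 ≤ n) : seqO s n % 4 = s % 4 := by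
  obtain ⟨m, rfl⟩ := Nat.exists_eq_add_of_le' hn
  obtain ⟨a, ha⟩ := seqO_odd hs m
  obtain ⟨b, hb⟩ := four_dvd_pow m
  obtain ⟨c, hc⟩ := four_dvd_pow (m + 1)
  rw [seqO, ha, hb, hc]
  have h1 : s * (2 * a + 1) ^ 2 - s * (4 * b) * (2 * a + 1) + 4 * c = s +
      4 * (s * (a * (a + 1)) - s * b * (2 * a + 1) + c) := by
    ring
  rw [h1, Int.add_mul_emod_self_left]

theorem four_pow_pos (n : ℕ) : (0 : ℤ) < 4 ^ 2 ^ n := by positivity

theorem seqO_pos {s : ℤ} (hs : 5 ≤ s) (n : ℕ) : 4 ^ 2 ^ (n + 1) ≤ seqO s (n + 1) := by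
  induction n with
  | zero =>
    have h0 : seqO s 0 = 4 - s := rfl
    rw [seqO, h0]
    norm_num
    nlinarith
  | succ n ih =>
    rw [seqO, four_pow_succ (n + 1)]
    have h1 := four_pow_pos (n + 1)
    have h2 : 0 ≤ s * (seqO s (n + 1) * (seqO s (n + 1) - 4 ^ 2 ^ (n + 1))) :=
      mul_nonneg (by omega) (mul_nonneg (by omega) (by omega))
    linarith [h2, show s * (seqO s (n + 1) * (seqO s (n + 1) - 4 ^ 2 ^ (n + 1))) =
      s * seqO s (n + 1) ^ 2 - s * 4 ^ 2 ^ (n + 1) * seqO s (n + 1) by ring]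

theorem seqO_neg {s : ℤ} (hs : s ≤ -3) (n : ℕ) : seqO s (n + 1) ≤ - 4 ^ 2 ^ (n + 1) := by
  induction n with
  | zero =>
    have h0 : seqO s 0 = 4 - s := rfl
    rw [seqO, h0]
    norm_num
    have h1 : s * (4 - s) ^ 2 - s * 4 * (4 - s) + 16 = s ^ 2 * (s - 4) + 16 := by ring
    have h2 : 9 ≤ s ^ 2 := by nlinarith
    have h3 : 0 ≤ (s ^ 2 - 9) * (-7 - (s - 4)) := mul_nonneg (by omega) (by omega)
    rw [h1]
    nlinarith
  | succ n ih =>
    rw [seqO, four_pow_succ (n + 1)]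
    have h1 := four_pow_pos (n + 1)
    have h2 : 4 ^ 2 ^ (n + 1) * 4 ^ 2 ^ (n + 1) ≤ seqO s (n + 1) ^ 2 := by nlinarith
    have h3 : 4 ^ 2 ^ (n + 1) * 4 ^ 2 ^ (n + 1) ≤ - (4 ^ 2 ^ (n + 1) * seqO s (n + 1)) := by
      nlinarith
    nlinarith

theorem seqO_small {s : ℤ} (hs : 1 ≤ s) (hs3 : s ≤ 3) (n : ℕ) : 0 < seqO s (n + 1) := by
  have h1 := four_pow_pos n
  rw [seqO, four_pow_succ n]
  nlinarith [sq_nonneg (2 * seqO s n - 4 ^ 2 ^ n), sq_nonneg (seqO s n)]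

theorem seqO_not_sq {s : ℤ} (hs : |s| % 4 = 3) (n : ℕ) (hn : 1 ≤ n) :
    ¬ IsSquare (seqO s n).natAbs := by
  apply not_sq_of_mod_four
  have hodd : Odd s := by
    rcases abs_cases s with ⟨h1, _⟩ | ⟨h1, _⟩ <;> rw [Int.odd_iff] <;> omega
  have h1 := seqO_mod hodd n hn
  obtain ⟨m, rfl⟩ := Nat.exists_eq_add_of_le' hn
  rcases le_or_gt 0 s with h3 | h3
  · rw [abs_of_nonneg h3] at hs
    have h4 : 0 < seqO s (m + 1) := by
      rcases le_or_gt s 3 with h5 | h5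
      · exact seqO_small (by omega) h5 m
      · exact (four_pow_pos _).trans_le (seqO_pos (by omega) m)
    omega
  · rw [abs_of_neg h3] at hs
    have h4 : seqO s (m + 1) < 0 := by
      have h5 := seqO_neg (s := s) (by omega) m
      have h6 := four_pow_pos (m + 1)
      omega
    omega

/-- the case of the polynomial `x ^ 2 - x + 1`, modulo five -/
theorem seqO_one_mod (n : ℕ) : (seqO 1 (n + 1) % 5 = 2 ∨ seqO 1 (n + 1) % 5 = 3) ∧
    (4 : ℤ) ^ 2 ^ (n + 1) % 5 = 1 := by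
  induction n with
  | zero => decide
  | succ n ih =>
    obtain ⟨h1, h2⟩ := ih
    have h3 : (4 : ℤ) ^ 2 ^ (n + 1 + 1) % 5 = 1 := by
      rw [four_pow_succ (n + 1), Int.mul_emod, h2]
      norm_num
    refine ⟨?_, h3⟩
    have h4 : seqO 1 (n + 1 + 1) % 5 = ((seqO 1 (n + 1) % 5) * (seqO 1 (n + 1) % 5) -
        (4 ^ 2 ^ (n + 1) % 5) * (seqO 1 (n + 1) % 5) + 4 ^ 2 ^ (n + 1 + 1) % 5) % 5 := by
      rw [seqO, one_mul, one_mul, sq, Int.add_emod, Int.sub_emod, Int.mul_emod,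
        Int.mul_emod (4 ^ 2 ^ (n + 1))]
      simp [Int.add_emod, Int.sub_emod]
    rw [h4, h2, h3]
    rcases h1 with h1 | h1 <;> rw [h1] <;> norm_num

theorem seqO_one_not_sq (n : ℕ) (hn : 1 ≤ n) : ¬ IsSquare (seqO 1 n).natAbs := by
  obtain ⟨m, rfl⟩ := Nat.exists_eq_add_of_le' hn
  rintro ⟨k, hk⟩
  have h1 := (seqO_one_mod m).1
  have h2 := seqO_small (s := 1) le_rfl (by norm_num) m
  have h3 : (seqO 1 (m + 1)).natAbs % 5 = 2 ∨ (seqO 1 (m + 1)).natAbs % 5 = 3 := by omega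
  have h4 : k % 5 = 0 ∨ k % 5 = 1 ∨ k % 5 = 2 ∨ k % 5 = 3 ∨ k % 5 = 4 := by omega
  rw [hk, Nat.mul_mod] at h3
  rcases h4 with h4 | h4 | h4 | h4 | h4 <;> rw [h4] at h3 <;> omega

end seq

end Pool.Agent.H852.J
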