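import Mathlib
import Pool.Agent.H852.J.A5

/-!
# The towers of the polynomials `x ^ 2 - s x + s`
-/

set_option linter.unusedSectionVars false
set_option autoImplicit false

namespace Pool.Agent.H852.J

open Matrix Polynomial Filter Topology Module NumberField IsDedekindDomain WithZero
open HeightOneSpectrum
open Pool.Agent.Results.MP_640417_ag.HyperellipticEveryPrime

/-- the parameters `s` -/
def Adm (s : ℤ) : Prop := s = 1 ∨ |s| % 4 = 3 ∨ |s| % 8 = 6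

theorem quad_adm (s : ℤ) : quad ((s : ℚ) / 2) (s - s ^ 2 / 4) = X ^ 2 - C (s : ℚ) * X + C (s : ℚ) := by
  unfold quad
  have h1 : (C ((s : ℚ) - s ^ 2 / 4) : ℚ[X]) = C (s : ℚ) - C ((s : ℚ) / 2) ^ 2 := by
    rw [← C_pow, ← C_sub]
    congr 1
    ring
  have h2 : (C (s : ℚ) : ℚ[X]) = 2 * C ((s : ℚ) / 2) := by
    have h3 : (2 : ℚ[X]) = C 2 := rfl
    rw [h3, ← C_mul]
    congr 1
    ring
  rw [h1, h2]
  ring

theorem adm_neg {s : ℤ} (hs : Adm s) : ¬ IsSquare (-((s : ℚ) - s ^ 2 / 4)) := by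
  rintro ⟨x, hx⟩
  have h1 : ((s * (s - 4) : ℤ) : ℚ) = (2 * x) * (2 * x) := by
    push_cast
    linear_combination 4 * hx
  have h2 : IsSquare ((s * (s - 4) : ℤ) : ℚ) := ⟨2 * x, h1⟩
  rw [Rat.isSquare_intCast_iff] at h2
  obtain ⟨k, hk⟩ := h2
  rcases hs with rfl | hs | hs
  · nlinarith [mul_self_nonneg k]
  · -- `s` is odd
    have h3 : s % 2 = 1 := by
      rcases abs_cases s with ⟨h1, _⟩ | ⟨h1, _⟩ <;> omega
    obtain ⟨a, ha⟩ : ∃ a, s = 2 * a + 1 := ⟨s / 2, by omega⟩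
    have h4 : s * (s - 4) = 4 * (a * a - a - 1) + 1 := by rw [ha]; ring
    have h5 : (a * a - a) % 2 = 0 := by
      have h6 : a % 2 = 0 ∨ a % 2 = 1 := by omega
      have h7 : a * a - a = a * (a - 1) := by ring
      rw [h7, Int.mul_emod]
      rcases h6 with h6 | h6
      · rw [h6]; norm_num
      · have h8 : (a - 1) % 2 = 0 := by omega
        rw [h8]; norm_num
    have h8 : (s * (s - 4)) % 8 = 5 := by omega
    rw [hk] at h8
    have h9 : k % 8 = 0 ∨ k % 8 = 1 ∨ k % 8 = 2 ∨ k % 8 = 3 ∨ k % 8 = 4 ∨ k % 8 = 5 ∨ k % 8 = 6 ∨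
      k % 8 = 7 := by omega
    rw [Int.mul_emod] at h8
    rcases h9 with h9 | h9 | h9 | h9 | h9 | h9 | h9 | h9 <;> rw [h9] at h8 <;> norm_num at h8
  · -- `s = 2 u`
    obtain ⟨a, ha⟩ : ∃ a, s = 2 * (2 * a + 1) := ⟨(s / 2) / 2, by
      rcases abs_cases s with ⟨h1, _⟩ | ⟨h1, _⟩ <;> omega⟩
    have h4 : s * (s - 4) = 16 * (a * a) - 4 := by rw [ha]; ring
    have h8 : (s * (s - 4)) % 16 = 12 := by omega
    rw [hk] at h8
    have h9 : k % 16 = 0 ∨ k % 16 = 1 ∨ k % 16 = 2 ∨ k % 16 = 3 ∨ k % 16 = 4 ∨ k % 16 = 5 ∨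
      k % 16 = 6 ∨ k % 16 = 7 ∨ k % 16 = 8 ∨ k % 16 = 9 ∨ k % 16 = 10 ∨ k % 16 = 11 ∨ k % 16 = 12 ∨
      k % 16 = 13 ∨ k % 16 = 14 ∨ k % 16 = 15 := by omega
    rw [Int.mul_emod] at h8
    rcases h9 with h9 | h9 | h9 | h9 | h9 | h9 | h9 | h9 | h9 | h9 | h9 | h9 | h9 | h9 | h9 | h9 <;>
      rw [h9] at h8 <;> norm_num at h8

theorem adm_places {s : ℤ} (hs : Adm s) (n : ℕ) (hn : 1 ≤ n) :
    ∃ v : HeightOneSpectrum (𝓞 ℚ), CritPlace ((s : ℚ) / 2) (s - s ^ 2 / 4) n v := by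
  have hodd : ∀ hs : Odd s, (∀ n, 1 ≤ n → ¬ IsSquare (seqO s n).natAbs) →
      ∃ v : HeightOneSpectrum (𝓞 ℚ), CritPlace ((s : ℚ) / 2) (s - s ^ 2 / 4) n v := by
    intro h1 h2
    exact critPlace_of_seq s (seqO s) (fun n => 2 ^ n) (crit_O s) (seqO_odd h1) (seqO_coprime h1)
      (seqO_pair h1) ⟨s, by ring⟩ ⟨4 * s - s ^ 2, by push_cast; ring⟩ h2 n hn
  rcases hs with rfl | hs | hs
  · exact hodd (by decide) seqO_one_not_sq
  · exact hodd (by rcases abs_cases s with ⟨h1, _⟩ | ⟨h1, _⟩ <;> rw [Int.odd_iff] <;> omega)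
      (seqO_not_sq hs)
  · obtain ⟨u, rfl⟩ : ∃ u, s = 2 * u := ⟨s / 2, by
      rcases abs_cases s with ⟨h1, _⟩ | ⟨h1, _⟩ <;> omega⟩
    have h1 : |u| % 4 = 3 := by
      rw [abs_mul, abs_two] at hs
      omega
    have h3 : Odd u := by
      rcases abs_cases u with ⟨h1, _⟩ | ⟨h1, _⟩ <;> rw [Int.odd_iff] <;> omega
    have h4 : (((2 * u : ℤ) : ℚ) / 2) = u := by push_cast; ring
    have h5 : (((2 * u : ℤ) : ℚ) - ((2 * u : ℤ) : ℚ) ^ 2 / 4) = 2 * u - u ^ 2 := by push_cast; ring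
    rw [h4, h5]
    exact critPlace_of_seq u (seqE u) (fun _ => 0) (fun n => by rw [pow_zero, mul_one, crit_E])
      (seqE_odd h3) (seqE_coprime h3) (seqE_pair h3) ⟨2 * u, by push_cast; ring⟩
      ⟨4 * (2 * u - u ^ 2), by push_cast; ring⟩ (seqE_not_sq h1) n hn

end Pool.Agent.H852.J
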