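import Mathlib
import Pool.Agent.H852.J.G1

/-!
# The action modulo four of automorphisms which exchange the signs of the square roots of the differences of pairs
-/

set_option linter.unusedSectionVars false
set_option autoImplicit false

namespace Pool.Agent.H852.J

open Polynomial PadicInt Module Pool.Agent.N171 Pool.Agent.N171.Al Pool.Agent.N171.TG
  Pool.Agent.N171.Pm Pool.Agent.N171.Bg

noncomputable section

section half

variable {F ι : Type*} [Field F] [Fintype ι] [DecidableEq ι] {α : ι → F} [IsAlgClosed F] [Hyp α]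
  {A : Type*} [AddCommGroup A] {Θ : (Option (Pt α) →₀ ℤ) →+ A} (hA : IsClasses (crv α) Θ)

include hA in
/-- The action on the halves of the ramification points. -/
theorem act_half_inv {σ : F ≃+* F} (hσ : ∀ i, σ (α i) = α i) {σA : A →+ A}
    (hact : IsAct (crv α) Θ (gL hσ) σ (gP hσ) σA) (μ : ι → ι)
    (hs : ∀ i j, i ≠ j → ∀ w : F, w ^ 2 = α i - α j → σ w = if j = μ i then -w else w)
    {i : ι} {q : A} (hq : (2 : ℕ) • q = Θ (Dr α i)) :
    σA q - q = Θ (Dr α i) + Θ (Dr α (μ i)) := by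
  have hne : ∀ j, i ≠ j → e2 Θ (σA q - q) (Θ (Dr α j)) = if j = μ i then -1 else 1 := by
    intro j hij
    obtain ⟨-, w, hw, he⟩ := hact.half (isCurve_crv α) hA (deg_Dr i) hq (rep_Dr j)
      (gDr hσ i) (gDr hσ j) (ghr hσ j)
    have h1 : ((w⁻¹ : Fˣ) : F) ^ 2 = α i - α j := by
      rw [← ev_hr hij, ← Units.val_pow_eq_pow_val, inv_pow, hw, inv_inv]
    have h3 := hs i j hij _ h1
    have h4 : Units.map σ.toMonoidHom w⁻¹ = if j = μ i then -w⁻¹ else w⁻¹ := by
      apply Units.ext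
      change σ ((w⁻¹ : Fˣ) : F) = _
      rw [h3]
      split_ifs <;> simp
    change e (crv α) Θ 2 (σA q - q) (Θ (Dr α j)) = _
    rw [he]
    have h5 : Units.map σ.toMonoidHom w = if j = μ i then -w else w := by
      rw [map_inv] at h4
      rw [← inv_inj, h4]
      split_ifs
      · rw [inv_neg]
      · rfl
    rw [h5]
    split_ifs
    · rw [neg_mul, mul_inv_cancel]
    · rw [mul_inv_cancel]
  have h20 : (2 : ℕ) • (σA q - q) = 0 := by
    rw [smul_sub, ← map_nsmul, hq, ← hact.cls, gDr hσ, sub_self]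
  have hw0 : (2 : ℕ) • (Θ (Dr α i) + Θ (Dr α (μ i))) = 0 := by
    rw [smul_add, two_Dr hA, two_Dr hA, add_zero]
  have hee : ∀ i j, e2 Θ (Θ (Dr α i)) (Θ (Dr α j)) = if i ≠ j then (-1 : Fˣ) else 1 := by
    intro i j
    by_cases h : i = j
    · subst h
      rw [e2, e_self (isCurve_crv α) hA even_two (two_Dr hA i)]
      simp
    · rw [e2, e_Dr hA h, if_pos h]
  rw [← sub_eq_zero]
  set x := σA q - q - (Θ (Dr α i) + Θ (Dr α (μ i))) with hx
  have hx2 : (2 : ℕ) • x = 0 := by rw [hx, smul_sub, h20, hw0, sub_zero]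
  have hxj : ∀ j, i ≠ j → e2 Θ x (Θ (Dr α j)) = 1 := by
    intro j hij
    rw [hx, e2, e_sub_left (isCurve_crv α) hA even_two h20 hw0 (two_Dr hA j),
      e_add_left (isCurve_crv α) hA even_two (two_Dr hA i) (two_Dr hA (μ i)) (two_Dr hA j)]
    change e2 Θ (σA q - q) (Θ (Dr α j)) *
      (e2 Θ (Θ (Dr α i)) (Θ (Dr α j)) * e2 Θ (Θ (Dr α (μ i))) (Θ (Dr α j)))⁻¹ = 1
    rw [hne j hij, hee, hee, if_pos hij]
    by_cases h : j = μ i
    · rw [if_pos h, if_neg (by rw [h]; exact not_not.2 rfl)]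
      simp
    · rw [if_neg h, if_pos (Ne.symm h)]
      simp
  apply eq_zero_of_e2 hA hx2
  intro j
  by_cases hij : i = j
  · subst hij
    have h1 : e2 Θ (∑ j, Θ (Dr α j)) x = 1 := by
      rw [sum_Dr hA]
      exact e_zero_left (isCurve_crv α) hA even_two hx2
    rw [e2_sum hA _ _ (two_Dr hA) hx2] at h1
    have h3 : ∀ j, e2 Θ (Θ (Dr α j)) x = (e2 Θ x (Θ (Dr α j)))⁻¹ := fun j =>
      e_symm (isCurve_crv α) hA even_two hx2 (two_Dr hA j)
    simp only [h3] at h1
    rw [Finset.prod_inv_distrib, inv_eq_one, ← Finset.mul_prod_erase _ _ (Finset.mem_univ i)] at h1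
    rw [Finset.prod_congr rfl fun j hj => hxj j (Ne.symm (Finset.ne_of_mem_erase hj)),
      Finset.prod_const_one, mul_one] at h1
    exact h1
  · exact hxj j hij

include hA in
/-- The action on the points of order four. -/
theorem act_four_inv {σ : F ≃+* F} (hσ : ∀ i, σ (α i) = α i) {σA : A →+ A}
    (hact : IsAct (crv α) Θ (gL hσ) σ (gP hσ) σA) (μ : ι → ι)
    (hs : ∀ i j, i ≠ j → ∀ w : F, w ^ 2 = α i - α j → σ w = if j = μ i then -w else w)
    {z : A} {S : Finset ι} (hz : (2 : ℕ) • z = DS Θ S) :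
    σA z - z = DS Θ S + ∑ i ∈ S, Θ (Dr α (μ i)) := by
  choose q hq using fun i => two_div hA (Θ (Dr α i))
  have h1 : (2 : ℕ) • (z - ∑ i ∈ S, q i) = 0 := by
    rw [smul_sub, hz, Finset.smul_sum, DS, Finset.sum_congr rfl fun i _ => hq i, sub_self]
  obtain ⟨S', hS'⟩ := exists_DS hA h1
  have hfix : σA (DS Θ S') = DS Θ S' := by
    rw [DS, map_sum]
    refine Finset.sum_congr rfl fun i _ => ?_
    rw [← hact.cls, gDr hσ]
  have h3 : z = DS Θ S' + ∑ i ∈ S, q i := by
    rw [← hS', sub_add_cancel]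
  rw [h3, map_add, hfix, map_sum, add_sub_add_left_eq_sub, ← Finset.sum_sub_distrib, DS,
    ← Finset.sum_add_distrib]
  exact Finset.sum_congr rfl fun i _ => act_half_inv hA hσ hact μ hs (hq i)

end half

section curve

variable {K F τ : Type*} [Field K] [Field F] [Algebra K F] [IsAlgClosed F] [Fintype τ]
  [DecidableEq τ] {α : τ → F} [Hyp α] [IsDomain (RG (fP α))]
  (hg : ∀ s : F ≃ₐ[K] F, (fP α).map ((s : F ≃+* F) : F →+* F) = fP α)

/-- the signs of the square roots of the differences: `-1` exactly for the pairs `i, μ i` -/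
def SignsAt (α : τ → F) (s : F ≃ₐ[K] F) (μ : τ → τ) : Prop :=
  (∀ i, s (α i) = α i) ∧ ∀ i j, i ≠ j → ∀ w : F, w ^ 2 = α i - α j →
    s w = if j = μ i then -w else w

/-- the action on the Tate module modulo four -/
theorem rho_four_inv {s : F ≃ₐ[K] F} {μ : τ → τ} (hs : SignsAt α s μ)
    {x : TateMod 2 (ClG (RG (fP α)))} {S : Finset τ} (hx : x.1 1 = DS (ThG α) S) :
    ∃ y, rhoG hg s x = x + (2 : ℤ_[2]) • y ∧ y.1 1 = DS (ThG α) S + ∑ i ∈ S, ThG α (Dr α (μ i)) := by
  have h5 : (2 : ℕ) • x.1 2 = x.1 1 := tm_succ x 1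
  have h6 := act_four_inv (isClasses_ThG (α := α)) (σ := (s : F ≃+* F)) hs.1 (isAct_fix hg hs.1) μ
    hs.2 (z := x.1 2) (S := S) (h5.trans hx)
  have h7 : (rhoG hg s x - x).1 2 = DS (ThG α) S + ∑ i ∈ S, ThG α (Dr α (μ i)) := h6
  have h8 : (rhoG hg s x - x).1 1 = 0 := by
    have h9 : (2 : ℕ) • (rhoG hg s x - x).1 2 = (rhoG hg s x - x).1 1 := tm_succ _ 1
    rw [← h9, h7, smul_add, two_DS (isClasses_ThG (α := α)), Finset.smul_sum, zero_add]
    exact Finset.sum_eq_zero fun i _ => two_Dr (isClasses_ThG (α := α)) _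
  obtain ⟨y, hy⟩ := tm_half (a := rhoG hg s x - x) h8
  refine ⟨y, by rw [← hy, add_sub_cancel], ?_⟩
  rw [← h7, hy]
  have e2 : ((2 : ℤ_[2]) • y) = (2 : ℕ) • y := by
    rw [← tm_natCast_smul]
    norm_num
  rw [e2]
  change y.1 1 = (2 : ℕ) • y.1 (1 + 1)
  rw [tm_succ]

end curve

end

end Pool.Agent.H852.J
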