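import Mathlib
import Pool.Agent.H852.J.B1

/-!
# The pull-back of divisor classes for `(x, y) ↦ (φ(x), y)`
-/

set_option linter.unusedSectionVars false
set_option autoImplicit false

namespace Pool.Agent.H852.J

open Polynomial PadicInt Module Pool.Agent.N171 Pool.Agent.N171.Al Pool.Agent.N171.TG
  Pool.Agent.N171.Pm Pool.Agent.N171.Bg
open scoped nonZeroDivisors

noncomputable section

variable {F τ τ' : Type*} [Field F] [Fintype τ] [Fintype τ'] {α' : τ' → F} {α : τ → F} {φ : F[X]}

/-- `∏ (x - α i)` is the composition of `∏ (x - α' i)` with the monic polynomial `φ` -/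
structure Comp (α' : τ' → F) (α : τ → F) (φ : F[X]) : Prop where
  monic : φ.Monic
  deg : φ.natDegree ≠ 0
  comp : (fP α').comp φ = fP α

/-- the map of the coordinate rings -/
def cmp (h : Comp α' α φ) : RR α' →+* RR α where
  toFun x := ⟨x.re.comp φ, x.im.comp φ⟩
  map_one' := by
    ext1
    · exact one_comp
    · exact zero_comp
  map_zero' := by
    ext1
    · exact zero_comp
    · exact zero_comp
  map_mul' x y := by
    ext1
    · simp only [QuadraticAlgebra.re_mul, add_comp, mul_comp, h.comp]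
    · simp only [QuadraticAlgebra.im_mul, add_comp, mul_comp, zero_comp, zero_mul]
  map_add' x y := by
    ext1
    · simp only [QuadraticAlgebra.re_add, add_comp]
    · simp only [QuadraticAlgebra.im_add, add_comp]

theorem cmp_apply (h : Comp α' α φ) (x : RR α') : cmp h x = ⟨x.re.comp φ, x.im.comp φ⟩ := rfl

theorem comp_inj (hd : φ.natDegree ≠ 0) {p : F[X]} (hp : p.comp φ = 0) : p = 0 := by
  rcases comp_eq_zero_iff.1 hp with h | ⟨-, h⟩
  · exact h
  · exact absurd (by rw [h, natDegree_C]) hd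

theorem cmp_inj (h : Comp α' α φ) : Function.Injective (cmp h) := by
  rw [injective_iff_map_eq_zero]
  intro x hx
  ext1
  · exact comp_inj h.deg (congrArg QuadraticAlgebra.re hx)
  · exact comp_inj h.deg (congrArg QuadraticAlgebra.im hx)

variable [IsAlgClosed F] [Hyp α'] [Hyp α]

/-- the pull-back of divisor classes -/
def pull (h : Comp α' α φ) : Additive (ClassGroup (RR α')) →+ Additive (ClassGroup (RR α)) :=
  letI : Algebra (RR α') (RR α) := (cmp h).toAlgebra
  haveI : FaithfulSMul (RR α') (RR α) := (faithfulSMul_iff_algebraMap_injective _ _).2 (cmp_inj h)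
  haveI : Module.IsTorsionFree (RR α') (RR α) := inferInstance
  (ClassGroup.extendedHom (RR α') (RR α)).toAdditive

theorem map_ne (h : Comp α' α φ) {I : Ideal (RR α')} (hI : I ≠ ⊥) : I.map (cmp h) ≠ ⊥ :=
  (Ideal.map_eq_bot_iff_of_injective (cmp_inj h)).not.2 hI

theorem pull_mk0 (h : Comp α' α φ) (I : Ideal (RR α')) (hI : I ≠ ⊥) :
    pull h (Additive.ofMul (ClassGroup.mk0 ⟨I, mem_nonZeroDivisors_iff_ne_zero.2 hI⟩)) =
      Additive.ofMul (ClassGroup.mk0 ⟨I.map (cmp h),
        mem_nonZeroDivisors_iff_ne_zero.2 (map_ne h hI)⟩) := by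
  let _ : Algebra (RR α') (RR α) := (cmp h).toAlgebra
  have _ : FaithfulSMul (RR α') (RR α) := (faithfulSMul_iff_algebraMap_injective _ _).2 (cmp_inj h)
  have _ : Module.IsTorsionFree (RR α') (RR α) := inferInstance
  exact congrArg Additive.ofMul
    (ClassGroup.extendedHom_mk0 (RR α') (RR α) ⟨I, mem_nonZeroDivisors_iff_ne_zero.2 hI⟩)

/-! ### the ramification points -/

variable [DecidableEq τ]

open Classical in
variable (α' α φ) in
/-- the indices of the roots over a given one -/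
def fib (b : τ') : Finset τ := Finset.univ.filter fun a => φ.eval (α a) = α' b

theorem mem_fib {a : τ} {b : τ'} : a ∈ fib α' α φ b ↔ φ.eval (α a) = α' b := by
  simp [fib]

theorem fP_comp (φ : F[X]) (α' : τ' → F) : (fP α').comp φ = ∏ b, (φ - C (α' b)) := by
  unfold fP
  rw [prod_comp]
  exact Finset.prod_congr rfl fun b _ => by rw [sub_comp, X_comp, C_comp]

theorem sub_C_eq (h : Comp α' α φ) (b : τ') :
    φ - C (α' b) = ∏ a ∈ fib α' α φ b, (X - C (α a)) := by
  classical
  have hm : (φ - C (α' b)).Monic := h.monic.sub_of_left (by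
    refine lt_of_le_of_lt degree_C_le ?_
    exact natDegree_pos_iff_degree_pos.1 (Nat.pos_of_ne_zero h.deg))
  have hdvd : (φ - C (α' b)) ∣ fP α := by
    rw [← h.comp, fP_comp]
    exact Finset.dvd_prod_of_mem _ (Finset.mem_univ b)
  have hsepα : (fP α).Separable := separable_prod_X_sub_C_iff.2 (Hyp.inj (α := α))
  have hnd : (φ - C (α' b)).roots.Nodup := nodup_roots (hsepα.of_dvd hdvd)
  have h1 := (IsAlgClosed.splits (φ - C (α' b))).eq_prod_roots_of_monic hm
  have h2 : (φ - C (α' b)).roots = (fib α' α φ b).val.map α := by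
    refine (Multiset.Nodup.ext hnd ((fib α' α φ b).nodup.map (Hyp.inj (α := α)))).2 fun z => ?_
    rw [mem_roots hm.ne_zero, IsRoot.def, eval_sub, eval_C, sub_eq_zero, Multiset.mem_map]
    constructor
    · intro hz
      have h3 : (fP α).eval z = 0 := by
        obtain ⟨q, hq⟩ := hdvd
        rw [hq, eval_mul, eval_sub, eval_C, hz, sub_self, zero_mul]
      rw [fP_eval] at h3
      obtain ⟨a, -, ha⟩ := Finset.prod_eq_zero_iff.1 h3
      refine ⟨a, ?_, (sub_eq_zero.1 ha).symm⟩
      change a ∈ fib α' α φ b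
      rw [mem_fib, ← sub_eq_zero.1 ha, hz]
    · rintro ⟨a, ha, rfl⟩
      exact mem_fib.1 ha
  rw [h1, h2, Multiset.map_map]
  rfl

theorem map_mP (h : Comp α' α φ) (b : τ') :
    (mP (rp α' b)).map (cmp h) = ∏ a ∈ fib α' α φ b, mP (rp α a) := by
  classical
  have hev : ∀ (a : τ) (r : RR α), evP (rp α a) r = r.re.eval (α a) := by
    intro a r
    rw [evP_apply]
    change r.re.eval (α a) + r.im.eval (α a) * 0 = _
    rw [mul_zero, add_zero]
  have hev' : ∀ (b : τ') (r : RR α'), evP (rp α' b) r = r.re.eval (α' b) := by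
    intro a r
    rw [evP_apply]
    change r.re.eval (α' a) + r.im.eval (α' a) * 0 = _
    rw [mul_zero, add_zero]
  apply le_antisymm
  · -- the prime ideals divide
    have h1 : ∀ a ∈ fib α' α φ b, mP (rp α a) ∣ (mP (rp α' b)).map (cmp h) := by
      intro a ha
      rw [Ideal.dvd_iff_le, Ideal.map_le_iff_le_comap]
      intro r hr
      rw [Ideal.mem_comap, mem_mP, hev, cmp_apply]
      rw [mem_mP, hev'] at hr
      change (r.re.comp φ).eval (α a) = 0
      rw [eval_comp, mem_fib.1 ha, hr]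
    rw [← Ideal.dvd_iff_le]
    have hinj : Function.Injective fun a => mP (rp α a) := by
      intro a a' haa
      exact Hyp.inj (α := α) (congrArg Pt.a (mP_inj haa))
    have h2 : ∏ a ∈ fib α' α φ b, mP (rp α a) =
        ∏ I ∈ (fib α' α φ b).image (fun a => mP (rp α a)), I := by
      rw [Finset.prod_image fun a _ a' _ haa => hinj haa]
    rw [h2]
    refine Finset.prod_primes_dvd _ (fun I hI => ?_) fun I hI => ?_
    · obtain ⟨a, -, rfl⟩ := Finset.mem_image.1 hI
      exact prime_mP _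
    · obtain ⟨a, ha, rfl⟩ := Finset.mem_image.1 hI
      exact h1 a ha
  · intro r hr
    have h1 : ∀ a ∈ fib α' α φ b, r.re.eval (α a) = 0 := by
      intro a ha
      have h2 : r ∈ mP (rp α a) := (Ideal.prod_le_inf.trans (Finset.inf_le ha)) hr
      rwa [mem_mP, hev] at h2
    have h2 : (φ - C (α' b)) ∣ r.re := by
      rw [sub_C_eq h b]
      refine Finset.prod_dvd_of_coprime (fun a _ a' _ haa => ?_) fun a ha => dvd_iff_isRoot.2 (h1 a ha)
      exact isCoprime_X_sub_C_of_isUnit_sub
        (isUnit_iff_ne_zero.2 (sub_ne_zero.2 fun h3 => haa (Hyp.inj (α := α) h3)))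
    obtain ⟨q, hq⟩ := h2
    have e1 : (⟨X - C (α' b), 0⟩ : RR α') ∈ mP (rp α' b) := by
      rw [mem_mP, hev']
      change (X - C (α' b)).eval (α' b) = 0
      rw [eval_sub, eval_X, eval_C, sub_self]
    have e2 : (⟨0, 1⟩ : RR α') ∈ mP (rp α' b) := by
      rw [mem_mP, hev']
      change (0 : F[X]).eval (α' b) = 0
      rw [eval_zero]
    have h3 : r = cmp h ⟨X - C (α' b), 0⟩ * ⟨q, 0⟩ + cmp h ⟨0, 1⟩ * ⟨r.im, 0⟩ := by
      rw [cmp_apply, cmp_apply]
      ext1
      · simp only [QuadraticAlgebra.re_add, QuadraticAlgebra.re_mul, sub_comp, X_comp, C_comp,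
          zero_comp, one_comp, hq]
        ring
      · simp only [QuadraticAlgebra.im_add, QuadraticAlgebra.im_mul, sub_comp, X_comp, C_comp,
          zero_comp, one_comp]
        ring
    rw [h3]
    exact Ideal.add_mem _ (Ideal.mul_mem_right _ _ (Ideal.mem_map_of_mem _ e1))
      (Ideal.mul_mem_right _ _ (Ideal.mem_map_of_mem _ e2))

theorem ThG_Dr [IsDomain (RG (fP α))] (a : τ) : ThG α (Dr α a) = cl (some (rp α a)) := by
  change Th α (Dr α a) = _
  rw [Dr, map_add, Th_single, Th_single, one_smul]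
  change cl (some (rp α a)) + (-1 : ℤ) • (0 : Additive (ClassGroup (RR α))) = _
  rw [smul_zero, add_zero]

/-- the pull-back of a ramification point -/
theorem pull_Dr [IsDomain (RG (fP α))] [IsDomain (RG (fP α'))] (h : Comp α' α φ) (b : τ') :
    pull h (ThG α' (Dr α' b)) = DS (ThG α) (fib α' α φ b) := by
  classical
  have e1 : ThG α' (Dr α' b) = cl (some (rp α' b)) := by
    change Th α' (Dr α' b) = _
    rw [Dr, map_add, Th_single, Th_single, one_smul]
    change cl (some (rp α' b)) + (-1 : ℤ) • (0 : Additive (ClassGroup (RR α'))) = _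
    rw [smul_zero, add_zero]
  rw [e1]
  refine (pull_mk0 h _ (mP_ne_bot _)).trans ?_
  have h2 : DS (ThG α) (fib α' α φ b) =
      Additive.ofMul (ClassGroup.mk0 ⟨∏ a ∈ fib α' α φ b, mP (rp α a),
        mem_nonZeroDivisors_iff_ne_zero.2
          (Finset.prod_ne_zero_iff.2 fun a _ => mP_ne_bot _)⟩) := by
    generalize fib α' α φ b = S
    induction S using Finset.induction_on with
    | empty =>
      rw [DS, Finset.sum_empty]
      have h3 : (⟨∏ a ∈ (∅ : Finset τ), mP (rp α a), mem_nonZeroDivisors_iff_ne_zero.2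
          (Finset.prod_ne_zero_iff.2 fun a _ => mP_ne_bot _)⟩ : (Ideal (RR α))⁰) = 1 :=
        Subtype.ext (by simp)
      rw [h3, map_one]
      rfl
    | insert a S ha ih =>
      rw [DS, Finset.sum_insert ha]
      change ThG α (Dr α a) + DS (ThG α) S = _
      rw [ih, ThG_Dr]
      have h3 : (⟨∏ a ∈ insert a S, mP (rp α a), mem_nonZeroDivisors_iff_ne_zero.2
          (Finset.prod_ne_zero_iff.2 fun a _ => mP_ne_bot _)⟩ : (Ideal (RR α))⁰) =
          ⟨mP (rp α a), mem_nonZeroDivisors_iff_ne_zero.2 (mP_ne_bot _)⟩ *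
          ⟨∏ a ∈ S, mP (rp α a), mem_nonZeroDivisors_iff_ne_zero.2
            (Finset.prod_ne_zero_iff.2 fun a _ => mP_ne_bot _)⟩ :=
        Subtype.ext (Finset.prod_insert ha)
      rw [h3, map_mul, ofMul_mul]
      rfl
  rw [h2]
  congr 2
  exact Subtype.ext (map_mP h b)

/-- the pull-back and the Galois group -/
theorem pull_act {K : Type*} [Field K] [Algebra K F] [IsDomain (RG (fP α))]
    [IsDomain (RG (fP α'))] (h : Comp α' α φ)
    (hg' : ∀ s : F ≃ₐ[K] F, (fP α').map ((s : F ≃+* F) : F →+* F) = fP α')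
    (hg : ∀ s : F ≃ₐ[K] F, (fP α).map ((s : F ≃+* F) : F →+* F) = fP α)
    (hφ : ∀ s : F ≃ₐ[K] F, φ.map ((s : F ≃+* F) : F →+* F) = φ) (s : F ≃ₐ[K] F)
    (x : Additive (ClassGroup (RR α'))) :
    pull h (actG hg' s x) = actG hg s (pull h x) := by
  obtain ⟨⟨I, hI⟩, hx⟩ := ClassGroup.mk0_surjective x.toMul
  obtain rfl : x = Additive.ofMul (ClassGroup.mk0 ⟨I, hI⟩) := by rw [hx]; rfl
  have hI0 : I ≠ ⊥ := mem_nonZeroDivisors_iff_ne_zero.1 hI
  have e1 : actG hg' s (Additive.ofMul (ClassGroup.mk0 ⟨I, hI⟩)) = Additive.ofMul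
      (ClassGroup.mk0 ⟨I.map ((gRg (hg' s) : RR α' ≃+* RR α') : RR α' →+* RR α'), map_ne_bot _ hI⟩) :=
    congrArg Additive.ofMul (mulEquiv_mk0 _ I hI)
  have e2 := pull_mk0 h I hI0
  have e3 := pull_mk0 h (I.map ((gRg (hg' s) : RR α' ≃+* RR α') : RR α' →+* RR α'))
    (mem_nonZeroDivisors_iff_ne_zero.1 (map_ne_bot _ hI))
  have hI1 : I.map (cmp h) ∈ (Ideal (RR α))⁰ := mem_nonZeroDivisors_iff_ne_zero.2 (map_ne h hI0)
  have e4 : actG hg s (Additive.ofMul (ClassGroup.mk0 ⟨I.map (cmp h), hI1⟩)) = Additive.ofMul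
      (ClassGroup.mk0 ⟨(I.map (cmp h)).map ((gRg (hg s) : RR α ≃+* RR α) : RR α →+* RR α),
        map_ne_bot _ hI1⟩) :=
    congrArg Additive.ofMul (mulEquiv_mk0 _ _ hI1)
  refine (congrArg (pull h) e1).trans (e3.trans ?_)
  refine Eq.trans ?_ ((congrArg (actG hg s) e2).trans e4).symm
  congr 2
  apply Subtype.ext
  change (I.map _).map _ = (I.map _).map _
  rw [Ideal.map_map, Ideal.map_map]
  congr 1
  refine RingHom.ext fun r => ?_
  have h3 : ∀ p : F[X], (p.map ((s : F ≃+* F) : F →+* F)).comp φ =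
      (p.comp φ).map ((s : F ≃+* F) : F →+* F) := by
    intro p
    rw [Polynomial.map_comp, hφ]
  exact QuadraticAlgebra.ext (h3 r.re) (h3 r.im)

end

end Pool.Agent.H852.J
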