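import Mathlib
import Pool.Agent.H852.J.G4

/-!
# Pairwise separation
-/

set_option linter.unusedSectionVars false
set_option autoImplicit false

namespace Pool.Agent.H852.J

open Polynomial PadicInt Module Pool.Agent.N171 Pool.Agent.N171.Al Pool.Agent.N171.TG
  Pool.Agent.N171.Pm Pool.Agent.N171.Bg

noncomputable section

section join

variable {T : Type*} [AddCommGroup T] [Module ℤ_[2] T] [Module.Finite ℤ_[2] T]
  [Module.Free ℤ_[2] T] {Γ : Type*} [Group Γ]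
  {ρ : Representation ℤ_[2] Γ T} {B : T →ₗ[ℤ_[2]] T →ₗ[ℤ_[2]] ℤ_[2]} (halt : ∀ x, B x x = 0)
  (hnd : ∀ v, (∀ w, ¬ IsUnit (B v w)) → ∃ u, (2 : ℤ_[2]) • u = v)
  {A₁ : Type*} [Ring A₁] [Algebra ℤ_[2] A₁] [Module.Finite ℤ_[2] A₁] [Module.Free ℤ_[2] A₁]
  {A₂ : Type*} [Ring A₂] [Algebra ℤ_[2] A₂] [Module.Finite ℤ_[2] A₂] [Module.Free ℤ_[2] A₂]
  {R₁ : Γ →* A₁} {R₂ : Γ →* A₂}

include halt hnd in
/-- **Joining values.** Separation from two representations gives separation from both together. -/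
theorem join_sp
    (h₁ : ∀ X ∈ spQ B (p1 T), TanA (MonoidHom.prod (ρ : Γ →* Module.End ℤ_[2] T) R₁) (X, 0))
    (h₂ : ∀ X ∈ spQ B (p1 T), TanA (MonoidHom.prod (ρ : Γ →* Module.End ℤ_[2] T) R₂) (X, 0)) :
    ∀ X ∈ spQ B (p1 T),
      TanA (MonoidHom.prod (ρ : Γ →* Module.End ℤ_[2] T) (R₁.prod R₂)) (X, (0, 0)) := by
  set R := MonoidHom.prod (ρ : Γ →* Module.End ℤ_[2] T) (R₁.prod R₂) with hR
  let S : Submodule ℤ_[2] (Module.End ℤ_[2] T) :=
    { carrier := {X | X ∈ spQ B (p1 T) ∧ TanA R (X, (0, 0))}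
      zero_mem' := ⟨Submodule.zero_mem _, TanA_zero⟩
      add_mem' := by
        rintro X Y ⟨hX, h⟩ ⟨hY, h'⟩
        refine ⟨Submodule.add_mem _ hX hY, ?_⟩
        have h1 := TanA_add h h'
        rwa [Prod.mk_add_mk, Prod.mk_add_mk, add_zero, add_zero] at h1
      smul_mem' := by
        rintro c X ⟨hX, h⟩
        refine ⟨Submodule.smul_mem _ c hX, ?_⟩
        have h1 := TanA_smul c h
        rwa [Prod.smul_mk, Prod.smul_mk, smul_zero, smul_zero] at h1 }
  have hS : ∀ X, X ∈ S ↔ X ∈ spQ B (p1 T) ∧ TanA R (X, (0, 0)) := fun _ => Iff.rfl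
  have key : spQ B (p1 T) ≤ S := by
    refine sp_of_brackets halt hnd (fun X hX => hX.1) (fun P hP Q hQ => ?_) fun X hX => ?_
    · refine ⟨spQ_bracket B (p1 T) hP hQ, ?_⟩
      obtain ⟨a, W, hW⟩ := lift _ R₂ (h₁ P hP)
      obtain ⟨b, W', hW'⟩ := lift _ R₁ (h₂ Q hQ)
      have h3 : TanA R ((2 : ℤ_[2]) ^ a • P, (0, W)) := by
        have h4 := TanA_fun (R' := R)
          (fun x : (Module.End ℤ_[2] T × A₁) × A₂ => (x.1.1, (x.1.2, x.2))) (fun _ => rfl)
          (fun _ _ _ _ => rfl) hW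
        rw [Prod.smul_mk, smul_zero] at h4
        exact h4
      have h4 : TanA R ((2 : ℤ_[2]) ^ b • Q, (W', 0)) := by
        have h4 := TanA_fun (R' := R)
          (fun x : (Module.End ℤ_[2] T × A₂) × A₁ => (x.1.1, (x.2, x.1.2))) (fun _ => rfl)
          (fun _ _ _ _ => rfl) hW'
        rw [Prod.smul_mk, smul_zero] at h4
        exact h4
      have h5 := TanA_bracket h3 h4
      have h6 : ((2 : ℤ_[2]) ^ a • P, ((0 : A₁), W)) * ((2 : ℤ_[2]) ^ b • Q, (W', (0 : A₂))) -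
          ((2 : ℤ_[2]) ^ b • Q, (W', (0 : A₂))) * ((2 : ℤ_[2]) ^ a • P, ((0 : A₁), W)) =
          (2 : ℤ_[2]) ^ (a + b) • (P * Q - Q * P, ((0 : A₁), (0 : A₂))) := by
        refine Prod.ext ?_ (Prod.ext ?_ ?_)
        · change ((2 : ℤ_[2]) ^ a • P) * ((2 : ℤ_[2]) ^ b • Q) -
            ((2 : ℤ_[2]) ^ b • Q) * ((2 : ℤ_[2]) ^ a • P) = (2 : ℤ_[2]) ^ (a + b) • (P * Q - Q * P)
          rw [smul_mul_smul_comm, smul_mul_smul_comm, pow_add, smul_sub, mul_comm ((2 : ℤ_[2]) ^ b)]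
        · change (0 : A₁) * W' - W' * 0 = (2 : ℤ_[2]) ^ (a + b) • (0 : A₁)
          rw [zero_mul, mul_zero, sub_zero, smul_zero]
        · change W * (0 : A₂) - 0 * W = (2 : ℤ_[2]) ^ (a + b) • (0 : A₂)
          rw [zero_mul, mul_zero, sub_zero, smul_zero]
      rw [h6] at h5
      exact TanA_pow_cancel _ h5
    · obtain ⟨h1, h2⟩ := hX
      have h3 : X ∈ spQ B (p1 T) := by
        rw [mem_spQ_iff] at h1 ⊢
        intro x y
        have h4 := h1 x y
        simp only [LinearMap.smul_apply, map_smul, smul_eq_mul] at h4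
        rw [← mul_add] at h4
        exact (mul_eq_zero.1 h4).resolve_left (by norm_num)
      refine ⟨h3, TanA_cancel ?_⟩
      rw [Prod.smul_mk, Prod.smul_mk, smul_zero, smul_zero]
      exact h2
  exact fun X hX => (key hX).2

end join

section many

variable {ι : Type*} [Fintype ι] [DecidableEq ι] {T : ι → Type*} [∀ i, AddCommGroup (T i)]
  [∀ i, Module ℤ_[2] (T i)] {Γ : Type*} [Group Γ] [∀ i, Module.Finite ℤ_[2] (T i)]
  [∀ i, Module.Free ℤ_[2] (T i)]
  (ρ : ∀ i, Representation ℤ_[2] Γ (T i)) {A : Type*} [Ring A] [Algebra ℤ_[2] A]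
  [Module.Finite ℤ_[2] A] [Module.Free ℤ_[2] A] (t : Γ →* A)
  {B : ∀ i, T i →ₗ[ℤ_[2]] T i →ₗ[ℤ_[2]] ℤ_[2]} {χ : Γ →* ℤ_[2]ˣ}

/-- The action on some of the summands. -/
def part (J : Finset ι) : Γ →* (∀ j, Module.End ℤ_[2] (T j)) where
  toFun s j := if j ∈ J then ρ j s else 1
  map_one' := by
    funext j
    change (if j ∈ J then ρ j 1 else 1) = 1
    split_ifs
    · rw [map_one]
    · rfl
  map_mul' s s' := by
    funext j
    change (if j ∈ J then ρ j (s * s') else 1) =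
      (if j ∈ J then ρ j s else 1) * (if j ∈ J then ρ j s' else 1)
    split_ifs
    · rw [map_mul]
    · rw [one_mul]

variable {ρ t} (halt : ∀ i x, B i x x = 0)
  (hnd : ∀ i v, (∀ w, ¬ IsUnit (B i v w)) → ∃ u, (2 : ℤ_[2]) • u = v)
  (hB : ∀ i s x y, B i (ρ i s x) (ρ i s y) = (χ s : ℤ_[2]) * B i x y)

theorem TanA_of {A₁ A₂ : Type*} [Ring A₁] [Algebra ℤ_[2] A₁] [Ring A₂] [Algebra ℤ_[2] A₂]
    {R : Γ →* A₁} {R' : Γ →* A₂} {X : A₁} {X' : A₂} (h : TanA R X)
    (H : ∀ (s : Γ) (c d : ℤ_[2]) (Z : A₁), R s = 1 + c • (X + d • Z) →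
      ∃ Z', R' s = 1 + c • (X' + d • Z')) : TanA R' X' := by
  intro m
  obtain ⟨n₀, h⟩ := h m
  refine ⟨n₀, fun n hn => ?_⟩
  obtain ⟨σ, Z, hσ⟩ := h n hn
  exact ⟨σ, H _ _ _ _ hσ⟩

theorem part_of_mem {J : Finset ι} {j : ι} (h : j ∈ J) (s : Γ) : part ρ J s j = ρ j s := if_pos h

theorem part_of_not {J : Finset ι} {j : ι} (h : j ∉ J) (s : Γ) : part ρ J s j = 1 := if_neg h

theorem part_empty {i : ι} {X : Module.End ℤ_[2] (T i)}
    (h : TanA (MonoidHom.prod (ρ i : Γ →* Module.End ℤ_[2] (T i)) t) (X, 0)) :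
    TanA (MonoidHom.prod (ρ i : Γ →* Module.End ℤ_[2] (T i)) ((part ρ ∅).prod t)) (X, (0, 0)) := by
  refine TanA_of h fun s c d Z hs => ⟨(Z.1, (0, Z.2)), ?_⟩
  have h1 : ρ i s = 1 + c • (X + d • Z.1) := congrArg Prod.fst hs
  have h2 : t s = 1 + c • (0 + d • Z.2) := congrArg Prod.snd hs
  refine Prod.ext h1 (Prod.ext ?_ h2)
  change part ρ ∅ s = 1 + c • (0 + d • 0)
  rw [smul_zero, add_zero, smul_zero, add_zero]
  funext j
  exact part_of_not (Finset.notMem_empty j) s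

theorem part_insert {i j : ι} {J : Finset ι} {X : Module.End ℤ_[2] (T i)}
    (h : TanA (MonoidHom.prod (ρ i : Γ →* Module.End ℤ_[2] (T i)) (((part ρ J).prod t).prod
      (ρ j : Γ →* Module.End ℤ_[2] (T j)))) (X, ((0, 0), 0))) :
    TanA (MonoidHom.prod (ρ i : Γ →* Module.End ℤ_[2] (T i)) ((part ρ (insert j J)).prod t))
      (X, (0, 0)) := by
  refine TanA_of h fun s c d Z hs => ⟨(Z.1, (Function.update Z.2.1.1 j Z.2.2, Z.2.1.2)), ?_⟩
  have h1 : ρ i s = 1 + c • (X + d • Z.1) := congrArg Prod.fst hs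
  have h2 : part ρ J s = 1 + c • (0 + d • Z.2.1.1) := congrArg (fun x => x.2.1.1) hs
  have h3 : t s = 1 + c • (0 + d • Z.2.1.2) := congrArg (fun x => x.2.1.2) hs
  have h4 : ρ j s = 1 + c • (0 + d • Z.2.2) := congrArg (fun x => x.2.2) hs
  refine Prod.ext h1 (Prod.ext ?_ h3)
  change part ρ (insert j J) s = 1 + c • (0 + d • Function.update Z.2.1.1 j Z.2.2)
  funext k
  rw [Pi.add_apply, Pi.smul_apply, Pi.add_apply, Pi.smul_apply]
  by_cases hk : k = j
  · subst hk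
    rw [Function.update_self, part_of_mem (Finset.mem_insert_self _ _), h4]
    rfl
  · rw [Function.update_of_ne hk]
    have h5 := congrFun h2 k
    rw [Pi.add_apply, Pi.smul_apply, Pi.add_apply, Pi.smul_apply] at h5
    rw [← h5]
    by_cases hkJ : k ∈ J
    · rw [part_of_mem (Finset.mem_insert_of_mem hkJ), part_of_mem hkJ]
    · rw [part_of_not hkJ, part_of_not]
      rw [Finset.mem_insert]
      rintro (h6 | h6)
      · exact hk h6
      · exact hkJ h6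

include halt hnd in
theorem part_tan {i : ι} {J : Finset ι} (H : ∀ j ∈ J, ∀ X ∈ spQ (B i) (p1 (T i)),
      TanA (MonoidHom.prod (ρ i : Γ →* Module.End ℤ_[2] (T i))
        (ρ j : Γ →* Module.End ℤ_[2] (T j))) (X, 0))
    (H' : ∀ X ∈ spQ (B i) (p1 (T i)),
      TanA (MonoidHom.prod (ρ i : Γ →* Module.End ℤ_[2] (T i)) t) (X, 0)) :
    ∀ X ∈ spQ (B i) (p1 (T i)), TanA (MonoidHom.prod (ρ i : Γ →* Module.End ℤ_[2] (T i))
      ((part ρ J).prod t)) (X, (0, 0)) := by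
  induction J using Finset.induction_on with
  | empty => exact fun X hX => part_empty (H' X hX)
  | insert j J hj ih =>
    intro X hX
    exact part_insert (join_sp (halt i) (hnd i)
      (ih fun k hk => H k (Finset.mem_insert_of_mem hk)) (H j (Finset.mem_insert_self _ _)) X hX)

include halt hnd hB in
/-- **Pairwise separated families.** -/
theorem tri_pairs (r : ι → ℕ) (hr : Function.Injective r)
    (H : ∀ i j, r j < r i → ∀ X ∈ spQ (B i) (p1 (T i)),
      TanA (MonoidHom.prod (ρ i : Γ →* Module.End ℤ_[2] (T i))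
        (ρ j : Γ →* Module.End ℤ_[2] (T j))) (X, 0))
    (H' : ∀ i, ∀ X ∈ spQ (B i) (p1 (T i)),
      TanA (MonoidHom.prod (ρ i : Γ →* Module.End ℤ_[2] (T i)) t) (X, 0))
    {X : ∀ i, Module.End ℤ_[2] (T i)} (hX : ∀ i, X i ∈ spQ (B i) (p1 (T i))) :
    TanA (jw ρ t) (X, 0) := by
  refine tri (χ := χ) hnd hB r hr (fun i X hX => ?_) hX
  have h1 := part_tan halt hnd (i := i) (J := Finset.univ.filter (fun j : ι => r j < r i))
    (fun j hj => H i j (Finset.mem_filter.1 hj).2) (H' i) X hX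
  have h2 : part ρ (Finset.univ.filter (fun j : ι => r j < r i)) = lower ρ r i := by
    refine MonoidHom.ext fun s => funext fun j => ?_
    by_cases h : r j < r i
    · rw [part_of_mem (Finset.mem_filter.2 ⟨Finset.mem_univ j, h⟩), lower_of_lt _ h]
    · have h3 : j ∉ Finset.univ.filter (fun j : ι => r j < r i) :=
        fun h' => h (Finset.mem_filter.1 h').2
      rw [part_of_not h3, lower_of_not _ h]
  rw [h2] at h1
  exact h1

end many

section several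

variable {K F ι : Type*} [Field K] [Field F] [Algebra K F] [IsAlgClosed F] [Fintype ι]
  [DecidableEq ι] {τ : ι → Type*} [∀ i, Fintype (τ i)] [∀ i, DecidableEq (τ i)]
  (α : ∀ i, τ i → F) [∀ i, Hyp (α i)] [∀ i, IsDomain (RG (fP (α i)))]
  (hg : ∀ i (s : F ≃ₐ[K] F), (fP (α i)).map ((s : F ≃+* F) : F →+* F) = fP (α i))
  {A : Type*} [Ring A] [Algebra ℤ_[2] A] [Module.Finite ℤ_[2] A] [Module.Free ℤ_[2] A]
  (t : (F ≃ₐ[K] F) →* A)

/-- The symplectic Lie algebra of the curve with the branch points `α` is generated, modulo two, by automorphisms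
with the property `W` which act as square roots of transvections. -/
def GenBy {τ : Type*} [DecidableEq τ] [Fintype τ] (K : Type*) {F : Type*} [Field K] [Field F]
    [Algebra K F] [IsAlgClosed F] (α : τ → F) [Hyp α] (W : (F ≃ₐ[K] F) → Prop) : Prop :=
  ∃ (κ : Type) (I : κ → Finset τ) (σ : κ → (F ≃ₐ[K] F)), GenSets I ∧
    (∀ k, SignsOn α (σ k) (I k)) ∧ (∀ k, ∃ z, ((cyc K F (σ k) : ℤ_[2]ˣ) : ℤ_[2]) = 1 + 8 * z) ∧
    ∀ k, W (σ k)

theorem tan_of_genBy (h2 : (2 : F) ≠ 0) {i : ι}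
    (hG : GenBy K (α i) fun s => ∃ M, t s = 1 + (4 : ℤ_[2]) • M)
    (X : Module.End ℤ_[2] (TateMod 2 (ClG (RG (fP (α i)))))) (hX : X ∈ spQ (BP α h2 i) (p1 _)) :
    TanA (MonoidHom.prod (rhoG (hg i) : (F ≃ₐ[K] F) →* _) t) (X, 0) := by
  have hB : ∀ i s x y, BP α h2 i (rhoG (hg i) s x) (rhoG (hg i) s y) =
      (cyc K F s : ℤ_[2]) * BP α h2 i x y := by
    intro i s x y
    exact BB_act (isCurve_crv (α i)) isClasses_ThG h2 (isAct_G (hg i)
      (fun k => prm_spec (α i) (hg i) s k)) x y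
  obtain ⟨κ, I, σ, hI, hσ, hχ, hW⟩ := hG
  have hl : ∀ k : κ, ∃ v : TateMod 2 (ClG (RG (fP (α i)))), v.1 1 = DS (ThG (α i)) (I k) :=
    fun k => tm_lift (two_div (isClasses_ThG (α := α i)))
      (two_DS (isClasses_ThG (α := α i)) (I k))
  choose v hv using hl
  exact single (ρ := rhoG (hg i)) (χ := cyc K F) (B := BP α h2 i) (t := t)
    (fun x => BB_self _ _ _ x) (fun v hv => nd_of h2 v hv) (hB i) σ
    (fun k => Eo (BP α h2 i) (v k) (v k)) (genTwo_of I h2 v hI hv)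
    (fun k => rho_sq (hg i) (hI.even k) (hσ k) h2 (hv k)) hχ hW hX

/-- **Joint tangent vectors, pairwise separated families.** -/
theorem tan_pairs (h2 : (2 : F) ≠ 0) (r : ι → ℕ) (hr : Function.Injective r)
    (hj : ∀ i j, r j < r i → GenBy K (α i) fun s => SignsOn (α j) s ∅)
    (ht : ∀ i, GenBy K (α i) fun s => ∃ M, t s = 1 + (4 : ℤ_[2]) • M)
    {X : ∀ i, Module.End ℤ_[2] (TateMod 2 (ClG (RG (fP (α i)))))}
    (hX : ∀ i, X i ∈ spQ (BP α h2 i) (p1 _)) :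
    TanA (jw (fun i => rhoG (hg i)) t) (X, 0) := by
  have hB : ∀ i s x y, BP α h2 i (rhoG (hg i) s x) (rhoG (hg i) s y) =
      (cyc K F s : ℤ_[2]) * BP α h2 i x y := by
    intro i s x y
    exact BB_act (isCurve_crv (α i)) isClasses_ThG h2 (isAct_G (hg i)
      (fun k => prm_spec (α i) (hg i) s k)) x y
  refine tri_pairs (B := fun i => BP α h2 i) (χ := cyc K F) (fun i x => BB_self _ _ _ x)
    (fun i v hv => nd_of h2 v hv) hB r hr (fun i j hij X hX => ?_)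
    (fun i X hX => tan_of_genBy α hg t h2 (ht i) X hX) hX
  refine tan_of_genBy α hg (rhoG (hg j) : (F ≃ₐ[K] F) →* _) h2 ?_ X hX
  obtain ⟨κ, I, σ, hI, hσ, hχ, hW⟩ := hj i j hij
  exact ⟨κ, I, σ, hI, hσ, hχ, fun k => rho_trivial (hg j) (hW k) h2⟩

end several

end

end Pool.Agent.H852.J
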