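import Mathlib
import Pool.Agent.H852.J.G5

/-!
# Orthogonal complements of pulled back lattices
-/

set_option linter.unusedSectionVars false
set_option autoImplicit false

namespace Pool.Agent.H852.J

open PadicInt Module Pool.Agent.N171 Pool.Agent.N171.Al Pool.Agent.N171.TG

noncomputable section

section res

variable {T : Type*} [AddCommGroup T] [Module ℤ_[2] T] {Γ : Type*} [Group Γ]

/-- the restriction of a representation to a stable sublattice -/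
def resRep (ρ : Representation ℤ_[2] Γ T) (S : Submodule ℤ_[2] T)
    (h : ∀ s, ∀ x ∈ S, ρ s x ∈ S) : Representation ℤ_[2] Γ S where
  toFun s := (ρ s).restrict (h s)
  map_one' := by
    ext x
    change ρ 1 (x : T) = x
    rw [map_one]
    rfl
  map_mul' s s' := by
    ext x
    change ρ (s * s') (x : T) = ρ s (ρ s' x)
    rw [map_mul]
    rfl

theorem resRep_coe (ρ : Representation ℤ_[2] Γ T) (S : Submodule ℤ_[2] T)
    (h : ∀ s, ∀ x ∈ S, ρ s x ∈ S) (s : Γ) (x : S) : (resRep ρ S h s x : T) = ρ s x := rfl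

/-- the restriction of a form to a sublattice -/
def resB (B : T →ₗ[ℤ_[2]] T →ₗ[ℤ_[2]] ℤ_[2]) (S : Submodule ℤ_[2] T) :
    S →ₗ[ℤ_[2]] S →ₗ[ℤ_[2]] ℤ_[2] := B.domRestrict₁₂ S S

theorem resB_apply (B : T →ₗ[ℤ_[2]] T →ₗ[ℤ_[2]] ℤ_[2]) (S : Submodule ℤ_[2] T) (x y : S) :
    resB B S x y = B x y := rfl

end res

section step

variable {T' T : Type*} [AddCommGroup T'] [Module ℤ_[2] T'] [Module.Finite ℤ_[2] T']
  [Module.Free ℤ_[2] T'] [AddCommGroup T] [Module ℤ_[2] T] [Module.Finite ℤ_[2] T]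
  [Module.Free ℤ_[2] T] {Γ : Type*} [Group Γ] (B : T →ₗ[ℤ_[2]] T →ₗ[ℤ_[2]] ℤ_[2])
  (P : T' →ₗ[ℤ_[2]] T)

/-- the orthogonal complement of the image of `P` -/
def perp : Submodule ℤ_[2] T where
  carrier := {x | ∀ y, B x (P y) = 0}
  zero_mem' y := by rw [map_zero, LinearMap.zero_apply]
  add_mem' {a b} ha hb y := by rw [map_add, LinearMap.add_apply, ha, hb, add_zero]
  smul_mem' c a ha y := by rw [map_smul, LinearMap.smul_apply, ha, smul_zero]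

theorem mem_perp {x : T} : x ∈ perp B P ↔ ∀ y, B x (P y) = 0 := Iff.rfl

/-- the form on `T'` given by the one of `T` -/
def pb : T' →ₗ[ℤ_[2]] T' →ₗ[ℤ_[2]] ℤ_[2] := B.compl₁₂ P P

theorem pb_apply (x y : T') : pb B P x y = B (P x) (P y) := rfl

variable (hnd' : ∀ v, (∀ w, ¬ IsUnit (pb B P v w)) → ∃ u, (2 : ℤ_[2]) • u = v)
  (halt : ∀ x, B x x = 0)
  (hnd : ∀ v, (∀ w, ¬ IsUnit (B v w)) → ∃ u, (2 : ℤ_[2]) • u = v)

variable {B P}

include hnd' in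
theorem exists_proj (z : T) : ∃ x : T', z - P x ∈ perp B P := by
  let n := Fintype.card (Module.Free.ChooseBasisIndex ℤ_[2] T')
  let b₀ : Module.Basis (Fin n) ℤ_[2] T' :=
    (Module.Free.chooseBasis ℤ_[2] T').reindex (Fintype.equivFin _)
  obtain ⟨⟨b', hb'⟩, -⟩ := exists_dual (pb B P) hnd' b₀
  refine ⟨∑ i, B z (P (b₀ i)) • b' i, ?_⟩
  have h1 : ∀ j, B (z - P (∑ i, B z (P (b₀ i)) • b' i)) (P (b₀ j)) = 0 := by
    intro j
    rw [map_sub, LinearMap.sub_apply, map_sum, map_sum, LinearMap.sum_apply]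
    have h2 : ∀ i, B (P (B z (P (b₀ i)) • b' i)) (P (b₀ j)) = B z (P (b₀ i)) *
        (if i = j then 1 else 0) := by
      intro i
      rw [map_smul, map_smul, LinearMap.smul_apply, smul_eq_mul, ← hb' i j]
      rfl
    rw [Finset.sum_congr rfl fun i _ => h2 i]
    simp
  intro y
  generalize z - P (∑ i, B z (P (b₀ i)) • b' i) = w at h1
  rw [← b₀.sum_repr y, map_sum, map_sum]
  refine Finset.sum_eq_zero fun j _ => ?_
  rw [map_smul, map_smul, h1, smul_zero]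

include hnd' in
theorem eq_zero_of_mem {x : T'} (h : P x ∈ perp B P) : x = 0 :=
  (exists_dual (pb B P) hnd' ((Module.Free.chooseBasis ℤ_[2] T').reindex
    (Fintype.equivFin _))).2 x fun _ => h _

variable (B P) in
/-- the sum of the image and its orthogonal complement -/
def decMap : (T' × perp B P) →ₗ[ℤ_[2]] T := P.coprod (perp B P).subtype

theorem decMap_apply (x : T') (y : perp B P) : decMap B P (x, y) = P x + y := rfl

variable (B P) in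
/-- **The decomposition.** -/
def decE : (T' × perp B P) ≃ₗ[ℤ_[2]] T :=
  LinearEquiv.ofBijective (decMap B P) ⟨by
    rw [injective_iff_map_eq_zero]
    rintro ⟨x, y⟩ h
    rw [decMap_apply] at h
    have h1 : P x = ((-y : perp B P) : T) := by
      rw [Submodule.coe_neg]
      exact eq_neg_of_add_eq_zero_left h
    have h2 : x = 0 := eq_zero_of_mem hnd' (by rw [h1]; exact (-y).2)
    rw [h2, map_zero, zero_add] at h
    exact Prod.ext h2 (Subtype.ext h), fun z => by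
    obtain ⟨x, hx⟩ := exists_proj hnd' z
    exact ⟨(x, ⟨_, hx⟩), by rw [decMap_apply]; exact add_sub_cancel _ _⟩⟩

theorem decE_apply (x : T') (y : perp B P) : decE B P hnd' (x, y) = P x + y := rfl

include halt hnd hnd' in
/-- the complement is nondegenerate -/
theorem perp_nd (v : perp B P) (hv : ∀ w, ¬ IsUnit (resB B (perp B P) v w)) :
    ∃ u, (2 : ℤ_[2]) • u = v := by
  obtain ⟨u, hu⟩ := hnd v fun w hw => by
    obtain ⟨x, hx⟩ := exists_proj hnd' w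
    refine hv ⟨_, hx⟩ ?_
    rw [resB_apply, map_sub, v.2 x, sub_zero]
    exact hw
  refine ⟨⟨u, fun y => ?_⟩, Subtype.ext hu⟩
  have h1 := v.2 y
  rw [← hu, map_smul, LinearMap.smul_apply, smul_eq_mul] at h1
  exact (mul_eq_zero.1 h1).resolve_left (by norm_num)

/-- the complement is saturated -/
theorem perp_sat {x : T} {c : ℤ_[2]} (hc : c ≠ 0) (h : c • x ∈ perp B P) : x ∈ perp B P := by
  intro y
  have h1 := h y
  rw [map_smul, LinearMap.smul_apply, smul_eq_mul] at h1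
  exact (mul_eq_zero.1 h1).resolve_left hc

variable {ρ' : Representation ℤ_[2] Γ T'} {ρ : Representation ℤ_[2] Γ T} {χ : Γ →* ℤ_[2]ˣ}
  (hP : ∀ s x, P (ρ' s x) = ρ s (P x))
  (hB : ∀ s x y, B (ρ s x) (ρ s y) = (χ s : ℤ_[2]) * B x y)

include hP hB in
/-- the complement is stable -/
theorem perp_stable (s : Γ) (x : T) (hx : x ∈ perp B P) : ρ s x ∈ perp B P := by
  intro y
  have h1 : P y = ρ s (P (ρ' s⁻¹ y)) := by
    rw [← hP, ← Module.End.mul_apply, ← map_mul, mul_inv_cancel, map_one]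
    rfl
  rw [h1, hB, hx, mul_zero]

include hP in
theorem decE_act (hst : ∀ s, ∀ x ∈ perp B P, ρ s x ∈ perp B P) (s : Γ) (x : T')
    (y : perp B P) : decE B P hnd' (ρ' s x, resRep ρ _ hst s y) = ρ s (decE B P hnd' (x, y)) := by
  rw [decE_apply, decE_apply, map_add, hP]
  rfl

end step

/-! ### one factor with linking elements -/

section link

variable {T : Type*} [AddCommGroup T] [Module ℤ_[2] T] [Module.Finite ℤ_[2] T]
  [Module.Free ℤ_[2] T] {Γ : Type*} [Group Γ]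
  {ρ : Representation ℤ_[2] Γ T} {χ : Γ →* ℤ_[2]ˣ} {A : Type*} [Ring A] [Algebra ℤ_[2] A]
  [Module.Finite ℤ_[2] A] [Module.Free ℤ_[2] A]
  {t : Γ →* A} {B : T →ₗ[ℤ_[2]] T →ₗ[ℤ_[2]] ℤ_[2]}
  (halt : ∀ x, B x x = 0) (hnd : ∀ v, (∀ w, ¬ IsUnit (B v w)) → ∃ u, (2 : ℤ_[2]) • u = v)
  (hB : ∀ s x y, B (ρ s x) (ρ s y) = (χ s : ℤ_[2]) * B x y)

include hB in
/-- the bracket with a logarithm -/
theorem PS_ad {s : Γ} {V : Module.End ℤ_[2] T}
    (hV : ∃ Z, ρ s * ρ s = 1 + (4 : ℤ_[2]) • (V + (2 : ℤ_[2]) • Z))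
    (hχ : ∃ z, (χ s : ℤ_[2]) * (χ s : ℤ_[2]) = 1 + (4 : ℤ_[2]) • z)
    (ht : ∃ M, t s * t s = 1 + (4 : ℤ_[2]) • M)
    {X : Module.End ℤ_[2] T} (hX : X ∈ nn (PS ρ t B)) : V * X - X * V ∈ nn (PS ρ t B) := by
  obtain ⟨Z, hV⟩ := hV
  obtain ⟨z, hz⟩ := hχ
  obtain ⟨M, hM⟩ := ht
  obtain ⟨X, ⟨hX1, c, Y, hY⟩, X', rfl⟩ := hX
  obtain ⟨Y₁, Z₁, hY₁, hL₁⟩ := exists_logr (A := Module.End ℤ_[2] T) 0 (V + (2 : ℤ_[2]) • Z)
  obtain ⟨Y₂, Z₂, hY₂, hL₂⟩ := exists_logr (A := A) 0 M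
  obtain ⟨Y₃, Z₃, hY₃, hL₃⟩ := exists_logr (A := ℤ_[2]) 0 z
  have h1 : TanA (MonoidHom.prod (ρ : Γ →* Module.End ℤ_[2] T) (t.prod (chR χ))) (Y₁, (Y₂, Y₃)) := by
    refine TanA_log (s := s) (X₀ := ((2 : ℤ_[2]) ^ 0 • (V + (2 : ℤ_[2]) • Z),
      ((2 : ℤ_[2]) ^ 0 • M, (2 : ℤ_[2]) ^ 0 • z))) ?_ fun m => ?_
    · refine Prod.ext ?_ (Prod.ext ?_ ?_)
      · change ρ s * ρ s = 1 + (4 : ℤ_[2]) • ((2 : ℤ_[2]) ^ 0 • (V + (2 : ℤ_[2]) • Z))
        rw [hV, pow_zero, one_smul]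
      · change t s * t s = 1 + (4 : ℤ_[2]) • ((2 : ℤ_[2]) ^ 0 • M)
        rw [hM, pow_zero, one_smul]
      · change (χ s : ℤ_[2]) * (χ s : ℤ_[2]) = 1 + (4 : ℤ_[2]) • ((2 : ℤ_[2]) ^ 0 • z)
        rw [hz, pow_zero, one_smul]
    · obtain ⟨V₁, h1⟩ := hL₁ m
      obtain ⟨V₂, h2⟩ := hL₂ m
      obtain ⟨V₃, h3⟩ := hL₃ m
      refine ⟨(V₁, (V₂, V₃)), ?_⟩
      rw [Yr_prod, Yr_prod]
      exact Prod.ext h1 (Prod.ext h2 h3)
  have h2 : Tan ρ t Y₁ Y₂ :=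
    TanA_congr (R' := MonoidHom.prod (ρ : Γ →* Module.End ℤ_[2] T) t)
      ((AlgHom.fst ℤ_[2] (Module.End ℤ_[2] T) (A × ℤ_[2])).prod
        ((AlgHom.fst ℤ_[2] A ℤ_[2]).comp (AlgHom.snd ℤ_[2] (Module.End ℤ_[2] T) (A × ℤ_[2]))))
      (fun _ => rfl) h1
  have h3 : TanA (MonoidHom.prod (ρ : Γ →* Module.End ℤ_[2] T) (chR χ)) (Y₁, Y₃) :=
    TanA_congr (R' := MonoidHom.prod (ρ : Γ →* Module.End ℤ_[2] T) (chR χ))
      ((AlgHom.fst ℤ_[2] (Module.End ℤ_[2] T) (A × ℤ_[2])).prod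
        ((AlgHom.snd ℤ_[2] A ℤ_[2]).comp (AlgHom.snd ℤ_[2] (Module.End ℤ_[2] T) (A × ℤ_[2]))))
      (fun _ => rfl) h1
  have h4 := mult_of_tan hB h3
  have h5 := Tan_bracket h2 hY
  have h6 : Y₁ = V + (2 : ℤ_[2]) • (Z + Z₁) := by
    rw [hY₁, pow_zero, one_smul]
    module
  refine ⟨Y₁ * X - X * Y₁, ⟨⟨fun x y => ?_, fun _ _ => rfl⟩, 0, Y₂ * Y - Y * Y₂, ?_⟩,
    V * X' - X' * V - ((Z + Z₁) * X - X * (Z + Z₁)), ?_⟩
  · have e1 := h4 (X x) y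
    have e2 := h4 x (X y)
    have e3 := hX1.1 (Y₁ x) y
    have e4 := hX1.1 x (Y₁ y)
    have e5 := hX1.1 x y
    simp only [LinearMap.sub_apply, Module.End.mul_apply, map_sub]
    linear_combination e1 + e2 - e3 - e4 + Y₃ * e5
  · have e1 : Y₁ * (X + c • 1) - (X + c • 1) * Y₁ = Y₁ * X - X * Y₁ + (0 : ℤ_[2]) • 1 := by
      simp only [mul_add, add_mul, mul_smul_comm, smul_mul_assoc, mul_one, one_mul]
      module
    have e2 : Y₂ * (2 : ℤ_[2]) • Y - (2 : ℤ_[2]) • Y * Y₂ = (2 : ℤ_[2]) • (Y₂ * Y - Y * Y₂) := by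
      simp only [mul_smul_comm, smul_mul_assoc]
      module
    rw [e1, e2] at h5
    exact h5
  · rw [h6]
    simp only [mul_add, add_mul, mul_smul_comm, smul_mul_assoc]
    module

/-- The elements `U k` generate the symplectic Lie algebra modulo two, together with the derivations given by the
elements `V l`. -/
def GenLink {κ Λ : Type*} (B : T →ₗ[ℤ_[2]] T →ₗ[ℤ_[2]] ℤ_[2]) (U : κ → Module.End ℤ_[2] T)
    (V : Λ → Module.End ℤ_[2] T) : Prop :=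
  ∀ 𝔫 : Submodule ℤ_[2] (Module.End ℤ_[2] T), (∀ X, (2 : ℤ_[2]) • X ∈ 𝔫) →
    (∀ X ∈ 𝔫, ∀ Y ∈ 𝔫, X * Y - Y * X ∈ 𝔫) → (∀ k, U k ∈ 𝔫) →
    (∀ l, ∀ X ∈ 𝔫, V l * X - X * V l ∈ 𝔫) → spQ B (p1 T) ≤ 𝔫

include halt hnd hB in
/-- **One factor, with linking elements.** -/
theorem single_link {κ Λ : Type*} (σ : κ → Γ) (U : κ → Module.End ℤ_[2] T) (σ' : Λ → Γ)
    (V : Λ → Module.End ℤ_[2] T) (hgen : GenLink B U V)
    (hU : ∀ k, ∃ Z, ρ (σ k) * ρ (σ k) = 1 + (4 : ℤ_[2]) • (U k + (2 : ℤ_[2]) • Z))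
    (hχ : ∀ k, ∃ z, (χ (σ k) : ℤ_[2]) = 1 + 8 * z)
    (ht : ∀ k, ∃ M, t (σ k) = 1 + (4 : ℤ_[2]) • M)
    (hV : ∀ l, ∃ Z, ρ (σ' l) * ρ (σ' l) = 1 + (4 : ℤ_[2]) • (V l + (2 : ℤ_[2]) • Z))
    (hχ' : ∀ l, ∃ z, (χ (σ' l) : ℤ_[2]) = 1 + 8 * z)
    (ht' : ∀ l, ∃ M, t (σ' l) * t (σ' l) = 1 + (4 : ℤ_[2]) • M)
    {X : Module.End ℤ_[2] T} (hX : X ∈ spQ B (p1 T)) : Tan ρ t X 0 :=
  Tan_of_PS halt hnd (nakayama_sp B (p1 T) (fun _ h => h.1) (hgen _ nnPS_two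
    (fun _ h _ h' => nnPS_bracket h h') (fun k => PS_of_elem hB (hU k) (hχ k) (ht k))
    fun l X hX => PS_ad hB (hV l) (by
      obtain ⟨z, hz⟩ := hχ' l
      exact ⟨4 * z + 16 * z ^ 2, by rw [hz, smul_eq_mul]; ring⟩) (ht' l) hX)) hX

end link

end

end Pool.Agent.H852.J
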