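import Mathlib
import Pool.Agent.H852.J.B3

/-!
# Generation modulo two with linking elements
-/

set_option linter.unusedSectionVars false
set_option autoImplicit false

namespace Pool.Agent.H852.J

open PadicInt Module Pool.Agent.N171 Pool.Agent.N171.Al Pool.Agent.N171.TG

noncomputable section

variable {T : Type*} [AddCommGroup T] [Module ℤ_[2] T] [Module.Finite ℤ_[2] T]
  [Module.Free ℤ_[2] T] {B : T →ₗ[ℤ_[2]] T →ₗ[ℤ_[2]] ℤ_[2]}
  (halt : ∀ x, B x x = 0) (hnd : ∀ v, (∀ w, ¬ IsUnit (B v w)) → ∃ u, (2 : ℤ_[2]) • u = v)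

/-- the bracket of a map which is skew modulo two -/
theorem bracket_skew {V : Module.End ℤ_[2] T} {D : T →ₗ[ℤ_[2]] T →ₗ[ℤ_[2]] ℤ_[2]}
    (hD : ∀ x y, B (V x) y + B x (V y) = 2 * D x y) (u : T) :
    V * Eo B u u - Eo B u u * V = so B (V u) u - (2 : ℤ_[2]) • (D u).smulRight u := by
  ext y
  have h1 := hD u y
  have h2 : B u (V y) = 2 * D u y - B (V u) y := by rw [← h1]; ring
  simp only [LinearMap.sub_apply, Module.End.mul_apply, Eo_apply, so_apply, LinearMap.smul_apply,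
    LinearMap.smulRight_apply, map_smul]
  rw [h2]
  module

include halt hnd in
/-- **Generation with linking elements.** -/
theorem genLink_of {κ Λ : Type*} (v : κ → T) (V : Λ → Module.End ℤ_[2] T)
    (D : Λ → T →ₗ[ℤ_[2]] T →ₗ[ℤ_[2]] ℤ_[2])
    (hD : ∀ l x y, B (V l x) y + B x (V l y) = 2 * D l x y) (p p' : Λ → κ)
    (hV : ∀ l, ∃ z, V l (v (p l)) = v (p l) + v (p' l) + (2 : ℤ_[2]) • z)
    (hconn : ∀ k l : κ ⊕ Λ, Relation.ReflTransGen
      (Adj B (Sum.elim v fun l => v (p l) + v (p' l)) (fun _ => ())) k l)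
    (hspan : ∀ x, x ∈ Wq v (fun _ => ()) ()) :
    GenLink B (fun k => Eo B (v k) (v k)) V := by
  intro 𝔫 hn2 hbr hU hV'
  have h1 : ∀ l, Eo B (v (p l) + v (p' l)) (v (p l) + v (p' l)) ∈ 𝔫 := by
    intro l
    obtain ⟨z, hz⟩ := hV l
    have h2 := hV' l _ (hU (p l))
    rw [bracket_skew (hD l), hz, so_add_left, so_add_left, so_smul_left, so_self] at h2
    have h3 : so B (v (p' l)) (v (p l)) ∈ 𝔫 := by
      have h4 := Submodule.add_mem _ h2 (Submodule.sub_mem _ (hn2 ((D l (v (p l))).smulRight (v (p l))))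
        (Submodule.add_mem _ (hn2 (Eo B (v (p l)) (v (p l)))) (hn2 (so B z (v (p l))))))
      convert! h4 using 1
      abel
    rw [Eo_add, so_comm]
    exact Submodule.add_mem _ (Submodule.add_mem _ (hU _) (hU _)) h3
  have h2 : ∀ k : κ ⊕ Λ, Eo B (Sum.elim v (fun l => v (p l) + v (p' l)) k)
      (Sum.elim v (fun l => v (p l) + v (p' l)) k) ∈ 𝔫 := by
    rintro (k | l)
    · exact hU k
    · exact h1 l
  have h3 : ∀ x, x ∈ Wq (Sum.elim v fun l => v (p l) + v (p' l)) (fun _ => ()) () := by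
    intro x
    have h4 : Wq v (fun _ => ()) () ≤
        Wq (Sum.elim v fun l => v (p l) + v (p' l)) (fun _ => ()) () := by
      refine Submodule.span_mono ?_
      rintro y (⟨k, hk, rfl⟩ | hy)
      · exact Or.inl ⟨Sum.inl k, rfl, rfl⟩
      · exact Or.inr hy
    exact h4 (hspan x)
  let n := Fintype.card (Module.Free.ChooseBasisIndex ℤ_[2] T)
  let b₀ : Module.Basis (Fin n) ℤ_[2] T :=
    (Module.Free.chooseBasis ℤ_[2] T).reindex (Fintype.equivFin _)
  exact spQ_le _ hnd (p1 _) halt (fun x => by simp)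
    (fun _ _ => rfl) (fun _ _ _ => rfl) b₀ 𝔫
    (fun c u => Eo_mem _ halt _ (fun _ => ()) 𝔫 hn2 hbr h2 (fun k l _ => hconn k l) (h3 u))
    (fun c u w => so_mem _ halt _ (fun _ => ()) 𝔫 hn2 hbr h2 (fun k l _ => hconn k l)
      (h3 u) (h3 w))

/-- the square of an automorphism which is trivial modulo two is skew up to two -/
theorem skew_of {Γ : Type*} [Group Γ] {ρ : Representation ℤ_[2] Γ T} {χ : Γ →* ℤ_[2]ˣ}
    (hB : ∀ s x y, B (ρ s x) (ρ s y) = (χ s : ℤ_[2]) * B x y) {s : Γ} {V : Module.End ℤ_[2] T}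
    (hV : ρ s * ρ s = 1 + (4 : ℤ_[2]) • V) {z : ℤ_[2]} (hz : (χ s : ℤ_[2]) = 1 + 8 * z)
    (x y : T) : B (V x) y + B x (V y) =
      2 * ((2 * z + 8 * z ^ 2) • B - (2 : ℤ_[2]) • B.compl₁₂ V V) x y := by
  have h1 : B ((ρ s * ρ s) x) ((ρ s * ρ s) y) = (χ s : ℤ_[2]) * ((χ s : ℤ_[2]) * B x y) := by
    rw [Module.End.mul_apply, Module.End.mul_apply, hB, hB]
  rw [hV, hz] at h1
  simp only [LinearMap.add_apply, LinearMap.smul_apply, Module.End.one_apply, map_add, map_smul,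
    smul_eq_mul] at h1
  simp only [LinearMap.sub_apply, LinearMap.smul_apply, LinearMap.compl₁₂_apply, smul_eq_mul]
  have h4 : (4 : ℤ_[2]) ≠ 0 := by norm_num
  apply mul_left_cancel₀ h4
  linear_combination h1

end

end Pool.Agent.H852.J
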