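import Mathlib
import Pool.Agent.H852.J.B2
import Pool.Agent.H852.J.B4

/-!
# The new part of a Jacobian in a tower, modulo two
-/

set_option linter.unusedSectionVars false
set_option autoImplicit false

namespace Pool.Agent.H852.J

open Polynomial PadicInt Module Pool.Agent.N171 Pool.Agent.N171.Al Pool.Agent.N171.TG
  Pool.Agent.N171.Pm Pool.Agent.N171.Bg

noncomputable section

section one

variable {F τ : Type*} [Field F] [IsAlgClosed F] [Fintype τ] [DecidableEq τ] {α : τ → F} [Hyp α]
  [IsDomain (RG (fP α))]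

variable (α) in
/-- the Tate module -/
abbrev TM : Type _ := TateMod 2 (ClG (RG (fP α)))

variable (α) in
/-- the form -/
abbrev BM (h2 : (2 : F) ≠ 0) : TM α →ₗ[ℤ_[2]] TM α →ₗ[ℤ_[2]] ℤ_[2] := Bx (isClasses_ThG (α := α)) h2

theorem exists_set (x : TM α) : ∃ S : Finset τ, Even S.card ∧ x.1 1 = DS (ThG α) S := by
  have h1 : (2 : ℕ) • x.1 1 = 0 := by
    have h := tm_tors x 1
    rw [pow_one] at h
    exact h
  obtain ⟨f, hf, hfx⟩ := exists_even (isClasses_ThG (α := α)) h1
  refine ⟨Finset.univ.filter fun i => f i = 1, ?_, ?_⟩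
  · have h2 : ((Finset.univ.filter fun i => f i = 1).card : ZMod 2) = ∑ i, f i := by
      rw [Finset.card_filter, Nat.cast_sum]
      refine Finset.sum_congr rfl fun i _ => ?_
      rcases (by decide : ∀ x : ZMod 2, x = 0 ∨ x = 1) (f i) with h | h <;> rw [h] <;> simp
    rw [hf, ZMod.natCast_eq_zero_iff] at h2
    exact even_iff_two_dvd.2 h2
  · rw [← hfx, ← Phi_ind (isClasses_ThG (α := α))]
    congr 1
    funext i
    unfold ind
    simp only [Finset.mem_filter, Finset.mem_univ, true_and]
    rcases (by decide : ∀ x : ZMod 2, x = 0 ∨ x = 1) (f i) with h | h <;> rw [h] <;> simp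

theorem exists_lift (S : Finset τ) : ∃ x : TM α, x.1 1 = DS (ThG α) S :=
  tm_lift (two_div (isClasses_ThG (α := α))) (two_DS (isClasses_ThG (α := α)) S)

theorem isUnit_BM (h2 : (2 : F) ≠ 0) {x y : TM α} {I S : Finset τ} (hI : Even I.card)
    (hx : x.1 1 = DS (ThG α) I) (hy : y.1 1 = DS (ThG α) S) :
    IsUnit (BM α h2 x y) ↔ Odd (I ∩ S).card := by
  rw [isUnit_iff_toZModPow, Ne, BB_mod, hx, hy]
  have h3 := e2_DS (isClasses_ThG (α := α)) I S hI
  rw [show Pool.Agent.N171.e (crv α) (ThG α) 2 (DS (ThG α) I) (DS (ThG α) S) = _ from h3]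
  rcases Nat.even_or_odd (I ∩ S).card with h | h
  · rw [h.neg_one_pow]
    simp [Nat.not_odd_iff_even.2 h]
  · rw [h.neg_one_pow]
    simp only [h, iff_true]
    exact neg_one_ne h2

theorem card_pair_inter (S : Finset τ) {i j : τ} (hij : i ≠ j) :
    Even (S ∩ {i, j}).card ↔ (i ∈ S ↔ j ∈ S) := by
  have h1 : S ∩ {i, j} = ({i, j} : Finset τ).filter (fun x => x ∈ S) := by
    ext x
    simp only [Finset.mem_inter, Finset.mem_filter]
    tauto
  rw [h1, Finset.filter_insert, Finset.filter_singleton]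
  by_cases hi : i ∈ S <;> by_cases hj : j ∈ S <;> simp [hi, hj, hij]

theorem DS_inj {S : Finset τ} (hS : Even S.card) (h : DS (ThG α) S = 0) : S = ∅ := by
  have h2 : (2 : F) ≠ 0 := Hyp.two (α := α)
  have h1 : ∀ i j : τ, i ≠ j → (i ∈ S ↔ j ∈ S) := by
    intro i j hij
    rw [← card_pair_inter S hij]
    have h3 : Pool.Agent.N171.e (crv α) (ThG α) 2 (DS (ThG α) S) (DS (ThG α) {i, j}) = _ :=
      e2_DS (isClasses_ThG (α := α)) S {i, j} hS
    rw [h, e_zero_left (isCurve_crv α) (isClasses_ThG (α := α)) even_two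
      (two_DS (isClasses_ThG (α := α)) _)] at h3
    by_contra h4
    rw [Nat.not_even_iff_odd] at h4
    rw [h4.neg_one_pow] at h3
    exact neg_one_ne h2 h3.symm
  rw [Finset.eq_empty_iff_forall_notMem]
  intro i hi
  have h3 : S = Finset.univ := by
    ext j
    simp only [Finset.mem_univ, iff_true]
    by_cases hij : i = j
    · exact hij ▸ hi
    · exact (h1 i j hij).1 hi
  rw [h3, Finset.card_univ] at hS
  exact Nat.not_even_iff_odd.2 (Hyp.odd (α := α)) hS

end one

section two

variable {F τ' τ : Type*} [Field F] [IsAlgClosed F] [Fintype τ'] [DecidableEq τ'] [Fintype τ]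
  [DecidableEq τ] {α' : τ' → F} {α : τ → F} [Hyp α'] [Hyp α] [IsDomain (RG (fP α'))]
  [IsDomain (RG (fP α))] {φ : F[X]} (hc : Comp α' α φ) (dn : τ → τ')
  (hdn : ∀ a, φ.eval (α a) = α' (dn a)) (h2 : (2 : F) ≠ 0)

/-- the pull-back of the Tate modules -/
def Pu (hc : Comp α' α φ) : TM α' →ₗ[ℤ_[2]] TM α := tmMap (pull hc)

/-- the preimage of a set of indices -/
def pre (dn : τ → τ') (S : Finset τ') : Finset τ := Finset.univ.filter fun a => dn a ∈ S

omit [Fintype τ'] [DecidableEq τ] in
theorem mem_pre {S : Finset τ'} {a : τ} : a ∈ pre dn S ↔ dn a ∈ S := by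
  simp [pre]

include hdn in
theorem fib_eq (b : τ') : fib α' α φ b = pre dn {b} := by
  ext a
  rw [mem_fib, mem_pre, Finset.mem_singleton, hdn]
  exact ⟨fun h => Hyp.inj (α := α') h, fun h => by rw [h]⟩

include hdn in
theorem card_pre_one (b : τ') (hc : Comp α' α φ) : (pre dn {b}).card = φ.natDegree := by
  rw [← fib_eq dn hdn b]
  have h1 := congrArg natDegree (sub_C_eq hc b)
  rw [natDegree_sub_C, natDegree_prod_of_monic _ _ fun a _ => monic_X_sub_C _] at h1
  simp only [natDegree_X_sub_C] at h1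
  rw [h1]
  simp

omit [Fintype τ'] in
theorem card_pre_inter (S : Finset τ') (W : Finset τ) :
    (pre dn S ∩ W).card = ∑ b ∈ S, (pre dn {b} ∩ W).card := by
  have h1 : pre dn S ∩ W = S.biUnion fun b => pre dn {b} ∩ W := by
    ext a
    simp only [Finset.mem_inter, mem_pre, Finset.mem_biUnion, Finset.mem_singleton]
    constructor
    · rintro ⟨h1, h2⟩
      exact ⟨_, h1, rfl, h2⟩
    · rintro ⟨b, h1, h2, h3⟩
      exact ⟨h2 ▸ h1, h3⟩
  rw [h1, Finset.card_biUnion]
  intro b _ b' _ hbb
  rw [Function.onFun, Finset.disjoint_left]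
  intro a ha ha'
  rw [Finset.mem_inter, mem_pre, Finset.mem_singleton] at ha ha'
  exact hbb (ha.1.symm.trans ha'.1)

include hdn in
theorem card_pre (S : Finset τ') (hc : Comp α' α φ) : (pre dn S).card = S.card * φ.natDegree := by
  have h1 := card_pre_inter dn S Finset.univ
  simp only [Finset.inter_univ] at h1
  rw [h1, Finset.sum_congr rfl fun b _ => card_pre_one dn hdn b hc, Finset.sum_const, smul_eq_mul]

include hdn in
theorem Pu_one {x : TM α'} {S : Finset τ'} (hx : x.1 1 = DS (ThG α') S) :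
    (Pu hc x).1 1 = DS (ThG α) (pre dn S) := by
  change pull hc (x.1 1) = _
  rw [hx]
  have h1 : pull hc (DS (ThG α') S) = ∑ b ∈ S, DS (ThG α) (pre dn {b}) := by
    have h2 : pull hc (DS (ThG α') S) = ∑ b ∈ S, pull hc (ThG α' (Dr α' b)) :=
      map_sum (pull hc) (fun b => ThG α' (Dr α' b)) S
    rw [h2]
    refine Finset.sum_congr rfl fun b _ => ?_
    rw [← fib_eq dn hdn b]
    exact pull_Dr hc b
  refine h1.trans ?_
  have h3 : pre dn S = S.biUnion fun b => pre dn {b} := by
    ext a
    simp only [mem_pre, Finset.mem_biUnion, Finset.mem_singleton, exists_eq_right']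
  rw [h3, DS, Finset.sum_biUnion]
  · rfl
  · intro b _ b' _ hbb
    rw [Function.onFun, Finset.disjoint_left]
    intro a ha ha'
    rw [mem_pre, Finset.mem_singleton] at ha ha'
    exact hbb (ha.symm.trans ha')

variable (hodd : Odd φ.natDegree)

include hdn hodd in
/-- the pulled back form is nondegenerate -/
theorem pb_nd (v : TM α') (hv : ∀ w, ¬ IsUnit (pb (BM α h2) (Pu hc) v w)) :
    ∃ u, (2 : ℤ_[2]) • u = v := by
  obtain ⟨S, hS, hvS⟩ := exists_set v
  have h1 : ∀ i j : τ', i ≠ j → (i ∈ S ↔ j ∈ S) := by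
    intro i j hij
    obtain ⟨w, hw⟩ := exists_lift (α := α') {i, j}
    have h3 := hv w
    rw [pb_apply, isUnit_BM h2 (by
      rw [card_pre dn hdn S hc]
      exact hS.mul_right _) (Pu_one hc dn hdn hvS) (Pu_one hc dn hdn hw), Nat.not_odd_iff_even] at h3
    have h4 : pre dn S ∩ pre dn {i, j} = pre dn (S ∩ {i, j}) := by
      ext a
      simp only [Finset.mem_inter, mem_pre]
    rw [h4, card_pre dn hdn _ hc] at h3
    rw [← card_pair_inter S hij]
    rcases Nat.even_mul.1 h3 with h5 | h5
    · exact h5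
    · exact absurd h5 (Nat.not_even_iff_odd.2 hodd)
  have h2 : S = ∅ := by
    rw [Finset.eq_empty_iff_forall_notMem]
    intro i hi
    have h3 : S = Finset.univ := by
      ext j
      simp only [Finset.mem_univ, iff_true]
      by_cases hij : i = j
      · exact hij ▸ hi
      · exact (h1 i j hij).1 hi
    rw [h3, Finset.card_univ] at hS
    exact Nat.not_even_iff_odd.2 (Hyp.odd (α := α')) hS
  obtain ⟨u, hu⟩ := tm_half (a := v) (by rw [hvS, h2, DS, Finset.sum_empty])
  exact ⟨u, hu.symm⟩

/-- sets which are even on each fibre -/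
def FibEven (dn : τ → τ') (S : Finset τ) : Prop := ∀ b, Even (pre dn {b} ∩ S).card

omit [Fintype τ'] in
theorem FibEven.even [Fintype τ'] {S : Finset τ} (h : FibEven dn S) : Even S.card := by
  have h1 := card_pre_inter dn Finset.univ S
  have h3 : pre dn Finset.univ ∩ S = S := by
    ext a
    simp [mem_pre]
  rw [h3] at h1
  rw [h1]
  exact Finset.even_sum _ fun b _ => h b

include hdn in
/-- the new part modulo two -/
theorem perp_set {x : TM α} (hx : x ∈ perp (BM α h2) (Pu hc)) :
    ∃ S : Finset τ, FibEven dn S ∧ x.1 1 = DS (ThG α) S := by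
  obtain ⟨S, hS, hxS⟩ := exists_set x
  refine ⟨S, ?_, hxS⟩
  have h1 : ∀ i j : τ', i ≠ j → (Even (pre dn {i} ∩ S).card ↔ Even (pre dn {j} ∩ S).card) := by
    intro i j hij
    obtain ⟨w, hw⟩ := exists_lift (α := α') {i, j}
    have h3 : ¬ IsUnit (BM α h2 x (Pu hc w)) := by
      rw [hx w]
      exact not_isUnit_zero
    rw [isUnit_BM h2 hS hxS (Pu_one hc dn hdn hw), Nat.not_odd_iff_even, Finset.inter_comm,
      card_pre_inter, Finset.sum_pair hij, Nat.even_add] at h3
    exact h3
  by_contra hcon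
  unfold FibEven at hcon
  push Not at hcon
  obtain ⟨b, hb⟩ := hcon
  have h3 : ∀ b', Odd (pre dn {b'} ∩ S).card := by
    intro b'
    rw [← Nat.not_even_iff_odd]
    by_cases h : b = b'
    · rwa [← h]
    · rwa [← h1 b b' h]
  have h4 := card_pre_inter dn Finset.univ S
  have h5 : pre dn Finset.univ ∩ S = S := by
    ext a
    simp [mem_pre]
  rw [h5] at h4
  rw [h4, ← Nat.not_odd_iff_even, Finset.odd_sum_iff_odd_card_odd] at hS
  apply hS
  have h6 : (Finset.univ.filter fun b' => Odd (pre dn {b'} ∩ S).card) = Finset.univ := by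
    rw [Finset.filter_eq_self]
    exact fun b' _ => h3 b'
  rw [h6, Finset.card_univ]
  exact Hyp.odd (α := α')

include hdn hodd in
/-- all sets which are even on each fibre occur in the new part -/
theorem exists_perp {S : Finset τ} (hS : FibEven dn S) :
    ∃ x ∈ perp (BM α h2) (Pu hc), x.1 1 = DS (ThG α) S := by
  obtain ⟨v, hv⟩ := exists_lift (α := α) S
  obtain ⟨a, ha⟩ := exists_proj (B := BM α h2) (P := Pu hc) (pb_nd hc dn hdn h2 hodd) v
  obtain ⟨S', hS', hb⟩ := perp_set hc dn hdn h2 ha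
  obtain ⟨U, hU, haU⟩ := exists_set a
  have hPa := Pu_one hc dn hdn haU
  have h1 : v.1 1 - (Pu hc a).1 1 = DS (ThG α) S' := hb
  rw [hv, hPa] at h1
  have h3 : DS (ThG α) (symmDiff (symmDiff S (pre dn U)) S') = 0 := by
    rw [← DS_add (isClasses_ThG (α := α)), ← DS_add (isClasses_ThG (α := α)), ← h1]
    have h4 := two_DS (isClasses_ThG (α := α)) S
    rw [two_smul] at h4
    rw [add_add_sub_cancel, h4]
  have hev : ∀ A B : Finset τ, ∀ b, Even (pre dn {b} ∩ A).card → Even (pre dn {b} ∩ B).card →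
      Even (pre dn {b} ∩ symmDiff A B).card := by
    intro A B b hA hB
    have h4 : pre dn {b} ∩ symmDiff A B = symmDiff (pre dn {b} ∩ A) (pre dn {b} ∩ B) := by
      ext x
      simp only [Finset.mem_inter, Finset.mem_symmDiff]
      tauto
    rw [h4]
    have h5 : ∀ C D : Finset τ, (symmDiff C D).card + 2 * (C ∩ D).card = C.card + D.card := by
      intro C D
      have e1 : symmDiff C D = (C \ D) ∪ (D \ C) := rfl
      rw [e1, Finset.card_union_of_disjoint (by
        rw [Finset.disjoint_left]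
        intro x hx hx'
        rw [Finset.mem_sdiff] at hx hx'
        exact hx.2 hx'.1)]
      have e2 := Finset.card_sdiff_add_card_inter C D
      have e3 := Finset.card_sdiff_add_card_inter D C
      rw [Finset.inter_comm D C] at e3
      omega
    have h6 := h5 (pre dn {b} ∩ A) (pre dn {b} ∩ B)
    obtain ⟨m, hm⟩ := hA
    obtain ⟨n, hn⟩ := hB
    exact ⟨m + n - (pre dn {b} ∩ A ∩ (pre dn {b} ∩ B)).card, by omega⟩
  have hU0 : U = ∅ := by
    have hcard : Even (symmDiff (symmDiff S (pre dn U)) S').card := by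
      have h5 : ∀ C D : Finset τ, Even C.card → Even D.card → Even (symmDiff C D).card := by
        intro C D hC hD
        have e1 : symmDiff C D = (C \ D) ∪ (D \ C) := rfl
        rw [e1, Finset.card_union_of_disjoint (by
          rw [Finset.disjoint_left]
          intro x hx hx'
          rw [Finset.mem_sdiff] at hx hx'
          exact hx.2 hx'.1)]
        have e2 := Finset.card_sdiff_add_card_inter C D
        have e3 := Finset.card_sdiff_add_card_inter D C
        rw [Finset.inter_comm D C] at e3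
        obtain ⟨m, hm⟩ := hC
        obtain ⟨n, hn⟩ := hD
        exact ⟨m + n - (C ∩ D).card, by omega⟩
      refine h5 _ _ (h5 _ _ (hS.even dn) ?_) (hS'.even dn)
      rw [card_pre dn hdn U hc]
      exact hU.mul_right _
    have h4 := DS_inj hcard h3
    have h5 : symmDiff S (pre dn U) = S' := symmDiff_eq_bot.1 h4
    rw [Finset.eq_empty_iff_forall_notMem]
    intro b hbU
    have h6 : symmDiff S S' = pre dn U := by
      rw [← h5, symmDiff_symmDiff_cancel_left]
    have h7 := hev S S' b (hS b) (hS' b)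
    rw [h6] at h7
    have h8 : pre dn {b} ∩ pre dn U = pre dn {b} := by
      ext x
      simp only [Finset.mem_inter, mem_pre, Finset.mem_singleton, and_iff_left_iff_imp]
      intro hx
      rw [hx]
      exact hbU
    rw [h8, card_pre_one dn hdn b hc] at h7
    exact Nat.not_even_iff_odd.2 hodd h7
  refine ⟨_, ha, ?_⟩
  change v.1 1 - (Pu hc a).1 1 = _
  rw [hv, hPa, hU0]
  have h4 : pre dn (∅ : Finset τ') = ∅ := by
    ext x
    simp [mem_pre]
  rw [h4, DS, DS, Finset.sum_empty, sub_zero]

end two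

end

end Pool.Agent.H852.J
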