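import Mathlib
import Pool.Agent.H852.J.B5

/-!
# Graphs on the fibres and links between the fibres
-/

set_option linter.unusedSectionVars false
set_option autoImplicit false

namespace Pool.Agent.H852.J

open Polynomial PadicInt Module Pool.Agent.N171 Pool.Agent.N171.Al Pool.Agent.N171.TG
  Pool.Agent.N171.Pm Pool.Agent.N171.Bg

noncomputable section

theorem rtg_symm {X : Type*} {r : X → X → Prop} (hr : ∀ x y, r x y → r y x) {x y : X}
    (h : Relation.ReflTransGen r x y) : Relation.ReflTransGen r y x := by
  induction h with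
  | refl => exact Relation.ReflTransGen.refl
  | tail _ hbc ih => exact Relation.ReflTransGen.head (hr _ _ hbc) ih

section comb

variable {τ τ' κ Λ : Type*} [Fintype τ] [DecidableEq τ] [Fintype τ'] [DecidableEq τ'] (dn : τ → τ')
  (p q : κ → τ) (hpq : ∀ k, p k ≠ q k) (hfib : ∀ k, dn (p k) = dn (q k))
  (h3 : ∀ b, 2 < (pre dn {b}).card)
  (hc : ∀ x y, dn x = dn y → Relation.ReflTransGen (Edge p q) x y)

/-- the pair of an index -/
def pr (p q : κ → τ) (k : κ) : Finset τ := {p k, q k}

/-- the pairs and the unions of two linked pairs -/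
def sets (p q : κ → τ) (k k' : Λ → κ) : κ ⊕ Λ → Finset τ :=
  Sum.elim (pr p q) fun l => pr p q (k l) ∪ pr p q (k' l)

include hpq in
theorem card_pr (k : κ) : (pr p q k).card = 2 := Finset.card_pair (hpq k)

include hfib in
theorem edge_fib {x y : τ} (h : Edge p q x y) : dn x = dn y := by
  obtain ⟨k, ⟨rfl, rfl⟩ | ⟨rfl, rfl⟩⟩ := h
  · exact hfib k
  · exact (hfib k).symm

include hfib in
theorem pr_fib {k : κ} {x : τ} (hx : x ∈ pr p q k) : dn x = dn (p k) := by
  rw [pr, Finset.mem_insert, Finset.mem_singleton] at hx
  rcases hx with rfl | rfl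
  · rfl
  · exact (hfib k).symm

theorem edge_mem {p q : κ → τ} {x y : τ} (h : Edge p q x y) : ∃ m, pr p q m = {x, y} := by
  obtain ⟨m, ⟨rfl, rfl⟩ | ⟨rfl, rfl⟩⟩ := h
  · exact ⟨m, rfl⟩
  · exact ⟨m, Finset.pair_comm _ _⟩

include hpq hfib h3 hc in
/-- an edge with exactly one vertex in common with a given one -/
theorem exists_edge (k : κ) : ∃ (m : κ) (a b : τ), pr p q m = {a, b} ∧ a ∈ pr p q k ∧ b ∉ pr p q k ∧
    dn b = dn (p k) := by
  obtain ⟨w, hw, hwk⟩ : ∃ w, dn w = dn (p k) ∧ w ∉ pr p q k := by
    by_contra h
    push Not at h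
    have h1 : pre dn {dn (p k)} ⊆ pr p q k := fun w hw => h w (by
      rwa [mem_pre, Finset.mem_singleton] at hw)
    have h2 := Finset.card_le_card h1
    rw [card_pr p q hpq] at h2
    exact absurd (h3 (dn (p k))) (by omega)
  have h1 : ∀ y, Relation.ReflTransGen (Edge p q) (p k) y → y ∉ pr p q k →
      ∃ a b, a ∈ pr p q k ∧ b ∉ pr p q k ∧ Edge p q a b := by
    intro y hy
    induction hy with
    | refl =>
      intro h
      exact absurd (Finset.mem_insert_self _ _) h
    | @tail b c hb hbc ih =>
      intro hc'
      by_cases hb' : b ∈ pr p q k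
      · exact ⟨b, c, hb', hc', hbc⟩
      · exact ih hb'
  obtain ⟨a, b, ha, hb, hab⟩ := h1 w (hc _ _ hw.symm) hwk
  obtain ⟨m, hm⟩ := edge_mem hab
  exact ⟨m, a, b, hm, ha, hb, by rw [← edge_fib dn p q hfib hab, pr_fib dn p q hfib ha]⟩

variable (k k' : Λ → κ)

include hpq hfib h3 hc in
/-- the edges of one fibre are connected -/
theorem conn_same (m m' : κ) (h : dn (p m) = dn (p m')) :
    Relation.ReflTransGen (fun i j => Odd (sets p q k k' i ∩ sets p q k k' j).card)
      (Sum.inl m) (Sum.inl m') := by
  set R : κ → κ → Prop := fun m m' => Relation.ReflTransGen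
    (fun i j => Odd (sets p q k k' i ∩ sets p q k k' j).card) (Sum.inl m) (Sum.inl m') with hR
  have hcard := card_pr p q hpq
  have hsymm : ∀ m m', R m m' → R m' m := by
    intro m m' h
    exact rtg_symm (fun i j hij => by rwa [Finset.inter_comm]) h
  have hone : ∀ (m m' : κ) (x : τ), x ∈ pr p q m → x ∈ pr p q m' → pr p q m ≠ pr p q m' →
      R m m' := by
    intro m m' x hx hx' hne
    refine Relation.ReflTransGen.single ?_
    change Odd (pr p q m ∩ pr p q m').card
    have h1 : (pr p q m ∩ pr p q m').card = 1 := by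
      refine le_antisymm ?_ (Finset.card_pos.2 ⟨x, Finset.mem_inter.2 ⟨hx, hx'⟩⟩)
      by_contra h
      push Not at h
      have h3 : pr p q m ∩ pr p q m' = pr p q m :=
        Finset.eq_of_subset_of_card_le Finset.inter_subset_left (by rw [hcard]; omega)
      have h4 : pr p q m ∩ pr p q m' = pr p q m' :=
        Finset.eq_of_subset_of_card_le Finset.inter_subset_right (by rw [hcard]; omega)
      exact hne (h3.symm.trans h4)
    rw [h1]
    exact odd_one
  have hvert : ∀ (m m' : κ) (x : τ), x ∈ pr p q m → x ∈ pr p q m' → R m m' := by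
    intro m m' x hx hx'
    by_cases he : pr p q m = pr p q m'
    · obtain ⟨n, a, b, hn, ha, hb, -⟩ := exists_edge dn p q hpq hfib h3 hc m
      have ha' : a ∈ pr p q n := by rw [hn]; simp
      have hb' : b ∈ pr p q n := by rw [hn]; simp
      have hne : pr p q m ≠ pr p q n := fun h => hb (by rw [h]; exact hb')
      refine (hone m n a ha ha' hne).trans (hsymm _ _ (hone m' n a ?_ ha' ?_))
      · rwa [← he]
      · rwa [← he]
    · exact hone m m' x hx hx' he
  have h1 : ∀ y, Relation.ReflTransGen (Edge p q) (p m) y → ∀ n : κ, y ∈ pr p q n → R m n := by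
    intro y hy
    induction hy with
    | refl =>
      intro n hn
      exact hvert m n (p m) (Finset.mem_insert_self _ _) hn
    | @tail b c hb hbc ih =>
      intro n hn
      obtain ⟨n', hn'⟩ := edge_mem hbc
      exact (ih n' (by rw [hn']; simp)).trans (hvert n' n c (by rw [hn']; simp) hn)
  exact h1 (p m') (hc _ _ h) m' (Finset.mem_insert_self _ _)

variable (hkk : ∀ l, dn (p (k l)) ≠ dn (p (k' l)))

include hpq hfib h3 hc hkk in
/-- the links are connected with the edges of both fibres -/
theorem conn_link (l : Λ) (m : κ) (h : dn (p m) = dn (p (k l)) ∨ dn (p m) = dn (p (k' l))) :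
    Relation.ReflTransGen (fun i j => Odd (sets p q k k' i ∩ sets p q k k' j).card)
      (Sum.inl m) (Sum.inr l) := by
  have key : ∀ n n' : κ, dn (p n) ≠ dn (p n') → pr p q (k l) ∪ pr p q (k' l) =
      pr p q n ∪ pr p q n' → dn (p m) = dn (p n) →
      Relation.ReflTransGen (fun i j => Odd (sets p q k k' i ∩ sets p q k k' j).card)
        (Sum.inl m) (Sum.inr l) := by
    intro n n' hnn hu hm
    obtain ⟨r, a, b, hr, ha, hb, hbf⟩ := exists_edge dn p q hpq hfib h3 hc n
    have hrf : dn (p r) = dn (p n) := by
      have h1 := pr_fib dn p q hfib (k := r) (x := b) (by rw [hr]; simp)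
      rw [← h1, hbf]
    refine (conn_same dn p q hpq hfib h3 hc k k' m r (hm.trans hrf.symm)).trans
      (Relation.ReflTransGen.single ?_)
    change Odd (pr p q r ∩ (pr p q (k l) ∪ pr p q (k' l))).card
    rw [hu, hr]
    have h1 : ({a, b} : Finset τ) ∩ (pr p q n ∪ pr p q n') = {a} := by
      ext x
      rw [Finset.mem_inter, Finset.mem_insert, Finset.mem_singleton, Finset.mem_union,
        Finset.mem_singleton]
      constructor
      · rintro ⟨rfl | rfl, h2⟩
        · rfl
        · rcases h2 with h2 | h2
          · exact absurd h2 hb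
          · exact absurd (hbf.symm.trans (pr_fib dn p q hfib h2)) hnn
      · rintro rfl
        exact ⟨Or.inl rfl, Or.inl ha⟩
    rw [h1, Finset.card_singleton]
    exact odd_one
  rcases h with h | h
  · exact key _ _ (hkk l) rfl h
  · exact key _ _ (hkk l).symm (Finset.union_comm _ _) h

include hpq hfib h3 hc hkk in
/-- **Connectedness.** -/
theorem conn_all (hL : ∀ b b' : τ', Relation.ReflTransGen (fun b b' => ∃ l,
      (dn (p (k l)) = b ∧ dn (p (k' l)) = b') ∨ (dn (p (k l)) = b' ∧ dn (p (k' l)) = b)) b b')
    (i j : κ ⊕ Λ) :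
    Relation.ReflTransGen (fun i j => Odd (sets p q k k' i ∩ sets p q k k' j).card) i j := by
  have hsymm : ∀ i j, Relation.ReflTransGen
      (fun i j => Odd (sets p q k k' i ∩ sets p q k k' j).card) i j →
      Relation.ReflTransGen (fun i j => Odd (sets p q k k' i ∩ sets p q k k' j).card) j i :=
    fun i j h => rtg_symm (fun i j hij => by rwa [Finset.inter_comm]) h
  have h1 : ∀ m m' : κ, Relation.ReflTransGen
      (fun i j => Odd (sets p q k k' i ∩ sets p q k k' j).card) (Sum.inl m) (Sum.inl m') := by
    intro m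
    have h2 : ∀ b, Relation.ReflTransGen (fun b b' => ∃ l,
        (dn (p (k l)) = b ∧ dn (p (k' l)) = b') ∨ (dn (p (k l)) = b' ∧ dn (p (k' l)) = b))
        (dn (p m)) b → ∀ m', dn (p m') = b → Relation.ReflTransGen
        (fun i j => Odd (sets p q k k' i ∩ sets p q k k' j).card) (Sum.inl m) (Sum.inl m') := by
      intro b hb
      induction hb with
      | refl =>
        intro m' hm'
        exact conn_same dn p q hpq hfib h3 hc k k' m m' hm'.symm
      | @tail b c _ hbc ih =>
        intro m' hm'
        obtain ⟨l, ⟨e1, e2⟩ | ⟨e1, e2⟩⟩ := hbc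
        · exact (ih (k l) e1).trans
            ((conn_link dn p q hpq hfib h3 hc k k' hkk l (k l) (Or.inl rfl)).trans
              (hsymm _ _ (conn_link dn p q hpq hfib h3 hc k k' hkk l m'
                (Or.inr (hm'.trans e2.symm)))))
        · exact (ih (k' l) e2).trans
            ((conn_link dn p q hpq hfib h3 hc k k' hkk l (k' l) (Or.inr rfl)).trans
              (hsymm _ _ (conn_link dn p q hpq hfib h3 hc k k' hkk l m'
                (Or.inl (hm'.trans e1.symm)))))
    exact fun m' => h2 _ (hL _ _) m' rfl
  rcases i with m | l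
  · rcases j with m' | l'
    · exact h1 m m'
    · exact (h1 m (k l')).trans (conn_link dn p q hpq hfib h3 hc k k' hkk l' (k l') (Or.inl rfl))
  · refine (hsymm _ _ (conn_link dn p q hpq hfib h3 hc k k' hkk l (k l) (Or.inl rfl))).trans ?_
    rcases j with m' | l'
    · exact h1 _ m'
    · exact (h1 _ (k l')).trans (conn_link dn p q hpq hfib h3 hc k k' hkk l' (k l') (Or.inl rfl))

/-! ### spanning -/

theorem ind_pair {i j : τ} (hij : i ≠ j) :
    (Pi.single i 1 : τ → ZMod 2) + Pi.single j 1 = ind ({i, j} : Finset τ) := by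
  funext l
  unfold ind
  rw [Pi.add_apply, Pi.single_apply, Pi.single_apply]
  by_cases h3 : l = i
  · subst h3
    simp [hij]
  · simp [h3]

theorem single_two (x : τ) : (Pi.single x 1 : τ → ZMod 2) + Pi.single x 1 = 0 := by
  rw [← Pi.single_add, show (1 : ZMod 2) + 1 = 0 from rfl, Pi.single_zero]

include hpq hc in
theorem span_pair (x y : τ) (hxy : dn x = dn y) :
    (Pi.single x 1 : τ → ZMod 2) + Pi.single y 1 ∈
      AddSubgroup.closure (Set.range fun k => ind (pr p q k)) := by
  have h1 : ∀ x y : τ, Edge p q x y → (Pi.single x 1 : τ → ZMod 2) + Pi.single y 1 ∈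
      AddSubgroup.closure (Set.range fun k => ind (pr p q k)) := by
    intro x y hxy
    obtain ⟨k, ⟨rfl, rfl⟩ | ⟨rfl, rfl⟩⟩ := hxy
    · rw [ind_pair (hpq k)]
      exact AddSubgroup.subset_closure ⟨k, rfl⟩
    · rw [add_comm, ind_pair (hpq k)]
      exact AddSubgroup.subset_closure ⟨k, rfl⟩
  have h2 := hc x y hxy
  clear hxy
  induction h2 with
  | refl =>
    rw [single_two]
    exact AddSubgroup.zero_mem _
  | @tail y z _ hyz ih =>
    have h3 := AddSubgroup.add_mem _ ih (h1 y z hyz)
    have h4 : (Pi.single x 1 : τ → ZMod 2) + Pi.single y 1 + (Pi.single y 1 + Pi.single z 1) =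
        Pi.single x 1 + Pi.single z 1 := by
      calc _ = (Pi.single x 1 : τ → ZMod 2) + (Pi.single y 1 + Pi.single y 1) +
          Pi.single z 1 := by abel
        _ = _ := by rw [single_two, add_zero]
    rwa [h4] at h3

include hpq hc in
/-- the sets which are even on each fibre are spanned by the pairs -/
theorem span_fibEven {S : Finset τ} (hS : FibEven dn S) :
    ind S ∈ AddSubgroup.closure (Set.range fun k => ind (pr p q k)) := by
  induction hn : S.card using Nat.strong_induction_on generalizing S with
  | _ n ih =>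
    rcases S.eq_empty_or_nonempty with rfl | ⟨x, hx⟩
    · have h1 : ind (∅ : Finset τ) = 0 := by
        funext i
        simp [ind]
      rw [h1]
      exact AddSubgroup.zero_mem _
    · obtain ⟨y, hy, hyx, hxy⟩ : ∃ y ∈ S, dn y = dn x ∧ x ≠ y := by
        by_contra hcon
        push Not at hcon
        have h1 : pre dn {dn x} ∩ S = {x} := by
          ext y
          rw [Finset.mem_inter, mem_pre, Finset.mem_singleton, Finset.mem_singleton]
          constructor
          · rintro ⟨h1, h2⟩
            exact (hcon y h2 h1).symm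
          · rintro rfl
            exact ⟨rfl, hx⟩
        have h2 := hS (dn x)
        rw [h1, Finset.card_singleton] at h2
        exact absurd h2 (by decide)
      have hy' : y ∈ S.erase x := Finset.mem_erase.2 ⟨hxy.symm, hy⟩
      have e1 : ind S = ind ((S.erase x).erase y) + ((Pi.single x 1 : τ → ZMod 2) + Pi.single y 1) := by
        funext i
        unfold ind
        rw [Pi.add_apply, Pi.add_apply, Pi.single_apply, Pi.single_apply]
        by_cases hix : i = x
        · subst hix
          simp [hx, hxy]
        · by_cases hiy : i = y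
          · subst hiy
            simp [hy, hix]
          · simp [hix, hiy]
      rw [e1]
      have hcard : ((S.erase x).erase y).card + 2 = S.card := by
        rw [Finset.card_erase_of_mem hy', Finset.card_erase_of_mem hx]
        have h1 := Finset.card_pos.2 ⟨y, hy'⟩
        rw [Finset.card_erase_of_mem hx] at h1
        omega
      refine AddSubgroup.add_mem _ (ih _ (by omega) (fun b => ?_) rfl)
        (span_pair dn p q hpq hc x y hyx.symm)
      by_cases hb : b = dn x
      · subst hb
        have h1 : pre dn {dn x} ∩ ((S.erase x).erase y) = ((pre dn {dn x} ∩ S).erase x).erase y := by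
          ext z
          simp only [Finset.mem_inter, Finset.mem_erase]
          tauto
        have hx1 : x ∈ pre dn {dn x} ∩ S :=
          Finset.mem_inter.2 ⟨by rw [mem_pre]; exact Finset.mem_singleton_self _, hx⟩
        have hy1 : y ∈ (pre dn {dn x} ∩ S).erase x :=
          Finset.mem_erase.2 ⟨hxy.symm, Finset.mem_inter.2
            ⟨by rw [mem_pre, hyx]; exact Finset.mem_singleton_self _, hy⟩⟩
        have h2 := Finset.card_pos.2 ⟨y, hy1⟩
        rw [h1, Finset.card_erase_of_mem hy1]
        rw [Finset.card_erase_of_mem hx1] at h2 ⊢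
        obtain ⟨c, hc⟩ := hS (dn x)
        exact ⟨c - 1, by omega⟩
      · have h1 : pre dn {b} ∩ ((S.erase x).erase y) = pre dn {b} ∩ S := by
          ext z
          simp only [Finset.mem_inter, Finset.mem_erase, mem_pre, Finset.mem_singleton]
          constructor
          · tauto
          · rintro ⟨h1, h2⟩
            refine ⟨h1, ?_, ?_, h2⟩
            · rintro rfl
              exact hb (h1.symm.trans hyx)
            · rintro rfl
              exact hb h1.symm
        rw [h1]
        exact hS b

end comb

end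

end Pool.Agent.H852.J
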