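import Mathlib
import Pool.Agent.H852.J.B6

/-!
# Tangent vectors of the new part of a Jacobian in a tower
-/

set_option linter.unusedSectionVars false
set_option autoImplicit false

namespace Pool.Agent.H852.J

open Polynomial PadicInt Module Pool.Agent.N171 Pool.Agent.N171.Al Pool.Agent.N171.TG
  Pool.Agent.N171.Pm Pool.Agent.N171.Bg

noncomputable section

section res

variable {T : Type*} [AddCommGroup T] [Module ℤ_[2] T] [Module.IsTorsionFree ℤ_[2] T]
  {Γ : Type*} [Group Γ] {ρ : Representation ℤ_[2] Γ T} {S : Submodule ℤ_[2] T}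
  (hst : ∀ s, ∀ x ∈ S, ρ s x ∈ S) (hsat : ∀ (c : ℤ_[2]) (x : T), c ≠ 0 → c • x ∈ S → x ∈ S)

include hsat in
theorem sq_res {s : Γ} {V : Module.End ℤ_[2] T} (hV : ρ s * ρ s = 1 + (4 : ℤ_[2]) • V) :
    ∃ V' : Module.End ℤ_[2] S, resRep ρ S hst s * resRep ρ S hst s = 1 + (4 : ℤ_[2]) • V' ∧
      ∀ x : S, (V' x : T) = V x := by
  have h1 : ∀ x ∈ S, V x ∈ S := by
    intro x hx
    refine hsat 4 _ (by norm_num) ?_
    have h2 := congrArg (fun f : Module.End ℤ_[2] T => f x) hV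
    have h3 : (4 : ℤ_[2]) • V x = ρ s (ρ s x) - x := by
      have h4 : ρ s (ρ s x) = x + (4 : ℤ_[2]) • V x := h2
      rw [h4]
      abel
    rw [h3]
    exact S.sub_mem (hst s _ (hst s _ hx)) hx
  refine ⟨V.restrict h1, ?_, fun x => rfl⟩
  ext x
  exact congrArg (fun f : Module.End ℤ_[2] T => f x) hV

theorem two_cancel {a b : T} (h : (2 : ℤ_[2]) • a = (2 : ℤ_[2]) • b) : a = b := by
  have h1 : (2 : ℤ_[2]) • (a - b) = 0 := by rw [smul_sub, h, sub_self]
  exact sub_eq_zero.1 ((smul_eq_zero.1 h1).resolve_left (by norm_num))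

end res

section curve

variable {K F τ : Type*} [Field K] [Field F] [Algebra K F] [IsAlgClosed F] [Fintype τ]
  [DecidableEq τ] {α : τ → F} [Hyp α] [IsDomain (RG (fP α))]
  (hg : ∀ s : F ≃ₐ[K] F, (fP α).map ((s : F ≃+* F) : F →+* F) = fP α)

/-- the part of order two of a link -/
theorem link_end {s : F ≃ₐ[K] F} {μ : τ → τ} (hs : SignsAt α s μ) :
    ∃ X : Module.End ℤ_[2] (TM α), rhoG hg s = 1 + (2 : ℤ_[2]) • X ∧
      ∀ (x : TM α) (S : Finset τ), x.1 1 = DS (ThG α) S →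
        (X x).1 1 = DS (ThG α) S + ∑ i ∈ S, ThG α (Dr α (μ i)) := by
  have h1 : ∀ x : TM α, ∃ y, rhoG hg s x = x + (2 : ℤ_[2]) • y := by
    intro x
    obtain ⟨S, -, hS⟩ := exists_set x
    obtain ⟨y, hy, -⟩ := rho_four_inv hg hs hS
    exact ⟨y, hy⟩
  let b := Module.Free.chooseBasis ℤ_[2] (TM α)
  choose w hw using fun i => h1 (b i)
  have h2 : rhoG hg s = 1 + (2 : ℤ_[2]) • b.constr ℤ_[2] w := by
    refine b.ext fun i => ?_
    rw [hw]
    simp only [LinearMap.add_apply, LinearMap.smul_apply, Module.Basis.constr_basis]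
    rfl
  refine ⟨b.constr ℤ_[2] w, h2, fun x S hx => ?_⟩
  obtain ⟨y, hy, hy1⟩ := rho_four_inv hg hs hx
  have h3 : (2 : ℤ_[2]) • b.constr ℤ_[2] w x = (2 : ℤ_[2]) • y := by
    have h4 := congrArg (fun f : Module.End ℤ_[2] (TM α) => f x) h2
    have h5 : rhoG hg s x = x + (2 : ℤ_[2]) • b.constr ℤ_[2] w x := h4
    rw [hy] at h5
    exact (add_left_cancel h5).symm
  rw [two_cancel h3]
  exact hy1

end curve

section step

variable {K F τ' τ : Type*} [Field K] [Field F] [Algebra K F] [IsAlgClosed F] [Fintype τ']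
  [DecidableEq τ'] [Fintype τ] [DecidableEq τ] {α' : τ' → F} {α : τ → F} [Hyp α'] [Hyp α]
  [IsDomain (RG (fP α'))] [IsDomain (RG (fP α))] {φ : F[X]} (hc : Comp α' α φ) (dn : τ → τ')
  (hdn : ∀ a, φ.eval (α a) = α' (dn a)) (h2 : (2 : F) ≠ 0) (hodd : Odd φ.natDegree)
  (hg' : ∀ s : F ≃ₐ[K] F, (fP α').map ((s : F ≃+* F) : F →+* F) = fP α')
  (hg : ∀ s : F ≃ₐ[K] F, (fP α).map ((s : F ≃+* F) : F →+* F) = fP α)
  (hφ : ∀ s : F ≃ₐ[K] F, φ.map ((s : F ≃+* F) : F →+* F) = φ)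

/-- the new part of the Tate module -/
abbrev New (hc : Comp α' α φ) (h2 : (2 : F) ≠ 0) : Submodule ℤ_[2] (TM α) :=
  perp (BM α h2) (Pu hc)

theorem BM_act (s : F ≃ₐ[K] F) (x y : TM α) : BM α h2 (rhoG hg s x) (rhoG hg s y) =
    (cyc K F s : ℤ_[2]) * BM α h2 x y :=
  BB_act (isCurve_crv α) isClasses_ThG h2 (isAct_G hg (fun k => prm_spec α hg s k)) x y

include hφ in
theorem Pu_act (s : F ≃ₐ[K] F) (x : TM α') : Pu hc (rhoG hg' s x) = rhoG hg s (Pu hc x) := by
  apply tm_ext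
  intro n
  exact pull_act hc hg' hg hφ s (x.1 n)

include hφ hg' in
theorem new_stable (s : F ≃ₐ[K] F) (x : TM α) (hx : x ∈ New hc h2) : rhoG hg s x ∈ New hc h2 :=
  perp_stable (Pu_act hc hg' hg hφ) (BM_act h2 hg) s x hx

theorem new_sat (c : ℤ_[2]) (x : TM α) (hcc : c ≠ 0) (h : c • x ∈ New hc h2) : x ∈ New hc h2 :=
  perp_sat hcc h

/-- the representation on the new part -/
def newRep : Representation ℤ_[2] (F ≃ₐ[K] F) (New hc h2) :=
  resRep (rhoG hg) (New hc h2) (new_stable hc h2 hg' hg hφ)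

/-- the form on the new part -/
abbrev newB : New hc h2 →ₗ[ℤ_[2]] New hc h2 →ₗ[ℤ_[2]] ℤ_[2] := resB (BM α h2) (New hc h2)

include hdn hodd in
theorem newB_nd (v : New hc h2) (hv : ∀ w, ¬ IsUnit (newB hc h2 v w)) :
    ∃ u, (2 : ℤ_[2]) • u = v :=
  perp_nd (pb_nd hc dn hdn h2 hodd) (fun x => BB_self _ _ _ x) (fun v hv => nd_of h2 v hv) v hv

theorem newB_alt (x : New hc h2) : newB hc h2 x x = 0 :=
  BB_self (isCurve_crv α) (isClasses_ThG (α := α)) h2 (x : TM α)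

theorem newB_act (s : F ≃ₐ[K] F) (x y : New hc h2) :
    newB hc h2 (newRep hc h2 hg' hg hφ s x) (newRep hc h2 hg' hg hφ s y) =
      (cyc K F s : ℤ_[2]) * newB hc h2 x y := BM_act h2 hg s x y

/-- elements which are trivial modulo two have squares which are trivial modulo four -/
theorem sq_four {A : Type*} [Ring A] [Algebra ℤ_[2] A] {a : A} (h : ∃ X, a = 1 + (2 : ℤ_[2]) • X) :
    ∃ M, a * a = 1 + (4 : ℤ_[2]) • M := by
  obtain ⟨X, rfl⟩ := h
  refine ⟨X + X * X, ?_⟩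
  simp only [mul_add, add_mul, one_mul, mul_one, smul_add, mul_smul_comm, smul_mul_assoc,
    smul_smul]
  module

theorem new_trivial {s : F ≃ₐ[K] F} (hs : SignsOn α s (∅ : Finset τ)) :
    ∃ M, newRep hc h2 hg' hg hφ s = 1 + (4 : ℤ_[2]) • M := by
  obtain ⟨W, hW⟩ := rho_trivial hg hs h2
  have h1 : ∀ x ∈ New hc h2, W x ∈ New hc h2 := by
    intro x hx
    refine new_sat hc h2 4 _ (by norm_num) ?_
    have h3 : rhoG hg s x = x + (4 : ℤ_[2]) • W x :=
      congrArg (fun f : Module.End ℤ_[2] (TM α) => f x) hW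
    have h4 : (4 : ℤ_[2]) • W x = rhoG hg s x - x := by rw [h3]; abel
    rw [h4]
    exact (New hc h2).sub_mem (new_stable hc h2 hg' hg hφ s x hx) hx
  refine ⟨W.restrict h1, LinearMap.ext fun x => Subtype.ext ?_⟩
  exact congrArg (fun f : Module.End ℤ_[2] (TM α) => f x) hW

theorem new_link_two {s : F ≃ₐ[K] F} {μ : τ → τ} (hs : SignsAt α s μ) :
    ∃ M, newRep hc h2 hg' hg hφ s = 1 + (2 : ℤ_[2]) • M := by
  obtain ⟨W, hW, -⟩ := link_end hg hs
  have h1 : ∀ x ∈ New hc h2, W x ∈ New hc h2 := by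
    intro x hx
    refine new_sat hc h2 2 _ (by norm_num) ?_
    have h3 : rhoG hg s x = x + (2 : ℤ_[2]) • W x :=
      congrArg (fun f : Module.End ℤ_[2] (TM α) => f x) hW
    have h4 : (2 : ℤ_[2]) • W x = rhoG hg s x - x := by rw [h3]; abel
    rw [h4]
    exact (New hc h2).sub_mem (new_stable hc h2 hg' hg hφ s x hx) hx
  refine ⟨W.restrict h1, LinearMap.ext fun x => Subtype.ext ?_⟩
  exact congrArg (fun f : Module.End ℤ_[2] (TM α) => f x) hW

variable {κ Λ : Type*} (p q : κ → τ) (hpq : ∀ k, p k ≠ q k) (hfib : ∀ k, dn (p k) = dn (q k))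
  (h3 : ∀ b, 2 < (pre dn {b}).card)
  (hcon : ∀ x y, dn x = dn y → Relation.ReflTransGen (Edge p q) x y)
  (k k' : Λ → κ) (hkk : ∀ l, dn (p (k l)) ≠ dn (p (k' l)))
  (hL : ∀ b b' : τ', Relation.ReflTransGen (fun b b' => ∃ l,
      (dn (p (k l)) = b ∧ dn (p (k' l)) = b') ∨ (dn (p (k l)) = b' ∧ dn (p (k' l)) = b)) b b')

include hpq hfib in
theorem fibEven_pr (m : κ) : FibEven dn (pr p q m) := by
  intro b
  by_cases hb : dn (p m) = b
  · have h1 : pre dn {b} ∩ pr p q m = pr p q m := by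
      ext x
      rw [Finset.mem_inter, mem_pre, Finset.mem_singleton, and_iff_right_iff_imp]
      intro hx
      rw [pr_fib dn p q hfib hx, hb]
    rw [h1, card_pr p q hpq]
    exact even_two
  · have h1 : pre dn {b} ∩ pr p q m = ∅ := by
      rw [Finset.eq_empty_iff_forall_notMem]
      intro x hx
      rw [Finset.mem_inter, mem_pre, Finset.mem_singleton] at hx
      exact hb ((pr_fib dn p q hfib hx.2).symm.trans hx.1)
    rw [h1]
    simp

include hdn hodd hpq hcon in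
theorem new_span (v : κ → New hc h2) (hv : ∀ m, (v m : TM α).1 1 = DS (ThG α) (pr p q m))
    (x : New hc h2) : x ∈ Wq v (fun _ => ()) () := by
  obtain ⟨S, hS, hxS⟩ := perp_set hc dn hdn h2 x.2
  have h1 := span_fibEven dn p q hpq hcon hS
  have h5 : ∀ f ∈ AddSubgroup.closure (Set.range fun k => ind (pr p q k)),
      ∃ w ∈ Wq v (fun _ => ()) (), (w : TM α).1 1 = Phi (isClasses_ThG (α := α)) f := by
    intro f hf
    induction hf using AddSubgroup.closure_induction with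
    | mem f hf =>
      obtain ⟨m, rfl⟩ := hf
      exact ⟨v m, Submodule.subset_span (Or.inl ⟨m, rfl, rfl⟩), by rw [hv, Phi_ind]⟩
    | zero =>
      refine ⟨0, Submodule.zero_mem _, ?_⟩
      rw [map_zero]
      rfl
    | add f g _ _ hf hg =>
      obtain ⟨w, hw, h⟩ := hf
      obtain ⟨w', hw', h'⟩ := hg
      refine ⟨w + w', Submodule.add_mem _ hw hw', ?_⟩
      rw [map_add, ← h, ← h']
      rfl
    | neg f _ hf =>
      obtain ⟨w, hw, h⟩ := hf
      refine ⟨-w, Submodule.neg_mem _ hw, ?_⟩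
      rw [map_neg, ← h]
      rfl
  obtain ⟨w, hw, hw1⟩ := h5 _ h1
  rw [Phi_ind] at hw1
  obtain ⟨y, hy⟩ := tm_half (a := (x : TM α) - (w : TM α)) (by
    change (x : TM α).1 1 - (w : TM α).1 1 = 0
    rw [hw1, hxS, sub_self])
  have hyS : y ∈ New hc h2 := new_sat hc h2 2 y (by norm_num) (by
    rw [← hy]
    exact (New hc h2).sub_mem x.2 w.2)
  have h6 : x = w + (2 : ℤ_[2]) • (⟨y, hyS⟩ : New hc h2) := by
    apply Subtype.ext
    change (x : TM α) = (w : TM α) + (2 : ℤ_[2]) • y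
    rw [← hy]
    abel
  rw [h6]
  exact Submodule.add_mem _ hw (Submodule.subset_span (Or.inr ⟨_, rfl⟩))

variable {A : Type*} [Ring A] [Algebra ℤ_[2] A] [Module.Finite ℤ_[2] A] [Module.Free ℤ_[2] A]
  (t : (F ≃ₐ[K] F) →* A)

include hdn hodd hpq hfib h3 hcon hkk hL in
/-- **The new part.** -/
theorem tan_new (σ : κ → (F ≃ₐ[K] F)) (hσ : ∀ m, SignsOn α (σ m) (pr p q m))
    (hχ : ∀ m, ∃ z, ((cyc K F (σ m) : ℤ_[2]ˣ) : ℤ_[2]) = 1 + 8 * z)
    (ht : ∀ m, ∃ M, t (σ m) = 1 + (4 : ℤ_[2]) • M)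
    (σ' : Λ → (F ≃ₐ[K] F)) (μ : Λ → τ → τ) (hσ' : ∀ l, SignsAt α (σ' l) (μ l))
    (hμ : ∀ l, μ l (p (k l)) = p (k' l) ∧ μ l (q (k l)) = q (k' l) ∧ μ l (p (k' l)) = p (k l) ∧
      μ l (q (k' l)) = q (k l))
    (hχ' : ∀ l, ∃ z, ((cyc K F (σ' l) : ℤ_[2]ˣ) : ℤ_[2]) = 1 + 8 * z)
    (ht' : ∀ l, ∃ M, t (σ' l) * t (σ' l) = 1 + (4 : ℤ_[2]) • M)
    (X : Module.End ℤ_[2] (New hc h2)) (hX : X ∈ spQ (newB hc h2) (p1 _)) :
    Tan (newRep hc h2 hg' hg hφ) t X 0 := by
  have hl : ∀ m : κ, ∃ v : New hc h2, (v : TM α).1 1 = DS (ThG α) (pr p q m) := by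
    intro m
    obtain ⟨x, hx, hx1⟩ := exists_perp hc dn hdn h2 hodd (fibEven_pr dn p q hpq hfib m)
    exact ⟨⟨x, hx⟩, hx1⟩
  choose v hv using hl
  have hst := new_stable hc h2 hg' hg hφ
  have hsat := new_sat hc h2
  have hlink : ∀ l : Λ, ∃ V : Module.End ℤ_[2] (New hc h2),
      newRep hc h2 hg' hg hφ (σ' l) * newRep hc h2 hg' hg hφ (σ' l) = 1 + (4 : ℤ_[2]) • V ∧
      ∃ z, V (v (k l)) = v (k l) + v (k' l) + (2 : ℤ_[2]) • z := by
    intro l
    obtain ⟨Y, hY, hY1⟩ := link_end hg (hσ' l)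
    have h4 : rhoG hg (σ' l) * rhoG hg (σ' l) = 1 + (4 : ℤ_[2]) • (Y + Y * Y) := by
      rw [hY]
      simp only [mul_add, add_mul, one_mul, mul_one, smul_add, mul_smul_comm, smul_mul_assoc,
        smul_smul]
      module
    obtain ⟨V, hV, hV1⟩ := sq_res hst hsat h4
    refine ⟨V, hV, ?_⟩
    obtain ⟨m1, m2, m3, m4⟩ := hμ l
    have hDS2 : ∀ m : κ, DS (ThG α) (pr p q m) = ThG α (Dr α (p m)) + ThG α (Dr α (q m)) := by
      intro m
      rw [DS, pr, Finset.sum_pair (hpq m)]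
    have hdisj : Disjoint (pr p q (k l)) (pr p q (k' l)) := by
      rw [Finset.disjoint_left]
      intro x hx hx'
      exact hkk l ((pr_fib dn p q hfib hx).symm.trans (pr_fib dn p q hfib hx'))
    have hU : DS (ThG α) (pr p q (k l) ∪ pr p q (k' l)) =
        DS (ThG α) (pr p q (k l)) + DS (ThG α) (pr p q (k' l)) := by
      rw [DS, Finset.sum_union hdisj]
      rfl
    have e1 : (Y (v (k l))).1 1 = DS (ThG α) (pr p q (k l) ∪ pr p q (k' l)) := by
      rw [hY1 _ _ (hv (k l)), hU, hDS2 (k' l)]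
      congr 1
      rw [pr, Finset.sum_pair (hpq _), m1, m2]
    have e2 : (Y (Y (v (k l)))).1 1 = 0 := by
      have hs : ∑ i ∈ pr p q (k l) ∪ pr p q (k' l), ThG α (Dr α (μ l i)) =
          DS (ThG α) (pr p q (k l) ∪ pr p q (k' l)) := by
        rw [Finset.sum_union hdisj, hU, hDS2 (k l), hDS2 (k' l), pr, pr,
          Finset.sum_pair (hpq _), Finset.sum_pair (hpq _), m1, m2, m3, m4, add_comm]
      rw [hY1 _ _ e1, hs, ← two_smul ℕ, two_DS (isClasses_ThG (α := α))]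
    obtain ⟨z, hz⟩ := tm_half (a := (V (v (k l)) : TM α) -
        ((v (k l) : TM α) + (v (k' l) : TM α))) (by
      rw [hV1]
      change ((Y (v (k l))).1 1 + (Y (Y (v (k l)))).1 1) - ((v (k l) : TM α).1 1 +
        (v (k' l) : TM α).1 1) = 0
      rw [e1, e2, hU, hv, hv, add_zero, sub_self])
    have hzS : z ∈ New hc h2 := hsat 2 z (by norm_num) (by
      rw [← hz]
      exact (New hc h2).sub_mem (V (v (k l))).2 ((New hc h2).add_mem (v (k l)).2 (v (k' l)).2))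
    refine ⟨⟨z, hzS⟩, Subtype.ext ?_⟩
    change (V (v (k l)) : TM α) = (v (k l) : TM α) + (v (k' l) : TM α) + (2 : ℤ_[2]) • z
    rw [← hz]
    abel
  choose V hV hV1 using hlink
  have hB := newB_act hc h2 hg' hg hφ
  choose z hz using hχ'
  have hw : ∀ i : κ ⊕ Λ, ((Sum.elim v (fun l => v (k l) + v (k' l)) i : New hc h2) : TM α).1 1 =
      DS (ThG α) (sets p q k k' i) := by
    rintro (m | l)
    · exact hv m
    · have hdisj : Disjoint (pr p q (k l)) (pr p q (k' l)) := by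
        rw [Finset.disjoint_left]
        intro x hx hx'
        exact hkk l ((pr_fib dn p q hfib hx).symm.trans (pr_fib dn p q hfib hx'))
      change (v (k l) : TM α).1 1 + (v (k' l) : TM α).1 1 =
        DS (ThG α) (pr p q (k l) ∪ pr p q (k' l))
      rw [hv, hv, DS, DS, DS, Finset.sum_union hdisj]
  have hev : ∀ i : κ ⊕ Λ, Even (sets p q k k' i).card := by
    rintro (m | l)
    · exact (fibEven_pr dn p q hpq hfib m).even dn
    · have hdisj : Disjoint (pr p q (k l)) (pr p q (k' l)) := by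
        rw [Finset.disjoint_left]
        intro x hx hx'
        exact hkk l ((pr_fib dn p q hfib hx).symm.trans (pr_fib dn p q hfib hx'))
      change Even (pr p q (k l) ∪ pr p q (k' l)).card
      rw [Finset.card_union_of_disjoint hdisj, card_pr p q hpq, card_pr p q hpq]
      decide
  refine single_link (newB_alt hc h2) (newB_nd hc dn hdn h2 hodd) hB σ
    (fun m => Eo (newB hc h2) (v m) (v m)) σ' V ?_ (fun m => ?_) hχ ht
    (fun l => ⟨0, by rw [hV, smul_zero, add_zero]⟩) (fun l => ⟨z l, hz l⟩) ht' hX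
  · refine genLink_of (newB_alt hc h2) (newB_nd hc dn hdn h2 hodd) v V
      (fun l => (2 * z l + 8 * z l ^ 2) • newB hc h2 - (2 : ℤ_[2]) • (newB hc h2).compl₁₂ (V l) (V l))
      (fun l x y => skew_of hB (hV l) (hz l) x y) k k' hV1 (fun i j => ?_)
      (new_span hc dn hdn h2 hodd p q hpq hcon v hv)
    refine Relation.ReflTransGen.lift (fun i => i) (fun a b hab => ?_) _ _
      (conn_all dn p q hpq hfib h3 hcon k k' hkk hL i j)
    exact ⟨rfl, (isUnit_BM h2 (hev a) (hw a) (hw b)).2 hab⟩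
  · have hcard : Even (pr p q m).card := (fibEven_pr dn p q hpq hfib m).even dn
    obtain ⟨Z, hZ⟩ := rho_sq hg hcard (hσ m) h2 (hv m)
    obtain ⟨V', hV', hV1'⟩ := sq_res hst hsat hZ
    have hZS : ∀ x ∈ New hc h2, Z x ∈ New hc h2 := by
      intro x hx
      refine hsat 2 _ (by norm_num) ?_
      have e1 : (V' ⟨x, hx⟩ : TM α) = BM α h2 (v m) x • (v m : TM α) + (2 : ℤ_[2]) • Z x :=
        hV1' ⟨x, hx⟩
      have e2 : (2 : ℤ_[2]) • Z x = (V' ⟨x, hx⟩ : TM α) - BM α h2 (v m) x • (v m : TM α) := by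
        rw [e1]
        abel
      rw [e2]
      exact (New hc h2).sub_mem (V' ⟨x, hx⟩).2 ((New hc h2).smul_mem _ (v m).2)
    refine ⟨Z.restrict hZS, ?_⟩
    change resRep (rhoG hg) (New hc h2) hst (σ m) * resRep (rhoG hg) (New hc h2) hst (σ m) = _
    rw [hV']
    congr 2
    exact LinearMap.ext fun x => Subtype.ext (hV1' x)

end step

end

end Pool.Agent.H852.J
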