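import Mathlib
import Pool.Agent.H852.J.B7

/-!
# Towers: connectedness
-/

set_option linter.unusedSectionVars false
set_option autoImplicit false

namespace Pool.Agent.H852.J

open Polynomial PadicInt Module Pool.Agent.N171 Pool.Agent.N171.Al Pool.Agent.N171.TG
  Pool.Agent.N171.Pm Pool.Agent.N171.Bg

noncomputable section

/-- the group acts on the fibres in a primitive way: an invariant equivalence relation inside of the fibres is
trivial or everything -/
def PrimFib {G X Y : Type*} [Group G] (π : G →* Equiv.Perm X) (dn : X → Y) : Prop :=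
  ∀ R : X → X → Prop, (∀ x, R x x) → (∀ x y, R x y → R y x) →
    (∀ x y z, R x y → R y z → R x z) → (∀ g x y, R x y → R (π g x) (π g y)) →
    (∀ x y, R x y → dn x = dn y) → (∃ a b, a ≠ b ∧ R a b) → ∀ x y, dn x = dn y → R x y

/-- double transitivity on the fibres -/
theorem primFib_of_two {G X Y : Type*} [Group G] (π : G →* Equiv.Perm X) (dn : X → Y)
    (htr : ∀ x y, ∃ g, π g x = y) (heq : ∀ g x y, dn x = dn y → dn (π g x) = dn (π g y))
    (h2 : ∀ x y z, dn y = dn x → dn z = dn x → y ≠ x → z ≠ x → ∃ g, π g x = x ∧ π g y = z) :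
    PrimFib π dn := by
  intro R hR1 _ _ hRg hRd hne x y hxy
  obtain ⟨a, b, hab, hR⟩ := hne
  by_cases h : y = x
  · rw [h]
    exact hR1 x
  · obtain ⟨g, rfl⟩ := htr a x
    obtain ⟨k, hk1, hk2⟩ := h2 (π g a) (π g b) y (heq g _ _ (hRd _ _ hR).symm) hxy.symm
      (fun h3 => hab ((π g).injective h3).symm) h
    have h3 := hRg k _ _ (hRg g _ _ hR)
    rwa [hk1, hk2] at h3

/-- an invariant equivalence relation inside of blocks of prime order -/
theorem fibre_of_prime {G X Y : Type*} [Group G] [Fintype X] [DecidableEq X] [DecidableEq Y]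
    (π : G →* Equiv.Perm X) (dn : X → Y) (htr : ∀ x y, ∃ g, π g x = y)
    (hp : ∀ b, (pre dn {b}).card.Prime) : PrimFib π dn := by
  classical
  intro R hR1 hR2 hR3 hRg hRd hne x y hxy
  let C : X → Finset X := fun x => Finset.univ.filter fun y => R x y
  have hC : ∀ x y, y ∈ C x ↔ R x y := fun x y => by simp [C]
  have hcard : ∀ x y, (C x).card = (C y).card := by
    have h1 : ∀ x g, (C x).card ≤ (C (π g x)).card := by
      intro x g
      refine Finset.card_le_card_of_injOn (π g) (fun y hy => ?_) (π g).injective.injOn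
      rw [Finset.mem_coe, hC] at *
      exact hRg g x y hy
    intro x y
    obtain ⟨g, rfl⟩ := htr x y
    refine le_antisymm (h1 x g) ?_
    have h3 := h1 (π g x) g⁻¹
    rwa [← Equiv.Perm.mul_apply, ← map_mul, inv_mul_cancel, map_one, Equiv.Perm.one_apply] at h3
  have hCC : ∀ x y, R x y → C x = C y := by
    intro x y h
    ext z
    rw [hC, hC]
    exact ⟨fun h1 => hR3 _ _ _ (hR2 _ _ h) h1, fun h1 => hR3 _ _ _ h h1⟩
  have hCd : ∀ x, C x ⊆ pre dn {dn x} := by
    intro x y hy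
    rw [mem_pre, Finset.mem_singleton]
    rw [hC] at hy
    exact (hRd x y hy).symm
  have hdvd : (C x).card ∣ (pre dn {dn x}).card := by
    rw [Finset.card_eq_sum_card_fiberwise (f := C) (t := (pre dn {dn x}).image C)
      fun y hy => Finset.mem_coe.2 (Finset.mem_image_of_mem C hy)]
    refine Finset.dvd_sum fun c hc => ?_
    obtain ⟨y, hy, rfl⟩ := Finset.mem_image.1 hc
    have h1 : (pre dn {dn x}).filter (fun z => C z = C y) = C y := by
      ext z
      rw [Finset.mem_filter]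
      constructor
      · rintro ⟨-, h1⟩
        rw [← h1, hC]
        exact hR1 z
      · intro h1
        rw [hC] at h1
        refine ⟨?_, (hCC y z h1).symm⟩
        rw [mem_pre, Finset.mem_singleton] at hy ⊢
        rw [← hRd y z h1, hy]
    rw [h1, hcard x y]
  obtain ⟨a, b, hab, hRab⟩ := hne
  have h2 : 1 < (C x).card := by
    rw [hcard x a]
    exact Finset.one_lt_card.2 ⟨a, (hC a a).2 (hR1 a), b, (hC a b).2 hRab, hab⟩
  have h3 : (C x).card = (pre dn {dn x}).card :=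
    ((Nat.dvd_prime (hp (dn x))).1 hdvd).resolve_left (by omega)
  have h4 := Finset.eq_of_subset_of_card_le (hCd x) h3.ge
  rw [← hC, h4, mem_pre, Finset.mem_singleton]
  exact hxy.symm

section conj

variable {K F τ : Type*} [Field K] [Field F] [Algebra K F] [Fintype τ] [DecidableEq τ]
  {α : τ → F} [Hyp α]
  (hg : ∀ s : F ≃ₐ[K] F, (fP α).map ((s : F ≃+* F) : F →+* F) = fP α)

theorem SignsAt.conj {s h : F ≃ₐ[K] F} (hs : SignsAt α s (prm α hg h)) (g : F ≃ₐ[K] F) :
    SignsAt α (g * s * g⁻¹) (prm α hg (g * h * g⁻¹)) := by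
  have hg1 : ∀ i, g⁻¹ (α i) = α ((prm α hg g)⁻¹ i) := by
    intro i
    rw [← map_inv]
    exact prm_spec α hg g⁻¹ i
  refine ⟨fun i => ?_, fun i j hij w hw => ?_⟩
  · rw [AlgEquiv.mul_apply, AlgEquiv.mul_apply, hg1, hs.1, prm_spec α hg]
    simp
  · have h1 : (g⁻¹ w) ^ 2 = α ((prm α hg g)⁻¹ i) - α ((prm α hg g)⁻¹ j) := by
      rw [← map_pow, hw, map_sub, hg1, hg1]
    have h2 := hs.2 _ _ (fun h => hij ((prm α hg g)⁻¹.injective h)) _ h1
    have h3 : (prm α hg g)⁻¹ j = prm α hg h ((prm α hg g)⁻¹ i) ↔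
        j = prm α hg (g * h * g⁻¹) i := by
      rw [map_mul, map_mul, map_inv, Equiv.Perm.mul_apply, Equiv.Perm.mul_apply,
        Equiv.Perm.inv_eq_iff_eq]
    have h4 : g (g⁻¹ w) = w := by
      rw [← AlgEquiv.mul_apply, mul_inv_cancel]
      rfl
    rw [AlgEquiv.mul_apply, AlgEquiv.mul_apply, h2]
    simp only [h3]
    split_ifs
    · rw [map_neg, h4]
    · rw [h4]

/-- a link which moves exactly one pair is a square root of a transvection -/
theorem SignsAt.signsOn {s : F ≃ₐ[K] F} {μ : τ → τ} (hs : SignsAt α s μ) {a b : τ}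
    (ha : μ a = b) (hb : μ b = a) (hx : ∀ x, x ≠ a → x ≠ b → μ x = x) :
    SignsOn α s {a, b} := by
  refine ⟨hs.1, fun i j hij w hw => ?_⟩
  rw [hs.2 i j hij w hw]
  have h1 : j = μ i ↔ i ∈ ({a, b} : Finset τ) ∧ j ∈ ({a, b} : Finset τ) := by
    simp only [Finset.mem_insert, Finset.mem_singleton]
    by_cases h1 : i = a
    · subst h1
      rw [ha]
      constructor
      · rintro rfl
        exact ⟨Or.inl rfl, Or.inr rfl⟩
      · rintro ⟨-, h | h⟩
        · exact absurd h.symm hij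
        · exact h
    · by_cases h2 : i = b
      · subst h2
        rw [hb]
        constructor
        · rintro rfl
          exact ⟨Or.inr rfl, Or.inl rfl⟩
        · rintro ⟨-, h | h⟩
          · exact h
          · exact absurd h.symm hij
      · rw [hx i h1 h2]
        constructor
        · intro h
          exact absurd h.symm hij
        · rintro ⟨h | h, -⟩
          · exact absurd h h1
          · exact absurd h h2
  simp only [h1]

theorem SignsAt.signsOn_empty {s : F ≃ₐ[K] F} {μ : τ → τ} (hs : SignsAt α s μ)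
    (hx : ∀ x, μ x = x) : SignsOn α s (∅ : Finset τ) := by
  refine ⟨hs.1, fun i j hij w hw => ?_⟩
  rw [hs.2 i j hij w hw, hx, if_neg hij.symm, if_neg (by simp)]

end conj

/-! ### the tower -/

section tower

variable {K F : Type*} [Field K] [Field F] [Algebra K F] [IsAlgClosed F] {τ : ℕ → Type*}
  [∀ n, Fintype (τ n)] [∀ n, DecidableEq (τ n)] (α : ∀ n, τ n → F) [∀ n, Hyp (α n)]
  (hg : ∀ n (s : F ≃ₐ[K] F), (fP (α n)).map ((s : F ≃+* F) : F →+* F) = fP (α n))
  (dn : ∀ n, τ (n + 1) → τ n)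
  {A : Type*} [Ring A] [Algebra ℤ_[2] A] (t : (F ≃ₐ[K] F) →* A)

/-- `σ` changes the signs of the square roots of the differences of the branch points which are exchanged by the
involution `g`, at the levels at most `N`; and `g` exchanges exactly two branch points of the level `m`, none of the
lower levels. -/
structure LinkElt (N m : ℕ) (σ g : F ≃ₐ[K] F) : Prop where
  signs : ∀ n ≤ N, SignsAt (α n) σ (prm (α n) (hg n) g)
  invol : ∀ n ≤ N, ∀ x, prm (α n) (hg n) g (prm (α n) (hg n) g x) = x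
  low : ∀ n < m, ∀ x, prm (α n) (hg n) g x = x
  own : ∃ a b, a ≠ b ∧ prm (α m) (hg m) g a = b ∧ ∀ x, x ≠ a → x ≠ b → prm (α m) (hg m) g x = x
  cyclo : ∃ z, ((cyc K F σ : ℤ_[2]ˣ) : ℤ_[2]) = 1 + 8 * z
  val : ∃ M, t σ = 1 + (4 : ℤ_[2]) • M

/-- the conditions on the tower -/
structure Tower (N : ℕ) : Prop where
  eqv : ∀ n (g : F ≃ₐ[K] F) x, dn n (prm (α (n + 1)) (hg (n + 1)) g x) = prm (α n) (hg n) g (dn n x)
  trans : ∀ n ≤ N, ∀ x y : τ n, ∃ g : F ≃ₐ[K] F, prm (α n) (hg n) g x = y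
  zero : ∀ x y : τ 0, x = y
  prim : ∀ n < N, PrimFib (prm (α (n + 1)) (hg (n + 1))) (dn n)
  card : ∀ n < N, ∀ b, 2 < (pre (dn n) {b}).card
  link : ∀ m, 1 ≤ m → m ≤ N → ∃ σ g, LinkElt α hg t N m σ g

variable {α hg dn t} {N : ℕ}

theorem own_fib (h : Tower α hg dn t N) {i : ℕ} {σ g : F ≃ₐ[K] F}
    (hl : LinkElt α hg t N (i + 1) σ g) {a b : τ (i + 1)}
    (hab : prm (α (i + 1)) (hg (i + 1)) g a = b) : dn i a = dn i b := by
  rw [← hab, h.eqv, hl.low i (Nat.lt_succ_self i)]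

theorem prm_mul_apply (n : ℕ) (g g' : F ≃ₐ[K] F) (x : τ n) :
    prm (α n) (hg n) (g * g') x = prm (α n) (hg n) g (prm (α n) (hg n) g' x) := by
  rw [map_mul, Equiv.Perm.mul_apply]

theorem prm_conj_apply (n : ℕ) (g h : F ≃ₐ[K] F) (x : τ n) :
    prm (α n) (hg n) (g * h * g⁻¹) (prm (α n) (hg n) g x) =
      prm (α n) (hg n) g (prm (α n) (hg n) h x) := by
  rw [← prm_mul_apply, inv_mul_cancel_right, prm_mul_apply]

theorem edge_map (n : ℕ) {a b : τ n} (g : F ≃ₐ[K] F) {x y : τ n}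
    (h : Edge (fun g : F ≃ₐ[K] F => prm (α n) (hg n) g a)
      (fun g : F ≃ₐ[K] F => prm (α n) (hg n) g b) x y) :
    Edge (fun g : F ≃ₐ[K] F => prm (α n) (hg n) g a)
      (fun g : F ≃ₐ[K] F => prm (α n) (hg n) g b) (prm (α n) (hg n) g x)
      (prm (α n) (hg n) g y) := by
  obtain ⟨k, ⟨rfl, rfl⟩ | ⟨rfl, rfl⟩⟩ := h
  · exact ⟨g * k, Or.inl ⟨prm_mul_apply n g k a, prm_mul_apply n g k b⟩⟩
  · exact ⟨g * k, Or.inr ⟨prm_mul_apply n g k a, prm_mul_apply n g k b⟩⟩

/-- the fibres are connected -/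
theorem tower_fibre (h : Tower α hg dn t N) {i : ℕ} (hi : i + 1 ≤ N) {σ g : F ≃ₐ[K] F}
    (hl : LinkElt α hg t N (i + 1) σ g) {a b : τ (i + 1)} (hne : a ≠ b)
    (hab : prm (α (i + 1)) (hg (i + 1)) g a = b) (x y : τ (i + 1)) (hxy : dn i x = dn i y) :
    Relation.ReflTransGen (Edge (fun g : F ≃ₐ[K] F => prm (α (i + 1)) (hg (i + 1)) g a)
      (fun g : F ≃ₐ[K] F => prm (α (i + 1)) (hg (i + 1)) g b)) x y := by
  have hfib : ∀ k : F ≃ₐ[K] F, dn i (prm (α (i + 1)) (hg (i + 1)) k a) =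
      dn i (prm (α (i + 1)) (hg (i + 1)) k b) := by
    intro k
    rw [h.eqv, h.eqv, own_fib h hl hab]
  refine h.prim i hi _ (fun x => Relation.ReflTransGen.refl) (fun x y hxy => rtg_symm (fun _ _ h => h.symm) hxy)
    (fun x y z h1 h2 => h1.trans h2) (fun g' x y hxy => ?_) (fun x y hxy => ?_)
    ⟨a, b, hne, Relation.ReflTransGen.single ⟨1, Or.inl ⟨?_, ?_⟩⟩⟩ x y hxy
  · exact Relation.ReflTransGen.lift _ (fun x y h => edge_map (i + 1) g' h) _ _ hxy
  · induction hxy with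
    | refl => rfl
    | tail _ hbc ih => rw [ih, edge_fib (dn i) _ _ hfib hbc]
  · change prm (α (i + 1)) (hg (i + 1)) 1 a = a
    rw [map_one, Equiv.Perm.one_apply]
  · change prm (α (i + 1)) (hg (i + 1)) 1 b = b
    rw [map_one, Equiv.Perm.one_apply]

/-- the links between the elements of a level: conjugates of the given ones -/
def Lk (α : ∀ n, τ n → F) [∀ n, Hyp (α n)]
    (hg : ∀ n (s : F ≃ₐ[K] F), (fP (α n)).map ((s : F ≃+* F) : F →+* F) = fP (α n))
    (t : (F ≃ₐ[K] F) →* A) (N i : ℕ) (b b' : τ i) : Prop :=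
  b ≠ b' ∧ ∃ (m : ℕ) (σ g g' : F ≃ₐ[K] F), 1 ≤ m ∧ m ≤ i ∧ LinkElt α hg t N m σ g ∧
    prm (α i) (hg i) (g' * g * g'⁻¹) b = b'

/-- **The elements of a level are connected by links.** -/
theorem tower_conn (h : Tower α hg dn t N) (i : ℕ) (hi : i ≤ N) (b b' : τ i) :
    Relation.ReflTransGen (Lk α hg t N i) b b' := by
  induction i with
  | zero =>
    rw [h.zero b b']
  | succ i ih =>
    -- lifting of paths
    have h1 : ∀ c : τ i, Relation.ReflTransGen (Lk α hg t N i) (dn i b) c →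
        ∃ b₁ : τ (i + 1), dn i b₁ = c ∧ Relation.ReflTransGen (Lk α hg t N (i + 1)) b b₁ := by
      intro c hc
      induction hc with
      | refl => exact ⟨b, rfl, Relation.ReflTransGen.refl⟩
      | @tail c c' _ hcc ih =>
        obtain ⟨b₁, hb₁, hp⟩ := ih
        obtain ⟨hne, m, σ, g, g', h2, h3, h4, h5⟩ := hcc
        have h6 : dn i (prm (α (i + 1)) (hg (i + 1)) (g' * g * g'⁻¹) b₁) = c' := by
          rw [h.eqv, hb₁, h5]
        refine ⟨_, h6, hp.tail ⟨fun h7 => hne ?_, m, σ, g, g', h2, by omega, h4, rfl⟩⟩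
        rw [← h6, ← h7, hb₁]
    obtain ⟨b₁, hb₁, hp⟩ := h1 (dn i b') (ih (by omega) _ _)
    refine hp.trans ?_
    obtain ⟨σ, g, hl⟩ := h.link (i + 1) (by omega) hi
    obtain ⟨a, a', hne, haa, -⟩ := hl.own
    refine Relation.ReflTransGen.lift (fun x => x) (fun x y hxy => ?_) _ _
      (tower_fibre h hi hl hne haa b₁ b' hb₁)
    have haa' : prm (α (i + 1)) (hg (i + 1)) g a' = a := by
      rw [← haa, hl.invol _ hi]
    obtain ⟨k, ⟨rfl, rfl⟩ | ⟨rfl, rfl⟩⟩ := hxy
    · refine ⟨fun h1 => hne ((prm _ _ k).injective h1), i + 1, σ, g, k, by omega, le_rfl, hl, ?_⟩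
      rw [prm_conj_apply, haa]
    · refine ⟨fun h1 => hne ((prm _ _ k).injective h1.symm), i + 1, σ, g, k, by omega, le_rfl, hl,
        ?_⟩
      rw [prm_conj_apply, haa']

end tower

end

end Pool.Agent.H852.J
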