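import Mathlib
import Pool.Agent.H852.J.B8

/-!
# Towers: the joint tangent vectors of the new parts
-/

set_option linter.unusedSectionVars false
set_option autoImplicit false

namespace Pool.Agent.H852.J

open Polynomial PadicInt Module Pool.Agent.N171 Pool.Agent.N171.Al Pool.Agent.N171.TG
  Pool.Agent.N171.Pm Pool.Agent.N171.Bg

noncomputable section

section tower

variable {K F : Type*} [Field K] [Field F] [Algebra K F] [IsAlgClosed F] [Normal K F] {τ : ℕ → Type*}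
  [∀ n, Fintype (τ n)] [∀ n, DecidableEq (τ n)] {α : ∀ n, τ n → F} [∀ n, Hyp (α n)]
  [∀ n, IsDomain (RG (fP (α n)))]
  {hg : ∀ n (s : F ≃ₐ[K] F), (fP (α n)).map ((s : F ≃+* F) : F →+* F) = fP (α n)}
  {dn : ∀ n, τ (n + 1) → τ n} {φ : ℕ → F[X]} (hc : ∀ n, Comp (α n) (α (n + 1)) (φ n))
  (hdn : ∀ n a, (φ n).eval (α (n + 1) a) = α n (dn n a)) (h2 : (2 : F) ≠ 0)
  (hodd : ∀ n, Odd (φ n).natDegree)
  (hφ : ∀ n (s : F ≃ₐ[K] F), (φ n).map ((s : F ≃+* F) : F →+* F) = φ n)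
  {A : Type*} [Ring A] [Algebra ℤ_[2] A] [Module.Finite ℤ_[2] A] [Module.Free ℤ_[2] A]
  {t : (F ≃ₐ[K] F) →* A} {N : ℕ}

/-- the new part of the level `n + 1` -/
abbrev nT (hc : ∀ n, Comp (α n) (α (n + 1)) (φ n)) (h2 : (2 : F) ≠ 0) (n : ℕ) : Type _ :=
  New (hc n) h2

variable (hg) in
/-- the representation on the new part of the level `n + 1` -/
abbrev nR (n : ℕ) : Representation ℤ_[2] (F ≃ₐ[K] F) (nT hc h2 n) :=
  newRep (hc n) h2 (hg n) (hg (n + 1)) (hφ n)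

/-- the form on the new part of the level `n + 1` -/
abbrev nB (n : ℕ) : nT hc h2 n →ₗ[ℤ_[2]] nT hc h2 n →ₗ[ℤ_[2]] ℤ_[2] := newB (hc n) h2

theorem cyc_conj {σ : F ≃ₐ[K] F} (h : ∃ z, ((cyc K F σ : ℤ_[2]ˣ) : ℤ_[2]) = 1 + 8 * z)
    (g : F ≃ₐ[K] F) : ∃ z, ((cyc K F (g * σ * g⁻¹) : ℤ_[2]ˣ) : ℤ_[2]) = 1 + 8 * z := by
  obtain ⟨z, hz⟩ := h
  refine ⟨z, ?_⟩
  rw [map_mul, map_mul, map_inv, mul_comm (Pool.Agent.N171.cyc K F g), mul_assoc,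
    mul_inv_cancel, mul_one, hz]

theorem four_conj {A' : Type*} [Ring A'] [Algebra ℤ_[2] A'] (t' : (F ≃ₐ[K] F) →* A')
    {σ : F ≃ₐ[K] F} (h : ∃ M, t' σ = 1 + (4 : ℤ_[2]) • M) (g : F ≃ₐ[K] F) :
    ∃ M, t' (g * σ * g⁻¹) = 1 + (4 : ℤ_[2]) • M := by
  obtain ⟨N, hN⟩ := h
  refine ⟨t' g * N * t' g⁻¹, ?_⟩
  rw [map_mul, map_mul, hN, mul_add, add_mul, mul_one, ← map_mul, mul_inv_cancel, map_one,
    mul_smul_comm, smul_mul_assoc]

include hdn hodd in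
/-- the tangent vectors of one new part -/
theorem level_tan (h : Tower α hg dn t N) (i : ℕ) (hi : i + 1 ≤ N)
    {A' : Type*} [Ring A'] [Algebra ℤ_[2] A'] [Module.Finite ℤ_[2] A'] [Module.Free ℤ_[2] A']
    (t' : (F ≃ₐ[K] F) →* A')
    (hown : ∀ σ g, LinkElt α hg t N (i + 1) σ g → ∀ g', ∃ M, t' (g' * σ * g'⁻¹) =
      1 + (4 : ℤ_[2]) • M)
    (hlk : ∀ m, 1 ≤ m → m ≤ i → ∀ σ g, LinkElt α hg t N m σ g → ∀ g', ∃ M,
      t' (g' * σ * g'⁻¹) * t' (g' * σ * g'⁻¹) = 1 + (4 : ℤ_[2]) • M)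
    (X : Module.End ℤ_[2] (nT hc h2 i)) (hX : X ∈ spQ (nB hc h2 i) (p1 _)) :
    Tan (nR hg hc h2 hφ i) t' X 0 := by
  obtain ⟨σ, g, hl⟩ := h.link (i + 1) (by omega) hi
  obtain ⟨a, a', hne, haa, hfix⟩ := hl.own
  have haa' : prm (α (i + 1)) (hg (i + 1)) g a' = a := by
    rw [← haa, hl.invol _ hi]
  let p : (F ≃ₐ[K] F) → τ (i + 1) := fun k => prm (α (i + 1)) (hg (i + 1)) k a
  let q : (F ≃ₐ[K] F) → τ (i + 1) := fun k => prm (α (i + 1)) (hg (i + 1)) k a'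
  have hpq : ∀ k, p k ≠ q k := fun k h1 => hne ((prm _ _ k).injective h1)
  have hfib : ∀ k, dn i (p k) = dn i (q k) := by
    intro k
    change dn i (prm (α (i + 1)) (hg (i + 1)) k a) = dn i (prm (α (i + 1)) (hg (i + 1)) k a')
    rw [h.eqv, h.eqv, own_fib h hl haa]
  let Λ : Type _ := {x : (F ≃ₐ[K] F) × (F ≃ₐ[K] F) × (F ≃ₐ[K] F) //
    (∃ (m : ℕ) (σ₁ g₁ g' : F ≃ₐ[K] F), 1 ≤ m ∧ m ≤ i ∧ LinkElt α hg t N m σ₁ g₁ ∧
      x.1 = g' * σ₁ * g'⁻¹ ∧ x.2.1 = g' * g₁ * g'⁻¹) ∧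
      dn i (p x.2.2) ≠ prm (α i) (hg i) x.2.1 (dn i (p x.2.2))}
  let k : Λ → (F ≃ₐ[K] F) := fun x => x.1.2.2
  let k' : Λ → (F ≃ₐ[K] F) := fun x => x.1.2.1 * x.1.2.2
  have hpk : ∀ (x : Λ), prm (α (i + 1)) (hg (i + 1)) x.1.2.1 (p (k x)) = p (k' x) := fun x =>
    (prm_mul_apply (i + 1) x.1.2.1 x.1.2.2 a).symm
  have hqk : ∀ (x : Λ), prm (α (i + 1)) (hg (i + 1)) x.1.2.1 (q (k x)) = q (k' x) := fun x =>
    (prm_mul_apply (i + 1) x.1.2.1 x.1.2.2 a').symm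
  have hinv : ∀ (x : Λ) (y : τ (i + 1)), prm (α (i + 1)) (hg (i + 1)) x.1.2.1
      (prm (α (i + 1)) (hg (i + 1)) x.1.2.1 y) = y := by
    intro x y
    obtain ⟨⟨m, σ₁, g₁, g', -, -, hl₁, -, hx⟩, -⟩ := x.2
    rw [hx, ← prm_mul_apply]
    have h1 : g' * g₁ * g'⁻¹ * (g' * g₁ * g'⁻¹) = g' * (g₁ * g₁) * g'⁻¹ := by group
    rw [h1, prm_mul_apply, prm_mul_apply, prm_mul_apply, hl₁.invol _ hi, ← prm_mul_apply,
      mul_inv_cancel, map_one, Equiv.Perm.one_apply]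
  refine tan_new (hc i) (dn i) (hdn i) h2 (hodd i) (hg i) (hg (i + 1)) (hφ i) p q hpq hfib
    (h.card i hi) (fun x y hxy => tower_fibre h hi hl hne haa x y hxy) k k' (fun x => ?_)
    (fun b b' => ?_) t' (fun k => k * σ * k⁻¹) (fun k => ?_) (fun k => cyc_conj hl.cyclo k)
    (fun k => hown σ g hl k) (fun x => x.1.1) (fun x => prm (α (i + 1)) (hg (i + 1)) x.1.2.1)
    (fun x => ?_) (fun x => ⟨hpk x, hqk x, by rw [← hpk x, hinv], by rw [← hqk x, hinv]⟩)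
    (fun x => ?_) (fun x => ?_) X hX
  · have h1 := x.2.2
    rwa [← h.eqv, hpk] at h1
  · refine Relation.ReflTransGen.lift (fun x => x) (fun c c' hcc => ?_) _ _
      (tower_conn h i (by omega) b b')
    obtain ⟨hne', m, σ₁, g₁, g', h4, h5, h6, h7⟩ := hcc
    obtain ⟨e, he⟩ := h.trans i (by omega) (dn i a) c
    have he' : dn i (p e) = c := by
      change dn i (prm (α (i + 1)) (hg (i + 1)) e a) = c
      rw [h.eqv, he]
    refine ⟨⟨(g' * σ₁ * g'⁻¹, g' * g₁ * g'⁻¹, e), ⟨m, σ₁, g₁, g', h4, h5, h6, rfl, rfl⟩, ?_⟩,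
      Or.inl ⟨he', ?_⟩⟩
    · rw [he', h7]
      exact hne'
    · rw [← hpk, h.eqv]
      change prm (α i) (hg i) (g' * g₁ * g'⁻¹) (dn i (p e)) = c'
      rw [he', h7]
  · have h1 := (SignsAt.signsOn (hl.signs _ hi) haa haa' hfix).conj (hg (i + 1)) k
    rwa [Finset.image_insert, Finset.image_singleton] at h1
  · obtain ⟨⟨m, σ₁, g₁, g', -, -, hl₁, hx1, hx⟩, -⟩ := x.2
    rw [hx1, hx]
    exact (hl₁.signs _ hi).conj (hg (i + 1)) g'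
  · obtain ⟨⟨m, σ₁, g₁, g', -, -, hl₁, hx1, hx⟩, -⟩ := x.2
    rw [hx1]
    exact cyc_conj hl₁.cyclo g'
  · obtain ⟨⟨m, σ₁, g₁, g', h4, h5, hl₁, hx1, hx⟩, -⟩ := x.2
    rw [hx1]
    exact hlk m h4 h5 σ₁ g₁ hl₁ g'

include hdn hodd in
/-- **The joint tangent vectors.** -/
theorem tower_tan (h : Tower α hg dn t N)
    {X : ∀ i : Fin N, Module.End ℤ_[2] (nT hc h2 i)}
    (hX : ∀ i : Fin N, X i ∈ spQ (nB hc h2 i) (p1 _)) :
    TanA (jw (fun i : Fin N => nR hg hc h2 hφ i) t) (X, 0) := by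
  refine tri_pairs (B := fun i : Fin N => nB hc h2 i) (χ := cyc K F)
    (fun i x => newB_alt (hc i) h2 x)
    (fun i v hv => newB_nd (hc i) (dn i) (hdn i) h2 (hodd i) v hv)
    (fun i s x y => newB_act (hc i) h2 (hg i) (hg (i + 1)) (hφ i) s x y)
    (fun i => (i : ℕ)) Fin.val_injective (fun i j hij X hX => ?_) (fun i X hX => ?_) hX
  · refine level_tan hc hdn h2 hodd hφ h (i : ℕ) (by omega)
      (nR hg hc h2 hφ j : (F ≃ₐ[K] F) →* _) (fun σ g hl g' => ?_) (fun m h4 h5 σ g hl g' => ?_) X hX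
    · refine new_trivial (hc j) h2 (hg j) (hg (j + 1)) (hφ j) ?_
      have hj : (j : ℕ) + 1 ≤ N := by omega
      have h1 := ((hl.signs _ hj).signsOn_empty (hl.low _ (by omega))).conj (hg (j + 1)) g'
      rwa [Finset.image_empty] at h1
    · have hj : (j : ℕ) + 1 ≤ N := by omega
      exact sq_four (new_link_two (hc j) h2 (hg j) (hg (j + 1)) (hφ j)
        ((hl.signs _ hj).conj (hg (j + 1)) g'))
  · refine level_tan hc hdn h2 hodd hφ h (i : ℕ) (by omega) t (fun σ g hl g' => ?_)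
      (fun m h4 h5 σ g hl g' => ?_) X hX
    · exact four_conj t hl.val g'
    · obtain ⟨M, hM⟩ := four_conj t hl.val g'
      exact sq_four ⟨(2 : ℤ_[2]) • M, by rw [hM, smul_smul]; norm_num⟩

end tower

end

end Pool.Agent.H852.J
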