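import Mathlib
import Pool.Agent.H852.J.B9
import Pool.Agent.H852.J.P3

/-!
# Towers: from the tangent vectors of the new parts to all prime numbers
-/

set_option linter.unusedSectionVars false
set_option autoImplicit false

open TensorProduct Polynomial Matrix Filter Topology Module NumberField IsDedekindDomain
open Pool.Agent.Y142.ZS (SpLie)
open Pool.Agent.Y142.ZO (GK IsFrobenius)
open Pool.Agent.N171 Pool.Agent.N171.Al Pool.Agent.N171.Pm Pool.Agent.N171.Bg Pool.Agent.N171.TG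
open Pool.Agent.N197.AP Pool.Agent.H204R3.GP
open Pool.Agent.N166.CZ (IsTateModule ProductsWith)

namespace Pool.Agent.H852.J

noncomputable section

/-- from joint tangent vectors of lattices to all prime numbers -/
theorem holds_of_lats {K : Type} [Field K] [NumberField K] {ι : Type} [Fintype ι]
    [DecidableEq ι] (T : ι → Type) [∀ i, AddCommGroup (T i)] [∀ i, Module ℤ_[2] (T i)]
    [∀ i, Module.Finite ℤ_[2] (T i)] [∀ i, Module.Free ℤ_[2] (T i)]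
    (ρ : ∀ i, Representation ℤ_[2] (GK K) (T i)) (B : ∀ i, T i →ₗ[ℤ_[2]] T i →ₗ[ℤ_[2]] ℤ_[2])
    (halt : ∀ i x, B i x x = 0) (hnd : ∀ i v, (∀ w, ¬ IsUnit (B i v w)) → ∃ u, (2 : ℤ_[2]) • u = v)
    (hB : ∀ i s x y, B i (ρ i s x) (ρ i s y) = (cyc K (AlgebraicClosure K) s : ℤ_[2]) * B i x y)
    (hpos : ∃ i, 0 < finrank ℤ_[2] (T i)) {n d m : ℕ} {w : ℤ}
    (t : GK K →* Matrix (Fin d) (Fin d) ℤ_[2])
    (τ : GK K →* Matrix (Fin d) (Fin d) ℚ_[2]) (hτ : Continuous τ) (ht : IsLatOf t τ)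
    (hT : ∀ X : ∀ i, Module.End ℤ_[2] (T i), (∀ i, X i ∈ spQ (B i) (p1 (T i))) →
      TanA ((joint ρ).prod t) (X, 0))
    (S : Set (HeightOneSpectrum (𝓞 K))) (hS : S.Finite)
    (P : HeightOneSpectrum (𝓞 K) → ℚ[X]) (Q : HeightOneSpectrum (𝓞 K) → ℚ[X])
    (hP : ∀ v ∉ S, ∀ z : ℂ, aeval z (P v) = 0 →
      ‖z‖ ^ 2 = (Ideal.absNorm v.asIdeal : ℝ) ∧ IsIntegral ℤ ((Ideal.absNorm v.asIdeal : ℂ) ^ m * z))
    (hQ : ∀ v ∉ S, ∀ z : ℂ, aeval z (Q v) = 0 →
      ‖z‖ ^ 2 = (Ideal.absNorm v.asIdeal : ℝ) ^ w ∧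
        IsIntegral ℤ ((Ideal.absNorm v.asIdeal : ℂ) ^ m * z))
    (R : GK K →* Matrix (Fin n) (Fin n) ℚ_[2]) (hR : Continuous R)
    (E : (Fin n → ℚ_[2]) ≃ₗ[ℚ_[2]] (∀ i, ℚ_[2] ⊗[ℤ_[2]] T i))
    (hE : ∀ g x i, E (R g *ᵥ x) i = ratRep (ρ i) g (E x i))
    (hRP : ∀ v ∉ S, (2 : 𝓞 K) ∉ v.asIdeal → ∀ σ : GK K, IsFrobenius v σ →
      (R σ).charpoly = (P v).map (Rat.castHom ℚ_[2]))
    (hτQ : ∀ v ∉ S, (2 : 𝓞 K) ∉ v.asIdeal → ∀ σ : GK K, IsFrobenius v σ →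
      (τ σ⁻¹).charpoly = (Q v).map (Rat.castHom ℚ_[2]))
    (ℓ : ℕ) [hℓ : Fact ℓ.Prime] (V M : Type) [AddCommGroup V] [Module ℚ_[ℓ] V]
    [FiniteDimensional ℚ_[ℓ] V] [AddCommGroup M] [Module ℚ_[ℓ] M] [FiniteDimensional ℚ_[ℓ] M]
    (r : Representation ℚ_[ℓ] (GK K) V) (c : GK K →* ℚ_[ℓ])
    (s : Representation ℚ_[ℓ] (GK K) M) (hr : IsTateModule r c)
    (hf : ∀ v ∉ S, (ℓ : 𝓞 K) ∉ v.asIdeal → ∀ σ : GK K, IsFrobenius v σ →
      c σ = (Ideal.absNorm v.asIdeal : ℚ_[ℓ]) ∧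
      LinearMap.charpoly (r σ) = (P v).map (Rat.castHom ℚ_[ℓ]) ∧
      LinearMap.charpoly (s σ⁻¹) = (Q v).map (Rat.castHom ℚ_[ℓ])) :
    ProductsWith r c s := by
  obtain ⟨ρ', J, t', k1, k2, k3, k4, k5, k6⟩ := t_MAT ι T (GK K) ρ B (cyc K (AlgebraicClosure K))
    (fun i => finrank ℤ_[2] (T i)) (fun i => Module.finBasis ℤ_[2] (T i)) d t halt hnd hB hT
  have e1 : t' = τ := MonoidHom.ext fun s => by rw [k2, ht]
  subst e1
  have hiso : ∀ i, ∃ e : (Fin (finrank ℤ_[2] (T i)) → ℚ_[2]) ≃ₗ[ℚ_[2]] (ℚ_[2] ⊗[ℤ_[2]] T i),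
      ∀ s x, e (ρ' i s *ᵥ x) = ratRep (ρ i) s (e x) := by
    intro i
    refine ⟨(Algebra.TensorProduct.basis ℚ_[2] (Module.finBasis ℤ_[2] (T i))).equivFun.symm,
      fun s x => ?_⟩
    refine hyp_coord _ (ratRep (ρ i) s) (ρ' i s) ?_ x
    rw [k1]
    exact LinearMap.toMatrix_baseChange ℚ_[2] (ρ i s) (Module.finBasis ℤ_[2] (T i))
      (Module.finBasis ℤ_[2] (T i))
  obtain ⟨hg1, hg2⟩ := t_GLUE ι (fun i => finrank ℤ_[2] (T i)) (GK K) ρ'
    (fun i => ℚ_[2] ⊗[ℤ_[2]] T i) (fun i => ratRep (ρ i)) hiso n R E hE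
  obtain ⟨h1, h2, h3, h4, h5⟩ := t_BLOCK ι (fun i => finrank ℤ_[2] (T i)) d (GK K) ρ' t' J k3 k4 k6
  have hn : 0 < ∑ i, finrank ℤ_[2] (T i) := by
    obtain ⟨i, hi⟩ := hpos
    exact Finset.sum_pos' (fun i _ => Nat.zero_le _) ⟨i, Finset.mem_univ _, hi⟩
  refine main20 t_PLACE2' t_TATE2 (m := m) (w := w) hn (hg2 hR) hτ h2
    (h3 (cycQ K (AlgebraicClosure K)) fun i g => k5 i g) h1
    (S := S ∪ {v | ((2 : ℕ) : 𝓞 K) ∈ v.asIdeal})
    (hS.union (finite_above 2 Nat.prime_two)) (P := P) (Q := Q)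
    (fun v hv σ hσ => ?_) (fun v hv => ⟨hP v fun h => hv (Or.inl h), hQ v fun h => hv (Or.inl h)⟩)
    (r := r) hr (T := S ∪ {v | (ℓ : 𝓞 K) ∈ v.asIdeal}) (hS.union (finite_above ℓ hℓ.out))
    fun v hv σ hσ => ?_
  · have hv1 : v ∉ S := fun h => hv (Or.inl h)
    have hv2 : (2 : 𝓞 K) ∉ v.asIdeal := fun h => hv (Or.inr (by
      rw [Set.mem_setOf_eq, Nat.cast_ofNat]; exact h))
    refine ⟨?_, ?_, t_CYC K v σ hv2 hσ⟩
    · rw [hg1]
      exact hRP v hv1 hv2 σ hσ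
    · exact hτQ v hv1 hv2 σ hσ
  · have hv1 : v ∉ S := fun h => hv (Or.inl h)
    have hv2 : (ℓ : 𝓞 K) ∉ v.asIdeal := fun h => hv (Or.inr h)
    obtain ⟨h6, h7, h8⟩ := hf v hv1 hv2 σ hσ
    refine ⟨h6, h7, ?_⟩
    rw [← h8]
    exact LinearMap.aeval_self_charpoly _

/-! ### the decomposition -/

section dec

variable {K F : Type} [Field K] [Field F] [Algebra K F] [IsAlgClosed F] [Normal K F]
  {τ : ℕ → Type} [∀ n, Fintype (τ n)] [∀ n, DecidableEq (τ n)] {α : ∀ n, τ n → F}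
  [∀ n, Hyp (α n)] [∀ n, IsDomain (RG (fP (α n)))]
  {hg : ∀ n (s : F ≃ₐ[K] F), (fP (α n)).map ((s : F ≃+* F) : F →+* F) = fP (α n)}
  {dn : ∀ n, τ (n + 1) → τ n} {φ : ℕ → F[X]} (hc : ∀ n, Comp (α n) (α (n + 1)) (φ n))
  (hdn : ∀ n a, (φ n).eval (α (n + 1) a) = α n (dn n a)) (h2 : (2 : F) ≠ 0)
  (hodd : ∀ n, Odd (φ n).natDegree)
  (hφ : ∀ n (s : F ≃ₐ[K] F), (φ n).map ((s : F ≃+* F) : F →+* F) = φ n)

omit [Normal K F] in
theorem tm_trivial {τ : Type} [Fintype τ] [DecidableEq τ] {α : τ → F} [Hyp α]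
    [IsDomain (RG (fP α))] (h0 : ∀ x y : τ, x = y) : Subsingleton (TM α) := by
  have h1 : ∀ x : TM α, x.1 1 = 0 := by
    intro x
    obtain ⟨S, hS, hx⟩ := exists_set x
    have h2 : S.card ≤ 1 := Finset.card_le_one.2 fun a _ b _ => h0 a b
    have h3 : S.card = 0 := by
      obtain ⟨k, hk⟩ := hS
      omega
    rw [hx, Finset.card_eq_zero.1 h3, DS, Finset.sum_empty]
  have h2 : ∀ (n : ℕ) (x : TM α), x.1 n = 0 := by
    intro n
    induction n with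
    | zero => exact fun x => tm_zero x
    | succ n ih =>
      intro x
      obtain ⟨y, hy⟩ := tm_half (h1 x)
      have e2 : ((2 : ℤ_[2]) • y) = (2 : ℕ) • y := by
        rw [← tm_natCast_smul]
        norm_num
      rw [hy, e2]
      change (2 : ℕ) • y.1 (n + 1) = 0
      rw [tm_succ, ih]
  exact ⟨fun x y => tm_ext fun n => by rw [h2, h2]⟩

include hdn hodd in
/-- **The decomposition of the Tate module.** -/
theorem exists_dec (h0 : ∀ x y : τ 0, x = y) (n : ℕ) :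
    ∃ D : TM (α n) ≃ₗ[ℤ_[2]] (∀ i : Fin n, nT hc h2 i), ∀ s x i,
      D (rhoG (hg n) s x) i = nR hg hc h2 hφ i s (D x i) := by
  induction n with
  | zero =>
    have := tm_trivial (α := α 0) h0
    exact ⟨0, fun s x i => i.elim0⟩
  | succ n ih =>
    obtain ⟨D, hD⟩ := ih
    let E : TM (α (n + 1)) ≃ₗ[ℤ_[2]] (TM (α n) × nT hc h2 n) :=
      (decE (BM (α (n + 1)) h2) (Pu (hc n)) (pb_nd (hc n) (dn n) (hdn n) h2 (hodd n))).symm
    have hE : ∀ s x, E (rhoG (hg (n + 1)) s x) =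
        (rhoG (hg n) s (E x).1, nR hg hc h2 hφ n s (E x).2) := by
      intro s x
      rw [LinearEquiv.symm_apply_eq]
      have h3 := decE_act (pb_nd (hc n) (dn n) (hdn n) h2 (hodd n))
        (Pu_act (hc n) (hg n) (hg (n + 1)) (hφ n))
        (new_stable (hc n) h2 (hg n) (hg (n + 1)) (hφ n)) s (E x).1 (E x).2
      refine Eq.trans ?_ h3.symm
      congr 1
      exact ((decE (BM (α (n + 1)) h2) (Pu (hc n))
        (pb_nd (hc n) (dn n) (hdn n) h2 (hodd n))).apply_symm_apply x).symm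
    let G : TM (α (n + 1)) → (∀ i : Fin (n + 1), nT hc h2 i) := fun x =>
      Fin.lastCases (motive := fun i : Fin (n + 1) => nT hc h2 i) (E x).2 fun i => D (E x).1 i
    have hGl : ∀ x, G x (Fin.last n) = (E x).2 := fun x => Fin.lastCases_last ..
    have hGc : ∀ x (i : Fin n), G x i.castSucc = D (E x).1 i := fun x i =>
      Fin.lastCases_castSucc ..
    have hext : ∀ y z : (∀ i : Fin (n + 1), nT hc h2 i), y (Fin.last n) = z (Fin.last n) →
        (∀ i : Fin n, y i.castSucc = z i.castSucc) → y = z := by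
      intro y z h3 h4
      funext i
      induction i using Fin.lastCases with
      | last => exact h3
      | cast i => exact h4 i
    refine ⟨{
      toFun := G
      map_add' := fun x y => hext _ _ ?_ fun i => ?_
      map_smul' := fun c x => hext _ _ ?_ fun i => ?_
      invFun := fun y => E.symm (D.symm (fun i => y i.castSucc), y (Fin.last n))
      left_inv := fun x => ?_
      right_inv := fun y => hext _ _ ?_ fun i => ?_ }, fun s x i => ?_⟩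
    · rw [Pi.add_apply, hGl, hGl, hGl, map_add]
      rfl
    · rw [Pi.add_apply, hGc, hGc, hGc, map_add]
      change D ((E x).1 + (E y).1) i = _
      rw [map_add]
      rfl
    · rw [Pi.smul_apply, hGl, hGl, map_smul]
      rfl
    · rw [Pi.smul_apply, hGc, hGc, map_smul]
      change D (c • (E x).1) i = _
      rw [map_smul]
      rfl
    · change E.symm (D.symm (fun i => G x i.castSucc), G x (Fin.last n)) = x
      rw [hGl, LinearEquiv.symm_apply_eq]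
      have h3 : (fun i : Fin n => G x i.castSucc) = D (E x).1 := funext fun i => hGc x i
      rw [h3, LinearEquiv.symm_apply_apply]
    · change G _ (Fin.last n) = _
      rw [hGl, LinearEquiv.apply_symm_apply]
    · change G _ i.castSucc = _
      rw [hGc, LinearEquiv.apply_symm_apply]
      change D (D.symm _) i = _
      rw [LinearEquiv.apply_symm_apply]
    · change G (rhoG (hg (n + 1)) s x) i = nR hg hc h2 hφ i s (G x i)
      induction i using Fin.lastCases with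
      | last =>
        rw [hGl, hGl, hE]
      | cast i =>
        rw [hGc, hGc, hE]
        exact hD s (E x).1 i

include hdn hodd in
theorem exists_decV (h0 : ∀ x y : τ 0, x = y) (n : ℕ) (g : F[X]) [IsDomain (RG g)]
    (hgg : ∀ s : F ≃ₐ[K] F, g.map ((s : F ≃+* F) : F →+* F) = g) (hα : g = fP (α n)) :
    ∃ E : (ℚ_[2] ⊗[ℤ_[2]] TateMod 2 (ClG (RG g))) ≃ₗ[ℚ_[2]]
      (∀ i : Fin n, ℚ_[2] ⊗[ℤ_[2]] nT hc h2 i), ∀ s x i,
      E (ratRep (rhoG hgg) s x) i = ratRep (nR hg hc h2 hφ i) s (E x i) := by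
  subst hα
  obtain ⟨D, hD⟩ := exists_dec (hg := hg) hc hdn h2 hodd hφ h0 n
  refine ⟨(D.baseChange ℤ_[2] ℚ_[2] _ _).trans (TensorProduct.piRight ℤ_[2] ℚ_[2] ℚ_[2] _),
    fun s x i => ?_⟩
  induction x using TensorProduct.induction_on with
  | zero => simp only [map_zero, Pi.zero_apply]
  | tmul a x =>
    change a ⊗ₜ[ℤ_[2]] (D (rhoG (hg n) s x) i) = a ⊗ₜ[ℤ_[2]] (nR hg hc h2 hφ i s (D x i))
    rw [hD]
  | add x y hx hy =>
    simp only [map_add, Pi.add_apply, hx, hy]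

end dec

end

end Pool.Agent.H852.J
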