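import Mathlib
import Pool.Agent.H852.J.G5

/-!
# Generation by the conjugates of pairs of branch points
-/

set_option linter.unusedSectionVars false
set_option autoImplicit false

namespace Pool.Agent.H852.J

open Polynomial PadicInt Module Pool.Agent.N171 Pool.Agent.N171.Al Pool.Agent.N171.TG
  Pool.Agent.N171.Pm Pool.Agent.N171.Bg

noncomputable section

variable {K F : Type} [Field K] [Field F] [Algebra K F] [IsAlgClosed F] [Normal K F]
  {τ : Type} [Fintype τ] [DecidableEq τ] (α : τ → F) [Hyp α] [IsDomain (RG (fP α))]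

theorem genBy_of_graph (hg : ∀ s : F ≃ₐ[K] F, (fP α).map ((s : F ≃+* F) : F →+* F) = fP α)
    (h3 : 2 < Fintype.card τ) {κ : Type} (a b : κ → τ) (hab : ∀ k, a k ≠ b k)
    (σ : κ → F ≃ₐ[K] F) (W : (F ≃ₐ[K] F) → Prop) (hW : ∀ s g, W s → W (g * s * g⁻¹))
    (hσ : ∀ k, SignsOn α (σ k) {a k, b k})
    (hχ : ∀ k, ∃ z, ((cyc K F (σ k) : ℤ_[2]ˣ) : ℤ_[2]) = 1 + 8 * z) (hWσ : ∀ k, W (σ k))
    (hc : ∀ x y, Relation.ReflTransGen (ConjEdge K α a b) x y) : GenBy K α W := by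
  refine ⟨κ × (F ≃ₐ[K] F), fun g => {prm α hg g.2 (a g.1), prm α hg g.2 (b g.1)},
    fun g => g.2 * σ g.1 * g.2⁻¹, ?_, fun g => ?_, fun g => ?_, fun g => hW _ _ (hWσ g.1)⟩
  · refine genSets_of_graph _ _
      (fun g h => hab g.1 ((prm α hg g.2).injective h)) h3
      fun x y => Relation.ReflTransGen.lift (fun x => x) (fun x y hxy => ?_) _ _ (hc x y)
    obtain ⟨k, g, hg1⟩ := hxy
    rw [prm_spec α hg, prm_spec α hg] at hg1
    refine ⟨(k, g), ?_⟩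
    rcases hg1 with ⟨h5, h6⟩ | ⟨h5, h6⟩
    · exact Or.inl ⟨Hyp.inj (α := α) h5, Hyp.inj (α := α) h6⟩
    · exact Or.inr ⟨Hyp.inj (α := α) h5, Hyp.inj (α := α) h6⟩
  · have h1 := (hσ g.1).conj hg g.2
    rwa [Finset.image_insert, Finset.image_singleton] at h1
  · obtain ⟨z, hz⟩ := hχ g.1
    refine ⟨z, ?_⟩
    rw [map_mul, map_mul, map_inv, mul_comm (Pool.Agent.N171.cyc K F g.2), mul_assoc,
      mul_inv_cancel, mul_one, hz]

theorem conj_four {A : Type*} [Ring A] [Algebra ℤ_[2] A] (t : (F ≃ₐ[K] F) →* A)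
    (s g : F ≃ₐ[K] F) (h : ∃ N, t s = 1 + (4 : ℤ_[2]) • N) :
    ∃ N, t (g * s * g⁻¹) = 1 + (4 : ℤ_[2]) • N := by
  obtain ⟨N, hN⟩ := h
  refine ⟨t g * N * t g⁻¹, ?_⟩
  rw [map_mul, map_mul, hN, mul_add, add_mul, mul_one, ← map_mul, mul_inv_cancel, map_one,
    mul_smul_comm, smul_mul_assoc]

theorem conj_signs {τ' : Type} [Fintype τ'] [DecidableEq τ'] {β : τ' → F} [Hyp β]
    (hg : ∀ s : F ≃ₐ[K] F, (fP β).map ((s : F ≃+* F) : F →+* F) = fP β)
    (s g : F ≃ₐ[K] F) (h : SignsOn β s ∅) : SignsOn β (g * s * g⁻¹) ∅ := by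
  have h1 := h.conj hg g
  rwa [Finset.image_empty] at h1

end

end Pool.Agent.H852.J
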