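import Mathlib
import Pool.Agent.H852.J.B10
import Pool.Agent.H852.J.P5

/-!
# Compositions of polynomials of odd prime degrees
-/

set_option linter.unusedSectionVars false
set_option autoImplicit false

open TensorProduct Polynomial Matrix Filter Topology Module NumberField IsDedekindDomain
open Pool.Agent.Y142.ZO (GK IsFrobenius)
open Pool.Agent.N171 Pool.Agent.N171.Al Pool.Agent.N171.Pm Pool.Agent.N171.Bg Pool.Agent.N171.TG
open Pool.Agent.Results.MP_640417_ag.HyperellipticEveryPrime

namespace Pool.Agent.H852.J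

/-- the compositions `g 0 ∘ g 1 ∘ ... ∘ g (n - 1)` -/
noncomputable def comps {K : Type} [Field K] (g : ℕ → K[X]) : ℕ → K[X]
  | 0 => X
  | n + 1 => (comps g n).comp (g n)

noncomputable section

section basics

variable {K : Type} [Field K] {g : ℕ → K[X]}

theorem comps_monic' (hm : ∀ n, (g n).Monic) (hp : ∀ n, (g n).natDegree ≠ 0) (n : ℕ) :
    (comps g n).Monic := by
  induction n with
  | zero => exact monic_X
  | succ n ih => exact ih.comp (hm n) (hp n)

theorem comps_monic (hm : ∀ n, (g n).Monic) (hp : ∀ n, (g n).natDegree.Prime) (n : ℕ) :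
    (comps g n).Monic := comps_monic' hm (fun n => (hp n).ne_zero) n

theorem comps_odd (hodd : ∀ n, Odd (g n).natDegree) (n : ℕ) : Odd (comps g n).natDegree := by
  induction n with
  | zero =>
    rw [comps, natDegree_X]
    exact odd_one
  | succ n ih =>
    rw [comps, natDegree_comp]
    exact ih.mul (hodd n)

theorem aeval_comps_succ {B : Type} [Field B] [Algebra K B] (n : ℕ) (x : B) :
    aeval x (comps g (n + 1)) = aeval (aeval x (g n)) (comps g n) := by
  rw [comps, aeval_comp]

end basics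

section main

variable {K : Type} [Field K] [NumberField K] (g : ℕ → K[X])

/-- the roots of the composition -/
abbrev Rt (n : ℕ) : Type := (comps g n).rootSet (AlgebraicClosure K)

/-- the roots of the composition as elements of the algebraic closure -/
abbrev rtA (n : ℕ) (x : Rt g n) : AlgebraicClosure K := x

/-- the conditions on the polynomials -/
structure CompHyp : Prop where
  monic : ∀ n, (g n).Monic
  deg : ∀ n, 3 ≤ (g n).natDegree
  odd : ∀ n, Odd (g n).natDegree
  sep : ∀ n, (comps g n).Separable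

variable {g}

theorem CompHyp.mon (h : CompHyp g) (n : ℕ) : (comps g n).Monic :=
  comps_monic' h.monic (fun n => by have := h.deg n; omega) n

theorem CompHyp.hypP (h : CompHyp g) (n : ℕ) : HypP (comps g n) where
  monic := h.mon n
  sep := h.sep n
  odd := comps_odd h.odd n
  two := two_ne_zero

theorem CompHyp.root (h : CompHyp g) (n : ℕ) (z : AlgebraicClosure K) :
    z ∈ (comps g n).rootSet (AlgebraicClosure K) ↔ aeval z (comps g n) = 0 := by
  rw [mem_rootSet]
  exact ⟨fun h1 => h1.2, fun h1 => ⟨(h.mon n).ne_zero, h1⟩⟩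

theorem CompHyp.down (h : CompHyp g) (n : ℕ) (x : Rt g (n + 1)) :
    aeval (x : AlgebraicClosure K) (g n) ∈ (comps g n).rootSet (AlgebraicClosure K) := by
  rw [h.root, ← aeval_comps_succ, ← h.root]
  exact x.2

theorem CompHyp.card (h : CompHyp g) (n : ℕ) :
    Fintype.card (Rt g n) = (comps g n).natDegree :=
  card_rootSet_eq_natDegree (h.sep n) (IsAlgClosed.splits _)

theorem CompHyp.hyp (h : CompHyp g) (n : ℕ) : Hyp (rtA g n) where
  inj := Subtype.val_injective
  odd := by
    rw [h.card]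
    exact comps_odd h.odd n
  two := two_ne_zero

theorem CompHyp.fP_eq (h : CompHyp g) (n : ℕ) :
    (comps g n).map (algebraMap K (AlgebraicClosure K)) = fP (rtA g n) := by
  classical
  have hsp : ((comps g n).map (algebraMap K (AlgebraicClosure K))).Splits := IsAlgClosed.splits _
  rw [hsp.eq_prod_roots_of_monic ((h.mon n).map _), fP]
  have h1 : ∏ x ∈ ((comps g n).aroots (AlgebraicClosure K)).toFinset, (X - C x) =
      ∏ x : (comps g n).rootSet (AlgebraicClosure K), (X - C (x : AlgebraicClosure K)) :=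
    Finset.prod_subtype _ (fun x => Iff.rfl) _
  rw [← h1, Finset.prod, Multiset.toFinset_val,
    Multiset.Nodup.dedup (nodup_roots (h.sep n).map)]

theorem CompHyp.comp (h : CompHyp g) (n : ℕ) :
    Comp (rtA g n) (rtA g (n + 1)) ((g n).map (algebraMap K (AlgebraicClosure K))) where
  monic := (h.monic n).map _
  deg := by
    rw [natDegree_map]
    have := h.deg n
    omega
  comp := by
    rw [← h.fP_eq, ← h.fP_eq, comps, Polynomial.map_comp]

/-- the map between the sets of roots -/
def CompHyp.dn (h : CompHyp g) (n : ℕ) (x : Rt g (n + 1)) : Rt g n :=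
  ⟨aeval (x : AlgebraicClosure K) (g n), h.down n x⟩

theorem CompHyp.hg (h : CompHyp g) (n : ℕ) (s : AlgebraicClosure K ≃ₐ[K] AlgebraicClosure K) :
    (fP (rtA g n)).map ((s : AlgebraicClosure K ≃+* AlgebraicClosure K) :
      AlgebraicClosure K →+* AlgebraicClosure K) = fP (rtA g n) := by
  rw [← h.fP_eq]
  exact rf_fix _ s

open Classical in
/-- **From links to all prime numbers.** -/
theorem everyPrime_of_links (h : CompHyp g) [hyp : ∀ n, Hyp (rtA g n)] {N : ℕ} (hN : 1 ≤ N)
    (htr : ∀ n ≤ N, ∀ x y : AlgebraicClosure K, aeval x (comps g n) = 0 →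
      aeval y (comps g n) = 0 → ∃ s : AlgebraicClosure K ≃ₐ[K] AlgebraicClosure K, s x = y)
    {d : ℕ} (τ : AbsoluteGaloisGroup K →* Matrix (Fin d) (Fin d) ℚ_[2]) (hτ : IsLattice τ)
    (t : GK K →* Matrix (Fin d) (Fin d) ℤ_[2]) (ht : IsLatOf t τ)
    (hl : ∀ m, 1 ≤ m → m ≤ N → ∃ σ s, LinkElt (rtA g) h.hg t N m σ s)
    (hpr : ∀ n < N, (g n).natDegree.Prime ∨ ∀ x y z : AlgebraicClosure K,
      aeval x (comps g (n + 1)) = 0 → aeval y (g n) = aeval x (g n) →
      aeval z (g n) = aeval x (g n) → y ≠ x → z ≠ x →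
      ∃ s : AlgebraicClosure K ≃ₐ[K] AlgebraicClosure K, s x = x ∧ s y = z) :
    EveryPrime (fun _ : Unit => comps g N) τ := by
  have h2F : (2 : AlgebraicClosure K) ≠ 0 := two_ne_zero
  have hdom : ∀ n, IsDomain (RG (fP (rtA g n))) := by
    intro n
    rw [← h.fP_eq]
    have := h.hypP n
    infer_instance
  have hc := h.comp
  have hdn : ∀ n a, ((g n).map (algebraMap K (AlgebraicClosure K))).eval (rtA g (n + 1) a) =
      rtA g n (h.dn n a) := by
    intro n a
    rw [eval_map_algebraMap]
    rfl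
  have hodd : ∀ n, Odd ((g n).map (algebraMap K (AlgebraicClosure K))).natDegree := by
    intro n
    rw [natDegree_map]
    exact h.odd n
  have hφ : ∀ n (s : AlgebraicClosure K ≃ₐ[K] AlgebraicClosure K),
      ((g n).map (algebraMap K (AlgebraicClosure K))).map
        ((s : AlgebraicClosure K ≃+* AlgebraicClosure K) :
          AlgebraicClosure K →+* AlgebraicClosure K) =
        (g n).map (algebraMap K (AlgebraicClosure K)) := fun n s => rf_fix _ s
  have h0 : ∀ x y : Rt g 0, x = y := by
    intro x y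
    have h3 : ∀ x : Rt g 0, (x : AlgebraicClosure K) = 0 := by
      intro x
      have h4 := (h.root 0 x).1 x.2
      change aeval (x : AlgebraicClosure K) X = 0 at h4
      rwa [aeval_X] at h4
    exact Subtype.ext (by rw [h3 x, h3 y])
  have hspec : ∀ n (s : AlgebraicClosure K ≃ₐ[K] AlgebraicClosure K) (x : Rt g n),
      ((prm (rtA g n) (h.hg n) s x : Rt g n) : AlgebraicClosure K) = s x := fun n s x =>
    (prm_spec (rtA g n) (h.hg n) s x).symm
  have hcard : ∀ n b, (pre (h.dn n) {b}).card = (g n).natDegree := by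
    intro n b
    have h3 := card_pre_one (h.dn n) (hdn n) b (hc n)
    rwa [natDegree_map] at h3
  have heqv : ∀ n (s : AlgebraicClosure K ≃ₐ[K] AlgebraicClosure K) (x : Rt g (n + 1)),
      h.dn n (prm (rtA g (n + 1)) (h.hg (n + 1)) s x) = prm (rtA g n) (h.hg n) s (h.dn n x) := by
    intro n s x
    apply Subtype.ext
    rw [hspec]
    change aeval ((prm (rtA g (n + 1)) (h.hg (n + 1)) s x : Rt g (n + 1)) : AlgebraicClosure K)
      (g n) = s (aeval (x : AlgebraicClosure K) (g n))
    rw [hspec]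
    exact Polynomial.aeval_algHom_apply (s : AlgebraicClosure K →ₐ[K] AlgebraicClosure K) _ _
  have htrans : ∀ n ≤ N, ∀ x y : Rt g n, ∃ s, prm (rtA g n) (h.hg n) s x = y := by
    intro n hn x y
    obtain ⟨s, hs⟩ := htr n hn x y ((h.root n x).1 x.2) ((h.root n y).1 y.2)
    exact ⟨s, Subtype.ext (by rw [hspec, hs])⟩
  have hT : Tower (rtA g) h.hg h.dn t N :=
    { eqv := heqv
      trans := htrans
      zero := h0
      prim := fun n hn => by
        rcases hpr n hn with h3 | h3
        · exact fibre_of_prime _ _ (htrans (n + 1) hn) fun b => by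
            rw [hcard]
            exact h3
        · refine primFib_of_two _ _ (htrans (n + 1) hn) (fun s x y hxy => by
            rw [heqv, heqv, hxy]) fun x y z hy hz hyx hzx => ?_
          obtain ⟨s, hs1, hs2⟩ := h3 x y z ((h.root (n + 1) x).1 x.2) (congrArg Subtype.val hy)
            (congrArg Subtype.val hz) (fun h4 => hyx (Subtype.ext h4))
            (fun h4 => hzx (Subtype.ext h4))
          exact ⟨s, Subtype.ext (by rw [hspec, hs1]), Subtype.ext (by rw [hspec, hs2])⟩
      card := fun n _ b => by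
        rw [hcard]
        exact h.deg n
      link := hl }
  have hfN : HypP (comps g N) := h.hypP N
  have hf : ∀ _ : Unit, HypP (comps g N) := fun _ => h.hypP N
  refine ⟨hf, fun S m w P Q hS hPQ hJ hτQ ℓ _ V M _ _ _ _ _ _ r χ s hr h2 => ?_⟩
  have h1 := hr.2
  obtain ⟨n, R, ⟨E, hE⟩, hRP⟩ := hJ
  have hR : Continuous R := Pool.Agent.N197.AP.t_CONT2 K (AlgebraicClosure K) Unit
    (fun _ => comps g N) (fun i x => Pool.Agent.N197.AP.t_CONT1 K (AlgebraicClosure K) (comps g N) x)
    n R E hE
  obtain ⟨E₁, hE₁⟩ := exists_decV (hg := h.hg) hc hdn h2F hodd hφ h0 N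
    ((comps g N).map (algebraMap K (AlgebraicClosure K))) (fun s => rf_fix _ s) (h.fP_eq N)
  have hpos : ∃ i : Fin N, 0 < finrank ℤ_[2] (nT hc h2F i) := by
    refine ⟨⟨0, hN⟩, ?_⟩
    have hn : Nontrivial (nT hc h2F 0) := by
      obtain ⟨σ, s, hls⟩ := hl 1 le_rfl hN
      obtain ⟨a, b, hab, hsab, -⟩ := hls.own
      have hfib : FibEven (h.dn 0) ({a, b} : Finset (Rt g 1)) := by
        intro c
        have h3 : pre (h.dn 0) {c} ∩ {a, b} = {a, b} := by
          ext x
          rw [Finset.mem_inter, mem_pre, Finset.mem_singleton, and_iff_right_iff_imp]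
          exact fun _ => h0 _ _
        rw [h3, Finset.card_pair hab]
        exact even_two
      obtain ⟨x, hx, hx1⟩ := exists_perp (hc 0) (h.dn 0) (hdn 0) h2F (hodd 0) hfib
      refine ⟨⟨⟨x, hx⟩, 0, fun h3 => ?_⟩⟩
      have h4 : x = 0 := congrArg Subtype.val h3
      rw [h4] at hx1
      have h5 : DS (ThG (rtA g 1)) ({a, b} : Finset (Rt g 1)) = 0 := hx1.symm
      have h6 := DS_inj (by rw [Finset.card_pair hab]; exact even_two) h5
      exact Finset.insert_ne_empty _ _ h6
    exact Module.finrank_pos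
  let E₂ : (Fin n → ℚ_[2]) ≃ₗ[ℚ_[2]] (∀ i : Fin N, ℚ_[2] ⊗[ℤ_[2]] nT hc h2F i) :=
    (E.trans (LinearEquiv.funUnique Unit ℚ_[2] (Vt (JacP (comps g N) (AlgebraicClosure K))))).trans
      E₁
  refine holds_of_lats (fun i : Fin N => nT hc h2F i) (fun i => nR h.hg hc h2F hφ i)
    (fun i => nB hc h2F i) (fun i x => newB_alt (hc i) h2F x)
    (fun i v hv => newB_nd (hc i) (h.dn i) (hdn i) h2F (hodd i) v hv)
    (fun i s x y => newB_act (hc i) h2F (h.hg i) (h.hg (i + 1)) (hφ i) s x y) hpos t τ hτ.1 ht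
    (fun X hX => tower_tan hc hdn h2F hodd hφ hT hX) S hS P Q (fun v hv z hz => ?_)
    (fun v hv z hz => (hPQ v hv).2 z hz) R hR E₂ (fun s x i => ?_) hRP (fun v hv hv2 σ hσ => ?_)
    ℓ V M r χ s hr.1
    (fun v hv hvℓ σ hσ => ⟨(h1 v hv hvℓ σ hσ).1, (h1 v hv hvℓ σ hσ).2, h2 v hv hvℓ σ hσ⟩)
  · have h3 := (hPQ v hv).1 z hz
    rwa [zpow_one] at h3
  · change E₁ (E (R s *ᵥ x) ()) i = _
    rw [hE]
    exact hE₁ s (E x ()) i
  · have h3 := hτQ v hv (by rwa [Nat.cast_ofNat]) σ hσ
    rw [← h3]
    exact (Matrix.charpoly_toLin' (τ σ⁻¹)).symm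

end main

end

end Pool.Agent.H852.J
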