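import Mathlib
import Pool.Agent.H852.J.B11

/-!
# Links from places
-/

set_option linter.unusedSectionVars false
set_option autoImplicit false

open Polynomial Module NumberField IsDedekindDomain
open Pool.Agent.Y142.ZO (GK IsFrobenius)
open Pool.Agent.N171 Pool.Agent.N171.Al Pool.Agent.N171.Pm Pool.Agent.N171.Bg Pool.Agent.N171.TG
open HeightOneSpectrum WithZero

namespace Pool.Agent.H852.J

noncomputable section

variable {K : Type} [Field K] [NumberField K] {g : ℕ → K[X]}

/-- a place at which exactly two roots of the level `m` collide, and no roots in one fibre at the other levels -/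
structure NodePlace (g : ℕ → K[X]) (N m : ℕ) (v : HeightOneSpectrum (𝓞 K)) : Prop where
  two : (2 : 𝓞 K) ∉ v.asIdeal
  int : ∀ n ≤ N, ∀ (M : IntermediateField K (AlgebraicClosure K)) [NumberField M] [Normal K M]
    (P : HeightOneSpectrum (𝓞 M)) [P.asIdeal.LiesOver v.asIdeal] (u : M),
    aeval u (comps g n) = 0 → P.valuation M u ≤ 1
  etale : ∀ n < N, n + 1 ≠ m → ∀ (M : IntermediateField K (AlgebraicClosure K)) [NumberField M]
    [Normal K M] (P : HeightOneSpectrum (𝓞 M)) [P.asIdeal.LiesOver v.asIdeal] (u u' : M),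
    aeval u (comps g (n + 1)) = 0 → aeval u (g n) = aeval u' (g n) → u ≠ u' →
    P.valuation M (u - u') = 1
  node : ∀ (M : IntermediateField K (AlgebraicClosure K)) [NumberField M] [Normal K M]
    (P : HeightOneSpectrum (𝓞 M)) [P.asIdeal.LiesOver v.asIdeal],
    (∀ n ≤ N, ∀ x : AlgebraicClosure K, aeval x (comps g n) = 0 → x ∈ M) →
    ∃ (a b : M) (c : K), aeval a (comps g m) = 0 ∧ aeval b (comps g m) = 0 ∧ a ≠ b ∧
      (∀ (u u' : M), aeval u (comps g m) = 0 → aeval u' (comps g m) = 0 → u ≠ u' →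
        ¬ ((u = a ∨ u = b) ∧ (u' = a ∨ u' = b)) → P.valuation M (u - u') = 1) ∧
      Odd (log (v.valuation K c)) ∧
      P.valuation M (a - b) ^ 2 = P.valuation M (algebraMap K M c)

section field

variable (M : IntermediateField K (AlgebraicClosure K)) [NumberField M] [Normal K M]
  (v : HeightOneSpectrum (𝓞 K)) (P : HeightOneSpectrum (𝓞 M)) [P.asIdeal.LiesOver v.asIdeal]
  {N m : ℕ} (h : CompHyp g) [hyp : ∀ n, Hyp (rtA g n)]
  (hM : ∀ n ≤ N, ∀ x : AlgebraicClosure K, aeval x (comps g n) = 0 → x ∈ M)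

/-- the roots as elements of `M` -/
def eM (h : CompHyp g) (hM : ∀ n ≤ N, ∀ x : AlgebraicClosure K, aeval x (comps g n) = 0 → x ∈ M)
    (n : ℕ) (hn : n ≤ N) (x : Rt g n) : M := ⟨x, hM n hn x ((h.root n x).1 x.2)⟩

theorem eM_coe (n : ℕ) (hn : n ≤ N) (x : Rt g n) :
    ((eM M h hM n hn x : M) : AlgebraicClosure K) = x := rfl

theorem eM_inj (n : ℕ) (hn : n ≤ N) {x y : Rt g n} (hxy : eM M h hM n hn x = eM M h hM n hn y) :
    x = y := Subtype.ext (congrArg (fun z : M => (z : AlgebraicClosure K)) hxy)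

theorem eM_root (n : ℕ) (hn : n ≤ N) (x : Rt g n) : aeval (eM M h hM n hn x) (comps g n) = 0 := by
  rw [aeval_coe, eM_coe]
  exact (h.root n x).1 x.2

theorem aeval_eM (n : ℕ) (hn : n < N) (x : Rt g (n + 1)) :
    aeval (eM M h hM (n + 1) hn x) (g n) = eM M h hM n hn.le (h.dn n x) := by
  apply Subtype.ext
  have h2 := Polynomial.aeval_algHom_apply M.val (eM M h hM (n + 1) hn x) (g n)
  exact h2.symm

open Classical in
/-- the product formula -/
theorem prod_fib (n : ℕ) (hn : n < N) (c : Rt g n) (u : M) :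
    aeval u (g n) - eM M h hM n hn.le c =
      ∏ x ∈ pre (h.dn n) {c}, (u - eM M h hM (n + 1) hn x) := by
  have hdn : ∀ a, ((g n).map (algebraMap K (AlgebraicClosure K))).eval (rtA g (n + 1) a) =
      rtA g n (h.dn n a) := by
    intro a
    rw [eval_map_algebraMap]
    rfl
  have h1 := sub_C_eq (h.comp n) c
  rw [fib_eq (h.dn n) hdn c] at h1
  have h3 := congrArg (fun p => p.eval (u : AlgebraicClosure K)) h1
  simp only [eval_sub, eval_C, eval_prod, eval_X, eval_map_algebraMap] at h3
  apply Subtype.ext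
  have h2 := Polynomial.aeval_algHom_apply M.val u (g n)
  have h4 : ((aeval u (g n) - eM M h hM n hn.le c : M) : AlgebraicClosure K) =
      aeval (u : AlgebraicClosure K) (g n) - rtA g n c := by
    change ((aeval u (g n) : M) : AlgebraicClosure K) - rtA g n c = _
    congr 1
    exact h2.symm
  rw [h4, h3]
  have h5 : ((∏ x ∈ pre (h.dn n) {c}, (u - eM M h hM (n + 1) hn x) : M) : AlgebraicClosure K) =
      M.val (∏ x ∈ pre (h.dn n) {c}, (u - eM M h hM (n + 1) hn x)) := rfl
  rw [h5, map_prod]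
  rfl

variable {v}

include h hM in
theorem fib_le (hint : ∀ n ≤ N, ∀ (u : M), aeval u (comps g n) = 0 → P.valuation M u ≤ 1)
    (n : ℕ) (hn : n < N) (x y : Rt g (n + 1)) :
    P.valuation M (eM M h hM n hn.le (h.dn n y) - eM M h hM n hn.le (h.dn n x)) ≤
      P.valuation M (eM M h hM (n + 1) hn y - eM M h hM (n + 1) hn x) := by
  classical
  rw [← aeval_eM M h hM n hn y, prod_fib M h hM n hn (h.dn n x), map_prod]
  have hx : x ∈ pre (h.dn n) {h.dn n x} := by
    rw [mem_pre]
    exact Finset.mem_singleton_self _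
  rw [← Finset.mul_prod_erase _ _ hx]
  refine mul_le_of_le_one_right' (Finset.prod_le_one' fun z _ => ?_)
  exact (Valuation.map_sub _ _ _).trans (max_le (hint _ hn _ (eM_root M h hM _ hn y))
    (hint _ hn _ (eM_root M h hM _ hn z)))

include h hM in
theorem fib_eq_of_lt (n : ℕ) (hn : n < N) (x y : Rt g (n + 1))
    (het : ∀ z : Rt g (n + 1), h.dn n z = h.dn n x → z ≠ x →
      P.valuation M (eM M h hM (n + 1) hn z - eM M h hM (n + 1) hn x) = 1)
    (hlt : P.valuation M (eM M h hM (n + 1) hn y - eM M h hM (n + 1) hn x) < 1) :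
    P.valuation M (eM M h hM n hn.le (h.dn n y) - eM M h hM n hn.le (h.dn n x)) =
      P.valuation M (eM M h hM (n + 1) hn y - eM M h hM (n + 1) hn x) := by
  classical
  rw [← aeval_eM M h hM n hn y, prod_fib M h hM n hn (h.dn n x), map_prod]
  have hx : x ∈ pre (h.dn n) {h.dn n x} := by
    rw [mem_pre]
    exact Finset.mem_singleton_self _
  rw [← Finset.mul_prod_erase _ _ hx, Finset.prod_eq_one, mul_one]
  intro z hz
  rw [Finset.mem_erase, mem_pre, Finset.mem_singleton] at hz
  have h1 := het z hz.2 hz.1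
  have h2 : eM M h hM (n + 1) hn y - eM M h hM (n + 1) hn z =
      (eM M h hM (n + 1) hn y - eM M h hM (n + 1) hn x) -
        (eM M h hM (n + 1) hn z - eM M h hM (n + 1) hn x) := by ring
  rw [h2, Valuation.map_sub_eq_of_lt_right _ (by rw [h1]; exact hlt), h1]

end field

end

end Pool.Agent.H852.J
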