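import Mathlib
import Pool.Agent.H852.J.B12

/-!
# Links from places: the inertia group
-/

set_option linter.unusedSectionVars false
set_option autoImplicit false

open Polynomial Module NumberField IsDedekindDomain
open Pool.Agent.Y142.ZO (GK IsFrobenius)
open Pool.Agent.N171 Pool.Agent.N171.Al Pool.Agent.N171.Pm Pool.Agent.N171.Bg Pool.Agent.N171.TG
open HeightOneSpectrum WithZero

namespace Pool.Agent.H852.J

noncomputable section

variable {K : Type} [Field K] [NumberField K] {g : ℕ → K[X]}

section field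

variable (M : IntermediateField K (AlgebraicClosure K)) [NumberField M] [Normal K M]
  (v : HeightOneSpectrum (𝓞 K)) (P : HeightOneSpectrum (𝓞 M)) [P.asIdeal.LiesOver v.asIdeal]
  {N m : ℕ} (h : CompHyp g) [hyp : ∀ n, Hyp (rtA g n)]
  (hM : ∀ n ≤ N, ∀ x : AlgebraicClosure K, aeval x (comps g n) = 0 → x ∈ M)

open Classical in
/-- the permutation of the roots given by an automorphism of `M` -/
def pM (s : M ≃ₐ[K] M) (n : ℕ) : Equiv.Perm (Rt g n) :=
  prm (rtA g n) (h.hg n) (s.liftNormal (AlgebraicClosure K))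

theorem pM_spec (s : M ≃ₐ[K] M) (n : ℕ) (hn : n ≤ N) (x : Rt g n) :
    s (eM M h hM n hn x) = eM M h hM n hn (pM M h s n x) := by
  classical
  apply Subtype.ext
  have h1 := prm_spec (rtA g n) (h.hg n) (s.liftNormal (AlgebraicClosure K)) x
  have h2 : (s.liftNormal (AlgebraicClosure K)) ((eM M h hM n hn x : M) : AlgebraicClosure K) =
      ((s (eM M h hM n hn x) : M) : AlgebraicClosure K) :=
    s.liftNormal_commutes (AlgebraicClosure K) (eM M h hM n hn x)
  rw [← h2]
  exact h1

include hM in
theorem pM_dn (s : M ≃ₐ[K] M) (n : ℕ) (hn : n < N) (x : Rt g (n + 1)) :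
    h.dn n (pM M h s (n + 1) x) = pM M h s n (h.dn n x) := by
  apply eM_inj M h hM n hn.le
  rw [← pM_spec M h hM s n hn.le, ← aeval_eM M h hM n hn, ← aeval_eM M h hM n hn,
    ← pM_spec M h hM s (n + 1) hn]
  exact Polynomial.aeval_algHom_apply (s : M →ₐ[K] M) _ _

variable {v P} (hv : NodePlace g N m v)

include hv in
theorem lowM (hmN : m ≤ N) (n : ℕ) (hn : n < m) (x y : Rt g n) (hxy : x ≠ y) :
    P.valuation M (eM M h hM n (by omega) x - eM M h hM n (by omega) y) = 1 := by
  have hint : ∀ n ≤ N, ∀ (u : M), aeval u (comps g n) = 0 → P.valuation M u ≤ 1 :=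
    fun n hn u hu => hv.int n hn M P u hu
  induction n with
  | zero =>
    exfalso
    apply hxy
    have h3 : ∀ x : Rt g 0, (x : AlgebraicClosure K) = 0 := by
      intro x
      have h4 := (h.root 0 x).1 x.2
      change aeval (x : AlgebraicClosure K) X = 0 at h4
      rwa [aeval_X] at h4
    exact Subtype.ext (by rw [h3 x, h3 y])
  | succ n ih =>
    have hnN : n < N := by omega
    by_cases hd : h.dn n x = h.dn n y
    · refine hv.etale n hnN (by omega) M P _ _ (eM_root M h hM _ hnN x) ?_
        (fun h1 => hxy (eM_inj M h hM _ hnN h1))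
      rw [aeval_eM M h hM n hnN, aeval_eM M h hM n hnN, hd]
    · have h1 := ih (by omega) _ _ hd
      have h2 := fib_le M P h hM hint n hnN y x
      rw [h1] at h2
      refine le_antisymm ?_ h2
      exact (Valuation.map_sub _ _ _).trans (max_le (hint _ hnN _ (eM_root M h hM _ hnN x))
        (hint _ hnN _ (eM_root M h hM _ hnN y)))

include hM hv in
theorem inert_low (hmN : m ≤ N) {s : M ≃ₐ[K] M} (hs : Inert P s) (n : ℕ) (hn : n < m)
    (x : Rt g n) : pM M h s n x = x := by
  have hnN : n ≤ N := by omega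
  apply eM_inj M h hM n hnN
  rw [← pM_spec M h hM s n hnN]
  refine inert_eq hs (hv.int n hnN M P _ (eM_root M h hM n hnN x)) fun h1 => ?_
  rw [pM_spec M h hM s n hnN] at h1 ⊢
  exact lowM M h hM hv hmN n hn _ _ fun h2 => h1 (by rw [h2])

include hM hv in
theorem inert_up {s : M ≃ₐ[K] M} (hs : Inert P s) (n : ℕ) (hn : n < N) (hnm : n + 1 ≠ m)
    (x : Rt g (n + 1)) (hx : pM M h s n (h.dn n x) = h.dn n x) : pM M h s (n + 1) x = x := by
  apply eM_inj M h hM (n + 1) hn
  rw [← pM_spec M h hM s (n + 1) hn]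
  refine inert_eq hs (hv.int (n + 1) hn M P _ (eM_root M h hM (n + 1) hn x)) fun h1 => ?_
  refine hv.etale n hn hnm M P _ _ ?_ ?_ h1
  · rw [pM_spec M h hM s (n + 1) hn]
    exact eM_root M h hM _ hn _
  · rw [pM_spec M h hM s (n + 1) hn, aeval_eM M h hM n hn, aeval_eM M h hM n hn,
      pM_dn M h hM s n hn, hx]

include hv in
theorem inert_level (hmN : m ≤ N) {s : M ≃ₐ[K] M} (hs : Inert P s) {a b : Rt g m}
    (hab : ∀ x y : Rt g m, x ≠ y → ¬ ((x = a ∨ x = b) ∧ (y = a ∨ y = b)) →
      P.valuation M (eM M h hM m hmN x - eM M h hM m hmN y) = 1) (x : Rt g m)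
    (hx : pM M h s m x ≠ x) : (pM M h s m x = a ∨ pM M h s m x = b) ∧ (x = a ∨ x = b) := by
  by_contra hcon
  have h1 := val_smul hs _ (hv.int m hmN M P _ (eM_root M h hM m hmN x))
  rw [pM_spec M h hM s m hmN, hab _ _ hx hcon] at h1
  exact lt_irrefl _ h1

include hM hv in
theorem inert_all (hmN : m ≤ N) {s : M ≃ₐ[K] M} (hs : Inert P s)
    (hm : ∀ x : Rt g m, pM M h s m x = x) (n : ℕ) (hn : n ≤ N) (x : Rt g n) :
    pM M h s n x = x := by
  rcases lt_or_ge n m with h1 | h1
  · exact inert_low M h hM hv hmN hs n h1 x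
  · obtain ⟨k, rfl⟩ := Nat.exists_eq_add_of_le h1
    clear h1
    induction k with
    | zero => exact hm x
    | succ k ih =>
      exact inert_up M h hM hv hs (m + k) (by omega) (by omega) x (ih (by omega) _)

include hv in
/-- the residues of the roots -/
theorem inert_val (hmN : m ≤ N) {s : M ≃ₐ[K] M} (hs : Inert P s) {a b : Rt g m} (hne : a ≠ b)
    (hab : ∀ x y : Rt g m, x ≠ y → ¬ ((x = a ∨ x = b) ∧ (y = a ∨ y = b)) →
      P.valuation M (eM M h hM m hmN x - eM M h hM m hmN y) = 1)
    (hsa : pM M h s m a = b) (hsb : pM M h s m b = a)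
    (hodd : Odd (log (P.valuation M (eM M h hM m hmN a - eM M h hM m hmN b))))
    (n : ℕ) (hn : n ≤ N) (x y : Rt g n) (hxy : x ≠ y) :
    (y = pM M h s n x → Odd (log (P.valuation M (eM M h hM n hn x - eM M h hM n hn y)))) ∧
      (y ≠ pM M h s n x → P.valuation M (eM M h hM n hn x - eM M h hM n hn y) = 1) := by
  have hint : ∀ n ≤ N, ∀ (u : M), aeval u (comps g n) = 0 → P.valuation M u ≤ 1 :=
    fun n hn u hu => hv.int n hn M P u hu
  rcases lt_or_ge n m with h1 | h1
  · refine ⟨fun h2 => ?_, fun _ => lowM M h hM hv hmN n h1 x y hxy⟩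
    rw [inert_low M h hM hv hmN hs n h1] at h2
    exact absurd h2.symm hxy
  · obtain ⟨k, rfl⟩ := Nat.exists_eq_add_of_le h1
    clear h1
    induction k with
    | zero =>
      change Rt g m at x y
      constructor
      · rintro h2
        change y = pM M h s m x at h2
        have h3 := inert_level M h hM hv hmN hs hab x (by rw [← h2]; exact Ne.symm hxy)
        rcases h3.2 with h4 | h4
        · rw [h4, hsa] at h2
          subst h4
          subst h2
          exact hodd
        · rw [h4, hsb] at h2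
          subst h4
          subst h2
          rw [Valuation.map_sub_swap] at hodd
          exact hodd
      · intro h2
        change y ≠ pM M h s m x at h2
        refine hab x y hxy fun h3 => h2 ?_
        rcases h3 with ⟨rfl | rfl, rfl | rfl⟩
        · exact absurd rfl hxy
        · exact hsa.symm
        · exact hsb.symm
        · exact absurd rfl hxy
    | succ k ih =>
      have hnN : m + k < N := by omega
      change Rt g (m + k + 1) at x y
      have het : ∀ x y : Rt g (m + k + 1), h.dn (m + k) x = h.dn (m + k) y → x ≠ y →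
          P.valuation M (eM M h hM (m + k + 1) hn x - eM M h hM (m + k + 1) hn y) = 1 := by
        intro x y hd hne
        refine hv.etale (m + k) hnN (by omega) M P _ _ (eM_root M h hM _ hn x) ?_
          (fun h1 => hne (eM_inj M h hM _ hn h1))
        rw [aeval_eM M h hM _ hnN, aeval_eM M h hM _ hnN, hd]
      have hdn := pM_dn M h hM s (m + k) hnN
      by_cases hd : h.dn (m + k) x = h.dn (m + k) y
      · refine ⟨fun h2 => ?_, fun _ => het x y hd hxy⟩
        change y = pM M h s (m + k + 1) x at h2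
        exfalso
        have h3 : pM M h s (m + k) (h.dn (m + k) x) = h.dn (m + k) x := by
          rw [← hdn, ← h2, hd]
        have h4 := inert_up M h hM hv hs (m + k) hnN (by omega) x h3
        rw [h4] at h2
        exact hxy h2.symm
      · obtain ⟨i1, i2⟩ := ih hnN.le (h.dn (m + k) x) (h.dn (m + k) y) hd
        by_cases hc : h.dn (m + k) y = pM M h s (m + k) (h.dn (m + k) x)
        · have hlt : P.valuation M (eM M h hM (m + k + 1) hn (pM M h s (m + k + 1) x) -
              eM M h hM (m + k + 1) hn x) < 1 := by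
            rw [← pM_spec M h hM s (m + k + 1) hn]
            exact val_smul hs _ (hint _ hn _ (eM_root M h hM _ hn x))
          refine ⟨fun h2 => ?_, fun h2 => ?_⟩
          · change y = pM M h s (m + k + 1) x at h2
            have h3 := i1 hc
            rw [Valuation.map_sub_swap, fib_eq_of_lt M P h hM (m + k) hnN x y
              (fun z hz hzx => het z x hz hzx) (by rw [h2]; exact hlt),
              Valuation.map_sub_swap] at h3
            exact h3
          · change y ≠ pM M h s (m + k + 1) x at h2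
            have h3 := het (pM M h s (m + k + 1) x) y (by rw [hdn, hc]) (Ne.symm h2)
            have h4 : eM M h hM (m + k + 1) hn x - eM M h hM (m + k + 1) hn y =
                (eM M h hM (m + k + 1) hn (pM M h s (m + k + 1) x) -
                  eM M h hM (m + k + 1) hn y) -
                (eM M h hM (m + k + 1) hn (pM M h s (m + k + 1) x) -
                  eM M h hM (m + k + 1) hn x) := by ring
            change P.valuation M (eM M h hM (m + k + 1) hn x - eM M h hM (m + k + 1) hn y) = 1
            rw [h4, Valuation.map_sub_eq_of_lt_left _ (by rw [h3]; exact hlt), h3]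
        · have h3 := i2 hc
          refine ⟨fun h2 => ?_, fun _ => ?_⟩
          · change y = pM M h s (m + k + 1) x at h2
            exact absurd (by rw [h2, hdn]) hc
          · have h4 := fib_le M P h hM hint (m + k) hnN y x
            rw [h3] at h4
            refine le_antisymm ?_ h4
            exact (Valuation.map_sub _ _ _).trans (max_le (hint _ hn _ (eM_root M h hM _ hn x))
              (hint _ hn _ (eM_root M h hM _ hn y)))

end field

open Classical in
/-- **A link from a place.** -/
theorem link_of_place (h : CompHyp g) [hyp : ∀ n, Hyp (rtA g n)] {N m : ℕ} (hmN : m ≤ N)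
    {v : HeightOneSpectrum (𝓞 K)} (hv : NodePlace g N m v) {A : Type*} [Ring A] [Algebra ℤ_[2] A]
    (t : GK K →* A) (ht : UnramifiedModFour v t) :
    ∃ σ s, LinkElt (rtA g) h.hg t N m σ s := by
  have h2 : (2 : AlgebraicClosure K) ≠ 0 := two_ne_zero
  obtain ⟨Nz, hN1, hN2, hN3, hN4⟩ := ht
  let R : Set (AlgebraicClosure K) := {z | ∃ n ≤ N, aeval z (comps g n) = 0}
  have hRfin : R.Finite := by
    have h1 : R ⊆ ⋃ n : Fin (N + 1), (comps g n).rootSet (AlgebraicClosure K) := by
      rintro z ⟨n, hn, hz⟩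
      exact Set.mem_iUnion.2 ⟨⟨n, by omega⟩, (h.root n z).2 hz⟩
    exact (Set.finite_iUnion fun n : Fin (N + 1) => rootSet_finite _ _).subset h1
  have hRst : ∀ (σ : AlgebraicClosure K ≃ₐ[K] AlgebraicClosure K), ∀ x ∈ R, σ x ∈ R := by
    rintro σ x ⟨n, hn, hx⟩
    exact ⟨n, hn, map_root σ _ hx⟩
  let M : IntermediateField K (AlgebraicClosure K) := Nz ⊔ IntermediateField.adjoin K R
  have hNM : Nz ≤ M := le_sup_left
  have hRM : ∀ z ∈ R, z ∈ M := fun z hz =>
    (le_sup_right : _ ≤ M) (IntermediateField.subset_adjoin K R hz)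
  have hfdN : FiniteDimensional K Nz := Module.Finite.of_restrictScalars_finite ℚ K Nz
  have hfdR : FiniteDimensional K (IntermediateField.adjoin K R) := by
    have := hRfin.to_subtype
    exact IntermediateField.finiteDimensional_adjoin
      fun z _ => Normal.isIntegral (F := K) inferInstance z
  have hfdM : FiniteDimensional K M := IntermediateField.finiteDimensional_sup _ _
  have hnM : NumberField M := NumberField.of_module_finite K M
  have hnR : Normal K (IntermediateField.adjoin K R) := normal_adjoin R hRst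
  have hnormM : Normal K M := IntermediateField.normal_sup K (AlgebraicClosure K) _ _
  obtain ⟨P, hP⟩ := exists_place_above (M := M) v
  have hM : ∀ n ≤ N, ∀ x : AlgebraicClosure K, aeval x (comps g n) = 0 → x ∈ M :=
    fun n hn x hx => hRM x ⟨n, hn, hx⟩
  obtain ⟨a', b', c, ha, hb, hne', hab', hc, hsq⟩ := hv.node M P hM
  -- the pair
  obtain ⟨a, rfl⟩ : ∃ a : Rt g m, eM M h hM m hmN a = a' :=
    ⟨⟨a', (h.root m _).2 ((aeval_coe _ _).1 ha)⟩, rfl⟩
  obtain ⟨b, rfl⟩ : ∃ b : Rt g m, eM M h hM m hmN b = b' :=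
    ⟨⟨b', (h.root m _).2 ((aeval_coe _ _).1 hb)⟩, rfl⟩
  have hne : a ≠ b := fun h1 => hne' (by rw [h1])
  have hab : ∀ x y : Rt g m, x ≠ y → ¬ ((x = a ∨ x = b) ∧ (y = a ∨ y = b)) →
      P.valuation M (eM M h hM m hmN x - eM M h hM m hmN y) = 1 := by
    intro x y hxy hn
    refine hab' _ _ (eM_root M h hM m hmN x) (eM_root M h hM m hmN y)
      (fun h1 => hxy (eM_inj M h hM m hmN h1)) fun h1 => hn ?_
    exact ⟨h1.1.imp (eM_inj M h hM m hmN) (eM_inj M h hM m hmN),
      h1.2.imp (eM_inj M h hM m hmN) (eM_inj M h hM m hmN)⟩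
  -- the inertia group
  let algNM : Algebra Nz M := (IntermediateField.inclusion hNM).toRingHom.toAlgebra
  have towNM : IsScalarTower K Nz M := IsScalarTower.of_algebraMap_eq fun x => rfl
  have hgN : IsGalois K Nz := ⟨⟩
  have hgM : IsGalois K M := ⟨⟩
  have hfixN : ∀ s : M ≃ₐ[K] M, Inert P s → ∀ z ∈ Nz,
      s.liftNormal (AlgebraicClosure K) z = z := by
    intro s hs z hz
    have h3 := inert_fix (N := Nz) v P hN3 hs ⟨z, hz⟩
    have h4 : (s.liftNormal (AlgebraicClosure K)) ((algebraMap Nz M ⟨z, hz⟩ : M) :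
        AlgebraicClosure K) = ((s (algebraMap Nz M ⟨z, hz⟩) : M) : AlgebraicClosure K) :=
      s.liftNormal_commutes (AlgebraicClosure K) (algebraMap Nz M ⟨z, hz⟩)
    rw [h3] at h4
    exact h4
  have hext : ∀ s : M ≃ₐ[K] M, Inert P s → pM M h s m a = a → s = 1 := by
    intro s hs hsa
    have h3 : ∀ x, pM M h s m x = x := by
      intro x
      by_contra hx
      obtain ⟨h4, h5⟩ := inert_level M h hM hv hmN hs hab x hx
      rcases h5 with rfl | rfl
      · exact hx hsa
      · rcases h4 with h6 | h6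
        · rw [← hsa] at h6
          exact hne ((pM M h s m).injective h6).symm
        · exact hx h6
    have h4 := inert_all M h hM hv hmN hs h3
    have h5 : ∀ z ∈ Nz ⊔ IntermediateField.adjoin K R, s.liftNormal (AlgebraicClosure K) z = z := by
      refine fix_sup _ Nz R (hfixN s hs) ?_
      rintro z ⟨n, hn, hz⟩
      have h6 := prm_spec (rtA g n) (h.hg n) (s.liftNormal (AlgebraicClosure K))
        ⟨z, (h.root n z).2 hz⟩
      have h7 := h4 n hn ⟨z, (h.root n z).2 hz⟩
      change prm (rtA g n) (h.hg n) (s.liftNormal (AlgebraicClosure K))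
        ⟨z, (h.root n z).2 hz⟩ = _ at h7
      rw [h7] at h6
      exact h6
    ext z
    have h6 : (s.liftNormal (AlgebraicClosure K)) (z : AlgebraicClosure K) =
        ((s z : M) : AlgebraicClosure K) := s.liftNormal_commutes (AlgebraicClosure K) z
    rw [h5 z z.2] at h6
    exact congrArg Subtype.val (Subtype.ext h6.symm : s z = z)
  have hswap : ∀ s : M ≃ₐ[K] M, Inert P s → s ≠ 1 → pM M h s m a = b ∧ pM M h s m b = a := by
    intro s hs hs1
    have h3 : pM M h s m a ≠ a := fun h4 => hs1 (hext s hs h4)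
    have h4 : pM M h s m a = b :=
      (inert_level M h hM hv hmN hs hab a h3).1.resolve_left h3
    refine ⟨h4, ?_⟩
    have h5 : pM M h s m b ≠ b := by
      intro h6
      rw [← h4] at h6
      exact h3 ((pM M h s m).injective h6)
    exact (inert_level M h hM hv hmN hs hab b h5).1.resolve_right h5
  have hpmul : ∀ s s' : M ≃ₐ[K] M, ∀ x : Rt g m,
      pM M h (s * s') m x = pM M h s m (pM M h s' m x) := by
    intro s s' x
    apply eM_inj M h hM m hmN
    rw [← pM_spec M h hM, ← pM_spec M h hM, ← pM_spec M h hM]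
    rfl
  have hmul : ∀ s s' : M ≃ₐ[K] M, Inert P s → Inert P s' → Inert P (s * s') := by
    intro s s' hs hs'
    have h4 : s * s' ∈ P.asIdeal.inertia (M ≃ₐ[K] M) := Subgroup.mul_mem _ hs hs'
    exact h4
  have huniq : ∀ s s' : M ≃ₐ[K] M, Inert P s → Inert P s' → s ≠ 1 → s' ≠ 1 → s * s' = 1 := by
    intro s s' hs hs' h1 h1'
    refine hext _ (hmul s s' hs hs') ?_
    rw [hpmul, (hswap s' hs' h1').1, (hswap s hs h1).2]
  have hcardI : ∃ s : M ≃ₐ[K] M, Inert P s ∧ s ≠ 1 ∧
      Odd (log (P.valuation M (eM M h hM m hmN a - eM M h hM m hmN b))) := by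
    have hval := val_eq_pow_card v P c
    rw [← hsq] at hval
    have hx0 : P.valuation M (eM M h hM m hmN a - eM M h hM m hmN b) ≠ 0 := by
      rw [Valuation.ne_zero_iff]
      exact sub_ne_zero.2 hne'
    have hlog : 2 * log (P.valuation M (eM M h hM m hmN a - eM M h hM m hmN b)) =
        (Nat.card (P.asIdeal.inertia (M ≃ₐ[K] M)) : ℤ) * log (v.valuation K c) := by
      have h3 := congrArg log hval
      rw [log_pow, log_pow] at h3
      simpa using h3
    by_cases hI : ∃ s : M ≃ₐ[K] M, Inert P s ∧ s ≠ 1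
    · obtain ⟨s, hs, hs1⟩ := hI
      refine ⟨s, hs, hs1, ?_⟩
      have hcard : Nat.card (P.asIdeal.inertia (M ≃ₐ[K] M)) = 2 := by
        have h3 : ∀ x : P.asIdeal.inertia (M ≃ₐ[K] M), x = 1 ∨ x = ⟨s, hs⟩ := by
          rintro ⟨x, hx⟩
          by_cases hx1 : x = 1
          · exact Or.inl (Subtype.ext hx1)
          · right
            apply Subtype.ext
            have h4 := huniq x s hx hs hx1 hs1
            have h5 := huniq s s hs hs hs1 hs1
            exact mul_right_cancel (h4.trans h5.symm)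
        have h4 : (1 : P.asIdeal.inertia (M ≃ₐ[K] M)) ≠ ⟨s, hs⟩ := fun h5 =>
          hs1 (congrArg Subtype.val h5).symm
        rw [Nat.card_eq_two_iff]
        refine ⟨1, ⟨s, hs⟩, h4, ?_⟩
        ext x
        simp only [Set.mem_insert_iff, Set.mem_singleton_iff, Set.mem_univ, iff_true]
        exact h3 x
      rw [hcard] at hlog
      push_cast at hlog
      have h3 : log (P.valuation M (eM M h hM m hmN a - eM M h hM m hmN b)) =
          log (v.valuation K c) := by omega
      rw [h3]
      exact hc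
    · exfalso
      push Not at hI
      have hcard : Nat.card (P.asIdeal.inertia (M ≃ₐ[K] M)) = 1 := by
        have h1 : P.asIdeal.inertia (M ≃ₐ[K] M) = ⊥ := by
          rw [eq_bot_iff]
          intro s hs
          exact hI s hs
        rw [h1, Subgroup.card_bot]
      rw [hcard] at hlog
      push_cast at hlog
      obtain ⟨e, he⟩ := hc
      omega
  obtain ⟨s, hs, hs1, hodd⟩ := hcardI
  obtain ⟨hsa, hsb⟩ := hswap s hs hs1
  have hres := inert_val M h hM hv hmN hs hne hab hsa hsb hodd
  have hss : s * s = 1 := huniq s s hs hs hs1 hs1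
  have hval2 : P.valuation M (2 : M) = 1 := by
    have h3 : (2 : M) = algebraMap (𝓞 M) M 2 := by rw [map_ofNat]
    refine le_antisymm (by rw [h3]; exact P.valuation_le_one _) (not_lt.1 fun h4 => ?_)
    rw [h3, valuation_lt_one_iff_mem] at h4
    apply hv.two
    rw [hP.over]
    change algebraMap (𝓞 K) (𝓞 M) 2 ∈ P.asIdeal
    rwa [map_ofNat]
  let d : (Σ n : Fin (N + 1), Rt g n × Rt g n) → Mˣ := fun p =>
    if h1 : eM M h hM p.1 (by omega) p.2.1 - eM M h hM p.1 (by omega) p.2.2 = 0
    then 1 else Units.mk0 _ h1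
  have hd : ∀ (n : ℕ) (hn : n ≤ N) (x y : Rt g n), x ≠ y →
      (d ⟨⟨n, by omega⟩, (x, y)⟩ : M) = eM M h hM n hn x - eM M h hM n hn y := by
    intro n hn x y hxy
    have h1 : eM M h hM n hn x - eM M h hM n hn y ≠ 0 := fun h3 =>
      hxy (eM_inj M h hM n hn (sub_eq_zero.1 h3))
    change ((if h1 : eM M h hM n hn x - eM M h hM n hn y = 0 then (1 : Mˣ) else
      Units.mk0 _ h1 : Mˣ) : M) = _
    rw [dif_neg h1]
    rfl
  obtain ⟨σ, h4, h5, h6⟩ := exists_sigma_M h2 M (par (P.valuation M)) (par_neg_one _)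
    (fun u hu => par_of_one _ u (by rw [hu, hval2])) d
  refine ⟨σ, s.liftNormal (AlgebraicClosure K), ⟨fun n hn => ⟨fun x => ?_, fun x y hxy w hw => ?_⟩,
    fun n hn x => ?_, fun n hn x => ?_, ?_, h6, hN4 σ fun x => h4 ⟨x, hNM x.2⟩⟩⟩
  · exact h4 (eM M h hM n hn x)
  · have h7 := h5 ⟨⟨n, by omega⟩, (x, y)⟩ w (by rw [hd n hn x y hxy, hw]; rfl)
    rw [h7]
    change _ = if y = pM M h s n x then -w else w
    obtain ⟨r1, r2⟩ := hres n hn x y hxy
    split_ifs with h8
    · rw [par_of_odd _ _ (by rw [hd n hn x y hxy]; exact r1 h8)]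
      simp
    · rw [par_of_one _ _ (by rw [hd n hn x y hxy]; exact r2 h8)]
      simp
  · change pM M h s n (pM M h s n x) = x
    apply eM_inj M h hM n hn
    rw [← pM_spec M h hM, ← pM_spec M h hM]
    change (s * s) _ = _
    rw [hss]
    rfl
  · exact inert_low M h hM hv hmN hs n hn x
  · refine ⟨a, b, hne, hsa, fun x hxa hxb => ?_⟩
    change pM M h s m x = x
    by_contra hx
    rcases (inert_level M h hM hv hmN hs hab x hx).2 with h7 | h7
    · exact hxa h7
    · exact hxb h7

end

end Pool.Agent.H852.J
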