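import Mathlib

/-!
# Fibres of polynomials modulo a valuation
-/

set_option linter.unusedSectionVars false
set_option autoImplicit false

open Polynomial

namespace Pool.Agent.H852.J

noncomputable section

variable {M Γ₀ : Type*} [Field M] [LinearOrderedCommGroupWithZero Γ₀] (w : Valuation M Γ₀)

theorem eval_sub_le (G : (w.integer)[X]) (x y : w.integer) :
    w ((G.eval x : w.integer) - (G.eval y : w.integer) : M) ≤ w ((x : M) - y) := by
  obtain ⟨q, hq⟩ := sub_dvd_eval_sub x y G
  have h1 : ((G.eval x : w.integer) - (G.eval y : w.integer) : M) = ((x : M) - y) * q := by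
    have h2 := congrArg (fun z : w.integer => (z : M)) hq
    exact h2
  rw [h1, map_mul]
  exact mul_le_of_le_one_right' q.2

theorem deriv_lt (G : (w.integer)[X]) {x y : w.integer} (hG : G.eval x = G.eval y) (hne : x ≠ y)
    (hlt : w ((x : M) - y) < 1) : w ((G.derivative.eval x : w.integer) : M) < 1 := by
  obtain ⟨k, hk⟩ := binomExpansion G x (y - x)
  rw [add_sub_cancel, ← hG] at hk
  have h1 : (y - x) * (G.derivative.eval x + k * (y - x)) = 0 := by linear_combination -hk
  have h2 : y - x ≠ 0 := sub_ne_zero.2 (Ne.symm hne)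
  have h3 := (mul_eq_zero.1 h1).resolve_left h2
  have h4 : G.derivative.eval x = k * (x - y) := by linear_combination h3
  rw [h4]
  change w ((k : M) * ((x : M) - y)) < 1
  rw [map_mul]
  exact lt_of_le_of_lt (mul_le_of_le_one_left' k.2) hlt

theorem pow_inj_of_lt {ρ : Γ₀} (h0 : 0 < ρ) (h1 : ρ < 1) {m n : ℕ} (h : ρ ^ m = ρ ^ n) : m = n := by
  rcases lt_trichotomy m n with h2 | h2 | h2
  · exact absurd h (pow_lt_pow_right_of_lt_one₀ h0 h1 h2).ne'
  · exact h2
  · exact absurd h (pow_lt_pow_right_of_lt_one₀ h0 h1 h2).ne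

/-- **A simple double point.** -/
theorem double_point {T : Type*} [DecidableEq T] (S : Finset T) (e : T → w.integer)
    (he : Function.Injective e) (G : (w.integer)[X]) (γ c : w.integer) (h2 : w 2 = 1)
    (hG1 : G.derivative.eval γ = 0)
    (hG2 : w (((hasseDeriv 2 G).eval γ : w.integer) : M) = 1)
    (hprod : G.eval γ - c = ∏ x ∈ S, (γ - e x)) (hroot : ∀ x ∈ S, G.eval (e x) = c)
    (hlt : w ((G.eval γ - c : w.integer) : M) < 1) (hne : G.eval γ ≠ c) :
    ∃ a ∈ S, ∃ b ∈ S, a ≠ b ∧ w ((γ - e a : w.integer) : M) < 1 ∧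
      w ((γ - e b : w.integer) : M) < 1 ∧
      (∀ x ∈ S, x ≠ a → x ≠ b → w ((γ - e x : w.integer) : M) = 1) ∧
      w ((e a - e b : w.integer) : M) ^ 2 = w ((G.eval γ - c : w.integer) : M) := by
  set H := divX (divX (taylor γ G)) with hH
  have hGx : ∀ x : w.integer, G.eval x = G.eval γ + (x - γ) ^ 2 * H.eval (x - γ) := by
    intro x
    have e1 := divX_mul_X_add (taylor γ G)
    have e2 := divX_mul_X_add (divX (taylor γ G))
    rw [coeff_divX, taylor_coeff_one, hG1, C_0, add_zero] at e2
    rw [taylor_coeff_zero] at e1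
    have e3 := taylor_eval_sub γ G x
    rw [← e3, ← e1, ← e2, eval_add, eval_mul, eval_mul, eval_X, eval_C, ← hH]
    ring
  have hH0 : w ((H.eval 0 : w.integer) : M) = 1 := by
    rw [← coeff_zero_eq_eval_zero, hH, coeff_divX, coeff_divX, taylor_coeff]
    exact hG2
  have hHx : ∀ x : w.integer, w (x : M) < 1 → w ((H.eval x : w.integer) : M) = 1 := by
    intro x hx
    have h1 := eval_sub_le w H x 0
    have h3 : ((x : M) - ((0 : w.integer) : M)) = x := sub_zero _
    rw [h3] at h1
    have h4 : ((H.eval x : w.integer) : M) = ((H.eval x : w.integer) - (H.eval 0 : w.integer) : M) +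
        (H.eval 0 : w.integer) := by ring
    rw [h4, Valuation.map_add_eq_of_lt_right _ (by rw [hH0]; exact lt_of_le_of_lt h1 hx), hH0]
  set ρ := w ((G.eval γ - c : w.integer) : M) with hρ
  have hρ0 : 0 < ρ := by
    rw [hρ, zero_lt_iff, Valuation.ne_zero_iff]
    intro h1
    exact hne (sub_eq_zero.1 (Subtype.ext h1))
  have hswap : ∀ x y : w.integer, w ((x - y : w.integer) : M) = w ((y - x : w.integer) : M) :=
    fun x y => Valuation.map_sub_swap w (x : M) (y : M)
  have hsq : ∀ x ∈ S, w ((γ - e x : w.integer) : M) < 1 →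
      w ((γ - e x : w.integer) : M) ^ 2 = ρ := by
    intro x hx hx1
    have h1 := hGx (e x)
    rw [hroot x hx] at h1
    have h3 : (G.eval γ - c : w.integer) = -((e x - γ) ^ 2 * H.eval (e x - γ)) := by
      rw [h1]
      ring
    rw [hρ, h3]
    have h4 : ((-((e x - γ) ^ 2 * H.eval (e x - γ)) : w.integer) : M) =
        -((((e x - γ : w.integer) : M)) ^ 2 * ((H.eval (e x - γ) : w.integer) : M)) := rfl
    rw [h4, Valuation.map_neg, map_mul, hHx _ (by rw [hswap]; exact hx1), mul_one, map_pow, hswap]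
  set S₁ := S.filter fun x => w ((γ - e x : w.integer) : M) < 1 with hS₁
  have hρS : ρ = ∏ x ∈ S₁, w ((γ - e x : w.integer) : M) := by
    have h1 : ρ = ∏ x ∈ S, w ((γ - e x : w.integer) : M) := by
      rw [hρ, hprod]
      have h3 : ((∏ x ∈ S, (γ - e x) : w.integer) : M) =
          w.integer.subtype (∏ x ∈ S, (γ - e x)) := rfl
      rw [h3, map_prod, map_prod]
      rfl
    rw [h1, hS₁, Finset.prod_filter]
    refine Finset.prod_congr rfl fun x _ => ?_
    split_ifs with h3
    · rfl
    · exact le_antisymm (γ - e x).2 (not_lt.1 h3)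
  have hcard : S₁.card = 2 := by
    refine pow_inj_of_lt hρ0 hlt ?_
    have h1 : ρ ^ 2 = ∏ x ∈ S₁, w ((γ - e x : w.integer) : M) ^ 2 := by
      rw [Finset.prod_pow, ← hρS]
    rw [h1, Finset.prod_congr rfl fun x hx => hsq x (Finset.mem_filter.1 hx).1
      (Finset.mem_filter.1 hx).2, Finset.prod_const]
  obtain ⟨a, b, hab, hS⟩ := Finset.card_eq_two.1 hcard
  have ha : a ∈ S₁ := by rw [hS]; simp
  have hb : b ∈ S₁ := by rw [hS]; simp
  rw [hS₁, Finset.mem_filter] at ha hb
  refine ⟨a, ha.1, b, hb.1, hab, ha.2, hb.2, fun x hx hxa hxb => ?_, ?_⟩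
  · refine le_antisymm (γ - e x).2 (not_lt.1 fun h1 => ?_)
    have h3 : x ∈ S₁ := Finset.mem_filter.2 ⟨hx, h1⟩
    rw [hS, Finset.mem_insert, Finset.mem_singleton] at h3
    rcases h3 with h3 | h3
    · exact hxa h3
    · exact hxb h3
  · -- the difference
    set A : w.integer := e a - γ with hA
    set B : w.integer := e b - γ with hB
    have hwA : w (A : M) ^ 2 = ρ := by rw [hA, hswap]; exact hsq a ha.1 ha.2
    have hwB : w (B : M) ^ 2 = ρ := by rw [hB, hswap]; exact hsq b hb.1 hb.2
    have hA1 : w (A : M) < 1 := by rw [hA, hswap]; exact ha.2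
    have hB1 : w (B : M) < 1 := by rw [hB, hswap]; exact hb.2
    have hAB : w (A : M) = w (B : M) :=
      (pow_left_inj₀ zero_le zero_le two_ne_zero).1 (hwA.trans hwB.symm)
    have hB0 : 0 < w (B : M) := by
      rw [zero_lt_iff]
      intro h1
      rw [h1, zero_pow two_ne_zero] at hwB
      exact hρ0.ne hwB
    have e1 := hGx (e a)
    have e2 := hGx (e b)
    rw [hroot a ha.1, ← hA] at e1
    rw [hroot b hb.1, ← hB] at e2
    have e3 : (A - B) * (A + B) * H.eval A = B ^ 2 * (H.eval B - H.eval A) := by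
      linear_combination e2 - e1
    have hne' : (A : M) - B ≠ 0 := by
      rw [sub_ne_zero]
      intro h1
      have h3 : A = B := Subtype.ext h1
      rw [hA, hB, sub_left_inj] at h3
      exact hab (he h3)
    have e4 : w ((A : M) - B) * w ((A : M) + B) ≤ w (B : M) ^ 2 * w ((A : M) - B) := by
      have h1 := congrArg (fun z : w.integer => w (z : M)) e3
      change w (((A : M) - B) * ((A : M) + B) * ((H.eval A : w.integer) : M)) =
        w ((B : M) ^ 2 * (((H.eval B : w.integer) : M) - ((H.eval A : w.integer) : M))) at h1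
      rw [map_mul, map_mul, hHx A hA1, mul_one, map_mul, map_pow] at h1
      rw [h1]
      refine mul_le_mul_right ?_ _
      rw [Valuation.map_sub_swap w (A : M) B]
      exact eval_sub_le w H B A
    have e5 : w ((A : M) + B) ≤ w (B : M) ^ 2 := by
      rw [mul_comm] at e4
      exact le_of_mul_le_mul_right e4 (zero_lt_iff.2 ((Valuation.ne_zero_iff _).2 hne'))
    have e6 : w ((A : M) + B) < w (B : M) := by
      refine lt_of_le_of_lt e5 ?_
      rw [pow_two]
      exact mul_lt_of_lt_one_right hB0 hB1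
    have e7 : w ((A : M) - B) = w (B : M) := by
      have h1 : (A : M) - B = 2 * A - (A + B) := by ring
      have h3 : w (2 * (A : M)) = w (B : M) := by rw [map_mul, h2, one_mul, hAB]
      rw [h1, Valuation.map_sub_eq_of_lt_left _ (by rw [h3]; exact e6), h3]
    have e8 : ((e a - e b : w.integer) : M) = (A : M) - B := by
      have h1 : e a - e b = A - B := by rw [hA, hB]; ring
      rw [h1]
      rfl
    rw [e8, e7, hwB]

end

end Pool.Agent.H852.J
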