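import Mathlib
import Pool.Agent.H852.J.B13
import Pool.Agent.H852.J.B14
import Pool.Agent.H852.J.A2

/-!
# The polynomials `x (x - s) ^ (d - 1) + s` at a place
-/

set_option linter.unusedSectionVars false
set_option autoImplicit false

open Polynomial Module NumberField IsDedekindDomain
open Pool.Agent.Y142.ZO (GK IsFrobenius)
open Pool.Agent.N171 Pool.Agent.N171.Al Pool.Agent.N171.Pm Pool.Agent.N171.Bg Pool.Agent.N171.TG
open HeightOneSpectrum WithZero

namespace Pool.Agent.H852.J

/-- the polynomial `x (x - s) ^ (d - 1) + s` -/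
noncomputable def phi {R : Type*} [CommRing R] (s : R) (d : ℕ) : R[X] :=
  X * (X - C s) ^ (d - 1) + C s

noncomputable section

section basic

variable {R : Type*} [CommRing R] (s : R) {d : ℕ}

theorem eval_phi (x : R) : (phi s d).eval x = x * (x - s) ^ (d - 1) + s := by
  simp [phi]

theorem aeval_phi {B : Type*} [CommRing B] [Algebra R B] (x : B) :
    aeval x (phi s d) = x * (x - algebraMap R B s) ^ (d - 1) + algebraMap R B s := by
  simp [phi]

theorem phi_derivative (hd : 2 ≤ d) :
    derivative (phi s d) = (X - C s) ^ (d - 2) * (C (d : R) * X - C s) := by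
  obtain ⟨e, rfl⟩ := Nat.exists_eq_add_of_le' hd
  rw [phi, show e + 2 - 1 = e + 1 by omega, show e + 2 - 2 = e by omega]
  simp only [derivative_add, derivative_mul, derivative_X, one_mul, derivative_C, add_zero,
    derivative_X_sub_C_pow]
  rw [show e + 1 - 1 = e by omega]
  simp only [map_natCast]
  push_cast
  ring

theorem phi_derivative_two (hd : 3 ≤ d) :
    derivative (derivative (phi s d)) = (X - C s) ^ (d - 3) *
      (C ((d : R) - 2) * (C (d : R) * X - C s) + C (d : R) * (X - C s)) := by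
  rw [phi_derivative s (by omega)]
  obtain ⟨e, rfl⟩ := Nat.exists_eq_add_of_le' hd
  rw [show e + 3 - 2 = e + 1 by omega, show e + 3 - 3 = e by omega]
  simp only [derivative_mul, derivative_X_sub_C_pow, derivative_sub, derivative_X, derivative_C,
    sub_zero, mul_one, zero_mul, zero_add]
  rw [show e + 1 - 1 = e by omega]
  have h1 : (C (((e + 3 : ℕ) : R) - 2) : R[X]) = C ((e + 1 : ℕ) : R) := by
    congr 1
    push_cast
    ring
  rw [h1]
  ring

theorem phi_natDegree [Nontrivial R] (hd : 2 ≤ d) : (phi s d).natDegree = d := by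
  have h1 : (X * (X - C s) ^ (d - 1) : R[X]).natDegree = d := by
    rw [Monic.natDegree_mul monic_X ((monic_X_sub_C s).pow _), natDegree_X,
      (monic_X_sub_C s).natDegree_pow, natDegree_X_sub_C]
    omega
  rw [phi, natDegree_add_C, h1]

theorem phi_monic [Nontrivial R] (hd : 2 ≤ d) : (phi s d).Monic := by
  refine (monic_X.mul ((monic_X_sub_C s).pow _)).add_of_left (degree_lt_degree ?_)
  rw [natDegree_C, Monic.natDegree_mul monic_X ((monic_X_sub_C s).pow _), natDegree_X,
    (monic_X_sub_C s).natDegree_pow, natDegree_X_sub_C]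
  omega

end basic

section val

variable {M Γ : Type*} [Field M] [LinearOrderedCommGroupWithZero Γ] {w : Valuation M Γ} {s : M}
  {d : ℕ}

theorem phi_int (hs : w s ≤ 1) {x : M} (hx : w x ≤ 1) :
    w (x * (x - s) ^ (d - 1) + s) ≤ 1 := by
  refine (Valuation.map_add _ _ _).trans (max_le ?_ hs)
  rw [map_mul, map_pow]
  exact mul_le_one' hx (pow_le_one' ((Valuation.map_sub _ _ _).trans (max_le hx hs)) _)

theorem phi_big (hs : w s ≤ 1) {x : M} (hx : 1 < w x) :
    1 < w (x * (x - s) ^ (d - 1) + s) := by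
  have h1 : w (x - s) = w x := Valuation.map_sub_eq_of_lt_left _ (lt_of_le_of_lt hs hx)
  have h2 : 1 < w (x * (x - s) ^ (d - 1)) := by
    rw [map_mul, map_pow, h1]
    exact lt_of_lt_of_le hx (le_mul_of_one_le_right' (one_le_pow₀ hx.le))
  rw [Valuation.map_add_eq_of_lt_left _ (lt_of_le_of_lt hs h2)]
  exact h2

/-- the integer `s` and the polynomial over the valuation ring -/
theorem phi_sub_le (hs : w s ≤ 1) {x y : M} (hx : w x ≤ 1) (hy : w y ≤ 1) :
    w ((x * (x - s) ^ (d - 1) + s) - (y * (y - s) ^ (d - 1) + s)) ≤ w (x - y) := by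
  have h1 := eval_sub_le w (phi (⟨s, hs⟩ : w.integer) d) ⟨x, hx⟩ ⟨y, hy⟩
  rw [eval_phi, eval_phi] at h1
  exact h1

theorem phi_crit (hd : 3 ≤ d) (hs : w s ≤ 1) (hwd : w (d : M) = 1) {γ : M} (hγ : (d : M) * γ = s)
    {x y : M} (hx : w x ≤ 1) (hy : w y ≤ 1)
    (hxy : x * (x - s) ^ (d - 1) + s = y * (y - s) ^ (d - 1) + s) (hne : x ≠ y)
    (hlt : w (x - y) < 1) : w (x - s) < 1 ∨ w (x - γ) < 1 := by
  have h1 := deriv_lt w (phi (⟨s, hs⟩ : w.integer) d) (x := ⟨x, hx⟩) (y := ⟨y, hy⟩)
    (by rw [eval_phi, eval_phi]; exact Subtype.ext hxy)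
    (fun h => hne (congrArg Subtype.val h)) hlt
  rw [phi_derivative _ (by omega)] at h1
  simp only [eval_mul, eval_pow, eval_sub, eval_X, eval_C] at h1
  have h2 : w ((x - s) ^ (d - 2) * ((d : M) * x - s)) < 1 := by
    have h3 : ((((⟨x, hx⟩ : w.integer) - ⟨s, hs⟩) ^ (d - 2) *
        (((d : ℕ) : w.integer) * ⟨x, hx⟩ - ⟨s, hs⟩) : w.integer) : M) =
        (x - s) ^ (d - 2) * ((d : M) * x - s) := by
      push_cast
      rfl
    rwa [h3] at h1
  rw [← hγ, ← mul_sub, hγ, map_mul, map_mul, hwd, one_mul, map_pow] at h2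
  by_contra hno
  push Not at hno
  exact absurd h2 (not_lt.2 (by
    have h3 := one_le_pow₀ hno.1 (n := d - 2)
    exact one_le_mul h3 hno.2))

end val

section comps

variable {K : Type} [Field K] (s : K) (d : ℕ) {B : Type} [Field B] [Algebra K B]

theorem comps_phi_succ (n : ℕ) (x : B) : aeval x (comps (fun _ => phi s d) (n + 1)) =
    aeval (x * (x - algebraMap K B s) ^ (d - 1) + algebraMap K B s)
      (comps (fun _ => phi s d) n) := by
  rw [aeval_comps_succ, aeval_phi]

theorem comps_fix (hd : 2 ≤ d) (n : ℕ) :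
    aeval (algebraMap K B s) (comps (fun _ => phi s d) n) = algebraMap K B s := by
  induction n with
  | zero => rw [comps, aeval_X]
  | succ n ih => rw [comps_phi_succ, sub_self, zero_pow (by omega), mul_zero, zero_add, ih]

variable {Γ : Type*} [LinearOrderedCommGroupWithZero Γ] {w : Valuation B Γ} {s d}

theorem comps_big (hs : w (algebraMap K B s) ≤ 1) (n : ℕ) {x : B} (hx : 1 < w x) :
    1 < w (aeval x (comps (fun _ => phi s d) n)) := by
  induction n generalizing x with
  | zero =>
    rw [comps, aeval_X]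
    exact hx
  | succ n ih =>
    rw [comps_phi_succ]
    exact ih (phi_big hs hx)

theorem comps_int (hs : w (algebraMap K B s) ≤ 1) (n : ℕ) {x : B} (hx : w x ≤ 1) :
    w (aeval x (comps (fun _ => phi s d) n)) ≤ 1 := by
  induction n generalizing x with
  | zero =>
    rw [comps, aeval_X]
    exact hx
  | succ n ih =>
    rw [comps_phi_succ]
    exact ih (phi_int hs hx)

theorem comps_root_int (hs : w (algebraMap K B s) ≤ 1) (n : ℕ) {x : B}
    (hx : aeval x (comps (fun _ => phi s d) n) = 0) : w x ≤ 1 := by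
  by_contra h
  have h1 := comps_big (d := d) hs n (not_le.1 h)
  rw [hx, map_zero] at h1
  exact absurd h1 (not_lt.2 zero_le)

theorem comps_sub_le (hs : w (algebraMap K B s) ≤ 1) (n : ℕ) {x y : B} (hx : w x ≤ 1)
    (hy : w y ≤ 1) : w (aeval x (comps (fun _ => phi s d) n) -
      aeval y (comps (fun _ => phi s d) n)) ≤ w (x - y) := by
  induction n generalizing x y with
  | zero => rw [comps, aeval_X, aeval_X]
  | succ n ih =>
    rw [comps_phi_succ, comps_phi_succ]
    exact (ih (phi_int hs hx) (phi_int hs hy)).trans (phi_sub_le hs hx hy)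

theorem comps_etale (hd : 3 ≤ d) (hs : w (algebraMap K B s) = 1) (hwd : w (d : B) = 1) {γ : B}
    (hγ : (d : B) * γ = algebraMap K B s) (n : ℕ)
    (hc : w (aeval γ (comps (fun _ => phi s d) (n + 1))) = 1) {x y : B}
    (hx : aeval x (comps (fun _ => phi s d) (n + 1)) = 0)
    (hxy : aeval x (phi s d) = aeval y (phi s d)) (hne : x ≠ y) : w (x - y) = 1 := by
  have hy : aeval y (comps (fun _ => phi s d) (n + 1)) = 0 := by
    rw [aeval_comps_succ, ← hxy, ← aeval_comps_succ (g := fun _ => phi s d), hx]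
  have hx1 := comps_root_int hs.le (n + 1) hx
  have hy1 := comps_root_int hs.le (n + 1) hy
  have hγ1 : w γ ≤ 1 := by
    have h1 := congrArg w hγ
    rw [map_mul, hwd, one_mul, hs] at h1
    exact h1.le
  refine le_antisymm ((Valuation.map_sub _ _ _).trans (max_le hx1 hy1)) (not_lt.1 fun hlt => ?_)
  rw [aeval_phi, aeval_phi] at hxy
  rcases phi_crit hd hs.le hwd hγ hx1 hy1 hxy hne hlt with h1 | h1
  · have h2 := comps_sub_le (d := d) hs.le (n + 1) hx1 hs.le
    rw [hx, comps_fix s d (by omega), zero_sub, Valuation.map_neg, hs] at h2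
    exact absurd h1 (not_lt.2 h2)
  · have h2 := comps_sub_le (d := d) hs.le (n + 1) hx1 hγ1
    rw [hx, zero_sub, Valuation.map_neg, hc] at h2
    exact absurd h1 (not_lt.2 h2)

theorem comps_diff (hd : 3 ≤ d) (hs : w (algebraMap K B s) = 1) (hwd : w (d : B) = 1) {γ : B}
    (hγ : (d : B) * γ = algebraMap K B s) (m : ℕ)
    (hc : ∀ n < m, w (aeval γ (comps (fun _ => phi s d) (n + 1))) = 1) {x y : B}
    (hx : aeval x (comps (fun _ => phi s d) m) = 0)
    (hy : aeval y (comps (fun _ => phi s d) m) = 0) (hne : x ≠ y) : w (x - y) = 1 := by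
  induction m generalizing x y with
  | zero =>
    rw [comps, aeval_X] at hx hy
    exact absurd (hx.trans hy.symm) hne
  | succ m ih =>
    by_cases hxy : aeval x (phi s d) = aeval y (phi s d)
    · exact comps_etale hd hs hwd hγ m (hc m (Nat.lt_succ_self m)) hx hxy hne
    · have hx1 := comps_root_int hs.le (m + 1) hx
      have hy1 := comps_root_int hs.le (m + 1) hy
      rw [aeval_comps_succ] at hx hy
      have h1 := ih (fun n hn => hc n (by omega)) hx hy hxy
      rw [aeval_phi, aeval_phi] at h1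
      refine le_antisymm ((Valuation.map_sub _ _ _).trans (max_le hx1 hy1)) ?_
      rw [← h1]
      exact phi_sub_le hs.le hx1 hy1

end comps

end

end Pool.Agent.H852.J
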