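import Mathlib
import Pool.Agent.H852.J.B15

/-!
# The node of the polynomials `x (x - s) ^ (d - 1) + s` at a place
-/

set_option linter.unusedSectionVars false
set_option autoImplicit false

open Polynomial Module NumberField IsDedekindDomain
open Pool.Agent.Y142.ZO (GK IsFrobenius)
open Pool.Agent.N171 Pool.Agent.N171.Al Pool.Agent.N171.Pm Pool.Agent.N171.Bg Pool.Agent.N171.TG
open HeightOneSpectrum WithZero

namespace Pool.Agent.H852.J

noncomputable section

section field

variable {K : Type} [Field K] [NumberField K] {g : ℕ → K[X]}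
variable (M : IntermediateField K (AlgebraicClosure K)) [NumberField M] [Normal K M]
  {N : ℕ} (h : CompHyp g) [hyp : ∀ n, Hyp (rtA g n)]
  (hM : ∀ n ≤ N, ∀ x : AlgebraicClosure K, aeval x (comps g n) = 0 → x ∈ M)

/-- the product formula -/
theorem prod_all (n : ℕ) (hn : n ≤ N) (u : M) :
    aeval u (comps g n) = ∏ x : Rt g n, (u - eM M h hM n hn x) := by
  apply Subtype.ext
  have h2 := Polynomial.aeval_algHom_apply M.val u (comps g n)
  have h3 : ((aeval u (comps g n) : M) : AlgebraicClosure K) =
      aeval (u : AlgebraicClosure K) (comps g n) := h2.symm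
  have h5 : ((∏ x : Rt g n, (u - eM M h hM n hn x) : M) : AlgebraicClosure K) =
      M.val (∏ x : Rt g n, (u - eM M h hM n hn x)) := rfl
  rw [h3, h5, map_prod, ← eval_map_algebraMap, h.fP_eq, fP, eval_prod]
  refine Finset.prod_congr rfl fun x _ => ?_
  rw [eval_sub, eval_X, eval_C, map_sub]
  rfl

end field

section place

variable {K : Type} [Field K] [NumberField K] {s : K} {d : ℕ}

/-- the critical orbit -/
def orb (s : K) (d n : ℕ) : K := (comps (fun _ => phi s d) n).eval (s / d)

/-- the conditions at a place on the critical orbit -/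
structure CritV (s : K) (d N m : ℕ) (v : HeightOneSpectrum (𝓞 K)) : Prop where
  two : (2 : 𝓞 K) ∉ v.asIdeal
  vs : v.valuation K s = 1
  vd : v.valuation K (d : K) = 1
  unit : ∀ n, 1 ≤ n → n ≤ N → n ≠ m → v.valuation K (orb s d n) = 1
  odd : Odd (log (v.valuation K (orb s d m)))

theorem aeval_orb {B : Type} [Field B] [Algebra K B] (n : ℕ) :
    aeval (algebraMap K B (s / d)) (comps (fun _ => phi s d) n) = algebraMap K B (orb s d n) := by
  rw [orb, aeval_algebraMap_apply_eq_algebraMap_eval]

theorem orb_le {N m : ℕ} {v : HeightOneSpectrum (𝓞 K)} (hv : CritV s d N m v) (n : ℕ) :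
    v.valuation K (orb s d n) ≤ 1 := by
  have h1 : v.valuation K (s / d) ≤ 1 := by
    rw [map_div₀, hv.vs, hv.vd, div_one]
  have h2 := comps_int (K := K) (B := K) (s := s) (d := d) (w := v.valuation K)
    (by rw [Algebra.algebraMap_self, RingHom.id_apply, hv.vs]) n h1
  rw [orb]
  rwa [coe_aeval_eq_eval] at h2

variable [hyp : ∀ n, Hyp (rtA (fun _ => phi s d) n)]

/-- **The places of the critical orbit are places with one node.** -/
theorem nodePlace_of_critV (hd : 3 ≤ d) (h : CompHyp (fun _ => phi s d)) {N m : ℕ} (hm : 1 ≤ m)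
    (hmN : m ≤ N) {v : HeightOneSpectrum (𝓞 K)} (hv : CritV s d N m v) :
    NodePlace (fun _ => phi s d) N m v := by
  classical
  have hup : ∀ (M : IntermediateField K (AlgebraicClosure K)) [NumberField M]
      [Normal K M] (P : HeightOneSpectrum (𝓞 M)) [P.asIdeal.LiesOver v.asIdeal] (x : K),
      v.valuation K x = 1 → P.valuation M (algebraMap K M x) = 1 := fun M _ _ P _ x hx => by
    have : IsGalois K M := ⟨⟩
    exact val_up_one v P hx
  have hws : ∀ (M : IntermediateField K (AlgebraicClosure K)) [NumberField M]
      [Normal K M] (P : HeightOneSpectrum (𝓞 M)) [P.asIdeal.LiesOver v.asIdeal],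
      P.valuation M (algebraMap K M s) = 1 := fun M _ _ P _ => hup M P s hv.vs
  have hwd : ∀ (M : IntermediateField K (AlgebraicClosure K)) [NumberField M]
      [Normal K M] (P : HeightOneSpectrum (𝓞 M)) [P.asIdeal.LiesOver v.asIdeal],
      P.valuation M (d : M) = 1 := fun M _ _ P _ => by
    have h1 := hup M P (d : K) hv.vd
    rwa [map_natCast] at h1
  have hd0 : (d : K) ≠ 0 := Nat.cast_ne_zero.2 (by omega)
  have hγ : ∀ (M : IntermediateField K (AlgebraicClosure K)),
      (d : M) * algebraMap K M (s / d) = algebraMap K M s := fun M => by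
    have h1 : ((d : K) * (s / d)) = s := mul_div_cancel₀ s hd0
    rw [← map_natCast (algebraMap K M), ← map_mul, h1]
  refine ⟨hv.two, fun n _ M _ _ P _ u hu => comps_root_int (hws M P).le n hu,
    fun n hn hnm M _ _ P _ u u' hu huu hne => ?_, fun M _ _ P _ hM => ?_⟩
  · refine comps_etale hd (hws M P) (hwd M P) (hγ M) n ?_ hu huu hne
    rw [aeval_orb]
    exact hup M P _ (hv.unit (n + 1) (by omega) (by omega) hnm)
  · obtain ⟨k, rfl⟩ := Nat.exists_eq_add_of_le' hm
    have : IsGalois K M := ⟨⟩
    set w := P.valuation M with hw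
    set γ : M := algebraMap K M (s / d) with hγ'
    have hγ1 : w γ = 1 := by
      have h1 := congrArg w (hγ M)
      rwa [map_mul, hwd, one_mul, hws] at h1
    have hkN : k ≤ N := by omega
    have hkN' : k < N := by omega
    have hdiff : ∀ x y : M, aeval x (comps (fun _ => phi s d) k) = 0 →
        aeval y (comps (fun _ => phi s d) k) = 0 → x ≠ y → w (x - y) = 1 := by
      intro x y hx hy hne
      refine comps_diff hd (hws M P) (hwd M P) (hγ M) k (fun n hn => ?_) hx hy hne
      rw [aeval_orb]
      exact hup M P _ (hv.unit (n + 1) (by omega) (by omega) (by omega))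
    have hcK0 : orb s d (k + 1) ≠ 0 := by
      intro h1
      have h2 := hv.odd
      rw [h1, map_zero, log_zero] at h2
      exact absurd h2 (by decide)
    have hc1 : w (algebraMap K M (orb s d (k + 1))) < 1 := by
      rw [hw, val_eq_pow_card v P]
      have h4 : v.valuation K (orb s d (k + 1)) ≠ 1 := by
        intro h4
        have h5 := hv.odd
        rw [h4, log_one] at h5
        exact absurd h5 (by decide)
      exact pow_lt_one₀ zero_le (lt_of_le_of_ne (orb_le hv _) h4) Nat.card_pos.ne'
    have hcprod : algebraMap K M (orb s d (k + 1)) =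
        ∏ x : Rt (fun _ => phi s d) k, (aeval γ (phi s d) - eM M h hM k hkN x) := by
      rw [← prod_all M h hM k hkN, ← aeval_comps_succ (g := fun _ => phi s d), aeval_orb]
    have hφγ : w (aeval γ (phi s d)) ≤ 1 := by
      rw [aeval_phi]
      exact phi_int (hws M P).le hγ1.le
    have hroot := fun x : Rt (fun _ => phi s d) k => eM_root M h hM k hkN x
    have hint : ∀ x : Rt (fun _ => phi s d) k, w (eM M h hM k hkN x) ≤ 1 := fun x =>
      comps_root_int (hws M P).le k (hroot x)
    obtain ⟨e₀, he₀⟩ : ∃ e₀ : Rt (fun _ => phi s d) k,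
        w (aeval γ (phi s d) - eM M h hM k hkN e₀) < 1 := by
      by_contra hno
      push Not at hno
      rw [hcprod, map_prod] at hc1
      refine absurd hc1 (not_lt.2 (le_of_eq ?_))
      rw [eq_comm]
      exact Finset.prod_eq_one fun x _ => le_antisymm
        ((Valuation.map_sub _ _ _).trans (max_le hφγ (hint x))) (hno x)
    have hoth : ∀ x : Rt (fun _ => phi s d) k, x ≠ e₀ →
        w (aeval γ (phi s d) - eM M h hM k hkN x) = 1 := by
      intro x hx
      have h1 := hdiff _ _ (hroot x) (hroot e₀) fun h3 => hx (eM_inj M h hM k hkN h3)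
      have h3 : aeval γ (phi s d) - eM M h hM k hkN x =
          (aeval γ (phi s d) - eM M h hM k hkN e₀) -
            (eM M h hM k hkN x - eM M h hM k hkN e₀) := by ring
      rw [h3, Valuation.map_sub_eq_of_lt_right _ (by rw [h1]; exact he₀), h1]
    have hwc : w (algebraMap K M (orb s d (k + 1))) =
        w (aeval γ (phi s d) - eM M h hM k hkN e₀) := by
      rw [hcprod, map_prod]
      exact Finset.prod_eq_single e₀ (fun x _ hx => hoth x hx) (fun h1 => absurd (Finset.mem_univ _) h1)
    have hne0 : aeval γ (phi s d) ≠ eM M h hM k hkN e₀ := by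
      intro h1
      rw [h1, sub_self, map_zero, map_eq_zero, map_eq_zero] at hwc
      exact hcK0 hwc
    -- the point γ is far from s
    have hγs : w (γ - algebraMap K M s) = 1 := by
      refine le_antisymm ((Valuation.map_sub _ _ _).trans (max_le hγ1.le (hws M P).le))
        (not_lt.1 fun h1 => ?_)
      have h2 := comps_sub_le (d := d) (w := w) (hws M P).le (k + 1) hγ1.le (hws M P).le
      rw [comps_fix s d (by omega), aeval_orb,
        Valuation.map_sub_eq_of_lt_right _ (by rw [hws]; exact hc1), hws] at h2
      exact absurd h1 (not_lt.2 h2)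
    have hroot' := fun x : Rt (fun _ => phi s d) (k + 1) => eM_root M h hM (k + 1) hkN' x
    have hint' : ∀ x : Rt (fun _ => phi s d) (k + 1), w (eM M h hM (k + 1) hkN' x) ≤ 1 := fun x =>
      comps_root_int (hws M P).le (k + 1) (hroot' x)
    -- the double point
    let s' : w.integer := ⟨algebraMap K M s, (hws M P).le⟩
    let γ' : w.integer := ⟨γ, hγ1.le⟩
    let G : (w.integer)[X] := phi s' d
    let e : Rt (fun _ => phi s d) (k + 1) → w.integer := fun x => ⟨eM M h hM (k + 1) hkN' x, hint' x⟩
    let c' : w.integer := ⟨eM M h hM k hkN e₀, hint e₀⟩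
    have hG : ∀ x : w.integer, ((G.eval x : w.integer) : M) = aeval (x : M) (phi s d) := by
      intro x
      rw [eval_phi, aeval_phi]
      rfl
    have h2 : w 2 = 1 := by
      rw [hw]
      exact val_up_two v P hv.two
    have hG1 : G.derivative.eval γ' = 0 := by
      change eval γ' (derivative (phi s' d)) = 0
      rw [phi_derivative s' (by omega), eval_mul, eval_sub, eval_mul, eval_C, eval_C, eval_X]
      have h1 : ((d : w.integer) * γ' - s' : w.integer) = 0 := by
        rw [sub_eq_zero]
        apply Subtype.ext
        have h3 := hγ M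
        exact h3
      rw [h1, mul_zero]
    have hG2 : w (((hasseDeriv 2 G).eval γ' : w.integer) : M) = 1 := by
      have h1 : (2 : w.integer) * (hasseDeriv 2 G).eval γ' =
          (derivative (derivative G)).eval γ' := by
        have h3 := congrArg (fun p => eval γ' p) (congrFun (factorial_smul_hasseDeriv (R := w.integer) 2) G)
        simp only [Function.iterate_succ, Function.iterate_zero, Function.comp_apply, id_eq] at h3
        rw [← h3]
        simp [Nat.factorial]
      have h3 : (derivative (derivative G)).eval γ' = (γ' - s') ^ (d - 3) *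
          ((d : w.integer) * (γ' - s')) := by
        change (derivative (derivative (phi s' d))).eval γ' = _
        rw [phi_derivative_two s' hd]
        simp only [eval_mul, eval_pow, eval_sub, eval_X, eval_C, eval_add]
        have h4 : ((d : w.integer) * γ' - s' : w.integer) = 0 := by
          rw [sub_eq_zero]
          exact Subtype.ext (hγ M)
        rw [h4, mul_zero, zero_add]
      have h4 := congrArg (fun z : w.integer => w (z : M)) (h1.trans h3)
      have h5 : w (((2 : w.integer) * (hasseDeriv 2 G).eval γ' : w.integer) : M) =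
          w (((hasseDeriv 2 G).eval γ' : w.integer) : M) := by
        change w ((2 : M) * (((hasseDeriv 2 G).eval γ' : w.integer) : M)) = _
        rw [map_mul, h2, one_mul]
      have h6 : w (((γ' - s') ^ (d - 3) * ((d : w.integer) * (γ' - s')) : w.integer) : M) = 1 := by
        change w ((γ - algebraMap K M s) ^ (d - 3) * ((d : M) * (γ - algebraMap K M s))) = 1
        rw [map_mul, map_mul, map_pow, hγs, hwd, one_pow, one_mul, one_mul]
      rw [← h5, ← h6]
      exact h4
    have hSroot : ∀ x ∈ pre (h.dn k) {e₀}, G.eval (e x) = c' := by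
      intro x hx
      rw [mem_pre, Finset.mem_singleton] at hx
      apply Subtype.ext
      rw [hG]
      change aeval (eM M h hM (k + 1) hkN' x) (phi s d) = eM M h hM k hkN e₀
      rw [aeval_eM M h hM k hkN' x, hx]
    have hprod : G.eval γ' - c' = ∏ x ∈ pre (h.dn k) {e₀}, (γ' - e x) := by
      apply Subtype.ext
      have h1 := prod_fib M h hM k hkN' e₀ γ
      have h3 : ((∏ x ∈ pre (h.dn k) {e₀}, (γ' - e x) : w.integer) : M) =
          w.integer.subtype (∏ x ∈ pre (h.dn k) {e₀}, (γ' - e x)) := rfl
      rw [h3, map_prod]
      have h4 : ((G.eval γ' - c' : w.integer) : M) = aeval γ (phi s d) - eM M h hM k hkN e₀ := by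
        change ((G.eval γ' : w.integer) : M) - eM M h hM k hkN e₀ = _
        rw [hG]
      rw [h4, h1]
      rfl
    have hval : ((G.eval γ' - c' : w.integer) : M) = aeval γ (phi s d) - eM M h hM k hkN e₀ := by
      change ((G.eval γ' : w.integer) : M) - eM M h hM k hkN e₀ = _
      rw [hG]
    obtain ⟨a, ha, b, hb, hab, hγa, hγb, hothers, hsq⟩ := double_point w (pre (h.dn k) {e₀}) e
      (fun x y hxy => eM_inj M h hM (k + 1) hkN' (congrArg Subtype.val hxy)) G γ' c' h2 hG1 hG2
      hprod hSroot (by rw [hval]; exact he₀) (fun h1 => hne0 (by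
        have h3 := congrArg Subtype.val h1
        rwa [hG] at h3))
    refine ⟨eM M h hM (k + 1) hkN' a, eM M h hM (k + 1) hkN' b, orb s d (k + 1), hroot' a, hroot' b,
      fun h1 => hab (eM_inj M h hM (k + 1) hkN' h1), fun u u' hu hu' huu hn => ?_, hv.odd, ?_⟩
    · have hu1 := comps_root_int (hws M P).le (k + 1) hu
      have hu1' := comps_root_int (hws M P).le (k + 1) hu'
      refine le_antisymm ((Valuation.map_sub _ _ _).trans (max_le hu1 hu1'))
        (not_lt.1 fun hlt => ?_)
      have hk1 : aeval (aeval u (phi s d)) (comps (fun _ => phi s d) k) = 0 := by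
        rwa [← aeval_comps_succ (g := fun _ => phi s d)]
      have hk2 : aeval (aeval u' (phi s d)) (comps (fun _ => phi s d) k) = 0 := by
        rwa [← aeval_comps_succ (g := fun _ => phi s d)]
      by_cases hfu : aeval u (phi s d) = aeval u' (phi s d)
      · have hfar : ∀ z : M, aeval z (comps (fun _ => phi s d) (k + 1)) = 0 →
            w (z - algebraMap K M s) < 1 → False := by
          intro z hz h1
          have h3 := comps_sub_le (d := d) (w := w) (hws M P).le (k + 1)
            (comps_root_int (hws M P).le (k + 1) hz) (hws M P).le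
          rw [hz, comps_fix s d (by omega), zero_sub, Valuation.map_neg, hws] at h3
          exact absurd h1 (not_lt.2 h3)
        have hclose : ∀ z : M, aeval z (comps (fun _ => phi s d) (k + 1)) = 0 →
            w (z - γ) < 1 → z = eM M h hM (k + 1) hkN' a ∨ z = eM M h hM (k + 1) hkN' b := by
          intro z hz h1
          -- z is a root
          obtain ⟨x, hx⟩ : ∃ x : Rt (fun _ => phi s d) (k + 1), eM M h hM (k + 1) hkN' x = z := by
            refine ⟨⟨z, (h.root _ _).2 ?_⟩, rfl⟩
            have h3 := Polynomial.aeval_algHom_apply M.val z (comps (fun _ => phi s d) (k + 1))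
            rw [hz, map_zero] at h3
            exact h3
          have h3 : w (aeval z (phi s d) - aeval γ (phi s d)) < 1 := by
            rw [aeval_phi, aeval_phi]
            exact lt_of_le_of_lt (phi_sub_le (hws M P).le (comps_root_int (hws M P).le (k + 1) hz)
              hγ1.le) h1
          have h4 : h.dn k x = e₀ := by
            by_contra h5
            have h6 := hoth _ h5
            rw [← aeval_eM M h hM k hkN' x, hx, Valuation.map_sub_swap] at h6
            exact absurd h6 h3.ne
          by_contra h5
          rw [not_or] at h5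
          have h6 := hothers x (by rw [mem_pre, h4]; exact Finset.mem_singleton_self _)
            (fun h7 => h5.1 (by rw [← hx, h7])) (fun h7 => h5.2 (by rw [← hx, h7]))
          have h7 : ((γ' - e x : w.integer) : M) = γ - z := by
            rw [← hx]
            rfl
          rw [h7, Valuation.map_sub_swap] at h6
          exact absurd h6 h1.ne
        rw [aeval_phi, aeval_phi] at hfu
        have h1 := phi_crit hd (hws M P).le (hwd M P) (hγ M) hu1 hu1' hfu huu hlt
        have h3 := phi_crit hd (hws M P).le (hwd M P) (hγ M) hu1' hu1 hfu.symm huu.symm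
          (by rwa [Valuation.map_sub_swap])
        exact hn ⟨hclose u hu (h1.resolve_left (hfar u hu)),
          hclose u' hu' (h3.resolve_left (hfar u' hu'))⟩
      · have h1 := hdiff _ _ hk1 hk2 hfu
        have h3 : w (aeval u (phi s d) - aeval u' (phi s d)) ≤ w (u - u') := by
          rw [aeval_phi, aeval_phi]
          exact phi_sub_le (hws M P).le hu1 hu1'
        rw [h1] at h3
        exact absurd hlt (not_lt.2 h3)
    · rw [hwc, ← hval, ← hsq]
      rfl

end place

end

end Pool.Agent.H852.J
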