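import Mathlib
import Pool.Agent.H852.J.B16

/-!
# Separability and transitivity for the polynomials `x (x - s) ^ (d - 1) + s`
-/

set_option linter.unusedSectionVars false
set_option autoImplicit false

open Polynomial Module NumberField IsDedekindDomain
open Pool.Agent.Y142.ZO (GK IsFrobenius)
open Pool.Agent.N171 Pool.Agent.N171.Al Pool.Agent.N171.Pm Pool.Agent.N171.Bg Pool.Agent.N171.TG
open HeightOneSpectrum WithZero

namespace Pool.Agent.H852.J

noncomputable section

section sep

variable {K : Type} [Field K] [NumberField K] {s : K} {d : ℕ}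

theorem comps_phi_natDegree (hd : 2 ≤ d) (n : ℕ) :
    (comps (fun _ => phi s d) n).natDegree = d ^ n := by
  induction n with
  | zero => rw [comps, natDegree_X, pow_zero]
  | succ n ih => rw [comps, natDegree_comp, ih, phi_natDegree s hd, pow_succ]

theorem comps_phi_simple (hd : 3 ≤ d) (hs : s ≠ 0) (hc : ∀ n, 1 ≤ n → orb s d n ≠ 0)
    {B : Type} [Field B] [Algebra K B] (n : ℕ) (x : B)
    (hx : aeval x (comps (fun _ => phi s d) n) = 0) :
    aeval x (derivative (comps (fun _ => phi s d) n)) ≠ 0 := by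
  induction n generalizing x with
  | zero =>
    rw [comps, derivative_X, map_one]
    exact one_ne_zero
  | succ n ih =>
    have h1 := hx
    rw [aeval_comps_succ] at h1
    rw [comps, derivative_comp, map_mul, aeval_comp]
    refine mul_ne_zero ?_ (ih _ h1)
    rw [phi_derivative s (by omega)]
    simp only [map_mul, map_pow, map_sub, aeval_X, aeval_C]
    refine mul_ne_zero (pow_ne_zero _ fun h2 => ?_) fun h2 => ?_
    · rw [sub_eq_zero.1 h2, comps_fix s d (by omega)] at hx
      exact hs ((map_eq_zero _).1 hx)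
    · have h3 : x = algebraMap K B (s / d) := by
        have hd0 : ((d : K)) ≠ 0 := Nat.cast_ne_zero.2 (by omega)
        have hd1 : (algebraMap K B (d : K)) ≠ 0 := (_root_.map_ne_zero _).2 hd0
        rw [map_div₀, eq_div_iff hd1, mul_comm]
        exact sub_eq_zero.1 h2
      rw [h3, aeval_orb] at hx
      exact hc (n + 1) (by omega) ((map_eq_zero _).1 hx)

theorem comps_phi_sep (hd : 3 ≤ d) (hs : s ≠ 0) (hc : ∀ n, 1 ≤ n → orb s d n ≠ 0) (n : ℕ) :
    (comps (fun _ => phi s d) n).Separable := by
  rw [Polynomial.Separable,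
    isCoprime_iff_aeval_ne_zero_of_isAlgClosed K (AlgebraicClosure K)]
  intro x
  by_cases hx : aeval x (comps (fun _ => phi s d) n) = 0
  · exact Or.inr (comps_phi_simple hd hs hc n x hx)
  · exact Or.inl hx

theorem compHyp_phi (hdp : d.Prime) (hodd : Odd d) (hs : s ≠ 0)
    (hc : ∀ n, 1 ≤ n → orb s d n ≠ 0) : CompHyp (fun _ => phi s d) where
  monic := fun _ => phi_monic s hdp.two_le
  deg := fun _ => by
    rw [phi_natDegree s hdp.two_le]
    have h1 := hdp.two_le
    rcases h1.lt_or_eq with h5 | h5
    · exact h5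
    · rw [← h5] at hodd
      exact absurd hodd (by decide)
  odd := fun _ => by rwa [phi_natDegree s hdp.two_le]
  sep := comps_phi_sep (by
    have h1 := hdp.two_le
    rcases h1.lt_or_eq with h5 | h5
    · exact h5
    · rw [← h5] at hodd
      exact absurd hodd (by decide)) hs hc

end sep

section trans

open Classical in
theorem root_val {M Γ : Type*} [Field M] [LinearOrderedCommGroupWithZero Γ] {w : Valuation M Γ}
    {s : M} {d : ℕ} (hd : 3 ≤ d) (h0 : s ≠ 0) (hs : w s < 1) {z y : M}
    (hz : z * (z - s) ^ (d - 1) + s = y) (hy : w s < w y ∨ y = 0) :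
    w s < w z ∧ w z ^ d = if y = 0 then w s else w y := by
  have hs0 : 0 < w s := zero_lt_iff.2 ((Valuation.ne_zero_iff _).2 h0)
  have h1 : w (z * (z - s) ^ (d - 1)) = if y = 0 then w s else w y := by
    have h2 : z * (z - s) ^ (d - 1) = y - s := by rw [← hz]; ring
    rw [h2]
    split_ifs with h3
    · rw [h3, zero_sub, Valuation.map_neg]
    · exact Valuation.map_sub_eq_of_lt_left _ (hy.resolve_right h3)
  have h2 : w s ≤ w (z * (z - s) ^ (d - 1)) := by
    rw [h1]
    split_ifs with h3
    · exact le_rfl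
    · exact (hy.resolve_right h3).le
  have h3 : w s < w z := by
    by_contra h4
    rw [not_lt] at h4
    have h5 : w (z - s) ≤ w s := (Valuation.map_sub _ _ _).trans (max_le h4 le_rfl)
    rw [map_mul, map_pow] at h2
    have h6 : w z * w (z - s) ^ (d - 1) ≤ w s * w s ^ (d - 1) :=
      mul_le_mul' h4 (pow_le_pow_left' h5 _)
    have h7 : w s * w s ^ (d - 1) < w s :=
      mul_lt_of_lt_one_right hs0 (pow_lt_one₀ zero_le hs (by omega))
    exact absurd (h2.trans h6) (not_le.2 h7)
  refine ⟨h3, ?_⟩
  rw [← h1, map_mul, map_pow, Valuation.map_sub_eq_of_lt_left _ h3, mul_comm, ← pow_succ]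
  congr 1
  omega

variable {K : Type} [Field K] [NumberField K] {s : K} {d : ℕ}

theorem comps_root_val {B Γ : Type} [Field B] [Algebra K B] [LinearOrderedCommGroupWithZero Γ]
    {w : Valuation B Γ} (hd : 3 ≤ d) (hs0 : s ≠ 0) (hs : w (algebraMap K B s) < 1) (n : ℕ)
    {z : B} (hz : aeval z (comps (fun _ => phi s d) (n + 1)) = 0) :
    w (algebraMap K B s) < w z ∧ w z ^ d ^ (n + 1) = w (algebraMap K B s) := by
  have hs0' : algebraMap K B s ≠ 0 := (_root_.map_ne_zero _).2 hs0
  induction n generalizing z with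
  | zero =>
    rw [comps_phi_succ, comps, aeval_X] at hz
    have h1 := root_val hd hs0' hs hz (Or.inr rfl)
    rw [if_pos rfl] at h1
    rwa [zero_add, pow_one]
  | succ n ih =>
    rw [comps_phi_succ] at hz
    obtain ⟨h1, h2⟩ := ih hz
    have h3 := root_val hd hs0' hs (z := z) rfl (Or.inl h1)
    have h4 : ¬ z * (z - algebraMap K B s) ^ (d - 1) + algebraMap K B s = 0 := by
      intro h5
      rw [h5, map_zero] at h1
      exact absurd h1 (not_lt.2 zero_le)
    rw [if_neg h4] at h3
    refine ⟨h3.1, ?_⟩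
    rw [pow_succ', pow_mul, h3.2, h2]

theorem minpoly_comps {v : HeightOneSpectrum (𝓞 K)} (hdp : d.Prime) (hd : 3 ≤ d)
    (hs0 : s ≠ 0) (hs : v.valuation K s < 1) (hdv : ¬ (d : ℤ) ∣ log (v.valuation K s)) (n : ℕ)
    (z : AlgebraicClosure K) (hz : aeval z (comps (fun _ => phi s d) (n + 1)) = 0) :
    minpoly K z = comps (fun _ => phi s d) (n + 1) := by
  set f := comps (fun _ => phi s d) (n + 1) with hf
  have hfm : f.Monic := comps_monic (fun _ => phi_monic s hdp.two_le)
    (fun _ => by rwa [phi_natDegree s hdp.two_le]) _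
  have hfd : f.natDegree = d ^ (n + 1) := comps_phi_natDegree hdp.two_le _
  have hzi : IsIntegral K z := ⟨f, hfm, by rwa [← aeval_def]⟩
  have hdvd : minpoly K z ∣ f := minpoly.dvd K z hz
  have hAm : (minpoly K z).Monic := minpoly.monic hzi
  -- the field
  let R : Set (AlgebraicClosure K) := f.rootSet (AlgebraicClosure K)
  let M : IntermediateField K (AlgebraicClosure K) := IntermediateField.adjoin K R
  have hRfin : R.Finite := rootSet_finite _ _
  have hRst : ∀ (σ : AlgebraicClosure K ≃ₐ[K] AlgebraicClosure K), ∀ x ∈ R, σ x ∈ R := by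
    intro σ x hx
    rw [mem_rootSet] at hx ⊢
    exact ⟨hx.1, map_root σ _ hx.2⟩
  have hfdM : FiniteDimensional K M := by
    have := hRfin.to_subtype
    exact IntermediateField.finiteDimensional_adjoin
      fun z _ => Normal.isIntegral (F := K) inferInstance z
  have hnM : NumberField M := NumberField.of_module_finite K M
  have hnorm : Normal K M := normal_adjoin R hRst
  have hgal : IsGalois K M := ⟨⟩
  obtain ⟨P, hP⟩ := exists_place_above (M := M) v
  have hzR : z ∈ R := mem_rootSet.2 ⟨hfm.ne_zero, hz⟩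
  let z' : M := ⟨z, IntermediateField.subset_adjoin K R hzR⟩
  have hmin : minpoly K z' = minpoly K z := (minpoly.algebraMap_eq (B := M)
    (B' := AlgebraicClosure K) (FaithfulSMul.algebraMap_injective M (AlgebraicClosure K)) z').symm
  have hspl : ((minpoly K z).map (algebraMap K M)).Splits := by
    rw [← hmin]
    exact hnorm.splits z'
  set k := (minpoly K z).natDegree with hk
  have hk0 : 0 < k := minpoly.natDegree_pos hzi
  have hcoef := hspl.coeff_zero_eq_prod_roots_of_monic (hAm.map _)
  rw [coeff_map, natDegree_map] at hcoef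
  set w := P.valuation M with hw
  have hws : w (algebraMap K M s) < 1 := by
    rw [hw, val_eq_pow_card v P]
    exact pow_lt_one₀ zero_le hs Nat.card_pos.ne'
  have hcard : Multiset.card ((minpoly K z).map (algebraMap K M)).roots = k := by
    rw [← hspl.natDegree_eq_card_roots, natDegree_map]
  have hwc : w (algebraMap K M ((minpoly K z).coeff 0)) ^ d ^ (n + 1) =
      w (algebraMap K M s) ^ k := by
    rw [hcoef, map_mul, map_pow, Valuation.map_neg, map_one, one_pow, one_mul,
      map_multiset_prod, ← Multiset.prod_map_pow]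
    rw [Multiset.map_congr rfl (g := fun _ => w (algebraMap K M s)), Multiset.map_const',
      Multiset.prod_replicate, hcard]
    intro x hx
    rw [mem_roots (hAm.map _).ne_zero, IsRoot.def, eval_map_algebraMap] at hx
    exact (comps_root_val hd hs0 hws n (aeval_eq_zero_of_dvd_aeval_eq_zero hdvd hx)).2
  have hlog : (d : ℤ) ^ (n + 1) * log (v.valuation K ((minpoly K z).coeff 0)) =
      k * log (v.valuation K s) := by
    rw [hw, val_eq_pow_card v P, val_eq_pow_card v P] at hwc
    have h1 := congrArg log hwc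
    rw [log_pow, log_pow, log_pow, log_pow] at h1
    have h2 : (Nat.card (P.asIdeal.inertia (M ≃ₐ[K] M)) : ℤ) ≠ 0 :=
      Nat.cast_ne_zero.2 Nat.card_pos.ne'
    simp only [nsmul_eq_mul] at h1
    push_cast at h1
    refine mul_left_cancel₀ h2 ?_
    linear_combination h1
  have hdk : (d : ℤ) ^ (n + 1) ∣ k := by
    have h1 : IsCoprime ((d : ℤ) ^ (n + 1)) (log (v.valuation K s)) :=
      IsCoprime.pow_left (((Nat.prime_iff_prime_int.1 hdp).coprime_iff_not_dvd).2 hdv)
    exact h1.dvd_of_dvd_mul_right ⟨_, hlog.symm⟩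
  have hdk' : d ^ (n + 1) ≤ k := by
    have h1 : d ^ (n + 1) ∣ k := by exact_mod_cast hdk
    exact Nat.le_of_dvd hk0 h1
  exact (eq_of_monic_of_dvd_of_natDegree_le hAm hfm hdvd (by rw [hfd]; exact hdk')).symm

/-- **Transitivity.** -/
theorem comps_phi_trans {v : HeightOneSpectrum (𝓞 K)} (hdp : d.Prime) (hd : 3 ≤ d)
    (hs0 : s ≠ 0) (hs : v.valuation K s < 1) (hdv : ¬ (d : ℤ) ∣ log (v.valuation K s)) (n : ℕ)
    (x y : AlgebraicClosure K) (hx : aeval x (comps (fun _ => phi s d) n) = 0)
    (hy : aeval y (comps (fun _ => phi s d) n) = 0) :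
    ∃ σ : AlgebraicClosure K ≃ₐ[K] AlgebraicClosure K, σ x = y := by
  cases n with
  | zero =>
    rw [comps, aeval_X] at hx hy
    exact ⟨AlgEquiv.refl, by rw [hx, hy]; rfl⟩
  | succ n =>
    have h1 := minpoly_comps hdp hd hs0 hs hdv n x hx
    exact minpoly.exists_algEquiv_of_root' (Algebra.IsAlgebraic.isAlgebraic x) (by rw [h1]; exact hy)

end trans

end

end Pool.Agent.H852.J
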