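import Mathlib
import Pool.Agent.H852.J.B17
import Pool.Agent.H852.J.A6

/-!
# The critical orbit over the rational numbers
-/

set_option linter.unusedSectionVars false
set_option autoImplicit false

open Polynomial Module NumberField IsDedekindDomain
open HeightOneSpectrum WithZero

namespace Pool.Agent.H852.J

noncomputable section

theorem comps_succ' {K : Type} [Field K] (s : K) (d n : ℕ) (x : K) :
    (comps (fun _ => phi s d) (n + 1)).eval x =
      (comps (fun _ => phi s d) n).eval x * ((comps (fun _ => phi s d) n).eval x - s) ^ (d - 1) +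
        s := by
  induction n generalizing x with
  | zero =>
    simp only [comps, eval_comp, eval_X, eval_phi]
  | succ n ih =>
    have h1 : ∀ m y, (comps (fun _ => phi s d) (m + 1)).eval y =
        (comps (fun _ => phi s d) m).eval (y * (y - s) ^ (d - 1) + s) := by
      intro m y
      rw [comps, eval_comp, eval_phi]
    rw [h1 (n + 1), ih, ← h1 n]

/-- the numerators of the critical orbit -/
def seqN (s : ℤ) (d : ℕ) : ℕ → ℤ
  | 0 => 1
  | n + 1 => s ^ (d - 1) * seqN s d n * (seqN s d n - (d : ℤ) ^ d ^ n) ^ (d - 1) +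
      (d : ℤ) ^ d ^ (n + 1)

theorem orb_seqN (s : ℤ) {d : ℕ} (hd : 3 ≤ d) (n : ℕ) :
    orb (s : ℚ) d n * (d : ℚ) ^ d ^ n = s * seqN s d n := by
  have hd0 : (d : ℚ) ≠ 0 := Nat.cast_ne_zero.2 (by omega)
  induction n with
  | zero =>
    rw [orb, comps, eval_X, seqN, pow_zero, pow_one, div_mul_cancel₀ _ hd0, Int.cast_one, mul_one]
  | succ n ih =>
    have h1 : orb (s : ℚ) d (n + 1) =
        orb (s : ℚ) d n * (orb (s : ℚ) d n - s) ^ (d - 1) + s := comps_succ' _ _ _ _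
    have h2 : (d : ℚ) ^ d ^ (n + 1) = ((d : ℚ) ^ d ^ n) * ((d : ℚ) ^ d ^ n) ^ (d - 1) := by
      rw [← pow_succ', Nat.sub_add_cancel (by omega), ← pow_mul, ← pow_succ]
    rw [h1, seqN]
    push_cast
    have h3 : (orb (s : ℚ) d n * (orb (s : ℚ) d n - s) ^ (d - 1) + s) * (d : ℚ) ^ d ^ (n + 1) =
        (orb (s : ℚ) d n * (d : ℚ) ^ d ^ n) *
          (orb (s : ℚ) d n * (d : ℚ) ^ d ^ n - s * (d : ℚ) ^ d ^ n) ^ (d - 1) +
          s * (d : ℚ) ^ d ^ (n + 1) := by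
      rw [← sub_mul, mul_pow, h2]
      ring
    rw [h3, ih, ← mul_sub, mul_pow]
    ring

theorem seqN_pos {s : ℤ} (hs : s ≠ 0) {d : ℕ} (hd : 3 ≤ d) (hodd : Odd d) (n : ℕ) :
    0 < seqN s d n := by
  have he : Even (d - 1) := by
    obtain ⟨k, hk⟩ := hodd
    exact ⟨k, by omega⟩
  cases n with
  | zero =>
    rw [seqN]
    exact one_pos
  | succ n =>
    have h1 := seqN_pos hs hd hodd n
    rw [seqN]
    have h2 : 0 < s ^ (d - 1) := he.pow_pos hs
    have h3 : 0 ≤ (seqN s d n - (d : ℤ) ^ d ^ n) ^ (d - 1) := he.pow_nonneg _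
    have h4 : (0 : ℤ) < (d : ℤ) ^ d ^ (n + 1) := pow_pos (by exact_mod_cast (by omega : 0 < d)) _
    have h5 : 0 ≤ s ^ (d - 1) * seqN s d n * (seqN s d n - (d : ℤ) ^ d ^ n) ^ (d - 1) :=
      mul_nonneg (mul_nonneg h2.le h1.le) h3
    linarith

theorem seqN_odd (s : ℤ) {d : ℕ} (hd : 3 ≤ d) (hodd : Odd d) (n : ℕ) : Odd (seqN s d n) := by
  have hD : ∀ k, Odd ((d : ℤ) ^ k) := fun k => (by exact_mod_cast hodd : Odd (d : ℤ)).pow
  induction n with
  | zero =>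
    rw [seqN]
    exact odd_one
  | succ n ih =>
    rw [seqN]
    have h1 : Even (seqN s d n - (d : ℤ) ^ d ^ n) := ih.sub_odd (hD _)
    have h2 : Even ((seqN s d n - (d : ℤ) ^ d ^ n) ^ (d - 1)) := h1.pow_of_ne_zero (by omega)
    exact (h2.mul_left _).add_odd (hD _)

theorem seqN_s {s : ℤ} {d : ℕ} (hd : 3 ≤ d) (hsd : IsCoprime s (d : ℤ)) (n : ℕ) :
    IsCoprime s (seqN s d n) := by
  cases n with
  | zero =>
    rw [seqN]
    exact isCoprime_one_right
  | succ n =>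
    rw [seqN]
    obtain ⟨e, rfl⟩ := Nat.exists_eq_add_of_le' hd
    have h1 : s ^ (e + 3 - 1) * seqN s (e + 3) n *
        (seqN s (e + 3) n - ((e + 3 : ℕ) : ℤ) ^ (e + 3) ^ n) ^ (e + 3 - 1) +
        ((e + 3 : ℕ) : ℤ) ^ (e + 3) ^ (n + 1) = ((e + 3 : ℕ) : ℤ) ^ (e + 3) ^ (n + 1) +
          s * (s ^ (e + 1) * seqN s (e + 3) n *
            (seqN s (e + 3) n - ((e + 3 : ℕ) : ℤ) ^ (e + 3) ^ n) ^ (e + 3 - 1)) := by
      rw [show e + 3 - 1 = e + 1 + 1 by omega, pow_succ' s]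
      ring
    rw [h1]
    exact (hsd.pow_right).add_mul_left_right _

theorem seqN_d {s : ℤ} {d : ℕ} (hd : 3 ≤ d) (hsd : IsCoprime s (d : ℤ)) (n : ℕ) :
    IsCoprime (d : ℤ) (seqN s d n) := by
  induction n with
  | zero =>
    rw [seqN]
    exact isCoprime_one_right
  | succ n ih =>
    rw [seqN]
    obtain ⟨c, hc⟩ : (d : ℤ) ∣ (d : ℤ) ^ d ^ n := dvd_pow_self _ (pow_ne_zero _ (by omega))
    obtain ⟨c', hc'⟩ : (d : ℤ) ∣ (d : ℤ) ^ d ^ (n + 1) := dvd_pow_self _ (pow_ne_zero _ (by omega))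
    have h1 : IsCoprime (d : ℤ) (seqN s d n - (d : ℤ) ^ d ^ n) := by
      have h2 : seqN s d n - (d : ℤ) ^ d ^ n = seqN s d n + d * (-c) := by rw [hc]; ring
      rw [h2]
      exact ih.add_mul_left_right _
    have h2 : IsCoprime (d : ℤ) (s ^ (d - 1) * seqN s d n *
        (seqN s d n - (d : ℤ) ^ d ^ n) ^ (d - 1)) :=
      (hsd.symm.pow_right.mul_right ih).mul_right h1.pow_right
    rw [hc']
    exact h2.add_mul_left_right _

theorem seqN_pair {s : ℤ} {d : ℕ} (hd : 3 ≤ d) (hsd : IsCoprime s (d : ℤ)) {m n : ℕ}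
    (hmn : m < n) : IsCoprime (seqN s d m) (seqN s d n) := by
  have h1 : ∀ k, ∃ c, seqN s d (m + 1 + k) = (d : ℤ) ^ d ^ (m + 1 + k) + seqN s d m * c := by
    intro k
    induction k with
    | zero =>
      refine ⟨s ^ (d - 1) * (seqN s d m - (d : ℤ) ^ d ^ m) ^ (d - 1), ?_⟩
      rw [Nat.add_zero, seqN]
      ring
    | succ k ih =>
      obtain ⟨c, hc⟩ := ih
      rw [← Nat.add_assoc, seqN]
      have h2 : seqN s d (m + 1 + k) - (d : ℤ) ^ d ^ (m + 1 + k) = seqN s d m * c := by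
        rw [hc]
        ring
      rw [h2]
      obtain ⟨e, rfl⟩ := Nat.exists_eq_add_of_le' hd
      rw [show e + 3 - 1 = e + 1 + 1 by omega]
      refine ⟨s ^ (e + 1 + 1) * seqN s (e + 3) (m + 1 + k) *
        ((seqN s (e + 3) m) ^ (e + 1) * c ^ (e + 1 + 1)), ?_⟩
      ring
  obtain ⟨k, rfl⟩ := Nat.exists_eq_add_of_lt hmn
  obtain ⟨c, hc⟩ := h1 k
  rw [show m + k + 1 = m + 1 + k by ring, hc]
  exact ((seqN_d hd hsd m).symm.pow_right).add_mul_left_right c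

/-- the numerators are not squares -/
theorem seqN_not_sq {s : ℤ} (hs : s ≠ 0) {d : ℕ} (hd : 3 ≤ d) (hodd : Odd d)
    (h8 : d % 8 ≠ 1 ∨ ∃ q : ℕ, q.Prime ∧ (q : ℤ) ∣ s ∧ ¬ IsSquare (d : ZMod q)) (n : ℕ)
    (hn : 1 ≤ n) : ¬ IsSquare (seqN s d n).natAbs := by
  obtain ⟨m, rfl⟩ := Nat.exists_eq_add_of_le' hn
  rintro ⟨y, hy⟩
  have hpos := seqN_pos hs hd hodd (m + 1)
  have hy' : seqN s d (m + 1) = y * y := by
    have h1 : ((seqN s d (m + 1)).natAbs : ℤ) = seqN s d (m + 1) := Int.natAbs_of_nonneg hpos.le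
    rw [← h1, hy]
    push_cast
    ring
  obtain ⟨k, hk⟩ : ∃ k, d ^ (m + 1) = 2 * k + 1 := hodd.pow
  have hDodd : ∀ j, Odd ((d : ℤ) ^ j) := fun j => (by exact_mod_cast hodd : Odd (d : ℤ)).pow
  rcases h8 with h8 | ⟨q, hq, hqs, hqd⟩
  · obtain ⟨c, hc⟩ : Even (seqN s d m - (d : ℤ) ^ d ^ m) := (seqN_odd s hd hodd m).sub_odd (hDodd _)
    have hsq8 : ∀ x : ℤ, Odd x → x * x % 8 = 1 := by
      rintro x ⟨u, rfl⟩
      obtain ⟨w, hw⟩ := Int.even_mul_succ_self u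
      have h1 : (2 * u + 1) * (2 * u + 1) = 1 + 8 * w := by
        have h2 : (2 * u + 1) * (2 * u + 1) = 4 * (u * (u + 1)) + 1 := by ring
        rw [h2, hw]
        ring
      omega
    have hD8 : ∃ w : ℤ, (d : ℤ) ^ d ^ (m + 1) = d + 8 * w := by
      have h1 := hsq8 ((d : ℤ) ^ k) (hDodd _)
      refine ⟨(d : ℤ) * ((d : ℤ) ^ k * (d : ℤ) ^ k / 8), ?_⟩
      have h2 : (d : ℤ) ^ k * (d : ℤ) ^ k = 8 * ((d : ℤ) ^ k * (d : ℤ) ^ k / 8) + 1 := by omega
      rw [hk, pow_succ, two_mul, pow_add]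
      conv_lhs => rw [h2]
      ring
    obtain ⟨w, hw⟩ := hD8
    have hyodd : Odd (y : ℤ) := by
      have h1 := seqN_odd s hd hodd (m + 1)
      rw [hy'] at h1
      exact (Int.odd_mul.1 h1).1
    have hy8 := hsq8 y hyodd
    rw [← hy', seqN, hc, ← two_mul, mul_pow, hw] at hy8
    obtain ⟨j, hj⟩ := hodd
    by_cases hd3 : d = 3
    · subst hd3
      norm_num at hy8
      have h1 : (s ^ 2 * seqN s 3 m * (4 * c ^ 2) + (3 + 8 * w)) =
          4 * (s ^ 2 * seqN s 3 m * c ^ 2 + 2 * w) + 3 := by ring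
      rw [h1] at hy8
      omega
    · have h5 : 5 ≤ d := by omega
      obtain ⟨e, he⟩ := Nat.exists_eq_add_of_le' h5
      have h1 : s ^ (d - 1) * seqN s d m * (2 ^ (d - 1) * c ^ (d - 1)) + ((d : ℤ) + 8 * w) =
          d + 8 * (s ^ (d - 1) * seqN s d m * (2 * 2 ^ e * c ^ (d - 1)) + w) := by
        have h2 : (2 : ℤ) ^ (d - 1) = 8 * (2 * 2 ^ e) := by
          rw [he, show e + 5 - 1 = e + 4 by omega, pow_add]
          ring
        rw [h2]
        ring
      rw [h1] at hy8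
      omega
  · have hqf : Fact q.Prime := ⟨hq⟩
    apply hqd
    have h1 : ((seqN s d (m + 1) : ℤ) : ZMod q) = (d : ZMod q) ^ (2 * k + 1) := by
      have h2 : ((s : ℤ) : ZMod q) = 0 := (ZMod.intCast_zmod_eq_zero_iff_dvd s q).2 hqs
      rw [seqN]
      push_cast
      rw [h2, zero_pow (by omega), zero_mul, zero_mul, zero_add, hk]
    rw [hy'] at h1
    push_cast at h1
    have hd0 : (d : ZMod q) ≠ 0 := by
      intro h2
      rw [h2] at hqd
      exact hqd ⟨0, (mul_zero _).symm⟩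
    refine ⟨(y : ZMod q) / (d : ZMod q) ^ k, ?_⟩
    rw [div_mul_div_comm, h1, eq_div_iff (mul_ne_zero (pow_ne_zero _ hd0) (pow_ne_zero _ hd0))]
    ring

/-- **The places of the critical orbit.** -/
theorem exists_critV {s : ℤ} (hs : s ≠ 0) {d : ℕ} (hd : 3 ≤ d) (hodd : Odd d)
    (hsd : IsCoprime s (d : ℤ))
    (h8 : d % 8 ≠ 1 ∨ ∃ q : ℕ, q.Prime ∧ (q : ℤ) ∣ s ∧ ¬ IsSquare (d : ZMod q)) (m : ℕ)
    (hm : 1 ≤ m) : ∃ v : HeightOneSpectrum (𝓞 ℚ), (∀ N, CritV (s : ℚ) d N m v) ∧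
      ((2 * d * s : ℤ) : 𝓞 ℚ) ∉ v.asIdeal := by
  have hW0 : seqN s d m ≠ 0 := (seqN_pos hs hd hodd m).ne'
  obtain ⟨p, a, b, hp, hab, hpb⟩ := exists_odd_prime_factor (seqN s d m) hW0
    (seqN_not_sq hs hd hodd h8 m hm)
  have hpW : (p : ℤ) ∣ seqN s d m := ⟨a ^ 2 * b, by rw [hab]; ring⟩
  have hpp : Prime (p : ℤ) := Nat.prime_iff_prime_int.1 hp
  have hp1 : ¬ IsUnit (p : ℤ) := hpp.not_isUnit
  have hp2 : ¬ (p : ℤ) ∣ 2 := by
    intro h
    have h1 : IsCoprime (2 : ℤ) (seqN s d m) := by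
      obtain ⟨k, hk⟩ := seqN_odd s hd hodd m
      exact ⟨-k, 1, by rw [hk]; ring⟩
    exact hp1 (h1.isUnit_of_dvd' h hpW)
  have hps : ¬ (p : ℤ) ∣ s := fun h => hp1 ((seqN_s hd hsd m).isUnit_of_dvd' h hpW)
  have hpd : ¬ (p : ℤ) ∣ d := fun h => hp1 ((seqN_d hd hsd m).isUnit_of_dvd' h hpW)
  have hpWj : ∀ j, j ≠ m → ¬ (p : ℤ) ∣ seqN s d j := by
    intro j hj h
    rcases lt_or_gt_of_ne hj with h1 | h1
    · exact hp1 ((seqN_pair hd hsd h1).isUnit_of_dvd' h hpW)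
    · exact hp1 ((seqN_pair hd hsd h1).isUnit_of_dvd' hpW h)
  obtain ⟨v, hv1, hv2, hv3⟩ := exists_rat_place p hp
  have hvd : v.valuation ℚ (d : ℚ) = 1 := by
    have h1 := hv2 d hpd
    exact_mod_cast h1
  have hor : ∀ j, v.valuation ℚ (orb (s : ℚ) d j) = v.valuation ℚ (seqN s d j : ℚ) := by
    intro j
    have h5 := congrArg (v.valuation ℚ) (orb_seqN s hd j)
    rwa [map_mul, map_pow, hvd, one_pow, mul_one, map_mul, hv2 s hps, one_mul] at h5
  refine ⟨v, fun N => ⟨?_, hv2 s hps, hvd, fun j _ _ hj => ?_, ?_⟩, ?_⟩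
  · exact_mod_cast hv3 2 hp2
  · rw [hor, hv2 _ (hpWj j hj)]
  · rw [hor, hab]
    have ha0 : (a : ℚ) ≠ 0 := by
      intro h
      apply hW0
      have h5 : a = 0 := by exact_mod_cast h
      rw [hab, h5]
      ring
    have h5 : v.valuation ℚ (a : ℚ) ≠ 0 := (Valuation.ne_zero_iff _).2 ha0
    have h6 : ((a ^ 2 * p * b : ℤ) : ℚ) = (a : ℚ) ^ 2 * (p : ℚ) * (b : ℚ) := by push_cast; ring
    rw [h6, map_mul, map_mul, map_pow, hv1, hv2 b hpb, mul_one,
      log_mul (pow_ne_zero _ h5) (by simp), log_pow, log_exp]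
    exact ⟨log (v.valuation ℚ (a : ℚ)) - 1, by simp; ring⟩
  · refine hv3 _ fun h => ?_
    rcases hpp.dvd_or_dvd h with h1 | h1
    · rcases hpp.dvd_or_dvd h1 with h3 | h3
      · exact hp2 h3
      · exact hpd h3
    · exact hps h1

/-- a number all of whose multiplicities are divisible by `d` is a `d`-th power -/
theorem exists_root_of_factorization {a d : ℕ} (ha : a ≠ 0)
    (h : ∀ p : ℕ, p.Prime → d ∣ a.factorization p) : ∃ c : ℕ, c ^ d = a := by
  refine ⟨a.factorization.prod fun p k => p ^ (k / d), ?_⟩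
  conv_rhs => rw [← Nat.prod_factorization_pow_eq_self ha]
  rw [Finsupp.prod, Finsupp.prod, ← Finset.prod_pow]
  refine Finset.prod_congr rfl fun p hp => ?_
  rw [← pow_mul, Nat.div_mul_cancel (h p (Nat.prime_of_mem_primeFactors hp))]

/-- the place at which the polynomials are irreducible -/
theorem exists_irr_place {s : ℤ} (hs : s ≠ 0) {d : ℕ} (hodd : Odd d)
    (hpow : ∀ c : ℤ, c ^ d ≠ s) : ∃ v : HeightOneSpectrum (𝓞 ℚ),
      v.valuation ℚ (s : ℚ) < 1 ∧ ¬ (d : ℤ) ∣ log (v.valuation ℚ (s : ℚ)) := by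
  have hs' : s.natAbs ≠ 0 := Int.natAbs_ne_zero.2 hs
  obtain ⟨p, hp, hdp⟩ : ∃ p : ℕ, p.Prime ∧ ¬ d ∣ s.natAbs.factorization p := by
    by_contra hno
    push Not at hno
    obtain ⟨c, hc⟩ := exists_root_of_factorization hs' hno
    rcases Int.natAbs_eq s with h1 | h1
    · refine hpow c ?_
      rw [h1, ← hc]
      push_cast
      rfl
    · refine hpow (-c) ?_
      rw [h1, ← hc, hodd.neg_pow]
      push_cast
      rfl
  obtain ⟨v, hv1, hv2, -⟩ := exists_rat_place p hp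
  set k := s.natAbs.factorization p with hk
  obtain ⟨c, hc⟩ : p ^ k ∣ s.natAbs := Nat.ordProj_dvd _ _
  have hpc : ¬ p ∣ c := by
    intro h1
    obtain ⟨e, rfl⟩ := h1
    have h2 : p ^ (k + 1) ∣ s.natAbs := ⟨e, by rw [hc]; ring⟩
    exact Nat.pow_succ_factorization_not_dvd hs' hp h2
  have hpc' : ¬ (p : ℤ) ∣ c * s.sign := by
    intro h1
    have h2 : (p : ℤ) ∣ c := by
      have h3 : (c : ℤ) = (c * s.sign) * s.sign := by
        have h4 : s.sign * s.sign = 1 := by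
          rcases lt_or_gt_of_ne hs with h5 | h5
          · rw [Int.sign_eq_neg_one_of_neg h5]
            norm_num
          · rw [Int.sign_eq_one_of_pos h5]
            norm_num
        rw [mul_assoc, h4, mul_one]
      rw [h3]
      exact h1.mul_right _
    exact hpc (by exact_mod_cast h2)
  have hsv : v.valuation ℚ (s : ℚ) = exp (-(k : ℤ)) := by
    have h1 : (s : ℚ) = (p : ℚ) ^ k * ((c * s.sign : ℤ) : ℚ) := by
      have h2 : s = (p : ℤ) ^ k * (c * s.sign) := by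
        have h3 : s = s.natAbs * s.sign := by
          rw [mul_comm]
          exact (Int.sign_mul_natAbs s).symm
        conv_lhs => rw [h3, hc]
        push_cast
        ring
      conv_lhs => rw [h2]
      push_cast
      rfl
    rw [h1, map_mul, map_pow, hv1, hv2 _ hpc', mul_one, ← exp_nsmul]
    congr 1
    simp
  refine ⟨v, ?_, ?_⟩
  all_goals rw [hsv]
  · have hk0 : k ≠ 0 := fun h1 => hdp (by rw [h1]; exact dvd_zero _)
    rw [← exp_zero, exp_lt_exp]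
    omega
  · rw [log_exp, Int.dvd_neg]
    exact_mod_cast hdp

end

end Pool.Agent.H852.J
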