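import Mathlib
import Pool.Agent.H852.J.B16
import Pool.Agent.H852.J.C1

/-!
# Compositions of integral polynomials: local conditions modulo a prime number
-/

set_option linter.unusedSectionVars false
set_option autoImplicit false

open Polynomial Module NumberField IsDedekindDomain
open Pool.Agent.Y142.ZO (GK IsFrobenius)
open Pool.Agent.N171 Pool.Agent.N171.Al Pool.Agent.N171.Pm Pool.Agent.N171.Bg Pool.Agent.N171.TG
open HeightOneSpectrum WithZero

namespace Pool.Agent.H852.J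

noncomputable section

/-- the compositions, over any ring -/
def cmpR {R : Type*} [CommRing R] (G : ℕ → R[X]) : ℕ → R[X]
  | 0 => X
  | n + 1 => (cmpR G n).comp (G n)

/-- the integral polynomials as polynomials with coefficients in a field -/
def toQ (K : Type) [Field K] (G : ℕ → ℤ[X]) (n : ℕ) : K[X] := (G n).map (Int.castRingHom K)

theorem comps_toQ (K : Type) [Field K] (G : ℕ → ℤ[X]) (n : ℕ) :
    comps (toQ K G) n = (cmpR G n).map (Int.castRingHom K) := by
  induction n with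
  | zero => rw [comps, cmpR, Polynomial.map_X]
  | succ n ih => rw [comps, cmpR, ih, toQ, Polynomial.map_comp]

/-- the value of an integral polynomial -/
def evZ {B : Type*} [CommRing B] (x : B) (Q : ℤ[X]) : B := Q.eval₂ (Int.castRingHom B) x

section ring

variable {B : Type*} [CommRing B]

theorem evZ_eq_eval (x : B) (Q : ℤ[X]) : evZ x Q = (Q.map (Int.castRingHom B)).eval x := by
  rw [evZ, eval_map]

theorem evZ_X (x : B) : evZ x X = x := by rw [evZ, eval₂_X]

theorem evZ_comp (x : B) (P Q : ℤ[X]) : evZ x (P.comp Q) = evZ (evZ x Q) P := by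
  rw [evZ_eq_eval, Polynomial.map_comp, eval_comp, ← evZ_eq_eval, ← evZ_eq_eval]

theorem evZ_cmpR_zero (G : ℕ → ℤ[X]) (x : B) : evZ x (cmpR G 0) = x := by rw [cmpR, evZ_X]

theorem evZ_cmpR_succ (G : ℕ → ℤ[X]) (n : ℕ) (x : B) :
    evZ x (cmpR G (n + 1)) = evZ (evZ x (G n)) (cmpR G n) := by
  rw [cmpR, evZ_comp]

theorem aeval_map_evZ {K : Type} [Field K] {B : Type*} [Field B] [Algebra K B] (Q : ℤ[X])
    (x : B) : aeval x (Q.map (Int.castRingHom K)) = evZ x Q := by
  rw [aeval_def, eval₂_map, evZ]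
  congr 1
  exact RingHom.ext_int _ _

theorem aeval_toQ {K : Type} [Field K] {B : Type*} [Field B] [Algebra K B] (G : ℕ → ℤ[X])
    (n : ℕ) (x : B) : aeval x (toQ K G n) = evZ x (G n) := aeval_map_evZ _ _

theorem aeval_comps_toQ {K : Type} [Field K] {B : Type*} [Field B] [Algebra K B]
    (G : ℕ → ℤ[X]) (n : ℕ) (x : B) : aeval x (comps (toQ K G) n) = evZ x (cmpR G n) := by
  rw [comps_toQ, aeval_map_evZ]

theorem hom_evZ {B C : Type*} [CommRing B] [CommRing C] (φ : B →+* C) (Q : ℤ[X]) (x : B) :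
    φ (evZ x Q) = evZ (φ x) Q := by
  rw [evZ, evZ, hom_eval₂]
  congr 1
  exact RingHom.ext_int _ _

theorem evZ_int (Q : ℤ[X]) (γ : ℤ) : evZ (γ : B) Q = ((Q.eval γ : ℤ) : B) := by
  have h1 := hom_evZ (Int.castRingHom B) Q γ
  have h2 : evZ γ Q = Q.eval γ := by
    rw [evZ_eq_eval]
    congr 1
    exact Polynomial.map_id
  rw [h2] at h1
  exact h1.symm

theorem sub_dvd_evZ (Q : ℤ[X]) (x y : B) : x - y ∣ evZ x Q - evZ y Q := by
  rw [evZ_eq_eval, evZ_eq_eval]
  exact sub_dvd_eval_sub x y _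

theorem deriv_mem [IsDomain B] (P : Ideal B) (Q : ℤ[X]) {x y : B} (h : evZ x Q = evZ y Q)
    (hne : x ≠ y) (hmem : x - y ∈ P) : evZ x (derivative Q) ∈ P := by
  obtain ⟨k, hk⟩ := binomExpansion (Q.map (Int.castRingHom B)) x (y - x)
  rw [add_sub_cancel, derivative_map, ← evZ_eq_eval, ← evZ_eq_eval, ← evZ_eq_eval, ← h] at hk
  have h1 : (y - x) * (evZ x (derivative Q) + k * (y - x)) = 0 := by linear_combination -hk
  have h3 := (mul_eq_zero.1 h1).resolve_left (sub_ne_zero.2 (Ne.symm hne))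
  have h4 : evZ x (derivative Q) = k * (x - y) := by linear_combination h3
  rw [h4]
  exact P.mul_mem_left _ hmem

end ring

/-- the conditions at a prime number: exactly one node, at the level `k + 1` -/
structure LocNode (p : ℕ) [Fact p.Prime] (G : ℕ → ℤ[X]) (N k : ℕ) (γ : ℤ) : Prop where
  etale : ∀ n < N, n ≠ k → ∀ y : AlgebraicClosure (ZMod p), evZ y (derivative (G n)) = 0 →
    evZ y (cmpR G (n + 1)) ≠ 0
  crit : (p : ℤ) ∣ (derivative (G k)).eval γ
  simple : ¬ (p : ℤ) ∣ (derivative (derivative (G k))).eval γ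
  zero : (p : ℤ) ∣ (cmpR G (k + 1)).eval γ
  sq : ¬ (p : ℤ) ^ 2 ∣ (cmpR G (k + 1)).eval γ
  only : ∀ y : AlgebraicClosure (ZMod p), evZ y (derivative (G k)) = 0 →
    evZ y (cmpR G (k + 1)) = 0 → y = (γ : AlgebraicClosure (ZMod p))

section residue

variable (p : ℕ) [Fact p.Prime] (O : Type) [CommRing O] [IsDomain O] (P : Ideal O)

/-- the reduction map to the algebraic closure of the prime field -/
theorem exists_residue (hP : P.IsMaximal) (hfin : Finite (O ⧸ P)) (hp : (p : O) ∈ P) :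
    ∃ π : O →+* AlgebraicClosure (ZMod p), ∀ x, π x = 0 ↔ x ∈ P := by
  let _ : Field (O ⧸ P) := Ideal.Quotient.field P
  have hchar : CharP (O ⧸ P) p := by
    refine (CharP.charP_iff_prime_eq_zero (Fact.out : p.Prime)).2 ?_
    rw [← map_natCast (Ideal.Quotient.mk P)]
    exact Ideal.Quotient.eq_zero_iff_mem.2 hp
  let _ : Algebra (ZMod p) (O ⧸ P) := ZMod.algebra (O ⧸ P) p
  have hfd : Module.Finite (ZMod p) (O ⧸ P) := Module.Finite.of_finite
  have halg : Algebra.IsAlgebraic (ZMod p) (O ⧸ P) := inferInstance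
  let φ : (O ⧸ P) →ₐ[ZMod p] AlgebraicClosure (ZMod p) := IsAlgClosed.lift
  refine ⟨(φ : (O ⧸ P) →+* AlgebraicClosure (ZMod p)).comp (Ideal.Quotient.mk P), fun x => ?_⟩
  rw [RingHom.comp_apply]
  change φ (Ideal.Quotient.mk P x) = 0 ↔ _
  rw [map_eq_zero, Ideal.Quotient.eq_zero_iff_mem]

variable {p} {G : ℕ → ℤ[X]} {N k : ℕ} {γ : ℤ} {P} (h : LocNode p G N k γ)
  {π : O →+* AlgebraicClosure (ZMod p)} (hπ : ∀ x, π x = 0 ↔ x ∈ P)

include h hπ in
theorem loc_etale {n : ℕ} (hn : n < N) (hnk : n ≠ k) {x y : O} (hx : evZ x (cmpR G (n + 1)) = 0)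
    (hxy : evZ x (G n) = evZ y (G n)) (hne : x ≠ y) : x - y ∉ P := by
  intro hmem
  have h1 := deriv_mem P (G n) hxy hne hmem
  rw [← hπ, hom_evZ] at h1
  have h2 := hom_evZ π (cmpR G (n + 1)) x
  rw [hx, map_zero] at h2
  exact h.etale n hn hnk (π x) h1 h2.symm

include h hπ in
theorem loc_diff (m : ℕ) (hm : m ≤ N) (hmk : m ≤ k) {x y : O} (hx : evZ x (cmpR G m) = 0)
    (hy : evZ y (cmpR G m) = 0) (hne : x ≠ y) : x - y ∉ P := by
  induction m generalizing x y with
  | zero =>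
    rw [evZ_cmpR_zero] at hx hy
    exact absurd (hx.trans hy.symm) hne
  | succ m ih =>
    by_cases hxy : evZ x (G m) = evZ y (G m)
    · exact loc_etale O h hπ (by omega) (by omega) hx hxy hne
    · intro hmem
      rw [evZ_cmpR_succ] at hx hy
      refine ih (by omega) (by omega) hx hy hxy ?_
      obtain ⟨q, hq⟩ := sub_dvd_evZ (G m) x y
      rw [hq]
      exact P.mul_mem_right _ hmem

end residue

end

end Pool.Agent.H852.J
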