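import Mathlib
import Pool.Agent.H852.J.C2

/-!
# Compositions of integral polynomials: places with one node
-/

set_option linter.unusedSectionVars false
set_option autoImplicit false

open Polynomial Module NumberField IsDedekindDomain
open Pool.Agent.Y142.ZO (GK IsFrobenius)
open Pool.Agent.N171 Pool.Agent.N171.Al Pool.Agent.N171.Pm Pool.Agent.N171.Bg Pool.Agent.N171.TG
open HeightOneSpectrum WithZero

namespace Pool.Agent.H852.J

noncomputable section

variable {K : Type} [Field K] [NumberField K] {G : ℕ → ℤ[X]}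

theorem cmpR_monic {R : Type*} [CommRing R] [IsDomain R] {G : ℕ → R[X]} (hm : ∀ n, (G n).Monic)
    (hd : ∀ n, (G n).natDegree ≠ 0) (n : ℕ) : (cmpR G n).Monic := by
  induction n with
  | zero => exact monic_X
  | succ n ih => exact ih.comp (hm n) (hd n)

theorem toQ_natDegree (n : ℕ) : (toQ K G n).natDegree = (G n).natDegree :=
  natDegree_map_eq_of_injective (RingHom.injective_int _) _

section place

variable {p : ℕ} [Fact p.Prime] (hm : ∀ n, (G n).Monic) (h : CompHyp (toQ K G))
  [hyp : ∀ n, Hyp (rtA (toQ K G) n)]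

include hm h in
theorem root_isIntegral {M : Type} [Field M] [Algebra K M] {n : ℕ} {u : M}
    (hu : aeval u (comps (toQ K G) n) = 0) : IsIntegral ℤ u := by
  refine ⟨cmpR G n, cmpR_monic hm (fun n => ?_) n, ?_⟩
  · rw [← toQ_natDegree (K := K)]
    have := h.deg n
    omega
  · rw [aeval_comps_toQ] at hu
    exact hu

include hm h in
/-- **The places of the local conditions are places with one node.** -/
theorem nodePlace_of_loc (hp2 : p ≠ 2) {N k : ℕ} (hk : k < N) {γ : ℤ}
    (hl : LocNode p G N k γ) {v : HeightOneSpectrum (𝓞 K)}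
    (hv1 : v.valuation K (p : K) = exp (-1 : ℤ))
    (hv2 : ∀ m : ℤ, ¬ (p : ℤ) ∣ m → v.valuation K (m : K) = 1)
    (hv3 : ∀ m : ℤ, ¬ (p : ℤ) ∣ m → (m : 𝓞 K) ∉ v.asIdeal) :
    NodePlace (toQ K G) N (k + 1) v := by
  classical
  have hpp : p.Prime := Fact.out
  have h2p : ¬ (p : ℤ) ∣ 2 := by
    intro h1
    have h3 : p ∣ 2 := by exact_mod_cast h1
    exact hp2 ((Nat.prime_dvd_prime_iff_eq hpp Nat.prime_two).1 h3)
  have htwo : (2 : 𝓞 K) ∉ v.asIdeal := by exact_mod_cast hv3 2 h2p
  have hpv : (p : 𝓞 K) ∈ v.asIdeal := by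
    refine (v.valuation_lt_one_iff_mem (K := K) _).1 ?_
    have h1 : algebraMap (𝓞 K) K (p : 𝓞 K) = (p : K) := map_natCast (algebraMap (𝓞 K) K) p
    change v.valuation K (algebraMap (𝓞 K) K (p : 𝓞 K)) < 1
    rw [h1, hv1, ← exp_zero, exp_lt_exp]
    norm_num
  -- the reduction maps
  have hres : ∀ (M : IntermediateField K (AlgebraicClosure K)) [NumberField M]
      (P : HeightOneSpectrum (𝓞 M)) [P.asIdeal.LiesOver v.asIdeal],
      ∃ π : 𝓞 M →+* AlgebraicClosure (ZMod p), ∀ x, π x = 0 ↔ x ∈ P.asIdeal := by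
    intro M _ P _
    have hfin : Finite (𝓞 M ⧸ P.asIdeal) := Ideal.finiteQuotientOfFreeOfNeBot _ P.ne_bot
    refine exists_residue p (𝓞 M) P.asIdeal (P.isPrime.isMaximal P.ne_bot) hfin ?_
    have h1 : (p : 𝓞 K) ∈ P.asIdeal.under (𝓞 K) := by
      rw [← Ideal.LiesOver.over (p := v.asIdeal) (P := P.asIdeal)]
      exact hpv
    rw [Ideal.mem_comap, map_natCast] at h1
    exact h1
  -- integral elements
  have hlt : ∀ (M : IntermediateField K (AlgebraicClosure K)) [NumberField M]
      (P : HeightOneSpectrum (𝓞 M)) (x : 𝓞 M),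
      P.valuation M (x : M) < 1 ↔ x ∈ P.asIdeal := fun M _ P x => P.valuation_lt_one_iff_mem x
  have hone : ∀ (M : IntermediateField K (AlgebraicClosure K)) [NumberField M]
      (P : HeightOneSpectrum (𝓞 M)) (x : 𝓞 M), x ∉ P.asIdeal →
      P.valuation M (x : M) = 1 := fun M _ P x hx =>
    le_antisymm (P.valuation_le_one x) (not_lt.1 fun h1 => hx ((hlt M P x).1 h1))
  have hint : ∀ (n : ℕ) (M : IntermediateField K (AlgebraicClosure K)) [NumberField M]
      (u : M), aeval u (comps (toQ K G) n) = 0 → ∃ x : 𝓞 M, (x : M) = u ∧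
        evZ x (cmpR G n) = 0 := by
    intro n M _ u hu
    refine ⟨⟨u, root_isIntegral hm h hu⟩, rfl, ?_⟩
    apply RingOfIntegers.ext
    rw [aeval_comps_toQ] at hu
    have h1 := hom_evZ (algebraMap (𝓞 M) M) (cmpR G n) ⟨u, root_isIntegral hm h (by
      rw [aeval_comps_toQ]
      exact hu)⟩
    exact (h1.trans hu).trans (map_zero (algebraMap (𝓞 M) M)).symm
  have haev : ∀ (M : IntermediateField K (AlgebraicClosure K)) [NumberField M] (n : ℕ)
      (x : 𝓞 M), aeval (x : M) (toQ K G n) = ((evZ x (G n) : 𝓞 M) : M) := by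
    intro M _ n x
    rw [aeval_toQ]
    exact (hom_evZ (algebraMap (𝓞 M) M) (G n) x).symm
  refine ⟨htwo, fun n _ M _ _ P _ u hu => ?_, fun n hn hnm M _ _ P _ u u' hu huu hne => ?_,
    fun M _ _ P _ hM => ?_⟩
  · obtain ⟨x, rfl, -⟩ := hint n M u hu
    exact P.valuation_le_one x
  · obtain ⟨π, hπ⟩ := hres M P
    obtain ⟨x, rfl, hx⟩ := hint (n + 1) M u hu
    have hu' : aeval u' (comps (toQ K G) (n + 1)) = 0 := by
      rw [aeval_comps_succ, ← huu, ← aeval_comps_succ, hu]
    obtain ⟨y, rfl, hy⟩ := hint (n + 1) M u' hu'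
    have h1 := loc_etale (𝓞 M) hl hπ hn (by omega) hx (y := y) (by
      rw [haev, haev] at huu
      exact RingOfIntegers.ext huu) (fun h3 => hne (by rw [h3]))
    exact hone M P _ h1
  · have : IsGalois K M := ⟨⟩
    obtain ⟨π, hπ⟩ := hres M P
    set w := P.valuation M with hw
    have hkN : k ≤ N := hk.le
    have hint1 : ∀ x : 𝓞 M, w (x : M) ≤ 1 := fun x => P.valuation_le_one x
    have hZ : ∀ m : ℤ, w (m : M) ≤ 1 := by
      intro m
      have h1 := hint1 (m : 𝓞 M)
      have h3 : ((m : 𝓞 M) : M) = (m : M) := map_intCast (algebraMap (𝓞 M) M) m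
      rwa [h3] at h1
    have hZ1 : ∀ m : ℤ, ¬ (p : ℤ) ∣ m → w (m : M) = 1 := by
      intro m hpm
      have h1 := val_up_one v P (hv2 m hpm)
      rwa [map_intCast] at h1
    -- the value at the critical point
    set c : ℤ := (cmpR G (k + 1)).eval γ with hc
    have hvc : v.valuation K (c : K) = v.valuation K (p : K) := by
      obtain ⟨c', hc'⟩ := hl.zero
      have h1 : ¬ (p : ℤ) ∣ c' := by
        rintro ⟨e, he⟩
        refine hl.sq ⟨e, ?_⟩
        rw [← hc] at hc' ⊢
        rw [hc', he]
        ring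
      rw [← hc] at hc'
      rw [hc']
      push_cast
      rw [map_mul, hv2 c' h1, mul_one]
    have hwc : w (c : M) = w (p : M) := by
      have h1 := val_eq_pow_card v P (c : K)
      have h3 := val_eq_pow_card v P (p : K)
      rw [hvc, ← h3, map_intCast, map_natCast] at h1
      exact h1
    have hc0 : (c : M) ≠ 0 := by
      have h1 : (c : K) ≠ 0 := by
        rw [← Valuation.ne_zero_iff (v.valuation K), hvc, hv1]
        exact exp_ne_zero
      have h3 : c ≠ 0 := by exact_mod_cast h1
      exact_mod_cast h3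
    have hwp : w (p : M) < 1 := by
      have h3 := val_eq_pow_card v P (p : K)
      rw [map_natCast] at h3
      rw [hw, h3, hv1]
      refine pow_lt_one₀ zero_le ?_ Nat.card_pos.ne'
      rw [← exp_zero, exp_lt_exp]
      norm_num
    have hdvd : ∀ m : ℤ, (p : ℤ) ∣ m → w (m : M) ≤ w (p : M) := by
      rintro _ ⟨r, rfl⟩
      push_cast
      rw [map_mul]
      exact mul_le_of_le_one_right' (hZ r)
    -- the roots
    have hdiff : ∀ x y : M, aeval x (comps (toQ K G) k) = 0 →
        aeval y (comps (toQ K G) k) = 0 → x ≠ y → w (x - y) = 1 := by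
      intro x y hx hy hne
      obtain ⟨x, rfl, hx'⟩ := hint k M x hx
      obtain ⟨y, rfl, hy'⟩ := hint k M y hy
      exact hone M P _ (loc_diff (𝓞 M) hl hπ k hkN le_rfl hx' hy'
        (fun h3 => hne (by rw [h3])))
    set u₀ : M := (((G k).eval γ : ℤ) : M) with hu₀
    have hu₀1 : w u₀ ≤ 1 := hZ _
    have hcprod : (c : M) = ∏ x : Rt (toQ K G) k, (u₀ - eM M h hM k hkN x) := by
      rw [← prod_all M h hM k hkN, aeval_comps_toQ, hu₀, ← evZ_int, evZ_cmpR_succ, evZ_int]
    have hroot := fun x : Rt (toQ K G) k => eM_root M h hM k hkN x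
    have hri : ∀ (n : ℕ) (u : M), aeval u (comps (toQ K G) n) = 0 → w u ≤ 1 := by
      intro n u hu
      obtain ⟨x, rfl, -⟩ := hint n M u hu
      exact hint1 x
    obtain ⟨e₀, he₀⟩ : ∃ e₀ : Rt (toQ K G) k, w (u₀ - eM M h hM k hkN e₀) < 1 := by
      by_contra hno
      push Not at hno
      have hc1 : w (c : M) < 1 := hwc.trans_lt hwp
      rw [hcprod, map_prod] at hc1
      refine absurd hc1 (not_lt.2 (le_of_eq ?_))
      rw [eq_comm]
      exact Finset.prod_eq_one fun x _ => le_antisymm
        ((Valuation.map_sub _ _ _).trans (max_le hu₀1 (hri k _ (hroot x)))) (hno x)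
    have hoth : ∀ x : Rt (toQ K G) k, x ≠ e₀ → w (u₀ - eM M h hM k hkN x) = 1 := by
      intro x hx
      have h1 := hdiff _ _ (hroot x) (hroot e₀) fun h3 => hx (eM_inj M h hM k hkN h3)
      have h3 : u₀ - eM M h hM k hkN x =
          (u₀ - eM M h hM k hkN e₀) - (eM M h hM k hkN x - eM M h hM k hkN e₀) := by ring
      rw [h3, Valuation.map_sub_eq_of_lt_right _ (by rw [h1]; exact he₀), h1]
    have hwce : w (c : M) = w (u₀ - eM M h hM k hkN e₀) := by
      rw [hcprod, map_prod]
      exact Finset.prod_eq_single e₀ (fun x _ hx => hoth x hx)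
        (fun h1 => absurd (Finset.mem_univ _) h1)
    have hne0 : u₀ ≠ eM M h hM k hkN e₀ := by
      intro h1
      rw [h1, sub_self, map_zero, map_eq_zero] at hwce
      exact hc0 hwce
    have hroot' := fun x : Rt (toQ K G) (k + 1) => eM_root M h hM (k + 1) hk x
    -- the double point
    let γ' : w.integer := ⟨(γ : M), hZ γ⟩
    let Q : (w.integer)[X] := (G k).map (Int.castRingHom w.integer)
    let e : Rt (toQ K G) (k + 1) → w.integer := fun x =>
      ⟨eM M h hM (k + 1) hk x, hri (k + 1) _ (hroot' x)⟩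
    let c' : w.integer := ⟨eM M h hM k hkN e₀, hri k _ (hroot e₀)⟩
    have hQ : ∀ (R : ℤ[X]) (x : w.integer), (((R.map (Int.castRingHom w.integer)).eval x :
        w.integer) : M) = evZ (x : M) R := by
      intro R x
      rw [← evZ_eq_eval]
      exact hom_evZ w.integer.subtype R x
    have hγ' : (γ' : M) = (γ : M) := rfl
    have hQγ : ((Q.eval γ' : w.integer) : M) = u₀ := by rw [hQ, hγ', evZ_int]
    have hval : ((Q.eval γ' - c' : w.integer) : M) = u₀ - eM M h hM k hkN e₀ := by
      change ((Q.eval γ' : w.integer) : M) - eM M h hM k hkN e₀ = _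
      rw [hQγ]
    have hG1 : w ((Q.derivative.eval γ' : w.integer) : M) ≤
        w ((Q.eval γ' - c' : w.integer) : M) := by
      rw [hval, ← hwce, hwc]
      have h1 : Q.derivative = (derivative (G k)).map (Int.castRingHom w.integer) :=
        derivative_map _ _
      rw [h1, hQ, hγ', evZ_int]
      exact hdvd _ hl.crit
    have h2 : w 2 = 1 := by
      have h1 := hZ1 2 h2p
      exact_mod_cast h1
    have hG2 : w (((hasseDeriv 2 Q).eval γ' : w.integer) : M) = 1 := by
      have h1 : (2 : w.integer) * (hasseDeriv 2 Q).eval γ' =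
          (derivative (derivative Q)).eval γ' := by
        have h3 := congrArg (fun p => eval γ' p)
          (congrFun (factorial_smul_hasseDeriv (R := w.integer) 2) Q)
        simp only [Function.iterate_succ, Function.iterate_zero, Function.comp_apply, id_eq] at h3
        rw [← h3]
        simp [Nat.factorial]
      have h3 : derivative (derivative Q) =
          (derivative (derivative (G k))).map (Int.castRingHom w.integer) := by
        rw [← derivative_map, ← derivative_map]
      have h4 := congrArg (fun z : w.integer => w (z : M)) h1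
      have h5 : w (((2 : w.integer) * (hasseDeriv 2 Q).eval γ' : w.integer) : M) =
          w (((hasseDeriv 2 Q).eval γ' : w.integer) : M) := by
        change w ((2 : M) * (((hasseDeriv 2 Q).eval γ' : w.integer) : M)) = _
        rw [map_mul, h2, one_mul]
      rw [← h5]
      refine h4.trans ?_
      rw [h3, hQ, hγ', evZ_int]
      exact hZ1 _ hl.simple
    have hSroot : ∀ x ∈ pre (h.dn k) {e₀}, Q.eval (e x) = c' := by
      intro x hx
      rw [mem_pre, Finset.mem_singleton] at hx
      apply Subtype.ext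
      rw [hQ]
      change evZ (eM M h hM (k + 1) hk x) (G k) = eM M h hM k hkN e₀
      rw [← aeval_toQ (K := K), aeval_eM M h hM k hk x, hx]
    have hprod : Q.eval γ' - c' = ∏ x ∈ pre (h.dn k) {e₀}, (γ' - e x) := by
      apply Subtype.ext
      have h1 := prod_fib M h hM k hk e₀ (γ : M)
      have h3 : ((∏ x ∈ pre (h.dn k) {e₀}, (γ' - e x) : w.integer) : M) =
          w.integer.subtype (∏ x ∈ pre (h.dn k) {e₀}, (γ' - e x)) := rfl
      rw [h3, map_prod, hval]
      rw [aeval_toQ, evZ_int] at h1
      exact h1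
    obtain ⟨a, ha, b, hb, hab, hγa, hγb, hothers, hsq⟩ := double_point_approx w
      (pre (h.dn k) {e₀}) e
      (fun x y hxy => eM_inj M h hM (k + 1) hk (congrArg Subtype.val hxy)) Q γ' c' h2 hG1 hG2
      hprod hSroot (by rw [hval]; exact he₀) (fun h1 => hne0 (by
        have h3 := congrArg Subtype.val h1
        rwa [hQγ] at h3))
    refine ⟨eM M h hM (k + 1) hk a, eM M h hM (k + 1) hk b, (c : K), hroot' a, hroot' b,
      fun h1 => hab (eM_inj M h hM (k + 1) hk h1), fun u u' hu hu' huu hn => ?_, ?_, ?_⟩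
    · obtain ⟨x, rfl, hx⟩ := hint (k + 1) M u hu
      obtain ⟨y, rfl, hy⟩ := hint (k + 1) M u' hu'
      have hxy : x ≠ y := fun h3 => huu (by rw [h3])
      refine hone M P (x - y) fun hmem => ?_
      by_cases hfu : evZ x (G k) = evZ y (G k)
      · have hclose : ∀ z z' : 𝓞 M, evZ z (cmpR G (k + 1)) = 0 →
            evZ z (G k) = evZ z' (G k) → z ≠ z' → z - z' ∈ P.asIdeal →
            (z : M) = eM M h hM (k + 1) hk a ∨ (z : M) = eM M h hM (k + 1) hk b := by
          intro z z' hz hzz hne hmem
          have h1 := deriv_mem P.asIdeal (G k) hzz hne hmem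
          rw [← hπ, hom_evZ] at h1
          have h3 := hom_evZ π (cmpR G (k + 1)) z
          rw [hz, map_zero] at h3
          have h4 := hl.only (π z) h1 h3.symm
          have h5 : z - (γ : 𝓞 M) ∈ P.asIdeal := by
            rw [← hπ, map_sub, map_intCast, h4, sub_self]
          have h6 : w ((z : M) - (γ : M)) < 1 := by
            have h7 := (hlt M P _).2 h5
            have h8 : ((z - (γ : 𝓞 M) : 𝓞 M) : M) = (z : M) - (γ : M) := by
              have h9 := map_sub (algebraMap (𝓞 M) M) z (γ : 𝓞 M)
              rw [map_intCast] at h9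
              exact h9
            rwa [h8] at h7
          have hzr : aeval (z : M) (comps (toQ K G) (k + 1)) = 0 := by
            rw [aeval_comps_toQ]
            have h7 := hom_evZ (algebraMap (𝓞 M) M) (cmpR G (k + 1)) z
            rw [hz, map_zero] at h7
            exact h7.symm
          obtain ⟨x, hx⟩ : ∃ x : Rt (toQ K G) (k + 1), eM M h hM (k + 1) hk x = (z : M) := by
            refine ⟨⟨((z : M) : AlgebraicClosure K), (h.root _ _).2 ?_⟩, rfl⟩
            have h7 := Polynomial.aeval_algHom_apply M.val (z : M) (comps (toQ K G) (k + 1))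
            rw [hzr, map_zero] at h7
            exact h7
          have h7 : w (eM M h hM k hkN (h.dn k x) - u₀) < 1 := by
            rw [← aeval_eM M h hM k hk x, hx, haev, hu₀]
            obtain ⟨q, hq⟩ := sub_dvd_evZ (G k) z (γ : 𝓞 M)
            have h8 : evZ z (G k) - evZ (γ : 𝓞 M) (G k) ∈ P.asIdeal := by
              rw [hq]
              exact P.asIdeal.mul_mem_right _ h5
            have h9 := (hlt M P _).2 h8
            have h10 : ((evZ z (G k) - evZ (γ : 𝓞 M) (G k) : 𝓞 M) : M) =
                ((evZ z (G k) : 𝓞 M) : M) - (((G k).eval γ : ℤ) : M) := by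
              have h11 := map_sub (algebraMap (𝓞 M) M) (evZ z (G k)) (evZ (γ : 𝓞 M) (G k))
              rw [hom_evZ (algebraMap (𝓞 M) M) (G k) (γ : 𝓞 M), map_intCast,
                evZ_int (B := M)] at h11
              exact h11
            rwa [h10] at h9
          have h8 : h.dn k x = e₀ := by
            by_contra h9
            have h10 := hoth _ h9
            rw [Valuation.map_sub_swap] at h10
            exact absurd h10 h7.ne
          by_contra h9
          rw [not_or] at h9
          have h10 := hothers x (by rw [mem_pre, h8]; exact Finset.mem_singleton_self _)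
            (fun h11 => h9.1 (by rw [← hx, h11])) (fun h11 => h9.2 (by rw [← hx, h11]))
          have h11 : ((γ' - e x : w.integer) : M) = (γ : M) - (z : M) := by
            rw [← hx]
            rfl
          rw [h11, Valuation.map_sub_swap] at h10
          exact absurd h10 h6.ne
        refine hn ⟨hclose x y hx hfu hxy hmem, hclose y x hy hfu.symm hxy.symm ?_⟩
        rw [← neg_sub]
        exact P.asIdeal.neg_mem hmem
      · rw [evZ_cmpR_succ] at hx hy
        refine loc_diff (𝓞 M) hl hπ k hkN le_rfl hx hy hfu ?_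
        obtain ⟨q, hq⟩ := sub_dvd_evZ (G k) x y
        rw [hq]
        exact P.asIdeal.mul_mem_right _ hmem
    · rw [hvc, hv1, log_exp]
      exact ⟨-1, by norm_num⟩
    · rw [map_intCast, hwce, ← hval, ← hsq]
      rfl

end place

end

end Pool.Agent.H852.J
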