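import Mathlib

/-!
# Residue fields of prime order of number fields
-/

set_option linter.unusedSectionVars false
set_option autoImplicit false

namespace Pool.Agent.H852.J

open Polynomial NumberField

theorem exists_prime_dvd_eval (g : ℤ[X]) (hg : 0 < g.natDegree) (c : ℕ) (hc : 0 < c) :
    ∃ p : ℕ, p.Prime ∧ ¬ p ∣ c ∧ ∃ n : ℤ, (p : ℤ) ∣ g.eval n := by
  obtain ⟨q, hq1, hq2⟩ := Nat.exists_infinite_primes (c + 1)
  have hqc : ¬ q ∣ c := fun h => by
    have := Nat.le_of_dvd hc h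
    omega
  by_cases ha : g.eval 0 = 0
  · exact ⟨q, hq2, hqc, 0, by rw [ha]; exact dvd_zero _⟩
  set a := g.eval 0 with ha'
  have hac : a * c ≠ 0 := mul_ne_zero ha (by exact_mod_cast hc.ne')
  set G : ℤ[X] := g.comp (C (a * c) * X) with hG
  have hGd : 0 < G.natDegree := by
    rw [hG, natDegree_comp, natDegree_C_mul hac, natDegree_X, mul_one]
    exact hg
  have h1 : ∀ z : ℤ, G - C z ≠ 0 := by
    intro z h
    rw [sub_eq_zero] at h
    rw [h, natDegree_C] at hGd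
    exact lt_irrefl _ hGd
  have h2 : ∃ k : ℤ, ((G - C a) * (G - C (-a))).eval k ≠ 0 := by
    by_contra hcon
    push Not at hcon
    refine mul_ne_zero (h1 a) (h1 (-a)) (Polynomial.funext fun k => ?_)
    rw [hcon k, eval_zero]
  obtain ⟨k, hk⟩ := h2
  rw [eval_mul, eval_sub, eval_sub, eval_C, eval_C] at hk
  have hGk : G.eval k = g.eval (a * c * k) := by
    rw [hG, eval_comp, eval_mul, eval_C, eval_X]
  obtain ⟨w, hw⟩ : a * c * k - 0 ∣ g.eval (a * c * k) - g.eval 0 := sub_dvd_eval_sub _ _ _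
  rw [sub_zero, ← ha'] at hw
  have hh : g.eval (a * c * k) = a * (1 + c * k * w) := by
    rw [eq_add_of_sub_eq hw]
    ring
  set h := 1 + c * k * w with hh'
  have hne1 : h ≠ 1 := by
    intro h3
    apply hk
    rw [hGk, hh, h3]
    ring
  have hne2 : h ≠ -1 := by
    intro h3
    apply hk
    rw [hGk, hh, h3]
    ring
  by_cases h0 : h = 0
  · exact ⟨q, hq2, hqc, a * c * k, by rw [hh, h0, mul_zero]; exact dvd_zero _⟩
  · have h3 : h.natAbs ≠ 1 := by omega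
    obtain ⟨p, hp, hpd⟩ := Nat.exists_prime_and_dvd h3
    have h4 : (p : ℤ) ∣ h := Int.natCast_dvd.2 hpd
    refine ⟨p, hp, fun hpc => ?_, a * c * k, by rw [hh]; exact Dvd.dvd.mul_left h4 _⟩
    have h5 : (p : ℤ) ∣ 1 := by
      have h6 : (p : ℤ) ∣ c * k * w := by
        have h7 : (p : ℤ) ∣ c := by exact_mod_cast hpc
        exact Dvd.dvd.mul_right (Dvd.dvd.mul_right h7 _) _
      have h7 : (1 : ℤ) = h - c * k * w := by rw [hh']; ring
      rw [h7]
      exact dvd_sub h4 h6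
    have h6 : p ∣ 1 := by exact_mod_cast h5
    exact hp.one_lt.ne' (Nat.dvd_one.1 h6)

/-- multiples of integral elements are polynomials in a primitive element -/
theorem exists_denom (N : Type) [Field N] [NumberField N] :
    ∃ (θ : 𝓞 N) (D : ℕ), 0 < D ∧ ∀ a : 𝓞 N, ∃ h : ℤ[X], (D : 𝓞 N) * a = aeval θ h := by
  classical
  obtain ⟨θ₀, hθ₀⟩ := Field.exists_primitive_element ℚ N
  obtain ⟨d, hd, hint⟩ := IsAlgebraic.exists_integral_multiple
    ((IsFractionRing.isAlgebraic_iff ℤ ℚ N).2 (Algebra.IsAlgebraic.isAlgebraic θ₀))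
  set θ : 𝓞 N := ⟨d • θ₀, hint⟩ with hθ
  have hdQ : (d : ℚ) ≠ 0 := by exact_mod_cast hd
  have hev : ∀ z : N, ∃ q : ℚ[X], z = aeval (θ : N) q := by
    intro z
    have h1 : z ∈ IntermediateField.adjoin ℚ {θ₀} := by rw [hθ₀]; exact IntermediateField.mem_top
    have h2 : IsAlgebraic ℚ θ₀ := Algebra.IsAlgebraic.isAlgebraic _
    rw [← IntermediateField.mem_toSubalgebra,
      IntermediateField.adjoin_simple_toSubalgebra_of_isAlgebraic h2,
      Algebra.adjoin_singleton_eq_range_aeval] at h1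
    obtain ⟨q, hq⟩ := h1
    refine ⟨q.comp (C ((d : ℚ)⁻¹) * X), ?_⟩
    have h3 : (θ : N) = (d : ℚ) • θ₀ := by
      change d • θ₀ = _
      rw [Int.cast_smul_eq_zsmul]
    rw [aeval_comp, map_mul, aeval_C, aeval_X, h3, ← Algebra.smul_def, smul_smul,
      inv_mul_cancel₀ hdQ, one_smul]
    exact hq.symm
  have hone : ∀ a : 𝓞 N, ∃ D : ℤ, D ≠ 0 ∧ ∃ h : ℤ[X], (D : 𝓞 N) * a = aeval θ h := by
    intro a
    obtain ⟨q, hq⟩ := hev (a : N)
    obtain ⟨b, hb, hb'⟩ := IsLocalization.integerNormalization_spec (nonZeroDivisors ℤ) q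
    refine ⟨b, nonZeroDivisors.ne_zero hb, IsLocalization.integerNormalization (nonZeroDivisors ℤ) q,
      ?_⟩
    apply RingOfIntegers.ext
    have h1 : ((aeval θ (IsLocalization.integerNormalization (nonZeroDivisors ℤ) q) : 𝓞 N) : N) =
        aeval (θ : N) (IsLocalization.integerNormalization (nonZeroDivisors ℤ) q) :=
      (aeval_algebraMap_apply N θ _).symm
    have h2 : (((b : 𝓞 N) * a : 𝓞 N) : N) = (b : N) * (a : N) := by
      change algebraMap (𝓞 N) N ((b : 𝓞 N) * a) = _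
      rw [map_mul, map_intCast]
    rw [h1, ← aeval_map_algebraMap ℚ, hb', h2, hq, map_zsmul, zsmul_eq_mul]
  obtain ⟨s, hs⟩ := (Module.Finite.fg_top : (⊤ : Submodule ℤ (𝓞 N)).FG)
  choose D hD h hh using hone
  set D₀ : ℤ := ∏ a ∈ s, D a with hD₀
  have hall : ∀ a : 𝓞 N, ∃ h : ℤ[X], (D₀ : 𝓞 N) * a = aeval θ h := by
    intro a
    have ha : a ∈ Submodule.span ℤ (s : Set (𝓞 N)) := by rw [hs]; exact Submodule.mem_top
    induction ha using Submodule.span_induction with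
    | mem x hx =>
      refine ⟨C (∏ a ∈ s.erase x, D a) * h x, ?_⟩
      rw [map_mul, aeval_C, ← hh x, eq_intCast, hD₀, ← Finset.mul_prod_erase s D hx]
      push_cast
      ring
    | zero => exact ⟨0, by rw [mul_zero, map_zero]⟩
    | add x y _ _ hx hy =>
      obtain ⟨u, hu⟩ := hx
      obtain ⟨v, hv⟩ := hy
      exact ⟨u + v, by rw [mul_add, hu, hv, map_add]⟩
    | smul c x _ hx =>
      obtain ⟨u, hu⟩ := hx
      refine ⟨c • u, ?_⟩
      rw [mul_smul_comm, hu, map_zsmul]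
  refine ⟨θ, D₀.natAbs, Int.natAbs_pos.2 (Finset.prod_ne_zero_iff.2 fun a _ => hD a), fun a => ?_⟩
  obtain ⟨u, hu⟩ := hall a
  rcases Int.natAbs_eq D₀ with h1 | h1
  · refine ⟨u, ?_⟩
    rw [← hu]
    conv_rhs => rw [h1]
    rw [Int.cast_natCast]
  · refine ⟨-u, ?_⟩
    rw [map_neg, ← hu]
    conv_rhs => rw [h1]
    rw [Int.cast_neg, Int.cast_natCast]
    ring

/-- **Infinitely many prime ideals have a residue field of prime order.** -/
theorem exists_hom (N : Type) [Field N] [NumberField N] (δ : 𝓞 N) (hδ : δ ≠ 0) (B : ℕ) :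
    ∃ (p : ℕ) (_ : Fact p.Prime), B < p ∧ ∃ φ : 𝓞 N →+* ZMod p, φ δ ≠ 0 := by
  classical
  obtain ⟨θ, D, hD, hden⟩ := exists_denom N
  set n₀ := Ideal.absNorm (Ideal.span {δ}) with hn₀
  have hn0 : 0 < n₀ := Nat.pos_of_ne_zero fun h => by
    have h1 := Ideal.absNorm_eq_zero_iff.1 h
    rw [Ideal.span_singleton_eq_bot] at h1
    exact hδ h1
  have hθ : IsIntegral ℤ θ := Algebra.IsIntegral.isIntegral θ
  obtain ⟨p, hp, hpc, n, hpn⟩ := exists_prime_dvd_eval (minpoly ℤ θ) (minpoly.natDegree_pos hθ)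
    (D * n₀ * B.factorial) (by positivity)
  have hpD : ¬ p ∣ D := fun h => hpc (Dvd.dvd.mul_right (Dvd.dvd.mul_right h _) _)
  have hpn₀ : ¬ p ∣ n₀ := fun h => hpc (Dvd.dvd.mul_right (Dvd.dvd.mul_left h _) _)
  have hpB : B < p := by
    by_contra h
    exact hpc (Dvd.dvd.mul_left (hp.dvd_factorial.2 (not_lt.1 h)) _)
  have hfact : Fact p.Prime := ⟨hp⟩
  -- the ideal
  have hI : Ideal.span {(p : 𝓞 N), θ - (n : 𝓞 N)} ≠ ⊤ := by
    intro h
    rw [Ideal.eq_top_iff_one, Ideal.mem_span_pair] at h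
    obtain ⟨u, v, huv⟩ := h
    obtain ⟨hu, hhu⟩ := hden u
    obtain ⟨hv, hhv⟩ := hden v
    have h1 : aeval θ (C (D : ℤ) - (C (p : ℤ) * hu + (X - C n) * hv)) = 0 := by
      simp only [map_sub, map_add, map_mul, aeval_C, aeval_X, ← hhu, ← hhv]
      simp only [algebraMap_int_eq, eq_intCast, Int.cast_natCast]
      linear_combination (-(D : 𝓞 N)) * huv
    obtain ⟨k, hk⟩ := (minpoly.isIntegrallyClosed_dvd_iff hθ _).1 h1
    have h2 := congrArg (Polynomial.eval n) hk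
    simp only [eval_sub, eval_add, eval_mul, eval_C, eval_X, sub_self, zero_mul, add_zero] at h2
    apply hpD
    have h3 : (p : ℤ) ∣ D := by
      have h4 : (D : ℤ) = p * hu.eval n + (minpoly ℤ θ).eval n * k.eval n := by linarith
      rw [h4]
      exact dvd_add (dvd_mul_right _ _) (Dvd.dvd.mul_right hpn _)
    exact_mod_cast h3
  obtain ⟨𝔓, h𝔓, hle⟩ := Ideal.exists_le_maximal _ hI
  have hpP : (p : 𝓞 N) ∈ 𝔓 := hle (Ideal.subset_span (Set.mem_insert _ _))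
  have hθP : θ - (n : 𝓞 N) ∈ 𝔓 := hle (Ideal.subset_span (Set.mem_insert_of_mem _ rfl))
  let _ : Field (𝓞 N ⧸ 𝔓) := Ideal.Quotient.field 𝔓
  have hcop : ∀ k : ℕ, ¬ p ∣ k → (k : 𝓞 N) ∉ 𝔓 := by
    intro k hk hmem
    have h1 : IsCoprime (p : ℤ) (k : ℤ) := by
      rw [Nat.isCoprime_iff_coprime]
      exact (hp.coprime_iff_not_dvd).2 hk
    obtain ⟨a, b, hab⟩ := h1
    have h2 : (1 : 𝓞 N) ∈ 𝔓 := by
      have h3 : (1 : 𝓞 N) = (a : 𝓞 N) * p + (b : 𝓞 N) * k := by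
        have := congrArg (Int.cast : ℤ → 𝓞 N) hab
        push_cast at this
        exact this.symm
      rw [h3]
      exact 𝔓.add_mem (𝔓.mul_mem_left _ hpP) (𝔓.mul_mem_left _ hmem)
    exact h𝔓.ne_top ((Ideal.eq_top_iff_one _).2 h2)
  have hchar : CharP (𝓞 N ⧸ 𝔓) p := by
    refine ⟨fun k => ?_⟩
    have h1 : ((k : 𝓞 N ⧸ 𝔓)) = Ideal.Quotient.mk 𝔓 (k : 𝓞 N) := (map_natCast _ k).symm
    rw [h1, Ideal.Quotient.eq_zero_iff_mem]
    constructor
    · intro h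
      by_contra h2
      exact hcop k h2 h
    · rintro ⟨l, rfl⟩
      push_cast
      exact 𝔓.mul_mem_right _ hpP
  let ψ : ZMod p →+* 𝓞 N ⧸ 𝔓 := ZMod.castHom (dvd_refl p) _
  have hψ : Function.Bijective ψ := by
    refine ⟨ψ.injective, fun z => ?_⟩
    obtain ⟨a, rfl⟩ := Ideal.Quotient.mk_surjective z
    obtain ⟨h, hh⟩ := hden a
    have h1 : Ideal.Quotient.mk 𝔓 (aeval θ h) = ((h.eval n : ℤ) : 𝓞 N ⧸ 𝔓) := by
      have h2 : Ideal.Quotient.mk 𝔓 θ = ((n : ℤ) : 𝓞 N ⧸ 𝔓) := by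
        rw [← sub_eq_zero, ← map_intCast (Ideal.Quotient.mk 𝔓), ← map_sub,
          Ideal.Quotient.eq_zero_iff_mem]
        exact hθP
      have h3 : Ideal.Quotient.mk 𝔓 (aeval θ h) = aeval (Ideal.Quotient.mk 𝔓 θ) h := by
        rw [aeval_def, aeval_def, hom_eval₂]
        congr 1
      have h4 := eval₂_at_apply (p := h) (algebraMap ℤ (𝓞 N ⧸ 𝔓)) n
      rw [eq_intCast, eq_intCast] at h4
      rw [h3, h2, aeval_def, h4]
    have hDz : ((D : ℕ) : ZMod p) ≠ 0 := by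
      rw [Ne, ZMod.natCast_eq_zero_iff]
      exact hpD
    refine ⟨((D : ℕ) : ZMod p)⁻¹ * ((h.eval n : ℤ) : ZMod p), ?_⟩
    have hDq : ((D : ℕ) : 𝓞 N ⧸ 𝔓) ≠ 0 := by
      rw [← map_natCast (Ideal.Quotient.mk 𝔓), Ne, Ideal.Quotient.eq_zero_iff_mem]
      exact hcop D hpD
    apply mul_left_cancel₀ hDq
    rw [map_mul, map_inv₀, map_natCast, map_intCast, mul_inv_cancel_left₀ hDq, ← h1, ← hh, map_mul,
      map_natCast]
  let φ : 𝓞 N →+* ZMod p := ((RingEquiv.ofBijective ψ hψ).symm : _ →+* ZMod p).comp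
    (Ideal.Quotient.mk 𝔓)
  refine ⟨p, hfact, hpB, φ, fun h => ?_⟩
  have h1 : Ideal.Quotient.mk 𝔓 δ = 0 := by
    have h2 : (RingEquiv.ofBijective ψ hψ).symm (Ideal.Quotient.mk 𝔓 δ) = 0 := h
    rwa [map_eq_zero_iff _ (RingEquiv.injective _)] at h2
  rw [Ideal.Quotient.eq_zero_iff_mem] at h1
  exact hcop n₀ hpn₀ ((Ideal.span_singleton_le_iff_mem _).2 h1 (Ideal.absNorm_mem _))

end Pool.Agent.H852.J
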