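import Mathlib
import Pool.Agent.H852.J.C3
import Pool.Agent.H852.J.F3

/-!
# Frobenius elements and transitivity on the roots of compositions
-/

set_option linter.unusedSectionVars false
set_option autoImplicit false

open Polynomial Module NumberField IsDedekindDomain
open HeightOneSpectrum

namespace Pool.Agent.H852.J

noncomputable section

section finite

variable {p : ℕ} [Fact p.Prime]

/-- the roots of an irreducible polynomial over the prime field are conjugate by a power of Frobenius -/
theorem frob_transitive {Q : (ZMod p)[X]} (hQ : Irreducible Q) {y y' : AlgebraicClosure (ZMod p)}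
    (hy : aeval y Q = 0) (hy' : aeval y' Q = 0) : ∃ j : ℕ, y' = y ^ p ^ j := by
  have h1 := minpoly.eq_of_irreducible hQ hy
  have h2 := minpoly.eq_of_irreducible hQ hy'
  obtain ⟨τ, hτ⟩ := minpoly.exists_algEquiv_of_root' (K := ZMod p)
    (L := AlgebraicClosure (ZMod p)) (x := y') (y := y) (Algebra.IsAlgebraic.isAlgebraic y) (by
      rw [← h1, map_mul, hy', zero_mul])
  let L := IntermediateField.adjoin (ZMod p) {y}
  have hfd : FiniteDimensional (ZMod p) L :=
    IntermediateField.adjoin.finiteDimensional (Algebra.IsIntegral.isIntegral y)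
  have hfin : Finite L := Module.finite_of_finite (ZMod p)
  have hnorm : Normal (ZMod p) L := inferInstance
  obtain ⟨n, hn⟩ := (FiniteField.bijective_frobeniusAlgEquivOfAlgebraic_pow (ZMod p) L).2
    (τ.restrictNormal L)
  refine ⟨n, ?_⟩
  let y₀ : L := ⟨y, IntermediateField.mem_adjoin_simple_self (ZMod p) y⟩
  have h3 := τ.restrictNormal_commutes L y₀
  have h4 : (τ.restrictNormal L) y₀ = y₀ ^ p ^ (n : ℕ) := by
    rw [← hn]
    change (FiniteField.frobeniusAlgEquivOfAlgebraic (ZMod p) L ^ (n : ℕ)) y₀ = _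
    rw [AlgEquiv.coe_pow, FiniteField.coe_frobeniusAlgEquivOfAlgebraic_iterate, ZMod.card]
  rw [h4] at h3
  have h5 : (algebraMap L (AlgebraicClosure (ZMod p))) y₀ = y := rfl
  rw [h5, hτ, map_pow, h5] at h3
  exact h3.symm

end finite

section lift

variable {K : Type} [Field K] [NumberField K]
  (M : IntermediateField K (AlgebraicClosure K)) [NumberField M]
  {Ω : Type} [Field Ω]

/-- roots modulo a prime ideal can be lifted -/
theorem exists_lift_root {A : (𝓞 M)[X]} (hA : A.Monic)
    (hM : ∀ x : AlgebraicClosure K, A.eval₂ ((algebraMap M (AlgebraicClosure K)).comp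
      (algebraMap (𝓞 M) M)) x = 0 → x ∈ M) (π : 𝓞 M →+* Ω) {y : Ω} (hy : (A.map π).eval y = 0) :
    ∃ x : 𝓞 M, A.eval x = 0 ∧ π x = y := by
  classical
  set ι : 𝓞 M →+* AlgebraicClosure K := (algebraMap M (AlgebraicClosure K)).comp
    (algebraMap (𝓞 M) M) with hι
  have hinj : Function.Injective ι := by
    intro a b hab
    rw [hι, RingHom.comp_apply, RingHom.comp_apply] at hab
    exact RingOfIntegers.coe_injective ((algebraMap M (AlgebraicClosure K)).injective hab)
  have hint : ∀ x : AlgebraicClosure K, A.eval₂ ι x = 0 → ∃ z : 𝓞 M, ι z = x := by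
    intro x hx
    have hxM := hM x hx
    have h1 : IsIntegral (𝓞 M) (⟨x, hxM⟩ : M) := by
      refine ⟨A, hA, ?_⟩
      apply (algebraMap M (AlgebraicClosure K)).injective
      rw [map_zero, hom_eval₂]
      exact hx
    obtain ⟨z, hz⟩ := (IsIntegrallyClosed.isIntegral_iff (R := 𝓞 M) (K := M)).1 h1
    exact ⟨z, congrArg (algebraMap M (AlgebraicClosure K)) hz⟩
  have hspl : (A.map ι).Splits := IsAlgClosed.splits _
  have hprod := hspl.eq_prod_roots_of_monic (hA.map ι)
  have hr : ∀ x ∈ (A.map ι).roots, A.eval₂ ι x = 0 := by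
    intro x hx
    rw [mem_roots (hA.map ι).ne_zero, IsRoot.def, eval_map] at hx
    exact hx
  let lf : AlgebraicClosure K → 𝓞 M := fun x =>
    if h : A.eval₂ ι x = 0 then (hint x h).choose else 0
  have hlf : ∀ x, A.eval₂ ι x = 0 → ι (lf x) = x := by
    intro x hx
    change ι (if h : A.eval₂ ι x = 0 then (hint x h).choose else 0) = x
    rw [dif_pos hx]
    exact (hint x hx).choose_spec
  set t := (A.map ι).roots.map lf with ht
  have hAt : A = (t.map fun x => X - C x).prod := by
    apply Polynomial.map_injective ι hinj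
    rw [Polynomial.map_multiset_prod, Multiset.map_map, ht, Multiset.map_map]
    conv_lhs => rw [hprod]
    congr 1
    refine Multiset.map_congr rfl fun x hx => ?_
    simp only [Function.comp_apply, Polynomial.map_sub, Polynomial.map_X, Polynomial.map_C]
    rw [hlf x (hr x hx)]
  rw [hAt, Polynomial.map_multiset_prod, eval_multiset_prod, Multiset.map_map,
    Multiset.map_map, Multiset.prod_eq_zero_iff, Multiset.mem_map] at hy
  obtain ⟨x, hx, hxy⟩ := hy
  simp only [Function.comp_apply, Polynomial.map_sub, Polynomial.map_X, Polynomial.map_C, eval_sub,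
    eval_X, eval_C] at hxy
  refine ⟨x, ?_, (sub_eq_zero.1 hxy).symm⟩
  rw [hAt, eval_multiset_prod, Multiset.map_map, Multiset.prod_eq_zero_iff, Multiset.mem_map]
  exact ⟨x, hx, by simp⟩

variable {M}

/-- simple roots have only one lift -/
theorem lift_unique {O : Type} [CommRing O] [IsDomain O] {A : O[X]} (π : O →+* Ω) {x x' : O}
    (hx : A.eval x = 0) (hx' : A.eval x' = 0) (h : π x = π x')
    (hd : (derivative (A.map π)).eval (π x) ≠ 0) : x = x' := by
  by_contra hne
  obtain ⟨k, hk⟩ := binomExpansion A x (x' - x)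
  rw [add_sub_cancel, hx, hx'] at hk
  have h1 : (x' - x) * (A.derivative.eval x + k * (x' - x)) = 0 := by linear_combination -hk
  have h3 := (mul_eq_zero.1 h1).resolve_left (sub_ne_zero.2 (Ne.symm hne))
  apply hd
  have h4 : A.derivative.eval x = -(k * (x' - x)) := by linear_combination h3
  rw [derivative_map, eval_map, eval₂_at_apply, h4, map_neg, map_mul, map_sub, h, sub_self,
    mul_zero, neg_zero]

end lift

section frob

variable {K : Type} [Field K] [NumberField K]
  (M : IntermediateField K (AlgebraicClosure K)) [NumberField M] [Normal K M]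
  {p : ℕ} [Fact p.Prime]

/-- **A Frobenius element.** -/
theorem exists_frob (φ : 𝓞 K →+* ZMod p) :
    ∃ (π : 𝓞 M →+* AlgebraicClosure (ZMod p)) (σ : M ≃ₐ[K] M),
      ∀ x : 𝓞 M, π (σ • x) = π x ^ p := by
  have hgal : IsGalois K M := ⟨⟩
  have hφs : Function.Surjective φ := ZMod.ringHom_surjective φ
  have hpr : (RingHom.ker φ).IsPrime := RingHom.ker_isPrime φ
  have hp0 : (p : 𝓞 K) ≠ 0 := Nat.cast_ne_zero.2 (Fact.out : p.Prime).ne_zero
  have hpk : (p : 𝓞 K) ∈ RingHom.ker φ := by
    rw [RingHom.mem_ker, map_natCast, ZMod.natCast_self]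
  let v : HeightOneSpectrum (𝓞 K) := ⟨RingHom.ker φ, hpr, fun h => by
    rw [h, Ideal.mem_bot] at hpk
    exact hp0 hpk⟩
  obtain ⟨P, hP⟩ := exists_place_above (M := M) v
  have hfin : Finite (𝓞 M ⧸ P.asIdeal) := Ideal.finiteQuotientOfFreeOfNeBot _ P.ne_bot
  have hpP : (p : 𝓞 M) ∈ P.asIdeal := by
    have h1 : (p : 𝓞 K) ∈ P.asIdeal.under (𝓞 K) := by
      rw [← Ideal.LiesOver.over (p := v.asIdeal) (P := P.asIdeal)]
      exact hpk
    rw [Ideal.mem_comap, map_natCast] at h1
    exact h1
  obtain ⟨π, hπ⟩ := exists_residue p (𝓞 M) P.asIdeal (P.isPrime.isMaximal P.ne_bot) hfin hpP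
  have hpri : P.asIdeal.IsPrime := P.isPrime
  obtain ⟨σ, hσ⟩ := IsArithFrobAt.exists_of_isInvariant (𝓞 K) (M ≃ₐ[K] M) P.asIdeal
  refine ⟨π, σ, fun x => ?_⟩
  have h1 := hσ x
  have h2 : Nat.card (𝓞 K ⧸ P.asIdeal.under (𝓞 K)) = p := by
    rw [← Ideal.LiesOver.over (p := v.asIdeal) (P := P.asIdeal)]
    change Nat.card (𝓞 K ⧸ RingHom.ker φ) = p
    rw [Nat.card_congr (RingHom.quotientKerEquivOfSurjective hφs).toEquiv, Nat.card_zmod]
  rw [h2, ← hπ, map_sub, map_pow, sub_eq_zero] at h1
  exact h1

end frob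

end

end Pool.Agent.H852.J
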