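import Mathlib
import Pool.Agent.H852.J.C4

/-!
# Transitivity from reductions modulo prime numbers
-/

set_option linter.unusedSectionVars false
set_option autoImplicit false

open Polynomial Module NumberField IsDedekindDomain
open HeightOneSpectrum

namespace Pool.Agent.H852.J

noncomputable section

/-- certificate of transitivity: a simple root of the composition modulo `p` whose fibre is irreducible -/
structure CertA (p : ℕ) [Fact p.Prime] (G : ℕ → ℤ[X]) (n : ℕ) (e : ZMod p) : Prop where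
  root : evZ e (cmpR G n) = 0
  simple : evZ e (derivative (cmpR G n)) ≠ 0
  irr : Irreducible ((G n).map (Int.castRingHom (ZMod p)) - C e)

/-- certificate of double transitivity on the fibres -/
structure CertB (p : ℕ) [Fact p.Prime] (G : ℕ → ℤ[X]) (n : ℕ) (e r : ZMod p) (Q : (ZMod p)[X]) :
    Prop where
  root : evZ e (cmpR G n) = 0
  simple : evZ e (derivative (cmpR G n)) ≠ 0
  fac : (G n).map (Int.castRingHom (ZMod p)) - C e = (X - C r) * Q
  irr : Irreducible Q
  ne : Q.eval r ≠ 0

theorem evZ_unique {O : Type} [CommRing O] [IsDomain O] {Ω : Type} [Field Ω] (π : O →+* Ω)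
    (Q : ℤ[X]) {x x' : O} (h : evZ x Q = evZ x' Q) (hπ : π x = π x')
    (hd : evZ (π x) (derivative Q) ≠ 0) : x = x' := by
  by_contra hne
  apply hd
  have h1 := deriv_mem (RingHom.ker π) Q h hne (by
    rw [RingHom.mem_ker, map_sub, hπ, sub_self])
  rw [RingHom.mem_ker, hom_evZ] at h1
  exact h1

section move

variable {K : Type} [Field K] [NumberField K] {M : IntermediateField K (AlgebraicClosure K)}
  [NumberField M] {p : ℕ} [Fact p.Prime]
  {π : 𝓞 M →+* AlgebraicClosure (ZMod p)} {σ : M ≃ₐ[K] M} (hσ : ∀ x : 𝓞 M, π (σ • x) = π x ^ p)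

include hσ in
theorem frob_iter (j : ℕ) (x : 𝓞 M) : π (σ ^ j • x) = π x ^ p ^ j := by
  induction j generalizing x with
  | zero => rw [pow_zero, one_smul, pow_zero, pow_one]
  | succ j ih => rw [pow_succ, mul_smul, ih, hσ, ← pow_mul, pow_succ']

theorem smul_evZ (s : M ≃ₐ[K] M) (Q : ℤ[X]) (x : 𝓞 M) : s • evZ x Q = evZ (s • x) Q :=
  hom_evZ (MulSemiringAction.toRingHom (M ≃ₐ[K] M) (𝓞 M) s) Q x

include hσ in
theorem frob_move {Q : ℤ[X]} {R : (ZMod p)[X]} (hR : Irreducible R) {x y e : 𝓞 M}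
    (hx : evZ x Q = e) (hy : evZ y Q = e) (he : σ • e = e) (hxR : aeval (π x) R = 0)
    (hyR : aeval (π y) R = 0) (hd : evZ (π y) (derivative Q) ≠ 0) : ∃ j : ℕ, σ ^ j • x = y := by
  obtain ⟨j, hj⟩ := frob_transitive hR hxR hyR
  refine ⟨j, (evZ_unique π Q ?_ ?_ hd).symm⟩
  · rw [hy, ← smul_evZ, hx]
    have h1 : ∀ j : ℕ, σ ^ j • e = e := by
      intro j
      induction j with
      | zero => rw [pow_zero, one_smul]
      | succ j ih => rw [pow_succ, mul_smul, he, ih]
    exact (h1 j).symm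
  · rw [frob_iter hσ, hj]

end move

section split

variable {K : Type} [Field K] [NumberField K] {g : ℕ → K[X]}

/-- the splitting field of the first compositions -/
theorem exists_split (h : CompHyp g) (N : ℕ) : ∃ (M : IntermediateField K (AlgebraicClosure K))
    (_ : NumberField M), Normal K M ∧
      ∀ n ≤ N, ∀ x : AlgebraicClosure K, aeval x (comps g n) = 0 → x ∈ M := by
  let R : Set (AlgebraicClosure K) := {z | ∃ n ≤ N, aeval z (comps g n) = 0}
  have hRfin : R.Finite := by
    have h1 : R ⊆ ⋃ n : Fin (N + 1), (comps g n).rootSet (AlgebraicClosure K) := by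
      rintro z ⟨n, hn, hz⟩
      exact Set.mem_iUnion.2 ⟨⟨n, by omega⟩, (h.root n z).2 hz⟩
    exact (Set.finite_iUnion fun n : Fin (N + 1) => rootSet_finite _ _).subset h1
  have hRst : ∀ (σ : AlgebraicClosure K ≃ₐ[K] AlgebraicClosure K), ∀ x ∈ R, σ x ∈ R := by
    rintro σ x ⟨n, hn, hx⟩
    exact ⟨n, hn, map_root σ _ hx⟩
  have hfdR : FiniteDimensional K (IntermediateField.adjoin K R) := by
    have := hRfin.to_subtype
    exact IntermediateField.finiteDimensional_adjoin
      fun z _ => Normal.isIntegral (F := K) inferInstance z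
  exact ⟨IntermediateField.adjoin K R, NumberField.of_module_finite K _, normal_adjoin R hRst,
    fun n hn x hx => IntermediateField.subset_adjoin K R ⟨n, hn, hx⟩⟩

end split

section trans

variable {K : Type} [Field K] [NumberField K] {G : ℕ → ℤ[X]} {p : ℕ} [Fact p.Prime]

/-- the situation at a Frobenius element -/
theorem frob_setup (hm : ∀ n, (G n).Monic) (h : CompHyp (toQ K G)) (φ : 𝓞 K →+* ZMod p) {n : ℕ}
    {e : ZMod p} (he : evZ e (cmpR G n) = 0) (hs : evZ e (derivative (cmpR G n)) ≠ 0) :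
    ∃ (M : IntermediateField K (AlgebraicClosure K)) (_ : NumberField M) (_ : Normal K M)
      (π : 𝓞 M →+* AlgebraicClosure (ZMod p)) (σ : M ≃ₐ[K] M) (e' : 𝓞 M),
      (∀ x : 𝓞 M, π (σ • x) = π x ^ p) ∧
      evZ e' (cmpR G n) = 0 ∧ π e' = algebraMap (ZMod p) (AlgebraicClosure (ZMod p)) e ∧
      σ • e' = e' ∧
      ∀ x : AlgebraicClosure K, aeval x (comps (toQ K G) (n + 1)) = 0 → ∃ x' : 𝓞 M,
        ((x' : M) : AlgebraicClosure K) = x := by
  obtain ⟨M, hnf, hnorm, hM⟩ := exists_split h (n + 1)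
  obtain ⟨π, σ, hσ⟩ := exists_frob M φ
  have hmon : ∀ m, (cmpR G m).Monic := cmpR_monic hm (fun m => by
    rw [← toQ_natDegree (K := K)]
    have := h.deg m
    omega)
  obtain ⟨e', he1, he2⟩ := exists_lift_root M
    (A := (cmpR G n).map (Int.castRingHom (𝓞 M))) ((hmon n).map _) (fun x hx => by
      refine hM n (Nat.le_succ n) x ?_
      rw [eval₂_map] at hx
      rw [aeval_comps_toQ, evZ, ← hx]
      congr 1) π
    (y := algebraMap (ZMod p) (AlgebraicClosure (ZMod p)) e) (by
      have h1 := hom_evZ (algebraMap (ZMod p) (AlgebraicClosure (ZMod p))) (cmpR G n) e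
      rw [he, map_zero, evZ_eq_eval] at h1
      rw [Polynomial.map_map, h1]
      congr 2
      exact RingHom.ext_int _ _)
  rw [← evZ_eq_eval] at he1
  refine ⟨M, hnf, hnorm, π, σ, e', hσ, he1, he2, ?_, fun x hx => ?_⟩
  · symm
    refine evZ_unique π (cmpR G n) ?_ ?_ ?_
    · rw [← smul_evZ, he1, smul_zero]
    · rw [hσ, he2, ← map_pow, ZMod.pow_card]
    · rw [he2, ← hom_evZ]
      exact (_root_.map_ne_zero _).2 hs
  · have hx1 := hM (n + 1) le_rfl x hx
    have hyp := h.hyp
    exact ⟨⟨⟨x, hx1⟩, root_isIntegral hm h (n := n + 1) (by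
      apply (algebraMap M (AlgebraicClosure K)).injective
      rw [map_zero, ← aeval_algebraMap_apply]
      exact hx)⟩, rfl⟩

/-- the embedding -/
abbrev ioK (M : IntermediateField K (AlgebraicClosure K)) : 𝓞 M →+* AlgebraicClosure K :=
  (algebraMap M (AlgebraicClosure K)).comp (algebraMap (𝓞 M) M)

theorem ioK_inj (M : IntermediateField K (AlgebraicClosure K)) : Function.Injective (ioK M) := by
  intro a b hab
  exact RingOfIntegers.coe_injective ((algebraMap M (AlgebraicClosure K)).injective hab)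

theorem lift_ioK {M : IntermediateField K (AlgebraicClosure K)} [Normal K M] (s : M ≃ₐ[K] M)
    (x : 𝓞 M) : s.liftNormal (AlgebraicClosure K) (ioK M x) = ioK M (s • x) := by
  have h1 := s.liftNormal_commutes (AlgebraicClosure K) (x : M)
  exact h1

theorem map_comps_zero {g : ℕ → K[X]} (s : AlgebraicClosure K ≃ₐ[K] AlgebraicClosure K) {n : ℕ}
    {x : AlgebraicClosure K} (hx : aeval x (comps g n) = 0) : aeval (s x) (comps g n) = 0 := by
  have h1 := Polynomial.aeval_algHom_apply (s : AlgebraicClosure K →ₐ[K] AlgebraicClosure K) x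
    (comps g n)
  rw [hx, map_zero] at h1
  exact h1

/-- moving a root to the fibre of a given root -/
theorem move_fibre {M : IntermediateField K (AlgebraicClosure K)} {n : ℕ} {e' : 𝓞 M}
    (ih : ∀ x y : AlgebraicClosure K, aeval x (comps (toQ K G) n) = 0 →
      aeval y (comps (toQ K G) n) = 0 → ∃ s : AlgebraicClosure K ≃ₐ[K] AlgebraicClosure K, s x = y)
    (he : evZ e' (cmpR G n) = 0)
    (hM : ∀ x : AlgebraicClosure K, aeval x (comps (toQ K G) (n + 1)) = 0 → ∃ x' : 𝓞 M,
      ((x' : M) : AlgebraicClosure K) = x) {x : AlgebraicClosure K}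
    (hx : aeval x (comps (toQ K G) (n + 1)) = 0) :
    ∃ (s : AlgebraicClosure K ≃ₐ[K] AlgebraicClosure K) (x' : 𝓞 M), s x = ioK M x' ∧
      evZ x' (G n) = e' := by
  obtain ⟨s, hs⟩ := ih (aeval x (toQ K G n)) (ioK M e') (by rwa [← aeval_comps_succ]) (by
    rw [aeval_comps_toQ, ← hom_evZ, he, map_zero])
  obtain ⟨x', hx'⟩ := hM (s x) (map_comps_zero s hx)
  refine ⟨s, x', hx'.symm, ioK_inj M ?_⟩
  have h2 : ioK M x' = s x := hx'
  rw [hom_evZ, h2, ← hs, aeval_toQ]
  exact (hom_evZ (s : AlgebraicClosure K →+* AlgebraicClosure K) (G n) x).symm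

/-- **Transitivity at the next level.** -/
theorem trans_step (hm : ∀ n, (G n).Monic) (h : CompHyp (toQ K G)) (φ : 𝓞 K →+* ZMod p) {n : ℕ}
    {e : ZMod p} (hc : CertA p G n e)
    (ih : ∀ x y : AlgebraicClosure K, aeval x (comps (toQ K G) n) = 0 →
      aeval y (comps (toQ K G) n) = 0 → ∃ s : AlgebraicClosure K ≃ₐ[K] AlgebraicClosure K, s x = y)
    (x y : AlgebraicClosure K) (hx : aeval x (comps (toQ K G) (n + 1)) = 0)
    (hy : aeval y (comps (toQ K G) (n + 1)) = 0) :
    ∃ s : AlgebraicClosure K ≃ₐ[K] AlgebraicClosure K, s x = y := by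
  obtain ⟨M, hnf, hnorm, π, σ, e', hσ, he1, he2, he3, hM⟩ := frob_setup hm h φ hc.root hc.simple
  obtain ⟨s, x', hs, hx'⟩ := move_fibre ih he1 hM hx
  obtain ⟨u, y', hu, hy'⟩ := move_fibre ih he1 hM hy
  have hR : ∀ z : 𝓞 M, evZ z (G n) = e' →
      aeval (π z) ((G n).map (Int.castRingHom (ZMod p)) - C e) = 0 := by
    intro z hz
    rw [map_sub, aeval_C, aeval_map_evZ, ← hom_evZ, hz, he2, sub_self]
  have hsep := PerfectField.separable_of_irreducible hc.irr
  obtain ⟨j, hj⟩ := frob_move hσ hc.irr hx' hy' he3 (hR x' hx') (hR y' hy') (by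
    have h1 := hsep.aeval_derivative_ne_zero (hR y' hy')
    rwa [derivative_sub, derivative_C, sub_zero, derivative_map, aeval_map_evZ] at h1)
  refine ⟨(s.trans ((σ ^ j).liftNormal (AlgebraicClosure K))).trans u.symm, ?_⟩
  rw [AlgEquiv.trans_apply, AlgEquiv.trans_apply, hs, lift_ioK, hj, ← hu, AlgEquiv.symm_apply_apply]

/-- **Double transitivity on the fibres.** -/
theorem two_step (hm : ∀ n, (G n).Monic) (h : CompHyp (toQ K G)) (φ : 𝓞 K →+* ZMod p) {n : ℕ}
    {e r : ZMod p} {Q : (ZMod p)[X]} (hc : CertB p G n e r Q)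
    (ih : ∀ x y : AlgebraicClosure K, aeval x (comps (toQ K G) (n + 1)) = 0 →
      aeval y (comps (toQ K G) (n + 1)) = 0 →
      ∃ s : AlgebraicClosure K ≃ₐ[K] AlgebraicClosure K, s x = y)
    (x y z : AlgebraicClosure K) (hx : aeval x (comps (toQ K G) (n + 1)) = 0)
    (hy : aeval y (toQ K G n) = aeval x (toQ K G n))
    (hz : aeval z (toQ K G n) = aeval x (toQ K G n)) (hyx : y ≠ x) (hzx : z ≠ x) :
    ∃ s : AlgebraicClosure K ≃ₐ[K] AlgebraicClosure K, s x = x ∧ s y = z := by
  obtain ⟨M, hnf, hnorm, π, σ, e', hσ, he1, he2, he3, hM⟩ := frob_setup hm h φ hc.root hc.simple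
  have hGd : (G n).natDegree ≠ 0 := by
    rw [← toQ_natDegree (K := K)]
    have := h.deg n
    omega
  -- the fixed point
  obtain ⟨r', hr1, hr2⟩ := exists_lift_root M
    (A := (G n).map (Int.castRingHom (𝓞 M)) - C e')
    (((hm n).map _).sub_of_left (by
      refine lt_of_le_of_lt degree_C_le ?_
      rw [← natDegree_pos_iff_degree_pos, (hm n).natDegree_map]
      omega)) (fun x hx => by
      have h1 : aeval x (comps (toQ K G) (n + 1)) = 0 := by
        rw [aeval_comps_succ, aeval_toQ]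
        rw [eval₂_sub, eval₂_C, eval₂_map, sub_eq_zero] at hx
        have h2 : evZ x (G n) = ioK M e' := by
          rw [← hx, evZ]
          congr 1
        rw [h2, aeval_comps_toQ, ← hom_evZ, he1, map_zero]
      obtain ⟨x', hx'⟩ := hM x h1
      rw [← hx']
      exact (x' : M).2) π
    (y := algebraMap (ZMod p) (AlgebraicClosure (ZMod p)) r) (by
      have h1 : evZ r (G n) = e := by
        have h2 := congrArg (Polynomial.eval r) hc.fac
        rw [eval_sub, eval_C, eval_mul, eval_sub, eval_X, eval_C, sub_self, zero_mul,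
          sub_eq_zero] at h2
        rw [evZ_eq_eval, h2]
      have h2 := hom_evZ (algebraMap (ZMod p) (AlgebraicClosure (ZMod p))) (G n) r
      rw [h1, evZ_eq_eval] at h2
      rw [Polynomial.map_sub, Polynomial.map_map, map_C, eval_sub, eval_C, he2, h2, sub_eq_zero]
      congr 2
      exact RingHom.ext_int _ _)
  rw [eval_sub, eval_C, ← evZ_eq_eval, sub_eq_zero] at hr1
  -- the derivative
  have hder : ∀ w : AlgebraicClosure (ZMod p), evZ w (derivative (G n)) =
      aeval w Q + (w - algebraMap (ZMod p) (AlgebraicClosure (ZMod p)) r) *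
        aeval w (derivative Q) := by
    intro w
    have h1 := congrArg derivative hc.fac
    rw [derivative_sub, derivative_C, sub_zero, derivative_map, derivative_mul, derivative_sub,
      derivative_X, derivative_C, sub_zero, one_mul] at h1
    have h2 := congrArg (aeval w) h1
    rw [aeval_map_evZ, map_add, map_mul, map_sub, aeval_X, aeval_C] at h2
    exact h2
  have hQr : aeval (algebraMap (ZMod p) (AlgebraicClosure (ZMod p)) r) Q ≠ 0 := by
    rw [aeval_algebraMap_apply, coe_aeval_eq_eval]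
    exact (_root_.map_ne_zero _).2 hc.ne
  have hdr : evZ (algebraMap (ZMod p) (AlgebraicClosure (ZMod p)) r) (derivative (G n)) ≠ 0 := by
    rw [hder, sub_self, zero_mul, add_zero]
    exact hQr
  have hr3 : σ • r' = r' := by
    symm
    refine evZ_unique π (G n) ?_ ?_ ?_
    · rw [← smul_evZ, hr1, he3]
    · rw [hσ, hr2, ← map_pow, ZMod.pow_card]
    · rwa [hr2]
  -- moving `x` to the fixed point
  have hroot : ∀ w : 𝓞 M, evZ w (G n) = e' → aeval (ioK M w) (comps (toQ K G) (n + 1)) = 0 := by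
    intro w hw
    rw [aeval_comps_toQ, ← hom_evZ, evZ_cmpR_succ, hw, he1, map_zero]
  obtain ⟨s, hs⟩ := ih x (ioK M r') hx (hroot r' hr1)
  have hfib : ∀ y : AlgebraicClosure K, aeval y (toQ K G n) = aeval x (toQ K G n) → y ≠ x →
      ∃ y' : 𝓞 M, s y = ioK M y' ∧ evZ y' (G n) = e' ∧ aeval (π y') Q = 0 := by
    intro y hy hyx
    have h1 : aeval y (comps (toQ K G) (n + 1)) = 0 := by
      rw [aeval_comps_succ, hy, ← aeval_comps_succ, hx]
    obtain ⟨y', hy'⟩ := hM (s y) (map_comps_zero s h1)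
    have hy'' : ioK M y' = s y := hy'
    have h2 : evZ y' (G n) = e' := by
      apply ioK_inj M
      rw [hom_evZ, hy'', ← hr1, hom_evZ, ← hs]
      rw [aeval_toQ, aeval_toQ] at hy
      have h3 := hom_evZ (s : AlgebraicClosure K →+* AlgebraicClosure K) (G n) y
      have h4 := hom_evZ (s : AlgebraicClosure K →+* AlgebraicClosure K) (G n) x
      rw [hy] at h3
      exact h3.symm.trans h4
    refine ⟨y', hy''.symm, h2, ?_⟩
    have h3 : aeval (π y') ((G n).map (Int.castRingHom (ZMod p)) - C e) = 0 := by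
      rw [map_sub, aeval_C, aeval_map_evZ, ← hom_evZ, h2, he2, sub_self]
    rw [hc.fac, map_mul, map_sub, aeval_X, aeval_C, mul_eq_zero] at h3
    refine h3.resolve_left fun h4 => hyx (s.injective ?_)
    rw [hs, ← hy'']
    congr 1
    refine evZ_unique π (G n) (h2.trans hr1.symm) ?_ ?_
    · rw [hr2, sub_eq_zero.1 h4]
    · rw [sub_eq_zero.1 h4]
      exact hdr
  obtain ⟨y', hy1, hy2, hy3⟩ := hfib y hy hyx
  obtain ⟨z', hz1, hz2, hz3⟩ := hfib z hz hzx
  have hsep := PerfectField.separable_of_irreducible hc.irr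
  obtain ⟨j, hj⟩ := frob_move hσ hc.irr hy2 hz2 he3 hy3 hz3 (by
    rw [hder, hz3, zero_add]
    refine mul_ne_zero (fun h4 => hQr ?_) (hsep.aeval_derivative_ne_zero hz3)
    rw [← sub_eq_zero.1 h4]
    exact hz3)
  have hrj : ∀ j : ℕ, σ ^ j • r' = r' := by
    intro j
    induction j with
    | zero => rw [pow_zero, one_smul]
    | succ j ih => rw [pow_succ, mul_smul, hr3, ih]
  refine ⟨(s.trans ((σ ^ j).liftNormal (AlgebraicClosure K))).trans s.symm, ?_, ?_⟩
  · rw [AlgEquiv.trans_apply, AlgEquiv.trans_apply, hs, lift_ioK, hrj, ← hs,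
      AlgEquiv.symm_apply_apply]
  · rw [AlgEquiv.trans_apply, AlgEquiv.trans_apply, hy1, lift_ioK, hj, ← hz1,
      AlgEquiv.symm_apply_apply]

end trans

end

end Pool.Agent.H852.J
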