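import Mathlib
import Pool.Agent.H852.J.G6

/-!
# Characters of the multiplicative group with prescribed values at independent elements
-/

set_option linter.unusedSectionVars false
set_option autoImplicit false

namespace Pool.Agent.H852.J

open Polynomial PadicInt Module Pool.Agent.N171 Pool.Agent.N171.Al Pool.Agent.N171.TG
  Pool.Agent.N171.Pm Pool.Agent.N171.Bg

section char

variable {N : Type*} [CommGroup N]

/-- the sign of an element of `ZMod 2` -/
def sgn : Multiplicative (ZMod 2) →* ℤˣ where
  toFun x := (-1) ^ (Multiplicative.toAdd x).val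
  map_one' := by simp
  map_mul' := by
    intro x y
    have h : ∀ a b : ZMod 2, ((-1 : ℤˣ)) ^ (a + b).val = (-1) ^ a.val * (-1) ^ b.val := by decide
    exact h _ _

/-- **Characters with prescribed values.** -/
theorem exists_char {P : Type*} [Fintype P] [DecidableEq P] (d : P → N)
    (h : ∀ E : Finset P, E.Nonempty → ¬ IsSquare (∏ p ∈ E, d p)) (ε : P → Prop)
    [DecidablePred ε] :
    ∃ l : N →* ℤˣ, ∀ p, l (d p) = if ε p then -1 else 1 := by
  set Q := N ⧸ (powMonoidHom 2 : N →* N).range with hQ
  have htor : ∀ x : Additive Q, 2 • x = 0 := by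
    intro x
    obtain ⟨y, hy⟩ := QuotientGroup.mk_surjective (Additive.toMul x)
    have h1 : (QuotientGroup.mk y : Q) ^ 2 = 1 := by
      rw [← QuotientGroup.mk_pow, QuotientGroup.eq_one_iff]
      exact ⟨y, rfl⟩
    change Additive.ofMul ((Additive.toMul x) ^ 2) = 0
    rw [← hy, h1]
    rfl
  let inst : Module (ZMod 2) (Additive Q) := AddCommGroup.zmodModule htor
  let v : P → Additive Q := fun p => Additive.ofMul (QuotientGroup.mk (d p) : Q)
  have hsmul : ∀ (c : ZMod 2) (x : Additive Q), c • x = if c = 0 then 0 else x := by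
    intro c x
    by_cases hc : c = 0
    · rw [hc, zero_smul, if_pos rfl]
    · have hc1 : c = 1 := by
        revert hc
        revert c
        decide
      rw [hc1, one_smul, if_neg one_ne_zero]
  have hv : LinearIndependent (ZMod 2) v := by
    rw [Fintype.linearIndependent_iff]
    intro g hg
    by_contra hne
    push Not at hne
    obtain ⟨i, hi⟩ := hne
    refine h (Finset.univ.filter fun p => g p ≠ 0) ⟨i, by simpa using hi⟩ ?_
    have h1 : ∑ p ∈ Finset.univ.filter (fun p => g p ≠ 0), v p = 0 := by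
      rw [← hg, Finset.sum_filter]
      refine Finset.sum_congr rfl fun p _ => ?_
      rw [hsmul]
      by_cases hp : g p = 0 <;> simp [hp]
    have h2 : (QuotientGroup.mk (∏ p ∈ Finset.univ.filter (fun p => g p ≠ 0), d p) : Q) = 1 := by
      have h3 : Additive.ofMul (QuotientGroup.mk
          (∏ p ∈ Finset.univ.filter (fun p => g p ≠ 0), d p) : Q) = 0 := by
        rw [← h1]
        have h4 := map_prod (QuotientGroup.mk' (powMonoidHom 2 : N →* N).range) d
          (Finset.univ.filter fun p => g p ≠ 0)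
        change Additive.ofMul (QuotientGroup.mk' (powMonoidHom 2 : N →* N).range
          (∏ p ∈ Finset.univ.filter (fun p => g p ≠ 0), d p)) = _
        rw [h4, ofMul_prod]
        rfl
      exact h3
    rw [QuotientGroup.eq_one_iff] at h2
    obtain ⟨y, hy⟩ := h2
    exact ⟨y, by rw [← hy, powMonoidHom_apply, sq]⟩
  let b := Basis.span hv
  obtain ⟨φ, hφ⟩ := LinearMap.exists_extend
    (b.constr (ZMod 2) (fun p => if ε p then (1 : ZMod 2) else 0))
  have hφv : ∀ p, φ (v p) = if ε p then 1 else 0 := by
    intro p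
    have h1 := LinearMap.congr_fun hφ (b p)
    rw [Basis.constr_basis] at h1
    rw [← h1, LinearMap.comp_apply, Submodule.subtype_apply, Basis.span_apply]
  let φ' : Q →* Multiplicative (ZMod 2) :=
    { toFun := fun q => Multiplicative.ofAdd (φ (Additive.ofMul q))
      map_one' := by
        rw [ofMul_one, map_zero]
        rfl
      map_mul' := fun x y => by
        rw [ofMul_mul, map_add]
        rfl }
  refine ⟨(sgn.comp φ').comp (QuotientGroup.mk' _), fun p => ?_⟩
  change (-1 : ℤˣ) ^ (φ (v p)).val = _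
  rw [hφv]
  by_cases hp : ε p
  · rw [if_pos hp, if_pos hp]
    decide
  · rw [if_neg hp, if_neg hp]
    decide

end char

section signs

variable {K F : Type} [Field K] [Field F] [Algebra K F] [IsAlgClosed F] [Normal K F]
  {P : Type} [Fintype P] [DecidableEq P]

theorem isSquare_units {N : Type*} [Field N] {u : Nˣ} : IsSquare u ↔ IsSquare (u : N) := by
  constructor
  · rintro ⟨x, rfl⟩
    exact ⟨x, by rw [Units.val_mul]⟩
  · rintro ⟨x, hx⟩
    have hx0 : x ≠ 0 := by
      rintro rfl
      rw [mul_zero] at hx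
      exact u.ne_zero hx
    exact ⟨Units.mk0 x hx0, Units.ext (by rw [hx]; rfl)⟩

theorem char_of_sq {N : Type*} [Field N] (l : Nˣ →* ℤˣ) {u : Nˣ} (h : IsSquare (u : N)) :
    l u = 1 := by
  obtain ⟨x, rfl⟩ := isSquare_units.2 h
  rw [map_mul]
  exact Int.units_mul_self _

/-- **A sign character of the multiplicative group of `K`.** The values at the elements `d p` are prescribed, and
at the elements which are squares in `N` they are trivial; it is realized by automorphisms on finitely many
square roots. -/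
theorem exists_sgn (h2 : (2 : F) ≠ 0) (N : IntermediateField K F) (hm1 : IsSquare (-1 : N))
    (hm2 : IsSquare (2 : N)) (d : P → K)
    (hd : ∀ E : Finset P, E.Nonempty → ¬ IsSquare (algebraMap K N (∏ p ∈ E, d p))) (ε : P → Prop)
    [DecidablePred ε] :
    ∃ l : Kˣ →* ℤˣ, (∀ p (u : Kˣ), (u : K) = d p → l u = if ε p then -1 else 1) ∧
      (∀ u : Kˣ, IsSquare (algebraMap K N u) → l u = 1) ∧
      ∀ {R : Type} [Fintype R] (e : R → Kˣ), ∃ σ : F ≃ₐ[K] F, (∀ x ∈ N, σ x = x) ∧
        (∀ i, ∀ w : F, w ^ 2 = algebraMap K F (e i) → σ w = ((l (e i) : ℤ) : F) * w) ∧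
        ∃ z, ((cyc K F σ : ℤ_[2]ˣ) : ℤ_[2]) = 1 + 8 * z := by
  have hd0 : ∀ p, d p ≠ 0 := by
    intro p h0
    apply hd {p} (Finset.singleton_nonempty p)
    rw [Finset.prod_singleton, h0, map_zero]
    exact IsSquare.zero
  let d' : P → Kˣ := fun p => Units.mk0 (d p) (hd0 p)
  let φ : Kˣ →* Nˣ := Units.map (algebraMap K N)
  have hind : ∀ E : Finset P, E.Nonempty → ¬ IsSquare (∏ p ∈ E, φ (d' p)) := by
    intro E hE hsq
    apply hd E hE
    have h1 := isSquare_units.1 hsq
    rw [← map_prod] at h1
    have h3 : ((φ (∏ p ∈ E, d' p) : Nˣ) : N) = algebraMap K N (∏ p ∈ E, d p) := by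
      change algebraMap K N ((∏ p ∈ E, d' p : Kˣ) : K) = _
      rw [Units.coe_prod]
      rfl
    rwa [h3] at h1
  obtain ⟨l, hl⟩ := exists_char (fun p => φ (d' p)) hind ε
  refine ⟨l.comp φ, fun p u hu => ?_, fun u hu => ?_, fun {R} _ e => ?_⟩
  · rw [MonoidHom.comp_apply, ← hl p]
    congr 2
    exact Units.ext hu
  · rw [MonoidHom.comp_apply]
    exact char_of_sq l hu
  · obtain ⟨σ, h3, h4, h5⟩ := exists_sigma_M h2 N l
      (char_of_sq l (by rw [Units.val_neg, Units.val_one]; exact hm1))
      (fun u hu => char_of_sq l (by rw [hu]; exact hm2)) (fun i => φ (e i))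
    exact ⟨σ, fun x hx => h3 ⟨x, hx⟩, fun i w hw => h4 i w (by rw [hw]; rfl), h5⟩

end signs

end Pool.Agent.H852.J
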