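import Mathlib
import Pool.Agent.H852.J.H1

/-!
# The curves which are covered by the curve `y_i ^ 2 = c_i (x - α_i)`
-/

set_option linter.unusedSectionVars false
set_option autoImplicit false

namespace Pool.Agent.H852.J

open Polynomial PadicInt Module Pool.Agent.N171 Pool.Agent.N171.Al Pool.Agent.N171.TG
  Pool.Agent.N171.Pm Pool.Agent.N171.Bg

/-! ### generating systems of sets -/

section sets

variable {τ : Type} [Fintype τ] [DecidableEq τ]

theorem genSets_star (s : τ) (h3 : 2 < Fintype.card τ) :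
    GenSets (fun k : {k : τ // k ≠ s} => ({s, k.1} : Finset τ)) := by
  refine genSets_of_graph (fun _ => s) (fun k : {k : τ // k ≠ s} => k.1) (fun k h => k.2 h.symm) h3
    fun x y => ?_
  have h1 : ∀ x, Relation.ReflTransGen
      (Edge (fun _ : {k : τ // k ≠ s} => s) (fun k => k.1)) s x := by
    intro x
    by_cases hx : x = s
    · rw [hx]
    · exact Relation.ReflTransGen.single ⟨⟨x, hx⟩, Or.inl ⟨rfl, rfl⟩⟩
  have h2 : ∀ x, Relation.ReflTransGen
      (Edge (fun _ : {k : τ // k ≠ s} => s) (fun k => k.1)) x s := by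
    intro x
    by_cases hx : x = s
    · rw [hx]
    · exact Relation.ReflTransGen.single ⟨⟨x, hx⟩, Or.inr ⟨rfl, rfl⟩⟩
  exact (h2 x).trans (h1 y)

theorem genSets_compl (ho : Odd (Fintype.card τ)) (h3 : 2 < Fintype.card τ) :
    GenSets (fun k : τ => (Finset.univ.erase k : Finset τ)) := by
  refine ⟨fun k => ?_, fun i j hij => ?_, fun k k' => ?_⟩
  · rw [Finset.card_erase_of_mem (Finset.mem_univ k), Finset.card_univ]
    obtain ⟨n, hn⟩ := ho
    exact ⟨n, by omega⟩
  · have h1 : ind ({i, j} : Finset τ) = ind (Finset.univ.erase i) + ind (Finset.univ.erase j) := by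
      funext l
      rw [Pi.add_apply]
      unfold ind
      by_cases hi : l = i
      · subst hi
        simp [hij]
      · by_cases hj : l = j
        · subst hj
          simp [hi]
        · simp only [Finset.mem_insert, Finset.mem_singleton, hi, hj, or_self, if_false,
            Finset.mem_erase, Finset.mem_univ, and_true, ne_eq, not_false_eq_true, if_true]
          decide
    rw [h1]
    exact AddSubgroup.add_mem _ (AddSubgroup.subset_closure ⟨i, rfl⟩)
      (AddSubgroup.subset_closure ⟨j, rfl⟩)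
  · by_cases h : k = k'
    · rw [h]
    · refine Relation.ReflTransGen.single ?_
      have h1 : (Finset.univ.erase k ∩ Finset.univ.erase k' : Finset τ) =
          (Finset.univ.erase k).erase k' := by
        ext l
        simp [and_comm]
      rw [h1, Finset.card_erase_of_mem (Finset.mem_erase.2 ⟨fun h' => h h'.symm, Finset.mem_univ _⟩),
        Finset.card_erase_of_mem (Finset.mem_univ k), Finset.card_univ]
      obtain ⟨n, hn⟩ := ho
      exact ⟨n - 1, by omega⟩

end sets

/-! ### signs of the elements of a field -/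

section sign

variable {K : Type} [Field K] (l : Kˣ →* ℤˣ)

open Classical in
/-- the character on the field -/
noncomputable def sg (x : K) : ℤˣ := if h : x = 0 then 1 else l (Units.mk0 x h)

theorem sg_unit (u : Kˣ) : sg l (u : K) = l u := by
  rw [sg, dif_neg u.ne_zero]
  congr 1
  exact Units.ext rfl

theorem sg_mul {x y : K} (hx : x ≠ 0) (hy : y ≠ 0) : sg l (x * y) = sg l x * sg l y := by
  have h1 := sg_unit l (Units.mk0 x hx * Units.mk0 y hy)
  rw [map_mul, ← sg_unit, ← sg_unit] at h1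
  exact h1

theorem sg_prod {ι : Type} (S : Finset ι) (g : ι → K) (hg : ∀ i ∈ S, g i ≠ 0) :
    sg l (∏ i ∈ S, g i) = ∏ i ∈ S, sg l (g i) := by
  classical
  induction S using Finset.induction_on with
  | empty =>
    rw [Finset.prod_empty, Finset.prod_empty]
    have h1 := sg_unit l 1
    rw [map_one] at h1
    exact h1
  | insert a S ha ih =>
    rw [Finset.prod_insert ha, Finset.prod_insert ha, sg_mul l (hg a (Finset.mem_insert_self _ _))
      (Finset.prod_ne_zero_iff.2 fun i hi => hg i (Finset.mem_insert_of_mem hi)),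
      ih fun i hi => hg i (Finset.mem_insert_of_mem hi)]

end sign

/-! ### the curves -/

section curves

variable {K : Type} [Field K] {m : ℕ} (α c : Fin m → K) (b : Finset (Fin m) → Fin m)

/-- The indices of the roots of the model of the curve: all elements of `T` if the cardinality is odd, all but
the base point if it is even. -/
def pts (T : Finset (Fin m)) : Finset (Fin m) := if Odd T.card then T else T.erase (b T)

/-- The roots of the model of the curve. -/
def rt (T : Finset (Fin m)) (i : Fin m) : K :=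
  if Odd T.card then (∏ k ∈ T, c k) * α i
  else -((∏ k ∈ T, c k) * ∏ k ∈ (T.erase (b T)).erase i, (α (b T) - α k))

variable {α c b} (hb : ∀ T, T.Nonempty → b T ∈ T)

include hb in
theorem pts_card {T : Finset (Fin m)} (hT : 3 ≤ T.card) :
    Odd (pts b T).card ∧ 2 < (pts b T).card := by
  unfold pts
  by_cases h : Odd T.card
  · rw [if_pos h]
    exact ⟨h, hT⟩
  · rw [if_neg h, Finset.card_erase_of_mem (hb T (Finset.card_pos.1 (by omega)))]
    rw [Nat.not_odd_iff_even] at h
    obtain ⟨n, hn⟩ := h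
    exact ⟨⟨n - 1, by omega⟩, by omega⟩

theorem pts_sub (T : Finset (Fin m)) : pts b T ⊆ T := by
  unfold pts
  split_ifs
  · exact subset_rfl
  · exact Finset.erase_subset _ _

theorem rt_sub_odd {T : Finset (Fin m)} (h : Odd T.card) (i j : Fin m) :
    rt α c b T i - rt α c b T j = (∏ k ∈ T, c k) * (α i - α j) := by
  rw [rt, rt, if_pos h, if_pos h]
  ring

theorem rt_sub_even {T : Finset (Fin m)} (h : ¬ Odd T.card) {i j : Fin m} (hi : i ∈ T.erase (b T))
    (hj : j ∈ T.erase (b T)) (hij : i ≠ j) :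
    rt α c b T i - rt α c b T j = -1 * ((∏ k ∈ T, c k) *
      ((∏ k ∈ ((T.erase (b T)).erase i).erase j, (α (b T) - α k)) * (α i - α j))) := by
  rw [rt, rt, if_neg h, if_neg h]
  have h1 : ∏ k ∈ (T.erase (b T)).erase i, (α (b T) - α k) =
      (α (b T) - α j) * ∏ k ∈ ((T.erase (b T)).erase i).erase j, (α (b T) - α k) :=
    (Finset.mul_prod_erase _ _ (Finset.mem_erase.2 ⟨hij.symm, hj⟩)).symm
  have h2 : ∏ k ∈ (T.erase (b T)).erase j, (α (b T) - α k) =
      (α (b T) - α i) * ∏ k ∈ ((T.erase (b T)).erase i).erase j, (α (b T) - α k) := by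
    rw [Finset.erase_right_comm (s := T.erase (b T)) (a := i) (b := j)]
    exact (Finset.mul_prod_erase _ _ (Finset.mem_erase.2 ⟨hij, hi⟩)).symm
  rw [h1, h2]
  ring

variable (hα : Function.Injective α) (hc : ∀ k, c k ≠ 0)

include hα hc in
theorem rt_ne {T : Finset (Fin m)} {i j : Fin m} (hi : i ∈ pts b T) (hj : j ∈ pts b T)
    (hij : i ≠ j) : rt α c b T i - rt α c b T j ≠ 0 := by
  have hcT : (∏ k ∈ T, c k) ≠ 0 := Finset.prod_ne_zero_iff.2 fun k _ => hc k
  have hd : α i - α j ≠ 0 := sub_ne_zero.2 fun h => hij (hα h)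
  unfold pts at hi hj
  by_cases h : Odd T.card
  · rw [rt_sub_odd h]
    exact mul_ne_zero hcT hd
  · rw [if_neg h] at hi hj
    rw [rt_sub_even h hi hj hij]
    refine mul_ne_zero (neg_ne_zero.2 one_ne_zero) (mul_ne_zero hcT (mul_ne_zero
      (Finset.prod_ne_zero_iff.2 fun k hk => sub_ne_zero.2 fun h' => ?_) hd))
    rw [Finset.mem_erase, Finset.mem_erase, Finset.mem_erase] at hk
    exact hk.2.2.1 (hα h').symm

/-- the character is `-1` on `α s - α k` and trivial on all other differences and on `c` -/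
structure StarChar (α c : Fin m → K) (l : Kˣ →* ℤˣ) (s k : Fin m) : Prop where
  diff : ∀ i j, i ≠ j → sg l (α i - α j) = if (i = s ∧ j = k) ∨ (i = k ∧ j = s) then -1 else 1
  one : sg l (-1) = 1
  coef : ∀ i, sg l (c i) = 1

variable {l : Kˣ →* ℤˣ} {s k : Fin m} (hl : StarChar α c l s k)

include hα hc hl in
theorem sg_odd {T : Finset (Fin m)} (h : Odd T.card) {i j : Fin m} (hij : i ≠ j) :
    sg l (rt α c b T i - rt α c b T j) =
      if (i = s ∧ j = k) ∨ (i = k ∧ j = s) then -1 else 1 := by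
  rw [rt_sub_odd h, sg_mul l (Finset.prod_ne_zero_iff.2 fun k _ => hc k)
    (sub_ne_zero.2 fun h => hij (hα h)), sg_prod l T c fun i _ => hc i,
    Finset.prod_eq_one fun i _ => hl.coef i, one_mul, hl.diff i j hij]

include hα hc hl in
theorem sg_even {T : Finset (Fin m)} (h : ¬ Odd T.card) {i j : Fin m} (hi : i ∈ T.erase (b T))
    (hj : j ∈ T.erase (b T)) (hij : i ≠ j) :
    sg l (rt α c b T i - rt α c b T j) =
      (∏ x ∈ ((T.erase (b T)).erase i).erase j,
        if (b T = s ∧ x = k) ∨ (b T = k ∧ x = s) then -1 else 1) *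
      if (i = s ∧ j = k) ∨ (i = k ∧ j = s) then -1 else 1 := by
  have h1 : ∀ x ∈ ((T.erase (b T)).erase i).erase j, b T ≠ x := by
    intro x hx
    rw [Finset.mem_erase, Finset.mem_erase, Finset.mem_erase] at hx
    exact fun h => hx.2.2.1 h.symm
  have h2 : ∀ x ∈ ((T.erase (b T)).erase i).erase j, α (b T) - α x ≠ 0 := fun x hx =>
    sub_ne_zero.2 fun h => h1 x hx (hα h)
  have h3 := Finset.prod_ne_zero_iff.2 h2
  have h4 : α i - α j ≠ 0 := sub_ne_zero.2 fun h => hij (hα h)
  have h5 : (∏ k ∈ T, c k) ≠ 0 := Finset.prod_ne_zero_iff.2 fun k _ => hc k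
  rw [rt_sub_even h hi hj hij, sg_mul l (neg_ne_zero.2 one_ne_zero)
    (mul_ne_zero h5 (mul_ne_zero h3 h4)), sg_mul l h5 (mul_ne_zero h3 h4), sg_mul l h3 h4,
    sg_prod l T c fun i _ => hc i, Finset.prod_eq_one fun i _ => hl.coef i, hl.one, one_mul,
    one_mul, hl.diff i j hij, sg_prod l _ _ h2]
  congr 1
  exact Finset.prod_congr rfl fun x hx => hl.diff _ _ (h1 x hx)

include hα hc hl in
/-- no signs on the curves without the point `s` -/
theorem sg_away {T : Finset (Fin m)} (hs : s ∉ T) {i j : Fin m} (hi : i ∈ pts b T)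
    (hj : j ∈ pts b T) (hij : i ≠ j) (hb : b T ∈ T) :
    sg l (rt α c b T i - rt α c b T j) = 1 := by
  have hi' := pts_sub T hi
  have hj' := pts_sub T hj
  have h1 : ¬ ((i = s ∧ j = k) ∨ (i = k ∧ j = s)) := by
    rintro (⟨rfl, -⟩ | ⟨-, rfl⟩)
    · exact hs hi'
    · exact hs hj'
  unfold pts at hi hj
  by_cases h : Odd T.card
  · rw [sg_odd hα hc hl h hij, if_neg h1]
  · rw [if_neg h] at hi hj
    rw [sg_even hα hc hl h hi hj hij, if_neg h1, mul_one]
    refine Finset.prod_eq_one fun x hx => if_neg ?_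
    rw [Finset.mem_erase, Finset.mem_erase, Finset.mem_erase] at hx
    rintro (⟨h2, -⟩ | ⟨-, rfl⟩)
    · exact hs (h2 ▸ hb)
    · exact hs hx.2.2.2

include hα hc hl in
/-- the signs on a curve with both points, none of them the base point -/
theorem sg_star {T : Finset (Fin m)} (hs : ¬ Odd T.card → b T ≠ s) (hk : ¬ Odd T.card → b T ≠ k)
    {i j : Fin m} (hi : i ∈ pts b T) (hj : j ∈ pts b T) (hij : i ≠ j) :
    sg l (rt α c b T i - rt α c b T j) =
      if (i = s ∧ j = k) ∨ (i = k ∧ j = s) then -1 else 1 := by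
  unfold pts at hi hj
  by_cases h : Odd T.card
  · rw [sg_odd hα hc hl h hij]
  · rw [if_neg h] at hi hj
    rw [sg_even hα hc hl h hi hj hij, Finset.prod_eq_one, one_mul]
    intro x _
    refine if_neg ?_
    rintro (⟨h2, -⟩ | ⟨h2, -⟩)
    · exact hs h h2
    · exact hk h h2

include hα hc hl in
/-- the signs on a curve with the base point `s` -/
theorem sg_compl {T : Finset (Fin m)} (h : ¬ Odd T.card) (hs : b T = s) (hk : k ∈ T.erase s)
    {i j : Fin m} (hi : i ∈ pts b T) (hj : j ∈ pts b T) (hij : i ≠ j) :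
    sg l (rt α c b T i - rt α c b T j) = if i ≠ k ∧ j ≠ k then -1 else 1 := by
  unfold pts at hi hj
  rw [if_neg h] at hi hj
  rw [sg_even hα hc hl h hi hj hij]
  have h1 : ¬ ((i = s ∧ j = k) ∨ (i = k ∧ j = s)) := by
    rw [Finset.mem_erase] at hi hj
    rintro (⟨h2, -⟩ | ⟨-, h2⟩)
    · exact hi.1 (h2.trans hs.symm)
    · exact hj.1 (h2.trans hs.symm)
  rw [if_neg h1, mul_one]
  have h2 : ∀ x ∈ ((T.erase (b T)).erase i).erase j,
      (if (b T = s ∧ x = k) ∨ (b T = k ∧ x = s) then (-1 : ℤˣ) else 1) =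
        if x = k then -1 else 1 := by
    intro x hx
    rw [Finset.mem_erase, Finset.mem_erase, Finset.mem_erase] at hx
    by_cases hxk : x = k
    · rw [if_pos (Or.inl ⟨hs, hxk⟩), if_pos hxk]
    · rw [if_neg hxk, if_neg]
      rintro (⟨-, h3⟩ | ⟨-, h3⟩)
      · exact hxk h3
      · exact hx.2.2.1 (h3.trans hs.symm)
  rw [Finset.prod_congr rfl h2]
  by_cases h3 : i ≠ k ∧ j ≠ k
  · rw [if_pos h3, Finset.prod_ite_eq' , if_pos]
    rw [Finset.mem_erase, Finset.mem_erase, hs]
    exact ⟨h3.2.symm, h3.1.symm, hk⟩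
  · rw [if_neg h3, Finset.prod_ite_eq', if_neg]
    rw [Finset.mem_erase, Finset.mem_erase]
    rintro ⟨h4, h5, -⟩
    exact h3 ⟨Ne.symm h5, Ne.symm h4⟩

end curves

end Pool.Agent.H852.J
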