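import Mathlib
import Pool.Agent.H852.J.H2
import Pool.Agent.H852.J.P3

/-!
# The Tate conjecture for the curves `y_i ^ 2 = c_i (x - α_i)`
-/

set_option linter.unusedSectionVars false
set_option autoImplicit false

namespace Pool.Agent.H852.J

open Polynomial PadicInt Module Pool.Agent.N171 Pool.Agent.N171.Al Pool.Agent.N171.TG
  Pool.Agent.N171.Pm Pool.Agent.N171.Bg

section main

variable {K F : Type} [Field K] [Field F] [Algebra K F] [IsAlgClosed F] [Normal K F] {m : ℕ}
  (α c : Fin m → K) (b : Finset (Fin m) → Fin m)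

/-- the roots of the model of the curve, in the algebraic closure -/
def ra (F : Type) [Field F] [Algebra K F] (T : Finset (Fin m)) (i : pts b T) : F :=
  algebraMap K F (rt α c b T i)

variable {α c b}

theorem signsOn_of {T : Finset (Fin m)} {l : Kˣ →* ℤˣ} {σ : F ≃ₐ[K] F} (I : Finset (pts b T))
    (h : ∀ i j : pts b T, i ≠ j → ∀ w : F,
      w ^ 2 = algebraMap K F (rt α c b T i - rt α c b T j) →
      σ w = ((sg l (rt α c b T i - rt α c b T j) : ℤ) : F) * w)
    (hI : ∀ i j : pts b T, i ≠ j →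
      sg l (rt α c b T i - rt α c b T j) = if i ∈ I ∧ j ∈ I then -1 else 1) :
    SignsOn (ra α c b F T) σ I := by
  refine ⟨fun i => σ.commutes _, fun i j hij w hw => ?_⟩
  rw [h i j hij w (by rw [hw, map_sub]; rfl), hI i j hij]
  split_ifs <;> simp

variable (hb : ∀ T, T.Nonempty → b T ∈ T) (hα : Function.Injective α) (hc : ∀ k, c k ≠ 0)
  (N : IntermediateField K F) (hm1 : IsSquare (-1 : N)) (hm2 : IsSquare (2 : N))
  (hcN : ∀ k, IsSquare (algebraMap K N (c k)))
  (hind : ∀ E : Finset {p : Fin m × Fin m // p.1 < p.2}, E.Nonempty →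
    ¬ IsSquare (algebraMap K N (∏ p ∈ E, (α p.1.1 - α p.1.2))))

include hc hm1 hm2 hcN hind in
/-- the automorphism which changes the sign of the square root of one difference only -/
theorem star_elt (h2 : (2 : F) ≠ 0) (s k : Fin m) (hα : Function.Injective α) :
    ∃ (l : Kˣ →* ℤˣ) (σ : F ≃ₐ[K] F), StarChar α c l s k ∧ (∀ x ∈ N, σ x = x) ∧
      (∀ (T : Finset (Fin m)) (i j : pts b T), i ≠ j → ∀ w : F,
        w ^ 2 = algebraMap K F (rt α c b T i - rt α c b T j) →
        σ w = ((sg l (rt α c b T i - rt α c b T j) : ℤ) : F) * w) ∧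
      ∃ z, ((cyc K F σ : ℤ_[2]ˣ) : ℤ_[2]) = 1 + 8 * z := by
  classical
  obtain ⟨l, h3, h4, h5⟩ := exists_sgn h2 N hm1 hm2
    (fun p : {p : Fin m × Fin m // p.1 < p.2} => α p.1.1 - α p.1.2) hind
    (fun p => (p.1.1 = s ∧ p.1.2 = k) ∨ (p.1.1 = k ∧ p.1.2 = s))
  let e : (Finset (Fin m) × Fin m × Fin m) → Kˣ := fun x =>
    if h : rt α c b x.1 x.2.1 - rt α c b x.1 x.2.2 = 0 then 1 else Units.mk0 _ h
  obtain ⟨σ, h6, h7, h8⟩ := h5 e
  have hone : sg l (-1) = 1 := by
    have h9 := sg_unit l (-1)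
    rw [Units.val_neg, Units.val_one] at h9
    rw [h9]
    refine h4 _ ?_
    rw [Units.val_neg, Units.val_one, map_neg, map_one]
    exact hm1
  have hlt : ∀ i j, i < j → sg l (α i - α j) =
      if (i = s ∧ j = k) ∨ (i = k ∧ j = s) then -1 else 1 := by
    intro i j hij
    have h9 : α i - α j ≠ 0 := sub_ne_zero.2 fun h => hij.ne (hα h)
    have h10 := sg_unit l (Units.mk0 _ h9)
    rw [Units.val_mk0] at h10
    rw [h10]
    exact h3 ⟨(i, j), hij⟩ _ rfl
  refine ⟨l, σ, ⟨fun i j hij => ?_, hone, fun i => ?_⟩, h6, fun T i j hij w hw => ?_, h8⟩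
  · rcases lt_or_gt_of_ne hij with h | h
    · exact hlt i j h
    · have h9 : α j - α i ≠ 0 := sub_ne_zero.2 fun h => hij (hα h).symm
      have h10 : α i - α j = -1 * (α j - α i) := by ring
      rw [h10, sg_mul l (neg_ne_zero.2 one_ne_zero) h9, hone, one_mul, hlt j i h]
      by_cases h11 : (i = s ∧ j = k) ∨ (i = k ∧ j = s)
      · rw [if_pos h11, if_pos]
        rcases h11 with h11 | h11
        · exact Or.inr ⟨h11.2, h11.1⟩
        · exact Or.inl ⟨h11.2, h11.1⟩
      · rw [if_neg h11, if_neg]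
        rintro (h12 | h12)
        · exact h11 (Or.inr ⟨h12.2, h12.1⟩)
        · exact h11 (Or.inl ⟨h12.2, h12.1⟩)
  · have h9 := sg_unit l (Units.mk0 _ (hc i))
    rw [Units.val_mk0] at h9
    rw [h9]
    exact h4 _ (hcN i)
  · have h9 : rt α c b T i - rt α c b T j ≠ 0 :=
      rt_ne hα hc i.2 j.2 fun h => hij (Subtype.ext h)
    have h10 : (e (T, i, j) : K) = rt α c b T i - rt α c b T j := by
      change ((if h : rt α c b T i - rt α c b T j = 0 then (1 : Kˣ) else Units.mk0 _ h : Kˣ) : K) = _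
      rw [dif_neg h9]
      rfl
    have h11 := h7 (T, i, j) w (by rw [h10, hw])
    rw [h11, ← h10, sg_unit]

include hb hα hc in
theorem hyp_ra {T : Finset (Fin m)} (hT : 3 ≤ T.card) (h2 : (2 : F) ≠ 0) : Hyp (ra α c b F T) where
  inj := by
    intro i j hij
    by_contra h
    have h1 := rt_ne hα hc i.2 j.2 fun h' => h (Subtype.ext h')
    apply h1
    rw [sub_eq_zero]
    exact (algebraMap K F).injective hij
  odd := by
    rw [Fintype.card_coe]
    exact (pts_card hb hT).1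
  two := h2

include hb hα hc hm1 hm2 hcN hind in
/-- **Generation at the star of a point.** -/
theorem genBy_T (h2 : (2 : F) ≠ 0) {T : Finset (Fin m)} (hT : 3 ≤ T.card)
    [Hyp (ra α c b F T)] {s : Fin m} (hs : s ∈ T) (W : (F ≃ₐ[K] F) → Prop)
    (hW : ∀ (k : Fin m) (l : Kˣ →* ℤˣ) (σ : F ≃ₐ[K] F), StarChar α c l s k → (∀ x ∈ N, σ x = x) →
      (∀ (T : Finset (Fin m)) (i j : pts b T), i ≠ j → ∀ w : F,
        w ^ 2 = algebraMap K F (rt α c b T i - rt α c b T j) →
        σ w = ((sg l (rt α c b T i - rt α c b T j) : ℤ) : F) * w) → W σ) :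
    GenBy K (ra α c b F T) W := by
  classical
  obtain ⟨ho, h3⟩ := pts_card hb hT
  have ho' : Odd (Fintype.card (pts b T)) := by rwa [Fintype.card_coe]
  have h3' : 2 < Fintype.card (pts b T) := by rwa [Fintype.card_coe]
  choose l σ hl hN hσ hχ using fun k => star_elt (b := b) hc N hm1 hm2 hcN hind h2 s k hα
  by_cases hcase : ¬ Odd T.card ∧ b T = s
  · -- the base point
    have hpts : pts b T = T.erase s := by
      rw [pts, if_neg hcase.1, hcase.2]
    refine ⟨pts b T, fun k => Finset.univ.erase k, fun k => σ k, genSets_compl ho' h3',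
      fun k => signsOn_of _ (hσ k T) fun i j hij => ?_, fun k => hχ k,
      fun k => hW k (l k) (σ k) (hl k) (hN k) (hσ k)⟩
    rw [sg_compl hα hc (hl k) hcase.1 hcase.2 (hpts ▸ k.2) i.2 j.2 fun h => hij (Subtype.ext h)]
    simp only [Finset.mem_erase, Finset.mem_univ, and_true, ne_eq, Subtype.ext_iff]
  · have hb' : ¬ Odd T.card → b T ≠ s := fun h h' => hcase ⟨h, h'⟩
    have hsp : s ∈ pts b T := by
      unfold pts
      by_cases h : Odd T.card
      · rwa [if_pos h]
      · rw [if_neg h, Finset.mem_erase]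
        exact ⟨(hb' h).symm, hs⟩
    refine ⟨{k : pts b T // k ≠ ⟨s, hsp⟩}, fun k => {⟨s, hsp⟩, k.1}, fun k => σ k.1,
      genSets_star _ h3', fun k => signsOn_of _ (hσ k.1 T) fun i j hij => ?_, fun k => hχ k.1,
      fun k => hW k.1 (l k.1) (σ k.1) (hl k.1) (hN k.1) (hσ k.1)⟩
    have hk : ¬ Odd T.card → b T ≠ k.1 := by
      intro h h'
      have h5 : pts b T = T.erase (b T) := if_neg h
      have h4 := (Finset.ext_iff.1 h5 _).1 k.1.2
      rw [Finset.mem_erase] at h4
      exact h4.1 h'.symm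
    rw [sg_star hα hc (hl k.1) hb' hk i.2 j.2 fun h => hij (Subtype.ext h)]
    have hsk : s ≠ k.1 := fun h => k.2 (Subtype.ext h.symm)
    have hij' : (i : Fin m) ≠ j := fun h => hij (Subtype.ext h)
    simp only [Finset.mem_insert, Finset.mem_singleton, Subtype.ext_iff]
    by_cases h4 : ((i : Fin m) = s ∧ (j : Fin m) = k.1) ∨ ((i : Fin m) = k.1 ∧ (j : Fin m) = s)
    · rw [if_pos h4, if_pos]
      rcases h4 with h4 | h4
      · exact ⟨Or.inl h4.1, Or.inr h4.2⟩
      · exact ⟨Or.inr h4.1, Or.inl h4.2⟩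
    · rw [if_neg h4, if_neg]
      rintro ⟨h5 | h5, h6 | h6⟩
      · exact hij' (h5.trans h6.symm)
      · exact h4 (Or.inl ⟨h5, h6⟩)
      · exact h4 (Or.inr ⟨h5, h6⟩)
      · exact hij' (h5.trans h6.symm)

/-- the order of the curves -/
noncomputable def rk (T : {T : Finset (Fin m) // 3 ≤ T.card}) : ℕ :=
  T.1.card * Fintype.card (Finset (Fin m)) + Fintype.equivFin (Finset (Fin m)) T.1

theorem rk_inj : Function.Injective (rk (m := m)) := by
  intro T T' h
  have h1 := (Fintype.equivFin (Finset (Fin m)) T.1).2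
  have h2 := (Fintype.equivFin (Finset (Fin m)) T'.1).2
  unfold rk at h
  have h3 : (Fintype.equivFin (Finset (Fin m)) T.1 : ℕ) = Fintype.equivFin (Finset (Fin m)) T'.1 := by
    have h4 := congrArg (fun x => x % Fintype.card (Finset (Fin m))) h
    simp only [Nat.mul_add_mod_self_right] at h4
    rwa [Nat.mod_eq_of_lt h1, Nat.mod_eq_of_lt h2] at h4
  exact Subtype.ext ((Fintype.equivFin _).injective (Fin.ext h3))

theorem rk_lt {T T' : {T : Finset (Fin m) // 3 ≤ T.card}} (h : rk T' < rk T) :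
    ∃ s ∈ T.1, s ∉ T'.1 := by
  by_contra hcon
  push Not at hcon
  have h1 : T.1 ⊆ T'.1 := hcon
  have h2 := Finset.card_le_card h1
  have h3 := (Fintype.equivFin (Finset (Fin m)) T.1).2
  rcases h2.lt_or_eq with h4 | h4
  · unfold rk at h
    have h5 : (T.1.card + 1) * Fintype.card (Finset (Fin m)) ≤
        T'.1.card * Fintype.card (Finset (Fin m)) := Nat.mul_le_mul_right _ h4
    rw [add_mul, one_mul] at h5
    omega
  · have h5 : T.1 = T'.1 := Finset.eq_of_subset_of_card_le h1 h4.ge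
    rw [Subtype.ext h5] at h
    exact lt_irrefl _ h

include hb hα hc hm1 hm2 hcN hind in
/-- **Joint tangent vectors.** -/
theorem tan_hum (h2 : (2 : F) ≠ 0)
    [∀ T : {T : Finset (Fin m) // 3 ≤ T.card}, Hyp (ra α c b F T.1)]
    [∀ T : {T : Finset (Fin m) // 3 ≤ T.card}, IsDomain (RG (fP (ra α c b F T.1)))]
    (hg : ∀ (T : {T : Finset (Fin m) // 3 ≤ T.card}) (s : F ≃ₐ[K] F),
      (fP (ra α c b F T.1)).map ((s : F ≃+* F) : F →+* F) = fP (ra α c b F T.1))
    {A : Type} [Ring A] [Algebra ℤ_[2] A] [Module.Finite ℤ_[2] A] [Module.Free ℤ_[2] A]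
    (t : (F ≃ₐ[K] F) →* A)
    (ht : ∀ σ : F ≃ₐ[K] F, (∀ x ∈ N, σ x = x) → ∃ M, t σ = 1 + (4 : ℤ_[2]) • M)
    {X : ∀ T : {T : Finset (Fin m) // 3 ≤ T.card},
      Module.End ℤ_[2] (TateMod 2 (ClG (RG (fP (ra α c b F T.1)))))}
    (hX : ∀ T, X T ∈ spQ (BP (fun T : {T : Finset (Fin m) // 3 ≤ T.card} => ra α c b F T.1) h2 T)
      (p1 _)) :
    TanA (jw (fun T => rhoG (hg T)) t) (X, 0) := by
  classical
  refine tan_pairs (fun T : {T : Finset (Fin m) // 3 ≤ T.card} => ra α c b F T.1) hg t h2 rk rk_inj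
    (fun T T' h => ?_) (fun T => ?_) hX
  · obtain ⟨s, hs, hs'⟩ := rk_lt h
    refine genBy_T hb hα hc N hm1 hm2 hcN hind h2 T.2 hs _ fun k l σ hl _ hσ => ?_
    refine signsOn_of _ (hσ T'.1) fun i j hij => ?_
    rw [sg_away hα hc hl hs' i.2 j.2 (fun h => hij (Subtype.ext h))
      (hb _ (Finset.card_pos.1 (by have := T'.2; omega)))]
    simp
  · obtain ⟨s, hs⟩ : T.1.Nonempty := Finset.card_pos.1 (by have := T.2; omega)
    exact genBy_T hb hα hc N hm1 hm2 hcN hind h2 T.2 hs _ fun k l σ _ hN _ => ht σ hN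

end main

end Pool.Agent.H852.J
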