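import Mathlib
import Pool.Agent.H852.J.H3
import Pool.Agent.H852.J.P4

/-!
# The Tate conjecture for the curves `y_i ^ 2 = c_i (x - α_i)` over number fields
-/

set_option linter.unusedSectionVars false
set_option autoImplicit false

namespace Pool.Agent.H852.J

open Matrix Polynomial Filter Topology Module NumberField IsDedekindDomain WithZero
open Pool.Agent.Y142.ZO (GK)
open Pool.Agent.N171 Pool.Agent.N171.Al Pool.Agent.N171.Pm Pool.Agent.N171.Bg Pool.Agent.N171.TG
open Pool.Agent.Results.MP_640417_ag.HyperellipticEveryPrime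
open HeightOneSpectrum

theorem trivial_lat {L : Type} [Field L] {d : ℕ}
    {τ : AbsoluteGaloisGroup L →* Matrix (Fin d) (Fin d) ℚ_[2]}
    {t : AbsoluteGaloisGroup L →* Matrix (Fin d) (Fin d) ℤ_[2]}
    (ht : IsLatOf t τ) {s : AbsoluteGaloisGroup L} (h : TrivialModFour τ s) :
    ∃ Y, t s = 1 + (4 : ℤ_[2]) • Y := by
  have h5 : ∀ a b, ∃ y : ℤ_[2], (t s - 1) a b = 4 * y := by
    intro a b
    have h6 : ‖(t s - 1) a b‖ < 1 / 2 := by
      have h7 := h a b
      rw [ht s] at h7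
      have h8 : ((t s).map (algebraMap ℤ_[2] ℚ_[2]) - 1) a b = (((t s - 1) a b : ℤ_[2]) : ℚ_[2]) := by
        rw [Matrix.sub_apply, Matrix.sub_apply, PadicInt.coe_sub, Matrix.map_apply]
        congr 1
        rw [Matrix.one_apply, Matrix.one_apply]
        split_ifs <;> simp
      rw [h8] at h7
      exact h7
    have h7 : ‖(t s - 1) a b‖ ≤ (2 : ℝ) ^ (-(2 : ℕ) : ℤ) := by
      have h8 := (PadicInt.norm_le_pow_iff_norm_lt_pow_add_one ((t s - 1) a b) (-(2 : ℕ) : ℤ)).2
      push_cast at h8 ⊢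
      refine h8 (lt_of_lt_of_le h6 ?_)
      norm_num
    have h8 : (t s - 1) a b ∈ Ideal.span {((2 : ℕ) : ℤ_[2]) ^ 2} :=
      (PadicInt.norm_le_pow_iff_mem_span_pow ((t s - 1) a b) 2).1 (by exact_mod_cast h7)
    obtain ⟨y, hy⟩ := Ideal.mem_span_singleton'.1 h8
    refine ⟨y, ?_⟩
    rw [← hy]
    push_cast
    ring
  choose y hy using h5
  refine ⟨Matrix.of y, ?_⟩
  ext1 a b
  have h6 := hy a b
  rw [Matrix.sub_apply] at h6
  rw [Matrix.add_apply, Matrix.smul_apply, Matrix.of_apply, smul_eq_mul, ← h6]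
  ring

/-- the model of the curve `y ^ 2 = ∏ c_i (x - α_i)`, `i ∈ T` -/
noncomputable def mdl {K : Type} [Field K] {m : ℕ} (α c : Fin m → K)
    (b : Finset (Fin m) → Fin m) (T : Finset (Fin m)) : K[X] :=
  ∏ i ∈ pts b T, (X - C (rt α c b T i))

section

variable {K : Type} [Field K] [NumberField K] {m : ℕ} {α c : Fin m → K}
  {b : Finset (Fin m) → Fin m}

theorem mdl_hypP (hb : ∀ T, T.Nonempty → b T ∈ T) (hα : Function.Injective α)
    (hc : ∀ k, c k ≠ 0) {T : Finset (Fin m)} (hT : 3 ≤ T.card) : HypP (mdl α c b T) where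
  monic := monic_prod_of_monic _ _ fun i _ => monic_X_sub_C _
  sep := by
    unfold mdl
    rw [separable_prod_X_sub_C_iff']
    intro i hi j hj h
    by_contra hij
    exact rt_ne hα hc hi hj hij (sub_eq_zero.2 h)
  odd := by
    unfold mdl
    rw [natDegree_prod_of_monic _ _ fun i _ => monic_X_sub_C _]
    simp only [natDegree_X_sub_C, Finset.sum_const, smul_eq_mul, mul_one]
    exact (pts_card hb hT).1
  two := two_ne_zero

theorem everyPrime_hum (hm : 3 ≤ m) (hb : ∀ T, T.Nonempty → b T ∈ T) (hα : Function.Injective α)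
    (hc : ∀ k, c k ≠ 0) (N : IntermediateField K (AlgebraicClosure K)) (hm1 : IsSquare (-1 : N))
    (hm2 : IsSquare (2 : N)) (hcN : ∀ k, IsSquare (algebraMap K N (c k)))
    (hind : ∀ E : Finset {p : Fin m × Fin m // p.1 < p.2}, E.Nonempty →
      ¬ IsSquare (algebraMap K N (∏ p ∈ E, (α p.1.1 - α p.1.2))))
    {d : ℕ} (τ : AbsoluteGaloisGroup K →* Matrix (Fin d) (Fin d) ℚ_[2]) (hτ : IsLattice τ)
    (ht : ∀ g : AbsoluteGaloisGroup K, (∀ x ∈ N, g x = x) → TrivialModFour τ g) :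
    EveryPrime (fun T : {T : Finset (Fin m) // 3 ≤ T.card} => mdl α c b T.1) τ := by
  classical
  obtain ⟨t, htl⟩ := exists_lat τ hτ.2
  have h2F : (2 : AlgebraicClosure K) ≠ 0 := by
    have h1 : (2 : AlgebraicClosure K) = algebraMap K (AlgebraicClosure K) 2 := by rw [map_ofNat]
    rw [h1, Ne, map_eq_zero]
    exact two_ne_zero
  have hne : Nonempty {T : Finset (Fin m) // 3 ≤ T.card} :=
    ⟨⟨Finset.univ, by rw [Finset.card_univ, Fintype.card_fin]; exact hm⟩⟩
  have hyp : ∀ T : {T : Finset (Fin m) // 3 ≤ T.card},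
      Hyp (ra α c b (AlgebraicClosure K) T.1) := fun T => hyp_ra hb hα hc T.2 h2F
  refine everyPrime_of_tan _ (fun T => mdl_hypP hb hα hc T.2)
    (fun T : {T : Finset (Fin m) // 3 ≤ T.card} => ra α c b (AlgebraicClosure K) T.1)
    (fun T => ?_) (fun T => ?_) t τ hτ.1 htl ?_
  · unfold mdl
    rw [Polynomial.map_prod, fP, ← Finset.prod_coe_sort]
    refine Finset.prod_congr rfl fun i _ => ?_
    rw [Polynomial.map_sub, map_X, map_C]
    rfl
  · rw [Fintype.card_coe]
    have := (pts_card hb T.2).2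
    omega
  · intro h2' _ hg X hX
    exact tan_hum hb hα hc N hm1 hm2 hcN hind h2' hg t (fun σ hσ => trivial_lat htl (ht σ hσ)) hX

end

end Pool.Agent.H852.J
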