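import Mathlib
import Pool.Agent.H852.J.H4

/-!
# Places with odd valuations and squares in finite extensions
-/

set_option linter.unusedSectionVars false
set_option autoImplicit false

namespace Pool.Agent.H852.J

open Matrix Polynomial Filter Topology Module NumberField IsDedekindDomain WithZero
open HeightOneSpectrum
open Pool.Agent.Results.MP_640417_ag.HyperellipticEveryPrime

section ram

variable {K M : Type} [Field K] [NumberField K] [Field M] [NumberField M] [Algebra K M]

/-- **Only finitely many places ramify**, in terms of inertia. -/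
theorem exists_disc (K M : Type) [Field K] [NumberField K] [Field M] [NumberField M]
    [Algebra K M] : ∃ n : ℕ, 0 < n ∧ ∀ P : HeightOneSpectrum (𝓞 M),
    (n : 𝓞 M) ∉ P.asIdeal → ∀ s : M ≃ₐ[K] M, Inert P s → s = 1 := by
  classical
  have h1 : ∀ s : M ≃ₐ[K] M, s ≠ 1 → ∃ x : 𝓞 M, s • x ≠ x := by
    intro s hs
    by_contra hcon
    push Not at hcon
    apply hs
    ext z
    obtain ⟨a, b, hb, rfl⟩ := IsFractionRing.div_surjective (A := 𝓞 M) z
    have ha' : s (algebraMap (𝓞 M) M a) = algebraMap (𝓞 M) M a := by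
      have := congrArg (algebraMap (𝓞 M) M) (hcon a)
      exact this
    have hb' : s (algebraMap (𝓞 M) M b) = algebraMap (𝓞 M) M b := by
      have := congrArg (algebraMap (𝓞 M) M) (hcon b)
      exact this
    rw [map_div₀, ha', hb']
    rfl
  choose! x hx using h1
  set δ : 𝓞 M := ∏ s ∈ (Finset.univ : Finset (M ≃ₐ[K] M)).erase 1, (s • x s - x s) with hδ
  have hδ0 : δ ≠ 0 := Finset.prod_ne_zero_iff.2 fun s hs =>
    sub_ne_zero.2 (hx s (Finset.ne_of_mem_erase hs))
  have hI : Ideal.span {δ} ≠ ⊥ := by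
    rw [Ne, Ideal.span_singleton_eq_bot]
    exact hδ0
  refine ⟨Ideal.absNorm (Ideal.span {δ}), Nat.pos_of_ne_zero fun h => hI ?_, ?_⟩
  · exact Ideal.absNorm_eq_zero_iff.1 h
  · intro P hP s hs
    by_contra hs1
    apply hP
    have h2 : δ ∈ P.asIdeal := by
      rw [hδ, ← Finset.mul_prod_erase _ _ (Finset.mem_erase.2 ⟨hs1, Finset.mem_univ s⟩)]
      exact Ideal.mul_mem_right _ _ (hs (x s))
    exact (Ideal.span_singleton_le_iff_mem _).2 h2 (Ideal.absNorm_mem _)

/-- **An element with odd valuation at an unramified place is not a square.** -/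
theorem not_square_of_odd [IsGalois K M] {n : ℕ} (hn : ∀ P : HeightOneSpectrum (𝓞 M),
    (n : 𝓞 M) ∉ P.asIdeal → ∀ s : M ≃ₐ[K] M, Inert P s → s = 1)
    (v : HeightOneSpectrum (𝓞 K)) (hv : (n : 𝓞 K) ∉ v.asIdeal) (x : K)
    (hx : Odd (log (v.valuation K x))) : ¬ IsSquare (algebraMap K M x) := by
  rintro ⟨y, hy⟩
  obtain ⟨P, hP⟩ := exists_place_above (M := M) v
  have h1 : (n : 𝓞 M) ∉ P.asIdeal := by
    intro h
    apply hv
    rw [hP.over, Ideal.mem_comap, map_natCast]
    exact h
  have h2 := val_eq_of_trivial v P (hn P h1) x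
  rw [hy, map_mul] at h2
  rw [← h2] at hx
  by_cases h0 : P.valuation M y = 0
  · rw [h0, mul_zero, log_zero] at hx
    exact absurd hx (by decide)
  · rw [log_mul h0 h0] at hx
    exact (Int.not_odd_iff_even.2 ⟨_, rfl⟩) hx

end ram

section field

variable {K : Type} [Field K] [NumberField K]

theorem trivial_nhds {d : ℕ} (τ : AbsoluteGaloisGroup K →* Matrix (Fin d) (Fin d) ℚ_[2])
    (hτ : IsLattice τ) : {g : AbsoluteGaloisGroup K | TrivialModFour τ g} ∈ 𝓝 1 := by
  have h1 : ∀ a b, {g : AbsoluteGaloisGroup K | ‖(τ g - 1) a b‖ < 1 / 2} ∈ 𝓝 1 := by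
    intro a b
    have h2 : Continuous fun g : AbsoluteGaloisGroup K => ‖(τ g - 1) a b‖ := by
      have h3 : Continuous fun g : AbsoluteGaloisGroup K => τ g - 1 := hτ.1.sub continuous_const
      exact (h3.matrix_elem a b).norm
    refine h2.continuousAt.preimage_mem_nhds (Iio_mem_nhds ?_)
    rw [map_one, sub_self, Matrix.zero_apply, norm_zero]
    norm_num
  have h2 : {g : AbsoluteGaloisGroup K | TrivialModFour τ g} =
      ⋂ a, ⋂ b, {g : AbsoluteGaloisGroup K | ‖(τ g - 1) a b‖ < 1 / 2} := by
    ext g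
    simp only [TrivialModFour, Set.mem_setOf_eq, Set.mem_iInter]
  rw [h2]
  exact Filter.iInter_mem.2 fun a => Filter.iInter_mem.2 fun b => h1 a b

/-- **The field.** -/
theorem exists_field {m : ℕ} (c : Fin m → K) {d : ℕ}
    (τ : AbsoluteGaloisGroup K →* Matrix (Fin d) (Fin d) ℚ_[2]) (hτ : IsLattice τ) :
    ∃ (N : IntermediateField K (AlgebraicClosure K)) (n : ℕ), 0 < n ∧ IsSquare (-1 : N) ∧
      IsSquare (2 : N) ∧ (∀ k, IsSquare (algebraMap K N (c k))) ∧
      (∀ g : AbsoluteGaloisGroup K, (∀ x ∈ N, g x = x) → TrivialModFour τ g) ∧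
      ∀ (v : HeightOneSpectrum (𝓞 K)) (x : K), (n : 𝓞 K) ∉ v.asIdeal →
        Odd (log (v.valuation K x)) → ¬ IsSquare (algebraMap K N x) := by
  obtain ⟨E, hE1, hE2⟩ := (krullTopology_mem_nhds_one_iff K (AlgebraicClosure K) _).1
    (trivial_nhds τ hτ)
  -- the square roots
  have hsq : ∀ z : AlgebraicClosure K, ∃ w, w ^ 2 = z := fun z =>
    IsAlgClosed.exists_pow_nat_eq z two_pos
  choose w hw using hsq
  let S : Set (AlgebraicClosure K) := {w (-1), w 2} ∪ Set.range fun k => w (algebraMap K _ (c k))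
  have hSfin : S.Finite := (Set.toFinite _).union (Set.finite_range _)
  have := hSfin.to_subtype
  have hfd1 : FiniteDimensional K (IntermediateField.adjoin K S) :=
    IntermediateField.finiteDimensional_adjoin fun z _ => Normal.isIntegral (F := K) inferInstance z
  have hfd2 : FiniteDimensional K (E ⊔ IntermediateField.adjoin K S : IntermediateField K _) :=
    IntermediateField.finiteDimensional_sup _ _
  set N := IntermediateField.normalClosure K (E ⊔ IntermediateField.adjoin K S :
    IntermediateField K (AlgebraicClosure K)) (AlgebraicClosure K) with hN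
  have hfd : FiniteDimensional K N := normalClosure.is_finiteDimensional _ _ _
  have hnorm : Normal K N := normalClosure.normal _ _ _
  have hnf : NumberField N := NumberField.of_module_finite K N
  have hgal : IsGalois K N := ⟨⟩
  have hle : (E ⊔ IntermediateField.adjoin K S : IntermediateField K _) ≤ N :=
    IntermediateField.le_normalClosure _
  have hmem : ∀ z ∈ S, z ∈ N := fun z hz =>
    hle ((le_sup_right : IntermediateField.adjoin K S ≤ _)
      (IntermediateField.subset_adjoin K S hz))
  have hsqN : ∀ (z : N), w z ∈ N → IsSquare z := by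
    intro z hz
    refine ⟨⟨w z, hz⟩, Subtype.ext ?_⟩
    change (z : AlgebraicClosure K) = w z * w z
    rw [← sq, hw]
  obtain ⟨n, hn, hn'⟩ := exists_disc K N
  refine ⟨N, n, hn, hsqN _ (hmem _ ?_), hsqN _ (hmem _ ?_), fun k => hsqN _ (hmem _ ?_),
    fun g hg => hE2 ?_, fun v x hv hx => not_square_of_odd hn' v hv x hx⟩
  · exact Or.inl (Or.inl rfl)
  · exact Or.inl (Or.inr rfl)
  · exact Or.inr ⟨k, rfl⟩
  · intro x
    exact hg x (hle ((le_sup_left : E ≤ _) x.2))

end field

end Pool.Agent.H852.J
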