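import Mathlib
import Pool.Agent.H852.J.C5
import Pool.Agent.H852.J.H5
import Pool.Agent.H852.J.A4

/-!
# Places above unramified prime numbers; separability from reductions; extension of sequences
-/

set_option linter.unusedSectionVars false
set_option autoImplicit false

open Polynomial Module NumberField IsDedekindDomain
open HeightOneSpectrum WithZero

namespace Pool.Agent.H852.J

noncomputable section

/-- places above prime numbers which do not ramify -/
theorem exists_unr_place (K : Type) [Field K] [NumberField K] (p : ℕ) (hp : p.Prime)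
    (hd : ¬ (p : ℤ) ∣ NumberField.discr K) : ∃ v : HeightOneSpectrum (𝓞 K),
    v.valuation K (p : K) = exp (-1 : ℤ) ∧
    (∀ m : ℤ, ¬ (p : ℤ) ∣ m → v.valuation K (m : K) = 1) ∧
    ∀ m : ℤ, ¬ (p : ℤ) ∣ m → (m : 𝓞 K) ∉ v.asIdeal := by
  obtain ⟨v₀, hv₀, -, -⟩ := exists_rat_place p hp
  have hpv₀ : ((p : ℕ) : 𝓞 ℚ) ∈ v₀.asIdeal := by
    refine (v₀.valuation_lt_one_iff_mem (K := ℚ) _).1 ?_
    have h1 : algebraMap (𝓞 ℚ) ℚ ((p : ℕ) : 𝓞 ℚ) = (p : ℚ) := map_natCast (algebraMap (𝓞 ℚ) ℚ) p
    change v₀.valuation ℚ (algebraMap (𝓞 ℚ) ℚ ((p : ℕ) : 𝓞 ℚ)) < 1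
    rw [h1, hv₀, ← exp_zero, exp_lt_exp]
    norm_num
  obtain ⟨v, hv⟩ := exists_place_above (K := ℚ) (M := K) v₀
  have hpv : (p : 𝓞 K) ∈ v.asIdeal := by
    rw [hv.over, Ideal.mem_comap, map_natCast] at hpv₀
    exact hpv₀
  have hmem : ∀ m : ℤ, ¬ (p : ℤ) ∣ m → (m : 𝓞 K) ∉ v.asIdeal := by
    intro m hm h
    have h1 : IsCoprime (p : ℤ) m :=
      ((Nat.prime_iff_prime_int.1 hp).coprime_iff_not_dvd).2 hm
    obtain ⟨a, b, hab⟩ := h1
    apply v.isPrime.ne_top
    rw [Ideal.eq_top_iff_one]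
    have h3 : (1 : 𝓞 K) = (a : 𝓞 K) * p + (b : 𝓞 K) * m := by
      have := congrArg (Int.cast : ℤ → 𝓞 K) hab
      push_cast at this
      exact this.symm
    rw [h3]
    exact v.asIdeal.add_mem (v.asIdeal.mul_mem_left _ hpv) (v.asIdeal.mul_mem_left _ h)
  refine ⟨v, ?_, fun m hm => ?_, hmem⟩
  · have hunr := (NumberField.not_dvd_discr_iff_forall_mem K (𝓞 K)
      (Nat.prime_iff_prime_int.1 hp)).1 hd v.asIdeal v.isPrime (by
        rw [Int.cast_natCast]
        exact hpv)
    have hle : (Ideal.span {(p : ℤ)}).map (algebraMap ℤ (𝓞 K)) ≤ v.asIdeal := by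
      rw [Ideal.map_span, Set.image_singleton, Ideal.span_singleton_le_iff_mem, eq_intCast,
        Int.cast_natCast]
      exact hpv
    have hlies : v.asIdeal.LiesOver (Ideal.span {(p : ℤ)}) :=
      (Ideal.liesOver_span_iff v.isPrime.ne_top (Nat.prime_iff_prime_int.1 hp)).2 (by
        rw [map_natCast]
        exact hpv)
    have h1 : (Ideal.span {(p : ℤ)}).ramificationIdx' v.asIdeal = 1 := by
      rw [Ideal.ramificationIdx'_eq_ramificationIdx]
      · exact Ideal.ramificationIdx_eq_one _ _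
      · rw [Ne, Ideal.span_singleton_eq_bot]
        exact_mod_cast hp.ne_zero
    have h2 : (p : 𝓞 K) ∉ v.asIdeal ^ 2 := by
      intro h3
      refine (Ideal.ramificationIdx'_ne_one_iff hle).2 ?_ h1
      rw [Ideal.map_span, Set.image_singleton, Ideal.span_singleton_le_iff_mem, eq_intCast,
        Int.cast_natCast]
      exact h3
    have h3 : algebraMap (𝓞 K) K (p : 𝓞 K) = (p : K) := map_natCast (algebraMap (𝓞 K) K) p
    rw [← h3, valuation_of_algebraMap]
    have h4 : v.intValuation (p : 𝓞 K) ≤ exp (-(1 : ℕ) : ℤ) :=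
      (v.intValuation_le_pow_iff_mem _ 1).2 (by rwa [pow_one])
    have h5 : ¬ v.intValuation (p : 𝓞 K) ≤ exp (-(2 : ℕ) : ℤ) := fun h6 =>
      h2 ((v.intValuation_le_pow_iff_mem _ 2).1 h6)
    have hp0 : (p : 𝓞 K) ≠ 0 := Nat.cast_ne_zero.2 hp.ne_zero
    have h6 : v.intValuation (p : 𝓞 K) ≠ 0 := v.intValuation_ne_zero _ hp0
    rw [← exp_log h6] at h4 h5 ⊢
    rw [exp_le_exp] at h4 h5
    congr 1
    push_cast at h4 h5
    omega
  · have h1 : (m : K) = algebraMap (𝓞 K) K (m : 𝓞 K) := by rw [map_intCast]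
    rw [h1]
    refine le_antisymm (v.valuation_le_one _) (not_lt.1 fun h4 => hmem m hm ?_)
    rwa [valuation_lt_one_iff_mem] at h4

/-- a reduction map -/
theorem exists_red (M : Type) [Field M] [NumberField M] (p : ℕ) [Fact p.Prime] :
    ∃ _π : 𝓞 M →+* AlgebraicClosure (ZMod p), True := by
  obtain ⟨v₀, hv₀, -, -⟩ := exists_rat_place p Fact.out
  have hpv₀ : ((p : ℕ) : 𝓞 ℚ) ∈ v₀.asIdeal := by
    refine (v₀.valuation_lt_one_iff_mem (K := ℚ) _).1 ?_
    have h1 : algebraMap (𝓞 ℚ) ℚ ((p : ℕ) : 𝓞 ℚ) = (p : ℚ) := map_natCast (algebraMap (𝓞 ℚ) ℚ) p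
    change v₀.valuation ℚ (algebraMap (𝓞 ℚ) ℚ ((p : ℕ) : 𝓞 ℚ)) < 1
    rw [h1, hv₀, ← exp_zero, exp_lt_exp]
    norm_num
  obtain ⟨v, hv⟩ := exists_place_above (K := ℚ) (M := M) v₀
  have hpv : (p : 𝓞 M) ∈ v.asIdeal := by
    rw [hv.over, Ideal.mem_comap, map_natCast] at hpv₀
    exact hpv₀
  have hfin : Finite (𝓞 M ⧸ v.asIdeal) := Ideal.finiteQuotientOfFreeOfNeBot _ v.ne_bot
  obtain ⟨π, -⟩ := exists_residue p (𝓞 M) v.asIdeal (v.isPrime.isMaximal v.ne_bot) hfin hpv
  exact ⟨π, trivial⟩

/-- the condition at a level modulo a prime number -/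
def EtaleAt (p : ℕ) [Fact p.Prime] (G : ℕ → ℤ[X]) (n : ℕ) : Prop :=
  ∀ y : AlgebraicClosure (ZMod p), evZ y (derivative (G n)) = 0 → evZ y (cmpR G (n + 1)) ≠ 0

/-- the composition with a polynomial without critical values among the roots -/
theorem sep_comp {K : Type} [Field K] {f g : K[X]} (hf : f.Separable)
    (h : ∀ y : AlgebraicClosure K, aeval y (derivative g) = 0 → aeval y (f.comp g) ≠ 0) :
    (f.comp g).Separable := by
  rw [Polynomial.Separable, isCoprime_iff_aeval_ne_zero_of_isAlgClosed K (AlgebraicClosure K)]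
  intro y
  by_cases hy : aeval y (f.comp g) = 0
  · right
    rw [derivative_comp, map_mul, aeval_comp]
    refine mul_ne_zero (fun h1 => h y h1 hy) ?_
    rw [aeval_comp] at hy
    exact hf.aeval_derivative_ne_zero hy
  · exact Or.inl hy

theorem crit_etale {K : Type} [Field K] [NumberField K] {G : ℕ → ℤ[X]}
    (hmon : ∀ n, (cmpR G n).Monic) {p : ℕ} [Fact p.Prime] {n : ℕ} (h : EtaleAt p G n)
    (y : AlgebraicClosure K) (hy : aeval y (derivative (toQ K G n)) = 0) :
    aeval y (comps (toQ K G) (n + 1)) ≠ 0 := by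
  intro hy2
  rw [aeval_comps_toQ] at hy2
  rw [toQ, derivative_map, aeval_map_evZ] at hy
  let M : IntermediateField K (AlgebraicClosure K) := IntermediateField.adjoin K {y}
  have hfd : FiniteDimensional K M := IntermediateField.finiteDimensional_adjoin
    fun z _ => Normal.isIntegral (F := K) inferInstance z
  have hnf : NumberField M := NumberField.of_module_finite K M
  have hyM : y ∈ M := IntermediateField.mem_adjoin_simple_self K y
  have hint : IsIntegral ℤ (⟨y, hyM⟩ : M) := by
    refine ⟨cmpR G (n + 1), hmon _, ?_⟩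
    apply (algebraMap M (AlgebraicClosure K)).injective
    rw [map_zero, hom_eval₂, ← hy2, evZ]
    congr 1
  let z : 𝓞 M := ⟨⟨y, hyM⟩, hint⟩
  have hz : ioK M z = y := rfl
  obtain ⟨π, -⟩ := exists_red M p
  have h1 : evZ z (derivative (G n)) = 0 := by
    apply ioK_inj M
    rw [hom_evZ, hz, hy, map_zero]
  have h2 : evZ z (cmpR G (n + 1)) = 0 := by
    apply ioK_inj M
    rw [hom_evZ, hz, hy2, map_zero]
  refine h (π z) ?_ ?_
  · rw [← hom_evZ, h1, map_zero]
  · rw [← hom_evZ, h2, map_zero]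

theorem exists_nz (f : ℤ[X]) : ∃ c : ℤ, f ≠ 0 → f.eval c ≠ 0 := by
  by_contra h
  push Not at h
  exact (h 0).1 (Polynomial.funext fun c => by rw [(h c).2, eval_zero])

/-- an integer which is not a root -/
def nz (f : ℤ[X]) : ℤ := (exists_nz f).choose

theorem nz_spec {f : ℤ[X]} (hf : f ≠ 0) : f.eval (nz f) ≠ 0 := (exists_nz f).choose_spec hf

/-- the next compositions with cubic polynomials -/
def tailF (f : ℤ[X]) : ℕ → ℤ[X]
  | 0 => f
  | m + 1 => (tailF f m).comp (X ^ 3 + C (nz (tailF f m)))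

/-- the extension of a finite sequence of polynomials -/
def extG (G : ℕ → ℤ[X]) (N : ℕ) (n : ℕ) : ℤ[X] :=
  if n < N then G n else X ^ 3 + C (nz (tailF (cmpR G N) (n - N)))

theorem extG_lt (G : ℕ → ℤ[X]) {N n : ℕ} (h : n < N) : extG G N n = G n := if_pos h

theorem cmpR_ext_le (G : ℕ → ℤ[X]) {N n : ℕ} (h : n ≤ N) : cmpR (extG G N) n = cmpR G n := by
  induction n with
  | zero => rfl
  | succ n ih => rw [cmpR, cmpR, ih (by omega), extG_lt G (by omega)]

theorem cmpR_ext_add (G : ℕ → ℤ[X]) (N m : ℕ) :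
    cmpR (extG G N) (N + m) = tailF (cmpR G N) m := by
  induction m with
  | zero => rw [add_zero, cmpR_ext_le G le_rfl, tailF]
  | succ m ih =>
    rw [← add_assoc, cmpR, ih, tailF, extG, if_neg (by omega)]
    congr 4
    rw [Nat.add_sub_cancel_left]

theorem monic_cube (c : ℤ) : (X ^ 3 + C c : ℤ[X]).Monic := monic_X_pow_add_C c (by norm_num)

theorem natDegree_cube (c : ℤ) : (X ^ 3 + C c : ℤ[X]).natDegree = 3 := natDegree_X_pow_add_C

/-- **Extension of a finite sequence.** -/
theorem ext_compHyp {K : Type} [Field K] [NumberField K] {G : ℕ → ℤ[X]} {N : ℕ}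
    (hm : ∀ n < N, (G n).Monic) (hd : ∀ n < N, 3 ≤ (G n).natDegree)
    (ho : ∀ n < N, Odd (G n).natDegree) (he : ∀ n < N, ∃ (p : ℕ) (_ : Fact p.Prime), EtaleAt p G n) :
    (∀ n, (extG G N n).Monic) ∧ CompHyp (toQ K (extG G N)) := by
  have hm' : ∀ n, (extG G N n).Monic := by
    intro n
    unfold extG
    split_ifs with h
    · exact hm n h
    · exact monic_cube _
  have hd' : ∀ n, 3 ≤ (extG G N n).natDegree := by
    intro n
    unfold extG
    split_ifs with h
    · exact hd n h
    · exact (natDegree_cube _).ge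
  have ho' : ∀ n, Odd (extG G N n).natDegree := by
    intro n
    unfold extG
    split_ifs with h
    · exact ho n h
    · rw [natDegree_cube]
      decide
  have hmon : ∀ n, (cmpR (extG G N) n).Monic :=
    cmpR_monic hm' fun n => by have := hd' n; omega
  have hsep : ∀ n, (comps (toQ K (extG G N)) n).Separable := by
    intro n
    induction n with
    | zero =>
      rw [comps]
      exact separable_X
    | succ n ih =>
      rw [comps]
      refine sep_comp ih fun y hy => ?_
      by_cases hn : n < N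
      · obtain ⟨p, hp, he'⟩ := he n hn
        refine crit_etale hmon (p := p) (n := n) (fun w hw => ?_) y hy
        rw [cmpR_ext_le G (by omega)]
        refine he' w ?_
        rwa [extG_lt G hn] at hw
      · obtain ⟨m, rfl⟩ := Nat.exists_eq_add_of_le (not_lt.1 hn)
        have h1 : extG G N (N + m) = X ^ 3 + C (nz (tailF (cmpR G N) m)) := by
          unfold extG
          rw [if_neg (by omega), Nat.add_sub_cancel_left]
        rw [toQ, h1, derivative_map, aeval_map_evZ] at hy
        have h2 : y = 0 := by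
          rw [derivative_add, derivative_C, add_zero, derivative_X_pow, evZ_eq_eval] at hy
          simp only [Polynomial.map_mul, Polynomial.map_pow, map_X, eval_mul, eval_pow,
            eval_X] at hy
          rcases mul_eq_zero.1 hy with h3 | h3
          · exfalso
            simp at h3
          · exact pow_eq_zero_iff (by norm_num) |>.1 h3
        have h3 : aeval y (toQ K (extG G N) (N + m)) =
            ((nz (tailF (cmpR G N) m) : ℤ) : AlgebraicClosure K) := by
          rw [aeval_toQ, h1, h2, evZ_eq_eval]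
          simp
        rw [aeval_comp, h3, aeval_comps_toQ, evZ_int, cmpR_ext_add, Int.cast_ne_zero]
        refine nz_spec ?_
        rw [← cmpR_ext_add]
        exact (hmon _).ne_zero
  exact ⟨hm', ⟨fun n => (hm' n).map _, fun n => by
    rw [toQ_natDegree]
    exact hd' n, fun n => by
    rw [toQ_natDegree]
    exact ho' n, hsep⟩⟩

end

end Pool.Agent.H852.J
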