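import Mathlib

/-!
# The critical orbit of `x ^ 2 + P / q ^ 2`
-/

set_option linter.unusedSectionVars false
set_option autoImplicit false

namespace Pool.Agent.H852.J

/-- the numerators of the critical orbit of `x ^ 2 + P / q ^ 2`, divided by `P` -/
def wq (P q : ℤ) : ℕ → ℤ
  | 0 => 0
  | n + 1 => P * wq P q n ^ 2 + q ^ (2 ^ (n + 1) - 2)

variable {P q : ℤ}

theorem wq_zero : wq P q 0 = 0 := rfl

theorem wq_succ (n : ℕ) : wq P q (n + 1) = P * wq P q n ^ 2 + q ^ (2 ^ (n + 1) - 2) := rfl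

theorem wq_one : wq P q 1 = 1 := by
  rw [wq_succ, wq_zero]
  norm_num

/-- the congruence modulo the square of one term -/
theorem wq_add (k : ℕ) (j : ℕ) : ∃ z, wq P q (k + (j + 1)) =
    wq P q (j + 1) * q ^ (2 ^ (k + (j + 1)) - 2 ^ (j + 1)) + wq P q k ^ 2 * z := by
  induction j with
  | zero =>
    refine ⟨P, ?_⟩
    rw [zero_add, wq_one, wq_succ, one_mul, pow_one]
    ring
  | succ j ih =>
    obtain ⟨z, hz⟩ := ih
    set A := q ^ (2 ^ (k + (j + 1)) - 2 ^ (j + 1)) with hA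
    refine ⟨P * (2 * wq P q (j + 1) * A * z + wq P q k ^ 2 * z ^ 2), ?_⟩
    have h1 : k + (j + 1 + 1) = (k + (j + 1)) + 1 := by ring
    have hle : 2 ^ (j + 1) ≤ 2 ^ (k + (j + 1)) := Nat.pow_le_pow_right two_pos (by omega)
    have h2 : q ^ (2 ^ (k + (j + 1 + 1)) - 2 ^ (j + 1 + 1)) = A ^ 2 := by
      rw [hA, ← pow_mul]
      congr 1
      rw [h1, pow_succ 2 (k + (j + 1)), pow_succ 2 (j + 1)]
      omega
    have h3 : q ^ (2 ^ (k + (j + 1) + 1) - 2) = q ^ (2 ^ (j + 1 + 1) - 2) * A ^ 2 := by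
      rw [hA, ← pow_mul, ← pow_add]
      congr 1
      rw [pow_succ 2 (k + (j + 1)), pow_succ 2 (j + 1)]
      have : 1 ≤ 2 ^ (j + 1) := Nat.one_le_two_pow
      omega
    rw [h2, h1, wq_succ, hz, h3, wq_succ (j + 1)]
    ring

/-- no common prime factors with the parameters -/
theorem wq_coprime (hq : q ≠ 0) (hPq : IsCoprime P q) {p : ℤ} (hp : Prime p) :
    ∀ n, 1 ≤ n → p ∣ wq P q n → ¬ p ∣ q ∧ ¬ p ∣ P := by
  intro n hn
  induction n with
  | zero => omega
  | succ n ih =>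
    intro h
    rcases Nat.eq_zero_or_pos n with rfl | hn'
    · rw [wq_one] at h
      exact absurd h hp.not_dvd_one
    · have hnq : ¬ p ∣ q := by
        intro hpq
        have h1 : p ∣ q ^ (2 ^ (n + 1) - 2) := by
          refine Dvd.dvd.trans hpq (dvd_pow_self q ?_)
          have : 2 ^ 1 ≤ 2 ^ n := Nat.pow_le_pow_right two_pos hn'
          rw [pow_succ 2 n]
          omega
        rw [wq_succ] at h
        have h2 : p ∣ P * wq P q n ^ 2 := (dvd_add_left h1).1 h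
        rcases hp.dvd_or_dvd h2 with h3 | h3
        · exact hp.not_unit (hPq.isUnit_of_dvd' h3 hpq)
        · exact (ih hn' (hp.dvd_of_dvd_pow h3)).1 hpq
      refine ⟨hnq, fun hpP => ?_⟩
      rw [wq_succ] at h
      have h2 : p ∣ q ^ (2 ^ (n + 1) - 2) := (dvd_add_right (Dvd.dvd.mul_right hpP _)).1 h
      exact hnq (hp.dvd_of_dvd_pow h2)

/-- the parameters: `P` is coprime to `q`, and all terms have the sign of `P` and absolute value `3` modulo
`4` from the second on -/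
structure Stoll (P q : ℤ) : Prop where
  ne : q ≠ 0
  cop : IsCoprime P q
  sgn : (0 < P ∧ ((q % 2 = 1 ∧ P % 4 = 2) ∨ (q % 2 = 0 ∧ P % 4 = 3))) ∨
    (P < 0 ∧ 2 * q ^ 2 ≤ -P ∧ ((q % 2 = 1 ∧ P % 4 = 0) ∨ (q % 2 = 0 ∧ P % 4 = 1)))

theorem sq_mod_four {x : ℤ} (h : x % 2 = 1) : x ^ 2 % 4 = 1 := by
  rcases Int.even_or_odd x with ⟨y, hy⟩ | ⟨y, hy⟩
  · omega
  · have : x ^ 2 = 4 * (y ^ 2 + y) + 1 := by rw [hy]; ring
    omega

theorem pow_mod_four_odd {x : ℤ} (h : x % 2 = 1) (e : ℕ) : x ^ (2 * e) % 4 = 1 := by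
  rw [pow_mul]
  have h1 : (x ^ 2) ≡ 1 [ZMOD 4] := sq_mod_four h
  have h2 := h1.pow e
  rw [one_pow] at h2
  exact h2

theorem pow_mod_four_even {x : ℤ} (h : x % 2 = 0) {e : ℕ} (he : 2 ≤ e) : x ^ e % 4 = 0 := by
  obtain ⟨y, hy⟩ : (2 : ℤ) ∣ x := Int.dvd_of_emod_eq_zero h
  obtain ⟨f, rfl⟩ : ∃ f, e = 2 + f := ⟨e - 2, by omega⟩
  have : x ^ (2 + f) = 4 * (y ^ 2 * x ^ f) := by rw [pow_add, hy]; ring
  omega

variable (h : Stoll P q)

include h in
theorem wq_odd (n : ℕ) (hn : 1 ≤ n) : wq P q n % 2 = 1 := by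
  induction n with
  | zero => omega
  | succ n ih =>
    rcases Nat.eq_zero_or_pos n with rfl | hn'
    · rw [wq_one]
      norm_num
    · have h1 := ih hn'
      have he : 2 ^ (n + 1) - 2 = 2 * (2 ^ n - 1) := by
        rw [pow_succ 2 n]
        omega
      have h2 : 2 ^ 1 ≤ 2 ^ n := Nat.pow_le_pow_right two_pos hn'
      have hP : (q % 2 = 1 ∧ P % 2 = 0) ∨ (q % 2 = 0 ∧ P % 2 = 1) := by
        rcases h.sgn with ⟨-, h3 | h3⟩ | ⟨-, -, h3 | h3⟩
        · left; omega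
        · right; omega
        · left; omega
        · right; omega
      rw [wq_succ]
      rcases hP with ⟨hq, hP⟩ | ⟨hq, hP⟩
      · have h3 := pow_mod_four_odd hq (2 ^ n - 1)
        rw [← he] at h3
        obtain ⟨y, hy⟩ : (2 : ℤ) ∣ P := Int.dvd_of_emod_eq_zero hP
        have h4 : P * wq P q n ^ 2 = 2 * (y * wq P q n ^ 2) := by rw [hy]; ring
        omega
      · have h3 := pow_mod_four_even hq (e := 2 ^ (n + 1) - 2) (by rw [pow_succ 2 n]; omega)
        have h4 := sq_mod_four h1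
        have h5 : (P * wq P q n ^ 2) % 2 = 1 := by
          rw [Int.mul_emod, hP]
          omega
        omega

include h in
/-- the size of the terms, for `P < 0` -/
theorem wq_size (hP : P < 0) (n : ℕ) (hn : 1 ≤ n) :
    q ^ (2 ^ n - 2) ≤ |wq P q n| ∧ (2 ≤ n → wq P q n < 0) := by
  have hP2 : 2 * q ^ 2 ≤ -P := by
    rcases h.sgn with ⟨h1, -⟩ | ⟨-, h1, -⟩
    · omega
    · exact h1
  have hq2 : 0 < q ^ 2 := by
    have := h.ne
    positivity
  induction n with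
  | zero => omega
  | succ n ih =>
    rcases Nat.eq_zero_or_pos n with rfl | hn'
    · rw [wq_one]
      norm_num
    · obtain ⟨h1, -⟩ := ih hn'
      have h2 : 2 ^ 1 ≤ 2 ^ n := Nat.pow_le_pow_right two_pos hn'
      have e0 : 2 ^ n - 2 = 2 * (2 ^ (n - 1) - 1) := by
        obtain ⟨m, rfl⟩ : ∃ m, n = m + 1 := ⟨n - 1, by omega⟩
        rw [pow_succ 2 m, Nat.add_sub_cancel]
        omega
      have hpos : 0 < q ^ (2 ^ n - 2) := by
        rw [e0, pow_mul]
        positivity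
      have hE : q ^ (2 ^ (n + 1) - 2) = q ^ 2 * (q ^ (2 ^ n - 2)) ^ 2 := by
        rw [← pow_mul, ← pow_add]
        congr 1
        rw [pow_succ 2 n]
        omega
      set B := q ^ (2 ^ n - 2) with hB
      have h3 : B ^ 2 ≤ wq P q n ^ 2 := by
        rw [← sq_abs (wq P q n)]
        exact pow_le_pow_left₀ hpos.le h1 2
      have h4 : wq P q (n + 1) = P * wq P q n ^ 2 + q ^ 2 * B ^ 2 := by rw [wq_succ, hE]
      have hB2 : 0 < B ^ 2 := by positivity
      have h5 : P * wq P q n ^ 2 ≤ P * B ^ 2 := mul_le_mul_of_nonpos_left h3 hP.le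
      have h6 : P * B ^ 2 ≤ -(2 * q ^ 2) * B ^ 2 := by
        apply mul_le_mul_of_nonneg_right _ hB2.le
        linarith
      have h7 : wq P q (n + 1) ≤ -(q ^ 2 * B ^ 2) := by
        rw [h4]
        nlinarith
      have h8 : 0 < q ^ 2 * B ^ 2 := by positivity
      have h9 : wq P q (n + 1) < 0 := by linarith
      refine ⟨?_, fun _ => h9⟩
      rw [abs_of_neg h9, hE]
      linarith

include h in
/-- the absolute values modulo four -/
theorem wq_mod (n : ℕ) (hn : 2 ≤ n) : (wq P q n).natAbs % 4 = 3 ∧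
    ((0 < P ∧ (wq P q n).natAbs = wq P q n) ∨ (P < 0 ∧ ((wq P q n).natAbs : ℤ) = -wq P q n)) := by
  obtain ⟨m, rfl⟩ : ∃ m, n = m + 1 := ⟨n - 1, by omega⟩
  have h1 := wq_odd h m (by omega)
  have h2 := sq_mod_four h1
  have he : 2 ^ (m + 1) - 2 = 2 * (2 ^ m - 1) := by
    rw [pow_succ 2 m]
    omega
  have h3 : 2 ^ 1 ≤ 2 ^ m := Nat.pow_le_pow_right two_pos (by omega)
  have hmod : ∀ r : ℤ, P % 4 = r → (P * wq P q m ^ 2) % 4 = r := by
    intro r hr
    rw [Int.mul_emod, h2, mul_one, Int.emod_emod_of_dvd _ (dvd_refl 4), hr]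
  have hqo : q % 2 = 1 → q ^ (2 ^ (m + 1) - 2) % 4 = 1 := by
    intro hq
    rw [he]
    exact pow_mod_four_odd hq _
  have hqe : q % 2 = 0 → q ^ (2 ^ (m + 1) - 2) % 4 = 0 := by
    intro hq
    exact pow_mod_four_even hq (by rw [pow_succ 2 m]; omega)
  have hw := wq_succ (P := P) (q := q) m
  rcases h.sgn with ⟨hP, hc⟩ | ⟨hP, -, hc⟩
  · have hpos : 0 < wq P q (m + 1) := by
      rw [hw, he, pow_mul]
      have h4 : 0 < (q ^ 2) ^ (2 ^ m - 1) := by
        have := h.ne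
        positivity
      have h5 : 0 ≤ P * wq P q m ^ 2 := by positivity
      linarith
    have h4 : ((wq P q (m + 1)).natAbs : ℤ) = wq P q (m + 1) := Int.natAbs_of_nonneg hpos.le
    refine ⟨?_, Or.inl ⟨hP, h4⟩⟩
    rcases hc with ⟨hq, hP4⟩ | ⟨hq, hP4⟩
    · have h5 := hmod 2 hP4
      have h6 := hqo hq
      omega
    · have h5 := hmod 3 hP4
      have h6 := hqe hq
      omega
  · have hneg := (wq_size h hP (m + 1) (by omega)).2 hn
    have h4 : ((wq P q (m + 1)).natAbs : ℤ) = -wq P q (m + 1) := by omega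
    refine ⟨?_, Or.inr ⟨hP, h4⟩⟩
    rcases hc with ⟨hq, hP4⟩ | ⟨hq, hP4⟩
    · have h5 := hmod 0 hP4
      have h6 := hqo hq
      omega
    · have h5 := hmod 1 hP4
      have h6 := hqe hq
      omega

end Pool.Agent.H852.J
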