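import Mathlib
import Pool.Agent.H852.J.S1

/-!
# The ranks of apparition, and products which would be squares
-/

set_option linter.unusedSectionVars false
set_option autoImplicit false

namespace Pool.Agent.H852.J

open Finset

/-- a squarefree number other than one has an even number of divisors -/
theorem even_card_divisors {g : ℕ} (hg : Squarefree g) (h1 : g ≠ 1) : Even g.divisors.card := by
  obtain ⟨p, hp, hpg⟩ := Nat.exists_prime_and_dvd h1
  obtain ⟨h, rfl⟩ := hpg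
  have hc : Nat.Coprime p h := Nat.coprime_of_squarefree_mul hg
  rw [hc.card_divisors_mul, hp.divisors, card_pair hp.one_lt.ne]
  exact ⟨h.divisors.card, by ring⟩

/-- a number all whose exponents are even is a square -/
theorem isSquare_of_factorization {m : ℕ} (hm : m ≠ 0)
    (h : ∀ p, p.Prime → Even (m.factorization p)) : IsSquare m := by
  obtain ⟨a, b, ha, hb, hab, hsq⟩ := Nat.sq_mul_squarefree_of_pos (Nat.pos_of_ne_zero hm)
  by_cases ha1 : a = 1
  · refine ⟨b, ?_⟩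
    rw [← hab, ha1, mul_one, sq]
  · exfalso
    obtain ⟨p, hp, hpa⟩ := Nat.exists_prime_and_dvd ha1
    have h1 := h p hp
    have h2 : a.factorization p = 1 := by
      refine le_antisymm (hsq.natFactorization_le_one p) ?_
      exact (hp.dvd_iff_one_le_factorization ha.ne').1 hpa
    rw [← hab, Nat.factorization_mul (pow_ne_zero 2 hb.ne') ha.ne', Nat.factorization_pow] at h1
    simp only [Finsupp.coe_add, Finsupp.coe_smul, Pi.add_apply, Pi.smul_apply, smul_eq_mul, h2] at h1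
    rw [Nat.even_iff] at h1
    omega

theorem dvd_quot_iff {n e ρ : ℕ} (hn : n ≠ 0) (he : e ∣ n) (hρ : ρ ∣ n) : ρ ∣ n / e ↔ e ∣ n / ρ := by
  rw [Nat.dvd_div_iff_mul_dvd he, Nat.dvd_div_iff_mul_dvd hρ, mul_comm]

/-- the radical of a number, described by its properties -/
structure IsRad (r n : ℕ) : Prop where
  sqf : Squarefree r
  dvd : r ∣ n
  all : ∀ p, p.Prime → p ∣ n → p ∣ r

theorem exists_isRad (n : ℕ) (hn : n ≠ 0) : ∃ r, IsRad r n := by
  refine ⟨∏ p ∈ n.primeFactors, p, ?_, n.prod_primeFactors_dvd, fun p hp hpn => ?_⟩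
  · rw [Nat.squarefree_iff_factorization_le_one (prod_ne_zero_iff.2 fun p hp =>
      (Nat.prime_of_mem_primeFactors hp).ne_zero)]
    intro p
    rw [Nat.factorization_prod fun p hp => (Nat.prime_of_mem_primeFactors hp).ne_zero,
      Finsupp.finset_sum_apply]
    refine (sum_le_sum (g := fun x => if x = p then 1 else 0) fun x hx => ?_).trans ?_
    · rw [(Nat.prime_of_mem_primeFactors hx).factorization, Finsupp.single_apply]
    · rw [sum_ite_eq']
      split_ifs <;> norm_num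
  · exact dvd_prod_of_mem _ (Nat.mem_primeFactors.2 ⟨hp, hpn, hn⟩)

theorem IsRad.ne {r n : ℕ} (h : IsRad r n) : r ≠ 0 := h.sqf.ne_zero

theorem IsRad.even_card {r n ρ : ℕ} (h : IsRad r n) (hn : n ≠ 0) (hρ : ρ ∣ n) (hρn : ρ ≠ n) :
    Even (r.divisors.filter fun e => ρ ∣ n / e).card := by
  have h1 : (r.divisors.filter fun e => ρ ∣ n / e) = (r.gcd (n / ρ)).divisors := by
    ext e
    rw [mem_filter, Nat.mem_divisors, Nat.mem_divisors, Nat.dvd_gcd_iff]
    constructor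
    · rintro ⟨⟨h2, h3⟩, h4⟩
      exact ⟨⟨h2, (dvd_quot_iff hn (h2.trans h.dvd) hρ).1 h4⟩, Nat.gcd_ne_zero_left h.ne⟩
    · rintro ⟨⟨h2, h3⟩, h4⟩
      exact ⟨⟨h2, h.ne⟩, (dvd_quot_iff hn (h2.trans h.dvd) hρ).2 h3⟩
  rw [h1]
  apply even_card_divisors (h.sqf.squarefree_of_dvd (Nat.gcd_dvd_left _ _))
  intro h2
  have h3 : n / ρ ≠ 1 := by
    intro h3
    obtain ⟨c, rfl⟩ := hρ
    have hρ0 : 0 < ρ := Nat.pos_of_ne_zero fun h => hn (by rw [h, zero_mul])
    rw [Nat.mul_div_cancel_left _ hρ0] at h3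
    exact hρn (by rw [h3, mul_one])
  obtain ⟨p, hp, hpn⟩ := Nat.exists_prime_and_dvd h3
  have h4 : p ∣ n := hpn.trans (Nat.div_dvd_of_dvd hρ)
  have h5 : p ∣ r.gcd (n / ρ) := Nat.dvd_gcd (h.all p hp h4) hpn
  rw [h2] at h5
  exact hp.one_lt.ne' (Nat.dvd_one.1 h5)

variable {P q : ℤ}

/-- one step: exponents up to twice the exponent of the given term -/
theorem wq_step (hq : q ≠ 0) (hPq : IsCoprime P q) {p : ℕ} (hp : p.Prime) {ρ E : ℕ}
    (hρ : (p : ℤ) ^ E ∣ wq P q ρ) (hnq : ¬ (p : ℤ) ∣ q) {i j : ℕ} (hi : i ≤ 2 * E) (hj : 1 ≤ j) :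
    (p : ℤ) ^ i ∣ wq P q (ρ + j) ↔ (p : ℤ) ^ i ∣ wq P q j := by
  obtain ⟨j, rfl⟩ : ∃ k, j = k + 1 := ⟨j - 1, by omega⟩
  obtain ⟨z, hz⟩ := wq_add (P := P) (q := q) ρ j
  rw [hz]
  have h1 : (p : ℤ) ^ i ∣ wq P q ρ ^ 2 * z := by
    refine Dvd.dvd.mul_right (dvd_trans (pow_dvd_pow _ hi) ?_) _
    rw [mul_comm, pow_mul]
    exact pow_dvd_pow_of_dvd hρ 2
  rw [dvd_add_left h1]
  have hcop : IsCoprime ((p : ℤ) ^ i) (q ^ (2 ^ (ρ + (j + 1)) - 2 ^ (j + 1))) := by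
    apply IsCoprime.pow
    exact ((Nat.prime_iff_prime_int.1 hp).coprime_iff_not_dvd).2 hnq
  exact ⟨fun h => hcop.dvd_of_dvd_mul_right h, fun h => Dvd.dvd.mul_right h _⟩

theorem wq_steps (hq : q ≠ 0) (hPq : IsCoprime P q) {p : ℕ} (hp : p.Prime) {ρ E : ℕ}
    (hρ : (p : ℤ) ^ E ∣ wq P q ρ) (hnq : ¬ (p : ℤ) ∣ q) {i j : ℕ} (hi : i ≤ 2 * E) (hj : 1 ≤ j)
    (t : ℕ) : (p : ℤ) ^ i ∣ wq P q (ρ * t + j) ↔ (p : ℤ) ^ i ∣ wq P q j := by
  induction t with
  | zero => rw [mul_zero, zero_add]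
  | succ t ih =>
    have h1 : ρ * (t + 1) + j = ρ + (ρ * t + j) := by ring
    rw [h1, wq_step hq hPq hp hρ hnq hi (by omega), ih]

/-- **The exponents at a prime of rank `ρ`.** -/
theorem wq_rank (hw : ∀ n, 1 ≤ n → wq P q n ≠ 0) (hq : q ≠ 0) (hPq : IsCoprime P q) {p : ℕ}
    (hp : p.Prime) {ρ : ℕ} (hρ1 : 1 ≤ ρ) (hρ : (p : ℤ) ∣ wq P q ρ)
    (hmin : ∀ m, 1 ≤ m → m < ρ → ¬ (p : ℤ) ∣ wq P q m) {j : ℕ} (hj : 1 ≤ j) :
    (wq P q j).natAbs.factorization p =
      if ρ ∣ j then (wq P q ρ).natAbs.factorization p else 0 := by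
  have hnq : ¬ (p : ℤ) ∣ q := (wq_coprime hq hPq (Nat.prime_iff_prime_int.1 hp) ρ hρ1 hρ).1
  have key : ∀ (x : ℤ), x ≠ 0 → ∀ i : ℕ, (p : ℤ) ^ i ∣ x ↔ i ≤ x.natAbs.factorization p := by
    intro x hx i
    rw [← hp.pow_dvd_iff_le_factorization (Int.natAbs_ne_zero.2 hx), ← Int.natCast_dvd_natCast,
      Int.dvd_natAbs]
    push_cast
    exact Iff.rfl
  set E := (wq P q ρ).natAbs.factorization p with hE
  have hE1 : 1 ≤ E := by
    rw [hE, ← key _ (hw ρ hρ1) 1, pow_one]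
    exact hρ
  have hpE : (p : ℤ) ^ E ∣ wq P q ρ := (key _ (hw ρ hρ1) E).2 le_rfl
  by_cases hd : ρ ∣ j
  · rw [if_pos hd]
    obtain ⟨t, rfl⟩ := hd
    have ht : 1 ≤ t := by
      rcases Nat.eq_zero_or_pos t with rfl | h
      · omega
      · exact h
    obtain ⟨t, rfl⟩ : ∃ s, t = s + 1 := ⟨t - 1, by omega⟩
    have h1 : ∀ i, i ≤ 2 * E → ((p : ℤ) ^ i ∣ wq P q (ρ * (t + 1)) ↔ (p : ℤ) ^ i ∣ wq P q ρ) := by
      intro i hi
      have h2 : ρ * (t + 1) = ρ * t + ρ := by ring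
      rw [h2]
      exact wq_steps hq hPq hp hpE hnq hi hρ1 t
    have hw1 := hw (ρ * (t + 1)) hj
    refine le_antisymm ?_ ?_
    · by_contra hlt
      have h3 : (p : ℤ) ^ (E + 1) ∣ wq P q (ρ * (t + 1)) := (key _ hw1 _).2 (by omega)
      rw [h1 (E + 1) (by omega), key _ (hw ρ hρ1)] at h3
      omega
    · exact (key _ hw1 _).1 ((h1 E (by omega)).2 hpE)
  · rw [if_neg hd]
    apply Nat.factorization_eq_zero_of_not_dvd
    rw [← Int.natCast_dvd_natCast, Int.dvd_natAbs]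
    have hmod : j % ρ ≠ 0 := fun h => hd (Nat.dvd_of_mod_eq_zero h)
    have h1 := wq_steps hq hPq hp hpE hnq (i := 1) (j := j % ρ) (by omega) (by omega) (j / ρ)
    rw [Nat.div_add_mod, pow_one] at h1
    rw [h1]
    exact hmin _ (by omega) (Nat.mod_lt _ hρ1)

/-- If all primitive prime factors of a term have even exponents then a product is a square. -/
theorem prod_isSquare (hw : ∀ n, 1 ≤ n → wq P q n ≠ 0) (hq : q ≠ 0) (hPq : IsCoprime P q) {n : ℕ}
    (hn : 1 ≤ n) (hbad : ∀ p : ℕ, p.Prime → (p : ℤ) ∣ wq P q n →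
      (∀ m, 1 ≤ m → m < n → ¬ (p : ℤ) ∣ wq P q m) → Even ((wq P q n).natAbs.factorization p))
    {r : ℕ} (hr : IsRad r n) :
    IsSquare (∏ e ∈ r.divisors, (wq P q (n / e)).natAbs) := by
  have hpos : ∀ e ∈ r.divisors, 1 ≤ n / e := by
    intro e he
    have h1 : e ∣ n := (Nat.mem_divisors.1 he).1.trans hr.dvd
    exact Nat.div_pos (Nat.le_of_dvd (by omega) h1) (Nat.pos_of_mem_divisors he)
  have hne : ∀ e ∈ r.divisors, (wq P q (n / e)).natAbs ≠ 0 := fun e he =>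
    Int.natAbs_ne_zero.2 (hw _ (hpos e he))
  refine isSquare_of_factorization (prod_ne_zero_iff.2 hne) fun p hp => ?_
  rw [Nat.factorization_prod hne, Finsupp.finset_sum_apply]
  by_cases hex : ∃ m, 1 ≤ m ∧ (p : ℤ) ∣ wq P q m ∧ m ∣ n
  · -- the rank
    have hex' : ∃ m, 1 ≤ m ∧ (p : ℤ) ∣ wq P q m := by
      obtain ⟨m, h1, h2, -⟩ := hex
      exact ⟨m, h1, h2⟩
    classical
    obtain ⟨hρ1, hρ⟩ := Nat.find_spec hex'
    set ρ := Nat.find hex' with hρdef
    have hmin : ∀ m, 1 ≤ m → m < ρ → ¬ (p : ℤ) ∣ wq P q m := fun m h1 h2 h3 =>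
      Nat.find_min hex' h2 ⟨h1, h3⟩
    have h1 : ∀ e ∈ r.divisors, (wq P q (n / e)).natAbs.factorization p =
        if ρ ∣ n / e then (wq P q ρ).natAbs.factorization p else 0 := fun e he =>
      wq_rank hw hq hPq hp hρ1 hρ hmin (hpos e he)
    rw [sum_congr rfl h1, ← sum_filter, sum_const, smul_eq_mul]
    have hρn : ρ ∣ n := by
      obtain ⟨m, h3, h4, h5⟩ := hex
      have h6 := wq_rank hw hq hPq hp hρ1 hρ hmin h3
      by_contra h7
      have h8 : ¬ ρ ∣ m := fun h => h7 (h.trans h5)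
      rw [if_neg h8] at h6
      have h9 : 1 ≤ (wq P q m).natAbs.factorization p := by
        rw [← hp.dvd_iff_one_le_factorization (Int.natAbs_ne_zero.2 (hw m h3)),
          ← Int.natCast_dvd_natCast, Int.dvd_natAbs]
        exact h4
      omega
    rcases eq_or_ne ρ n with h2 | h2
    · rw [h2] at hρ hmin ⊢
      exact (hbad p hp hρ hmin).mul_left _
    · exact (hr.even_card (by omega) hρn h2).mul_right _
  · push Not at hex
    rw [sum_eq_zero]
    · exact Even.zero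
    · intro e he
      apply Nat.factorization_eq_zero_of_not_dvd
      rw [← Int.natCast_dvd_natCast, Int.dvd_natAbs]
      intro h
      exact hex _ (hpos e he) h (Nat.div_dvd_of_dvd ((Nat.mem_divisors.1 he).1.trans hr.dvd))

end Pool.Agent.H852.J
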