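import Mathlib
import Pool.Agent.H852.J.S2

/-!
# Jacobi symbols along the critical orbit, and the combinatorial part of Stoll's argument
-/

set_option linter.unusedSectionVars false
set_option autoImplicit false

namespace Pool.Agent.H852.J

open Finset NumberTheorySymbols jacobiSym

/-- the number of the multiples, modulo two -/
theorem odd_sum_div {r : ℕ} (hr : Squarefree r) {M u : ℕ} (h1 : 1 ≤ M) (hM : M < u)
    (hu : ∀ i, 2 ≤ i → i < u → ¬ Nat.Coprime i r) : Odd (∑ f ∈ r.divisors, M / f) := by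
  have h2 : ∑ f ∈ r.divisors, M / f = ∑ i ∈ range M, (r.gcd (i + 1)).divisors.card := by
    have h3 : ∀ f ∈ r.divisors, M / f = ∑ i ∈ range M, if f ∣ i + 1 then 1 else 0 := by
      intro f _
      rw [← Nat.card_multiples, card_filter]
    rw [sum_congr rfl h3, sum_comm]
    refine sum_congr rfl fun i _ => ?_
    rw [← card_filter]
    congr 1
    ext f
    rw [mem_filter, Nat.mem_divisors, Nat.mem_divisors, Nat.dvd_gcd_iff]
    constructor
    · rintro ⟨⟨h4, h5⟩, h6⟩
      exact ⟨⟨h4, h6⟩, Nat.gcd_ne_zero_left h5⟩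
    · rintro ⟨⟨h4, h5⟩, h6⟩
      exact ⟨⟨h4, hr.ne_zero⟩, h5⟩
  obtain ⟨m, rfl⟩ : ∃ m, M = m + 1 := ⟨M - 1, by omega⟩
  rw [h2, sum_range_succ']
  have h3 : (r.gcd (0 + 1)).divisors.card = 1 := by
    rw [zero_add, Nat.gcd_one_right, Nat.divisors_one, card_singleton]
  rw [h3]
  apply Even.add_one
  refine even_sum _ fun i hi => ?_
  refine even_card_divisors (hr.squarefree_of_dvd (Nat.gcd_dvd_left _ _)) fun h => ?_
  refine hu (i + 1 + 1) (by omega) (by have := mem_range.1 hi; omega) ?_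
  rw [Nat.coprime_comm]
  exact h

/-- one divisor -/
theorem div_parity {x d : ℕ} (hx : 1 ≤ x) (hd : 2 ≤ d) (hc : Nat.Coprime x d) :
    (2 * x - 1) / d % 2 = if d < 2 * (x % d) then 1 else 0 := by
  have h1 := Nat.div_add_mod x d
  have h2 := Nat.mod_lt x (show 0 < d by omega)
  have h3 : 1 ≤ x % d := by
    by_contra h
    have h4 : d ∣ x := Nat.dvd_of_mod_eq_zero (by omega)
    have h5 := Nat.Coprime.eq_one_of_dvd hc.symm h4
    omega
  set y := x % d
  set z := x / d
  have h4 : 2 * x - 1 = (2 * y - 1) + d * (2 * z) := by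
    have : d * (2 * z) = 2 * (d * z) := by ring
    omega
  rw [h4, Nat.add_mul_div_left _ _ (by omega)]
  split_ifs with h5
  · have h6 : (2 * y - 1) / d = 1 := by
      apply Nat.div_eq_of_lt_le <;> omega
    omega
  · have h6 : (2 * y - 1) / d = 0 := Nat.div_eq_of_lt (by omega)
    omega

/-- the exponent of the inverse -/
theorem exists_inv {r n : ℕ} (hr : IsRad r n) (hn : 1 ≤ n) (hrn : r ≠ n) :
    ∃ x, 0 < x ∧ x < n ∧ Nat.Coprime x n ∧
      Odd (r.divisors.filter fun e => n / e < 2 * (x % (n / e))).card := by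
  obtain ⟨s, hs⟩ := hr.dvd
  have hr0 : 0 < r := Nat.pos_of_ne_zero hr.ne
  have hs2 : 2 ≤ s := by
    rcases Nat.lt_or_ge s 2 with h | h
    · interval_cases s
      · omega
      · exact absurd (by rw [hs, mul_one]) hrn
    · exact h
  have hr2 : 2 ≤ r := by
    rcases Nat.lt_or_ge r 2 with h | h
    · have h1 : r = 1 := by omega
      obtain ⟨p, hp, hps⟩ := Nat.exists_prime_and_dvd (show s ≠ 1 by omega)
      have h3 := hr.all p hp (by rw [hs]; exact Dvd.dvd.mul_left hps _)
      rw [h1] at h3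
      exact absurd (Nat.dvd_one.1 h3) hp.one_lt.ne'
    · exact h
  have hex : ∃ u, 2 ≤ u ∧ Nat.Coprime u r := ⟨r + 1, by omega, by simp⟩
  classical
  obtain ⟨hu2, huc⟩ := Nat.find_spec hex
  have humin : ∀ i, 2 ≤ i → i < Nat.find hex → ¬ Nat.Coprime i r := fun i h1 h2 h3 =>
    Nat.find_min hex h2 ⟨h1, h3⟩
  have hule : Nat.find hex ≤ r + 1 := Nat.find_min' hex ⟨by omega, by simp⟩
  set u := Nat.find hex with hu
  have hex2 : ∃ t, s < 2 * u ^ t := by
    refine ⟨s, ?_⟩
    have h1 : s < u ^ s := Nat.lt_pow_self (by omega)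
    omega
  have ht := Nat.find_spec hex2
  have htmin : ∀ t, t < Nat.find hex2 → ¬ s < 2 * u ^ t := fun t h1 => Nat.find_min hex2 h1
  set t := Nat.find hex2 with htdef
  have ht1 : 1 ≤ t := by
    by_contra h
    have h1 : t = 0 := by omega
    rw [h1, pow_zero] at ht
    omega
  have hle : 2 * u ^ t ≤ u * s := by
    have h1 := htmin (t - 1) (by omega)
    have h2 : u ^ t = u * u ^ (t - 1) := by
      rw [← pow_succ']
      congr 1
      omega
    rw [h2]
    nlinarith
  have hxn : u ^ t < n := by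
    have h1 : u * s ≤ (r + 1) * s := Nat.mul_le_mul_right _ hule
    have h2 : (r + 1) * s = n + s := by rw [hs]; ring
    have h3 : 2 * s ≤ n := by rw [hs]; exact Nat.mul_le_mul_right _ hr2
    omega
  have hcr : Nat.Coprime (u ^ t) r := Nat.Coprime.pow_left t huc
  have hcn : Nat.Coprime (u ^ t) n := by
    rw [Nat.coprime_iff_gcd_eq_one]
    by_contra h
    obtain ⟨p, hp, hpg⟩ := Nat.exists_prime_and_dvd h
    have h1 : p ∣ u ^ t := hpg.trans (Nat.gcd_dvd_left _ _)
    have h2 : p ∣ r := hr.all p hp (hpg.trans (Nat.gcd_dvd_right _ _))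
    have h3 := Nat.dvd_gcd h1 h2
    rw [Nat.coprime_iff_gcd_eq_one.1 hcr] at h3
    exact hp.one_lt.ne' (Nat.dvd_one.1 h3)
  have hxpos : 0 < u ^ t := by positivity
  refine ⟨u ^ t, hxpos, hxn, hcn, ?_⟩
  set x := u ^ t with hx
  -- the quotients
  have hquot : ∀ e ∈ r.divisors, n / e = s * (r / e) := by
    intro e he
    have h1 : e ∣ r := (Nat.mem_divisors.1 he).1
    rw [hs, mul_comm r s, Nat.mul_div_assoc _ h1]
  have hq2 : ∀ e ∈ r.divisors, 2 ≤ n / e := by
    intro e he
    have h1 : e ∣ r := (Nat.mem_divisors.1 he).1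
    have h2 : 0 < r / e := Nat.div_pos (Nat.le_of_dvd hr0 h1) (Nat.pos_of_mem_divisors he)
    rw [hquot e he]
    nlinarith
  have hM1 : 1 ≤ (2 * x - 1) / s := (Nat.one_le_div_iff (by omega)).2 (by omega)
  have hM2 : (2 * x - 1) / s < u := by
    rw [Nat.div_lt_iff_lt_mul (by omega)]
    omega
  have hodd := odd_sum_div hr.sqf hM1 hM2 humin
  have hsum : ∑ f ∈ r.divisors, (2 * x - 1) / s / f = ∑ e ∈ r.divisors, (2 * x - 1) / (n / e) := by
    rw [← Nat.sum_div_divisors r fun f => (2 * x - 1) / s / f]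
    refine sum_congr rfl fun e he => ?_
    rw [Nat.div_div_eq_div_mul, hquot e he]
  rw [hsum] at hodd
  rw [card_filter]
  rw [Nat.odd_iff] at hodd ⊢
  have hmod : (∑ e ∈ r.divisors, if n / e < 2 * (x % (n / e)) then 1 else 0) % 2 =
      (∑ e ∈ r.divisors, (2 * x - 1) / (n / e)) % 2 := by
    rw [sum_nat_mod]
    conv_rhs => rw [sum_nat_mod]
    congr 1
    refine sum_congr rfl fun e he => ?_
    have hdn : n / e ∣ n := Nat.div_dvd_of_dvd ((Nat.mem_divisors.1 he).1.trans hr.dvd)
    rw [div_parity hxpos (hq2 e he) (hcn.coprime_dvd_right hdn)]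
    split_ifs <;> rfl
  rw [hmod, hodd]

variable {P q : ℤ}

/-- the Jacobi symbols of two terms -/
def jj (P q : ℤ) (k d : ℕ) : ℤ := jacobiSym (wq P q k) (wq P q d).natAbs

theorem wq_ne (h : Stoll P q) (n : ℕ) (hn : 1 ≤ n) : wq P q n ≠ 0 := by
  intro h0
  have h1 := wq_odd h n hn
  rw [h0] at h1
  norm_num at h1

theorem jj_add (h : Stoll P q) {j d : ℕ} (hj : 1 ≤ j) (hd : 1 ≤ d) : jj P q (d + j) d = jj P q j d := by
  obtain ⟨j, rfl⟩ : ∃ k, j = k + 1 := ⟨j - 1, by omega⟩
  obtain ⟨z, hz⟩ := wq_add (P := P) (q := q) d j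
  have hgcd : q.gcd (wq P q d).natAbs = 1 := by
    rw [Int.gcd_eq_natAbs, Int.natAbs_natCast, ← Nat.coprime_iff_gcd_eq_one]
    by_contra h1
    rw [Nat.Prime.not_coprime_iff_dvd] at h1
    obtain ⟨p, hp, h2, h3⟩ := h1
    have h4 : (p : ℤ) ∣ q := Int.natCast_dvd.2 h2
    have h5 : (p : ℤ) ∣ wq P q d := Int.natCast_dvd.2 h3
    exact (wq_coprime h.ne h.cop (Nat.prime_iff_prime_int.1 hp) d hd h5).1 h4
  unfold jj
  have h1 : wq P q (d + (j + 1)) % ((wq P q d).natAbs : ℤ) =
      (wq P q (j + 1) * q ^ (2 ^ (d + (j + 1)) - 2 ^ (j + 1))) % ((wq P q d).natAbs : ℤ) := by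
    rw [hz]
    apply Int.emod_emod_of_dvd _ (dvd_refl _) |>.symm.trans
    rw [Int.emod_emod_of_dvd _ (dvd_refl _), Int.add_emod]
    have h2 : ((wq P q d).natAbs : ℤ) ∣ wq P q d ^ 2 * z := by
      refine Dvd.dvd.mul_right ?_ _
      rw [sq]
      exact Dvd.dvd.mul_right (Int.natAbs_dvd.2 dvd_rfl) _
    rw [Int.emod_eq_zero_of_dvd h2, add_zero, Int.emod_emod_of_dvd _ (dvd_refl _)]
  rw [jacobiSym.mod_left' h1, jacobiSym.mul_left]
  obtain ⟨e, he⟩ : ∃ e, 2 ^ (d + (j + 1)) - 2 ^ (j + 1) = e * 2 := by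
    refine ⟨2 ^ (d + j) - 2 ^ j, ?_⟩
    have h3 : d + (j + 1) = (d + j) + 1 := by ring
    rw [h3, pow_succ 2 (d + j), pow_succ 2 j, Nat.sub_mul]
  rw [he, pow_mul, jacobiSym.pow_left, ← jacobiSym.pow_left, jacobiSym.pow_left, jacobiSym.pow_left,
    ← pow_mul, mul_comm e 2, pow_mul, jacobiSym.sq_one hgcd, one_pow, mul_one]

theorem jj_mod (h : Stoll P q) {k d : ℕ} (hd : 1 ≤ d) (hkd : k % d ≠ 0) :
    jj P q k d = jj P q (k % d) d := by
  have h1 : ∀ t : ℕ, jj P q (d * t + k % d) d = jj P q (k % d) d := by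
    intro t
    induction t with
    | zero => rw [mul_zero, zero_add]
    | succ t ih =>
      have h2 : d * (t + 1) + k % d = d + (d * t + k % d) := by ring
      rw [h2, jj_add h (by omega) hd, ih]
  conv_lhs => rw [← Nat.div_add_mod k d]
  exact h1 _

theorem jj_rec (h : Stoll P q) {k m : ℕ} (hk : 2 ≤ k) (hm : 2 ≤ m) : jj P q k m = - jj P q m k := by
  obtain ⟨hk4, hks⟩ := wq_mod h k hk
  obtain ⟨hm4, hms⟩ := wq_mod h m hm
  have h1 := jacobiSym.quadratic_reciprocity_three_mod_four hk4 hm4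
  have hodd : ∀ n : ℕ, n % 4 = 3 → Odd n := fun n hn => Nat.odd_iff.2 (by omega)
  unfold jj
  rcases hks with ⟨hP, hk'⟩ | ⟨hP, hk'⟩
  · rcases hms with ⟨-, hm'⟩ | ⟨hP', -⟩
    · rw [hk', hm'] at h1
      exact h1
    · omega
  · rcases hms with ⟨hP', -⟩ | ⟨-, hm'⟩
    · omega
    · have h2 : wq P q k = -((wq P q k).natAbs : ℤ) := by rw [hk', neg_neg]
      have h3 : wq P q m = -((wq P q m).natAbs : ℤ) := by rw [hm', neg_neg]
      have h4 : jacobiSym (wq P q k) (wq P q m).natAbs =
          - jacobiSym ((wq P q k).natAbs : ℤ) (wq P q m).natAbs := by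
        conv_lhs => rw [h2]
        rw [jacobiSym.neg _ (hodd _ hm4), ZMod.χ₄_nat_three_mod_four hm4]
        ring
      have h5 : jacobiSym (wq P q m) (wq P q k).natAbs =
          - jacobiSym ((wq P q m).natAbs : ℤ) (wq P q k).natAbs := by
        conv_lhs => rw [h3]
        rw [jacobiSym.neg _ (hodd _ hk4), ZMod.χ₄_nat_three_mod_four hk4]
        ring
      rw [h4, h5, h1, neg_neg]

/-- the symbols are determined by the inverses -/
theorem jj_inv (h : Stoll P q) : ∀ d : ℕ, 2 ≤ d → ∀ k x : ℕ, 0 < x → x < d → k * x % d = 1 →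
    (jj P q k d = 1 ∧ 2 * x ≤ d) ∨ (jj P q k d = -1 ∧ d < 2 * x) := by
  intro d
  induction d using Nat.strong_induction_on with
  | _ d ih =>
    intro hd k x hx hxd hkx
    have hk0 : k % d ≠ 0 := by
      intro h0
      rw [Nat.mul_mod, h0, zero_mul, Nat.zero_mod] at hkx
      omega
    rw [jj_mod h (by omega) hk0]
    have hkx' : k % d * x % d = 1 := by rw [Nat.mod_mul_mod]; exact hkx
    have hkd : k % d < d := Nat.mod_lt _ (by omega)
    set c := k % d with hc
    rcases Nat.lt_or_ge c 2 with hc2 | hc2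
    · have hc1 : c = 1 := by omega
      rw [hc1, one_mul, Nat.mod_eq_of_lt hxd] at hkx'
      left
      refine ⟨?_, by omega⟩
      rw [hc1]
      unfold jj
      rw [wq_one, jacobiSym.one_left]
    · have h1 := Nat.div_add_mod (c * x) d
      rw [hkx'] at h1
      set z := c * x / d with hz
      have hz0 : 0 < z := by
        rcases Nat.eq_zero_or_pos z with h2 | h2
        · rw [h2] at h1
          have h3 : 2 * 1 ≤ c * x := Nat.mul_le_mul hc2 hx
          omega
        · exact h2
      have hzc : z < c := by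
        have h2 : c * x < c * d := Nat.mul_lt_mul_of_pos_left hxd (by omega)
        have h3 : d * z < d * c := by
          rw [mul_comm d c]
          omega
        exact lt_of_mul_lt_mul_left h3 (Nat.zero_le _)
      obtain ⟨y, hy⟩ : ∃ y, c = y + z := ⟨c - z, by omega⟩
      have hy0 : 0 < y := by omega
      have h4 : d * y % c = 1 := by
        have h5 : d * y + c * x = 1 + c * d := by
          have h6 : c * d = y * d + z * d := by rw [hy]; ring
          have h7 : d * z = z * d := mul_comm _ _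
          have h8 : d * y = y * d := mul_comm _ _
          omega
        obtain ⟨x', hx'⟩ : ∃ x', d = x + x' := ⟨d - x, by omega⟩
        have h9 : d * y = 1 + c * x' := by
          have h10 : c * d = c * x + c * x' := by rw [hx']; ring
          omega
        rw [h9, Nat.add_mul_mod_self_left, Nat.mod_eq_of_lt (by omega)]
      rcases ih c hkd hc2 d y hy0 (by omega) h4 with ⟨h5, h6⟩ | ⟨h5, h6⟩
      · right
        refine ⟨by rw [jj_rec h hc2 hd, h5], ?_⟩
        have h7 : c ≤ 2 * z := by omega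
        have h8 : d * c ≤ d * (2 * z) := Nat.mul_le_mul_left _ h7
        have h9 : c * d < c * (2 * x) := by
          have h10 : c * (2 * x) = 2 * (c * x) := by ring
          have h11 : d * (2 * z) = 2 * (d * z) := by ring
          have h12 : d * c = c * d := mul_comm _ _
          omega
        exact lt_of_mul_lt_mul_left h9 (Nat.zero_le _)
      · left
        refine ⟨by rw [jj_rec h hc2 hd, h5, neg_neg], ?_⟩
        have h7 : 2 * z + 1 ≤ c := by omega
        have h8 : d * (2 * z + 1) ≤ d * c := Nat.mul_le_mul_left _ h7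
        have h9 : c * (2 * x) ≤ c * d := by
          have h10 : c * (2 * x) = 2 * (c * x) := by ring
          have h11 : d * (2 * z + 1) = 2 * (d * z) + d := by ring
          have h12 : d * c = c * d := mul_comm _ _
          omega
        exact le_of_mul_le_mul_left h9 (by omega)

theorem jacobi_prod {ι : Type*} (a : ℤ) (s : Finset ι) (f : ι → ℕ) (hf : ∀ i ∈ s, f i ≠ 0) :
    jacobiSym a (∏ i ∈ s, f i) = ∏ i ∈ s, jacobiSym a (f i) := by
  classical
  induction s using Finset.induction_on with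
  | empty => simp
  | insert i s hi ih =>
    rw [prod_insert hi, prod_insert hi, jacobiSym.mul_right' _ (hf i (mem_insert_self _ _))
      (prod_ne_zero_iff.2 fun j hj => hf j (mem_insert_of_mem hj)),
      ih fun j hj => hf j (mem_insert_of_mem hj)]

/-- **The products are not squares.** -/
theorem not_isSquare_prod (h : Stoll P q) {r n : ℕ} (hr : IsRad r n) (hn : 2 ≤ n) :
    ¬ IsSquare (∏ e ∈ r.divisors, (wq P q (n / e)).natAbs) := by
  intro hsq
  have hr0 : 0 < r := Nat.pos_of_ne_zero hr.ne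
  by_cases hrn : r = n
  · -- squarefree `n`: modulo four
    have hev : Even n.divisors.card := even_card_divisors (hrn ▸ hr.sqf) (by omega)
    rw [hrn] at hsq
    have hmem : n ∈ n.divisors := Nat.mem_divisors.2 ⟨dvd_rfl, by omega⟩
    rw [← mul_prod_erase _ _ hmem, Nat.div_self (by omega), wq_one, Int.natAbs_one, one_mul] at hsq
    obtain ⟨b, hb⟩ := hsq
    have h1 := congrArg (Nat.cast : ℕ → ZMod 4) hb
    rw [Nat.cast_prod] at h1
    have h2 : ∀ e ∈ n.divisors.erase n, (((wq P q (n / e)).natAbs : ℕ) : ZMod 4) = -1 := by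
      intro e he
      obtain ⟨h3, h4⟩ := mem_erase.1 he
      have h5 : e ∣ n := (Nat.mem_divisors.1 h4).1
      have h6 : 2 ≤ n / e := by
        obtain ⟨c, hc⟩ := h5
        have h7 : 0 < e := Nat.pos_of_mem_divisors h4
        rw [hc, Nat.mul_div_cancel_left _ h7]
        rcases Nat.lt_or_ge c 2 with h8 | h8
        · interval_cases c
          · omega
          · omega
        · exact h8
      obtain ⟨h7, -⟩ := wq_mod h (n / e) h6
      have h8 : (((wq P q (n / e)).natAbs : ℕ) : ZMod 4) = ((3 : ℕ) : ZMod 4) := by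
        rw [ZMod.natCast_eq_natCast_iff']
        omega
      rw [h8]
      decide
    rw [prod_congr rfl h2, prod_const, card_erase_of_mem hmem] at h1
    have h3 : Odd (n.divisors.card - 1) := by
      obtain ⟨m, hm⟩ := hev
      have h4 : 0 < n.divisors.card := card_pos.2 ⟨n, hmem⟩
      exact ⟨m - 1, by omega⟩
    rw [h3.neg_one_pow, Nat.cast_mul] at h1
    revert h1
    generalize (b : ZMod 4) = c
    revert c
    decide
  · obtain ⟨x, hx0, hxn, hxc, hodd⟩ := exists_inv hr (by omega) hrn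
    obtain ⟨k, -, hk⟩ := Nat.exists_mul_mod_eq_one_of_coprime hxc (by omega)
    obtain ⟨b, hb⟩ := hsq
    have hq2 : ∀ e ∈ r.divisors, 2 ≤ n / e := by
      intro e he
      obtain ⟨s, hs⟩ := hr.dvd
      have h1 : e ∣ r := (Nat.mem_divisors.1 he).1
      have h2 : 0 < r / e := Nat.div_pos (Nat.le_of_dvd hr0 h1) (Nat.pos_of_mem_divisors he)
      have h3 : n / e = s * (r / e) := by rw [hs, mul_comm r s, Nat.mul_div_assoc _ h1]
      have h4 : 2 ≤ s := by
        rcases Nat.lt_or_ge s 2 with h | h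
        · interval_cases s
          · omega
          · exact absurd (by rw [hs, mul_one]) hrn
        · exact h
      rw [h3]
      nlinarith
    have hne : ∀ e ∈ r.divisors, (wq P q (n / e)).natAbs ≠ 0 := fun e he =>
      Int.natAbs_ne_zero.2 (wq_ne h _ (by have := hq2 e he; omega))
    have h1 := jacobi_prod (wq P q k) r.divisors (fun e => (wq P q (n / e)).natAbs) hne
    have h2 : ∀ e ∈ r.divisors, jacobiSym (wq P q k) (wq P q (n / e)).natAbs =
        if n / e < 2 * (x % (n / e)) then -1 else 1 := by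
      intro e he
      have hdn : n / e ∣ n := Nat.div_dvd_of_dvd ((Nat.mem_divisors.1 he).1.trans hr.dvd)
      have h3 := hq2 e he
      have h4 : k * (x % (n / e)) % (n / e) = 1 := by
        rw [Nat.mul_mod_mod, mul_comm, ← Nat.mod_mod_of_dvd _ hdn, hk, Nat.mod_eq_of_lt (by omega)]
      have h5 : 0 < x % (n / e) := by
        rcases Nat.eq_zero_or_pos (x % (n / e)) with h6 | h6
        · rw [h6, mul_zero, Nat.zero_mod] at h4
          omega
        · exact h6
      rcases jj_inv h (n / e) h3 k (x % (n / e)) h5 (Nat.mod_lt _ (by omega)) h4 with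
        ⟨h6, h7⟩ | ⟨h6, h7⟩
      · rw [if_neg (by omega)]
        exact h6
      · rw [if_pos h7]
        exact h6
    rw [prod_congr rfl h2, prod_ite, prod_const, prod_const_one, mul_one, hodd.neg_one_pow, hb] at h1
    rcases eq_or_ne b 0 with h3 | h3
    · rw [h3, mul_zero, jacobiSym.zero_right] at h1
      norm_num at h1
    · rw [jacobiSym.mul_right' _ h3 h3] at h1
      nlinarith [mul_self_nonneg (jacobiSym (wq P q k) b)]

/-- **Stoll's theorem**: a primitive prime factor with odd exponent. -/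
theorem exists_primitive (h : Stoll P q) {n : ℕ} (hn : 2 ≤ n) : ∃ p : ℕ, p.Prime ∧
    (p : ℤ) ∣ wq P q n ∧ (∀ m, 1 ≤ m → m < n → ¬ (p : ℤ) ∣ wq P q m) ∧
    Odd ((wq P q n).natAbs.factorization p) := by
  by_contra hcon
  push Not at hcon
  obtain ⟨r, hr⟩ := exists_isRad n (by omega)
  refine not_isSquare_prod h hr hn (prod_isSquare (wq_ne h) h.ne h.cop (by omega) ?_ hr)
  intro p hp h1 h2
  rw [← Nat.not_odd_iff_even]
  exact hcon p hp h1 h2

end Pool.Agent.H852.J
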