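import Mathlib
import Pool.Agent.H852.J.S3
import Pool.Agent.H852.J.A5
import Pool.Agent.H852.J.H5

/-!
# The places for the towers of `x ^ 2 + P / q ^ 2`, and finiteness of the ramified places
-/

set_option linter.unusedSectionVars false
set_option autoImplicit false

namespace Pool.Agent.H852.J

open Matrix Polynomial Filter Topology Module NumberField IsDedekindDomain WithZero
open HeightOneSpectrum
open Pool.Agent.Results.MP_640417_ag.HyperellipticEveryPrime

/-- a lattice is unramified, modulo four, outside of a finite set of places -/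
theorem unramified_finite {K : Type} [Field K] [NumberField K] {d : ℕ}
    (τ : AbsoluteGaloisGroup K →* Matrix (Fin d) (Fin d) ℚ_[2]) (hτ : IsLattice τ) :
    {v : HeightOneSpectrum (𝓞 K) | ¬ Unramified τ v}.Finite := by
  obtain ⟨E, hE1, hE2⟩ := (krullTopology_mem_nhds_one_iff K (AlgebraicClosure K) _).1
    (trivial_nhds τ hτ)
  set N := IntermediateField.normalClosure K E (AlgebraicClosure K) with hN
  have hfd : FiniteDimensional K N := normalClosure.is_finiteDimensional _ _ _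
  have hnorm : Normal K N := normalClosure.normal _ _ _
  have hnf : NumberField N := NumberField.of_module_finite K N
  have hgal : IsGalois K N := ⟨⟩
  have hle : E ≤ N := IntermediateField.le_normalClosure _
  obtain ⟨n, hn, hn'⟩ := exists_disc K N
  have hI : Ideal.span {((n : ℕ) : 𝓞 K)} ≠ 0 := by
    rw [Ne, Ideal.zero_eq_bot, Ideal.span_singleton_eq_bot]
    exact_mod_cast hn.ne'
  refine (Ideal.finite_factors hI).subset fun v hv => ?_
  rw [Set.mem_setOf_eq, Ideal.dvd_iff_le, Ideal.span_singleton_le_iff_mem]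
  by_contra hnv
  apply hv
  obtain ⟨P, hP⟩ := exists_place_above (M := N) v
  have h1 : (n : 𝓞 N) ∉ P.asIdeal := by
    intro h
    apply hnv
    rw [hP.over, Ideal.mem_comap, map_natCast]
    exact h
  refine ⟨N, hnf, hnorm, ?_, fun s hs => hE2 fun x => hs ⟨x, hle x.2⟩⟩
  rw [← Ideal.card_inertia_eq_ramificationIdxIn (G := N ≃ₐ[K] N) v.asIdeal P.asIdeal,
    Nat.card_eq_one_iff_unique]
  refine ⟨⟨fun s s' => Subtype.ext ?_⟩, ⟨1⟩⟩
  rw [hn' P h1 s fun x => s.2 x, hn' P h1 s' fun x => s'.2 x]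

variable {P q : ℤ}

theorem crit_stoll (hq : q ≠ 0) (n : ℕ) :
    crit (0 : ℚ) ((P : ℚ) / (q : ℚ) ^ 2) n * (q : ℚ) ^ 2 ^ (n + 1) = P * wq P q (n + 1) := by
  have hq' : (q : ℚ) ≠ 0 := by exact_mod_cast hq
  induction n with
  | zero =>
    rw [crit_zero, zero_add, wq_one, pow_one]
    field_simp
    push_cast
    ring
  | succ n ih =>
    rw [crit_succ, wq_succ (n + 1)]
    have h1 : (q : ℚ) ^ 2 ^ (n + 1 + 1) = (q ^ 2 ^ (n + 1)) ^ 2 := by
      rw [← pow_mul]
      congr 1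
    have h2 : (q : ℚ) ^ 2 ^ (n + 1 + 1) = q ^ 2 * q ^ (2 ^ (n + 1 + 1) - 2) := by
      rw [← pow_add]
      congr 1
      have : 2 ^ 1 ≤ 2 ^ (n + 1 + 1) := Nat.pow_le_pow_right two_pos (by omega)
      omega
    rw [sub_zero, add_mul]
    conv_lhs => rw [h1, ← mul_pow, ih, ← h1, h2]
    push_cast
    field_simp

/-- **The places.** -/
theorem critPlace_stoll (h : Stoll P q) (n : ℕ) (hn : 1 ≤ n) :
    ∃ v : HeightOneSpectrum (𝓞 ℚ), CritPlace (0 : ℚ) ((P : ℚ) / (q : ℚ) ^ 2) n v := by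
  obtain ⟨p, hp, hpw, hprim, hodd⟩ := exists_primitive h (n := n + 1) (by omega)
  have hpr : Prime (p : ℤ) := Nat.prime_iff_prime_int.1 hp
  obtain ⟨hpq, hpP⟩ := wq_coprime h.ne h.cop hpr (n + 1) (by omega) hpw
  have hw0 : wq P q (n + 1) ≠ 0 := wq_ne h _ (by omega)
  have hp2 : ¬ (p : ℤ) ∣ 2 := by
    intro h1
    have h2 : (p : ℤ) ∣ 1 := by
      have h3 := wq_odd h (n + 1) (by omega)
      have h4 := Int.emod_add_mul_ediv (wq P q (n + 1)) 2
      rw [h3] at h4
      rw [← dvd_add_left (Dvd.dvd.mul_right h1 (wq P q (n + 1) / 2)), h4]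
      exact hpw
    exact hpr.not_unit (isUnit_of_dvd_one h2)
  obtain ⟨v, hv1, hv2, hv3⟩ := exists_rat_place p hp
  have hq1 : ∀ k : ℕ, v.valuation ℚ ((q : ℚ) ^ k) = 1 := by
    intro k
    rw [map_pow, hv2 q hpq, one_pow]
  have hcr : ∀ j, v.valuation ℚ (crit (0 : ℚ) ((P : ℚ) / (q : ℚ) ^ 2) j) =
      v.valuation ℚ (wq P q (j + 1) : ℚ) := by
    intro j
    have h5 := congrArg (v.valuation ℚ) (crit_stoll (P := P) h.ne j)
    rwa [map_mul, hq1, mul_one, map_mul, hv2 P hpP, one_mul] at h5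
  refine ⟨v, ⟨?_, ?_, ?_, fun j hj => ?_, ?_⟩⟩
  · exact_mod_cast hv3 2 hp2
  · rw [map_zero]
    exact zero_le
  · rw [map_div₀, hq1, hv2 P hpP, div_one]
  · rw [hcr, hv2 _ (hprim (j + 1) (by omega) (by omega))]
  · rw [hcr]
    obtain ⟨b, hb, hb'⟩ : ∃ b : ℤ, wq P q (n + 1) =
        (p : ℤ) ^ (wq P q (n + 1)).natAbs.factorization p * b ∧ ¬ (p : ℤ) ∣ b := by
      set E := (wq P q (n + 1)).natAbs.factorization p with hE
      have h1 : (p : ℤ) ^ E ∣ wq P q (n + 1) := by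
        rw [← Int.dvd_natAbs]
        exact_mod_cast Nat.ordProj_dvd (wq P q (n + 1)).natAbs p
      obtain ⟨b, hb⟩ := h1
      refine ⟨b, hb, fun ⟨c, hc⟩ => ?_⟩
      have h2 : p ^ (E + 1) ∣ (wq P q (n + 1)).natAbs := by
        rw [← Int.natCast_dvd_natCast, Int.dvd_natAbs, hb, hc]
        exact ⟨c, by push_cast; ring⟩
      rw [hp.pow_dvd_iff_le_factorization (Int.natAbs_ne_zero.2 hw0)] at h2
      omega
    set E := (wq P q (n + 1)).natAbs.factorization p with hE
    have h6 : ((wq P q (n + 1) : ℤ) : ℚ) = (p : ℚ) ^ E * (b : ℚ) := by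
      rw [hb]
      push_cast
      ring
    rw [h6, map_mul, map_pow, hv1, hv2 b hb', mul_one, log_pow, log_exp]
    obtain ⟨k, hk⟩ := hodd
    exact ⟨-(k : ℤ) - 1, by rw [hk]; simp; ring⟩

theorem stoll_neg (h : Stoll P q) (hsq : ¬ IsSquare (-P)) :
    ¬ IsSquare (-((P : ℚ) / (q : ℚ) ^ 2)) := by
  have hq' : (q : ℚ) ≠ 0 := by exact_mod_cast h.ne
  rintro ⟨x, hx⟩
  apply hsq
  rw [← Rat.isSquare_intCast_iff]
  refine ⟨x * q, ?_⟩
  push_cast
  have h1 : (P : ℚ) = P / q ^ 2 * q ^ 2 := by field_simp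
  rw [h1]
  linear_combination (q : ℚ) ^ 2 * hx

end Pool.Agent.H852.J
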