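import Mathlib
import Pool.Agent.H852.J.C6
import Pool.Agent.H852.J.S4

/-!
# All prime numbers for compositions, from local conditions at prime numbers
-/

set_option linter.unusedSectionVars false
set_option autoImplicit false

open Polynomial Module NumberField IsDedekindDomain
open Pool.Agent.Y142.ZO (GK IsFrobenius)
open Pool.Agent.N171 Pool.Agent.N171.Al Pool.Agent.N171.Pm Pool.Agent.N171.Bg Pool.Agent.N171.TG
open Pool.Agent.Results.MP_640417_ag.HyperellipticEveryPrime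
open HeightOneSpectrum WithZero

namespace Pool.Agent.H852.J

noncomputable section

/-- the exceptional prime numbers -/
theorem exists_bad {K : Type} [Field K] [NumberField K] {d : ℕ}
    (τ : AbsoluteGaloisGroup K →* Matrix (Fin d) (Fin d) ℚ_[2]) (hτ : IsLattice τ) :
    ∃ n₀ : ℕ, 0 < n₀ ∧ ∀ p : ℕ, p.Prime → ¬ p ∣ n₀ → p ≠ 2 ∧ ∃ v : HeightOneSpectrum (𝓞 K),
      Unramified τ v ∧ v.valuation K (p : K) = exp (-1 : ℤ) ∧
      (∀ m : ℤ, ¬ (p : ℤ) ∣ m → v.valuation K (m : K) = 1) ∧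
      ∀ m : ℤ, ¬ (p : ℤ) ∣ m → (m : 𝓞 K) ∉ v.asIdeal := by
  classical
  have hfin := unramified_finite τ hτ
  set S := hfin.toFinset with hS
  set n₁ : ℕ := ∏ v ∈ S, Ideal.absNorm v.asIdeal with hn₁
  have hn₁0 : 0 < n₁ := Finset.prod_pos fun v _ => Nat.pos_of_ne_zero fun h =>
    v.ne_bot (Ideal.absNorm_eq_zero_iff.1 h)
  have hdisc : 0 < (NumberField.discr K).natAbs :=
    Int.natAbs_pos.2 (NumberField.discr_ne_zero K)
  refine ⟨2 * (NumberField.discr K).natAbs * n₁, by positivity, fun p hp hpn => ⟨?_, ?_⟩⟩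
  · rintro rfl
    exact hpn (Dvd.dvd.mul_right (dvd_mul_right _ _) _)
  · obtain ⟨v, h1, h2, h3⟩ := exists_unr_place K p hp (fun h => hpn
      (Dvd.dvd.mul_right (Dvd.dvd.mul_left (by
        have := Int.natAbs_dvd_natAbs.2 h
        simpa using this) _) _))
    refine ⟨v, ?_, h1, h2, h3⟩
    by_contra hv
    have h4 : v ∈ S := by
      rw [hS, Set.Finite.mem_toFinset]
      exact hv
    refine h3 n₁ (fun h => hpn (Dvd.dvd.mul_left (by exact_mod_cast h) _)) ?_
    rw [hn₁, Int.cast_natCast, ← Finset.mul_prod_erase _ _ h4, Nat.cast_mul]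
    exact v.asIdeal.mul_mem_right _ (Ideal.absNorm_mem _)

section ext

variable {p : ℕ} [Fact p.Prime] {G : ℕ → ℤ[X]} {N : ℕ}

theorem LocNode.ext {k : ℕ} {γ : ℤ} (h : LocNode p G N k γ) (hk : k < N) :
    LocNode p (extG G N) N k γ where
  etale := fun n hn hnk y hy => by
    rw [extG_lt G hn] at hy
    rw [cmpR_ext_le G (by omega)]
    exact h.etale n hn hnk y hy
  crit := by
    rw [extG_lt G hk]
    exact h.crit
  simple := by
    rw [extG_lt G hk]
    exact h.simple
  zero := by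
    rw [cmpR_ext_le G (by omega)]
    exact h.zero
  sq := by
    rw [cmpR_ext_le G (by omega)]
    exact h.sq
  only := fun y hy => by
    rw [extG_lt G hk] at hy
    rw [cmpR_ext_le G (by omega)]
    exact h.only y hy

theorem CertA.ext {n : ℕ} {e : ZMod p} (h : CertA p G n e) (hn : n < N) :
    CertA p (extG G N) n e where
  root := by
    rw [cmpR_ext_le G hn.le]
    exact h.root
  simple := by
    rw [cmpR_ext_le G hn.le]
    exact h.simple
  irr := by
    rw [extG_lt G hn]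
    exact h.irr

theorem CertB.ext {n : ℕ} {e r : ZMod p} {Q : (ZMod p)[X]} (h : CertB p G n e r Q) (hn : n < N) :
    CertB p (extG G N) n e r Q where
  root := by
    rw [cmpR_ext_le G hn.le]
    exact h.root
  simple := by
    rw [cmpR_ext_le G hn.le]
    exact h.simple
  fac := by
    rw [extG_lt G hn]
    exact h.fac
  irr := h.irr
  ne := h.ne

end ext

/-- **All prime numbers from local conditions.** -/
theorem everyPrime_of_local {K : Type} [Field K] [NumberField K] {d : ℕ}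
    (τ : AbsoluteGaloisGroup K →* Matrix (Fin d) (Fin d) ℚ_[2]) (hτ : IsLattice τ) :
    ∃ n₀ : ℕ, 0 < n₀ ∧ ∀ (G : ℕ → ℤ[X]) (N : ℕ), 1 ≤ N → (∀ n < N, (G n).Monic) →
      (∀ n < N, 3 ≤ (G n).natDegree) → (∀ n < N, Odd (G n).natDegree) →
      (∀ n < N, ∃ (p : ℕ) (_ : Fact p.Prime), EtaleAt p G n) →
      (∀ n < N, ∃ (p : ℕ) (_ : Fact p.Prime) (_ : 𝓞 K →+* ZMod p) (e : ZMod p),
        CertA p G n e) →
      (∀ n < N, ∃ (p : ℕ) (_ : Fact p.Prime) (_ : 𝓞 K →+* ZMod p) (e r : ZMod p)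
        (Q : (ZMod p)[X]), CertB p G n e r Q) →
      (∀ k < N, ∃ (p : ℕ) (_ : Fact p.Prime) (γ : ℤ), ¬ p ∣ n₀ ∧ LocNode p G N k γ) →
      EveryPrime (fun _ : Unit => comps (toQ K G) N) τ := by
  obtain ⟨n₀, hn₀, hbad⟩ := exists_bad τ hτ
  refine ⟨n₀, hn₀, fun G N hN hm hd ho hE hA hB hL => ?_⟩
  obtain ⟨t, ht⟩ := exists_lat τ hτ.2
  obtain ⟨hm', h⟩ := ext_compHyp (K := K) hm hd ho hE
  have hyp := h.hyp
  have hcomps : comps (toQ K (extG G N)) N = comps (toQ K G) N := by
    rw [comps_toQ, comps_toQ, cmpR_ext_le G le_rfl]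
  have htr : ∀ n ≤ N, ∀ x y : AlgebraicClosure K, aeval x (comps (toQ K (extG G N)) n) = 0 →
      aeval y (comps (toQ K (extG G N)) n) = 0 →
      ∃ s : AlgebraicClosure K ≃ₐ[K] AlgebraicClosure K, s x = y := by
    intro n
    induction n with
    | zero =>
      intro _ x y hx hy
      rw [comps, aeval_X] at hx hy
      exact ⟨AlgEquiv.refl, by rw [hx, hy]; rfl⟩
    | succ n ih =>
      intro hn
      obtain ⟨p, hp, φ, e, hc⟩ := hA n (by omega)
      exact trans_step hm' h φ (hc.ext (by omega)) (ih (by omega))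
  rw [← hcomps]
  refine everyPrime_of_links h hN htr τ hτ t ht (fun m hm1 hmN => ?_) (fun n hn => Or.inr ?_)
  · obtain ⟨p, hp, γ, hpn, hl⟩ := hL (m - 1) (by omega)
    obtain ⟨hp2, v, hu, hv1, hv2, hv3⟩ := hbad p hp.out hpn
    have h1 := nodePlace_of_loc hm' h hp2 (by omega) (hl.ext (by omega)) hv1 hv2 hv3
    rw [Nat.sub_add_cancel hm1] at h1
    exact link_of_place h hmN h1 t (unramified_lat hu ht)
  · obtain ⟨p, hp, φ, e, r, Q, hc⟩ := hB n hn
    intro x y z hx hy hz hyx hzx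
    exact two_step hm' h φ (hc.ext hn) (htr (n + 1) hn) x y z hx hy hz hyx hzx

end

end Pool.Agent.H852.J
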