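import Mathlib

/-!
# Counting monic polynomials over finite fields
-/

set_option linter.unusedSectionVars false
set_option autoImplicit false

open Polynomial Finset

namespace Pool.Agent.H852.J

noncomputable section

/-! ### varying one component -/

section lens

variable {V B : Type} [Fintype B]

/-- replacing a component -/
structure Lens (get : V → B) (set : V → B → V) : Prop where
  get_set : ∀ a u, get (set a u) = u
  set_set : ∀ a u w, set (set a u) w = set a w
  set_get : ∀ a, set a (get a) = a

theorem Lens.sum {get : V → B} {set : V → B → V} (h : Lens get set) (S : Finset V)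
    (hS : ∀ a ∈ S, ∀ u, set a u ∈ S) (P : V → Prop) [DecidablePred P] :
    ∑ a ∈ S, (univ.filter fun u => P (set a u)).card = (S.filter P).card * Fintype.card B := by
  rw [← card_univ, ← card_product, ← card_sigma]
  refine card_bij' (fun x _ => (set x.1 x.2, get x.1)) (fun x _ => ⟨set x.1 x.2, get x.1⟩) ?_ ?_ ?_ ?_
  · intro x hx
    rw [mem_sigma, mem_filter] at hx
    exact mem_product.2 ⟨mem_filter.2 ⟨hS _ hx.1 _, hx.2.2⟩, mem_univ _⟩
  · intro x hx
    rw [mem_product, mem_filter] at hx
    refine mem_sigma.2 ⟨hS _ hx.1.1 _, mem_filter.2 ⟨mem_univ _, ?_⟩⟩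
    dsimp only
    rw [h.set_set, h.set_get]
    exact hx.1.2
  · intro x _
    dsimp only
    rw [h.set_set, h.set_get, h.get_set]
  · intro x _
    dsimp only
    rw [h.set_set, h.set_get, h.get_set]

theorem Lens.upper {get : V → B} {set : V → B → V} (h : Lens get set) (S : Finset V)
    (hS : ∀ a ∈ S, ∀ u, set a u ∈ S) (P : V → Prop) [DecidablePred P] {C : ℕ}
    (hC : ∀ a ∈ S, (univ.filter fun u => P (set a u)).card ≤ C) :
    Fintype.card B * (S.filter P).card ≤ C * S.card := by
  rw [mul_comm, ← h.sum S hS P, mul_comm, ← smul_eq_mul, ← sum_const]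
  exact sum_le_sum hC

theorem Lens.lower {get : V → B} {set : V → B → V} (h : Lens get set) (S : Finset V)
    (hS : ∀ a ∈ S, ∀ u, set a u ∈ S) (P : V → Prop) [DecidablePred P] {w c : ℕ}
    (hC : ∀ a ∈ S, w ≤ c * (univ.filter fun u => P (set a u)).card) :
    w * S.card ≤ c * ((S.filter P).card * Fintype.card B) := by
  rw [← h.sum S hS P, mul_comm, ← smul_eq_mul, ← sum_const, mul_sum]
  exact sum_le_sum hC

theorem lens_update {ι : Type} [DecidableEq ι] (k : ι) :
    Lens (fun a : ι → B => a k) (fun a t => Function.update a k t) where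
  get_set := fun a u => Function.update_self _ _ _
  set_set := fun a u w => Function.update_idem _ _ _
  set_get := fun a => Function.update_eq_self _ _

/-- a finite set of exceptional values -/
theorem card_le_of_roots {F Ω : Type} [Field F] [Fintype F] [Field Ω] [Algebra F Ω]
    [DecidableEq Ω] (P : F → Prop) [DecidablePred P] (s : Finset Ω)
    (h : ∀ t, P t → algebraMap F Ω t ∈ s) : (univ.filter P).card ≤ s.card := by
  refine card_le_card_of_injOn (algebraMap F Ω) (fun t ht => ?_) (algebraMap F Ω).injective.injOn
  rw [mem_coe, mem_filter] at ht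
  exact h t ht.2

end lens

/-! ### monic polynomials with given coefficients -/

section mk

variable {R : Type} [CommRing R] {m : ℕ}

/-- the monic polynomial with given lower coefficients -/
def mkP (u : Fin m → R) : R[X] := X ^ m + ∑ i : Fin m, C (u i) * X ^ (i : ℕ)

theorem mkP_monic (u : Fin m → R) : (mkP u).Monic := monic_X_pow_add (degree_sum_fin_lt u)

theorem mkP_natDegree [Nontrivial R] (u : Fin m → R) : (mkP u).natDegree = m := by
  unfold mkP
  rw [natDegree_add_eq_left_of_degree_lt, natDegree_X_pow]
  rw [degree_X_pow]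
  exact degree_sum_fin_lt u

theorem mkP_map {R' : Type} [CommRing R'] (φ : R →+* R') (u : Fin m → R) :
    (mkP u).map φ = mkP (fun i => φ (u i)) := by
  unfold mkP
  rw [Polynomial.map_add, Polynomial.map_pow, map_X, Polynomial.map_sum]
  congr 1
  refine sum_congr rfl fun i _ => ?_
  rw [Polynomial.map_mul, map_C, Polynomial.map_pow, map_X]

theorem mkP_coeff_self {g : R[X]} (hg : g.Monic) (hd : g.natDegree = m) :
    mkP (fun i : Fin m => g.coeff i) = g := by
  have h1 := hg.as_sum
  rw [hd, ← Fin.sum_univ_eq_sum_range (fun i => C (g.coeff i) * X ^ i)] at h1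
  exact h1.symm

theorem mkP_coeff (u : Fin m → R) (i : Fin m) : (mkP u).coeff i = u i := by
  unfold mkP
  rw [coeff_add, coeff_X_pow, if_neg (by have := i.2; omega), zero_add, finset_sum_coeff,
    sum_eq_single i]
  · rw [coeff_C_mul, coeff_X_pow, if_pos rfl, mul_one]
  · intro j _ hj
    rw [coeff_C_mul, coeff_X_pow, if_neg (fun h => hj (Fin.ext h.symm)), mul_zero]
  · intro h
    exact absurd (mem_univ i) h

theorem mkP_injective : Function.Injective (mkP : (Fin m → R) → R[X]) := by
  intro u w h
  funext i
  rw [← mkP_coeff u i, h, mkP_coeff]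

theorem mkP_update (u : Fin m → R) (i : Fin m) (hi : (i : ℕ) = 0) (t : R) :
    mkP (Function.update u i t) = mkP (Function.update u i 0) + C t := by
  unfold mkP
  rw [add_assoc]
  congr 1
  rw [← add_sum_erase _ _ (mem_univ i), ← add_sum_erase _ _ (mem_univ i), Function.update_self,
    Function.update_self, hi, pow_zero, mul_one, mul_one, map_zero, zero_add, add_comm]
  congr 1
  refine sum_congr rfl fun j hj => ?_
  rw [Function.update_of_ne (ne_of_mem_erase hj), Function.update_of_ne (ne_of_mem_erase hj)]

end mk

/-! ### irreducible polynomials -/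

section irr

variable {p : ℕ} [Fact p.Prime]

open Classical in
/-- **The number of irreducible polynomials.** -/
theorem irr_count {m : ℕ} (hm : 0 < m) (hp : 2 * m ^ 2 ≤ p) :
    p ^ m ≤ 2 * m * (univ.filter fun u : Fin m → ZMod p => Irreducible (mkP u)).card := by
  let E := GaloisField p m
  have hfin : Fintype E := Fintype.ofFinite E
  have hcardE : Fintype.card E = p ^ m := by
    rw [← Nat.card_eq_fintype_card]
    exact GaloisField.card p m hm.ne'
  have hrk : Module.finrank (ZMod p) E = m := GaloisField.finrank p hm.ne'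
  let A : ℕ → Finset E := fun e => univ.filter fun α => (minpoly (ZMod p) α).natDegree = e
  have hint : ∀ α : E, IsIntegral (ZMod p) α := fun α => Algebra.IsIntegral.isIntegral α
  have hroots : ∀ {e : ℕ} (u : Fin e → ZMod p),
      (univ.filter fun α : E => aeval α (mkP u) = 0).card ≤ e := by
    intro e u
    have h1 : (univ.filter fun α : E => aeval α (mkP u) = 0) ⊆
        ((mkP u).map (algebraMap (ZMod p) E)).roots.toFinset := by
      intro α hα
      rw [mem_filter] at hα
      rw [Multiset.mem_toFinset, mem_roots ((mkP_monic u).map _).ne_zero, IsRoot.def,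
        eval_map_algebraMap]
      exact hα.2
    refine (card_le_card h1).trans ((Multiset.toFinset_card_le _).trans
      ((card_roots' _).trans ?_))
    rw [natDegree_map, mkP_natDegree]
  have hA : ∀ e, (A e).card ≤ e * p ^ e := by
    intro e
    have h1 : A e ⊆ (univ : Finset (Fin e → ZMod p)).biUnion
        fun u => univ.filter fun α : E => aeval α (mkP u) = 0 := by
      intro α hα
      rw [mem_filter] at hα
      rw [mem_biUnion]
      refine ⟨fun i => (minpoly (ZMod p) α).coeff i, mem_univ _, mem_filter.2 ⟨mem_univ _, ?_⟩⟩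
      rw [mkP_coeff_self (minpoly.monic (hint α)) hα.2]
      exact minpoly.aeval _ _
    refine (card_le_card h1).trans (card_biUnion_le.trans ?_)
    refine (sum_le_sum fun u _ => hroots u).trans ?_
    rw [sum_const, card_univ, Fintype.card_fun, ZMod.card, Fintype.card_fin, smul_eq_mul, mul_comm]
  have hAm : (A m).card ≤
      m * (univ.filter fun u : Fin m → ZMod p => Irreducible (mkP u)).card := by
    have h1 : A m ⊆ (univ.filter fun u : Fin m → ZMod p => Irreducible (mkP u)).biUnion
        fun u => univ.filter fun α : E => aeval α (mkP u) = 0 := by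
      intro α hα
      rw [mem_filter] at hα
      have h2 := mkP_coeff_self (minpoly.monic (hint α)) hα.2
      rw [mem_biUnion]
      refine ⟨fun i => (minpoly (ZMod p) α).coeff i, mem_filter.2 ⟨mem_univ _, ?_⟩,
        mem_filter.2 ⟨mem_univ _, ?_⟩⟩
      · rw [h2]
        exact minpoly.irreducible (hint α)
      · rw [h2]
        exact minpoly.aeval _ _
    refine (card_le_card h1).trans (card_biUnion_le.trans ?_)
    refine (sum_le_sum fun u _ => hroots u).trans ?_
    rw [sum_const, smul_eq_mul, mul_comm]
  have htot : p ^ m ≤ ∑ e ∈ range (m + 1), (A e).card := by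
    rw [← hcardE, ← card_univ]
    have h1 : (univ : Finset E) ⊆ (range (m + 1)).biUnion A := by
      intro α _
      rw [mem_biUnion]
      exact ⟨(minpoly (ZMod p) α).natDegree,
        mem_range.2 (Nat.lt_succ_of_le ((minpoly.natDegree_le α).trans hrk.le)),
        mem_filter.2 ⟨mem_univ _, rfl⟩⟩
    exact (card_le_card h1).trans card_biUnion_le
  rw [sum_range_succ] at htot
  have hlow : ∑ e ∈ range m, (A e).card ≤ m * (m * p ^ (m - 1)) := by
    refine (sum_le_sum (g := fun _ => m * p ^ (m - 1)) fun e he => (hA e).trans ?_).trans ?_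
    · rw [mem_range] at he
      exact Nat.mul_le_mul he.le (Nat.pow_le_pow_right (Fact.out : p.Prime).pos (by omega))
    · rw [sum_const, card_range, smul_eq_mul]
  have h1 : 2 * (m * (m * p ^ (m - 1))) ≤ p ^ m := by
    obtain ⟨k, rfl⟩ := Nat.exists_eq_succ_of_ne_zero hm.ne'
    rw [Nat.succ_eq_add_one, Nat.add_sub_cancel, pow_succ p k]
    calc 2 * ((k + 1) * ((k + 1) * p ^ k)) = p ^ k * (2 * (k + 1) ^ 2) := by ring
      _ ≤ p ^ k * p := Nat.mul_le_mul_left _ hp
  have h2 : 2 * m * (univ.filter fun u : Fin m → ZMod p => Irreducible (mkP u)).card =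
      2 * (m * (univ.filter fun u : Fin m → ZMod p => Irreducible (mkP u)).card) := by ring
  rw [h2]
  omega

end irr

end

end Pool.Agent.H852.J
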