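import Mathlib
import Pool.Agent.H852.J.D1

/-!
# Counting polynomials with one critical point above a given value
-/

set_option linter.unusedSectionVars false
set_option autoImplicit false

open Polynomial Finset

namespace Pool.Agent.H852.J

noncomputable section

variable {p : ℕ} [Fact p.Prime]

/-- the point `γ` is a simple critical point of `g`, its value is a root of `f`, and it is the only one -/
def NodeU (f g : (ZMod p)[X]) (γ : ZMod p) : Prop :=
  (derivative g).eval γ = 0 ∧ (derivative (derivative g)).eval γ ≠ 0 ∧ f.eval (g.eval γ) = 0 ∧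
    ∀ y : AlgebraicClosure (ZMod p), aeval y (derivative g) = 0 → aeval (aeval y g) f = 0 →
      y = algebraMap (ZMod p) (AlgebraicClosure (ZMod p)) γ

/-- the condition on the other critical points -/
def GoodL (f : (ZMod p)[X]) (e : ZMod p) (L : (ZMod p)[X]) : Prop :=
  L.eval 0 ≠ 0 ∧ ∀ z : AlgebraicClosure (ZMod p), z ≠ 0 → aeval z (derivative (X ^ 2 * L)) = 0 →
    aeval (aeval z (X ^ 2 * L) + algebraMap (ZMod p) (AlgebraicClosure (ZMod p)) e) f ≠ 0

theorem card_roots_le {W : Type} [Field W] [DecidableEq W] {P : W[X]} {n : ℕ}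
    (h : P.natDegree ≤ n) : P.roots.toFinset.card ≤ n :=
  (Multiset.toFinset_card_le _).trans ((card_roots' _).trans h)

open Classical in
theorem bad_count {f : (ZMod p)[X]} (hf : f ≠ 0) {D : ℕ} (hD : f.natDegree ≤ D) (e : ZMod p)
    {m : ℕ} (hm : 0 < m) (hp : m + 2 < p) (l : Fin m → ZMod p) :
    (univ.filter fun t : ZMod p => ¬ GoodL f e (mkP (Function.update l ⟨0, hm⟩ t))).card ≤
      1 + D * (m + 2) := by
  let W := AlgebraicClosure (ZMod p)
  have hp3 : 3 < p := by omega
  have h2 : (2 : W) ≠ 0 := by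
    have h3 : ((2 : ℕ) : ZMod p) ≠ 0 := by
      rw [Ne, ZMod.natCast_eq_zero_iff]
      intro h
      have := Nat.le_of_dvd two_pos h
      omega
    have h4 := (_root_.map_ne_zero (algebraMap (ZMod p) W)).2 h3
    rw [map_natCast] at h4
    exact_mod_cast h4
  set L₀ := mkP (Function.update l ⟨0, hm⟩ (0 : ZMod p)) with hL₀
  have hLt : ∀ t, mkP (Function.update l ⟨0, hm⟩ t) = L₀ + C t := fun t => mkP_update _ _ rfl _
  have hmon : L₀.Monic := mkP_monic _
  have hdeg : L₀.natDegree = m := mkP_natDegree _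
  let P : W → W[X] := fun c => C (2 * (c - algebraMap (ZMod p) W e)) +
    X ^ 3 * derivative (L₀.map (algebraMap (ZMod p) W))
  have hP0 : ∀ c, P c ≠ 0 := by
    intro c h
    have h1 := congrArg (fun Q : W[X] => Q.coeff (m + 2)) h
    have h3 : m + 2 = (m - 1) + 3 := by omega
    simp only [P] at h1
    rw [coeff_add, coeff_C, if_neg (by omega), zero_add, h3, coeff_X_pow_mul, coeff_derivative,
      coeff_zero, coeff_map] at h1
    have h4 : m - 1 + 1 = m := by omega
    rw [h4] at h1
    have h5 : L₀.coeff m = 1 := by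
      rw [← hdeg]
      exact hmon
    rw [h5, map_one, one_mul] at h1
    have h6 : ((m : ℕ) : ZMod p) ≠ 0 := by
      rw [Ne, ZMod.natCast_eq_zero_iff]
      intro h
      have := Nat.le_of_dvd hm h
      omega
    have h7 := (_root_.map_ne_zero (algebraMap (ZMod p) W)).2 h6
    rw [map_natCast] at h7
    apply h7
    have h8 : ((m - 1 : ℕ) : W) + 1 = ((m : ℕ) : W) := by
      rw [← Nat.cast_succ, Nat.succ_eq_add_one, h4]
    rw [← h8]
    exact h1
  have hPd : ∀ c, (P c).natDegree ≤ m + 2 := by
    intro c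
    refine (natDegree_add_le _ _).trans (max_le ?_ ?_)
    · rw [natDegree_C]
      exact Nat.zero_le _
    · refine natDegree_mul_le.trans ?_
      rw [natDegree_X_pow]
      have h1 := natDegree_derivative_le (L₀.map (algebraMap (ZMod p) W))
      rw [natDegree_map, hdeg] at h1
      omega
  let ρ : W → W := fun z => -(aeval z L₀) - z * aeval z (derivative L₀) / 2
  let s : Finset W := {algebraMap (ZMod p) W (-(L₀.eval 0))} ∪
    ((f.map (algebraMap (ZMod p) W)).roots.toFinset.biUnion fun c =>
      (P c).roots.toFinset.image ρ)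
  have hs : s.card ≤ 1 + D * (m + 2) := by
    refine (card_union_le _ _).trans ?_
    rw [card_singleton]
    refine Nat.add_le_add_left (card_biUnion_le.trans ?_) 1
    refine (sum_le_sum (g := fun _ => m + 2) fun c _ =>
      card_image_le.trans (card_roots_le (hPd c))).trans ?_
    rw [sum_const, smul_eq_mul]
    refine Nat.mul_le_mul_right _ (card_roots_le ?_)
    rwa [natDegree_map]
  refine (card_le_of_roots _ s fun t ht => ?_).trans hs
  rw [hLt] at ht
  rw [mem_union, mem_singleton]
  unfold GoodL at ht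
  rw [not_and_or, not_not] at ht
  rcases ht with ht | ht
  · left
    rw [eval_add, eval_C] at ht
    congr 1
    linear_combination ht
  · right
    push Not at ht
    obtain ⟨z, hz0, hz1, hz2⟩ := ht
    rw [mem_biUnion]
    set c : W := aeval z (X ^ 2 * (L₀ + C t)) + algebraMap (ZMod p) W e with hc
    refine ⟨c, ?_, ?_⟩
    · rw [Multiset.mem_toFinset, mem_roots ((Polynomial.map_ne_zero_iff
        (algebraMap (ZMod p) W).injective).2 hf), IsRoot.def, eval_map_algebraMap]
      exact hz2
    · have h3 : derivative (X ^ 2 * (L₀ + C t)) =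
          X * (C 2 * (L₀ + C t) + X * derivative L₀) := by
        rw [derivative_mul, derivative_X_pow, derivative_add, derivative_C]
        simp only [Nat.cast_ofNat, map_ofNat]
        ring
      rw [h3, map_mul, aeval_X] at hz1
      have h4 := (mul_eq_zero.1 hz1).resolve_left hz0
      simp only [map_add, map_mul, aeval_C, aeval_X, map_ofNat] at h4
      have h5 : algebraMap (ZMod p) W t = ρ z := by
        have h22 : (2 : W)⁻¹ * 2 = 1 := inv_mul_cancel₀ h2
        apply mul_left_cancel₀ h2
        simp only [ρ]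
        linear_combination h4 + z * aeval z (derivative L₀) * h22
      rw [mem_image]
      refine ⟨z, ?_, h5.symm⟩
      rw [Multiset.mem_toFinset, mem_roots (hP0 c), IsRoot.def]
      simp only [P]
      rw [eval_add, eval_C, eval_mul, eval_pow, eval_X, derivative_map, eval_map_algebraMap, hc]
      simp only [map_add, map_mul, map_pow, aeval_C, aeval_X]
      linear_combination z ^ 2 * h4

open Classical in
theorem good_count {f : (ZMod p)[X]} (hf : f ≠ 0) {D : ℕ} (hD : f.natDegree ≤ D) (e : ZMod p)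
    {m : ℕ} (hm : 0 < m) (hp : m + 2 < p) (hpD : 2 * (1 + D * (m + 2)) ≤ p) :
    p ^ m ≤ 2 * (univ.filter fun l : Fin m → ZMod p => GoodL f e (mkP l)).card := by
  have h1 := (lens_update (B := ZMod p) (⟨0, hm⟩ : Fin m)).upper univ (fun _ _ _ => mem_univ _)
    (fun l : Fin m → ZMod p => ¬ GoodL f e (mkP l)) (C := 1 + D * (m + 2))
    (fun l _ => bad_count hf hD e hm hp l)
  rw [ZMod.card, card_univ, Fintype.card_fun, ZMod.card, Fintype.card_fin] at h1
  have h2 := card_filter_add_card_filter_not (s := (univ : Finset (Fin m → ZMod p)))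
    (fun l => GoodL f e (mkP l))
  rw [card_univ, Fintype.card_fun, ZMod.card, Fintype.card_fin] at h2
  have hp0 : 0 < p := by omega
  have h3 : 2 * (univ.filter fun l : Fin m → ZMod p => ¬ GoodL f e (mkP l)).card ≤ p ^ m := by
    refine Nat.le_of_mul_le_mul_left (?_ : p * _ ≤ p * _) hp0
    calc p * (2 * (univ.filter fun l : Fin m → ZMod p => ¬ GoodL f e (mkP l)).card)
        = 2 * (p * (univ.filter fun l : Fin m → ZMod p => ¬ GoodL f e (mkP l)).card) := by ring
      _ ≤ 2 * ((1 + D * (m + 2)) * p ^ m) := Nat.mul_le_mul_left _ h1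
      _ = (2 * (1 + D * (m + 2))) * p ^ m := by ring
      _ ≤ p * p ^ m := Nat.mul_le_mul_right _ hpD
  omega

/-- the polynomial with the double point -/
def nodeG (e γ : ZMod p) (L : (ZMod p)[X]) : (ZMod p)[X] := (X ^ 2 * L).comp (X - C γ) + C e

theorem nodeG_monic (e γ : ZMod p) {L : (ZMod p)[X]} (hL : L.Monic) : (nodeG e γ L).Monic := by
  have h1 : ((X ^ 2 * L).comp (X - C γ)).Monic :=
    ((monic_X_pow 2).mul hL).comp (monic_X_sub_C γ) (by rw [natDegree_X_sub_C]; exact one_ne_zero)
  refine h1.add_of_left (lt_of_le_of_lt degree_C_le ?_)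
  rw [← natDegree_pos_iff_degree_pos, natDegree_comp, natDegree_X_sub_C, mul_one,
    (monic_X_pow 2).natDegree_mul hL, natDegree_X_pow]
  omega

theorem nodeG_natDegree (e γ : ZMod p) {L : (ZMod p)[X]} (hL : L.Monic) :
    (nodeG e γ L).natDegree = L.natDegree + 2 := by
  unfold nodeG
  rw [natDegree_add_C, natDegree_comp, natDegree_X_sub_C, mul_one,
    (monic_X_pow 2).natDegree_mul hL, natDegree_X_pow, add_comm]

theorem nodeG_nodeU {f : (ZMod p)[X]} {e γ : ZMod p} (he : f.eval e = 0) {L : (ZMod p)[X]}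
    (hp2 : (2 : ZMod p) ≠ 0) (h : GoodL f e L) : NodeU f (nodeG e γ L) γ := by
  have hd1 : derivative (nodeG e γ L) = (derivative (X ^ 2 * L)).comp (X - C γ) := by
    unfold nodeG
    rw [derivative_add, derivative_C, add_zero, derivative_comp, derivative_sub, derivative_X,
      derivative_C, sub_zero, one_mul]
  have hd2 : derivative (derivative (nodeG e γ L)) =
      (derivative (derivative (X ^ 2 * L))).comp (X - C γ) := by
    rw [hd1, derivative_comp, derivative_sub, derivative_X, derivative_C, sub_zero, one_mul]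
  have h3 : derivative (X ^ 2 * L) = X * (C 2 * L + X * derivative L) := by
    rw [derivative_mul, derivative_X_pow]
    simp only [Nat.cast_ofNat, map_ofNat]
    ring
  refine ⟨?_, ?_, ?_, fun y hy hy' => ?_⟩
  · rw [hd1, eval_comp, h3]
    simp
  · rw [hd2, eval_comp, h3]
    simp only [derivative_mul, derivative_X, one_mul, eval_add, eval_mul, eval_sub, eval_X, eval_C,
      sub_self, zero_mul, add_zero]
    exact mul_ne_zero hp2 h.1
  · unfold nodeG
    rw [eval_add, eval_C, eval_comp]
    simp [he]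
  · rw [hd1, aeval_comp, map_sub, aeval_X, aeval_C] at hy
    by_contra hne
    refine h.2 (y - algebraMap _ _ γ) (sub_ne_zero.2 hne) hy ?_
    unfold nodeG at hy'
    rwa [map_add, aeval_comp, map_sub, aeval_X, aeval_C, aeval_C] at hy'

open Classical in
/-- **The number of polynomials with one node.** -/
theorem node_count {f : (ZMod p)[X]} (hf : f ≠ 0) {D : ℕ} (hD : f.natDegree ≤ D) {e : ZMod p}
    (he : f.eval e = 0) {d : ℕ} (hd : 3 ≤ d) (hp : d < p) (hpD : 2 * (1 + D * d) ≤ p) :
    p ^ d ≤ 2 * p * (univ.filter fun u : Fin d → ZMod p => ∃ γ, NodeU f (mkP u) γ).card := by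
  obtain ⟨m, rfl⟩ : ∃ m, d = m + 2 := ⟨d - 2, by omega⟩
  have hm : 0 < m := by omega
  have hp2 : (2 : ZMod p) ≠ 0 := by
    have h3 : ((2 : ℕ) : ZMod p) ≠ 0 := by
      rw [Ne, ZMod.natCast_eq_zero_iff]
      intro h
      have := Nat.le_of_dvd two_pos h
      omega
    exact_mod_cast h3
  have h1 := good_count hf hD e hm hp hpD
  have hmk : ∀ (γ : ZMod p) (l : Fin m → ZMod p),
      mkP (fun i : Fin (m + 2) => (nodeG e γ (mkP l)).coeff i) = nodeG e γ (mkP l) := fun γ l =>
    mkP_coeff_self (nodeG_monic e γ (mkP_monic l)) (by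
      rw [nodeG_natDegree e γ (mkP_monic l), mkP_natDegree])
  have h2 : ((univ : Finset (ZMod p)) ×ˢ
      (univ.filter fun l : Fin m → ZMod p => GoodL f e (mkP l))).card ≤
      (univ.filter fun u : Fin (m + 2) → ZMod p => ∃ γ, NodeU f (mkP u) γ).card := by
    refine card_le_card_of_injOn
      (fun x => fun i : Fin (m + 2) => (nodeG e x.1 (mkP x.2)).coeff i) ?_ ?_
    · rintro ⟨γ, l⟩ hx
      rw [mem_coe, mem_product, mem_filter] at hx
      rw [mem_coe, mem_filter]
      refine ⟨mem_univ _, γ, ?_⟩
      rw [hmk]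
      exact nodeG_nodeU he hp2 hx.2.2
    · rintro ⟨γ, l⟩ hx ⟨γ', l'⟩ hx' h
      rw [mem_coe, mem_product, mem_filter] at hx hx'
      have h3 := congrArg mkP h
      dsimp only at h3
      rw [hmk, hmk] at h3
      have h4 := nodeG_nodeU (γ := γ) he hp2 hx.2.2
      have h5 := nodeG_nodeU (γ := γ') he hp2 hx'.2.2
      rw [← h3] at h5
      have h6 : γ = γ' := by
        apply (algebraMap (ZMod p) (AlgebraicClosure (ZMod p))).injective
        symm
        refine h4.2.2.2 _ ?_ ?_
        · rw [aeval_algebraMap_apply, coe_aeval_eq_eval, h5.1, map_zero]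
        · rw [aeval_algebraMap_apply, coe_aeval_eq_eval, aeval_algebraMap_apply,
            coe_aeval_eq_eval, h5.2.2.1, map_zero]
      subst h6
      unfold nodeG at h3
      have h7 := congrArg (fun Q => Q.comp (X + C γ)) (add_right_cancel h3)
      simp only [comp_assoc, sub_comp, X_comp, C_comp, add_sub_cancel_right, comp_X] at h7
      have h8 := mul_left_cancel₀ (pow_ne_zero 2 X_ne_zero) h7
      rw [mkP_injective h8]
  rw [card_product, card_univ, ZMod.card] at h2
  calc p ^ (m + 2) = p * p * p ^ m := by ring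
    _ ≤ p * p * (2 * (univ.filter fun l : Fin m → ZMod p => GoodL f e (mkP l)).card) :=
      Nat.mul_le_mul_left _ h1
    _ = 2 * p * (p * (univ.filter fun l : Fin m → ZMod p => GoodL f e (mkP l)).card) := by ring
    _ ≤ _ := Nat.mul_le_mul_left _ h2

open Classical in
theorem irrA_count (e : ZMod p) {d : ℕ} (hd : 3 ≤ d) (hp : 2 * d ^ 2 ≤ p) :
    p ^ d ≤ 2 * d * (univ.filter fun u : Fin d → ZMod p => Irreducible (mkP u - C e)).card := by
  refine (irr_count (by omega) hp).trans (Nat.mul_le_mul_left _ ?_)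
  have hmk : ∀ u : Fin d → ZMod p, mkP (fun i : Fin d => (mkP u + C e).coeff i) = mkP u + C e :=
    fun u => mkP_coeff_self ((mkP_monic u).add_of_left (lt_of_le_of_lt degree_C_le (by
      rw [← natDegree_pos_iff_degree_pos, mkP_natDegree]
      omega))) (by rw [natDegree_add_C, mkP_natDegree])
  refine card_le_card_of_injOn (fun u => fun i : Fin d => (mkP u + C e).coeff i) ?_ ?_
  · intro u hu
    rw [mem_coe, mem_filter] at hu ⊢
    refine ⟨mem_univ _, ?_⟩
    rw [hmk, add_sub_cancel_right]
    exact hu.2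
  · intro u _ u' _ h
    have h3 := congrArg mkP h
    dsimp only at h3
    rw [hmk, hmk] at h3
    exact mkP_injective (add_right_cancel h3)

open Classical in
theorem irrB_count (e : ZMod p) {d : ℕ} (hd : 3 ≤ d) (hp : 2 * d ^ 2 ≤ p) :
    p ^ d ≤ 2 * d * (univ.filter fun u : Fin d → ZMod p => ∃ (r : ZMod p) (Q : (ZMod p)[X]),
      mkP u - C e = (X - C r) * Q ∧ Irreducible Q ∧ Q.eval r ≠ 0).card := by
  obtain ⟨m, rfl⟩ : ∃ m, d = m + 1 := ⟨d - 1, by omega⟩
  have h1 := irr_count (p := p) (m := m) (by omega) (le_trans (Nat.mul_le_mul_left 2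
    (Nat.pow_le_pow_left (Nat.le_succ m) 2)) hp)
  have hmk : ∀ (r : ZMod p) (q : Fin m → ZMod p),
      mkP (fun i : Fin (m + 1) => ((X - C r) * mkP q + C e).coeff i) = (X - C r) * mkP q + C e := by
    intro r q
    have h2 : ((X - C r) * mkP q).natDegree = m + 1 := by
      rw [(monic_X_sub_C r).natDegree_mul (mkP_monic q), natDegree_X_sub_C, mkP_natDegree, add_comm]
    refine mkP_coeff_self (((monic_X_sub_C r).mul (mkP_monic q)).add_of_left
      (lt_of_le_of_lt degree_C_le ?_)) ?_
    · rw [← natDegree_pos_iff_degree_pos, h2]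
      omega
    · rw [natDegree_add_C, h2]
  have hnr : ∀ q : Fin m → ZMod p, Irreducible (mkP q) → ∀ r, (mkP q).eval r ≠ 0 := by
    intro q hq r h
    have h2 : (mkP q).natDegree = 1 :=
      natDegree_eq_of_degree_eq_some (degree_eq_one_of_irreducible_of_root hq h)
    rw [mkP_natDegree] at h2
    omega
  have h2 : ((univ : Finset (ZMod p)) ×ˢ
      (univ.filter fun l : Fin m → ZMod p => Irreducible (mkP l))).card ≤
      (univ.filter fun u : Fin (m + 1) → ZMod p => ∃ (r : ZMod p) (Q : (ZMod p)[X]),
        mkP u - C e = (X - C r) * Q ∧ Irreducible Q ∧ Q.eval r ≠ 0).card := by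
    refine card_le_card_of_injOn
      (fun x => fun i : Fin (m + 1) => ((X - C x.1) * mkP x.2 + C e).coeff i) ?_ ?_
    · rintro ⟨r, q⟩ hx
      rw [mem_coe, mem_product, mem_filter] at hx
      rw [mem_coe, mem_filter]
      refine ⟨mem_univ _, r, mkP q, ?_, hx.2.2, hnr q hx.2.2 r⟩
      rw [hmk, add_sub_cancel_right]
    · rintro ⟨r, q⟩ hx ⟨r', q'⟩ hx' h
      rw [mem_coe, mem_product, mem_filter] at hx hx'
      have h3 := congrArg mkP h
      dsimp only at h3
      rw [hmk, hmk] at h3
      have h4 := add_right_cancel h3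
      have h5 : r = r' := by
        have h6 := congrArg (Polynomial.eval r) h4
        rw [eval_mul, eval_mul, eval_sub, eval_sub, eval_X, eval_C, eval_C, sub_self,
          zero_mul] at h6
        exact sub_eq_zero.1 ((mul_eq_zero.1 h6.symm).resolve_right (hnr q' hx'.2.2 r))
      subst h5
      rw [mkP_injective (mul_left_cancel₀ (X_sub_C_ne_zero r) h4)]
  rw [card_product, card_univ, ZMod.card] at h2
  calc p ^ (m + 1) = p * p ^ m := by ring
    _ ≤ p * (2 * m * (univ.filter fun l : Fin m → ZMod p => Irreducible (mkP l)).card) :=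
      Nat.mul_le_mul_left _ h1
    _ = 2 * m * (p * (univ.filter fun l : Fin m → ZMod p => Irreducible (mkP l)).card) := by ring
    _ ≤ 2 * m * _ := Nat.mul_le_mul_left _ h2
    _ ≤ _ := Nat.mul_le_mul_right _ (by omega)

end

end Pool.Agent.H852.J
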