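import Mathlib
import Pool.Agent.H852.J.D2
import Pool.Agent.H852.J.C2

/-!
# Counting sequences of polynomials over finite fields
-/

set_option linter.unusedSectionVars false
set_option autoImplicit false

open Polynomial Finset

namespace Pool.Agent.H852.J

noncomputable section

/-! ### sequences of polynomials -/

section seq

variable {R : Type} [CommRing R]

theorem cmpR_congr {G G' : ℕ → R[X]} {n : ℕ} (h : ∀ i < n, G i = G' i) : cmpR G n = cmpR G' n := by
  induction n with
  | zero => rfl
  | succ n ih => rw [cmpR, cmpR, ih fun i hi => h i (by omega), h n (Nat.lt_succ_self n)]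

theorem cmpR_map {R' : Type} [CommRing R'] (φ : R →+* R') (G : ℕ → R[X]) (n : ℕ) :
    (cmpR G n).map φ = cmpR (fun n => (G n).map φ) n := by
  induction n with
  | zero => rw [cmpR, cmpR, Polynomial.map_X]
  | succ n ih => rw [cmpR, cmpR, Polynomial.map_comp, ih]

/-- adding a constant to the first polynomial -/
theorem cmpR_add {G G' : ℕ → R[X]} {s : R} (h0 : G' 0 = G 0 + C s) (h : ∀ i, i ≠ 0 → G' i = G i)
    (n : ℕ) : cmpR G' (n + 1) = cmpR G (n + 1) + C s := by
  induction n with
  | zero => rw [cmpR, cmpR, cmpR, cmpR, X_comp, X_comp, h0]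
  | succ n ih =>
    rw [cmpR, ih, h (n + 1) (by omega), add_comp, C_comp]
    rfl

variable {N : ℕ} {d : Fin N → ℕ}

/-- the polynomials with the coefficients `a` -/
def polyOf (d : Fin N → ℕ) (a : (Σ n : Fin N, Fin (d n)) → R) (n : ℕ) : R[X] :=
  if h : n < N then mkP (fun i : Fin (d ⟨n, h⟩) => a ⟨⟨n, h⟩, i⟩) else X

theorem polyOf_lt (a : (Σ n : Fin N, Fin (d n)) → R) (n : Fin N) :
    polyOf d a n = mkP (fun i : Fin (d n) => a ⟨n, i⟩) := dif_pos n.2

theorem polyOf_map {R' : Type} [CommRing R'] (φ : R →+* R') (a : (Σ n : Fin N, Fin (d n)) → R)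
    (n : ℕ) : (polyOf d a n).map φ = polyOf d (fun k => φ (a k)) n := by
  unfold polyOf
  split_ifs with h
  · exact mkP_map φ _
  · exact Polynomial.map_X φ

theorem polyOf_monic (a : (Σ n : Fin N, Fin (d n)) → R) (n : ℕ) : (polyOf d a n).Monic := by
  unfold polyOf
  split_ifs with h
  · exact mkP_monic _
  · exact monic_X

theorem polyOf_natDegree [Nontrivial R] (a : (Σ n : Fin N, Fin (d n)) → R) (n : Fin N) :
    (polyOf d a n).natDegree = d n := by
  rw [polyOf_lt, mkP_natDegree]

/-- replacing the coefficients of one polynomial -/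
def lvS (n : Fin N) (a : (Σ n : Fin N, Fin (d n)) → R) (u : Fin (d n) → R) :
    (Σ n : Fin N, Fin (d n)) → R :=
  fun k => Function.update (β := fun m => Fin (d m) → R) (fun m i => a ⟨m, i⟩) n u k.1 k.2

theorem lens_lvS (n : Fin N) : Lens
    (fun a : (Σ n : Fin N, Fin (d n)) → R => fun i : Fin (d n) => a ⟨n, i⟩) (lvS n) where
  get_set := fun a u => by
    funext i
    change Function.update (β := fun m => Fin (d m) → R) _ n u n i = _
    rw [Function.update_self]
  set_set := fun a u w => by
    funext k
    obtain ⟨m, i⟩ := k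
    change Function.update (β := fun m => Fin (d m) → R) _ n w m i =
      Function.update (β := fun m => Fin (d m) → R) _ n w m i
    by_cases h : m = n
    · subst h
      rw [Function.update_self, Function.update_self]
    · rw [Function.update_of_ne h, Function.update_of_ne h]
      change Function.update (β := fun m => Fin (d m) → R) _ n u m i = _
      rw [Function.update_of_ne h]
  set_get := fun a => by
    funext k
    obtain ⟨m, i⟩ := k
    change Function.update (β := fun m => Fin (d m) → R) _ n _ m i = _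
    by_cases h : m = n
    · subst h
      rw [Function.update_self]
    · rw [Function.update_of_ne h]

theorem polyOf_lvS_self (n : Fin N) (a : (Σ n : Fin N, Fin (d n)) → R) (u : Fin (d n) → R) :
    polyOf d (lvS n a u) n = mkP u := by
  rw [polyOf_lt]
  exact congrArg mkP ((lens_lvS n).get_set a u)

theorem polyOf_lvS_ne (n : Fin N) (a : (Σ n : Fin N, Fin (d n)) → R) (u : Fin (d n) → R) {m : ℕ}
    (h : m ≠ n) : polyOf d (lvS n a u) m = polyOf d a m := by
  unfold polyOf
  split_ifs with hm
  · congr 1
    funext i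
    change Function.update (β := fun m => Fin (d m) → R) _ n u ⟨m, hm⟩ i = _
    rw [Function.update_of_ne]
    intro h1
    exact h (congrArg Fin.val h1)
  · rfl

theorem polyOf_update_self (n : Fin N) (i : Fin (d n)) (hi : (i : ℕ) = 0)
    (a : (Σ n : Fin N, Fin (d n)) → R) (t : R) :
    polyOf d (Function.update a ⟨n, i⟩ t) n = polyOf d (Function.update a ⟨n, i⟩ 0) n + C t := by
  have h1 : ∀ s : R, (fun j : Fin (d n) => Function.update a ⟨n, i⟩ s ⟨n, j⟩) =
      Function.update (fun j : Fin (d n) => a ⟨n, j⟩) i s := by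
    intro s
    funext j
    by_cases h : j = i
    · subst h
      rw [Function.update_self, Function.update_self]
    · rw [Function.update_of_ne h, Function.update_of_ne]
      intro h2
      exact h (eq_of_heq (Sigma.mk.inj_iff.1 h2).2)
  rw [polyOf_lt, polyOf_lt, h1, h1, mkP_update _ _ hi]

theorem polyOf_update_ne (n : Fin N) (i : Fin (d n)) (a : (Σ n : Fin N, Fin (d n)) → R) (t : R)
    {m : ℕ} (h : m ≠ n) : polyOf d (Function.update a ⟨n, i⟩ t) m = polyOf d a m := by
  unfold polyOf
  split_ifs with hm
  · congr 1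
    funext j
    rw [Function.update_of_ne]
    intro h1
    exact h (congrArg Fin.val (Sigma.mk.inj_iff.1 h1).1)
  · rfl

theorem cmpR_natDegree [IsDomain R] (hd : ∀ n, 0 < d n) (a : (Σ n : Fin N, Fin (d n)) → R) {n : ℕ}
    (hn : n ≤ N) : (cmpR (polyOf d a) n).natDegree =
      ∏ i ∈ univ.filter (fun i : Fin N => (i : ℕ) < n), d i := by
  induction n with
  | zero =>
    rw [cmpR, natDegree_X, filter_false_of_mem fun i _ => by omega, prod_empty]
  | succ n ih =>
    rw [cmpR, natDegree_comp, ih (by omega)]
    have h1 : (univ.filter fun i : Fin N => (i : ℕ) < n + 1) =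
        insert ⟨n, hn⟩ (univ.filter fun i : Fin N => (i : ℕ) < n) := by
      ext i
      simp only [mem_filter, mem_univ, true_and, mem_insert, Fin.ext_iff]
      omega
    have h2 := polyOf_natDegree a ⟨n, hn⟩
    rw [h1, prod_insert (by simp), mul_comm]
    congr 1

/-- the bound for the degrees -/
def DD (d : Fin N → ℕ) : ℕ := ∏ i, d i

theorem cmpR_deg_le [IsDomain R] (hd : ∀ n, 0 < d n) (a : (Σ n : Fin N, Fin (d n)) → R) {n : ℕ}
    (hn : n ≤ N) : (cmpR (polyOf d a) n).natDegree ≤ DD d := by
  rw [cmpR_natDegree hd a hn]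
  exact prod_le_prod_of_subset_of_one_le' (subset_univ _) fun i _ _ => hd i

theorem deg_le (hd : ∀ n, 0 < d n) (n : Fin N) : d n ≤ DD d := by
  have h1 := prod_le_prod_of_subset_of_one_le' (f := d) (subset_univ {n}) fun i _ _ => hd i
  rwa [prod_singleton] at h1

end seq

/-! ### the conditions -/

section cond

variable {p : ℕ} [Fact p.Prime]

/-- no critical value of `G n` is a root of the composition -/
def EtS (G : ℕ → (ZMod p)[X]) (n : ℕ) : Prop :=
  ∀ y : AlgebraicClosure (ZMod p), aeval y (derivative (G n)) = 0 → aeval y (cmpR G (n + 1)) ≠ 0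

theorem EtS.congr {G G' : ℕ → (ZMod p)[X]} {n : ℕ} (h : ∀ i ≤ n, G i = G' i) (hE : EtS G n) :
    EtS G' n := by
  intro y hy
  rw [← h n le_rfl] at hy
  rw [← cmpR_congr (G := G) (G' := G') fun i hi => h i (by omega)]
  exact hE y hy

/-- the composition has a root, and the levels below are good -/
def S1 (G : ℕ → (ZMod p)[X]) (n : ℕ) : Prop :=
  (∃ e, (cmpR G n).eval e = 0) ∧ ∀ i < n, EtS G i

theorem S1.congr {G G' : ℕ → (ZMod p)[X]} {n : ℕ} (h : ∀ i < n, G i = G' i) (hS : S1 G n) :
    S1 G' n := by
  refine ⟨?_, fun i hi => (hS.2 i hi).congr fun j hj => h j (by omega)⟩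
  rw [← cmpR_congr h]
  exact hS.1

/-- roots of the compositions are simple -/
theorem simple_root {G : ℕ → (ZMod p)[X]} {n : ℕ} (h : ∀ i < n, EtS G i)
    (y : AlgebraicClosure (ZMod p)) (hy : aeval y (cmpR G n) = 0) :
    aeval y (derivative (cmpR G n)) ≠ 0 := by
  induction n generalizing y with
  | zero =>
    rw [cmpR, derivative_X, map_one]
    exact one_ne_zero
  | succ n ih =>
    have h1 := hy
    rw [cmpR, aeval_comp] at h1
    rw [cmpR, derivative_comp, map_mul, aeval_comp]
    exact mul_ne_zero (fun h2 => h n (Nat.lt_succ_self n) y h2 hy)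
      (ih (fun i hi => h i (by omega)) _ h1)

theorem derivative_ne_zero' {g : (ZMod p)[X]} (hg : g.Monic) (h0 : 0 < g.natDegree)
    (hp : g.natDegree < p) : derivative g ≠ 0 := by
  intro h
  have h1 := congrArg (fun Q : (ZMod p)[X] => Q.coeff (g.natDegree - 1)) h
  have h2 : g.natDegree - 1 + 1 = g.natDegree := by omega
  rw [coeff_derivative, coeff_zero, h2, hg.coeff_natDegree, one_mul, ← Nat.cast_succ,
    Nat.succ_eq_add_one, h2, ZMod.natCast_eq_zero_iff] at h1
  have := Nat.le_of_dvd h0 h1
  omega

variable {N : ℕ} {d : Fin N → ℕ}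

open Classical in
/-- **The proportion of sequences with a critical value among the roots.** -/
theorem etale_count (hd : ∀ n, 0 < d n) (hp : DD d < p) (n : Fin N)
    (S : Finset ((Σ n : Fin N, Fin (d n)) → ZMod p))
    (hS : ∀ a ∈ S, ∀ t, Function.update a ⟨n, ⟨0, hd n⟩⟩ t ∈ S) :
    p * (S.filter fun a => ¬ EtS (polyOf d a) n).card ≤ DD d * DD d * S.card := by
  have h1 := (lens_update (B := ZMod p)
    (⟨n, ⟨0, hd n⟩⟩ : Σ n : Fin N, Fin (d n))).upper S hS
    (fun a => ¬ EtS (polyOf d a) n) (C := DD d * DD d) (fun a _ => ?_)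
  · rwa [ZMod.card] at h1
  · let W := AlgebraicClosure (ZMod p)
    set h := polyOf d (Function.update a ⟨n, ⟨0, hd n⟩⟩ 0) n with hh
    have hdn : h.natDegree = d n := polyOf_natDegree _ n
    have hdh : derivative h ≠ 0 := derivative_ne_zero' (polyOf_monic _ _) (by rw [hdn]; exact hd n)
      (by rw [hdn]; exact lt_of_le_of_lt (deg_le hd n) hp)
    have hf0 : cmpR (polyOf d a) n ≠ 0 := by
      intro h2
      have h3 := cmpR_natDegree hd a n.2.le
      rw [h2, natDegree_zero] at h3
      exact (prod_pos fun i _ => hd i).ne h3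
    let s : Finset W := image₂ (fun c y => c - aeval y h)
      ((cmpR (polyOf d a) n).map (algebraMap (ZMod p) W)).roots.toFinset
      ((derivative h).map (algebraMap (ZMod p) W)).roots.toFinset
    have hs : s.card ≤ DD d * DD d := by
      refine (card_image₂_le _ _ _).trans (Nat.mul_le_mul (card_roots_le ?_) (card_roots_le ?_))
      · rw [natDegree_map]
        exact cmpR_deg_le hd a n.2.le
      · rw [natDegree_map]
        refine (natDegree_derivative_le _).trans ?_
        rw [hdn]
        exact (Nat.sub_le _ _).trans (deg_le hd n)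
    refine (card_le_of_roots _ s fun t ht => ?_).trans hs
    unfold EtS at ht
    push Not at ht
    obtain ⟨y, hy1, hy2⟩ := ht
    have h3 : polyOf d (Function.update a ⟨n, ⟨0, hd n⟩⟩ t) n = h + C t :=
      polyOf_update_self n ⟨0, hd n⟩ rfl a t
    rw [h3, derivative_add, derivative_C, add_zero] at hy1
    rw [cmpR, h3, aeval_comp, cmpR_congr (G' := polyOf d a) fun i hi =>
      polyOf_update_ne n ⟨0, hd n⟩ a t (by omega)] at hy2
    rw [mem_image₂]
    refine ⟨aeval y (h + C t), ?_, y, ?_, ?_⟩
    · rw [Multiset.mem_toFinset, mem_roots ((Polynomial.map_ne_zero_iff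
        (algebraMap (ZMod p) W).injective).2 hf0), IsRoot.def, eval_map_algebraMap]
      exact hy2
    · rw [Multiset.mem_toFinset, mem_roots ((Polynomial.map_ne_zero_iff
        (algebraMap (ZMod p) W).injective).2 hdh), IsRoot.def, eval_map_algebraMap]
      exact hy1
    · rw [map_add, aeval_C, add_sub_cancel_left]

open Classical in
/-- **The proportion of sequences whose composition has a root.** -/
theorem root_count (hd : ∀ n, 0 < d n) {n : ℕ} (hn : n ≤ N) :
    p ^ Fintype.card (Σ n : Fin N, Fin (d n)) ≤ DD d *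
      (univ.filter fun a : (Σ n : Fin N, Fin (d n)) → ZMod p =>
        ∃ e, (cmpR (polyOf d a) n).eval e = 0).card := by
  have hDD : 0 < DD d := prod_pos fun i _ => hd i
  have hV : p ^ Fintype.card (Σ n : Fin N, Fin (d n)) =
      (univ : Finset ((Σ n : Fin N, Fin (d n)) → ZMod p)).card := by
    rw [card_univ, Fintype.card_fun, ZMod.card]
  rcases Nat.eq_zero_or_pos n with h0 | h0
  · subst h0
    rw [filter_true_of_mem fun a _ => ⟨0, by rw [cmpR, eval_X]⟩, ← hV]
    exact Nat.le_mul_of_pos_left _ hDD
  · obtain ⟨m, rfl⟩ : ∃ m, n = m + 1 := ⟨n - 1, by omega⟩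
    have hN : 0 < N := by omega
    let k : Σ n : Fin N, Fin (d n) := ⟨⟨0, hN⟩, ⟨0, hd _⟩⟩
    have h1 := (lens_update (B := ZMod p) k).lower univ (fun _ _ _ => mem_univ _)
      (fun a => ∃ e, (cmpR (polyOf d a) (m + 1)).eval e = 0) (w := p) (c := DD d) (fun a _ => ?_)
    · rw [ZMod.card, ← hV] at h1
      have hp0 : 0 < p := (Fact.out : p.Prime).pos
      refine Nat.le_of_mul_le_mul_left (?_ : p * _ ≤ p * _) hp0
      refine h1.trans (le_of_eq ?_)
      ring
    · set Q := cmpR (polyOf d (Function.update a k 0)) (m + 1) with hQ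
      have h2 : ∀ t, cmpR (polyOf d (Function.update a k t)) (m + 1) = Q + C t := by
        intro t
        refine cmpR_add ?_ (fun i hi => ?_) m
        · exact polyOf_update_self ⟨0, hN⟩ ⟨0, hd _⟩ rfl a t
        · exact (polyOf_update_ne ⟨0, hN⟩ ⟨0, hd _⟩ a t hi).trans
            (polyOf_update_ne ⟨0, hN⟩ ⟨0, hd _⟩ a 0 hi).symm
      have hQd : 0 < Q.natDegree := by
        rw [hQ, cmpR_natDegree hd _ hn]
        exact prod_pos fun i _ => hd i
      have hQD : Q.natDegree ≤ DD d := cmpR_deg_le hd _ hn
      have h3 := card_le_mul_card_image (f := fun e : ZMod p => -(Q.eval e)) univ (DD d)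
        (fun t _ => by
          have h4 : (univ.filter fun x : ZMod p => -(Q.eval x) = t) ⊆ (Q + C t).roots.toFinset := by
            intro x hx
            rw [mem_filter] at hx
            rw [Multiset.mem_toFinset, mem_roots, IsRoot.def, eval_add, eval_C, ← hx.2,
              add_neg_cancel]
            intro h5
            have h6 := congrArg natDegree h5
            rw [natDegree_add_C, natDegree_zero] at h6
            omega
          refine (card_le_card h4).trans (card_roots_le ?_)
          rwa [natDegree_add_C])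
      rw [card_univ, ZMod.card] at h3
      refine h3.trans (Nat.mul_le_mul_left _ (card_le_card fun t ht => ?_))
      rw [mem_image] at ht
      obtain ⟨e, -, rfl⟩ := ht
      rw [mem_filter]
      refine ⟨mem_univ _, e, ?_⟩
      rw [h2, eval_add, eval_C, add_neg_cancel]

end cond

end

end Pool.Agent.H852.J
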