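import Mathlib
import Pool.Agent.H852.J.D3

/-!
# Counting sequences of polynomials with prescribed local behaviour
-/

set_option linter.unusedSectionVars false
set_option autoImplicit false

open Polynomial Finset

namespace Pool.Agent.H852.J

noncomputable section

variable {p : ℕ} [Fact p.Prime] {N : ℕ} {d : Fin N → ℕ}

open Classical in
theorem et_count (hd : ∀ n, 0 < d n) (hpD : DD d < p) (hp : 2 * (N * (DD d * DD d)) ≤ p)
    (I : Finset (Fin N)) (T : Finset ((Σ n : Fin N, Fin (d n)) → ZMod p))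
    (hT : ∀ i ∈ I, ∀ a ∈ T, ∀ t, Function.update a ⟨i, ⟨0, hd i⟩⟩ t ∈ T) :
    T.card ≤ 2 * (T.filter fun a => ∀ i ∈ I, EtS (polyOf d a) i).card := by
  have hp0 : 0 < p := (Fact.out : p.Prime).pos
  have h1 : T.card ≤ (T.filter fun a => ∀ i ∈ I, EtS (polyOf d a) i).card +
      ∑ i ∈ I, (T.filter fun a => ¬ EtS (polyOf d a) i).card := by
    rw [← card_filter_add_card_filter_not (s := T) fun a => ∀ i ∈ I, EtS (polyOf d a) i]
    refine Nat.add_le_add_left ?_ _
    refine (card_le_card ?_).trans card_biUnion_le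
    intro a ha
    rw [mem_filter] at ha
    have h2 := ha.2
    push Not at h2
    obtain ⟨i, hi, hi'⟩ := h2
    rw [mem_biUnion]
    exact ⟨i, hi, mem_filter.2 ⟨ha.1, hi'⟩⟩
  have h2 : p * ∑ i ∈ I, (T.filter fun a => ¬ EtS (polyOf d a) i).card ≤
      N * (DD d * DD d * T.card) := by
    rw [mul_sum]
    refine (sum_le_sum fun i hi => etale_count hd hpD i T (hT i hi)).trans ?_
    rw [sum_const, smul_eq_mul]
    refine Nat.mul_le_mul_right _ ?_
    have h3 := card_le_univ I
    rwa [Fintype.card_fin] at h3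
  refine Nat.le_of_mul_le_mul_left (?_ : p * _ ≤ p * _) hp0
  have h3 : 2 * (N * (DD d * DD d * T.card)) ≤ p * T.card := by
    calc 2 * (N * (DD d * DD d * T.card)) = 2 * (N * (DD d * DD d)) * T.card := by ring
      _ ≤ p * T.card := Nat.mul_le_mul_right _ hp
  have h4 := Nat.mul_le_mul_left p h1
  rw [mul_add] at h4
  have h5 : p * (2 * (T.filter fun a => ∀ i ∈ I, EtS (polyOf d a) i).card) =
      2 * (p * (T.filter fun a => ∀ i ∈ I, EtS (polyOf d a) i).card) := by ring
  rw [h5]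
  omega

open Classical in
theorem S1_count (hd : ∀ n, 0 < d n) (hpD : DD d < p)
    (hp : 2 * (N * (DD d * DD d * DD d)) ≤ p) {n : ℕ} (hn : n ≤ N) :
    p ^ Fintype.card (Σ n : Fin N, Fin (d n)) ≤ 2 * DD d *
      (univ.filter fun a : (Σ n : Fin N, Fin (d n)) → ZMod p => S1 (polyOf d a) n).card := by
  have hp0 : 0 < p := (Fact.out : p.Prime).pos
  have hV : p ^ Fintype.card (Σ n : Fin N, Fin (d n)) =
      (univ : Finset ((Σ n : Fin N, Fin (d n)) → ZMod p)).card := by
    rw [card_univ, Fintype.card_fun, ZMod.card]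
  have h0 := root_count (p := p) hd hn
  have h1 : (univ.filter fun a : (Σ n : Fin N, Fin (d n)) → ZMod p =>
        ∃ e, (cmpR (polyOf d a) n).eval e = 0).card ≤
      (univ.filter fun a : (Σ n : Fin N, Fin (d n)) → ZMod p => S1 (polyOf d a) n).card +
      ∑ i : Fin N, (univ.filter fun a : (Σ n : Fin N, Fin (d n)) → ZMod p =>
        ¬ EtS (polyOf d a) i).card := by
    refine le_trans ?_ (Nat.add_le_add_left card_biUnion_le _)
    refine le_trans (card_le_card ?_) (card_union_le _ _)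
    intro a ha
    rw [mem_filter] at ha
    rw [mem_union, mem_filter, mem_biUnion]
    by_cases h : ∀ i < n, EtS (polyOf d a) i
    · exact Or.inl ⟨mem_univ _, ha.2, h⟩
    · push Not at h
      obtain ⟨i, hi, hi'⟩ := h
      exact Or.inr ⟨⟨i, by omega⟩, mem_univ _, mem_filter.2 ⟨mem_univ _, hi'⟩⟩
  have h2 : p * ∑ i : Fin N, (univ.filter fun a : (Σ n : Fin N, Fin (d n)) → ZMod p =>
      ¬ EtS (polyOf d a) i).card ≤
      N * (DD d * DD d * p ^ Fintype.card (Σ n : Fin N, Fin (d n))) := by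
    rw [mul_sum]
    refine (sum_le_sum fun i _ => etale_count hd hpD i univ fun _ _ _ => mem_univ _).trans ?_
    rw [sum_const, smul_eq_mul, card_univ, Fintype.card_fin, hV]
  set s0 := (univ.filter fun a : (Σ n : Fin N, Fin (d n)) → ZMod p =>
        ∃ e, (cmpR (polyOf d a) n).eval e = 0).card
  set s1 := (univ.filter fun a : (Σ n : Fin N, Fin (d n)) → ZMod p => S1 (polyOf d a) n).card
  set b := ∑ i : Fin N, (univ.filter fun a : (Σ n : Fin N, Fin (d n)) → ZMod p =>
        ¬ EtS (polyOf d a) i).card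
  set V := p ^ Fintype.card (Σ n : Fin N, Fin (d n))
  set D := DD d
  refine Nat.le_of_mul_le_mul_left (?_ : p * _ ≤ p * _) hp0
  have h3 : 2 * (p * V) ≤ p * (2 * D * s1) + p * V := by
    calc 2 * (p * V) ≤ 2 * (p * (D * s0)) :=
          Nat.mul_le_mul_left _ (Nat.mul_le_mul_left _ h0)
      _ ≤ 2 * (p * (D * (s1 + b))) :=
          Nat.mul_le_mul_left _ (Nat.mul_le_mul_left _ (Nat.mul_le_mul_left _ h1))
      _ = p * (2 * D * s1) + 2 * (D * (p * b)) := by ring
      _ ≤ p * (2 * D * s1) + 2 * (D * (N * (D * D * V))) :=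
          Nat.add_le_add_left (Nat.mul_le_mul_left _ (Nat.mul_le_mul_left _ h2)) _
      _ = p * (2 * D * s1) + 2 * (N * (D * D * D)) * V := by ring
      _ ≤ _ := Nat.add_le_add_left (Nat.mul_le_mul_right _ hp) _
  omega

/-- the event at the level `n` -/
def S2 (E : (ZMod p)[X] → (ZMod p)[X] → Prop) (G : ℕ → (ZMod p)[X]) (n : ℕ) : Prop :=
  S1 G n ∧ E (cmpR G n) (G n)

theorem S2.congr {E : (ZMod p)[X] → (ZMod p)[X] → Prop} {G G' : ℕ → (ZMod p)[X]} {n : ℕ}
    (h : ∀ i ≤ n, G i = G' i) (hS : S2 E G n) : S2 E G' n := by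
  refine ⟨hS.1.congr fun i hi => h i hi.le, ?_⟩
  rw [← h n le_rfl, ← cmpR_congr fun i hi => h i hi.le]
  exact hS.2

open Classical in
theorem S2_count (hd : ∀ n, 0 < d n) (n : Fin N) (E : (ZMod p)[X] → (ZMod p)[X] → Prop) {c : ℕ}
    (hE : ∀ f : (ZMod p)[X], f ≠ 0 → f.natDegree ≤ DD d → (∃ e, f.eval e = 0) →
      p ^ d n ≤ c * (univ.filter fun u : Fin (d n) → ZMod p => E f (mkP u)).card) :
    (univ.filter fun a : (Σ n : Fin N, Fin (d n)) → ZMod p => S1 (polyOf d a) n).card ≤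
      c * (univ.filter fun a : (Σ n : Fin N, Fin (d n)) → ZMod p => S2 E (polyOf d a) n).card := by
  have hp0 : 0 < p := (Fact.out : p.Prime).pos
  have h1 := (lens_lvS (R := ZMod p) n).lower
    (univ.filter fun a : (Σ n : Fin N, Fin (d n)) → ZMod p => S1 (polyOf d a) n)
    (fun a ha u => by
      rw [mem_filter] at ha ⊢
      exact ⟨mem_univ _, ha.2.congr fun i hi => (polyOf_lvS_ne n a u (by omega)).symm⟩)
    (fun a => E (cmpR (polyOf d a) n) (polyOf d a n)) (w := p ^ d n) (c := c) (fun a ha => by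
      rw [mem_filter] at ha
      have hf0 : cmpR (polyOf d a) n ≠ 0 := by
        intro h2
        have h3 := cmpR_natDegree hd a n.2.le
        rw [h2, natDegree_zero] at h3
        exact (prod_pos fun i _ => hd i).ne h3
      refine (hE (cmpR (polyOf d a) n) hf0 (cmpR_deg_le hd a n.2.le) ha.2.1).trans
        (Nat.mul_le_mul_left _ (card_le_card fun u hu => ?_))
      rw [mem_filter] at hu ⊢
      refine ⟨mem_univ _, ?_⟩
      rw [polyOf_lvS_self, cmpR_congr (G' := polyOf d a) fun i hi =>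
        polyOf_lvS_ne n a u (by omega)]
      exact hu.2)
  rw [Fintype.card_fun, ZMod.card, Fintype.card_fin] at h1
  refine Nat.le_of_mul_le_mul_left (?_ : p ^ d n * _ ≤ p ^ d n * _) (pow_pos hp0 _)
  refine h1.trans ((Nat.mul_le_mul_left c (Nat.mul_le_mul_right _ (card_le_card
    (t := univ.filter fun a => S2 E (polyOf d a) n) fun a ha => ?_))).trans (le_of_eq ?_))
  · rw [mem_filter, mem_filter] at ha
    rw [mem_filter]
    exact ⟨mem_univ _, ha.1.2, ha.2⟩
  · ring

/-- the event of the certificate of transitivity -/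
def EA (f g : (ZMod p)[X]) : Prop := ∃ e, f.eval e = 0 ∧ Irreducible (g - C e)

/-- the event of the certificate of double transitivity -/
def EB (f g : (ZMod p)[X]) : Prop := ∃ e, f.eval e = 0 ∧ ∃ (r : ZMod p) (Q : (ZMod p)[X]),
  g - C e = (X - C r) * Q ∧ Irreducible Q ∧ Q.eval r ≠ 0

/-- the event of the node -/
def EN (f g : (ZMod p)[X]) : Prop := ∃ γ, NodeU f g γ

open Classical in
theorem A_count (hd : ∀ n, 3 ≤ d n) (hpD : DD d < p)
    (hp : 2 * (N * (DD d * DD d * DD d)) ≤ p) (hp2 : 2 * DD d ^ 2 ≤ p) (n : Fin N) :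
    p ^ Fintype.card (Σ n : Fin N, Fin (d n)) ≤ 2 * DD d * (2 * DD d) *
      (univ.filter fun a : (Σ n : Fin N, Fin (d n)) → ZMod p => S2 EA (polyOf d a) n).card := by
  have hd0 : ∀ n, 0 < d n := fun n => by have := hd n; omega
  have hle := deg_le hd0 n
  refine (S1_count hd0 hpD hp n.2.le).trans ?_
  rw [mul_assoc (2 * DD d)]
  refine Nat.mul_le_mul_left _ (S2_count hd0 n EA fun f _ _ hf => ?_)
  obtain ⟨e, he⟩ := hf
  refine (irrA_count e (hd n) (le_trans (Nat.mul_le_mul_left 2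
    (Nat.pow_le_pow_left hle 2)) hp2)).trans (Nat.mul_le_mul (Nat.mul_le_mul_left 2 hle)
      (card_le_card fun u hu => ?_))
  rw [mem_filter] at hu ⊢
  exact ⟨mem_univ _, e, he, hu.2⟩

open Classical in
theorem B_count (hd : ∀ n, 3 ≤ d n) (hpD : DD d < p)
    (hp : 2 * (N * (DD d * DD d * DD d)) ≤ p) (hp2 : 2 * DD d ^ 2 ≤ p) (n : Fin N) :
    p ^ Fintype.card (Σ n : Fin N, Fin (d n)) ≤ 2 * DD d * (2 * DD d) *
      (univ.filter fun a : (Σ n : Fin N, Fin (d n)) → ZMod p => S2 EB (polyOf d a) n).card := by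
  have hd0 : ∀ n, 0 < d n := fun n => by have := hd n; omega
  have hle := deg_le hd0 n
  refine (S1_count hd0 hpD hp n.2.le).trans ?_
  rw [mul_assoc (2 * DD d)]
  refine Nat.mul_le_mul_left _ (S2_count hd0 n EB fun f _ _ hf => ?_)
  obtain ⟨e, he⟩ := hf
  refine (irrB_count e (hd n) (le_trans (Nat.mul_le_mul_left 2
    (Nat.pow_le_pow_left hle 2)) hp2)).trans (Nat.mul_le_mul (Nat.mul_le_mul_left 2 hle)
      (card_le_card fun u hu => ?_))
  rw [mem_filter] at hu ⊢
  exact ⟨mem_univ _, e, he, hu.2⟩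

/-- one node at the level `n`, and nothing at the other levels -/
def GN (G : ℕ → (ZMod p)[X]) (N n : ℕ) : Prop :=
  (∀ i < N, i ≠ n → EtS G i) ∧ EN (cmpR G n) (G n)

open Classical in
theorem N_count (hd : ∀ n, 3 ≤ d n) (hpD : DD d < p)
    (hp : 2 * (N * (DD d * DD d * DD d)) ≤ p) (hp2 : 2 * (1 + DD d ^ 2) ≤ p) (n : Fin N) :
    p ^ Fintype.card (Σ n : Fin N, Fin (d n)) ≤ 8 * DD d * p *
      (univ.filter fun a : (Σ n : Fin N, Fin (d n)) → ZMod p => GN (polyOf d a) N n).card := by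
  have hd0 : ∀ n, 0 < d n := fun n => by have := hd n; omega
  have hDD : 0 < DD d := prod_pos fun i _ => hd0 i
  have hle := deg_le hd0 n
  have h1 := S1_count hd0 hpD hp n.2.le
  have h2 := S2_count hd0 n EN (c := 2 * p) (fun f hf0 hfD hf => by
    obtain ⟨e, he⟩ := hf
    refine (node_count hf0 hfD he (hd n) (lt_of_le_of_lt hle hpD) (le_trans ?_ hp2)).trans
      (Nat.mul_le_mul_left _ (card_le_card fun u hu => ?_))
    · rw [sq]
      exact Nat.mul_le_mul_left _ (Nat.add_le_add_left (Nat.mul_le_mul_left _ hle) _)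
    · rw [mem_filter] at hu ⊢
      exact hu)
  have hp3 : 2 * (N * (DD d * DD d)) ≤ p := by
    refine le_trans (Nat.mul_le_mul_left _ (Nat.mul_le_mul_left _ ?_)) hp
    exact Nat.le_mul_of_pos_right _ hDD
  have h3 := et_count hd0 hpD hp3 (univ.filter fun i : Fin N => n < i)
    (univ.filter fun a : (Σ n : Fin N, Fin (d n)) → ZMod p => S2 EN (polyOf d a) n)
    (fun i hi a ha t => by
      rw [mem_filter] at hi ha ⊢
      have hi2 := hi.2
      rw [Fin.lt_def] at hi2
      exact ⟨mem_univ _, ha.2.congr fun j hj => (polyOf_update_ne i _ a t (by omega)).symm⟩)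
  have h4 : ((univ.filter fun a : (Σ n : Fin N, Fin (d n)) → ZMod p =>
      S2 EN (polyOf d a) n).filter fun a =>
      ∀ i ∈ univ.filter (fun i : Fin N => n < i), EtS (polyOf d a) i).card ≤
      (univ.filter fun a : (Σ n : Fin N, Fin (d n)) → ZMod p => GN (polyOf d a) N n).card := by
    refine card_le_card fun a ha => ?_
    rw [mem_filter, mem_filter] at ha
    rw [mem_filter]
    refine ⟨mem_univ _, fun i hi hin => ?_, ha.1.2.2⟩
    rcases lt_or_gt_of_ne hin with h5 | h5
    · exact ha.1.2.1.2 i h5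
    · exact ha.2 ⟨i, hi⟩ (mem_filter.2 ⟨mem_univ _, h5⟩)
  set s := (univ.filter fun a : (Σ n : Fin N, Fin (d n)) → ZMod p => GN (polyOf d a) N n).card
  calc p ^ Fintype.card (Σ n : Fin N, Fin (d n)) ≤ 2 * DD d * _ := h1
    _ ≤ 2 * DD d * (2 * p * _) := Nat.mul_le_mul_left _ h2
    _ ≤ 2 * DD d * (2 * p * (2 * s)) := Nat.mul_le_mul_left _ (Nat.mul_le_mul_left _
        (h3.trans (Nat.mul_le_mul_left _ h4)))
    _ = 8 * DD d * p * s := by ring

open Classical in
theorem E_count (hd : ∀ n, 3 ≤ d n) (hpD : DD d < p)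
    (hp : 2 * (N * (DD d * DD d * DD d)) ≤ p) :
    p ^ Fintype.card (Σ n : Fin N, Fin (d n)) ≤ 2 *
      (univ.filter fun a : (Σ n : Fin N, Fin (d n)) → ZMod p =>
        ∀ i < N, EtS (polyOf d a) i).card := by
  have hd0 : ∀ n, 0 < d n := fun n => by have := hd n; omega
  have hDD : 0 < DD d := prod_pos fun i _ => hd0 i
  have hp3 : 2 * (N * (DD d * DD d)) ≤ p := by
    refine le_trans (Nat.mul_le_mul_left _ (Nat.mul_le_mul_left _ ?_)) hp
    exact Nat.le_mul_of_pos_right _ hDD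
  have h3 := et_count hd0 hpD hp3 univ univ (fun _ _ _ _ _ => mem_univ _)
  rw [card_univ, Fintype.card_fun, ZMod.card] at h3
  refine h3.trans (Nat.mul_le_mul_left _ (card_le_card fun a ha => ?_))
  rw [mem_filter] at ha ⊢
  exact ⟨mem_univ _, fun i hi => ha.2 ⟨i, hi⟩ (mem_univ _)⟩

end

end Pool.Agent.H852.J
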