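import Mathlib
import Pool.Agent.H852.J.D4
import Pool.Agent.H852.J.C5
import Pool.Agent.H852.J.C6

/-!
# The local conditions for integral vectors
-/

set_option linter.unusedSectionVars false
set_option autoImplicit false

open Polynomial Finset

namespace Pool.Agent.H852.J

noncomputable section

/-! ### fibres -/

theorem fibre_card {A B : Type} [AddCommGroup A] [AddCommGroup B] [Fintype A] [Fintype B]
    [DecidableEq B] (f : A →+ B) (hf : Function.Surjective f) :
    ∃ c, Fintype.card A = Fintype.card B * c ∧ ∀ (P : B → Prop) [DecidablePred P],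
      (univ.filter fun x => P (f x)).card = (univ.filter P).card * c := by
  have hfib : ∀ y, (univ.filter fun x => f x = y).card = (univ.filter fun x => f x = 0).card :=
    fun y => AddMonoidHom.card_fiber_eq_of_mem_range f (hf y) (hf 0)
  refine ⟨(univ.filter fun x => f x = 0).card, ?_, fun P _ => ?_⟩
  · rw [← card_univ, ← card_univ,
      card_eq_sum_card_fiberwise (f := f) (t := univ) (fun x _ => mem_coe.2 (mem_univ _)),
      ← smul_eq_mul, ← sum_const]
    exact sum_congr rfl fun y _ => hfib y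
  · rw [card_eq_sum_card_fiberwise (f := f) (t := univ.filter P)]
    · rw [← smul_eq_mul, ← sum_const]
      refine sum_congr rfl fun y hy => ?_
      rw [← hfib y]
      congr 1
      ext x
      rw [mem_filter] at hy
      simp only [mem_filter, mem_univ, true_and]
      constructor
      · exact fun h => h.2
      · intro h
        exact ⟨by rw [h]; exact hy.2, h⟩
    · intro x hx
      rw [mem_coe, mem_filter] at hx
      rw [mem_coe, mem_filter]
      exact ⟨mem_univ _, hx.2⟩

variable {p : ℕ} [Fact p.Prime] {N : ℕ} {d : Fin N → ℕ}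

/-- the reduction from `p ^ 2` to `p` -/
def rdH (p : ℕ) : ZMod (p ^ 2) →+* ZMod p := ZMod.castHom (dvd_pow_self p two_ne_zero) (ZMod p)

/-- one node at the level `n`, modulo `p ^ 2` -/
def GN2 (d : Fin N → ℕ) (y : (Σ n : Fin N, Fin (d n)) → ZMod (p ^ 2)) (n : ℕ) : Prop :=
  (∀ i < N, i ≠ n → EtS (polyOf d fun k => rdH p (y k)) i) ∧ ∃ γ : ZMod (p ^ 2),
    NodeU (cmpR (polyOf d fun k => rdH p (y k)) n) (polyOf d (fun k => rdH p (y k)) n)
      (rdH p γ) ∧ (cmpR (polyOf d y) (n + 1)).eval γ ≠ 0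

open Classical in
theorem N2_count (hd : ∀ n, 3 ≤ d n) (hpD : DD d < p)
    (hp : 2 * (N * (DD d * DD d * DD d)) ≤ p) (hp2 : 2 * (1 + DD d ^ 2) ≤ p) (n : Fin N) :
    (p ^ 2) ^ Fintype.card (Σ n : Fin N, Fin (d n)) ≤ 16 * DD d * p *
      (univ.filter fun y : (Σ n : Fin N, Fin (d n)) → ZMod (p ^ 2) => GN2 d y n).card := by
  have hpp : p.Prime := Fact.out
  have hN : 0 < N := by have := n.2; omega
  have hne : NeZero (p ^ 2) := ⟨pow_ne_zero 2 hpp.ne_zero⟩
  have hd0 : ∀ n, 0 < d n := fun n => by have := hd n; omega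
  have hsurj : Function.Surjective (rdH p) := ZMod.ringHom_surjective _
  let f : ((Σ n : Fin N, Fin (d n)) → ZMod (p ^ 2)) →+ ((Σ n : Fin N, Fin (d n)) → ZMod p) :=
    (rdH p).toAddMonoidHom.compLeft _
  have hf : Function.Surjective f := by
    intro z
    choose g hg using fun k => hsurj (z k)
    exact ⟨g, funext hg⟩
  have hfa : ∀ y, f y = fun k => rdH p (y k) := fun y => rfl
  obtain ⟨c, hc1, hc2⟩ := fibre_card f hf
  have h1 := hc2 (fun a => GN (polyOf d a) N n)
  rw [Fintype.card_fun, Fintype.card_fun, ZMod.card, ZMod.card] at hc1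
  have h2 := N_count (p := p) hd hpD hp hp2 n
  have hp0 : ((p : ℕ) : ZMod (p ^ 2)) ≠ 0 := by
    rw [Ne, ZMod.natCast_eq_zero_iff]
    intro h
    have h3 := Nat.le_of_dvd hpp.pos h
    have h4 := hpp.two_le
    nlinarith
  let k₀ : Σ n : Fin N, Fin (d n) := ⟨⟨0, hN⟩, ⟨0, hd0 _⟩⟩
  have h3 : (univ.filter fun y => GN (polyOf d (f y)) N n).card ≤
      2 * (univ.filter fun y : (Σ n : Fin N, Fin (d n)) → ZMod (p ^ 2) => GN2 d y n).card := by
    rw [← card_filter_add_card_filter_not (s := univ.filter fun y => GN (polyOf d (f y)) N n)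
      (fun y => GN2 d y n), two_mul]
    refine Nat.add_le_add (card_le_card fun y hy => ?_)
      (card_le_card_of_injOn (fun y => Function.update y k₀ (y k₀ + (p : ZMod (p ^ 2)))) ?_ ?_)
    · rw [mem_filter] at hy ⊢
      exact ⟨mem_univ _, hy.2⟩
    · intro y hy
      rw [mem_coe, mem_filter, mem_filter] at hy
      rw [mem_coe, mem_filter]
      refine ⟨mem_univ _, ?_⟩
      have h4 : (fun k => rdH p (Function.update y k₀ (y k₀ + (p : ZMod (p ^ 2))) k)) =
          fun k => rdH p (y k) := by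
        funext k
        by_cases hk : k = k₀
        · subst hk
          rw [Function.update_self, map_add, map_natCast, ZMod.natCast_self, add_zero]
        · rw [Function.update_of_ne hk]
      obtain ⟨⟨-, hE, γ₀, hγ₀⟩, hy2⟩ := hy
      obtain ⟨γ, rfl⟩ := hsurj γ₀
      unfold GN2
      rw [h4]
      refine ⟨hE, γ, hγ₀, ?_⟩
      have h5 : (cmpR (polyOf d y) (n + 1)).eval γ = 0 := by
        by_contra h6
        exact hy2 ⟨hE, γ, hγ₀, h6⟩
      have h6 : cmpR (polyOf d (Function.update y k₀ (y k₀ + (p : ZMod (p ^ 2))))) (n + 1) =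
          cmpR (polyOf d y) (n + 1) + C (p : ZMod (p ^ 2)) := by
        refine cmpR_add ?_ (fun i hi => polyOf_update_ne ⟨0, hN⟩ ⟨0, hd0 _⟩ y _ hi) n
        have h7 := polyOf_update_self ⟨0, hN⟩ ⟨0, hd0 _⟩ rfl y (y k₀ + (p : ZMod (p ^ 2)))
        have h8 := polyOf_update_self ⟨0, hN⟩ ⟨0, hd0 _⟩ rfl y (y k₀)
        rw [Function.update_eq_self] at h8
        refine h7.trans ?_
        rw [map_add, ← add_assoc]
        congr 1
        exact h8.symm
      rw [h6, eval_add, h5, eval_C, zero_add]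
      exact hp0
    · intro y _ y' _ h
      dsimp only at h
      funext k
      have h4 := congrFun h k
      by_cases hk : k = k₀
      · subst hk
        rw [Function.update_self, Function.update_self] at h4
        exact add_right_cancel h4
      · rwa [Function.update_of_ne hk, Function.update_of_ne hk] at h4
  rw [hc1]
  calc p ^ Fintype.card (Σ n : Fin N, Fin (d n)) * c
      ≤ (8 * DD d * p *
        (univ.filter fun a : (Σ n : Fin N, Fin (d n)) → ZMod p =>
          GN (polyOf d a) N n).card) * c := Nat.mul_le_mul_right _ h2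
    _ = 8 * DD d * p * (univ.filter fun y => GN (polyOf d (f y)) N n).card := by
      rw [h1]
      ring
    _ ≤ 8 * DD d * p * (2 * _) := Nat.mul_le_mul_left _ h3
    _ = _ := by ring

/-! ### integral vectors -/

theorem polyOf_modp (x : (Σ n : Fin N, Fin (d n)) → ℤ) (n : ℕ) :
    (polyOf d x n).map (Int.castRingHom (ZMod p)) = polyOf d (fun k => (x k : ZMod p)) n :=
  polyOf_map _ _ _

theorem cmpR_cast {R' : Type} [CommRing R'] (x : (Σ n : Fin N, Fin (d n)) → ℤ) (n : ℕ) :
    (cmpR (polyOf d x) n).map (Int.castRingHom R') =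
      cmpR (polyOf d (fun k => (x k : R'))) n := by
  rw [cmpR_map]
  congr 1
  funext m
  exact polyOf_map _ _ _

theorem cmpR_modp (x : (Σ n : Fin N, Fin (d n)) → ℤ) (n : ℕ) :
    (cmpR (polyOf d x) n).map (Int.castRingHom (ZMod p)) =
      cmpR (polyOf d (fun k => (x k : ZMod p))) n := cmpR_cast x n

theorem etaleAt_of (x : (Σ n : Fin N, Fin (d n)) → ℤ) {n : ℕ}
    (h : EtS (polyOf d fun k => (x k : ZMod p)) n) : EtaleAt p (polyOf d x) n := by
  intro y hy
  rw [← aeval_map_evZ (K := ZMod p), ← derivative_map, polyOf_modp] at hy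
  rw [← aeval_map_evZ (K := ZMod p), cmpR_modp]
  exact h y hy

theorem simple_of {G : ℕ → (ZMod p)[X]} {n : ℕ} (h : ∀ i < n, EtS G i) {e : ZMod p}
    (he : (cmpR G n).eval e = 0) : (derivative (cmpR G n)).eval e ≠ 0 := by
  have h1 := simple_root h (algebraMap (ZMod p) (AlgebraicClosure (ZMod p)) e) (by
    rw [aeval_algebraMap_apply, coe_aeval_eq_eval, he, map_zero])
  intro h2
  apply h1
  rw [aeval_algebraMap_apply, coe_aeval_eq_eval, h2, map_zero]

theorem certA_of (x : (Σ n : Fin N, Fin (d n)) → ℤ) {n : ℕ}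
    (h : S2 EA (polyOf d fun k => (x k : ZMod p)) n) : ∃ e, CertA p (polyOf d x) n e := by
  obtain ⟨⟨-, h1⟩, e, he, hi⟩ := h
  refine ⟨e, ?_, ?_, ?_⟩
  · rw [evZ_eq_eval, cmpR_modp, he]
  · rw [evZ_eq_eval, ← derivative_map, cmpR_modp]
    exact simple_of h1 he
  · rw [polyOf_modp]
    exact hi

theorem certB_of (x : (Σ n : Fin N, Fin (d n)) → ℤ) {n : ℕ}
    (h : S2 EB (polyOf d fun k => (x k : ZMod p)) n) :
    ∃ e r Q, CertB p (polyOf d x) n e r Q := by
  obtain ⟨⟨-, h1⟩, e, he, r, Q, h2, h3, h4⟩ := h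
  refine ⟨e, r, Q, ?_, ?_, ?_, h3, h4⟩
  · rw [evZ_eq_eval, cmpR_modp, he]
  · rw [evZ_eq_eval, ← derivative_map, cmpR_modp]
    exact simple_of h1 he
  · rw [polyOf_modp]
    exact h2

theorem locNode_of (x : (Σ n : Fin N, Fin (d n)) → ℤ) {n : ℕ}
    (h : GN2 d (fun k => (x k : ZMod (p ^ 2))) n) :
    ∃ γ : ℤ, LocNode p (polyOf d x) N n γ := by
  have hpp : p.Prime := Fact.out
  have hne : NeZero (p ^ 2) := ⟨pow_ne_zero 2 hpp.ne_zero⟩
  obtain ⟨hE, γ, ⟨h1, h2, h3, h4⟩, h5⟩ := h
  have hx : (fun k => rdH p ((x k : ℤ) : ZMod (p ^ 2))) = fun k => (x k : ZMod p) := by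
    funext k
    exact map_intCast (rdH p) _
  rw [hx] at hE h1 h2 h3 h4
  obtain ⟨g, rfl⟩ := ZMod.intCast_surjective γ
  rw [map_intCast] at h1 h2 h3 h4
  have hval : ∀ Q : ℤ[X], (Q.map (Int.castRingHom (ZMod p))).eval (g : ZMod p) =
      ((Q.eval g : ℤ) : ZMod p) := by
    intro Q
    rw [← evZ_eq_eval, evZ_int]
  refine ⟨g, ⟨fun i hi hin => etaleAt_of x (hE i hi hin), ?_, ?_, ?_, ?_, ?_⟩⟩
  · rw [← ZMod.intCast_zmod_eq_zero_iff_dvd, ← hval, ← derivative_map, polyOf_modp]
    exact h1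
  · rw [← ZMod.intCast_zmod_eq_zero_iff_dvd, ← hval, ← derivative_map, ← derivative_map,
      polyOf_modp]
    exact h2
  · rw [← ZMod.intCast_zmod_eq_zero_iff_dvd, ← hval, cmpR_modp, cmpR, eval_comp]
    exact h3
  · intro h6
    apply h5
    rw [← cmpR_cast, ← evZ_eq_eval, evZ_int, ZMod.intCast_zmod_eq_zero_iff_dvd, Nat.cast_pow]
    exact h6
  · intro y hy hy2
    rw [← aeval_map_evZ (K := ZMod p), ← derivative_map, polyOf_modp] at hy
    rw [← aeval_map_evZ (K := ZMod p), cmpR_modp, cmpR, aeval_comp] at hy2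
    rw [h4 y hy hy2]
    exact map_intCast (algebraMap (ZMod p) (AlgebraicClosure (ZMod p))) g

end

end Pool.Agent.H852.J
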