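import Mathlib

/-!
# Quadratic characters of products of differences
-/

set_option linter.unusedSectionVars false
set_option autoImplicit false

namespace Pool.Agent.H852.J

open Finset

section chi

variable {p : ℕ} [Fact p.Prime]

/-- the quadratic character -/
noncomputable abbrev qc (p : ℕ) [Fact p.Prime] : MulChar (ZMod p) ℤ := quadraticChar (ZMod p)

theorem qc_sq (x : ZMod p) : (qc p x) ^ 2 ≤ 1 := by
  by_cases h : x = 0
  · rw [h, quadraticChar_zero]
    norm_num
  · rw [quadraticChar_sq_one h]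

theorem sum_corr (hp : p ≠ 2) {t t' : ZMod p} (h : t ≠ t') :
    ∑ b : ZMod p, qc p (t - b) * qc p (t' - b) = -1 := by
  have hchar : ringChar (ZMod p) ≠ 2 := by rwa [ZMod.ringChar_zmod_n]
  have h0 : t - t' ≠ 0 := sub_ne_zero.2 h
  have hne : qc p ≠ 1 := quadraticChar_ne_one hchar
  have hinv : (qc p)⁻¹ = qc p := (quadraticChar_isQuadratic (ZMod p)).inv
  have h1 := jacobiSum_nontrivial_inv hne
  rw [hinv, jacobiSum] at h1
  have h2 : ∑ b : ZMod p, qc p (t - b) * qc p (t' - b) =
      ∑ x : ZMod p, qc p (-1) * (qc p x * qc p (1 - x)) := by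
    symm
    refine Fintype.sum_equiv ((Equiv.mulLeft₀ (t - t') h0).trans (Equiv.subLeft t)) _ _ fun x => ?_
    have e1 : t - (t - (t - t') * x) = (t - t') * x := by ring
    have e2 : t' - (t - (t - t') * x) = (t - t') * (-1 * (1 - x)) := by ring
    change _ = qc p (t - (t - (t - t') * x)) * qc p (t' - (t - (t - t') * x))
    rw [e1, e2, map_mul, map_mul, map_mul]
    have e3 := quadraticChar_sq_one h0
    have e4 : qc p (t - t') * qc p (t - t') = 1 := by rw [← sq]; exact e3
    linear_combination (-(qc p x) * (qc p (-1)) * qc p (1 - x)) * e4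
  rw [h2, ← mul_sum, h1]
  have h3 : (-1 : ZMod p) ≠ 0 := neg_ne_zero.2 one_ne_zero
  have h4 : qc p (-1) * qc p (-1) = 1 := by rw [← sq]; exact quadraticChar_sq_one h3
  linear_combination -h4

theorem sum_diag_le (t : ZMod p) : ∑ b : ZMod p, qc p (t - b) * qc p (t - b) ≤ p ∧
    0 ≤ ∑ b : ZMod p, qc p (t - b) * qc p (t - b) := by
  constructor
  · have h1 : ∑ b : ZMod p, qc p (t - b) * qc p (t - b) ≤ ∑ _b : ZMod p, (1 : ℤ) :=
      sum_le_sum fun b _ => by rw [← sq]; exact qc_sq _
    rw [sum_const, card_univ, ZMod.card, nsmul_eq_mul, mul_one] at h1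
    exact h1
  · exact sum_nonneg fun b _ => mul_self_nonneg _

end chi

section fns

variable {p m : ℕ} [Fact p.Prime]

/-- sums of products over independent coordinates -/
theorem sum_prod_coord (J : Finset (Fin m)) (h : ZMod p → ℤ) :
    ∑ a : Fin m → ZMod p, ∏ j ∈ J, h (a j) = p ^ (m - J.card) * (∑ b, h b) ^ J.card := by
  classical
  have h1 := Finset.prod_univ_sum (fun _ : Fin m => (univ : Finset (ZMod p)))
    (fun i b => if i ∈ J then h b else 1)
  rw [Fintype.piFinset_univ] at h1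
  have h2 : ∀ a : Fin m → ZMod p, ∏ j ∈ J, h (a j) = ∏ i, if i ∈ J then h (a i) else 1 := by
    intro a
    rw [prod_ite, prod_const_one, mul_one]
    refine prod_congr ?_ fun _ _ => rfl
    ext i
    simp
  rw [sum_congr rfl fun a _ => h2 a, ← h1]
  have h3 : ∀ i : Fin m, (∑ b : ZMod p, if i ∈ J then h b else 1) =
      if i ∈ J then ∑ b, h b else (p : ℤ) := by
    intro i
    split_ifs
    · rfl
    · rw [sum_const, card_univ, ZMod.card, nsmul_eq_mul, mul_one]
  rw [prod_congr rfl fun i _ => h3 i, prod_ite, prod_const, prod_const, mul_comm]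
  congr 2
  · have h4 : (univ.filter fun i : Fin m => i ∉ J) = univ \ J := by
      ext i
      simp
    rw [h4, card_sdiff_of_subset (subset_univ J), card_univ, Fintype.card_fin]
  · congr 1
    ext i
    simp

/-- averaging over one coordinate -/
theorem sum_shift (s : Fin m) (G : (Fin m → ZMod p) → ℤ) :
    ∑ a : Fin m → ZMod p, ∑ t : ZMod p, G (a + Pi.single s t) = p * ∑ a, G a := by
  rw [sum_comm]
  have h1 : ∀ t : ZMod p, ∑ a : Fin m → ZMod p, G (a + Pi.single s t) = ∑ a, G a := fun t =>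
    Fintype.sum_equiv (Equiv.addRight (Pi.single s t)) _ _ fun a => rfl
  rw [sum_congr rfl fun t _ => h1 t, sum_const, card_univ, ZMod.card, nsmul_eq_mul]

/-- the product of the differences -/
def PE (E : Finset {e : Fin m × Fin m // e.1 < e.2}) (a : Fin m → ZMod p) : ZMod p :=
  ∏ e ∈ E, (a e.1.1 - a e.1.2)

/-- the other end of an edge -/
def oth (s : Fin m) (e : {e : Fin m × Fin m // e.1 < e.2}) : Fin m :=
  if e.1.1 = s then e.1.2 else e.1.1

theorem oth_inj (s : Fin m) (E : Finset {e : Fin m × Fin m // e.1 < e.2}) :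
    Set.InjOn (oth s) (E.filter fun e => e.1.1 = s ∨ e.1.2 = s : Finset _) := by
  intro e he e' he' h
  rw [mem_coe, mem_filter] at he he'
  unfold oth at h
  have h1 := e.2
  have h2 := e'.2
  apply Subtype.ext
  rcases he.2 with h3 | h3 <;> rcases he'.2 with h4 | h4
  · rw [if_pos h3, if_pos h4] at h
    exact Prod.ext (h3.trans h4.symm) h
  · have h5 : e'.1.1 ≠ s := fun h6 => by rw [h6, h4] at h2; exact lt_irrefl _ h2
    rw [if_pos h3, if_neg h5] at h
    exfalso
    rw [h4, ← h] at h2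
    rw [h3] at h1
    exact lt_asymm h1 h2
  · have h5 : e.1.1 ≠ s := fun h6 => by rw [h6, h3] at h1; exact lt_irrefl _ h1
    rw [if_neg h5, if_pos h4] at h
    exfalso
    rw [h3, h] at h1
    rw [h4] at h2
    exact lt_asymm h1 h2
  · have h5 : e.1.1 ≠ s := fun h6 => by rw [h6, h3] at h1; exact lt_irrefl _ h1
    have h6 : e'.1.1 ≠ s := fun h6 => by rw [h6, h4] at h2; exact lt_irrefl _ h2
    rw [if_neg h5, if_neg h6] at h
    exact Prod.ext h (h3.trans h4.symm)

/-- **The character sum.** -/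
theorem char_sum (hp : p ≠ 2) {E : Finset {e : Fin m × Fin m // e.1 < e.2}} (hE : E.Nonempty) :
    (∑ a : Fin m → ZMod p, qc p (PE E a)) ^ 2 * p ≤ 2 * (p : ℤ) ^ (2 * m) := by
  obtain ⟨e₀, he₀⟩ := hE
  set s := e₀.1.1 with hs
  set E₁ := E.filter fun e => e.1.1 = s ∨ e.1.2 = s with hE₁
  set E₂ := E.filter fun e => ¬ (e.1.1 = s ∨ e.1.2 = s) with hE₂
  set J := E₁.image (oth s) with hJ
  have hp1 : (1 : ℤ) ≤ p := by exact_mod_cast (Fact.out : p.Prime).one_lt.le
  have hJc : 0 < J.card := card_pos.2 ⟨oth s e₀, mem_image_of_mem _ (mem_filter.2 ⟨he₀, Or.inl rfl⟩)⟩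
  have hJm : J.card ≤ m := (card_le_univ J).trans (Fintype.card_fin m).le
  have hsJ : ∀ e ∈ E₁, oth s e ≠ s := by
    intro e he
    rw [hE₁, mem_filter] at he
    have h1 := e.2
    unfold oth
    split_ifs with h
    · intro h2
      rw [h, h2] at h1
      exact lt_irrefl _ h1
    · exact h
  -- the factorization
  set c : ℤ := ∏ e ∈ E₁, if e.1.1 = s then 1 else qc p (-1) with hc
  have hc2 : c ^ 2 ≤ 1 := by
    rw [hc, ← prod_pow]
    refine prod_le_one (fun e _ => sq_nonneg _) fun e _ => ?_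
    split_ifs
    · norm_num
    · exact qc_sq _
  set S : (Fin m → ZMod p) → ℤ := fun a => ∑ t : ZMod p, ∏ j ∈ J, qc p (t - a j) with hS
  set g : (Fin m → ZMod p) → ℤ := fun a => c * ∏ e ∈ E₂, qc p (a e.1.1 - a e.1.2) with hg
  have hg2 : ∀ a, g a ^ 2 ≤ 1 := by
    intro a
    rw [hg]
    change (c * ∏ e ∈ E₂, qc p (a e.1.1 - a e.1.2)) ^ 2 ≤ 1
    rw [mul_pow]
    have h1 : (∏ e ∈ E₂, qc p (a e.1.1 - a e.1.2)) ^ 2 ≤ 1 := by
      rw [← prod_pow]
      exact prod_le_one (fun e _ => sq_nonneg _) fun e _ => qc_sq _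
    nlinarith [sq_nonneg c, sq_nonneg (∏ e ∈ E₂, qc p (a e.1.1 - a e.1.2))]
  have hfac : ∀ a : Fin m → ZMod p, ∑ t : ZMod p, qc p (PE E (a + Pi.single s t)) = g a * S a := by
    intro a
    have h1 : ∀ t : ZMod p, qc p (PE E (a + Pi.single s t)) =
        g a * ∏ j ∈ J, qc p ((a s + t) - a j) := by
      intro t
      set b := a + Pi.single s t with hb
      have hbs : b s = a s + t := by rw [hb, Pi.add_apply, Pi.single_eq_same]
      have hbj : ∀ j, j ≠ s → b j = a j := fun j hj => by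
        rw [hb, Pi.add_apply, Pi.single_eq_of_ne hj, add_zero]
      unfold PE
      rw [map_prod, ← prod_filter_mul_prod_filter_not E (fun e => e.1.1 = s ∨ e.1.2 = s)]
      rw [← hE₁, ← hE₂]
      have h2 : ∏ e ∈ E₂, qc p (b e.1.1 - b e.1.2) = ∏ e ∈ E₂, qc p (a e.1.1 - a e.1.2) := by
        refine prod_congr rfl fun e he => ?_
        rw [hE₂, mem_filter, not_or] at he
        rw [hbj _ he.2.1, hbj _ he.2.2]
      have h3 : ∏ e ∈ E₁, qc p (b e.1.1 - b e.1.2) = c * ∏ j ∈ J, qc p ((a s + t) - a j) := by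
        rw [hJ, prod_image (oth_inj s E), hc, ← prod_mul_distrib]
        refine prod_congr rfl fun e he => ?_
        have h4 := hsJ e he
        rw [hE₁, mem_filter] at he
        by_cases h5 : e.1.1 = s
        · have h6 : oth s e = e.1.2 := if_pos h5
          rw [h6] at h4
          rw [if_pos h5, one_mul, h6, h5, hbs, hbj _ h4]
        · have h6 : oth s e = e.1.1 := if_neg h5
          have h7 : e.1.2 = s := he.2.resolve_left h5
          rw [if_neg h5, h6, h7, hbs, hbj _ h5, ← map_mul]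
          congr 1
          ring
      rw [h2, h3, hg]
      ring
    rw [sum_congr rfl fun t _ => h1 t, ← mul_sum, hS]
    congr 1
    exact Fintype.sum_equiv (Equiv.addLeft (a s)) _ _ fun t => rfl
  have hmain : (p : ℤ) * ∑ a : Fin m → ZMod p, qc p (PE E a) = ∑ a, g a * S a := by
    rw [← sum_shift s]
    exact sum_congr rfl fun a _ => hfac a
  -- the second moment
  have hSS : ∑ a : Fin m → ZMod p, S a ^ 2 ≤ 2 * (p : ℤ) ^ (m + 1) := by
    have h1 : ∀ a : Fin m → ZMod p, S a ^ 2 = ∑ t : ZMod p, ∑ t' : ZMod p,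
        ∏ j ∈ J, (fun b => qc p (t - b) * qc p (t' - b)) (a j) := by
      intro a
      rw [sq, hS]
      change (∑ t : ZMod p, ∏ j ∈ J, qc p (t - a j)) * (∑ t : ZMod p, ∏ j ∈ J, qc p (t - a j)) = _
      rw [sum_mul_sum]
      refine sum_congr rfl fun t _ => sum_congr rfl fun t' _ => ?_
      rw [← prod_mul_distrib]
    rw [sum_congr rfl fun a _ => h1 a, sum_comm]
    have h2 : ∀ t : ZMod p, ∑ a : Fin m → ZMod p, ∑ t' : ZMod p,
        ∏ j ∈ J, (fun b => qc p (t - b) * qc p (t' - b)) (a j) ≤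
        (p : ℤ) ^ m + (p : ℤ) * p ^ (m - J.card) := by
      intro t
      rw [sum_comm]
      have h3 : ∀ t' : ZMod p, ∑ a : Fin m → ZMod p,
          ∏ j ∈ J, (fun b => qc p (t - b) * qc p (t' - b)) (a j) ≤
          (if t = t' then (p : ℤ) ^ m else 0) + p ^ (m - J.card) := by
        intro t'
        rw [sum_prod_coord J (fun b => qc p (t - b) * qc p (t' - b))]
        by_cases h : t = t'
        · subst h
          rw [if_pos rfl]
          have h4 := sum_diag_le t
          have h5 : (∑ b : ZMod p, qc p (t - b) * qc p (t - b)) ^ J.card ≤ (p : ℤ) ^ J.card :=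
            pow_le_pow_left₀ h4.2 h4.1 _
          have h6 : (p : ℤ) ^ (m - J.card) * (p : ℤ) ^ J.card = p ^ m := by
            rw [← pow_add, Nat.sub_add_cancel hJm]
          have h7 : (0 : ℤ) ≤ (p : ℤ) ^ (m - J.card) := by positivity
          nlinarith [mul_le_mul_of_nonneg_left h5 h7]
        · rw [if_neg h, sum_corr hp h, zero_add]
          have h4 : (-1 : ℤ) ^ J.card ≤ 1 := by
            rcases neg_one_pow_eq_or ℤ J.card with h | h <;> rw [h] <;> norm_num
          have h7 : (0 : ℤ) ≤ (p : ℤ) ^ (m - J.card) := by positivity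
          nlinarith
      refine (sum_le_sum fun t' _ => h3 t').trans ?_
      rw [sum_add_distrib, sum_ite_eq, if_pos (mem_univ t), sum_const, card_univ, ZMod.card,
        nsmul_eq_mul]
    refine (sum_le_sum fun t _ => h2 t).trans ?_
    rw [sum_const, card_univ, ZMod.card, nsmul_eq_mul, mul_add]
    have h3 : (p : ℤ) * (p * p ^ (m - J.card)) ≤ p ^ (m + 1) := by
      rw [← mul_assoc, ← sq, ← pow_add]
      exact pow_le_pow_right₀ hp1 (by omega)
    have h4 : (p : ℤ) * p ^ m = p ^ (m + 1) := by ring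
    rw [h4]
    linarith
  have hCS : (∑ a : Fin m → ZMod p, g a * S a) ^ 2 ≤ (p : ℤ) ^ m * (2 * (p : ℤ) ^ (m + 1)) := by
    refine (sum_mul_sq_le_sq_mul_sq _ _ _).trans ?_
    have h1 : ∑ a : Fin m → ZMod p, g a ^ 2 ≤ (p : ℤ) ^ m := by
      refine (sum_le_sum fun a _ => hg2 a).trans ?_
      rw [sum_const, card_univ, nsmul_eq_mul, mul_one, Fintype.card_fun, ZMod.card,
        Fintype.card_fin]
      push_cast
      exact le_rfl
    have h2 : (0 : ℤ) ≤ ∑ a : Fin m → ZMod p, S a ^ 2 := sum_nonneg fun a _ => sq_nonneg _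
    have h3 : (0 : ℤ) ≤ (p : ℤ) ^ m := by positivity
    exact mul_le_mul h1 hSS h2 h3
  rw [← hmain, mul_pow] at hCS
  have hp0 : (0 : ℤ) < p := by linarith
  have h5 : (p : ℤ) ^ m * (2 * (p : ℤ) ^ (m + 1)) = p * (2 * (p : ℤ) ^ (2 * m)) := by ring
  rw [h5, sq (p : ℤ), mul_assoc] at hCS
  have h6 := le_of_mul_le_mul_left hCS hp0
  linarith

end fns

end Pool.Agent.H852.J
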