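import Mathlib

/-!
# Almost all integral vectors have differences with private prime factors
-/

set_option linter.unusedSectionVars false
set_option autoImplicit false

namespace Pool.Agent.H852.J

open Finset

section count

variable {m : ℕ}

/-- the box -/
noncomputable def box (m H : ℕ) : Finset (Fin m → ℤ) := Fintype.piFinset fun _ => Icc (-(H : ℤ)) H

theorem mem_box {H : ℕ} {α : Fin m → ℤ} : α ∈ box m H ↔ ∀ i, -(H : ℤ) ≤ α i ∧ α i ≤ H := by
  unfold box
  rw [Fintype.mem_piFinset]
  exact forall_congr' fun i => mem_Icc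

theorem card_box (m H : ℕ) : (box m H).card = (2 * H + 1) ^ m := by
  unfold box
  rw [Fintype.card_piFinset]
  simp only [Int.card_Icc, prod_const, card_univ, Fintype.card_fin]
  congr 1
  omega

/-- the box with some coordinates equal to zero -/
noncomputable def boxz (H : ℕ) (Z : Finset (Fin m)) : Finset (Fin m → ℤ) :=
  Fintype.piFinset fun i => if i ∈ Z then {0} else Icc (-(H : ℤ)) H

theorem card_boxz (H : ℕ) (Z : Finset (Fin m)) :
    (boxz H Z).card = (2 * H + 1) ^ (m - Z.card) := by
  unfold boxz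
  rw [Fintype.card_piFinset]
  have h1 : ∀ i : Fin m, (if i ∈ Z then ({0} : Finset ℤ) else Icc (-(H : ℤ)) H).card =
      if i ∈ Z then 1 else 2 * H + 1 := by
    intro i
    split_ifs
    · rfl
    · rw [Int.card_Icc]
      omega
  rw [prod_congr rfl fun i _ => h1 i, prod_ite]
  simp only [prod_const_one, prod_const, one_mul]
  congr 1
  have h2 : (univ.filter fun i : Fin m => i ∉ Z) = univ \ Z := by
    ext i
    simp
  rw [h2, card_sdiff_of_subset (subset_univ Z), card_univ, Fintype.card_fin]

theorem mem_boxz {H : ℕ} {Z : Finset (Fin m)} {α : Fin m → ℤ} (h : α ∈ box m H) :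
    (fun i => if i ∈ Z then 0 else α i) ∈ boxz H Z := by
  unfold boxz
  rw [Fintype.mem_piFinset]
  intro i
  rw [mem_box] at h
  by_cases hi : i ∈ Z
  · simp [hi]
  · simp only [hi, if_false, mem_Icc]
    exact h i

/-- the first count -/
theorem count_one (H : ℕ) (i j : Fin m) (hij : i ≠ j) (S : Finset ℤ) :
    ((box m H).filter fun α => α i - α j ∈ S).card ≤ S.card * (2 * H + 1) ^ (m - 1) := by
  have h1 : (S ×ˢ boxz H {i}).card = S.card * (2 * H + 1) ^ (m - 1) := by
    rw [card_product, card_boxz, card_singleton]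
  rw [← h1]
  refine card_le_card_of_injOn
    (fun α => (α i - α j, fun k => if k ∈ ({i} : Finset (Fin m)) then 0 else α k)) ?_ ?_
  · intro α hα
    rw [mem_coe, mem_filter] at hα
    rw [mem_coe, mem_product]
    exact ⟨hα.2, mem_boxz hα.1⟩
  · intro α _ β _ h
    simp only [Prod.mk.injEq] at h
    obtain ⟨h2, h3⟩ := h
    have h4 : ∀ k, k ≠ i → α k = β k := by
      intro k hk
      have h5 := congrFun h3 k
      simpa [hk] using h5
    funext k
    by_cases hk : k = i
    · subst hk
      have h5 := h4 j hij.symm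
      omega
    · exact h4 k hk

theorem eq_of_floor {p : ℕ} (hp : 0 < p) {H : ℕ} {x y : ℤ} (h : (x + H) / p = (y + H) / p)
    (hd : (p : ℤ) ∣ x - y) : x = y := by
  obtain ⟨q, hq⟩ := hd
  have hp' : (p : ℤ) ≠ 0 := by exact_mod_cast hp.ne'
  have h1 : x + H = (y + H) + p * q := by omega
  rw [h1, Int.add_mul_ediv_left _ _ hp'] at h
  have h2 : q = 0 := by omega
  rw [h2] at hq
  omega

/-- the second count -/
theorem count_two (H : ℕ) {i j k l : Fin m} (hij : i ≠ j) (hkl : k ≠ l) (hli : l ≠ i)
    (hlj : l ≠ j) {p : ℕ} (hp : 0 < p) :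
    ((box m H).filter fun α => (p : ℤ) ∣ α i - α j ∧ (p : ℤ) ∣ α k - α l).card ≤
      (2 * H / p + 1) ^ 2 * (2 * H + 1) ^ (m - 2) := by
  set R : Finset ℤ := Icc 0 ((2 * H / p : ℕ) : ℤ) with hR
  have hRc : R.card = 2 * H / p + 1 := by
    have h0 : (((2 * H / p : ℕ) : ℤ) + 1 - 0) = ((2 * H / p + 1 : ℕ) : ℤ) := by
      push_cast
      ring
    rw [hR, Int.card_Icc, h0, Int.toNat_natCast]
  have h1 : (R ×ˢ R ×ˢ boxz H {l, j}).card = (2 * H / p + 1) ^ 2 * (2 * H + 1) ^ (m - 2) := by
    rw [card_product, card_product, card_boxz, card_pair hlj, hRc]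
    ring
  rw [← h1]
  have hfl : ∀ x : ℤ, -(H : ℤ) ≤ x ∧ x ≤ H → (x + H) / p ∈ R := by
    intro x hx
    rw [hR, mem_Icc]
    have hp' : (0 : ℤ) < p := by exact_mod_cast hp
    refine ⟨Int.ediv_nonneg (by omega) hp'.le, ?_⟩
    push_cast
    exact Int.ediv_le_ediv hp' (by omega)
  refine card_le_card_of_injOn
    (fun α => ((α l + H) / p, (α j + H) / p,
      fun x => if x ∈ ({l, j} : Finset (Fin m)) then 0 else α x)) ?_ ?_
  · intro α hα
    rw [mem_coe, mem_filter] at hα
    rw [mem_coe, mem_product, mem_product]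
    have h2 := mem_box.1 hα.1
    exact ⟨hfl _ (h2 l), hfl _ (h2 j), mem_boxz hα.1⟩
  · intro α hα β hβ h
    rw [mem_coe, mem_filter] at hα hβ
    simp only [Prod.mk.injEq] at h
    obtain ⟨h2, h3, h4⟩ := h
    have h5 : ∀ x, x ≠ l → x ≠ j → α x = β x := by
      intro x hx hx'
      have h6 := congrFun h4 x
      simpa [hx, hx'] using h6
    have h6 : α i = β i := h5 i hli.symm hij
    have h7 : α j = β j := by
      refine eq_of_floor hp h3 ?_
      obtain ⟨q, hq⟩ := hα.2.1
      obtain ⟨q', hq'⟩ := hβ.2.1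
      exact ⟨q' - q, by rw [mul_sub, ← hq, ← hq', h6]; ring⟩
    have h8 : α k = β k := by
      by_cases hkj : k = j
      · rw [hkj, h7]
      · exact h5 k hkl hkj
    have h9 : α l = β l := by
      refine eq_of_floor hp h2 ?_
      obtain ⟨q, hq⟩ := hα.2.2
      obtain ⟨q', hq'⟩ := hβ.2.2
      exact ⟨q' - q, by rw [mul_sub, ← hq, ← hq', h8]; ring⟩
    funext x
    by_cases hx : x = l
    · rw [hx, h9]
    · by_cases hx' : x = j
      · rw [hx', h7]
      · exact h5 x hx hx'

end count

/-! ### integers without large prime factors of odd multiplicity -/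

/-- `n ≠ 0` has a prime factor larger than `y` with odd multiplicity -/
def OddFactor (y : ℕ) (n : ℤ) (p : ℕ) : Prop :=
  p.Prime ∧ y < p ∧ ∃ a b : ℤ, a ≠ 0 ∧ n = a ^ 2 * p * b ∧ ¬ (p : ℤ) ∣ b

/-- the product of the primes up to `y` -/
theorem dvd_primorial {a y : ℕ} (ha : Squarefree a) (h : ∀ p, p.Prime → p ∣ a → p ≤ y) :
    a ∣ primorial y := by
  rw [← Nat.prod_primeFactors_of_squarefree ha]
  refine prod_dvd_prod_of_subset _ _ _ fun p hp => ?_
  rw [Nat.mem_primeFactors] at hp
  rw [mem_filter, mem_range]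
  exact ⟨by have := h p hp.1 hp.2.1; omega, hp.1⟩

open Classical in
theorem count_smooth (y X : ℕ) :
    ((Icc (-(X : ℤ)) X).filter fun n => ¬ ∃ p, OddFactor y n p).card ≤
      1 + 2 * ((primorial y).divisors.card * (X.sqrt + 1)) := by
  set D := (primorial y).divisors ×ˢ range (X.sqrt + 1) with hD
  have hDc : D.card = (primorial y).divisors.card * (X.sqrt + 1) := by
    rw [hD, card_product, card_range]
  have h1 : ((Icc (-(X : ℤ)) X).filter fun n => ¬ ∃ p, OddFactor y n p) ⊆
      {0} ∪ (D.image (fun x => ((x.2 ^ 2 * x.1 : ℕ) : ℤ)) ∪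
        D.image (fun x => -((x.2 ^ 2 * x.1 : ℕ) : ℤ))) := by
    intro n hn
    rw [mem_filter, mem_Icc] at hn
    obtain ⟨⟨hn1, hn2⟩, hn3⟩ := hn
    rw [mem_union, mem_singleton, mem_union, mem_image, mem_image]
    by_cases h0 : n = 0
    · exact Or.inl h0
    right
    obtain ⟨a, b, ha, hb, hab, hsq⟩ := Nat.sq_mul_squarefree_of_pos (Int.natAbs_pos.2 h0)
    have hsmall : ∀ p, p.Prime → p ∣ a → p ≤ y := by
      intro p hp hpa
      by_contra hlt
      push Not at hlt
      obtain ⟨e, rfl⟩ := hpa
      refine hn3 ⟨p, hp, hlt, b, e * n.sign, by exact_mod_cast hb.ne', ?_, fun h => ?_⟩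
      · have h2 : n = n.natAbs * n.sign := by
          rw [mul_comm]
          exact (Int.sign_mul_natAbs n).symm
        conv_lhs => rw [h2, ← hab]
        push_cast
        ring
      · have h2 : (p : ℤ) ∣ e := by
          have h3 : n.sign * n.sign = 1 := by
            rcases lt_or_gt_of_ne h0 with h4 | h4
            · rw [Int.sign_eq_neg_one_of_neg h4]
              norm_num
            · rw [Int.sign_eq_one_of_pos h4]
              norm_num
          have h4 : (e : ℤ) = (e * n.sign) * n.sign := by rw [mul_assoc, h3, mul_one]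
          rw [h4]
          exact Dvd.dvd.mul_right h _
        have h3 : p ∣ e := by exact_mod_cast h2
        obtain ⟨e', rfl⟩ := h3
        have h4 : IsUnit p := hsq p ⟨e', by ring⟩
        exact hp.not_isUnit h4
    have hmem : (a, b) ∈ D := by
      rw [hD, mem_product, Nat.mem_divisors, mem_range]
      refine ⟨⟨dvd_primorial hsq hsmall, (primorial_pos y).ne'⟩, ?_⟩
      have h2 : b * b ≤ X := by
        have h3 : b * b ≤ n.natAbs := by
          rw [← hab]
          nlinarith
        omega
      exact Nat.lt_succ_of_le (Nat.le_sqrt.2 h2)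
    rcases le_or_gt 0 n with h4 | h4
    · left
      refine ⟨(a, b), hmem, ?_⟩
      change ((b ^ 2 * a : ℕ) : ℤ) = n
      rw [hab]
      omega
    · right
      refine ⟨(a, b), hmem, ?_⟩
      change -((b ^ 2 * a : ℕ) : ℤ) = n
      rw [hab]
      omega
  refine (card_le_card h1).trans ((card_union_le _ _).trans ?_)
  rw [card_singleton, two_mul]
  refine Nat.add_le_add_left ((card_union_le _ _).trans ?_) _
  rw [← hDc]
  exact Nat.add_le_add card_image_le card_image_le

end Pool.Agent.H852.J
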