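import Mathlib
import Pool.Agent.H852.J.F2
import Pool.Agent.H852.J.F3
import Pool.Agent.H852.J.H6

/-!
# Almost all integral vectors give independent differences
-/

set_option linter.unusedSectionVars false
set_option autoImplicit false

namespace Pool.Agent.H852.J

open Finset NumberField

section local_count

variable {p m : ℕ} [Fact p.Prime]

theorem card_eq_le (i j : Fin m) (hij : i ≠ j) :
    p * (univ.filter fun a : Fin m → ZMod p => a i = a j).card ≤ p ^ m := by
  have h1 : ((univ : Finset (ZMod p)) ×ˢ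
      (univ.filter fun a : Fin m → ZMod p => a i = a j)).card ≤
      (univ : Finset (Fin m → ZMod p)).card := by
    refine card_le_card_of_injOn (fun x => x.2 + Pi.single i x.1) (fun x _ => mem_univ _) ?_
    rintro ⟨t, a⟩ hx ⟨t', a'⟩ hy h
    rw [mem_coe, mem_product, mem_filter] at hx hy
    have h2 : ∀ k, a k + (Pi.single i t : Fin m → ZMod p) k =
        a' k + (Pi.single i t' : Fin m → ZMod p) k := fun k => congrFun h k
    have h3 := h2 i
    have h4 := h2 j
    rw [Pi.single_eq_same, Pi.single_eq_same] at h3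
    rw [Pi.single_eq_of_ne hij.symm, Pi.single_eq_of_ne hij.symm, add_zero, add_zero] at h4
    have h5 : t = t' := by
      have h6 : a i = a j := hx.2.2
      have h7 : a' i = a' j := hy.2.2
      rw [h6, h7, h4] at h3
      exact add_left_cancel h3
    subst h5
    have h6 : a = a' := funext fun k => add_right_cancel (h2 k)
    rw [h6]
  rwa [card_product, card_univ, card_univ, ZMod.card, Fintype.card_fun, ZMod.card,
    Fintype.card_fin] at h1

/-- **The proportion of vectors with a value which is not a nonsquare.** -/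
theorem local_count (hp32 : 32 ≤ p) {E : Finset {e : Fin m × Fin m // e.1 < e.2}}
    (hE : E.Nonempty) (hpE : 4 * E.card ≤ p) :
    4 * (univ.filter fun a : Fin m → ZMod p => qc p (PE E a) ≠ -1).card ≤ 3 * p ^ m := by
  have hp2 : p ≠ 2 := by omega
  have hp0 : 0 < p := by omega
  -- the zeros
  have hz : p * (univ.filter fun a : Fin m → ZMod p => PE E a = 0).card ≤ E.card * p ^ m := by
    have h1 : (univ.filter fun a : Fin m → ZMod p => PE E a = 0) ⊆
        E.biUnion fun e => univ.filter fun a : Fin m → ZMod p => a e.1.1 = a e.1.2 := by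
      intro a ha
      rw [mem_filter] at ha
      obtain ⟨e, he, he'⟩ := prod_eq_zero_iff.1 ha.2
      rw [mem_biUnion]
      exact ⟨e, he, mem_filter.2 ⟨mem_univ a, sub_eq_zero.1 he'⟩⟩
    refine (Nat.mul_le_mul_left p ((card_le_card h1).trans card_biUnion_le)).trans ?_
    rw [mul_sum, ← smul_eq_mul E.card, ← sum_const]
    exact sum_le_sum fun e _ => card_eq_le _ _ e.2.ne
  have hz' : 4 * (univ.filter fun a : Fin m → ZMod p => PE E a = 0).card ≤ p ^ m := by
    have h1 : p * (4 * (univ.filter fun a : Fin m → ZMod p => PE E a = 0).card) ≤ p * p ^ m := by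
      calc p * (4 * (univ.filter fun a : Fin m → ZMod p => PE E a = 0).card)
          = 4 * (p * (univ.filter fun a : Fin m → ZMod p => PE E a = 0).card) := by ring
        _ ≤ 4 * (E.card * p ^ m) := Nat.mul_le_mul_left _ hz
        _ = (4 * E.card) * p ^ m := by ring
        _ ≤ p * p ^ m := Nat.mul_le_mul_right _ hpE
    exact Nat.le_of_mul_le_mul_left h1 hp0
  -- the character sum
  set SS : ℤ := ∑ a : Fin m → ZMod p, qc p (PE E a) with hSS
  have hs : 4 * |SS| ≤ (p : ℤ) ^ m := by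
    have h1 := char_sum (m := m) hp2 hE
    rw [← hSS] at h1
    have h2 : (4 * |SS|) ^ 2 ≤ ((p : ℤ) ^ m) ^ 2 := by
      have hpp : (32 : ℤ) ≤ p := by exact_mod_cast hp32
      rw [mul_pow, sq_abs, ← pow_mul, mul_comm m 2]
      have h3 : (0 : ℤ) ≤ SS ^ 2 := sq_nonneg _
      nlinarith
    exact abs_le_of_sq_le_sq' h2 (by positivity) |>.2
  -- counting
  have hcount : ∑ a : Fin m → ZMod p, (1 - qc p (PE E a)) ≤
      2 * ((univ.filter fun a : Fin m → ZMod p => ¬ qc p (PE E a) ≠ -1).card : ℤ) +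
      ((univ.filter fun a : Fin m → ZMod p => PE E a = 0).card : ℤ) := by
    rw [card_filter, card_filter]
    push_cast
    rw [mul_sum, ← sum_add_distrib]
    refine sum_le_sum fun a _ => ?_
    by_cases h0 : PE E a = 0
    · rw [h0, quadraticChar_zero]
      simp
    · rcases quadraticChar_dichotomy h0 with h | h <;> rw [h] <;> simp [h0]
  have htot := card_filter_add_card_filter_not (s := (univ : Finset (Fin m → ZMod p)))
    (fun a => qc p (PE E a) ≠ -1)
  rw [card_univ, Fintype.card_fun, ZMod.card, Fintype.card_fin] at htot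
  have h1 : ∑ a : Fin m → ZMod p, (1 - qc p (PE E a)) = (p : ℤ) ^ m - SS := by
    rw [sum_sub_distrib, sum_const, card_univ, Fintype.card_fun, ZMod.card, Fintype.card_fin,
      nsmul_eq_mul, mul_one]
    push_cast
    rfl
  rw [h1] at hcount
  have h2 : SS ≤ |SS| := le_abs_self _
  zify at hz' htot ⊢
  linarith

/-- transport to a larger space -/
theorem fiber_count {κ : Type} [Fintype κ] [DecidableEq κ] (f : (κ → ZMod p) →+ (Fin m → ZMod p))
    (hf : Function.Surjective f) (P : (Fin m → ZMod p) → Prop) [DecidablePred P]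
    (hP : 4 * (univ.filter P).card ≤ 3 * p ^ m) :
    4 * (univ.filter fun x => P (f x)).card ≤ 3 * p ^ Fintype.card κ := by
  have hfib : ∀ y, (univ.filter fun x => f x = y).card = (univ.filter fun x => f x = 0).card :=
    fun y => AddMonoidHom.card_fiber_eq_of_mem_range f (hf y) (hf 0)
  set c := (univ.filter fun x => f x = 0).card with hc
  have h1 : (univ.filter fun x => P (f x)).card = (univ.filter P).card * c := by
    rw [card_eq_sum_card_fiberwise (f := f) (t := univ.filter P)]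
    · rw [← smul_eq_mul, ← sum_const]
      refine sum_congr rfl fun y hy => ?_
      rw [← hfib y]
      congr 1
      ext x
      rw [mem_filter] at hy
      simp only [mem_filter, mem_univ, true_and]
      constructor
      · exact fun h => h.2
      · intro h
        exact ⟨by rw [h]; exact hy.2, h⟩
    · intro x hx
      rw [mem_coe, mem_filter] at hx
      rw [mem_coe, mem_filter]
      exact ⟨mem_univ _, hx.2⟩
  have h2 : p ^ Fintype.card κ = p ^ m * c := by
    have h3 : (univ : Finset (κ → ZMod p)).card = (univ : Finset (Fin m → ZMod p)).card * c := by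
      rw [card_eq_sum_card_fiberwise (f := f) (t := univ) (fun x _ => mem_coe.2 (mem_univ _)),
        ← smul_eq_mul, ← sum_const]
      exact sum_congr rfl fun y _ => hfib y
    rwa [card_univ, card_univ, Fintype.card_fun, Fintype.card_fun, ZMod.card,
      Fintype.card_fin] at h3
  rw [h1, h2]
  calc 4 * ((univ.filter P).card * c) = (4 * (univ.filter P).card) * c := by ring
    _ ≤ (3 * p ^ m) * c := Nat.mul_le_mul_right _ hP
    _ = 3 * (p ^ m * c) := by ring

end local_count

section crt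

variable {κ : Type} [Fintype κ] [DecidableEq κ]

/-- the box -/
noncomputable def boxK (κ : Type) [Fintype κ] [DecidableEq κ] (H : ℕ) : Finset (κ → ℤ) :=
  Fintype.piFinset fun _ => Icc (-(H : ℤ)) H

theorem mem_boxK {H : ℕ} {x : κ → ℤ} : x ∈ boxK κ H ↔ ∀ k, -(H : ℤ) ≤ x k ∧ x k ≤ H := by
  unfold boxK
  rw [Fintype.mem_piFinset]
  exact forall_congr' fun k => mem_Icc

open Classical in
/-- **Vectors in a box with residues in given sets.** -/
theorem count_crt (t : Finset ℕ) (ht : ∀ p ∈ t, p.Prime) (B : ∀ p : ℕ, Finset (κ → ZMod p))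
    (H : ℕ) :
    ((boxK κ H).filter fun x => ∀ p ∈ t, (fun k => (x k : ZMod p)) ∈ B p).card ≤
      (∏ p ∈ t, (B p).card) * (2 * H / (∏ p ∈ t, p) + 1) ^ Fintype.card κ := by
  set Q := ∏ p ∈ t, p with hQ
  have hQ0 : 0 < Q := prod_pos fun p hp => (ht p hp).pos
  have h1 : ((Fintype.piFinset fun p : t => B p) ×ˢ
      (Fintype.piFinset fun _ : κ => (Icc 0 ((2 * H / Q : ℕ) : ℤ)))).card =
      (∏ p ∈ t, (B p).card) * (2 * H / Q + 1) ^ Fintype.card κ := by
    rw [card_product, Fintype.card_piFinset, Fintype.card_piFinset, prod_const, card_univ,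
      Int.card_Icc, prod_coe_sort t fun p => (B p).card]
    congr 2
  rw [← h1]
  refine card_le_card_of_injOn
    (fun x => ((fun p : t => fun k => (x k : ZMod p)), fun k => (x k + H) / Q)) ?_ ?_
  · intro x hx
    rw [mem_coe, mem_filter, mem_boxK] at hx
    rw [mem_coe, mem_product, Fintype.mem_piFinset, Fintype.mem_piFinset]
    refine ⟨fun p => hx.2 p p.2, fun k => ?_⟩
    rw [mem_Icc]
    have h2 := hx.1 k
    have hp' : (0 : ℤ) < Q := by exact_mod_cast hQ0
    refine ⟨Int.ediv_nonneg (by omega) hp'.le, ?_⟩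
    push_cast
    exact Int.ediv_le_ediv hp' (by omega)
  · intro x _ y _ h
    simp only [Prod.mk.injEq] at h
    obtain ⟨h2, h3⟩ := h
    funext k
    refine eq_of_floor hQ0 (congrFun h3 k) ?_
    rw [hQ, Nat.cast_prod]
    refine Finset.prod_dvd_of_coprime (fun p hp q hq hpq => ?_) fun p hp => ?_
    · exact Nat.isCoprime_iff_coprime.2 ((Nat.coprime_primes (ht p hp) (ht q hq)).2 hpq)
    · have h4 := congrFun (congrFun h2 ⟨p, hp⟩) k
      exact (ZMod.intCast_eq_intCast_iff_dvd_sub _ _ _).1 h4.symm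

end crt

section density

variable {N : Type} [Field N] [NumberField N] {κ : Type} [Fintype κ] [DecidableEq κ] {m : ℕ}

/-- the values of the linear forms with coefficients `A` -/
def lf (A : Fin m → κ → 𝓞 N) (x : κ → ℤ) (s : Fin m) : 𝓞 N := ∑ k, (x k : 𝓞 N) * A s k

/-- at one prime number -/
theorem exists_B {A : Fin m → κ → 𝓞 N} {A' : κ → Fin m → 𝓞 N} {δ : 𝓞 N}
    (hA : ∀ s s', ∑ k, A s k * A' k s' = if s = s' then δ else 0)
    {E : Finset {e : Fin m × Fin m // e.1 < e.2}} (hE : E.Nonempty) {p : ℕ} [Fact p.Prime]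
    (hp32 : 32 ≤ p) (hpE : 4 * E.card ≤ p) (φ : 𝓞 N →+* ZMod p) (hφ : φ δ ≠ 0) :
    ∃ B : Finset (κ → ZMod p), 4 * B.card ≤ 3 * p ^ Fintype.card κ ∧
      ∀ x : κ → ℤ, IsSquare (∏ e ∈ E, (lf A x e.1.1 - lf A x e.1.2)) →
        (fun k => (x k : ZMod p)) ∈ B := by
  classical
  let f : (κ → ZMod p) →+ (Fin m → ZMod p) :=
    { toFun := fun y s => ∑ k, y k * φ (A s k)
      map_zero' := by
        funext s
        simp
      map_add' := fun y y' => by
        funext s
        simp only [Pi.add_apply, add_mul, sum_add_distrib] }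
  have hf : Function.Surjective f := by
    intro z
    refine ⟨fun k => ∑ s', φ (A' k s') * ((φ δ)⁻¹ * z s'), ?_⟩
    funext s
    change ∑ k, (∑ s', φ (A' k s') * ((φ δ)⁻¹ * z s')) * φ (A s k) = z s
    simp only [sum_mul]
    rw [sum_comm]
    have h1 : ∀ s', ∑ k, φ (A' k s') * ((φ δ)⁻¹ * z s') * φ (A s k) =
        (if s = s' then φ δ else 0) * ((φ δ)⁻¹ * z s') := by
      intro s'
      have h2 := congrArg φ (hA s s')
      rw [map_sum, apply_ite φ, map_zero] at h2
      rw [← h2, sum_mul]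
      refine sum_congr rfl fun k _ => ?_
      rw [map_mul]
      ring
    rw [sum_congr rfl fun s' _ => h1 s']
    simp only [ite_mul, zero_mul, sum_ite_eq, mem_univ, if_true]
    rw [mul_inv_cancel_left₀ hφ]
  refine ⟨univ.filter fun y => qc p (PE E (f y)) ≠ -1, fiber_count f hf _ (local_count hp32 hE hpE),
    fun x hx => ?_⟩
  rw [mem_filter]
  refine ⟨mem_univ _, ?_⟩
  rw [Ne, quadraticChar_neg_one_iff_not_isSquare, not_not]
  have h1 : PE E (f fun k => (x k : ZMod p)) = φ (∏ e ∈ E, (lf A x e.1.1 - lf A x e.1.2)) := by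
    unfold PE
    rw [map_prod]
    refine prod_congr rfl fun e _ => ?_
    rw [map_sub]
    unfold lf
    simp only [map_sum, map_mul, map_intCast]
    rfl
  rw [h1]
  exact hx.map φ

open Classical in
/-- **For almost all integral vectors the product of a set of differences is not a square.** -/
theorem density_E {A : Fin m → κ → 𝓞 N} {A' : κ → Fin m → 𝓞 N} {δ : 𝓞 N} (hδ : δ ≠ 0)
    (hA : ∀ s s', ∑ k, A s k * A' k s' = if s = s' then δ else 0)
    {E : Finset {e : Fin m × Fin m // e.1 < e.2}} (hE : E.Nonempty) {ε : ℝ} (hε : 0 < ε) :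
    ∃ H₀ : ℕ, ∀ H, H₀ ≤ H →
      (((boxK κ H).filter fun x => IsSquare (∏ e ∈ E, (lf A x e.1.1 - lf A x e.1.2))).card : ℝ) ≤
        ε * (2 * H + 1) ^ Fintype.card κ := by
  set P : Set ℕ := {p | p.Prime ∧ 32 ≤ p ∧ 4 * E.card ≤ p ∧ ∃ φ : 𝓞 N →+* ZMod p, φ δ ≠ 0} with hP
  have hinf : P.Infinite := by
    rw [Set.infinite_iff_exists_gt]
    intro a
    obtain ⟨p, hp, hlt, φ, hφ⟩ := exists_hom N δ hδ (a + 32 + 4 * E.card)
    exact ⟨p, ⟨hp.out, by omega, by omega, φ, hφ⟩, by omega⟩
  have hB : ∀ p : ℕ, ∃ B : Finset (κ → ZMod p), p ∈ P → 4 * B.card ≤ 3 * p ^ Fintype.card κ ∧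
      ∀ x : κ → ℤ, IsSquare (∏ e ∈ E, (lf A x e.1.1 - lf A x e.1.2)) →
        (fun k => (x k : ZMod p)) ∈ B := by
    intro p
    by_cases h : p ∈ P
    · obtain ⟨hp, h1, h2, φ, hφ⟩ := h
      have hfact : Fact p.Prime := ⟨hp⟩
      obtain ⟨B, hB⟩ := exists_B hA hE h1 h2 φ hφ
      exact ⟨B, fun _ => hB⟩
    · exact ⟨∅, fun h' => absurd h' h⟩
  choose B hB using hB
  set k := Fintype.card κ with hk
  obtain ⟨r, hr⟩ : ∃ r : ℕ, (3 / 4 : ℝ) ^ r < ε / 2 ^ k :=
    exists_pow_lt_of_lt_one (by positivity) (by norm_num)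
  obtain ⟨t, htP, htr⟩ := hinf.exists_subset_card_eq r
  set Q := ∏ p ∈ t, p with hQ
  have ht : ∀ p ∈ t, p.Prime := fun p hp => (htP hp).1
  have hQ0 : 0 < Q := prod_pos fun p hp => (ht p hp).pos
  refine ⟨Q, fun H hH => ?_⟩
  have h1 : ((boxK κ H).filter fun x => IsSquare (∏ e ∈ E, (lf A x e.1.1 - lf A x e.1.2))).card ≤
      (∏ p ∈ t, (B p).card) * (2 * H / Q + 1) ^ k := by
    refine (card_le_card ?_).trans (count_crt t ht B H)
    intro x hx
    rw [mem_filter] at hx ⊢
    exact ⟨hx.1, fun p hp => (hB p (htP hp)).2 x hx.2⟩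
  have h2 : 4 ^ r * (∏ p ∈ t, (B p).card) ≤ 3 ^ r * Q ^ k := by
    rw [← htr, ← prod_const, ← prod_mul_distrib, ← prod_const, hQ, ← prod_pow, ← prod_mul_distrib]
    exact prod_le_prod' fun p hp => (hB p (htP hp)).1
  have h3 : Q * (2 * H / Q + 1) ≤ 2 * (2 * H + 1) := by
    have h4 : Q * (2 * H / Q) ≤ 2 * H := Nat.mul_div_le _ _
    rw [mul_add, mul_one]
    omega
  have h4 : 4 ^ r * ((boxK κ H).filter fun x =>
      IsSquare (∏ e ∈ E, (lf A x e.1.1 - lf A x e.1.2))).card ≤
      3 ^ r * (2 * (2 * H + 1)) ^ k := by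
    calc _ ≤ 4 ^ r * ((∏ p ∈ t, (B p).card) * (2 * H / Q + 1) ^ k) := Nat.mul_le_mul_left _ h1
      _ = (4 ^ r * (∏ p ∈ t, (B p).card)) * (2 * H / Q + 1) ^ k := by ring
      _ ≤ (3 ^ r * Q ^ k) * (2 * H / Q + 1) ^ k := Nat.mul_le_mul_right _ h2
      _ = 3 ^ r * (Q * (2 * H / Q + 1)) ^ k := by rw [mul_pow]; ring
      _ ≤ _ := Nat.mul_le_mul_left _ (Nat.pow_le_pow_left h3 k)
  have h5 : (4 : ℝ) ^ r * (((boxK κ H).filter fun x =>
      IsSquare (∏ e ∈ E, (lf A x e.1.1 - lf A x e.1.2))).card : ℝ) ≤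
      3 ^ r * (2 * (2 * (H : ℝ) + 1)) ^ k := by exact_mod_cast h4
  have h6 : (0 : ℝ) < 4 ^ r := by positivity
  have h7 : (((boxK κ H).filter fun x =>
      IsSquare (∏ e ∈ E, (lf A x e.1.1 - lf A x e.1.2))).card : ℝ) ≤
      (3 / 4) ^ r * 2 ^ k * (2 * (H : ℝ) + 1) ^ k := by
    rw [div_pow]
    rw [mul_pow] at h5
    have h8 : (3 : ℝ) ^ r / 4 ^ r * 2 ^ k * (2 * (H : ℝ) + 1) ^ k =
        (3 ^ r * (2 ^ k * (2 * (H : ℝ) + 1) ^ k)) / 4 ^ r := by ring
    rw [h8, le_div_iff₀ h6]
    linarith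
  refine h7.trans (mul_le_mul_of_nonneg_right ?_ (by positivity))
  have h8 : (0 : ℝ) < 2 ^ k := by positivity
  rw [lt_div_iff₀ h8] at hr
  exact hr.le

open Classical in
/-- **Almost all integral vectors give differences which are independent modulo squares.** -/
theorem density_all {A : Fin m → κ → 𝓞 N} {A' : κ → Fin m → 𝓞 N} {δ : 𝓞 N} (hδ : δ ≠ 0)
    (hA : ∀ s s', ∑ k, A s k * A' k s' = if s = s' then δ else 0) {ε : ℝ} (hε : 0 < ε) :
    ∃ H₀ : ℕ, ∀ H, H₀ ≤ H →
      (((boxK κ H).filter fun x => ∃ E : Finset {e : Fin m × Fin m // e.1 < e.2}, E.Nonempty ∧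
        IsSquare (∏ e ∈ E, (lf A x e.1.1 - lf A x e.1.2))).card : ℝ) ≤
        ε * (2 * H + 1) ^ Fintype.card κ := by
  set n := Fintype.card (Finset {e : Fin m × Fin m // e.1 < e.2}) with hn
  have hn0 : (0 : ℝ) < n := by
    rw [hn]
    exact_mod_cast Fintype.card_pos
  have h1 : ∀ E : Finset {e : Fin m × Fin m // e.1 < e.2}, ∃ H₀ : ℕ, E.Nonempty → ∀ H, H₀ ≤ H →
      (((boxK κ H).filter fun x => IsSquare (∏ e ∈ E, (lf A x e.1.1 - lf A x e.1.2))).card : ℝ) ≤
        (ε / n) * (2 * H + 1) ^ Fintype.card κ := by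
    intro E
    by_cases hE : E.Nonempty
    · obtain ⟨H₀, h⟩ := density_E hδ hA hE (div_pos hε hn0)
      exact ⟨H₀, fun _ => h⟩
    · exact ⟨0, fun h => absurd h hE⟩
  choose H₁ h1 using h1
  refine ⟨univ.sup H₁, fun H hH => ?_⟩
  have h2 : ((boxK κ H).filter fun x => ∃ E : Finset {e : Fin m × Fin m // e.1 < e.2}, E.Nonempty ∧
        IsSquare (∏ e ∈ E, (lf A x e.1.1 - lf A x e.1.2))) ⊆
      (univ.filter fun E : Finset {e : Fin m × Fin m // e.1 < e.2} => E.Nonempty).biUnion fun E =>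
        (boxK κ H).filter fun x => IsSquare (∏ e ∈ E, (lf A x e.1.1 - lf A x e.1.2)) := by
    intro x hx
    rw [mem_filter] at hx
    obtain ⟨hx, E, hE, hsq⟩ := hx
    rw [mem_biUnion]
    exact ⟨E, mem_filter.2 ⟨mem_univ _, hE⟩, mem_filter.2 ⟨hx, hsq⟩⟩
  have h3 : (((boxK κ H).filter fun x => ∃ E : Finset {e : Fin m × Fin m // e.1 < e.2},
      E.Nonempty ∧ IsSquare (∏ e ∈ E, (lf A x e.1.1 - lf A x e.1.2))).card : ℝ) ≤
      ∑ E ∈ univ.filter (fun E : Finset {e : Fin m × Fin m // e.1 < e.2} => E.Nonempty),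
        (((boxK κ H).filter fun x =>
          IsSquare (∏ e ∈ E, (lf A x e.1.1 - lf A x e.1.2))).card : ℝ) := by
    exact_mod_cast (card_le_card h2).trans card_biUnion_le
  refine h3.trans ((sum_le_sum fun E hE => h1 E (mem_filter.1 hE).2 H
    ((le_sup (f := H₁) (mem_univ E)).trans hH)).trans ?_)
  rw [sum_const, nsmul_eq_mul]
  have h4 : ((univ.filter fun E : Finset {e : Fin m × Fin m // e.1 < e.2} =>
      E.Nonempty).card : ℝ) ≤ n := by
    rw [hn, ← card_univ]
    exact_mod_cast card_le_card (filter_subset _ _)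
  have h5 : (0 : ℝ) ≤ (ε / n) * (2 * H + 1) ^ Fintype.card κ := by positivity
  calc _ ≤ (n : ℝ) * ((ε / n) * (2 * H + 1) ^ Fintype.card κ) := mul_le_mul_of_nonneg_right h4 h5
    _ = _ := by
      field_simp

end density

end Pool.Agent.H852.J
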