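import Mathlib
import Pool.Agent.H852.J.F4

/-!
# Densities from residue classes
-/

set_option linter.unusedSectionVars false
set_option autoImplicit false

open Finset Filter

namespace Pool.Agent.H852.J

section crt

variable {κ : Type} [Fintype κ] [DecidableEq κ]

open Classical in
/-- **Vectors in a box with residues in given sets.** -/
theorem count_crt' (t : Finset ℕ) (m : ℕ → ℕ) (hm : ∀ p ∈ t, 0 < m p)
    (hc : ∀ p ∈ t, ∀ q ∈ t, p ≠ q → Nat.Coprime (m p) (m q))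
    (B : ∀ p : ℕ, Finset (κ → ZMod (m p))) (H : ℕ) :
    ((boxK κ H).filter fun x => ∀ p ∈ t, (fun k => (x k : ZMod (m p))) ∈ B p).card ≤
      (∏ p ∈ t, (B p).card) * (2 * H / (∏ p ∈ t, m p) + 1) ^ Fintype.card κ := by
  set Q := ∏ p ∈ t, m p with hQ
  have hQ0 : 0 < Q := prod_pos hm
  have h1 : ((Fintype.piFinset fun p : t => B p) ×ˢ
      (Fintype.piFinset fun _ : κ => (Icc 0 ((2 * H / Q : ℕ) : ℤ)))).card =
      (∏ p ∈ t, (B p).card) * (2 * H / Q + 1) ^ Fintype.card κ := by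
    rw [card_product, Fintype.card_piFinset, Fintype.card_piFinset, prod_const, card_univ,
      Int.card_Icc, prod_coe_sort t fun p => (B p).card]
    congr 2
  rw [← h1]
  refine card_le_card_of_injOn
    (fun x => ((fun p : t => fun k => (x k : ZMod (m p))), fun k => (x k + H) / Q)) ?_ ?_
  · intro x hx
    rw [mem_coe, mem_filter, mem_boxK] at hx
    rw [mem_coe, mem_product, Fintype.mem_piFinset, Fintype.mem_piFinset]
    refine ⟨fun p => hx.2 p p.2, fun k => ?_⟩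
    rw [mem_Icc]
    have h2 := hx.1 k
    have hp' : (0 : ℤ) < Q := by exact_mod_cast hQ0
    refine ⟨Int.ediv_nonneg (by omega) hp'.le, ?_⟩
    push_cast
    exact Int.ediv_le_ediv hp' (by omega)
  · intro x _ y _ h
    simp only [Prod.mk.injEq] at h
    obtain ⟨h2, h3⟩ := h
    funext k
    refine eq_of_floor hQ0 (congrFun h3 k) ?_
    rw [hQ, Nat.cast_prod]
    refine Finset.prod_dvd_of_coprime (fun p hp q hq hpq => ?_) fun p hp => ?_
    · exact Nat.isCoprime_iff_coprime.2 (hc p hp q hq hpq)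
    · have h4 := congrFun (congrFun h2 ⟨p, hp⟩) k
      exact (ZMod.intCast_eq_intCast_iff_dvd_sub _ _ _).1 h4.symm

open Classical in
/-- **Density zero from residue classes.** -/
theorem density_gen (T : Set ℕ) (m : ℕ → ℕ) (hm : ∀ p ∈ T, 0 < m p)
    (hc : ∀ p ∈ T, ∀ q ∈ T, p ≠ q → Nat.Coprime (m p) (m q))
    (B : ∀ p : ℕ, Finset (κ → ZMod (m p))) (η : ℕ → ℝ)
    (hB : ∀ p ∈ T, ((B p).card : ℝ) ≤ η p * (m p : ℝ) ^ Fintype.card κ)
    (hprod : ∀ ε : ℝ, 0 < ε → ∃ t : Finset ℕ, (t : Set ℕ) ⊆ T ∧ ∏ p ∈ t, η p < ε) {ε : ℝ}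
    (hε : 0 < ε) : ∃ H₀ : ℕ, ∀ H : ℕ, H₀ ≤ H →
      (((boxK κ H).filter fun x => ∀ p ∈ T, (fun k => (x k : ZMod (m p))) ∈ B p).card : ℝ) ≤
        ε * (2 * H + 1) ^ Fintype.card κ := by
  set k := Fintype.card κ with hk
  obtain ⟨t, htT, ht⟩ := hprod (ε / 2 ^ k) (by positivity)
  set Q := ∏ p ∈ t, m p with hQ
  have hQ0 : 0 < Q := prod_pos fun p hp => hm p (htT hp)
  refine ⟨Q, fun H hH => ?_⟩
  have h1 : ((boxK κ H).filter fun x => ∀ p ∈ T, (fun k => (x k : ZMod (m p))) ∈ B p).card ≤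
      (∏ p ∈ t, (B p).card) * (2 * H / Q + 1) ^ k := by
    refine (card_le_card ?_).trans (count_crt' t m (fun p hp => hm p (htT hp))
      (fun p hp q hq => hc p (htT hp) q (htT hq)) B H)
    intro x hx
    rw [mem_filter] at hx ⊢
    exact ⟨hx.1, fun p hp => hx.2 p (htT hp)⟩
  have h2 : (∏ p ∈ t, ((B p).card : ℝ)) ≤ (∏ p ∈ t, η p) * (Q : ℝ) ^ k := by
    rw [hQ, Nat.cast_prod, ← prod_pow, ← prod_mul_distrib]
    exact prod_le_prod (fun p _ => Nat.cast_nonneg _) fun p hp => hB p (htT hp)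
  have h3 : Q * (2 * H / Q + 1) ≤ 2 * (2 * H + 1) := by
    have h4 : Q * (2 * H / Q) ≤ 2 * H := Nat.mul_div_le _ _
    rw [mul_add, mul_one]
    omega
  have h3' : (Q : ℝ) * (((2 * H / Q : ℕ) : ℝ) + 1) ≤ 2 * (2 * (H : ℝ) + 1) := by exact_mod_cast h3
  have h5 : (((boxK κ H).filter fun x =>
      ∀ p ∈ T, (fun k => (x k : ZMod (m p))) ∈ B p).card : ℝ) ≤
      (∏ p ∈ t, ((B p).card : ℝ)) * (((2 * H / Q : ℕ) : ℝ) + 1) ^ k := by exact_mod_cast h1
  have h0 : (0 : ℝ) ≤ ∏ p ∈ t, η p := by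
    refine prod_nonneg fun p hp => ?_
    have h6 := hB p (htT hp)
    have h7 : (0 : ℝ) < (m p : ℝ) ^ k := by
      have : (0 : ℝ) < m p := by exact_mod_cast hm p (htT hp)
      positivity
    have h8 : (0 : ℝ) ≤ η p * (m p : ℝ) ^ k := (Nat.cast_nonneg _).trans h6
    exact nonneg_of_mul_nonneg_left h8 h7
  calc (((boxK κ H).filter fun x =>
      ∀ p ∈ T, (fun k => (x k : ZMod (m p))) ∈ B p).card : ℝ)
      ≤ (∏ p ∈ t, ((B p).card : ℝ)) * (((2 * H / Q : ℕ) : ℝ) + 1) ^ k := h5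
    _ ≤ ((∏ p ∈ t, η p) * (Q : ℝ) ^ k) * (((2 * H / Q : ℕ) : ℝ) + 1) ^ k :=
      mul_le_mul_of_nonneg_right h2 (by positivity)
    _ = (∏ p ∈ t, η p) * ((Q : ℝ) * (((2 * H / Q : ℕ) : ℝ) + 1)) ^ k := by rw [mul_pow]; ring
    _ ≤ (∏ p ∈ t, η p) * (2 * (2 * (H : ℝ) + 1)) ^ k :=
      mul_le_mul_of_nonneg_left (pow_le_pow_left₀ (by positivity) h3' k) h0
    _ = ((∏ p ∈ t, η p) * 2 ^ k) * (2 * (H : ℝ) + 1) ^ k := by rw [mul_pow]; ring
    _ ≤ ε * (2 * (H : ℝ) + 1) ^ k := by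
      refine mul_le_mul_of_nonneg_right ?_ (by positivity)
      rw [lt_div_iff₀ (by positivity)] at ht
      exact ht.le

end crt

section prods

theorem prod_small_const {T : Set ℕ} (hT : T.Infinite) {q : ℝ} (h0 : 0 ≤ q) (h1 : q < 1)
    (ε : ℝ) (hε : 0 < ε) : ∃ t : Finset ℕ, (t : Set ℕ) ⊆ T ∧ ∏ _p ∈ t, q < ε := by
  obtain ⟨r, hr⟩ := exists_pow_lt_of_lt_one hε h1
  obtain ⟨t, ht, htr⟩ := hT.exists_subset_card_eq r
  exact ⟨t, ht, by rwa [prod_const, htr]⟩

theorem prod_small_prime (b : ℕ) {c : ℝ} (hc : 0 < c) (hcb : c ≤ b) (ε : ℝ) (hε : 0 < ε) :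
    ∃ t : Finset ℕ, (t : Set ℕ) ⊆ {p : ℕ | p.Prime ∧ b < p} ∧ ∏ p ∈ t, (1 - c / p) < ε := by
  classical
  let f : ℕ → ℝ := fun n => if n.Prime ∧ b < n then (1 : ℝ) / n else 0
  have hf0 : ∀ n, 0 ≤ f n := by
    intro n
    simp only [f]
    split_ifs <;> positivity
  have hf : ¬ Summable f := by
    intro h
    apply not_summable_one_div_on_primes
    have h1 := h.add (summable_of_ne_finset_zero (s := range (b + 1))
      (f := fun n : ℕ => if n.Prime ∧ n ≤ b then (1 : ℝ) / n else 0) (fun n hn => by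
        rw [mem_range, not_lt] at hn
        rw [if_neg]
        omega))
    refine h1.congr fun n => ?_
    rw [Set.indicator_apply]
    simp only [f, Set.mem_setOf_eq]
    by_cases hp : n.Prime
    · by_cases hb : b < n
      · rw [if_pos ⟨hp, hb⟩, if_neg (fun h2 => absurd h2.2 (not_le.2 hb)), if_pos hp, add_zero]
      · rw [if_neg (fun h2 => hb h2.2), if_pos ⟨hp, not_lt.1 hb⟩, if_pos hp, zero_add]
    · rw [if_neg (fun h2 => hp h2.1), if_neg (fun h2 => hp h2.1), if_neg hp, add_zero]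
  have hT := (not_summable_iff_tendsto_nat_atTop_of_nonneg hf0).1 hf
  obtain ⟨n, hn⟩ := (hT.eventually_gt_atTop (-(Real.log ε) / c)).exists
  refine ⟨(range n).filter fun p => p.Prime ∧ b < p, fun p hp => ?_, ?_⟩
  · rw [mem_coe, mem_filter] at hp
    exact hp.2
  · have h1 : ∑ p ∈ (range n).filter (fun p => p.Prime ∧ b < p), (1 : ℝ) / p =
        ∑ i ∈ range n, f i := by
      rw [sum_filter]
    have h2 : ∏ p ∈ (range n).filter (fun p => p.Prime ∧ b < p), (1 - c / p) ≤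
        Real.exp (-c * ∑ i ∈ range n, f i) := by
      rw [← h1, mul_sum, Real.exp_sum]
      refine prod_le_prod (fun p hp => ?_) fun p _ => ?_
      · rw [mem_filter] at hp
        have h3 : (b : ℝ) < p := by exact_mod_cast hp.2.2
        have h4 : (0 : ℝ) < p := lt_of_le_of_lt (Nat.cast_nonneg b) h3
        rw [sub_nonneg, div_le_one h4]
        linarith
      · have h3 := Real.one_sub_le_exp_neg (c / p)
        refine h3.trans (le_of_eq ?_)
        congr 1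
        ring
    refine lt_of_le_of_lt h2 ?_
    rw [div_lt_iff₀ hc] at hn
    calc Real.exp (-c * ∑ i ∈ range n, f i) < Real.exp (Real.log ε) :=
          Real.exp_lt_exp.2 (by linarith)
      _ = ε := Real.exp_log hε

end prods

end Pool.Agent.H852.J
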