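import Mathlib
import Pool.Agent.H852.J.D5
import Pool.Agent.H852.J.D6
import Pool.Agent.H852.J.C7

/-!
# Almost all compositions of integral polynomials
-/

set_option linter.unusedSectionVars false
set_option autoImplicit false

open Polynomial Finset NumberField
open Pool.Agent.Results.MP_640417_ag.HyperellipticEveryPrime

namespace Pool.Agent.H852.J

section density

variable {κ : Type} [Fintype κ] [DecidableEq κ]

theorem box_or (H : ℕ) (P Q R : (κ → ℤ) → Prop) (iP : DecidablePred P) (iQ : DecidablePred Q)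
    (iR : DecidablePred R) (h : ∀ x, R x → P x ∨ Q x) :
    ((boxK κ H).filter R).card ≤ ((boxK κ H).filter P).card + ((boxK κ H).filter Q).card := by
  refine (card_le_card fun x hx => ?_).trans (card_union_le _ _)
  rw [mem_filter] at hx
  rw [mem_union, mem_filter, mem_filter]
  exact (h x hx.2).elim (fun h3 => Or.inl ⟨hx.1, h3⟩) fun h3 => Or.inr ⟨hx.1, h3⟩

theorem box_false (H : ℕ) (P : (κ → ℤ) → Prop) (iP : DecidablePred P) (h : ∀ x, ¬ P x) :
    ((boxK κ H).filter P).card ≤ 0 := by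
  rw [filter_false_of_mem fun x _ => h x, card_empty]

open Classical in
/-- the vectors with the property `P` have density zero -/
def AlmostNone (P : (κ → ℤ) → Prop) : Prop :=
  ∀ ε : ℝ, 0 < ε → ∃ H₀ : ℕ, ∀ H : ℕ, H₀ ≤ H →
    (((boxK κ H).filter P).card : ℝ) ≤ ε * (2 * H + 1) ^ Fintype.card κ

theorem AlmostNone.mono {P Q : (κ → ℤ) → Prop} (h : AlmostNone Q) (hPQ : ∀ x, P x → Q x) :
    AlmostNone P := by
  classical
  intro ε hε
  obtain ⟨H₀, hH⟩ := h ε hε
  refine ⟨H₀, fun H hH' => le_trans ?_ (hH H hH')⟩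
  exact_mod_cast card_le_card fun x hx => by
    rw [mem_filter] at hx ⊢
    exact ⟨hx.1, hPQ x hx.2⟩

theorem AlmostNone.or {P Q : (κ → ℤ) → Prop} (h : AlmostNone P) (h' : AlmostNone Q) :
    AlmostNone fun x => P x ∨ Q x := by
  classical
  intro ε hε
  obtain ⟨H₀, hH⟩ := h (ε / 2) (half_pos hε)
  obtain ⟨H₁, hH'⟩ := h' (ε / 2) (half_pos hε)
  refine ⟨max H₀ H₁, fun H hHH => ?_⟩
  have h1 := hH H ((le_max_left _ _).trans hHH)
  have h2 := hH' H ((le_max_right _ _).trans hHH)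
  refine le_trans (b := (((boxK κ H).filter P).card : ℝ) + (((boxK κ H).filter Q).card : ℝ)) ?_
    ((add_le_add h1 h2).trans (le_of_eq (by ring)))
  exact le_trans (Nat.cast_le.2 (box_or H P Q _ _ _ _ fun x hx => hx))
    (le_of_eq (Nat.cast_add _ _))

theorem AlmostNone.false : AlmostNone fun _ : κ → ℤ => False := by
  classical
  intro ε hε
  refine ⟨0, fun H _ => le_trans (b := (0 : ℝ)) ?_ (by positivity)⟩
  exact le_trans (Nat.cast_le.2 (box_false H _ _ fun x hx => hx)) (le_of_eq Nat.cast_zero)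

theorem AlmostNone.exists_fin {n : ℕ} {P : Fin n → (κ → ℤ) → Prop} (h : ∀ i, AlmostNone (P i)) :
    AlmostNone fun x => ∃ i, P i x := by
  induction n with
  | zero =>
    refine AlmostNone.false.mono fun x hx => ?_
    obtain ⟨i, -⟩ := hx
    exact i.elim0
  | succ n ih =>
    refine ((h 0).or (ih (P := fun i => P i.succ) fun i => h i.succ)).mono fun x hx => ?_
    obtain ⟨i, hi⟩ := hx
    refine Fin.cases (fun h0 => Or.inl h0) (fun j hj => Or.inr ⟨j, hj⟩) i hi

/-- density zero from residue classes -/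
theorem almostNone_of_bad (T : Set ℕ) (m : ℕ → ℕ) (hm : ∀ p ∈ T, 0 < m p)
    (hc : ∀ p ∈ T, ∀ q ∈ T, p ≠ q → Nat.Coprime (m p) (m q)) (η : ℕ → ℝ)
    (hprod : ∀ ε : ℝ, 0 < ε → ∃ t : Finset ℕ, (t : Set ℕ) ⊆ T ∧ ∏ p ∈ t, η p < ε)
    (bad : (κ → ℤ) → Prop) (hbad : ∀ p ∈ T, ∃ B : Finset (κ → ZMod (m p)),
      (B.card : ℝ) ≤ η p * (m p : ℝ) ^ Fintype.card κ ∧
      ∀ x, bad x → (fun k => (x k : ZMod (m p))) ∈ B) : AlmostNone bad := by
  classical
  intro ε hε
  have hB : ∀ p : ℕ, ∃ B : Finset (κ → ZMod (m p)), p ∈ T →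
      (B.card : ℝ) ≤ η p * (m p : ℝ) ^ Fintype.card κ ∧
      ∀ x, bad x → (fun k => (x k : ZMod (m p))) ∈ B := by
    intro p
    by_cases hp : p ∈ T
    · obtain ⟨B, hB⟩ := hbad p hp
      exact ⟨B, fun _ => hB⟩
    · exact ⟨∅, fun h => absurd h hp⟩
  choose B hB using hB
  obtain ⟨H₀, hH⟩ := density_gen T m hm hc B η (fun p hp => (hB p hp).1) hprod hε
  refine ⟨H₀, fun H hH' => le_trans ?_ (hH H hH')⟩
  exact_mod_cast card_le_card fun x hx => by
    rw [mem_filter] at hx ⊢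
    exact ⟨hx.1, fun p hp => (hB p hp).2 x hx.2⟩

end density

section main

variable {N : ℕ} {d : Fin N → ℕ}

theorem coprime_primes' {p q : ℕ} (hp : p.Prime) (hq : q.Prime) (h : p ≠ q) : Nat.Coprime p q :=
  (Nat.coprime_primes hp hq).2 h

/-- the complement of a large set -/
theorem compl_bound {V : Type} [Fintype V] (P : V → Prop) [DecidablePred P] {c : ℕ} (hc : 0 < c)
    (h : Fintype.card V ≤ c * (univ.filter P).card) :
    ((univ.filter fun a => ¬ P a).card : ℝ) ≤ (1 - 1 / c) * (Fintype.card V : ℝ) := by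
  have h1 := card_filter_add_card_filter_not (s := (univ : Finset V)) P
  rw [card_univ] at h1
  have h2 : ((univ.filter P).card : ℝ) + ((univ.filter fun a => ¬ P a).card : ℝ) =
      Fintype.card V := by exact_mod_cast h1
  have h3 : (Fintype.card V : ℝ) ≤ c * ((univ.filter P).card : ℝ) := by exact_mod_cast h
  have hc' : (0 : ℝ) < c := by exact_mod_cast hc
  have h4 : (Fintype.card V : ℝ) / c ≤ ((univ.filter P).card : ℝ) := by
    rw [div_le_iff₀ hc', mul_comm]
    exact h3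
  have h5 : (1 - 1 / (c : ℝ)) * (Fintype.card V : ℝ) = Fintype.card V - Fintype.card V / c := by
    ring
  rw [h5]
  linarith

/-- for almost all vectors there is a prime number with one node -/
theorem almost_node (hd : ∀ n, 3 ≤ d n) (n₀ : ℕ) (hn₀ : 0 < n₀) (n : Fin N) :
    AlmostNone fun x : (Σ n : Fin N, Fin (d n)) → ℤ =>
      ¬ ∃ (p : ℕ) (_ : Fact p.Prime) (γ : ℤ), ¬ p ∣ n₀ ∧ LocNode p (polyOf d x) N n γ := by
  classical
  set b : ℕ := n₀ + DD d + 2 * (N * (DD d * DD d * DD d)) + 2 * (1 + DD d ^ 2) with hb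
  have hd0 : ∀ n, 0 < d n := fun n => by have := hd n; omega
  have hDD : 0 < DD d := prod_pos fun i _ => hd0 i
  have hDD' : (1 : ℝ) ≤ DD d := by exact_mod_cast hDD
  refine almostNone_of_bad {p : ℕ | p.Prime ∧ b < p} (fun p => p ^ 2)
    (fun p hp => pow_pos hp.1.pos 2)
    (fun p hp q hq hpq => Nat.Coprime.pow 2 2 (coprime_primes' hp.1 hq.1 hpq))
    (fun p => 1 - (1 / (16 * DD d : ℝ)) / p)
    (prod_small_prime b (by positivity) ?_) _ ?_
  · have h1 : (1 : ℝ) ≤ (b : ℝ) := by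
      have h2 : 1 ≤ b := by omega
      exact_mod_cast h2
    refine le_trans ?_ h1
    rw [div_le_one (by positivity)]
    linarith
  · rintro p ⟨hp, hpb⟩
    have hfact : Fact p.Prime := ⟨hp⟩
    have hne : NeZero (p ^ 2) := ⟨pow_ne_zero 2 hp.ne_zero⟩
    refine ⟨univ.filter fun y => ¬ GN2 d y n, ?_, fun x hx => ?_⟩
    · have h1 := N2_count (p := p) hd (by omega) (by omega) (by omega) n
      have h2 := compl_bound (V := (Σ n : Fin N, Fin (d n)) → ZMod (p ^ 2))
        (fun y => GN2 d y n) (c := 16 * DD d * p) (by have := hp.pos; positivity) (by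
          rw [Fintype.card_fun, ZMod.card]
          exact h1)
      rw [Fintype.card_fun, ZMod.card] at h2
      refine h2.trans (le_of_eq ?_)
      push_cast
      congr 2
      rw [div_div]
    · rw [mem_filter]
      refine ⟨mem_univ _, fun h => hx ?_⟩
      obtain ⟨γ, hγ⟩ := locNode_of x h
      refine ⟨p, hfact, γ, fun h3 => ?_, hγ⟩
      have := Nat.le_of_dvd hn₀ h3
      omega

/-- for almost all vectors all levels are good modulo a prime number -/
theorem almost_etale (hd : ∀ n, 3 ≤ d n) :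
    AlmostNone fun x : (Σ n : Fin N, Fin (d n)) → ℤ =>
      ¬ ∃ (p : ℕ) (_ : Fact p.Prime), ∀ i < N, EtaleAt p (polyOf d x) i := by
  classical
  set b : ℕ := DD d + 2 * (N * (DD d * DD d * DD d)) with hb
  have hinf : {p : ℕ | p.Prime ∧ b < p}.Infinite := by
    rw [Set.infinite_iff_exists_gt]
    intro a
    obtain ⟨p, hp1, hp2⟩ := Nat.exists_infinite_primes (a + b + 1)
    exact ⟨p, ⟨hp2, by omega⟩, by omega⟩
  refine almostNone_of_bad {p : ℕ | p.Prime ∧ b < p} (fun p => p) (fun p hp => hp.1.pos)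
    (fun p hp q hq hpq => coprime_primes' hp.1 hq.1 hpq) (fun _ => 1 - 1 / (2 : ℕ))
    (prod_small_const hinf (by norm_num) (by norm_num)) _ ?_
  rintro p ⟨hp, hpb⟩
  have hfact : Fact p.Prime := ⟨hp⟩
  refine ⟨univ.filter fun y => ¬ ∀ i < N, EtS (polyOf d y) i, ?_, fun x hx => ?_⟩
  · have h1 := E_count (p := p) hd (by omega) (by omega)
    have h2 := compl_bound (V := (Σ n : Fin N, Fin (d n)) → ZMod p)
      (fun y => ∀ i < N, EtS (polyOf d y) i) (c := 2) two_pos (by
        rw [Fintype.card_fun, ZMod.card]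
        exact h1)
    rw [Fintype.card_fun, ZMod.card] at h2
    refine h2.trans (le_of_eq ?_)
    push_cast
    rfl
  · rw [mem_filter]
    exact ⟨mem_univ _, fun h => hx ⟨p, hfact, fun i hi => etaleAt_of x (h i hi)⟩⟩

variable (K : Type) [Field K] [NumberField K]

theorem almost_cert (E : ∀ (p : ℕ) [Fact p.Prime], (ZMod p)[X] → (ZMod p)[X] → Prop) (n : Fin N)
    (b c : ℕ) (hc : 0 < c) (hE : ∀ (p : ℕ) [Fact p.Prime], b < p →
      p ^ Fintype.card (Σ n : Fin N, Fin (d n)) ≤ c * Nat.card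
        {a : (Σ n : Fin N, Fin (d n)) → ZMod p // S2 (E p) (polyOf d a) n}) :
    AlmostNone fun x : (Σ n : Fin N, Fin (d n)) → ℤ =>
      ¬ ∃ (p : ℕ) (_ : Fact p.Prime) (_ : 𝓞 K →+* ZMod p),
        S2 (E p) (polyOf d fun k => (x k : ZMod p)) n := by
  classical
  have hinf : {p : ℕ | p.Prime ∧ b < p ∧ Nonempty (𝓞 K →+* ZMod p)}.Infinite := by
    rw [Set.infinite_iff_exists_gt]
    intro a
    obtain ⟨p, hp, hlt, φ, -⟩ := exists_hom K 1 one_ne_zero (a + b)
    exact ⟨p, ⟨hp.out, by omega, ⟨φ⟩⟩, by omega⟩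
  have hc1 : (1 : ℝ) ≤ c := by exact_mod_cast hc
  refine almostNone_of_bad {p : ℕ | p.Prime ∧ b < p ∧ Nonempty (𝓞 K →+* ZMod p)} (fun p => p)
    (fun p hp => hp.1.pos)
    (fun p hp q hq hpq => coprime_primes' hp.1 hq.1 hpq) (fun _ => 1 - 1 / (c : ℝ))
    (prod_small_const hinf (by
      rw [sub_nonneg, div_le_one (by positivity)]
      exact hc1) (by
      rw [sub_lt_self_iff]
      positivity)) _ ?_
  rintro p ⟨hp, hpb, ⟨φ⟩⟩
  have hfact : Fact p.Prime := ⟨hp⟩
  refine ⟨univ.filter fun y => ¬ S2 (E p) (polyOf d y) n, ?_, fun x hx => ?_⟩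
  · have h1 := hE p hpb
    rw [Nat.card_eq_fintype_card, Fintype.card_subtype] at h1
    have h2 := compl_bound (V := (Σ n : Fin N, Fin (d n)) → ZMod p)
      (fun y => S2 (E p) (polyOf d y) n) (c := c) hc (by
        rw [Fintype.card_fun, ZMod.card]
        exact h1)
    rw [Fintype.card_fun, ZMod.card] at h2
    refine h2.trans (le_of_eq ?_)
    push_cast
    rfl
  · rw [mem_filter]
    exact ⟨mem_univ _, fun h => hx ⟨p, hfact, φ, h⟩⟩

/-- **Almost all compositions.** -/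
theorem almostAll_comps {e : ℕ} (τ : AbsoluteGaloisGroup K →* Matrix (Fin e) (Fin e) ℚ_[2])
    (hτ : IsLattice τ) (hN : 1 ≤ N) (hd : ∀ n, 3 ≤ d n) (ho : ∀ n, Odd (d n)) :
    AlmostNone fun x : (Σ n : Fin N, Fin (d n)) → ℤ =>
      ¬ EveryPrime (fun _ : Unit => comps (toQ K (polyOf d x)) N) τ := by
  classical
  obtain ⟨n₀, hn₀, hmain⟩ := everyPrime_of_local τ hτ
  have hd0 : ∀ n, 0 < d n := fun n => by have := hd n; omega
  have hDD : 0 < DD d := prod_pos fun i _ => hd0 i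
  set b : ℕ := DD d + 2 * (N * (DD d * DD d * DD d)) + 2 * DD d ^ 2 with hb
  have hA := AlmostNone.exists_fin fun n : Fin N => almost_cert (d := d) K
    (fun p [Fact p.Prime] => EA) n b (2 * DD d * (2 * DD d)) (by positivity)
    (fun p _ hp => by
      have h1 := A_count (p := p) hd (by omega) (by omega) (by omega) n
      rw [Nat.card_eq_fintype_card, Fintype.card_subtype]
      exact h1)
  have hB := AlmostNone.exists_fin fun n : Fin N => almost_cert (d := d) K
    (fun p [Fact p.Prime] => EB) n b (2 * DD d * (2 * DD d)) (by positivity)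
    (fun p _ hp => by
      have h1 := B_count (p := p) hd (by omega) (by omega) (by omega) n
      rw [Nat.card_eq_fintype_card, Fintype.card_subtype]
      exact h1)
  have hL := AlmostNone.exists_fin fun n : Fin N => almost_node hd n₀ hn₀ n
  refine ((hA.or hB).or (hL.or (almost_etale hd))).mono fun x hx => ?_
  by_contra hcon
  push Not at hcon
  obtain ⟨⟨h1, h2⟩, h3, p₀, hp₀, h4⟩ := hcon
  refine hx (hmain (polyOf d x) N hN (fun n _ => polyOf_monic x n) (fun n hn => ?_)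
    (fun n hn => ?_) (fun n hn => ⟨p₀, hp₀, h4 n hn⟩) (fun n hn => ?_) (fun n hn => ?_)
    (fun n hn => ?_))
  · have h5 := polyOf_natDegree (d := d) x ⟨n, hn⟩
    rw [Fin.val_mk] at h5
    rw [h5]
    exact hd _
  · have h5 := polyOf_natDegree (d := d) x ⟨n, hn⟩
    rw [Fin.val_mk] at h5
    rw [h5]
    exact ho _
  · obtain ⟨p, hp, φ, h5⟩ := h1 ⟨n, hn⟩
    obtain ⟨e', he'⟩ := certA_of x h5
    exact ⟨p, hp, φ, e', he'⟩
  · obtain ⟨p, hp, φ, h5⟩ := h2 ⟨n, hn⟩
    obtain ⟨e', r, Q, he'⟩ := certB_of x h5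
    exact ⟨p, hp, φ, e', r, Q, he'⟩
  · obtain ⟨p, hp, γ, h5, h6⟩ := h3 ⟨n, hn⟩
    exact ⟨p, hp, γ, h5, h6⟩

end main

end Pool.Agent.H852.J
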