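import Mathlib
import Pool.Agent.H852.J.B9

/-!
# Towers with connected fibres: the joint tangent vectors of the new parts
-/

set_option linter.unusedSectionVars false
set_option autoImplicit false

namespace Pool.Agent.H852.J

open Polynomial PadicInt Module Pool.Agent.N171 Pool.Agent.N171.Al Pool.Agent.N171.TG
  Pool.Agent.N171.Pm Pool.Agent.N171.Bg

noncomputable section

section tower

variable {K F : Type*} [Field K] [Field F] [Algebra K F] [IsAlgClosed F] {τ : ℕ → Type*}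
  [∀ n, Fintype (τ n)] [∀ n, DecidableEq (τ n)] (α : ∀ n, τ n → F) [∀ n, Hyp (α n)]
  (hg : ∀ n (s : F ≃ₐ[K] F), (fP (α n)).map ((s : F ≃+* F) : F →+* F) = fP (α n))
  (dn : ∀ n, τ (n + 1) → τ n)
  {A : Type*} [Ring A] [Algebra ℤ_[2] A] (t : (F ≃ₐ[K] F) →* A)

/-- `x` and `y` are exchanged by a link of their level. -/
def OwnEdge (N i : ℕ) (x y : τ (i + 1)) : Prop :=
  x ≠ y ∧ ∃ σ g, LinkElt α hg t N (i + 1) σ g ∧ prm (α (i + 1)) (hg (i + 1)) g x = y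

/-- the conditions on the tower, with connected fibres -/
structure TowerC (N : ℕ) : Prop where
  eqv : ∀ n (g : F ≃ₐ[K] F) x, dn n (prm (α (n + 1)) (hg (n + 1)) g x) = prm (α n) (hg n) g (dn n x)
  zero : ∀ x y : τ 0, x = y
  card : ∀ n < N, ∀ b, 2 < (pre (dn n) {b}).card
  conn : ∀ i, i + 1 ≤ N → ∀ x y : τ (i + 1), dn i x = dn i y →
    Relation.ReflTransGen (OwnEdge α hg t N i) x y

variable {α hg dn t} {N : ℕ}

theorem LinkElt.conj [Normal K F] {m : ℕ} {σ g : F ≃ₐ[K] F} (hl : LinkElt α hg t N m σ g) (k : F ≃ₐ[K] F)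
    (hm : m ≤ N) : LinkElt α hg t N m (k * σ * k⁻¹) (k * g * k⁻¹) where
  signs := fun n hn => (hl.signs n hn).conj (hg n) k
  invol := fun n hn x => by
    rw [← prm_mul_apply]
    have h1 : k * g * k⁻¹ * (k * g * k⁻¹) = k * (g * g) * k⁻¹ := by group
    rw [h1, prm_mul_apply, prm_mul_apply, prm_mul_apply, hl.invol n hn, ← prm_mul_apply,
      mul_inv_cancel, map_one, Equiv.Perm.one_apply]
  low := fun n hn x => by
    rw [prm_mul_apply, prm_mul_apply, hl.low n hn, ← prm_mul_apply, mul_inv_cancel, map_one,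
      Equiv.Perm.one_apply]
  own := by
    obtain ⟨a, b, hne, hab, hfix⟩ := hl.own
    refine ⟨prm (α m) (hg m) k a, prm (α m) (hg m) k b,
      fun h1 => hne ((prm (α m) (hg m) k).injective h1), ?_, fun x hxa hxb => ?_⟩
    · rw [prm_conj_apply, hab]
    · obtain ⟨y, rfl⟩ := (prm (α m) (hg m) k).surjective x
      rw [prm_conj_apply, hfix y (fun h1 => hxa (by rw [h1])) (fun h1 => hxb (by rw [h1]))]
  cyclo := cyc_conj hl.cyclo k
  val := four_conj t hl.val k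

theorem own_fibC (h : TowerC α hg dn t N) {i : ℕ} {σ g : F ≃ₐ[K] F}
    (hl : LinkElt α hg t N (i + 1) σ g) (a : τ (i + 1)) :
    dn i (prm (α (i + 1)) (hg (i + 1)) g a) = dn i a := by
  rw [h.eqv, hl.low i (Nat.lt_succ_self i)]

/-- two branch points are linked by the involution of a link of a level which is not higher -/
def LkC (α : ∀ n, τ n → F) [∀ n, Hyp (α n)]
    (hg : ∀ n (s : F ≃ₐ[K] F), (fP (α n)).map ((s : F ≃+* F) : F →+* F) = fP (α n))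
    (t : (F ≃ₐ[K] F) →* A) (N i : ℕ) (b b' : τ i) : Prop :=
  b ≠ b' ∧ ∃ (m : ℕ) (σ g : F ≃ₐ[K] F), 1 ≤ m ∧ m ≤ i ∧ LinkElt α hg t N m σ g ∧
    prm (α i) (hg i) g b = b'

/-- **The elements of a level are connected by links.** -/
theorem towerC_conn (h : TowerC α hg dn t N) (i : ℕ) (hi : i ≤ N) (b b' : τ i) :
    Relation.ReflTransGen (LkC α hg t N i) b b' := by
  induction i with
  | zero =>
    rw [h.zero b b']
  | succ i ih =>
    have h1 : ∀ c : τ i, Relation.ReflTransGen (LkC α hg t N i) (dn i b) c →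
        ∃ b₁ : τ (i + 1), dn i b₁ = c ∧ Relation.ReflTransGen (LkC α hg t N (i + 1)) b b₁ := by
      intro c hc
      induction hc with
      | refl => exact ⟨b, rfl, Relation.ReflTransGen.refl⟩
      | @tail c c' _ hcc ih =>
        obtain ⟨b₁, hb₁, hp⟩ := ih
        obtain ⟨hne, m, σ, g, h2, h3, h4, h5⟩ := hcc
        have h6 : dn i (prm (α (i + 1)) (hg (i + 1)) g b₁) = c' := by
          rw [h.eqv, hb₁, h5]
        refine ⟨_, h6, hp.tail ⟨fun h7 => hne ?_, m, σ, g, h2, by omega, h4, rfl⟩⟩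
        rw [← h6, ← h7, hb₁]
    obtain ⟨b₁, hb₁, hp⟩ := h1 (dn i b') (ih (by omega) _ _)
    refine hp.trans ?_
    refine Relation.ReflTransGen.lift (fun x => x) (fun x y hxy => ?_) _ _
      (h.conn i hi b₁ b' hb₁)
    obtain ⟨hne, σ, g, hl, h2⟩ := hxy
    exact ⟨hne, i + 1, σ, g, by omega, le_rfl, hl, h2⟩

/-- there is an edge in each fibre -/
theorem exists_own (h : TowerC α hg dn t N) {i : ℕ} (hi : i + 1 ≤ N) (c : τ i) :
    ∃ x y, dn i x = c ∧ OwnEdge α hg t N i x y := by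
  obtain ⟨x, hx, y, hy, hxy⟩ := Finset.one_lt_card.1
    (lt_trans one_lt_two (h.card i (by omega) c))
  rw [mem_pre, Finset.mem_singleton] at hx hy
  rcases Relation.ReflTransGen.cases_head (h.conn i hi x y (by rw [hx, hy])) with h1 | ⟨z, h1, -⟩
  · exact absurd h1 hxy
  · exact ⟨x, z, hx, h1⟩

end tower

section tan

variable {K F : Type*} [Field K] [Field F] [Algebra K F] [IsAlgClosed F] [Normal K F] {τ : ℕ → Type*}
  [∀ n, Fintype (τ n)] [∀ n, DecidableEq (τ n)] {α : ∀ n, τ n → F} [∀ n, Hyp (α n)]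
  [∀ n, IsDomain (RG (fP (α n)))]
  {hg : ∀ n (s : F ≃ₐ[K] F), (fP (α n)).map ((s : F ≃+* F) : F →+* F) = fP (α n)}
  {dn : ∀ n, τ (n + 1) → τ n} {φ : ℕ → F[X]} (hc : ∀ n, Comp (α n) (α (n + 1)) (φ n))
  (hdn : ∀ n a, (φ n).eval (α (n + 1) a) = α n (dn n a)) (h2 : (2 : F) ≠ 0)
  (hodd : ∀ n, Odd (φ n).natDegree)
  (hφ : ∀ n (s : F ≃ₐ[K] F), (φ n).map ((s : F ≃+* F) : F →+* F) = φ n)
  {A : Type*} [Ring A] [Algebra ℤ_[2] A] [Module.Finite ℤ_[2] A] [Module.Free ℤ_[2] A]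
  {t : (F ≃ₐ[K] F) →* A} {N : ℕ}

include hdn hodd in
/-- the tangent vectors of one new part -/
theorem levelC_tan (h : TowerC α hg dn t N) (i : ℕ) (hi : i + 1 ≤ N)
    {A' : Type*} [Ring A'] [Algebra ℤ_[2] A'] [Module.Finite ℤ_[2] A'] [Module.Free ℤ_[2] A']
    (t' : (F ≃ₐ[K] F) →* A')
    (hown : ∀ σ g, LinkElt α hg t N (i + 1) σ g → ∃ M, t' σ = 1 + (4 : ℤ_[2]) • M)
    (hlk : ∀ m, 1 ≤ m → m ≤ i → ∀ σ g, LinkElt α hg t N m σ g → ∃ M,
      t' σ * t' σ = 1 + (4 : ℤ_[2]) • M)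
    (X : Module.End ℤ_[2] (nT hc h2 i)) (hX : X ∈ spQ (nB hc h2 i) (p1 _)) :
    Tan (nR hg hc h2 hφ i) t' X 0 := by
  let κ : Type _ := {x : (F ≃ₐ[K] F) × (F ≃ₐ[K] F) × τ (i + 1) //
    LinkElt α hg t N (i + 1) x.1 x.2.1 ∧ x.2.2 ≠ prm (α (i + 1)) (hg (i + 1)) x.2.1 x.2.2}
  let p : κ → τ (i + 1) := fun x => x.1.2.2
  let q : κ → τ (i + 1) := fun x => prm (α (i + 1)) (hg (i + 1)) x.1.2.1 x.1.2.2
  have hpq : ∀ x, p x ≠ q x := fun x => x.2.2
  have hfib : ∀ x, dn i (p x) = dn i (q x) := fun x => (own_fibC h x.2.1 _).symm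
  have hcon : ∀ x y, dn i x = dn i y → Relation.ReflTransGen (Edge p q) x y := by
    intro x y hxy
    refine Relation.ReflTransGen.lift (fun x => x) (fun x y hxy => ?_) _ _ (h.conn i hi x y hxy)
    obtain ⟨hne, σ, g, hl, h2⟩ := hxy
    exact ⟨⟨(σ, g, x), hl, by rwa [h2]⟩, Or.inl ⟨rfl, h2⟩⟩
  let Λ : Type _ := {x : κ × (F ≃ₐ[K] F) × (F ≃ₐ[K] F) //
    (∃ m, 1 ≤ m ∧ m ≤ i ∧ LinkElt α hg t N m x.2.1 x.2.2) ∧
      dn i (p x.1) ≠ prm (α i) (hg i) x.2.2 (dn i (p x.1))}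
  let k : Λ → κ := fun x => x.1.1
  let k' : Λ → κ := fun x => ⟨(x.1.2.2 * x.1.1.1.1 * x.1.2.2⁻¹, x.1.2.2 * x.1.1.1.2.1 * x.1.2.2⁻¹,
      prm (α (i + 1)) (hg (i + 1)) x.1.2.2 x.1.1.1.2.2), x.1.1.2.1.conj x.1.2.2 hi, by
    change prm (α (i + 1)) (hg (i + 1)) x.1.2.2 x.1.1.1.2.2 ≠
      prm (α (i + 1)) (hg (i + 1)) (x.1.2.2 * x.1.1.1.2.1 * x.1.2.2⁻¹)
        (prm (α (i + 1)) (hg (i + 1)) x.1.2.2 x.1.1.1.2.2)
    rw [prm_conj_apply]
    exact fun h1 => x.1.1.2.2 ((prm _ _ _).injective h1)⟩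
  have hpk : ∀ (x : Λ), prm (α (i + 1)) (hg (i + 1)) x.1.2.2 (p (k x)) = p (k' x) := fun x => rfl
  have hqk : ∀ (x : Λ), prm (α (i + 1)) (hg (i + 1)) x.1.2.2 (q (k x)) = q (k' x) := fun x =>
    (prm_conj_apply (i + 1) x.1.2.2 x.1.1.1.2.1 x.1.1.1.2.2).symm
  have hinv : ∀ (x : Λ) (y : τ (i + 1)), prm (α (i + 1)) (hg (i + 1)) x.1.2.2
      (prm (α (i + 1)) (hg (i + 1)) x.1.2.2 y) = y := by
    intro x y
    obtain ⟨m, -, -, hl₁⟩ := x.2.1
    exact hl₁.invol _ hi y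
  refine tan_new (hc i) (dn i) (hdn i) h2 (hodd i) (hg i) (hg (i + 1)) (hφ i) p q hpq hfib
    (h.card i hi) hcon k k' (fun x => ?_)
    (fun b b' => ?_) t' (fun x => x.1.1) (fun x => ?_) (fun x => x.2.1.cyclo)
    (fun x => hown _ _ x.2.1) (fun x => x.1.2.1)
    (fun x => prm (α (i + 1)) (hg (i + 1)) x.1.2.2)
    (fun x => ?_) (fun x => ⟨hpk x, hqk x, by rw [← hpk x, hinv], by rw [← hqk x, hinv]⟩)
    (fun x => ?_) (fun x => ?_) X hX
  · have h1 := x.2.2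
    rwa [← h.eqv, hpk] at h1
  · refine Relation.ReflTransGen.lift (fun x => x) (fun c c' hcc => ?_) _ _
      (towerC_conn h i (by omega) b b')
    obtain ⟨hne', m, σ₁, g₁, h4, h5, h6, h7⟩ := hcc
    obtain ⟨x, y, hx, hne, σ, g, hl, hxy⟩ := exists_own h hi c
    refine ⟨⟨(⟨(σ, g, x), hl, by rwa [hxy]⟩, (σ₁, g₁)), ⟨m, h4, h5, h6⟩, ?_⟩,
      Or.inl ⟨hx, ?_⟩⟩
    · change dn i x ≠ prm (α i) (hg i) g₁ (dn i x)
      rw [hx, h7]
      exact hne'
    · change dn i (prm (α (i + 1)) (hg (i + 1)) g₁ x) = c'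
      rw [h.eqv, hx, h7]
  · -- the signs of the own elements
    obtain ⟨⟨σ, g, x⟩, hl, hne⟩ := x
    change SignsOn (α (i + 1)) σ {x, prm (α (i + 1)) (hg (i + 1)) g x}
    obtain ⟨a, b, hab, hgab, hfix⟩ := hl.own
    have hba : prm (α (i + 1)) (hg (i + 1)) g b = a := by rw [← hgab, hl.invol _ hi]
    have hfix' : ∀ y, y ≠ x → y ≠ prm (α (i + 1)) (hg (i + 1)) g x →
        prm (α (i + 1)) (hg (i + 1)) g y = y := by
      intro y hy1 hy2
      by_cases hxa : x = a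
      · subst hxa
        rw [hgab] at hy2
        exact hfix y hy1 hy2
      · by_cases hxb : x = b
        · subst hxb
          rw [hba] at hy2
          exact hfix y hy2 hy1
        · exact absurd (hfix x hxa hxb).symm hne
    exact SignsAt.signsOn (hl.signs _ hi) rfl (hl.invol _ hi x) hfix'
  · obtain ⟨m, -, -, hl₁⟩ := x.2.1
    exact hl₁.signs _ hi
  · obtain ⟨m, -, -, hl₁⟩ := x.2.1
    exact hl₁.cyclo
  · obtain ⟨m, h4, h5, hl₁⟩ := x.2.1
    exact hlk m h4 h5 _ _ hl₁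

include hdn hodd in
/-- **The joint tangent vectors.** -/
theorem towerC_tan (h : TowerC α hg dn t N)
    {X : ∀ i : Fin N, Module.End ℤ_[2] (nT hc h2 i)}
    (hX : ∀ i : Fin N, X i ∈ spQ (nB hc h2 i) (p1 _)) :
    TanA (jw (fun i : Fin N => nR hg hc h2 hφ i) t) (X, 0) := by
  refine tri_pairs (B := fun i : Fin N => nB hc h2 i) (χ := cyc K F)
    (fun i x => newB_alt (hc i) h2 x)
    (fun i v hv => newB_nd (hc i) (dn i) (hdn i) h2 (hodd i) v hv)
    (fun i s x y => newB_act (hc i) h2 (hg i) (hg (i + 1)) (hφ i) s x y)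
    (fun i => (i : ℕ)) Fin.val_injective (fun i j hij X hX => ?_) (fun i X hX => ?_) hX
  · refine levelC_tan hc hdn h2 hodd hφ h (i : ℕ) (by omega)
      (nR hg hc h2 hφ j : (F ≃ₐ[K] F) →* _) (fun σ g hl => ?_) (fun m h4 h5 σ g hl => ?_) X hX
    · refine new_trivial (hc j) h2 (hg j) (hg (j + 1)) (hφ j) ?_
      have hj : (j : ℕ) + 1 ≤ N := by omega
      exact (hl.signs _ hj).signsOn_empty (hl.low _ (by omega))
    · have hj : (j : ℕ) + 1 ≤ N := by omega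
      exact sq_four (new_link_two (hc j) h2 (hg j) (hg (j + 1)) (hφ j) (hl.signs _ hj))
  · refine levelC_tan hc hdn h2 hodd hφ h (i : ℕ) (by omega) t (fun σ g hl => hl.val)
      (fun m h4 h5 σ g hl => ?_) X hX
    obtain ⟨M, hM⟩ := hl.val
    exact sq_four ⟨(2 : ℤ_[2]) • M, by rw [hM, smul_smul]; norm_num⟩

end tan

end

end Pool.Agent.H852.J
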