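import Mathlib
import Pool.Agent.H852.J.B13
import Pool.Agent.H852.J.E1

/-!
# Compositions of polynomials: all prime numbers, from connected fibres
-/

set_option linter.unusedSectionVars false
set_option autoImplicit false

open TensorProduct Polynomial Matrix Filter Topology Module NumberField IsDedekindDomain
open Pool.Agent.Y142.ZO (GK IsFrobenius)
open Pool.Agent.N171 Pool.Agent.N171.Al Pool.Agent.N171.Pm Pool.Agent.N171.Bg Pool.Agent.N171.TG
open Pool.Agent.Results.MP_640417_ag.HyperellipticEveryPrime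

namespace Pool.Agent.H852.J

noncomputable section

section main

variable {K : Type} [Field K] [NumberField K] {g : ℕ → K[X]}

open Classical in
/-- **From connected fibres to all prime numbers.** -/
theorem everyPrime_of_conn (h : CompHyp g) [hyp : ∀ n, Hyp (rtA g n)] {N : ℕ} (hN : 1 ≤ N)
    {d : ℕ} (τ : AbsoluteGaloisGroup K →* Matrix (Fin d) (Fin d) ℚ_[2]) (hτ : IsLattice τ)
    (t : GK K →* Matrix (Fin d) (Fin d) ℤ_[2]) (ht : IsLatOf t τ)
    (hconn : ∀ n < N, ∀ x y : Rt g (n + 1),
      aeval (x : AlgebraicClosure K) (g n) = aeval (y : AlgebraicClosure K) (g n) →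
      Relation.ReflTransGen (OwnEdge (rtA g) h.hg t N n) x y) :
    EveryPrime (fun _ : Unit => comps g N) τ := by
  have h2F : (2 : AlgebraicClosure K) ≠ 0 := two_ne_zero
  have hdom : ∀ n, IsDomain (RG (fP (rtA g n))) := by
    intro n
    rw [← h.fP_eq]
    have := h.hypP n
    infer_instance
  have hc := h.comp
  have hdn : ∀ n a, ((g n).map (algebraMap K (AlgebraicClosure K))).eval (rtA g (n + 1) a) =
      rtA g n (h.dn n a) := by
    intro n a
    rw [eval_map_algebraMap]
    rfl
  have hodd : ∀ n, Odd ((g n).map (algebraMap K (AlgebraicClosure K))).natDegree := by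
    intro n
    rw [natDegree_map]
    exact h.odd n
  have hφ : ∀ n (s : AlgebraicClosure K ≃ₐ[K] AlgebraicClosure K),
      ((g n).map (algebraMap K (AlgebraicClosure K))).map
        ((s : AlgebraicClosure K ≃+* AlgebraicClosure K) :
          AlgebraicClosure K →+* AlgebraicClosure K) =
        (g n).map (algebraMap K (AlgebraicClosure K)) := fun n s => rf_fix _ s
  have h0 : ∀ x y : Rt g 0, x = y := by
    intro x y
    have h3 : ∀ x : Rt g 0, (x : AlgebraicClosure K) = 0 := by
      intro x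
      have h4 := (h.root 0 x).1 x.2
      change aeval (x : AlgebraicClosure K) X = 0 at h4
      rwa [aeval_X] at h4
    exact Subtype.ext (by rw [h3 x, h3 y])
  have hspec : ∀ n (s : AlgebraicClosure K ≃ₐ[K] AlgebraicClosure K) (x : Rt g n),
      ((prm (rtA g n) (h.hg n) s x : Rt g n) : AlgebraicClosure K) = s x := fun n s x =>
    (prm_spec (rtA g n) (h.hg n) s x).symm
  have hcard : ∀ n b, (pre (h.dn n) {b}).card = (g n).natDegree := by
    intro n b
    have h3 := card_pre_one (h.dn n) (hdn n) b (hc n)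
    rwa [natDegree_map] at h3
  have heqv : ∀ n (s : AlgebraicClosure K ≃ₐ[K] AlgebraicClosure K) (x : Rt g (n + 1)),
      h.dn n (prm (rtA g (n + 1)) (h.hg (n + 1)) s x) = prm (rtA g n) (h.hg n) s (h.dn n x) := by
    intro n s x
    apply Subtype.ext
    rw [hspec]
    change aeval ((prm (rtA g (n + 1)) (h.hg (n + 1)) s x : Rt g (n + 1)) : AlgebraicClosure K)
      (g n) = s (aeval (x : AlgebraicClosure K) (g n))
    rw [hspec]
    exact Polynomial.aeval_algHom_apply (s : AlgebraicClosure K →ₐ[K] AlgebraicClosure K) _ _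
  have hT : TowerC (rtA g) h.hg h.dn t N :=
    { eqv := heqv
      zero := h0
      card := fun n _ b => by
        rw [hcard]
        exact h.deg n
      conn := fun i hi x y hxy => hconn i hi x y (congrArg Subtype.val hxy) }
  have hfN : HypP (comps g N) := h.hypP N
  have hf : ∀ _ : Unit, HypP (comps g N) := fun _ => h.hypP N
  refine ⟨hf, fun S m w P Q hS hPQ hJ hτQ ℓ _ V M _ _ _ _ _ _ r χ s hr h2 => ?_⟩
  have h1 := hr.2
  obtain ⟨n, R, ⟨E, hE⟩, hRP⟩ := hJ
  have hR : Continuous R := Pool.Agent.N197.AP.t_CONT2 K (AlgebraicClosure K) Unit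
    (fun _ => comps g N) (fun i x => Pool.Agent.N197.AP.t_CONT1 K (AlgebraicClosure K) (comps g N) x)
    n R E hE
  obtain ⟨E₁, hE₁⟩ := exists_decV (hg := h.hg) hc hdn h2F hodd hφ h0 N
    ((comps g N).map (algebraMap K (AlgebraicClosure K))) (fun s => rf_fix _ s) (h.fP_eq N)
  have hpos : ∃ i : Fin N, 0 < finrank ℤ_[2] (nT hc h2F i) := by
    refine ⟨⟨0, hN⟩, ?_⟩
    have hn : Nontrivial (nT hc h2F 0) := by
      obtain ⟨b⟩ : Nonempty (Rt g 0) := by
        rw [← Fintype.card_pos_iff, h.card]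
        change 0 < (X : K[X]).natDegree
        rw [natDegree_X]
        exact one_pos
      obtain ⟨a, b', -, hab, -⟩ := exists_own hT hN b
      have hfib : FibEven (h.dn 0) ({a, b'} : Finset (Rt g 1)) := by
        intro c
        have h3 : pre (h.dn 0) {c} ∩ {a, b'} = {a, b'} := by
          ext x
          rw [Finset.mem_inter, mem_pre, Finset.mem_singleton, and_iff_right_iff_imp]
          exact fun _ => h0 _ _
        rw [h3, Finset.card_pair hab]
        exact even_two
      obtain ⟨x, hx, hx1⟩ := exists_perp (hc 0) (h.dn 0) (hdn 0) h2F (hodd 0) hfib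
      refine ⟨⟨⟨x, hx⟩, 0, fun h3 => ?_⟩⟩
      have h4 : x = 0 := congrArg Subtype.val h3
      rw [h4] at hx1
      have h5 : DS (ThG (rtA g 1)) ({a, b'} : Finset (Rt g 1)) = 0 := hx1.symm
      have h6 := DS_inj (by rw [Finset.card_pair hab]; exact even_two) h5
      exact Finset.insert_ne_empty _ _ h6
    exact Module.finrank_pos
  let E₂ : (Fin n → ℚ_[2]) ≃ₗ[ℚ_[2]] (∀ i : Fin N, ℚ_[2] ⊗[ℤ_[2]] nT hc h2F i) :=
    (E.trans (LinearEquiv.funUnique Unit ℚ_[2] (Vt (JacP (comps g N) (AlgebraicClosure K))))).trans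
      E₁
  refine holds_of_lats (fun i : Fin N => nT hc h2F i) (fun i => nR h.hg hc h2F hφ i)
    (fun i => nB hc h2F i) (fun i x => newB_alt (hc i) h2F x)
    (fun i v hv => newB_nd (hc i) (h.dn i) (hdn i) h2F (hodd i) v hv)
    (fun i s x y => newB_act (hc i) h2F (h.hg i) (h.hg (i + 1)) (hφ i) s x y) hpos t τ hτ.1 ht
    (fun X hX => towerC_tan hc hdn h2F hodd hφ hT hX) S hS P Q (fun v hv z hz => ?_)
    (fun v hv z hz => (hPQ v hv).2 z hz) R hR E₂ (fun s x i => ?_) hRP (fun v hv hv2 σ hσ => ?_)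
    ℓ V M r χ s hr.1
    (fun v hv hvℓ σ hσ => ⟨(h1 v hv hvℓ σ hσ).1, (h1 v hv hvℓ σ hσ).2, h2 v hv hvℓ σ hσ⟩)
  · have h3 := (hPQ v hv).1 z hz
    rwa [zpow_one] at h3
  · change E₁ (E (R s *ᵥ x) ()) i = _
    rw [hE]
    exact hE₁ s (E x ()) i
  · have h3 := hτQ v hv (by rwa [Nat.cast_ofNat]) σ hσ
    rw [← h3]
    exact (Matrix.charpoly_toLin' (τ σ⁻¹)).symm

end main

end

end Pool.Agent.H852.J
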