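import Mathlib
import Pool.Agent.H852.J.P4

/-!
# Polynomials with one double root modulo a place
-/

set_option linter.unusedSectionVars false
set_option autoImplicit false

namespace Pool.Agent.H852.J

open Matrix Polynomial Filter Topology Module NumberField IsDedekindDomain WithZero
open HeightOneSpectrum

section red

variable {K : Type} [Field K] [NumberField K] (f : (𝓞 K)[X]) (v : HeightOneSpectrum (𝓞 K))

/-- the reduction of `f` modulo `v` -/
noncomputable def redn : (𝓞 K ⧸ v.asIdeal)[X] := f.map (Ideal.Quotient.mk v.asIdeal)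

/-- `f` has exactly one double root modulo `v`, and the valuation of the discriminant is not divisible by
four -/
structure OneNode : Prop where
  split : ∃ (a : 𝓞 K ⧸ v.asIdeal) (h : (𝓞 K ⧸ v.asIdeal)[X]), redn f v = (X - C a) ^ 2 * h ∧
    ((X - C a) * h).Separable
  disc : ∃ m : ℕ, ¬ 4 ∣ m ∧ v.intValuation f.discr = exp (-(m : ℤ))

variable {f v} {M : Type} [Field M] [NumberField M] [Algebra K M] (P : HeightOneSpectrum (𝓞 M))
  [P.asIdeal.LiesOver v.asIdeal]

/-- the reduction of an integral element -/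
noncomputable def rd (x : 𝓞 M) : 𝓞 M ⧸ P.asIdeal := Ideal.Quotient.mk P.asIdeal x

theorem aeval_coe_int (u : 𝓞 M) (f : (𝓞 K)[X]) :
    aeval (u : M) (f.map (algebraMap (𝓞 K) K)) = ((aeval u f : 𝓞 M) : M) := by
  have h1 : ((aeval u f : 𝓞 M) : M) = aeval (algebraMap (𝓞 M) M u) f := by
    rw [aeval_algebraMap_apply]
  rw [h1, aeval_map_algebraMap]

theorem int_of_root (hm : f.Monic) {u : M} (hu : aeval u (f.map (algebraMap (𝓞 K) K)) = 0) :
    ∃ z : 𝓞 M, (z : M) = u ∧ aeval z f = 0 := by
  have h1 : IsIntegral (𝓞 K) u := ⟨f, hm, by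
    rw [aeval_map_algebraMap] at hu
    exact hu⟩
  have h2 : IsIntegral ℤ u := isIntegral_trans (R := ℤ) (A := 𝓞 K) u h1
  refine ⟨⟨u, h2⟩, rfl, ?_⟩
  have h3 := aeval_coe_int (K := K) (⟨u, h2⟩ : 𝓞 M) f
  change aeval u (f.map (algebraMap (𝓞 K) K)) = _ at h3
  rw [hu] at h3
  exact RingOfIntegers.ext h3.symm

theorem val_lt_iff (x y : 𝓞 M) : P.valuation M ((x : M) - y) < 1 ↔ rd P x = rd P y := by
  have h1 : ((x : M) - y) = algebraMap (𝓞 M) M (x - y) := by rw [map_sub]
  rw [h1, valuation_lt_one_iff_mem]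
  exact (Ideal.Quotient.eq).symm

theorem val_one_of_ne {x y : 𝓞 M} (h : rd P x ≠ rd P y) : P.valuation M ((x : M) - y) = 1 := by
  refine le_antisymm ?_ (not_lt.1 fun h1 => h ((val_lt_iff P x y).1 h1))
  have h1 : ((x : M) - y) = algebraMap (𝓞 M) M (x - y) := by rw [map_sub]
  rw [h1]
  exact P.valuation_le_one _

/-- the map of the residue fields -/
noncomputable def resm (v : HeightOneSpectrum (𝓞 K)) (P : HeightOneSpectrum (𝓞 M))
    [P.asIdeal.LiesOver v.asIdeal] : 𝓞 K ⧸ v.asIdeal →+* 𝓞 M ⧸ P.asIdeal :=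
  algebraMap (𝓞 K ⧸ v.asIdeal) (𝓞 M ⧸ P.asIdeal)

theorem resm_mk (x : 𝓞 K) : resm v P (Ideal.Quotient.mk v.asIdeal x) =
    Ideal.Quotient.mk P.asIdeal (algebraMap (𝓞 K) (𝓞 M) x) := rfl

theorem map_redn : (redn f v).map (resm v P) =
    (f.map (algebraMap (𝓞 K) (𝓞 M))).map (Ideal.Quotient.mk P.asIdeal) := by
  rw [redn, Polynomial.map_map, Polynomial.map_map]
  congr 1

theorem eval_redn (z : 𝓞 M) : eval (rd P z) ((redn f v).map (resm v P)) = rd P (aeval z f) := by
  rw [map_redn, rd, eval_map, eval₂_at_apply, eval_map, ← aeval_def]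
  rfl

/-! ### the roots -/

section roots

variable [IsGalois K M]

theorem good_diff (h : (redn f v).Separable) {x y : 𝓞 M} (hx : aeval x f = 0)
    (hy : aeval y f = 0) (hxy : x ≠ y) : rd P x ≠ rd P y := by
  intro he
  -- `f = (X - x) * g` and `g y = 0`
  set F := f.map (algebraMap (𝓞 K) (𝓞 M)) with hF
  have hx' : F.IsRoot x := by
    rw [IsRoot.def, hF, eval_map, ← aeval_def]
    exact hx
  have hy' : F.IsRoot y := by
    rw [IsRoot.def, hF, eval_map, ← aeval_def]
    exact hy
  obtain ⟨g, hg⟩ := dvd_iff_isRoot.2 hx'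
  have hgy : g.IsRoot y := by
    rw [IsRoot.def] at hy' ⊢
    rw [hg, eval_mul, eval_sub, eval_X, eval_C] at hy'
    exact (mul_eq_zero.1 hy').resolve_left (sub_ne_zero.2 (Ne.symm hxy))
  have hsep : ((redn f v).map (resm v P)).Separable := h.map
  rw [map_redn, ← hF, hg, Polynomial.map_mul, Polynomial.map_sub, map_X, map_C] at hsep
  have h1 : (g.map (Ideal.Quotient.mk P.asIdeal)).IsRoot (rd P x) := by
    rw [he, IsRoot.def, rd, eval_map, eval₂_at_apply, hgy.eq_zero, map_zero]
  have h2 := dvd_iff_isRoot.2 h1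
  have h3 : (X - C (rd P x)) * (X - C (rd P x)) ∣
      (X - C (rd P x)) * g.map (Ideal.Quotient.mk P.asIdeal) := mul_dvd_mul_left _ h2
  have h4 := hsep.squarefree _ h3
  have : Nontrivial (𝓞 M ⧸ P.asIdeal) := Ideal.Quotient.nontrivial_iff.2 P.isPrime.ne_top
  exact not_isUnit_X_sub_C _ h4

end roots

section node

variable [IsGalois K M]

/-- the roots in the ring of integers -/
noncomputable def rts (f : (𝓞 K)[X]) (M : Type) [Field M] [NumberField M] [Algebra K M] :
    Multiset (𝓞 M) := (f.map (algebraMap (𝓞 K) (𝓞 M))).roots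

theorem mem_rts (hm : f.Monic) {z : 𝓞 M} : z ∈ rts f M ↔ aeval z f = 0 := by
  rw [rts, mem_roots (hm.map _).ne_zero, IsRoot.def, eval_map, ← aeval_def]

theorem splits_int (hm : f.Monic) (hs : (f.map (algebraMap (𝓞 K) M)).Splits) :
    (f.map (algebraMap (𝓞 K) (𝓞 M))).Splits := by
  refine Splits.of_splits_map_of_injective (i := algebraMap (𝓞 M) M)
    (FaithfulSMul.algebraMap_injective _ _) ?_ fun a ha => ?_
  · rw [Polynomial.map_map, ← IsScalarTower.algebraMap_eq]
    exact hs
  · have h1 := (mem_roots'.1 ha).2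
    rw [IsRoot.def, Polynomial.map_map, ← IsScalarTower.algebraMap_eq, eval_map] at h1
    have h2 : aeval a (f.map (algebraMap (𝓞 K) K)) = 0 := by
      rw [aeval_map_algebraMap]
      exact h1
    obtain ⟨z, hz, -⟩ := int_of_root hm h2
    exact ⟨z, hz⟩

theorem prod_rts (hm : f.Monic) (hs : (f.map (algebraMap (𝓞 K) M)).Splits) :
    f.map (algebraMap (𝓞 K) (𝓞 M)) = ((rts f M).map fun z => X - C z).prod :=
  (splits_int hm hs).eq_prod_roots_of_monic (hm.map _)

theorem redn_prod (hm : f.Monic) (hs : (f.map (algebraMap (𝓞 K) M)).Splits) :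
    (redn f v).map (resm v P) = (((rts f M).map (rd P)).map fun z => X - C z).prod := by
  rw [map_redn, prod_rts hm hs, Polynomial.map_multiset_prod, Multiset.map_map, Multiset.map_map]
  congr 1
  refine Multiset.map_congr rfl fun z _ => ?_
  simp [rd]

theorem count_twoN [DecidableEq (𝓞 M ⧸ P.asIdeal)] (hm : f.Monic)
    (hs : (f.map (algebraMap (𝓞 K) M)).Splits)
    {a : 𝓞 K ⧸ v.asIdeal} {h : (𝓞 K ⧸ v.asIdeal)[X]} (h1 : redn f v = (X - C a) ^ 2 * h)
    (h2 : ((X - C a) * h).Separable) :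
    ((rts f M).map (rd P)).count (resm v P a) = 2 ∧
      ∀ c, c ≠ resm v P a → ((rts f M).map (rd P)).count c ≤ 1 := by
  have hdom : IsDomain (𝓞 M ⧸ P.asIdeal) := Ideal.Quotient.isDomain P.asIdeal
  have h3 : (rts f M).map (rd P) = ((redn f v).map (resm v P)).roots := by
    rw [redn_prod P hm hs, roots_multiset_prod_X_sub_C]
  have h4 : (redn f v).map (resm v P) = (X - C (resm v P a)) ^ 2 * h.map (resm v P) := by
    rw [h1, Polynomial.map_mul, Polynomial.map_pow, Polynomial.map_sub, map_X, map_C]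
  have h5 : ((X - C (resm v P a)) * h.map (resm v P)).Separable := by
    have h6 := h2.map (f := resm v P)
    rwa [Polynomial.map_mul, Polynomial.map_sub, map_X, map_C] at h6
  have hne : (redn f v).map (resm v P) ≠ 0 := by
    rw [redn_prod P hm hs]
    exact (monic_multiset_prod_of_monic _ _ fun z _ => monic_X_sub_C z).ne_zero
  have h6 : ((redn f v).map (resm v P)).roots =
      2 • {resm v P a} + (h.map (resm v P)).roots := by
    rw [h4] at hne ⊢
    rw [roots_mul hne, roots_pow, roots_X_sub_C]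
  have h7 : ¬ (h.map (resm v P)).IsRoot (resm v P a) := by
    intro h8
    have h9 := mul_dvd_mul_left (X - C (resm v P a)) (dvd_iff_isRoot.2 h8)
    exact not_isUnit_X_sub_C _ (h5.squarefree _ h9)
  have hh0 : h.map (resm v P) ≠ 0 := by
    intro h8
    rw [h4, h8, mul_zero] at hne
    exact hne rfl
  have h8 : (h.map (resm v P)).roots.Nodup := nodup_roots (h5.of_mul_right)
  rw [h3, h6]
  constructor
  · rw [Multiset.count_add, Multiset.count_nsmul, Multiset.count_singleton_self,
      Multiset.count_eq_zero_of_notMem fun h9 => h7 ((mem_roots'.1 h9).2)]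
  · intro c hc
    rw [Multiset.count_add, Multiset.count_nsmul, Multiset.count_singleton, if_neg hc, mul_zero,
      zero_add]
    exact Multiset.nodup_iff_count_le_one.1 h8 c

theorem val_disc (hm : f.Monic) (hs : (f.map (algebraMap (𝓞 K) M)).Splits) [DecidableEq (𝓞 M)]
    (hd : 0 < f.natDegree) :
    P.valuation M (algebraMap (𝓞 M) M (algebraMap (𝓞 K) (𝓞 M) f.discr)) =
      ((rts f M).map fun z : 𝓞 M => (((rts f M).erase z).map fun y : 𝓞 M =>
        P.valuation M ((z : M) - (y : M))).prod).prod := by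
  have hsi := splits_int hm hs
  set F := f.map (algebraMap (𝓞 K) (𝓞 M)) with hF
  have hFm : F.Monic := hm.map _
  have hFd : F.natDegree = f.natDegree := hm.natDegree_map _
  have h1 : resultant f f.derivative f.natDegree (f.natDegree - 1) =
      (-1) ^ (f.natDegree * (f.natDegree - 1) / 2) * f.discr := by
    rw [resultant_deriv (natDegree_pos_iff_degree_pos.1 hd), hm.leadingCoeff, mul_one]
  have h2 : resultant F F.derivative F.natDegree (F.natDegree - 1) =
      algebraMap (𝓞 K) (𝓞 M) ((-1) ^ (f.natDegree * (f.natDegree - 1) / 2) * f.discr) := by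
    rw [← h1, hFd, hF, derivative_map, resultant_map_map]
  have h3 := resultant_eq_prod_eval F F.derivative (F.natDegree - 1)
    (natDegree_derivative_le F) hsi
  rw [h2, hFm.leadingCoeff, one_pow, one_mul] at h3
  have h4 : P.valuation M (algebraMap (𝓞 M) M (algebraMap (𝓞 K) (𝓞 M) f.discr)) =
      P.valuation M (algebraMap (𝓞 M) M ((F.roots.map F.derivative.eval).prod)) := by
    rw [← h3, map_mul, map_mul, map_mul, map_pow, map_pow, map_pow, map_neg, map_neg, map_one,
      map_one, Valuation.map_neg, map_one, one_pow, one_mul]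
  rw [h4, map_multiset_prod, map_multiset_prod, Multiset.map_map, Multiset.map_map]
  congr 1
  refine Multiset.map_congr rfl fun z hz => ?_
  rw [Function.comp_apply, Function.comp_apply, hsi.eval_root_derivative hFm hz, map_multiset_prod,
    map_multiset_prod, Multiset.map_map, Multiset.map_map]
  congr 1

theorem prod_one {α Γ : Type} [CommMonoid Γ] {s : Multiset α} {g : α → Γ}
    (h : ∀ x ∈ s, g x = 1) : (s.map g).prod = 1 := by
  refine Multiset.prod_eq_one fun y hy => ?_
  obtain ⟨x, hx, rfl⟩ := Multiset.mem_map.1 hy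
  exact h x hx

/-- **The pair of roots with the same residue.** -/
theorem node_roots (hm : f.Monic) (hs : (f.map (algebraMap (𝓞 K) M)).Splits)
    (hnd : (rts f M).Nodup) (hd : 0 < f.natDegree) (h : OneNode f v) :
    ∃ a b : 𝓞 M, a ∈ rts f M ∧ b ∈ rts f M ∧ a ≠ b ∧
      (∀ x ∈ rts f M, ∀ y ∈ rts f M, x ≠ y → ¬ ((x = a ∨ x = b) ∧ (y = a ∨ y = b)) →
        rd P x ≠ rd P y) ∧
      P.valuation M (algebraMap (𝓞 M) M (algebraMap (𝓞 K) (𝓞 M) f.discr)) =
        P.valuation M ((a : M) - (b : M)) ^ 2 ∧ rd P a = rd P b := by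
  classical
  obtain ⟨c, g, h1, h2⟩ := h.split
  obtain ⟨h3, h4⟩ := count_twoN (v := v) P hm hs h1 h2
  rw [Multiset.count_map] at h3
  obtain ⟨a, b, hab⟩ := Multiset.card_eq_two.1 h3
  have hfil : ∀ x, x ∈ rts f M ∧ resm v P c = rd P x ↔ x = a ∨ x = b := by
    intro x
    have h5 : x ∈ Multiset.filter (fun a => resm v P c = rd P a) (rts f M) ↔ x = a ∨ x = b := by
      rw [hab]
      simp
    rwa [Multiset.mem_filter] at h5
  have ha := (hfil a).2 (Or.inl rfl)
  have hb := (hfil b).2 (Or.inr rfl)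
  have hne : a ≠ b := by
    have h5 : (Multiset.filter (fun x => resm v P c = rd P x) (rts f M)).Nodup := hnd.filter _
    rw [hab] at h5
    intro h6
    rw [h6] at h5
    simp at h5
  have hsame : ∀ x ∈ rts f M, ∀ y ∈ rts f M, x ≠ y → rd P x = rd P y →
      (x = a ∨ x = b) ∧ (y = a ∨ y = b) := by
    intro x hx y hy hxy he
    have h5 : rd P x = resm v P c := by
      by_contra h6
      have h7 := h4 _ h6
      have h8 : ({x, y} : Multiset (𝓞 M)) ≤ rts f M := by
        have h9 : ({x, y} : Multiset (𝓞 M)).Nodup := by simp [hxy]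
        rw [Multiset.le_iff_subset h9]
        intro z hz
        simp only [Multiset.insert_eq_cons, Multiset.mem_cons, Multiset.mem_singleton] at hz
        rcases hz with rfl | rfl
        · exact hx
        · exact hy
      have h9 := Multiset.count_le_of_le (rd P x) (Multiset.map_le_map (f := rd P) h8)
      have h10 : (Multiset.map (rd P) ({x, y} : Multiset (𝓞 M))).count (rd P x) = 2 := by
        simp [he]
      omega
    exact ⟨(hfil x).1 ⟨hx, h5.symm⟩, (hfil y).1 ⟨hy, by rw [← he, h5]⟩⟩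
  have hdiff : ∀ x ∈ rts f M, ∀ y ∈ rts f M, x ≠ y → ¬ ((x = a ∨ x = b) ∧ (y = a ∨ y = b)) →
      rd P x ≠ rd P y := fun x hx y hy hxy hn he => hn (hsame x hx y hy hxy he)
  refine ⟨a, b, ha.1, hb.1, hne, hdiff, ?_, ha.2.symm.trans hb.2⟩
  rw [val_disc P hm hs hd]
  -- the factors
  have hfac : ∀ z ∈ rts f M, z ≠ a → z ≠ b →
      (((rts f M).erase z).map fun y : 𝓞 M => P.valuation M ((z : M) - (y : M))).prod = 1 := by
    intro z hz hza hzb
    refine prod_one fun y hy => ?_
    rw [hnd.mem_erase_iff] at hy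
    refine val_one_of_ne P (hdiff z hz y hy.2 (Ne.symm hy.1) ?_)
    rintro ⟨h5 | h5, -⟩
    · exact hza h5
    · exact hzb h5
  have hfa : ∀ a b : 𝓞 M, a ∈ rts f M → b ∈ rts f M → a ≠ b →
      (∀ x ∈ rts f M, ∀ y ∈ rts f M, x ≠ y → ¬ ((x = a ∨ x = b) ∧ (y = a ∨ y = b)) →
        rd P x ≠ rd P y) →
      (((rts f M).erase a).map fun y : 𝓞 M => P.valuation M ((a : M) - (y : M))).prod =
        P.valuation M ((a : M) - (b : M)) := by
    intro a b ha hb hne hdiff
    have h5 : b ∈ (rts f M).erase a := by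
      rw [hnd.mem_erase_iff]
      exact ⟨Ne.symm hne, hb⟩
    rw [← Multiset.cons_erase h5, Multiset.map_cons, Multiset.prod_cons, prod_one, mul_one]
    intro y hy
    have h6 : ((rts f M).erase a).Nodup := hnd.erase a
    rw [h6.mem_erase_iff, hnd.mem_erase_iff] at hy
    refine val_one_of_ne P (hdiff a ha y hy.2.2 (Ne.symm hy.2.1) ?_)
    rintro ⟨-, h7 | h7⟩
    · exact hy.2.1 h7
    · exact hy.1 h7
  have h5 : a ::ₘ b ::ₘ ((rts f M).erase a).erase b = rts f M := by
    rw [Multiset.cons_erase, Multiset.cons_erase ha.1]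
    rw [hnd.mem_erase_iff]
    exact ⟨Ne.symm hne, hb.1⟩
  have h6 : ((rts f M).map fun z : 𝓞 M => (((rts f M).erase z).map fun y : 𝓞 M =>
        P.valuation M ((z : M) - (y : M))).prod).prod =
      (((a ::ₘ b ::ₘ ((rts f M).erase a).erase b)).map fun z : 𝓞 M =>
        (((rts f M).erase z).map fun y : 𝓞 M =>
          P.valuation M ((z : M) - (y : M))).prod).prod := by
    rw [h5]
  rw [h6, Multiset.map_cons, Multiset.prod_cons, Multiset.map_cons, Multiset.prod_cons,
    hfa a b ha.1 hb.1 hne hdiff,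
    hfa b a hb.1 ha.1 (Ne.symm hne) (fun x hx y hy hxy hn => hdiff x hx y hy hxy fun h7 =>
      hn ⟨h7.1.symm, h7.2.symm⟩), prod_one, mul_one, Valuation.map_sub_swap _ (b : M), sq]
  intro z hz
  have h7 : ((rts f M).erase a).Nodup := hnd.erase a
  rw [h7.mem_erase_iff, hnd.mem_erase_iff] at hz
  exact hfac z hz.2.2 hz.2.1 hz.1

end node

end red

end Pool.Agent.H852.J
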