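import Mathlib
import Pool.Agent.H852.J.N1
import Pool.Agent.H852.J.A2

/-!
# The criterion with discriminants
-/

set_option linter.unusedSectionVars false
set_option autoImplicit false

namespace Pool.Agent.H852.J

open Matrix Polynomial Filter Topology Module NumberField IsDedekindDomain WithZero
open HeightOneSpectrum
open Pool.Agent.N171 Pool.Agent.N171.Al Pool.Agent.N171.Pm Pool.Agent.N171.Bg Pool.Agent.N171.TG
open Pool.Agent.Results.MP_640417_ag.HyperellipticEveryPrime

section fin

variable {K : Type} [Field K] [NumberField K] {f : (𝓞 K)[X]} {v : HeightOneSpectrum (𝓞 K)}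

theorem sep_of_disc (hm : f.Monic) (hd : 0 < f.natDegree) (h : f.discr ≠ 0) :
    (f.map (algebraMap (𝓞 K) K)).Separable := by
  have h1 : resultant f f.derivative f.natDegree (f.natDegree - 1) =
      (-1) ^ (f.natDegree * (f.natDegree - 1) / 2) * f.discr := by
    rw [resultant_deriv (natDegree_pos_iff_degree_pos.1 hd), hm.leadingCoeff, mul_one]
  set g := f.map (algebraMap (𝓞 K) K) with hg
  have hgd : g.natDegree = f.natDegree := hm.natDegree_map _
  have h2 : resultant g g.derivative g.natDegree (g.natDegree - 1) =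
      algebraMap (𝓞 K) K ((-1) ^ (f.natDegree * (f.natDegree - 1) / 2) * f.discr) := by
    rw [← h1, hgd, hg, derivative_map, resultant_map_map]
  have h3 : resultant g g.derivative g.natDegree (g.natDegree - 1) ≠ 0 := by
    rw [h2, Ne, FaithfulSMul.algebraMap_eq_zero_iff]
    exact mul_ne_zero (pow_ne_zero _ (neg_ne_zero.2 one_ne_zero)) h
  have hdd : g.derivative.natDegree = g.natDegree - 1 :=
    natDegree_derivative g
  rw [← hdd] at h3
  rw [separable_def]
  by_contra h4
  apply h3
  have h5 := (resultant_eq_zero_iff (f := g) (g := g.derivative)).2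
  refine h5 ⟨Or.inl (hm.map _).ne_zero, h4⟩

theorem hypP_of (hm : f.Monic) (hodd : Odd f.natDegree) (hd : 0 < f.natDegree) (h : f.discr ≠ 0) :
    HypP (f.map (algebraMap (𝓞 K) K)) where
  monic := hm.map _
  sep := sep_of_disc hm hd h
  odd := by rwa [hm.natDegree_map]
  two := two_ne_zero

theorem disc_ne (h : OneNode f v) : f.discr ≠ 0 := by
  intro h0
  obtain ⟨m, -, hm⟩ := h.disc
  rw [h0, map_zero] at hm
  exact (exp_ne_zero hm.symm).elim

/-- the algebraic integers `a` and `b` are congruent modulo some prime ideal above `v` of the ring of all algebraic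
integers -/
def CongrAt (v : HeightOneSpectrum (𝓞 K)) (a b : AlgebraicClosure K) : Prop :=
  ∃ (x y : 𝓞 (AlgebraicClosure K)) (Q : Ideal (𝓞 (AlgebraicClosure K))), Q.IsMaximal ∧
    Q.comap (algebraMap (𝓞 K) (𝓞 (AlgebraicClosure K))) = v.asIdeal ∧
    (x : AlgebraicClosure K) = a ∧ (y : AlgebraicClosure K) = b ∧ x - y ∈ Q

theorem congrAt_of {M : IntermediateField K (AlgebraicClosure K)} [NumberField M]
    (P : HeightOneSpectrum (𝓞 M)) [hP : P.asIdeal.LiesOver v.asIdeal] {a b : 𝓞 M}
    (h : rd P a = rd P b) :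
    CongrAt v ((a : M) : AlgebraicClosure K) ((b : M) : AlgebraicClosure K) := by
  have hint : Algebra.IsIntegral (𝓞 M) (𝓞 (AlgebraicClosure K)) :=
    Algebra.IsIntegral.tower_top ℤ
  obtain ⟨Q, hQ1, hQ2⟩ := Ideal.exists_maximal_ideal_liesOver_of_isIntegral
    (S := 𝓞 (AlgebraicClosure K)) P.asIdeal
  refine ⟨algebraMap (𝓞 M) (𝓞 (AlgebraicClosure K)) a, algebraMap (𝓞 M) (𝓞 (AlgebraicClosure K)) b,
    Q, hQ1, ?_, rfl, rfl, ?_⟩
  · have h1 : algebraMap (𝓞 K) (𝓞 (AlgebraicClosure K)) =
        (algebraMap (𝓞 M) (𝓞 (AlgebraicClosure K))).comp (algebraMap (𝓞 K) (𝓞 M)) := rfl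
    have h2 : P.asIdeal = Q.comap (algebraMap (𝓞 M) (𝓞 (AlgebraicClosure K))) := hQ2.over
    have h3 : v.asIdeal = P.asIdeal.comap (algebraMap (𝓞 K) (𝓞 M)) := hP.over
    rw [h1, ← Ideal.comap_comap, ← h2, ← h3]
  · rw [← map_sub]
    have h2 : P.asIdeal = Q.comap (algebraMap (𝓞 M) (𝓞 (AlgebraicClosure K))) := hQ2.over
    have h3 : a - b ∈ P.asIdeal := Ideal.Quotient.eq.1 h
    rw [h2] at h3
    exact h3

theorem good_of_sep (hm : f.Monic) (h : (redn f v).Separable) :
    GoodAt (f.map (algebraMap (𝓞 K) K)) v := by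
  refine ⟨fun M _ _ P _ x hx => ?_, fun M _ _ P _ x y hx hy hxy => ?_⟩
  · obtain ⟨z, rfl, -⟩ := int_of_root hm hx
    exact P.valuation_le_one z
  · have : IsGalois K M := ⟨⟩
    obtain ⟨z, rfl, hz⟩ := int_of_root hm hx
    obtain ⟨z', rfl, hz'⟩ := int_of_root hm hy
    exact val_one_of_ne P (good_diff P h hz hz' fun h1 => hxy (by rw [h1]))

theorem val_exp_sq {Γ : ℤᵐ⁰} {m : ℕ} (h : Γ ^ 2 = exp (-(m : ℤ))) : 2 * log Γ = -(m : ℤ) := by
  have h1 := congrArg log h
  rw [log_pow, log_exp] at h1
  simpa using h1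

theorem node_of (hm : f.Monic) (hd : 0 < f.natDegree) (hv : (2 : 𝓞 K) ∉ v.asIdeal)
    (h : OneNode f v) : NodeAt (f.map (algebraMap (𝓞 K) K)) v (CongrAt v) := by
  classical
  refine ⟨fun M _ _ P _ x hx => ?_, fun M _ _ P hP hM => ?_⟩
  · obtain ⟨z, rfl, -⟩ := int_of_root hm hx
    exact P.valuation_le_one z
  have hg : IsGalois K M := ⟨⟩
  -- the polynomial splits in `M`
  have hs : (f.map (algebraMap (𝓞 K) M)).Splits := by
    refine Splits.of_splits_map (algebraMap M (AlgebraicClosure K)) (IsAlgClosed.splits _)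
      fun a ha => ?_
    refine ⟨⟨a, hM a ?_⟩, rfl⟩
    have h4 := (mem_roots'.1 ha).2
    rw [Polynomial.map_map, IsRoot.def, eval_map] at h4
    rw [aeval_map_algebraMap, aeval_def]
    exact h4
  have hsep := sep_of_disc hm hd (disc_ne h)
  have hnd : (rts f M).Nodup := by
    have h1 : (f.map (algebraMap (𝓞 K) M)).roots.Nodup := by
      have h2 : (f.map (algebraMap (𝓞 K) M)).Separable := by
        have h3 : f.map (algebraMap (𝓞 K) M) =
            (f.map (algebraMap (𝓞 K) K)).map (algebraMap K M) := by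
          rw [Polynomial.map_map, ← IsScalarTower.algebraMap_eq]
        rw [h3]
        exact hsep.map
      exact nodup_roots h2
    have h2 : f.map (algebraMap (𝓞 K) M) =
        (f.map (algebraMap (𝓞 K) (𝓞 M))).map (algebraMap (𝓞 M) M) := by
      rw [Polynomial.map_map, ← IsScalarTower.algebraMap_eq]
    rw [h2, (splits_int hm hs).roots_map_of_injective
      (FaithfulSMul.algebraMap_injective _ _)] at h1
    exact Multiset.Nodup.of_map _ h1
  obtain ⟨a, b, ha, hb, hne, hdiff, hval, hab⟩ := node_roots P hm hs hnd hd h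
  have hroot : ∀ {u : M}, aeval u (f.map (algebraMap (𝓞 K) K)) = 0 →
      ∃ z : 𝓞 M, (z : M) = u ∧ z ∈ rts f M := by
    intro u hu
    obtain ⟨z, hz, hz'⟩ := int_of_root hm hu
    exact ⟨z, hz, (mem_rts hm).2 hz'⟩
  have hrt : ∀ {z : 𝓞 M}, z ∈ rts f M → aeval (z : M) (f.map (algebraMap (𝓞 K) K)) = 0 := by
    intro z hz
    rw [aeval_coe_int, (mem_rts hm).1 hz]
    rfl
  refine ⟨(a : M), (b : M), hrt ha, hrt hb, fun h1 => hne (RingOfIntegers.ext h1),
    congrAt_of (v := v) P hab, ?_, ?_⟩
  · intro u u' hu hu' huu hn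
    obtain ⟨z, rfl, hz⟩ := hroot hu
    obtain ⟨z', rfl, hz'⟩ := hroot hu'
    refine val_one_of_ne P (hdiff z hz z' hz' (fun h1 => huu (by rw [h1])) ?_)
    rintro ⟨h1, h2⟩
    refine hn ⟨?_, ?_⟩
    · rcases h1 with rfl | rfl
      · exact Or.inl rfl
      · exact Or.inr rfl
    · rcases h2 with rfl | rfl
      · exact Or.inl rfl
      · exact Or.inr rfl
  · intro hsw huniq
    obtain ⟨m, hm4, hdisc⟩ := h.disc
    have h1 : P.valuation M (algebraMap (𝓞 M) M (algebraMap (𝓞 K) (𝓞 M) f.discr)) =
        v.valuation K (algebraMap (𝓞 K) K f.discr) ^ Nat.card (P.asIdeal.inertia (M ≃ₐ[K] M)) := by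
      rw [← val_eq_pow_card v P]
      rfl
    rw [h1, valuation_of_algebraMap, hdisc] at hval
    by_cases htriv : ∀ s : M ≃ₐ[K] M, Inert P s → s = 1
    · -- no ramification
      have h2 : P.asIdeal.inertia (M ≃ₐ[K] M) = ⊥ := by
        rw [eq_bot_iff]
        intro s hs
        exact htriv s hs
      rw [h2, Subgroup.card_bot, pow_one] at hval
      have h3 := val_exp_sq hval.symm
      rcases Int.even_or_odd (log (P.valuation M ((a : M) - (b : M)))) with h4 | h4
      · exfalso
        obtain ⟨k, hk⟩ := h4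
        apply hm4
        omega
      · exact h4
    · push Not at htriv
      obtain ⟨s, hs, hs1⟩ := htriv
      -- the inertia group has two elements
      have h2 : Nat.card (P.asIdeal.inertia (M ≃ₐ[K] M)) = 2 := by
        have h3 : (P.asIdeal.inertia (M ≃ₐ[K] M) : Set (M ≃ₐ[K] M)) = {1, s} := by
          ext s'
          constructor
          · intro hs'
            by_cases h4 : s' = 1
            · exact Or.inl h4
            · exact Or.inr (huniq s' s hs' hs h4 hs1)
          · rintro (rfl | rfl)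
            · exact Subgroup.one_mem _
            · exact hs
        have h4 : Nat.card (P.asIdeal.inertia (M ≃ₐ[K] M)) =
            (P.asIdeal.inertia (M ≃ₐ[K] M) : Set (M ≃ₐ[K] M)).ncard := rfl
        rw [h4, h3, Set.ncard_pair (Ne.symm hs1)]
      rw [h2] at hval
      have h3 : P.valuation M ((a : M) - (b : M)) = exp (-(m : ℤ)) := by
        have h4 := congrArg log hval
        rw [log_pow, log_pow, log_exp] at h4
        have h5 : P.valuation M ((a : M) - (b : M)) ≠ 0 := by
          rw [Ne, Valuation.zero_iff, sub_eq_zero]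
          exact fun h6 => hne (RingOfIntegers.ext h6)
        rw [← exp_log h5]
        congr 1
        simp at h4
        omega
      rw [h3, log_exp]
      by_contra hev
      rw [Int.not_odd_iff_even] at hev
      obtain ⟨k, hk⟩ := hev
      -- the quotient by a power of a uniformizer
      obtain ⟨π, hπ⟩ := v.valuation_exists_uniformizer K
      have hπ0 : π ≠ 0 := by
        rintro rfl
        rw [map_zero] at hπ
        exact absurd hπ.symm (by simp)
      set x : M := ((a : M) - (b : M)) * algebraMap K M (π ^ k) with hx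
      have h4 : P.valuation M (algebraMap K M π) = exp (-2 : ℤ) := by
        rw [val_eq_pow_card v P, h2, hπ]
        rfl
      have h5 : P.valuation M x = 1 := by
        rw [hx, map_mul, map_zpow₀, map_zpow₀, h3, h4, ← WithZero.exp_zsmul, ← exp_add]
        have h6 : -(m : ℤ) + k • (-2 : ℤ) = 0 := by
          rw [smul_eq_mul, hk]
          ring
        rw [h6, exp_zero]
      have h6 : s x = -x := by
        rw [hx, map_mul, AlgEquiv.commutes, map_sub, (hsw s hs hs1).1, (hsw s hs hs1).2]
        ring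
      have h7 := val_smul hs x h5.le
      rw [h6] at h7
      have h8 : -x - x = -(2 * x) := by ring
      rw [h8, Valuation.map_neg, map_mul, h5, mul_one, val_up_two v P hv] at h7
      exact lt_irrefl _ h7

end fin

end Pool.Agent.H852.J
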