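import Mathlib
import Pool.Agent.H852.J.N2

/-!
# The graph of the congruences between the roots
-/

set_option linter.unusedSectionVars false
set_option autoImplicit false

namespace Pool.Agent.H852.J

open Matrix Polynomial Filter Topology Module NumberField IsDedekindDomain WithZero
open HeightOneSpectrum
open Pool.Agent.N171 Pool.Agent.N171.Al Pool.Agent.N171.Pm Pool.Agent.N171.Bg Pool.Agent.N171.TG
open Pool.Agent.Results.MP_640417_ag.HyperellipticEveryPrime

section fin

variable {K : Type} [Field K] [NumberField K] {f : (𝓞 K)[X]} {v : HeightOneSpectrum (𝓞 K)}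

/-- the integers `a` and `b` of `M` are congruent modulo a prime above `v` -/
theorem congr_down {M : IntermediateField K (AlgebraicClosure K)} [NumberField M] {a b : M}
    (h : CongrAt v (a : AlgebraicClosure K) (b : AlgebraicClosure K)) :
    ∃ (x y : 𝓞 M) (P : HeightOneSpectrum (𝓞 M)), P.asIdeal.LiesOver v.asIdeal ∧ (x : M) = a ∧
      (y : M) = b ∧ x - y ∈ P.asIdeal := by
  obtain ⟨x, y, Q, hQ, hQv, hx, hy, hxy⟩ := h
  have hcoe : ∀ (u : M) (z : 𝓞 (AlgebraicClosure K)), (z : AlgebraicClosure K) = u →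
      ∃ w : 𝓞 M, (w : M) = u ∧ algebraMap (𝓞 M) (𝓞 (AlgebraicClosure K)) w = z := by
    intro u z hz
    have h1 : IsIntegral ℤ (u : AlgebraicClosure K) := by
      rw [← hz]
      exact z.2
    have h2 : IsIntegral ℤ u := by
      have h3 : (u : AlgebraicClosure K) = algebraMap M (AlgebraicClosure K) u := rfl
      rw [h3, isIntegral_algebraMap_iff (FaithfulSMul.algebraMap_injective _ _)] at h1
      exact h1
    exact ⟨⟨u, h2⟩, rfl, RingOfIntegers.ext hz.symm⟩
  obtain ⟨x', hx', hx''⟩ := hcoe a x hx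
  obtain ⟨y', hy', hy''⟩ := hcoe b y hy
  set P : Ideal (𝓞 M) := Q.comap (algebraMap (𝓞 M) (𝓞 (AlgebraicClosure K))) with hP
  have h1 : v.asIdeal = P.comap (algebraMap (𝓞 K) (𝓞 M)) := by
    rw [hP, Ideal.comap_comap, ← hQv]
    rfl
  have hPp : P.IsPrime := hQ.isPrime.comap _
  have hne : P ≠ ⊥ := by
    intro h2
    apply v.ne_bot
    rw [h1, h2]
    exact Ideal.comap_bot_of_injective _ (FaithfulSMul.algebraMap_injective (𝓞 K) (𝓞 M))
  refine ⟨x', y', ⟨P, hPp, hne⟩, ⟨h1⟩, hx', hy', ?_⟩
  change x' - y' ∈ P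
  rw [hP, Ideal.mem_comap, map_sub, hx'', hy'']
  exact hxy

/-- the field which is generated by the roots -/
noncomputable def splt (f : (𝓞 K)[X]) : IntermediateField K (AlgebraicClosure K) :=
  IntermediateField.adjoin K ((f.map (algebraMap (𝓞 K) K)).rootSet (AlgebraicClosure K))

instance : FiniteDimensional K (splt f) := by
  have h : (f.map (algebraMap (𝓞 K) K)).IsSplittingField K (splt f) :=
    IntermediateField.adjoin_rootSet_isSplittingField (IsAlgClosed.splits _)
  exact h.finiteDimensional _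

instance : NumberField (splt f) := NumberField.of_module_finite K _

instance : Normal K (splt f) := by
  have h : (f.map (algebraMap (𝓞 K) K)).IsSplittingField K (splt f) :=
    IntermediateField.adjoin_rootSet_isSplittingField (IsAlgClosed.splits _)
  exact Normal.of_isSplittingField (hFEp := h)

theorem mem_splt {x : AlgebraicClosure K}
    (hx : x ∈ (f.map (algebraMap (𝓞 K) K)).rootSet (AlgebraicClosure K)) : x ∈ splt f :=
  IntermediateField.subset_adjoin K _ hx

/-- **The pairs of congruent roots are conjugate.** -/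
theorem congr_conj (hm : f.Monic) (hd : 0 < f.natDegree) (h : OneNode f v)
    {a b a' b' : (f.map (algebraMap (𝓞 K) K)).rootSet (AlgebraicClosure K)} (hab : a ≠ b)
    (hab' : a' ≠ b') (h1 : CongrAt v a b) (h2 : CongrAt v a' b') :
    ∃ g : AlgebraicClosure K ≃ₐ[K] AlgebraicClosure K,
      (g a = a' ∧ g b = b') ∨ (g a = b' ∧ g b = a') := by
  classical
  set M := splt f with hM
  have hg : IsGalois K M := ⟨⟩
  have hsep := sep_of_disc hm hd (disc_ne h)
  have hs : (f.map (algebraMap (𝓞 K) M)).Splits := by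
    refine Splits.of_splits_map (algebraMap M (AlgebraicClosure K)) (IsAlgClosed.splits _)
      fun a ha => ?_
    refine ⟨⟨a, mem_splt (f := f) ?_⟩, rfl⟩
    have h4 := (mem_roots'.1 ha).2
    rw [Polynomial.map_map, IsRoot.def, eval_map] at h4
    rw [mem_rootSet]
    refine ⟨(hm.map _).ne_zero, ?_⟩
    rw [aeval_map_algebraMap, aeval_def]
    exact h4
  have hnd : (rts f M).Nodup := by
    have h1 : (f.map (algebraMap (𝓞 K) M)).roots.Nodup := by
      have h2 : (f.map (algebraMap (𝓞 K) M)).Separable := by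
        have h3 : f.map (algebraMap (𝓞 K) M) =
            (f.map (algebraMap (𝓞 K) K)).map (algebraMap K M) := by
          rw [Polynomial.map_map, ← IsScalarTower.algebraMap_eq]
        rw [h3]
        exact hsep.map
      exact nodup_roots h2
    have h2 : f.map (algebraMap (𝓞 K) M) =
        (f.map (algebraMap (𝓞 K) (𝓞 M))).map (algebraMap (𝓞 M) M) := by
      rw [Polynomial.map_map, ← IsScalarTower.algebraMap_eq]
    rw [h2, (splits_int hm hs).roots_map_of_injective
      (FaithfulSMul.algebraMap_injective _ _)] at h1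
    exact Multiset.Nodup.of_map _ h1
  -- the pairs in `M`
  have key : ∀ a b : (f.map (algebraMap (𝓞 K) K)).rootSet (AlgebraicClosure K), a ≠ b →
      CongrAt v a b → ∃ (x y : 𝓞 M) (P : HeightOneSpectrum (𝓞 M)), P.asIdeal.LiesOver v.asIdeal ∧
        ((x : M) : AlgebraicClosure K) = a ∧ ((y : M) : AlgebraicClosure K) = b ∧
        x - y ∈ P.asIdeal ∧ x ∈ rts f M ∧ y ∈ rts f M ∧ x ≠ y := by
    intro a b hab h1
    obtain ⟨x, y, P, hP, hx, hy, hxy⟩ := congr_down (M := M) (v := v)
      (a := ⟨a, mem_splt a.2⟩) (b := ⟨b, mem_splt b.2⟩) h1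
    have hx' : ((x : M) : AlgebraicClosure K) = a := by rw [hx]
    have hy' : ((y : M) : AlgebraicClosure K) = b := by rw [hy]
    have hr : ∀ (z : 𝓞 M) (c : (f.map (algebraMap (𝓞 K) K)).rootSet (AlgebraicClosure K)),
        ((z : M) : AlgebraicClosure K) = c → z ∈ rts f M := by
      intro z c hz
      rw [mem_rts hm]
      have h3 : aeval (z : M) (f.map (algebraMap (𝓞 K) K)) = 0 := by
        rw [aeval_coe, hz]
        exact (mem_rootSet.1 c.2).2
      rw [aeval_coe_int] at h3
      exact RingOfIntegers.ext h3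
    refine ⟨x, y, P, hP, hx', hy', hxy, hr x a hx', hr y b hy', ?_⟩
    rintro rfl
    exact hab (Subtype.ext (hx'.symm.trans hy'))
  obtain ⟨x, y, P, hP, hx, hy, hxy, hxr, hyr, hne⟩ := key a b hab h1
  obtain ⟨x', y', P', hP', hx', hy', hxy', hxr', hyr', hne'⟩ := key a' b' hab' h2
  -- the places are conjugate
  obtain ⟨s, hs'⟩ := Ideal.exists_smul_eq_of_isGaloisGroup v.asIdeal P.asIdeal P'.asIdeal
    (M ≃ₐ[K] M)
  have hsx : ∀ z : 𝓞 M, ((s • z : 𝓞 M) : M) = s (z : M) := fun z => rfl
  have hsr : ∀ z : 𝓞 M, z ∈ rts f M → s • z ∈ rts f M := by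
    intro z hz
    rw [mem_rts hm] at hz ⊢
    rw [aeval_smul, hz, smul_zero]
  have hsxy : s • x - s • y ∈ P'.asIdeal := by
    rw [← hs', ← smul_sub]
    exact Ideal.smul_mem_pointwise_smul _ _ _ hxy
  obtain ⟨A, B, hA, hB, hAB, hdiff, -, -⟩ := node_roots P' hm hs hnd hd h
  have hsame : ∀ x ∈ rts f M, ∀ y ∈ rts f M, x ≠ y → x - y ∈ P'.asIdeal →
      (x = A ∨ x = B) ∧ (y = A ∨ y = B) := by
    intro x hx y hy hxy h3
    by_contra h4
    exact hdiff x hx y hy hxy h4 (Ideal.Quotient.eq.2 h3)
  have h3 := hsame _ (hsr x hxr) _ (hsr y hyr) (fun h4 => hne (smul_left_cancel s h4)) hsxy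
  have h4 := hsame _ hxr' _ hyr' hne' hxy'
  refine ⟨s.liftNormal (AlgebraicClosure K), ?_⟩
  have hl : ∀ z : 𝓞 M, s.liftNormal (AlgebraicClosure K) ((z : M) : AlgebraicClosure K) =
      (((s • z : 𝓞 M) : M) : AlgebraicClosure K) := fun z => s.liftNormal_commutes _ _
  rw [← hx, ← hy, hl, hl, ← hx', ← hy']
  have hne2 : s • x ≠ s • y := fun h4 => hne (smul_left_cancel s h4)
  have h5 : (s • x = x' ∧ s • y = y') ∨ (s • x = y' ∧ s • y = x') := by
    obtain ⟨h5 | h5, h6 | h6⟩ := h3 <;> obtain ⟨h7 | h7, h8 | h8⟩ := h4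
    all_goals first
      | exact absurd (h5.trans h6.symm) hne2
      | exact absurd (h7.trans h8.symm) hne'
      | exact Or.inl ⟨h5.trans h7.symm, h6.trans h8.symm⟩
      | exact Or.inr ⟨h5.trans h8.symm, h6.trans h7.symm⟩
  rcases h5 with ⟨h5, h6⟩ | ⟨h5, h6⟩
  · exact Or.inl ⟨by rw [h5], by rw [h6]⟩
  · exact Or.inr ⟨by rw [h5], by rw [h6]⟩

/-- the graph on the roots, whose edges are the pairs of roots which are congruent modulo a prime above one
of the places, is connected -/
def Linked {κ : Type} (f : K[X]) (v : κ → HeightOneSpectrum (𝓞 K)) : Prop :=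
  ∀ x y : f.rootSet (AlgebraicClosure K),
    Relation.ReflTransGen (fun a b : f.rootSet (AlgebraicClosure K) =>
      ∃ k, CongrAt (v k) (a : AlgebraicClosure K) b) x y

theorem connects_of_linked {κ : Type} {v : κ → HeightOneSpectrum (𝓞 K)} (hm : f.Monic)
    (hd : 0 < f.natDegree) (h : ∀ k, OneNode f (v k))
    (hl : Linked (f.map (algebraMap (𝓞 K) K)) v) :
    Connects (f.map (algebraMap (𝓞 K) K)) (fun k => CongrAt (v k)) := by
  intro a b hab hQ x y
  have h1 := hl x y
  have h2 : ∀ x y : (f.map (algebraMap (𝓞 K) K)).rootSet (AlgebraicClosure K),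
      (∃ k, CongrAt (v k) (x : AlgebraicClosure K) y) → x = y ∨
      ConjEdge K (fun x : (f.map (algebraMap (𝓞 K) K)).rootSet (AlgebraicClosure K) =>
        (x : AlgebraicClosure K)) a b x y := by
    rintro x y ⟨k, hk⟩
    by_cases hxy : x = y
    · exact Or.inl hxy
    · obtain ⟨g, hg⟩ := congr_conj hm hd (h k) (hab k) hxy (hQ k) hk
      exact Or.inr ⟨k, g, hg⟩
  induction h1 with
  | refl => exact Relation.ReflTransGen.refl
  | tail _ h3 ih =>
    rcases h2 _ _ h3 with rfl | h4
    · exact ih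
    · exact ih.tail h4

/-- The graph is connected if the action is primitive. -/
theorem connects_of_primitive {κ : Type} [Nonempty κ] (f : K[X])
    (hp : MulAction.IsPreprimitive (AlgebraicClosure K ≃ₐ[K] AlgebraicClosure K)
      (f.rootSet (AlgebraicClosure K)))
    (Q : κ → AlgebraicClosure K → AlgebraicClosure K → Prop) : Connects f Q := by
  intro a b hab _ x y
  obtain ⟨k⟩ := ‹Nonempty κ›
  set E := ConjEdge K (fun x : f.rootSet (AlgebraicClosure K) => (x : AlgebraicClosure K)) a b
    with hE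
  have hsymm : ∀ z w, E z w → E w z := by
    rintro z w ⟨k, g, h | h⟩
    · exact ⟨k, g, Or.inr h⟩
    · exact ⟨k, g, Or.inl h⟩
  have hsymm' : ∀ z w, Relation.ReflTransGen E z w → Relation.ReflTransGen E w z := by
    intro z w h
    induction h with
    | refl => exact Relation.ReflTransGen.refl
    | tail _ h3 ih => exact Relation.ReflTransGen.head (hsymm _ _ h3) ih
  have hinv : ∀ (s : AlgebraicClosure K ≃ₐ[K] AlgebraicClosure K) z w, E z w →
      E (s • z) (s • w) := by
    rintro s z w ⟨k, g, h | h⟩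
    · refine ⟨k, s * g, Or.inl ⟨?_, ?_⟩⟩
      · exact congrArg s h.1
      · exact congrArg s h.2
    · refine ⟨k, s * g, Or.inr ⟨?_, ?_⟩⟩
      · exact congrArg s h.1
      · exact congrArg s h.2
  have hinv' : ∀ (s : AlgebraicClosure K ≃ₐ[K] AlgebraicClosure K) z w,
      Relation.ReflTransGen E z w → Relation.ReflTransGen E (s • z) (s • w) := by
    intro s z w h
    induction h with
    | refl => exact Relation.ReflTransGen.refl
    | tail _ h3 ih => exact ih.tail (hinv s _ _ h3)
  set B : Set (f.rootSet (AlgebraicClosure K)) := {w | Relation.ReflTransGen E (a k) w} with hB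
  have hblock : MulAction.IsBlock (AlgebraicClosure K ≃ₐ[K] AlgebraicClosure K) B := by
    rw [MulAction.isBlock_iff_smul_eq_or_disjoint]
    intro s
    rw [or_iff_not_imp_right, Set.not_disjoint_iff]
    rintro ⟨z, ⟨w, hw, rfl⟩, hz⟩
    -- `s (a k)` is connected with `a k`
    have h1 : Relation.ReflTransGen E (s • a k) (a k) :=
      (hinv' s _ _ hw).trans (hsymm' _ _ hz)
    ext u
    constructor
    · rintro ⟨u', hu', rfl⟩
      exact (hsymm' _ _ h1).trans (hinv' s _ _ hu')
    · intro hu
      refine ⟨s⁻¹ • u, ?_, smul_inv_smul s u⟩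
      have h2 := hinv' s⁻¹ _ _ (h1.trans hu)
      rw [inv_smul_smul] at h2
      exact h2
  rcases hp.isTrivialBlock_of_isBlock hblock with h1 | h1
  · exfalso
    have h2 : b k ∈ B := Relation.ReflTransGen.single ⟨k, 1, Or.inl ⟨rfl, rfl⟩⟩
    exact hab k (h1 (Relation.ReflTransGen.refl : a k ∈ B) h2)
  · have h2 : x ∈ B := by rw [h1]; trivial
    have h3 : y ∈ B := by rw [h1]; trivial
    exact (hsymm' _ _ h2).trans h3

/-- irreducible polynomials of prime degree -/
theorem primitive_of_prime (f : K[X]) (hf : Irreducible f) (hp : f.natDegree.Prime)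
    (hs : f.Separable) :
    MulAction.IsPreprimitive (AlgebraicClosure K ≃ₐ[K] AlgebraicClosure K)
      (f.rootSet (AlgebraicClosure K)) := by
  have h1 : MulAction.IsPretransitive (AlgebraicClosure K ≃ₐ[K] AlgebraicClosure K)
      (f.rootSet (AlgebraicClosure K)) := by
    refine ⟨fun x y => ?_⟩
    have hx := (mem_rootSet.1 x.2).2
    have hy := (mem_rootSet.1 y.2).2
    have h2 : minpoly K (x : AlgebraicClosure K) = minpoly K (y : AlgebraicClosure K) := by
      rw [minpoly.eq_of_irreducible hf hx |>.symm, minpoly.eq_of_irreducible hf hy |>.symm]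
    obtain ⟨g, hg⟩ := (Normal.minpoly_eq_iff_mem_orbit (F := K) (E := AlgebraicClosure K)
      (x := (y : AlgebraicClosure K)) (y := (x : AlgebraicClosure K))).1 h2.symm
    exact ⟨g, Subtype.ext hg⟩
  refine MulAction.IsPreprimitive.of_prime_card (G := AlgebraicClosure K ≃ₐ[K] AlgebraicClosure K) ?_
  rw [Nat.card_eq_fintype_card, card_rootSet_eq_natDegree hs (IsAlgClosed.splits _)]
  exact hp

end fin

end Pool.Agent.H852.J
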