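import Mathlib
import Pool.Agent.H852.J.E3
import Pool.Agent.H852.J.C6

/-!
# Node places of compositions of integral polynomials
-/

set_option linter.unusedSectionVars false
set_option autoImplicit false

namespace Pool.Agent.H852.J

open Matrix Polynomial Filter Topology Module NumberField IsDedekindDomain WithZero
open HeightOneSpectrum
open Pool.Agent.N171 Pool.Agent.N171.Al Pool.Agent.N171.Pm Pool.Agent.N171.Bg Pool.Agent.N171.TG
open Pool.Agent.Results.MP_640417_ag.HyperellipticEveryPrime

noncomputable section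

variable {K : Type} [Field K] [NumberField K]

/-- the composition of the first `n` polynomials -/
def cO (G : ℕ → (𝓞 K)[X]) : ℕ → (𝓞 K)[X]
  | 0 => X
  | n + 1 => (cO G n).comp (G n)

theorem comps_cO {G : ℕ → (𝓞 K)[X]} {g : ℕ → K[X]} {N : ℕ}
    (hg : ∀ i < N, g i = (G i).map (algebraMap (𝓞 K) K)) (n : ℕ) (hn : n ≤ N) :
    comps g n = (cO G n).map (algebraMap (𝓞 K) K) := by
  induction n with
  | zero => rw [comps, cO, map_X]
  | succ n ih => rw [comps, cO, Polynomial.map_comp, ih (by omega), hg n (by omega)]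

theorem cO_monic {G : ℕ → (𝓞 K)[X]} {N : ℕ} (hm : ∀ i < N, (G i).Monic)
    (hd : ∀ i < N, (G i).natDegree ≠ 0) (n : ℕ) (hn : n ≤ N) : (cO G n).Monic := by
  induction n with
  | zero => exact monic_X
  | succ n ih => exact (ih (by omega)).comp (hm n (by omega)) (hd n (by omega))

section red

variable {v : HeightOneSpectrum (𝓞 K)} {M : Type} [Field M] [NumberField M] [Algebra K M]
  (P : HeightOneSpectrum (𝓞 M)) [P.asIdeal.LiesOver v.asIdeal]

/-- two congruent points in one fibre are critical points modulo the place -/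
theorem crit_of_congr {q : (𝓞 K)[X]} {z z' : 𝓞 M} (h : aeval z q = aeval z' q) (hne : z ≠ z')
    (hc : rd P z = rd P z') : rd P (aeval z (derivative q)) = 0 := by
  set Q := q.map (algebraMap (𝓞 K) (𝓞 M)) with hQ
  have e1 : ∀ w : 𝓞 M, aeval w q = Q.eval w := fun w => by rw [hQ, eval_map, ← aeval_def]
  have e2 : aeval z (derivative q) = (derivative Q).eval z := by
    rw [hQ, derivative_map, eval_map, ← aeval_def]
  obtain ⟨k, hk⟩ := Q.binomExpansion z (z' - z)
  have h1 : z + (z' - z) = z' := by ring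
  rw [h1, ← e1, ← e1, ← h] at hk
  have h2 : (z' - z) * ((derivative Q).eval z + k * (z' - z)) = 0 := by
    linear_combination -hk
  have h3 := (mul_eq_zero.1 h2).resolve_left (sub_ne_zero.2 (Ne.symm hne))
  have h4 : (derivative Q).eval z = k * (z - z') := by linear_combination h3
  rw [e2, h4, rd, map_mul, map_sub]
  change Ideal.Quotient.mk P.asIdeal k * (rd P z - rd P z') = 0
  rw [hc, sub_self, mul_zero]

theorem not_coprime_of {f q : (𝓞 K)[X]} (h : IsCoprime (redn f v) (redn q v)) {z : 𝓞 M}
    (h1 : rd P (aeval z f) = 0) (h2 : rd P (aeval z q) = 0) : False := by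
  have : Nontrivial (𝓞 M ⧸ P.asIdeal) := Ideal.Quotient.nontrivial_iff.2 P.isPrime.ne_top
  obtain ⟨a, b, hab⟩ := h
  have h3 := congrArg (fun p => eval (rd P z) (p.map (resm v P))) hab
  simp only [Polynomial.map_add, Polynomial.map_mul, eval_add, eval_mul, Polynomial.map_one,
    eval_one, eval_redn, h1, h2, mul_zero, add_zero] at h3
  exact zero_ne_one h3

end red

variable {G : ℕ → (𝓞 K)[X]} {g : ℕ → K[X]} {N : ℕ}

/-- **Node places from the reduction of the polynomials.** -/
theorem nodePlaceQ_of (hmon : ∀ i ≤ N, (cO G i).Monic)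
    (hg : ∀ i < N, g i = (G i).map (algebraMap (𝓞 K) K)) {n : ℕ} (hn : n < N)
    (hdeg : 0 < (cO G (n + 1)).natDegree) {v : HeightOneSpectrum (𝓞 K)}
    (h2 : (2 : 𝓞 K) ∉ v.asIdeal) (h : OneNode (cO G (n + 1)) v)
    (hodd : ∃ m : ℕ, Odd m ∧ v.intValuation (cO G (n + 1)).discr = exp (-(m : ℤ)))
    (hcop : ∀ i < N, i ≠ n → IsCoprime (redn (cO G (i + 1)) v) (redn (derivative (G i)) v)) :
    NodePlaceQ g N (n + 1) v (CongrAt v) where
  two := h2
  int := fun i hi M _ _ P _ u hu => by
    rw [comps_cO hg i hi] at hu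
    obtain ⟨z, rfl, -⟩ := int_of_root (hmon i hi) hu
    exact P.valuation_le_one z
  etale := fun i hi hin M _ _ P _ u u' hu huu hne => by
    have hu' : aeval u' (comps g (i + 1)) = 0 := by
      rw [aeval_comps_succ] at hu ⊢
      rwa [← huu]
    rw [comps_cO hg (i + 1) hi] at hu hu'
    obtain ⟨z, rfl, hz⟩ := int_of_root (hmon (i + 1) hi) hu
    obtain ⟨z', rfl, hz'⟩ := int_of_root (hmon (i + 1) hi) hu'
    have hzz : z ≠ z' := fun h1 => hne (by rw [h1])
    rw [hg i hi, aeval_coe_int, aeval_coe_int] at huu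
    refine val_one_of_ne P fun hc => ?_
    have h3 := crit_of_congr P (RingOfIntegers.ext huu) hzz hc
    refine not_coprime_of P (hcop i hi (by omega)) (z := z) ?_ h3
    rw [hz, rd, map_zero]
  node := fun M _ _ P hP hM => by
    classical
    set f := cO G (n + 1) with hf
    have hm := hmon (n + 1) hn
    have hcf : comps g (n + 1) = f.map (algebraMap (𝓞 K) K) := comps_cO hg (n + 1) hn
    have hgal : IsGalois K M := ⟨⟩
    have hs : (f.map (algebraMap (𝓞 K) M)).Splits := by
      refine Splits.of_splits_map (algebraMap M (AlgebraicClosure K)) (IsAlgClosed.splits _)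
        fun a ha => ?_
      refine ⟨⟨a, hM (n + 1) hn a ?_⟩, rfl⟩
      have h4 := (mem_roots'.1 ha).2
      rw [Polynomial.map_map, IsRoot.def, eval_map] at h4
      rw [hcf, aeval_map_algebraMap, aeval_def]
      exact h4
    have hsep := sep_of_disc hm hdeg (disc_ne h)
    have hnd : (rts f M).Nodup := by
      have h1 : (f.map (algebraMap (𝓞 K) M)).roots.Nodup := by
        have h2 : (f.map (algebraMap (𝓞 K) M)).Separable := by
          have h3 : f.map (algebraMap (𝓞 K) M) =
              (f.map (algebraMap (𝓞 K) K)).map (algebraMap K M) := by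
            rw [Polynomial.map_map, ← IsScalarTower.algebraMap_eq]
          rw [h3]
          exact hsep.map
        exact nodup_roots h2
      have h2 : f.map (algebraMap (𝓞 K) M) =
          (f.map (algebraMap (𝓞 K) (𝓞 M))).map (algebraMap (𝓞 M) M) := by
        rw [Polynomial.map_map, ← IsScalarTower.algebraMap_eq]
      rw [h2, (splits_int hm hs).roots_map_of_injective
        (FaithfulSMul.algebraMap_injective _ _)] at h1
      exact Multiset.Nodup.of_map _ h1
    obtain ⟨a, b, ha, hb, hne, hdiff, hval, hab⟩ := node_roots P hm hs hnd hdeg h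
    have hroot : ∀ {u : M}, aeval u (f.map (algebraMap (𝓞 K) K)) = 0 →
        ∃ z : 𝓞 M, (z : M) = u ∧ z ∈ rts f M := by
      intro u hu
      obtain ⟨z, hz, hz'⟩ := int_of_root hm hu
      exact ⟨z, hz, (mem_rts hm).2 hz'⟩
    have hrt : ∀ {z : 𝓞 M}, z ∈ rts f M → aeval (z : M) (f.map (algebraMap (𝓞 K) K)) = 0 := by
      intro z hz
      rw [aeval_coe_int, (mem_rts hm).1 hz]
      rfl
    refine ⟨(a : M), (b : M), algebraMap (𝓞 K) K f.discr, by rw [hcf]; exact hrt ha,
      by rw [hcf]; exact hrt hb, fun h1 => hne (RingOfIntegers.ext h1),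
      congrAt_of (v := v) P hab, ?_, ?_, ?_⟩
    · intro u u' hu hu' huu hn
      rw [hcf] at hu hu'
      obtain ⟨z, rfl, hz⟩ := hroot hu
      obtain ⟨z', rfl, hz'⟩ := hroot hu'
      refine val_one_of_ne P (hdiff z hz z' hz' (fun h1 => huu (by rw [h1])) ?_)
      rintro ⟨h1, h2⟩
      refine hn ⟨?_, ?_⟩
      · rcases h1 with rfl | rfl
        · exact Or.inl rfl
        · exact Or.inr rfl
      · rcases h2 with rfl | rfl
        · exact Or.inl rfl
        · exact Or.inr rfl
    · obtain ⟨m, hm, hd⟩ := hodd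
      rw [valuation_of_algebraMap, hd, log_exp]
      obtain ⟨k, hk⟩ := hm
      exact ⟨-(k : ℤ) - 1, by rw [hk]; push_cast; ring⟩
    · rw [← hval]
      rfl

end

end Pool.Agent.H852.J
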