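import Mathlib
import Pool.Agent.H852.J.E4

/-!
# Extension of a finite sequence of polynomials, and connected fibres
-/

set_option linter.unusedSectionVars false
set_option autoImplicit false

namespace Pool.Agent.H852.J

open Matrix Polynomial Filter Topology Module NumberField IsDedekindDomain WithZero
open HeightOneSpectrum
open Pool.Agent.Y142.ZO (GK IsFrobenius)
open Pool.Agent.N171 Pool.Agent.N171.Al Pool.Agent.N171.Pm Pool.Agent.N171.Bg Pool.Agent.N171.TG
open Pool.Agent.Results.MP_640417_ag.HyperellipticEveryPrime

noncomputable section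

section ext

variable {K : Type} [Field K] [NumberField K]

theorem exists_nzK (f : K[X]) : ∃ c : K, f ≠ 0 → f.eval c ≠ 0 := by
  by_cases hf : f = 0
  · exact ⟨0, fun h => absurd hf h⟩
  · by_contra h
    push Not at h
    exact hf (Polynomial.funext fun c => by rw [(h c).2, eval_zero])

/-- an element which is not a root -/
def nzK (f : K[X]) : K := (exists_nzK f).choose

theorem nzK_spec {f : K[X]} (h : f ≠ 0) : f.eval (nzK f) ≠ 0 := (exists_nzK f).choose_spec h

/-- the continuation of a composition -/
def tailK (f : K[X]) : ℕ → K[X]
  | 0 => f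
  | m + 1 => (tailK f m).comp (X ^ 3 + C (nzK (tailK f m)))

/-- the extension of a sequence -/
def extK (g : ℕ → K[X]) (N n : ℕ) : K[X] :=
  if n < N then g n else X ^ 3 + C (nzK (tailK (comps g N) (n - N)))

theorem extK_lt (g : ℕ → K[X]) {N n : ℕ} (h : n < N) : extK g N n = g n := if_pos h

theorem comps_ext_le (g : ℕ → K[X]) {N n : ℕ} (h : n ≤ N) : comps (extK g N) n = comps g n := by
  induction n with
  | zero => rfl
  | succ n ih => rw [comps, comps, ih (by omega), extK_lt g (by omega)]

theorem comps_ext_add (g : ℕ → K[X]) (N m : ℕ) :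
    comps (extK g N) (N + m) = tailK (comps g N) m := by
  induction m with
  | zero => rw [add_zero, comps_ext_le g le_rfl, tailK]
  | succ m ih =>
    rw [← add_assoc, comps, ih, tailK, extK, if_neg (by omega), Nat.add_sub_cancel_left]

/-- **Extension of a finite sequence.** -/
theorem extK_compHyp {g : ℕ → K[X]} {N : ℕ} (hm : ∀ n < N, (g n).Monic)
    (hd : ∀ n < N, 3 ≤ (g n).natDegree) (ho : ∀ n < N, Odd (g n).natDegree)
    (hs : ∀ n ≤ N, (comps g n).Separable) : CompHyp (extK g N) := by
  have hm' : ∀ n, (extK g N n).Monic := by
    intro n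
    unfold extK
    split_ifs with h
    · exact hm n h
    · exact monic_X_pow_add_C _ (by norm_num)
  have hd' : ∀ n, 3 ≤ (extK g N n).natDegree := by
    intro n
    unfold extK
    split_ifs with h
    · exact hd n h
    · rw [natDegree_X_pow_add_C]
  have ho' : ∀ n, Odd (extK g N n).natDegree := by
    intro n
    unfold extK
    split_ifs with h
    · exact ho n h
    · rw [natDegree_X_pow_add_C]
      decide
  have hmon : ∀ n, (comps (extK g N) n).Monic :=
    comps_monic' hm' fun n => by have := hd' n; omega
  refine ⟨hm', hd', ho', fun n => ?_⟩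
  rcases le_total n N with hn | hn
  · rw [comps_ext_le g hn]
    exact hs n hn
  · obtain ⟨m, rfl⟩ := Nat.exists_eq_add_of_le hn
    clear hn
    induction m with
    | zero =>
      rw [add_zero, comps_ext_le g le_rfl]
      exact hs N le_rfl
    | succ m ih =>
      have h1 : extK g N (N + m) = X ^ 3 + C (nzK (tailK (comps g N) m)) := by
        unfold extK
        rw [if_neg (by omega), Nat.add_sub_cancel_left]
      rw [← add_assoc, comps]
      refine sep_comp ih fun y hy => ?_
      rw [h1] at hy ⊢
      have h2 : y = 0 := by
        rw [derivative_add, derivative_C, add_zero, derivative_X_pow] at hy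
        simp only [map_mul, map_pow, aeval_X, aeval_C] at hy
        rcases mul_eq_zero.1 hy with h3 | h3
        · exfalso
          simp at h3
        · exact pow_eq_zero_iff (by norm_num) |>.1 h3
      rw [aeval_comp, h2]
      have h3 : aeval (0 : AlgebraicClosure K) (X ^ 3 + C (nzK (tailK (comps g N) m)) : K[X]) =
          algebraMap K (AlgebraicClosure K) (nzK (tailK (comps g N) m)) := by
        simp
      rw [h3, aeval_algebraMap_apply, Ne, FaithfulSMul.algebraMap_eq_zero_iff,
        coe_aeval_eq_eval, comps_ext_add]
      refine nzK_spec ?_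
      rw [← comps_ext_add]
      exact (hmon _).ne_zero

end ext

end

end Pool.Agent.H852.J
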