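import Mathlib
import Pool.Agent.H852.J.E5

/-!
# The criterion for compositions
-/

set_option linter.unusedSectionVars false
set_option autoImplicit false

namespace Pool.Agent.H852.J

open Matrix Polynomial Filter Topology Module NumberField IsDedekindDomain WithZero
open HeightOneSpectrum
open Pool.Agent.Y142.ZO (GK IsFrobenius)
open Pool.Agent.N171 Pool.Agent.N171.Al Pool.Agent.N171.Pm Pool.Agent.N171.Bg Pool.Agent.N171.TG
open Pool.Agent.Results.MP_640417_ag.HyperellipticEveryPrime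

noncomputable section

variable {K : Type} [Field K] [NumberField K]

/-- the node places of the level `n + 1` of a tower of height `N` -/
structure NodeO (G : ℕ → (𝓞 K)[X]) (N n : ℕ) (v : HeightOneSpectrum (𝓞 K)) : Prop where
  two : (2 : 𝓞 K) ∉ v.asIdeal
  one : ∃ (a : 𝓞 K ⧸ v.asIdeal) (h : (𝓞 K ⧸ v.asIdeal)[X]),
    redn (cO G (n + 1)) v = (X - C a) ^ 2 * h ∧ ((X - C a) * h).Separable
  odd : ∃ m : ℕ, Odd m ∧ v.intValuation (cO G (n + 1)).discr = exp (-(m : ℤ))
  cop : ∀ i < N, i ≠ n → IsCoprime (redn (cO G (i + 1)) v) (redn (derivative (G i)) v)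

theorem NodeO.oneNode {G : ℕ → (𝓞 K)[X]} {N n : ℕ} {v : HeightOneSpectrum (𝓞 K)}
    (h : NodeO G N n v) : OneNode (cO G (n + 1)) v := by
  obtain ⟨m, hm, hd⟩ := h.odd
  exact ⟨h.one, m, fun h4 => by
    have h2 : 2 ∣ m := dvd_trans (by norm_num) h4
    exact (Nat.not_even_iff_odd.2 hm) (even_iff_two_dvd.2 h2), hd⟩

variable {g : ℕ → K[X]}

section edge

variable (h : CompHyp g) [hyp : ∀ n, Hyp (rtA g n)] {N n : ℕ} {A : Type*} [Ring A]
  [Algebra ℤ_[2] A] {t : GK K →* A}

open Classical in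
theorem prm_coe (s : GK K) (m : ℕ) (x : Rt g m) :
    ((prm (rtA g m) (h.hg m) s x : Rt g m) : AlgebraicClosure K) = s x :=
  (prm_spec (rtA g m) (h.hg m) s x).symm

open Classical in
theorem ownEdge_symm (hn : n < N) {x y : Rt g (n + 1)} (hxy : OwnEdge (rtA g) h.hg t N n x y) :
    OwnEdge (rtA g) h.hg t N n y x := by
  obtain ⟨hne, σ, s, hl, rfl⟩ := hxy
  exact ⟨hne.symm, σ, s, hl, hl.invol _ hn x⟩

open Classical in
theorem ownEdge_map (hn : n < N) {x y : Rt g (n + 1)} (hxy : OwnEdge (rtA g) h.hg t N n x y)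
    (k : GK K) : OwnEdge (rtA g) h.hg t N n (prm (rtA g (n + 1)) (h.hg (n + 1)) k x)
      (prm (rtA g (n + 1)) (h.hg (n + 1)) k y) := by
  obtain ⟨hne, σ, s, hl, rfl⟩ := hxy
  refine ⟨fun h1 => hne ((prm _ _ k).injective h1), _, _, hl.conj k hn, ?_⟩
  exact prm_conj_apply (α := rtA g) (hg := h.hg) (n + 1) k s x

open Classical in
theorem ownEdge_fib {x y : Rt g (n + 1)} (hxy : OwnEdge (rtA g) h.hg t N n x y) :
    aeval (x : AlgebraicClosure K) (g n) = aeval (y : AlgebraicClosure K) (g n) := by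
  obtain ⟨hne, σ, s, hl, rfl⟩ := hxy
  have h1 := hl.low n (Nat.lt_succ_self n) (h.dn n x)
  have h2 := congrArg Subtype.val h1
  rw [prm_coe h] at h2
  change s (aeval (x : AlgebraicClosure K) (g n)) = aeval (x : AlgebraicClosure K) (g n) at h2
  rw [prm_coe h, ← h2]
  exact (Polynomial.aeval_algHom_apply (s : AlgebraicClosure K →ₐ[K] AlgebraicClosure K) _ _).symm

open Classical in
/-- a pair of congruent roots is exchanged by a link -/
theorem ownEdge_of_congr {f : (𝓞 K)[X]} (hf : comps g (n + 1) = f.map (algebraMap (𝓞 K) K))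
    (hm : f.Monic) (hd : 0 < f.natDegree) (hn : n < N) {v : HeightOneSpectrum (𝓞 K)}
    (h1 : OneNode f v) (hv : NodePlaceQ g N (n + 1) v (CongrAt v)) (ht : UnramifiedModFour v t)
    {x y : Rt g (n + 1)} (hne : x ≠ y) (hc : CongrAt v (x : AlgebraicClosure K) y) :
    OwnEdge (rtA g) h.hg t N n x y := by
  obtain ⟨σ, s, a, b, hl, hab, hsab, hQ⟩ := link_of_placeQ h hn hv t ht
  have hmem : ∀ z : Rt g (n + 1), (z : AlgebraicClosure K) ∈
      (f.map (algebraMap (𝓞 K) K)).rootSet (AlgebraicClosure K) := by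
    intro z
    rw [← hf]
    exact z.2
  have hsub : ∀ z w : Rt g (n + 1), z ≠ w →
      (⟨z, hmem z⟩ : (f.map (algebraMap (𝓞 K) K)).rootSet (AlgebraicClosure K)) ≠
        ⟨w, hmem w⟩ := fun z w hzw h3 => hzw (Subtype.ext (Subtype.mk.inj h3))
  obtain ⟨k, hk⟩ := congr_conj hm hd h1 (hsub a b hab) (hsub x y hne) hQ hc
  have hab' : OwnEdge (rtA g) h.hg t N n a b := ⟨hab, σ, s, hl, hsab⟩
  rcases hk with ⟨h2, h3⟩ | ⟨h2, h3⟩
  · have h4 := ownEdge_map h hn hab' k
    have e1 : prm (rtA g (n + 1)) (h.hg (n + 1)) k a = x := Subtype.ext (by rw [prm_coe h]; exact h2)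
    have e2 : prm (rtA g (n + 1)) (h.hg (n + 1)) k b = y := Subtype.ext (by rw [prm_coe h]; exact h3)
    rwa [e1, e2] at h4
  · have h4 := ownEdge_map h hn (ownEdge_symm h hn hab') k
    have e1 : prm (rtA g (n + 1)) (h.hg (n + 1)) k a = y := Subtype.ext (by rw [prm_coe h]; exact h2)
    have e2 : prm (rtA g (n + 1)) (h.hg (n + 1)) k b = x := Subtype.ext (by rw [prm_coe h]; exact h3)
    rwa [e1, e2] at h4

end edge

/-- any two roots in one fibre are connected by congruences modulo the places in `T` -/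
def LinkedF (f p : K[X]) (T : Set (HeightOneSpectrum (𝓞 K))) : Prop :=
  ∀ x y : f.rootSet (AlgebraicClosure K),
    aeval (x : AlgebraicClosure K) p = aeval (y : AlgebraicClosure K) p →
    Relation.ReflTransGen (fun a b : f.rootSet (AlgebraicClosure K) =>
      ∃ v : T, CongrAt (v : HeightOneSpectrum (𝓞 K)) (a : AlgebraicClosure K) b) x y

/-- the Galois group is transitive and primitive on the fibres -/
def PrimF (f p : K[X]) : Prop :=
  ∀ R : f.rootSet (AlgebraicClosure K) → f.rootSet (AlgebraicClosure K) → Prop, Equivalence R →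
    (∀ (s : AlgebraicClosure K ≃ₐ[K] AlgebraicClosure K) (x y), R x y → R (s • x) (s • y)) →
    (∀ x y : f.rootSet (AlgebraicClosure K), R x y →
      aeval (x : AlgebraicClosure K) p = aeval (y : AlgebraicClosure K) p) →
    (∃ x y, x ≠ y ∧ R x y) →
    ∀ x y : f.rootSet (AlgebraicClosure K),
      aeval (x : AlgebraicClosure K) p = aeval (y : AlgebraicClosure K) p → R x y

/-- the places in `T` are sufficient for the level -/
def EnoughF (f p : K[X]) (T : Set (HeightOneSpectrum (𝓞 K))) : Prop :=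
  T.Nonempty ∧ (LinkedF f p T ∨ PrimF f p ∨ (Irreducible f ∧ p.natDegree.Prime))

section conn

variable (h : CompHyp g) [hyp : ∀ n, Hyp (rtA g n)] {N n : ℕ} {A : Type*} [Ring A]
  [Algebra ℤ_[2] A] {t : GK K →* A}

theorem rtg_symm' {α : Type*} {r : α → α → Prop} (hs : ∀ a b, r a b → r b a) {a b : α}
    (h : Relation.ReflTransGen r a b) : Relation.ReflTransGen r b a := by
  induction h with
  | refl => exact Relation.ReflTransGen.refl
  | tail _ hbc ih => exact Relation.ReflTransGen.head (hs _ _ hbc) ih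

open Classical in
/-- **The fibres are connected.** -/
theorem conn_of_enough {f : (𝓞 K)[X]} (hf : comps g (n + 1) = f.map (algebraMap (𝓞 K) K))
    (hm : f.Monic) (hd : 0 < f.natDegree) (hn : n < N) {T : Set (HeightOneSpectrum (𝓞 K))}
    (h1 : ∀ v ∈ T, OneNode f v) (hv : ∀ v ∈ T, NodePlaceQ g N (n + 1) v (CongrAt v))
    (ht : ∀ v ∈ T, UnramifiedModFour v t) (he : EnoughF (comps g (n + 1)) (g n) T)
    (x y : Rt g (n + 1))
    (hxy : aeval (x : AlgebraicClosure K) (g n) = aeval (y : AlgebraicClosure K) (g n)) :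
    Relation.ReflTransGen (OwnEdge (rtA g) h.hg t N n) x y := by
  obtain ⟨⟨v₀, hv₀⟩, he⟩ := he
  -- the primitive case
  have hprim : (∀ R : Rt g (n + 1) → Rt g (n + 1) → Prop, Equivalence R →
      (∀ (s : GK K) (x y : Rt g (n + 1)), R x y → R (prm (rtA g (n + 1)) (h.hg (n + 1)) s x)
        (prm (rtA g (n + 1)) (h.hg (n + 1)) s y)) →
      (∀ x y : Rt g (n + 1), R x y →
        aeval (x : AlgebraicClosure K) (g n) = aeval (y : AlgebraicClosure K) (g n)) →
      (∃ x y, x ≠ y ∧ R x y) → ∀ x y : Rt g (n + 1),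
        aeval (x : AlgebraicClosure K) (g n) = aeval (y : AlgebraicClosure K) (g n) → R x y) →
      Relation.ReflTransGen (OwnEdge (rtA g) h.hg t N n) x y := by
    intro hp
    refine hp (fun x y => Relation.ReflTransGen (OwnEdge (rtA g) h.hg t N n) x y)
      ⟨fun x => Relation.ReflTransGen.refl, fun hxy => rtg_symm' (fun _ _ => ownEdge_symm h hn) hxy,
        fun h1 h2 => h1.trans h2⟩ (fun s x y hxy => ?_) (fun x y hxy => ?_) ?_ x y hxy
    · exact Relation.ReflTransGen.lift (prm (rtA g (n + 1)) (h.hg (n + 1)) s)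
        (fun x y h2 => ownEdge_map h hn h2 s) _ _ hxy
    · induction hxy with
      | refl => rfl
      | tail _ hbc ih => rw [ih, ownEdge_fib h hbc]
    · obtain ⟨σ, s, a, b, hl, hab, hsab, hQ⟩ := link_of_placeQ h hn (hv v₀ hv₀) t (ht v₀ hv₀)
      exact ⟨a, b, hab, Relation.ReflTransGen.single ⟨hab, σ, s, hl, hsab⟩⟩
  rcases he with he | he | ⟨hi, hp⟩
  · have h2 := he x y hxy
    clear hxy hprim
    induction h2 with
    | refl => exact Relation.ReflTransGen.refl
    | @tail b c _ hbc ih =>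
      obtain ⟨v, hv'⟩ := hbc
      by_cases hbc' : b = c
      · rw [← hbc']
        exact ih
      · exact ih.tail (ownEdge_of_congr h hf hm hd hn (h1 v v.2) (hv v v.2) (ht v v.2) hbc' hv')
  · refine hprim fun R hR hRs hRf hRn x y hxy => he R hR (fun s x y hxy => ?_) hRf hRn x y hxy
    have h2 := hRs s x y hxy
    have e1 : ∀ z : Rt g (n + 1), prm (rtA g (n + 1)) (h.hg (n + 1)) s z = s • z := fun z =>
      Subtype.ext (by rw [prm_coe h]; rfl)
    rwa [e1, e1] at h2
  · refine hprim fun R hR hRs hRf hRn x y hxy => ?_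
    have htr : ∀ x y : Rt g (n + 1), ∃ s : GK K,
        prm (rtA g (n + 1)) (h.hg (n + 1)) s x = y := by
      intro x y
      have hx := (mem_rootSet.1 x.2).2
      have hy := (mem_rootSet.1 y.2).2
      have h2 : minpoly K (x : AlgebraicClosure K) = minpoly K (y : AlgebraicClosure K) := by
        rw [minpoly.eq_of_irreducible hi hx |>.symm, minpoly.eq_of_irreducible hi hy |>.symm]
      obtain ⟨s, hs⟩ := (Normal.minpoly_eq_iff_mem_orbit (F := K) (E := AlgebraicClosure K)
        (x := (y : AlgebraicClosure K)) (y := (x : AlgebraicClosure K))).1 h2.symm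
      exact ⟨s, Subtype.ext (by rw [prm_coe h]; exact hs)⟩
    have hdn : ∀ a, ((g n).map (algebraMap K (AlgebraicClosure K))).eval (rtA g (n + 1) a) =
        rtA g n (h.dn n a) := by
      intro a
      rw [eval_map_algebraMap]
      rfl
    have hcard : ∀ b, (pre (h.dn n) {b}).card.Prime := by
      intro b
      have h3 := card_pre_one (h.dn n) hdn b (h.comp n)
      rw [natDegree_map] at h3
      rw [h3]
      exact hp
    exact fibre_of_prime (prm (rtA g (n + 1)) (h.hg (n + 1))) (h.dn n) htr hcard R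
      (fun x => hR.refl x) (fun x y => hR.symm) (fun x y z => hR.trans) hRs
      (fun x y hxy => Subtype.ext (hRf x y hxy)) hRn x y (Subtype.ext hxy)

end conn

/-- **The criterion for compositions.** -/
theorem everyPrime_of_nodes {G : ℕ → (𝓞 K)[X]} {N : ℕ} (hN : 1 ≤ N) (hm : ∀ n < N, (G n).Monic)
    (hd : ∀ n < N, 3 ≤ (G n).natDegree) (ho : ∀ n < N, Odd (G n).natDegree)
    {d : ℕ} (τ : AbsoluteGaloisGroup K →* Matrix (Fin d) (Fin d) ℚ_[2]) (hτ : IsLattice τ)
    (hE : ∀ n < N, ∃ T : Set (HeightOneSpectrum (𝓞 K)), (∀ v ∈ T, NodeO G N n v) ∧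
      (∀ v ∈ T, Unramified τ v) ∧ EnoughF ((cO G (n + 1)).map (algebraMap (𝓞 K) K))
        ((G n).map (algebraMap (𝓞 K) K)) T) :
    EveryPrime (fun _ : Unit => (cO G N).map (algebraMap (𝓞 K) K)) τ := by
  obtain ⟨t, ht⟩ := exists_lat τ hτ.2
  set g₀ : ℕ → K[X] := fun n => (G n).map (algebraMap (𝓞 K) K) with hg₀
  have hc0 : ∀ n ≤ N, comps g₀ n = (cO G n).map (algebraMap (𝓞 K) K) :=
    comps_cO (N := N) fun _ _ => rfl
  have hmon : ∀ i ≤ N, (cO G i).Monic := fun i hi =>
    cO_monic hm (fun n hn => by have := hd n hn; omega) i hi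
  have hpos : ∀ n < N, 0 < (cO G (n + 1)).natDegree := by
    intro n hn
    rw [cO, natDegree_comp]
    refine Nat.mul_pos ?_ (by have := hd n hn; omega)
    rw [Nat.pos_iff_ne_zero]
    clear hE
    induction n with
    | zero =>
      rw [cO, natDegree_X]
      exact one_ne_zero
    | succ n ih =>
      rw [cO, natDegree_comp]
      exact mul_ne_zero (ih (by omega)) (by have := hd n (by omega); omega)
  have hsep : ∀ n ≤ N, (comps g₀ n).Separable := by
    intro n hn
    rcases n with _ | n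
    · exact separable_X
    · obtain ⟨T, hT, -, ⟨v, hv⟩, -⟩ := hE n hn
      rw [hc0 (n + 1) hn]
      exact sep_of_disc (hmon (n + 1) hn) (hpos n hn) (disc_ne (hT v hv).oneNode)
  have h : CompHyp (extK g₀ N) := extK_compHyp (fun n hn => (hm n hn).map _)
    (fun n hn => by rw [hg₀, (hm n hn).natDegree_map]; exact hd n hn)
    (fun n hn => by rw [hg₀, (hm n hn).natDegree_map]; exact ho n hn) hsep
  have hyp := h.hyp
  have hce : ∀ n ≤ N, comps (extK g₀ N) n = (cO G n).map (algebraMap (𝓞 K) K) := fun n hn => by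
    rw [comps_ext_le g₀ hn, hc0 n hn]
  rw [← hce N le_rfl]
  refine everyPrime_of_conn h hN τ hτ t ht fun n hn x y hxy => ?_
  obtain ⟨T, hT, hTu, he⟩ := hE n hn
  refine conn_of_enough h (hce (n + 1) hn) (hmon (n + 1) hn) (hpos n hn) hn
    (fun v hv => (hT v hv).oneNode) (fun v hv => ?_) (fun v hv => unramified_lat (hTu v hv) ht)
    (by rwa [hce (n + 1) hn, extK_lt g₀ hn]) x y hxy
  exact nodePlaceQ_of hmon (fun i hi => extK_lt g₀ hi) hn (hpos n hn) (hT v hv).two
    (hT v hv).oneNode (hT v hv).odd (hT v hv).cop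

end

end Pool.Agent.H852.J
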