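import Mathlib
import Pool.Agent.H852.J.H4

/-!
# Curves whose branch points have differences which are independent modulo squares
-/

set_option linter.unusedSectionVars false
set_option autoImplicit false

namespace Pool.Agent.H852.J

open Matrix Polynomial Filter Topology Module NumberField IsDedekindDomain PadicInt
open Pool.Agent.Y142.ZO (GK)
open Pool.Agent.N171 Pool.Agent.N171.Al Pool.Agent.N171.Pm Pool.Agent.N171.Bg Pool.Agent.N171.TG
open Pool.Agent.Results.MP_640417_ag.HyperellipticEveryPrime (AbsoluteGaloisGroup IsLattice EveryPrime)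

section crit

variable {K F : Type} [Field K] [Field F] [Algebra K F] [IsAlgClosed F] [Normal K F] {m : ℕ}
  {N : IntermediateField K F} (β : Fin m → N)

/-- the branch points with index in the set `T` -/
def rT (T : Finset (Fin m)) (i : T) : F := (β i : F)

variable {β} (hm1 : IsSquare (-1 : N)) (hm2 : IsSquare (2 : N))
  (hind : ∀ E : Finset {p : Fin m × Fin m // p.1 < p.2}, E.Nonempty →
    ¬ IsSquare (∏ p ∈ E, (β p.1.1 - β p.1.2)))

include hind in
theorem beta_ne {i j : Fin m} (h : i < j) : β i - β j ≠ 0 := by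
  intro h0
  refine hind {⟨(i, j), h⟩} (Finset.singleton_nonempty _) ?_
  rw [Finset.prod_singleton]
  change IsSquare (β i - β j)
  rw [h0]
  exact IsSquare.zero

include hind in
theorem beta_inj : Function.Injective β := by
  intro i j h
  by_contra hne
  rcases lt_or_gt_of_ne hne with h1 | h1
  · exact beta_ne hind h1 (by rw [h, sub_self])
  · exact beta_ne hind h1 (by rw [h, sub_self])

include hm1 hm2 hind in
/-- the automorphism which changes the sign of the square root of one difference only -/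
theorem star_beta (h2 : (2 : F) ≠ 0) (s k : Fin m) :
    ∃ σ : F ≃ₐ[K] F, (∀ x ∈ N, σ x = x) ∧
      (∀ i j : Fin m, i ≠ j → ∀ w : F, w ^ 2 = (β i : F) - β j →
        σ w = if (i = s ∧ j = k) ∨ (i = k ∧ j = s) then -w else w) ∧
      ∃ z, ((cyc K F σ : ℤ_[2]ˣ) : ℤ_[2]) = 1 + 8 * z := by
  classical
  let d : {p : Fin m × Fin m // p.1 < p.2} → Nˣ := fun p => Units.mk0 _ (beta_ne hind p.2)
  obtain ⟨l, hl⟩ := exists_char d (fun E hE hsq => hind E hE (by
    have h1 := isSquare_units.1 hsq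
    rw [Units.coe_prod] at h1
    exact h1)) (fun p => (p.1.1 = s ∧ p.1.2 = k) ∨ (p.1.1 = k ∧ p.1.2 = s))
  obtain ⟨σ, h3, h4, h5⟩ := exists_sigma_M h2 N l
    (char_of_sq l (by rw [Units.val_neg, Units.val_one]; exact hm1))
    (fun u hu => char_of_sq l (by rw [hu]; exact hm2)) d
  have hlt : ∀ i j : Fin m, i < j → ∀ w : F, w ^ 2 = (β i : F) - β j →
      σ w = if (i = s ∧ j = k) ∨ (i = k ∧ j = s) then -w else w := by
    intro i j hij w hw
    have h6 := h4 ⟨(i, j), hij⟩ w (by rw [hw]; rfl)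
    rw [h6, hl]
    split_ifs <;> simp
  refine ⟨σ, fun x hx => h3 ⟨x, hx⟩, fun i j hij w hw => ?_, h5⟩
  rcases lt_or_gt_of_ne hij with h | h
  · exact hlt i j h w hw
  · obtain ⟨e, he⟩ := hm1
    have he' : (e : F) * e = -1 := by
      have := congrArg Subtype.val he
      exact this.symm
    have h6 := hlt j i h (w * e) (by rw [mul_pow, hw, sq (e : F), he']; ring)
    have he0 : (e : F) ≠ 0 := by
      intro h0
      rw [h0, mul_zero] at he'
      exact one_ne_zero (neg_eq_zero.1 he'.symm)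
    rw [map_mul, h3 e] at h6
    apply mul_right_cancel₀ he0
    rw [h6]
    have h7 : ((j = s ∧ i = k) ∨ (j = k ∧ i = s)) ↔ ((i = s ∧ j = k) ∨ (i = k ∧ j = s)) := by
      tauto
    simp only [h7]
    split_ifs <;> ring

include hind in
theorem hyp_beta (h2 : (2 : F) ≠ 0) {T : Finset (Fin m)} (ho : Odd T.card) : Hyp (rT β T) where
  inj := by
    intro i j hij
    exact Subtype.ext (beta_inj hind (Subtype.ext hij))
  odd := by
    rw [Fintype.card_coe]
    exact ho
  two := h2

include hm1 hm2 hind in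
/-- **Generation at the star of a point.** -/
theorem genBy_beta (h2 : (2 : F) ≠ 0) {T : Finset (Fin m)} (hT : 3 ≤ T.card)
    [Hyp (rT β T)] {s : Fin m} (hs : s ∈ T) (W : (F ≃ₐ[K] F) → Prop)
    (hW : ∀ (k : Fin m) (σ : F ≃ₐ[K] F), (∀ x ∈ N, σ x = x) →
      (∀ i j : Fin m, i ≠ j → ∀ w : F, w ^ 2 = (β i : F) - β j →
        σ w = if (i = s ∧ j = k) ∨ (i = k ∧ j = s) then -w else w) → W σ) :
    GenBy K (rT β T) W := by
  classical
  have h3' : 2 < Fintype.card T := by rw [Fintype.card_coe]; omega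
  choose σ hN hσ hχ using fun k => star_beta hm1 hm2 hind h2 s k
  refine ⟨{k : T // k ≠ ⟨s, hs⟩}, fun k => {⟨s, hs⟩, k.1}, fun k => σ k.1,
    genSets_star _ h3', fun k => ⟨fun i => hN _ _ (β i).2, fun i j hij w hw => ?_⟩,
    fun k => hχ k.1, fun k => hW k.1 (σ k.1) (hN k.1) (hσ k.1)⟩
  have hsk : s ≠ k.1 := fun h => k.2 (Subtype.ext h.symm)
  have hij' : (i : Fin m) ≠ j := fun h => hij (Subtype.ext h)
  rw [hσ k.1 i j hij' w hw]
  simp only [Finset.mem_insert, Finset.mem_singleton, Subtype.ext_iff]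
  by_cases h4 : ((i : Fin m) = s ∧ (j : Fin m) = k.1) ∨ ((i : Fin m) = k.1 ∧ (j : Fin m) = s)
  · rw [if_pos h4, if_pos]
    rcases h4 with h4 | h4
    · exact ⟨Or.inl h4.1, Or.inr h4.2⟩
    · exact ⟨Or.inr h4.1, Or.inl h4.2⟩
  · rw [if_neg h4, if_neg]
    rintro ⟨h5 | h5, h6 | h6⟩
    · exact hij' (h5.trans h6.symm)
    · exact h4 (Or.inl ⟨h5, h6⟩)
    · exact h4 (Or.inr ⟨h5, h6⟩)
    · exact hij' (h5.trans h6.symm)

end crit

section main

variable {K : Type} [Field K] [NumberField K] {m : ℕ}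
  {N : IntermediateField K (AlgebraicClosure K)} {β : Fin m → N}

/-- **Independent differences of branch points.** -/
theorem everyPrime_beta (hm1 : IsSquare (-1 : N)) (hm2 : IsSquare (2 : N))
    (hind : ∀ E : Finset {p : Fin m × Fin m // p.1 < p.2}, E.Nonempty →
      ¬ IsSquare (∏ p ∈ E, (β p.1.1 - β p.1.2)))
    {ι : Type} [Fintype ι] [Nonempty ι] [DecidableEq ι] (T : ι → Finset (Fin m))
    (hTinj : Function.Injective T) (hT3 : ∀ i, 3 ≤ (T i).card) (hTo : ∀ i, Odd (T i).card)
    (f : ι → K[X]) (hf : ∀ i, HypP (f i))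
    (hfT : ∀ i, (f i).map (algebraMap K (AlgebraicClosure K)) = fP (rT β (T i)))
    {d : ℕ} (τ : AbsoluteGaloisGroup K →* Matrix (Fin d) (Fin d) ℚ_[2]) (hτ : IsLattice τ)
    (ht : ∀ g : AbsoluteGaloisGroup K, (∀ x ∈ N, g x = x) → TrivialModFour τ g) :
    EveryPrime f τ := by
  classical
  obtain ⟨t, htl⟩ := exists_lat τ hτ.2
  have h2F : (2 : AlgebraicClosure K) ≠ 0 := by
    have h1 : (2 : AlgebraicClosure K) = algebraMap K (AlgebraicClosure K) 2 := by rw [map_ofNat]
    rw [h1, Ne, map_eq_zero]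
    exact two_ne_zero
  have hyp : ∀ i, Hyp (rT β (T i)) := fun i => hyp_beta hind h2F (hTo i)
  refine everyPrime_of_tan f hf (fun i => rT β (T i)) hfT (fun i => ?_) t τ hτ.1 htl ?_
  · rw [Fintype.card_coe]
    have := hT3 i
    omega
  · intro h2' _ hg X hX
    let r : ι → ℕ := fun i => rk ⟨T i, hT3 i⟩
    have hr : Function.Injective r := by
      intro i j hij
      exact hTinj (congrArg Subtype.val (rk_inj hij))
    refine tan_pairs (fun i => rT β (T i)) hg t h2' r hr (fun i j h => ?_) (fun i => ?_) hX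
    · obtain ⟨s, hs, hs'⟩ := rk_lt h
      refine genBy_beta hm1 hm2 hind h2' (hT3 i) hs _ fun k σ hN hσ =>
        ⟨fun x => hN _ (β x).2, fun x y hxy w hw => ?_⟩
      have hxy' : (x : Fin m) ≠ y := fun h => hxy (Subtype.ext h)
      rw [hσ x y hxy' w hw, if_neg, if_neg]
      · simp
      · rintro (⟨h1, -⟩ | ⟨-, h1⟩)
        · exact hs' (h1 ▸ x.2)
        · exact hs' (h1 ▸ y.2)
    · obtain ⟨s, hs⟩ : (T i).Nonempty := Finset.card_pos.1 (by have := hT3 i; omega)
      exact genBy_beta hm1 hm2 hind h2' (hT3 i) hs _ fun k σ hN _ => trivial_lat htl (ht σ hN)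

end main

end Pool.Agent.H852.J
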