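import Mathlib
import Pool.Agent.H852.J.F1
import Pool.Agent.H852.J.F4
import Pool.Agent.H852.J.H5

/-!
# Curves whose Weierstrass points generate prescribed fields
-/

set_option linter.unusedSectionVars false
set_option autoImplicit false

namespace Pool.Agent.H852.J

open Matrix Polynomial Filter Topology Module NumberField IsDedekindDomain
open Pool.Agent.Y142.ZO (GK)
open Pool.Agent.N171 Pool.Agent.N171.Al Pool.Agent.N171.Pm Pool.Agent.N171.Bg Pool.Agent.N171.TG
open Pool.Agent.Results.MP_640417_ag.HyperellipticEveryPrime (AbsoluteGaloisGroup IsLattice EveryPrime)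

section defs

variable {K : Type} [Field K] {n : ℕ} {L : Fin n → Type} [∀ i, Field (L i)] [∀ i, Algebra K (L i)]
  {r : Fin n → ℕ} (b : ∀ i, Fin (r i) → L i)

/-- the combinations of the elements `b i j` with the coefficients `x (i, j)` -/
def gen (x : (Σ i, Fin (r i)) → ℤ) (i : Fin n) : L i := ∑ j, x ⟨i, j⟩ • b i j

/-- the product of the minimal polynomials -/
noncomputable def crvP (K : Type) [Field K] [∀ i, Algebra K (L i)] (x : (Σ i, Fin (r i)) → ℤ)
    (S : Finset (Fin n)) : K[X] := ∏ i ∈ S, minpoly K (gen b x i)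

end defs

section field

variable {K : Type} [Field K] [NumberField K]

/-- a large finite extension -/
theorem exists_bigfield {d : ℕ}
    (τ : AbsoluteGaloisGroup K →* Matrix (Fin d) (Fin d) ℚ_[2]) (hτ : IsLattice τ)
    (R : Set (AlgebraicClosure K)) (hR : R.Finite) :
    ∃ (N : IntermediateField K (AlgebraicClosure K)) (_ : NumberField N), IsSquare (-1 : N) ∧
      IsSquare (2 : N) ∧ (∀ z ∈ R, z ∈ N) ∧
      (∀ g : AbsoluteGaloisGroup K, (∀ x ∈ N, g x = x) → TrivialModFour τ g) := by
  obtain ⟨E, hE1, hE2⟩ := (krullTopology_mem_nhds_one_iff K (AlgebraicClosure K) _).1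
    (trivial_nhds τ hτ)
  have hsq : ∀ z : AlgebraicClosure K, ∃ w, w ^ 2 = z := fun z =>
    IsAlgClosed.exists_pow_nat_eq z two_pos
  choose w hw using hsq
  let S : Set (AlgebraicClosure K) := {w (-1), w 2} ∪ R
  have hSfin : S.Finite := (Set.toFinite _).union hR
  have := hSfin.to_subtype
  have hfd1 : FiniteDimensional K (IntermediateField.adjoin K S) :=
    IntermediateField.finiteDimensional_adjoin fun z _ => Normal.isIntegral (F := K) inferInstance z
  have hfd2 : FiniteDimensional K (E ⊔ IntermediateField.adjoin K S : IntermediateField K _) :=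
    IntermediateField.finiteDimensional_sup _ _
  set N := (E ⊔ IntermediateField.adjoin K S : IntermediateField K (AlgebraicClosure K)) with hN
  have hnf : NumberField N := NumberField.of_module_finite K N
  have hmem : ∀ z ∈ S, z ∈ N := fun z hz =>
    (le_sup_right : IntermediateField.adjoin K S ≤ _) (IntermediateField.subset_adjoin K S hz)
  have hsqN : ∀ (z : N), w z ∈ N → IsSquare z := by
    intro z hz
    refine ⟨⟨w z, hz⟩, Subtype.ext ?_⟩
    change (z : AlgebraicClosure K) = w z * w z
    rw [← sq, hw]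
  refine ⟨N, hnf, hsqN _ (hmem _ (Or.inl (Or.inl rfl))), hsqN _ (hmem _ (Or.inl (Or.inr rfl))),
    fun z hz => hmem z (Or.inr hz), fun g hg => hE2 ?_⟩
  intro x
  exact hg x ((le_sup_left : E ≤ _) x.2)

end field

section main

variable {K : Type} [Field K] [NumberField K] {n : ℕ} {L : Fin n → Type} [∀ i, Field (L i)]
  [∀ i, Algebra K (L i)] [∀ i, FiniteDimensional K (L i)] {r : Fin n → ℕ}
  (b : ∀ i, Fin (r i) → L i)

/-- all embeddings of the fields `L i` -/
abbrev Emb (K : Type) [Field K] (L : Fin n → Type) [∀ i, Field (L i)] [∀ i, Algebra K (L i)] : Type :=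
  Σ i, (L i →ₐ[K] AlgebraicClosure K)

theorem integral_scale {N : Type} [Field N] [NumberField N] {ι : Type} [Fintype ι] (g : ι → N) :
    ∃ D : ℤ, D ≠ 0 ∧ ∀ i, IsIntegral ℤ (D • g i) := by
  classical
  have : Algebra.IsAlgebraic ℤ N :=
    ⟨fun x => (IsFractionRing.isAlgebraic_iff ℤ ℚ N).2 (Algebra.IsAlgebraic.isAlgebraic x)⟩
  obtain ⟨D, hD, h⟩ := Algebra.IsAlgebraic.exists_integral_multiples ℤ (Finset.univ.image g)
  exact ⟨D, hD, fun i => h _ (Finset.mem_image_of_mem _ (Finset.mem_univ i))⟩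

/-- the form, as a linear map -/
def genL (i : Fin n) : ((Σ i, Fin (r i)) → ℤ) →ₗ[ℤ] L i :=
  ∑ j, (LinearMap.proj (⟨i, j⟩ : Σ i, Fin (r i)) : ((Σ i, Fin (r i)) → ℤ) →ₗ[ℤ] ℤ).smulRight (b i j)

theorem genL_apply (i : Fin n) (x : (Σ i, Fin (r i)) → ℤ) : genL b i x = gen b x i := by
  unfold genL gen
  rw [LinearMap.sum_apply]
  rfl

theorem gen_single_same (i : Fin n) (j : Fin (r i)) : gen b (Pi.single ⟨i, j⟩ 1) i = b i j := by
  classical
  unfold gen
  rw [Finset.sum_eq_single j]
  · rw [Pi.single_eq_same, one_smul]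
  · intro j' _ hj
    rw [Pi.single_eq_of_ne, zero_smul]
    intro h
    exact hj (eq_of_heq (Sigma.mk.inj_iff.1 h).2)
  · intro h
    exact absurd (Finset.mem_univ j) h

theorem gen_single_ne {i i' : Fin n} (h : i ≠ i') (j : Fin (r i')) :
    gen b (Pi.single ⟨i', j⟩ 1) i = 0 := by
  classical
  unfold gen
  refine Finset.sum_eq_zero fun j' _ => ?_
  rw [Pi.single_eq_of_ne, zero_smul]
  intro h'
  exact h (Sigma.mk.inj_iff.1 h').1

/-- the coefficients of the linear forms -/
noncomputable def vv (t : Emb K L) (k : Σ i, Fin (r i)) : AlgebraicClosure K :=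
  t.2 (gen b (Pi.single k 1) t.1)

theorem emb_gen (t : Emb K L) (x : (Σ i, Fin (r i)) → ℤ) :
    t.2 (gen b x t.1) = ∑ k, (x k : AlgebraicClosure K) * vv b t k := by
  classical
  have h1 : x = ∑ k, x k • (Pi.single k 1 : (Σ i, Fin (r i)) → ℤ) := by
    funext l
    rw [Finset.sum_apply, Finset.sum_eq_single l]
    · rw [Pi.smul_apply, Pi.single_eq_same, smul_eq_mul, mul_one]
    · intro k _ hk
      rw [Pi.smul_apply, Pi.single_eq_of_ne hk.symm, smul_zero]
    · intro h
      exact absurd (Finset.mem_univ l) h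
  conv_lhs => rw [h1]
  rw [← genL_apply, map_sum, map_sum]
  refine Finset.sum_congr rfl fun k _ => ?_
  rw [map_smul, genL_apply, map_zsmul, zsmul_eq_mul]
  rfl

variable (hb : ∀ i, Submodule.span K (Set.range (b i)) = ⊤)

include hb in
/-- the linear forms are independent -/
theorem vv_indep (c : Emb K L → AlgebraicClosure K) (h : ∀ k, ∑ t, c t * vv b t k = 0) :
    c = 0 := by
  classical
  have h1 : ∀ i (j : Fin (r i)), ∑ σ : L i →ₐ[K] AlgebraicClosure K, c ⟨i, σ⟩ * σ (b i j) = 0 := by
    intro i j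
    have h2 := h ⟨i, j⟩
    rw [Fintype.sum_sigma, Finset.sum_eq_single i] at h2
    · rw [← h2]
      refine Finset.sum_congr rfl fun σ _ => ?_
      unfold vv
      rw [gen_single_same]
    · intro i' _ hi
      refine Finset.sum_eq_zero fun σ _ => ?_
      unfold vv
      rw [gen_single_ne b hi, map_zero, mul_zero]
    · intro h'
      exact absurd (Finset.mem_univ i) h'
  funext t
  obtain ⟨i, σ⟩ := t
  have h2 : ∑ σ : L i →ₐ[K] AlgebraicClosure K, c ⟨i, σ⟩ • (σ.toLinearMap) = 0 := by
    apply LinearMap.ext_on (hb i)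
    rintro _ ⟨j, rfl⟩
    rw [LinearMap.sum_apply, LinearMap.zero_apply]
    exact h1 i j
  exact Fintype.linearIndependent_iff.1 (linearIndependent_toLinearMap K (L i) (AlgebraicClosure K))
    (fun σ => c ⟨i, σ⟩) h2 σ

include hb in
/-- the right inverse, up to a scalar, of the matrix of the linear forms -/
theorem exists_right {m : ℕ} (e : Emb K L ≃ Fin m) {N : IntermediateField K (AlgebraicClosure K)}
    [NumberField N] (hN : ∀ t (k : Σ i, Fin (r i)), vv b t k ∈ N) :
    ∃ (D : ℤ) (A : Fin m → (Σ i, Fin (r i)) → 𝓞 N) (A' : (Σ i, Fin (r i)) → Fin m → 𝓞 N)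
      (δ : 𝓞 N), D ≠ 0 ∧ δ ≠ 0 ∧ (∀ s k, ((A s k : N) : AlgebraicClosure K) =
        (D : AlgebraicClosure K) ^ 2 * vv b (e.symm s) k) ∧
      ∀ s s', ∑ k, A s k * A' k s' = if s = s' then δ else 0 := by
  classical
  let g : (Fin m × (Σ i, Fin (r i))) → N := fun x => ⟨vv b (e.symm x.1) x.2, hN _ _⟩
  obtain ⟨D, hD, hint⟩ := integral_scale g
  have hDN : (D : N) ≠ 0 := by exact_mod_cast hD
  let AN : Matrix (Fin m) (Σ i, Fin (r i)) N := fun s k => (D : N) ^ 2 * g (s, k)
  have hAint : ∀ s k, IsIntegral ℤ (AN s k) := by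
    intro s k
    have h1 := (hint (s, k)).smul D
    rw [zsmul_eq_mul, zsmul_eq_mul, ← mul_assoc, ← sq] at h1
    exact h1
  have hrow : LinearIndependent N AN.row := by
    rw [Fintype.linearIndependent_iff]
    intro c hc s
    have h1 : (fun t : Emb K L => ((c (e t) : N) : AlgebraicClosure K)) = 0 := by
      refine vv_indep b hb _ fun k => ?_
      have h2 := congrFun hc k
      rw [Finset.sum_apply] at h2
      have h3 : ∑ s, c s * ((D : N) ^ 2 * g (s, k)) = 0 := h2
      have h4 : (D : N) ^ 2 * ∑ s, c s * g (s, k) = 0 := by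
        rw [← h3, Finset.mul_sum]
        exact Finset.sum_congr rfl fun s _ => by ring
      have h5 := (mul_eq_zero.1 h4).resolve_left (pow_ne_zero 2 hDN)
      have h6 := congrArg (algebraMap N (AlgebraicClosure K)) h5
      rw [map_sum, map_zero] at h6
      rw [← h6, ← e.sum_comp]
      refine Finset.sum_congr rfl fun t _ => ?_
      rw [map_mul]
      change _ = ((c (e t) : N) : AlgebraicClosure K) * vv b (e.symm (e t)) k
      rw [Equiv.symm_apply_apply]
    have h2 := congrFun h1 (e.symm s)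
    rw [Equiv.apply_symm_apply] at h2
    exact Subtype.ext h2
  have hsurj : Function.Surjective AN.mulVec := by
    have h1 := hrow.rank_matrix
    have h2 : LinearMap.range AN.mulVecLin = ⊤ := by
      apply Submodule.eq_top_of_finrank_eq
      rw [← Matrix.rank, h1, Module.finrank_fintype_fun_eq_card]
    exact LinearMap.range_eq_top.1 h2
  obtain ⟨B, hB⟩ := Matrix.mulVec_surjective_iff_exists_right_inverse.1 hsurj
  obtain ⟨D', hD', hint'⟩ := integral_scale (fun x : (Σ i, Fin (r i)) × Fin m => B x.1 x.2)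
  let A₀ : Fin m → (Σ i, Fin (r i)) → 𝓞 N := fun s k => ⟨AN s k, hAint s k⟩
  let A₁ : (Σ i, Fin (r i)) → Fin m → 𝓞 N := fun k s => ⟨D' • B k s, hint' (k, s)⟩
  refine ⟨D, A₀, A₁, (D' : 𝓞 N), hD, by exact_mod_cast hD', fun s k => rfl, fun s s' => ?_⟩
  apply RingOfIntegers.ext
  have h1 : algebraMap (𝓞 N) N (∑ k, A₀ s k * A₁ k s') =
      ∑ k, AN s k * (D' • B k s') := by
    rw [map_sum]
    exact Finset.sum_congr rfl fun k _ => map_mul _ _ _
  refine h1.trans ?_
  have h2 := congrFun (congrFun hB s) s'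
  rw [Matrix.mul_apply, Matrix.one_apply] at h2
  have h3 : ∑ k, AN s k * (D' • B k s') = (D' : N) * ∑ k, AN s k * B k s' := by
    rw [Finset.mul_sum]
    refine Finset.sum_congr rfl fun k _ => ?_
    rw [zsmul_eq_mul]
    ring
  rw [h3, h2]
  split_ifs
  · rw [mul_one]
    exact (map_intCast (algebraMap (𝓞 N) N) D').symm
  · rw [mul_zero]
    exact (map_zero (algebraMap (𝓞 N) N)).symm

/-! ### the polynomials -/

theorem map_minpoly_gen (x : (Σ i, Fin (r i)) → ℤ) (i : Fin n)
    (hinj : Function.Injective fun σ : L i →ₐ[K] AlgebraicClosure K => σ (gen b x i)) :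
    (minpoly K (gen b x i)).map (algebraMap K (AlgebraicClosure K)) =
      ∏ σ : L i →ₐ[K] AlgebraicClosure K, (X - C (σ (gen b x i))) := by
  classical
  set α := gen b x i with hα
  have hint : IsIntegral K α := Algebra.IsIntegral.isIntegral α
  have hm := (minpoly.monic hint).map (algebraMap K (AlgebraicClosure K))
  have hsep : ((minpoly K α).map (algebraMap K (AlgebraicClosure K))).Separable :=
    (minpoly.irreducible hint).separable.map
  have h1 := (IsAlgClosed.splits ((minpoly K α).map
    (algebraMap K (AlgebraicClosure K)))).eq_prod_roots_of_monic hm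
  have h2 : ((minpoly K α).map (algebraMap K (AlgebraicClosure K))).roots =
      (Finset.univ : Finset (L i →ₐ[K] AlgebraicClosure K)).val.map fun σ => σ α := by
    refine (Multiset.Nodup.ext (nodup_roots hsep) (Finset.univ.nodup.map hinj)).2 fun z => ?_
    have h3 := Algebra.IsAlgebraic.range_eval_eq_rootSet_minpoly (F := K) (AlgebraicClosure K) α
    have h4 : z ∈ ((minpoly K α).map (algebraMap K (AlgebraicClosure K))).roots ↔
        z ∈ (minpoly K α).rootSet (AlgebraicClosure K) := by
      rw [rootSet, aroots, Finset.mem_coe, Multiset.mem_toFinset]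
    rw [h4, ← h3, Multiset.mem_map]
    simp
  rw [h1, h2, Multiset.map_map]
  rfl

/-- the degree of the polynomial -/
noncomputable def degS (K : Type) [Field K] (L : Fin n → Type) [∀ i, Field (L i)]
    [∀ i, Algebra K (L i)] (S : Finset (Fin n)) : ℕ := ∑ i ∈ S, Module.finrank K (L i)

/-- the indices of the roots -/
def TS {m : ℕ} (e : Emb K L ≃ Fin m) (S : Finset (Fin n)) : Finset (Fin m) :=
  Finset.univ.filter fun s => (e.symm s).1 ∈ S

theorem mem_TS {m : ℕ} (e : Emb K L ≃ Fin m) (S : Finset (Fin n)) (s : Fin m) :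
    s ∈ TS e S ↔ (e.symm s).1 ∈ S := by simp [TS]

theorem TS_eq {m : ℕ} (e : Emb K L ≃ Fin m) (S : Finset (Fin n)) :
    TS e S = (S.sigma fun i => (Finset.univ : Finset (L i →ₐ[K] AlgebraicClosure K))).map
      e.toEmbedding := by
  ext s
  rw [mem_TS, Finset.mem_map]
  constructor
  · intro h
    exact ⟨e.symm s, Finset.mem_sigma.2 ⟨h, Finset.mem_univ _⟩, e.apply_symm_apply s⟩
  · rintro ⟨t, ht, rfl⟩
    rw [Equiv.coe_toEmbedding, e.symm_apply_apply]
    exact (Finset.mem_sigma.1 ht).1

theorem card_TS {m : ℕ} (e : Emb K L ≃ Fin m) (S : Finset (Fin n)) :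
    (TS e S).card = degS K L S := by
  rw [TS_eq, Finset.card_map, Finset.card_sigma]
  refine Finset.sum_congr rfl fun i _ => ?_
  rw [Finset.card_univ, AlgHom.card]

theorem TS_inj {m : ℕ} (e : Emb K L ≃ Fin m) : Function.Injective (TS (L := L) e) := by
  intro S S' h
  ext i
  have hne : Nonempty (L i →ₐ[K] AlgebraicClosure K) := ⟨IsAlgClosed.lift⟩
  obtain ⟨σ⟩ := hne
  have h1 := Finset.ext_iff.1 h (e ⟨i, σ⟩)
  rw [mem_TS, mem_TS, e.symm_apply_apply] at h1
  exact h1

theorem map_crvP {m : ℕ} (e : Emb K L ≃ Fin m) {N : IntermediateField K (AlgebraicClosure K)}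
    (x : (Σ i, Fin (r i)) → ℤ) (β : Fin m → N)
    (hβ : ∀ s, (β s : AlgebraicClosure K) = (e.symm s).2 (gen b x (e.symm s).1))
    (hinj : Function.Injective β) (S : Finset (Fin n)) :
    (crvP b K x S).map (algebraMap K (AlgebraicClosure K)) = fP (rT β (TS e S)) := by
  have h1 : ∀ i, Function.Injective fun σ : L i →ₐ[K] AlgebraicClosure K => σ (gen b x i) := by
    intro i σ σ' h
    have h2 : β (e ⟨i, σ⟩) = β (e ⟨i, σ'⟩) := by
      apply Subtype.ext
      rw [hβ, hβ, e.symm_apply_apply, e.symm_apply_apply]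
      exact h
    have h3 := e.injective (hinj h2)
    exact eq_of_heq (Sigma.mk.inj_iff.1 h3).2
  unfold crvP
  rw [Polynomial.map_prod, Finset.prod_congr rfl fun i _ => map_minpoly_gen b x i (h1 i)]
  have h2 : fP (rT β (TS e S)) = ∏ s ∈ TS e S, (X - C ((β s : N) : AlgebraicClosure K)) := by
    unfold fP rT
    rw [Finset.prod_coe_sort (TS e S) fun s => (X - C ((β s : N) : AlgebraicClosure K))]
  rw [h2, TS_eq, Finset.prod_map, Finset.prod_sigma]
  refine Finset.prod_congr rfl fun i _ => Finset.prod_congr rfl fun σ _ => ?_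
  rw [hβ, Equiv.coe_toEmbedding, e.symm_apply_apply]

theorem hypP_crvP {m : ℕ} (e : Emb K L ≃ Fin m) {N : IntermediateField K (AlgebraicClosure K)}
    (x : (Σ i, Fin (r i)) → ℤ) (β : Fin m → N)
    (hβ : ∀ s, (β s : AlgebraicClosure K) = (e.symm s).2 (gen b x (e.symm s).1))
    (hinj : Function.Injective β) {S : Finset (Fin n)} (hS : Odd (degS K L S)) :
    HypP (crvP b K x S) where
  monic := monic_prod_of_monic _ _ fun i _ => minpoly.monic (Algebra.IsIntegral.isIntegral _)
  sep := by
    have h1 : ((crvP b K x S).map (algebraMap K (AlgebraicClosure K))).Separable := by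
      rw [map_crvP b e x β hβ hinj]
      refine separable_prod_X_sub_C_iff.2 fun i j hij => ?_
      exact Subtype.ext (hinj (Subtype.ext hij))
    exact (separable_map _).1 h1
  odd := by
    have h1 := congrArg natDegree (map_crvP b e x β hβ hinj S)
    rw [natDegree_map, fP, natDegree_prod_of_monic _ _ fun i _ => monic_X_sub_C _] at h1
    simp only [natDegree_X_sub_C, Finset.sum_const, smul_eq_mul, mul_one, Finset.card_univ,
      Fintype.card_coe] at h1
    rw [h1, card_TS]
    exact hS
  two := two_ne_zero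

end main

end Pool.Agent.H852.J
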