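import Mathlib
import Pool.Agent.H852.J.F5

/-!
# The Tate conjecture for almost all curves with prescribed fields of Weierstrass points
-/

set_option linter.unusedSectionVars false
set_option autoImplicit false

namespace Pool.Agent.H852.J

open Matrix Polynomial Filter Topology Module NumberField IsDedekindDomain
open Pool.Agent.Y142.ZO (GK)
open Pool.Agent.N171 Pool.Agent.N171.Al Pool.Agent.N171.Pm Pool.Agent.N171.Bg Pool.Agent.N171.TG
open Pool.Agent.Results.MP_640417_ag.HyperellipticEveryPrime (AbsoluteGaloisGroup IsLattice EveryPrime)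

variable {K : Type} [Field K] [NumberField K] {n : ℕ} {L : Fin n → Type} [∀ i, Field (L i)]
  [∀ i, Algebra K (L i)] [∀ i, FiniteDimensional K (L i)] {r : Fin n → ℕ}
  (b : ∀ i, Fin (r i) → L i)

/-- one vector -/
theorem everyPrime_vec {d : ℕ}
    (τ : AbsoluteGaloisGroup K →* Matrix (Fin d) (Fin d) ℚ_[2]) (hτ : IsLattice τ)
    (hne : ∃ S : Finset (Fin n), Odd (degS K L S) ∧ 3 ≤ degS K L S)
    {m : ℕ} (e : Emb K L ≃ Fin m) {N : IntermediateField K (AlgebraicClosure K)}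
    [NumberField N] (hN : ∀ t (k : Σ i, Fin (r i)), vv b t k ∈ N) (hm1 : IsSquare (-1 : N))
    (hm2 : IsSquare (2 : N))
    (ht : ∀ g : AbsoluteGaloisGroup K, (∀ x ∈ N, g x = x) → TrivialModFour τ g)
    {D : ℤ} {A : Fin m → (Σ i, Fin (r i)) → 𝓞 N}
    (hA : ∀ s k, ((A s k : N) : AlgebraicClosure K) =
      (D : AlgebraicClosure K) ^ 2 * vv b (e.symm s) k)
    (x : (Σ i, Fin (r i)) → ℤ) (hx : ∀ E : Finset {e : Fin m × Fin m // e.1 < e.2}, E.Nonempty →
      ¬ IsSquare (∏ e ∈ E, (lf A x e.1.1 - lf A x e.1.2))) :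
    EveryPrime (fun S : {S : Finset (Fin n) // Odd (degS K L S) ∧ 3 ≤ degS K L S} =>
      crvP b K x S.1) τ := by
  classical
  have hβN : ∀ s, (e.symm s).2 (gen b x (e.symm s).1) ∈ N := by
    intro s
    rw [emb_gen]
    refine sum_mem fun k _ => mul_mem ?_ (hN _ _)
    exact intCast_mem N _
  let β : Fin m → N := fun s => ⟨_, hβN s⟩
  have hβ : ∀ s, (β s : AlgebraicClosure K) = (e.symm s).2 (gen b x (e.symm s).1) := fun _ => rfl
  have hlf : ∀ s, ((lf A x s : 𝓞 N) : N) = (D : N) ^ 2 * β s := by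
    intro s
    apply Subtype.ext
    have h1 : ((lf A x s : 𝓞 N) : N) = ∑ k, (x k : N) * (A s k : N) := by
      unfold lf
      change algebraMap (𝓞 N) N _ = _
      rw [map_sum]
      exact Finset.sum_congr rfl fun k _ => by rw [map_mul, map_intCast]
    rw [h1]
    have h2 : ((∑ k, (x k : N) * (A s k : N) : N) : AlgebraicClosure K) =
        ∑ k, (x k : AlgebraicClosure K) * ((A s k : N) : AlgebraicClosure K) := by
      change algebraMap N (AlgebraicClosure K) _ = _
      rw [map_sum]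
      exact Finset.sum_congr rfl fun k _ => by rw [map_mul, map_intCast]; rfl
    rw [h2]
    have h3 : (((D : N) ^ 2 * β s : N) : AlgebraicClosure K) =
        (D : AlgebraicClosure K) ^ 2 * (β s : AlgebraicClosure K) := by
      push_cast
      rfl
    rw [h3, hβ, emb_gen, Finset.mul_sum]
    refine Finset.sum_congr rfl fun k _ => ?_
    rw [hA]
    ring
  have hind : ∀ E : Finset {p : Fin m × Fin m // p.1 < p.2}, E.Nonempty →
      ¬ IsSquare (∏ p ∈ E, (β p.1.1 - β p.1.2)) := by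
    rintro E hE ⟨y, hy⟩
    apply hx E hE
    have h1 : algebraMap (𝓞 N) N (∏ e ∈ E, (lf A x e.1.1 - lf A x e.1.2)) =
        ((D : N) ^ E.card * y) ^ 2 := by
      rw [map_prod]
      have h2 : ∀ p ∈ E, algebraMap (𝓞 N) N (lf A x p.1.1 - lf A x p.1.2) =
          (D : N) ^ 2 * (β p.1.1 - β p.1.2) := by
        intro p _
        rw [map_sub]
        have h3 := hlf p.1.1
        have h4 := hlf p.1.2
        change ((lf A x p.1.1 : 𝓞 N) : N) - ((lf A x p.1.2 : 𝓞 N) : N) = _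
        rw [h3, h4]
        ring
      rw [Finset.prod_congr rfl h2, Finset.prod_mul_distrib, Finset.prod_const, hy]
      ring
    have h2 : IsIntegral ℤ ((D : N) ^ E.card * y) := by
      apply IsIntegral.of_pow (n := 2) two_pos
      rw [← h1]
      exact RingOfIntegers.isIntegral_coe _
    have h3 : ∃ z : 𝓞 N, algebraMap (𝓞 N) N z = (D : N) ^ E.card * y := ⟨⟨_, h2⟩, rfl⟩
    obtain ⟨z, hz⟩ := h3
    refine ⟨z, FaithfulSMul.algebraMap_injective (𝓞 N) N ?_⟩
    rw [h1, map_mul, hz, sq]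
  have hinj := beta_inj hind
  have hne' : Nonempty {S : Finset (Fin n) // Odd (degS K L S) ∧ 3 ≤ degS K L S} := by
    obtain ⟨S, hS⟩ := hne
    exact ⟨⟨S, hS⟩⟩
  have hT1 : Function.Injective
      (fun S : {S : Finset (Fin n) // Odd (degS K L S) ∧ 3 ≤ degS K L S} => TS e S.1) :=
    fun S S' h => Subtype.ext (TS_inj e h)
  have hT2 : ∀ S : {S : Finset (Fin n) // Odd (degS K L S) ∧ 3 ≤ degS K L S},
      3 ≤ (TS e S.1).card := fun S => by rw [card_TS]; exact S.2.2
  have hT3 : ∀ S : {S : Finset (Fin n) // Odd (degS K L S) ∧ 3 ≤ degS K L S},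
      Odd (TS e S.1).card := fun S => by rw [card_TS]; exact S.2.1
  have hf1 : ∀ S : {S : Finset (Fin n) // Odd (degS K L S) ∧ 3 ≤ degS K L S},
      HypP (crvP b K x S.1) := fun S => hypP_crvP b e x β hβ hinj S.2.1
  have hf2 : ∀ S : {S : Finset (Fin n) // Odd (degS K L S) ∧ 3 ≤ degS K L S},
      (crvP b K x S.1).map (algebraMap K (AlgebraicClosure K)) = fP (rT β (TS e S.1)) :=
    fun S => map_crvP b e x β hβ hinj S.1
  exact everyPrime_beta hm1 hm2 hind _ hT1 hT2 hT3 _ hf1 hf2 τ hτ ht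

open Classical in
/-- **Almost all vectors.** -/
theorem everyPrime_fields (hb : ∀ i, Submodule.span K (Set.range (b i)) = ⊤)
    (hne : ∃ S : Finset (Fin n), Odd (degS K L S) ∧ 3 ≤ degS K L S) {d : ℕ}
    (τ : AbsoluteGaloisGroup K →* Matrix (Fin d) (Fin d) ℚ_[2]) (hτ : IsLattice τ)
    (ε : ℝ) (hε : 0 < ε) : ∃ H₀ : ℕ, ∀ H, H₀ ≤ H →
    (((boxK (Σ i, Fin (r i)) H).filter fun x => ¬ EveryPrime
      (fun S : {S : Finset (Fin n) // Odd (degS K L S) ∧ 3 ≤ degS K L S} =>
        crvP b K x S.1) τ).card : ℝ) ≤ ε * (2 * H + 1) ^ Fintype.card (Σ i, Fin (r i)) := by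
  obtain ⟨N, hnf, hm1, hm2, hR, ht⟩ := exists_bigfield τ hτ
    (Set.range fun x : Emb K L × (Σ i, Fin (r i)) => vv b x.1 x.2) (Set.finite_range _)
  have hN : ∀ t (k : Σ i, Fin (r i)), vv b t k ∈ N := fun t k => hR _ ⟨(t, k), rfl⟩
  let e := Fintype.equivFin (Emb K L)
  obtain ⟨D, A, A', δ, -, hδ, hA, hAA⟩ := exists_right b hb e hN
  obtain ⟨H₀, h⟩ := density_all hδ hAA hε
  refine ⟨H₀, fun H hH => le_trans ?_ (h H hH)⟩
  have h1 : ((boxK (Σ i, Fin (r i)) H).filter fun x => ¬ EveryPrime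
      (fun S : {S : Finset (Fin n) // Odd (degS K L S) ∧ 3 ≤ degS K L S} =>
        crvP b K x S.1) τ) ⊆ (boxK (Σ i, Fin (r i)) H).filter fun x =>
      ∃ E : Finset {e : Fin (Fintype.card (Emb K L)) × Fin (Fintype.card (Emb K L)) // e.1 < e.2},
        E.Nonempty ∧ IsSquare (∏ e ∈ E, (lf A x e.1.1 - lf A x e.1.2)) := by
    intro x hx
    rw [Finset.mem_filter] at hx ⊢
    refine ⟨hx.1, ?_⟩
    by_contra hcon
    push Not at hcon
    exact hx.2 (everyPrime_vec b τ hτ hne e hN hm1 hm2 ht hA x hcon)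
  exact_mod_cast Finset.card_le_card h1

end Pool.Agent.H852.J
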