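import Mathlib
import Pool.Agent.H852.J.H6

/-!
# Almost all integral vectors have differences with private prime factors: the density
-/

set_option linter.unusedSectionVars false
set_option autoImplicit false

namespace Pool.Agent.H852.J

open Finset

variable {m : ℕ}

/-- all the differences have a private prime factor, larger than `y`, of odd multiplicity -/
def GoodVec (y : ℕ) (α : Fin m → ℤ) : Prop :=
  ∀ i j, i < j → ∃ p, OddFactor y (α i - α j) p ∧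
    ∀ k l, k < l → (k, l) ≠ (i, j) → ¬ (p : ℤ) ∣ α k - α l

theorem OddFactor.mono {y y' : ℕ} (h : y' ≤ y) {n : ℤ} {p : ℕ} (hp : OddFactor y n p) :
    OddFactor y' n p := ⟨hp.1, lt_of_le_of_lt h hp.2.1, hp.2.2⟩

theorem GoodVec.mono {y y' : ℕ} (h : y' ≤ y) {α : Fin m → ℤ} (hα : GoodVec y α) :
    GoodVec y' α := by
  intro i j hij
  obtain ⟨p, hp, hp'⟩ := hα i j hij
  exact ⟨p, hp.mono h, hp'⟩

theorem OddFactor.dvd {y : ℕ} {n : ℤ} {p : ℕ} (hp : OddFactor y n p) : (p : ℤ) ∣ n := by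
  obtain ⟨-, -, a, b, -, hn, -⟩ := hp
  exact ⟨a ^ 2 * b, by rw [hn]; ring⟩

theorem OddFactor.ne {y : ℕ} {n : ℤ} {p : ℕ} (hp : OddFactor y n p) : n ≠ 0 := by
  obtain ⟨h1, -, a, b, ha, hn, hb⟩ := hp
  rw [hn]
  refine mul_ne_zero (mul_ne_zero (pow_ne_zero _ ha) (by exact_mod_cast h1.ne_zero)) ?_
  rintro rfl
  exact hb (dvd_zero _)

/-- the pairs of pairs -/
def quads (m : ℕ) : Finset ((Fin m × Fin m) × (Fin m × Fin m)) :=
  univ.filter fun x => x.1.1 ≠ x.1.2 ∧ x.2.1 ≠ x.2.2 ∧ x.2.2 ≠ x.1.1 ∧ x.2.2 ≠ x.1.2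

open Classical in
theorem bad_subset (y H : ℕ) : ((box m H).filter fun α => ¬ GoodVec y α) ⊆
    ((univ : Finset (Fin m × Fin m)).filter fun x => x.1 ≠ x.2).biUnion (fun x =>
      (box m H).filter fun α => α x.1 - α x.2 ∈
        (Icc (-((2 * H : ℕ) : ℤ)) ((2 * H : ℕ) : ℤ)).filter fun n => ¬ ∃ p, OddFactor y n p) ∪
    (quads m ×ˢ Ioc y (2 * H)).biUnion (fun x =>
      (box m H).filter fun α => (x.2 : ℤ) ∣ α x.1.1.1 - α x.1.1.2 ∧
        (x.2 : ℤ) ∣ α x.1.2.1 - α x.1.2.2) := by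
  intro α hα
  rw [mem_filter] at hα
  obtain ⟨hbox, hbad⟩ := hα
  have hb := mem_box.1 hbox
  unfold GoodVec at hbad
  push Not at hbad
  obtain ⟨i, j, hij, h1⟩ := hbad
  rw [mem_union]
  by_cases h2 : ∃ p, OddFactor y (α i - α j) p
  · right
    obtain ⟨p, hp⟩ := h2
    obtain ⟨k, l, hkl, hne, hdvd⟩ := h1 p hp
    have hpH : p ≤ 2 * H := by
      have h3 := Int.le_of_dvd (abs_pos.2 hp.ne) ((dvd_abs _ _).2 hp.dvd)
      have h4 : |α i - α j| ≤ 2 * H := by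
        rw [abs_le]
        have h5 := hb i
        have h6 := hb j
        omega
      omega
    have hpy := hp.2.1
    rw [mem_biUnion]
    by_cases hl : l ≠ i ∧ l ≠ j
    · refine ⟨(((i, j), (k, l)), p), ?_, ?_⟩
      · rw [mem_product, quads, mem_filter, mem_Ioc]
        exact ⟨⟨mem_univ _, hij.ne, hkl.ne, hl.1, hl.2⟩, hpy, hpH⟩
      · rw [mem_filter]
        exact ⟨hbox, hp.dvd, hdvd⟩
    · have hk : k ≠ i ∧ k ≠ j := by
        by_contra hk
        apply hne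
        have h3 : l = i ∨ l = j := by
          by_contra h4
          push Not at h4
          exact hl h4
        have h4 : k = i ∨ k = j := by
          by_contra h4
          push Not at h4
          exact hk h4
        rcases h3 with rfl | rfl <;> rcases h4 with rfl | rfl
        · exact absurd hkl (lt_irrefl _)
        · exact absurd (hij.trans hkl) (lt_irrefl _)
        · rfl
        · exact absurd hkl (lt_irrefl _)
      refine ⟨(((i, j), (l, k)), p), ?_, ?_⟩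
      · rw [mem_product, quads, mem_filter, mem_Ioc]
        exact ⟨⟨mem_univ _, hij.ne, hkl.ne', hk.1, hk.2⟩, hpy, hpH⟩
      · rw [mem_filter]
        refine ⟨hbox, hp.dvd, ?_⟩
        have h3 : α l - α k = -(α k - α l) := by ring
        change (p : ℤ) ∣ α l - α k
        rw [h3]
        exact (dvd_neg).2 hdvd
  · left
    rw [mem_biUnion]
    refine ⟨(i, j), ?_, ?_⟩
    · rw [mem_filter]
      exact ⟨mem_univ _, hij.ne⟩
    · rw [mem_filter, mem_filter, mem_Icc]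
      refine ⟨hbox, ⟨?_, ?_⟩, h2⟩
      · have h5 := hb i
        have h6 := hb j
        push_cast
        change -(2 * (H : ℤ)) ≤ α i - α j
        omega
      · have h5 := hb i
        have h6 := hb j
        push_cast
        change α i - α j ≤ 2 * (H : ℤ)
        omega

open Classical in
theorem bad_card (y H : ℕ) : ((box m H).filter fun α => ¬ GoodVec y α).card ≤
    m ^ 2 * ((1 + 2 * ((primorial y).divisors.card * ((2 * H).sqrt + 1))) *
      (2 * H + 1) ^ (m - 1)) +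
    m ^ 4 * ∑ p ∈ Ioc y (2 * H), (2 * H / p + 1) ^ 2 * (2 * H + 1) ^ (m - 2) := by
  refine (card_le_card (bad_subset y H)).trans ((card_union_le _ _).trans (Nat.add_le_add ?_ ?_))
  · refine (card_biUnion_le).trans ?_
    have h1 : ∀ x ∈ (univ : Finset (Fin m × Fin m)).filter (fun x => x.1 ≠ x.2),
        ((box m H).filter fun α => α x.1 - α x.2 ∈
          (Icc (-((2 * H : ℕ) : ℤ)) ((2 * H : ℕ) : ℤ)).filter fun n =>
            ¬ ∃ p, OddFactor y n p).card ≤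
        (1 + 2 * ((primorial y).divisors.card * ((2 * H).sqrt + 1))) * (2 * H + 1) ^ (m - 1) := by
      intro x hx
      rw [mem_filter] at hx
      exact (count_one H x.1 x.2 hx.2 _).trans (Nat.mul_le_mul_right _ (count_smooth y (2 * H)))
    refine (sum_le_sum h1).trans ?_
    rw [sum_const, smul_eq_mul]
    refine Nat.mul_le_mul_right _ ((card_le_univ _).trans ?_)
    rw [Fintype.card_prod, Fintype.card_fin, sq]
  · refine (card_biUnion_le).trans ?_
    have h1 : ∀ x ∈ quads m ×ˢ Ioc y (2 * H),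
        ((box m H).filter fun α => (x.2 : ℤ) ∣ α x.1.1.1 - α x.1.1.2 ∧
          (x.2 : ℤ) ∣ α x.1.2.1 - α x.1.2.2).card ≤
        (2 * H / x.2 + 1) ^ 2 * (2 * H + 1) ^ (m - 2) := by
      intro x hx
      rw [mem_product, quads, mem_filter, mem_Ioc] at hx
      exact count_two H hx.1.2.1 hx.1.2.2.1 hx.1.2.2.2.1 hx.1.2.2.2.2 (by omega)
    refine (sum_le_sum h1).trans ?_
    rw [sum_product]
    change ∑ x ∈ quads m, ∑ p ∈ Ioc y (2 * H), (2 * H / p + 1) ^ 2 * (2 * H + 1) ^ (m - 2) ≤ _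
    rw [sum_const, smul_eq_mul]
    refine Nat.mul_le_mul_right _ ((card_le_univ _).trans ?_)
    rw [Fintype.card_prod, Fintype.card_prod, Fintype.card_fin]
    apply le_of_eq
    ring

theorem sum_bound {y H : ℕ} (hy : 0 < y) (hyH : y ≤ 2 * H) :
    ((∑ p ∈ Ioc y (2 * H), (2 * H / p + 1) ^ 2 : ℕ) : ℝ) ≤ 4 * (2 * H + 1) ^ 2 / y := by
  have h1 : ∀ p ∈ Ioc y (2 * H), (((2 * H / p + 1) ^ 2 : ℕ) : ℝ) ≤
      4 * (2 * H + 1) ^ 2 * ((p : ℝ) ^ 2)⁻¹ := by
    intro p hp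
    rw [mem_Ioc] at hp
    have hp0 : (0 : ℝ) < p := by
      have : 0 < p := by omega
      exact_mod_cast this
    have h2 : ((2 * H / p : ℕ) : ℝ) ≤ (2 * H : ℝ) / p := by
      have := @Nat.cast_div_le ℝ _ _ _ (2 * H) p
      push_cast at this
      exact this
    have h3 : (1 : ℝ) ≤ (2 * H + 1) / p := by
      rw [le_div_iff₀ hp0, one_mul]
      have : (p : ℝ) ≤ ((2 * H : ℕ) : ℝ) := by exact_mod_cast hp.2
      push_cast at this
      linarith
    have h4 : (2 * H : ℝ) / p ≤ (2 * H + 1) / p := by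
      apply div_le_div_of_nonneg_right _ hp0.le
      linarith
    have h5 : ((2 * H / p : ℕ) : ℝ) + 1 ≤ 2 * ((2 * H + 1) / p) := by linarith
    push_cast
    calc (((2 * H / p : ℕ) : ℝ) + 1) ^ 2 ≤ (2 * ((2 * H + 1) / p)) ^ 2 := by
          apply pow_le_pow_left₀ (by positivity) h5
      _ = 4 * (2 * H + 1) ^ 2 * ((p : ℝ) ^ 2)⁻¹ := by
          field_simp
          ring
  push_cast at h1 ⊢
  refine (sum_le_sum h1).trans ?_
  rw [← mul_sum]
  have h2 := sum_Ioc_inv_sq_le_sub (α := ℝ) hy.ne' hyH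
  have h3 : (0 : ℝ) ≤ ((2 * H : ℕ) : ℝ)⁻¹ := by positivity
  rw [div_eq_mul_inv]
  apply mul_le_mul_of_nonneg_left _ (by positivity)
  linarith

open Classical in
/-- **Density one.** -/
theorem density (hm : 2 ≤ m) (y₀ : ℕ) (ε : ℝ) (hε : 0 < ε) : ∃ H₀ : ℕ, ∀ H, H₀ ≤ H →
    (((box m H).filter fun α => ¬ GoodVec y₀ α).card : ℝ) ≤ ε * (2 * H + 1) ^ m := by
  obtain ⟨y₁, hy₁⟩ := exists_nat_ge (8 * (m : ℝ) ^ 4 / ε)
  set y := y₀ + y₁ + 1 with hy
  have hy0 : 0 < y := by omega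
  have hyR : 8 * (m : ℝ) ^ 4 / ε ≤ y := by
    rw [hy]
    push_cast
    have : (0 : ℝ) ≤ y₀ := Nat.cast_nonneg _
    linarith
  set D := (primorial y).divisors.card with hD
  obtain ⟨s₀, hs₀⟩ := exists_nat_ge (2 * (m : ℝ) ^ 2 * (1 + 4 * D) / ε)
  refine ⟨y + (s₀ + 1) ^ 2, fun H hH => ?_⟩
  have hyH : y ≤ 2 * H := by
    have : 0 ≤ (s₀ + 1) ^ 2 := Nat.zero_le _
    omega
  set s := (2 * H).sqrt with hs
  have hs1 : s₀ + 1 ≤ s := by
    rw [hs, Nat.le_sqrt]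
    have h1 : (s₀ + 1) * (s₀ + 1) = (s₀ + 1) ^ 2 := by ring
    omega
  have hs2 : (s : ℝ) ^ 2 ≤ 2 * H + 1 := by
    have h1 : s * s ≤ 2 * H := Nat.sqrt_le _
    have h2 : ((s * s : ℕ) : ℝ) ≤ ((2 * H : ℕ) : ℝ) := by exact_mod_cast h1
    push_cast at h2
    nlinarith
  have hsR : 2 * (m : ℝ) ^ 2 * (1 + 4 * D) / ε ≤ s := by
    have h1 : ((s₀ + 1 : ℕ) : ℝ) ≤ s := by exact_mod_cast hs1
    push_cast at h1
    linarith
  have hs1R : (1 : ℝ) ≤ s := by
    have : 1 ≤ s := by omega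
    exact_mod_cast this
  -- the first part
  have hfirst : (m : ℝ) ^ 2 * (1 + 2 * (D * (s + 1))) ≤ ε / 2 * (2 * H + 1) := by
    have h1 : (1 : ℝ) + 2 * (D * (s + 1)) ≤ (1 + 4 * D) * s := by
      have hD0 : (0 : ℝ) ≤ D := Nat.cast_nonneg _
      nlinarith
    have h2 : (m : ℝ) ^ 2 * ((1 + 4 * D) * s) ≤ ε / 2 * (s : ℝ) ^ 2 := by
      rw [div_le_iff₀ hε] at hsR
      nlinarith
    have h3 : (m : ℝ) ^ 2 * (1 + 2 * (D * (s + 1))) ≤ (m : ℝ) ^ 2 * ((1 + 4 * D) * s) :=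
      mul_le_mul_of_nonneg_left h1 (by positivity)
    have h4 : ε / 2 * (s : ℝ) ^ 2 ≤ ε / 2 * (2 * H + 1) :=
      mul_le_mul_of_nonneg_left hs2 (by positivity)
    linarith
  have hsecond : (m : ℝ) ^ 4 * (4 * (2 * H + 1) ^ 2 / y) ≤ ε / 2 * (2 * H + 1) ^ 2 := by
    have hyp : (0 : ℝ) < y := by exact_mod_cast hy0
    rw [div_le_iff₀ hε] at hyR
    rw [mul_div_assoc', div_le_iff₀ hyp]
    have : (0 : ℝ) ≤ (2 * (H : ℝ) + 1) ^ 2 := by positivity
    nlinarith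
  have hbad := bad_card (m := m) y H
  rw [← hD, ← hs, ← sum_mul] at hbad
  have hmono : ((box m H).filter fun α => ¬ GoodVec y₀ α).card ≤
      ((box m H).filter fun α => ¬ GoodVec y α).card := by
    refine card_le_card fun α hα => ?_
    rw [mem_filter] at hα ⊢
    exact ⟨hα.1, fun h => hα.2 (h.mono (by omega))⟩
  have hbadR : (((box m H).filter fun α => ¬ GoodVec y₀ α).card : ℝ) ≤
      (m : ℝ) ^ 2 * ((1 + 2 * (D * (s + 1))) * (2 * H + 1) ^ (m - 1)) +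
      (m : ℝ) ^ 4 * (((∑ p ∈ Ioc y (2 * H), (2 * H / p + 1) ^ 2 : ℕ) : ℝ) *
        (2 * H + 1) ^ (m - 2)) := by
    have h1 := hmono.trans hbad
    exact_mod_cast h1
  have hsum := sum_bound hy0 hyH
  have hW : (0 : ℝ) ≤ 2 * (H : ℝ) + 1 := by positivity
  have e1 : (2 * (H : ℝ) + 1) ^ m = (2 * H + 1) * (2 * H + 1) ^ (m - 1) := by
    rw [← pow_succ']
    congr 1
    omega
  have e2 : (2 * (H : ℝ) + 1) ^ m = (2 * H + 1) ^ 2 * (2 * H + 1) ^ (m - 2) := by
    rw [← pow_add]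
    congr 1
    omega
  have h1 : (m : ℝ) ^ 2 * ((1 + 2 * (D * (s + 1))) * (2 * H + 1) ^ (m - 1)) ≤
      ε / 2 * (2 * H + 1) ^ m := by
    rw [e1]
    calc (m : ℝ) ^ 2 * ((1 + 2 * (D * (s + 1))) * (2 * H + 1) ^ (m - 1)) =
          (m : ℝ) ^ 2 * (1 + 2 * (D * (s + 1))) * (2 * H + 1) ^ (m - 1) := by ring
      _ ≤ ε / 2 * (2 * H + 1) * (2 * H + 1) ^ (m - 1) :=
          mul_le_mul_of_nonneg_right hfirst (by positivity)
      _ = _ := by ring
  have h2 : (m : ℝ) ^ 4 * (((∑ p ∈ Ioc y (2 * H), (2 * H / p + 1) ^ 2 : ℕ) : ℝ) *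
        (2 * H + 1) ^ (m - 2)) ≤ ε / 2 * (2 * H + 1) ^ m := by
    rw [e2]
    calc (m : ℝ) ^ 4 * (((∑ p ∈ Ioc y (2 * H), (2 * H / p + 1) ^ 2 : ℕ) : ℝ) *
          (2 * H + 1) ^ (m - 2)) = (m : ℝ) ^ 4 *
          ((∑ p ∈ Ioc y (2 * H), (2 * H / p + 1) ^ 2 : ℕ) : ℝ) * (2 * H + 1) ^ (m - 2) := by ring
      _ ≤ ε / 2 * (2 * H + 1) ^ 2 * (2 * H + 1) ^ (m - 2) :=
          mul_le_mul_of_nonneg_right
            ((mul_le_mul_of_nonneg_left hsum (by positivity)).trans hsecond) (by positivity)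
      _ = _ := by ring
  linarith

end Pool.Agent.H852.J
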