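import Mathlib
import Pool.Agent.H852.J.H5
import Pool.Agent.H852.J.H7
import Pool.Agent.H852.J.A4

/-!
# The Tate conjecture for almost all curves `y_i ^ 2 = c_i (x - α_i)` over the rational numbers
-/

set_option linter.unusedSectionVars false
set_option autoImplicit false

namespace Pool.Agent.H852.J

open Matrix Polynomial Filter Topology Module NumberField IsDedekindDomain WithZero
open HeightOneSpectrum
open Pool.Agent.Results.MP_640417_ag.HyperellipticEveryPrime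

section places

variable {K : Type} [Field K] [NumberField K] {m : ℕ}

/-- the criterion with places -/
theorem ind_of_places {N : IntermediateField K (AlgebraicClosure K)} {n : ℕ}
    (hN : ∀ (v : HeightOneSpectrum (𝓞 K)) (x : K), (n : 𝓞 K) ∉ v.asIdeal →
        Odd (log (v.valuation K x)) → ¬ IsSquare (algebraMap K N x)) {α : Fin m → K}
    (h : ∀ i j, i < j → ∃ v : HeightOneSpectrum (𝓞 K), (n : 𝓞 K) ∉ v.asIdeal ∧
      Odd (log (v.valuation K (α i - α j))) ∧
      ∀ k l, k < l → (k, l) ≠ (i, j) → v.valuation K (α k - α l) ≠ 0 ∧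
        Even (log (v.valuation K (α k - α l))))
    (E : Finset {p : Fin m × Fin m // p.1 < p.2}) (hE : E.Nonempty) :
    ¬ IsSquare (algebraMap K N (∏ p ∈ E, (α p.1.1 - α p.1.2))) := by
  classical
  obtain ⟨p₀, hp₀⟩ := hE
  obtain ⟨v, hv, hodd, heven⟩ := h p₀.1.1 p₀.1.2 p₀.2
  refine hN v _ hv ?_
  have hne : v.valuation K (α p₀.1.1 - α p₀.1.2) ≠ 0 := by
    intro h0
    rw [h0, log_zero] at hodd
    exact absurd hodd (by decide)
  have key : ∀ E' : Finset {p : Fin m × Fin m // p.1 < p.2}, p₀ ∉ E' →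
      v.valuation K (∏ p ∈ E', (α p.1.1 - α p.1.2)) ≠ 0 ∧
        Even (log (v.valuation K (∏ p ∈ E', (α p.1.1 - α p.1.2)))) := by
    intro E'
    induction E' using Finset.induction_on with
    | empty =>
      intro _
      rw [Finset.prod_empty, map_one, log_one]
      exact ⟨one_ne_zero, Even.zero⟩
    | insert q E' hq ih =>
      intro hp
      obtain ⟨h1, h2⟩ := ih fun h' => hp (Finset.mem_insert_of_mem h')
      have h3 : (q.1.1, q.1.2) ≠ (p₀.1.1, p₀.1.2) := by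
        intro h4
        apply hp
        have h5 : p₀ = q := Subtype.ext h4.symm
        rw [h5]
        exact Finset.mem_insert_self _ _
      obtain ⟨h4, h5⟩ := heven q.1.1 q.1.2 q.2 h3
      rw [Finset.prod_insert hq, map_mul]
      refine ⟨mul_ne_zero h4 h1, ?_⟩
      rw [log_mul h4 h1]
      exact h5.add h2
  obtain ⟨h1, h2⟩ := key (E.erase p₀) (Finset.notMem_erase _ _)
  rw [← Finset.mul_prod_erase E _ hp₀, map_mul, log_mul hne h1]
  exact hodd.add_even h2

end places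

section rat

variable {m : ℕ}

theorem rat_places {n : ℕ} (hn : 0 < n) {α : Fin m → ℤ} (h : GoodVec n α) (i j : Fin m)
    (hij : i < j) : ∃ v : HeightOneSpectrum (𝓞 ℚ), (n : 𝓞 ℚ) ∉ v.asIdeal ∧
      Odd (log (v.valuation ℚ ((α i : ℚ) - α j))) ∧
      ∀ k l, k < l → (k, l) ≠ (i, j) → v.valuation ℚ ((α k : ℚ) - α l) ≠ 0 ∧
        Even (log (v.valuation ℚ ((α k : ℚ) - α l))) := by
  obtain ⟨p, hp, hp'⟩ := h i j hij
  obtain ⟨hpp, hpn, a, b, ha, hab, hpb⟩ := hp
  obtain ⟨v, hv1, hv2, hv3⟩ := exists_rat_place p hpp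
  have h1 : ¬ (p : ℤ) ∣ (n : ℤ) := by
    intro h1
    have h2 : p ∣ n := by exact_mod_cast h1
    have h3 := Nat.le_of_dvd hn h2
    omega
  refine ⟨v, ?_, ?_, fun k l hkl hne => ?_⟩
  · have h2 := hv3 n h1
    rwa [Int.cast_natCast] at h2
  · have ha0 : (a : ℚ) ≠ 0 := by exact_mod_cast ha
    have h5 : v.valuation ℚ (a : ℚ) ≠ 0 := (Valuation.ne_zero_iff _).2 ha0
    have h6 : (α i : ℚ) - α j = (a : ℚ) ^ 2 * (p : ℚ) * (b : ℚ) := by
      have h7 : ((α i - α j : ℤ) : ℚ) = ((a ^ 2 * p * b : ℤ) : ℚ) := by rw [hab]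
      push_cast at h7
      exact h7
    rw [h6, map_mul, map_mul, map_pow, hv1, hv2 b hpb, mul_one,
      log_mul (pow_ne_zero _ h5) (by simp), log_pow, log_exp]
    exact ⟨log (v.valuation ℚ (a : ℚ)) - 1, by simp; ring⟩
  · have h2 := hv2 (α k - α l) (hp' k l hkl hne)
    have h3 : (α k : ℚ) - α l = ((α k - α l : ℤ) : ℚ) := by push_cast; rfl
    rw [h3, h2, log_one]
    exact ⟨one_ne_zero, Even.zero⟩

theorem good_inj {n : ℕ} {α : Fin m → ℤ} (h : GoodVec n α) :
    Function.Injective fun i => (α i : ℚ) := by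
  intro i j hij
  by_contra hne
  have hij' : α i = α j := by
    have h1 : (α i : ℚ) = (α j : ℚ) := hij
    exact_mod_cast h1
  rcases lt_or_gt_of_ne hne with h1 | h1
  · obtain ⟨p, hp, -⟩ := h i j h1
    exact hp.ne (by rw [hij', sub_self])
  · obtain ⟨p, hp, -⟩ := h j i h1
    exact hp.ne (by rw [hij', sub_self])

/-- **The criterion at all primes which are not in a finite set.** -/
theorem everyPrime_good (hm : 3 ≤ m) {b : Finset (Fin m) → Fin m}
    (hb : ∀ T, T.Nonempty → b T ∈ T) {c : Fin m → ℚ} (hc : ∀ k, c k ≠ 0) {d : ℕ}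
    (τ : AbsoluteGaloisGroup ℚ →* Matrix (Fin d) (Fin d) ℚ_[2]) (hτ : IsLattice τ) :
    ∃ n : ℕ, ∀ α : Fin m → ℤ, GoodVec n α →
      EveryPrime (fun T : {T : Finset (Fin m) // 3 ≤ T.card} =>
        mdl (fun i => (α i : ℚ)) c b T.1) τ := by
  obtain ⟨N, n, hn, hm1, hm2, hcN, ht, hN⟩ := exists_field c τ hτ
  refine ⟨n, fun α hα => ?_⟩
  exact everyPrime_hum hm hb (good_inj hα) hc N hm1 hm2 hcN
    (ind_of_places hN fun i j hij => rat_places hn hα i j hij) τ hτ ht

open Classical in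
theorem everyPrime_density (hm : 3 ≤ m) {b : Finset (Fin m) → Fin m}
    (hb : ∀ T, T.Nonempty → b T ∈ T) {c : Fin m → ℚ} (hc : ∀ k, c k ≠ 0) {d : ℕ}
    (τ : AbsoluteGaloisGroup ℚ →* Matrix (Fin d) (Fin d) ℚ_[2]) (hτ : IsLattice τ)
    (ε : ℝ) (hε : 0 < ε) : ∃ H₀ : ℕ, ∀ H, H₀ ≤ H →
      (((box m H).filter fun α => ¬ EveryPrime (fun T : {T : Finset (Fin m) // 3 ≤ T.card} =>
        mdl (fun i => (α i : ℚ)) c b T.1) τ).card : ℝ) ≤ ε * (2 * H + 1) ^ m := by
  obtain ⟨n, hn⟩ := everyPrime_good hm hb hc τ hτ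
  obtain ⟨H₀, hH⟩ := density (m := m) (by omega) n ε hε
  refine ⟨H₀, fun H h => (Nat.cast_le.2 (Finset.card_le_card fun α hα => ?_)).trans (hH H h)⟩
  rw [Finset.mem_filter] at hα ⊢
  exact ⟨hα.1, fun h' => hα.2 (hn α h')⟩

end rat

/-! ### the models -/

section model

variable {K : Type} [Field K] {m : ℕ} {α c : Fin m → K} {b : Finset (Fin m) → Fin m}

theorem mdl_odd {T : Finset (Fin m)} (h : Odd T.card) (x : K) :
    (mdl α c b T).eval ((∏ k ∈ T, c k) * x) =
      ((∏ k ∈ T, c k) ^ ((T.card - 1) / 2)) ^ 2 * ∏ i ∈ T, c i * (x - α i) := by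
  have h1 : pts b T = T := if_pos h
  rw [mdl, h1, eval_prod]
  have h2 : ∀ i ∈ T, eval ((∏ k ∈ T, c k) * x) (X - C (rt α c b T i)) =
      (∏ k ∈ T, c k) * (x - α i) := by
    intro i _
    rw [eval_sub, eval_X, eval_C, rt, if_pos h]
    ring
  rw [Finset.prod_congr rfl h2, Finset.prod_mul_distrib, Finset.prod_mul_distrib,
    Finset.prod_const, ← mul_assoc]
  congr 1
  obtain ⟨n, hn⟩ := h
  rw [hn, Nat.add_sub_cancel, Nat.mul_div_cancel_left _ (by norm_num : 0 < 2), ← pow_mul, pow_succ,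
    mul_comm n 2]

theorem alg_aux {u D : K} (hu : u ≠ 0) (hD : D ≠ 0) (c P : K) (e : ℕ) :
    (c * D / u) ^ (2 * e + 1) * (P / D) = ((c * D) ^ e / u ^ (e + 1)) ^ 2 * (c * (u * P)) := by
  rw [div_pow, div_pow, pow_succ (c * D), pow_mul, ← pow_mul u, div_mul_div_comm, div_mul_eq_mul_div,
    div_eq_div_iff (mul_ne_zero (pow_ne_zero _ hu) hD) (pow_ne_zero _ hu)]
  ring

theorem mdl_even {T : Finset (Fin m)} (h : ¬ Odd T.card) (hT : b T ∈ T)
    (hα : Function.Injective α) {x : K} (hx : x ≠ α (b T)) :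
    (mdl α c b T).eval ((∏ k ∈ T, c k) * (∏ k ∈ T.erase (b T), (α (b T) - α k)) /
      (x - α (b T))) =
      (((∏ k ∈ T, c k) * ∏ k ∈ T.erase (b T), (α (b T) - α k)) ^ (T.card / 2 - 1) /
        (x - α (b T)) ^ (T.card / 2)) ^ 2 * ∏ i ∈ T, c i * (x - α i) := by
  have h1 : pts b T = T.erase (b T) := if_neg h
  set β := b T with hβ
  set cT := ∏ k ∈ T, c k with hcT
  set D := ∏ k ∈ T.erase β, (α β - α k) with hD
  have hx' : x - α β ≠ 0 := sub_ne_zero.2 hx
  have hne : ∀ k ∈ T.erase β, α β - α k ≠ 0 := fun k hk =>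
    sub_ne_zero.2 fun h' => (Finset.ne_of_mem_erase hk) (hα h').symm
  have hD0 : D ≠ 0 := Finset.prod_ne_zero_iff.2 hne
  rw [mdl, h1, eval_prod]
  have h2 : ∀ i ∈ T.erase β, eval (cT * D / (x - α β)) (X - C (rt α c b T i)) =
      (cT * D / (x - α β)) * ((x - α i) / (α β - α i)) := by
    intro i hi
    have h3 : D = (α β - α i) * ∏ k ∈ (T.erase β).erase i, (α β - α k) :=
      (Finset.mul_prod_erase _ _ hi).symm
    have h4 := hne i hi
    rw [eval_sub, eval_X, eval_C, rt, if_neg h, ← hβ, ← hcT]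
    rw [h3]
    field_simp
    ring
  rw [Finset.prod_congr rfl h2, Finset.prod_mul_distrib, Finset.prod_const,
    Finset.prod_div_distrib, ← hD, Finset.card_erase_of_mem hT, Finset.prod_mul_distrib, ← hcT,
    ← Finset.mul_prod_erase T (fun i => x - α i) hT]
  rw [Nat.not_odd_iff_even] at h
  obtain ⟨n, hn⟩ := h
  have hn0 : 0 < n := by
    have := Finset.card_pos.2 ⟨_, hT⟩
    omega
  obtain ⟨e, rfl⟩ : ∃ e, n = e + 1 := ⟨n - 1, by omega⟩
  have h5 : T.card - 1 = 2 * e + 1 := by omega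
  have h6 : T.card / 2 = e + 1 := by omega
  rw [h5, h6, Nat.add_sub_cancel]
  exact alg_aux hx' hD0 cT _ e

end model

end Pool.Agent.H852.J
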