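import Mathlib
import Pool.Agent.H852.J.K1
import Pool.Agent.H852.J.P5

/-!
# The criterion with places, with auxiliary numbers
-/

set_option linter.unusedSectionVars false
set_option autoImplicit false

namespace Pool.Agent.H852.J

open Matrix Polynomial Filter Topology Module NumberField IsDedekindDomain WithZero
open Pool.Agent.Y142.ZO (GK)
open Pool.Agent.N171 Pool.Agent.N171.Al Pool.Agent.N171.Pm Pool.Agent.N171.Bg Pool.Agent.N171.TG
open Pool.Agent.Results.MP_640417_ag.HyperellipticEveryPrime
open HeightOneSpectrum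

variable {K : Type} [Field K] [NumberField K]

/-- The elements of `B` are integral and different modulo all places above `v` in all normal extensions. -/
structure UnitSet (B : Set (AlgebraicClosure K)) (v : HeightOneSpectrum (𝓞 K)) : Prop where
  int : ∀ (M : IntermediateField K (AlgebraicClosure K)) [NumberField M] [Normal K M]
    (P : HeightOneSpectrum (𝓞 M)) [P.asIdeal.LiesOver v.asIdeal], ∀ x ∈ B, ∀ u : M,
    (u : AlgebraicClosure K) = x → P.valuation M u ≤ 1
  diff : ∀ (M : IntermediateField K (AlgebraicClosure K)) [NumberField M] [Normal K M]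
    (P : HeightOneSpectrum (𝓞 M)) [P.asIdeal.LiesOver v.asIdeal], ∀ x ∈ B, ∀ y ∈ B, ∀ u u' : M,
    (u : AlgebraicClosure K) = x → (u' : AlgebraicClosure K) = y → u ≠ u' → P.valuation M (u - u') = 1

/-- The roots of `f` are integral and different modulo all places above `v` in all normal extensions which
contain `B`. -/
structure GoodAux (B : Set (AlgebraicClosure K)) (f : K[X]) (v : HeightOneSpectrum (𝓞 K)) :
    Prop where
  int : ∀ (M : IntermediateField K (AlgebraicClosure K)) [NumberField M] [Normal K M],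
    (∀ x ∈ B, x ∈ M) → ∀ (P : HeightOneSpectrum (𝓞 M)) [P.asIdeal.LiesOver v.asIdeal] (u : M),
    aeval u f = 0 → P.valuation M u ≤ 1
  diff : ∀ (M : IntermediateField K (AlgebraicClosure K)) [NumberField M] [Normal K M],
    (∀ x ∈ B, x ∈ M) → ∀ (P : HeightOneSpectrum (𝓞 M)) [P.asIdeal.LiesOver v.asIdeal] (u u' : M),
    aeval u f = 0 → aeval u' f = 0 → u ≠ u' → P.valuation M (u - u') = 1

/-- At all places above `v` in a normal extension which contains the roots and `B`, there is exactly one pair
`a`, `b` of roots with the same residue, with the property `Q`, and the valuation of `a - b` is odd. -/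
structure NodeAux (B : Set (AlgebraicClosure K)) (f : K[X]) (v : HeightOneSpectrum (𝓞 K))
    (Q : AlgebraicClosure K → AlgebraicClosure K → Prop) : Prop where
  int : ∀ (M : IntermediateField K (AlgebraicClosure K)) [NumberField M] [Normal K M],
    (∀ x ∈ B, x ∈ M) → ∀ (P : HeightOneSpectrum (𝓞 M)) [P.asIdeal.LiesOver v.asIdeal] (u : M),
    aeval u f = 0 → P.valuation M u ≤ 1
  node : ∀ (M : IntermediateField K (AlgebraicClosure K)) [NumberField M] [Normal K M],
    (∀ x ∈ B, x ∈ M) → ∀ (P : HeightOneSpectrum (𝓞 M)) [P.asIdeal.LiesOver v.asIdeal],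
    (∀ x : AlgebraicClosure K, aeval x f = 0 → x ∈ M) →
    ∃ a b : M, aeval a f = 0 ∧ aeval b f = 0 ∧ a ≠ b ∧
      Q (a : AlgebraicClosure K) (b : AlgebraicClosure K) ∧
      (∀ (u u' : M), aeval u f = 0 → aeval u' f = 0 → u ≠ u' →
        ¬ ((u = a ∨ u = b) ∧ (u' = a ∨ u' = b)) → P.valuation M (u - u') = 1) ∧
      ((∀ s : M ≃ₐ[K] M, Inert P s → s ≠ 1 → s a = b ∧ s b = a) →
        (∀ s s' : M ≃ₐ[K] M, Inert P s → Inert P s' → s ≠ 1 → s' ≠ 1 → s = s') →
        Odd (log (P.valuation M (a - b))))

/-- the element given by a place -/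
theorem exists_pair_aux {B : Set (AlgebraicClosure K)} (hBfin : B.Finite)
    (hBst : ∀ (σ : AlgebraicClosure K ≃ₐ[K] AlgebraicClosure K), ∀ x ∈ B, σ x ∈ B) {ι : Type} [Fintype ι] [DecidableEq ι] (f : ι → K[X]) (hf : ∀ i, HypP (f i))
    [∀ i, DecidableEq ((f i).rootSet (AlgebraicClosure K))]
    [hyp : ∀ i, Hyp (rootsOf f i)] (r : ι → ℕ) (hr : Function.Injective r) (i : ι)
    {Q : AlgebraicClosure K → AlgebraicClosure K → Prop} {v : HeightOneSpectrum (𝓞 K)}
    (h2 : (2 : 𝓞 K) ∉ v.asIdeal) (hB : UnitSet B v) (hnode : NodeAux B (f i) v Q)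
    (hgood : ∀ j, r j < r i → GoodAux B (f j) v) {d : ℕ}
    (τ : AbsoluteGaloisGroup K →* Matrix (Fin d) (Fin d) ℚ_[2])
    (hun : Unramified τ v) (t : GK K →* Matrix (Fin d) (Fin d) ℤ_[2]) (ht : IsLatOf t τ) :
    ∃ a b : (f i).rootSet (AlgebraicClosure K), a ≠ b ∧
      Q (a : AlgebraicClosure K) (b : AlgebraicClosure K) ∧
      ∃ σ, PairElt (rootsOf f) t r i a b σ := by
  classical
  have hroot : ∀ i (x : (f i).rootSet (AlgebraicClosure K)),
      aeval (x : AlgebraicClosure K) (f i) = 0 := fun i x => (mem_rootSet.1 x.2).2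
  have hroot' : ∀ i (z : AlgebraicClosure K), aeval z (f i) = 0 →
      z ∈ (f i).rootSet (AlgebraicClosure K) := fun i z hz =>
    mem_rootSet.2 ⟨(HypP.monic (f := f i)).ne_zero, hz⟩
  refine pairElt_of_place_aux (rootsOf f) t B hBfin hBst r hr i
    (fun a b => Q (a : AlgebraicClosure K) b)
    (fun j _ s x => ?_) v h2 (unramified_lat hun ht) (fun M _ _ P _ => hB.int M P)
    (fun M _ _ P _ => hB.diff M P)
    (fun M _ _ hBM P _ j hj x u hu => ?_) (fun M _ _ hBM P _ j hj x y u u' hu hu' hxy => ?_)
    (fun M _ _ hBM P _ hM => ?_)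
  · refine ⟨⟨s (x : AlgebraicClosure K), hroot' j _ ?_⟩, rfl⟩
    have h4 := Polynomial.aeval_algHom_apply (s : AlgebraicClosure K →ₐ[K] AlgebraicClosure K)
      (x : AlgebraicClosure K) (f j)
    rw [hroot j x, map_zero] at h4
    exact h4
  · have h4 : aeval u (f j) = 0 := by
      rw [aeval_coe, hu]
      exact hroot j x
    rcases hj.lt_or_eq with h5 | h5
    · exact (hgood j h5).int M hBM P u h4
    · obtain rfl := hr h5
      exact hnode.int M hBM P u h4
  · refine (hgood j hj).diff M hBM P u u' (by rw [aeval_coe, hu]; exact hroot j x)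
      (by rw [aeval_coe, hu']; exact hroot j y) ?_
    rintro rfl
    exact hxy (Subtype.ext (hu.symm.trans hu'))
  · obtain ⟨a, b, ha, hb, hab, hQ, h4, h5⟩ := hnode.node M hBM P
      fun x hx => hM ⟨x, hroot' i x hx⟩
    refine ⟨⟨(a : AlgebraicClosure K), hroot' i _ ((aeval_coe a _).1 ha)⟩,
      ⟨(b : AlgebraicClosure K), hroot' i _ ((aeval_coe b _).1 hb)⟩, fun h => ?_, hQ, ?_, ?_⟩
    · have h6 := congrArg Subtype.val h
      exact hab (Subtype.ext h6)
    · intro x y u u' hu hu' hxy hn
      refine h4 u u' (by rw [aeval_coe, hu]; exact hroot i x)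
        (by rw [aeval_coe, hu']; exact hroot i y) ?_ ?_
      · rintro rfl
        exact hxy (Subtype.ext (hu.symm.trans hu'))
      · rintro ⟨h6, h7⟩
        refine hn ⟨?_, ?_⟩
        · rw [Finset.mem_insert, Finset.mem_singleton]
          rcases h6 with h6 | h6
          · exact Or.inl (Subtype.ext (hu.symm.trans (congrArg Subtype.val h6)))
          · exact Or.inr (Subtype.ext (hu.symm.trans (congrArg Subtype.val h6)))
        · rw [Finset.mem_insert, Finset.mem_singleton]
          rcases h7 with h7 | h7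
          · exact Or.inl (Subtype.ext (hu'.symm.trans (congrArg Subtype.val h7)))
          · exact Or.inr (Subtype.ext (hu'.symm.trans (congrArg Subtype.val h7)))
    · intro u u' hu hu' h6 h7
      obtain rfl : u = a := Subtype.ext hu
      obtain rfl : u' = b := Subtype.ext hu'
      exact h5 h6 h7

/-- **The criterion, pairwise form, with auxiliary numbers.** -/
theorem master_aux {B : Set (AlgebraicClosure K)} (hBfin : B.Finite)
    (hBst : ∀ (σ : AlgebraicClosure K ≃ₐ[K] AlgebraicClosure K), ∀ x ∈ B, σ x ∈ B) {ι : Type} [Fintype ι] [Nonempty ι] (f : ι → K[X]) (hf : ∀ i, HypP (f i))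
    (h3 : ∀ i, 2 < (f i).natDegree) (r : ι → ℕ) (hr : Function.Injective r)
    (N : ι → Set (HeightOneSpectrum (𝓞 K)))
    (Q : ι → HeightOneSpectrum (𝓞 K) → AlgebraicClosure K → AlgebraicClosure K → Prop)
    (h2 : ∀ i, ∀ v ∈ N i, (2 : 𝓞 K) ∉ v.asIdeal)
    (hB : ∀ i, ∀ v ∈ N i, UnitSet B v)
    (hnode : ∀ i, ∀ v ∈ N i, NodeAux B (f i) v (Q i v))
    (hpair : ∀ i j, r j < r i → ∃ T ⊆ N i, (∀ v ∈ T, GoodAux B (f j) v) ∧
      Connects (κ := T) (f i) (fun v => Q i v))
    {d : ℕ} (τ : AbsoluteGaloisGroup K →* Matrix (Fin d) (Fin d) ℚ_[2]) (hτ : IsLattice τ)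
    (hun : ∀ i, ∃ T ⊆ N i, (∀ v ∈ T, Unramified τ v) ∧
      Connects (κ := T) (f i) (fun v => Q i v)) : EveryPrime f τ := by
  classical
  obtain ⟨t, ht⟩ := exists_lat τ hτ.2
  have hsp : ∀ i, ((f i).map (algebraMap K (AlgebraicClosure K))).Splits :=
    fun i => IsAlgClosed.splits _
  have hm : ∀ i, ((f i).map (algebraMap K (AlgebraicClosure K))).Monic :=
    fun i => (HypP.monic (f := f i)).map _
  have hnd : ∀ i, ((f i).aroots (AlgebraicClosure K)).Nodup :=
    fun i => nodup_roots (HypP.sep (f := f i)).map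
  have hcard : ∀ i, Fintype.card ((f i).rootSet (AlgebraicClosure K)) = (f i).natDegree := fun i =>
    card_rootSet_eq_natDegree (HypP.sep (f := f i)) (hsp i)
  obtain ⟨i₀⟩ := ‹Nonempty ι›
  have h2F : (2 : AlgebraicClosure K) ≠ 0 := by
    have h1 : (2 : AlgebraicClosure K) = algebraMap K (AlgebraicClosure K) 2 := by rw [map_ofNat]
    rw [h1, Ne, map_eq_zero]
    exact HypP.two (f := f i₀)
  have hne : Nonempty ι := ⟨i₀⟩
  have hyp : ∀ i, Hyp (rootsOf f i) := fun i =>
    { inj := Subtype.val_injective
      odd := by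
        rw [hcard]
        exact HypP.odd (f := f i)
      two := h2F }
  have hα : ∀ i, (f i).map (algebraMap K (AlgebraicClosure K)) = fP (rootsOf f i) := by
    intro i
    rw [(hsp i).eq_prod_roots_of_monic (hm i), fP]
    have h1 : ∏ x ∈ ((f i).aroots (AlgebraicClosure K)).toFinset, (X - C x) =
        ∏ x : (f i).rootSet (AlgebraicClosure K), (X - C (x : AlgebraicClosure K)) :=
      Finset.prod_subtype _ (fun x => Iff.rfl) _
    rw [← h1, Finset.prod, Multiset.toFinset_val, Multiset.Nodup.dedup (hnd i)]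
  refine everyPrime_of_tan f hf (rootsOf f) hα (fun i => by rw [hcard]; exact (h3 i).le) t τ hτ.1
    ht ?_
  intro h2' _ hg X hX
  refine tan_pairs (rootsOf f) hg t h2' r hr (fun i j hij => ?_) (fun i => ?_) hX
  · -- separation from the curve `j`
    obtain ⟨T, hT, hgood, hc⟩ := hpair i j hij
    have hij' : j ≠ i := by
      rintro rfl
      exact lt_irrefl _ hij
    let r' : ι → ℕ := fun k => if k = j then 0 else if k = i then 1 else r k + 2
    have hri : r' i = 1 := by
      change (if i = j then 0 else if i = i then 1 else r i + 2) = 1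
      rw [if_neg (Ne.symm hij'), if_pos rfl]
    have hrj : r' j = 0 := if_pos rfl
    have hrk : ∀ k, k ≠ j → k ≠ i → r' k = r k + 2 := by
      intro k h4 h5
      change (if k = j then 0 else if k = i then 1 else r k + 2) = _
      rw [if_neg h4, if_neg h5]
    have hr' : Function.Injective r' := by
      intro k l hkl
      by_cases h4 : k = j
      · by_cases h5 : l = j
        · rw [h4, h5]
        · by_cases h6 : l = i
          · rw [h4, h6, hri, hrj] at hkl
            exact absurd hkl (by norm_num)
          · rw [h4, hrj, hrk l h5 h6] at hkl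
            omega
      · by_cases h5 : k = i
        · by_cases h6 : l = j
          · rw [h5, h6, hri, hrj] at hkl
            exact absurd hkl (by norm_num)
          · by_cases h7 : l = i
            · rw [h5, h7]
            · rw [h5, hri, hrk l h6 h7] at hkl
              omega
        · rw [hrk k h4 h5] at hkl
          by_cases h6 : l = j
          · rw [h6, hrj] at hkl
            omega
          · by_cases h7 : l = i
            · rw [h7, hri] at hkl
              omega
            · rw [hrk l h6 h7] at hkl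
              exact hr (by omega)
    have hlow : ∀ k, r' k < r' i → k = j := by
      intro k hk
      by_contra h4
      rw [hri] at hk
      by_cases h5 : k = i
      · rw [h5, hri] at hk
        omega
      · rw [hrk k h4 h5] at hk
        omega
    have key : ∀ v : T, ∃ a b : (f i).rootSet (AlgebraicClosure K), a ≠ b ∧
        Q i v (a : AlgebraicClosure K) (b : AlgebraicClosure K) ∧
        ∃ σ, PairElt (rootsOf f) (1 : GK K →* Matrix (Fin d) (Fin d) ℤ_[2]) r' i a b σ := by
      intro v
      refine exists_pair_aux hBfin hBst f hf r' hr' i (h2 i v (hT v.2)) (hB i v (hT v.2))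
        (hnode i v (hT v.2)) (fun k hk => ?_)
        (1 : AbsoluteGaloisGroup K →* Matrix (Fin d) (Fin d) ℚ_[2]) (unramified_one d v.1) _
        (isLatOf_one d)
      rw [hlow k hk]
      exact hgood v v.2
    choose a b hab hQ σ hσ using key
    exact genBy_of_graph (rootsOf f i) (hg i) (by rw [hcard]; exact h3 i) a b hab σ _
      (conj_signs (hg j)) (fun k => (hσ k).own) (fun k => (hσ k).cyclo)
      (fun k => (hσ k).low j (by rw [hri, hrj]; exact one_pos)) (hc a b hab hQ)
  · -- separation from `Z`
    obtain ⟨T, hT, hun, hc⟩ := hun i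
    let r' : ι → ℕ := fun k => if k = i then 0 else r k + 1
    have hri : r' i = 0 := if_pos rfl
    have hrk : ∀ k, k ≠ i → r' k = r k + 1 := fun k h4 => if_neg h4
    have hr' : Function.Injective r' := by
      intro k l hkl
      by_cases h4 : k = i
      · by_cases h5 : l = i
        · rw [h4, h5]
        · rw [h4, hri, hrk l h5] at hkl
          omega
      · rw [hrk k h4] at hkl
        by_cases h5 : l = i
        · rw [h5, hri] at hkl
          omega
        · rw [hrk l h5] at hkl
          exact hr (by omega)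
    have key : ∀ v : T, ∃ a b : (f i).rootSet (AlgebraicClosure K), a ≠ b ∧
        Q i v (a : AlgebraicClosure K) (b : AlgebraicClosure K) ∧
        ∃ σ, PairElt (rootsOf f) t r' i a b σ := by
      intro v
      refine exists_pair_aux hBfin hBst f hf r' hr' i (h2 i v (hT v.2)) (hB i v (hT v.2))
        (hnode i v (hT v.2)) (fun k hk => ?_)
        τ (hun v v.2) t ht
      rw [hri] at hk
      omega
    choose a b hab hQ σ hσ using key
    exact genBy_of_graph (rootsOf f i) (hg i) (by rw [hcard]; exact h3 i) a b hab σ _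
      (conj_four t) (fun k => (hσ k).own) (fun k => (hσ k).cyclo)
      (fun k => (hσ k).val) (hc a b hab hQ)

end Pool.Agent.H852.J
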