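import Mathlib
import Pool.Agent.H852.J.K2
import Pool.Agent.H422.HE.Sel

/-!
# Sets of algebraic numbers which are integral with different residues at almost all places
-/

set_option linter.unusedSectionVars false
set_option autoImplicit false

namespace Pool.Agent.H852.J

open Matrix Polynomial Filter Topology Module NumberField IsDedekindDomain WithZero
open HeightOneSpectrum

variable {K : Type} [Field K] [NumberField K]

/-- `z` is integral at all places above `v` -/
def IntAt (z : AlgebraicClosure K) (v : HeightOneSpectrum (𝓞 K)) : Prop :=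
  ∀ (M : IntermediateField K (AlgebraicClosure K)) [NumberField M] [Normal K M]
    (P : HeightOneSpectrum (𝓞 M)) [P.asIdeal.LiesOver v.asIdeal] (u : M),
    (u : AlgebraicClosure K) = z → P.valuation M u ≤ 1

theorem intAt_finite (z : AlgebraicClosure K) :
    {v : HeightOneSpectrum (𝓞 K) | ¬ IntAt z v}.Finite := by
  have hz : IsIntegral K z := Algebra.IsIntegral.isIntegral z
  set p := minpoly K z with hp
  have hm : p.Monic := minpoly.monic hz
  refine ((Finset.range (p.natDegree + 1)).finite_toSet.biUnion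
    (t := fun i => {v : HeightOneSpectrum (𝓞 K) | ¬ v.valuation K (p.coeff i) ≤ 1})
    (fun i _ => Pool.Agent.H422.HE.finite_int _)).subset ?_
  intro v hv
  by_contra hcon
  simp only [Set.mem_iUnion, Finset.coe_range, Set.mem_Iio, Set.mem_ofPred_eq, not_exists,
    not_not] at hcon
  apply hv
  intro M _ _ P _ u hu
  have hg : IsGalois K M := ⟨⟩
  have h1 : aeval u p = 0 := by
    rw [aeval_coe, hu]
    exact minpoly.aeval K z
  by_contra h2
  rw [not_le] at h2
  set w := P.valuation M with hw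
  have h3 : u ^ p.natDegree = - ∑ i ∈ Finset.range p.natDegree, algebraMap K M (p.coeff i) * u ^ i := by
    rw [aeval_eq_sum_range, Finset.sum_range_succ] at h1
    have h4 : p.coeff p.natDegree = 1 := hm
    rw [h4, one_smul] at h1
    rw [eq_neg_iff_add_eq_zero, add_comm]
    simpa only [Algebra.smul_def] using h1
  have hpos : 0 < p.natDegree := minpoly.natDegree_pos hz
  have h5 : w (u ^ p.natDegree) ≤ w u ^ (p.natDegree - 1) := by
    rw [h3, Valuation.map_neg]
    refine Valuation.map_sum_le _ fun i hi => ?_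
    rw [Finset.mem_range] at hi
    rw [map_mul, map_pow]
    have h6 : w (algebraMap K M (p.coeff i)) ≤ 1 := val_up_le v P (hcon i (by omega))
    calc w (algebraMap K M (p.coeff i)) * w u ^ i ≤ 1 * w u ^ (p.natDegree - 1) :=
          mul_le_mul' h6 (pow_le_pow_right₀ h2.le (by omega))
      _ = _ := one_mul _
  rw [map_pow] at h5
  have h6 : w u ^ (p.natDegree - 1) < w u ^ p.natDegree :=
    pow_lt_pow_right₀ h2 (by omega)
  exact absurd h5 (not_le.2 h6)

theorem unitAt_finite {z : AlgebraicClosure K} (hz : z ≠ 0) :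
    {v : HeightOneSpectrum (𝓞 K) | ¬ (IntAt z v ∧ IntAt z⁻¹ v)}.Finite := by
  refine ((intAt_finite z).union (intAt_finite z⁻¹)).subset ?_
  intro v hv
  by_cases h : IntAt z v
  · exact Or.inr fun h' => hv ⟨h, h'⟩
  · exact Or.inl h

theorem val_one_of_unitAt {z : AlgebraicClosure K} (hz : z ≠ 0) {v : HeightOneSpectrum (𝓞 K)}
    (h : IntAt z v ∧ IntAt z⁻¹ v) (M : IntermediateField K (AlgebraicClosure K)) [NumberField M]
    [Normal K M] (P : HeightOneSpectrum (𝓞 M)) [P.asIdeal.LiesOver v.asIdeal] (u : M)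
    (hu : (u : AlgebraicClosure K) = z) : P.valuation M u = 1 := by
  have hu0 : u ≠ 0 := by
    rintro rfl
    exact hz (hu.symm.trans rfl)
  refine le_antisymm (h.1 M P u hu) ?_
  have h2 := h.2 M P u⁻¹ (by rw [← hu]; rfl)
  rw [map_inv₀] at h2
  have h3 : P.valuation M u ≠ 0 := (Valuation.ne_zero_iff _).2 hu0
  exact (inv_le_one₀ (zero_lt_iff.2 h3)).1 h2

/-- almost all places are good for a finite set -/
theorem unitSet_finite {B : Set (AlgebraicClosure K)} (hB : B.Finite) :
    {v : HeightOneSpectrum (𝓞 K) | ¬ UnitSet B v}.Finite := by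
  have h1 : (⋃ x ∈ B, {v : HeightOneSpectrum (𝓞 K) | ¬ IntAt x v}).Finite :=
    hB.biUnion fun x _ => intAt_finite x
  have h2 : (⋃ x ∈ B, ⋃ y ∈ B, {v : HeightOneSpectrum (𝓞 K) | x ≠ y ∧
      ¬ (IntAt (x - y) v ∧ IntAt (x - y)⁻¹ v)}).Finite := by
    refine hB.biUnion fun x _ => hB.biUnion fun y _ => ?_
    by_cases hxy : x = y
    · simp [hxy]
    · refine (unitAt_finite (sub_ne_zero.2 hxy)).subset ?_
      rintro v ⟨-, h⟩
      exact h
  refine (h1.union h2).subset ?_
  intro v hv
  by_contra hcon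
  rw [Set.mem_union, not_or] at hcon
  simp only [Set.mem_iUnion, Set.mem_ofPred_eq] at hcon
  have h3 : ∀ x ∈ B, IntAt x v := by
    intro x hx
    by_contra h
    exact hcon.1 ⟨x, hx, h⟩
  have h4 : ∀ x ∈ B, ∀ y ∈ B, x ≠ y → IntAt (x - y) v ∧ IntAt (x - y)⁻¹ v := by
    intro x hx y hy hxy
    by_contra h
    exact hcon.2 ⟨x, hx, y, hy, hxy, h⟩
  apply hv
  refine ⟨fun M _ _ P _ x hx u hu => ?_, fun M _ _ P _ x hx y hy u u' hu hu' huu => ?_⟩
  · exact h3 x hx M P u hu
  · have hxy : x ≠ y := by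
      rintro rfl
      exact huu (Subtype.ext (hu.trans hu'.symm))
    exact val_one_of_unitAt (sub_ne_zero.2 hxy) (h4 x hx y hy hxy) M P (u - u')
      (by rw [← hu, ← hu']; rfl)

/-- a finite set is contained in a finite set stable under the Galois group -/
theorem exists_stable {B₀ : Set (AlgebraicClosure K)} (h : B₀.Finite) :
    ∃ B : Set (AlgebraicClosure K), B.Finite ∧ B₀ ⊆ B ∧
      ∀ (σ : AlgebraicClosure K ≃ₐ[K] AlgebraicClosure K), ∀ x ∈ B, σ x ∈ B := by
  refine ⟨⋃ z ∈ B₀, ((minpoly K z).rootSet (AlgebraicClosure K)),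
    h.biUnion fun z _ => Polynomial.rootSet_finite _ _, ?_, ?_⟩
  · intro z hz
    simp only [Set.mem_iUnion]
    refine ⟨z, hz, ?_⟩
    rw [mem_rootSet]
    exact ⟨minpoly.ne_zero (Algebra.IsIntegral.isIntegral z), minpoly.aeval K z⟩
  · intro σ x hx
    simp only [Set.mem_iUnion] at hx ⊢
    obtain ⟨z, hz, hx⟩ := hx
    refine ⟨z, hz, ?_⟩
    rw [mem_rootSet] at hx ⊢
    refine ⟨hx.1, ?_⟩
    have h4 := Polynomial.aeval_algHom_apply (σ : AlgebraicClosure K →ₐ[K] AlgebraicClosure K)
      x (minpoly K z)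
    rw [hx.2, map_zero] at h4
    exact h4

/-- the polynomial over `K` of a stable finite set -/
theorem exists_poly {Z : Finset (AlgebraicClosure K)}
    (h : ∀ (σ : AlgebraicClosure K ≃ₐ[K] AlgebraicClosure K), ∀ x ∈ Z, σ x ∈ Z) :
    ∃ m : K[X], m.map (algebraMap K (AlgebraicClosure K)) = ∏ t ∈ Z, (X - C t) := by
  have h1 : (∏ t ∈ Z, (X - C t)) ∈ Polynomial.lifts (algebraMap K (AlgebraicClosure K)) := by
    rw [Polynomial.lifts_iff_coeff_lifts]
    intro n
    rw [InfiniteGalois.mem_range_algebraMap_iff_fixed]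
    intro σ
    have h2 : (∏ t ∈ Z, (X - C t)).map (σ : AlgebraicClosure K →+* AlgebraicClosure K) =
        ∏ t ∈ Z, (X - C t) := by
      rw [Polynomial.map_prod]
      refine Finset.prod_bij (fun t _ => σ t) (fun t ht => h σ t ht) (fun t _ t' _ htt => σ.injective htt)
        (fun t ht => ⟨σ⁻¹ t, h σ⁻¹ t ht, ?_⟩) (fun t _ => ?_)
      · change σ (σ⁻¹ t) = t
        rw [← AlgEquiv.mul_apply, mul_inv_cancel, AlgEquiv.one_apply]
      · rw [Polynomial.map_sub, map_X, map_C]
        rfl
    have h3 := congrArg (fun q => q.coeff n) h2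
    simp only [coeff_map] at h3
    exact h3
  obtain ⟨m, hm⟩ := (Polynomial.mem_lifts _).1 h1
  exact ⟨m, hm⟩

end Pool.Agent.H852.J
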