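import Mathlib
import Pool.Agent.H852.J.K3

/-!
# Families of hyperelliptic curves with branch points given by sections: nodes
-/

set_option linter.unusedSectionVars false
set_option autoImplicit false

namespace Pool.Agent.H852.J

open Matrix Polynomial Filter Topology Module NumberField IsDedekindDomain WithZero
open HeightOneSpectrum

variable {K : Type} [Field K] [NumberField K]

/-- the member of the family at `t = c` -/
noncomputable def spec (F : K[X][X]) (c : K) : K[X] := F.map (evalRingHom c)

section single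

variable {κ : Type} [Fintype κ] [DecidableEq κ] {F : K[X][X]} {r : κ → (AlgebraicClosure K)[X]}

theorem sec_conj (hF : F.map (mapRingHom (algebraMap K (AlgebraicClosure K))) =
      ∏ k, (X - C (r k)))
    (σ : AlgebraicClosure K ≃ₐ[K] AlgebraicClosure K) (k : κ) :
    ∃ l, (r k).map (σ : AlgebraicClosure K →+* AlgebraicClosure K) = r l := by
  set s := (σ : AlgebraicClosure K →+* AlgebraicClosure K) with hs
  have h0 : s.comp (algebraMap K (AlgebraicClosure K)) = algebraMap K (AlgebraicClosure K) := by
    ext x
    exact σ.commutes x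
  have h1 : (F.map (mapRingHom (algebraMap K (AlgebraicClosure K)))).map (mapRingHom s) =
      F.map (mapRingHom (algebraMap K (AlgebraicClosure K))) := by
    rw [Polynomial.map_map, mapRingHom_comp, h0]
  have h2 : (F.map (mapRingHom (algebraMap K (AlgebraicClosure K)))).eval (r k) = 0 := by
    rw [hF, eval_prod]
    exact Finset.prod_eq_zero (Finset.mem_univ k) (by simp)
  have h3 : (F.map (mapRingHom (algebraMap K (AlgebraicClosure K)))).eval ((r k).map s) = 0 := by
    have h4 : (r k).map s = mapRingHom s (r k) := rfl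
    rw [h4]
    nth_rewrite 1 [← h1]
    rw [eval_map, eval₂_at_apply, h2, map_zero]
  rw [hF, eval_prod, Finset.prod_eq_zero_iff] at h3
  obtain ⟨l, -, hl⟩ := h3
  refine ⟨l, ?_⟩
  rw [eval_sub, eval_X, eval_C] at hl
  exact sub_eq_zero.1 hl

theorem spec_map (hF : F.map (mapRingHom (algebraMap K (AlgebraicClosure K))) =
      ∏ k, (X - C (r k))) (c : K) :
    (spec F c).map (algebraMap K (AlgebraicClosure K)) =
      ∏ k, (X - C ((r k).eval (algebraMap K (AlgebraicClosure K) c))) := by
  have h1 : (spec F c).map (algebraMap K (AlgebraicClosure K)) =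
      (F.map (mapRingHom (algebraMap K (AlgebraicClosure K)))).map
        (evalRingHom (algebraMap K (AlgebraicClosure K) c)) := by
    rw [spec, Polynomial.map_map, Polynomial.map_map]
    congr 1
    apply Polynomial.ringHom_ext
    · intro a
      simp
    · simp
  rw [h1, hF, Polynomial.map_prod]
  refine Finset.prod_congr rfl fun k _ => ?_
  rw [Polynomial.map_sub, map_X, map_C]
  rfl

theorem root_spec (hF : F.map (mapRingHom (algebraMap K (AlgebraicClosure K))) =
      ∏ k, (X - C (r k))) (c : K) (x : AlgebraicClosure K) :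
    aeval x (spec F c) = 0 ↔ ∃ k, x = (r k).eval (algebraMap K (AlgebraicClosure K) c) := by
  rw [aeval_def, ← eval_map, spec_map hF, eval_prod, Finset.prod_eq_zero_iff]
  constructor
  · rintro ⟨k, -, hk⟩
    refine ⟨k, ?_⟩
    rw [eval_sub, eval_X, eval_C] at hk
    exact sub_eq_zero.1 hk
  · rintro ⟨k, rfl⟩
    exact ⟨k, Finset.mem_univ k, by simp⟩

theorem monic_spec (hF : F.map (mapRingHom (algebraMap K (AlgebraicClosure K))) =
      ∏ k, (X - C (r k))) (c : K) : (spec F c).Monic := by
  apply monic_of_injective (algebraMap K (AlgebraicClosure K)).injective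
  rw [spec_map hF]
  exact monic_prod_of_monic _ _ fun k _ => monic_X_sub_C _

theorem natDegree_spec (hF : F.map (mapRingHom (algebraMap K (AlgebraicClosure K))) =
      ∏ k, (X - C (r k))) (c : K) : (spec F c).natDegree = Fintype.card κ := by
  rw [← natDegree_map (algebraMap K (AlgebraicClosure K)), spec_map hF,
    natDegree_prod_of_monic _ _ fun k _ => monic_X_sub_C _]
  simp

theorem separable_spec (hF : F.map (mapRingHom (algebraMap K (AlgebraicClosure K))) =
      ∏ k, (X - C (r k))) (c : K)
    (h : ∀ k l, k ≠ l → (r k - r l).eval (algebraMap K (AlgebraicClosure K) c) ≠ 0) :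
    (spec F c).Separable := by
  rw [← Polynomial.separable_map (algebraMap K (AlgebraicClosure K)), spec_map hF,
    separable_prod_X_sub_C_iff]
  intro k l hkl
  by_contra h1
  refine h k l h1 ?_
  rw [eval_sub]
  exact sub_eq_zero.2 hkl

end single

section lift

variable (M : IntermediateField K (AlgebraicClosure K))

/-- the element `x` of `M` -/
noncomputable def lft (x : AlgebraicClosure K) : M := by
  classical exact if h : x ∈ M then ⟨x, h⟩ else 0

theorem lft_coe {x : AlgebraicClosure K} (h : x ∈ M) : ((lft M x : M) : AlgebraicClosure K) = x := by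
  rw [lft, dif_pos h]

variable {M}

theorem algebraMap_coe (c : K) : ((algebraMap K M c : M) : AlgebraicClosure K) =
    algebraMap K (AlgebraicClosure K) c := rfl

theorem diff_formula (w : Valuation M ℤᵐ⁰) {D : (AlgebraicClosure K)[X]} (hD0 : D ≠ 0)
    (hl : D.leadingCoeff ∈ M) (hr : ∀ t, D.eval t = 0 → t ∈ M) (c : K) (z : M)
    (hz : (z : AlgebraicClosure K) = D.eval (algebraMap K (AlgebraicClosure K) c)) :
    w z = w (lft M D.leadingCoeff) *
      (D.roots.map fun t => w (algebraMap K M c - lft M t)).prod := by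
  have h1 : z = lft M D.leadingCoeff * (D.roots.map fun t => algebraMap K M c - lft M t).prod := by
    apply Subtype.ext
    rw [hz, (IsAlgClosed.splits D).eval_eq_prod_roots]
    have h3 : ∀ (x : M), (x : AlgebraicClosure K) = algebraMap M (AlgebraicClosure K) x :=
      fun x => rfl
    rw [h3, map_mul, map_multiset_prod, Multiset.map_map, ← h3, lft_coe M hl]
    congr 2
    refine Multiset.map_congr rfl fun t ht => ?_
    rw [mem_roots hD0] at ht
    rw [Function.comp_apply, map_sub, ← h3, ← h3, lft_coe M (hr t ht)]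
    rfl
  conv_lhs => rw [h1]
  rw [map_mul, map_multiset_prod, Multiset.map_map]
  rfl

theorem poly_formula (w : Valuation M ℤᵐ⁰) {m : K[X]} {Z : Finset (AlgebraicClosure K)}
    (hm : m.map (algebraMap K (AlgebraicClosure K)) = ∏ t ∈ Z, (X - C t))
    (hr : ∀ t ∈ Z, t ∈ M) (c : K) :
    w (algebraMap K M (m.eval c)) = ∏ t ∈ Z, w (algebraMap K M c - lft M t) := by
  have h1 : algebraMap K M (m.eval c) = ∏ t ∈ Z, (algebraMap K M c - lft M t) := by
    apply Subtype.ext
    have h3 : ∀ (x : M), (x : AlgebraicClosure K) = algebraMap M (AlgebraicClosure K) x :=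
      fun x => rfl
    have h4 : algebraMap K (AlgebraicClosure K) (m.eval c) =
        ∏ t ∈ Z, (algebraMap K (AlgebraicClosure K) c - t) := by
      rw [← eval₂_at_apply, ← eval_map, hm, eval_prod]
      refine Finset.prod_congr rfl fun t _ => ?_
      rw [eval_sub, eval_X, eval_C]
    rw [algebraMap_coe, h4, h3, map_prod]
    refine Finset.prod_congr rfl fun t ht => ?_
    rw [map_sub, ← h3, ← h3, lft_coe M (hr t ht)]
    rfl
  rw [h1, map_prod]

end lift

section near

variable {B : Set (AlgebraicClosure K)} {v : HeightOneSpectrum (𝓞 K)} (hB : UnitSet B v) {c : K}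
  (hc : v.valuation K c ≤ 1) {M : IntermediateField K (AlgebraicClosure K)} [NumberField M]
  [Normal K M] (hBM : ∀ x ∈ B, x ∈ M) (P : HeightOneSpectrum (𝓞 M))
  [P.asIdeal.LiesOver v.asIdeal]

include hB hBM

theorem lft_le {t : AlgebraicClosure K} (ht : t ∈ B) : P.valuation M (lft M t) ≤ 1 :=
  hB.int M P t ht _ (lft_coe M (hBM t ht))

theorem lft_sub {t t' : AlgebraicClosure K} (ht : t ∈ B) (ht' : t' ∈ B) (h : t ≠ t') :
    P.valuation M (lft M t - lft M t') = 1 := by
  refine hB.diff M P t ht t' ht' _ _ (lft_coe M (hBM t ht)) (lft_coe M (hBM t' ht')) fun h1 => h ?_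
  rw [← lft_coe M (hBM t ht), h1, lft_coe M (hBM t' ht')]

theorem lft_unit {t : AlgebraicClosure K} (h0 : (0 : AlgebraicClosure K) ∈ B) (ht : t ∈ B)
    (h : t ≠ 0) : P.valuation M (lft M t) = 1 := by
  have h1 := lft_sub hB hBM P ht h0 h
  have h2 : lft M (0 : AlgebraicClosure K) = 0 := Subtype.ext (lft_coe M (hBM 0 h0))
  rwa [h2, sub_zero] at h1

include hc

theorem near_le {t : AlgebraicClosure K} (ht : t ∈ B) :
    P.valuation M (algebraMap K M c - lft M t) ≤ 1 := by
  have hg : IsGalois K M := ⟨⟩
  exact val_sub_le (val_up_le v P hc) (lft_le hB hBM P ht)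

theorem near_unique {t t' : AlgebraicClosure K} (ht : t ∈ B) (ht' : t' ∈ B)
    (h : P.valuation M (algebraMap K M c - lft M t) < 1) (hne : t' ≠ t) :
    P.valuation M (algebraMap K M c - lft M t') = 1 := by
  have h1 : algebraMap K M c - lft M t' = (algebraMap K M c - lft M t) + (lft M t - lft M t') := by
    ring
  have h2 := lft_sub hB hBM P ht ht' (Ne.symm hne)
  rw [h1, Valuation.map_add_eq_of_lt_right _ (by rw [h2]; exact h), h2]

/-- a place at which the polynomial of a stable set is not a unit -/
theorem exists_near {m : K[X]} {Z : Finset (AlgebraicClosure K)} (hZ : ∀ t ∈ Z, t ∈ B)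
    (hm : m.map (algebraMap K (AlgebraicClosure K)) = ∏ t ∈ Z, (X - C t))
    (h1 : v.valuation K (m.eval c) ≠ 1) :
    ∃ t ∈ Z, P.valuation M (algebraMap K M c - lft M t) < 1 ∧
      P.valuation M (algebraMap K M (m.eval c)) =
        P.valuation M (algebraMap K M c - lft M t) := by
  have hg : IsGalois K M := ⟨⟩
  have h2 := poly_formula (P.valuation M) hm (fun t ht => hBM t (hZ t ht)) c
  have h3 : P.valuation M (algebraMap K M (m.eval c)) ≠ 1 := by
    rw [val_eq_pow_card v P]
    intro h4
    apply h1
    exact (pow_eq_one_iff_of_nonneg zero_le Nat.card_pos.ne').1 h4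
  have h4 : ∃ t ∈ Z, P.valuation M (algebraMap K M c - lft M t) < 1 := by
    by_contra hcon
    push Not at hcon
    apply h3
    rw [h2]
    exact Finset.prod_eq_one fun t ht =>
      le_antisymm (near_le hB hc hBM P (hZ t ht)) (hcon t ht)
  obtain ⟨t, ht, h5⟩ := h4
  refine ⟨t, ht, h5, ?_⟩
  rw [h2, Finset.prod_eq_single t]
  · intro t' ht' hne
    exact near_unique hB hc hBM P (hZ t ht) (hZ t' ht') h5 hne
  · exact fun h => absurd ht h

end near

end Pool.Agent.H852.J
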