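import Mathlib
import Pool.Agent.H852.J.K4

/-!
# Families of hyperelliptic curves with branch points given by sections: the criterion
-/

set_option linter.unusedSectionVars false
set_option autoImplicit false

namespace Pool.Agent.H852.J

open Matrix Polynomial Filter Topology Module NumberField IsDedekindDomain WithZero
open Pool.Agent.Y142.ZO (GK)
open Pool.Agent.N171 Pool.Agent.N171.Al Pool.Agent.N171.Pm Pool.Agent.N171.Bg Pool.Agent.N171.TG
open Pool.Agent.Results.MP_640417_ag.HyperellipticEveryPrime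
open HeightOneSpectrum

variable {K : Type} [Field K] [NumberField K]

/-- a finite number of families with branch points given by sections, with a set `G` of parameters at
which at most one pair of sections meets, transversally, and a set `B` of auxiliary numbers -/
structure Sys {ι : Type} {κ : ι → Type} [∀ i, Fintype (κ i)] (F : ι → K[X][X])
    (r : ∀ i, κ i → (AlgebraicClosure K)[X]) (B G : Set (AlgebraicClosure K)) : Prop where
  split : ∀ i, (F i).map (mapRingHom (algebraMap K (AlgebraicClosure K))) = ∏ k, (X - C (r i k))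
  ne : ∀ i k l, k ≠ l → r i k - r i l ≠ 0
  simple : ∀ i k l t, t ∈ G → k ≠ l → (r i k - r i l).eval t = 0 →
    (r i k - r i l).rootMultiplicity t = 1
  pair : ∀ i k l k' l' t, t ∈ G → k ≠ l → k' ≠ l' → (r i k - r i l).eval t = 0 →
    (r i k' - r i l').eval t = 0 → (k = k' ∧ l = l') ∨ (k = l' ∧ l = k')
  fam : ∀ i j k l k' l' t, t ∈ G → i ≠ j → k ≠ l → k' ≠ l' → (r i k - r i l).eval t = 0 →
    (r j k' - r j l').eval t ≠ 0
  fin : B.Finite
  zero : 0 ∈ B
  coef : ∀ i k n, (r i k).coeff n ∈ B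
  lead : ∀ i k l, (r i k - r i l).leadingCoeff ∈ B
  root : ∀ i k l t, k ≠ l → (r i k - r i l).eval t = 0 → t ∈ B
  stable : ∀ (σ : AlgebraicClosure K ≃ₐ[K] AlgebraicClosure K), ∀ x ∈ B, σ x ∈ B

/-- the monic polynomial whose roots are the parameters in `G` at which some conjugate of the pair of
sections meets -/
def IsMeetPoly {κ : Type} (r : κ → (AlgebraicClosure K)[X]) (G : Set (AlgebraicClosure K))
    (k l : κ) (m : K[X]) : Prop :=
  ∃ Z : Finset (AlgebraicClosure K),
    (∀ t, t ∈ Z ↔ t ∈ G ∧ ∃ σ : AlgebraicClosure K ≃ₐ[K] AlgebraicClosure K,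
      ((r k - r l).map (σ : AlgebraicClosure K →+* AlgebraicClosure K)).eval t = 0) ∧
    m.map (algebraMap K (AlgebraicClosure K)) = ∏ t ∈ Z, (X - C t)

variable {ι : Type} {κ : ι → Type} [∀ i, Fintype (κ i)] [∀ i, DecidableEq (κ i)]
  {F : ι → K[X][X]} {r : ∀ i, κ i → (AlgebraicClosure K)[X]} {B G : Set (AlgebraicClosure K)}

theorem Sys.inj (hS : Sys F r B G) {i : ι} {k l : κ i} (h : k ≠ l) : r i k ≠ r i l := fun h1 =>
  hS.ne i k l h (sub_eq_zero.2 h1)

theorem Sys.conj (hS : Sys F r B G) {i : ι} {k l : κ i} (h : k ≠ l)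
    (σ : AlgebraicClosure K ≃ₐ[K] AlgebraicClosure K) :
    ∃ k' l', k' ≠ l' ∧ (r i k).map (σ : AlgebraicClosure K →+* AlgebraicClosure K) = r i k' ∧
      (r i l).map (σ : AlgebraicClosure K →+* AlgebraicClosure K) = r i l' := by
  obtain ⟨k', hk'⟩ := sec_conj (hS.split i) σ k
  obtain ⟨l', hl'⟩ := sec_conj (hS.split i) σ l
  refine ⟨k', l', ?_, hk', hl'⟩
  rintro rfl
  refine hS.inj h ?_
  have h1 : (r i k).map (σ : AlgebraicClosure K →+* AlgebraicClosure K) =
      (r i l).map (σ : AlgebraicClosure K →+* AlgebraicClosure K) := hk'.trans hl'.symm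
  exact Polynomial.map_injective _
    (σ : AlgebraicClosure K →+* AlgebraicClosure K).injective h1

/-- points of the meeting set -/
theorem Sys.mem_meet (hS : Sys F r B G) {i : ι} {k l : κ i} (h : k ≠ l)
    (σ : AlgebraicClosure K ≃ₐ[K] AlgebraicClosure K) {t : AlgebraicClosure K}
    (ht : ((r i k - r i l).map (σ : AlgebraicClosure K →+* AlgebraicClosure K)).eval t = 0) :
    ∃ k' l', k' ≠ l' ∧ (r i k).map (σ : AlgebraicClosure K →+* AlgebraicClosure K) = r i k' ∧
      (r i l).map (σ : AlgebraicClosure K →+* AlgebraicClosure K) = r i l' ∧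
      (r i k' - r i l').eval t = 0 := by
  obtain ⟨k', l', h1, h2, h3⟩ := hS.conj h σ
  refine ⟨k', l', h1, h2, h3, ?_⟩
  rwa [Polynomial.map_sub, h2, h3] at ht

section place

variable {v : HeightOneSpectrum (𝓞 K)} {c : K}

section up

variable {M : IntermediateField K (AlgebraicClosure K)}

theorem eval_sum (hBM : ∀ x ∈ B, x ∈ M) (hS : Sys F r B G) (i : ι) (k : κ i) (u : M)
    (hu : (u : AlgebraicClosure K) = (r i k).eval (algebraMap K (AlgebraicClosure K) c)) :
    u = ∑ n ∈ Finset.range ((r i k).natDegree + 1),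
      lft M ((r i k).coeff n) * algebraMap K M c ^ n := by
  apply Subtype.ext
  have h3 : ∀ (x : M), (x : AlgebraicClosure K) = algebraMap M (AlgebraicClosure K) x :=
    fun x => rfl
  rw [hu, eval_eq_sum_range, h3, map_sum]
  refine Finset.sum_congr rfl fun n _ => ?_
  rw [map_mul, map_pow, ← h3, ← h3, lft_coe M (hBM _ (hS.coef i k n))]
  rfl

variable [NumberField M] [Normal K M] (hBM : ∀ x ∈ B, x ∈ M) (P : HeightOneSpectrum (𝓞 M))
  [P.asIdeal.LiesOver v.asIdeal]

include hBM in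
theorem sec_int (hS : Sys F r B G) (hB : UnitSet B v) (hc : v.valuation K c ≤ 1) (i : ι) (k : κ i)
    (u : M) (hu : (u : AlgebraicClosure K) =
      (r i k).eval (algebraMap K (AlgebraicClosure K) c)) : P.valuation M u ≤ 1 := by
  have hg : IsGalois K M := ⟨⟩
  rw [eval_sum hBM hS i k u hu]
  refine Valuation.map_sum_le _ fun n _ => ?_
  rw [map_mul, map_pow]
  exact mul_le_one' (lft_le hB hBM P (hS.coef i k n)) (pow_le_one₀ zero_le (val_up_le v P hc))

omit [∀ i, DecidableEq (κ i)] in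
include hBM in
theorem inert_lft (hS : Sys F r B G) (hB : UnitSet B v) {s : M ≃ₐ[K] M} (hs : Inert P s)
    {t : AlgebraicClosure K} (ht : t ∈ B) : s (lft M t) = lft M t := by
  refine inert_eq hs (lft_le hB hBM P ht) fun h => ?_
  refine hB.diff M P (s.liftNormal (AlgebraicClosure K) t) (hS.stable _ t ht) t ht _ _ ?_
    (lft_coe M (hBM t ht)) h
  have h1 := s.liftNormal_commutes (AlgebraicClosure K) (lft M t)
  have h2 : algebraMap M (AlgebraicClosure K) (lft M t) = t := lft_coe M (hBM t ht)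
  rw [h2] at h1
  exact h1.symm

include hBM in
theorem inert_sec (hS : Sys F r B G) (hB : UnitSet B v) {s : M ≃ₐ[K] M} (hs : Inert P s) {i : ι}
    {k : κ i} {u : M} (hu : (u : AlgebraicClosure K) =
      (r i k).eval (algebraMap K (AlgebraicClosure K) c)) : s u = u := by
  rw [eval_sum hBM hS i k u hu, map_sum]
  refine Finset.sum_congr rfl fun n _ => ?_
  rw [map_mul, map_pow, AlgEquiv.commutes, inert_lft hBM P hS hB hs (hS.coef i k n)]

open Classical in
include hBM in
theorem sec_diff (hS : Sys F r B G) (hB : UnitSet B v) {i : ι} {k l : κ i} (hkl : k ≠ l)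
    {u u' : M} (hu : (u : AlgebraicClosure K) =
      (r i k).eval (algebraMap K (AlgebraicClosure K) c))
    (hu' : (u' : AlgebraicClosure K) =
      (r i l).eval (algebraMap K (AlgebraicClosure K) c)) :
    P.valuation M (u - u') = ((r i k - r i l).roots.map fun t =>
      P.valuation M (algebraMap K M c - lft M t)).prod := by
  have h0 : r i k - r i l ≠ 0 := hS.ne i k l hkl
  rw [diff_formula (P.valuation M) h0 (hBM _ (hS.lead i k l))
    (fun t ht => hBM t (hS.root i k l t hkl ht)) c (u - u') ?_,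
    lft_unit hB hBM P hS.zero (hS.lead i k l) (by rwa [Ne, leadingCoeff_eq_zero]), one_mul]
  rw [eval_sub, ← hu, ← hu']
  rfl

open Classical in
include hBM in
theorem sec_diff_one (hS : Sys F r B G) (hB : UnitSet B v) (hc : v.valuation K c ≤ 1) {i : ι}
    {k l : κ i} (hkl : k ≠ l) {u u' : M} (hu : (u : AlgebraicClosure K) =
      (r i k).eval (algebraMap K (AlgebraicClosure K) c))
    (hu' : (u' : AlgebraicClosure K) =
      (r i l).eval (algebraMap K (AlgebraicClosure K) c)) {t₀ : AlgebraicClosure K} (ht₀ : t₀ ∈ B)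
    (hn : P.valuation M (algebraMap K M c - lft M t₀) < 1) (h : (r i k - r i l).eval t₀ ≠ 0) :
    P.valuation M (u - u') = 1 := by
  rw [sec_diff hBM P hS hB hkl hu hu']
  refine Multiset.prod_eq_one fun z hz => ?_
  obtain ⟨t, ht, rfl⟩ := Multiset.mem_map.1 hz
  rw [mem_roots (hS.ne i k l hkl)] at ht
  refine near_unique hB hc hBM P ht₀ (hS.root i k l t hkl ht) hn ?_
  rintro rfl
  exact h ht

open Classical in
include hBM in
theorem sec_diff_near (hS : Sys F r B G) (hB : UnitSet B v) (hc : v.valuation K c ≤ 1) {i : ι}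
    {k l : κ i} (hkl : k ≠ l) {u u' : M} (hu : (u : AlgebraicClosure K) =
      (r i k).eval (algebraMap K (AlgebraicClosure K) c))
    (hu' : (u' : AlgebraicClosure K) =
      (r i l).eval (algebraMap K (AlgebraicClosure K) c)) {t₀ : AlgebraicClosure K} (ht₀ : t₀ ∈ B)
    (htG : t₀ ∈ G) (hn : P.valuation M (algebraMap K M c - lft M t₀) < 1)
    (h : (r i k - r i l).eval t₀ = 0) :
    P.valuation M (u - u') = P.valuation M (algebraMap K M c - lft M t₀) := by
  have h0 := hS.ne i k l hkl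
  have h1 : t₀ ∈ (r i k - r i l).roots := (mem_roots h0).2 h
  obtain ⟨R, hR⟩ := Multiset.exists_cons_of_mem h1
  have h2 : t₀ ∉ R := by
    intro h3
    have h4 : (r i k - r i l).roots.count t₀ = 1 := by
      rw [count_roots]
      exact hS.simple i k l t₀ htG hkl h
    rw [hR, Multiset.count_cons_self] at h4
    have h5 := Multiset.one_le_count_iff_mem.2 h3
    omega
  rw [sec_diff hBM P hS hB hkl hu hu', hR, Multiset.map_cons, Multiset.prod_cons,
    Multiset.prod_eq_one, mul_one]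
  intro z hz
  obtain ⟨t, ht, rfl⟩ := Multiset.mem_map.1 hz
  refine near_unique hB hc hBM P ht₀ (hS.root i k l t hkl ?_) hn ?_
  · exact (mem_roots h0).1 (by rw [hR]; exact Multiset.mem_cons_of_mem ht)
  · rintro rfl
    exact h2 ht

include hBM in
/-- the pair of sections which meets at the place -/
theorem near_pair (hS : Sys F r B G) (hB : UnitSet B v) (hc : v.valuation K c ≤ 1) {i : ι}
    {k l : κ i} (hkl : k ≠ l) {m : K[X]} (hm : IsMeetPoly (r i) G k l m)
    (hodd : Odd (log (v.valuation K (m.eval c)))) :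
    ∃ t₀ ∈ B, t₀ ∈ G ∧ P.valuation M (algebraMap K M c - lft M t₀) < 1 ∧
      P.valuation M (algebraMap K M c - lft M t₀) ≠ 0 ∧
      P.valuation M (algebraMap K M (m.eval c)) =
        P.valuation M (algebraMap K M c - lft M t₀) ∧
      ∃ (σ : AlgebraicClosure K ≃ₐ[K] AlgebraicClosure K) (k' l' : κ i), k' ≠ l' ∧
        (r i k).map (σ : AlgebraicClosure K →+* AlgebraicClosure K) = r i k' ∧
        (r i l).map (σ : AlgebraicClosure K →+* AlgebraicClosure K) = r i l' ∧
        (r i k' - r i l').eval t₀ = 0 := by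
  obtain ⟨Z, hZ, hmZ⟩ := hm
  have hZB : ∀ t ∈ Z, t ∈ B := by
    intro t ht
    obtain ⟨-, σ, hσ⟩ := (hZ t).1 ht
    obtain ⟨k', l', h1, -, -, h2⟩ := hS.mem_meet hkl σ hσ
    exact hS.root i k' l' t h1 h2
  have h1 : v.valuation K (m.eval c) ≠ 1 := by
    intro h
    rw [h, log_one] at hodd
    exact absurd hodd (by decide)
  obtain ⟨t₀, ht₀, hlt, heq⟩ := exists_near hB hc hBM P hZB hmZ h1
  obtain ⟨htG, σ, hσ⟩ := (hZ t₀).1 ht₀
  obtain ⟨k', l', h2, h3, h4, h5⟩ := hS.mem_meet hkl σ hσ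
  refine ⟨t₀, hZB t₀ ht₀, htG, hlt, ?_, heq, σ, k', l', h2, h3, h4, h5⟩
  rw [← heq, Valuation.ne_zero_iff, Ne, FaithfulSMul.algebraMap_eq_zero_iff]
  intro h6
  rw [h6, map_zero, log_zero] at hodd
  exact absurd hodd (by decide)

end up

/-- the pair of roots is a specialization of a conjugate of the pair of sections -/
def MeetPair {κ : Type} (r : κ → (AlgebraicClosure K)[X]) (G : Set (AlgebraicClosure K)) (c : K) (v : HeightOneSpectrum (𝓞 K))
    (a b : AlgebraicClosure K) : Prop :=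
  ∀ k l, k ≠ l → ∀ m, IsMeetPoly r G k l m → Odd (log (v.valuation K (m.eval c))) →
    ∃ σ : AlgebraicClosure K ≃ₐ[K] AlgebraicClosure K,
      (a = ((r k).map (σ : AlgebraicClosure K →+* AlgebraicClosure K)).eval
          (algebraMap K (AlgebraicClosure K) c) ∧
        b = ((r l).map (σ : AlgebraicClosure K →+* AlgebraicClosure K)).eval
          (algebraMap K (AlgebraicClosure K) c)) ∨
      (b = ((r k).map (σ : AlgebraicClosure K →+* AlgebraicClosure K)).eval
          (algebraMap K (AlgebraicClosure K) c) ∧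
        a = ((r l).map (σ : AlgebraicClosure K →+* AlgebraicClosure K)).eval
          (algebraMap K (AlgebraicClosure K) c))

theorem good_aux (hS : Sys F r B G) (hB : UnitSet B v) (hc : v.valuation K c ≤ 1) {i j : ι}
    (hij : i ≠ j) {k l : κ i} (hkl : k ≠ l) {m : K[X]} (hm : IsMeetPoly (r i) G k l m)
    (hodd : Odd (log (v.valuation K (m.eval c)))) : GoodAux B (spec (F j) c) v := by
  refine ⟨fun M _ _ hBM P _ u hu => ?_, fun M _ _ hBM P _ u u' hu hu' huu => ?_⟩
  · obtain ⟨k', hk'⟩ := (root_spec (hS.split j) c u).1 ((aeval_coe u _).1 hu)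
    exact sec_int hBM P hS hB hc j k' u hk'
  · obtain ⟨k', hk'⟩ := (root_spec (hS.split j) c u).1 ((aeval_coe u _).1 hu)
    obtain ⟨l', hl'⟩ := (root_spec (hS.split j) c u').1 ((aeval_coe u' _).1 hu')
    have hkl' : k' ≠ l' := by
      rintro rfl
      exact huu (Subtype.ext (hk'.trans hl'.symm))
    obtain ⟨t₀, ht₀, htG, hlt, -, -, σ, k₁, l₁, h1, -, -, h2⟩ :=
      near_pair hBM P hS hB hc hkl hm hodd
    exact sec_diff_one hBM P hS hB hc hkl' hk' hl' ht₀ hlt
      (hS.fam i j k₁ l₁ k' l' t₀ htG hij h1 hkl' h2)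

theorem node_aux (hS : Sys F r B G) (hB : UnitSet B v) (hc : v.valuation K c ≤ 1) {i : ι}
    {k l : κ i} (hkl : k ≠ l) {m : K[X]} (hm : IsMeetPoly (r i) G k l m)
    (hodd : Odd (log (v.valuation K (m.eval c)))) :
    NodeAux B (spec (F i) c) v (MeetPair (r i) G c v) := by
  refine ⟨fun M _ _ hBM P _ u hu => ?_, fun M _ _ hBM P _ hM => ?_⟩
  · obtain ⟨k', hk'⟩ := (root_spec (hS.split i) c u).1 ((aeval_coe u _).1 hu)
    exact sec_int hBM P hS hB hc i k' u hk'
  have hg : IsGalois K M := ⟨⟩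
  obtain ⟨t₀, ht₀, htG, hlt, hne0, heq, σ, k₁, l₁, h1, -, -, h2⟩ :=
    near_pair hBM P hS hB hc hkl hm hodd
  have hroot : ∀ k', aeval ((r i k').eval (algebraMap K (AlgebraicClosure K) c)) (spec (F i) c) = 0 :=
    fun k' => (root_spec (hS.split i) c _).2 ⟨k', rfl⟩
  set a : M := ⟨(r i k₁).eval (algebraMap K (AlgebraicClosure K) c), hM _ (hroot k₁)⟩ with ha
  set b : M := ⟨(r i l₁).eval (algebraMap K (AlgebraicClosure K) c), hM _ (hroot l₁)⟩ with hb
  have hab : P.valuation M (a - b) = P.valuation M (algebraMap K M c - lft M t₀) :=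
    sec_diff_near hBM P hS hB hc h1 rfl rfl ht₀ htG hlt h2
  have hne : a ≠ b := by
    intro h
    rw [h, sub_self, map_zero] at hab
    exact hne0 hab.symm
  refine ⟨a, b, (aeval_coe a _).2 (hroot k₁), (aeval_coe b _).2 (hroot l₁), hne, ?_, ?_, ?_⟩
  · -- the conjugates of the pair
    intro k' l' hkl' m' hm' hodd'
    obtain ⟨t₁, ht₁, -, hlt₁, -, -, σ', k₂, l₂, h3, h4, h5, h6⟩ :=
      near_pair hBM P hS hB hc hkl' hm' hodd'
    have ht : t₁ = t₀ := by
      by_contra h
      have h7 := near_unique hB hc hBM P ht₀ ht₁ hlt h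
      rw [h7] at hlt₁
      exact lt_irrefl _ hlt₁
    rw [ht] at h6
    refine ⟨σ', ?_⟩
    rw [h4, h5]
    rcases hS.pair i k₁ l₁ k₂ l₂ t₀ htG h1 h3 h2 h6 with ⟨rfl, rfl⟩ | ⟨rfl, rfl⟩
    · exact Or.inl ⟨rfl, rfl⟩
    · exact Or.inr ⟨rfl, rfl⟩
  · intro u u' hu hu' huu hn
    obtain ⟨k', hk'⟩ := (root_spec (hS.split i) c u).1 ((aeval_coe u _).1 hu)
    obtain ⟨l', hl'⟩ := (root_spec (hS.split i) c u').1 ((aeval_coe u' _).1 hu')
    have hkl' : k' ≠ l' := by
      rintro rfl
      exact huu (Subtype.ext (hk'.trans hl'.symm))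
    refine sec_diff_one hBM P hS hB hc hkl' hk' hl' ht₀ hlt fun h7 => hn ?_
    rcases hS.pair i k₁ l₁ k' l' t₀ htG h1 hkl' h2 h7 with ⟨rfl, rfl⟩ | ⟨rfl, rfl⟩
    · exact ⟨Or.inl (Subtype.ext hk'), Or.inr (Subtype.ext hl')⟩
    · exact ⟨Or.inr (Subtype.ext hk'), Or.inl (Subtype.ext hl')⟩
  · intro hsw _
    have htriv : ∀ s : M ≃ₐ[K] M, Inert P s → s = 1 := by
      intro s hs
      by_contra h3
      have h4 := (hsw s hs h3).1
      rw [inert_sec hBM P hS hB hs (i := i) (k := k₁) (u := a) rfl] at h4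
      exact hne h4
    rw [hab, ← heq, val_eq_of_trivial v P htriv]
    exact hodd

end place

end Pool.Agent.H852.J
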