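import Mathlib
import Pool.Agent.H852.J.K5
import Pool.Agent.H422.HE.Pow

/-!
# Families of hyperelliptic curves with branch points given by sections: finiteness
-/

set_option linter.unusedSectionVars false
set_option autoImplicit false

namespace Pool.Agent.H852.J

open Matrix Polynomial Filter Topology Module NumberField IsDedekindDomain WithZero
open Pool.Agent.Y142.ZO (GK)
open Pool.Agent.N171 Pool.Agent.N171.Al Pool.Agent.N171.Pm Pool.Agent.N171.Bg Pool.Agent.N171.TG
open Pool.Agent.Results.MP_640417_ag.HyperellipticEveryPrime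
open HeightOneSpectrum

variable {K : Type} [Field K] [NumberField K]
variable {ι : Type} {κ : ι → Type} [∀ i, Fintype (κ i)] [∀ i, DecidableEq (κ i)]
  {F : ι → K[X][X]} {r : ∀ i, κ i → (AlgebraicClosure K)[X]} {B G : Set (AlgebraicClosure K)}

theorem connects_aux (hS : Sys F r B G) {i : ι} {c : K} {T : Set (HeightOneSpectrum (𝓞 K))}
    (big : κ i → κ i → Prop) (hbig : ∀ k l, big k l → k ≠ l)
    (hconn : ∀ k l, Relation.ReflTransGen big k l)
    (hT : ∀ k l, big k l → ∃ v ∈ T, ∃ m, IsMeetPoly (r i) G k l m ∧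
      Odd (log (v.valuation K (m.eval c)))) :
    Connects (κ := T) (spec (F i) c) (fun v => MeetPair (r i) G c v) := by
  intro a b _ hQ x y
  have hm0 : spec (F i) c ≠ 0 := (monic_spec (hS.split i) c).ne_zero
  let g : κ i → (spec (F i) c).rootSet (AlgebraicClosure K) := fun k =>
    ⟨(r i k).eval (algebraMap K (AlgebraicClosure K) c),
      mem_rootSet.2 ⟨hm0, (root_spec (hS.split i) c _).2 ⟨k, rfl⟩⟩⟩
  have hg : ∀ z : (spec (F i) c).rootSet (AlgebraicClosure K), ∃ k, g k = z := by
    intro z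
    obtain ⟨k, hk⟩ := (root_spec (hS.split i) c z).1 (mem_rootSet.1 z.2).2
    exact ⟨k, Subtype.ext hk.symm⟩
  obtain ⟨k, rfl⟩ := hg x
  obtain ⟨l, rfl⟩ := hg y
  suffices hlift : ∀ k l, big k l → ConjEdge K (fun x : (spec (F i) c).rootSet
      (AlgebraicClosure K) => (x : AlgebraicClosure K)) a b (g k) (g l) by
    exact (hconn k l).lift g hlift
  clear k l
  intro k l hkl
  obtain ⟨v, hv, m, hm, hodd⟩ := hT k l hkl
  obtain ⟨σ, hσ⟩ := hQ ⟨v, hv⟩ k l (hbig k l hkl) m hm hodd
  have hev : ∀ p : (AlgebraicClosure K)[X],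
      (p.map (σ : AlgebraicClosure K →+* AlgebraicClosure K)).eval
        (algebraMap K (AlgebraicClosure K) c) =
      σ (p.eval (algebraMap K (AlgebraicClosure K) c)) := by
    intro p
    have h1 : algebraMap K (AlgebraicClosure K) c =
        (σ : AlgebraicClosure K →+* AlgebraicClosure K) (algebraMap K (AlgebraicClosure K) c) :=
      (σ.commutes c).symm
    nth_rewrite 1 [h1]
    rw [eval_map, eval₂_at_apply]
    rfl
  rw [hev, hev] at hσ
  have hinv : ∀ z w : AlgebraicClosure K, z = σ w → σ⁻¹ z = w := by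
    rintro z w rfl
    rw [← AlgEquiv.mul_apply, inv_mul_cancel, AlgEquiv.one_apply]
  refine ⟨⟨v, hv⟩, σ⁻¹, ?_⟩
  rcases hσ with ⟨h1, h2⟩ | ⟨h1, h2⟩
  · exact Or.inl ⟨hinv _ _ h1, hinv _ _ h2⟩
  · exact Or.inr ⟨hinv _ _ h2, hinv _ _ h1⟩

/-- finitely many places above a place -/
theorem places_above_finite {M : Type} [Field M] [NumberField M] [Algebra K M]
    (v : HeightOneSpectrum (𝓞 K)) :
    {P : HeightOneSpectrum (𝓞 M) | P.asIdeal.LiesOver v.asIdeal}.Finite := by
  have h1 : (Ideal.primesOver v.asIdeal (𝓞 M)).Finite :=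
    IsDedekindDomain.primesOver_finite v.asIdeal (𝓞 M)
  refine Set.Finite.of_finite_image (f := fun P : HeightOneSpectrum (𝓞 M) => P.asIdeal)
    (h1.subset ?_) ?_
  · rintro _ ⟨P, hP, rfl⟩
    exact ⟨P.isPrime, hP⟩
  · intro P _ P' _ h
    exact HeightOneSpectrum.ext h

/-- the place below -/
theorem exists_place_below {M : Type} [Field M] [NumberField M] [Algebra K M]
    (P : HeightOneSpectrum (𝓞 M)) :
    ∃ v : HeightOneSpectrum (𝓞 K), P.asIdeal.LiesOver v.asIdeal := by
  have hP : P.asIdeal.under (𝓞 K) ≠ ⊥ := by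
    intro h1
    have h2 : P.asIdeal = ⊥ := by
      have : Algebra.IsIntegral (𝓞 K) (𝓞 M) := inferInstance
      exact Ideal.eq_bot_of_comap_eq_bot h1
    exact P.ne_bot h2
  exact ⟨⟨P.asIdeal.under (𝓞 K), inferInstance, hP⟩, ⟨rfl⟩⟩

theorem val_sub_large {M : Type*} [Field M] (w : Valuation M ℤᵐ⁰) {x y : M} (hx : 1 < w x)
    (hy : w y ≤ 1) : w (x - y) = w x := by
  rw [sub_eq_add_neg, Valuation.map_add_eq_of_lt_left]
  rw [Valuation.map_neg]
  exact lt_of_le_of_lt hy hx

theorem even_val {x : ℤᵐ⁰} (hx : x ≠ 0) (h : ¬ Odd (log x)) : ∃ g : ℤᵐ⁰, g ≠ 0 ∧ x = g ^ 2 := by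
  rw [Int.not_odd_iff_even] at h
  obtain ⟨j, hj⟩ := h
  refine ⟨exp j, exp_ne_zero, ?_⟩
  rw [← exp_log hx, hj, sq, ← exp_add]

/-- **Finiteness**: Faltings' theorem for hyperelliptic curves. -/
theorem fin_pair {S' : Set (HeightOneSpectrum (𝓞 K))} (hS' : S'.Finite)
    (hBfin : B.Finite)
    (hBst : ∀ (σ : AlgebraicClosure K ≃ₐ[K] AlgebraicClosure K), ∀ x ∈ B, σ x ∈ B)
    (hun : ∀ v ∉ S', UnitSet B v) {m : K[X]} {Z : Finset (AlgebraicClosure K)}
    (hZ : ∀ t ∈ Z, t ∈ B)
    (hm : m.map (algebraMap K (AlgebraicClosure K)) = ∏ t ∈ Z, (X - C t)) (h5 : 5 ≤ Z.card) :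
    {c : K | ∀ v ∉ S', v.valuation K c ≤ 1 → ¬ Odd (log (v.valuation K (m.eval c)))}.Finite := by
  classical
  let M : IntermediateField K (AlgebraicClosure K) := IntermediateField.adjoin K B
  have hBM : ∀ x ∈ B, x ∈ M := fun x hx => IntermediateField.subset_adjoin K B hx
  have hfd : FiniteDimensional K M := by
    have := hBfin.to_subtype
    exact IntermediateField.finiteDimensional_adjoin
      fun z _ => Normal.isIntegral (F := K) inferInstance z
  have hnM : NumberField M := NumberField.of_module_finite K M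
  have hnorm : Normal K M := normal_adjoin B hBst
  have hg : IsGalois K M := ⟨⟩
  set R : Finset M := Z.image (lft M) with hR
  have hinj : Set.InjOn (lft M) (Z : Set (AlgebraicClosure K)) := by
    intro x hx y hy hxy
    rw [← lft_coe M (hBM x (hZ x hx)), hxy, lft_coe M (hBM y (hZ y hy))]
  have hcard : 5 ≤ R.card := by
    rw [hR, Finset.card_image_of_injOn hinj]
    exact h5
  set SM : Set (HeightOneSpectrum (𝓞 M)) :=
    ⋃ v ∈ S', {P : HeightOneSpectrum (𝓞 M) | P.asIdeal.LiesOver v.asIdeal} with hSM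
  have hSMfin : SM.Finite := hS'.biUnion fun v _ => places_above_finite v
  have hfin := Pool.Agent.H422.HE.pow_fin_proj M hSMfin (m := 2) (R := R)
    (Or.inr (Or.inr ⟨le_rfl, hcard⟩))
  have h1 := hfin.preimage (f := algebraMap K M) (algebraMap K M).injective.injOn
  have h2 : {c : K | algebraMap K (AlgebraicClosure K) c ∈ Z}.Finite :=
    Z.finite_toSet.preimage (f := algebraMap K (AlgebraicClosure K))
      (algebraMap K (AlgebraicClosure K)).injective.injOn
  refine (h1.union h2).subset ?_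
  intro c hc
  by_cases hcZ : algebraMap K (AlgebraicClosure K) c ∈ Z
  · exact Or.inr hcZ
  left
  rw [Set.mem_preimage, Set.mem_ofPred_eq]
  intro P hP x hx y hy
  obtain ⟨v, hv⟩ := exists_place_below (K := K) P
  have hvS : v ∉ S' := by
    intro h
    apply hP
    rw [hSM]
    simp only [Set.mem_iUnion]
    exact ⟨v, h, hv⟩
  have hB := hun v hvS
  rw [hR, Finset.mem_image] at hx hy
  obtain ⟨t, ht, rfl⟩ := hx
  obtain ⟨t', ht', rfl⟩ := hy
  rcases le_or_gt (v.valuation K c) 1 with hc1 | hc1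
  · have h0 := hc v hvS hc1
    have hne : ∀ t ∈ Z, algebraMap K M c - lft M t ≠ 0 := by
      intro t ht h
      have h3 := congrArg (fun z : M => (z : AlgebraicClosure K)) (sub_eq_zero.1 h)
      simp only [lft_coe M (hBM t (hZ t ht))] at h3
      exact hcZ (by rw [← algebraMap_coe (M := M), h3]; exact ht)
    have hm0 : m.eval c ≠ 0 := by
      intro h
      have h3 := poly_formula (P.valuation M) hm (fun t ht => hBM t (hZ t ht)) c
      rw [h, map_zero, map_zero] at h3
      have h4 := Finset.prod_ne_zero_iff.2 fun t ht =>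
        (Valuation.ne_zero_iff (P.valuation M)).2 (hne t ht)
      exact h4 h3.symm
    obtain ⟨g, hg0, hg⟩ := even_val ((Valuation.ne_zero_iff (v.valuation K)).2 hm0) h0
    have key : ∀ t ∈ Z, ∃ h : ℤᵐ⁰, h ≠ 0 ∧ P.valuation M (algebraMap K M c - lft M t) = h ^ 2 := by
      intro t ht
      rcases lt_or_eq_of_le (near_le hB hc1 hBM P (hZ t ht)) with h3 | h3
      · refine ⟨g ^ Nat.card (P.asIdeal.inertia (M ≃ₐ[K] M)), pow_ne_zero _ hg0, ?_⟩
        have h4 : P.valuation M (algebraMap K M (m.eval c)) =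
            P.valuation M (algebraMap K M c - lft M t) := by
          rw [poly_formula (P.valuation M) hm (fun t ht => hBM t (hZ t ht)) c,
            Finset.prod_eq_single t]
          · intro t' ht' hne'
            exact near_unique hB hc1 hBM P (hZ t ht) (hZ t' ht') h3 hne'
          · exact fun h => absurd ht h
        rw [← h4, val_eq_pow_card v P, hg, ← pow_mul, ← pow_mul, mul_comm]
      · exact ⟨1, one_ne_zero, by rw [one_pow, h3]⟩
    obtain ⟨h, hh0, hh⟩ := key t ht
    obtain ⟨h', hh0', hh'⟩ := key t' ht'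
    refine ⟨h / h', ?_⟩
    rw [hh, hh', div_pow, div_mul_cancel₀ _ (pow_ne_zero _ hh0')]
  · refine ⟨1, ?_⟩
    have h3 : 1 < P.valuation M (algebraMap K M c) := by
      rw [val_eq_pow_card v P]
      exact one_lt_pow₀ hc1 Nat.card_pos.ne'
    rw [val_sub_large _ h3 (lft_le hB hBM P (hZ t ht)),
      val_sub_large _ h3 (lft_le hB hBM P (hZ t' ht')), one_pow, one_mul]

end Pool.Agent.H852.J
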