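import Mathlib
import Pool.Agent.H852.J.K6

/-!
# Families of hyperelliptic curves with branch points given by sections: the theorem
-/

set_option linter.unusedSectionVars false
set_option autoImplicit false

namespace Pool.Agent.H852.J

open Matrix Polynomial Filter Topology Module NumberField IsDedekindDomain WithZero
open Pool.Agent.Y142.ZO (GK)
open Pool.Agent.N171 Pool.Agent.N171.Al Pool.Agent.N171.Pm Pool.Agent.N171.Bg Pool.Agent.N171.TG
open Pool.Agent.Results.MP_640417_ag.HyperellipticEveryPrime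
open HeightOneSpectrum

section poly

variable {E : Type*} [Field E] {n : ℕ}

theorem two_dvd {α : Type*} [DecidableEq α] {s : Finset α} {f : α → E[X]} {a b : α} (ha : a ∈ s)
    (hb : b ∈ s) (hab : a ≠ b) : f a * f b ∣ ∏ x ∈ s, f x := by
  rw [← Finset.prod_pair hab]
  refine Finset.prod_dvd_prod_of_subset _ _ _ ?_
  intro x hx
  rw [Finset.mem_insert, Finset.mem_singleton] at hx
  rcases hx with rfl | rfl
  · exact ha
  · exact hb

/-- the simple zeros -/
def simpleZeros (P : E[X]) : Set E := {t | P.eval t = 0 ∧ P.derivative.eval t ≠ 0}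

theorem no_common {p q P : E[X]} (h : p * q ∣ P) {t : E} (ht : t ∈ simpleZeros P)
    (hp : p.eval t = 0) (hq : q.eval t = 0) : False := by
  obtain ⟨R, rfl⟩ := h
  apply ht.2
  rw [derivative_mul, derivative_mul, eval_add, eval_mul, eval_mul, eval_add, eval_mul, eval_mul,
    eval_mul, hp, hq]
  ring

theorem simple_of_dvd {p P : E[X]} (h : p ∣ P) {t : E} (ht : t ∈ simpleZeros P)
    (hp : p.eval t = 0) : p.derivative.eval t ≠ 0 := by
  obtain ⟨R, rfl⟩ := h
  intro h1
  apply ht.2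
  rw [derivative_mul, eval_add, eval_mul, eval_mul, hp, h1]
  ring

/-- the product of the differences -/
noncomputable def disc {n : ℕ} (r : Fin n → E[X]) : E[X] :=
  ∏ k, ∏ l ∈ Finset.Ioi k, (r k - r l)

theorem disc_eq (r : Fin n → E[X]) : disc r =
    ∏ x ∈ (Finset.univ : Finset (Fin n)).sigma fun k => Finset.Ioi k, (r x.1 - r x.2) :=
  Finset.prod_sigma' _ _ _

theorem dvd_disc_lt (r : Fin n → E[X]) {k l : Fin n} (h : k < l) : r k - r l ∣ disc r := by
  rw [disc_eq]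
  exact Finset.dvd_prod_of_mem (fun x : Σ _ : Fin n, Fin n => r x.1 - r x.2) (a := ⟨k, l⟩)
    (by rw [Finset.mem_sigma]; exact ⟨Finset.mem_univ _, Finset.mem_Ioi.2 h⟩)

theorem dvd_disc (r : Fin n → E[X]) {k l : Fin n} (h : k ≠ l) : r k - r l ∣ disc r := by
  rcases lt_or_gt_of_ne h with h | h
  · exact dvd_disc_lt r h
  · rw [← neg_sub, neg_dvd]
    exact dvd_disc_lt r h

theorem disc_pair_lt {r : Fin n → E[X]} {k l k' l' : Fin n} (h : k < l) (h' : k' < l') {t : E}
    {P : E[X]} (hP : disc r ∣ P) (hs : t ∈ simpleZeros P) (ht : (r k - r l).eval t = 0)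
    (ht' : (r k' - r l').eval t = 0) : k = k' ∧ l = l' := by
  by_contra hne
  rw [disc_eq] at hP
  refine no_common ((two_dvd (f := fun x : Σ _ : Fin n, Fin n => r x.1 - r x.2) (a := ⟨k, l⟩)
    (b := ⟨k', l'⟩) ?_ ?_ ?_).trans hP) hs ht ht'
  · rw [Finset.mem_sigma]
    exact ⟨Finset.mem_univ _, Finset.mem_Ioi.2 h⟩
  · rw [Finset.mem_sigma]
    exact ⟨Finset.mem_univ _, Finset.mem_Ioi.2 h'⟩
  · intro h1
    rw [Sigma.mk.injEq] at h1
    exact hne ⟨h1.1, eq_of_heq h1.2⟩

theorem eval_swap {r : Fin n → E[X]} {k l : Fin n} {t : E} (ht : (r k - r l).eval t = 0) :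
    (r l - r k).eval t = 0 := by
  rw [← neg_sub, eval_neg, ht, neg_zero]

theorem disc_pair {r : Fin n → E[X]} {k l k' l' : Fin n} (h : k ≠ l) (h' : k' ≠ l') {t : E}
    {P : E[X]} (hP : disc r ∣ P) (hs : t ∈ simpleZeros P) (ht : (r k - r l).eval t = 0)
    (ht' : (r k' - r l').eval t = 0) : (k = k' ∧ l = l') ∨ (k = l' ∧ l = k') := by
  rcases lt_or_gt_of_ne h with h1 | h1 <;> rcases lt_or_gt_of_ne h' with h2 | h2
  · exact Or.inl (disc_pair_lt h1 h2 hP hs ht ht')
  · exact Or.inr (disc_pair_lt h1 h2 hP hs ht (eval_swap ht'))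
  · have h3 := disc_pair_lt h1 h2 hP hs (eval_swap ht) ht'
    exact Or.inr ⟨h3.2, h3.1⟩
  · have h3 := disc_pair_lt h1 h2 hP hs (eval_swap ht) (eval_swap ht')
    exact Or.inl ⟨h3.2, h3.1⟩

end poly

variable {K : Type} [Field K] [NumberField K]

/-- At most one pair of sections meets at the parameter `t`, and it meets transversally. -/
def OnePair {n : ℕ} {N : Fin n → ℕ} (r : ∀ i, Fin (N i) → (AlgebraicClosure K)[X])
    (t : AlgebraicClosure K) : Prop :=
  (∀ i k l, k ≠ l → (r i k - r i l).eval t = 0 → (r i k - r i l).derivative.eval t ≠ 0) ∧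
  (∀ i k l k' l', k ≠ l → k' ≠ l' → (r i k - r i l).eval t = 0 →
    (r i k' - r i l').eval t = 0 → (k = k' ∧ l = l') ∨ (k = l' ∧ l = k')) ∧
  ∀ i j k l k' l', i ≠ j → k ≠ l → k' ≠ l' → (r i k - r i l).eval t = 0 →
    (r j k' - r j l').eval t ≠ 0

theorem onePair_of_simple {n : ℕ} {N : Fin n → ℕ} {r : ∀ i, Fin (N i) → (AlgebraicClosure K)[X]}
    {t : AlgebraicClosure K} (ht : t ∈ simpleZeros (∏ i, disc (r i))) : OnePair r t := by
  classical
  have hdi : ∀ i, disc (r i) ∣ ∏ i, disc (r i) := fun i =>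
    Finset.dvd_prod_of_mem (fun i => disc (r i)) (Finset.mem_univ i)
  refine ⟨fun i k l hkl h => simple_of_dvd ((dvd_disc (r i) hkl).trans (hdi i)) ht h,
    fun i k l k' l' h h' => disc_pair h h' (hdi i) ht, ?_⟩
  intro i j k l k' l' hij h h' hi hj
  have h1 : disc (r i) * disc (r j) ∣ ∏ i, disc (r i) :=
    two_dvd (f := fun i => disc (r i)) (Finset.mem_univ i) (Finset.mem_univ j) hij
  exact no_common ((mul_dvd_mul (dvd_disc (r i) h) (dvd_disc (r j) h')).trans h1) ht hi hj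

theorem eval_conj (σ : AlgebraicClosure K ≃ₐ[K] AlgebraicClosure K) (p : (AlgebraicClosure K)[X])
    (t : AlgebraicClosure K) :
    (p.map (σ : AlgebraicClosure K →+* AlgebraicClosure K)).eval (σ t) = σ (p.eval t) := by
  have h2 : σ t = (σ : AlgebraicClosure K →+* AlgebraicClosure K) t := rfl
  rw [h2, eval_map, eval₂_at_apply]
  rfl

/-- conjugates of the sections, by the inverse -/
theorem exists_back {κ : Type} [Fintype κ] [DecidableEq κ] {F : K[X][X]}
    {r : κ → (AlgebraicClosure K)[X]}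
    (hF : F.map (mapRingHom (algebraMap K (AlgebraicClosure K))) = ∏ k, (X - C (r k)))
    (σ : AlgebraicClosure K ≃ₐ[K] AlgebraicClosure K) (k : κ) :
    ∃ l, (r l).map (σ : AlgebraicClosure K →+* AlgebraicClosure K) = r k := by
  obtain ⟨l, hl⟩ := sec_conj hF σ⁻¹ k
  refine ⟨l, ?_⟩
  rw [← hl, Polynomial.map_map]
  have h1 : (σ : AlgebraicClosure K →+* AlgebraicClosure K).comp
      ((σ⁻¹ : AlgebraicClosure K ≃ₐ[K] AlgebraicClosure K) :
        AlgebraicClosure K →+* AlgebraicClosure K) = RingHom.id _ := by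
    ext x
    change σ (σ⁻¹ x) = x
    rw [← AlgEquiv.mul_apply, mul_inv_cancel, AlgEquiv.one_apply]
  rw [h1, Polynomial.map_id]

theorem OnePair.conj {n : ℕ} {N : Fin n → ℕ} {F : Fin n → K[X][X]}
    {r : ∀ i, Fin (N i) → (AlgebraicClosure K)[X]}
    (hF : ∀ i, (F i).map (mapRingHom (algebraMap K (AlgebraicClosure K))) = ∏ k, (X - C (r i k)))
    {t : AlgebraicClosure K} (h : OnePair r t) (σ : AlgebraicClosure K ≃ₐ[K] AlgebraicClosure K) :
    OnePair r (σ t) := by
  have hmap : ∀ i k l k₁ l₁, (r i k₁).map (σ : AlgebraicClosure K →+* AlgebraicClosure K) = r i k →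
      (r i l₁).map (σ : AlgebraicClosure K →+* AlgebraicClosure K) = r i l →
      r i k - r i l = (r i k₁ - r i l₁).map (σ : AlgebraicClosure K →+* AlgebraicClosure K) := by
    intro i k l k₁ l₁ h1 h2
    rw [Polynomial.map_sub, h1, h2]
  have hb : ∀ i (k l : Fin (N i)), (r i k - r i l).eval (σ t) = 0 → ∀ k₁ l₁,
      (r i k₁).map (σ : AlgebraicClosure K →+* AlgebraicClosure K) = r i k →
      (r i l₁).map (σ : AlgebraicClosure K →+* AlgebraicClosure K) = r i l →
      (r i k₁ - r i l₁).eval t = 0 := by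
    intro i k l h3 k₁ l₁ h1 h2
    rw [hmap i k l k₁ l₁ h1 h2, eval_conj] at h3
    exact (map_eq_zero σ).1 h3
  have hneq : ∀ i (k l k₁ l₁ : Fin (N i)), k ≠ l →
      (r i k₁).map (σ : AlgebraicClosure K →+* AlgebraicClosure K) = r i k →
      (r i l₁).map (σ : AlgebraicClosure K →+* AlgebraicClosure K) = r i l → r i k ≠ r i l →
      k₁ ≠ l₁ := by
    rintro i k l k₁ _ - h1 h2 h3 rfl
    exact h3 (h1.symm.trans h2)
  have hinj : ∀ i (k l : Fin (N i)), k ≠ l → r i k ≠ r i l := by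
    intro i k l hkl h1
    exact h.1 i k l hkl (by rw [h1, sub_self, eval_zero])
      (by rw [h1, sub_self, derivative_zero, eval_zero])
  refine ⟨?_, ?_, ?_⟩
  · intro i k l hkl h3 h4
    obtain ⟨k₁, hk₁⟩ := exists_back (hF i) σ k
    obtain ⟨l₁, hl₁⟩ := exists_back (hF i) σ l
    refine h.1 i k₁ l₁ (hneq i k l k₁ l₁ hkl hk₁ hl₁ (hinj i k l hkl)) (hb i k l h3 k₁ l₁ hk₁ hl₁) ?_
    rw [hmap i k l k₁ l₁ hk₁ hl₁, derivative_map, eval_conj] at h4
    exact (map_eq_zero σ).1 h4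
  · intro i k l k' l' hkl hkl' h3 h3'
    obtain ⟨k₁, hk₁⟩ := exists_back (hF i) σ k
    obtain ⟨l₁, hl₁⟩ := exists_back (hF i) σ l
    obtain ⟨k₁', hk₁'⟩ := exists_back (hF i) σ k'
    obtain ⟨l₁', hl₁'⟩ := exists_back (hF i) σ l'
    have heq : ∀ (x y x₁ y₁ : Fin (N i)),
        (r i x₁).map (σ : AlgebraicClosure K →+* AlgebraicClosure K) = r i x →
        (r i y₁).map (σ : AlgebraicClosure K →+* AlgebraicClosure K) = r i y → x₁ = y₁ → x = y := by
      rintro x y x₁ _ h1 h2 rfl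
      by_contra h5
      exact hinj i x y h5 (h1.symm.trans h2)
    rcases h.2.1 i k₁ l₁ k₁' l₁' (hneq i k l k₁ l₁ hkl hk₁ hl₁ (hinj i k l hkl))
      (hneq i k' l' k₁' l₁' hkl' hk₁' hl₁' (hinj i k' l' hkl')) (hb i k l h3 k₁ l₁ hk₁ hl₁)
      (hb i k' l' h3' k₁' l₁' hk₁' hl₁') with ⟨h5, h6⟩ | ⟨h5, h6⟩
    · exact Or.inl ⟨heq k k' k₁ k₁' hk₁ hk₁' h5, heq l l' l₁ l₁' hl₁ hl₁' h6⟩
    · exact Or.inr ⟨heq k l' k₁ l₁' hk₁ hl₁' h5, heq l k' l₁ k₁' hl₁ hk₁' h6⟩
  · intro i j k l k' l' hij hkl hkl' h3 h3'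
    obtain ⟨k₁, hk₁⟩ := exists_back (hF i) σ k
    obtain ⟨l₁, hl₁⟩ := exists_back (hF i) σ l
    obtain ⟨k₁', hk₁'⟩ := exists_back (hF j) σ k'
    obtain ⟨l₁', hl₁'⟩ := exists_back (hF j) σ l'
    exact h.2.2 i j k₁ l₁ k₁' l₁' hij (hneq i k l k₁ l₁ hkl hk₁ hl₁ (hinj i k l hkl))
      (hneq j k' l' k₁' l₁' hkl' hk₁' hl₁' (hinj j k' l' hkl')) (hb i k l h3 k₁ l₁ hk₁ hl₁)
      (hb j k' l' h3' k₁' l₁' hk₁' hl₁')

theorem exists_sys {n : ℕ} {N : Fin n → ℕ} {F : Fin n → K[X][X]}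
    {r : ∀ i, Fin (N i) → (AlgebraicClosure K)[X]}
    (hF : ∀ i, (F i).map (mapRingHom (algebraMap K (AlgebraicClosure K))) = ∏ k, (X - C (r i k)))
    (hd : (∏ i, disc (r i)) ≠ 0) :
    ∃ B : Set (AlgebraicClosure K), Sys F r B {t | OnePair r t} := by
  classical
  have hdi : ∀ i, disc (r i) ∣ ∏ i, disc (r i) := fun i =>
    Finset.dvd_prod_of_mem (fun i => disc (r i)) (Finset.mem_univ i)
  have hne : ∀ i k l, k ≠ l → r i k - r i l ≠ 0 := fun i k l hkl h =>
    hd (eq_zero_of_zero_dvd (h ▸ (dvd_disc (r i) hkl).trans (hdi i)))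
  let B₀ : Set (AlgebraicClosure K) := {0} ∪
    (⋃ i, ⋃ k : Fin (N i), (((r i k).coeffs : Finset _) : Set (AlgebraicClosure K))) ∪
    (⋃ i, ⋃ k : Fin (N i), ⋃ l : Fin (N i), {(r i k - r i l).leadingCoeff}) ∪
    (⋃ i, ⋃ k : Fin (N i), ⋃ l : Fin (N i),
      (((r i k - r i l).roots.toFinset : Finset _) : Set (AlgebraicClosure K)))
  have hB₀ : B₀.Finite := by
    refine (((Set.finite_singleton _).union ?_).union ?_).union ?_
    · exact Set.finite_iUnion fun i => Set.finite_iUnion fun k => Finset.finite_toSet _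
    · exact Set.finite_iUnion fun i => Set.finite_iUnion fun k => Set.finite_iUnion fun l =>
        Set.finite_singleton _
    · exact Set.finite_iUnion fun i => Set.finite_iUnion fun k => Set.finite_iUnion fun l =>
        Finset.finite_toSet _
  obtain ⟨B, hBfin, hB, hBst⟩ := exists_stable hB₀
  have h0 : (0 : AlgebraicClosure K) ∈ B := hB (Or.inl (Or.inl (Or.inl rfl)))
  refine ⟨B, hF, hne, ?_, fun i k l k' l' t ht => ht.2.1 i k l k' l', fun i j k l k' l' t ht =>
    ht.2.2 i j k l k' l', hBfin, h0, ?_, ?_, ?_, hBst⟩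
  · intro i k l t ht hkl h
    have h1 : 0 < (r i k - r i l).rootMultiplicity t :=
      (rootMultiplicity_pos (hne i k l hkl)).2 h
    have h2 : ¬ 1 < (r i k - r i l).rootMultiplicity t := by
      rw [one_lt_rootMultiplicity_iff_isRoot (hne i k l hkl)]
      exact fun h3 => ht.1 i k l hkl h h3.2
    omega
  · intro i k n
    by_cases hc : (r i k).coeff n = 0
    · rw [hc]
      exact h0
    · refine hB (Or.inl (Or.inl (Or.inr ?_)))
      simp only [Set.mem_iUnion]
      exact ⟨i, k, coeff_mem_coeffs hc⟩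
  · intro i k l
    refine hB (Or.inl (Or.inr ?_))
    simp only [Set.mem_iUnion]
    exact ⟨i, k, l, rfl⟩
  · intro i k l t hkl ht
    refine hB (Or.inr ?_)
    simp only [Set.mem_iUnion]
    refine ⟨i, k, l, ?_⟩
    rw [Finset.mem_coe, Multiset.mem_toFinset, mem_roots (hne i k l hkl)]
    exact ht

theorem exists_meetPoly {n : ℕ} {N : Fin n → ℕ} {F : Fin n → K[X][X]}
    {r : ∀ i, Fin (N i) → (AlgebraicClosure K)[X]} {B : Set (AlgebraicClosure K)}
    (hS : Sys F r B {t | OnePair r t}) {i : Fin n} {k l : Fin (N i)} (hkl : k ≠ l) :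
    ∃ (m : K[X]) (Z : Finset (AlgebraicClosure K)),
      (∀ t, t ∈ Z ↔ OnePair r t ∧ ∃ σ : AlgebraicClosure K ≃ₐ[K] AlgebraicClosure K,
        ((r i k - r i l).map (σ : AlgebraicClosure K →+* AlgebraicClosure K)).eval t = 0) ∧
      m.map (algebraMap K (AlgebraicClosure K)) = ∏ t ∈ Z, (X - C t) ∧
      (∀ t ∈ Z, t ∈ B) ∧ IsMeetPoly (r i) {t | OnePair r t} k l m := by
  classical
  set U : Set (AlgebraicClosure K) := {t | OnePair r t ∧
    ∃ σ : AlgebraicClosure K ≃ₐ[K] AlgebraicClosure K,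
      ((r i k - r i l).map (σ : AlgebraicClosure K →+* AlgebraicClosure K)).eval t = 0} with hU
  have hsub : U ⊆ B := by
    rintro t ⟨-, σ, hσ⟩
    obtain ⟨k', l', h1, -, -, h2⟩ := hS.mem_meet hkl σ hσ
    exact hS.root i k' l' t h1 h2
  have hfin : U.Finite := hS.fin.subset hsub
  have hst : ∀ (σ : AlgebraicClosure K ≃ₐ[K] AlgebraicClosure K), ∀ x ∈ hfin.toFinset,
      σ x ∈ hfin.toFinset := by
    intro σ x hx
    rw [Set.Finite.mem_toFinset] at hx ⊢
    obtain ⟨hx1, σ', hσ'⟩ := hx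
    refine ⟨hx1.conj hS.split σ, σ * σ', ?_⟩
    have h1 : ((σ * σ' : AlgebraicClosure K ≃ₐ[K] AlgebraicClosure K) :
        AlgebraicClosure K →+* AlgebraicClosure K) =
        (σ : AlgebraicClosure K →+* AlgebraicClosure K).comp
          (σ' : AlgebraicClosure K →+* AlgebraicClosure K) := rfl
    rw [h1, ← Polynomial.map_map, eval_conj, hσ', map_zero]
  obtain ⟨m, hm⟩ := exists_poly hst
  have hZ : ∀ t, t ∈ hfin.toFinset ↔ OnePair r t ∧
      ∃ σ : AlgebraicClosure K ≃ₐ[K] AlgebraicClosure K,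
        ((r i k - r i l).map (σ : AlgebraicClosure K →+* AlgebraicClosure K)).eval t = 0 := by
    intro t
    rw [Set.Finite.mem_toFinset]
    exact Iff.rfl
  refine ⟨m, hfin.toFinset, hZ, hm, ?_, hfin.toFinset, hZ, hm⟩
  intro t ht
  rw [Set.Finite.mem_toFinset] at ht
  exact hsub ht

/-- the simple zeros of the product of all differences at which some conjugate of the pair meets -/
def meetings {n : ℕ} {N : Fin n → ℕ} (r : ∀ i, Fin (N i) → (AlgebraicClosure K)[X]) (i : Fin n)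
    (k l : Fin (N i)) : Set (AlgebraicClosure K) :=
  {t | t ∈ simpleZeros (∏ i, disc (r i)) ∧ ∃ σ : AlgebraicClosure K ≃ₐ[K] AlgebraicClosure K,
    ((r i k - r i l).map (σ : AlgebraicClosure K →+* AlgebraicClosure K)).eval t = 0}

/-- **All but finitely many members of the families.** -/
theorem family_finite {n : ℕ} [NeZero n] {N : Fin n → ℕ} {F : Fin n → K[X][X]}
    {r : ∀ i, Fin (N i) → (AlgebraicClosure K)[X]} (hodd : ∀ i, Odd (N i)) (h3 : ∀ i, 3 ≤ N i)
    (hF : ∀ i, (F i).map (mapRingHom (algebraMap K (AlgebraicClosure K))) = ∏ k, (X - C (r i k)))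
    (hconn : ∀ i (k l : Fin (N i)), Relation.ReflTransGen
      (fun k l => k ≠ l ∧ 5 ≤ (meetings (K := K) r i k l).ncard) k l)
    {S : Set (HeightOneSpectrum (𝓞 K))} (hS : S.Finite) :
    {c : K | ¬ ∀ (d : ℕ) (τ : AbsoluteGaloisGroup K →* Matrix (Fin d) (Fin d) ℚ_[2]), IsLattice τ →
      (∀ v ∉ S, (2 : 𝓞 K) ∉ v.asIdeal → Unramified τ v) →
      EveryPrime (fun i => spec (F i) c) τ}.Finite := by
  classical
  have hd : (∏ i, disc (r i)) ≠ 0 := by
    intro h0
    have h1 : ∀ i (k l : Fin (N i)), meetings (K := K) r i k l = ∅ := by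
      intro i k l
      ext t
      refine ⟨fun ht => ?_, fun ht => absurd ht (Set.notMem_empty t)⟩
      have h2 := ht.1.2
      rw [h0, derivative_zero, eval_zero] at h2
      exact absurd rfl h2
    have h2 := hconn 0 ⟨0, by have := h3 0; omega⟩ ⟨1, by have := h3 0; omega⟩
    rcases Relation.ReflTransGen.cases_head h2 with h4 | ⟨x, h4, -⟩
    · have h5 := congrArg Fin.val h4
      exact absurd h5 (by norm_num)
    · rw [h1, Set.ncard_empty] at h4
      exact absurd h4.2 (by norm_num)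
  obtain ⟨B, hsys⟩ := exists_sys hF hd
  set S' : Set (HeightOneSpectrum (𝓞 K)) := S ∪ {v | (2 : 𝓞 K) ∈ v.asIdeal} ∪
    {v | ¬ UnitSet B v} with hS'
  have h2fin : {v : HeightOneSpectrum (𝓞 K) | (2 : 𝓞 K) ∈ v.asIdeal}.Finite := by
    refine (Pool.Agent.H422.HE.finite_unit (2 : K) two_ne_zero).subset ?_
    intro v hv h
    have h1 : v.valuation K (algebraMap (𝓞 K) K 2) < 1 := (v.valuation_lt_one_iff_mem 2).2 hv
    rw [map_ofNat, h] at h1
    exact lt_irrefl _ h1
  have hS'fin : S'.Finite := (hS.union h2fin).union (unitSet_finite hsys.fin)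
  have hun : ∀ v ∉ S', UnitSet B v := by
    intro v hv
    by_contra h
    exact hv (Or.inr h)
  choose! m Z hZ hmZ hZB hmeet using fun (i : Fin n) (k l : Fin (N i)) (hkl : k ≠ l) =>
    exists_meetPoly hsys hkl
  have hE : ∀ i (k l : Fin (N i)), k ≠ l → 5 ≤ (meetings (K := K) r i k l).ncard →
      {c : K | ∀ v ∉ S', v.valuation K c ≤ 1 →
        ¬ Odd (log (v.valuation K ((m i k l).eval c)))}.Finite := by
    intro i k l hkl h
    refine fin_pair hS'fin hsys.fin hsys.stable hun (hZB i k l hkl) (hmZ i k l hkl) ?_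
    refine h.trans ?_
    rw [← Set.ncard_coe_finset]
    refine Set.ncard_le_ncard (fun t ht => ?_) (Finset.finite_toSet _)
    rw [Finset.mem_coe, hZ i k l hkl]
    exact ⟨onePair_of_simple ht.1, ht.2⟩
  have hE2 : (⋃ i, ⋃ k : Fin (N i), ⋃ l : Fin (N i), {c : K |
      (k ≠ l ∧ 5 ≤ (meetings (K := K) r i k l).ncard) ∧ ∀ v ∉ S', v.valuation K c ≤ 1 →
        ¬ Odd (log (v.valuation K ((m i k l).eval c)))}).Finite := by
    refine Set.finite_iUnion fun i => Set.finite_iUnion fun k => Set.finite_iUnion fun l => ?_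
    by_cases h : k ≠ l ∧ 5 ≤ (meetings (K := K) r i k l).ncard
    · exact (hE i k l h.1 h.2).subset fun c hc => hc.2
    · have h1 : {c : K | (k ≠ l ∧ 5 ≤ (meetings (K := K) r i k l).ncard) ∧
          ∀ v ∉ S', v.valuation K c ≤ 1 →
          ¬ Odd (log (v.valuation K ((m i k l).eval c)))} = ∅ := by
        ext c
        exact ⟨fun hc => absurd hc.1 h, fun hc => absurd hc (Set.notMem_empty c)⟩
      rw [h1]
      exact Set.finite_empty
  have hE3 : {c : K | algebraMap K (AlgebraicClosure K) c ∈ B}.Finite :=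
    hsys.fin.preimage (f := algebraMap K (AlgebraicClosure K))
      (algebraMap K (AlgebraicClosure K)).injective.injOn
  refine (hE2.union hE3).subset ?_
  intro c hc
  by_contra hcon
  rw [Set.mem_union, not_or] at hcon
  obtain ⟨hc1, hc2⟩ := hcon
  apply hc
  intro d τ hτ hunr
  have hex : ∀ i (k l : Fin (N i)), (k ≠ l ∧ 5 ≤ (meetings (K := K) r i k l).ncard) →
      ∃ v ∉ S', v.valuation K c ≤ 1 ∧ Odd (log (v.valuation K ((m i k l).eval c))) := by
    intro i k l h
    by_contra h1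
    apply hc1
    simp only [Set.mem_iUnion]
    refine ⟨i, k, l, h, fun v hv hvc hodd => h1 ⟨v, hv, hvc, hodd⟩⟩
  have hf : ∀ i, HypP (spec (F i) c) := by
    intro i
    refine ⟨monic_spec (hF i) c, separable_spec (hF i) c fun k l hkl h => hc2 ?_, ?_, two_ne_zero⟩
    · exact hsys.root i k l _ hkl h
    · rw [natDegree_spec (hF i), Fintype.card_fin]
      exact hodd i
  let Nd : Fin n → Set (HeightOneSpectrum (𝓞 K)) := fun i =>
    {v | v ∉ S' ∧ v.valuation K c ≤ 1 ∧ ∃ k l : Fin (N i), k ≠ l ∧ ∃ m,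
      IsMeetPoly (r i) {t | OnePair r t} k l m ∧ Odd (log (v.valuation K (m.eval c)))}
  have hconn' : ∀ i, Connects (κ := Nd i) (spec (F i) c)
      (fun v => MeetPair (r i) {t | OnePair r t} c v) := by
    intro i
    refine connects_aux hsys (fun k l => k ≠ l ∧ 5 ≤ (meetings (K := K) r i k l).ncard)
      (fun k l h => h.1) (hconn i) fun k l hkl => ?_
    obtain ⟨v, hv, hvc, hvo⟩ := hex i k l hkl
    exact ⟨v, ⟨hv, hvc, k, l, hkl.1, m i k l, hmeet i k l hkl.1, hvo⟩, m i k l, hmeet i k l hkl.1,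
      hvo⟩
  refine master_aux hsys.fin hsys.stable (fun i => spec (F i) c) hf (fun i => ?_)
    (fun i : Fin n => (i : ℕ)) Fin.val_injective Nd
    (fun i v => MeetPair (r i) {t | OnePair r t} c v)
    (fun i v hv h2 => hv.1 (Or.inl (Or.inr h2))) (fun i v hv => hun v hv.1) (fun i v hv => ?_)
    (fun i j hij => ⟨Nd i, subset_rfl, fun v hv => ?_, hconn' i⟩) τ hτ
    (fun i => ⟨Nd i, subset_rfl, fun v hv => ?_, hconn' i⟩)
  · rw [natDegree_spec (hF i), Fintype.card_fin]
    exact h3 i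
  · obtain ⟨hv, hvc, k, l, hkl, m', hm', hvo⟩ := hv
    exact node_aux hsys (hun v hv) hvc hkl hm' hvo
  · obtain ⟨hv, hvc, k, l, hkl, m', hm', hvo⟩ := hv
    refine good_aux hsys (hun v hv) hvc (fun h => ?_) hkl hm' hvo
    rw [h] at hij
    exact lt_irrefl _ hij
  · exact hunr v (fun h => hv.1 (Or.inl (Or.inl h))) (fun h => hv.1 (Or.inl (Or.inr h)))

end Pool.Agent.H852.J
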