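import Mathlib
import Pool.Agent.H852.J.C5

/-!
# Multiple transitivity from Frobenius elements
-/

set_option linter.unusedSectionVars false
set_option autoImplicit false

open Polynomial Module NumberField IsDedekindDomain
open HeightOneSpectrum

namespace Pool.Agent.H852.J

noncomputable section

section cert

variable {p : ℕ} [Fact p.Prime] {k : ℕ} {f : ℤ[X]}

/-- modulo `p` the polynomial `f` is the product of an irreducible polynomial `Q` and `k` different linear
factors -/
structure CertT (p : ℕ) [Fact p.Prime] (f : ℤ[X]) (k : ℕ) (r : Fin k → ZMod p) (Q : (ZMod p)[X]) :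
    Prop where
  inj : Function.Injective r
  fac : f.map (Int.castRingHom (ZMod p)) = (∏ i, (X - C (r i))) * Q
  irr : Irreducible Q
  ne : ∀ i, Q.eval (r i) ≠ 0

theorem CertT.sep {r : Fin k → ZMod p} {Q : (ZMod p)[X]} (h : CertT p f k r Q) :
    (f.map (Int.castRingHom (ZMod p))).Separable := by
  rw [h.fac]
  refine Separable.mul ?_ (PerfectField.separable_of_irreducible h.irr) ?_
  · exact separable_prod_X_sub_C_iff.2 h.inj
  · refine IsCoprime.prod_left fun i _ => ?_
    rw [(irreducible_X_sub_C (r i)).coprime_iff_not_dvd, dvd_iff_isRoot]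
    exact h.ne i

theorem CertT.root {r : Fin k → ZMod p} {Q : (ZMod p)[X]} (h : CertT p f k r Q) (i : Fin k) :
    evZ (r i) f = 0 := by
  rw [evZ_eq_eval, h.fac, eval_mul, eval_prod, Finset.prod_eq_zero (Finset.mem_univ i), zero_mul]
  rw [eval_sub, eval_X, eval_C, sub_self]

end cert

variable {K : Type} [Field K] [NumberField K] {f : ℤ[X]}

/-- the Galois group acts `k`-transitively on the roots of `f` -/
def KT (K : Type) [Field K] (f : ℤ[X]) (k : ℕ) : Prop :=
  ∀ u u' : Fin k → AlgebraicClosure K, Function.Injective u → Function.Injective u' →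
    (∀ i, evZ (u i) f = 0) → (∀ i, evZ (u' i) f = 0) →
    ∃ s : AlgebraicClosure K ≃ₐ[K] AlgebraicClosure K, ∀ i, s (u i) = u' i

theorem kt_zero : KT K f 0 := fun _ _ _ _ _ _ => ⟨AlgEquiv.refl, fun i => i.elim0⟩

theorem gal_evZ (s : AlgebraicClosure K ≃ₐ[K] AlgebraicClosure K) {x : AlgebraicClosure K}
    (hx : evZ x f = 0) : evZ (s x) f = 0 := by
  have h1 := hom_evZ (s : AlgebraicClosure K →+* AlgebraicClosure K) f x
  rw [hx, map_zero] at h1
  exact h1.symm

/-- the splitting field -/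
theorem exists_splitZ (K : Type) [Field K] [NumberField K] (f : ℤ[X]) (hf : f ≠ 0) :
    ∃ (M : IntermediateField K (AlgebraicClosure K))
    (_ : NumberField M), Normal K M ∧ ∀ x : AlgebraicClosure K, evZ x f = 0 → x ∈ M := by
  classical
  let R : Set (AlgebraicClosure K) := {z | evZ z f = 0}
  have hf' : f.map (Int.castRingHom (AlgebraicClosure K)) ≠ 0 :=
    (Polynomial.map_ne_zero_iff Int.cast_injective).2 hf
  have hRfin : R.Finite := by
    have h1 : R ⊆ ((f.map (Int.castRingHom (AlgebraicClosure K))).roots.toFinset : Set _) := by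
      intro z hz
      rw [Finset.mem_coe, Multiset.mem_toFinset, mem_roots hf', IsRoot.def, ← evZ_eq_eval]
      exact hz
    exact (Finset.finite_toSet _).subset h1
  have hRst : ∀ (σ : AlgebraicClosure K ≃ₐ[K] AlgebraicClosure K), ∀ x ∈ R, σ x ∈ R :=
    fun σ x hx => gal_evZ σ hx
  have hfdR : FiniteDimensional K (IntermediateField.adjoin K R) := by
    have := hRfin.to_subtype
    exact IntermediateField.finiteDimensional_adjoin
      fun z _ => Normal.isIntegral (F := K) inferInstance z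
  exact ⟨IntermediateField.adjoin K R, NumberField.of_module_finite K _, normal_adjoin R hRst,
    fun x hx => IntermediateField.subset_adjoin K R hx⟩

theorem evZ_int_of {M : Type} [Field M] (hm : f.Monic) {u : M} (hu : evZ u f = 0) :
    IsIntegral ℤ u := ⟨f, hm, hu⟩

/-- **The step from `k`-transitivity to `k + 1`-transitivity.** -/
theorem kt_step (hm : f.Monic) {p : ℕ} [Fact p.Prime] (φ : 𝓞 K →+* ZMod p) {k : ℕ}
    {r : Fin k → ZMod p} {Q : (ZMod p)[X]} (hc : CertT p f k r Q) (ih : KT K f k) :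
    KT K f (k + 1) := by
  intro u u' hu hu' hr hr'
  obtain ⟨M, hnf, hnorm, hM⟩ := exists_splitZ K f hm.ne_zero
  obtain ⟨π, σ, hσ⟩ := exists_frob M φ
  -- simple roots
  have hsimple : ∀ y : AlgebraicClosure (ZMod p), evZ y f = 0 → evZ y (derivative f) ≠ 0 := by
    intro y hy
    rw [← aeval_map_evZ (K := ZMod p)] at hy
    have h1 := hc.sep.aeval_derivative_ne_zero hy
    rwa [derivative_map, aeval_map_evZ] at h1
  have hπ0 : ∀ x : 𝓞 M, evZ x f = 0 → evZ (π x) f = 0 := by
    intro x hx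
    rw [← hom_evZ, hx, map_zero]
  -- the fixed points
  have hlift : ∀ i, ∃ ρ : 𝓞 M, evZ ρ f = 0 ∧
      π ρ = algebraMap (ZMod p) (AlgebraicClosure (ZMod p)) (r i) := by
    intro i
    obtain ⟨x, hx1, hx2⟩ := exists_lift_root M (A := f.map (Int.castRingHom (𝓞 M)))
      (hm.map _) (fun x hx => by
        refine hM x ?_
        rw [eval₂_map] at hx
        rw [evZ, ← hx]
        congr 1) π (y := algebraMap (ZMod p) (AlgebraicClosure (ZMod p)) (r i)) (by
        have h1 := hom_evZ (algebraMap (ZMod p) (AlgebraicClosure (ZMod p))) f (r i)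
        rw [hc.root, map_zero, evZ_eq_eval] at h1
        rw [Polynomial.map_map, h1]
        congr 2
        exact RingHom.ext_int _ _)
    rw [← evZ_eq_eval] at hx1
    exact ⟨x, hx1, hx2⟩
  choose ρ hρ hρr using hlift
  have huniq : ∀ x y : 𝓞 M, evZ x f = 0 → evZ y f = 0 → π x = π y → x = y := by
    intro x y hx hy hxy
    exact evZ_unique π f (hx.trans hy.symm) hxy (hsimple _ (hπ0 x hx))
  have hfix : ∀ i, σ • ρ i = ρ i := by
    intro i
    refine huniq _ _ ?_ (hρ i) ?_
    · rw [← smul_evZ, hρ, smul_zero]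
    · rw [hσ, hρr, ← map_pow, ZMod.pow_card]
  have hfixj : ∀ i (j : ℕ), σ ^ j • ρ i = ρ i := by
    intro i j
    induction j with
    | zero => rw [pow_zero, one_smul]
    | succ j ih => rw [pow_succ, mul_smul, hfix, ih]
  have hroot0 : ∀ x : 𝓞 M, evZ x f = 0 → evZ (ioK M x) f = 0 := by
    intro x hx
    rw [← hom_evZ, hx, map_zero]
  have hint : ∀ x : AlgebraicClosure K, evZ x f = 0 → ∃ z : 𝓞 M, ioK M z = x ∧ evZ z f = 0 := by
    intro x hx
    have h2 := hM _ hx
    have h3 : evZ (⟨x, h2⟩ : M) f = 0 := by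
      apply (algebraMap M (AlgebraicClosure K)).injective
      rw [map_zero, hom_evZ]
      exact hx
    refine ⟨⟨⟨x, h2⟩, evZ_int_of hm h3⟩, rfl, ?_⟩
    apply RingOfIntegers.ext
    have h4 := hom_evZ (algebraMap (𝓞 M) M) f ⟨⟨x, h2⟩, evZ_int_of hm h3⟩
    exact (h4.trans h3).trans (map_zero (algebraMap (𝓞 M) M)).symm
  have hinjρ : Function.Injective fun i => ioK M (ρ i) := by
    intro i j hij
    have h1 := ioK_inj M hij
    apply hc.inj
    apply (algebraMap (ZMod p) (AlgebraicClosure (ZMod p))).injective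
    rw [← hρr, ← hρr, h1]
  -- the last points
  have key : ∀ u : Fin (k + 1) → AlgebraicClosure K, Function.Injective u →
      (∀ i, evZ (u i) f = 0) → ∃ (s : AlgebraicClosure K ≃ₐ[K] AlgebraicClosure K) (z : 𝓞 M),
        (∀ i : Fin k, s (u i.castSucc) = ioK M (ρ i)) ∧ s (u (Fin.last k)) = ioK M z ∧
        evZ z f = 0 ∧ aeval (π z) Q = 0 := by
    intro u hu hr
    obtain ⟨s, hs⟩ := ih (fun i => u i.castSucc) (fun i => ioK M (ρ i))
      (fun i j hij => Fin.castSucc_injective k (hu hij)) hinjρ (fun i => hr _)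
      (fun i => hroot0 _ (hρ i))
    have h1 := gal_evZ s (hr (Fin.last k))
    obtain ⟨z, hzz, hz⟩ := hint _ h1
    refine ⟨s, z, hs, hzz.symm, hz, ?_⟩
    have h4 := hπ0 z hz
    rw [← aeval_map_evZ (K := ZMod p), hc.fac, map_mul, mul_eq_zero] at h4
    refine h4.resolve_left fun h5 => ?_
    rw [map_prod, Finset.prod_eq_zero_iff] at h5
    obtain ⟨i, -, h6⟩ := h5
    rw [map_sub, aeval_X, aeval_C, sub_eq_zero, ← hρr] at h6
    have h7 := huniq _ _ hz (hρ i) h6
    have h8 : s (u (Fin.last k)) = s (u i.castSucc) := by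
      rw [hs i, ← h7, hzz]
    have h9 := hu (s.injective h8)
    exact (Fin.castSucc_lt_last i).ne' h9
  obtain ⟨s, z, hs, hsz, hz, hzQ⟩ := key u hu hr
  obtain ⟨s', z', hs', hsz', hz', hzQ'⟩ := key u' hu' hr'
  obtain ⟨j, hj⟩ := frob_transitive hc.irr hzQ hzQ'
  have hjz : σ ^ j • z = z' := by
    refine huniq _ _ ?_ hz' ?_
    · rw [← smul_evZ, hz, smul_zero]
    · rw [frob_iter hσ, hj]
  refine ⟨(s.trans ((σ ^ j).liftNormal (AlgebraicClosure K))).trans s'.symm, fun i => ?_⟩
  refine Fin.lastCases ?_ (fun i => ?_) i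
  · rw [AlgEquiv.trans_apply, AlgEquiv.trans_apply, hsz, lift_ioK, hjz, ← hsz',
      AlgEquiv.symm_apply_apply]
  · rw [AlgEquiv.trans_apply, AlgEquiv.trans_apply, hs, lift_ioK, hfixj, ← hs',
      AlgEquiv.symm_apply_apply]

end

end Pool.Agent.H852.J
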