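import Mathlib
import Pool.Agent.H852.J.L1
import Pool.Agent.H852.J.P5

/-!
# One node modulo a prime number
-/

set_option linter.unusedSectionVars false
set_option autoImplicit false

open Polynomial Module NumberField IsDedekindDomain
open HeightOneSpectrum WithZero

namespace Pool.Agent.H852.J

noncomputable section

/-- the conditions at a prime number: exactly one node, with a smooth total space -/
structure LocN (p : ℕ) [Fact p.Prime] (f : ℤ[X]) (γ : ℤ) : Prop where
  crit : (p : ℤ) ∣ (derivative f).eval γ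
  simple : ¬ (p : ℤ) ∣ (derivative (derivative f)).eval γ
  zero : (p : ℤ) ∣ f.eval γ
  sq : ¬ (p : ℤ) ^ 2 ∣ f.eval γ
  only : ∀ y : AlgebraicClosure (ZMod p), evZ y (derivative f) = 0 → evZ y f = 0 →
    y = (γ : AlgebraicClosure (ZMod p))

/-- a place above `p`, without ramification -/
structure PlaceP {K : Type} [Field K] [NumberField K] (p : ℕ) (v : HeightOneSpectrum (𝓞 K)) :
    Prop where
  val : v.valuation K (p : K) = exp (-1 : ℤ)
  one : ∀ m : ℤ, ¬ (p : ℤ) ∣ m → v.valuation K (m : K) = 1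
  mem : ∀ m : ℤ, ¬ (p : ℤ) ∣ m → (m : 𝓞 K) ∉ v.asIdeal

section place

variable {K : Type} [Field K] [NumberField K] {p : ℕ} {v : HeightOneSpectrum (𝓞 K)}

theorem PlaceP.p_mem (hv : PlaceP p v) : (p : 𝓞 K) ∈ v.asIdeal := by
  refine (v.valuation_lt_one_iff_mem (K := K) _).1 ?_
  have h1 : algebraMap (𝓞 K) K (p : 𝓞 K) = (p : K) := map_natCast (algebraMap (𝓞 K) K) p
  change v.valuation K (algebraMap (𝓞 K) K (p : 𝓞 K)) < 1
  rw [h1, hv.val, ← exp_zero, exp_lt_exp]
  norm_num

theorem PlaceP.residue [Fact p.Prime] (hv : PlaceP p v)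
    {M : IntermediateField K (AlgebraicClosure K)}
    [NumberField M] (P : HeightOneSpectrum (𝓞 M)) [P.asIdeal.LiesOver v.asIdeal] :
    ∃ π : 𝓞 M →+* AlgebraicClosure (ZMod p), ∀ x, π x = 0 ↔ x ∈ P.asIdeal := by
  have hfin : Finite (𝓞 M ⧸ P.asIdeal) := Ideal.finiteQuotientOfFreeOfNeBot _ P.ne_bot
  refine exists_residue p (𝓞 M) P.asIdeal (P.isPrime.isMaximal P.ne_bot) hfin ?_
  have h1 : (p : 𝓞 K) ∈ P.asIdeal.under (𝓞 K) := by
    rw [← Ideal.LiesOver.over (p := v.asIdeal) (P := P.asIdeal)]
    exact hv.p_mem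
  rw [Ideal.mem_comap, map_natCast] at h1
  exact h1

/-- the parity of the valuation of the difference of two colliding roots -/
theorem PlaceP.odd_log (hv : PlaceP p v) {M : IntermediateField K (AlgebraicClosure K)}
    [NumberField M] [Normal K M] (P : HeightOneSpectrum (𝓞 M)) [P.asIdeal.LiesOver v.asIdeal]
    {a b : M} (h : P.valuation M (a - b) ^ 2 = P.valuation M (p : M))
    (huniq : ∀ s s' : M ≃ₐ[K] M, Inert P s → Inert P s' → s ≠ 1 → s' ≠ 1 → s = s') :
    Odd (log (P.valuation M (a - b))) := by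
  have hg : IsGalois K M := ⟨⟩
  have h1 := val_eq_pow_card v P (p : K)
  rw [map_natCast, hv.val] at h1
  rw [h1] at h
  by_cases htriv : ∀ s : M ≃ₐ[K] M, Inert P s → s = 1
  · have h2 : P.asIdeal.inertia (M ≃ₐ[K] M) = ⊥ := by
      rw [eq_bot_iff]
      intro s hs
      exact htriv s hs
    rw [h2, Subgroup.card_bot, pow_one] at h
    have h4 := congrArg log h
    rw [log_pow, log_exp] at h4
    simp at h4
    omega
  · push Not at htriv
    obtain ⟨s, hs, hs1⟩ := htriv
    have h2 : Nat.card (P.asIdeal.inertia (M ≃ₐ[K] M)) = 2 := by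
      have h3 : (P.asIdeal.inertia (M ≃ₐ[K] M) : Set (M ≃ₐ[K] M)) = {1, s} := by
        ext s'
        constructor
        · intro hs'
          by_cases h4 : s' = 1
          · exact Or.inl h4
          · exact Or.inr (huniq s' s hs' hs h4 hs1)
        · rintro (rfl | rfl)
          · exact Subgroup.one_mem _
          · exact hs
      have h4 : Nat.card (P.asIdeal.inertia (M ≃ₐ[K] M)) =
          (P.asIdeal.inertia (M ≃ₐ[K] M) : Set (M ≃ₐ[K] M)).ncard := rfl
      rw [h4, h3, Set.ncard_pair (Ne.symm hs1)]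
    rw [h2] at h
    have h4 := congrArg log h
    rw [log_pow, log_pow, log_exp] at h4
    simp at h4
    have h5 : log (P.valuation M (a - b)) = -1 := by omega
    rw [h5]
    exact ⟨-1, by norm_num⟩

end place

section node

variable {K : Type} [Field K] [NumberField K] {p : ℕ} [Fact p.Prime] {f : ℤ[X]}

theorem sep_nodup {M : Type} [Field M] [Algebra K M]
    (hsep : (f.map (Int.castRingHom K)).Separable) :
    (f.map (Int.castRingHom M)).roots.Nodup := by
  have h1 := hsep.map (f := algebraMap K M)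
  rw [Polynomial.map_map] at h1
  have h2 : (algebraMap K M).comp (Int.castRingHom K) = Int.castRingHom M := RingHom.ext_int _ _
  rw [h2] at h1
  exact nodup_roots h1

/-- the roots in the field `M`, all roots -/
theorem splits_in (M : IntermediateField K (AlgebraicClosure K))
    (hM : ∀ x : AlgebraicClosure K, evZ x f = 0 → x ∈ M) :
    (f.map (Int.castRingHom M)).Splits := by
  refine Splits.of_splits_map (algebraMap M (AlgebraicClosure K)) (IsAlgClosed.splits _)
      fun a ha => ?_
  refine ⟨⟨a, hM a ?_⟩, rfl⟩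
  have h4 := (mem_roots'.1 ha).2
  rw [Polynomial.map_map, IsRoot.def] at h4
  rw [evZ_eq_eval, ← h4]
  congr 2

/-- **The two roots which collide.** -/
theorem node_loc (hm : f.Monic) (hsep : (f.map (Int.castRingHom K)).Separable) (hp2 : p ≠ 2)
    {γ : ℤ} (hl : LocN p f γ) {v : HeightOneSpectrum (𝓞 K)} (hv : PlaceP p v)
    (M : IntermediateField K (AlgebraicClosure K)) [NumberField M] [Normal K M]
    (P : HeightOneSpectrum (𝓞 M)) [P.asIdeal.LiesOver v.asIdeal]
    (hM : ∀ x : AlgebraicClosure K, evZ x f = 0 → x ∈ M) :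
    ∃ a b : M, evZ a f = 0 ∧ evZ b f = 0 ∧ a ≠ b ∧ P.valuation M (a - (γ : M)) < 1 ∧
      P.valuation M (b - (γ : M)) < 1 ∧
      (∀ u u' : M, evZ u f = 0 → evZ u' f = 0 → u ≠ u' →
        ¬ ((u = a ∨ u = b) ∧ (u' = a ∨ u' = b)) → P.valuation M (u - u') = 1) ∧
      P.valuation M (a - b) ^ 2 = P.valuation M (p : M) := by
  classical
  have hg : IsGalois K M := ⟨⟩
  have hpp : p.Prime := Fact.out
  have h2p : ¬ (p : ℤ) ∣ 2 := by
    intro h1
    have h3 : p ∣ 2 := by exact_mod_cast h1
    exact hp2 ((Nat.prime_dvd_prime_iff_eq hpp Nat.prime_two).1 h3)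
  obtain ⟨π, hπ⟩ := hv.residue P
  set w := P.valuation M with hw
  have hlt : ∀ x : 𝓞 M, w (x : M) < 1 ↔ x ∈ P.asIdeal := fun x => P.valuation_lt_one_iff_mem x
  have hone : ∀ x : 𝓞 M, x ∉ P.asIdeal → w (x : M) = 1 := fun x hx =>
    le_antisymm (P.valuation_le_one x) (not_lt.1 fun h1 => hx ((hlt x).1 h1))
  have hint1 : ∀ x : 𝓞 M, w (x : M) ≤ 1 := fun x => P.valuation_le_one x
  have hint : ∀ u : M, evZ u f = 0 → ∃ x : 𝓞 M, (x : M) = u ∧ evZ x f = 0 := by
    intro u hu
    refine ⟨⟨u, evZ_int_of hm hu⟩, rfl, ?_⟩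
    apply RingOfIntegers.ext
    have h4 := hom_evZ (algebraMap (𝓞 M) M) f ⟨u, evZ_int_of hm hu⟩
    exact (h4.trans hu).trans (map_zero (algebraMap (𝓞 M) M)).symm
  have hZ : ∀ m : ℤ, w (m : M) ≤ 1 := by
    intro m
    have h1 := hint1 (m : 𝓞 M)
    have h3 : ((m : 𝓞 M) : M) = (m : M) := map_intCast (algebraMap (𝓞 M) M) m
    rwa [h3] at h1
  have hZ1 : ∀ m : ℤ, ¬ (p : ℤ) ∣ m → w (m : M) = 1 := by
    intro m hpm
    have h1 := val_up_one v P (hv.one m hpm)
    rwa [map_intCast] at h1
  -- the value at the critical point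
  set c : ℤ := f.eval γ with hc
  have hvc : v.valuation K (c : K) = v.valuation K (p : K) := by
    obtain ⟨c', hc'⟩ := hl.zero
    have h1 : ¬ (p : ℤ) ∣ c' := by
      rintro ⟨e, he⟩
      refine hl.sq ⟨e, ?_⟩
      rw [hc', he]
      ring
    rw [← hc] at hc'
    rw [hc']
    push_cast
    rw [map_mul, hv.one c' h1, mul_one]
  have hwc : w (c : M) = w (p : M) := by
    have h1 := val_eq_pow_card v P (c : K)
    have h3 := val_eq_pow_card v P (p : K)
    rw [hvc, ← h3, map_intCast, map_natCast] at h1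
    exact h1
  have hc0 : (c : M) ≠ 0 := by
    have h1 : (c : K) ≠ 0 := by
      rw [← Valuation.ne_zero_iff (v.valuation K), hvc, hv.val]
      exact exp_ne_zero
    have h3 : c ≠ 0 := by exact_mod_cast h1
    exact_mod_cast h3
  have hwp : w (p : M) < 1 := by
    have h3 := val_eq_pow_card v P (p : K)
    rw [map_natCast] at h3
    rw [hw, h3, hv.val]
    refine pow_lt_one₀ zero_le ?_ Nat.card_pos.ne'
    rw [← exp_zero, exp_lt_exp]
    norm_num
  have hdvd : ∀ m : ℤ, (p : ℤ) ∣ m → w (m : M) ≤ w (p : M) := by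
    rintro _ ⟨r, rfl⟩
    push_cast
    rw [map_mul]
    exact mul_le_of_le_one_right' (hZ r)
  -- the roots
  let T := {x : M // x ∈ (f.map (Int.castRingHom M)).roots.toFinset}
  have hfM : f.map (Int.castRingHom M) ≠ 0 := (hm.map _).ne_zero
  have hmem : ∀ x : M, x ∈ (f.map (Int.castRingHom M)).roots.toFinset ↔ evZ x f = 0 := by
    intro x
    rw [Multiset.mem_toFinset, mem_roots hfM, IsRoot.def, ← evZ_eq_eval]
  have hT : ∀ x : T, evZ (x : M) f = 0 := fun x => (hmem x).1 x.2
  have hprodf : f.map (Int.castRingHom M) = ∏ x : T, (X - C (x : M)) := by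
    refine ((splits_in M hM).eq_prod_roots_of_monic (hm.map _)).trans ?_
    have h1 : ∏ x ∈ (f.map (Int.castRingHom M)).roots.toFinset, (X - C x) =
        ∏ x : T, (X - C (x : M)) := Finset.prod_subtype _ (fun x => Iff.rfl) _
    rw [← h1, Finset.prod, Multiset.toFinset_val, Multiset.Nodup.dedup (sep_nodup hsep)]
  let γ' : w.integer := ⟨(γ : M), hZ γ⟩
  let Q : (w.integer)[X] := f.map (Int.castRingHom w.integer)
  have hri : ∀ x : T, w (x : M) ≤ 1 := by
    intro x
    obtain ⟨y, hy, -⟩ := hint _ (hT x)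
    rw [← hy]
    exact hint1 y
  let e : T → w.integer := fun x => ⟨(x : M), hri x⟩
  have hQ : ∀ (R : ℤ[X]) (x : w.integer), (((R.map (Int.castRingHom w.integer)).eval x :
      w.integer) : M) = evZ (x : M) R := by
    intro R x
    rw [← evZ_eq_eval]
    exact hom_evZ w.integer.subtype R x
  have hγ' : (γ' : M) = (γ : M) := rfl
  have hval : ((Q.eval γ' - 0 : w.integer) : M) = (c : M) := by
    rw [sub_zero, hQ, hγ', evZ_int]
  have hG1 : w ((Q.derivative.eval γ' : w.integer) : M) ≤
      w ((Q.eval γ' - 0 : w.integer) : M) := by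
    rw [hval, hwc]
    have h1 : Q.derivative = (derivative f).map (Int.castRingHom w.integer) :=
      derivative_map _ _
    rw [h1, hQ, hγ', evZ_int]
    exact hdvd _ hl.crit
  have h2 : w 2 = 1 := by
    have h1 := hZ1 2 h2p
    exact_mod_cast h1
  have hG2 : w (((hasseDeriv 2 Q).eval γ' : w.integer) : M) = 1 := by
    have h1 : (2 : w.integer) * (hasseDeriv 2 Q).eval γ' =
        (derivative (derivative Q)).eval γ' := by
      have h3 := congrArg (fun p => eval γ' p)
        (congrFun (factorial_smul_hasseDeriv (R := w.integer) 2) Q)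
      simp only [Function.iterate_succ, Function.iterate_zero, Function.comp_apply, id_eq] at h3
      rw [← h3]
      simp [Nat.factorial]
    have h3 : derivative (derivative Q) =
        (derivative (derivative f)).map (Int.castRingHom w.integer) := by
      rw [← derivative_map, ← derivative_map]
    have h4 := congrArg (fun z : w.integer => w (z : M)) h1
    have h5 : w (((2 : w.integer) * (hasseDeriv 2 Q).eval γ' : w.integer) : M) =
        w (((hasseDeriv 2 Q).eval γ' : w.integer) : M) := by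
      change w ((2 : M) * (((hasseDeriv 2 Q).eval γ' : w.integer) : M)) = _
      rw [map_mul, h2, one_mul]
    rw [← h5]
    refine h4.trans ?_
    rw [h3, hQ, hγ', evZ_int]
    exact hZ1 _ hl.simple
  have hSroot : ∀ x ∈ (Finset.univ : Finset T), Q.eval (e x) = 0 := by
    intro x _
    apply Subtype.ext
    rw [hQ]
    exact hT x
  have hprod : Q.eval γ' - 0 = ∏ x ∈ (Finset.univ : Finset T), (γ' - e x) := by
    apply Subtype.ext
    have h3 : ((∏ x ∈ (Finset.univ : Finset T), (γ' - e x) : w.integer) : M) =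
        w.integer.subtype (∏ x ∈ (Finset.univ : Finset T), (γ' - e x)) := rfl
    rw [h3, map_prod, hval, hc, ← evZ_int, evZ_eq_eval]
    refine (congrArg (Polynomial.eval (γ : M)) hprodf).trans ?_
    rw [eval_prod]
    refine Finset.prod_congr rfl fun x _ => ?_
    rw [eval_sub, eval_X, eval_C]
    rfl
  obtain ⟨a, ha, b, hb, hab, hγa, hγb, hothers, hsq⟩ := double_point_approx w
    (Finset.univ : Finset T) e
    (fun x y hxy => Subtype.ext (congrArg (fun z : w.integer => (z : M)) hxy)) Q γ' 0 h2 hG1 hG2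
    hprod hSroot (by rw [hval, hwc]; exact hwp) (fun h1 => hc0 (by
      rw [← hval, h1, sub_zero]
      rfl))
  have hea : ∀ x : T, ((γ' - e x : w.integer) : M) = (γ : M) - (x : M) := fun x => rfl
  refine ⟨(a : M), (b : M), hT a, hT b, fun h1 => hab (Subtype.ext h1), ?_, ?_,
    fun u u' hu hu' huu hn => ?_, ?_⟩
  · rw [Valuation.map_sub_swap, ← hea]
    exact hγa
  · rw [Valuation.map_sub_swap, ← hea]
    exact hγb
  · obtain ⟨x, rfl, hx⟩ := hint u hu
    obtain ⟨y, rfl, hy⟩ := hint u' hu'
    have hxy : x ≠ y := fun h3 => huu (by rw [h3])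
    refine hone (x - y) fun hmem' => ?_
    have hclose : ∀ z z' : 𝓞 M, evZ z f = 0 → evZ z' f = 0 → z ≠ z' → z - z' ∈ P.asIdeal →
        (z : M) = (a : M) ∨ (z : M) = (b : M) := by
      intro z z' hz hz' hne hmm
      have h1 := deriv_mem P.asIdeal f (hz.trans hz'.symm) hne hmm
      rw [← hπ, hom_evZ] at h1
      have h3 := hom_evZ π f z
      rw [hz, map_zero] at h3
      have h4 := hl.only (π z) h1 h3.symm
      have h5 : z - (γ : 𝓞 M) ∈ P.asIdeal := by
        rw [← hπ, map_sub, map_intCast, h4, sub_self]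
      have h6 : w ((z : M) - (γ : M)) < 1 := by
        have h7 := (hlt _).2 h5
        have h8 : ((z - (γ : 𝓞 M) : 𝓞 M) : M) = (z : M) - (γ : M) := by
          have h9 := map_sub (algebraMap (𝓞 M) M) z (γ : 𝓞 M)
          rw [map_intCast] at h9
          exact h9
        rwa [h8] at h7
      have hzr : evZ (z : M) f = 0 := by
        have h7 := hom_evZ (algebraMap (𝓞 M) M) f z
        rw [hz, map_zero] at h7
        exact h7.symm
      by_contra h9
      rw [not_or] at h9
      have h10 := hothers ⟨(z : M), (hmem _).2 hzr⟩ (Finset.mem_univ _)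
        (fun h11 => h9.1 (congrArg Subtype.val h11)) (fun h11 => h9.2 (congrArg Subtype.val h11))
      rw [hea, Valuation.map_sub_swap] at h10
      exact absurd h10 h6.ne
    refine hn ⟨hclose x y hx hy hxy hmem', hclose y x hy hx hxy.symm ?_⟩
    rw [← neg_sub]
    exact P.asIdeal.neg_mem hmem'
  · rw [← hwc, ← hval, ← hsq]
    rfl

end node

end

end Pool.Agent.H852.J
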