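import Mathlib
import Pool.Agent.H852.J.L2

/-!
# A place of the field of a root, at which this root is simple
-/

set_option linter.unusedSectionVars false
set_option autoImplicit false

open Polynomial Module NumberField IsDedekindDomain
open HeightOneSpectrum WithZero

namespace Pool.Agent.H852.J

noncomputable section

variable {K : Type} [Field K] [NumberField K] {p : ℕ} [Fact p.Prime] {f : ℤ[X]}

section unram

variable {L : Type} [Field L] [NumberField L] [Algebra K L]

/-- reduction maps for places containing `p` -/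
theorem exists_red_of {v : HeightOneSpectrum (𝓞 K)} (hv : PlaceP p v) (w : HeightOneSpectrum (𝓞 L))
    [w.asIdeal.LiesOver v.asIdeal] :
    ∃ π : 𝓞 L →+* AlgebraicClosure (ZMod p), ∀ x, π x = 0 ↔ x ∈ w.asIdeal := by
  have hfin : Finite (𝓞 L ⧸ w.asIdeal) := Ideal.finiteQuotientOfFreeOfNeBot _ w.ne_bot
  refine exists_residue p (𝓞 L) w.asIdeal (w.isPrime.isMaximal w.ne_bot) hfin ?_
  have h1 : (p : 𝓞 K) ∈ w.asIdeal.under (𝓞 K) := by
    rw [← Ideal.LiesOver.over (p := v.asIdeal) (P := w.asIdeal)]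
    exact hv.p_mem
  rw [Ideal.mem_comap, map_natCast] at h1
  exact h1

/-- a root which is simple at the place -/
theorem deriv_notMem {γ : ℤ} (hl : LocN p f γ) {O : Type} [CommRing O] [IsDomain O] {P : Ideal O}
    {π : O →+* AlgebraicClosure (ZMod p)} (hπ : ∀ x, π x = 0 ↔ x ∈ P) {x : O} (hx : evZ x f = 0)
    (hne : x - (γ : O) ∉ P) : evZ x (derivative f) ∉ P := by
  intro h1
  rw [← hπ, hom_evZ] at h1
  have h3 := hom_evZ π f x
  rw [hx, map_zero] at h3
  have h4 := hl.only (π x) h1 h3.symm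
  apply hne
  rw [← hπ, map_sub, map_intCast, h4, sub_self]

/-- **The place is not ramified.** -/
theorem placeP_of (hm : f.Monic) {γ : ℤ} (hl : LocN p f γ) {v : HeightOneSpectrum (𝓞 K)}
    (hv : PlaceP p v) {α : 𝓞 L} (hα : evZ α f = 0)
    (htop : IntermediateField.adjoin K {(α : L)} = ⊤)
    (w : HeightOneSpectrum (𝓞 L)) [hw : w.asIdeal.LiesOver v.asIdeal]
    (hne : α - (γ : 𝓞 L) ∉ w.asIdeal) : PlaceP p w := by
  classical
  obtain ⟨π, hπ⟩ := exists_red_of (L := L) hv w
  have hder := deriv_notMem hl hπ hα hne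
  have hpw : (p : 𝓞 L) ∈ w.asIdeal := by
    have h1 : (p : 𝓞 K) ∈ w.asIdeal.under (𝓞 K) := by
      rw [← Ideal.LiesOver.over (p := v.asIdeal) (P := w.asIdeal)]
      exact hv.p_mem
    rw [Ideal.mem_comap, map_natCast] at h1
    exact h1
  have hmem : ∀ m : ℤ, ¬ (p : ℤ) ∣ m → (m : 𝓞 L) ∉ w.asIdeal := by
    intro m hm h
    have h1 : IsCoprime (p : ℤ) m :=
      ((Nat.prime_iff_prime_int.1 (Fact.out : p.Prime)).coprime_iff_not_dvd).2 hm
    obtain ⟨a, b, hab⟩ := h1
    apply w.isPrime.ne_top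
    rw [Ideal.eq_top_iff_one]
    have h3 : (1 : 𝓞 L) = (a : 𝓞 L) * p + (b : 𝓞 L) * m := by
      have := congrArg (Int.cast : ℤ → 𝓞 L) hab
      push_cast at this
      exact this.symm
    rw [h3]
    exact w.asIdeal.add_mem (w.asIdeal.mul_mem_left _ hpw) (w.asIdeal.mul_mem_left _ h)
  have hmax : v.asIdeal.IsMaximal := v.isPrime.isMaximal v.ne_bot
  -- ramification
  have hle : v.asIdeal.map (algebraMap (𝓞 K) (𝓞 L)) ≤ w.asIdeal := by
    rw [Ideal.map_le_iff_le_comap]
    exact hw.over.le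
  have h2 : ¬ v.asIdeal.map (algebraMap (𝓞 K) (𝓞 L)) ≤ w.asIdeal ^ 2 := by
    intro h1
    have h3 : w.asIdeal ^ (2 - 1) ∣ differentIdeal (𝓞 K) (𝓞 L) :=
      pow_sub_one_dvd_differentIdeal (𝓞 K) w.asIdeal 2 v.ne_bot (Ideal.dvd_iff_le.2 h1)
    rw [pow_one, Ideal.dvd_iff_le] at h3
    have hadj : Algebra.adjoin K {algebraMap (𝓞 L) L α} = ⊤ := by
      have h4 := IntermediateField.adjoin_simple_toSubalgebra_of_isAlgebraic (F := K)
        (α := (α : L)) (Algebra.IsAlgebraic.isAlgebraic _)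
      rw [htop] at h4
      exact h4.symm.trans IntermediateField.top_toSubalgebra
    have h4 := aeval_derivative_mem_differentIdeal (𝓞 K) K L α hadj
    -- the minimal polynomial divides `f`
    have h5 : minpoly (𝓞 K) α ∣ f.map (Int.castRingHom (𝓞 K)) := by
      refine minpoly.isIntegrallyClosed_dvd (Algebra.IsIntegral.isIntegral α) ?_
      rw [aeval_def, eval₂_map, ← hα, evZ]
      congr 1
      exact RingHom.ext_int _ _
    obtain ⟨q, hq⟩ := h5
    apply hder
    have h6 : evZ α (derivative f) = aeval α (derivative (minpoly (𝓞 K) α)) * aeval α q := by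
      have h7 : evZ α (derivative f) =
          aeval α (derivative (f.map (Int.castRingHom (𝓞 K)))) := by
        rw [derivative_map, aeval_def, eval₂_map, evZ]
        congr 1
        exact (RingHom.ext_int _ _)
      rw [h7, hq, derivative_mul, map_add, map_mul, map_mul, minpoly.aeval, zero_mul, add_zero]
    rw [h6]
    exact w.asIdeal.mul_mem_right _ (h3 h4)
  have h3 : v.asIdeal.ramificationIdx' w.asIdeal = 1 := by
    by_contra h4
    exact h2 ((Ideal.ramificationIdx'_ne_one_iff hle).1 h4)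
  have hval : ∀ x : K, w.valuation L (algebraMap K L x) = v.valuation K x := by
    intro x
    rw [← valuation_liesOver L v w x, h3, pow_one]
  refine ⟨?_, fun m hm => ?_, hmem⟩
  · have h4 := hval (p : K)
    rw [map_natCast] at h4
    rw [h4, hv.val]
  · have h4 := hval (m : K)
    rw [map_intCast] at h4
    rw [h4, hv.one m hm]

end unram

/-- **There is a place at which the given root is simple.** -/
theorem exists_placeP {L : Type} [Field L] [NumberField L] [Algebra K L] (hm : f.Monic)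
    (hd : 3 ≤ f.natDegree)
    (hsep : (f.map (Int.castRingHom K)).Separable) (hp2 : p ≠ 2) {γ : ℤ} (hl : LocN p f γ)
    {v : HeightOneSpectrum (𝓞 K)} (hv : PlaceP p v) (htr : KT K f 1) {α : 𝓞 L} (hα : evZ α f = 0)
    (htop : IntermediateField.adjoin K {(α : L)} = ⊤) :
    ∃ w : HeightOneSpectrum (𝓞 L), w.asIdeal.LiesOver v.asIdeal ∧ PlaceP p w ∧
      α - (γ : 𝓞 L) ∉ w.asIdeal := by
  classical
  obtain ⟨M, hnf, hnorm, hM⟩ := exists_splitZ K f hm.ne_zero
  obtain ⟨P, hP⟩ := exists_place_above (M := M) v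
  obtain ⟨a, b, ha, hb, hab, hγa, hγb, hdiff, -⟩ := node_loc hm hsep hp2 hl hv M P hM
  -- a third root
  have hfM : f.map (Int.castRingHom M) ≠ 0 := (hm.map _).ne_zero
  have hmem : ∀ x : M, x ∈ (f.map (Int.castRingHom M)).roots.toFinset ↔ evZ x f = 0 := by
    intro x
    rw [Multiset.mem_toFinset, mem_roots hfM, IsRoot.def, ← evZ_eq_eval]
  have hcard : (f.map (Int.castRingHom M)).roots.toFinset.card = f.natDegree := by
    rw [Multiset.toFinset_card_of_nodup (sep_nodup hsep), ← (splits_in M hM).natDegree_eq_card_roots,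
      hm.natDegree_map]
  obtain ⟨c, hc, hcab⟩ : ∃ c ∈ (f.map (Int.castRingHom M)).roots.toFinset, c ∉ ({a, b} : Finset M) := by
    by_contra hno
    push Not at hno
    have h1 := Finset.card_le_card (fun x hx => hno x hx)
    have h2 := Finset.card_le_two (a := a) (b := b)
    omega
  rw [Finset.mem_insert, Finset.mem_singleton, not_or] at hcab
  rw [hmem] at hc
  have hcγ : P.valuation M (c - (γ : M)) = 1 := by
    have h1 := hdiff c a hc ha hcab.1 (fun h => by
      rcases h.1 with h | h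
      · exact hcab.1 h
      · exact hcab.2 h)
    have h2 : c - (γ : M) = (a - (γ : M)) + (c - a) := by ring
    rw [h2, Valuation.map_add_eq_of_lt_right _ (by rw [h1]; exact hγa), h1]
  -- the embedding
  have halg : Algebra.IsAlgebraic K L := inferInstance
  let ψ₀ : L →ₐ[K] AlgebraicClosure K := IsAlgClosed.lift
  have hψ : ∀ (ψ : L →ₐ[K] AlgebraicClosure K), evZ (ψ (α : L)) f = 0 := by
    intro ψ
    have h1 := hom_evZ ((ψ : L →+* AlgebraicClosure K).comp (algebraMap (𝓞 L) L)) f α
    rw [hα, map_zero] at h1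
    exact h1.symm
  have hc' : evZ (c : AlgebraicClosure K) f = 0 := by
    have h1 := hom_evZ (algebraMap M (AlgebraicClosure K)) f c
    rw [hc, map_zero] at h1
    exact h1.symm
  obtain ⟨s, hs⟩ := htr (fun _ => ψ₀ (α : L)) (fun _ => (c : AlgebraicClosure K))
    (Function.injective_of_subsingleton _) (Function.injective_of_subsingleton _)
    (fun _ => hψ ψ₀) (fun _ => hc')
  let ψ : L →ₐ[K] AlgebraicClosure K := (s : AlgebraicClosure K →ₐ[K] AlgebraicClosure K).comp ψ₀
  have hψα : ψ (α : L) = (c : AlgebraicClosure K) := hs 0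
  have hψM : ∀ x : L, ψ x ∈ M := by
    intro x
    have h1 : IntermediateField.adjoin K {(α : L)} ≤ M.comap ψ := by
      rw [IntermediateField.adjoin_le_iff]
      rintro _ rfl
      change ψ (α : L) ∈ M
      rw [hψα]
      exact c.2
    have h2 : x ∈ IntermediateField.adjoin K {(α : L)} := by
      rw [htop]
      trivial
    exact h1 h2
  let ψM : L →ₐ[K] M := ψ.codRestrict M.toSubalgebra hψM
  let θ : 𝓞 L →+* 𝓞 M := RingOfIntegers.mapRingHom (ψM : L →+* M)
  have hθα : ((θ α : 𝓞 M) : M) = c := by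
    apply Subtype.ext
    exact hψα
  have hcomap : (P.asIdeal.comap θ).IsPrime := P.isPrime.comap θ
  have hθK : θ.comp (algebraMap (𝓞 K) (𝓞 L)) = algebraMap (𝓞 K) (𝓞 M) := by
    refine RingHom.ext fun x => ?_
    apply RingOfIntegers.ext
    exact ψM.commutes (x : K)
  have hlies : v.asIdeal = (P.asIdeal.comap θ).comap (algebraMap (𝓞 K) (𝓞 L)) := by
    rw [Ideal.comap_comap, hθK]
    exact hP.over
  have hbot : P.asIdeal.comap θ ≠ ⊥ := by
    intro h1
    apply v.ne_bot
    rw [hlies, h1]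
    exact Ideal.comap_bot_of_injective _ (FaithfulSMul.algebraMap_injective (𝓞 K) (𝓞 L))
  let w : HeightOneSpectrum (𝓞 L) := ⟨P.asIdeal.comap θ, hcomap, hbot⟩
  have hw : w.asIdeal.LiesOver v.asIdeal := ⟨hlies⟩
  have hne : α - (γ : 𝓞 L) ∉ w.asIdeal := by
    intro h1
    have h2 : θ (α - (γ : 𝓞 L)) ∈ P.asIdeal := h1
    have h3 := (P.valuation_lt_one_iff_mem (K := M) _).2 h2
    have h4 : (algebraMap (𝓞 M) M) (θ (α - (γ : 𝓞 L))) = c - (γ : M) := by
      rw [map_sub, map_sub, map_intCast, map_intCast]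
      congr 1
    have h5 : P.valuation M ((algebraMap (𝓞 M) M) (θ (α - (γ : 𝓞 L)))) < 1 := h3
    rw [h4, hcγ] at h5
    exact lt_irrefl _ h5
  exact ⟨w, hw, placeP_of hm hl hv hα htop w hne, hne⟩

end

end Pool.Agent.H852.J
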