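import Mathlib
import Pool.Agent.H852.J.L3

/-!
# The model of odd degree of a hyperelliptic curve of even degree, with a branch point at infinity
-/

set_option linter.unusedSectionVars false
set_option autoImplicit false

open Polynomial Module NumberField IsDedekindDomain
open HeightOneSpectrum WithZero

namespace Pool.Agent.H852.J

noncomputable section

section model

variable {L : Type} [Field L] (f : L[X]) (α : L)

/-- With `δ = f' (α)` the polynomial `U ^ n * f (α + δ / U) / δ ^ 2`, for a root `α` of the polynomial `f` of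
degree `n`. -/
def oddM : L[X] :=
  ∑ k ∈ Finset.range (f.natDegree + 1),
    C ((taylor α f).coeff k * f.derivative.eval α ^ k / f.derivative.eval α ^ 2) *
      X ^ (f.natDegree - k)

variable {f α}

/-- **The substitution.** -/
theorem oddM_sub {F : Type} [Field F] [Algebra L F] (hδ : f.derivative.eval α ≠ 0) {u : F}
    (hu : u ≠ 0) : aeval u (oddM f α) * algebraMap L F (f.derivative.eval α) ^ 2 =
      u ^ f.natDegree * aeval (algebraMap L F α + algebraMap L F (f.derivative.eval α) / u) f := by
  set δ := f.derivative.eval α with hδd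
  have hδ' : algebraMap L F δ ≠ 0 := (_root_.map_ne_zero _).2 hδ
  have h1 : aeval (algebraMap L F α + algebraMap L F δ / u) f =
      ∑ k ∈ Finset.range (f.natDegree + 1),
        algebraMap L F ((taylor α f).coeff k) * (algebraMap L F δ / u) ^ k := by
    have h2 : aeval (algebraMap L F α + algebraMap L F δ / u) f =
        ((taylor α f).map (algebraMap L F)).eval (algebraMap L F δ / u) := by
      rw [map_taylor, taylor_eval, eval_map_algebraMap, add_comm]
    rw [h2, eval_eq_sum_range' (n := f.natDegree + 1)]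
    · refine Finset.sum_congr rfl fun k _ => ?_
      rw [coeff_map]
    · refine lt_of_le_of_lt natDegree_map_le ?_
      rw [natDegree_taylor]
      exact Nat.lt_succ_self _
  rw [h1, oddM, map_sum, Finset.sum_mul, Finset.mul_sum]
  refine Finset.sum_congr rfl fun k hk => ?_
  rw [Finset.mem_range] at hk
  rw [map_mul, aeval_C, map_pow, aeval_X, map_div₀, map_mul, map_pow, map_pow]
  have h3 : u ^ f.natDegree = u ^ (f.natDegree - k) * u ^ k := by
    rw [← pow_add]
    congr 1
    omega
  rw [h3, div_pow, ← hδd]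
  field_simp

theorem oddM_expand (hα : f.eval α = 0) (hδ : f.derivative.eval α ≠ 0)
    {m : ℕ} (hn : f.natDegree = m + 1) : ∃ q : L[X], q.degree < m ∧
      oddM f α = X ^ m + q := by
  refine ⟨∑ k ∈ Finset.range m, C ((taylor α f).coeff (k + 2) *
    f.derivative.eval α ^ (k + 2) / f.derivative.eval α ^ 2) * X ^ (m + 1 - (k + 2)), ?_, ?_⟩
  · refine lt_of_le_of_lt (degree_sum_le _ _) ?_
    refine (Finset.sup_lt_iff (WithBot.bot_lt_coe m)).2 fun k hk => ?_
    rw [Finset.mem_range] at hk
    refine lt_of_le_of_lt (degree_C_mul_X_pow_le _ _) ?_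
    exact WithBot.coe_lt_coe.2 (by omega : m + 1 - (k + 2) < m)
  · rw [oddM, hn, Finset.sum_range_succ', Finset.sum_range_succ']
    rw [taylor_coeff_zero, hα, zero_mul, zero_div, C_0, zero_mul, add_zero, zero_add,
      taylor_coeff_one, pow_one, ← sq, div_self (pow_ne_zero 2 hδ), C_1, one_mul,
      Nat.add_sub_cancel, add_comm]

theorem oddM_monic (hα : f.eval α = 0) (hδ : f.derivative.eval α ≠ 0)
    {m : ℕ} (hn : f.natDegree = m + 1) : (oddM f α).Monic ∧ (oddM f α).natDegree = m := by
  obtain ⟨q, hq, h⟩ := oddM_expand hα hδ hn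
  rw [h]
  refine ⟨monic_X_pow_add hq, ?_⟩
  rw [natDegree_add_eq_left_of_degree_lt, natDegree_X_pow]
  rwa [degree_X_pow]

theorem oddM_zero {F : Type} [Field F] [Algebra L F] (hm : f ≠ 0)
    (hδ : f.derivative.eval α ≠ 0) : aeval (0 : F) (oddM f α) ≠ 0 := by
  rw [oddM, Finset.sum_range_succ, map_add, map_sum, Finset.sum_eq_zero, zero_add, Nat.sub_self,
    pow_zero, mul_one, aeval_C, coeff_taylor_natDegree]
  · exact (_root_.map_ne_zero _).2 (div_ne_zero (mul_ne_zero (leadingCoeff_ne_zero.2 hm)
      (pow_ne_zero _ hδ)) (pow_ne_zero _ hδ))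
  · intro k hk
    rw [Finset.mem_range] at hk
    rw [map_mul, map_pow, aeval_X, zero_pow (by omega), mul_zero]

/-- the roots of the model -/
theorem oddM_root {F : Type} [Field F] [Algebra L F] (hm : f ≠ 0)
    (hδ : f.derivative.eval α ≠ 0) {u : F} : aeval u (oddM f α) = 0 ↔
      u ≠ 0 ∧ aeval (algebraMap L F α + algebraMap L F (f.derivative.eval α) / u) f = 0 := by
  have hδ' : algebraMap L F (f.derivative.eval α) ≠ 0 := (_root_.map_ne_zero _).2 hδ
  by_cases hu : u = 0
  · subst hu
    exact ⟨fun h => absurd h (oddM_zero hm hδ), fun h => absurd rfl h.1⟩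
  · have h1 := oddM_sub (F := F) hδ hu
    constructor
    · intro h
      rw [h, zero_mul] at h1
      exact ⟨hu, (mul_eq_zero.1 h1.symm).resolve_left (pow_ne_zero _ hu)⟩
    · rintro ⟨-, h⟩
      rw [h, mul_zero] at h1
      exact (mul_eq_zero.1 h1).resolve_right (pow_ne_zero _ hδ')

/-- the root of the model which corresponds to another root of `f` -/
theorem oddM_root' {F : Type} [Field F] [Algebra L F] (hm : f ≠ 0)
    (hδ : f.derivative.eval α ≠ 0) {r : F} (hr : aeval r f = 0) (hrα : r ≠ algebraMap L F α) :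
    aeval (algebraMap L F (f.derivative.eval α) / (r - algebraMap L F α)) (oddM f α) = 0 := by
  have hδ' : algebraMap L F (f.derivative.eval α) ≠ 0 := (_root_.map_ne_zero _).2 hδ
  have h1 := sub_ne_zero.2 hrα
  rw [oddM_root hm hδ]
  refine ⟨div_ne_zero hδ' h1, ?_⟩
  rw [← hr]
  congr 1
  field_simp
  ring

theorem oddM_sep (hm : f ≠ 0) (hs : f.Separable) (hα : f.eval α = 0) {m : ℕ}
    (hn : f.natDegree = m + 1) : (oddM f α).Separable := by
  classical
  have hδ : f.derivative.eval α ≠ 0 := by
    have h1 := hs.aeval_derivative_ne_zero (x := α) (by rwa [coe_aeval_eq_eval])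
    rwa [coe_aeval_eq_eval] at h1
  obtain ⟨hmon, hdeg⟩ := oddM_monic hα hδ hn
  set F := AlgebraicClosure L with hF
  have hδ' : algebraMap L F (f.derivative.eval α) ≠ 0 := (_root_.map_ne_zero _).2 hδ
  rw [← card_rootSet_eq_natDegree_iff_of_splits (K := F) hmon.ne_zero (IsAlgClosed.splits _), hdeg]
  have h1 : Fintype.card (f.rootSet F) = m + 1 := by
    rw [card_rootSet_eq_natDegree hs (IsAlgClosed.splits _), hn]
  have hα' : algebraMap L F α ∈ f.rootSet F := by
    rw [mem_rootSet]
    refine ⟨hm, ?_⟩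
    rw [aeval_algebraMap_apply, coe_aeval_eq_eval, hα, map_zero]
  have h2 : Fintype.card {r : f.rootSet F // r ≠ ⟨_, hα'⟩} = m := by
    rw [Fintype.card_subtype_compl, Fintype.card_subtype_eq, h1, Nat.add_sub_cancel]
  rw [← h2]
  refine (Fintype.card_congr (Equiv.ofBijective (fun r : {r : f.rootSet F // r ≠ ⟨_, hα'⟩} =>
    (⟨algebraMap L F (f.derivative.eval α) / ((r.1 : F) - algebraMap L F α),
      mem_rootSet.2 ⟨hmon.ne_zero, oddM_root' hm hδ (mem_rootSet.1 r.1.2).2
        (fun h => r.2 (Subtype.ext h))⟩⟩ : (oddM f α).rootSet F)) ⟨?_, ?_⟩)).symm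
  · intro r s h
    have h3 := congrArg Subtype.val h
    dsimp only at h3
    have hr : (r.1 : F) - algebraMap L F α ≠ 0 := sub_ne_zero.2 fun h => r.2 (Subtype.ext h)
    have hs' : (s.1 : F) - algebraMap L F α ≠ 0 := sub_ne_zero.2 fun h => s.2 (Subtype.ext h)
    rw [div_eq_div_iff hr hs'] at h3
    have h4 := mul_left_cancel₀ hδ' h3
    exact Subtype.ext (Subtype.ext (sub_left_injective h4).symm)
  · rintro ⟨u, hu⟩
    obtain ⟨hu0, hu1⟩ := (oddM_root hm hδ).1 (mem_rootSet.1 hu).2
    refine ⟨⟨⟨algebraMap L F α + algebraMap L F (f.derivative.eval α) / u,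
      mem_rootSet.2 ⟨hm, hu1⟩⟩, fun h => ?_⟩, ?_⟩
    · have h3 := congrArg Subtype.val h
      dsimp only at h3
      rw [add_eq_left] at h3
      exact (div_ne_zero hδ' hu0) h3
    · apply Subtype.ext
      dsimp only
      rw [add_sub_cancel_left, div_div_cancel₀ hδ']

end model

end

end Pool.Agent.H852.J
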