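import Mathlib
import Pool.Agent.H852.J.L4

/-!
# The model of odd degree: nodes and the action of the Galois group
-/

set_option linter.unusedSectionVars false
set_option autoImplicit false

open Polynomial Module NumberField IsDedekindDomain
open HeightOneSpectrum WithZero
open Pool.Agent.Results.MP_640417_ag.HyperellipticEveryPrime
open Pool.Agent.N171 Pool.Agent.N171.Al Pool.Agent.N171.Pm Pool.Agent.N171.Bg Pool.Agent.N171.TG

namespace Pool.Agent.H852.J

noncomputable section

/-- the integral polynomial `f` over the field `L` -/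
abbrev mapQ (L : Type) [Field L] (f : ℤ[X]) : L[X] := f.map (Int.castRingHom L)

section conn

variable {K L : Type} [Field K] [NumberField K] [Field L] [NumberField L] [Algebra K L] {f : ℤ[X]}

/-- automorphisms over `K` which fix `α` -/
theorem exists_over {α : L} (htop : IntermediateField.adjoin K {α} = ⊤)
    (t : AlgebraicClosure L ≃ₐ[K] AlgebraicClosure L)
    (ht : t (algebraMap L (AlgebraicClosure L) α) = algebraMap L (AlgebraicClosure L) α) :
    ∃ g : AlgebraicClosure L ≃ₐ[L] AlgebraicClosure L, ∀ x, g x = t x := by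
  have h1 : ∀ x : L, t (algebraMap L (AlgebraicClosure L) x) =
      algebraMap L (AlgebraicClosure L) x := by
    intro x
    have h2 : x ∈ IntermediateField.adjoin K {α} := by
      rw [htop]
      trivial
    induction h2 using IntermediateField.adjoin_induction with
    | mem x hx =>
      rw [Set.mem_singleton_iff] at hx
      rw [hx]
      exact ht
    | algebraMap x =>
      rw [← IsScalarTower.algebraMap_apply]
      exact t.commutes x
    | add x y _ _ hx hy => rw [map_add, map_add, hx, hy]
    | inv x _ hx => rw [map_inv₀, map_inv₀, hx]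
    | mul x y _ _ hx hy => rw [map_mul, map_mul, hx, hy]
  exact ⟨AlgEquiv.ofRingEquiv (f := t.toRingEquiv) h1, fun x => rfl⟩

/-- the group fixing `α` acts doubly transitively on the other roots -/
theorem two_trans (h3 : KT K f 3) {α : L} (hα : evZ α f = 0)
    (htop : IntermediateField.adjoin K {α} = ⊤) {x y x' y' : AlgebraicClosure L}
    (hx : evZ x f = 0) (hy : evZ y f = 0) (hx' : evZ x' f = 0) (hy' : evZ y' f = 0)
    (hxy : x ≠ y) (hxy' : x' ≠ y') (hxα : x ≠ algebraMap L (AlgebraicClosure L) α)
    (hyα : y ≠ algebraMap L (AlgebraicClosure L) α)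
    (hxα' : x' ≠ algebraMap L (AlgebraicClosure L) α)
    (hyα' : y' ≠ algebraMap L (AlgebraicClosure L) α) :
    ∃ g : AlgebraicClosure L ≃ₐ[L] AlgebraicClosure L, g x = x' ∧ g y = y' := by
  have hfin : FiniteDimensional K L := Module.Finite.of_restrictScalars_finite ℚ K L
  have halg : Algebra.IsAlgebraic K L := inferInstance
  have hclos : IsAlgClosure K (AlgebraicClosure L) := IsAlgClosure.ofAlgebraic K L _
  let e : AlgebraicClosure L ≃ₐ[K] AlgebraicClosure K := IsAlgClosure.equiv K _ _
  set a := algebraMap L (AlgebraicClosure L) α with ha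
  have ha0 : evZ a f = 0 := by
    rw [ha, ← hom_evZ, hα, map_zero]
  have he : ∀ z : AlgebraicClosure L, evZ z f = 0 → evZ (e z) f = 0 := by
    intro z hz
    have h1 := hom_evZ (e : AlgebraicClosure L →+* AlgebraicClosure K) f z
    rw [hz, map_zero] at h1
    exact h1.symm
  have hinj : ∀ x y : AlgebraicClosure L, x ≠ y → x ≠ a → y ≠ a →
      Function.Injective ![e a, e x, e y] := by
    intro x y h1 h2 h3 i j hij
    fin_cases i <;> fin_cases j <;> simp at hij ⊢
    · exact h2 hij.symm
    · exact h3 hij.symm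
    · exact h2 hij
    · exact h1 hij
    · exact h3 hij
    · exact h1 hij.symm
  obtain ⟨s, hs⟩ := h3 ![e a, e x, e y] ![e a, e x', e y'] (hinj x y hxy hxα hyα)
    (hinj x' y' hxy' hxα' hyα')
    (fun i => by
      fin_cases i
      · exact he a ha0
      · exact he x hx
      · exact he y hy)
    (fun i => by
      fin_cases i
      · exact he a ha0
      · exact he x' hx'
      · exact he y' hy')
  have hs0 : s (e a) = e a := hs 0
  have hs1 : s (e x) = e x' := hs 1
  have hs2 : s (e y) = e y' := hs 2
  obtain ⟨g, hg⟩ := exists_over htop ((e.trans s).trans e.symm) (by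
    rw [← ha]
    change e.symm (s (e a)) = a
    rw [hs0, AlgEquiv.symm_apply_apply])
  refine ⟨g, ?_, ?_⟩
  · rw [hg]
    change e.symm (s (e x)) = x'
    rw [hs1, AlgEquiv.symm_apply_apply]
  · rw [hg]
    change e.symm (s (e y)) = y'
    rw [hs2, AlgEquiv.symm_apply_apply]

/-- **The graph of a model is connected.** -/
theorem connects_model (h3 : KT K f 3) {α : L}
    (hα : evZ α f = 0) (htop : IntermediateField.adjoin K {α} = ⊤) {g : L[X]} {ε : L}
    (hε : ε ≠ 0)
    (hg : ∀ u : AlgebraicClosure L, aeval u g = 0 → u ≠ 0 ∧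
      evZ (algebraMap L (AlgebraicClosure L) α + algebraMap L (AlgebraicClosure L) ε / u) f = 0)
    {κ : Type} [Nonempty κ]
    (Q : κ → AlgebraicClosure L → AlgebraicClosure L → Prop) :
    Connects g Q := by
  intro a b hab _ x y
  obtain ⟨k⟩ := ‹Nonempty κ›
  set F := AlgebraicClosure L with hF
  have hδ' : algebraMap L F ε ≠ 0 := (_root_.map_ne_zero _).2 hε
  by_cases hxy : x = y
  · rw [hxy]
  refine Relation.ReflTransGen.single ⟨k, ?_⟩
  have hr : ∀ u : g.rootSet F, (u : F) ≠ 0 ∧
      evZ (algebraMap L F α + algebraMap L F ε / u) f = 0 := fun u =>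
    hg u (mem_rootSet.1 u.2).2
  have hrα : ∀ u : g.rootSet F,
      algebraMap L F α + algebraMap L F ε / u ≠ algebraMap L F α := by
    intro u h
    rw [add_eq_left] at h
    exact (div_ne_zero hδ' (hr u).1) h
  have hinj : ∀ u u' : g.rootSet F, u ≠ u' →
      algebraMap L F α + algebraMap L F ε / u ≠ algebraMap L F α + algebraMap L F ε / u' := by
    intro u u' hne h
    rw [add_right_inj, div_eq_div_iff (hr u).1 (hr u').1] at h
    exact hne (Subtype.ext (mul_left_cancel₀ hδ' h).symm)
  obtain ⟨s, hg1, hg2⟩ := two_trans h3 hα htop (hr (a k)).2 (hr (b k)).2 (hr x).2 (hr y).2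
    (hinj _ _ (hab k)) (hinj _ _ hxy) (hrα _) (hrα _) (hrα _) (hrα _)
  have hback : ∀ u u' : g.rootSet F,
      s (algebraMap L F α + algebraMap L F ε / u) = algebraMap L F α + algebraMap L F ε / u' →
      s (u : F) = u' := by
    intro u u' h
    rw [map_add, map_div₀, AlgEquiv.commutes, AlgEquiv.commutes, add_right_inj] at h
    have h1 : s (u : F) ≠ 0 := (_root_.map_ne_zero _).2 (hr u).1
    rw [div_eq_div_iff h1 (hr u').1] at h
    exact (mul_left_cancel₀ hδ' h).symm
  exact ⟨s, Or.inl ⟨hback _ _ hg1, hback _ _ hg2⟩⟩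

end conn

section node

variable {L : Type} [Field L] [NumberField L] {p : ℕ} [Fact p.Prime] {f : ℤ[X]}

/-- **The node of a model.** -/
theorem node_model (hm : f.Monic) (hsep : (mapQ L f).Separable) (hp2 : p ≠ 2)
    {γ : ℤ} (hl : LocN p f γ) {w : HeightOneSpectrum (𝓞 L)} (hw : PlaceP p w) {α : 𝓞 L}
    (hα : evZ α f = 0) (hne : α - (γ : 𝓞 L) ∉ w.asIdeal) {g : L[X]} {ε : L} (hε : ε ≠ 0)
    (hεw : w.valuation L ε = 1)
    (hg : ∀ (F : Type) [Field F] [Algebra L F] (u : F), aeval u g = 0 ↔ u ≠ 0 ∧
      evZ (algebraMap L F (α : L) + algebraMap L F ε / u) f = 0) :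
    NodeAt g w (fun _ _ => True) := by
  classical
  -- the facts about one field
  have facts : ∀ (M : IntermediateField L (AlgebraicClosure L)) [NumberField M] [Normal L M]
      (P : HeightOneSpectrum (𝓞 M)) [P.asIdeal.LiesOver w.asIdeal],
      P.valuation M (algebraMap L M ε) = 1 ∧
      P.valuation M (algebraMap L M (α : L) - (γ : M)) = 1 ∧
      ∀ r : M, evZ r f = 0 → r ≠ algebraMap L M (α : L) →
        P.valuation M (r - algebraMap L M (α : L)) = 1 := by
    intro M _ _ P hP
    have hgal : IsGalois L M := ⟨⟩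
    obtain ⟨π, hπ⟩ := hw.residue P
    have hone : ∀ x : 𝓞 M, x ∉ P.asIdeal → P.valuation M (algebraMap (𝓞 M) M x) = 1 := by
      intro x hx
      refine le_antisymm (P.valuation_le_one x) (not_lt.1 fun h1 => hx ?_)
      exact (P.valuation_lt_one_iff_mem (K := M) x).1 h1
    set α' : 𝓞 M := algebraMap (𝓞 L) (𝓞 M) α with hα'
    have hα'0 : evZ α' f = 0 := by
      rw [hα', ← hom_evZ, hα, map_zero]
    have hne' : α' - (γ : 𝓞 M) ∉ P.asIdeal := by
      intro h1
      apply hne
      rw [hP.over, Ideal.mem_comap, map_sub, map_intCast]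
      exact h1
    have hder := deriv_notMem hl hπ hα'0 hne'
    refine ⟨val_up_one w P hεw, ?_, fun r hr hrne => ?_⟩
    · have h1 := hone _ hne'
      rw [map_sub, map_intCast] at h1
      exact h1
    · let r' : 𝓞 M := ⟨r, evZ_int_of hm hr⟩
      have hr' : evZ r' f = 0 := by
        apply RingOfIntegers.ext
        have h4 := hom_evZ (algebraMap (𝓞 M) M) f r'
        exact (h4.trans hr).trans (map_zero (algebraMap (𝓞 M) M)).symm
      have hne2 : α' ≠ r' := by
        intro h1
        apply hrne
        have h2 := congrArg (algebraMap (𝓞 M) M) h1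
        exact h2.symm
      have h1 : r' - α' ∉ P.asIdeal := by
        intro h1
        apply hder
        refine deriv_mem P.asIdeal f (hα'0.trans hr'.symm) hne2 ?_
        rw [← neg_sub]
        exact P.asIdeal.neg_mem h1
      have h2 := hone _ h1
      rw [map_sub] at h2
      exact h2
  have hval : ∀ (M : IntermediateField L (AlgebraicClosure L)) [NumberField M] [Normal L M]
      (P : HeightOneSpectrum (𝓞 M)) [P.asIdeal.LiesOver w.asIdeal] (u : M),
      aeval u g = 0 → P.valuation M u = 1 := by
    intro M _ _ P _ u hu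
    obtain ⟨h1, h2, h3⟩ := facts M P
    obtain ⟨h4, h5⟩ := (hg M u).1 hu
    have hδM : algebraMap L M ε ≠ 0 := (_root_.map_ne_zero _).2 hε
    have h6 := h3 _ h5 (by
      intro h6
      rw [add_eq_left] at h6
      exact (div_ne_zero hδM h4) h6)
    rw [add_sub_cancel_left, map_div₀, h1, one_div, inv_eq_one] at h6
    exact h6
  have hdiff : ∀ (M : IntermediateField L (AlgebraicClosure L)) [NumberField M] [Normal L M]
      (P : HeightOneSpectrum (𝓞 M)) [P.asIdeal.LiesOver w.asIdeal] (u u' : M),
      aeval u g = 0 → aeval u' g = 0 →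
      P.valuation M (u - u') = P.valuation M
        ((algebraMap L M (α : L) + algebraMap L M ε / u) -
          (algebraMap L M (α : L) + algebraMap L M ε / u')) := by
    intro M _ _ P _ u u' hu hu'
    obtain ⟨h1, -, -⟩ := facts M P
    have h4 := ((hg M u).1 hu).1
    have h4' := ((hg M u').1 hu').1
    have h5 : (algebraMap L M (α : L) + algebraMap L M ε / u) -
          (algebraMap L M (α : L) + algebraMap L M ε / u') =
          algebraMap L M ε * (u' - u) / (u * u') := by
      field_simp
      ring
    rw [h5, map_div₀, map_mul, map_mul, h1, hval M P u hu, hval M P u' hu', one_mul, mul_one,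
      div_one, Valuation.map_sub_swap]
  refine ⟨fun M _ _ P _ u hu => (hval M P u hu).le, fun M _ _ P _ hM => ?_⟩
  have hδM : algebraMap L M ε ≠ 0 := (_root_.map_ne_zero _).2 hε
  have hδF : algebraMap L (AlgebraicClosure L) ε ≠ 0 := (_root_.map_ne_zero _).2 hε
  -- the roots of `g` from the roots of `f`
  have hroot : ∀ (F : Type) [Field F] [Algebra L F] (c : F), evZ c f = 0 →
      c ≠ algebraMap L F (α : L) →
      aeval (algebraMap L F ε / (c - algebraMap L F (α : L))) g = 0 ∧
      algebraMap L F (α : L) + algebraMap L F ε /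
        (algebraMap L F ε / (c - algebraMap L F (α : L))) = c := by
    intro F _ _ c hc hcα
    have hεF : algebraMap L F ε ≠ 0 := (_root_.map_ne_zero _).2 hε
    have h1 : algebraMap L F (α : L) + algebraMap L F ε /
        (algebraMap L F ε / (c - algebraMap L F (α : L))) = c := by
      rw [div_div_cancel₀ hεF]
      ring
    refine ⟨(hg F _).2 ⟨div_ne_zero hεF (sub_ne_zero.2 hcα), ?_⟩, h1⟩
    rw [h1]
    exact hc
  -- all roots of `f`
  have hMf : ∀ x : AlgebraicClosure L, evZ x f = 0 → x ∈ M := by
    intro x hx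
    by_cases hxα : x = algebraMap L (AlgebraicClosure L) (α : L)
    · rw [hxα]
      exact M.algebraMap_mem _
    · obtain ⟨h1, h2⟩ := hroot (AlgebraicClosure L) x hx hxα
      rw [← h2]
      exact M.add_mem (M.algebraMap_mem _) (M.div_mem (M.algebraMap_mem _) (hM _ h1))
  obtain ⟨a, b, ha, hb, hab, hγa, hγb, hpairs, hsq⟩ := node_loc hm hsep hp2 hl hw M P hMf
  obtain ⟨h1, h2, h3⟩ := facts M P
  have hneα : ∀ c : M, P.valuation M (c - (γ : M)) < 1 → c ≠ algebraMap L M (α : L) := by
    rintro _ hc rfl
    rw [h2] at hc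
    exact lt_irrefl _ hc
  obtain ⟨hroota, hinva⟩ := hroot M a ha (hneα a hγa)
  obtain ⟨hrootb, hinvb⟩ := hroot M b hb (hneα b hγb)
  have hvab : P.valuation M (algebraMap L M ε / (a - algebraMap L M (α : L)) -
      algebraMap L M ε / (b - algebraMap L M (α : L))) = P.valuation M (a - b) := by
    rw [hdiff M P _ _ hroota hrootb, hinva, hinvb]
  refine ⟨algebraMap L M ε / (a - algebraMap L M (α : L)),
    algebraMap L M ε / (b - algebraMap L M (α : L)), hroota, hrootb, fun h => ?_, trivial,
    fun u u' hu hu' huu hn => ?_, fun _ huniq => ?_⟩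
  · rw [h, sub_self, map_zero] at hvab
    exact hab (sub_eq_zero.1 ((map_eq_zero _).1 hvab.symm))
  · rw [hdiff M P _ _ hu hu']
    obtain ⟨hu0, hur⟩ := (hg M u).1 hu
    obtain ⟨hu0', hur'⟩ := (hg M u').1 hu'
    have hcase : ∀ (u c : M), u ≠ 0 → algebraMap L M (α : L) + algebraMap L M ε / u = c →
        u = algebraMap L M ε / (c - algebraMap L M (α : L)) := by
      rintro u _ hu rfl
      rw [add_sub_cancel_left, div_div_cancel₀ hδM]
    refine hpairs _ _ hur hur' (fun h => huu ?_) fun h => hn ?_
    · have h4 := hcase u _ hu0 h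
      rw [add_sub_cancel_left, div_div_cancel₀ hδM] at h4
      exact h4
    · exact ⟨h.1.imp (hcase u a hu0) (hcase u b hu0), h.2.imp (hcase u' a hu0') (hcase u' b hu0')⟩
  · rw [hvab]
    exact hw.odd_log P hsq huniq

end node

end

end Pool.Agent.H852.J
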