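import Mathlib
import Pool.Agent.H852.J.L5
import Pool.Agent.H852.J.D1

/-!
# Hyperelliptic curves of odd or even degree with local conditions at prime numbers
-/

set_option linter.unusedSectionVars false
set_option autoImplicit false

open Polynomial Module NumberField IsDedekindDomain
open HeightOneSpectrum WithZero
open Pool.Agent.Results.MP_640417_ag.HyperellipticEveryPrime
open Pool.Agent.N171 Pool.Agent.N171.Al Pool.Agent.N171.Pm Pool.Agent.N171.Bg Pool.Agent.N171.TG

namespace Pool.Agent.H852.J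

noncomputable section

section vec

variable {R : Type} [CommRing R] {n : ℕ}

/-- the polynomial with the coefficients `a` -/
def polyA (a : Fin (n + 1) → R) : R[X] := ∑ i : Fin (n + 1), C (a i) * X ^ (i : ℕ)

/-- the coefficients of the monic polynomial `c ^ (n - 1) f (X / c)` -/
def monA (a : Fin (n + 1) → R) (i : Fin n) : R :=
  a i.castSucc * a (Fin.last n) ^ (n - 1 - (i : ℕ))

theorem polyA_map {R' : Type} [CommRing R'] (φ : R →+* R') (a : Fin (n + 1) → R) :
    (polyA a).map φ = polyA fun i => φ (a i) := by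
  rw [polyA, polyA, Polynomial.map_sum]
  refine Finset.sum_congr rfl fun i _ => ?_
  rw [Polynomial.map_mul, map_C, Polynomial.map_pow, map_X]

theorem monA_map {R' : Type} [CommRing R'] (φ : R →+* R') (a : Fin (n + 1) → R) (i : Fin n) :
    φ (monA a i) = monA (fun i => φ (a i)) i := by
  rw [monA, monA, map_mul, map_pow]

/-- the relation between the two polynomials -/
theorem mkP_comp (hn : 0 < n) (a : Fin (n + 1) → R) :
    (mkP (monA a)).comp (C (a (Fin.last n)) * X) =
      C (a (Fin.last n) ^ (n - 1)) * polyA a := by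
  obtain ⟨m, rfl⟩ : ∃ m, n = m + 1 := ⟨n - 1, by omega⟩
  have h0 : polyA a = (∑ i : Fin (m + 1), C (a i.castSucc) * X ^ (i : ℕ)) +
      C (a (Fin.last (m + 1))) * X ^ (m + 1) := by
    rw [polyA, Fin.sum_univ_castSucc]
    rfl
  rw [mkP, h0, add_comp, pow_comp, X_comp, mul_add, add_comm]
  congr 1
  · rw [Polynomial.sum_comp, Finset.mul_sum]
    refine Finset.sum_congr rfl fun i _ => ?_
    rw [mul_comp, C_comp, pow_comp, X_comp, monA, mul_pow, ← C_pow, ← mul_assoc, ← C_mul,
      ← mul_assoc, ← C_mul]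
    congr 2
    have h1 : a (Fin.last (m + 1)) ^ (m + 1 - 1) = a (Fin.last (m + 1)) ^ (m + 1 - 1 - (i : ℕ)) *
        a (Fin.last (m + 1)) ^ (i : ℕ) := by
      rw [← pow_add]
      congr 1
      have := i.2
      omega
    rw [h1]
    ring
  · rw [mul_pow, ← C_pow, ← mul_assoc, ← C_mul, Nat.add_sub_cancel, pow_succ]

end vec

section rel

variable {n : ℕ} (hn : 0 < n) (a : Fin (n + 1) → ℤ) {B : Type*} [CommRing B]

omit hn in
theorem evZ_mul' (x : B) (P Q : ℤ[X]) : evZ x (P * Q) = evZ x P * evZ x Q := eval₂_mul _ _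

omit hn in
theorem evZ_C' (x : B) (c : ℤ) : evZ x (C c) = (c : B) := by rw [evZ, eval₂_C, eq_intCast]

include hn in
theorem evZ_monA (x : B) : evZ (((a (Fin.last n) : ℤ) : B) * x) (mkP (monA a)) =
    ((a (Fin.last n) : ℤ) : B) ^ (n - 1) * evZ x (polyA a) := by
  have h1 := congrArg (evZ x) (mkP_comp hn a)
  rw [evZ_comp, evZ_mul', evZ_mul', evZ_C', evZ_C', evZ_X, Int.cast_pow] at h1
  exact h1

include hn in
theorem evZ_deriv_monA (x : B) :
    ((a (Fin.last n) : ℤ) : B) *
      evZ (((a (Fin.last n) : ℤ) : B) * x) (derivative (mkP (monA a))) =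
    ((a (Fin.last n) : ℤ) : B) ^ (n - 1) * evZ x (derivative (polyA a)) := by
  have h1 := congrArg (evZ x) (congrArg derivative (mkP_comp hn a))
  rw [derivative_comp, derivative_mul, derivative_C, zero_mul, zero_add, derivative_X, mul_one,
    derivative_mul, derivative_C, zero_mul, zero_add, evZ_mul', evZ_mul', evZ_C', evZ_C',
    evZ_comp, evZ_mul', evZ_C', evZ_X, Int.cast_pow] at h1
  exact h1

end rel

section main

variable {K : Type} [Field K] [NumberField K] {p : ℕ} [Fact p.Prime]

/-- **Odd degree.** -/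
theorem odd_main {f : ℤ[X]} (hm : f.Monic) (ho : Odd f.natDegree) (hd : 3 ≤ f.natDegree)
    (hsep : (f.map (Int.castRingHom K)).Separable) (hp2 : p ≠ 2) {γ : ℤ} (hl : LocN p f γ)
    {v : HeightOneSpectrum (𝓞 K)} (hv : PlaceP p v) (h2 : KT K f 2) {d : ℕ}
    (τ : AbsoluteGaloisGroup K →* Matrix (Fin d) (Fin d) ℚ_[2]) (hτ : IsLattice τ)
    (hun : Unramified τ v) : EveryPrime (fun _ : Unit => mapQ K f) τ := by
  classical
  have h2p : ¬ (p : ℤ) ∣ 2 := by
    intro h1
    have h3 : p ∣ 2 := by exact_mod_cast h1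
    exact hp2 ((Nat.prime_dvd_prime_iff_eq Fact.out Nat.prime_two).1 h3)
  have hnode : NodeAt (mapQ K f) v (fun _ _ => True) := by
    refine ⟨fun M _ _ P _ u hu => ?_, fun M _ _ P _ hM => ?_⟩
    · rw [aeval_map_evZ] at hu
      exact P.valuation_le_one ⟨u, evZ_int_of hm hu⟩
    · obtain ⟨a, b, ha, hb, hab, -, -, hpairs, hsq⟩ := node_loc hm hsep hp2 hl hv M P
        (fun x hx => hM x (by rw [aeval_map_evZ]; exact hx))
      refine ⟨a, b, by rw [aeval_map_evZ]; exact ha, by rw [aeval_map_evZ]; exact hb, hab,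
        trivial, fun u u' hu hu' huu hn => ?_, fun _ huniq => hv.odd_log P hsq huniq⟩
      rw [aeval_map_evZ] at hu hu'
      exact hpairs u u' hu hu' huu hn
  have hconn : Connects (κ := ({v} : Set (HeightOneSpectrum (𝓞 K)))) (mapQ K f)
      (fun _ _ _ => True) := by
    intro a b hab _ x y
    by_cases hxy : x = y
    · rw [hxy]
    have hr : ∀ u : (mapQ K f).rootSet (AlgebraicClosure K), evZ (u : AlgebraicClosure K) f = 0 := by
      intro u
      have h1 := (mem_rootSet.1 u.2).2
      rwa [aeval_map_evZ] at h1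
    have hinj : ∀ u u' : (mapQ K f).rootSet (AlgebraicClosure K), u ≠ u' →
        Function.Injective ![(u : AlgebraicClosure K), (u' : AlgebraicClosure K)] := by
      intro u u' hne i j hij
      fin_cases i <;> fin_cases j <;> simp at hij ⊢
      · first | exact hne hij | exact hne (Subtype.ext hij)
      · first | exact hne hij.symm | exact hne (Subtype.ext hij.symm)
    obtain ⟨s, hs⟩ := h2 ![(a ⟨v, rfl⟩ : AlgebraicClosure K), (b ⟨v, rfl⟩ : AlgebraicClosure K)]
      ![(x : AlgebraicClosure K), (y : AlgebraicClosure K)] (hinj _ _ (hab _)) (hinj _ _ hxy)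
      (fun i => by
        fin_cases i
        · exact hr _
        · exact hr _)
      (fun i => by
        fin_cases i
        · exact hr _
        · exact hr _)
    exact Relation.ReflTransGen.single ⟨⟨v, rfl⟩, s, Or.inl ⟨hs 0, hs 1⟩⟩
  have hdK : (mapQ K f).natDegree = f.natDegree := hm.natDegree_map _
  refine master2 (fun _ : Unit => mapQ K f) (fun _ => ⟨hm.map _, hsep, by rwa [hdK],
    two_ne_zero⟩) (fun _ => by rw [hdK]; omega) (fun _ => 0) (fun _ _ _ => rfl)
    (fun _ => {v}) (fun _ _ _ _ => True) (fun _ u hu => ?_) (fun _ u hu => ?_)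
    (fun i j hij => absurd hij (lt_irrefl _)) τ hτ
    (fun _ => ⟨{v}, subset_rfl, fun u hu => ?_, hconn⟩)
  · rw [Set.mem_singleton_iff] at hu
    rw [hu]
    exact_mod_cast hv.mem 2 h2p
  · rw [Set.mem_singleton_iff] at hu
    rw [hu]
    exact hnode
  · rw [Set.mem_singleton_iff] at hu
    rw [hu]
    exact hun

/-- the polynomial in the even case is separable -/
theorem polyA_sep {L : Type} [Field L] [CharZero L] {n : ℕ} (hn : 0 < n) (a : Fin (n + 1) → ℤ)
    (hc : a (Fin.last n) ≠ 0) (hsep : (mapQ L (mkP (monA a))).Separable) :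
    (mapQ L (polyA a)).Separable := by
  rw [Polynomial.Separable, isCoprime_iff_aeval_ne_zero_of_isAlgClosed L (AlgebraicClosure L)]
  intro y
  by_cases hy : aeval y (mapQ L (polyA a)) = 0
  · refine Or.inr fun h => ?_
    rw [derivative_map, aeval_map_evZ] at h
    rw [aeval_map_evZ] at hy
    have h1 := evZ_monA hn a y
    rw [hy, mul_zero] at h1
    have h2 := evZ_deriv_monA hn a y
    rw [h, mul_zero, mul_eq_zero] at h2
    have hc' : (((a (Fin.last n) : ℤ) : AlgebraicClosure L)) ≠ 0 := by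
      have h3 : (((a (Fin.last n) : ℤ) : AlgebraicClosure L)) =
          algebraMap L (AlgebraicClosure L) ((a (Fin.last n) : ℤ) : L) := by rw [map_intCast]
      rw [h3, _root_.map_ne_zero]
      exact_mod_cast hc
    have h3 := h2.resolve_left hc'
    have h4 := hsep.aeval_derivative_ne_zero (x := ((a (Fin.last n) : ℤ) : AlgebraicClosure L) * y)
      (by rw [aeval_map_evZ]; exact h1)
    rw [derivative_map, aeval_map_evZ] at h4
    exact h4 h3
  · exact Or.inl hy

/-- **Even degree.** -/
theorem even_main {L : Type} [Field L] [NumberField L] [Algebra K L] {n : ℕ} (he : Even n)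
    (h4 : 4 ≤ n) (a : Fin (n + 1) → ℤ)
    (hsep : (mapQ K (mkP (monA a))).Separable) (hp2 : p ≠ 2)
    (hc : ¬ (p : ℤ) ∣ a (Fin.last n)) {γ : ℤ} (hl : LocN p (mkP (monA a)) γ)
    {v : HeightOneSpectrum (𝓞 K)} (hv : PlaceP p v) (h1 : KT K (mkP (monA a)) 1)
    (h3 : KT K (mkP (monA a)) 3) {α : L} (hα : evZ α (polyA a) = 0)
    (htop : IntermediateField.adjoin K {α} = ⊤) {d : ℕ}
    (τ : AbsoluteGaloisGroup L →* Matrix (Fin d) (Fin d) ℚ_[2]) (hτ : IsLattice τ)
    (hun : ∀ w : HeightOneSpectrum (𝓞 L), PlaceP p w → Unramified τ w) :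
    EveryPrime (fun _ : Unit => oddM (mapQ L (polyA a)) α) τ := by
  classical
  have hn : 0 < n := by omega
  have h2p : ¬ (p : ℤ) ∣ 2 := by
    intro h1
    have h3 : p ∣ 2 := by exact_mod_cast h1
    exact hp2 ((Nat.prime_dvd_prime_iff_eq Fact.out Nat.prime_two).1 h3)
  have hc0 : a (Fin.last n) ≠ 0 := by
    intro h
    rw [h] at hc
    exact hc (dvd_zero _)
  set c : ℤ := a (Fin.last n) with hcd
  set f : ℤ[X] := mkP (monA a) with hf
  have hm : f.Monic := mkP_monic _
  have hfd : f.natDegree = n := mkP_natDegree _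
  have hcL : ∀ (F : Type) [Field F] [Algebra L F], ((c : ℤ) : F) ≠ 0 := by
    intro F _ _
    have h3 : ((c : ℤ) : F) = algebraMap L F ((c : ℤ) : L) := by rw [map_intCast]
    rw [h3, _root_.map_ne_zero]
    exact_mod_cast hc0
  have hsepL : (mapQ L f).Separable := by
    have h5 := hsep.map (f := algebraMap K L)
    rwa [mapQ, Polynomial.map_map, RingHom.ext_int ((algebraMap K L).comp (Int.castRingHom K))
      (Int.castRingHom L)] at h5
  have hsepA : (mapQ L (polyA a)).Separable := polyA_sep hn a hc0 hsepL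
  have hA0 : mapQ L (polyA a) ≠ 0 := hsepA.ne_zero
  -- degrees
  have hAd : (mapQ L (polyA a)).natDegree = n := by
    have h5 : (mapQ L (polyA a)) = ∑ i : Fin (n + 1), C ((a i : ℤ) : L) * X ^ (i : ℕ) := by
      rw [mapQ, polyA_map]
      rfl
    refine natDegree_eq_of_le_of_coeff_ne_zero ?_ ?_
    · rw [h5]
      refine natDegree_sum_le_of_forall_le _ _ fun i _ => ?_
      exact (natDegree_C_mul_X_pow_le _ _).trans (by have := i.2; omega)
    · rw [h5, finset_sum_coeff, Finset.sum_eq_single (Fin.last n)]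
      · rw [coeff_C_mul, Fin.val_last, coeff_X_pow, if_pos rfl, mul_one]
        exact_mod_cast hc0
      · intro i _ hi
        rw [coeff_C_mul, coeff_X_pow, if_neg, mul_zero]
        intro h6
        exact hi (Fin.ext (h6.symm.trans (Fin.val_last n).symm))
      · intro h6
        exact absurd (Finset.mem_univ _) h6
  have hαe : (mapQ L (polyA a)).eval α = 0 := by rw [← evZ_eq_eval, hα]
  have hδ : (mapQ L (polyA a)).derivative.eval α ≠ 0 := by
    have h5 := hsepA.aeval_derivative_ne_zero (x := α) (by rwa [coe_aeval_eq_eval])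
    rwa [coe_aeval_eq_eval] at h5
  have hnd : (mapQ L (polyA a)).natDegree = (n - 1) + 1 := by rw [hAd]; omega
  obtain ⟨hmon, hdeg⟩ := oddM_monic hαe hδ hnd
  have hsepM := oddM_sep hA0 hsepA hαe hnd
  -- the integral root
  have hβ : evZ ((c : L) * α) f = 0 := by
    have h5 := evZ_monA hn a α
    rw [hα, mul_zero] at h5
    exact h5
  let β : 𝓞 L := ⟨(c : L) * α, evZ_int_of hm hβ⟩
  have hβ' : evZ β f = 0 := by
    apply RingOfIntegers.ext
    have h5 := hom_evZ (algebraMap (𝓞 L) L) f β
    exact (h5.trans hβ).trans (map_zero (algebraMap (𝓞 L) L)).symm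
  have hcoe : ((β : 𝓞 L) : L) = (c : L) * α := rfl
  have htop' : IntermediateField.adjoin K {(β : L)} = ⊤ := by
    rw [eq_top_iff, ← htop, IntermediateField.adjoin_le_iff]
    intro x hx
    have h5 : x = (c : L)⁻¹ * (β : L) := by
      rw [Set.mem_singleton_iff.1 hx, hcoe, ← mul_assoc, inv_mul_cancel₀ (hcL L), one_mul]
    have h6 : (c : L) ∈ IntermediateField.adjoin K {(β : L)} := intCast_mem _ c
    rw [SetLike.mem_coe]
    rw [h5]
    exact mul_mem (inv_mem h6) (IntermediateField.mem_adjoin_simple_self K (β : L))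
  obtain ⟨w, hwv, hw, hne⟩ := exists_placeP hm (by omega) hsep hp2 hl hv h1 hβ' htop'
  set δ := (mapQ L (polyA a)).derivative.eval α with hδd
  -- the valuation of `c δ`
  have hcw : w.valuation L ((c : ℤ) : L) = 1 := hw.one c hc
  have hδe : δ = evZ α (derivative (polyA a)) := by
    rw [hδd, derivative_map, ← evZ_eq_eval]
  have hεw : w.valuation L ((c : L) * δ) = 1 := by
    have h5 := evZ_deriv_monA hn a α
    rw [← hδe] at h5
    obtain ⟨π, hπ⟩ := exists_red_of hv w
    have h6 := deriv_notMem hl hπ hβ' hne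
    have h7 : w.valuation L (evZ (β : L) (derivative f)) = 1 := by
      have h8 : evZ (β : L) (derivative f) = algebraMap (𝓞 L) L (evZ β (derivative f)) :=
        (hom_evZ (algebraMap (𝓞 L) L) (derivative f) β).symm
      rw [h8]
      refine le_antisymm (w.valuation_le_one _) (not_lt.1 fun h9 => h6 ?_)
      exact (w.valuation_lt_one_iff_mem (K := L) _).1 h9
    have h8 := congrArg (w.valuation L) h5
    rw [map_mul, map_mul, map_pow, ← hcd, hcw, one_mul, one_pow, one_mul] at h8
    rw [map_mul, hcw, one_mul, ← h8]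
    exact h7
  have hε : (c : L) * δ ≠ 0 := mul_ne_zero (hcL L) hδ
  have hg : ∀ (F : Type) [Field F] [Algebra L F] (u : F),
      aeval u (oddM (mapQ L (polyA a)) α) = 0 ↔ u ≠ 0 ∧
      evZ (algebraMap L F (β : L) + algebraMap L F ((c : L) * δ) / u) f = 0 := by
    intro F _ _ u
    rw [oddM_root hA0 hδ, aeval_map_evZ]
    have h5 := evZ_monA hn a (algebraMap L F α + algebraMap L F δ / u)
    have h6 : (((a (Fin.last n) : ℤ) : F)) * (algebraMap L F α + algebraMap L F δ / u) =
        algebraMap L F (β : L) + algebraMap L F ((c : L) * δ) / u := by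
      rw [hcoe, map_mul, map_mul, map_intCast, ← hcd]
      ring
    rw [h6] at h5
    rw [h5, mul_eq_zero, or_iff_right (pow_ne_zero _ (hcL F))]
  have hnode := node_model hm hsepL hp2 hl hw hβ' hne hε hεw hg
  have hconn : Connects (κ := ({w} : Set (HeightOneSpectrum (𝓞 L))))
      (oddM (mapQ L (polyA a)) α) (fun _ _ _ => True) :=
    connects_model h3 (f := f) (α := (β : L)) hβ htop' hε
      (fun u hu => (hg _ u).1 hu) _
  refine master2 (fun _ : Unit => oddM (mapQ L (polyA a)) α) (fun _ => ⟨hmon, hsepM, ?_,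
    two_ne_zero⟩) (fun _ => by rw [hdeg]; omega) (fun _ => 0) (fun _ _ _ => rfl)
    (fun _ => {w}) (fun _ _ _ _ => True) (fun _ u hu => ?_) (fun _ u hu => ?_)
    (fun i j hij => absurd hij (lt_irrefl _)) τ hτ
    (fun _ => ⟨{w}, subset_rfl, fun u hu => ?_, hconn⟩)
  · rw [hdeg]
    obtain ⟨k, hk⟩ := he
    exact ⟨k - 1, by omega⟩
  · rw [Set.mem_singleton_iff] at hu
    rw [hu]
    exact_mod_cast hw.mem 2 h2p
  · rw [Set.mem_singleton_iff] at hu
    rw [hu]
    exact hnode
  · rw [Set.mem_singleton_iff] at hu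
    rw [hu]
    exact hun w hw

end main

end

end Pool.Agent.H852.J
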