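import Mathlib
import Pool.Agent.H852.J.L6
import Pool.Agent.H852.J.D7

/-!
# Counts modulo prime numbers, for polynomials which are not monic
-/

set_option linter.unusedSectionVars false
set_option autoImplicit false

open Polynomial Finset NumberField

namespace Pool.Agent.H852.J

noncomputable section

section cert

variable {p : ℕ} [Fact p.Prime]

/-- the event: an irreducible polynomial times `k` different linear factors -/
def EvT (k : ℕ) (f : (ZMod p)[X]) : Prop :=
  ∃ (r : Fin k → ZMod p) (Q : (ZMod p)[X]), Function.Injective r ∧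
    f = (∏ i, (X - C (r i))) * Q ∧ Irreducible Q ∧ ∀ i, Q.eval (r i) ≠ 0

open Classical in
theorem evT_count {n k : ℕ} (hk : k + 2 ≤ n) (hp : 2 * n ^ 2 ≤ p) :
    p ^ n ≤ 2 ^ k * (2 * n * n ^ k) *
      (univ.filter fun u : Fin n → ZMod p => EvT k (mkP u)).card := by
  obtain ⟨m, rfl⟩ : ∃ m, n = k + m := ⟨n - k, by omega⟩
  have hm2 : 2 ≤ m := by omega
  have hpp : p.Prime := Fact.out
  have hkp : 2 * k ≤ p := by
    refine le_trans ?_ hp
    refine Nat.mul_le_mul_left 2 ?_
    calc k ≤ k + m := Nat.le_add_right _ _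
      _ = (k + m) ^ 1 := (pow_one _).symm
      _ ≤ (k + m) ^ 2 := Nat.pow_le_pow_right (by omega) (by omega)
  have h1 := irr_count (p := p) (m := m) (by omega) (le_trans (Nat.mul_le_mul_left 2
    (Nat.pow_le_pow_left (by omega) 2)) hp)
  set Irr := univ.filter fun u : Fin m → ZMod p => Irreducible (mkP u) with hIrr
  set Inj := univ.filter fun r : Fin k → ZMod p => Function.Injective r with hInj
  have hInjc : p ^ k ≤ 2 ^ k * Inj.card := by
    have h2 : Inj.card = p.descFactorial k := by
      have h3 := Fintype.card_embedding_eq (α := Fin k) (β := ZMod p)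
      rw [Fintype.card_fin, ZMod.card] at h3
      rw [← h3, hInj, ← Fintype.card_subtype]
      exact Fintype.card_congr (Equiv.subtypeInjectiveEquivEmbedding (Fin k) (ZMod p))
    rw [h2]
    have h3 := Nat.pow_sub_le_descFactorial p k
    refine le_trans ?_ (Nat.mul_le_mul_left _ h3)
    rw [← mul_pow]
    exact Nat.pow_le_pow_left (by omega) k
  -- the product
  let P : (Fin k → ZMod p) × (Fin m → ZMod p) → (ZMod p)[X] := fun x =>
    (∏ i, (X - C (x.1 i))) * mkP x.2
  have hPm : ∀ x, (P x).Monic := fun x =>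
    (monic_prod_of_monic _ _ fun i _ => monic_X_sub_C _).mul (mkP_monic _)
  have hPd : ∀ x, (P x).natDegree = k + m := by
    intro x
    change ((∏ i, (X - C (x.1 i))) * mkP x.2).natDegree = _
    rw [(monic_prod_of_monic _ _ fun i _ => monic_X_sub_C _).natDegree_mul (mkP_monic _),
      mkP_natDegree, natDegree_prod_of_monic _ _ fun i _ => monic_X_sub_C _]
    simp
  let g : (Fin k → ZMod p) × (Fin m → ZMod p) → (Fin (k + m) → ZMod p) := fun x i => (P x).coeff i
  have hg : ∀ x, mkP (g x) = P x := fun x => mkP_coeff_self (hPm x) (hPd x)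
  have hnr : ∀ q : Fin m → ZMod p, Irreducible (mkP q) → ∀ r, (mkP q).eval r ≠ 0 := by
    intro q hq r h
    have h2 : (mkP q).natDegree = 1 :=
      natDegree_eq_of_degree_eq_some (degree_eq_one_of_irreducible_of_root hq h)
    rw [mkP_natDegree] at h2
    omega
  have hfib : (Inj ×ˢ Irr).card ≤ (k + m) ^ k * ((Inj ×ˢ Irr).image g).card := by
    refine card_le_mul_card_image _ _ fun u hu => ?_
    have h2 : ((Inj ×ˢ Irr).filter fun x => g x = u).card ≤
        (Fintype.piFinset fun _ : Fin k => (mkP u).roots.toFinset).card := by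
      refine card_le_card_of_injOn (fun x => x.1) ?_ ?_
      · intro x hx
        rw [mem_coe, mem_filter] at hx
        rw [mem_coe, Fintype.mem_piFinset]
        intro i
        rw [Multiset.mem_toFinset, mem_roots (mkP_monic u).ne_zero, ← hx.2, hg, IsRoot.def]
        change ((∏ i, (X - C (x.1 i))) * mkP x.2).eval (x.1 i) = 0
        rw [eval_mul, eval_prod, prod_eq_zero (mem_univ i), zero_mul]
        rw [eval_sub, eval_X, eval_C, sub_self]
      · intro x hx y hy hxy
        rw [mem_coe, mem_filter] at hx hy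
        dsimp only at hxy
        have h3 : P x = P y := by rw [← hg, ← hg, hx.2, hy.2]
        have h4 : mkP x.2 = mkP y.2 := by
          have h5 : (∏ i, (X - C (x.1 i))) * mkP x.2 = (∏ i, (X - C (y.1 i))) * mkP y.2 := h3
          rw [hxy] at h5
          exact mul_left_cancel₀ (monic_prod_of_monic _ _ fun i _ => monic_X_sub_C _).ne_zero h5
        exact Prod.ext hxy (mkP_injective h4)
    refine h2.trans ?_
    rw [Fintype.card_piFinset, prod_const, card_univ, Fintype.card_fin]
    refine Nat.pow_le_pow_left ?_ k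
    refine (Multiset.toFinset_card_le _).trans ((card_roots' _).trans ?_)
    rw [mkP_natDegree]
  have himg : ((Inj ×ˢ Irr).image g).card ≤
      (univ.filter fun u : Fin (k + m) → ZMod p => EvT k (mkP u)).card := by
    refine card_le_card fun u hu => ?_
    rw [mem_image] at hu
    obtain ⟨x, hx, rfl⟩ := hu
    rw [mem_product, mem_filter, mem_filter] at hx
    rw [mem_filter]
    exact ⟨mem_univ _, x.1, mkP x.2, hx.1.2, hg x, hx.2.2, fun i => hnr _ hx.2.2 _⟩
  rw [card_product] at hfib
  calc p ^ (k + m) = p ^ k * p ^ m := pow_add _ _ _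
    _ ≤ (2 ^ k * Inj.card) * (2 * m * Irr.card) := Nat.mul_le_mul hInjc h1
    _ = 2 ^ k * (2 * m) * (Inj.card * Irr.card) := by ring
    _ ≤ 2 ^ k * (2 * (k + m)) * ((k + m) ^ k * ((Inj ×ˢ Irr).image g).card) :=
      Nat.mul_le_mul (Nat.mul_le_mul_left _ (by omega)) hfib
    _ ≤ 2 ^ k * (2 * (k + m)) * ((k + m) ^ k * _) :=
      Nat.mul_le_mul_left _ (Nat.mul_le_mul_left _ himg)
    _ = _ := by ring

end cert

section node

variable {p : ℕ} [Fact p.Prime] {n : ℕ}

/-- the event of a node, modulo `p ^ 2` -/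
def EvN (n : ℕ) (u : Fin n → ZMod (p ^ 2)) : Prop :=
  GN2 (p := p) (fun _ : Fin 1 => n) (fun k => u k.2) 0

open Classical in
theorem evN_count [NeZero (p ^ 2)] (hn : 3 ≤ n) (hp : n + 2 * (n * n * n) + 2 * (1 + n ^ 2) < p) :
    (p ^ 2) ^ n ≤ 16 * n * p *
      (univ.filter fun u : Fin n → ZMod (p ^ 2) => EvN n u).card := by
  have hDD : DD (fun _ : Fin 1 => n) = n := by simp [DD]
  have h1 := N2_count (p := p) (d := fun _ : Fin 1 => n) (fun _ => hn) (by rw [hDD]; omega)
    (by rw [hDD]; omega) (by rw [hDD]; omega) 0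
  rw [hDD] at h1
  have hc : Fintype.card (Σ _ : Fin 1, Fin n) = n := by simp
  rw [hc] at h1
  refine h1.trans (Nat.mul_le_mul_left _ (le_of_eq ?_))
  refine card_bij (fun y _ => fun i : Fin n => y ⟨0, i⟩) ?_ ?_ ?_
  · intro y hy
    rw [mem_filter] at hy ⊢
    refine ⟨mem_univ _, ?_⟩
    have h2 : (fun k : (Σ _ : Fin 1, Fin n) => y ⟨0, k.2⟩) = y := by
      funext k
      obtain ⟨i, j⟩ := k
      fin_cases i
      rfl
    rw [EvN, h2]
    exact hy.2
  · intro y _ y' _ h
    funext k
    obtain ⟨i, j⟩ := k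
    fin_cases i
    exact congrFun h j
  · intro u hu
    rw [mem_filter] at hu
    exact ⟨fun k => u k.2, mem_filter.2 ⟨mem_univ _, hu.2⟩, rfl⟩

theorem locN_of (x : Fin n → ℤ) (h : EvN (p := p) n (fun i => (x i : ZMod (p ^ 2)))) :
    ∃ γ : ℤ, LocN p (mkP x) γ := by
  obtain ⟨γ, hγ⟩ := locNode_of (d := fun _ : Fin 1 => n) (fun k => x k.2) h
  have h0 : polyOf (fun _ : Fin 1 => n) (fun k => x k.2) 0 = mkP x := by
    have h1 := polyOf_lt (d := fun _ : Fin 1 => n) (fun k => x k.2) (0 : Fin 1)
    exact h1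
  have h1 : cmpR (polyOf (fun _ : Fin 1 => n) (fun k => x k.2)) (0 + 1) = mkP x := by
    rw [cmpR, cmpR, X_comp, h0]
  refine ⟨γ, ⟨?_, ?_, ?_, ?_, ?_⟩⟩
  · have h2 := hγ.crit
    rwa [h0] at h2
  · have h2 := hγ.simple
    rwa [h0] at h2
  · have h2 := hγ.zero
    rwa [h1] at h2
  · have h2 := hγ.sq
    rwa [h1] at h2
  · intro y hy hy'
    refine hγ.only y ?_ ?_
    · rw [h0]
      exact hy
    · rw [h1]
      exact hy'

end node

section lead

variable {m : ℕ} [NeZero m] {n : ℕ}

open Classical in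
/-- from monic polynomials to all polynomials -/
theorem lead_count (hm : m ≤ 2 * Fintype.card (ZMod m)ˣ) (E : (Fin n → ZMod m) → Prop) {c : ℕ}
    (h : m ^ n ≤ c * (univ.filter E).card) :
    m ^ (n + 1) ≤ 2 * c * (univ.filter fun a : Fin (n + 1) → ZMod m =>
      IsUnit (a (Fin.last n)) ∧ E (monA a)).card := by
  have h1 : ((univ : Finset (ZMod m)ˣ) ×ˢ univ.filter E).card ≤
      (univ.filter fun a : Fin (n + 1) → ZMod m =>
        IsUnit (a (Fin.last n)) ∧ E (monA a)).card := by
    refine card_le_card_of_injOn (fun x => Fin.lastCases (x.1 : ZMod m)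
      (fun i => x.2 i * ((x.1⁻¹ : (ZMod m)ˣ) : ZMod m) ^ (n - 1 - (i : ℕ)))) ?_ ?_
    · rintro ⟨c, u⟩ hx
      rw [mem_coe, mem_product, mem_filter] at hx
      rw [mem_coe, mem_filter]
      refine ⟨mem_univ _, ?_, ?_⟩
      · dsimp only
        rw [Fin.lastCases_last]
        exact c.isUnit
      · have h2 : monA (Fin.lastCases (c : ZMod m)
            (fun i => u i * ((c⁻¹ : (ZMod m)ˣ) : ZMod m) ^ (n - 1 - (i : ℕ))) :
              Fin (n + 1) → ZMod m) = u := by
          funext i
          rw [monA, Fin.lastCases_last, Fin.lastCases_castSucc, mul_assoc, ← mul_pow,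
            Units.inv_mul, one_pow, mul_one]
        dsimp only
        rw [h2]
        exact hx.2.2
    · rintro ⟨c, u⟩ _ ⟨c', u'⟩ _ h2
      dsimp only at h2
      have h3 := congrFun h2 (Fin.last n)
      rw [Fin.lastCases_last, Fin.lastCases_last] at h3
      have h4 : c = c' := Units.ext h3
      subst h4
      have h5 : u = u' := by
        funext i
        have h6 := congrFun h2 i.castSucc
        rw [Fin.lastCases_castSucc, Fin.lastCases_castSucc] at h6
        exact (Units.mul_left_inj (c⁻¹ ^ (n - 1 - (i : ℕ)))).1 (by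
          rw [Units.val_pow_eq_pow_val]
          exact h6)
      rw [h5]
  rw [card_product, card_univ] at h1
  calc m ^ (n + 1) = m ^ n * m := pow_succ _ _
    _ ≤ (c * (univ.filter E).card) * (2 * Fintype.card (ZMod m)ˣ) := Nat.mul_le_mul h hm
    _ = 2 * c * (Fintype.card (ZMod m)ˣ * (univ.filter E).card) := by ring
    _ ≤ _ := Nat.mul_le_mul_left _ h1

theorem units_p (p : ℕ) [hp : Fact p.Prime] (k : ℕ) [NeZero (p ^ (k + 1))] :
    p ^ (k + 1) ≤ 2 * Fintype.card (ZMod (p ^ (k + 1)))ˣ := by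
  rw [ZMod.card_units_eq_totient, Nat.totient_prime_pow_succ hp.out, pow_succ]
  have := hp.out.two_le
  calc p ^ k * p ≤ p ^ k * (2 * (p - 1)) := Nat.mul_le_mul_left _ (by omega)
    _ = _ := by ring

end lead

end

end Pool.Agent.H852.J
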