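import Mathlib
import Pool.Agent.H852.J.L7

/-!
# Almost all hyperelliptic curves
-/

set_option linter.unusedSectionVars false
set_option autoImplicit false

open Polynomial Finset NumberField IsDedekindDomain
open Pool.Agent.Results.MP_640417_ag.HyperellipticEveryPrime

namespace Pool.Agent.H852.J

noncomputable section

theorem monA_cast {n : ℕ} {R : Type} [CommRing R] (a : Fin (n + 1) → ℤ) :
    (mkP (monA a)).map (Int.castRingHom R) = mkP (monA fun i => (a i : R)) := by
  rw [mkP_map]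
  congr 1
  funext i
  exact monA_map (Int.castRingHom R) a i

theorem AlmostNone.ncard {κ : Type} [Fintype κ] [DecidableEq κ] {P : (κ → ℤ) → Prop}
    (h : AlmostNone P) {ε : ℝ} (hε : 0 < ε) : ∃ H₀ : ℕ, ∀ H : ℕ, H₀ ≤ H →
    ({x : κ → ℤ | (∀ k, |x k| ≤ (H : ℤ)) ∧ P x}.ncard : ℝ) ≤
      ε * (2 * H + 1) ^ Fintype.card κ := by
  obtain ⟨H₀, h⟩ := h ε hε
  refine ⟨H₀, fun H hH => le_trans (le_of_eq ?_) (h H hH)⟩
  rw [← Set.ncard_coe_finset, coe_filter]
  congr 2
  ext x
  simp only [Set.mem_setOf_eq, mem_boxK, abs_le]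

section density

variable {n : ℕ}

/-- almost all polynomials have certificates of multiple transitivity -/
theorem almost_T (K : Type) [Field K] [NumberField K] {k : ℕ} (hk : k + 2 ≤ n) :
    AlmostNone fun a : Fin (n + 1) → ℤ =>
      ¬ ∃ (p : ℕ) (_ : Fact p.Prime) (_ : 𝓞 K →+* ZMod p) (r : Fin k → ZMod p)
        (Q : (ZMod p)[X]), CertT p (mkP (monA a)) k r Q := by
  classical
  set b : ℕ := 2 * n ^ 2 with hb
  set c : ℕ := 2 * (2 ^ k * (2 * n * n ^ k)) with hc
  have hc0 : 0 < c := by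
    have : 0 < n := by omega
    positivity
  have hinf : {p : ℕ | p.Prime ∧ b < p ∧ Nonempty (𝓞 K →+* ZMod p)}.Infinite := by
    rw [Set.infinite_iff_exists_gt]
    intro a
    obtain ⟨p, hp, hlt, φ, -⟩ := exists_hom K 1 one_ne_zero (a + b)
    exact ⟨p, ⟨hp.out, by omega, ⟨φ⟩⟩, by omega⟩
  have hc1 : (1 : ℝ) ≤ c := by exact_mod_cast hc0
  refine almostNone_of_bad {p : ℕ | p.Prime ∧ b < p ∧ Nonempty (𝓞 K →+* ZMod p)} (fun p => p)
    (fun p hp => hp.1.pos)
    (fun p hp q hq hpq => coprime_primes' hp.1 hq.1 hpq) (fun _ => 1 - 1 / (c : ℝ))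
    (prod_small_const hinf (by
      rw [sub_nonneg, div_le_one (by positivity)]
      exact hc1) (by
      rw [sub_lt_self_iff]
      positivity)) _ ?_
  rintro p ⟨hp, hpb, ⟨φ⟩⟩
  have hfact : Fact p.Prime := ⟨hp⟩
  refine ⟨univ.filter fun a => ¬ (IsUnit (a (Fin.last n)) ∧ EvT k (mkP (monA a))), ?_,
    fun x hx => ?_⟩
  · have h1 := lead_count (m := p) (n := n) (by
      rw [ZMod.card_units p]
      have := hp.two_le
      omega) (fun u => EvT k (mkP u)) (evT_count hk hpb.le)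
    have h2 := compl_bound (V := Fin (n + 1) → ZMod p)
      (fun a => IsUnit (a (Fin.last n)) ∧ EvT k (mkP (monA a))) (c := c) hc0 (by
        rw [Fintype.card_fun, ZMod.card, Fintype.card_fin]
        exact h1)
    rw [Fintype.card_fun, ZMod.card] at h2
    refine h2.trans (le_of_eq ?_)
    push_cast
    rfl
  · rw [mem_filter]
    refine ⟨mem_univ _, fun h => hx ?_⟩
    obtain ⟨-, r, Q, h1, h2, h3, h4⟩ := h
    exact ⟨p, hfact, φ, r, Q, h1, by rw [monA_cast]; exact h2, h3, h4⟩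

/-- almost all polynomials have a node outside of a given set of prime numbers -/
theorem almost_N (hn : 3 ≤ n) (n₀ : ℕ) (hn₀ : 0 < n₀) :
    AlmostNone fun a : Fin (n + 1) → ℤ =>
      ¬ ∃ (p : ℕ) (_ : Fact p.Prime) (γ : ℤ), ¬ p ∣ n₀ ∧ ¬ (p : ℤ) ∣ a (Fin.last n) ∧
        LocN p (mkP (monA a)) γ := by
  classical
  set b : ℕ := n₀ + n + 2 * (n * n * n) + 2 * (1 + n ^ 2) with hb
  have hn' : (1 : ℝ) ≤ n := by exact_mod_cast (by omega : 1 ≤ n)
  refine almostNone_of_bad {p : ℕ | p.Prime ∧ b < p} (fun p => p ^ 2)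
    (fun p hp => pow_pos hp.1.pos 2)
    (fun p hp q hq hpq => Nat.Coprime.pow 2 2 (coprime_primes' hp.1 hq.1 hpq))
    (fun p => 1 - (1 / (32 * n : ℝ)) / p)
    (prod_small_prime b (by positivity) ?_) _ ?_
  · have h1 : (1 : ℝ) ≤ (b : ℝ) := by
      have h2 : 1 ≤ b := by omega
      exact_mod_cast h2
    refine le_trans ?_ h1
    rw [div_le_one (by positivity)]
    linarith
  · rintro p ⟨hp, hpb⟩
    have hfact : Fact p.Prime := ⟨hp⟩
    have hne : NeZero (p ^ 2) := ⟨pow_ne_zero 2 hp.ne_zero⟩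
    have hne' : NeZero (p ^ (1 + 1)) := ⟨pow_ne_zero 2 hp.ne_zero⟩
    refine ⟨univ.filter fun a => ¬ (IsUnit (a (Fin.last n)) ∧ EvN n (monA a)), ?_,
      fun x hx => ?_⟩
    · have h0 : p ^ 2 ≤ 2 * Fintype.card (ZMod (p ^ 2))ˣ := by
        have h3 := units_p p 1
        convert h3 using 2
      have h1 := lead_count (m := p ^ 2) (n := n) h0 (EvN n) (evN_count hn (by omega))
      have h2 := compl_bound (V := Fin (n + 1) → ZMod (p ^ 2))
        (fun a => IsUnit (a (Fin.last n)) ∧ EvN n (monA a)) (c := 2 * (16 * n * p))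
        (by have := hp.pos; positivity) (by
          rw [Fintype.card_fun, ZMod.card, Fintype.card_fin]
          exact h1)
      rw [Fintype.card_fun, ZMod.card] at h2
      refine h2.trans (le_of_eq ?_)
      push_cast
      congr 2
      rw [div_div]
      congr 1
      ring
    · rw [mem_filter]
      refine ⟨mem_univ _, fun h => hx ?_⟩
      obtain ⟨h1, h2⟩ := h
      have h3 : (monA fun i => (x i : ZMod (p ^ 2))) = fun i => ((monA x i : ℤ) : ZMod (p ^ 2)) := by
        funext i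
        exact (monA_map (Int.castRingHom (ZMod (p ^ 2))) x i).symm
      rw [h3] at h2
      obtain ⟨γ, hγ⟩ := locN_of (monA x) h2
      refine ⟨p, hfact, γ, fun h4 => ?_, fun h4 => ?_, hγ⟩
      · have := Nat.le_of_dvd hn₀ h4
        omega
      · obtain ⟨q, hq⟩ := h4
        dsimp only at h1
        rw [hq, Int.cast_mul, Int.cast_natCast] at h1
        have h5 : IsUnit ((p : ℕ) : ZMod (p ^ 2)) := isUnit_of_mul_isUnit_left h1
        rw [ZMod.isUnit_iff_coprime, Nat.coprime_pow_right_iff two_pos, Nat.coprime_self] at h5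
        exact hp.one_lt.ne' h5

end density

section main

variable {K : Type} [Field K] [NumberField K]

/-- separability from a certificate -/
theorem sep_of_cert {f : ℤ[X]} (hm : f.Monic) {p : ℕ} [Fact p.Prime] {r : Fin 0 → ZMod p}
    {Q : (ZMod p)[X]} (h : CertT p f 0 r Q) : (mapQ K f).Separable := by
  have h1 : Irreducible (f.map (Int.castRingHom (ZMod p))) := by
    have h2 := h.fac
    rw [Finset.univ_eq_empty, Finset.prod_empty, one_mul] at h2
    rw [h2]
    exact h.irr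
  have h2 : Irreducible f := hm.irreducible_of_irreducible_map _ _ h1
  have h3 : Irreducible (f.map (algebraMap ℤ ℚ)) :=
    (hm.irreducible_iff_irreducible_map_fraction_map (K := ℚ)).1 h2
  have h4 := h3.separable.map (f := algebraMap ℚ K)
  rw [Polynomial.map_map] at h4
  have h5 : (algebraMap ℚ K).comp (algebraMap ℤ ℚ) = Int.castRingHom K := RingHom.ext_int _ _
  rwa [h5] at h4

/-- **Almost all hyperelliptic curves, uniformly in the additional motive.** -/
theorem almost_all {n : ℕ} (hn : 3 ≤ n) (n₁ : ℕ) (hn₁ : 0 < n₁) :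
    AlmostNone fun a : Fin (n + 1) → ℤ => ¬
      ((Odd n → ∀ (d : ℕ) (τ : AbsoluteGaloisGroup K →* Matrix (Fin d) (Fin d) ℚ_[2]),
        IsLattice τ → (∀ v : HeightOneSpectrum (𝓞 K), (n₁ : 𝓞 K) ∉ v.asIdeal → Unramified τ v) →
        EveryPrime (fun _ : Unit => mapQ K (mkP (monA a))) τ) ∧
      (Even n → ∀ (L : Type) [Field L] [NumberField L] [Algebra K L] (α : L),
        evZ α (polyA a) = 0 → IntermediateField.adjoin K {α} = ⊤ →
        ∀ (d : ℕ) (τ : AbsoluteGaloisGroup L →* Matrix (Fin d) (Fin d) ℚ_[2]),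
        IsLattice τ → (∀ v : HeightOneSpectrum (𝓞 L), (n₁ : 𝓞 L) ∉ v.asIdeal → Unramified τ v) →
        EveryPrime (fun _ : Unit => oddM (mapQ L (polyA a)) α) τ)) := by
  classical
  have hdisc : 0 < (NumberField.discr K).natAbs :=
    Int.natAbs_pos.2 (NumberField.discr_ne_zero K)
  have hN := almost_N hn (2 * (NumberField.discr K).natAbs * n₁) (by positivity)
  have h0 := almost_T K (n := n) (k := 0) (by omega)
  have h1 := almost_T K (n := n) (k := 1) (by omega)
  have h2 : AlmostNone fun a : Fin (n + 1) → ℤ => Even n ∧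
      ¬ ∃ (p : ℕ) (_ : Fact p.Prime) (_ : 𝓞 K →+* ZMod p) (r : Fin 2 → ZMod p)
        (Q : (ZMod p)[X]), CertT p (mkP (monA a)) 2 r Q := by
    by_cases he : Even n
    · have h4 : 4 ≤ n := by
        obtain ⟨k, hk⟩ := he
        omega
      exact (almost_T K (n := n) (k := 2) (by omega)).mono fun a ha => ha.2
    · exact AlmostNone.false.mono fun a ha => he ha.1
  refine ((hN.or h0).or (h1.or h2)).mono fun a ha => ?_
  by_contra hcon
  push Not at hcon
  obtain ⟨⟨⟨p, hp, γ, hpn, hpc, hl⟩, ⟨p₀, hp₀, φ₀, r₀, Q₀, hc0⟩⟩, ⟨p₁, hp₁, φ₁, r₁, Q₁, hc1⟩,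
    h2⟩ := hcon
  apply ha
  have hm : (mkP (monA a)).Monic := mkP_monic _
  have hd : (mkP (monA a)).natDegree = n := mkP_natDegree _
  have hsep := sep_of_cert (K := K) hm hc0
  have k1 : KT K (mkP (monA a)) 1 := kt_step hm φ₀ hc0 kt_zero
  have k2 : KT K (mkP (monA a)) 2 := kt_step hm φ₁ hc1 k1
  have hp2 : p ≠ 2 := by
    rintro rfl
    exact hpn (Dvd.dvd.mul_right (dvd_mul_right _ _) _)
  obtain ⟨v, hv1, hv2, hv3⟩ := exists_unr_place K p hp.out (fun h => hpn
      (Dvd.dvd.mul_right (Dvd.dvd.mul_left (by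
        have := Int.natAbs_dvd_natAbs.2 h
        simpa using this) _) _))
  have hv : PlaceP p v := ⟨hv1, hv2, hv3⟩
  have hpn₁ : ¬ (p : ℤ) ∣ n₁ := fun h => hpn (Dvd.dvd.mul_left (by exact_mod_cast h) _)
  refine ⟨fun ho d τ hτ hun => ?_, fun he L _ _ _ α hα htop d τ hτ hun => ?_⟩
  · exact odd_main hm (by rwa [hd]) (by rwa [hd]) hsep hp2 hl hv k2 τ hτ
      (hun v (by exact_mod_cast hv.mem n₁ hpn₁))
  · obtain ⟨p₂, hp₂', φ₂, r₂, Q₂, hc2⟩ := h2 he
    have k3 : KT K (mkP (monA a)) 3 := kt_step hm φ₂ hc2 k2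
    have h4 : 4 ≤ n := by
      obtain ⟨k, hk⟩ := he
      omega
    exact even_main he h4 a hsep hp2 hpc hl hv k1 k3 hα htop τ hτ
      (fun w hw => hun w (by exact_mod_cast hw.mem n₁ hpn₁))

end main

end

end Pool.Agent.H852.J
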