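import Mathlib
import Pool.Agent.H852.J.L8

/-!
# One exceptional set for countably many conditions
-/

set_option linter.unusedSectionVars false
set_option autoImplicit false

open Polynomial Finset NumberField IsDedekindDomain
open Pool.Agent.Results.MP_640417_ag.HyperellipticEveryPrime

namespace Pool.Agent.H852.J

noncomputable section

section diag

variable {κ : Type} [Fintype κ] [DecidableEq κ]

theorem boxset_finite (κ : Type) [Fintype κ] (H : ℕ) :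
    {x : κ → ℤ | ∀ k, |x k| ≤ (H : ℤ)}.Finite := by
  classical
  refine (boxK κ H).finite_toSet.subset fun a ha => ?_
  rw [Finset.mem_coe, mem_boxK]
  exact fun k => abs_le.1 (ha k)

theorem almostNone_iff {P : (κ → ℤ) → Prop} : AlmostNone P ↔
    ∀ ε : ℝ, 0 < ε → ∃ H₀ : ℕ, ∀ H : ℕ, H₀ ≤ H →
    ({x : κ → ℤ | (∀ k, |x k| ≤ (H : ℤ)) ∧ P x}.ncard : ℝ) ≤
      ε * (2 * H + 1) ^ Fintype.card κ := by
  refine ⟨fun h ε hε => h.ncard hε, fun h ε hε => ?_⟩
  obtain ⟨H₀, h⟩ := h ε hε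
  refine ⟨H₀, fun H hH => le_trans (le_of_eq ?_) (h H hH)⟩
  rw [← Set.ncard_coe_finset, coe_filter]
  congr 2
  ext x
  simp only [Set.mem_setOf_eq, mem_boxK, abs_le]

theorem tail_sum (J H : ℕ) : ∑ j ∈ Ico J H, (1 / 2 : ℝ) ^ (j + 1) ≤ (1 / 2 : ℝ) ^ J := by
  by_cases h : J ≤ H
  · have h1 : ∀ m : ℕ, ∑ j ∈ Ico J (J + m), (1 / 2 : ℝ) ^ (j + 1) =
        (1 / 2 : ℝ) ^ J - (1 / 2 : ℝ) ^ (J + m) := by
      intro m
      induction m with
      | zero => simp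
      | succ m ih =>
        rw [← add_assoc, sum_Ico_succ_top (Nat.le_add_right J m), ih, pow_succ]
        ring
    obtain ⟨m, rfl⟩ := Nat.exists_eq_add_of_le h
    rw [h1, sub_le_self_iff]
    positivity
  · rw [Ico_eq_empty (fun h1 => h h1.le), sum_empty]
    positivity

/-- **One exceptional set, up to finite sets, for countably many conditions.** -/
theorem diag_nat (P : ℕ → (κ → ℤ) → Prop) (h : ∀ j, AlmostNone fun a => ¬ P j a) :
    ∃ E : Set (κ → ℤ), AlmostNone (fun a => a ∈ E) ∧ ∀ j, {a | a ∉ E ∧ ¬ P j a}.Finite := by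
  have h1 : ∀ j : ℕ, ∃ H₀ : ℕ, ∀ H : ℕ, H₀ ≤ H →
      ({x : κ → ℤ | (∀ k, |x k| ≤ (H : ℤ)) ∧ ¬ P j x}.ncard : ℝ) ≤
        (1 / 2 : ℝ) ^ (j + 1) * (2 * H + 1) ^ Fintype.card κ :=
    fun j => (h j).ncard (by positivity)
  choose hh hhb using h1
  let E : Set (κ → ℤ) := {a | ∃ j, ¬ P j a ∧ ¬ ∀ k, |a k| ≤ ((max (hh j) (j + 1) : ℕ) : ℤ)}
  refine ⟨E, ?_, fun j => ?_⟩
  · rw [almostNone_iff]
    intro ε hε
    obtain ⟨J, hJ⟩ := exists_pow_lt_of_lt_one (half_pos hε) (by norm_num : (1 / 2 : ℝ) < 1)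
    have h2 : AlmostNone fun a => ∃ j : Fin J, ¬ P j a := AlmostNone.exists_fin fun j => h j
    obtain ⟨H₁, hH₁⟩ := h2.ncard (half_pos hε)
    refine ⟨H₁, fun H hH => ?_⟩
    have hsub : {x : κ → ℤ | (∀ k, |x k| ≤ (H : ℤ)) ∧ x ∈ E} ⊆
        {x : κ → ℤ | (∀ k, |x k| ≤ (H : ℤ)) ∧ ∃ j : Fin J, ¬ P j x} ∪
        ⋃ j ∈ Ico J H, {x : κ → ℤ | (∀ k, |x k| ≤ (H : ℤ)) ∧ ¬ P j x ∧ hh j ≤ H} := by
      rintro x ⟨hx, j, hj, hjk⟩
      by_cases hjJ : j < J
      · exact Or.inl ⟨hx, ⟨j, hjJ⟩, hj⟩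
      · refine Or.inr ?_
        have h3 : max (hh j) (j + 1) < H := by
          by_contra h3
          apply hjk
          intro k
          refine (hx k).trans ?_
          exact_mod_cast (not_lt.1 h3)
        rw [max_lt_iff] at h3
        rw [Set.mem_iUnion₂]
        exact ⟨j, mem_Ico.2 ⟨not_lt.1 hjJ, by omega⟩, hx, hj, h3.1.le⟩
    have hfin : ∀ Q : (κ → ℤ) → Prop, {x : κ → ℤ | (∀ k, |x k| ≤ (H : ℤ)) ∧ Q x}.Finite :=
      fun Q => (boxset_finite κ H).subset fun x hx => hx.1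
    have hc := (Set.ncard_le_ncard hsub ((hfin _).union
      (Set.Finite.biUnion (finite_toSet _) fun j _ => hfin _))).trans (Set.ncard_union_le _ _)
    have hc2 := hc.trans (Nat.add_le_add_left (Finset.set_ncard_biUnion_le (Ico J H) _) _)
    have hc3 : ({x : κ → ℤ | (∀ k, |x k| ≤ (H : ℤ)) ∧ x ∈ E}.ncard : ℝ) ≤
        ({x : κ → ℤ | (∀ k, |x k| ≤ (H : ℤ)) ∧ ∃ j : Fin J, ¬ P j x}.ncard : ℝ) +
        ∑ j ∈ Ico J H,
          ({x : κ → ℤ | (∀ k, |x k| ≤ (H : ℤ)) ∧ ¬ P j x ∧ hh j ≤ H}.ncard : ℝ) := by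
      exact_mod_cast hc2
    have hV : (0 : ℝ) ≤ (2 * H + 1) ^ Fintype.card κ := by positivity
    have ht : ∑ j ∈ Ico J H,
        ({x : κ → ℤ | (∀ k, |x k| ≤ (H : ℤ)) ∧ ¬ P j x ∧ hh j ≤ H}.ncard : ℝ) ≤
        ∑ j ∈ Ico J H, (1 / 2 : ℝ) ^ (j + 1) * (2 * H + 1) ^ Fintype.card κ := by
      refine sum_le_sum fun j _ => ?_
      by_cases hj : hh j ≤ H
      · refine le_trans ?_ (hhb j H hj)
        rw [Nat.cast_le]
        exact Set.ncard_le_ncard (fun x hx => ⟨hx.1, hx.2.1⟩) (hfin _)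
      · have h3 : {x : κ → ℤ | (∀ k, |x k| ≤ (H : ℤ)) ∧ ¬ P j x ∧ hh j ≤ H} = ∅ := by
          ext x
          simp only [Set.mem_setOf_eq, Set.mem_empty_iff_false, iff_false]
          exact fun hx => hj hx.2.2
        rw [h3, Set.ncard_empty, Nat.cast_zero]
        positivity
    rw [← sum_mul] at ht
    calc ({x : κ → ℤ | (∀ k, |x k| ≤ (H : ℤ)) ∧ x ∈ E}.ncard : ℝ)
        ≤ ε / 2 * (2 * H + 1) ^ Fintype.card κ +
          (∑ j ∈ Ico J H, (1 / 2 : ℝ) ^ (j + 1)) * (2 * H + 1) ^ Fintype.card κ :=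
          hc3.trans (add_le_add (hH₁ H hH) ht)
      _ ≤ ε / 2 * (2 * H + 1) ^ Fintype.card κ +
          ε / 2 * (2 * H + 1) ^ Fintype.card κ := by
          refine add_le_add le_rfl (mul_le_mul_of_nonneg_right ?_ hV)
          exact (tail_sum J H).trans hJ.le
      _ = ε * (2 * H + 1) ^ Fintype.card κ := by ring
  · refine (boxset_finite κ (max (hh j) (j + 1))).subset fun a ha => ?_
    by_contra hcon
    exact ha.1 ⟨j, ha.2, hcon⟩

theorem diag {ι : Type} [Countable ι] (P : ι → (κ → ℤ) → Prop)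
    (h : ∀ j, AlmostNone fun a => ¬ P j a) :
    ∃ E : Set (κ → ℤ), AlmostNone (fun a => a ∈ E) ∧ ∀ j, {a | a ∉ E ∧ ¬ P j a}.Finite := by
  rcases isEmpty_or_nonempty ι with hι | hι
  · exact ⟨∅, AlmostNone.false.mono fun x hx => hx, fun j => (hι.false j).elim⟩
  · obtain ⟨s, hs⟩ := exists_surjective_nat ι
    obtain ⟨E, hE, hE'⟩ := diag_nat (fun j => P (s j)) fun j => h (s j)
    refine ⟨E, hE, fun j => ?_⟩
    obtain ⟨m, rfl⟩ := hs j
    exact hE' m

end diag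

section fields

theorem isAlgQ : Algebra.IsAlgebraic ℚ (AlgebraicClosure ℚ) := AlgebraicClosure.isAlgebraic ℚ

attribute [local instance] isAlgQ

instance countQ : Countable (AlgebraicClosure ℚ) := by
  rw [← Cardinal.mk_le_aleph0_iff]
  exact (Algebra.IsAlgebraic.cardinalMk_le_max ℚ (AlgebraicClosure ℚ)).trans
    (max_le Cardinal.mk_le_aleph0 le_rfl)

/-- the field generated by an algebraic number -/
abbrev KA (x : AlgebraicClosure ℚ) : IntermediateField ℚ (AlgebraicClosure ℚ) :=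
  IntermediateField.adjoin ℚ {x}

instance (x : AlgebraicClosure ℚ) : NumberField (KA x) := by
  have h : FiniteDimensional ℚ (KA x) :=
    IntermediateField.adjoin.finiteDimensional (Algebra.IsIntegral.isIntegral x)
  exact ⟨⟩

/-- every number field is isomorphic to one of these -/
theorem exists_KA (K : Type) [Field K] [NumberField K] : ∃ x, Nonempty (K ≃+* KA x) := by
  obtain ⟨θ, hθ⟩ := Field.exists_primitive_element ℚ K
  let ι : K →ₐ[ℚ] AlgebraicClosure ℚ := IsAlgClosed.lift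
  refine ⟨ι θ, ⟨?_⟩⟩
  have h1 : ι.fieldRange = KA (ι θ) := by
    rw [AlgHom.fieldRange_eq_map, ← hθ, IntermediateField.adjoin_map, Set.image_singleton]
  have e1 : K ≃ₐ[ℚ] ι.fieldRange := AlgEquiv.ofInjectiveField ι
  exact (e1.trans (IntermediateField.equivOfEq h1)).toRingEquiv

end fields

end

end Pool.Agent.H852.J
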