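import Mathlib
import Pool.Agent.H852.J.G5

/-!
# Lattices with square roots of transvections modulo four
-/

set_option linter.unusedSectionVars false
set_option autoImplicit false

namespace Pool.Agent.H852.J

open Polynomial PadicInt Module Pool.Agent.N171 Pool.Agent.N171.Al Pool.Agent.N171.TG

noncomputable section

theorem rtg_symm {α : Type*} {r : α → α → Prop} (h : ∀ a b, r a b → r b a) {a b : α}
    (hab : Relation.ReflTransGen r a b) : Relation.ReflTransGen r b a := by
  induction hab with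
  | refl => exact Relation.ReflTransGen.refl
  | tail _ hbc ih => exact Relation.ReflTransGen.head (h _ _ hbc) ih

section one

variable {T : Type*} [AddCommGroup T] [Module ℤ_[2] T] [Module.Finite ℤ_[2] T]
  [Module.Free ℤ_[2] T] {Γ : Type*} [Group Γ]
  (ρ : Representation ℤ_[2] Γ T) (χ : Γ →* ℤ_[2]ˣ) {A : Type*} [Ring A] [Algebra ℤ_[2] A]
  [Module.Finite ℤ_[2] A] [Module.Free ℤ_[2] A]
  (t : Γ →* A) (B : T →ₗ[ℤ_[2]] T →ₗ[ℤ_[2]] ℤ_[2])

/-- The element `s` acts as the square root of the transvection with the vector `v`, modulo four, and trivially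
modulo four by `t`. -/
structure Root (v : T) (s : Γ) : Prop where
  own : ∀ x, ∃ y, ρ s x = x + (2 * B v x) • v + (4 : ℤ_[2]) • y
  cyclo : ∃ z, (χ s : ℤ_[2]) = 1 + 8 * z
  val : ∃ M, t s = 1 + (4 : ℤ_[2]) • M

/-- No proper submodule between `2 T` and `T` is sent by each element to itself or to a submodule
orthogonal to it modulo two. -/
def TightL (ρ : Representation ℤ_[2] Γ T) (B : T →ₗ[ℤ_[2]] T →ₗ[ℤ_[2]] ℤ_[2]) : Prop :=
  ∀ W : Submodule ℤ_[2] T, (∀ x, (2 : ℤ_[2]) • x ∈ W) → (∃ x ∈ W, ∀ y, x ≠ (2 : ℤ_[2]) • y) →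
    (∀ s, (∀ x ∈ W, ρ s x ∈ W) ∨ ∀ x ∈ W, ∀ y ∈ W, ¬ IsUnit (B x (ρ s y))) → W = ⊤

variable {ρ χ t B}

theorem Root.lin {v : T} {s : Γ} (h : Root ρ χ t B v s) :
    ∃ W, ρ s = 1 + (2 : ℤ_[2]) • Eo B v v + (4 : ℤ_[2]) • W := by
  let b := Module.Free.chooseBasis ℤ_[2] T
  choose w hw using fun i => h.own (b i)
  refine ⟨b.constr ℤ_[2] w, b.ext fun i => ?_⟩
  rw [hw]
  simp only [LinearMap.add_apply, LinearMap.smul_apply, Basis.constr_basis, Eo_apply,
    Module.End.one_apply, smul_smul]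

variable (halt : ∀ x, B x x = 0) (hnd : ∀ v, (∀ w, ¬ IsUnit (B v w)) → ∃ u, (2 : ℤ_[2]) • u = v)
  (hB : ∀ s x y, B (ρ s x) (ρ s y) = (χ s : ℤ_[2]) * B x y)

include halt in
theorem Root.sq {v : T} {s : Γ} (h : Root ρ χ t B v s) :
    ∃ Z, ρ s * ρ s = 1 + (4 : ℤ_[2]) • (Eo B v v + (2 : ℤ_[2]) • Z) := by
  obtain ⟨W, hW⟩ := h.lin
  set E := Eo B v v with hE
  have hEE : E * E = 0 := by
    ext1 x
    rw [hE, Module.End.mul_apply, Eo_apply, Eo_apply, map_smul, halt, smul_zero, zero_smul,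
      LinearMap.zero_apply]
  refine ⟨W + E * W + W * E + (2 : ℤ_[2]) • (W * W), ?_⟩
  rw [hW]
  simp only [mul_add, add_mul, one_mul, mul_one, smul_mul_assoc, mul_smul_comm, hEE, smul_zero,
    add_zero]
  module

theorem odd_unit (u : ℤ_[2]ˣ) : ∃ z : ℤ_[2], (u : ℤ_[2]) = 1 + 2 * z := by
  have h1 : toZMod (u : ℤ_[2]) = 1 := by
    have h2 : IsUnit (toZMod (u : ℤ_[2])) := (u.isUnit).map toZMod
    revert h2
    generalize toZMod (u : ℤ_[2]) = c
    revert c
    decide
  have h2 : (u : ℤ_[2]) - 1 ∈ RingHom.ker (toZMod (p := 2)) := by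
    rw [RingHom.mem_ker, map_sub, h1, map_one, sub_self]
  rw [ker_toZMod, maximalIdeal_eq_span_p, Ideal.mem_span_singleton] at h2
  obtain ⟨z, hz⟩ := h2
  refine ⟨z, ?_⟩
  rw [Nat.cast_ofNat] at hz
  rw [← hz]
  ring

include hB in
/-- conjugation -/
theorem Root.conj {v : T} {s : Γ} (h : Root ρ χ t B v s) (g : Γ) :
    Root ρ χ t B (ρ g v) (g * s * g⁻¹) := by
  refine ⟨fun x => ?_, ?_, ?_⟩
  · obtain ⟨y, hy⟩ := h.own (ρ g⁻¹ x)
    obtain ⟨z, hz⟩ := odd_unit (χ g)
    have h1 : ρ g (ρ g⁻¹ x) = x := by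
      rw [← Module.End.mul_apply, ← map_mul, mul_inv_cancel, map_one, Module.End.one_apply]
    have h2 : B (ρ g v) x = (χ g : ℤ_[2]) * B v (ρ g⁻¹ x) := by rw [← hB, h1]
    refine ⟨ρ g y - (z * B v (ρ g⁻¹ x)) • ρ g v, ?_⟩
    rw [map_mul, map_mul, Module.End.mul_apply, Module.End.mul_apply, hy, map_add, map_add, map_smul,
      map_smul, h1, h2, hz]
    module
  · obtain ⟨z, hz⟩ := h.cyclo
    refine ⟨z, ?_⟩
    rw [map_mul, map_mul, map_inv, mul_comm (χ g), mul_inv_cancel_right, hz]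
  · obtain ⟨M, hM⟩ := h.val
    refine ⟨t g * M * t g⁻¹, ?_⟩
    rw [map_mul, map_mul, hM, mul_add, add_mul, mul_one, ← map_mul, mul_inv_cancel, map_one,
      mul_smul_comm, smul_mul_assoc]

/-- **One square root of a transvection is enough for a tight lattice.** -/
theorem tan_of_tight (halt : ∀ x, B x x = 0)
    (hnd : ∀ v, (∀ w, ¬ IsUnit (B v w)) → ∃ u, (2 : ℤ_[2]) • u = v)
    (hB : ∀ s x y, B (ρ s x) (ρ s y) = (χ s : ℤ_[2]) * B x y) (htight : TightL ρ B)
    {v₀ : T} (hv₀ : ∀ y, v₀ ≠ (2 : ℤ_[2]) • y) {s₀ : Γ} (h₀ : Root ρ χ t B v₀ s₀)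
    {X : Module.End ℤ_[2] T} (hX : X ∈ spQ B (p1 T)) : Tan ρ t X 0 := by
  -- the graph
  let U : Type _ := {v : T // ∃ s, Root ρ χ t B v s}
  let r : U → U → Prop := fun a b => IsUnit (B a.1 b.1)
  have hanti : ∀ x y, B x y = - B y x := by
    intro x y
    have h1 := halt (x + y)
    simp only [map_add, LinearMap.add_apply, halt, zero_add, add_zero] at h1
    exact eq_neg_of_add_eq_zero_right h1 ▸ by ring_nf
  have hsymm : ∀ a b : U, r a b → r b a := by
    intro a b h
    change IsUnit (B b.1 a.1)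
    rw [hanti]
    exact h.neg
  let u₀ : U := ⟨v₀, s₀, h₀⟩
  let act : Γ → U → U := fun g a => ⟨ρ g a.1, by
    obtain ⟨s, hs⟩ := a.2
    exact ⟨_, hs.conj hB g⟩⟩
  have hact : ∀ g a b, r a b → r (act g a) (act g b) := by
    intro g a b h
    change IsUnit (B (ρ g a.1) (ρ g b.1))
    rw [hB]
    exact (χ g).isUnit.mul h
  let C : Set U := {a | Relation.ReflTransGen r u₀ a}
  have hC : ∀ a b, a ∈ C → Relation.ReflTransGen r a b → b ∈ C := fun a b ha hab => ha.trans hab
  let κ : Type _ := {a : U // a ∈ C}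
  let v : κ → T := fun k => k.1.1
  have hpath : ∀ k : κ, Relation.ReflTransGen (Adj B v (fun _ => ())) ⟨u₀, Relation.ReflTransGen.refl⟩ k := by
    rintro ⟨a, ha⟩
    have ha' : Relation.ReflTransGen r u₀ a := ha
    induction ha' with
    | refl => exact Relation.ReflTransGen.refl
    | tail hab hbc ih => exact (ih hab).tail ⟨rfl, hbc⟩
  have hadj : ∀ a b, Adj B v (fun _ : κ => ()) a b → Adj B v (fun _ : κ => ()) b a := by
    intro a b h
    exact ⟨rfl, hsymm _ _ h.2⟩
  have hconn : ∀ k l : κ, (fun _ => () : κ → Unit) k = (fun _ => () : κ → Unit) l →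
      Relation.ReflTransGen (Adj B v (fun _ => ())) k l := fun k l _ =>
    (rtg_symm hadj (hpath k)).trans (hpath l)
  -- the submodule
  set W : Submodule ℤ_[2] T := Wq v (fun _ => ()) () with hW
  have hWC : ∀ a : U, a ∈ C → a.1 ∈ W := fun a ha => Submodule.subset_span (Or.inl ⟨⟨a, ha⟩, rfl, rfl⟩)
  have hW2 : ∀ x, (2 : ℤ_[2]) • x ∈ W := fun x => Submodule.subset_span (Or.inr ⟨x, rfl⟩)
  have hnonunit : ∀ a b : ℤ_[2], ¬ IsUnit a → ¬ IsUnit b → ¬ IsUnit (a + b) := fun a b ha hb =>
    IsLocalRing.nonunits_add (a := a) (b := b) ha hb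
  have hunit2 : ∀ a : ℤ_[2], ¬ IsUnit (2 * a) := by
    intro a h
    have h1 : IsUnit (2 : ℤ_[2]) := isUnit_of_mul_isUnit_left h
    rw [isUnit_iff_toZModPow] at h1
    apply h1
    rw [map_ofNat]
    rfl
  have htop : W = ⊤ := by
    refine htight W hW2 ⟨v₀, hWC u₀ Relation.ReflTransGen.refl, hv₀⟩ fun s => ?_
    by_cases hex : ∃ a ∈ C, ∃ b ∈ C, r a (act s b)
    · left
      obtain ⟨a, ha, b, hb, hab⟩ := hex
      have h1 : act s b ∈ C := hC a _ ha (Relation.ReflTransGen.single hab)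
      have h2 : ∀ c ∈ C, act s c ∈ C := by
        intro c hc
        have h3 : Relation.ReflTransGen r b c := (rtg_symm hsymm hb).trans hc
        exact hC _ _ h1 (Relation.ReflTransGen.lift (act s) (fun a b hab => hact s a b hab) _ _ h3)
      intro x hx
      rw [hW, Wq] at hx
      induction hx using Submodule.span_induction with
      | mem x hx =>
        rcases hx with ⟨k, -, rfl⟩ | ⟨y, rfl⟩
        · exact hWC _ (h2 _ k.2)
        · rw [map_smul]
          exact hW2 _
      | zero =>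
        rw [map_zero]
        exact W.zero_mem
      | add x y _ _ hx hy =>
        rw [map_add]
        exact W.add_mem hx hy
      | smul c x _ hx =>
        rw [map_smul]
        exact W.smul_mem c hx
    · right
      push Not at hex
      intro x hx y hy
      rw [hW, Wq] at hx hy
      induction hx using Submodule.span_induction with
      | mem x hx =>
        induction hy using Submodule.span_induction with
        | mem y hy =>
          rcases hx with ⟨k, -, rfl⟩ | ⟨x, rfl⟩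
          · rcases hy with ⟨l, -, rfl⟩ | ⟨y, rfl⟩
            · exact hex k.1 k.2 l.1 l.2
            · rw [map_smul, map_smul, smul_eq_mul]
              exact hunit2 _
          · rw [map_smul, LinearMap.smul_apply, smul_eq_mul]
            exact hunit2 _
        | zero =>
          rw [map_zero, map_zero]
          exact not_isUnit_zero
        | add y y' _ _ hy hy' =>
          rw [map_add, map_add]
          exact hnonunit _ _ hy hy'
        | smul c y _ hy =>
          rw [map_smul, map_smul, smul_eq_mul]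
          exact fun h => hy (isUnit_of_mul_isUnit_right h)
      | zero =>
        rw [map_zero, LinearMap.zero_apply]
        exact not_isUnit_zero
      | add x x' _ _ hx hx' =>
        rw [map_add, LinearMap.add_apply]
        exact hnonunit _ _ hx hx'
      | smul c x _ hx =>
        rw [map_smul, LinearMap.smul_apply, smul_eq_mul]
        exact fun h => hx (isUnit_of_mul_isUnit_right h)
  have hmem : ∀ x, x ∈ W := fun x => by rw [htop]; exact Submodule.mem_top
  choose σ hσ using fun k : κ => k.1.2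
  have hgen : GenTwo B (fun k : κ => Eo B (v k) (v k)) := by
    intro 𝔫 hn2 hbr hvn
    let n := Fintype.card (Module.Free.ChooseBasisIndex ℤ_[2] T)
    let b₀ : Module.Basis (Fin n) ℤ_[2] T :=
      (Module.Free.chooseBasis ℤ_[2] T).reindex (Fintype.equivFin _)
    exact spQ_le _ hnd (p1 _) halt (fun x => by simp)
      (fun _ _ => rfl) (fun _ _ _ => rfl) b₀ 𝔫
      (fun c u => Eo_mem _ halt v (fun _ => ()) 𝔫 hn2 hbr hvn hconn (hmem u))
      (fun c u w => so_mem _ halt v (fun _ => ()) 𝔫 hn2 hbr hvn hconn (hmem u) (hmem w))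
  exact single halt hnd hB σ (fun k : κ => Eo B (v k) (v k)) hgen (fun k => (hσ k).sq halt)
    (fun k => (hσ k).cyclo) (fun k => (hσ k).val) hX

end one

end

end Pool.Agent.H852.J
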