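import Mathlib
import Pool.Agent.H852.J.M1
import Pool.Agent.H852.J.G3
import Pool.Agent.H852.J.P5

/-!
# Lattices given by matrices; from the group modulo four to all prime numbers
-/

set_option linter.unusedSectionVars false
set_option autoImplicit false

open TensorProduct Polynomial Matrix Filter Topology Module NumberField IsDedekindDomain
open Pool.Agent.Y142.ZS (SpLie)
open Pool.Agent.Y142.ZO (GK IsFrobenius)
open Pool.Agent.N171 Pool.Agent.N171.Al Pool.Agent.N171.TG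
open Pool.Agent.N197.AP Pool.Agent.H204R3.GP
open Pool.Agent.N166.CZ (IsTateModule ProductsWith)

namespace Pool.Agent.H852.J

noncomputable section

section mat

variable {N : ℕ} {G : Type} [Group G]

/-- the action on the column vectors -/
def actZ (ρ : G →* Matrix (Fin N) (Fin N) ℤ_[2]) : Representation ℤ_[2] G (Fin N → ℤ_[2]) :=
  ((Matrix.toLinAlgEquiv' : Matrix (Fin N) (Fin N) ℤ_[2] ≃ₐ[ℤ_[2]] _) :
    Matrix (Fin N) (Fin N) ℤ_[2] →* Module.End ℤ_[2] (Fin N → ℤ_[2])).comp ρ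

theorem actZ_apply (ρ : G →* Matrix (Fin N) (Fin N) ℤ_[2]) (g : G) (x : Fin N → ℤ_[2]) :
    actZ ρ g x = ρ g *ᵥ x := Matrix.toLinAlgEquiv'_apply _ _

theorem toMatrix_actZ (ρ : G →* Matrix (Fin N) (Fin N) ℤ_[2]) (g : G) :
    LinearMap.toMatrix (Pi.basisFun ℤ_[2] (Fin N)) (Pi.basisFun ℤ_[2] (Fin N)) (actZ ρ g) = ρ g := by
  rw [LinearMap.toMatrix_eq_toMatrix']
  exact LinearMap.toMatrix'_toLin' (ρ g)

/-- the form -/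
def bil (J : Matrix (Fin N) (Fin N) ℤ_[2]) :
    (Fin N → ℤ_[2]) →ₗ[ℤ_[2]] (Fin N → ℤ_[2]) →ₗ[ℤ_[2]] ℤ_[2] := Matrix.toBilin' J

theorem bil_apply (J : Matrix (Fin N) (Fin N) ℤ_[2]) (x y : Fin N → ℤ_[2]) :
    bil J x y = x ⬝ᵥ J *ᵥ y := Matrix.toBilin'_apply' J x y

theorem bil_alt {J : Matrix (Fin N) (Fin N) ℤ_[2]} (hJ : Jᵀ = -J) (x : Fin N → ℤ_[2]) :
    bil J x x = 0 := by
  rw [bil_apply]
  have h1 : x ⬝ᵥ J *ᵥ x = -(x ⬝ᵥ J *ᵥ x) := by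
    conv_lhs => rw [dotProduct_mulVec, ← mulVec_transpose, hJ, neg_mulVec, neg_dotProduct,
      dotProduct_comm]
  have h2 : (2 : ℤ_[2]) * (x ⬝ᵥ J *ᵥ x) = 0 := by linear_combination h1
  exact (mul_eq_zero.1 h2).resolve_left (by norm_num)

theorem bil_nd {J : Matrix (Fin N) (Fin N) ℤ_[2]} (hJ : Jᵀ = -J) (hdet : IsUnit J.det)
    (v : Fin N → ℤ_[2]) (hv : ∀ w, ¬ IsUnit (bil J v w)) : ∃ u, (2 : ℤ_[2]) • u = v := by
  have h1 : ∀ j, ∃ y : ℤ_[2], (Jᵀ *ᵥ v) j = 2 * y := by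
    intro j
    have h2 := hv (Pi.single j 1)
    rw [bil_apply, dotProduct_mulVec, dotProduct_single_one, ← mulVec_transpose] at h2
    have h3 : (Jᵀ *ᵥ v) j ∈ IsLocalRing.maximalIdeal ℤ_[2] := (IsLocalRing.mem_maximalIdeal _).2 h2
    rw [PadicInt.maximalIdeal_eq_span_p, Ideal.mem_span_singleton] at h3
    obtain ⟨y, hy⟩ := h3
    exact ⟨y, by rw [hy, Nat.cast_ofNat]⟩
  choose y hy using h1
  have h2 : Jᵀ *ᵥ v = (2 : ℤ_[2]) • y := funext fun j => by rw [hy]; rfl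
  refine ⟨-(J⁻¹ *ᵥ y), ?_⟩
  have h3 : J *ᵥ v = -((2 : ℤ_[2]) • y) := by
    rw [← h2, hJ, neg_mulVec, neg_neg]
  have h4 : v = J⁻¹ *ᵥ (J *ᵥ v) := by
    rw [mulVec_mulVec, nonsing_inv_mul _ hdet, one_mulVec]
  rw [h4, h3, mulVec_neg, mulVec_smul, smul_neg]

theorem bil_sim {J : Matrix (Fin N) (Fin N) ℤ_[2]} {ρ : G →* Matrix (Fin N) (Fin N) ℤ_[2]}
    {χ : G →* ℤ_[2]ˣ} (h : ∀ g, (ρ g)ᵀ * J * ρ g = (χ g : ℤ_[2]) • J) (g : G)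
    (x y : Fin N → ℤ_[2]) : bil J (actZ ρ g x) (actZ ρ g y) = (χ g : ℤ_[2]) * bil J x y := by
  rw [bil_apply, bil_apply, actZ_apply, actZ_apply]
  have e1 : (ρ g *ᵥ x) ⬝ᵥ J *ᵥ (ρ g *ᵥ y) = x ⬝ᵥ ((ρ g)ᵀ * J * ρ g) *ᵥ y := by
    rw [← mulVec_mulVec, ← mulVec_mulVec, dotProduct_mulVec x, vecMul_transpose]
  rw [e1, h, smul_mulVec, dotProduct_smul, smul_eq_mul]

/-- `g` acts modulo four as a power of a transvection, with an exponent not divisible by four -/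
def TransFour (J : Matrix (Fin N) (Fin N) ℤ_[2]) (ρ : G →* Matrix (Fin N) (Fin N) ℤ_[2]) (g : G) :
    Prop :=
  ∃ (v : Fin N → ℤ_[2]) (c : ℤ), ¬ 4 ∣ c ∧ (∀ y, v ≠ (2 : ℤ_[2]) • y) ∧
    ∀ x, ∃ y, ρ g *ᵥ x = x + (c * (v ⬝ᵥ J *ᵥ x)) • v + (4 : ℤ_[2]) • y

/-- the lattice condition in terms of matrices -/
def TightM (J : Matrix (Fin N) (Fin N) ℤ_[2]) (ρ : G →* Matrix (Fin N) (Fin N) ℤ_[2]) : Prop :=
  ∀ W : Submodule ℤ_[2] (Fin N → ℤ_[2]), (∀ x, (2 : ℤ_[2]) • x ∈ W) →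
    (∃ x ∈ W, ∀ y, x ≠ (2 : ℤ_[2]) • y) →
    (∀ g, (∀ x ∈ W, ρ g *ᵥ x ∈ W) ∨ ∀ x ∈ W, ∀ y ∈ W, (2 : ℤ_[2]) ∣ x ⬝ᵥ J *ᵥ (ρ g *ᵥ y)) → W = ⊤

theorem not_unit_iff (z : ℤ_[2]) : ¬ IsUnit z ↔ (2 : ℤ_[2]) ∣ z := by
  have h1 : ¬ IsUnit z ↔ z ∈ IsLocalRing.maximalIdeal ℤ_[2] := (IsLocalRing.mem_maximalIdeal _).symm
  rw [h1, PadicInt.maximalIdeal_eq_span_p, Ideal.mem_span_singleton, Nat.cast_ofNat]

theorem TightM.toL {J : Matrix (Fin N) (Fin N) ℤ_[2]} {ρ : G →* Matrix (Fin N) (Fin N) ℤ_[2]}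
    (h : TightM J ρ) : TightL (actZ ρ) (bil J) := by
  intro W h1 h2 h3
  refine h W h1 h2 fun g => (h3 g).imp (fun h4 x hx => ?_) fun h4 x hx y hy => ?_
  · rw [← actZ_apply]
    exact h4 x hx
  · rw [← not_unit_iff, ← actZ_apply, ← bil_apply]
    exact h4 x hx y hy

/-- an element which acts as a power of a transvection gives a square root of a transvection -/
theorem root_of_trans {J : Matrix (Fin N) (Fin N) ℤ_[2]} {ρ : G →* Matrix (Fin N) (Fin N) ℤ_[2]}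
    {χ : G →* ℤ_[2]ˣ} (hJ : Jᵀ = -J) {A : Type*} [Ring A] [Algebra ℤ_[2] A] {t : G →* A} {g : G}
    (hg : TransFour J ρ g) (hχ : (8 : ℤ_[2]) ∣ (χ g : ℤ_[2]) - 1)
    (ht : ∃ M, t g = 1 + (4 : ℤ_[2]) • M) :
    ∃ v, (∀ y, v ≠ (2 : ℤ_[2]) • y) ∧ ∃ s, Root (actZ ρ) χ t (bil J) v s := by
  obtain ⟨v, c, hc, hv, hg⟩ := hg
  obtain ⟨z, hz⟩ := hχ
  obtain ⟨M, hM⟩ := ht
  refine ⟨v, hv, ?_⟩
  rcases Int.even_or_odd' c with ⟨k, hk | hk⟩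
  · -- `c ≡ 2` modulo four
    obtain ⟨e, he⟩ : ∃ e, k = 2 * e + 1 := by
      rcases Int.even_or_odd' k with ⟨e, he | he⟩
      · exact absurd ⟨e, by rw [hk, he]; ring⟩ hc
      · exact ⟨e, he⟩
    refine ⟨g, fun x => ?_, ⟨z, by linear_combination hz⟩, M, hM⟩
    obtain ⟨y, hy⟩ := hg x
    refine ⟨y + (e * (v ⬝ᵥ J *ᵥ x)) • v, ?_⟩
    rw [actZ_apply, bil_apply, hy, hk, he]
    push_cast
    module
  · refine ⟨g * g, fun x => ?_, ⟨z * 2 + 8 * z ^ 2, ?_⟩, M * 2 + (4 : ℤ_[2]) • (M * M), ?_⟩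
    · obtain ⟨y, hy⟩ := hg x
      obtain ⟨y', hy'⟩ := hg (ρ g *ᵥ x)
      have h1 : v ⬝ᵥ J *ᵥ (ρ g *ᵥ x) = v ⬝ᵥ J *ᵥ x + 4 * (v ⬝ᵥ J *ᵥ y) := by
        have h2 := bil_alt hJ v
        rw [bil_apply] at h2
        rw [hy, mulVec_add, mulVec_add, dotProduct_add, dotProduct_add, mulVec_smul, mulVec_smul,
          dotProduct_smul, dotProduct_smul, h2, smul_eq_mul, smul_eq_mul]
        ring
      refine ⟨y + y' + (k * (v ⬝ᵥ J *ᵥ x)) • v + (c * (v ⬝ᵥ J *ᵥ y)) • v, ?_⟩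
      rw [actZ_apply, bil_apply, map_mul, ← mulVec_mulVec, hy', h1, hy, hk]
      push_cast
      module
    · rw [map_mul, Units.val_mul]
      have h1 : (χ g : ℤ_[2]) = 1 + 8 * z := by linear_combination hz
      rw [h1]
      ring
    · rw [map_mul, hM]
      simp only [mul_add, add_mul, one_mul, mul_one, smul_mul_assoc, mul_smul_comm]
      have h2 : M * 2 = M + M := mul_two M
      rw [h2]
      module

end mat

section main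

variable {K : Type} [Field K] [NumberField K] {n : ℕ} {N : Fin n → ℕ}
  (J : ∀ i, Matrix (Fin (N i)) (Fin (N i)) ℤ_[2])
  (ρ : ∀ i, GK K →* Matrix (Fin (N i)) (Fin (N i)) ℤ_[2]) (χ : GK K →* ℤ_[2]ˣ)

/-- Joint tangent vectors from the groups modulo four. -/
theorem tan_lattices {G : Type} [Group G] (J : ∀ i, Matrix (Fin (N i)) (Fin (N i)) ℤ_[2])
    (ρ : ∀ i, G →* Matrix (Fin (N i)) (Fin (N i)) ℤ_[2]) (χ : G →* ℤ_[2]ˣ)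
    (hJ : ∀ i, (J i)ᵀ = -J i) (hdet : ∀ i, IsUnit (J i).det)
    (hsim : ∀ i g, (ρ i g)ᵀ * J i * ρ i g = (χ g : ℤ_[2]) • J i)
    (htight : ∀ i, TightM (J i) (ρ i))
    {A : Type} [Ring A] [Algebra ℤ_[2] A] [Module.Finite ℤ_[2] A] [Module.Free ℤ_[2] A] (t : G →* A)
    (hpair : ∀ i j, j < i → ∃ g, TransFour (J i) (ρ i) g ∧ (8 : ℤ_[2]) ∣ (χ g : ℤ_[2]) - 1 ∧
      ∃ M, ρ j g = 1 + (4 : ℤ_[2]) • M)
    (hZ : ∀ i, ∃ g, TransFour (J i) (ρ i) g ∧ (8 : ℤ_[2]) ∣ (χ g : ℤ_[2]) - 1 ∧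
      ∃ M, t g = 1 + (4 : ℤ_[2]) • M)
    {X : ∀ i, Module.End ℤ_[2] (Fin (N i) → ℤ_[2])} (hX : ∀ i, X i ∈ spQ (bil (J i)) (p1 _)) :
    TanA (jw (fun i => actZ (ρ i)) t) (X, 0) := by
  refine tri_pairs (B := fun i => bil (J i)) (χ := χ) (fun i x => bil_alt (hJ i) x)
    (fun i v hv => bil_nd (hJ i) (hdet i) v hv) (fun i => bil_sim (hsim i)) (fun i => (i : ℕ))
    Fin.val_injective (fun i j hij X hX => ?_) (fun i X hX => ?_) hX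
  · obtain ⟨g, hg, hg8, M, hM⟩ := hpair i j hij
    obtain ⟨v, hv, s, hs⟩ := root_of_trans (χ := χ)
      (t := (actZ (ρ j) : G →* Module.End ℤ_[2] (Fin (N j) → ℤ_[2]))) (hJ i) hg hg8
      ⟨Matrix.toLinAlgEquiv' M, by
        change Matrix.toLinAlgEquiv' (ρ j g) = _
        rw [hM, map_add, map_one, map_smul]⟩
    exact tan_of_tight (fun x => bil_alt (hJ i) x) (fun v hv => bil_nd (hJ i) (hdet i) v hv)
      (bil_sim (hsim i)) (htight i).toL hv hs hX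
  · obtain ⟨g, hg, hg8, hM⟩ := hZ i
    obtain ⟨v, hv, s, hs⟩ := root_of_trans (χ := χ) (t := t) (hJ i) hg hg8 hM
    exact tan_of_tight (fun x => bil_alt (hJ i) x) (fun v hv => bil_nd (hJ i) (hdet i) v hv)
      (bil_sim (hsim i)) (htight i).toL hv hs hX

/-- **From the groups modulo four to all prime numbers.** -/
theorem lattices_main (hn : 0 < n) (hN : ∀ i, 0 < N i) (hJ : ∀ i, (J i)ᵀ = -J i)
    (hdet : ∀ i, IsUnit (J i).det) (hρ : ∀ i, Continuous (ρ i))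
    (hsim : ∀ i g, (ρ i g)ᵀ * J i * ρ i g = (χ g : ℤ_[2]) • J i)
    (htight : ∀ i, TightM (J i) (ρ i)) {d m : ℕ} {w : ℤ}
    (t : GK K →* Matrix (Fin d) (Fin d) ℤ_[2])
    (hpair : ∀ i j, j < i → ∃ g, TransFour (J i) (ρ i) g ∧ (8 : ℤ_[2]) ∣ (χ g : ℤ_[2]) - 1 ∧
      ∃ M, ρ j g = 1 + (4 : ℤ_[2]) • M)
    (hZ : ∀ i, ∃ g, TransFour (J i) (ρ i) g ∧ (8 : ℤ_[2]) ∣ (χ g : ℤ_[2]) - 1 ∧
      ∃ M, t g = 1 + (4 : ℤ_[2]) • M)
    (τ : GK K →* Matrix (Fin d) (Fin d) ℚ_[2]) (hτ : Continuous τ) (ht : IsLatOf t τ)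
    (S : Set (HeightOneSpectrum (𝓞 K))) (hS : S.Finite)
    (P : HeightOneSpectrum (𝓞 K) → ℚ[X]) (Q : HeightOneSpectrum (𝓞 K) → ℚ[X])
    (hP : ∀ v ∉ S, ∀ z : ℂ, aeval z (P v) = 0 →
      ‖z‖ ^ 2 = (Ideal.absNorm v.asIdeal : ℝ) ∧ IsIntegral ℤ ((Ideal.absNorm v.asIdeal : ℂ) ^ m * z))
    (hQ : ∀ v ∉ S, ∀ z : ℂ, aeval z (Q v) = 0 →
      ‖z‖ ^ 2 = (Ideal.absNorm v.asIdeal : ℝ) ^ w ∧
        IsIntegral ℤ ((Ideal.absNorm v.asIdeal : ℂ) ^ m * z))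
    (hf2 : ∀ v ∉ S, (2 : 𝓞 K) ∉ v.asIdeal → ∀ σ : GK K, IsFrobenius v σ →
      ((χ σ : ℤ_[2]) = (Ideal.absNorm v.asIdeal : ℤ_[2])) ∧
      ∏ i, ((ρ i σ).map (algebraMap ℤ_[2] ℚ_[2])).charpoly = (P v).map (Rat.castHom ℚ_[2]))
    (hτQ : ∀ v ∉ S, (2 : 𝓞 K) ∉ v.asIdeal → ∀ σ : GK K, IsFrobenius v σ →
      (τ σ⁻¹).charpoly = (Q v).map (Rat.castHom ℚ_[2]))
    (ℓ : ℕ) [hℓ : Fact ℓ.Prime] (V M : Type) [AddCommGroup V] [Module ℚ_[ℓ] V]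
    [FiniteDimensional ℚ_[ℓ] V] [AddCommGroup M] [Module ℚ_[ℓ] M] [FiniteDimensional ℚ_[ℓ] M]
    (r : Representation ℚ_[ℓ] (GK K) V) (c : GK K →* ℚ_[ℓ])
    (s : Representation ℚ_[ℓ] (GK K) M) (hr : IsTateModule r c)
    (hf : ∀ v ∉ S, (ℓ : 𝓞 K) ∉ v.asIdeal → ∀ σ : GK K, IsFrobenius v σ →
      c σ = (Ideal.absNorm v.asIdeal : ℚ_[ℓ]) ∧
      LinearMap.charpoly (r σ) = (P v).map (Rat.castHom ℚ_[ℓ]) ∧
      LinearMap.charpoly (s σ⁻¹) = (Q v).map (Rat.castHom ℚ_[ℓ])) :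
    ProductsWith r c s := by
  obtain ⟨ρ', J', t', k1, k2, k3, k4, k5, k6⟩ := t_MAT (Fin n) (fun i => (Fin (N i) → ℤ_[2]))
    (GK K) (fun i => actZ (ρ i)) (fun i => bil (J i)) χ N
    (fun i => Pi.basisFun ℤ_[2] (Fin (N i))) d t
    (fun i x => bil_alt (hJ i) x) (fun i v hv => bil_nd (hJ i) (hdet i) v hv)
    (fun i => bil_sim (hsim i))
    (fun X hX => tan_lattices J ρ χ hJ hdet hsim htight t hpair hZ hX)
  have e1 : t' = τ := MonoidHom.ext fun s => by rw [k2, ht]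
  subst e1
  have e2 : ∀ i g, ρ' i g = (ρ i g).map (algebraMap ℤ_[2] ℚ_[2]) := fun i g => by
    rw [k1, toMatrix_actZ]
  have hcont : ∀ i, Continuous (ρ' i) := by
    intro i
    have h1 : (ρ' i : GK K → _) = fun g => (ρ i g).map (algebraMap ℤ_[2] ℚ_[2]) := funext (e2 i)
    rw [h1]
    exact (hρ i).matrix_map continuous_subtype_val
  obtain ⟨h1, h2, h3, h4, h5⟩ := t_BLOCK (Fin n) N d (GK K) ρ' t' J' k3 k4 k6
  have hn' : 0 < ∑ i, N i := Finset.sum_pos (fun i _ => hN i) ⟨⟨0, hn⟩, Finset.mem_univ _⟩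
  let χ' : GK K →* ℚ_[2] :=
    (PadicInt.Coe.ringHom (p := 2)).toMonoidHom.comp ((Units.coeHom ℤ_[2]).comp χ)
  have hχ' : ∀ g, χ' g = ((χ g : ℤ_[2]) : ℚ_[2]) := fun _ => rfl
  refine main20 t_PLACE2' t_TATE2 (m := m) (w := w) hn' (h5 hcont) hτ h2
    (h3 χ' fun i g => k5 i g) h1
    (S := S ∪ {v | ((2 : ℕ) : 𝓞 K) ∈ v.asIdeal})
    (hS.union (finite_above 2 Nat.prime_two)) (P := P) (Q := Q)
    (fun v hv σ hσ => ?_) (fun v hv => ⟨hP v fun h => hv (Or.inl h), hQ v fun h => hv (Or.inl h)⟩)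
    (r := r) hr (T := S ∪ {v | (ℓ : 𝓞 K) ∈ v.asIdeal}) (hS.union (finite_above ℓ hℓ.out))
    fun v hv σ hσ => ?_
  · have hv1 : v ∉ S := fun h => hv (Or.inl h)
    have hv2 : (2 : 𝓞 K) ∉ v.asIdeal := fun h => hv (Or.inr (by
      rw [Set.mem_setOf_eq, Nat.cast_ofNat]; exact h))
    obtain ⟨h6, h7⟩ := hf2 v hv1 hv2 σ hσ
    refine ⟨?_, hτQ v hv1 hv2 σ hσ, ?_⟩
    · rw [h4, ← h7]
      exact Finset.prod_congr rfl fun i _ => by rw [e2]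
    · rw [hχ', h6]
      push_cast
      rfl
  · have hv1 : v ∉ S := fun h => hv (Or.inl h)
    have hv2 : (ℓ : 𝓞 K) ∉ v.asIdeal := fun h => hv (Or.inr h)
    obtain ⟨h6, h7, h8⟩ := hf v hv1 hv2 σ hσ
    refine ⟨h6, h7, ?_⟩
    rw [← h8]
    exact LinearMap.aeval_self_charpoly _

end main

end

end Pool.Agent.H852.J
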