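import Mathlib
import Pool.Agent.H852.J.G5

/-!
# Triangular families with different multipliers
-/

set_option linter.unusedSectionVars false
set_option autoImplicit false

namespace Pool.Agent.H852.J

open PadicInt Module Pool.Agent.N171 Pool.Agent.N171.Al Pool.Agent.N171.TG

noncomputable section

variable {ι : Type*} [Fintype ι] [DecidableEq ι] {T : ι → Type*} [∀ i, AddCommGroup (T i)]
  [∀ i, Module ℤ_[2] (T i)] {Γ : Type*} [Group Γ] [∀ i, Module.Finite ℤ_[2] (T i)]
  [∀ i, Module.Free ℤ_[2] (T i)]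
  {ρ : ∀ i, Representation ℤ_[2] Γ (T i)} {A : Type*} [Ring A] [Algebra ℤ_[2] A]
  [Module.Finite ℤ_[2] A] [Module.Free ℤ_[2] A] {t : Γ →* A}
  {B : ∀ i, T i →ₗ[ℤ_[2]] T i →ₗ[ℤ_[2]] ℤ_[2]} {χ : ι → Γ →* ℤ_[2]ˣ}

/-- lifting of a tangent vector of a summand with a part of the others, with further values -/
theorem lift_joint' (i : ι) {A₁ : Type*} [Ring A₁] [Algebra ℤ_[2] A₁] [Module.Finite ℤ_[2] A₁]
    [Module.Free ℤ_[2] A₁] (R₁ : Γ →* A₁) {X : Module.End ℤ_[2] (T i)} {Y : A₁}
    (h : TanA (MonoidHom.prod (ρ i : Γ →* Module.End ℤ_[2] (T i)) R₁) (X, Y)) {A₂ : Type*} [Ring A₂]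
    [Algebra ℤ_[2] A₂] [Module.Finite ℤ_[2] A₂] [Module.Free ℤ_[2] A₂] (R₂ : Γ →* A₂) :
    ∃ (a : ℕ) (W : ∀ j, Module.End ℤ_[2] (T j)) (Z : A) (c : A₂),
      TanA ((jw ρ t).prod (R₁.prod R₂)) ((W, Z), ((2 : ℤ_[2]) ^ a • Y, c)) ∧
      W i = (2 : ℤ_[2]) ^ a • X := by
  obtain ⟨a, ⟨⟨W, Z⟩, c⟩, hW⟩ := lift _ ((jw ρ t).prod R₂) h
  rw [Prod.smul_mk] at hW
  refine ⟨a, W, Z, c, ?_, ?_⟩
  · have h1 := TanA_fun (R' := (jw ρ t).prod (R₁.prod R₂))
      (fun x : (Module.End ℤ_[2] (T i) × A₁) × (((∀ i, Module.End ℤ_[2] (T i)) × A) × A₂) =>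
        ((x.2.1.1, x.2.1.2), (x.1.2, x.2.2))) (fun _ => rfl) (fun _ _ _ _ => rfl) hW
    exact h1
  · let L : ((Module.End ℤ_[2] (T i) × A₁) × (((∀ i, Module.End ℤ_[2] (T i)) × A) × A₂)) →ₗ[ℤ_[2]]
        Module.End ℤ_[2] (T i) :=
      { toFun := fun x => x.2.1.1 i - x.1.1
        map_add' := fun x y => by
          change (x.2.1.1 i + y.2.1.1 i) - (x.1.1 + y.1.1) = _
          abel
        map_smul' := fun c x => by
          change c • x.2.1.1 i - c • x.1.1 = _
          rw [← smul_sub]
          rfl }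
    have h1 := lin_zero L (fun s => by
      change (ρ i s - 1) - (ρ i s - 1) = 0
      rw [sub_self]) hW
    exact sub_eq_zero.1 h1

/-- all the multipliers -/
def chP (χ : ι → Γ →* ℤ_[2]ˣ) : Γ →* (ι → ℤ_[2]) where
  toFun s j := chR (χ j) s
  map_one' := by
    funext j
    rw [map_one]
    rfl
  map_mul' s s' := by
    funext j
    rw [map_mul]
    rfl

/-- brackets of similitudes -/
theorem bracket_sim {T : Type*} [AddCommGroup T] [Module ℤ_[2] T] [Module.Finite ℤ_[2] T]
    [Module.Free ℤ_[2] T]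
    {B : T →ₗ[ℤ_[2]] T →ₗ[ℤ_[2]] ℤ_[2]} {W W' : Module.End ℤ_[2] T} {c c' : ℤ_[2]}
    (h : ∀ x y, B (W x) y + B x (W y) = c * B x y)
    (h' : ∀ x y, B (W' x) y + B x (W' y) = c' * B x y) :
    W * W' - W' * W ∈ spQ B (p1 T) := by
  refine mem_spQ_iff.2 fun x y => ?_
  simp only [LinearMap.sub_apply, Module.End.mul_apply, map_sub]
  have e1 := h (W' x) y
  have e2 := h' (W x) y
  have e3 := h x (W' y)
  have e4 := h' x (W y)
  have e5 := h x y
  have e6 := h' x y
  linear_combination e1 - e2 + e3 - e4 - c' * e5 + c * e6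

variable (halt : ∀ i x, B i x x = 0)
  (hnd : ∀ i v, (∀ w, ¬ IsUnit (B i v w)) → ∃ u, (2 : ℤ_[2]) • u = v)
  (hB : ∀ i s x y, B i (ρ i s x) (ρ i s y) = (χ i s : ℤ_[2]) * B i x y)

include halt hnd hB in
/-- **Triangular families, different multipliers.** -/
theorem tri' (r : ι → ℕ) (hr : Function.Injective r)
    (H : ∀ i, ∀ X ∈ spQ (B i) (p1 (T i)),
      TanA (MonoidHom.prod (ρ i : Γ →* Module.End ℤ_[2] (T i)) ((lower ρ r i).prod t)) (X, (0, 0)))
    {X : ∀ i, Module.End ℤ_[2] (T i)} (hX : ∀ i, X i ∈ spQ (B i) (p1 (T i))) :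
    TanA (jw ρ t) (X, 0) := by
  have key : ∀ (n : ℕ) (i : ι), (∀ j, r j ≤ r i + n) → ∀ X ∈ spQ (B i) (p1 (T i)),
      TanA (jw ρ t) (Pi.single i X, 0) := by
    intro n
    induction n using Nat.strong_induction_on with
    | _ n ih =>
    intro i hn
    -- the lifts
    have hl : ∀ P ∈ spQ (B i) (p1 (T i)), ∃ (a : ℕ) (W : ∀ j, Module.End ℤ_[2] (T j)),
        TanA (jw ρ t) (W, 0) ∧ W i = (2 : ℤ_[2]) ^ a • P ∧ (∀ j, r j < r i → W j = 0) ∧
        ∀ j, ∃ c, ∀ x y, B j (W j x) y + B j x (W j y) = c * B j x y := by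
      intro P hP
      obtain ⟨a, W, Z, c, hW, hWi⟩ := lift_joint' (t := t) i _ (H i P hP) (chP χ)
      rw [Prod.smul_mk, smul_zero, smul_zero] at hW
      have hZ : Z = 0 := by
        let L : (((∀ i, Module.End ℤ_[2] (T i)) × A) × (((∀ j, Module.End ℤ_[2] (T j)) × A) ×
            (ι → ℤ_[2]))) →ₗ[ℤ_[2]] A :=
          { toFun := fun x => x.1.2 - x.2.1.2
            map_add' := fun x y => by
              change (x.1.2 + y.1.2) - (x.2.1.2 + y.2.1.2) = _
              abel
            map_smul' := fun c x => by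
              change c • x.1.2 - c • x.2.1.2 = _
              rw [← smul_sub]
              rfl }
        have h1 := lin_zero L (fun s => by
          change (t s - 1) - (t s - 1) = 0
          rw [sub_self]) hW
        change Z - 0 = 0 at h1
        rwa [sub_zero] at h1
      refine ⟨a, W, ?_, hWi, fun j hj => ?_, fun j => ⟨c j, ?_⟩⟩
      · have h2 := TanA_fun (R' := jw ρ t) Prod.fst (fun _ => rfl) (fun _ _ _ _ => rfl) hW
        change TanA (jw ρ t) (W, Z) at h2
        rwa [hZ] at h2
      · let L : (((∀ i, Module.End ℤ_[2] (T i)) × A) × (((∀ j, Module.End ℤ_[2] (T j)) × A) ×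
            (ι → ℤ_[2]))) →ₗ[ℤ_[2]] Module.End ℤ_[2] (T j) :=
          { toFun := fun x => x.1.1 j - x.2.1.1 j
            map_add' := fun x y => by
              change (x.1.1 j + y.1.1 j) - (x.2.1.1 j + y.2.1.1 j) = _
              abel
            map_smul' := fun c x => by
              change c • x.1.1 j - c • x.2.1.1 j = _
              rw [← smul_sub]
              rfl }
        have h1 := lin_zero L (fun s => by
          change (ρ j s - 1) - (lower ρ r i s j - 1) = 0
          rw [lower_of_lt ρ hj, sub_self]) hW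
        change W j - 0 = 0 at h1
        rwa [sub_zero] at h1
      · have h1 := TanA_fun (R' := MonoidHom.prod (ρ j : Γ →* Module.End ℤ_[2] (T j)) (chR (χ j)))
          (fun x : ((∀ i, Module.End ℤ_[2] (T i)) × A) × ((((∀ j, Module.End ℤ_[2] (T j)) × A)) ×
            (ι → ℤ_[2])) => (x.1.1 j, x.2.2 j))
          (fun _ => rfl) (fun _ _ _ _ => rfl) hW
        exact mult_of_tan (hB j) h1
    -- the submodule
    let S : Submodule ℤ_[2] (Module.End ℤ_[2] (T i)) :=
      { carrier := {X | X ∈ spQ (B i) (p1 (T i)) ∧ TanA (jw ρ t) (Pi.single i X, 0)}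
        zero_mem' := ⟨Submodule.zero_mem _, by rw [Pi.single_zero]; exact TanA_zero⟩
        add_mem' := by
          rintro X Y ⟨h1, h2⟩ ⟨h3, h4⟩
          refine ⟨Submodule.add_mem _ h1 h3, ?_⟩
          have h5 := TanA_add h2 h4
          rw [Prod.mk_add_mk, add_zero] at h5
          rwa [Pi.single_add]
        smul_mem' := by
          rintro c X ⟨h1, h2⟩
          refine ⟨Submodule.smul_mem _ c h1, ?_⟩
          have h5 := TanA_smul c h2
          rw [Prod.smul_mk, smul_zero] at h5
          rwa [Pi.single_smul] }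
    have hSle : spQ (B i) (p1 (T i)) ≤ S := by
      refine sp_of_brackets (halt i) (hnd i) (fun X h => h.1) (fun P hP Q hQ => ?_) fun X hX => ?_
      · obtain ⟨a, W, hW, hWi, hlow, hsim⟩ := hl P hP
        obtain ⟨b, W', hW', hWi', hlow', hsim'⟩ := hl Q hQ
        have hbr := TanA_bracket hW hW'
        rw [Prod.mk_mul_mk, Prod.mk_mul_mk, Prod.mk_sub_mk, mul_zero, sub_zero] at hbr
        have hsp : ∀ j, (W * W' - W' * W) j ∈ spQ (B j) (p1 (T j)) := by
          intro j
          obtain ⟨c, hc⟩ := hsim j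
          obtain ⟨c', hc'⟩ := hsim' j
          exact bracket_sim hc hc'
        have hi : (W * W' - W' * W) i = (2 : ℤ_[2]) ^ (a + b) • (P * Q - Q * P) := by
          rw [Pi.sub_apply, Pi.mul_apply, Pi.mul_apply, hWi, hWi', pow_add]
          simp only [smul_mul_assoc, mul_smul_comm, smul_smul, smul_sub]
          rw [mul_comm ((2 : ℤ_[2]) ^ b)]
        have hlo : ∀ j, r j < r i → (W * W' - W' * W) j = 0 := by
          intro j hj
          rw [Pi.sub_apply, Pi.mul_apply, Pi.mul_apply, hlow j hj, zero_mul, mul_zero, sub_self]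
        set V := W * W' - W' * W with hV
        have h2 : TanA (jw ρ t) (∑ j ∈ Finset.univ.filter (fun j => r i < r j), Pi.single j (V j), 0) := by
          refine sum_tan ρ t fun j hj => ?_
          rw [Finset.mem_filter] at hj
          have h3 := hn j
          refine ih (r i + n - r j) (by omega) j (fun k => ?_) (V j) (hsp j)
          have h4 := hn k
          omega
        have h3 : V - ∑ j ∈ Finset.univ.filter (fun j => r i < r j), Pi.single j (V j) =
            (2 : ℤ_[2]) ^ (a + b) • (Pi.single i (P * Q - Q * P) : ∀ i, Module.End ℤ_[2] (T i)) := by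
          funext k
          rw [Pi.sub_apply, Finset.sum_apply, Pi.smul_apply]
          by_cases hk : k = i
          · subst hk
            rw [Pi.single_eq_same, hi, Finset.sum_eq_zero, sub_zero]
            intro j hj
            rw [Finset.mem_filter] at hj
            rw [Pi.single_eq_of_ne]
            rintro rfl
            exact lt_irrefl _ hj.2
          · rw [Pi.single_eq_of_ne hk, smul_zero]
            by_cases hk2 : r i < r k
            · rw [Finset.sum_eq_single k]
              · rw [Pi.single_eq_same, sub_self]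
              · intro j _ hj
                rw [Pi.single_eq_of_ne hj.symm]
              · intro h
                exact absurd (Finset.mem_filter.2 ⟨Finset.mem_univ k, hk2⟩) h
            · have h4 : r k < r i := lt_of_le_of_ne (not_lt.1 hk2) fun h => hk (hr h)
              rw [hlo k h4, Finset.sum_eq_zero, sub_zero]
              intro j hj
              rw [Finset.mem_filter] at hj
              rw [Pi.single_eq_of_ne]
              rintro rfl
              exact hk2 hj.2
        have h4 := Submodule.sub_mem _ (mem_tan.2 hbr) (mem_tan.2 h2)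
        rw [Prod.mk_sub_mk, h3, sub_zero, mem_tan] at h4
        refine ⟨spQ_bracket (B i) (p1 (T i)) hP hQ, TanA_pow_cancel (a + b) ?_⟩
        rwa [Prod.smul_mk, smul_zero]
      · obtain ⟨h1, h2⟩ := hX
        refine ⟨?_, ?_⟩
        · refine mem_spQ_iff.2 fun x y => ?_
          have h3 := mem_spQ_iff.1 h1 x y
          simp only [LinearMap.smul_apply, map_smul, smul_eq_mul] at h3
          have h4 : (2 : ℤ_[2]) * (B i (X x) y + B i x (X y)) = 0 := by linear_combination h3
          exact (mul_eq_zero.1 h4).resolve_left (by norm_num)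
        · apply TanA_cancel
          rw [Prod.smul_mk, smul_zero]
          rwa [Pi.single_smul] at h2
    intro X hX
    exact (hSle hX).2
  have h1 : X = ∑ i, Pi.single i (X i) := (Finset.univ_sum_single X).symm
  rw [h1]
  refine sum_tan ρ t fun i _ => ?_
  refine key (∑ j, r j) i (fun j => ?_) (X i) (hX i)
  have := Finset.single_le_sum (f := r) (fun _ _ => Nat.zero_le _) (Finset.mem_univ j)
  omega

include halt hnd hB in
/-- **Pairwise separated families, different multipliers.** -/
theorem tri_pairs' (r : ι → ℕ) (hr : Function.Injective r)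
    (H : ∀ i j, r j < r i → ∀ X ∈ spQ (B i) (p1 (T i)),
      TanA (MonoidHom.prod (ρ i : Γ →* Module.End ℤ_[2] (T i))
        (ρ j : Γ →* Module.End ℤ_[2] (T j))) (X, 0))
    (H' : ∀ i, ∀ X ∈ spQ (B i) (p1 (T i)),
      TanA (MonoidHom.prod (ρ i : Γ →* Module.End ℤ_[2] (T i)) t) (X, 0))
    {X : ∀ i, Module.End ℤ_[2] (T i)} (hX : ∀ i, X i ∈ spQ (B i) (p1 (T i))) :
    TanA (jw ρ t) (X, 0) := by
  refine tri' (χ := χ) halt hnd hB r hr (fun i X hX => ?_) hX
  have h1 := part_tan halt hnd (i := i) (J := Finset.univ.filter (fun j : ι => r j < r i))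
    (fun j hj => H i j (Finset.mem_filter.1 hj).2) (H' i) X hX
  have h2 : part ρ (Finset.univ.filter (fun j : ι => r j < r i)) = lower ρ r i := by
    refine MonoidHom.ext fun s => funext fun j => ?_
    by_cases h : r j < r i
    · rw [part_of_mem (Finset.mem_filter.2 ⟨Finset.mem_univ j, h⟩), lower_of_lt _ h]
    · have h3 : j ∉ Finset.univ.filter (fun j : ι => r j < r i) :=
        fun h' => h (Finset.mem_filter.1 h').2
      rw [part_of_not h3, lower_of_not _ h]
  rw [h2] at h1
  exact h1

end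

end Pool.Agent.H852.J
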