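import Mathlib
import Pool.Agent.H852.J.M2
import Pool.Agent.H852.J.M3
import Pool.Graph.R_pool_sql_team_seeded_63374d34.N171.TG.Fin

/-!
# Alternating motives of any weights
-/

set_option linter.unusedSectionVars false
set_option autoImplicit false

open Polynomial Matrix Filter Topology Module
open Pool.Agent.Y142.ZS (SpLie)
open Pool.Agent.N171 Pool.Agent.N171.Al Pool.Agent.N171.TG
open Pool.Agent.R932.PO

namespace Pool.Agent.H852.J

noncomputable section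

/-- From the groups modulo four to the Lie algebra of the 2-adic image. -/
theorem jtan_of_four {n : ℕ} {N : Fin n → ℕ} {Γ : Type} [Group Γ]
    (ρ : ∀ i, Γ →* Matrix (Fin (N i)) (Fin (N i)) ℚ_[2])
    (J : ∀ i, Matrix (Fin (N i)) (Fin (N i)) ℚ_[2]) (c : Fin n → Γ →* ℚ_[2])
    (hN : ∀ i, 0 < N i)
    (J₂ : ∀ i, Matrix (Fin (N i)) (Fin (N i)) ℤ_[2])
    (ρ₂ : ∀ i, Γ →* Matrix (Fin (N i)) (Fin (N i)) ℤ_[2])
    (hJ₂ : ∀ i, (J₂ i).map cZ = J i) (hρ₂ : ∀ i g, (ρ₂ i g).map cZ = ρ i g)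
    (hJ : ∀ i, (J₂ i)ᵀ = -J₂ i) (hdet : ∀ i, IsUnit (J₂ i).det)
    (hsim : ∀ i g, (ρ i g)ᵀ * J i * ρ i g = c i g • J i)
    (htight : ∀ i, TightM (J₂ i) (ρ₂ i))
    (hel : ∀ i, ∃ g, TransFour (J₂ i) (ρ₂ i) g ∧ ∃ z : ℤ_[2], c i g = 1 + 8 * (z : ℚ_[2]))
    (hpair : ∀ i j, j < i → ∃ g, TransFour (J₂ i) (ρ₂ i) g ∧
      (∃ z : ℤ_[2], c i g = 1 + 8 * (z : ℚ_[2])) ∧ ∃ M, ρ₂ j g = 1 + (4 : ℤ_[2]) • M)
    (X : ∀ i, Matrix (Fin (N i)) (Fin (N i)) ℚ_[2]) (hX : ∀ i, SpLie (J i) (X i)) :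
    JTan 2 ρ X := by
  classical
  have hint : ∀ i g a b, ‖ρ i g a b‖ ≤ 1 := by
    intro i g a b
    rw [← hρ₂, Matrix.map_apply]
    exact PadicInt.norm_le_one _
  have hdet0 : ∀ i, (J i).det ≠ 0 := by
    intro i
    rw [← hJ₂, ← RingHom.mapMatrix_apply, ← RingHom.map_det]
    exact ((hdet i).map cZ).ne_zero
  -- the multipliers are integral
  have hc : ∀ i g, ‖c i g‖ ≤ 1 := by
    intro i g
    have h1 := congrArg Matrix.det (hsim i g)
    rw [det_mul, det_mul, det_transpose, det_smul, Fintype.card_fin] at h1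
    have h2 : c i g ^ N i = (ρ i g).det ^ 2 := by
      apply mul_right_cancel₀ (hdet0 i)
      rw [← h1]
      ring
    have h3 : ‖(ρ i g).det‖ ≤ 1 := by
      rw [← hρ₂, ← RingHom.mapMatrix_apply, ← RingHom.map_det]
      exact PadicInt.norm_le_one _
    have h4 : ‖c i g‖ ^ N i ≤ 1 := by
      rw [← norm_pow, h2, norm_pow]
      exact pow_le_one₀ (norm_nonneg _) h3
    exact (pow_le_one_iff_of_nonneg (norm_nonneg _) (hN i).ne').1 h4
  let χ : Fin n → Γ →* ℤ_[2]ˣ := fun i => chiZ (c i) (hc i)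
  have hχ : ∀ i g, (((χ i g : ℤ_[2]ˣ) : ℤ_[2]) : ℚ_[2]) = c i g := fun i g => chiZ_coe (c i) (hc i) g
  have hsim₂ : ∀ i g, (ρ₂ i g)ᵀ * J₂ i * ρ₂ i g = (χ i g : ℤ_[2]) • J₂ i := by
    intro i g
    apply map_cZ_inj
    rw [Matrix.map_mul, Matrix.map_mul, Matrix.transpose_map, hρ₂, hJ₂, hsim]
    ext a b
    rw [Matrix.map_apply, Matrix.smul_apply, Matrix.smul_apply, smul_eq_mul, smul_eq_mul,
      map_mul]
    have h1 : cZ (J₂ i a b) = J i a b := congrFun (congrFun (hJ₂ i) a) b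
    rw [h1, ← hχ]
    rfl
  have h8 : ∀ i g, (∃ z : ℤ_[2], c i g = 1 + 8 * (z : ℚ_[2])) → (8 : ℤ_[2]) ∣ (χ i g : ℤ_[2]) - 1 := by
    rintro i g ⟨z, hz⟩
    refine ⟨z, Subtype.ext ?_⟩
    have h1 : (((χ i g : ℤ_[2]ˣ) : ℤ_[2]) : ℚ_[2]) - 1 = 8 * (z : ℚ_[2]) := by
      rw [hχ, hz]
      ring
    exact_mod_cast h1
  -- the joint tangent vectors
  have htan : ∀ Y : ∀ i, Module.End ℤ_[2] (Fin (N i) → ℤ_[2]), (∀ i, Y i ∈ spQ (bil (J₂ i)) (p1 _)) →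
      TanA (joint fun i => actZ (ρ₂ i)) Y := by
    intro Y hY
    have h1 := tri_pairs' (ρ := fun i => actZ (ρ₂ i)) (t := (1 : Γ →* ℤ_[2]))
      (B := fun i => bil (J₂ i)) (χ := χ) (fun i x => bil_alt (hJ i) x)
      (fun i v hv => bil_nd (hJ i) (hdet i) v hv) (fun i => bil_sim (hsim₂ i)) (fun i => (i : ℕ))
      Fin.val_injective (fun i j hij X hX => ?_) (fun i X hX => ?_) hY
    · exact TanA_fun (R' := joint fun i => actZ (ρ₂ i)) Prod.fst (fun _ => rfl)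
        (fun _ _ _ _ => rfl) h1
    · obtain ⟨g, hg, hg8, M, hM⟩ := hpair i j hij
      obtain ⟨v, hv, s, hs⟩ := root_of_trans (χ := χ i)
        (t := (actZ (ρ₂ j) : Γ →* Module.End ℤ_[2] (Fin (N j) → ℤ_[2]))) (hJ i) hg (h8 i g hg8)
        ⟨Matrix.toLinAlgEquiv' M, by
          change Matrix.toLinAlgEquiv' (ρ₂ j g) = _
          rw [hM, map_add, map_one, map_smul]⟩
      exact tan_of_tight (fun x => bil_alt (hJ i) x) (fun v hv => bil_nd (hJ i) (hdet i) v hv)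
        (bil_sim (hsim₂ i)) (htight i).toL hv hs hX
    · obtain ⟨g, hg, hg8⟩ := hel i
      obtain ⟨v, hv, s, hs⟩ := root_of_trans (χ := χ i) (t := (1 : Γ →* ℤ_[2])) (hJ i) hg
        (h8 i g hg8) ⟨0, by rw [MonoidHom.one_apply, smul_zero, add_zero]⟩
      exact tan_of_tight (fun x => bil_alt (hJ i) x) (fun v hv => bil_nd (hJ i) (hdet i) v hv)
        (bil_sim (hsim₂ i)) (htight i).toL hv hs hX
  have hrep : (fun i => repZ (ρ i) (hint i)) = fun i => actZ (ρ₂ i) := by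
    funext i
    refine MonoidHom.ext fun g => ?_
    have h1 : repM (ρ i) (hint i) g = ρ₂ i g := by
      apply map_cZ_inj
      rw [repM_map, hρ₂]
    refine LinearMap.ext fun x => ?_
    rw [repZ_apply, h1, actZ_apply]
  -- the passage to the rational matrices
  obtain ⟨𝔤, h𝔤, -, -⟩ := jlie 2 (Fin n) N Γ ρ
  obtain ⟨k, hk⟩ := exists_scale X
  have h2k : ((2 : ℚ_[2]) ^ k) ≠ 0 := pow_ne_zero k two_ne_zero
  have hmain : JTan 2 ρ fun i => (2 : ℚ_[2]) ^ k • X i := by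
    let Xz : ∀ i, Matrix (Fin (N i)) (Fin (N i)) ℤ_[2] := fun i =>
      matZ ((2 : ℚ_[2]) ^ k • X i) (hk i)
    have hXz : ∀ i, (Xz i)ᵀ * J₂ i + J₂ i * Xz i = 0 := by
      intro i
      apply map_cZ_inj
      have h1 : ((Xz i)ᵀ).map cZ = ((2 : ℚ_[2]) ^ k • X i)ᵀ := rfl
      have h2 : (Xz i).map cZ = (2 : ℚ_[2]) ^ k • X i := rfl
      have h4 : ((Xz i)ᵀ * J₂ i + J₂ i * Xz i).map cZ = ((Xz i)ᵀ).map cZ * (J₂ i).map cZ +
          (J₂ i).map cZ * (Xz i).map cZ := by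
        rw [← Matrix.map_mul, ← Matrix.map_mul]
        ext a b
        rw [Matrix.map_apply, Matrix.add_apply, map_add]
        rfl
      rw [h4, h1, h2, hJ₂, transpose_smul, smul_mul_assoc, mul_smul_comm, ← smul_add]
      have h5 : (X i)ᵀ * J i + J i * X i = 0 := hX i
      rw [h5, smul_zero]
      ext a b
      rw [Matrix.map_apply, Matrix.zero_apply, Matrix.zero_apply, map_zero]
    have h1 := jtan_of_tanA ρ hint Xz (by
      rw [hrep]
      exact htan (fun i => Matrix.toLinAlgEquiv' (Xz i)) fun i => mem_spQ (hXz i))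
    exact h1
  have h3 := 𝔤.smul_mem ((2 : ℚ_[2]) ^ k)⁻¹ ((h𝔤 _).2 hmain)
  have h4 : ((2 : ℚ_[2]) ^ k)⁻¹ • (fun i => (2 : ℚ_[2]) ^ k • X i) = X := by
    funext i
    rw [Pi.smul_apply, smul_smul, inv_mul_cancel₀ h2k, one_smul]
  rw [h4] at h3
  exact (h𝔤 X).1 h3

end

end Pool.Agent.H852.J
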