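import Mathlib
import Pool.Agent.H852.J.L9

/-!
# Joint multiple transitivity for several polynomials
-/

set_option linter.unusedSectionVars false
set_option autoImplicit false

open Polynomial Module NumberField IsDedekindDomain
open HeightOneSpectrum

namespace Pool.Agent.H852.J

noncomputable section

variable {ι : Type} [Fintype ι] [DecidableEq ι] {K : Type} [Field K] [NumberField K]
  {f : ι → ℤ[X]}

/-- the Galois group acts transitively on the systems of `κ i` different roots of `f i`, for all `i` -/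
def JT (K : Type) [Field K] (f : ι → ℤ[X]) (κ : ι → ℕ) : Prop :=
  ∀ u u' : ι → ℕ → AlgebraicClosure K, (∀ i, ∀ l < κ i, evZ (u i l) (f i) = 0) →
    (∀ i, ∀ l < κ i, evZ (u' i l) (f i) = 0) →
    (∀ i, ∀ l < κ i, ∀ m < κ i, u i l = u i m → l = m) →
    (∀ i, ∀ l < κ i, ∀ m < κ i, u' i l = u' i m → l = m) →
    ∃ s : AlgebraicClosure K ≃ₐ[K] AlgebraicClosure K, ∀ i, ∀ l < κ i, s (u i l) = u' i l

theorem jt_zero : JT K f fun _ => 0 := fun _ _ _ _ _ _ =>
  ⟨AlgEquiv.refl, fun i l hl => absurd hl (Nat.not_lt_zero l)⟩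

/-- the factorizations modulo `p` for all polynomials -/
def CertJ (p : ℕ) [Fact p.Prime] (f : ι → ℤ[X]) (κ : ι → ℕ) : Prop :=
  ∀ i, ∃ (r : Fin (κ i) → ZMod p) (Q : (ZMod p)[X]), CertT p (f i) (κ i) r Q

/-- the splitting field of all polynomials -/
theorem exists_splitJ (K : Type) [Field K] [NumberField K] (f : ι → ℤ[X]) (hm : ∀ i, (f i).Monic) :
    ∃ (M : IntermediateField K (AlgebraicClosure K))
    (_ : NumberField M), Normal K M ∧ ∀ i, ∀ x : AlgebraicClosure K, evZ x (f i) = 0 → x ∈ M := by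
  obtain ⟨M, hnf, hnorm, hM⟩ := exists_splitZ K (∏ i, f i)
    (monic_prod_of_monic _ _ fun i _ => hm i).ne_zero
  refine ⟨M, hnf, hnorm, fun i x hx => hM x ?_⟩
  have h1 : evZ x (∏ i, f i) = ∏ i, evZ x (f i) := by
    rw [evZ, eval₂_finsetProd]
    rfl
  rw [h1]
  exact Finset.prod_eq_zero (Finset.mem_univ i) hx

/-- **The step for joint transitivity.** -/
theorem jt_step (hm : ∀ i, (f i).Monic) {p : ℕ} [Fact p.Prime] (φ : 𝓞 K →+* ZMod p) {κ : ι → ℕ}
    (hc : CertJ p f κ) (ih : JT K f κ) (i₀ : ι) :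
    JT K f (Function.update κ i₀ (κ i₀ + 1)) := by
  intro u u' hr hr' hu hu'
  obtain ⟨M, hnf, hnorm, hM⟩ := exists_splitJ K f hm
  obtain ⟨π, σ, hσ⟩ := exists_frob M φ
  choose r Q hc using hc
  -- simple roots
  have hsimple : ∀ i, ∀ y : AlgebraicClosure (ZMod p), evZ y (f i) = 0 →
      evZ y (derivative (f i)) ≠ 0 := by
    intro i y hy
    rw [← aeval_map_evZ (K := ZMod p)] at hy
    have h1 := (hc i).sep.aeval_derivative_ne_zero hy
    rwa [derivative_map, aeval_map_evZ] at h1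
  have hπ0 : ∀ i, ∀ x : 𝓞 M, evZ x (f i) = 0 → evZ (π x) (f i) = 0 := by
    intro i x hx
    rw [← hom_evZ, hx, map_zero]
  -- the fixed points
  have hlift : ∀ i (l : Fin (κ i)), ∃ ρ : 𝓞 M, evZ ρ (f i) = 0 ∧
      π ρ = algebraMap (ZMod p) (AlgebraicClosure (ZMod p)) (r i l) := by
    intro i l
    obtain ⟨x, hx1, hx2⟩ := exists_lift_root M (A := (f i).map (Int.castRingHom (𝓞 M)))
      ((hm i).map _) (fun x hx => by
        refine hM i x ?_
        rw [eval₂_map] at hx
        rw [evZ, ← hx]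
        congr 1) π (y := algebraMap (ZMod p) (AlgebraicClosure (ZMod p)) (r i l)) (by
        have h1 := hom_evZ (algebraMap (ZMod p) (AlgebraicClosure (ZMod p))) (f i) (r i l)
        rw [(hc i).root, map_zero, evZ_eq_eval] at h1
        rw [Polynomial.map_map, h1]
        congr 2
        exact RingHom.ext_int _ _)
    rw [← evZ_eq_eval] at hx1
    exact ⟨x, hx1, hx2⟩
  choose ρ hρ hρr using hlift
  have huniq : ∀ i, ∀ x y : 𝓞 M, evZ x (f i) = 0 → evZ y (f i) = 0 → π x = π y → x = y := by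
    intro i x y hx hy hxy
    exact evZ_unique π (f i) (hx.trans hy.symm) hxy (hsimple i _ (hπ0 i x hx))
  have hfix : ∀ i l, σ • ρ i l = ρ i l := by
    intro i l
    refine huniq i _ _ ?_ (hρ i l) ?_
    · rw [← smul_evZ, hρ, smul_zero]
    · rw [hσ, hρr, ← map_pow, ZMod.pow_card]
  have hfixj : ∀ i l (j : ℕ), σ ^ j • ρ i l = ρ i l := by
    intro i l j
    induction j with
    | zero => rw [pow_zero, one_smul]
    | succ j ih => rw [pow_succ, mul_smul, hfix, ih]
  have hroot0 : ∀ i, ∀ x : 𝓞 M, evZ x (f i) = 0 → evZ (ioK M x) (f i) = 0 := by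
    intro i x hx
    rw [← hom_evZ, hx, map_zero]
  have hint : ∀ i, ∀ x : AlgebraicClosure K, evZ x (f i) = 0 →
      ∃ z : 𝓞 M, ioK M z = x ∧ evZ z (f i) = 0 := by
    intro i x hx
    have h2 := hM i _ hx
    have h3 : evZ (⟨x, h2⟩ : M) (f i) = 0 := by
      apply (algebraMap M (AlgebraicClosure K)).injective
      rw [map_zero, hom_evZ]
      exact hx
    refine ⟨⟨⟨x, h2⟩, evZ_int_of (hm i) h3⟩, rfl, ?_⟩
    apply RingOfIntegers.ext
    have h4 := hom_evZ (algebraMap (𝓞 M) M) (f i) ⟨⟨x, h2⟩, evZ_int_of (hm i) h3⟩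
    exact (h4.trans h3).trans (map_zero (algebraMap (𝓞 M) M)).symm
  -- the fixed points as a system
  let v : ι → ℕ → AlgebraicClosure K := fun i l => if h : l < κ i then ioK M (ρ i ⟨l, h⟩) else 0
  have hv : ∀ i l (h : l < κ i), v i l = ioK M (ρ i ⟨l, h⟩) := fun i l h => dif_pos h
  have hinjv : ∀ i, ∀ l < κ i, ∀ m < κ i, v i l = v i m → l = m := by
    intro i l hl m hm' h
    rw [hv i l hl, hv i m hm'] at h
    have h1 := ioK_inj M h
    have h2 : r i ⟨l, hl⟩ = r i ⟨m, hm'⟩ := by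
      apply (algebraMap (ZMod p) (AlgebraicClosure (ZMod p))).injective
      rw [← hρr, ← hρr, h1]
    exact congrArg Fin.val ((hc i).inj h2)
  have hup : ∀ i, ∀ l < κ i, l < Function.update κ i₀ (κ i₀ + 1) i := by
    intro i l hl
    by_cases hi : i = i₀
    · subst hi
      rw [Function.update_self]
      omega
    · rwa [Function.update_of_ne hi]
  have hlast : κ i₀ < Function.update κ i₀ (κ i₀ + 1) i₀ := by
    rw [Function.update_self]
    omega
  -- the last points
  have key : ∀ u : ι → ℕ → AlgebraicClosure K,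
      (∀ i, ∀ l < Function.update κ i₀ (κ i₀ + 1) i, evZ (u i l) (f i) = 0) →
      (∀ i, ∀ l < Function.update κ i₀ (κ i₀ + 1) i,
        ∀ m < Function.update κ i₀ (κ i₀ + 1) i, u i l = u i m → l = m) →
      ∃ (s : AlgebraicClosure K ≃ₐ[K] AlgebraicClosure K) (z : 𝓞 M),
        (∀ i, ∀ l (h : l < κ i), s (u i l) = ioK M (ρ i ⟨l, h⟩)) ∧ s (u i₀ (κ i₀)) = ioK M z ∧
        evZ z (f i₀) = 0 ∧ aeval (π z) (Q i₀) = 0 := by
    intro u hr hu
    obtain ⟨s, hs⟩ := ih u v (fun i l hl => hr i l (hup i l hl))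
      (fun i l hl => by rw [hv i l hl]; exact hroot0 i _ (hρ i _))
      (fun i l hl m hm' h => hu i l (hup i l hl) m (hup i m hm') h) hinjv
    have h1 := gal_evZ s (hr i₀ (κ i₀) hlast)
    obtain ⟨z, hzz, hz⟩ := hint i₀ _ h1
    refine ⟨s, z, fun i l h => by rw [hs i l h, hv i l h], hzz.symm, hz, ?_⟩
    have h4 := hπ0 i₀ z hz
    rw [← aeval_map_evZ (K := ZMod p), (hc i₀).fac, map_mul, mul_eq_zero] at h4
    refine h4.resolve_left fun h5 => ?_
    rw [map_prod, Finset.prod_eq_zero_iff] at h5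
    obtain ⟨l, -, h6⟩ := h5
    rw [map_sub, aeval_X, aeval_C, sub_eq_zero, ← hρr] at h6
    have h7 := huniq i₀ _ _ hz (hρ i₀ l) h6
    have h8 : s (u i₀ (κ i₀)) = s (u i₀ l) := by
      rw [hs i₀ l l.2, hv i₀ l l.2, ← hzz, h7]
    have h9 := hu i₀ _ hlast _ (hup i₀ l l.2) (s.injective h8)
    exact absurd h9 l.2.ne'
  obtain ⟨s, z, hs, hsz, hz, hzQ⟩ := key u hr hu
  obtain ⟨s', z', hs', hsz', hz', hzQ'⟩ := key u' hr' hu'
  obtain ⟨j, hj⟩ := frob_transitive (hc i₀).irr hzQ hzQ'
  have hjz : σ ^ j • z = z' := by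
    refine huniq i₀ _ _ ?_ hz' ?_
    · rw [← smul_evZ, hz, smul_zero]
    · rw [frob_iter hσ, hj]
  refine ⟨(s.trans ((σ ^ j).liftNormal (AlgebraicClosure K))).trans s'.symm, fun i l hl => ?_⟩
  by_cases hl' : l < κ i
  · rw [AlgEquiv.trans_apply, AlgEquiv.trans_apply, hs i l hl', lift_ioK, hfixj, ← hs' i l hl',
      AlgEquiv.symm_apply_apply]
  · have hi : i = i₀ := by
      by_contra hi
      rw [Function.update_of_ne hi] at hl
      exact hl' hl
    subst hi
    rw [Function.update_self] at hl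
    have hll : l = κ i := by omega
    subst hll
    rw [AlgEquiv.trans_apply, AlgEquiv.trans_apply, hsz, lift_ioK, hjz, ← hsz',
      AlgEquiv.symm_apply_apply]

/-- joint transitivity from all certificates -/
theorem jt_all (hm : ∀ i, (f i).Monic) (n : ι → ℕ)
    (hc : ∀ κ : ι → ℕ, (∀ i, κ i + 2 ≤ n i) → ∃ (p : ℕ) (_ : Fact p.Prime) (_ : 𝓞 K →+* ZMod p),
      CertJ p f κ) (m : ℕ) : ∀ κ : ι → ℕ, (∀ i, κ i + 2 ≤ n i) → ∑ i, κ i = m → JT K f κ := by
  induction m with
  | zero =>
    intro κ _ h0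
    have h1 : κ = fun _ => 0 := by
      funext i
      exact (Finset.sum_eq_zero_iff.1 h0) i (Finset.mem_univ i)
    rw [h1]
    exact jt_zero
  | succ m ih =>
    intro κ hκ hsum
    obtain ⟨j, hj⟩ : ∃ j, κ j ≠ 0 := by
      by_contra hno
      push Not at hno
      rw [Finset.sum_eq_zero fun i _ => hno i] at hsum
      omega
    set κ' := Function.update κ j (κ j - 1) with hκ'
    have h1 : ∀ i, κ' i + 2 ≤ n i := by
      intro i
      by_cases hi : i = j
      · subst hi
        rw [hκ', Function.update_self]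
        have := hκ i
        omega
      · rw [hκ', Function.update_of_ne hi]
        exact hκ i
    have h2 : ∑ i, κ' i = m := by
      have h3 := Finset.add_sum_erase Finset.univ κ (Finset.mem_univ j)
      have h4 := Finset.add_sum_erase Finset.univ κ' (Finset.mem_univ j)
      have h5 : ∑ i ∈ Finset.univ.erase j, κ' i = ∑ i ∈ Finset.univ.erase j, κ i := by
        refine Finset.sum_congr rfl fun i hi => ?_
        rw [hκ', Function.update_of_ne (Finset.ne_of_mem_erase hi)]
      have h6 : κ' j = κ j - 1 := by rw [hκ', Function.update_self]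
      omega
    have h3 : κ = Function.update κ' j (κ' j + 1) := by
      funext i
      by_cases hi : i = j
      · subst hi
        rw [Function.update_self, hκ', Function.update_self]
        omega
      · rw [Function.update_of_ne hi, hκ', Function.update_of_ne hi]
    obtain ⟨p, hp, φ, hcert⟩ := hc κ' h1
    rw [h3]
    exact jt_step hm φ hcert (ih κ' h1 h2) j

end

end Pool.Agent.H852.J
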