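import Mathlib
import Pool.Agent.H852.J.Q1

/-!
# Places of fields generated by roots of several polynomials
-/

set_option linter.unusedSectionVars false
set_option autoImplicit false

open Polynomial Module NumberField IsDedekindDomain
open HeightOneSpectrum WithZero

namespace Pool.Agent.H852.J

noncomputable section

variable {p : ℕ} [Fact p.Prime]

section one

variable {K : Type} [Field K] [NumberField K] {f : ℤ[X]}
variable {L : Type} [Field L] [NumberField L] [Algebra K L]

/-- **The place is not ramified.** -/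
theorem placeP_der (hm : f.Monic) {v : HeightOneSpectrum (𝓞 K)}
    (hv : PlaceP p v) {α : 𝓞 L} (hα : evZ α f = 0)
    (htop : IntermediateField.adjoin K {(α : L)} = ⊤)
    (w : HeightOneSpectrum (𝓞 L)) [hw : w.asIdeal.LiesOver v.asIdeal]
    (hder : evZ α (derivative f) ∉ w.asIdeal) : PlaceP p w := by
  classical
  have hpw : (p : 𝓞 L) ∈ w.asIdeal := by
    have h1 : (p : 𝓞 K) ∈ w.asIdeal.under (𝓞 K) := by
      rw [← Ideal.LiesOver.over (p := v.asIdeal) (P := w.asIdeal)]
      exact hv.p_mem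
    rw [Ideal.mem_comap, map_natCast] at h1
    exact h1
  have hmem : ∀ m : ℤ, ¬ (p : ℤ) ∣ m → (m : 𝓞 L) ∉ w.asIdeal := by
    intro m hm h
    have h1 : IsCoprime (p : ℤ) m :=
      ((Nat.prime_iff_prime_int.1 (Fact.out : p.Prime)).coprime_iff_not_dvd).2 hm
    obtain ⟨a, b, hab⟩ := h1
    apply w.isPrime.ne_top
    rw [Ideal.eq_top_iff_one]
    have h3 : (1 : 𝓞 L) = (a : 𝓞 L) * p + (b : 𝓞 L) * m := by
      have := congrArg (Int.cast : ℤ → 𝓞 L) hab
      push_cast at this
      exact this.symm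
    rw [h3]
    exact w.asIdeal.add_mem (w.asIdeal.mul_mem_left _ hpw) (w.asIdeal.mul_mem_left _ h)
  have hmax : v.asIdeal.IsMaximal := v.isPrime.isMaximal v.ne_bot
  -- ramification
  have hle : v.asIdeal.map (algebraMap (𝓞 K) (𝓞 L)) ≤ w.asIdeal := by
    rw [Ideal.map_le_iff_le_comap]
    exact hw.over.le
  have h2 : ¬ v.asIdeal.map (algebraMap (𝓞 K) (𝓞 L)) ≤ w.asIdeal ^ 2 := by
    intro h1
    have h3 : w.asIdeal ^ (2 - 1) ∣ differentIdeal (𝓞 K) (𝓞 L) :=
      pow_sub_one_dvd_differentIdeal (𝓞 K) w.asIdeal 2 v.ne_bot (Ideal.dvd_iff_le.2 h1)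
    rw [pow_one, Ideal.dvd_iff_le] at h3
    have hadj : Algebra.adjoin K {algebraMap (𝓞 L) L α} = ⊤ := by
      have h4 := IntermediateField.adjoin_simple_toSubalgebra_of_isAlgebraic (F := K)
        (α := (α : L)) (Algebra.IsAlgebraic.isAlgebraic _)
      rw [htop] at h4
      exact h4.symm.trans IntermediateField.top_toSubalgebra
    have h4 := aeval_derivative_mem_differentIdeal (𝓞 K) K L α hadj
    -- the minimal polynomial divides `f`
    have h5 : minpoly (𝓞 K) α ∣ f.map (Int.castRingHom (𝓞 K)) := by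
      refine minpoly.isIntegrallyClosed_dvd (Algebra.IsIntegral.isIntegral α) ?_
      rw [aeval_def, eval₂_map, ← hα, evZ]
      congr 1
      exact RingHom.ext_int _ _
    obtain ⟨q, hq⟩ := h5
    apply hder
    have h6 : evZ α (derivative f) = aeval α (derivative (minpoly (𝓞 K) α)) * aeval α q := by
      have h7 : evZ α (derivative f) =
          aeval α (derivative (f.map (Int.castRingHom (𝓞 K)))) := by
        rw [derivative_map, aeval_def, eval₂_map, evZ]
        congr 1
        exact (RingHom.ext_int _ _)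
      rw [h7, hq, derivative_mul, map_add, map_mul, map_mul, minpoly.aeval, zero_mul, add_zero]
    rw [h6]
    exact w.asIdeal.mul_mem_right _ (h3 h4)
  have h3 : v.asIdeal.ramificationIdx' w.asIdeal = 1 := by
    by_contra h4
    exact h2 ((Ideal.ramificationIdx'_ne_one_iff hle).1 h4)
  have hval : ∀ x : K, w.valuation L (algebraMap K L x) = v.valuation K x := by
    intro x
    rw [← valuation_liesOver L v w x, h3, pow_one]
  refine ⟨?_, fun m hm => ?_, hmem⟩
  · have h4 := hval (p : K)
    rw [map_natCast] at h4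
    rw [h4, hv.val]
  · have h4 := hval (m : K)
    rw [map_intCast] at h4
    rw [h4, hv.one m hm]

/-- reduction maps -/
theorem exists_red_p {w : HeightOneSpectrum (𝓞 L)} (hw : (p : 𝓞 L) ∈ w.asIdeal) :
    ∃ π : 𝓞 L →+* AlgebraicClosure (ZMod p), ∀ x, π x = 0 ↔ x ∈ w.asIdeal := by
  have hfin : Finite (𝓞 L ⧸ w.asIdeal) := Ideal.finiteQuotientOfFreeOfNeBot _ w.ne_bot
  exact exists_residue p (𝓞 L) w.asIdeal (w.isPrime.isMaximal w.ne_bot) hfin hw

/-- a root of a polynomial which is separable modulo `p` -/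
theorem der_notMem_sep {w : HeightOneSpectrum (𝓞 L)} (hw : (p : 𝓞 L) ∈ w.asIdeal)
    (hs : (f.map (Int.castRingHom (ZMod p))).Separable) {x : 𝓞 L} (hx : evZ x f = 0) :
    evZ x (derivative f) ∉ w.asIdeal := by
  obtain ⟨π, hπ⟩ := exists_red_p hw
  intro h1
  rw [← hπ, hom_evZ] at h1
  have h3 := hom_evZ π f x
  rw [hx, map_zero] at h3
  have h4 : aeval (π x) (f.map (Int.castRingHom (ZMod p))) = 0 := by
    rw [aeval_map_evZ]
    exact h3.symm
  have h5 := hs.aeval_derivative_ne_zero h4
  rw [derivative_map, aeval_map_evZ] at h5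
  exact h5 h1

theorem under_ne_bot {v : HeightOneSpectrum (𝓞 K)} (w : HeightOneSpectrum (𝓞 L))
    [hw : w.asIdeal.LiesOver v.asIdeal] (K' : IntermediateField K L) [NumberField K'] :
    w.asIdeal.comap (algebraMap (𝓞 K') (𝓞 L)) ≠ ⊥ := by
  intro h1
  apply v.ne_bot
  have h2 : (algebraMap (𝓞 K) (𝓞 L)) = (algebraMap (𝓞 K') (𝓞 L)).comp
      (algebraMap (𝓞 K) (𝓞 K')) := by
    refine RingHom.ext fun x => ?_
    apply RingOfIntegers.ext
    rfl
  have h3 := hw.over
  rw [Ideal.under, h2, ← Ideal.comap_comap, h1] at h3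
  rw [h3]
  exact Ideal.comap_bot_of_injective _ (FaithfulSMul.algebraMap_injective (𝓞 K) (𝓞 K'))

/-- the generator as an integer of the subfield -/
theorem exists_gen (β : 𝓞 L) [NumberField (IntermediateField.adjoin K {(β : L)})] :
    ∃ β' : 𝓞 (IntermediateField.adjoin K {(β : L)}),
      ((β' : IntermediateField.adjoin K {(β : L)}) : L) = β ∧
      algebraMap (𝓞 (IntermediateField.adjoin K {(β : L)})) (𝓞 L) β' = β ∧
      IntermediateField.adjoin K {(β' : IntermediateField.adjoin K {(β : L)})} = ⊤ := by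
  have h1 : IsIntegral ℤ (IntermediateField.AdjoinSimple.gen K (β : L)) := by
    have h2 : IsIntegral ℤ (β : L) := RingOfIntegers.isIntegral_coe β
    have h3 : algebraMap (IntermediateField.adjoin K {(β : L)}) L
        (IntermediateField.AdjoinSimple.gen K (β : L)) = (β : L) :=
      IntermediateField.AdjoinSimple.algebraMap_gen K (β : L)
    rw [← h3] at h2
    exact (isIntegral_algebraMap_iff (algebraMap
      (IntermediateField.adjoin K {(β : L)}) L).injective).1 h2
  refine ⟨⟨IntermediateField.AdjoinSimple.gen K (β : L), h1⟩, rfl, ?_, ?_⟩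
  · apply RingOfIntegers.ext
    rfl
  · apply IntermediateField.lift_injective (IntermediateField.adjoin K {(β : L)})
    rw [IntermediateField.lift_adjoin_simple, IntermediateField.lift_top]
    rfl

end one

section multi

variable {L : Type} [Field L] [NumberField L]

/-- **The place is not ramified, several generators.** -/
theorem placeP_multi [DecidableEq (𝓞 L)] {w : HeightOneSpectrum (𝓞 L)} (S : Finset (𝓞 L)) :
    (∀ β ∈ S, ∃ f : ℤ[X], f.Monic ∧ evZ β f = 0 ∧ evZ β (derivative f) ∉ w.asIdeal) →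
    ∀ (K : Type) [Field K] [NumberField K] [Algebra K L] (v : HeightOneSpectrum (𝓞 K))
      [w.asIdeal.LiesOver v.asIdeal], PlaceP p v →
      IntermediateField.adjoin K ((fun β : 𝓞 L => (β : L)) '' S) = ⊤ → PlaceP p w := by
  induction S using Finset.induction_on with
  | empty =>
    intro _ K _ _ _ v _ hv htop
    refine placeP_der (K := K) (f := X) monic_X hv (α := 0) (evZ_X (0 : 𝓞 L)) ?_ w ?_
    · rw [eq_top_iff, ← htop]
      refine IntermediateField.adjoin.mono K _ _ ?_
      simp
    · rw [derivative_X, ← C_1, evZ_C', Int.cast_one]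
      exact fun h => w.isPrime.ne_top ((Ideal.eq_top_iff_one _).2 h)
  | insert β S hβ ih =>
    intro hS K _ _ _ v hw hv htop
    obtain ⟨f, hm, hf, hder⟩ := hS β (Finset.mem_insert_self _ _)
    have hnf : NumberField (IntermediateField.adjoin K {(β : L)}) := inferInstance
    set K' := IntermediateField.adjoin K {(β : L)} with hK'
    obtain ⟨β', h1, h2, h3⟩ := exists_gen (K := K) β
    let v' : HeightOneSpectrum (𝓞 K') := ⟨w.asIdeal.comap (algebraMap (𝓞 K') (𝓞 L)),
      w.isPrime.comap _, under_ne_bot (v := v) w K'⟩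
    have hwv' : w.asIdeal.LiesOver v'.asIdeal := ⟨rfl⟩
    have hv'v : v'.asIdeal.LiesOver v.asIdeal := by
      refine ⟨?_⟩
      rw [hw.over]
      rfl
    have hf' : evZ β' f = 0 := by
      apply RingOfIntegers.ext
      have h4 := hom_evZ (algebraMap (𝓞 K') (𝓞 L)) f β'
      rw [h2, hf] at h4
      have h5 := (injective_iff_map_eq_zero (algebraMap (𝓞 K') (𝓞 L))).1
        (FaithfulSMul.algebraMap_injective (𝓞 K') (𝓞 L)) _ h4
      rw [h5]
    have hv' : PlaceP p v' := by
      refine placeP_der (K := K) hm hv hf' h3 v' fun h4 => hder ?_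
      have h5 := hom_evZ (algebraMap (𝓞 K') (𝓞 L)) (derivative f) β'
      rw [h2] at h5
      rw [← h5]
      exact h4
    refine ih (fun γ hγ => hS γ (Finset.mem_insert_of_mem hγ)) K' v' hv' ?_
    have h4 := IntermediateField.adjoin_adjoin_left K ({(β : L)} : Set L)
      ((fun β : 𝓞 L => (β : L)) '' (S : Set (𝓞 L)))
    rw [← hK'] at h4
    apply IntermediateField.restrictScalars_injective K
    rw [h4, IntermediateField.restrictScalars_top, ← htop, Finset.coe_insert, Set.image_insert_eq,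
      Set.insert_eq]

/-- **There is a place at which the given root is simple, without ramification for the other roots.** -/
theorem exists_placeP_multi {K : Type} [Field K] [NumberField K] [Algebra K L]
    {f₀ : ℤ[X]} (hm : f₀.Monic) (hd : 3 ≤ f₀.natDegree)
    (hsep : (f₀.map (Int.castRingHom K)).Separable) (hp2 : p ≠ 2) {γ : ℤ} (hl : LocN p f₀ γ)
    {v : HeightOneSpectrum (𝓞 K)} (hv : PlaceP p v) (htr : KT K f₀ 1) {β : 𝓞 L}
    (hβ : evZ β f₀ = 0) (S : Finset (𝓞 L))
    (hS : ∀ x ∈ S, ∃ f : ℤ[X], f.Monic ∧ evZ x f = 0 ∧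
      (f.map (Int.castRingHom (ZMod p))).Separable)
    (htop : IntermediateField.adjoin K (insert (β : L) ((fun β : 𝓞 L => (β : L)) '' S)) = ⊤) :
    ∃ w : HeightOneSpectrum (𝓞 L), PlaceP p w ∧ β - (γ : 𝓞 L) ∉ w.asIdeal := by
  classical
  have hnf : NumberField (IntermediateField.adjoin K {(β : L)}) := inferInstance
  set K' := IntermediateField.adjoin K {(β : L)} with hK'
  obtain ⟨β', h1, h2, h3⟩ := exists_gen (K := K) β
  have hβ' : evZ β' f₀ = 0 := by
    have h4 := hom_evZ (algebraMap (𝓞 K') (𝓞 L)) f₀ β'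
    rw [h2, hβ] at h4
    exact (injective_iff_map_eq_zero (algebraMap (𝓞 K') (𝓞 L))).1
      (FaithfulSMul.algebraMap_injective (𝓞 K') (𝓞 L)) _ h4
  obtain ⟨v', hv'v, hv', hne⟩ := exists_placeP hm hd hsep hp2 hl hv htr hβ' h3
  obtain ⟨w, hw⟩ := exists_place_above (M := L) v'
  have hpw : (p : 𝓞 L) ∈ w.asIdeal := by
    have h4 : (p : 𝓞 K') ∈ w.asIdeal.under (𝓞 K') := by
      rw [← Ideal.LiesOver.over (p := v'.asIdeal) (P := w.asIdeal)]
      exact hv'.p_mem
    rw [Ideal.mem_comap, map_natCast] at h4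
    exact h4
  refine ⟨w, placeP_multi S (fun x hx => ?_) K' v' hv' ?_, fun h4 => hne ?_⟩
  · obtain ⟨f, hf1, hf2, hf3⟩ := hS x hx
    exact ⟨f, hf1, hf2, der_notMem_sep hpw hf3 hf2⟩
  · have h4 := IntermediateField.adjoin_adjoin_left K ({(β : L)} : Set L)
      ((fun β : 𝓞 L => (β : L)) '' (S : Set (𝓞 L)))
    rw [← hK'] at h4
    apply IntermediateField.restrictScalars_injective K
    rw [h4, IntermediateField.restrictScalars_top, ← htop, Set.insert_eq]
  · rw [hw.over, Ideal.mem_comap, map_sub, map_intCast, h2]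
    exact h4

/-- no conditions on the place -/
theorem exists_placeP_sep {K : Type} [Field K] [NumberField K] [Algebra K L]
    {v : HeightOneSpectrum (𝓞 K)} (hv : PlaceP p v) (S : Finset (𝓞 L))
    (hS : ∀ x ∈ S, ∃ f : ℤ[X], f.Monic ∧ evZ x f = 0 ∧
      (f.map (Int.castRingHom (ZMod p))).Separable)
    (htop : IntermediateField.adjoin K ((fun β : 𝓞 L => (β : L)) '' S) = ⊤) :
    ∃ w : HeightOneSpectrum (𝓞 L), PlaceP p w := by
  classical
  obtain ⟨w, hw⟩ := exists_place_above (M := L) v
  have hpw : (p : 𝓞 L) ∈ w.asIdeal := by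
    have h4 : (p : 𝓞 K) ∈ w.asIdeal.under (𝓞 K) := by
      rw [← Ideal.LiesOver.over (p := v.asIdeal) (P := w.asIdeal)]
      exact hv.p_mem
    rw [Ideal.mem_comap, map_natCast] at h4
    exact h4
  refine ⟨w, placeP_multi S (fun x hx => ?_) K v hv htop⟩
  obtain ⟨f, hf1, hf2, hf3⟩ := hS x hx
  exact ⟨f, hf1, hf2, der_notMem_sep hpw hf3 hf2⟩

end multi

section kt

variable {ι : Type} [Fintype ι] [DecidableEq ι] {K : Type} [Field K] [NumberField K]
  {f : ι → ℤ[X]}

theorem kt_of_jt {i : ι} {k : ℕ} (h : JT K f (Pi.single i k)) : KT K (f i) k := by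
  intro u u' hu hu' hr hr'
  have hlt : ∀ j l, l < (Pi.single i k : ι → ℕ) j → j = i ∧ l < k := by
    intro j l hl
    by_cases hj : j = i
    · subst hj
      rw [Pi.single_eq_same] at hl
      exact ⟨rfl, hl⟩
    · rw [Pi.single_eq_of_ne hj] at hl
      exact absurd hl (Nat.not_lt_zero l)
  obtain ⟨s, hs⟩ := h (fun _ l => if h : l < k then u ⟨l, h⟩ else 0)
    (fun _ l => if h : l < k then u' ⟨l, h⟩ else 0)
    (fun j l hl => by
      obtain ⟨rfl, hl'⟩ := hlt j l hl
      rw [dif_pos hl']
      exact hr _)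
    (fun j l hl => by
      obtain ⟨rfl, hl'⟩ := hlt j l hl
      rw [dif_pos hl']
      exact hr' _)
    (fun j l hl m hm hlm => by
      have hl' := (hlt j l hl).2
      have hm' := (hlt j m hm).2
      rw [dif_pos hl', dif_pos hm'] at hlm
      exact congrArg Fin.val (hu hlm))
    (fun j l hl m hm hlm => by
      have hl' := (hlt j l hl).2
      have hm' := (hlt j m hm).2
      rw [dif_pos hl', dif_pos hm'] at hlm
      exact congrArg Fin.val (hu' hlm))
  refine ⟨s, fun l => ?_⟩
  have h1 := hs i l (by rw [Pi.single_eq_same]; exact l.2)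
  rw [dif_pos l.2, dif_pos l.2] at h1
  exact h1

end kt

end

end Pool.Agent.H852.J
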