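import Mathlib
import Pool.Agent.H852.J.Q2

/-!
# The models of several curves at one place
-/

set_option linter.unusedSectionVars false
set_option autoImplicit false

open Polynomial Module NumberField IsDedekindDomain
open HeightOneSpectrum WithZero
open Pool.Agent.Results.MP_640417_ag.HyperellipticEveryPrime
open Pool.Agent.N171 Pool.Agent.N171.Al Pool.Agent.N171.Pm Pool.Agent.N171.Bg Pool.Agent.N171.TG

namespace Pool.Agent.H852.J

noncomputable section

section data

variable {L : Type} [Field L] [NumberField L] {n : ℕ}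

/-- the data of the model of odd degree -/
structure ModelData (a : Fin (n + 1) → ℤ) (α : L) (β : 𝓞 L) (ε : L) : Prop where
  coe : (β : L) = ((a (Fin.last n) : ℤ) : L) * α
  root : evZ β (mkP (monA a)) = 0
  ne : ε ≠ 0
  val : ∀ (p : ℕ) [Fact p.Prime] (w : HeightOneSpectrum (𝓞 L)), PlaceP p w →
    ¬ (p : ℤ) ∣ a (Fin.last n) → evZ β (derivative (mkP (monA a))) ∉ w.asIdeal →
    w.valuation L ε = 1
  hg : ∀ (F : Type) [Field F] [Algebra L F] (u : F),
      aeval u (oddM (mapQ L (polyA a)) α) = 0 ↔ u ≠ 0 ∧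
      evZ (algebraMap L F (β : L) + algebraMap L F ε / u) (mkP (monA a)) = 0
  monic : (oddM (mapQ L (polyA a)) α).Monic
  deg : (oddM (mapQ L (polyA a)) α).natDegree = n - 1
  sep : (oddM (mapQ L (polyA a)) α).Separable

theorem modelData (hn : 0 < n) (a : Fin (n + 1) → ℤ) (hc0 : a (Fin.last n) ≠ 0)
    (hsepL : (mapQ L (mkP (monA a))).Separable) {α : L} (hα : evZ α (polyA a) = 0) :
    ∃ (β : 𝓞 L) (ε : L), ModelData a α β ε := by
  classical
  set c : ℤ := a (Fin.last n) with hcd
  set f : ℤ[X] := mkP (monA a) with hf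
  have hm : f.Monic := mkP_monic _
  have hfd : f.natDegree = n := mkP_natDegree _
  have hcL : ∀ (F : Type) [Field F] [Algebra L F], ((c : ℤ) : F) ≠ 0 := by
    intro F _ _
    have h3 : ((c : ℤ) : F) = algebraMap L F ((c : ℤ) : L) := by rw [map_intCast]
    rw [h3, _root_.map_ne_zero]
    exact_mod_cast hc0
  have hsepA : (mapQ L (polyA a)).Separable := polyA_sep hn a hc0 hsepL
  have hA0 : mapQ L (polyA a) ≠ 0 := hsepA.ne_zero
  -- degrees
  have hAd : (mapQ L (polyA a)).natDegree = n := by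
    have h5 : (mapQ L (polyA a)) = ∑ i : Fin (n + 1), C ((a i : ℤ) : L) * X ^ (i : ℕ) := by
      rw [mapQ, polyA_map]
      rfl
    refine natDegree_eq_of_le_of_coeff_ne_zero ?_ ?_
    · rw [h5]
      refine natDegree_sum_le_of_forall_le _ _ fun i _ => ?_
      exact (natDegree_C_mul_X_pow_le _ _).trans (by have := i.2; omega)
    · rw [h5, finset_sum_coeff, Finset.sum_eq_single (Fin.last n)]
      · rw [coeff_C_mul, Fin.val_last, coeff_X_pow, if_pos rfl, mul_one]
        exact_mod_cast hc0
      · intro i _ hi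
        rw [coeff_C_mul, coeff_X_pow, if_neg, mul_zero]
        intro h6
        exact hi (Fin.ext (h6.symm.trans (Fin.val_last n).symm))
      · intro h6
        exact absurd (Finset.mem_univ _) h6
  have hαe : (mapQ L (polyA a)).eval α = 0 := by rw [← evZ_eq_eval, hα]
  have hδ : (mapQ L (polyA a)).derivative.eval α ≠ 0 := by
    have h5 := hsepA.aeval_derivative_ne_zero (x := α) (by rwa [coe_aeval_eq_eval])
    rwa [coe_aeval_eq_eval] at h5
  have hnd : (mapQ L (polyA a)).natDegree = (n - 1) + 1 := by rw [hAd]; omega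
  obtain ⟨hmon, hdeg⟩ := oddM_monic hαe hδ hnd
  have hsepM := oddM_sep hA0 hsepA hαe hnd
  -- the integral root
  have hβ : evZ ((c : L) * α) f = 0 := by
    have h5 := evZ_monA hn a α
    rw [hα, mul_zero] at h5
    exact h5
  let β : 𝓞 L := ⟨(c : L) * α, evZ_int_of hm hβ⟩
  have hβ' : evZ β f = 0 := by
    apply RingOfIntegers.ext
    have h5 := hom_evZ (algebraMap (𝓞 L) L) f β
    exact (h5.trans hβ).trans (map_zero (algebraMap (𝓞 L) L)).symm
  have hcoe : ((β : 𝓞 L) : L) = (c : L) * α := rfl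
  set δ := (mapQ L (polyA a)).derivative.eval α with hδd
  have hδe : δ = evZ α (derivative (polyA a)) := by
    rw [hδd, derivative_map, ← evZ_eq_eval]
  refine ⟨β, (c : L) * δ, hcoe, hβ', mul_ne_zero (hcL L) hδ, fun p _ w hw hc hder => ?_,
    fun F _ _ u => ?_, hmon, hdeg, hsepM⟩
  · have hcw : w.valuation L ((c : ℤ) : L) = 1 := hw.one c hc
    have h5 := evZ_deriv_monA hn a α
    rw [← hδe] at h5
    have h7 : w.valuation L (evZ (β : L) (derivative f)) = 1 := by
      have h8 : evZ (β : L) (derivative f) = algebraMap (𝓞 L) L (evZ β (derivative f)) :=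
        (hom_evZ (algebraMap (𝓞 L) L) (derivative f) β).symm
      rw [h8]
      refine le_antisymm (w.valuation_le_one _) (not_lt.1 fun h9 => hder ?_)
      exact (w.valuation_lt_one_iff_mem (K := L) _).1 h9
    have h8 := congrArg (w.valuation L) h5
    rw [map_mul, map_mul, map_pow, ← hcd, hcw, one_mul, one_pow, one_mul] at h8
    rw [map_mul, hcw, one_mul, ← h8]
    exact h7
  · rw [oddM_root hA0 hδ, aeval_map_evZ]
    have h5 := evZ_monA hn a (algebraMap L F α + algebraMap L F δ / u)
    have h6 : (((a (Fin.last n) : ℤ) : F)) * (algebraMap L F α + algebraMap L F δ / u) =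
        algebraMap L F (β : L) + algebraMap L F ((c : L) * δ) / u := by
      rw [hcoe, map_mul, map_mul, map_intCast, ← hcd]
      ring
    rw [h6] at h5
    rw [h5, mul_eq_zero, or_iff_right (pow_ne_zero _ (hcL F))]

end data

section places

variable {L : Type} [Field L] [NumberField L] {p : ℕ} [Fact p.Prime] {f : ℤ[X]}

theorem p_mem_above {w : HeightOneSpectrum (𝓞 L)} (hw : PlaceP p w) {M : Type} [Field M]
    [NumberField M] [Algebra L M] (P : HeightOneSpectrum (𝓞 M))
    [hP : P.asIdeal.LiesOver w.asIdeal] : (p : 𝓞 M) ∈ P.asIdeal := by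
  have h4 : (p : 𝓞 L) ∈ P.asIdeal.under (𝓞 L) := by
    rw [← Ideal.LiesOver.over (p := w.asIdeal) (P := P.asIdeal)]
    exact hw.p_mem
  rw [Ideal.mem_comap, map_natCast] at h4
  exact h4

/-- the differences with a simple root are units -/
theorem unit_diff (hm : f.Monic) {M : Type} [Field M] [NumberField M] (P : HeightOneSpectrum (𝓞 M))
    {x : 𝓞 M} (hx : evZ x f = 0) (hder : evZ x (derivative f) ∉ P.asIdeal) {y : M}
    (hy : evZ y f = 0) (hxy : y ≠ (x : M)) : P.valuation M (y - (x : M)) = 1 := by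
  let y' : 𝓞 M := ⟨y, evZ_int_of hm hy⟩
  have hy' : evZ y' f = 0 := by
    apply RingOfIntegers.ext
    have h4 := hom_evZ (algebraMap (𝓞 M) M) f y'
    exact (h4.trans hy).trans (map_zero (algebraMap (𝓞 M) M)).symm
  have hne : x ≠ y' := by
    intro h1
    apply hxy
    have h2 := congrArg (algebraMap (𝓞 M) M) h1
    exact h2.symm
  have h1 : y' - x ∉ P.asIdeal := by
    intro h1
    apply hder
    refine deriv_mem P.asIdeal f (hx.trans hy'.symm) hne ?_
    rw [← neg_sub]
    exact P.asIdeal.neg_mem h1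
  have h2 : P.valuation M (algebraMap (𝓞 M) M (y' - x)) = 1 := by
    refine le_antisymm (P.valuation_le_one _) (not_lt.1 fun h3 => h1 ?_)
    exact (P.valuation_lt_one_iff_mem (K := M) _).1 h3
  rw [map_sub] at h2
  exact h2

/-- the differences of the roots are units at places with separable reduction -/
theorem unit_diff_sep (hm : f.Monic) {M : Type} [Field M] [NumberField M]
    (P : HeightOneSpectrum (𝓞 M)) (hp : (p : 𝓞 M) ∈ P.asIdeal)
    (hs : (f.map (Int.castRingHom (ZMod p))).Separable) {x y : M} (hx : evZ x f = 0)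
    (hy : evZ y f = 0) (hxy : y ≠ x) : P.valuation M (y - x) = 1 := by
  let x' : 𝓞 M := ⟨x, evZ_int_of hm hx⟩
  have hx' : evZ x' f = 0 := by
    apply RingOfIntegers.ext
    have h4 := hom_evZ (algebraMap (𝓞 M) M) f x'
    exact (h4.trans hx).trans (map_zero (algebraMap (𝓞 M) M)).symm
  exact unit_diff hm P hx' (der_notMem_sep hp hs hx') hy hxy

/-- odd degree, separable reduction -/
theorem good_odd (hm : f.Monic) (hs : (f.map (Int.castRingHom (ZMod p))).Separable)
    {w : HeightOneSpectrum (𝓞 L)} (hw : PlaceP p w) : GoodAt (mapQ L f) w := by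
  refine ⟨fun M _ _ P _ u hu => ?_, fun M _ _ P _ u u' hu hu' huu => ?_⟩
  · rw [aeval_map_evZ] at hu
    exact P.valuation_le_one ⟨u, evZ_int_of hm hu⟩
  · rw [aeval_map_evZ] at hu hu'
    exact unit_diff_sep hm P (p_mem_above hw P) hs hu' hu huu

/-- odd degree, node -/
theorem node_odd (hm : f.Monic) (hsep : (mapQ L f).Separable) (hp2 : p ≠ 2) {γ : ℤ}
    (hl : LocN p f γ) {w : HeightOneSpectrum (𝓞 L)} (hw : PlaceP p w) :
    NodeAt (mapQ L f) w (fun _ _ => True) := by
  refine ⟨fun M _ _ P _ u hu => ?_, fun M _ _ P _ hM => ?_⟩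
  · rw [aeval_map_evZ] at hu
    exact P.valuation_le_one ⟨u, evZ_int_of hm hu⟩
  · obtain ⟨a, b, ha, hb, hab, -, -, hpairs, hsq⟩ := node_loc hm hsep hp2 hl hw M P
      (fun x hx => hM x (by rw [aeval_map_evZ]; exact hx))
    refine ⟨a, b, by rw [aeval_map_evZ]; exact ha, by rw [aeval_map_evZ]; exact hb, hab,
      trivial, fun u u' hu hu' huu hn => ?_, fun _ huniq => hw.odd_log P hsq huniq⟩
    rw [aeval_map_evZ] at hu hu'
    exact hpairs u u' hu hu' huu hn

variable {n : ℕ} {a : Fin (n + 1) → ℤ} {α : L} {β : 𝓞 L} {ε : L}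

/-- even degree, separable reduction -/
theorem good_even (hD : ModelData a α β ε)
    (hs : ((mkP (monA a)).map (Int.castRingHom (ZMod p))).Separable)
    (hc : ¬ (p : ℤ) ∣ a (Fin.last n)) {w : HeightOneSpectrum (𝓞 L)} (hw : PlaceP p w) :
    GoodAt (oddM (mapQ L (polyA a)) α) w := by
  classical
  have hm : (mkP (monA a)).Monic := mkP_monic _
  have hεw : w.valuation L ε = 1 := hD.val p w hw hc (der_notMem_sep hw.p_mem hs hD.root)
  have hval : ∀ (M : IntermediateField L (AlgebraicClosure L)) [NumberField M] [Normal L M]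
      (P : HeightOneSpectrum (𝓞 M)) [P.asIdeal.LiesOver w.asIdeal],
      P.valuation M (algebraMap L M ε) = 1 ∧ ∀ u : M,
      aeval u (oddM (mapQ L (polyA a)) α) = 0 → P.valuation M u = 1 := by
    intro M _ _ P _
    have hgal : IsGalois L M := ⟨⟩
    have h1 := val_up_one w P hεw
    refine ⟨h1, fun u hu => ?_⟩
    obtain ⟨h4, h5⟩ := (hD.hg M u).1 hu
    have hδM : algebraMap L M ε ≠ 0 := (_root_.map_ne_zero _).2 hD.ne
    have hβM : evZ (algebraMap L M (β : L)) (mkP (monA a)) = 0 := by
      have h6 := hom_evZ ((algebraMap L M).comp (algebraMap (𝓞 L) L)) (mkP (monA a)) β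
      rw [hD.root, map_zero] at h6
      exact h6.symm
    have h6 := unit_diff_sep hm P (p_mem_above hw P) hs hβM h5 (by
      intro h6
      rw [add_eq_left] at h6
      exact (div_ne_zero hδM h4) h6)
    rw [add_sub_cancel_left, map_div₀, h1, one_div, inv_eq_one] at h6
    exact h6
  refine ⟨fun M _ _ P _ u hu => ((hval M P).2 u hu).le, fun M _ _ P _ u u' hu hu' huu => ?_⟩
  obtain ⟨h1, h2⟩ := hval M P
  obtain ⟨h4, h5⟩ := (hD.hg M u).1 hu
  obtain ⟨h4', h5'⟩ := (hD.hg M u').1 hu'
  have hδM : algebraMap L M ε ≠ 0 := (_root_.map_ne_zero _).2 hD.ne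
  have h6 : (algebraMap L M (β : L) + algebraMap L M ε / u) -
      (algebraMap L M (β : L) + algebraMap L M ε / u') =
      algebraMap L M ε * (u' - u) / (u * u') := by
    field_simp
    ring
  have h7 := unit_diff_sep hm P (p_mem_above hw P) hs h5' h5 (fun h => huu (by
    rw [add_right_inj, div_eq_div_iff h4 h4'] at h
    exact (mul_left_cancel₀ hδM h).symm))
  rw [h6, map_div₀, map_mul, map_mul, h1, h2 u hu, h2 u' hu', one_mul, mul_one,
      div_one, Valuation.map_sub_swap] at h7
  exact h7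

/-- even degree, node -/
theorem node_even (hD : ModelData a α β ε) (hsep : (mapQ L (mkP (monA a))).Separable)
    (hp2 : p ≠ 2) (hc : ¬ (p : ℤ) ∣ a (Fin.last n)) {γ : ℤ} (hl : LocN p (mkP (monA a)) γ)
    {w : HeightOneSpectrum (𝓞 L)} (hw : PlaceP p w) (hne : β - (γ : 𝓞 L) ∉ w.asIdeal) :
    NodeAt (oddM (mapQ L (polyA a)) α) w (fun _ _ => True) := by
  obtain ⟨π, hπ⟩ := exists_red_p hw.p_mem
  exact node_model (mkP_monic _) hsep hp2 hl hw hD.root hne hD.ne
    (hD.val p w hw hc (deriv_notMem hl hπ hD.root hne)) hD.hg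

end places

end

end Pool.Agent.H852.J
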