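import Mathlib
import Pool.Agent.H852.J.Q3

/-!
# The graphs of the models, several curves
-/

set_option linter.unusedSectionVars false
set_option autoImplicit false

open Polynomial Module NumberField IsDedekindDomain
open HeightOneSpectrum WithZero
open Pool.Agent.Results.MP_640417_ag.HyperellipticEveryPrime
open Pool.Agent.N171 Pool.Agent.N171.Al Pool.Agent.N171.Pm Pool.Agent.N171.Bg Pool.Agent.N171.TG

namespace Pool.Agent.H852.J

noncomputable section

variable {K L : Type} [Field K] [NumberField K] [Field L] [NumberField L] [Algebra K L]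

/-- automorphisms over `K` which fix generators -/
theorem exists_over_set {S : Set L} (htop : IntermediateField.adjoin K S = ⊤)
    (t : AlgebraicClosure L ≃ₐ[K] AlgebraicClosure L)
    (ht : ∀ α ∈ S, t (algebraMap L (AlgebraicClosure L) α) =
      algebraMap L (AlgebraicClosure L) α) :
    ∃ g : AlgebraicClosure L ≃ₐ[L] AlgebraicClosure L, ∀ x, g x = t x := by
  have h1 : ∀ x : L, t (algebraMap L (AlgebraicClosure L) x) =
      algebraMap L (AlgebraicClosure L) x := by
    intro x
    have h2 : x ∈ IntermediateField.adjoin K S := by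
      rw [htop]
      trivial
    induction h2 using IntermediateField.adjoin_induction with
    | mem x hx => exact ht x hx
    | algebraMap x =>
      rw [← IsScalarTower.algebraMap_apply]
      exact t.commutes x
    | add x y _ _ hx hy => rw [map_add, map_add, hx, hy]
    | inv x _ hx => rw [map_inv₀, map_inv₀, hx]
    | mul x y _ _ hx hy => rw [map_mul, map_mul, hx, hy]
  exact ⟨AlgEquiv.ofRingEquiv (f := t.toRingEquiv) h1, fun x => rfl⟩

variable {ι : Type} [Fintype ι] [DecidableEq ι] {f : ι → ℤ[X]}

/-- the numbers of points -/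
def kap (S : ι → Prop) [DecidablePred S] (i : ι) (j : ι) : ℕ :=
  (if S j then 1 else 0) + (if j = i then 2 else 0)

/-- the group fixing the given roots acts doubly transitively on the other roots of `f i` -/
theorem two_trans_J (S : ι → Prop) [DecidablePred S] (i : ι) (hJ : JT K f (kap S i))
    {β : ι → L} (hβ : ∀ j, S j → evZ (β j) (f j) = 0)
    (htop : IntermediateField.adjoin K {x | ∃ j, S j ∧ β j = x} = ⊤)
    {x y x' y' : AlgebraicClosure L}
    (hx : evZ x (f i) = 0) (hy : evZ y (f i) = 0) (hx' : evZ x' (f i) = 0) (hy' : evZ y' (f i) = 0)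
    (hxy : x ≠ y) (hxy' : x' ≠ y')
    (hxα : S i → x ≠ algebraMap L (AlgebraicClosure L) (β i))
    (hyα : S i → y ≠ algebraMap L (AlgebraicClosure L) (β i))
    (hxα' : S i → x' ≠ algebraMap L (AlgebraicClosure L) (β i))
    (hyα' : S i → y' ≠ algebraMap L (AlgebraicClosure L) (β i)) :
    ∃ g : AlgebraicClosure L ≃ₐ[L] AlgebraicClosure L, g x = x' ∧ g y = y' := by
  classical
  have hfin : FiniteDimensional K L := Module.Finite.of_restrictScalars_finite ℚ K L
  have halg : Algebra.IsAlgebraic K L := inferInstance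
  have hclos : IsAlgClosure K (AlgebraicClosure L) := IsAlgClosure.ofAlgebraic K L _
  let e : AlgebraicClosure L ≃ₐ[K] AlgebraicClosure K := IsAlgClosure.equiv K _ _
  have he : ∀ j, ∀ z : AlgebraicClosure L, evZ z (f j) = 0 → evZ (e z) (f j) = 0 := by
    intro j z hz
    have h1 := hom_evZ (e : AlgebraicClosure L →+* AlgebraicClosure K) (f j) z
    rw [hz, map_zero] at h1
    exact h1.symm
  have hβ0 : ∀ j, S j → evZ (e (algebraMap L (AlgebraicClosure L) (β j))) (f j) = 0 := by
    intro j hj
    apply he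
    rw [← hom_evZ, hβ j hj, map_zero]
  -- the systems
  set s : ℕ := if S i then 1 else 0 with hs
  let U : AlgebraicClosure L → AlgebraicClosure L → ι → ℕ → AlgebraicClosure K := fun x y j l =>
    if j = i ∧ l = s then e x else if j = i ∧ l = s + 1 then e y else
      e (algebraMap L (AlgebraicClosure L) (β j))
  have hUs : ∀ x y, U x y i s = e x := fun x y => if_pos ⟨rfl, rfl⟩
  have hUs1 : ∀ x y, U x y i (s + 1) = e y := by
    intro x y
    change (if i = i ∧ s + 1 = s then e x else if i = i ∧ s + 1 = s + 1 then e y else _) = _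
    rw [if_neg (by omega), if_pos ⟨rfl, rfl⟩]
  have hUo : ∀ x y j l, ¬ (j = i ∧ l = s) → ¬ (j = i ∧ l = s + 1) →
      U x y j l = e (algebraMap L (AlgebraicClosure L) (β j)) := by
    intro x y j l h1 h2
    change (if j = i ∧ l = s then e x else if j = i ∧ l = s + 1 then e y else _) = _
    rw [if_neg h1, if_neg h2]
  have hkS : ∀ j l, l < kap S i j → ¬ (j = i ∧ l = s) → ¬ (j = i ∧ l = s + 1) →
      S j ∧ l = 0 := by
    intro j l hl h1 h2
    rw [kap] at hl
    by_cases hj : j = i
    · subst hj
      rw [if_pos rfl, ← hs] at hl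
      have h3 : l ≠ s := fun h => h1 ⟨rfl, h⟩
      have h4 : l ≠ s + 1 := fun h => h2 ⟨rfl, h⟩
      have h5 : l < s := by omega
      by_cases hS : S j
      · rw [if_pos hS] at hs
        exact ⟨hS, by omega⟩
      · rw [if_neg hS] at hs
        omega
    · rw [if_neg hj, add_zero] at hl
      by_cases hS : S j
      · rw [if_pos hS] at hl
        exact ⟨hS, by omega⟩
      · rw [if_neg hS] at hl
        omega
  have hroot : ∀ x y, evZ x (f i) = 0 → evZ y (f i) = 0 → ∀ j, ∀ l < kap S i j,
      evZ (U x y j l) (f j) = 0 := by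
    intro x y hx hy j l hl
    by_cases h1 : j = i ∧ l = s
    · obtain ⟨rfl, rfl⟩ := h1
      rw [hUs]
      exact he _ _ hx
    · by_cases h2 : j = i ∧ l = s + 1
      · obtain ⟨rfl, rfl⟩ := h2
        rw [hUs1]
        exact he _ _ hy
      · rw [hUo x y j l h1 h2]
        exact hβ0 j (hkS j l hl h1 h2).1
  have hinj : ∀ x y, x ≠ y → (S i → x ≠ algebraMap L (AlgebraicClosure L) (β i)) →
      (S i → y ≠ algebraMap L (AlgebraicClosure L) (β i)) →
      ∀ j, ∀ l < kap S i j, ∀ m < kap S i j, U x y j l = U x y j m → l = m := by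
    intro x y hxy h1 h2 j
    have key : ∀ l < kap S i j, ∀ m < kap S i j, l < m → U x y j l ≠ U x y j m := by
      intro l hl m hm hlm heq
      by_cases hj : j = i
      · subst hj
        have hm2 : m < s + 2 := by
          rw [kap, if_pos rfl, ← hs] at hm
          exact hm
        by_cases hls : l = s
        · have hms : m = s + 1 := by omega
          rw [hls, hms, hUs, hUs1] at heq
          exact hxy (e.injective heq)
        · have hl2 : l ≠ s + 1 := by omega
          obtain ⟨hS, hl0⟩ := hkS j l hl (fun h => hls h.2) (fun h => hl2 h.2)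
          rw [hUo x y j l (fun h => hls h.2) (fun h => hl2 h.2)] at heq
          have hs1 : s = 1 := by rw [hs, if_pos hS]
          rcases (show m = s ∨ m = s + 1 by omega) with h | h
          · rw [h, hUs] at heq
            exact h1 hS (e.injective heq).symm
          · rw [h, hUs1] at heq
            exact h2 hS (e.injective heq).symm
      · obtain ⟨-, h3⟩ := hkS j m hm (fun h => hj h.1) (fun h => hj h.1)
        omega
    intro l hl m hm heq
    rcases lt_trichotomy l m with h | h | h
    · exact absurd heq (key l hl m hm h)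
    · exact h
    · exact absurd heq.symm (key m hm l hl h)
  obtain ⟨t, ht⟩ := hJ (U x y) (U x' y') (hroot x y hx hy) (hroot x' y' hx' hy')
    (hinj x y hxy hxα hyα) (hinj x' y' hxy' hxα' hyα')
  have hki : kap S i i = s + 2 := by rw [kap, if_pos rfl, ← hs]
  have ht1 : t (e x) = e x' := by
    have h1 := ht i s (by omega)
    rwa [hUs, hUs] at h1
  have ht2 : t (e y) = e y' := by
    have h1 := ht i (s + 1) (by omega)
    rwa [hUs1, hUs1] at h1
  have ht3 : ∀ j, S j → t (e (algebraMap L (AlgebraicClosure L) (β j))) =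
      e (algebraMap L (AlgebraicClosure L) (β j)) := by
    intro j hj
    have hk0 : 0 < kap S i j := by
      rw [kap, if_pos hj]
      omega
    have hn1 : ¬ (j = i ∧ 0 = s) := by
      rintro ⟨rfl, h⟩
      rw [if_pos hj] at hs
      omega
    have hn2 : ¬ (j = i ∧ 0 = s + 1) := by
      rintro ⟨-, h⟩
      omega
    have h1 := ht j 0 hk0
    rwa [hUo _ _ _ _ hn1 hn2, hUo _ _ _ _ hn1 hn2] at h1
  obtain ⟨g, hg⟩ := exists_over_set htop ((e.trans t).trans e.symm) (by
    rintro _ ⟨j, hj, rfl⟩
    change e.symm (t (e _)) = _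
    rw [ht3 j hj, AlgEquiv.symm_apply_apply])
  refine ⟨g, ?_, ?_⟩
  · rw [hg]
    change e.symm (t (e x)) = x'
    rw [ht1, AlgEquiv.symm_apply_apply]
  · rw [hg]
    change e.symm (t (e y)) = y'
    rw [ht2, AlgEquiv.symm_apply_apply]

/-- **The graph of a model of even degree is connected.** -/
theorem connects_even (S : ι → Prop) [DecidablePred S] (i : ι) (hJ : JT K f (kap S i))
    {β : ι → L} (hβ : ∀ j, S j → evZ (β j) (f j) = 0)
    (htop : IntermediateField.adjoin K {x | ∃ j, S j ∧ β j = x} = ⊤) {g : L[X]} {ε : L}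
    (hε : ε ≠ 0)
    (hg : ∀ u : AlgebraicClosure L, aeval u g = 0 → u ≠ 0 ∧
      evZ (algebraMap L (AlgebraicClosure L) (β i) +
        algebraMap L (AlgebraicClosure L) ε / u) (f i) = 0)
    {κ : Type} [Nonempty κ]
    (Q : κ → AlgebraicClosure L → AlgebraicClosure L → Prop) :
    Connects g Q := by
  intro a b hab _ x y
  obtain ⟨k⟩ := ‹Nonempty κ›
  set F := AlgebraicClosure L with hF
  have hδ' : algebraMap L F ε ≠ 0 := (_root_.map_ne_zero _).2 hε
  by_cases hxy : x = y
  · rw [hxy]
  refine Relation.ReflTransGen.single ⟨k, ?_⟩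
  have hr : ∀ u : g.rootSet F, (u : F) ≠ 0 ∧
      evZ (algebraMap L F (β i) + algebraMap L F ε / u) (f i) = 0 := fun u =>
    hg u (mem_rootSet.1 u.2).2
  have hrα : ∀ u : g.rootSet F, S i →
      algebraMap L F (β i) + algebraMap L F ε / u ≠ algebraMap L F (β i) := by
    intro u _ h
    rw [add_eq_left] at h
    exact (div_ne_zero hδ' (hr u).1) h
  have hinj : ∀ u u' : g.rootSet F, u ≠ u' →
      algebraMap L F (β i) + algebraMap L F ε / u ≠
        algebraMap L F (β i) + algebraMap L F ε / u' := by
    intro u u' hne h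
    rw [add_right_inj, div_eq_div_iff (hr u).1 (hr u').1] at h
    exact hne (Subtype.ext (mul_left_cancel₀ hδ' h).symm)
  obtain ⟨s, hg1, hg2⟩ := two_trans_J S i hJ hβ htop (hr (a k)).2 (hr (b k)).2 (hr x).2 (hr y).2
    (hinj _ _ (hab k)) (hinj _ _ hxy) (hrα _) (hrα _) (hrα _) (hrα _)
  have hback : ∀ u u' : g.rootSet F,
      s (algebraMap L F (β i) + algebraMap L F ε / u) =
        algebraMap L F (β i) + algebraMap L F ε / u' →
      s (u : F) = u' := by
    intro u u' h
    rw [map_add, map_div₀, AlgEquiv.commutes, AlgEquiv.commutes, add_right_inj] at h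
    have h1 : s (u : F) ≠ 0 := (_root_.map_ne_zero _).2 (hr u).1
    rw [div_eq_div_iff h1 (hr u').1] at h
    exact (mul_left_cancel₀ hδ' h).symm
  exact ⟨s, Or.inl ⟨hback _ _ hg1, hback _ _ hg2⟩⟩

/-- **The graph of a model of odd degree is connected.** -/
theorem connects_odd (S : ι → Prop) [DecidablePred S] (i : ι) (hi : ¬ S i)
    (hJ : JT K f (kap S i)) {β : ι → L} (hβ : ∀ j, S j → evZ (β j) (f j) = 0)
    (htop : IntermediateField.adjoin K {x | ∃ j, S j ∧ β j = x} = ⊤)
    {κ : Type} [Nonempty κ]
    (Q : κ → AlgebraicClosure L → AlgebraicClosure L → Prop) :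
    Connects (mapQ L (f i)) Q := by
  intro a b hab _ x y
  obtain ⟨k⟩ := ‹Nonempty κ›
  by_cases hxy : x = y
  · rw [hxy]
  refine Relation.ReflTransGen.single ⟨k, ?_⟩
  have hr : ∀ u : (mapQ L (f i)).rootSet (AlgebraicClosure L),
      evZ (u : AlgebraicClosure L) (f i) = 0 := by
    intro u
    have h1 := (mem_rootSet.1 u.2).2
    rwa [aeval_map_evZ] at h1
  obtain ⟨s, hg1, hg2⟩ := two_trans_J S i hJ hβ htop (hr (a k)) (hr (b k)) (hr x) (hr y)
    (fun h => hab k (Subtype.ext h)) (fun h => hxy (Subtype.ext h)) (fun h => absurd h hi)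
    (fun h => absurd h hi) (fun h => absurd h hi) (fun h => absurd h hi)
  exact ⟨s, Or.inl ⟨hg1, hg2⟩⟩

end

end Pool.Agent.H852.J
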