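import Mathlib
import Pool.Agent.H852.J.Q4

/-!
# Counts for tuples of polynomials
-/

set_option linter.unusedSectionVars false
set_option autoImplicit false

open Polynomial Finset NumberField

namespace Pool.Agent.H852.J

noncomputable section

section prod

theorem nat_card_filter {V : Type} [Fintype V] (P : V → Prop) [DecidablePred P] :
    (univ.filter P).card = Nat.card {x // P x} := by
  rw [Nat.card_eq_fintype_card, Fintype.card_subtype]

/-- products of events -/
theorem prod_card {ι : Type} [Fintype ι] {A : ι → Type} [∀ i, Fintype (A i)]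
    {R : Type} [Fintype R] (E : ∀ i, (A i → R) → Prop) (c : ι → ℕ)
    (h : ∀ i, Fintype.card R ^ Fintype.card (A i) ≤ c i * Nat.card {u // E i u}) :
    Fintype.card R ^ Fintype.card (Σ i, A i) ≤ (∏ i, c i) *
      Nat.card {y : (Σ i, A i) → R // ∀ i, E i fun k => y ⟨i, k⟩} := by
  have h1 : Nat.card {y : (Σ i, A i) → R // ∀ i, E i fun k => y ⟨i, k⟩} =
      ∏ i, Nat.card {u // E i u} := by
    rw [← Nat.card_pi]
    refine Nat.card_congr ⟨fun y i => ⟨fun k => y.1 ⟨i, k⟩, y.2 i⟩,
      fun u => ⟨fun k => (u k.1).1 k.2, fun i => (u i).2⟩, fun y => ?_, fun u => ?_⟩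
    · rfl
    · rfl
  rw [h1, Fintype.card_sigma, ← prod_pow_eq_pow_sum, ← prod_mul_distrib]
  exact prod_le_prod' fun i _ => h i

open Classical in
/-- events modulo `p` as events modulo `p ^ 2` -/
theorem lift_count {p : ℕ} [Fact p.Prime] [NeZero (p ^ 2)] {n : ℕ} (E : (Fin n → ZMod p) → Prop)
    {c : ℕ} (h : p ^ n ≤ c * (univ.filter E).card) :
    (p ^ 2) ^ n ≤ c *
      (univ.filter fun y : Fin n → ZMod (p ^ 2) => E fun k => rdH p (y k)).card := by
  let f : (Fin n → ZMod (p ^ 2)) →+ (Fin n → ZMod p) :=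
    { toFun := fun y k => rdH p (y k)
      map_zero' := by
        funext k
        exact map_zero (rdH p)
      map_add' := fun y z => by
        funext k
        exact map_add (rdH p) _ _ }
  have hf : Function.Surjective f := by
    intro z
    have h1 : ∀ k, ∃ u : ZMod (p ^ 2), rdH p u = z k :=
      fun k => ZMod.ringHom_surjective (rdH p) (z k)
    choose g hg using h1
    exact ⟨g, funext hg⟩
  obtain ⟨e, he1, he2⟩ := fibre_card f hf
  have h1 := he2 E
  rw [Fintype.card_fun, Fintype.card_fun, ZMod.card, ZMod.card, Fintype.card_fin] at he1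
  have h2 : (univ.filter fun y : Fin n → ZMod (p ^ 2) => E fun k => rdH p (y k)).card =
      (univ.filter E).card * e := h1
  rw [h2, he1]
  calc p ^ n * e ≤ (c * (univ.filter E).card) * e := Nat.mul_le_mul_right _ h
    _ = _ := by ring

end prod

section density

variable {ι : Type} [Fintype ι] [DecidableEq ι] {n : ι → ℕ}

/-- the polynomial number `i` of the tuple -/
abbrev cmpA (a : (Σ i, Fin (n i + 1)) → ℤ) (i : ι) : Fin (n i + 1) → ℤ := fun k => a ⟨i, k⟩

/-- almost all tuples have certificates for joint transitivity -/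
theorem almost_CJ (K : Type) [Field K] [NumberField K] {κ : ι → ℕ} (hκ : ∀ i, κ i + 2 ≤ n i) :
    AlmostNone fun a : (Σ i, Fin (n i + 1)) → ℤ =>
      ¬ ∃ (p : ℕ) (_ : Fact p.Prime) (_ : 𝓞 K →+* ZMod p),
        CertJ p (fun i => mkP (monA (cmpA a i))) κ := by
  classical
  set b : ℕ := ∑ i, 2 * n i ^ 2 with hb
  set c : ℕ := ∏ i, 2 * (2 ^ κ i * (2 * n i * n i ^ κ i)) with hc
  have hn0 : ∀ i, 0 < n i := fun i => by have := hκ i; omega
  have hc0 : 0 < c := by
    rw [hc]
    refine prod_pos fun i _ => ?_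
    have := hn0 i
    positivity
  have hinf : {p : ℕ | p.Prime ∧ b < p ∧ Nonempty (𝓞 K →+* ZMod p)}.Infinite := by
    rw [Set.infinite_iff_exists_gt]
    intro a
    obtain ⟨p, hp, hlt, φ, -⟩ := exists_hom K 1 one_ne_zero (a + b)
    exact ⟨p, ⟨hp.out, by omega, ⟨φ⟩⟩, by omega⟩
  have hc1 : (1 : ℝ) ≤ c := by exact_mod_cast hc0
  refine almostNone_of_bad {p : ℕ | p.Prime ∧ b < p ∧ Nonempty (𝓞 K →+* ZMod p)} (fun p => p)
    (fun p hp => hp.1.pos)
    (fun p hp q hq hpq => coprime_primes' hp.1 hq.1 hpq) (fun _ => 1 - 1 / (c : ℝ))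
    (prod_small_const hinf (by
      rw [sub_nonneg, div_le_one (by positivity)]
      exact hc1) (by
      rw [sub_lt_self_iff]
      positivity)) _ ?_
  rintro p ⟨hp, hpb, ⟨φ⟩⟩
  have hfact : Fact p.Prime := ⟨hp⟩
  refine ⟨univ.filter fun a => ¬ ∀ i, (IsUnit (a ⟨i, Fin.last (n i)⟩) ∧
    EvT (κ i) (mkP (monA fun k => a ⟨i, k⟩))), ?_, fun x hx => ?_⟩
  · have h1 := prod_card (R := ZMod p) (A := fun i => Fin (n i + 1))
      (fun i (u : Fin (n i + 1) → ZMod p) => IsUnit (u (Fin.last (n i))) ∧
        EvT (κ i) (mkP (monA u))) (fun i => 2 * (2 ^ κ i * (2 * n i * n i ^ κ i))) fun i => by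
        have h3 := lead_count (m := p) (n := n i) (by
          rw [ZMod.card_units p]
          have := hp.two_le
          omega) (fun u => EvT (κ i) (mkP u)) (evT_count (hκ i) (by
          refine le_trans ?_ hpb.le
          exact single_le_sum (f := fun i => 2 * n i ^ 2) (fun _ _ => Nat.zero_le _)
            (mem_univ i)))
        rw [nat_card_filter] at h3
        rw [ZMod.card, Fintype.card_fin]
        exact h3
    have h2 := compl_bound (V := (Σ i, Fin (n i + 1)) → ZMod p)
      (fun a => ∀ i, (IsUnit (a ⟨i, Fin.last (n i)⟩) ∧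
        EvT (κ i) (mkP (monA fun k => a ⟨i, k⟩)))) (c := c) hc0 (by
        rw [Fintype.card_fun, nat_card_filter]
        exact h1)
    rw [Fintype.card_fun, ZMod.card] at h2
    refine h2.trans (le_of_eq ?_)
    push_cast
    rfl
  · rw [mem_filter]
    refine ⟨mem_univ _, fun h => hx ?_⟩
    refine ⟨p, hfact, φ, fun i => ?_⟩
    obtain ⟨-, r, Q, h1, h2, h3, h4⟩ := h i
    exact ⟨r, Q, h1, by rw [monA_cast]; exact h2, h3, h4⟩

/-- the condition of a node of the curve `i`, where the other curves have good reduction -/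
def NodeJ (i : ι) (n₀ : ℕ) (a : (Σ i, Fin (n i + 1)) → ℤ) : Prop :=
  ∃ (p : ℕ) (_ : Fact p.Prime) (γ : ℤ), ¬ p ∣ n₀ ∧ (∀ j, ¬ (p : ℤ) ∣ cmpA a j (Fin.last (n j))) ∧
    LocN p (mkP (monA (cmpA a i))) γ ∧
    ∀ j, j ≠ i → ((mkP (monA (cmpA a j))).map (Int.castRingHom (ZMod p))).Separable

/-- almost all tuples have such a node outside of a given set of prime numbers -/
theorem almost_NJ (hn : ∀ i, 3 ≤ n i) (i₀ : ι) (n₀ : ℕ) (hn₀ : 0 < n₀) :
    AlmostNone fun a : (Σ i, Fin (n i + 1)) → ℤ => ¬ NodeJ i₀ n₀ a := by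
  classical
  set b : ℕ := n₀ + ∑ i, (n i + 2 * (n i * n i * n i) + 2 * (1 + n i ^ 2)) with hb
  set C : ℕ := ∏ i, 32 * n i with hC
  have hn0 : ∀ i, 0 < n i := fun i => by have := hn i; omega
  have hC0 : 0 < C := by
    rw [hC]
    refine prod_pos fun i _ => ?_
    have := hn0 i
    positivity
  have hC1 : (1 : ℝ) ≤ C := by exact_mod_cast hC0
  refine almostNone_of_bad {p : ℕ | p.Prime ∧ b < p} (fun p => p ^ 2)
    (fun p hp => pow_pos hp.1.pos 2)
    (fun p hp q hq hpq => Nat.Coprime.pow 2 2 (coprime_primes' hp.1 hq.1 hpq))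
    (fun p => 1 - (1 / (C : ℝ)) / p)
    (prod_small_prime b (by positivity) ?_) _ ?_
  · have h1 : (1 : ℝ) ≤ (b : ℝ) := by
      have h2 : 1 ≤ b := by omega
      exact_mod_cast h2
    refine le_trans ?_ h1
    rw [div_le_one (by positivity)]
    exact hC1
  · rintro p ⟨hp, hpb⟩
    have hfact : Fact p.Prime := ⟨hp⟩
    have hne : NeZero (p ^ 2) := ⟨pow_ne_zero 2 hp.ne_zero⟩
    have hne' : NeZero (p ^ (1 + 1)) := ⟨pow_ne_zero 2 hp.ne_zero⟩
    have hbi : ∀ i, n i + 2 * (n i * n i * n i) + 2 * (1 + n i ^ 2) < p := by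
      intro i
      have h1 := single_le_sum (f := fun i => n i + 2 * (n i * n i * n i) + 2 * (1 + n i ^ 2))
        (fun _ _ => Nat.zero_le _) (mem_univ i)
      omega
    let E : ∀ i, (Fin (n i + 1) → ZMod (p ^ 2)) → Prop := fun i u =>
      IsUnit (u (Fin.last (n i))) ∧ if i = i₀ then EvN (n i) (monA u) else
        EvT 0 (mkP fun k => rdH p (monA u k))
    have hEp : ∀ i, i = i₀ → E i = fun u => IsUnit (u (Fin.last (n i))) ∧ EvN (n i) (monA u) := by
      intro i hi
      funext u
      simp only [E, if_pos hi]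
    have hEn : ∀ i, i ≠ i₀ → E i = fun u => IsUnit (u (Fin.last (n i))) ∧
        EvT 0 (mkP fun k => rdH p (monA u k)) := by
      intro i hi
      funext u
      simp only [E, if_neg hi]
    refine ⟨univ.filter fun a => ¬ ∀ i, E i fun k => a ⟨i, k⟩, ?_, fun x hx => ?_⟩
    · have h0 : p ^ 2 ≤ 2 * Fintype.card (ZMod (p ^ 2))ˣ := by
        have h3 := units_p p 1
        convert h3 using 2
      have h1 := prod_card (R := ZMod (p ^ 2)) (A := fun i => Fin (n i + 1)) E
        (fun i => 32 * n i * if i = i₀ then p else 1) fun i => by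
          rw [ZMod.card, Fintype.card_fin]
          by_cases hi : i = i₀
          · have h2 := lead_count (m := p ^ 2) (n := n i) h0 (EvN (n i))
              (evN_count (hn i) (hbi i))
            rw [nat_card_filter] at h2
            refine h2.trans ?_
            rw [if_pos hi, hEp i hi]
            exact le_of_eq (by ring)
          · have h3 := lift_count (p := p) (n := n i) (fun u => EvT 0 (mkP u))
              (evT_count (k := 0) (by have := hn i; omega) (by have := hbi i; omega))
            have h2 := lead_count (m := p ^ 2) (n := n i) h0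
              (fun u => EvT 0 (mkP fun k => rdH p (u k))) h3
            rw [nat_card_filter] at h2
            refine h2.trans ?_
            rw [if_neg hi, hEn i hi]
            refine Nat.mul_le_mul_right _ ?_
            rw [pow_zero, pow_zero]
            omega
      have hprod : ∏ i, (32 * n i * if i = i₀ then p else 1) = C * p := by
        rw [prod_mul_distrib, prod_ite_eq' univ i₀ (fun _ => p), if_pos (mem_univ _)]
      rw [hprod] at h1
      have h2 := compl_bound (V := (Σ i, Fin (n i + 1)) → ZMod (p ^ 2))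
        (fun a => ∀ i, E i fun k => a ⟨i, k⟩) (c := C * p)
        (by have := hp.pos; positivity) (by
          rw [Fintype.card_fun, nat_card_filter]
          exact h1)
      rw [Fintype.card_fun, ZMod.card] at h2
      refine h2.trans (le_of_eq ?_)
      push_cast
      congr 2
      rw [div_div]
    · rw [mem_filter]
      refine ⟨mem_univ _, fun h => hx ?_⟩
      have hlead : ∀ j, ¬ (p : ℤ) ∣ cmpA x j (Fin.last (n j)) := by
        intro j h4
        obtain ⟨q, hq⟩ := h4
        have h1 : IsUnit (((x ⟨j, Fin.last (n j)⟩ : ℤ)) : ZMod (p ^ 2)) := (h j).1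
        rw [cmpA] at hq
        rw [hq, Int.cast_mul, Int.cast_natCast] at h1
        have h5 : IsUnit ((p : ℕ) : ZMod (p ^ 2)) := isUnit_of_mul_isUnit_left h1
        rw [ZMod.isUnit_iff_coprime, Nat.coprime_pow_right_iff two_pos, Nat.coprime_self] at h5
        exact hp.one_lt.ne' h5
      have h2 := (h i₀).2
      rw [if_pos rfl] at h2
      have h3 : (monA fun k => ((x ⟨i₀, k⟩ : ℤ) : ZMod (p ^ 2))) =
          fun i => ((monA (cmpA x i₀) i : ℤ) : ZMod (p ^ 2)) := by
        funext i
        exact (monA_map (Int.castRingHom (ZMod (p ^ 2))) (cmpA x i₀) i).symm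
      rw [h3] at h2
      obtain ⟨γ, hγ⟩ := locN_of (monA (cmpA x i₀)) h2
      refine ⟨p, hfact, γ, fun h4 => ?_, hlead, hγ, fun j hj => ?_⟩
      · have := Nat.le_of_dvd hn₀ h4
        omega
      · have h4 := (h j).2
        rw [if_neg hj] at h4
        have h5 : (fun k => rdH p (monA (fun k => ((x ⟨j, k⟩ : ℤ) : ZMod (p ^ 2))) k)) =
            monA fun k => ((x ⟨j, k⟩ : ℤ) : ZMod p) := by
          funext k
          rw [monA_map]
          congr 1
          funext k
          exact map_intCast (rdH p) _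
        rw [h5] at h4
        obtain ⟨r, Q, h6, h7, h8, h9⟩ := h4
        have h10 : CertT p (mkP (monA (cmpA x j))) 0 r Q :=
          ⟨h6, by rw [monA_cast]; exact h7, h8, h9⟩
        exact h10.sep

end density

end

end Pool.Agent.H852.J
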