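import Mathlib
import Pool.Agent.H852.J.Q5

/-!
# Tuples of hyperelliptic curves
-/

set_option linter.unusedSectionVars false
set_option autoImplicit false

open Polynomial Module NumberField IsDedekindDomain
open HeightOneSpectrum WithZero
open Pool.Agent.Results.MP_640417_ag.HyperellipticEveryPrime
open Pool.Agent.N171 Pool.Agent.N171.Al Pool.Agent.N171.Pm Pool.Agent.N171.Bg Pool.Agent.N171.TG

namespace Pool.Agent.H852.J

noncomputable section

variable {ι : Type} [Fintype ι] [DecidableEq ι] {n : ι → ℕ}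

/-- joint transitivity on the systems of points of the models -/
theorem jt_kap {K : Type} [Field K] [NumberField K] {f : ι → ℤ[X]} (hm : ∀ i, (f i).Monic)
    (hn : ∀ i, 3 ≤ n i)
    (hc : ∀ κ : ι → ℕ, (∀ i, κ i + 2 ≤ n i) → ∃ (p : ℕ) (_ : Fact p.Prime) (_ : 𝓞 K →+* ZMod p),
      CertJ p f κ) (i : ι) : JT K f (kap (fun j => Even (n j)) i) := by
  classical
  let κ : ι → ℕ := fun j => (if Even (n j) then 1 else 0) + (if j = i then 1 else 0)
  have hκ : ∀ j, κ j + 2 ≤ n j := by
    intro j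
    have h3 := hn j
    simp only [κ]
    by_cases he : Even (n j)
    · have h4 : 4 ≤ n j := by
        obtain ⟨k, hk⟩ := he
        omega
      rw [if_pos he]
      split_ifs <;> omega
    · rw [if_neg he]
      split_ifs <;> omega
  have h1 := jt_all hm n hc (∑ j, κ j) κ hκ rfl
  obtain ⟨p, hp, φ, hcert⟩ := hc κ hκ
  have h2 := jt_step hm φ hcert h1 i
  have h3 : Function.update κ i (κ i + 1) = kap (fun j => Even (n j)) i := by
    funext j
    by_cases hj : j = i
    · subst hj
      have h5 : κ j = (if Even (n j) then 1 else 0) + 1 := by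
        change (if Even (n j) then 1 else 0) + (if j = j then 1 else 0) = _
        rw [if_pos rfl]
      rw [Function.update_self, kap, if_pos rfl, h5]
    · rw [Function.update_of_ne hj, kap]
      simp only [κ]
      rw [if_neg hj, if_neg hj]
  rwa [h3] at h2

theorem jt_single {K : Type} [Field K] [NumberField K] {f : ι → ℤ[X]} (hm : ∀ i, (f i).Monic)
    (hn : ∀ i, 3 ≤ n i)
    (hc : ∀ κ : ι → ℕ, (∀ i, κ i + 2 ≤ n i) → ∃ (p : ℕ) (_ : Fact p.Prime) (_ : 𝓞 K →+* ZMod p),
      CertJ p f κ) (i : ι) : KT K (f i) 1 := by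
  classical
  refine kt_of_jt (jt_all hm n hc 1 (Pi.single i 1) (fun j => ?_) ?_)
  · have h3 := hn j
    by_cases hj : j = i
    · subst hj
      rw [Pi.single_eq_same]
      omega
    · rw [Pi.single_eq_of_ne hj]
      omega
  · rw [Finset.sum_pi_single']
    simp

/-- **Tuples of hyperelliptic curves with the local conditions.** -/
theorem tuple_main [Nonempty ι] (r : ι → ℕ) (hr : Function.Injective r)
    {K : Type} [Field K] [NumberField K] (hn : ∀ i, 3 ≤ n i)
    (a : (Σ i, Fin (n i + 1)) → ℤ) {n₁ : ℕ}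
    (hc : ∀ κ : ι → ℕ, (∀ i, κ i + 2 ≤ n i) → ∃ (p : ℕ) (_ : Fact p.Prime) (_ : 𝓞 K →+* ZMod p),
      CertJ p (fun i => mkP (monA (cmpA a i))) κ)
    (hN : ∀ i, NodeJ i (2 * (NumberField.discr K).natAbs * n₁) a)
    {L : Type} [Field L] [NumberField L] [Algebra K L] (α : ι → L)
    (hα : ∀ i, Even (n i) → evZ (α i) (polyA (cmpA a i)) = 0)
    (htop : IntermediateField.adjoin K {x | ∃ i, Even (n i) ∧ α i = x} = ⊤)
    {d : ℕ} (τ : AbsoluteGaloisGroup L →* Matrix (Fin d) (Fin d) ℚ_[2]) (hτ : IsLattice τ)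
    (hun : ∀ w : HeightOneSpectrum (𝓞 L), (n₁ : 𝓞 L) ∉ w.asIdeal → Unramified τ w) :
    EveryPrime (fun i => if Even (n i) then oddM (mapQ L (polyA (cmpA a i))) (α i)
      else mapQ L (mkP (monA (cmpA a i)))) τ := by
  classical
  set f : ι → ℤ[X] := fun i => mkP (monA (cmpA a i)) with hf
  have hm : ∀ i, (f i).Monic := fun i => mkP_monic _
  have hd : ∀ i, (f i).natDegree = n i := fun i => mkP_natDegree _
  have h4 : ∀ i, Even (n i) → 4 ≤ n i := by
    intro i he
    have := hn i
    obtain ⟨k, hk⟩ := he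
    omega
  have hsep : ∀ i, (mapQ K (f i)).Separable := by
    intro i
    obtain ⟨p, hp, φ, hcert⟩ := hc (fun _ => 0) (fun i => by have := hn i; omega)
    obtain ⟨r, Q, h⟩ := hcert i
    exact sep_of_cert (hm i) h
  have hsepL : ∀ i, (mapQ L (f i)).Separable := by
    intro i
    have h5 := (hsep i).map (f := algebraMap K L)
    rwa [mapQ, Polynomial.map_map, RingHom.ext_int ((algebraMap K L).comp (Int.castRingHom K))
      (Int.castRingHom L)] at h5
  have hc0 : ∀ i, cmpA a i (Fin.last (n i)) ≠ 0 := by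
    intro i h
    obtain ⟨p, hp, γ, -, h1, -⟩ := hN i
    exact h1 i (by rw [h]; exact dvd_zero _)
  have hD : ∀ i, ∃ (β : 𝓞 L) (ε : L), Even (n i) → ModelData (cmpA a i) (α i) β ε := by
    intro i
    by_cases he : Even (n i)
    · obtain ⟨β, ε, h⟩ := modelData (by have := hn i; omega) (cmpA a i) (hc0 i) (hsepL i) (hα i he)
      exact ⟨β, ε, fun _ => h⟩
    · exact ⟨0, 0, fun h => absurd h he⟩
  choose β ε hD using hD
  have hβ : ∀ i, Even (n i) → evZ (β i) (f i) = 0 := fun i he => (hD i he).root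
  have hβL : ∀ i, Even (n i) → evZ ((β i : 𝓞 L) : L) (f i) = 0 := by
    intro i he
    have h5 := hom_evZ (algebraMap (𝓞 L) L) (f i) (β i)
    rw [hβ i he, map_zero] at h5
    exact h5.symm
  have htop' : IntermediateField.adjoin K {x | ∃ i, Even (n i) ∧ ((β i : 𝓞 L) : L) = x} = ⊤ := by
    rw [eq_top_iff, ← htop, IntermediateField.adjoin_le_iff]
    rintro x ⟨i, he, rfl⟩
    have hcL : ((cmpA a i (Fin.last (n i)) : ℤ) : L) ≠ 0 := by exact_mod_cast hc0 i
    have h5 : α i = ((cmpA a i (Fin.last (n i)) : ℤ) : L)⁻¹ * ((β i : 𝓞 L) : L) := by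
      rw [(hD i he).coe, ← mul_assoc, inv_mul_cancel₀ hcL, one_mul]
    rw [SetLike.mem_coe, h5]
    refine mul_mem (inv_mem (intCast_mem _ _)) ?_
    exact IntermediateField.subset_adjoin K _ ⟨i, he, rfl⟩
  -- the places
  have hplace : ∀ i, ∃ (p : ℕ) (_ : Fact p.Prime) (γ : ℤ) (w : HeightOneSpectrum (𝓞 L)),
      PlaceP p w ∧ p ≠ 2 ∧ ¬ p ∣ n₁ ∧ (∀ j, ¬ (p : ℤ) ∣ cmpA a j (Fin.last (n j))) ∧
      LocN p (f i) γ ∧ (∀ j, j ≠ i → ((f j).map (Int.castRingHom (ZMod p))).Separable) ∧
      (Even (n i) → β i - (γ : 𝓞 L) ∉ w.asIdeal) := by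
    intro i
    obtain ⟨p, hp, γ, hpn, hpc, hl, hs⟩ := hN i
    have hp2 : p ≠ 2 := by
      rintro rfl
      exact hpn (Dvd.dvd.mul_right (dvd_mul_right _ _) _)
    obtain ⟨v, hv1, hv2, hv3⟩ := exists_unr_place K p hp.out (fun h => hpn
        (Dvd.dvd.mul_right (Dvd.dvd.mul_left (by
          have := Int.natAbs_dvd_natAbs.2 h
          simpa using this) _) _))
    have hv : PlaceP p v := ⟨hv1, hv2, hv3⟩
    have hpn₁ : ¬ p ∣ n₁ := fun h => hpn (Dvd.dvd.mul_left h _)
    let S : Finset (𝓞 L) := (Finset.univ.filter fun j => Even (n j) ∧ j ≠ i).image β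
    have hS : ∀ x ∈ S, ∃ f : ℤ[X], f.Monic ∧ evZ x f = 0 ∧
        (f.map (Int.castRingHom (ZMod p))).Separable := by
      intro x hx
      rw [Finset.mem_image] at hx
      obtain ⟨j, hj, rfl⟩ := hx
      rw [Finset.mem_filter] at hj
      exact ⟨f j, hm j, hβ j hj.2.1, hs j hj.2.2⟩
    by_cases he : Even (n i)
    · have ht : IntermediateField.adjoin K (insert ((β i : 𝓞 L) : L)
          ((fun β : 𝓞 L => (β : L)) '' S)) = ⊤ := by
        rw [eq_top_iff, ← htop']
        refine IntermediateField.adjoin.mono K _ _ ?_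
        rintro _ ⟨j, hj, rfl⟩
        by_cases hji : j = i
        · rw [hji]
          exact Set.mem_insert _ _
        · refine Set.mem_insert_of_mem _ ⟨β j, ?_, rfl⟩
          rw [Finset.mem_coe, Finset.mem_image]
          exact ⟨j, Finset.mem_filter.2 ⟨Finset.mem_univ _, hj, hji⟩, rfl⟩
      obtain ⟨w, hw, hne⟩ := exists_placeP_multi (hm i) (by rw [hd]; exact hn i) (hsep i) hp2 hl hv
        (jt_single hm hn hc i) (hβ i he) S hS ht
      exact ⟨p, hp, γ, w, hw, hp2, hpn₁, hpc, hl, hs, fun _ => hne⟩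
    · have ht : IntermediateField.adjoin K ((fun β : 𝓞 L => (β : L)) '' (S : Set (𝓞 L))) = ⊤ := by
        rw [eq_top_iff, ← htop']
        refine IntermediateField.adjoin.mono K _ _ ?_
        rintro _ ⟨j, hj, rfl⟩
        refine ⟨β j, ?_, rfl⟩
        rw [Finset.mem_coe, Finset.mem_image]
        refine ⟨j, Finset.mem_filter.2 ⟨Finset.mem_univ _, hj, ?_⟩, rfl⟩
        rintro rfl
        exact he hj
      obtain ⟨w, hw⟩ := exists_placeP_sep hv S hS ht
      exact ⟨p, hp, γ, w, hw, hp2, hpn₁, hpc, hl, hs, fun h => absurd h he⟩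
  choose p hp γ w hw hp2 hpn hpc hl hs hne using hplace
  -- the models
  set g : ι → L[X] := fun i => if Even (n i) then oddM (mapQ L (polyA (cmpA a i))) (α i)
      else mapQ L (f i) with hg
  have hge : ∀ i, Even (n i) → g i = oddM (mapQ L (polyA (cmpA a i))) (α i) := fun i he => if_pos he
  have hgo : ∀ i, ¬ Even (n i) → g i = mapQ L (f i) := fun i he => if_neg he
  have hgd : ∀ i, ¬ Even (n i) → (g i).natDegree = n i := fun i he => by
    rw [hgo i he]
    exact ((hm i).natDegree_map _).trans (hd i)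
  have hHyp : ∀ i, HypP (g i) := by
    intro i
    by_cases he : Even (n i)
    · refine ⟨?_, ?_, ?_, two_ne_zero⟩
      · rw [hge i he]
        exact (hD i he).monic
      · rw [hge i he]
        exact (hD i he).sep
      · rw [hge i he, (hD i he).deg]
        have := h4 i he
        obtain ⟨k, hk⟩ := he
        exact ⟨k - 1, by omega⟩
    · refine ⟨?_, ?_, ?_, two_ne_zero⟩
      · rw [hgo i he]
        exact (hm i).map _
      · rw [hgo i he]
        exact hsepL i
      · rw [hgd i he]
        exact Nat.not_even_iff_odd.1 he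
  have hconn : ∀ i, Connects (κ := ({w i} : Set (HeightOneSpectrum (𝓞 L)))) (g i)
      (fun _ _ _ => True) := by
    intro i
    have hJ := jt_kap hm hn hc i
    by_cases he : Even (n i)
    · rw [hge i he]
      exact connects_even (fun j => Even (n j)) i hJ (β := fun j => ((β j : 𝓞 L) : L)) hβL htop'
        (hD i he).ne (fun u hu => ((hD i he).hg _ u).1 hu) _
    · rw [hgo i he]
      exact connects_odd (fun j => Even (n j)) i he hJ (β := fun j => ((β j : 𝓞 L) : L)) hβL
        htop' _
  refine master2 g hHyp (fun i => ?_) r hr (fun i => {w i}) (fun _ _ _ _ => True)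
    (fun i u hu => ?_) (fun i u hu => ?_)
    (fun i j hij => ⟨{w i}, subset_rfl, fun u hu => ?_, hconn i⟩) τ hτ
    (fun i => ⟨{w i}, subset_rfl, fun u hu => ?_, hconn i⟩)
  · by_cases he : Even (n i)
    · rw [hge i he, (hD i he).deg]
      have := h4 i he
      omega
    · rw [hgd i he]
      have := hn i
      omega
  · rw [Set.mem_singleton_iff] at hu
    rw [hu]
    have h2p : ¬ (p i : ℤ) ∣ 2 := by
      intro h1
      have h3 : p i ∣ 2 := by exact_mod_cast h1
      exact hp2 i ((Nat.prime_dvd_prime_iff_eq (hp i).out Nat.prime_two).1 h3)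
    exact_mod_cast (hw i).mem 2 h2p
  · rw [Set.mem_singleton_iff] at hu
    rw [hu]
    have := hp i
    by_cases he : Even (n i)
    · rw [hge i he]
      exact node_even (hD i he) (hsepL i) (hp2 i) (hpc i i) (hl i) (hw i) (hne i he)
    · rw [hgo i he]
      exact node_odd (hm i) (hsepL i) (hp2 i) (hl i) (hw i)
  · rw [Set.mem_singleton_iff] at hu
    rw [hu]
    have := hp i
    have hji : j ≠ i := by
      rintro rfl
      exact lt_irrefl _ hij
    by_cases he : Even (n j)
    · rw [hge j he]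
      exact good_even (hD j he) (hs i j hji) (hpc i j) (hw i)
    · rw [hgo j he]
      exact good_odd (hm j) (hs i j hji) (hw i)
  · rw [Set.mem_singleton_iff] at hu
    rw [hu]
    have := hp i
    refine hun _ ?_
    have h5 := (hw i).mem n₁ (fun h => hpn i (by exact_mod_cast h))
    exact_mod_cast h5

end

end Pool.Agent.H852.J
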