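import Mathlib
import Pool.Agent.H852.J.Q6

/-!
# One exceptional set for tuples of hyperelliptic curves
-/

set_option linter.unusedSectionVars false
set_option autoImplicit false

open Polynomial Module NumberField IsDedekindDomain
open HeightOneSpectrum WithZero
open Pool.Agent.Results.MP_640417_ag.HyperellipticEveryPrime

namespace Pool.Agent.H852.J

noncomputable section

attribute [local instance] isAlgQ

variable {ι : Type} [Fintype ι] [DecidableEq ι] {n : ι → ℕ}

/-- the countably many conditions -/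
def CondJ (n : ι → ℕ) : (ℕ × ι) ⊕ (AlgebraicClosure ℚ × (ι → ℕ)) → ((Σ i, Fin (n i + 1)) → ℤ) → Prop
  | Sum.inl x => fun a => NodeJ x.2 (x.1 + 1) a
  | Sum.inr x => fun a => (∀ i, x.2 i + 2 ≤ n i) → ∃ (p : ℕ) (_ : Fact p.Prime)
      (_ : 𝓞 (KA x.1) →+* ZMod p), CertJ p (fun i => mkP (monA (cmpA a i))) x.2

theorem exists_E (hn : ∀ i, 3 ≤ n i) :
    ∃ E : Set ((Σ i, Fin (n i + 1)) → ℤ), AlmostNone (fun a => a ∈ E) ∧
      ∀ x, {a | a ∉ E ∧ ¬ CondJ n x a}.Finite := by
  classical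
  refine diag (CondJ n) fun x => ?_
  rcases x with x | x
  · exact almost_NJ hn x.2 (x.1 + 1) (Nat.succ_pos _)
  · by_cases hκ : ∀ i, x.2 i + 2 ≤ n i
    · exact (almost_CJ (KA x.1) hκ).mono fun a ha h => ha fun _ => h
    · exact AlmostNone.false.mono fun a ha => ha fun h => absurd h hκ

/-- **One exceptional set for all number fields.** -/
theorem tuples_all (hn : ∀ i, 3 ≤ n i) :
    ∃ E : Set ((Σ i, Fin (n i + 1)) → ℤ), AlmostNone (fun a => a ∈ E) ∧
      ∀ (K : Type) [Field K] [NumberField K] (n₁ : ℕ), 0 < n₁ →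
        {a | a ∉ E ∧ ¬ ((∀ κ : ι → ℕ, (∀ i, κ i + 2 ≤ n i) →
          ∃ (p : ℕ) (_ : Fact p.Prime) (_ : 𝓞 K →+* ZMod p),
            CertJ p (fun i => mkP (monA (cmpA a i))) κ) ∧
          ∀ i, NodeJ i (2 * (NumberField.discr K).natAbs * n₁) a)}.Finite := by
  classical
  obtain ⟨E, hE, hE'⟩ := exists_E hn
  refine ⟨E, hE, fun K _ _ n₁ hn₁ => ?_⟩
  obtain ⟨x, ⟨e⟩⟩ := exists_KA K
  have hdisc : 0 < (NumberField.discr K).natAbs :=
    Int.natAbs_pos.2 (NumberField.discr_ne_zero K)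
  set m : ℕ := 2 * (NumberField.discr K).natAbs * n₁ with hm
  have hm0 : m - 1 + 1 = m := by
    have : 0 < m := by positivity
    omega
  have hfin : ((⋃ i : ι, {a | a ∉ E ∧ ¬ CondJ n (Sum.inl (m - 1, i)) a}) ∪
      ⋃ κ ∈ (Fintype.piFinset fun i => Finset.range (n i)),
        {a | a ∉ E ∧ ¬ CondJ n (Sum.inr (x, κ)) a}).Finite := by
    refine Set.Finite.union (Set.finite_iUnion fun i => hE' _) ?_
    exact Set.Finite.biUnion (Finset.finite_toSet _) fun κ _ => hE' _
  refine hfin.subset ?_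
  rintro a ⟨ha, hna⟩
  by_contra hcon
  rw [Set.mem_union, not_or] at hcon
  obtain ⟨h1, h2⟩ := hcon
  apply hna
  refine ⟨fun κ hκ => ?_, fun i => ?_⟩
  · have h3 : CondJ n (Sum.inr (x, κ)) a := by
      by_contra h3
      apply h2
      rw [Set.mem_iUnion₂]
      refine ⟨κ, ?_, ha, h3⟩
      rw [Fintype.mem_piFinset]
      intro i
      have := hκ i
      rw [Finset.mem_range]
      omega
    obtain ⟨p, hp, φ, h4⟩ := h3 hκ
    exact ⟨p, hp, φ.comp (RingOfIntegers.mapRingHom (e : K →+* KA x)), h4⟩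
  · have h3 : CondJ n (Sum.inl (m - 1, i)) a := by
      by_contra h3
      apply h1
      rw [Set.mem_iUnion]
      exact ⟨i, ha, h3⟩
    have h4 : NodeJ i (m - 1 + 1) a := h3
    rwa [hm0] at h4

end

end Pool.Agent.H852.J
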