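import Mathlib
import Pool.Agent.H852.J.Q7

/-!
# Curves with rational branch points
-/

set_option linter.unusedSectionVars false
set_option autoImplicit false

open Polynomial Module NumberField IsDedekindDomain
open HeightOneSpectrum WithZero
open Pool.Agent.Results.MP_640417_ag.HyperellipticEveryPrime
open Pool.Agent.N171 Pool.Agent.N171.Al Pool.Agent.N171.Pm Pool.Agent.N171.Bg Pool.Agent.N171.TG

namespace Pool.Agent.H852.J

noncomputable section

variable {L : Type} [Field L] [NumberField L] {A : Type} [DecidableEq A]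

/-- the polynomial with the roots `u i`, `i ∈ T` -/
def prodR (T : Finset A) (u : A → L) : L[X] := ∏ i ∈ T, (X - C (u i))

theorem prodR_root {T : Finset A} {u : A → L} {M : Type} [Field M] [Algebra L M] {x : M} :
    aeval x (prodR T u) = 0 ↔ ∃ i ∈ T, x = algebraMap L M (u i) := by
  rw [prodR, map_prod, Finset.prod_eq_zero_iff]
  refine exists_congr fun i => and_congr_right fun _ => ?_
  rw [map_sub, aeval_X, aeval_C, sub_eq_zero]

theorem prodR_monic (T : Finset A) (u : A → L) : (prodR T u).Monic :=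
  monic_prod_of_monic _ _ fun i _ => monic_X_sub_C _

theorem prodR_deg (T : Finset A) (u : A → L) : (prodR T u).natDegree = T.card := by
  rw [prodR, natDegree_prod_of_monic _ _ fun i _ => monic_X_sub_C _]
  simp

theorem prodR_sep {T : Finset A} {u : A → L} (hu : ∀ i ∈ T, ∀ j ∈ T, u i = u j → i = j) :
    (prodR T u).Separable := by
  rw [prodR]
  refine separable_prod' (fun i hi j hj hij => ?_) fun i _ => separable_X_sub_C
  exact (isCoprime_X_sub_C_of_isUnit_sub (sub_ne_zero.2 fun h => hij (hu i hi j hj h)).isUnit)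

variable {w : HeightOneSpectrum (𝓞 L)}

theorem good_split (T : Finset A) (u : A → L) (hint : ∀ i ∈ T, w.valuation L (u i) ≤ 1)
    (hd : ∀ i ∈ T, ∀ j ∈ T, i ≠ j → w.valuation L (u i - u j) = 1) : GoodAt (prodR T u) w := by
  refine ⟨fun M _ _ P _ x hx => ?_, fun M _ _ P _ x y hx hy hxy => ?_⟩
  · have : IsGalois L M := ⟨⟩
    obtain ⟨i, hi, rfl⟩ := prodR_root.1 hx
    exact val_up_le w P (hint i hi)
  · have : IsGalois L M := ⟨⟩
    obtain ⟨i, hi, rfl⟩ := prodR_root.1 hx
    obtain ⟨j, hj, rfl⟩ := prodR_root.1 hy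
    rw [← map_sub]
    exact val_up_one w P (hd i hi j hj fun h => hxy (by rw [h]))

theorem node_split (T : Finset A) (u : A → L) {s t : A} (hs : s ∈ T) (ht : t ∈ T)
    (hint : ∀ i ∈ T, w.valuation L (u i) ≤ 1) (hne : u s ≠ u t)
    (hodd : Odd (log (w.valuation L (u s - u t))))
    (hd : ∀ i ∈ T, ∀ j ∈ T, i ≠ j → ¬ ((i = s ∨ i = t) ∧ (j = s ∨ j = t)) →
      w.valuation L (u i - u j) = 1)
    (Q : AlgebraicClosure L → AlgebraicClosure L → Prop)
    (hQ : Q (algebraMap L (AlgebraicClosure L) (u s)) (algebraMap L (AlgebraicClosure L) (u t))) :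
    NodeAt (prodR T u) w Q := by
  refine ⟨fun M _ _ P _ x hx => ?_, fun M _ _ P _ hM => ?_⟩
  · have : IsGalois L M := ⟨⟩
    obtain ⟨i, hi, rfl⟩ := prodR_root.1 hx
    exact val_up_le w P (hint i hi)
  · have : IsGalois L M := ⟨⟩
    refine ⟨algebraMap L M (u s), algebraMap L M (u t), prodR_root.2 ⟨s, hs, rfl⟩,
      prodR_root.2 ⟨t, ht, rfl⟩, fun h => hne ((algebraMap L M).injective h), hQ,
      fun x y hx hy hxy hn => ?_, fun h1 _ => ?_⟩
    · obtain ⟨i, hi, rfl⟩ := prodR_root.1 hx
      obtain ⟨j, hj, rfl⟩ := prodR_root.1 hy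
      rw [← map_sub]
      refine val_up_one w P (hd i hi j hj (fun h => hxy (by rw [h])) fun h => hn ?_)
      exact ⟨h.1.imp (fun h => by rw [h]) fun h => by rw [h],
        h.2.imp (fun h => by rw [h]) fun h => by rw [h]⟩
    · have h2 : ∀ g : M ≃ₐ[L] M, Inert P g → g = 1 := by
        intro g hg
        by_contra hg1
        have h3 := (h1 g hg hg1).1
        rw [AlgEquiv.commutes] at h3
        exact hne ((algebraMap L M).injective h3)
      rw [← map_sub, val_eq_of_trivial w P h2]
      exact hodd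

/-- the graph which is a star is connected -/
theorem connects_star (T : Finset A) (u : A → L) {κ : Type}
    (Q : κ → AlgebraicClosure L → AlgebraicClosure L → Prop) {s : A}
    (h : ∀ t ∈ T, t ≠ s → ∃ k : κ, ∀ a b : AlgebraicClosure L, Q k a b → a ≠ b →
      (a = algebraMap L _ (u s) ∧ b = algebraMap L _ (u t)) ∨
        (a = algebraMap L _ (u t) ∧ b = algebraMap L _ (u s))) (hs : s ∈ T) :
    Connects (prodR T u) Q := by
  intro a b hab hQ x y
  set R := Relation.ReflTransGen (ConjEdge L (fun x : (prodR T u).rootSet (AlgebraicClosure L) =>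
        (x : AlgebraicClosure L)) a b) with hR
  have hx0 : prodR T u ≠ 0 := (prodR_monic T u).ne_zero
  have hsr : algebraMap L (AlgebraicClosure L) (u s) ∈ (prodR T u).rootSet (AlgebraicClosure L) :=
    mem_rootSet.2 ⟨hx0, prodR_root.2 ⟨s, hs, rfl⟩⟩
  have key : ∀ z : (prodR T u).rootSet (AlgebraicClosure L), R z ⟨_, hsr⟩ ∧ R ⟨_, hsr⟩ z := by
    intro z
    obtain ⟨i, hi, hz⟩ := prodR_root.1 (mem_rootSet.1 z.2).2
    by_cases his : i = s
    · have h1 : z = ⟨_, hsr⟩ := Subtype.ext (by rw [hz, his])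
      rw [h1]
      exact ⟨Relation.ReflTransGen.refl, Relation.ReflTransGen.refl⟩
    · obtain ⟨k, hk⟩ := h i hi his
      have h1 := hk (a k) (b k) (hQ k) (fun h => hab k (Subtype.ext h))
      constructor
      · refine Relation.ReflTransGen.single ⟨k, AlgEquiv.refl, ?_⟩
        rcases h1 with h1 | h1
        · exact Or.inr ⟨h1.1, h1.2.trans hz.symm⟩
        · exact Or.inl ⟨h1.1.trans hz.symm, h1.2⟩
      · refine Relation.ReflTransGen.single ⟨k, AlgEquiv.refl, ?_⟩
        rcases h1 with h1 | h1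
        · exact Or.inl ⟨h1.1, h1.2.trans hz.symm⟩
        · exact Or.inr ⟨h1.1.trans hz.symm, h1.2⟩
  exact (key x).1.trans (key y).2

end

end Pool.Agent.H852.J
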