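import Mathlib
import Pool.Agent.H852.J.W1

/-!
# The places of the splitting field at which two given roots collide
-/

set_option linter.unusedSectionVars false
set_option autoImplicit false

open Polynomial Module NumberField IsDedekindDomain
open HeightOneSpectrum WithZero

namespace Pool.Agent.H852.J

noncomputable section

variable {K : Type} [Field K] [NumberField K] {p : ℕ} [Fact p.Prime] {F : ℤ[X]}

/-- valuations for isomorphic fields -/
theorem val_of_surj {L M : Type} [Field L] [NumberField L] [Field M] [NumberField M]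
    (ψ : L →+* M) (hψ : Function.Surjective ψ) (P : HeightOneSpectrum (𝓞 M)) :
    ∃ w : HeightOneSpectrum (𝓞 L), w.asIdeal = P.asIdeal.comap (RingOfIntegers.mapRingHom ψ) ∧
      ∀ x, w.valuation L x = P.valuation M (ψ x) := by
  let θ : 𝓞 L →+* 𝓞 M := RingOfIntegers.mapRingHom ψ
  have hθ : Function.Surjective θ := by
    intro y
    obtain ⟨x, hx⟩ := hψ (y : M)
    have h1 : IsIntegral ℤ x := by
      have h2 := RingOfIntegers.isIntegral_coe y
      have hx' : ψ x = algebraMap (𝓞 M) M y := hx
      rw [← hx'] at h2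
      obtain ⟨q, hq, hq'⟩ := h2
      refine ⟨q, hq, ψ.injective ?_⟩
      rw [map_zero, ← hq', hom_eval₂]
      congr 1
      exact RingHom.ext_int _ _
    refine ⟨⟨x, h1⟩, ?_⟩
    apply RingOfIntegers.ext
    exact hx
  have hθi : Function.Injective θ := by
    intro x y hxy
    apply RingOfIntegers.ext
    apply ψ.injective
    exact congrArg (algebraMap (𝓞 M) M) hxy
  letI : Algebra L M := ψ.toAlgebra
  have hcomap : (P.asIdeal.comap θ).IsPrime := P.isPrime.comap θ
  have hbot : P.asIdeal.comap θ ≠ ⊥ := by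
    intro h1
    apply P.ne_bot
    rw [← Ideal.map_comap_of_surjective θ hθ P.asIdeal, h1, Ideal.map_bot]
  let w : HeightOneSpectrum (𝓞 L) := ⟨P.asIdeal.comap θ, hcomap, hbot⟩
  have halg : algebraMap (𝓞 L) (𝓞 M) = θ := by
    refine RingHom.ext fun x => ?_
    apply RingOfIntegers.ext
    rfl
  have hw : P.asIdeal.LiesOver w.asIdeal := ⟨by
    rw [Ideal.under, halg]⟩
  have hmap : w.asIdeal.map (algebraMap (𝓞 L) (𝓞 M)) = P.asIdeal := by
    rw [halg]
    exact Ideal.map_comap_of_surjective θ hθ P.asIdeal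
  have h3 : w.asIdeal.ramificationIdx' P.asIdeal = 1 := by
    by_contra h4
    have h5 := (Ideal.ramificationIdx'_ne_one_iff hmap.le).1 h4
    rw [hmap] at h5
    have h6 := Ideal.pow_right_strictAnti P.asIdeal P.ne_bot P.isPrime.ne_top
      (show 1 < 2 by norm_num)
    simp only [pow_one] at h6
    exact absurd h5 (not_le_of_gt h6)
  refine ⟨w, rfl, fun x => ?_⟩
  have h7 := valuation_liesOver M w P x
  rw [h3, pow_one] at h7
  exact h7

/-- **The places at which two given roots collide.** -/
theorem exists_pair_place {L : Type} [Field L] [NumberField L] [Algebra K L] (hm : F.Monic)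
    (hsep : (F.map (Int.castRingHom K)).Separable) (hp2 : p ≠ 2) {γ : ℤ} (hl : LocN p F γ)
    {v : HeightOneSpectrum (𝓞 K)} (hv : PlaceP p v) (h2 : KT K F 2)
    (hspl : (F.map (Int.castRingHom L)).Splits)
    (htop : IntermediateField.adjoin K {x : L | evZ x F = 0} = ⊤) {β β' : L}
    (hβ : evZ β F = 0) (hβ' : evZ β' F = 0) (hne : β ≠ β') :
    ∃ w : HeightOneSpectrum (𝓞 L), (∀ m : ℤ, ¬ (p : ℤ) ∣ m → (m : 𝓞 L) ∉ w.asIdeal) ∧
      Odd (log (w.valuation L (β - β'))) ∧ w.valuation L (β - β') < 1 ∧
      ∀ x y : L, evZ x F = 0 → evZ y F = 0 → x ≠ y →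
        ¬ ((x = β ∨ x = β') ∧ (y = β ∨ y = β')) → w.valuation L (x - y) = 1 := by
  classical
  let R : Set (AlgebraicClosure K) := {z | evZ z F = 0}
  have hf' : F.map (Int.castRingHom (AlgebraicClosure K)) ≠ 0 := (hm.map _).ne_zero
  have hRfin : R.Finite := by
    have h1 : R ⊆ ((F.map (Int.castRingHom (AlgebraicClosure K))).roots.toFinset : Set _) := by
      intro z hz
      rw [Finset.mem_coe, Multiset.mem_toFinset, mem_roots hf', IsRoot.def, ← evZ_eq_eval]
      exact hz
    exact (Finset.finite_toSet _).subset h1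
  have hRst : ∀ (σ : AlgebraicClosure K ≃ₐ[K] AlgebraicClosure K), ∀ x ∈ R, σ x ∈ R :=
    fun σ x hx => gal_evZ σ hx
  have hfdR : FiniteDimensional K (IntermediateField.adjoin K R) := by
    have := hRfin.to_subtype
    exact IntermediateField.finiteDimensional_adjoin
      fun z _ => Normal.isIntegral (F := K) inferInstance z
  set M := IntermediateField.adjoin K R with hM
  have hnf : NumberField M := NumberField.of_module_finite K _
  have hnorm : Normal K M := normal_adjoin R hRst
  have hg : IsGalois K M := ⟨⟩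
  have hMR : ∀ x : AlgebraicClosure K, evZ x F = 0 → x ∈ M := fun x hx =>
    IntermediateField.subset_adjoin K R hx
  obtain ⟨P, hP⟩ := exists_place_above (M := M) v
  obtain ⟨a, b, ha, hb, hab, hγa, hγb, hdiff, hsq⟩ := node_loc hm hsep hp2 hl hv M P hMR
  -- the inertia group
  have hcoe : ∀ x : M, evZ x F = 0 ↔ evZ (x : AlgebraicClosure K) F = 0 := by
    intro x
    have h1 := hom_evZ (algebraMap M (AlgebraicClosure K)) F x
    constructor
    · intro h
      rw [h, map_zero] at h1
      exact h1.symm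
    · intro h
      apply (algebraMap M (AlgebraicClosure K)).injective
      rw [map_zero, h1]
      exact h
  have hroot : ∀ (s : M ≃ₐ[K] M) (x : M), evZ x F = 0 → evZ (s x) F = 0 := by
    intro s x hx
    have h1 := hom_evZ (s : M →+* M) F x
    rw [hx, map_zero] at h1
    exact h1.symm
  have hmove : ∀ s : M ≃ₐ[K] M, Inert P s → ∀ x : M, evZ x F = 0 → s x ≠ x →
      (s x = a ∨ s x = b) ∧ (x = a ∨ x = b) := by
    intro s hs x hx hsx
    by_contra hcon
    have h1 := hdiff (s x) x (hroot s x hx) hx hsx hcon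
    have h3 : P.valuation M (s x - x) < 1 :=
      val_smul hs x (P.valuation_le_one (⟨x, evZ_int_of hm hx⟩ : 𝓞 M))
    rw [h1] at h3
    exact lt_irrefl _ h3
  have hext : ∀ s s' : M ≃ₐ[K] M, (∀ x : M, evZ x F = 0 → s x = s' x) → s = s' := by
    intro s s' h
    refine AlgEquiv.ext fun x => ?_
    obtain ⟨x, hx⟩ := x
    induction hx using IntermediateField.adjoin_induction with
    | mem x hx =>
      exact h ⟨x, _⟩ ((hcoe _).2 hx)
    | algebraMap x =>
      have h1 : (⟨algebraMap K (AlgebraicClosure K) x, IntermediateField.algebraMap_mem _ x⟩ : M) =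
        algebraMap K M x := rfl
      rw [h1, s.commutes, s'.commutes]
    | add x y hx hy ihx ihy =>
      have h1 : (⟨x + y, IntermediateField.add_mem _ hx hy⟩ : M) = ⟨x, hx⟩ + ⟨y, hy⟩ := rfl
      rw [h1, map_add, map_add, ihx, ihy]
    | inv x hx ihx =>
      have h1 : (⟨x⁻¹, IntermediateField.inv_mem _ hx⟩ : M) = (⟨x, hx⟩ : M)⁻¹ := rfl
      rw [h1, map_inv₀, map_inv₀, ihx]
    | mul x y hx hy ihx ihy =>
      have h1 : (⟨x * y, IntermediateField.mul_mem _ hx hy⟩ : M) = ⟨x, hx⟩ * ⟨y, hy⟩ := rfl
      rw [h1, map_mul, map_mul, ihx, ihy]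
  have hswap : ∀ s : M ≃ₐ[K] M, Inert P s → s ≠ 1 → s a = b ∧ s b = a := by
    intro s hs hs1
    obtain ⟨x, hx, hsx⟩ : ∃ x : M, evZ x F = 0 ∧ s x ≠ x := by
      by_contra hcon
      push Not at hcon
      exact hs1 (hext s 1 fun x hx => hcon x hx)
    obtain ⟨h1, h3⟩ := hmove s hs x hx hsx
    rcases h3 with rfl | rfl
    · have h4 : s x = b := h1.resolve_left hsx
      have h5 : s b ≠ b := fun h => hab (s.injective (h4.trans h.symm))
      exact ⟨h4, ((hmove s hs b hb h5).1).resolve_right h5⟩
    · have h4 : s x = a := h1.resolve_right hsx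
      have h5 : s a ≠ a := fun h => hab (s.injective (h.trans h4.symm))
      exact ⟨((hmove s hs a ha h5).1).resolve_left h5, h4⟩
  have huniq : ∀ s s' : M ≃ₐ[K] M, Inert P s → Inert P s' → s ≠ 1 → s' ≠ 1 → s = s' := by
    intro s s' hs hs' h1 h1'
    obtain ⟨h3, h4⟩ := hswap s hs h1
    obtain ⟨h3', h4'⟩ := hswap s' hs' h1'
    refine hext s s' fun x hx => ?_
    by_cases hxa : x = a
    · rw [hxa, h3, h3']
    · by_cases hxb : x = b
      · rw [hxb, h4, h4']
      · have h5 : s x = x := by
          by_contra h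
          rcases (hmove s hs x hx h).2 with h | h
          · exact hxa h
          · exact hxb h
        have h6 : s' x = x := by
          by_contra h
          rcases (hmove s' hs' x hx h).2 with h | h
          · exact hxa h
          · exact hxb h
        rw [h5, h6]
  have hodd := hv.odd_log P hsq huniq
  -- the embedding
  let ψ₀ : L →ₐ[K] AlgebraicClosure K := by
    have : FiniteDimensional K L := Module.Finite.of_restrictScalars_finite ℚ K L
    exact IsAlgClosed.lift
  have hψr : ∀ (ψ : L →ₐ[K] AlgebraicClosure K) (x : L), evZ x F = 0 → evZ (ψ x) F = 0 := by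
    intro ψ x hx
    have h1 := hom_evZ (ψ : L →+* AlgebraicClosure K) F x
    rw [hx, map_zero] at h1
    exact h1.symm
  obtain ⟨s, hs⟩ := h2 ![ψ₀ β, ψ₀ β'] ![(a : AlgebraicClosure K), (b : AlgebraicClosure K)]
    (by
      intro i j hij
      fin_cases i <;> fin_cases j <;> simp at hij ⊢
      · exact hne (ψ₀.injective hij)
      · exact hne (ψ₀.injective hij.symm))
    (by
      intro i j hij
      fin_cases i <;> fin_cases j <;> simp at hij ⊢
      · exact hab hij
      · exact hab hij.symm)
    (fun i => by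
      fin_cases i
      · exact hψr ψ₀ β hβ
      · exact hψr ψ₀ β' hβ')
    (fun i => by
      fin_cases i
      · exact (hcoe a).1 ha
      · exact (hcoe b).1 hb)
  have hs0 : s (ψ₀ β) = (a : AlgebraicClosure K) := hs 0
  have hs1 : s (ψ₀ β') = (b : AlgebraicClosure K) := hs 1
  let ψ : L →ₐ[K] AlgebraicClosure K := (s : AlgebraicClosure K →ₐ[K] AlgebraicClosure K).comp ψ₀
  have hψM : ∀ x : L, ψ x ∈ M := by
    intro x
    have h1 : IntermediateField.adjoin K {x : L | evZ x F = 0} ≤ M.comap ψ := by
      rw [IntermediateField.adjoin_le_iff]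
      intro y hy
      exact hMR _ (hψr ψ y hy)
    have h3 : x ∈ IntermediateField.adjoin K {x : L | evZ x F = 0} := by
      rw [htop]
      trivial
    exact h1 h3
  let ψM : L →ₐ[K] M := ψ.codRestrict M.toSubalgebra hψM
  have hsurj : Function.Surjective ψM := by
    have h1 : M ≤ ψ.fieldRange := by
      rw [hM, IntermediateField.adjoin_le_iff]
      intro z hz
      have h3 := hspl.map (ψ : L →+* AlgebraicClosure K)
      have h4 : (F.map (Int.castRingHom L)).map (ψ : L →+* AlgebraicClosure K) =
          F.map (Int.castRingHom (AlgebraicClosure K)) := by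
        rw [Polynomial.map_map]
        congr 1
        exact RingHom.ext_int _ _
      have h5 := hspl.eq_prod_roots_of_monic (hm.map _)
      have h6 : (F.map (Int.castRingHom (AlgebraicClosure K))).eval z = 0 := by
        rw [← evZ_eq_eval]
        exact hz
      rw [← h4, h5, Polynomial.map_multiset_prod, eval_multiset_prod, Multiset.prod_eq_zero_iff,
        Multiset.map_map, Multiset.map_map] at h6
      obtain ⟨x, hx, h7⟩ := Multiset.mem_map.1 h6
      refine ⟨x, ?_⟩
      simp only [Function.comp_apply, Polynomial.map_sub, map_X, map_C, eval_sub, eval_X,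
        eval_C] at h7
      exact (sub_eq_zero.1 h7).symm
    intro y
    obtain ⟨x, hx⟩ := h1 y.2
    exact ⟨x, Subtype.ext hx⟩
  obtain ⟨w, hw1, hw2⟩ := val_of_surj (ψM : L →+* M) hsurj P
  have hψβ : ψM β = a := Subtype.ext hs0
  have hψβ' : ψM β' = b := Subtype.ext hs1
  have hvab : w.valuation L (β - β') = P.valuation M (a - b) := by
    rw [hw2]
    congr 1
    rw [map_sub]
    exact congrArg₂ _ hψβ hψβ'
  refine ⟨w, fun m hpm hmem => ?_, by rw [hvab]; exact hodd, ?_, fun x y hx hy hxy hn => ?_⟩
  · have h1 := (w.valuation_lt_one_iff_mem (K := L) _).2 hmem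
    rw [hw2] at h1
    have h3 : (ψM : L →+* M) (algebraMap (𝓞 L) L (m : 𝓞 L)) = algebraMap K M (m : K) := by
      rw [map_intCast, map_intCast, map_intCast]
    rw [h3, val_up_one v P (hv.one m hpm)] at h1
    exact lt_irrefl _ h1
  · rw [hvab]
    have h1 : a - b = (a - (γ : M)) - (b - (γ : M)) := by ring
    rw [h1]
    exact lt_of_le_of_lt (Valuation.map_sub _ _ _) (max_lt hγa hγb)
  · rw [hw2]
    have h1 : (ψM : L →+* M) (x - y) = ψM x - ψM y := map_sub _ _ _
    rw [h1]
    refine hdiff _ _ ((hcoe _).2 (hψr ψ x hx)) ((hcoe _).2 (hψr ψ y hy))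
      (fun h => hxy (ψM.injective h)) fun h => hn ?_
    exact ⟨h.1.imp (fun h => ψM.injective (h.trans hψβ.symm))
        fun h => ψM.injective (h.trans hψβ'.symm),
      h.2.imp (fun h => ψM.injective (h.trans hψβ.symm))
        fun h => ψM.injective (h.trans hψβ'.symm)⟩

end

end Pool.Agent.H852.J
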