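import Mathlib
import Pool.Agent.H852.J.W2

/-!
# Curves branched at subsets of a set of points
-/

set_option linter.unusedSectionVars false
set_option autoImplicit false

open Polynomial Module NumberField IsDedekindDomain
open HeightOneSpectrum WithZero
open Pool.Agent.Results.MP_640417_ag.HyperellipticEveryPrime
open Pool.Agent.N171 Pool.Agent.N171.Al Pool.Agent.N171.Pm Pool.Agent.N171.Bg Pool.Agent.N171.TG

namespace Pool.Agent.H852.J

noncomputable section

variable {L : Type} [Field L] [NumberField L] {A : Type} [DecidableEq A]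

/-- the finite branch points of the model -/
def brT (R : Finset A) : Option A → Finset A
  | none => R
  | some j => R.erase j

/-- the derivative at the base point -/
def brD (r : A → L) (R : Finset A) (j : A) : L := ∏ k ∈ R.erase j, (r j - r k)

/-- the roots of the model -/
def brU (r : A → L) (R : Finset A) : Option A → A → L
  | none => r
  | some j => fun i => brD r R j / (r i - r j)

theorem brD_ne {r : A → L} (hr : Function.Injective r) (R : Finset A) (j : A) : brD r R j ≠ 0 :=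
  Finset.prod_ne_zero_iff.2 fun _ hk => sub_ne_zero.2 fun h =>
    (Finset.ne_of_mem_erase hk) (hr h).symm

/-- the conditions on the numbers of branch points -/
def Adm (R : Finset A) : Option A → Prop
  | none => Odd R.card ∧ 3 ≤ R.card
  | some j => j ∈ R ∧ Even R.card ∧ 4 ≤ R.card

/-- exactly two of the points collide -/
structure PairAt (r : A → L) (w : HeightOneSpectrum (𝓞 L)) (s t : A) : Prop where
  int : ∀ x, w.valuation L (r x) ≤ 1
  odd : Odd (log (w.valuation L (r s - r t)))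
  lt : w.valuation L (r s - r t) < 1
  unit : ∀ x y, x ≠ y → ¬ ((x = s ∨ x = t) ∧ (y = s ∨ y = t)) → w.valuation L (r x - r y) = 1

theorem adm_card {R : Finset A} {b : Option A} (h : Adm R b) :
    Odd (brT R b).card ∧ 3 ≤ (brT R b).card := by
  cases b with
  | none => exact h
  | some j =>
    obtain ⟨h1, h2, h3⟩ := h
    rw [brT, Finset.card_erase_of_mem h1]
    obtain ⟨k, hk⟩ := h2
    exact ⟨⟨k - 1, by omega⟩, by omega⟩

theorem brT_sub (R : Finset A) (b : Option A) : brT R b ⊆ R := by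
  cases b with
  | none => exact subset_rfl
  | some j => exact Finset.erase_subset _ _

theorem mem_brT {R : Finset A} {b : Option A} {s : A} : s ∈ brT R b ↔ s ∈ R ∧ b ≠ some s := by
  cases b with
  | none => simp [brT]
  | some j =>
    rw [brT, Finset.mem_erase, and_comm]
    refine and_congr_right fun _ => ?_
    rw [ne_eq, ne_eq, Option.some_inj, eq_comm]

theorem brU_inj {r : A → L} (hr : Function.Injective r) (R : Finset A) (b : Option A) :
    Function.Injective (brU r R b) := by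
  cases b with
  | none => exact hr
  | some j =>
    intro x y h
    have h0 : brD r R j * (r x - r j)⁻¹ = brD r R j * (r y - r j)⁻¹ := by
      rw [← div_eq_mul_inv, ← div_eq_mul_inv]
      exact h
    have h1 : r x - r j = r y - r j := inv_injective (mul_left_cancel₀ (brD_ne hr R j) h0)
    exact hr (sub_left_injective h1)

/-- the valuations of the roots of the model -/
theorem br_facts {r : A → L} (hr : Function.Injective r) {w : HeightOneSpectrum (𝓞 L)}
    (hint : ∀ x, w.valuation L (r x) ≤ 1) (R : Finset A) (b : Option A)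
    (hb : ∀ j, b = some j → ∀ i ∈ R, i ≠ j → w.valuation L (r i - r j) = 1) :
    (∀ i ∈ brT R b, w.valuation L (brU r R b i) ≤ 1) ∧
      ∀ i ∈ brT R b, ∀ k ∈ brT R b, w.valuation L (brU r R b i - brU r R b k) =
        w.valuation L (r i - r k) := by
  cases b with
  | none => exact ⟨fun i _ => hint i, fun _ _ _ _ => rfl⟩
  | some j =>
    have h1 : ∀ i ∈ R.erase j, w.valuation L (r i - r j) = 1 := fun i hi =>
      hb j rfl i (Finset.mem_of_mem_erase hi) (Finset.ne_of_mem_erase hi)
    have h0 : ∀ i ∈ R.erase j, r i - r j ≠ 0 := fun i hi =>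
      sub_ne_zero.2 fun h => (Finset.ne_of_mem_erase hi) (hr h)
    have hD : w.valuation L (brD r R j) = 1 := by
      rw [brD, map_prod]
      refine Finset.prod_eq_one fun k hk => ?_
      rw [Valuation.map_sub_swap]
      exact h1 k hk
    refine ⟨fun i hi => ?_, fun i hi k hk => ?_⟩
    · change w.valuation L (brD r R j / (r i - r j)) ≤ 1
      rw [map_div₀, h1 i hi, hD, div_one]
    · change w.valuation L (brD r R j / (r i - r j) - brD r R j / (r k - r j)) = _
      have h2 : brD r R j / (r i - r j) - brD r R j / (r k - r j) =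
          brD r R j * (r k - r i) / ((r i - r j) * (r k - r j)) := by
        have h3 := h0 i hi
        have h4 := h0 k hk
        field_simp
        ring
      rw [h2, map_div₀, map_mul, map_mul, hD, h1 i hi, h1 k hk, one_mul, one_mul, div_one,
        Valuation.map_sub_swap]

theorem pair_unique {r : A → L} {w : HeightOneSpectrum (𝓞 L)} {s t s' t' : A}
    (h : PairAt r w s t) (h' : PairAt r w s' t') (hst : s' ≠ t') :
    (s' = s ∧ t' = t) ∨ (s' = t ∧ t' = s) := by
  have h1 : (s' = s ∨ s' = t) ∧ (t' = s ∨ t' = t) := by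
    by_contra hcon
    have h2 := h.unit s' t' hst hcon
    have h3 := h'.lt
    rw [h2] at h3
    exact lt_irrefl _ h3
  rcases h1 with ⟨rfl | rfl, rfl | rfl⟩
  · exact absurd rfl hst
  · exact Or.inl ⟨rfl, rfl⟩
  · exact Or.inr ⟨rfl, rfl⟩
  · exact absurd rfl hst

/-- good reduction if not both of the colliding points are branch points -/
theorem br_good {r : A → L} (hr : Function.Injective r) {w : HeightOneSpectrum (𝓞 L)} {s t : A}
    (h : PairAt r w s t) {R : Finset A} {b : Option A} (hadm : Adm R b)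
    (hst : ¬ (s ∈ R ∧ t ∈ R)) : GoodAt (prodR (brT R b) (brU r R b)) w := by
  have h1 : ∀ x ∈ R, ∀ y ∈ R, x ≠ y → w.valuation L (r x - r y) = 1 := by
    intro x hx y hy hxy
    refine h.unit x y hxy fun h2 => hst ?_
    rcases h2 with ⟨rfl | rfl, rfl | rfl⟩
    · exact absurd rfl hxy
    · exact ⟨hx, hy⟩
    · exact ⟨hy, hx⟩
    · exact absurd rfl hxy
  obtain ⟨h2, h3⟩ := br_facts hr h.int R b (fun j hj i hi hij => by
    subst hj
    exact h1 i hi j hadm.1 hij)
  refine good_split _ _ h2 fun i hi k hk hik => ?_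
  rw [h3 i hi k hk]
  exact h1 i (brT_sub _ _ hi) k (brT_sub _ _ hk) hik

/-- a node if both are branch points, different from the base point -/
theorem br_node {r : A → L} (hr : Function.Injective r) {w : HeightOneSpectrum (𝓞 L)} {s t : A}
    (h : PairAt r w s t) (hst : s ≠ t) {R : Finset A} {b : Option A}
    (hs : s ∈ brT R b) (ht : t ∈ brT R b)
    (Q : AlgebraicClosure L → AlgebraicClosure L → Prop)
    (hQ : Q (algebraMap L (AlgebraicClosure L) (brU r R b s))
      (algebraMap L (AlgebraicClosure L) (brU r R b t))) :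
    NodeAt (prodR (brT R b) (brU r R b)) w Q := by
  obtain ⟨h2, h3⟩ := br_facts hr h.int R b (fun j hj i hi hij => by
    refine h.unit i j hij fun h4 => ?_
    rw [mem_brT] at hs ht
    rcases h4.2 with rfl | rfl
    · exact hs.2 hj
    · exact ht.2 hj)
  refine node_split _ _ hs ht h2 (fun h4 => hst (brU_inj hr R b h4)) ?_ (fun i hi k hk hik hn => ?_)
    Q hQ
  · rw [h3 s hs t ht]
    exact h.odd
  · rw [h3 i hi k hk]
    exact h.unit i k hik hn

/-- **The Tate conjecture for the curves branched at subsets.** -/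
theorem branch_main {r : A → L} (hr : Function.Injective r) {ι : Type} [Fintype ι] [Nonempty ι]
    (ord : ι → ℕ) (hord : Function.Injective ord) (R : ι → Finset A) (b : ι → Option A)
    (hadm : ∀ i, Adm (R i) (b i))
    (hsep : ∀ i i', ord i' < ord i → ∃ s ∈ R i, b i ≠ some s ∧ s ∉ R i') {n₁ : ℕ}
    (hpl : ∀ s t, s ≠ t → ∃ w : HeightOneSpectrum (𝓞 L), PairAt r w s t ∧ (2 : 𝓞 L) ∉ w.asIdeal ∧
      (n₁ : 𝓞 L) ∉ w.asIdeal)
    {d : ℕ} (τ : AbsoluteGaloisGroup L →* Matrix (Fin d) (Fin d) ℚ_[2]) (hτ : IsLattice τ)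
    (hun : ∀ w : HeightOneSpectrum (𝓞 L), (n₁ : 𝓞 L) ∉ w.asIdeal → Unramified τ w) :
    EveryPrime (fun i => prodR (brT (R i) (b i)) (brU r (R i) (b i))) τ := by
  classical
  let N : ι → Set (HeightOneSpectrum (𝓞 L)) := fun i =>
    {w | (2 : 𝓞 L) ∉ w.asIdeal ∧ ∃ s ∈ brT (R i) (b i), ∃ t ∈ brT (R i) (b i), s ≠ t ∧
      PairAt r w s t}
  let Q : ι → HeightOneSpectrum (𝓞 L) → AlgebraicClosure L → AlgebraicClosure L → Prop :=
    fun i w x y => ∃ s ∈ brT (R i) (b i), ∃ t ∈ brT (R i) (b i), s ≠ t ∧ PairAt r w s t ∧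
      x = algebraMap L _ (brU r (R i) (b i) s) ∧ y = algebraMap L _ (brU r (R i) (b i) t)
  have hdeg : ∀ i, (prodR (brT (R i) (b i)) (brU r (R i) (b i))).natDegree = (brT (R i) (b i)).card :=
    fun i => prodR_deg _ _
  have hconn : ∀ i, ∀ s₀ ∈ brT (R i) (b i), ∀ T : Set (HeightOneSpectrum (𝓞 L)),
      (∀ t ∈ brT (R i) (b i), t ≠ s₀ → ∃ w ∈ T, PairAt r w s₀ t) →
      Connects (κ := T) (prodR (brT (R i) (b i)) (brU r (R i) (b i))) (fun w => Q i w) := by
    intro i s₀ hs₀ T hT
    refine connects_star _ _ _ (s := s₀) (fun t ht hts => ?_) hs₀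
    obtain ⟨w, hwT, hw⟩ := hT t ht hts
    refine ⟨⟨w, hwT⟩, fun x y hxy _ => ?_⟩
    obtain ⟨s', hs', t', ht', hst', hp', rfl, rfl⟩ := hxy
    rcases pair_unique hw hp' hst' with ⟨rfl, rfl⟩ | ⟨rfl, rfl⟩
    · exact Or.inl ⟨rfl, rfl⟩
    · exact Or.inr ⟨rfl, rfl⟩
  refine master2 (fun i => prodR (brT (R i) (b i)) (brU r (R i) (b i)))
    (fun i => ⟨prodR_monic _ _, prodR_sep fun x _ y _ h => brU_inj hr _ _ h, ?_, two_ne_zero⟩)
    (fun i => ?_) ord hord N Q (fun i w hw => hw.1) (fun i w hw => ?_) (fun i j hij => ?_) τ hτ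
    (fun i => ?_)
  · rw [hdeg]
    exact (adm_card (hadm i)).1
  · rw [hdeg]
    have := (adm_card (hadm i)).2
    omega
  · obtain ⟨-, s, hs, t, ht, hst, hp⟩ := hw
    exact br_node hr hp hst hs ht _ ⟨s, hs, t, ht, hst, hp, rfl, rfl⟩
  · obtain ⟨s₀, hs₀, hb₀, hs₀'⟩ := hsep i j hij
    have hs₁ : s₀ ∈ brT (R i) (b i) := mem_brT.2 ⟨hs₀, hb₀⟩
    refine ⟨{w | w ∈ N i ∧ ∃ t ∈ brT (R i) (b i), t ≠ s₀ ∧ PairAt r w s₀ t}, fun w hw => hw.1,
      fun w hw => ?_, hconn i s₀ hs₁ _ fun t ht hts => ?_⟩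
    · obtain ⟨-, t, ht, hts, hp⟩ := hw
      exact br_good hr hp (hadm j) fun h => hs₀' h.1
    · obtain ⟨w, hp, h2, -⟩ := hpl s₀ t (Ne.symm hts)
      exact ⟨w, ⟨⟨h2, s₀, hs₁, t, ht, Ne.symm hts, hp⟩, t, ht, hts, hp⟩, hp⟩
  · obtain ⟨s₀, hs₁⟩ : (brT (R i) (b i)).Nonempty := by
      rw [← Finset.card_pos]
      have := (adm_card (hadm i)).2
      omega
    refine ⟨{w | w ∈ N i ∧ (n₁ : 𝓞 L) ∉ w.asIdeal}, fun w hw => hw.1, fun w hw => hun w hw.2,
      hconn i s₀ hs₁ _ fun t ht hts => ?_⟩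
    obtain ⟨w, hp, h2, h3⟩ := hpl s₀ t (Ne.symm hts)
    exact ⟨w, ⟨⟨h2, s₀, hs₁, t, ht, Ne.symm hts, hp⟩, h3⟩, hp⟩

end

end Pool.Agent.H852.J
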