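import Mathlib
import Pool.Agent.H852.J.W3

/-!
# The branch points of a random curve
-/

set_option linter.unusedSectionVars false
set_option autoImplicit false

open Polynomial Module NumberField IsDedekindDomain
open HeightOneSpectrum WithZero
open Pool.Agent.Results.MP_640417_ag.HyperellipticEveryPrime

namespace Pool.Agent.H852.J

noncomputable section

attribute [local instance] isAlgQ

/-- the condition of a node -/
def NodeS {n : ℕ} (n₀ : ℕ) (a : Fin (n + 1) → ℤ) : Prop :=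
  ∃ (p : ℕ) (_ : Fact p.Prime) (γ : ℤ), ¬ p ∣ n₀ ∧ ¬ (p : ℤ) ∣ a (Fin.last n) ∧
    LocN p (mkP (monA a)) γ

/-- a factorization at a place of degree one of `K` -/
def CertS {n : ℕ} (K : Type) [Field K] [NumberField K] (k : ℕ) (a : Fin (n + 1) → ℤ) : Prop :=
  ∃ (p : ℕ) (_ : Fact p.Prime) (_ : 𝓞 K →+* ZMod p) (r : Fin k → ZMod p)
    (Q : (ZMod p)[X]), CertT p (mkP (monA a)) k r Q

/-- the countably many conditions -/
def CondS (n : ℕ) : ℕ ⊕ (AlgebraicClosure ℚ × ℕ) → (Fin (n + 1) → ℤ) → Prop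
  | Sum.inl m => fun a => NodeS (m + 1) a
  | Sum.inr x => fun a => x.2 + 2 ≤ n → CertS (KA x.1) x.2 a

theorem exists_ES {n : ℕ} (hn : 3 ≤ n) :
    ∃ E : Set (Fin (n + 1) → ℤ), AlmostNone (fun a => a ∈ E) ∧
      ∀ x, {a | a ∉ E ∧ ¬ CondS n x a}.Finite := by
  classical
  refine diag (CondS n) fun x => ?_
  rcases x with m | x
  · exact almost_N hn (m + 1) (Nat.succ_pos _)
  · by_cases hκ : x.2 + 2 ≤ n
    · exact (almost_T (KA x.1) hκ).mono fun a ha h => ha fun _ => h
    · exact AlmostNone.false.mono fun a ha => ha fun h => absurd h hκ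

/-- **One exceptional set for all number fields.** -/
theorem single_all {n : ℕ} (hn : 3 ≤ n) :
    ∃ E : Set (Fin (n + 1) → ℤ), AlmostNone (fun a => a ∈ E) ∧
      ∀ (K : Type) [Field K] [NumberField K] (n₁ : ℕ), 0 < n₁ →
        {a | a ∉ E ∧ ¬ (CertS K 0 a ∧ CertS K 1 a ∧
          NodeS (2 * (NumberField.discr K).natAbs * n₁) a)}.Finite := by
  classical
  obtain ⟨E, hE, hE'⟩ := exists_ES hn
  refine ⟨E, hE, fun K _ _ n₁ hn₁ => ?_⟩
  obtain ⟨x, ⟨e⟩⟩ := exists_KA K
  have hdisc : 0 < (NumberField.discr K).natAbs :=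
    Int.natAbs_pos.2 (NumberField.discr_ne_zero K)
  set m : ℕ := 2 * (NumberField.discr K).natAbs * n₁ with hm
  have hm0 : m - 1 + 1 = m := by
    have : 0 < m := by positivity
    omega
  refine (((hE' (Sum.inl (m - 1))).union (hE' (Sum.inr (x, 0)))).union
    (hE' (Sum.inr (x, 1)))).subset ?_
  rintro a ⟨ha, hna⟩
  by_contra hcon
  rw [Set.mem_union, Set.mem_union, not_or, not_or] at hcon
  obtain ⟨⟨h1, h2⟩, h3⟩ := hcon
  apply hna
  have key : ∀ k, k + 2 ≤ n → ¬ (a ∈ {a | a ∉ E ∧ ¬ CondS n (Sum.inr (x, k)) a}) →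
      CertS K k a := by
    intro k hk h
    have h4 : CondS n (Sum.inr (x, k)) a := by
      by_contra h4
      exact h ⟨ha, h4⟩
    obtain ⟨p, hp, φ, r, Q, h5⟩ := h4 hk
    exact ⟨p, hp, φ.comp (RingOfIntegers.mapRingHom (e : K →+* KA x)), r, Q, h5⟩
  refine ⟨key 0 (by omega) h2, key 1 (by omega) h3, ?_⟩
  have h4 : CondS n (Sum.inl (m - 1)) a := by
    by_contra h4
    exact h1 ⟨ha, h4⟩
  have h5 : NodeS (m - 1 + 1) a := h4
  rwa [hm0] at h5

/-- **The places of the splitting field.** -/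
theorem pair_places {K : Type} [Field K] [NumberField K] {n : ℕ} (hn : 3 ≤ n)
    (a : Fin (n + 1) → ℤ) {n₁ : ℕ} (h0 : CertS K 0 a) (h1 : CertS K 1 a)
    (hN : NodeS (2 * (NumberField.discr K).natAbs * n₁) a)
    {L : Type} [Field L] [NumberField L] [Algebra K L] (r : Fin n → L)
    (hr : Function.Injective r) (hroot : ∀ i, evZ (r i) (polyA a) = 0)
    (htop : IntermediateField.adjoin K (Set.range r) = ⊤) (s t : Fin n) (hst : s ≠ t) :
    ∃ w : HeightOneSpectrum (𝓞 L), PairAt r w s t ∧ (2 : 𝓞 L) ∉ w.asIdeal ∧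
      (n₁ : 𝓞 L) ∉ w.asIdeal := by
  classical
  obtain ⟨p₀, hp₀, φ₀, r₀, Q₀, hc0⟩ := h0
  obtain ⟨p₁, hp₁, φ₁, r₁, Q₁, hc1⟩ := h1
  obtain ⟨p, hp, γ, hpn, hpc, hl⟩ := hN
  set F : ℤ[X] := mkP (monA a) with hF
  have hm : F.Monic := mkP_monic _
  have hd : F.natDegree = n := mkP_natDegree _
  have hsep := sep_of_cert (K := K) hm hc0
  have k1 : KT K F 1 := kt_step hm φ₀ hc0 kt_zero
  have k2 : KT K F 2 := kt_step hm φ₁ hc1 k1
  have hp2 : p ≠ 2 := by
    rintro rfl
    exact hpn (Dvd.dvd.mul_right (dvd_mul_right _ _) _)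
  obtain ⟨v, hv1, hv2, hv3⟩ := exists_unr_place K p hp.out (fun h => hpn
      (Dvd.dvd.mul_right (Dvd.dvd.mul_left (by
        have := Int.natAbs_dvd_natAbs.2 h
        simpa using this) _) _))
  have hv : PlaceP p v := ⟨hv1, hv2, hv3⟩
  set c : ℤ := a (Fin.last n) with hc
  have hc0' : c ≠ 0 := by
    intro h
    rw [h] at hpc
    exact hpc (dvd_zero _)
  have hcL : (c : L) ≠ 0 := by exact_mod_cast hc0'
  -- the roots of the monic polynomial
  let β : Fin n → L := fun i => (c : L) * r i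
  have hβ : ∀ i, evZ (β i) F = 0 := by
    intro i
    have h5 := evZ_monA (by omega) a (r i)
    rw [hroot i, mul_zero] at h5
    exact h5
  have hβi : Function.Injective β := fun i j h => hr (mul_left_cancel₀ hcL h)
  have hFL : F.map (Int.castRingHom L) ≠ 0 := (hm.map _).ne_zero
  have hsub : Finset.univ.image β ⊆ (F.map (Int.castRingHom L)).roots.toFinset := by
    intro x hx
    rw [Finset.mem_image] at hx
    obtain ⟨i, -, rfl⟩ := hx
    rw [Multiset.mem_toFinset, mem_roots hFL, IsRoot.def, ← evZ_eq_eval]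
    exact hβ i
  have hcard : (Finset.univ.image β).card = n := by
    rw [Finset.card_image_of_injective _ hβi, Finset.card_univ, Fintype.card_fin]
  have hle1 := Finset.card_le_card hsub
  have hle2 := Multiset.toFinset_card_le (F.map (Int.castRingHom L)).roots
  have hle3 := card_roots' (F.map (Int.castRingHom L))
  have hdL : (F.map (Int.castRingHom L)).natDegree = n := by rw [hm.natDegree_map, hd]
  have hspl : (F.map (Int.castRingHom L)).Splits := by
    rw [splits_iff_card_roots]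
    omega
  have hall : ∀ x : L, evZ x F = 0 → ∃ i, β i = x := by
    intro x hx
    have h5 : x ∈ (F.map (Int.castRingHom L)).roots.toFinset := by
      rw [Multiset.mem_toFinset, mem_roots hFL, IsRoot.def, ← evZ_eq_eval]
      exact hx
    rw [← Finset.eq_of_subset_of_card_le hsub (by omega), Finset.mem_image] at h5
    obtain ⟨i, -, hi⟩ := h5
    exact ⟨i, hi⟩
  have htop' : IntermediateField.adjoin K {x : L | evZ x F = 0} = ⊤ := by
    rw [eq_top_iff, ← htop, IntermediateField.adjoin_le_iff]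
    rintro _ ⟨i, rfl⟩
    have h5 : r i = (c : L)⁻¹ * β i := by
      change r i = (c : L)⁻¹ * ((c : L) * r i)
      rw [← mul_assoc, inv_mul_cancel₀ hcL, one_mul]
    rw [SetLike.mem_coe, h5]
    exact mul_mem (inv_mem (intCast_mem _ _)) (IntermediateField.subset_adjoin K _ (hβ i))
  obtain ⟨w, hw1, hw2, hw3, hw4⟩ := exists_pair_place hm hsep hp2 hl hv k2 hspl htop' (hβ s) (hβ t)
    (fun h => hst (hβi h))
  have hcw : w.valuation L (c : L) = 1 := by
    have h5 : algebraMap (𝓞 L) L (c : 𝓞 L) = (c : L) := map_intCast _ _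
    rw [← h5]
    refine le_antisymm (w.valuation_le_one _) (not_lt.1 fun h6 => hw1 c hpc ?_)
    exact (w.valuation_lt_one_iff_mem (K := L) _).1 h6
  have hdiff : ∀ i j, w.valuation L (r i - r j) = w.valuation L (β i - β j) := by
    intro i j
    have h5 : β i - β j = (c : L) * (r i - r j) := by
      change (c : L) * r i - (c : L) * r j = _
      ring
    rw [h5, map_mul, hcw, one_mul]
  refine ⟨w, ⟨fun x => ?_, ?_, ?_, fun x y hxy hn' => ?_⟩, ?_, ?_⟩
  · have h5 : w.valuation L (β x) = w.valuation L (r x) := by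
      change w.valuation L ((c : L) * r x) = _
      rw [map_mul, hcw, one_mul]
    rw [← h5]
    exact w.valuation_le_one (⟨β x, evZ_int_of hm (hβ x)⟩ : 𝓞 L)
  · rw [hdiff]
    exact hw2
  · rw [hdiff]
    exact hw3
  · rw [hdiff]
    refine hw4 _ _ (hβ x) (hβ y) (fun h => hxy (hβi h)) fun h => hn' ?_
    exact ⟨h.1.imp (fun h => hβi h) fun h => hβi h, h.2.imp (fun h => hβi h) fun h => hβi h⟩
  · have h2p : ¬ (p : ℤ) ∣ 2 := by
      intro h1
      have h3 : p ∣ 2 := by exact_mod_cast h1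
      exact hp2 ((Nat.prime_dvd_prime_iff_eq hp.out Nat.prime_two).1 h3)
    exact_mod_cast hw1 2 h2p
  · have h5 := hw1 n₁ (fun h => hpn (Dvd.dvd.mul_left (by exact_mod_cast h) _))
    exact_mod_cast h5

end

end Pool.Agent.H852.J
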