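import Mathlib
import Pool.Agent.H852.J.W4

/-!
# Covers with groups of exponent two, and all subsets through a base point
-/

set_option linter.unusedSectionVars false
set_option autoImplicit false

open Polynomial Module NumberField IsDedekindDomain
open HeightOneSpectrum WithZero
open Pool.Agent.Results.MP_640417_ag.HyperellipticEveryPrime

namespace Pool.Agent.H852.J

noncomputable section

/-- an enumeration with increasing numbers of elements -/
theorem ord_exists {ι : Type} [Fintype ι] (card : ι → ℕ) :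
    ∃ ord : ι → ℕ, Function.Injective ord ∧ ∀ i i', ord i' < ord i → card i' ≤ card i := by
  classical
  set N := Fintype.card ι with hN
  let e := Fintype.equivFin ι
  have he : ∀ i, ((e i : Fin (Fintype.card ι)) : ℕ) < N := fun i => (e i).2
  refine ⟨fun i => card i * N + e i, fun i j h => ?_, fun i i' h => ?_⟩
  · have h1 := he i
    have h2 := he j
    have hNpos : 0 < N := by omega
    have h3 : card i = card j := by
      have h4 : (card i * N + e i) / N = card i := by
        rw [Nat.mul_comm, Nat.mul_add_div hNpos, Nat.div_eq_of_lt h1, add_zero]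
      have h5 : (card j * N + e j) / N = card j := by
        rw [Nat.mul_comm, Nat.mul_add_div hNpos, Nat.div_eq_of_lt h2, add_zero]
      rw [← h4, ← h5]
      exact congrArg (· / N) h
    dsimp only at h
    rw [h3] at h
    exact e.injective (Fin.ext (Nat.add_left_cancel h))
  · by_contra hcon
    have h1 := he i
    have h2 : (card i + 1) * N ≤ card i' * N := Nat.mul_le_mul_right _ (by omega)
    have h3 : (card i + 1) * N = card i * N + N := by ring
    dsimp only at h
    omega

variable {L : Type} [Field L] [NumberField L] {A : Type} [DecidableEq A] [Fintype A]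

/-- **All subsets through a base point.** -/
theorem through_main {r : A → L} (hr : Function.Injective r) (b : Option A)
    (hne : ∃ R : Finset A, Adm R b) {n₁ : ℕ}
    (hpl : ∀ s t, s ≠ t → ∃ w : HeightOneSpectrum (𝓞 L), PairAt r w s t ∧ (2 : 𝓞 L) ∉ w.asIdeal ∧
      (n₁ : 𝓞 L) ∉ w.asIdeal)
    {d : ℕ} (τ : AbsoluteGaloisGroup L →* Matrix (Fin d) (Fin d) ℚ_[2]) (hτ : IsLattice τ)
    (hun : ∀ w : HeightOneSpectrum (𝓞 L), (n₁ : 𝓞 L) ∉ w.asIdeal → Unramified τ w) :
    EveryPrime (fun R : {R : Finset A // Adm R b} => prodR (brT R.1 b) (brU r R.1 b)) τ := by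
  classical
  have : Nonempty {R : Finset A // Adm R b} := by
    obtain ⟨R, hR⟩ := hne
    exact ⟨⟨R, hR⟩⟩
  obtain ⟨ord, hord, hcard⟩ := ord_exists (fun R : {R : Finset A // Adm R b} => R.1.card)
  refine branch_main hr ord hord (fun R => R.1) (fun _ => b) (fun R => R.2) (fun R R' hlt => ?_) hpl
    τ hτ hun
  have h1 := hcard R R' hlt
  have hRR : R'.1 ≠ R.1 := by
    intro h
    rw [Subtype.ext h] at hlt
    exact lt_irrefl _ hlt
  obtain ⟨s, hs, hs'⟩ : ∃ s ∈ R.1, s ∉ R'.1 := by
    by_contra hcon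
    push Not at hcon
    exact hRR (Finset.eq_of_subset_of_card_le hcon h1).symm
  refine ⟨s, hs, fun h => hs' ?_, hs'⟩
  have h2 : Adm R'.1 (some s) := h ▸ R'.2
  exact h2.1

/-- the union of the sets `S i`, `i ∈ I` -/
def unionS {k : ℕ} (S : Fin k → Finset A) (I : Finset (Fin k)) : Finset A := I.biUnion S

/-- **Covers of the line with a group of exponent two.** -/
theorem covers_main {r : A → L} (hr : Function.Injective r) {k : ℕ} (S : Fin k → Finset A)
    (hS : ∀ i j, i ≠ j → Disjoint (S i) (S j)) (h2 : ∀ i, 2 ≤ (S i).card)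
    (b : Finset (Fin k) → Option A)
    (hb : ∀ I : Finset (Fin k), 3 ≤ (unionS S I).card → Adm (unionS S I) (b I))
    (hne : ∃ I : Finset (Fin k), 3 ≤ (unionS S I).card) {n₁ : ℕ}
    (hpl : ∀ s t, s ≠ t → ∃ w : HeightOneSpectrum (𝓞 L), PairAt r w s t ∧ (2 : 𝓞 L) ∉ w.asIdeal ∧
      (n₁ : 𝓞 L) ∉ w.asIdeal)
    {d : ℕ} (τ : AbsoluteGaloisGroup L →* Matrix (Fin d) (Fin d) ℚ_[2]) (hτ : IsLattice τ)
    (hun : ∀ w : HeightOneSpectrum (𝓞 L), (n₁ : 𝓞 L) ∉ w.asIdeal → Unramified τ w) :
    EveryPrime (fun I : {I : Finset (Fin k) // 3 ≤ (unionS S I).card} =>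
      prodR (brT (unionS S I.1) (b I.1)) (brU r (unionS S I.1) (b I.1))) τ := by
  classical
  have : Nonempty {I : Finset (Fin k) // 3 ≤ (unionS S I).card} := by
    obtain ⟨I, hI⟩ := hne
    exact ⟨⟨I, hI⟩⟩
  obtain ⟨ord, hord, hcard⟩ := ord_exists
    (fun I : {I : Finset (Fin k) // 3 ≤ (unionS S I).card} => I.1.card)
  refine branch_main hr ord hord (fun I => unionS S I.1) (fun I => b I.1) (fun I => hb I.1 I.2)
    (fun I I' hlt => ?_) hpl τ hτ hun
  have h1 := hcard I I' hlt
  have hII : I'.1 ≠ I.1 := by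
    intro h
    rw [Subtype.ext h] at hlt
    exact lt_irrefl _ hlt
  obtain ⟨i, hi, hi'⟩ : ∃ i ∈ I.1, i ∉ I'.1 := by
    by_contra hcon
    push Not at hcon
    exact hII (Finset.eq_of_subset_of_card_le hcon h1).symm
  -- an element of `S i`, different from the base point
  obtain ⟨s, hs, hsb⟩ : ∃ s ∈ S i, b I.1 ≠ some s := by
    by_contra hcon
    push Not at hcon
    obtain ⟨x, hx, y, hy, hxy⟩ := Finset.one_lt_card.1 (lt_of_lt_of_le one_lt_two (h2 i))
    have h3 := (hcon x hx).symm.trans (hcon y hy)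
    exact hxy (Option.some_inj.1 h3)
  refine ⟨s, Finset.mem_biUnion.2 ⟨i, hi, hs⟩, hsb, fun h => ?_⟩
  obtain ⟨j, hj, hsj⟩ := Finset.mem_biUnion.1 h
  have hij : i ≠ j := by
    rintro rfl
    exact hi' hj
  exact (Finset.disjoint_left.1 (hS i j hij)) hs hsj

end

end Pool.Agent.H852.J
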