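import Mathlib
import Pool.Agent.H852.J.W5

/-!
# Even clusters of rational branch points
-/

set_option linter.unusedSectionVars false
set_option autoImplicit false

open Polynomial Module NumberField IsDedekindDomain
open HeightOneSpectrum WithZero
open Pool.Agent.Y142.ZO (GK)
open Pool.Agent.Results.MP_640417_ag.HyperellipticEveryPrime
open Pool.Agent.N171 Pool.Agent.N171.Al Pool.Agent.N171.Pm Pool.Agent.N171.Bg Pool.Agent.N171.TG

namespace Pool.Agent.H852.J

noncomputable section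

variable {L : Type} [Field L] [NumberField L] {A : Type} [DecidableEq A]

/-- the branch points -/
def brPt (T : Finset A) (u : A → L) (x : {x // x ∈ T}) : AlgebraicClosure L :=
  algebraMap L (AlgebraicClosure L) (u x)

/-- the differences of the points `u i`, `i ∈ T`, have odd valuation exactly in the set `I` -/
def OddIn (w : HeightOneSpectrum (𝓞 L)) (T : Finset A) (u : A → L) (I : Finset {x // x ∈ T}) :
    Prop :=
  ∀ x y : {x // x ∈ T}, x ≠ y → (Odd (log (w.valuation L (u x - u y))) ↔ (x ∈ I ∧ y ∈ I))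

/-- an element of the Galois group from a place -/
theorem elt_of_place {B : Type*} [Ring B] [Algebra ℤ_[2] B] {w : HeightOneSpectrum (𝓞 L)}
    (h2 : (2 : 𝓞 L) ∉ w.asIdeal)
    {t : (AlgebraicClosure L ≃ₐ[L] AlgebraicClosure L) →* B} (ht : UnramifiedModFour w t)
    {T T' : Finset A} {u u' : A → L} (hu : Function.Injective u) (hu' : Function.Injective u')
    [DecidableEq {x // x ∈ T}] [DecidableEq {x // x ∈ T'}]
    {I : Finset {x // x ∈ T}} (h : OddIn w T u I) (h' : OddIn w T' u' ∅) :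
    ∃ σ : AlgebraicClosure L ≃ₐ[L] AlgebraicClosure L, SignsOn (brPt T u) σ I ∧
      SignsOn (brPt T' u') σ ∅ ∧
      (∃ z, ((cyc L (AlgebraicClosure L) σ : ℤ_[2]ˣ) : ℤ_[2]) = 1 + 8 * z) ∧
      ∃ Y, t σ = 1 + (4 : ℤ_[2]) • Y := by
  classical
  have h2F : (2 : AlgebraicClosure L) ≠ 0 := two_ne_zero
  obtain ⟨N, hN1, hN2, hN3, hN4⟩ := ht
  obtain ⟨P, hP⟩ := exists_place_above (M := N) w
  have hg : IsGalois L N := ⟨⟩
  have hval : ∀ x : L, P.valuation N (algebraMap L N x) = w.valuation L x := fun x =>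
    val_eq_of_trivial w P (fun s hs => inertia_trivial_of_ram w P hN3 s hs) x
  let d₀ : L → Nˣ := fun x => if hx : algebraMap L N x = 0 then 1 else Units.mk0 _ hx
  have hd₀ : ∀ x : L, x ≠ 0 → ((d₀ x : N)) = algebraMap L N x := by
    intro x hx
    have hx' : ¬ algebraMap L N x = 0 := fun h => hx ((map_eq_zero _).1 h)
    change ((if hx : algebraMap L N x = 0 then (1 : Nˣ) else Units.mk0 _ hx : Nˣ) : N) = _
    rw [dif_neg hx']
    rfl
  have hpar1 : ∀ x : L, x ≠ 0 → Odd (log (w.valuation L x)) →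
      par (P.valuation N) (d₀ x) = -1 := by
    intro x hx ho
    refine par_of_odd _ _ ?_
    rw [hd₀ x hx, hval]
    exact ho
  have hpar2 : ∀ x : L, x ≠ 0 → ¬ Odd (log (w.valuation L x)) →
      par (P.valuation N) (d₀ x) = 1 := by
    intro x hx ho
    change (-1 : ℤˣ) ^ (log (P.valuation N (d₀ x : N))) = 1
    rw [hd₀ x hx, hval]
    exact (Int.not_odd_iff_even.1 ho).neg_one_zpow
  let d : ({x // x ∈ T} × {x // x ∈ T}) ⊕ ({x // x ∈ T'} × {x // x ∈ T'}) → Nˣ := fun p =>
    match p with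
    | Sum.inl p => d₀ (u p.1 - u p.2)
    | Sum.inr p => d₀ (u' p.1 - u' p.2)
  obtain ⟨σ, h4, h5, h6⟩ := exists_sigma_M (K := L) (F := AlgebraicClosure L) h2F N
    (par (P.valuation N)) (par_neg_one _) (fun x hx => par_of_one _ _ (by
      rw [hx]
      exact val_up_two w P h2)) d
  have hd : ∀ x : L, x ≠ 0 → (((d₀ x : N)) : AlgebraicClosure L) =
      algebraMap L (AlgebraicClosure L) x := by
    intro x hx
    rw [hd₀ x hx]
    rfl
  refine ⟨σ, ⟨fun x => σ.commutes _, fun x y hxy z hz => ?_⟩, ⟨fun x => σ.commutes _,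
    fun x y hxy z hz => ?_⟩, h6, hN4 σ h4⟩
  · have hne : u x - u y ≠ 0 := sub_ne_zero.2 fun h => hxy (Subtype.ext (hu h))
    have h7 := h5 (Sum.inl (x, y)) z (by
      rw [hz]
      change _ = ((d₀ (u x - u y) : N) : AlgebraicClosure L)
      rw [hd _ hne, map_sub]
      rfl)
    rw [h7]
    change ((par (P.valuation N) (d₀ (u x - u y)) : ℤ) : AlgebraicClosure L) * z = _
    by_cases h8 : x ∈ I ∧ y ∈ I
    · rw [if_pos h8, hpar1 _ hne ((h x y hxy).2 h8)]
      simp
    · rw [if_neg h8, hpar2 _ hne fun h9 => h8 ((h x y hxy).1 h9)]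
      simp
  · have hne : u' x - u' y ≠ 0 := sub_ne_zero.2 fun h => hxy (Subtype.ext (hu' h))
    have h7 := h5 (Sum.inr (x, y)) z (by
      rw [hz]
      change _ = ((d₀ (u' x - u' y) : N) : AlgebraicClosure L)
      rw [hd _ hne, map_sub]
      rfl)
    rw [h7]
    change ((par (P.valuation N) (d₀ (u' x - u' y)) : ℤ) : AlgebraicClosure L) * z = _
    by_cases h8 : x ∈ (∅ : Finset {x // x ∈ T'}) ∧ y ∈ (∅ : Finset {x // x ∈ T'})
    · exact absurd h8.1 (Finset.notMem_empty x)
    · rw [if_neg h8, hpar2 _ hne fun h9 => h8 ((h' x y hxy).1 h9)]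
      simp

/-- clusters at places with the property `W` which generate -/
def ClGen (T : Finset A) (u : A → L) (W : HeightOneSpectrum (𝓞 L) → Prop) : Prop :=
  ∃ (κ : Type) (I : κ → Finset {x // x ∈ T}), GenSets I ∧
    ∀ k, ∃ w, (2 : 𝓞 L) ∉ w.asIdeal ∧ W w ∧ OddIn w T u (I k)

/-- **The criterion for clusters of rational branch points.** -/
theorem master3 {ι : Type} [Fintype ι] [Nonempty ι] (T : ι → Finset A) (u : ι → A → L)
    (hu : ∀ i, Function.Injective (u i)) (hodd : ∀ i, Odd (T i).card) (h3 : ∀ i, 3 ≤ (T i).card)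
    (ord : ι → ℕ) (hord : Function.Injective ord)
    (hsep : ∀ i j, ord j < ord i → ClGen (T i) (u i) fun w => OddIn w (T j) (u j) ∅)
    {d : ℕ} (τ : AbsoluteGaloisGroup L →* Matrix (Fin d) (Fin d) ℚ_[2]) (hτ : IsLattice τ)
    (hun : ∀ i, ClGen (T i) (u i) fun w => Unramified τ w) :
    EveryPrime (fun i => prodR (T i) (u i)) τ := by
  classical
  obtain ⟨t, htl⟩ := exists_lat τ hτ.2
  have h2F : (2 : AlgebraicClosure L) ≠ 0 := two_ne_zero
  have hyp : ∀ i, Hyp (brPt (T i) (u i)) := fun i =>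
    { inj := fun x y hxy => Subtype.ext (hu i ((algebraMap L (AlgebraicClosure L)).injective hxy))
      odd := by
        rw [Fintype.card_coe]
        exact hodd i
      two := h2F }
  have hf : ∀ i, HypP (prodR (T i) (u i)) := fun i =>
    ⟨prodR_monic _ _, prodR_sep fun x _ y _ h => hu i h, by rw [prodR_deg]; exact hodd i,
      two_ne_zero⟩
  have hα : ∀ i, (prodR (T i) (u i)).map (algebraMap L (AlgebraicClosure L)) =
      fP (brPt (T i) (u i)) := by
    intro i
    rw [prodR, fP, Polynomial.map_prod]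
    simp only [Polynomial.map_sub, map_X, map_C]
    exact (Finset.prod_coe_sort (T i) fun x => (X : (AlgebraicClosure L)[X]) -
      C (algebraMap L (AlgebraicClosure L) (u i x))).symm
  refine everyPrime_of_tan _ hf (fun i => brPt (T i) (u i)) hα (fun i => ?_) t τ hτ.1 htl ?_
  · rw [Fintype.card_coe]
    have := h3 i
    omega
  intro h2' _ hg X hX
  have hone : ∀ w : HeightOneSpectrum (𝓞 L),
      UnramifiedModFour w (1 : (AlgebraicClosure L ≃ₐ[L] AlgebraicClosure L) →*
        Matrix (Fin d) (Fin d) ℤ_[2]) := fun w =>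
    unramified_lat (unramified_one d w) (isLatOf_one d)
  have hemp : ∀ (i : ι) (w : HeightOneSpectrum (𝓞 L)), OddIn w (∅ : Finset A) (u i) ∅ :=
    fun i w x => absurd x.2 (Finset.notMem_empty _)
  refine tan_pairs (fun i => brPt (T i) (u i)) hg t h2' ord hord (fun i j h => ?_) (fun i => ?_) hX
  · obtain ⟨κ, I, hI, hw⟩ := hsep i j h
    choose w hw2 hwW hwI using hw
    choose σ hσ hσj hχ _ using fun k => elt_of_place (hw2 k) (hone (w k)) (hu i) (hu j) (hwI k)
      (hwW k)
    exact ⟨κ, I, σ, hI, hσ, hχ, hσj⟩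
  · obtain ⟨κ, I, hI, hw⟩ := hun i
    choose w hw2 hwW hwI using hw
    choose σ hσ _ hχ ht using fun k => elt_of_place (hw2 k) (unramified_lat (hwW k) htl) (hu i)
      (hu i) (hwI k) (hemp i (w k))
    exact ⟨κ, I, σ, hI, hσ, hχ, ht⟩

end

end Pool.Agent.H852.J
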