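import Mathlib
import Pool.Agent.H852.J.V1

/-!
# All subsets of the branch points
-/

set_option linter.unusedSectionVars false
set_option autoImplicit false

open Polynomial Module NumberField IsDedekindDomain
open HeightOneSpectrum WithZero
open Pool.Agent.Results.MP_640417_ag.HyperellipticEveryPrime
open Pool.Agent.N171 Pool.Agent.N171.Al Pool.Agent.N171.Pm Pool.Agent.N171.Bg Pool.Agent.N171.TG

namespace Pool.Agent.H852.J

noncomputable section

section sets

variable {τ : Type} [Fintype τ] [DecidableEq τ]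

/-- the complements of the points -/
theorem genSets_erase (ho : Odd (Fintype.card τ)) :
    GenSets (fun a : τ => (Finset.univ : Finset τ).erase a) := by
  have hcard : ∀ a : τ, ((Finset.univ : Finset τ).erase a).card = Fintype.card τ - 1 := fun a => by
    rw [Finset.card_erase_of_mem (Finset.mem_univ a), Finset.card_univ]
  refine ⟨fun a => ?_, fun i j hij => ?_, fun a b => ?_⟩
  · rw [hcard]
    obtain ⟨m, hm⟩ := ho
    exact ⟨m, by omega⟩
  · have h1 : ind ({i, j} : Finset τ) = ind ((Finset.univ : Finset τ).erase i) +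
        ind ((Finset.univ : Finset τ).erase j) := by
      funext l
      rw [Pi.add_apply]
      unfold ind
      by_cases hi : l = i
      · subst hi
        simp [hij]
      · by_cases hj : l = j
        · subst hj
          simp [hi]
        · simp only [Finset.mem_insert, Finset.mem_singleton, hi, hj, or_self, if_false,
            Finset.mem_erase, ne_eq, not_false_eq_true, Finset.mem_univ, and_self, if_true]
          rfl
    rw [h1]
    exact AddSubgroup.add_mem _ (AddSubgroup.subset_closure ⟨i, rfl⟩)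
      (AddSubgroup.subset_closure ⟨j, rfl⟩)
  · by_cases hab : a = b
    · rw [hab]
    · refine Relation.ReflTransGen.single ?_
      have h1 : (Finset.univ : Finset τ).erase a ∩ (Finset.univ : Finset τ).erase b =
          ((Finset.univ : Finset τ).erase a).erase b := by
        ext x
        simp only [Finset.mem_inter, Finset.mem_erase, Finset.mem_univ, and_true]
        tauto
      have h2 : 2 ≤ Fintype.card τ := by
        rw [← Finset.card_univ, ← Finset.card_pair hab]
        exact Finset.card_le_card (Finset.subset_univ _)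
      rw [h1, Finset.card_erase_of_mem (Finset.mem_erase.2 ⟨Ne.symm hab, Finset.mem_univ b⟩), hcard]
      obtain ⟨m, hm⟩ := ho
      exact ⟨m - 1, by omega⟩

/-- the star -/
theorem genSets_star' (s : τ) (h3 : 2 < Fintype.card τ) :
    GenSets (fun a : {a : τ // a ≠ s} => ({s, (a : τ)} : Finset τ)) := by
  refine genSets_of_graph (fun _ => s) (fun a : {a : τ // a ≠ s} => (a : τ)) (fun a => Ne.symm a.2)
    h3 fun x y => ?_
  have h1 : ∀ z : τ, Relation.ReflTransGen (Edge (fun _ : {a : τ // a ≠ s} => s)
      (fun a : {a : τ // a ≠ s} => (a : τ))) z s := by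
    intro z
    by_cases hz : z = s
    · rw [hz]
    · exact Relation.ReflTransGen.single ⟨⟨z, hz⟩, Or.inr ⟨rfl, rfl⟩⟩
  have h2 : ∀ z : τ, Relation.ReflTransGen (Edge (fun _ : {a : τ // a ≠ s} => s)
      (fun a : {a : τ // a ≠ s} => (a : τ))) s z := by
    intro z
    by_cases hz : z = s
    · rw [hz]
    · exact Relation.ReflTransGen.single ⟨⟨z, hz⟩, Or.inl ⟨rfl, rfl⟩⟩
  exact (h1 x).trans (h2 y)

end sets

variable {L : Type} [Field L] [NumberField L] {A : Type} [DecidableEq A]

theorem not_odd_log_one : ¬ Odd (log (1 : ℤᵐ⁰)) := by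
  rw [log_one]
  decide

theorem oddIn_of_units {w : HeightOneSpectrum (𝓞 L)} {T : Finset A} {u : A → L}
    (h : ∀ x ∈ T, ∀ y ∈ T, x ≠ y → w.valuation L (u x - u y) = 1) : OddIn w T u ∅ := by
  intro x y hxy
  rw [h x x.2 y y.2 fun h' => hxy (Subtype.ext h')]
  exact ⟨fun h => absurd h not_odd_log_one, fun h => absurd h.1 (Finset.notMem_empty x)⟩

/-- exactly the two points `r s`, `r t` collide at `w`, with odd multiplicity -/
structure Collide (r : A → L) (w : HeightOneSpectrum (𝓞 L)) (s t : A) : Prop where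
  odd : Odd (log (w.valuation L (r s - r t)))
  unit : ∀ x y, x ≠ y → ¬ ((x = s ∨ x = t) ∧ (y = s ∨ y = t)) → w.valuation L (r x - r y) = 1

theorem PairAt.collide {r : A → L} {w : HeightOneSpectrum (𝓞 L)} {s t : A} (h : PairAt r w s t) :
    Collide r w s t := ⟨h.odd, h.unit⟩

theorem inj_of_collide {r : A → L}
    (h : ∀ s t, s ≠ t → ∃ w : HeightOneSpectrum (𝓞 L), Collide r w s t) :
    Function.Injective r := by
  intro s t hst
  by_contra hne
  obtain ⟨w, hw⟩ := h s t hne
  have h1 := hw.odd
  rw [hst, sub_self, map_zero, log_zero] at h1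
  exact absurd h1 (by decide)

/-- the valuations of the differences of the roots of the model -/
theorem br_diff {r : A → L} (hr : Function.Injective r) {w : HeightOneSpectrum (𝓞 L)}
    (R : Finset A) (b : Option A)
    (hb : ∀ j, b = some j → ∀ i ∈ R, i ≠ j → w.valuation L (r i - r j) = 1) :
    ∀ i ∈ brT R b, ∀ k ∈ brT R b, w.valuation L (brU r R b i - brU r R b k) =
        w.valuation L (r i - r k) := by
  cases b with
  | none => exact fun _ _ _ _ => rfl
  | some j =>
    have h1 : ∀ i ∈ R.erase j, w.valuation L (r i - r j) = 1 := fun i hi =>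
      hb j rfl i (Finset.mem_of_mem_erase hi) (Finset.ne_of_mem_erase hi)
    have h0 : ∀ i ∈ R.erase j, r i - r j ≠ 0 := fun i hi =>
      sub_ne_zero.2 fun h => (Finset.ne_of_mem_erase hi) (hr h)
    have hD : w.valuation L (brD r R j) = 1 := by
      rw [brD, map_prod]
      refine Finset.prod_eq_one fun k hk => ?_
      rw [Valuation.map_sub_swap]
      exact h1 k hk
    intro i hi k hk
    change w.valuation L (brD r R j / (r i - r j) - brD r R j / (r k - r j)) = _
    have h2 : brD r R j / (r i - r j) - brD r R j / (r k - r j) =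
        brD r R j * (r k - r i) / ((r i - r j) * (r k - r j)) := by
      have h3 := h0 i hi
      have h4 := h0 k hk
      field_simp
      ring
    rw [h2, map_div₀, map_mul, map_mul, hD, h1 i hi, h1 k hk, one_mul, one_mul, div_one,
      Valuation.map_sub_swap]

/-- good reduction if not both of the colliding points are branch points -/
theorem br_good' {r : A → L} (hr : Function.Injective r) {w : HeightOneSpectrum (𝓞 L)} {s t : A}
    (h : Collide r w s t) {R : Finset A} {b : Option A} (hadm : Adm R b)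
    (hst : ¬ (s ∈ R ∧ t ∈ R)) : OddIn w (brT R b) (brU r R b) ∅ := by
  have h1 : ∀ x ∈ R, ∀ y ∈ R, x ≠ y → w.valuation L (r x - r y) = 1 := by
    intro x hx y hy hxy
    refine h.unit x y hxy fun h2 => hst ?_
    rcases h2 with ⟨rfl | rfl, rfl | rfl⟩
    · exact absurd rfl hxy
    · exact ⟨hx, hy⟩
    · exact ⟨hy, hx⟩
    · exact absurd rfl hxy
  have h3 := br_diff hr (w := w) R b (fun j hj i hi hij => by
    subst hj
    exact h1 i hi j hadm.1 hij)
  refine oddIn_of_units fun i hi k hk hik => ?_
  rw [h3 i hi k hk]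
  exact h1 i (brT_sub _ _ hi) k (brT_sub _ _ hk) hik

/-- a pair of branch points, both different from the base point -/
theorem br_pair {r : A → L} (hr : Function.Injective r) {w : HeightOneSpectrum (𝓞 L)}
    {R : Finset A} {b : Option A} {s t : {x // x ∈ brT R b}} (h : Collide r w s t) (hst : s ≠ t) :
    OddIn w (brT R b) (brU r R b) {s, t} := by
  have hs := s.2
  have ht := t.2
  have h3 := br_diff hr (w := w) R b (fun j hj i hi hij => by
    refine h.unit i j hij fun h4 => ?_
    rw [mem_brT] at hs ht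
    rcases h4.2 with rfl | rfl
    · exact hs.2 hj
    · exact ht.2 hj)
  intro x y hxy
  rw [h3 x x.2 y y.2]
  have hxy' : (x : A) ≠ y := fun h' => hxy (Subtype.ext h')
  by_cases h4 : ((x : A) = s ∨ (x : A) = t) ∧ ((y : A) = s ∨ (y : A) = t)
  · refine ⟨fun _ => ?_, fun _ => ?_⟩
    · rw [Finset.mem_insert, Finset.mem_singleton, Finset.mem_insert, Finset.mem_singleton]
      exact ⟨h4.1.imp Subtype.ext Subtype.ext, h4.2.imp Subtype.ext Subtype.ext⟩
    · rcases h4 with ⟨h5 | h5, h6 | h6⟩
      · exact absurd (h5.trans h6.symm) hxy'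
      · rw [h5, h6]
        exact h.odd
      · rw [h5, h6, Valuation.map_sub_swap]
        exact h.odd
      · exact absurd (h5.trans h6.symm) hxy'
  · rw [h.unit x y hxy' h4]
    refine ⟨fun h => absurd h not_odd_log_one, fun h5 => absurd ?_ h4⟩
    rw [Finset.mem_insert, Finset.mem_singleton, Finset.mem_insert, Finset.mem_singleton] at h5
    exact ⟨h5.1.imp (fun h => by rw [h]) (fun h => by rw [h]),
      h5.2.imp (fun h => by rw [h]) (fun h => by rw [h])⟩

/-- a pair of branch points which contains the base point: an even cluster -/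
theorem br_base {r : A → L} (hr : Function.Injective r) {w : HeightOneSpectrum (𝓞 L)}
    {R : Finset A} {j : A} {a : {x // x ∈ brT R (some j)}} (h : Collide r w j a) :
    OddIn w (brT R (some j)) (brU r R (some j)) (Finset.univ.erase a) := by
  have hmem : ∀ x : {x // x ∈ brT R (some j)}, (x : A) ∈ R ∧ (x : A) ≠ j := fun x =>
    ⟨Finset.mem_of_mem_erase x.2, Finset.ne_of_mem_erase x.2⟩
  have hne : ∀ x : {x // x ∈ brT R (some j)}, r x - r j ≠ 0 := fun x =>
    sub_ne_zero.2 fun h => (hmem x).2 (hr h)
  have hunit : ∀ x : {x // x ∈ brT R (some j)}, x ≠ a → w.valuation L (r x - r j) = 1 := by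
    intro x hx
    refine h.unit x j (hmem x).2 fun h1 => ?_
    rcases h1.1 with h2 | h2
    · exact (hmem x).2 h2
    · exact hx (Subtype.ext h2)
  have hD : w.valuation L (brD r R j) = w.valuation L (r j - r a) := by
    have ha : (a : A) ∈ R.erase j := a.2
    rw [brD, ← Finset.mul_prod_erase _ _ ha, map_mul, map_prod, Finset.prod_eq_one, mul_one]
    intro k hk
    rw [Valuation.map_sub_swap]
    exact hunit ⟨k, Finset.mem_of_mem_erase hk⟩ fun h1 =>
      (Finset.ne_of_mem_erase hk) (congrArg Subtype.val h1)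
  have hform : ∀ x y : {x // x ∈ brT R (some j)}, w.valuation L (brU r R (some j) x -
      brU r R (some j) y) = w.valuation L (r j - r a) * w.valuation L (r y - r x) /
        (w.valuation L (r x - r j) * w.valuation L (r y - r j)) := by
    intro x y
    have h2 : brU r R (some j) x - brU r R (some j) y =
        brD r R j * (r y - r x) / ((r x - r j) * (r y - r j)) := by
      have h3 := hne x
      have h4 := hne y
      change brD r R j / (r x - r j) - brD r R j / (r y - r j) = _
      field_simp
      ring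
    rw [h2, map_div₀, map_mul, map_mul, hD]
  have hyx : ∀ x y : {x // x ∈ brT R (some j)}, x ≠ y → w.valuation L (r y - r x) = 1 := by
    intro x y hxy
    refine h.unit y x (fun h1 => hxy (Subtype.ext h1).symm) fun h1 => ?_
    have h2 : (y : A) = a := h1.1.resolve_left (hmem y).2
    have h3 : (x : A) = a := h1.2.resolve_left (hmem x).2
    exact hxy (Subtype.ext (h3.trans h2.symm))
  have h0 : w.valuation L (r j - r a) ≠ 0 := by
    intro h1
    have h2 := h.odd
    rw [h1, log_zero] at h2
    exact absurd h2 (by decide)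
  have hmem2 : ∀ x : {x // x ∈ brT R (some j)},
      x ∈ (Finset.univ : Finset {x // x ∈ brT R (some j)}).erase a ↔ x ≠ a := fun x => by
    rw [Finset.mem_erase]
    exact and_iff_left (Finset.mem_univ x)
  intro x y hxy
  rw [hform, hyx x y hxy, mul_one, hmem2, hmem2]
  by_cases hx : x = a
  · have hy : y ≠ a := fun h1 => hxy (hx.trans h1.symm)
    rw [hx, hunit y hy, mul_one, Valuation.map_sub_swap _ (r a) (r j), div_self h0]
    exact ⟨fun h => absurd h not_odd_log_one, fun h => absurd rfl h.1⟩
  · by_cases hy : y = a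
    · rw [hy, hunit x hx, one_mul, Valuation.map_sub_swap _ (r a) (r j), div_self h0]
      exact ⟨fun h => absurd h not_odd_log_one, fun h => absurd rfl h.2⟩
    · rw [hunit x hx, hunit y hy, mul_one, div_one]
      exact ⟨fun _ => ⟨hx, hy⟩, fun _ => h.odd⟩

/-- **The Tate conjecture for the curves branched at subsets, general form.** -/
theorem branch_all {r : A → L} {ι : Type} [Fintype ι] [Nonempty ι]
    (ord : ι → ℕ) (hord : Function.Injective ord) (R : ι → Finset A) (b : ι → Option A)
    (hadm : ∀ i, Adm (R i) (b i)) (hsep : ∀ i i', ord i' < ord i → ∃ s ∈ R i, s ∉ R i') {n₁ : ℕ}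
    (hpl : ∀ s t, s ≠ t → ∃ w : HeightOneSpectrum (𝓞 L), Collide r w s t ∧ (2 : 𝓞 L) ∉ w.asIdeal ∧
      (n₁ : 𝓞 L) ∉ w.asIdeal)
    {d : ℕ} (τ : AbsoluteGaloisGroup L →* Matrix (Fin d) (Fin d) ℚ_[2]) (hτ : IsLattice τ)
    (hun : ∀ w : HeightOneSpectrum (𝓞 L), (n₁ : 𝓞 L) ∉ w.asIdeal → Unramified τ w) :
    EveryPrime (fun i => prodR (brT (R i) (b i)) (brU r (R i) (b i))) τ := by
  classical
  have hr : Function.Injective r := inj_of_collide fun s t hst => by
    obtain ⟨w, hw, -⟩ := hpl s t hst
    exact ⟨w, hw⟩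
  have hcard : ∀ i, 2 < Fintype.card {x // x ∈ brT (R i) (b i)} := by
    intro i
    rw [Fintype.card_coe]
    exact (adm_card (hadm i)).2
  refine master3 (fun i => brT (R i) (b i)) (fun i => brU r (R i) (b i))
    (fun i => brU_inj hr _ _) (fun i => (adm_card (hadm i)).1) (fun i => (adm_card (hadm i)).2)
    ord hord (fun i i' hlt => ?_) τ hτ (fun i => ?_)
  · obtain ⟨s, hs, hs'⟩ := hsep i i' hlt
    by_cases hb : b i = some s
    · rw [hb]
      refine ⟨{x // x ∈ brT (R i) (some s)}, fun a => Finset.univ.erase a,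
        genSets_erase ?_, fun a => ?_⟩
      · have h1 := (adm_card (hadm i)).1
        rw [hb] at h1
        rwa [Fintype.card_coe]
      · have hne : s ≠ a := fun h => (Finset.ne_of_mem_erase a.2) h.symm
        obtain ⟨w, hw, h2, -⟩ := hpl s a hne
        exact ⟨w, h2, br_good' hr hw (hadm i') fun h => hs' h.1, br_base hr hw⟩
    · let s₀ : {x // x ∈ brT (R i) (b i)} := ⟨s, mem_brT.2 ⟨hs, hb⟩⟩
      refine ⟨{a : {x // x ∈ brT (R i) (b i)} // a ≠ s₀}, fun a => {s₀, (a : {x // x ∈ brT (R i) (b i)})},
        genSets_star' s₀ (hcard i), fun a => ?_⟩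
      have hne : s ≠ (a : {x // x ∈ brT (R i) (b i)}) := fun h => a.2 (Subtype.ext h.symm)
      obtain ⟨w, hw, h2, -⟩ := hpl s _ hne
      exact ⟨w, h2, br_good' hr hw (hadm i') fun h => hs' h.1,
        br_pair (s := s₀) hr hw (Ne.symm a.2)⟩
  · obtain ⟨s, hs⟩ : (brT (R i) (b i)).Nonempty := by
      rw [← Finset.card_pos]
      have := (adm_card (hadm i)).2
      omega
    let s₀ : {x // x ∈ brT (R i) (b i)} := ⟨s, hs⟩
    refine ⟨{a : {x // x ∈ brT (R i) (b i)} // a ≠ s₀}, fun a => {s₀, (a : {x // x ∈ brT (R i) (b i)})},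
      genSets_star' s₀ (hcard i), fun a => ?_⟩
    have hne : s ≠ (a : {x // x ∈ brT (R i) (b i)}) := fun h => a.2 (Subtype.ext h.symm)
    obtain ⟨w, hw, h2, h3⟩ := hpl s _ hne
    exact ⟨w, h2, hun w h3, br_pair (s := s₀) hr hw (Ne.symm a.2)⟩

/-- **All subsets.** -/
theorem all_subsets [Fintype A] {r : A → L} (hA : 3 ≤ Fintype.card A)
    (b : Finset A → Option A) (hb : ∀ R : Finset A, 3 ≤ R.card → Adm R (b R)) {n₁ : ℕ}
    (hpl : ∀ s t, s ≠ t → ∃ w : HeightOneSpectrum (𝓞 L), Collide r w s t ∧ (2 : 𝓞 L) ∉ w.asIdeal ∧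
      (n₁ : 𝓞 L) ∉ w.asIdeal)
    {d : ℕ} (τ : AbsoluteGaloisGroup L →* Matrix (Fin d) (Fin d) ℚ_[2]) (hτ : IsLattice τ)
    (hun : ∀ w : HeightOneSpectrum (𝓞 L), (n₁ : 𝓞 L) ∉ w.asIdeal → Unramified τ w) :
    EveryPrime (fun R : {R : Finset A // 3 ≤ R.card} =>
      prodR (brT R.1 (b R.1)) (brU r R.1 (b R.1))) τ := by
  classical
  have : Nonempty {R : Finset A // 3 ≤ R.card} := ⟨⟨Finset.univ, by rwa [Finset.card_univ]⟩⟩
  obtain ⟨ord, hord, hcard⟩ := ord_exists (fun R : {R : Finset A // 3 ≤ R.card} => R.1.card)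
  refine branch_all ord hord (fun R => R.1) (fun R => b R.1) (fun R => hb R.1 R.2)
    (fun R R' hlt => ?_) hpl τ hτ hun
  by_contra hcon
  push Not at hcon
  have h1 := Finset.eq_of_subset_of_card_le hcon (hcard R R' hlt)
  rw [Subtype.ext h1] at hlt
  exact lt_irrefl _ hlt

end

end Pool.Agent.H852.J
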