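import Mathlib
import Pool.Agent.H852.J.V2

/-!
# Random integral branch points
-/

set_option linter.unusedSectionVars false
set_option autoImplicit false

open Polynomial Finset NumberField IsDedekindDomain
open HeightOneSpectrum WithZero
open Pool.Agent.Results.MP_640417_ag.HyperellipticEveryPrime

namespace Pool.Agent.H852.J

noncomputable section

/-- the condition for a pair of integral points -/
def PtNode {n : ℕ} (n₀ : ℕ) (s t : Fin n) (x : Fin n → ℤ) : Prop :=
  ∃ (p : ℕ) (_ : Fact p.Prime), ¬ p ∣ n₀ ∧ (∃ m : ℤ, x s - x t = p * m ∧ ¬ (p : ℤ) ∣ m) ∧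
    ∀ i j, i ≠ j → ¬ ((i = s ∨ i = t) ∧ (j = s ∨ j = t)) → ¬ (p : ℤ) ∣ x i - x j

section count

variable {p : ℕ} [Fact p.Prime] {n : ℕ}

/-- the event modulo `p ^ 2` -/
def EvP (s t : Fin n) (y : Fin n → ZMod (p ^ 2)) : Prop :=
  (∃ u : ZMod p, u ≠ 0 ∧ y s - y t = ((p * u.val : ℕ) : ZMod (p ^ 2))) ∧
    ∀ i j, i ≠ j → ¬ ((i = s ∨ i = t) ∧ (j = s ∨ j = t)) → rdH p (y i - y j) ≠ 0

open Classical in
theorem evP_count [NeZero (p ^ 2)] {s t : Fin n} (hst : s ≠ t) (hp : 2 * n ≤ p) :
    (p ^ 2) ^ n ≤ (2 ^ (n + 1) * p) *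
      (univ.filter fun y : Fin n → ZMod (p ^ 2) => EvP s t y).card := by
  have hpp : p.Prime := Fact.out
  set Inj := univ.filter fun r : Fin n → ZMod p => Function.Injective r with hInj
  have hInjc : p ^ n ≤ 2 ^ n * Inj.card := by
    have h2 : Inj.card = p.descFactorial n := by
      have h3 := Fintype.card_embedding_eq (α := Fin n) (β := ZMod p)
      rw [Fintype.card_fin, ZMod.card] at h3
      rw [← h3, hInj, ← Fintype.card_subtype]
      exact Fintype.card_congr (Equiv.subtypeInjectiveEquivEmbedding (Fin n) (ZMod p))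
    rw [h2]
    have h3 := Nat.pow_sub_le_descFactorial p n
    refine le_trans ?_ (Nat.mul_le_mul_left _ h3)
    rw [← mul_pow]
    exact Nat.pow_le_pow_left (by omega) n
  set Y := univ.filter fun y : Fin n → ZMod (p ^ 2) => Function.Injective fun k => rdH p (y k)
    with hY
  have h1 : (p ^ 2) ^ n ≤ 2 ^ n * Y.card := by
    have h3 := lift_count (c := 2 ^ n) (fun r : Fin n → ZMod p => Function.Injective r) (by
      convert hInjc)
    convert h3
  set U := univ.filter fun u : ZMod p => u ≠ 0 with hU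
  set Ev := univ.filter fun y : Fin n → ZMod (p ^ 2) => EvP s t y with hEv
  have hUc : U.card = p - 1 := by
    have h3 : U = univ.erase (0 : ZMod p) := by
      ext u
      simp [hU]
    rw [h3, card_erase_of_mem (mem_univ _), card_univ, ZMod.card]
  have hp0 : rdH p ((p : ℕ) : ZMod (p ^ 2)) = 0 := by
    rw [map_natCast, ZMod.natCast_self]
  -- the map
  have h2 : (Y ×ˢ U).card ≤ (Ev ×ˢ (univ : Finset (ZMod (p ^ 2)))).card := by
    refine card_le_card_of_injOn (fun x => (Function.update x.1 t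
      (x.1 s - ((p * x.2.val : ℕ) : ZMod (p ^ 2))), x.1 t)) ?_ ?_
    · rintro ⟨g, u⟩ hx
      rw [mem_coe, mem_product, hY, hU, mem_filter, mem_filter] at hx
      obtain ⟨⟨-, hg⟩, -, hu⟩ := hx
      rw [mem_coe, mem_product, hEv, mem_filter]
      refine ⟨⟨mem_univ _, ⟨u, hu, ?_⟩, fun i j hij hn => ?_⟩, mem_univ _⟩
      · dsimp only
        rw [Function.update_of_ne hst, Function.update_self]
        ring
      · dsimp only
        have hred : ∀ i, rdH p (Function.update g t (g s - ((p * u.val : ℕ) : ZMod (p ^ 2))) i) =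
            rdH p (g (if i = t then s else i)) := by
          intro i
          by_cases hi : i = t
          · rw [hi, Function.update_self, if_pos rfl, map_sub, Nat.cast_mul, map_mul, hp0, zero_mul,
              sub_zero]
          · rw [Function.update_of_ne hi, if_neg hi]
        rw [map_sub, hred, hred, sub_ne_zero]
        intro h3
        have h4 := hg h3
        by_cases hi : i = t
        · rw [if_pos hi, if_neg fun h => hij (hi.trans h.symm)] at h4
          exact hn ⟨Or.inr hi, Or.inl h4.symm⟩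
        · rw [if_neg hi] at h4
          by_cases hj : j = t
          · rw [if_pos hj] at h4
            exact hn ⟨Or.inl h4, Or.inr hj⟩
          · rw [if_neg hj] at h4
            exact hij h4
    · rintro ⟨g, u⟩ _ ⟨g', u'⟩ _ h
      have h3 : Function.update g t (g s - ((p * u.val : ℕ) : ZMod (p ^ 2))) =
        Function.update g' t (g' s - ((p * u'.val : ℕ) : ZMod (p ^ 2))) := congrArg Prod.fst h
      have h4 : g t = g' t := congrArg Prod.snd h
      have h5 : g = g' := by
        funext i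
        by_cases hi : i = t
        · rw [hi, h4]
        · have h6 := congrFun h3 i
          rwa [Function.update_of_ne hi, Function.update_of_ne hi] at h6
      subst h5
      have h6 := congrFun h3 t
      rw [Function.update_self, Function.update_self, sub_right_inj,
        ZMod.natCast_eq_natCast_iff', Nat.mod_eq_of_lt, Nat.mod_eq_of_lt] at h6
      · have h7 := Nat.eq_of_mul_eq_mul_left hpp.pos h6
        rw [ZMod.val_injective p h7]
      · rw [sq]
        exact Nat.mul_lt_mul_of_pos_left (ZMod.val_lt u') hpp.pos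
      · rw [sq]
        exact Nat.mul_lt_mul_of_pos_left (ZMod.val_lt u) hpp.pos
  rw [card_product, card_product, hUc, card_univ, ZMod.card] at h2
  have h3 : p ≤ 2 * (p - 1) := by
    have := hpp.two_le
    omega
  refine le_of_mul_le_mul_left ?_ hpp.pos
  calc p * (p ^ 2) ^ n ≤ (2 * (p - 1)) * (2 ^ n * Y.card) := Nat.mul_le_mul h3 h1
    _ = (2 ^ (n + 1)) * (Y.card * (p - 1)) := by ring
    _ ≤ (2 ^ (n + 1)) * (Ev.card * p ^ 2) := Nat.mul_le_mul_left _ h2
    _ = p * (2 ^ (n + 1) * p * Ev.card) := by ring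

end count

/-- almost all integral points have nodes for all pairs -/
theorem almost_P {n : ℕ} {s t : Fin n} (hst : s ≠ t) (n₀ : ℕ) (hn₀ : 0 < n₀) :
    AlmostNone fun x : Fin n → ℤ => ¬ PtNode n₀ s t x := by
  classical
  set b : ℕ := n₀ + 2 * n with hb
  refine almostNone_of_bad {p : ℕ | p.Prime ∧ b < p} (fun p => p ^ 2)
    (fun p hp => pow_pos hp.1.pos 2)
    (fun p hp q hq hpq => Nat.Coprime.pow 2 2 (coprime_primes' hp.1 hq.1 hpq))
    (fun p => 1 - (1 / (2 ^ (n + 1) : ℝ)) / p)
    (prod_small_prime b (by positivity) ?_) _ ?_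
  · have h1 : (1 : ℝ) ≤ (b : ℝ) := by
      have h2 : 1 ≤ b := by omega
      exact_mod_cast h2
    refine le_trans ?_ h1
    rw [div_le_one (by positivity)]
    exact one_le_pow₀ (by norm_num)
  · rintro p ⟨hp, hpb⟩
    have hfact : Fact p.Prime := ⟨hp⟩
    have hne : NeZero (p ^ 2) := ⟨pow_ne_zero 2 hp.ne_zero⟩
    refine ⟨univ.filter fun a => ¬ EvP s t a, ?_, fun x hx => ?_⟩
    · have h2 := compl_bound (V := Fin n → ZMod (p ^ 2)) (fun a => EvP s t a)
        (c := 2 ^ (n + 1) * p) (by have := hp.pos; positivity) (by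
          rw [Fintype.card_fun, ZMod.card, Fintype.card_fin]
          exact evP_count hst (by omega))
      rw [Fintype.card_fun, ZMod.card] at h2
      refine h2.trans (le_of_eq ?_)
      push_cast
      congr 2
      rw [div_div]
    · rw [mem_filter]
      refine ⟨mem_univ _, fun h => hx ?_⟩
      obtain ⟨⟨u, hu, h1⟩, h2⟩ := h
      refine ⟨p, hfact, fun h4 => ?_, ?_, fun i j hij hn hd => h2 i j hij hn ?_⟩
      · have := Nat.le_of_dvd hn₀ h4
        omega
      · have h3 : (((x s - x t - (p * u.val : ℕ) : ℤ)) : ZMod (p ^ 2)) = 0 := by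
          push_cast
          push_cast at h1
          rw [h1, sub_self]
        rw [ZMod.intCast_zmod_eq_zero_iff_dvd] at h3
        obtain ⟨q, hq⟩ := h3
        refine ⟨u.val + p * q, ?_, fun h4 => hu ?_⟩
        · push_cast at hq ⊢
          linear_combination hq
        · have h5 : (p : ℤ) ∣ (u.val : ℤ) := by
            have h6 := dvd_sub h4 (dvd_mul_right (p : ℤ) q)
            rwa [add_sub_cancel_right] at h6
          have h6 : p ∣ u.val := by exact_mod_cast h5
          have h7 : u.val = 0 := Nat.eq_zero_of_dvd_of_lt h6 (ZMod.val_lt u)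
          rwa [ZMod.val_eq_zero] at h7
      · dsimp only
        rw [← Int.cast_sub, map_intCast]
        exact (ZMod.intCast_zmod_eq_zero_iff_dvd _ _).2 hd

/-- **One exceptional set for all number fields.** -/
theorem points_all (n : ℕ) :
    ∃ E : Set (Fin n → ℤ), AlmostNone (fun x => x ∈ E) ∧
      ∀ n₀ : ℕ, 0 < n₀ → {x | x ∉ E ∧ ¬ ∀ s t, s ≠ t → PtNode n₀ s t x}.Finite := by
  classical
  obtain ⟨E, hE, hE'⟩ := diag (fun (y : ℕ × Fin n × Fin n) (x : Fin n → ℤ) =>
    y.2.1 ≠ y.2.2 → PtNode (y.1 + 1) y.2.1 y.2.2 x) (fun y => by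
      by_cases hst : y.2.1 = y.2.2
      · exact AlmostNone.false.mono fun x hx => hx fun h => absurd hst h
      · exact (almost_P hst (y.1 + 1) (Nat.succ_pos _)).mono fun x hx h => hx fun _ => h)
  refine ⟨E, hE, fun n₀ hn₀ => ?_⟩
  have h0 : n₀ - 1 + 1 = n₀ := by omega
  refine (Set.finite_iUnion fun y : Fin n × Fin n => hE' (n₀ - 1, y)).subset ?_
  rintro x ⟨hx, hnx⟩
  push Not at hnx
  obtain ⟨s, t, hst, h⟩ := hnx
  refine Set.mem_iUnion.2 ⟨(s, t), hx, fun h1 => h ?_⟩
  have h2 := h1 hst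
  dsimp only at h2
  rwa [h0] at h2

/-- the places -/
theorem PtNode.place {K : Type} [Field K] [NumberField K] {n : ℕ} {n₁ : ℕ} {s t : Fin n}
    {x : Fin n → ℤ} (h : PtNode (2 * (NumberField.discr K).natAbs * n₁) s t x) :
    ∃ v : HeightOneSpectrum (𝓞 K), Collide (fun i => (x i : K)) v s t ∧ (2 : 𝓞 K) ∉ v.asIdeal ∧
      (n₁ : 𝓞 K) ∉ v.asIdeal := by
  obtain ⟨p, hp, hpn, ⟨m, hm, hpm⟩, hu⟩ := h
  have hp2 : p ≠ 2 := by
    rintro rfl
    exact hpn (Dvd.dvd.mul_right (dvd_mul_right _ _) _)
  obtain ⟨v, hv1, hv2, hv3⟩ := exists_unr_place K p hp.out (fun h => hpn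
      (Dvd.dvd.mul_right (Dvd.dvd.mul_left (by
        have := Int.natAbs_dvd_natAbs.2 h
        simpa using this) _) _))
  refine ⟨v, ⟨?_, fun i j hij hn => ?_⟩, ?_, ?_⟩
  · rw [← Int.cast_sub, hm, Int.cast_mul, Int.cast_natCast, map_mul, hv1, hv2 m hpm, mul_one,
      log_exp]
    decide
  · rw [← Int.cast_sub]
    exact hv2 _ (hu i j hij hn)
  · have h2p : ¬ (p : ℤ) ∣ 2 := by
      intro h1
      have h3 : p ∣ 2 := by exact_mod_cast h1
      exact hp2 ((Nat.prime_dvd_prime_iff_eq hp.out Nat.prime_two).1 h3)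
    exact_mod_cast hv3 2 h2p
  · have h5 := hv3 n₁ (fun h => hpn (Dvd.dvd.mul_left (by exact_mod_cast h) _))
    exact_mod_cast h5

end

end Pool.Agent.H852.J
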