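import Mathlib
import Pool.Agent.H852.J.V3

/-!
# Random integral branch points, with a power saving
-/

set_option linter.unusedSectionVars false
set_option autoImplicit false

open Finset

namespace Pool.Agent.H852.J

noncomputable section

/-- the condition for a pair of integral points, with odd multiplicity -/
def PtOdd {n : ℕ} (n₀ : ℕ) (s t : Fin n) (x : Fin n → ℤ) : Prop :=
  ∃ (p : ℕ) (_ : Fact p.Prime), ¬ p ∣ n₀ ∧
    (∃ (k : ℕ) (m : ℤ), x s - x t = (p : ℤ) ^ (2 * k + 1) * m ∧ ¬ (p : ℤ) ∣ m) ∧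
    ∀ i j, i ≠ j → ¬ ((i = s ∨ i = t) ∧ (j = s ∨ j = t)) → ¬ (p : ℤ) ∣ x i - x j

section arith

/-- the decomposition of a number -/
theorem decomp {D n₀ : ℕ} (hD : D ≠ 0) (hn₀ : 0 < n₀) :
    ∃ b g q : ℕ, D = b ^ 2 * g * q ∧ 0 < g ∧ g ≤ n₀ ∧ 0 < q ∧ Squarefree q ∧
      ∀ p : ℕ, p.Prime → p ∣ q → ¬ p ∣ n₀ ∧ ∃ k m : ℕ, D = p ^ (2 * k + 1) * m ∧ ¬ p ∣ m := by
  obtain ⟨a, b, hab, hsq⟩ := Nat.sq_mul_squarefree D
  have ha0 : a ≠ 0 := hsq.ne_zero
  have hb0 : b ≠ 0 := by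
    rintro rfl
    apply hD
    rw [← hab]
    ring
  obtain ⟨q, hq⟩ := Nat.gcd_dvd_left a n₀
  set g := a.gcd n₀ with hg
  have hgpos : 0 < g := Nat.gcd_pos_of_pos_left _ (Nat.pos_of_ne_zero ha0)
  have hqpos : 0 < q := by
    rcases Nat.eq_zero_or_pos q with h | h
    · rw [h, mul_zero] at hq
      exact absurd hq ha0
    · exact h
  refine ⟨b, g, q, by rw [← hab, hq]; ring, hgpos,
    Nat.le_of_dvd hn₀ (Nat.gcd_dvd_right _ _), hqpos, hsq.squarefree_of_dvd ⟨g, by rw [hq]; ring⟩,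
    fun p hp hpq => ⟨fun hpn => ?_, ?_⟩⟩
  · have h1 : p ∣ a := by
      rw [hq]
      exact Dvd.dvd.mul_left hpq g
    have h2 : p ∣ g := Nat.dvd_gcd h1 hpn
    have h3 : p * p ∣ a := by
      rw [hq]
      exact mul_dvd_mul h2 hpq
    exact hp.one_lt.ne' (Nat.isUnit_iff.1 (hsq p h3))
  · obtain ⟨k, c, hc, hbc⟩ := Nat.exists_eq_pow_mul_and_not_dvd hb0 p hp.ne_one
    obtain ⟨a', ha'⟩ : p ∣ a := by
      rw [hq]
      exact Dvd.dvd.mul_left hpq g
    have h1 : ¬ p ∣ a' := by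
      rintro ⟨a'', ha''⟩
      have h3 : p * p ∣ a := ⟨a'', by rw [ha', ha'']; ring⟩
      exact hp.one_lt.ne' (Nat.isUnit_iff.1 (hsq p h3))
    refine ⟨k, c ^ 2 * a', by rw [← hab, ha', hbc]; ring, fun h => ?_⟩
    rcases (Nat.Prime.dvd_mul hp).1 h with h2 | h2
    · exact hc (hp.dvd_of_dvd_pow h2)
    · exact h1 h2

variable {n : ℕ}

/-- the pairs of indices different from the given pair -/
def othP (s t : Fin n) : Finset (Fin n × Fin n) :=
  univ.filter fun e => e.1 ≠ s ∧ e.1 ≠ t ∧ e.1 ≠ e.2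

theorem othP_card (s t : Fin n) : (othP s t).card ≤ n ^ 2 := by
  refine (card_filter_le _ _).trans (le_of_eq ?_)
  rw [card_univ, Fintype.card_prod, Fintype.card_fin, sq]

/-- the two cases -/
theorem not_ptOdd {n₀ T : ℕ} (hn₀ : 0 < n₀) (hT : 1 ≤ T) {s t : Fin n} {x : Fin n → ℤ}
    (h : ¬ PtOdd n₀ s t x) :
    (∃ b g q : ℕ, (x s - x t).natAbs = b ^ 2 * g * q ∧ b ^ 2 ≤ (x s - x t).natAbs ∧ g ≤ n₀ ∧
      q ≤ T ^ n ^ 2) ∨
    ∃ e ∈ othP s t, ∃ d : ℕ, T < d ∧ (d : ℤ) ∣ x s - x t ∧ (d : ℤ) ∣ x e.1 - x e.2 ∧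
      x s - x t ≠ 0 := by
  by_cases hD : (x s - x t).natAbs = 0
  · refine Or.inl ⟨0, 0, 0, by rw [hD]; rfl, ?_, Nat.zero_le _, Nat.zero_le _⟩
    exact Nat.zero_le _
  obtain ⟨b, g, q, h1, hg, hgn, hq, hsq, hpr⟩ := decomp hD hn₀
  have hoth : ∀ p : ℕ, p.Prime → p ∣ q → ∃ e ∈ othP s t, (p : ℤ) ∣ x e.1 - x e.2 := by
    intro p hp hpq
    obtain ⟨hpn, k, m, hm, hpm⟩ := hpr p hp hpq
    by_contra hcon
    push Not at hcon
    refine h ⟨p, ⟨hp⟩, hpn, ?_, fun i j hij hn hd => ?_⟩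
    · have hpm' : ¬ (p : ℤ) ∣ (m : ℤ) := fun h => hpm (by exact_mod_cast h)
      rcases Int.natAbs_eq (x s - x t) with h2 | h2
      · refine ⟨k, m, ?_, hpm'⟩
        rw [h2, hm]
        push_cast
        ring
      · refine ⟨k, -m, ?_, fun h => hpm' ((dvd_neg).1 h)⟩
        rw [h2, hm]
        push_cast
        ring
    · by_cases hi : i = s ∨ i = t
      · have hj : ¬ (j = s ∨ j = t) := fun hj => hn ⟨hi, hj⟩
        push Not at hj
        refine hcon (j, i) ?_ ?_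
        · exact mem_filter.2 ⟨mem_univ _, hj.1, hj.2, Ne.symm hij⟩
        · exact (dvd_sub_comm).1 hd
      · push Not at hi
        exact hcon (i, j) (mem_filter.2 ⟨mem_univ _, hi.1, hi.2, hij⟩) hd
  by_cases hall : ∀ e ∈ othP s t, q.gcd (x e.1 - x e.2).natAbs ≤ T
  · refine Or.inl ⟨b, g, q, h1, ?_, hgn, ?_⟩
    · rw [h1, mul_assoc]
      exact Nat.le_mul_of_pos_right _ (Nat.mul_pos hg hq)
    · have h2 : q ∣ ∏ e ∈ othP s t, q.gcd (x e.1 - x e.2).natAbs := by
        have h3 : ∏ p ∈ q.primeFactors, p ∣ ∏ e ∈ othP s t, q.gcd (x e.1 - x e.2).natAbs := by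
          refine Finset.prod_primes_dvd _ (fun p hp => (Nat.prime_of_mem_primeFactors hp).prime)
            fun p hp => ?_
          obtain ⟨e, he, hpe⟩ := hoth p (Nat.prime_of_mem_primeFactors hp)
            (Nat.dvd_of_mem_primeFactors hp)
          refine dvd_trans ?_ (Finset.dvd_prod_of_mem _ he)
          exact Nat.dvd_gcd (Nat.dvd_of_mem_primeFactors hp) (Int.natCast_dvd.1 hpe)
        rwa [Nat.prod_primeFactors_of_squarefree hsq] at h3
      have hpos : 0 < ∏ e ∈ othP s t, q.gcd (x e.1 - x e.2).natAbs :=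
        Finset.prod_pos fun e _ => Nat.gcd_pos_of_pos_left _ hq
      refine (Nat.le_of_dvd hpos h2).trans ?_
      refine (Finset.prod_le_pow_card _ _ _ hall).trans ?_
      exact Nat.pow_le_pow_right hT (othP_card s t)
  · push Not at hall
    obtain ⟨e, he, hTe⟩ := hall
    refine Or.inr ⟨e, he, _, hTe, ?_, ?_, fun h2 => hD (by rw [h2]; rfl)⟩
    · rw [Int.natCast_dvd, h1]
      exact (Nat.gcd_dvd_left _ _).trans (Dvd.intro_left _ rfl)
    · rw [Int.natCast_dvd]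
      exact Nat.gcd_dvd_right _ _

end arith

section count

variable {n : ℕ}

/-- the box -/
def boxF (n H : ℕ) : Finset (Fin n → ℤ) := Fintype.piFinset fun _ => Icc (-(H : ℤ)) H

theorem mem_boxF {H : ℕ} {x : Fin n → ℤ} : x ∈ boxF n H ↔ ∀ k, |x k| ≤ (H : ℤ) := by
  rw [boxF, Fintype.mem_piFinset]
  simp only [mem_Icc, abs_le]

theorem icc_card (H : ℕ) : (Icc (-(H : ℤ)) H).card = 2 * H + 1 := by
  rw [Int.card_Icc]
  omega

theorem card_box_one (t : Fin n) (H : ℕ) :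
    (Fintype.piFinset fun k : Fin n => if k = t then ({0} : Finset ℤ) else Icc (-(H : ℤ)) H).card =
      (2 * H + 1) ^ (n - 1) := by
  rw [Fintype.card_piFinset, ← Finset.mul_prod_erase univ _ (mem_univ t), if_pos rfl,
    card_singleton, one_mul]
  have h1 : ∀ k ∈ univ.erase t, (if k = t then ({0} : Finset ℤ) else Icc (-(H : ℤ)) H).card =
      2 * H + 1 := by
    intro k hk
    rw [if_neg (ne_of_mem_erase hk), icc_card]
  rw [Finset.prod_congr rfl h1, Finset.prod_const, card_erase_of_mem (mem_univ t), card_univ,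
    Fintype.card_fin]

theorem card_box_two {t i : Fin n} (hti : i ≠ t) (H : ℕ) :
    (Fintype.piFinset fun k : Fin n =>
      if k = t ∨ k = i then ({0} : Finset ℤ) else Icc (-(H : ℤ)) H).card =
      (2 * H + 1) ^ (n - 2) := by
  have h0 : i ∈ univ.erase t := mem_erase.2 ⟨hti, mem_univ _⟩
  rw [Fintype.card_piFinset, ← Finset.mul_prod_erase univ _ (mem_univ t),
    ← Finset.mul_prod_erase (univ.erase t) _ h0, if_pos (Or.inl rfl), if_pos (Or.inr rfl),
    card_singleton, one_mul, one_mul]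
  have h1 : ∀ k ∈ (univ.erase t).erase i,
      (if k = t ∨ k = i then ({0} : Finset ℤ) else Icc (-(H : ℤ)) H).card = 2 * H + 1 := by
    intro k hk
    have h2 := ne_of_mem_erase hk
    have h3 := ne_of_mem_erase (mem_of_mem_erase hk)
    rw [if_neg (by tauto), icc_card]
  rw [Finset.prod_congr rfl h1, Finset.prod_const, card_erase_of_mem h0,
    card_erase_of_mem (mem_univ t), card_univ, Fintype.card_fin, Nat.sub_sub]

/-- the first case -/
theorem card_one {s t : Fin n} (hst : s ≠ t) {H B G Q : ℕ} (S : Finset (Fin n → ℤ))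
    (hS : ∀ x ∈ S, x ∈ boxF n H ∧ ∃ b g q : ℕ, (x s - x t).natAbs = b ^ 2 * g * q ∧ b ≤ B ∧
      g ≤ G ∧ q ≤ Q) :
    S.card ≤ (2 * H + 1) ^ (n - 1) * (2 * ((B + 1) * ((G + 1) * (Q + 1)))) := by
  classical
  let X := (Fintype.piFinset fun k : Fin n => if k = t then ({0} : Finset ℤ) else
    Icc (-(H : ℤ)) H) ×ˢ (({1, -1} : Finset ℤ) ×ˢ (range (B + 1) ×ˢ (range (G + 1) ×ˢ
      range (Q + 1))))
  let Φ : (Fin n → ℤ) × (ℤ × (ℕ × (ℕ × ℕ))) → (Fin n → ℤ) := fun y =>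
    Function.update y.1 t (y.1 s - y.2.1 * ((y.2.2.1 ^ 2 * y.2.2.2.1 * y.2.2.2.2 : ℕ) : ℤ))
  have h1 : S ⊆ X.image Φ := by
    intro x hx
    obtain ⟨hb, b, g, q, hD, hB, hG, hQ⟩ := hS x hx
    obtain ⟨ε, hε, hε'⟩ : ∃ ε ∈ ({1, -1} : Finset ℤ), x s - x t = ε * ((b ^ 2 * g * q : ℕ) : ℤ) := by
      rcases Int.natAbs_eq (x s - x t) with h2 | h2
      · exact ⟨1, by simp, by rw [← hD, one_mul]; exact h2⟩
      · exact ⟨-1, by simp, by rw [← hD, neg_one_mul]; exact h2⟩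
    refine mem_image.2 ⟨(Function.update x t 0, (ε, (b, (g, q)))), ?_, ?_⟩
    · refine mem_product.2 ⟨Fintype.mem_piFinset.2 fun k => ?_, mem_product.2 ⟨hε,
        mem_product.2 ⟨mem_range.2 (Nat.lt_succ_of_le hB), mem_product.2
          ⟨mem_range.2 (Nat.lt_succ_of_le hG), mem_range.2 (Nat.lt_succ_of_le hQ)⟩⟩⟩⟩
      by_cases hk : k = t
      · dsimp only
        rw [if_pos hk, hk, Function.update_self]
        exact mem_singleton_self _
      · dsimp only
        rw [if_neg hk, Function.update_of_ne hk]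
        exact Fintype.mem_piFinset.1 hb k
    · funext k
      by_cases hk : k = t
      · change Function.update (Function.update x t 0) t ((Function.update x t 0) s -
          ε * ((b ^ 2 * g * q : ℕ) : ℤ)) k = x k
        rw [hk, Function.update_self, Function.update_of_ne hst, ← hε']
        ring
      · change Function.update (Function.update x t 0) t ((Function.update x t 0) s -
          ε * ((b ^ 2 * g * q : ℕ) : ℤ)) k = x k
        rw [Function.update_of_ne hk, Function.update_of_ne hk]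
  refine (card_le_card h1).trans (card_image_le.trans (le_of_eq ?_))
  rw [card_product, card_product, card_product, card_product, card_box_one, card_range, card_range,
    card_range]
  rfl

/-- the second case -/
theorem card_two {s t i j : Fin n} (hst : s ≠ t) (his : i ≠ s) (hit : i ≠ t) (hij : i ≠ j)
    {H d : ℕ} (hd : 0 < d) (S : Finset (Fin n → ℤ))
    (hS : ∀ x ∈ S, x ∈ boxF n H ∧ (d : ℤ) ∣ x s - x t ∧ (d : ℤ) ∣ x i - x j) :
    S.card ≤ (2 * H + 1) ^ (n - 2) * ((2 * (2 * H / d) + 1) * (2 * (2 * H / d) + 1)) := by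
  classical
  set M : ℕ := 2 * H / d with hM
  let X := (Fintype.piFinset fun k : Fin n => if k = t ∨ k = i then ({0} : Finset ℤ) else
    Icc (-(H : ℤ)) H) ×ˢ (Icc (-(M : ℤ)) M ×ˢ Icc (-(M : ℤ)) M)
  let Z : (Fin n → ℤ) × (ℤ × ℤ) → (Fin n → ℤ) := fun y =>
    Function.update y.1 t (y.1 s - d * y.2.1)
  let Φ : (Fin n → ℤ) × (ℤ × ℤ) → (Fin n → ℤ) := fun y =>
    Function.update (Z y) i (Z y j + d * y.2.2)
  have hbd : ∀ {x : Fin n → ℤ}, x ∈ boxF n H → ∀ (k l : Fin n) (c : ℤ), x k - x l = d * c →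
      c ∈ Icc (-(M : ℤ)) M := by
    intro x hx k l c hc
    have h1 := mem_boxF.1 hx k
    have h2 := mem_boxF.1 hx l
    have h3 : (d : ℤ) * |c| ≤ 2 * H := by
      have h4 : |(d : ℤ) * c| ≤ 2 * H := by
        rw [← hc]
        refine (abs_sub _ _).trans ?_
        linarith
      rwa [abs_mul, Nat.abs_cast] at h4
    have h4 : c.natAbs ≤ M := by
      rw [hM, Nat.le_div_iff_mul_le hd]
      have h5 : ((c.natAbs * d : ℕ) : ℤ) ≤ ((2 * H : ℕ) : ℤ) := by
        push_cast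
        rw [mul_comm]
        exact h3
      exact_mod_cast h5
    rw [mem_Icc]
    omega
  have h1 : S ⊆ X.image Φ := by
    intro x hx
    obtain ⟨hb, ⟨a, ha⟩, ⟨c, hc⟩⟩ := hS x hx
    set y := Function.update (Function.update x t 0) i 0 with hy
    have hys : y s = x s := by
      rw [hy, Function.update_of_ne (Ne.symm his), Function.update_of_ne hst]
    have hZ : ∀ k, k ≠ i → Z (y, (a, c)) k = x k := by
      intro k hk
      change Function.update y t (y s - d * a) k = x k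
      by_cases hkt : k = t
      · rw [hkt, Function.update_self, hys, ← ha]
        ring
      · rw [Function.update_of_ne hkt, hy, Function.update_of_ne hk, Function.update_of_ne hkt]
    refine mem_image.2 ⟨(y, (a, c)), ?_, ?_⟩
    · refine mem_product.2 ⟨Fintype.mem_piFinset.2 fun k => ?_, mem_product.2
        ⟨hbd hb s t a ha, hbd hb i j c hc⟩⟩
      dsimp only
      by_cases hki : k = i
      · rw [if_pos (Or.inr hki), hki, hy, Function.update_self]
        exact mem_singleton_self _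
      · by_cases hkt : k = t
        · rw [if_pos (Or.inl hkt), hy, Function.update_of_ne hki, hkt, Function.update_self]
          exact mem_singleton_self _
        · rw [if_neg (by tauto), hy, Function.update_of_ne hki, Function.update_of_ne hkt]
          exact Fintype.mem_piFinset.1 hb k
    · funext k
      change Function.update (Z (y, (a, c))) i (Z (y, (a, c)) j + d * c) k = x k
      by_cases hki : k = i
      · rw [hki, Function.update_self, hZ j (Ne.symm hij), ← hc]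
        ring
      · rw [Function.update_of_ne hki, hZ k hki]
  refine (card_le_card h1).trans (card_image_le.trans (le_of_eq ?_))
  rw [card_product, card_product, card_box_two hit, icc_card]

open Classical in
/-- **The number of the exceptions for a pair.** -/
theorem count_pair (hn : 2 ≤ n) {s t : Fin n} (hst : s ≠ t) {n₀ T H : ℕ} (hn₀ : 0 < n₀)
    (hT : 1 ≤ T) (hTH : T ^ (2 * (n ^ 2 + 1)) ≤ H) :
    (((boxF n H).filter fun x => ¬ PtOdd n₀ s t x).card : ℝ) ≤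
      25 * n ^ 2 * n₀ * (2 * H + 1) ^ n / T := by
  have hH : 1 ≤ H := le_trans (Nat.one_le_pow _ _ hT) hTH
  set B := Nat.sqrt (2 * H) with hB
  set S₁ := (boxF n H).filter fun x => ∃ b g q : ℕ, (x s - x t).natAbs = b ^ 2 * g * q ∧ b ≤ B ∧
      g ≤ n₀ ∧ q ≤ T ^ n ^ 2 with hS₁
  let S₂ : (Fin n × Fin n) × ℕ → Finset (Fin n → ℤ) := fun e =>
    (boxF n H).filter fun x => (e.2 : ℤ) ∣ x s - x t ∧ (e.2 : ℤ) ∣ x e.1.1 - x e.1.2
  have hsub : ((boxF n H).filter fun x => ¬ PtOdd n₀ s t x) ⊆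
      S₁ ∪ (othP s t ×ˢ Ioc T (2 * H)).biUnion S₂ := by
    intro x hx
    obtain ⟨hb, hx⟩ := mem_filter.1 hx
    have hD : (x s - x t).natAbs ≤ 2 * H := by
      have h1 := mem_boxF.1 hb s
      have h2 := mem_boxF.1 hb t
      have h3 := abs_le.1 h1
      have h4 := abs_le.1 h2
      omega
    rcases not_ptOdd hn₀ hT hx with ⟨b, g, q, h1, h2, h3, h4⟩ | ⟨e, he, d, h1, h2, h3, h4⟩
    · refine mem_union_left _ (mem_filter.2 ⟨hb, b, g, q, h1, ?_, h3, h4⟩)
      rw [hB, Nat.le_sqrt']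
      exact h2.trans hD
    · refine mem_union_right _ (mem_biUnion.2 ⟨(e, d), mem_product.2 ⟨he, mem_Ioc.2 ⟨h1, ?_⟩⟩,
        mem_filter.2 ⟨hb, h2, h3⟩⟩)
      exact (Nat.le_of_dvd (Int.natAbs_pos.2 h4) (Int.natCast_dvd.1 h2)).trans hD
  have h1 := (card_le_card hsub).trans ((card_union_le _ _).trans
    (Nat.add_le_add_left card_biUnion_le _))
  have hTR : (0 : ℝ) < T := by exact_mod_cast hT
  have hHR : (1 : ℝ) ≤ H := by exact_mod_cast hH
  have hn₀R : (1 : ℝ) ≤ n₀ := by exact_mod_cast hn₀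
  have hnR : (1 : ℝ) ≤ (n : ℝ) ^ 2 := by
    have h3 : 1 ≤ n ^ 2 := Nat.one_le_pow _ _ (by omega)
    exact_mod_cast h3
  -- the first part
  have hone : (S₁.card : ℝ) ≤ 16 * n₀ * (2 * H + 1) ^ n / T := by
    have h2 := card_one hst (H := H) (B := B) (G := n₀) (Q := T ^ n ^ 2) S₁ fun x hx => by
      exact mem_filter.1 hx
    have hB1 : 1 ≤ B := by
      rw [hB, Nat.le_sqrt']
      omega
    have hB2 : B * T ^ (n ^ 2 + 1) ≤ 2 * H := by
      have h3 : (B * T ^ (n ^ 2 + 1)) ^ 2 ≤ (2 * H) ^ 2 := by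
        have h4 : B ^ 2 ≤ 2 * H := Nat.sqrt_le' _
        calc (B * T ^ (n ^ 2 + 1)) ^ 2 = B ^ 2 * T ^ (2 * (n ^ 2 + 1)) := by ring
          _ ≤ (2 * H) * H := Nat.mul_le_mul h4 hTH
          _ ≤ (2 * H) ^ 2 := by nlinarith
      exact (Nat.pow_le_pow_iff_left two_ne_zero).1 h3
    have hTn : 1 ≤ T ^ n ^ 2 := Nat.one_le_pow _ _ hT
    have h5 : S₁.card * T ≤ 16 * n₀ * (2 * H + 1) ^ n := by
      calc S₁.card * T ≤ ((2 * H + 1) ^ (n - 1) *
            (2 * ((B + 1) * ((n₀ + 1) * (T ^ n ^ 2 + 1))))) * T := Nat.mul_le_mul_right _ h2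
        _ ≤ ((2 * H + 1) ^ (n - 1) *
            (2 * ((2 * B) * ((2 * n₀) * (2 * T ^ n ^ 2))))) * T := by
          gcongr <;> omega
        _ = (2 * H + 1) ^ (n - 1) * (16 * n₀) * (B * T ^ (n ^ 2 + 1)) := by ring
        _ ≤ (2 * H + 1) ^ (n - 1) * (16 * n₀) * (2 * H + 1) := by
          gcongr
          omega
        _ = 16 * n₀ * ((2 * H + 1) ^ (n - 1) * (2 * H + 1)) := by ring
        _ = 16 * n₀ * (2 * H + 1) ^ n := by
          rw [← pow_succ]
          congr 2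
          omega
    rw [le_div_iff₀ hTR]
    exact_mod_cast h5
  -- the second part
  have htwo : ∀ e ∈ othP s t ×ˢ Ioc T (2 * H), ((S₂ e).card : ℝ) ≤
      9 * (2 * H + 1) ^ n * ((e.2 : ℝ) ^ 2)⁻¹ := by
    rintro ⟨⟨i, j⟩, d⟩ he
    obtain ⟨he, hd⟩ := mem_product.1 he
    obtain ⟨-, his, hit, hij⟩ := mem_filter.1 he
    obtain ⟨hd1, hd2⟩ := mem_Ioc.1 hd
    dsimp only at his hit hij hd1 hd2 ⊢
    have hd0 : 0 < d := by omega
    have h2 := card_two hst his hit hij (H := H) hd0 (S₂ ((i, j), d)) fun x hx => by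
      exact mem_filter.1 hx
    have h3 : (2 * (2 * H / d) + 1) * d ≤ 3 * (2 * H + 1) := by
      have h4 := Nat.div_mul_le_self (2 * H) d
      calc (2 * (2 * H / d) + 1) * d = 2 * (2 * H / d * d) + d := by ring
        _ ≤ 3 * (2 * H + 1) := by omega
    have h5 : (S₂ ((i, j), d)).card * d ^ 2 ≤ 9 * (2 * H + 1) ^ n := by
      calc (S₂ ((i, j), d)).card * d ^ 2 ≤ ((2 * H + 1) ^ (n - 2) *
            ((2 * (2 * H / d) + 1) * (2 * (2 * H / d) + 1))) * d ^ 2 := Nat.mul_le_mul_right _ h2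
        _ = (2 * H + 1) ^ (n - 2) * (((2 * (2 * H / d) + 1) * d) *
            ((2 * (2 * H / d) + 1) * d)) := by ring
        _ ≤ (2 * H + 1) ^ (n - 2) * ((3 * (2 * H + 1)) * (3 * (2 * H + 1))) := by gcongr
        _ = 9 * ((2 * H + 1) ^ (n - 2) * (2 * H + 1) ^ 2) := by ring
        _ = 9 * (2 * H + 1) ^ n := by
          rw [← pow_add]
          congr 2
          omega
    rw [← div_eq_mul_inv, le_div_iff₀ (by positivity)]
    exact_mod_cast h5
  have hsum : ∑ e ∈ othP s t ×ˢ Ioc T (2 * H), ((S₂ e).card : ℝ) ≤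
      9 * n ^ 2 * (2 * H + 1) ^ n / T := by
    refine (sum_le_sum htwo).trans ?_
    rw [sum_product]
    have h2 : ∑ d ∈ Ioc T (2 * H), ((d : ℝ) ^ 2)⁻¹ ≤ (T : ℝ)⁻¹ := by
      rcases le_total T (2 * H) with h3 | h3
      · refine (sum_Ioc_inv_sq_le_sub (by omega) h3).trans ?_
        have : (0 : ℝ) ≤ ((2 * H : ℕ) : ℝ)⁻¹ := by positivity
        linarith
      · rw [Ioc_eq_empty_of_le h3, sum_empty]
        positivity
    calc ∑ _e ∈ othP s t, ∑ d ∈ Ioc T (2 * H), 9 * (2 * (H : ℝ) + 1) ^ n * ((d : ℝ) ^ 2)⁻¹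
        = ((othP s t).card : ℝ) * (9 * (2 * (H : ℝ) + 1) ^ n * ∑ d ∈ Ioc T (2 * H),
            ((d : ℝ) ^ 2)⁻¹) := by
          rw [sum_const, nsmul_eq_mul, ← mul_sum]
      _ ≤ (n : ℝ) ^ 2 * (9 * (2 * (H : ℝ) + 1) ^ n * (T : ℝ)⁻¹) := by
          have h3 : ((othP s t).card : ℝ) ≤ (n : ℝ) ^ 2 := by exact_mod_cast othP_card s t
          gcongr
      _ = 9 * n ^ 2 * (2 * H + 1) ^ n / T := by
          rw [div_eq_mul_inv]
          ring
  have h6 : (((boxF n H).filter fun x => ¬ PtOdd n₀ s t x).card : ℝ) ≤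
      (S₁.card : ℝ) + ∑ e ∈ othP s t ×ˢ Ioc T (2 * H), ((S₂ e).card : ℝ) := by
    exact_mod_cast h1
  refine h6.trans ((add_le_add hone hsum).trans ?_)
  rw [← add_div]
  gcongr
  have hp : (0 : ℝ) ≤ (2 * (H : ℝ) + 1) ^ n := by positivity
  nlinarith [mul_nonneg (sub_nonneg.2 hnR) (sub_nonneg.2 hn₀R), mul_nonneg hp (sub_nonneg.2 hn₀R),
    mul_nonneg (mul_nonneg hp (sub_nonneg.2 hnR)) (sub_nonneg.2 hn₀R)]

end count

end

end Pool.Agent.H852.J
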