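import Mathlib
import Pool.Agent.H852.J.V4

/-!
# Random integral branch points: one exceptional set, with a power saving
-/

set_option linter.unusedSectionVars false
set_option autoImplicit false

open Finset NumberField IsDedekindDomain
open HeightOneSpectrum WithZero

namespace Pool.Agent.H852.J

noncomputable section

/-- the condition for all pairs of integral points -/
def PtAll {n : ℕ} (n₀ : ℕ) (x : Fin n → ℤ) : Prop := ∀ s t, s ≠ t → PtOdd n₀ s t x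

variable {n : ℕ}

open Classical in
/-- the number of the exceptions -/
theorem count_all (hn : 2 ≤ n) {n₀ T H : ℕ} (hn₀ : 0 < n₀) (hT : 1 ≤ T)
    (hTH : T ^ (2 * (n ^ 2 + 1)) ≤ H) :
    (((boxF n H).filter fun x => ¬ PtAll n₀ x).card : ℝ) ≤
      25 * n ^ 4 * n₀ * (2 * H + 1) ^ n / T := by
  let F : Finset (Fin n × Fin n) := univ.filter fun e => e.1 ≠ e.2
  let S : Fin n × Fin n → Finset (Fin n → ℤ) := fun e =>
    (boxF n H).filter fun x => ¬ PtOdd n₀ e.1 e.2 x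
  have hsub : ((boxF n H).filter fun x => ¬ PtAll n₀ x) ⊆ F.biUnion S := by
    intro x hx
    obtain ⟨hb, hx⟩ := mem_filter.1 hx
    unfold PtAll at hx
    push Not at hx
    obtain ⟨s, t, hst, h⟩ := hx
    exact mem_biUnion.2 ⟨(s, t), mem_filter.2 ⟨mem_univ _, hst⟩, mem_filter.2 ⟨hb, h⟩⟩
  have h1 : (((boxF n H).filter fun x => ¬ PtAll n₀ x).card : ℝ) ≤ ∑ e ∈ F, ((S e).card : ℝ) := by
    exact_mod_cast (card_le_card hsub).trans card_biUnion_le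
  have hF : (F.card : ℝ) ≤ (n : ℝ) ^ 2 := by
    have h2 : F.card ≤ n ^ 2 := by
      refine (card_filter_le _ _).trans (le_of_eq ?_)
      rw [card_univ, Fintype.card_prod, Fintype.card_fin, sq]
    exact_mod_cast h2
  refine h1.trans ?_
  calc ∑ e ∈ F, ((S e).card : ℝ) ≤ ∑ _e ∈ F, 25 * (n : ℝ) ^ 2 * n₀ * (2 * H + 1) ^ n / T := by
        refine sum_le_sum fun e he => ?_
        exact count_pair hn (mem_filter.1 he).2 hn₀ hT hTH
    _ = (F.card : ℝ) * (25 * (n : ℝ) ^ 2 * n₀ * (2 * H + 1) ^ n / T) := by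
        rw [sum_const, nsmul_eq_mul]
    _ ≤ (n : ℝ) ^ 2 * (25 * (n : ℝ) ^ 2 * n₀ * (2 * H + 1) ^ n / T) := by gcongr
    _ = 25 * n ^ 4 * n₀ * (2 * H + 1) ^ n / T := by ring

/-- the exceptional set -/
def excP (n : ℕ) : Set (Fin n → ℤ) :=
  {x | ∃ n₀ : ℕ, 0 < n₀ ∧ (∃ k, (n₀ : ℤ) ^ (6 * (n ^ 2 + 1)) ≤ |x k|) ∧ ¬ PtAll n₀ x}

/-- **The exceptional set is small, with a power saving.** -/
theorem excP_card (hn : 2 ≤ n) {H : ℕ} (hH : 1 ≤ H) :
    ({x ∈ excP n | ∀ k, |x k| ≤ (H : ℤ)}.ncard : ℝ) ≤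
      50 * n ^ 4 * (2 * H + 1) ^ n / (H : ℝ) ^ (((6 * (n ^ 2 + 1) : ℕ) : ℝ)⁻¹) := by
  classical
  set A : ℕ := 6 * (n ^ 2 + 1) with hA
  have hA0 : A ≠ 0 := by omega
  have hHR : (1 : ℝ) ≤ H := by exact_mod_cast hH
  set y : ℝ := (H : ℝ) ^ ((A : ℝ)⁻¹) with hy
  have hy1 : 1 ≤ y := Real.one_le_rpow hHR (by positivity)
  have hyA : y ^ A = H := Real.rpow_inv_natCast_pow (by positivity) hA0
  set M : ℕ := ⌊y⌋₊ with hM
  have hM1 : 1 ≤ M := (Nat.one_le_floor_iff _).2 hy1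
  have hMy : (M : ℝ) ≤ y := Nat.floor_le (by linarith)
  have hMA : M ^ A ≤ H := by
    have h1 : (M : ℝ) ^ A ≤ H := by
      rw [← hyA]
      exact pow_le_pow_left₀ (by positivity) hMy A
    exact_mod_cast h1
  have hyM : y ≤ 2 * M := by
    have h1 := Nat.lt_floor_add_one y
    have h2 : (1 : ℝ) ≤ M := by exact_mod_cast hM1
    rw [← hM] at h1
    linarith
  have hMR : (0 : ℝ) < M := by exact_mod_cast hM1
  -- the union
  let S : ℕ → Finset (Fin n → ℤ) := fun n₀ => (boxF n H).filter fun x => ¬ PtAll n₀ x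
  have hset : {x ∈ excP n | ∀ k, |x k| ≤ (H : ℤ)} ⊆ ((Icc 1 M).biUnion S : Set (Fin n → ℤ)) := by
    rintro x ⟨⟨n₀, hn₀, ⟨k, hk⟩, hx⟩, hb⟩
    rw [mem_coe, mem_biUnion]
    refine ⟨n₀, mem_Icc.2 ⟨hn₀, ?_⟩, mem_filter.2 ⟨mem_boxF.2 hb, hx⟩⟩
    have h1 : (n₀ : ℤ) ^ A ≤ H := hk.trans (hb k)
    have h2 : (n₀ : ℝ) ^ A ≤ y ^ A := by
      rw [hyA]
      exact_mod_cast h1
    exact Nat.le_floor ((pow_le_pow_iff_left₀ (by positivity) (by positivity) hA0).1 h2)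
  have h1 : ({x ∈ excP n | ∀ k, |x k| ≤ (H : ℤ)}.ncard : ℝ) ≤
      ∑ n₀ ∈ Icc 1 M, ((S n₀).card : ℝ) := by
    have h2 := Set.ncard_le_ncard hset (Finset.finite_toSet _)
    rw [Set.ncard_coe_finset] at h2
    exact_mod_cast h2.trans card_biUnion_le
  have hT : (M ^ 3) ^ (2 * (n ^ 2 + 1)) ≤ H := by
    rw [← pow_mul]
    have h2 : 3 * (2 * (n ^ 2 + 1)) = A := by rw [hA]; ring
    rwa [h2]
  refine h1.trans ?_
  calc ∑ n₀ ∈ Icc 1 M, ((S n₀).card : ℝ)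
      ≤ ∑ _n₀ ∈ Icc 1 M, 25 * (n : ℝ) ^ 4 * M * (2 * H + 1) ^ n / ((M ^ 3 : ℕ) : ℝ) := by
        refine sum_le_sum fun n₀ hn₀ => ?_
        obtain ⟨h2, h3⟩ := mem_Icc.1 hn₀
        refine (count_all hn h2 (Nat.one_le_pow 3 M hM1) hT).trans ?_
        gcongr
    _ = M * (25 * (n : ℝ) ^ 4 * M * (2 * H + 1) ^ n / ((M ^ 3 : ℕ) : ℝ)) := by
        rw [sum_const, nsmul_eq_mul, Nat.card_Icc, Nat.add_sub_cancel]
    _ = 25 * (n : ℝ) ^ 4 * (2 * H + 1) ^ n / M := by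
        push_cast
        field_simp
    _ = 50 * (n : ℝ) ^ 4 * (2 * H + 1) ^ n / (2 * M) := by
        field_simp
        ring
    _ ≤ 50 * n ^ 4 * (2 * H + 1) ^ n / y := by
        gcongr

/-- the places -/
theorem PtOdd.place {K : Type} [Field K] [NumberField K] {n₁ : ℕ} {s t : Fin n}
    {x : Fin n → ℤ} (h : PtOdd (2 * (NumberField.discr K).natAbs * n₁) s t x) :
    ∃ v : HeightOneSpectrum (𝓞 K), Collide (fun i => (x i : K)) v s t ∧ (2 : 𝓞 K) ∉ v.asIdeal ∧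
      (n₁ : 𝓞 K) ∉ v.asIdeal := by
  obtain ⟨p, hp, hpn, ⟨k, m, hm, hpm⟩, hu⟩ := h
  have hp2 : p ≠ 2 := by
    rintro rfl
    exact hpn (Dvd.dvd.mul_right (dvd_mul_right _ _) _)
  obtain ⟨v, hv1, hv2, hv3⟩ := exists_unr_place K p hp.out (fun h => hpn
      (Dvd.dvd.mul_right (Dvd.dvd.mul_left (by
        have := Int.natAbs_dvd_natAbs.2 h
        simpa using this) _) _))
  refine ⟨v, ⟨?_, fun i j hij hn => ?_⟩, ?_, ?_⟩
  · rw [← Int.cast_sub, hm, Int.cast_mul, Int.cast_pow, Int.cast_natCast, map_mul, map_pow, hv1,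
      hv2 m hpm, mul_one, ← exp_nsmul, log_exp]
    refine ⟨-(k : ℤ) - 1, ?_⟩
    simp only [smul_neg, nsmul_eq_mul, mul_one]
    push_cast
    ring
  · rw [← Int.cast_sub]
    exact hv2 _ (hu i j hij hn)
  · have h2p : ¬ (p : ℤ) ∣ 2 := by
      intro h1
      have h3 : p ∣ 2 := by exact_mod_cast h1
      exact hp2 ((Nat.prime_dvd_prime_iff_eq hp.out Nat.prime_two).1 h3)
    exact_mod_cast hv3 2 h2p
  · have h5 := hv3 n₁ (fun h => hpn (Dvd.dvd.mul_left (by exact_mod_cast h) _))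
    exact_mod_cast h5

/-- outside of the exceptional set -/
theorem excP_all {x : Fin n → ℤ} (hx : x ∉ excP n) {n₀ : ℕ} (hn₀ : 0 < n₀)
    (h : ∃ k, (n₀ : ℤ) ^ (6 * (n ^ 2 + 1)) ≤ |x k|) : PtAll n₀ x := by
  by_contra hcon
  exact hx ⟨n₀, hn₀, h, hcon⟩

end

end Pool.Agent.H852.J
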