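import Mathlib
import Pool.Agent.H852.J.V2
import Pool.Agent.H852.J.K7

/-!
# All subsets of the branch points, in one-parameter families
-/

set_option linter.unusedSectionVars false
set_option autoImplicit false

open Polynomial Module NumberField IsDedekindDomain
open HeightOneSpectrum WithZero
open Pool.Agent.Results.MP_640417_ag.HyperellipticEveryPrime
open Pool.Agent.N171 Pool.Agent.N171.Al Pool.Agent.N171.Pm Pool.Agent.N171.Bg Pool.Agent.N171.TG

namespace Pool.Agent.H852.J

noncomputable section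

section family

variable {K : Type} [Field K] [NumberField K] {n : ℕ}

/-- the sections over the algebraic closure -/
def upR (r : Fin n → K[X]) (_ : Fin 1) (k : Fin n) : (AlgebraicClosure K)[X] :=
  (r k).map (algebraMap K (AlgebraicClosure K))

/-- the equation -/
def upF (r : Fin n → K[X]) (_ : Fin 1) : K[X][X] := ∏ k, (X - C (r k))

theorem upF_split (r : Fin n → K[X]) (i : Fin 1) :
    (upF r i).map (mapRingHom (algebraMap K (AlgebraicClosure K))) =
      ∏ k, (X - C (upR r i k)) := by
  rw [upF, Polynomial.map_prod]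
  refine Finset.prod_congr rfl fun k _ => ?_
  rw [Polynomial.map_sub, map_X, map_C]
  rfl

theorem upR_disc (r : Fin n → K[X]) :
    (∏ i, disc (upR r i)) = (disc r).map (algebraMap K (AlgebraicClosure K)) := by
  rw [Fin.prod_univ_one, disc, disc, Polynomial.map_prod]
  refine Finset.prod_congr rfl fun k _ => ?_
  rw [Polynomial.map_prod]
  refine Finset.prod_congr rfl fun l _ => ?_
  rw [Polynomial.map_sub]
  rfl

theorem upR_conj (r : Fin n → K[X]) (i : Fin 1) (k : Fin n)
    (σ : AlgebraicClosure K ≃ₐ[K] AlgebraicClosure K) :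
    (upR r i k).map (σ : AlgebraicClosure K →+* AlgebraicClosure K) = upR r i k := by
  rw [upR, Polynomial.map_map]
  congr 1
  ext x
  exact σ.commutes x

theorem upR_eval (r : Fin n → K[X]) (i : Fin 1) (k : Fin n) (c : K) :
    (upR r i k).eval (algebraMap K (AlgebraicClosure K) c) =
      algebraMap K (AlgebraicClosure K) ((r k).eval c) := by
  rw [upR, eval_map, eval₂_at_apply]

/-- the zeros of a difference of sections which are simple zeros of the product of all differences -/
def meetK (r : Fin n → K[X]) (s t : Fin n) : Set (AlgebraicClosure K) :=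
  {z | aeval z (disc r) = 0 ∧ aeval z (derivative (disc r)) ≠ 0 ∧ aeval z (r s - r t) = 0}

/-- **The places in a family.** -/
theorem family_places (hn : 2 ≤ n) {r : Fin n → K[X]}
    (h5 : ∀ s t, s ≠ t → 5 ≤ (meetK r s t).ncard) {S : Set (HeightOneSpectrum (𝓞 K))}
    (hS : S.Finite) :
    {c : K | ¬ ∀ s t, s ≠ t → ∃ v : HeightOneSpectrum (𝓞 K),
      Collide (fun k => (r k).eval c) v s t ∧ (2 : 𝓞 K) ∉ v.asIdeal ∧ v ∉ S}.Finite := by
  classical
  have hd : (∏ i, disc (upR r i)) ≠ 0 := by
    rw [upR_disc]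
    intro h0
    have h1 := h5 ⟨0, by omega⟩ ⟨1, by omega⟩ (fun h => by
      have h2 := congrArg Fin.val h
      exact absurd h2 (by norm_num))
    have h2 : meetK r ⟨0, by omega⟩ ⟨1, by omega⟩ = ∅ := by
      ext z
      refine ⟨fun hz => ?_, fun hz => absurd hz (Set.notMem_empty z)⟩
      have h3 := hz.2.1
      have h4 : disc r = 0 := (Polynomial.map_eq_zero _).1 h0
      rw [h4, derivative_zero, map_zero] at h3
      exact absurd rfl h3
    rw [h2, Set.ncard_empty] at h1
    exact absurd h1 (by norm_num)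
  obtain ⟨B, hsys⟩ := exists_sys (upF_split r) hd
  set S' : Set (HeightOneSpectrum (𝓞 K)) := S ∪ {v | (2 : 𝓞 K) ∈ v.asIdeal} ∪
    {v | ¬ UnitSet B v} with hS'
  have h2fin : {v : HeightOneSpectrum (𝓞 K) | (2 : 𝓞 K) ∈ v.asIdeal}.Finite := by
    refine (Pool.Agent.H422.HE.finite_unit (2 : K) two_ne_zero).subset ?_
    intro v hv h
    have h1 : v.valuation K (algebraMap (𝓞 K) K 2) < 1 := (v.valuation_lt_one_iff_mem 2).2 hv
    rw [map_ofNat, h] at h1
    exact lt_irrefl _ h1
  have hS'fin : S'.Finite := (hS.union h2fin).union (unitSet_finite hsys.fin)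
  have hun : ∀ v ∉ S', UnitSet B v := by
    intro v hv
    by_contra h
    exact hv (Or.inr h)
  choose! m Z hZ hmZ hZB hmeet using fun (k l : Fin n) (hkl : k ≠ l) =>
    exists_meetPoly hsys (i := 0) (k := k) (l := l) hkl
  have hE : ∀ (k l : Fin n), k ≠ l → {c : K | ∀ v ∉ S', v.valuation K c ≤ 1 →
        ¬ Odd (log (v.valuation K ((m k l).eval c)))}.Finite := by
    intro k l hkl
    refine fin_pair hS'fin hsys.fin hsys.stable hun (hZB k l hkl) (hmZ k l hkl) ?_
    refine (h5 k l hkl).trans ?_
    rw [← Set.ncard_coe_finset]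
    refine Set.ncard_le_ncard (fun z hz => ?_) (Finset.finite_toSet _)
    rw [Finset.mem_coe, hZ k l hkl]
    obtain ⟨h1, h2, h3⟩ := hz
    refine ⟨onePair_of_simple ⟨?_, ?_⟩, AlgEquiv.refl, ?_⟩
    · rw [upR_disc, eval_map_algebraMap]
      exact h1
    · rw [upR_disc, derivative_map, eval_map_algebraMap]
      exact h2
    · rw [Polynomial.map_sub, upR_conj, upR_conj, upR, upR, ← Polynomial.map_sub,
        eval_map_algebraMap]
      exact h3
  refine (Set.finite_iUnion fun k : Fin n => Set.finite_iUnion fun l : Fin n =>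
    Set.Finite.subset (s := if k ≠ l then {c : K | ∀ v ∉ S', v.valuation K c ≤ 1 →
        ¬ Odd (log (v.valuation K ((m k l).eval c)))} else ∅) (by
      split_ifs with h
      · exact hE k l h
      · exact Set.finite_empty) subset_rfl).subset ?_
  intro c hc
  rw [Set.mem_setOf_eq] at hc
  push Not at hc
  obtain ⟨k, l, hkl, hc⟩ := hc
  refine Set.mem_iUnion.2 ⟨k, Set.mem_iUnion.2 ⟨l, ?_⟩⟩
  rw [if_pos hkl]
  intro v hv hvc hodd
  refine hv ?_
  have h2v : (2 : 𝓞 K) ∉ v.asIdeal := fun h => hv (Or.inl (Or.inr h))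
  refine Or.inl (Or.inl (hc v ?_ h2v))
  -- the place
  let M : IntermediateField K (AlgebraicClosure K) := IntermediateField.adjoin K B
  have hBM : ∀ x ∈ B, x ∈ M := fun x hx => IntermediateField.subset_adjoin K B hx
  have hfd : FiniteDimensional K M := by
    have := hsys.fin.to_subtype
    exact IntermediateField.finiteDimensional_adjoin
      fun z _ => Normal.isIntegral (F := K) inferInstance z
  have hnM : NumberField M := NumberField.of_module_finite K M
  have hnorm : Normal K M := normal_adjoin B hsys.stable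
  have hg : IsGalois K M := ⟨⟩
  obtain ⟨P, hP⟩ := exists_place_above (M := M) v
  obtain ⟨t₀, ht₀, htG, hlt, -, hmc, σ, k', l', -, hk', hl', h0⟩ :=
    near_pair hBM P hsys (hun v hv) hvc hkl (hmeet k l hkl) hodd
  have hinj : ∀ {a b : Fin n}, upR r 0 a = upR r 0 b → a = b := by
    intro a b hab
    by_contra hne
    exact hsys.inj (i := 0) hne hab
  rw [upR_conj] at hk' hl'
  have hk : k = k' := hinj hk'
  have hl : l = l' := hinj hl'
  rw [← hk, ← hl] at h0
  have hcoe : ∀ a : Fin n, ((algebraMap K M ((r a).eval c) : M) : AlgebraicClosure K) =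
      (upR r 0 a).eval (algebraMap K (AlgebraicClosure K) c) := by
    intro a
    rw [upR_eval]
    rfl
  refine ⟨?_, fun x y hxy hn => ?_⟩
  · have h1 := sec_diff_near hBM P hsys (hun v hv) hvc hkl (hcoe k) (hcoe l) ht₀ htG hlt h0
    rw [← hmc, ← map_sub, val_eq_pow_card v P, val_eq_pow_card v P] at h1
    have h3 := (pow_left_inj₀ zero_le zero_le Nat.card_pos.ne').1 h1
    rw [h3]
    exact hodd
  · have h4 : (upR r 0 x - upR r 0 y).eval t₀ ≠ 0 := by
      intro h5
      rcases hsys.pair 0 k l x y t₀ htG hkl hxy h0 h5 with ⟨h6, h7⟩ | ⟨h6, h7⟩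
      · exact hn ⟨Or.inl h6.symm, Or.inr h7.symm⟩
      · exact hn ⟨Or.inr h7.symm, Or.inl h6.symm⟩
    have h1 := sec_diff_one hBM P hsys (hun v hv) hvc hxy (hcoe x) (hcoe y) ht₀ hlt h4
    rw [← map_sub, val_eq_pow_card v P] at h1
    exact (pow_eq_one_iff_of_nonneg zero_le Nat.card_pos.ne').1 h1

end family

end

end Pool.Agent.H852.J
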