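import Mathlib
import Pool.Agent.H852.J.V2

/-!
# All subsets of the branch points, with quadratic twists
-/

set_option linter.unusedSectionVars false
set_option autoImplicit false

open Polynomial Module NumberField IsDedekindDomain
open HeightOneSpectrum WithZero
open Pool.Agent.Results.MP_640417_ag.HyperellipticEveryPrime
open Pool.Agent.N171 Pool.Agent.N171.Al Pool.Agent.N171.Pm Pool.Agent.N171.Bg Pool.Agent.N171.TG

namespace Pool.Agent.H852.J

noncomputable section

variable {L : Type} [Field L] [NumberField L] {A : Type} [DecidableEq A]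

/-- multiplication of the points by a factor of even valuation -/
theorem OddIn.smul {w : HeightOneSpectrum (𝓞 L)} {T : Finset A} {u : A → L}
    {I : Finset {x // x ∈ T}} (h : OddIn w T u I) {c : L} (hc : c ≠ 0)
    (he : Even (log (w.valuation L c))) : OddIn w T (fun x => c * u x) I := by
  intro x y hxy
  rw [← h x y hxy]
  have h1 : (fun x => c * u x) (x : A) - (fun x => c * u x) (y : A) = c * (u x - u y) :=
    (mul_sub _ _ _).symm
  rw [h1]
  by_cases h2 : u x - u y = 0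
  · rw [h2, mul_zero]
  · have h3 : w.valuation L c ≠ 0 := (Valuation.ne_zero_iff _).2 hc
    have h4 : w.valuation L (u x - u y) ≠ 0 := (Valuation.ne_zero_iff _).2 h2
    rw [map_mul, log_mul h3 h4]
    obtain ⟨k, hk⟩ := he
    constructor
    · rintro ⟨j, hj⟩
      exact ⟨j - k, by omega⟩
    · rintro ⟨j, hj⟩
      exact ⟨j + k, by omega⟩

/-- **The Tate conjecture for the curves branched at subsets, with twists.** -/
theorem branch_tw {r : A → L} {ι : Type} [Fintype ι] [Nonempty ι]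
    (ord : ι → ℕ) (hord : Function.Injective ord) (R : ι → Finset A) (b : ι → Option A)
    (hadm : ∀ i, Adm (R i) (b i)) (hsep : ∀ i i', ord i' < ord i → ∃ s ∈ R i, s ∉ R i') {n₁ : ℕ}
    (c : ι → L) (hc : ∀ i, c i ≠ 0) (hce : ∀ i, ∀ w : HeightOneSpectrum (𝓞 L),
      (n₁ : 𝓞 L) ∉ w.asIdeal → Even (log (w.valuation L (c i))))
    (hpl : ∀ s t, s ≠ t → ∃ w : HeightOneSpectrum (𝓞 L), Collide r w s t ∧ (2 : 𝓞 L) ∉ w.asIdeal ∧
      (n₁ : 𝓞 L) ∉ w.asIdeal)
    {d : ℕ} (τ : AbsoluteGaloisGroup L →* Matrix (Fin d) (Fin d) ℚ_[2]) (hτ : IsLattice τ)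
    (hun : ∀ w : HeightOneSpectrum (𝓞 L), (n₁ : 𝓞 L) ∉ w.asIdeal → Unramified τ w) :
    EveryPrime (fun i => prodR (brT (R i) (b i)) (fun x => c i * brU r (R i) (b i) x)) τ := by
  classical
  have hr : Function.Injective r := inj_of_collide fun s t hst => by
    obtain ⟨w, hw, -⟩ := hpl s t hst
    exact ⟨w, hw⟩
  have hcard : ∀ i, 2 < Fintype.card {x // x ∈ brT (R i) (b i)} := by
    intro i
    rw [Fintype.card_coe]
    exact (adm_card (hadm i)).2
  refine master3 (fun i => brT (R i) (b i)) (fun i x => c i * brU r (R i) (b i) x)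
    (fun i x y h => brU_inj hr _ _ (mul_left_cancel₀ (hc i) h)) (fun i => (adm_card (hadm i)).1)
    (fun i => (adm_card (hadm i)).2) ord hord (fun i i' hlt => ?_) τ hτ (fun i => ?_)
  · obtain ⟨s, hs, hs'⟩ := hsep i i' hlt
    by_cases hb : b i = some s
    · rw [hb]
      refine ⟨{x // x ∈ brT (R i) (some s)}, fun a => Finset.univ.erase a,
        genSets_erase ?_, fun a => ?_⟩
      · have h1 := (adm_card (hadm i)).1
        rw [hb] at h1
        rwa [Fintype.card_coe]
      · have hne : s ≠ a := fun h => (Finset.ne_of_mem_erase a.2) h.symm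
        obtain ⟨w, hw, h2, h3⟩ := hpl s a hne
        exact ⟨w, h2, (br_good' hr hw (hadm i') fun h => hs' h.1).smul (hc i') (hce i' w h3),
          (br_base hr hw).smul (hc i) (hce i w h3)⟩
    · let s₀ : {x // x ∈ brT (R i) (b i)} := ⟨s, mem_brT.2 ⟨hs, hb⟩⟩
      refine ⟨{a : {x // x ∈ brT (R i) (b i)} // a ≠ s₀},
        fun a => {s₀, (a : {x // x ∈ brT (R i) (b i)})}, genSets_star' s₀ (hcard i), fun a => ?_⟩
      have hne : s ≠ (a : {x // x ∈ brT (R i) (b i)}) := fun h => a.2 (Subtype.ext h.symm)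
      obtain ⟨w, hw, h2, h3⟩ := hpl s _ hne
      exact ⟨w, h2, (br_good' hr hw (hadm i') fun h => hs' h.1).smul (hc i') (hce i' w h3),
        (br_pair (s := s₀) hr hw (Ne.symm a.2)).smul (hc i) (hce i w h3)⟩
  · obtain ⟨s, hs⟩ : (brT (R i) (b i)).Nonempty := by
      rw [← Finset.card_pos]
      have := (adm_card (hadm i)).2
      omega
    let s₀ : {x // x ∈ brT (R i) (b i)} := ⟨s, hs⟩
    refine ⟨{a : {x // x ∈ brT (R i) (b i)} // a ≠ s₀},
      fun a => {s₀, (a : {x // x ∈ brT (R i) (b i)})}, genSets_star' s₀ (hcard i), fun a => ?_⟩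
    have hne : s ≠ (a : {x // x ∈ brT (R i) (b i)}) := fun h => a.2 (Subtype.ext h.symm)
    obtain ⟨w, hw, h2, h3⟩ := hpl s _ hne
    exact ⟨w, h2, hun w h3, (br_pair (s := s₀) hr hw (Ne.symm a.2)).smul (hc i) (hce i w h3)⟩

/-- **All subsets.** -/
theorem all_subsets_tw [Fintype A] {r : A → L} (hA : 3 ≤ Fintype.card A)
    (b : Finset A → Option A) (hb : ∀ R : Finset A, 3 ≤ R.card → Adm R (b R)) {n₁ : ℕ}
    (c : Finset A → L) (hc : ∀ R, c R ≠ 0) (hce : ∀ R, ∀ w : HeightOneSpectrum (𝓞 L),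
      (n₁ : 𝓞 L) ∉ w.asIdeal → Even (log (w.valuation L (c R))))
    (hpl : ∀ s t, s ≠ t → ∃ w : HeightOneSpectrum (𝓞 L), Collide r w s t ∧ (2 : 𝓞 L) ∉ w.asIdeal ∧
      (n₁ : 𝓞 L) ∉ w.asIdeal)
    {d : ℕ} (τ : AbsoluteGaloisGroup L →* Matrix (Fin d) (Fin d) ℚ_[2]) (hτ : IsLattice τ)
    (hun : ∀ w : HeightOneSpectrum (𝓞 L), (n₁ : 𝓞 L) ∉ w.asIdeal → Unramified τ w) :
    EveryPrime (fun R : {R : Finset A // 3 ≤ R.card} =>
      prodR (brT R.1 (b R.1)) (fun x => c R.1 * brU r R.1 (b R.1) x)) τ := by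
  classical
  have : Nonempty {R : Finset A // 3 ≤ R.card} := ⟨⟨Finset.univ, by rwa [Finset.card_univ]⟩⟩
  obtain ⟨ord, hord, hcard⟩ := ord_exists (fun R : {R : Finset A // 3 ≤ R.card} => R.1.card)
  refine branch_tw ord hord (fun R => R.1) (fun R => b R.1) (fun R => hb R.1 R.2)
    (fun R R' hlt => ?_) (fun R => c R.1) (fun R => hc R.1) (fun R => hce R.1) hpl τ hτ hun
  by_contra hcon
  push Not at hcon
  have h1 := Finset.eq_of_subset_of_card_le hcon (hcard R R' hlt)
  rw [Subtype.ext h1] at hlt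
  exact lt_irrefl _ hlt

/-- the node does not divide the leading coefficient -/
theorem NodeS.last {n m N : ℕ} {a : Fin (n + 1) → ℤ} (h : NodeS (2 * m * N) a) :
    NodeS (2 * m * (N * (a (Fin.last n)).natAbs)) a := by
  obtain ⟨p, hp, γ, h1, h2, h3⟩ := h
  refine ⟨p, hp, γ, fun h => ?_, h2, h3⟩
  rw [← mul_assoc] at h
  rcases (Nat.Prime.dvd_mul hp.out).1 h with h4 | h4
  · exact h1 h4
  · exact h2 (Int.natCast_dvd.2 h4)

end

end Pool.Agent.H852.J
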