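import Mathlib
import Pool.Agent.H852.J.V7

/-!
# All subsets of the branch points: only the parities of the valuations matter
-/

set_option linter.unusedSectionVars false
set_option autoImplicit false

open Polynomial Module NumberField IsDedekindDomain
open HeightOneSpectrum WithZero
open Pool.Agent.Results.MP_640417_ag.HyperellipticEveryPrime
open Pool.Agent.N171 Pool.Agent.N171.Al Pool.Agent.N171.Pm Pool.Agent.N171.Bg Pool.Agent.N171.TG

namespace Pool.Agent.H852.J

noncomputable section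

variable {L : Type} [Field L] [NumberField L] {A : Type} [DecidableEq A]

/-- exactly the difference `r s - r t` has odd valuation at `w` -/
structure CollideE (r : A → L) (w : HeightOneSpectrum (𝓞 L)) (s t : A) : Prop where
  odd : Odd (log (w.valuation L (r s - r t)))
  even : ∀ x y, x ≠ y → ¬ ((x = s ∨ x = t) ∧ (y = s ∨ y = t)) →
    Even (log (w.valuation L (r x - r y)))

theorem inj_of_collideE {r : A → L}
    (h : ∀ s t, s ≠ t → ∃ w : HeightOneSpectrum (𝓞 L), CollideE r w s t) :
    Function.Injective r := by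
  intro s t hst
  by_contra hne
  obtain ⟨w, hw⟩ := h s t hne
  have h1 := hw.odd
  rw [hst, sub_self, map_zero, log_zero] at h1
  exact absurd h1 (by decide)

section val

variable (w : HeightOneSpectrum (𝓞 L))

theorem lg_mul {x y : L} (hx : x ≠ 0) (hy : y ≠ 0) :
    log (w.valuation L (x * y)) = log (w.valuation L x) + log (w.valuation L y) := by
  rw [map_mul, log_mul ((Valuation.ne_zero_iff _).2 hx) ((Valuation.ne_zero_iff _).2 hy)]

theorem lg_div {x y : L} (hx : x ≠ 0) (hy : y ≠ 0) :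
    log (w.valuation L (x / y)) = log (w.valuation L x) - log (w.valuation L y) := by
  have h1 := lg_mul w (div_ne_zero hx hy) hy
  rw [div_mul_cancel₀ x hy] at h1
  omega

theorem lg_prod_even {ι : Type} (s : Finset ι) (f : ι → L) (hf : ∀ i ∈ s, f i ≠ 0)
    (h : ∀ i ∈ s, Even (log (w.valuation L (f i)))) :
    Even (log (w.valuation L (∏ i ∈ s, f i))) := by
  have h1 : (∏ i ∈ s, f i) ≠ 0 ∧ Even (log (w.valuation L (∏ i ∈ s, f i))) := by
    refine Finset.prod_induction f (fun x => x ≠ 0 ∧ Even (log (w.valuation L x))) ?_ ?_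
      fun i hi => ⟨hf i hi, h i hi⟩
    · rintro a b ⟨ha, ha'⟩ ⟨hb, hb'⟩
      refine ⟨mul_ne_zero ha hb, ?_⟩
      rw [lg_mul w ha hb]
      exact ha'.add hb'
    · refine ⟨one_ne_zero, ?_⟩
      rw [map_one, log_one]
      exact ⟨0, rfl⟩
  exact h1.2

end val

/-- the valuations of the differences of the model -/
theorem brU_lg {r : A → L} (hr : Function.Injective r) (w : HeightOneSpectrum (𝓞 L)) (R : Finset A)
    (j : A) {x y : A} (hx : x ∈ R.erase j) (hy : y ∈ R.erase j) (hxy : x ≠ y) :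
    log (w.valuation L (brU r R (some j) x - brU r R (some j) y)) =
      log (w.valuation L (brD r R j)) + log (w.valuation L (r x - r y)) -
        (log (w.valuation L (r x - r j)) + log (w.valuation L (r y - r j))) := by
  have h0 : ∀ i ∈ R.erase j, r i - r j ≠ 0 := fun i hi =>
    sub_ne_zero.2 fun h => (Finset.ne_of_mem_erase hi) (hr h)
  have hyx : r y - r x ≠ 0 := sub_ne_zero.2 fun h => hxy (hr h).symm
  have h2 : brU r R (some j) x - brU r R (some j) y =
      brD r R j * (r y - r x) / ((r x - r j) * (r y - r j)) := by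
    have h3 := h0 x hx
    have h4 := h0 y hy
    change brD r R j / (r x - r j) - brD r R j / (r y - r j) = _
    field_simp
    ring
  rw [h2, lg_div w (mul_ne_zero (brD_ne hr R j) hyx) (mul_ne_zero (h0 x hx) (h0 y hy)),
    lg_mul w (brD_ne hr R j) hyx, lg_mul w (h0 x hx) (h0 y hy), Valuation.map_sub_swap]

/-- the differences of the model have the same parities if all differences with the base point are even -/
theorem br_par {r : A → L} (hr : Function.Injective r) {w : HeightOneSpectrum (𝓞 L)}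
    (R : Finset A) (b : Option A)
    (hb : ∀ j, b = some j → ∀ i ∈ R, i ≠ j → Even (log (w.valuation L (r i - r j)))) :
    ∀ x ∈ brT R b, ∀ y ∈ brT R b, x ≠ y →
      (Odd (log (w.valuation L (brU r R b x - brU r R b y))) ↔
        Odd (log (w.valuation L (r x - r y)))) := by
  cases b with
  | none => exact fun _ _ _ _ _ => Iff.rfl
  | some j =>
    intro x hx y hy hxy
    have h1 : ∀ i ∈ R.erase j, Even (log (w.valuation L (r i - r j))) := fun i hi =>
      hb j rfl i (Finset.mem_of_mem_erase hi) (Finset.ne_of_mem_erase hi)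
    have hD : Even (log (w.valuation L (brD r R j))) := by
      refine lg_prod_even w _ _ (fun k hk => sub_ne_zero.2 fun h =>
        (Finset.ne_of_mem_erase hk) (hr h).symm) fun k hk => ?_
      rw [Valuation.map_sub_swap]
      exact h1 k hk
    rw [brU_lg hr w R j hx hy hxy]
    obtain ⟨a, ha⟩ := hD
    obtain ⟨c, hc⟩ := h1 x hx
    obtain ⟨d, hd⟩ := h1 y hy
    constructor
    · rintro ⟨e, he⟩
      exact ⟨e - a + c + d, by omega⟩
    · rintro ⟨e, he⟩
      exact ⟨e + a - c - d, by omega⟩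

/-- good reduction if not both of the colliding points are branch points -/
theorem br_goodE {r : A → L} (hr : Function.Injective r) {w : HeightOneSpectrum (𝓞 L)} {s t : A}
    (h : CollideE r w s t) {R : Finset A} {b : Option A} (hadm : Adm R b)
    (hst : ¬ (s ∈ R ∧ t ∈ R)) : OddIn w (brT R b) (brU r R b) ∅ := by
  have h1 : ∀ x ∈ R, ∀ y ∈ R, x ≠ y → Even (log (w.valuation L (r x - r y))) := by
    intro x hx y hy hxy
    refine h.even x y hxy fun h2 => hst ?_
    rcases h2 with ⟨rfl | rfl, rfl | rfl⟩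
    · exact absurd rfl hxy
    · exact ⟨hx, hy⟩
    · exact ⟨hy, hx⟩
    · exact absurd rfl hxy
  have h3 := br_par hr (w := w) R b (fun j hj i hi hij => by
    subst hj
    exact h1 i hi j hadm.1 hij)
  intro x y hxy
  have hxy' : (x : A) ≠ y := fun h' => hxy (Subtype.ext h')
  rw [h3 x x.2 y y.2 hxy']
  exact ⟨fun h5 => absurd h5 (Int.not_odd_iff_even.2
    (h1 x (brT_sub _ _ x.2) y (brT_sub _ _ y.2) hxy')),
    fun h5 => absurd h5.1 (Finset.notMem_empty x)⟩

/-- a pair of branch points, both different from the base point -/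
theorem br_pairE {r : A → L} (hr : Function.Injective r) {w : HeightOneSpectrum (𝓞 L)}
    {R : Finset A} {b : Option A} {s t : {x // x ∈ brT R b}} (h : CollideE r w s t) :
    OddIn w (brT R b) (brU r R b) {s, t} := by
  have hs := s.2
  have ht := t.2
  have h3 := br_par hr (w := w) R b (fun j hj i hi hij => by
    refine h.even i j hij fun h4 => ?_
    rw [mem_brT] at hs ht
    rcases h4.2 with rfl | rfl
    · exact hs.2 hj
    · exact ht.2 hj)
  intro x y hxy
  have hxy' : (x : A) ≠ y := fun h' => hxy (Subtype.ext h')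
  rw [h3 x x.2 y y.2 hxy']
  by_cases h4 : ((x : A) = s ∨ (x : A) = t) ∧ ((y : A) = s ∨ (y : A) = t)
  · refine ⟨fun _ => ?_, fun _ => ?_⟩
    · rw [Finset.mem_insert, Finset.mem_singleton, Finset.mem_insert, Finset.mem_singleton]
      exact ⟨h4.1.imp Subtype.ext Subtype.ext, h4.2.imp Subtype.ext Subtype.ext⟩
    · rcases h4 with ⟨h5 | h5, h6 | h6⟩
      · exact absurd (h5.trans h6.symm) hxy'
      · rw [h5, h6]
        exact h.odd
      · rw [h5, h6, Valuation.map_sub_swap]
        exact h.odd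
      · exact absurd (h5.trans h6.symm) hxy'
  · refine ⟨fun h5 => absurd h5 (Int.not_odd_iff_even.2 (h.even x y hxy' h4)),
      fun h5 => absurd ?_ h4⟩
    rw [Finset.mem_insert, Finset.mem_singleton, Finset.mem_insert, Finset.mem_singleton] at h5
    exact ⟨h5.1.imp (fun h => by rw [h]) (fun h => by rw [h]),
      h5.2.imp (fun h => by rw [h]) (fun h => by rw [h])⟩

/-- a pair of branch points which contains the base point: an even cluster -/
theorem br_baseE {r : A → L} (hr : Function.Injective r) {w : HeightOneSpectrum (𝓞 L)}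
    {R : Finset A} {j : A} {a : {x // x ∈ brT R (some j)}} (h : CollideE r w j a) :
    OddIn w (brT R (some j)) (brU r R (some j)) (Finset.univ.erase a) := by
  have hmem : ∀ x : {x // x ∈ brT R (some j)}, (x : A) ∈ R ∧ (x : A) ≠ j := fun x =>
    ⟨Finset.mem_of_mem_erase x.2, Finset.ne_of_mem_erase x.2⟩
  have heven : ∀ x : {x // x ∈ brT R (some j)}, x ≠ a →
      Even (log (w.valuation L (r x - r j))) := by
    intro x hx
    refine h.even x j (hmem x).2 fun h1 => ?_
    rcases h1.1 with h2 | h2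
    · exact (hmem x).2 h2
    · exact hx (Subtype.ext h2)
  have hodd : Odd (log (w.valuation L (r a - r j))) := by
    rw [Valuation.map_sub_swap]
    exact h.odd
  have hD : Odd (log (w.valuation L (brD r R j))) := by
    have ha : (a : A) ∈ R.erase j := a.2
    rw [brD, ← Finset.mul_prod_erase _ _ ha]
    have hne : ∀ k ∈ (R.erase j).erase (a : A), r j - r k ≠ 0 := fun k hk =>
      sub_ne_zero.2 fun h1 => (Finset.ne_of_mem_erase (Finset.mem_of_mem_erase hk)) (hr h1).symm
    rw [lg_mul w (sub_ne_zero.2 fun h1 => (hmem a).2 (hr h1).symm)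
      (Finset.prod_ne_zero_iff.2 hne)]
    refine h.odd.add_even (lg_prod_even w _ _ hne fun k hk => ?_)
    rw [Valuation.map_sub_swap]
    exact heven ⟨k, Finset.mem_of_mem_erase hk⟩ fun h1 =>
      (Finset.ne_of_mem_erase hk) (congrArg Subtype.val h1)
  have hxy0 : ∀ x y : {x // x ∈ brT R (some j)}, x ≠ y →
      Even (log (w.valuation L (r x - r y))) := by
    intro x y hxy
    refine h.even x y (fun h1 => hxy (Subtype.ext h1)) fun h1 => ?_
    have h2 : (x : A) = a := h1.1.resolve_left (hmem x).2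
    have h3 : (y : A) = a := h1.2.resolve_left (hmem y).2
    exact hxy (Subtype.ext (h2.trans h3.symm))
  have hmem2 : ∀ x : {x // x ∈ brT R (some j)},
      x ∈ (Finset.univ : Finset {x // x ∈ brT R (some j)}).erase a ↔ x ≠ a := fun x => by
    rw [Finset.mem_erase]
    exact and_iff_left (Finset.mem_univ x)
  intro x y hxy
  rw [brU_lg hr w R j x.2 y.2 (fun h' => hxy (Subtype.ext h')), hmem2, hmem2]
  obtain ⟨d, hd⟩ := hD
  obtain ⟨e, he⟩ := hxy0 x y hxy
  by_cases hx : x = a
  · have hy : y ≠ a := fun h1 => hxy (hx.trans h1.symm)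
    obtain ⟨f, hf⟩ := heven y hy
    obtain ⟨g, hg⟩ := hodd
    subst hx
    exact ⟨fun ⟨z, hz⟩ => by omega, fun h => absurd rfl h.1⟩
  · obtain ⟨f, hf⟩ := heven x hx
    by_cases hy : y = a
    · obtain ⟨g, hg⟩ := hodd
      subst hy
      exact ⟨fun ⟨z, hz⟩ => by omega, fun h => absurd rfl h.2⟩
    · obtain ⟨g, hg⟩ := heven y hy
      exact ⟨fun _ => ⟨hx, hy⟩, fun _ => ⟨d + e - f - g, by omega⟩⟩

/-- **The Tate conjecture for the curves branched at subsets, with twists.** -/
theorem branch_par {r : A → L} {ι : Type} [Fintype ι] [Nonempty ι]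
    (ord : ι → ℕ) (hord : Function.Injective ord) (R : ι → Finset A) (b : ι → Option A)
    (hadm : ∀ i, Adm (R i) (b i)) (hsep : ∀ i i', ord i' < ord i → ∃ s ∈ R i, s ∉ R i') {n₁ : ℕ}
    (c : ι → L) (hc : ∀ i, c i ≠ 0) (hce : ∀ i, ∀ w : HeightOneSpectrum (𝓞 L),
      (n₁ : 𝓞 L) ∉ w.asIdeal → Even (log (w.valuation L (c i))))
    (hpl : ∀ s t, s ≠ t → ∃ w : HeightOneSpectrum (𝓞 L), CollideE r w s t ∧
      (2 : 𝓞 L) ∉ w.asIdeal ∧ (n₁ : 𝓞 L) ∉ w.asIdeal)
    {d : ℕ} (τ : AbsoluteGaloisGroup L →* Matrix (Fin d) (Fin d) ℚ_[2]) (hτ : IsLattice τ)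
    (hun : ∀ w : HeightOneSpectrum (𝓞 L), (n₁ : 𝓞 L) ∉ w.asIdeal → Unramified τ w) :
    EveryPrime (fun i => prodR (brT (R i) (b i)) (fun x => c i * brU r (R i) (b i) x)) τ := by
  classical
  have hr : Function.Injective r := inj_of_collideE fun s t hst => by
    obtain ⟨w, hw, -⟩ := hpl s t hst
    exact ⟨w, hw⟩
  have hcard : ∀ i, 2 < Fintype.card {x // x ∈ brT (R i) (b i)} := by
    intro i
    rw [Fintype.card_coe]
    exact (adm_card (hadm i)).2
  refine master3 (fun i => brT (R i) (b i)) (fun i x => c i * brU r (R i) (b i) x)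
    (fun i x y h => brU_inj hr _ _ (mul_left_cancel₀ (hc i) h)) (fun i => (adm_card (hadm i)).1)
    (fun i => (adm_card (hadm i)).2) ord hord (fun i i' hlt => ?_) τ hτ (fun i => ?_)
  · obtain ⟨s, hs, hs'⟩ := hsep i i' hlt
    by_cases hb : b i = some s
    · rw [hb]
      refine ⟨{x // x ∈ brT (R i) (some s)}, fun a => Finset.univ.erase a,
        genSets_erase ?_, fun a => ?_⟩
      · have h1 := (adm_card (hadm i)).1
        rw [hb] at h1
        rwa [Fintype.card_coe]
      · have hne : s ≠ a := fun h => (Finset.ne_of_mem_erase a.2) h.symm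
        obtain ⟨w, hw, h2, h3⟩ := hpl s a hne
        exact ⟨w, h2, (br_goodE hr hw (hadm i') fun h => hs' h.1).smul (hc i') (hce i' w h3),
          (br_baseE hr hw).smul (hc i) (hce i w h3)⟩
    · let s₀ : {x // x ∈ brT (R i) (b i)} := ⟨s, mem_brT.2 ⟨hs, hb⟩⟩
      refine ⟨{a : {x // x ∈ brT (R i) (b i)} // a ≠ s₀},
        fun a => {s₀, (a : {x // x ∈ brT (R i) (b i)})}, genSets_star' s₀ (hcard i), fun a => ?_⟩
      have hne : s ≠ (a : {x // x ∈ brT (R i) (b i)}) := fun h => a.2 (Subtype.ext h.symm)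
      obtain ⟨w, hw, h2, h3⟩ := hpl s _ hne
      exact ⟨w, h2, (br_goodE hr hw (hadm i') fun h => hs' h.1).smul (hc i') (hce i' w h3),
        (br_pairE (s := s₀) hr hw).smul (hc i) (hce i w h3)⟩
  · obtain ⟨s, hs⟩ : (brT (R i) (b i)).Nonempty := by
      rw [← Finset.card_pos]
      have := (adm_card (hadm i)).2
      omega
    let s₀ : {x // x ∈ brT (R i) (b i)} := ⟨s, hs⟩
    refine ⟨{a : {x // x ∈ brT (R i) (b i)} // a ≠ s₀},
      fun a => {s₀, (a : {x // x ∈ brT (R i) (b i)})}, genSets_star' s₀ (hcard i), fun a => ?_⟩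
    have hne : s ≠ (a : {x // x ∈ brT (R i) (b i)}) := fun h => a.2 (Subtype.ext h.symm)
    obtain ⟨w, hw, h2, h3⟩ := hpl s _ hne
    exact ⟨w, h2, hun w h3, (br_pairE (s := s₀) hr hw).smul (hc i) (hce i w h3)⟩

/-- **All subsets.** -/
theorem all_subsets_par [Fintype A] {r : A → L} (hA : 3 ≤ Fintype.card A)
    (b : Finset A → Option A) (hb : ∀ R : Finset A, 3 ≤ R.card → Adm R (b R)) {n₁ : ℕ}
    (c : Finset A → L) (hc : ∀ R, c R ≠ 0) (hce : ∀ R, ∀ w : HeightOneSpectrum (𝓞 L),
      (n₁ : 𝓞 L) ∉ w.asIdeal → Even (log (w.valuation L (c R))))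
    (hpl : ∀ s t, s ≠ t → ∃ w : HeightOneSpectrum (𝓞 L), CollideE r w s t ∧
      (2 : 𝓞 L) ∉ w.asIdeal ∧ (n₁ : 𝓞 L) ∉ w.asIdeal)
    {d : ℕ} (τ : AbsoluteGaloisGroup L →* Matrix (Fin d) (Fin d) ℚ_[2]) (hτ : IsLattice τ)
    (hun : ∀ w : HeightOneSpectrum (𝓞 L), (n₁ : 𝓞 L) ∉ w.asIdeal → Unramified τ w) :
    EveryPrime (fun R : {R : Finset A // 3 ≤ R.card} =>
      prodR (brT R.1 (b R.1)) (fun x => c R.1 * brU r R.1 (b R.1) x)) τ := by
  classical
  have : Nonempty {R : Finset A // 3 ≤ R.card} := ⟨⟨Finset.univ, by rwa [Finset.card_univ]⟩⟩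
  obtain ⟨ord, hord, hcard⟩ := ord_exists (fun R : {R : Finset A // 3 ≤ R.card} => R.1.card)
  refine branch_par ord hord (fun R => R.1) (fun R => b R.1) (fun R => hb R.1 R.2)
    (fun R R' hlt => ?_) (fun R => c R.1) (fun R => hc R.1) (fun R => hce R.1) hpl τ hτ hun
  by_contra hcon
  push Not at hcon
  have h1 := Finset.eq_of_subset_of_card_le hcon (hcard R R' hlt)
  rw [Subtype.ext h1] at hlt
  exact lt_irrefl _ hlt

end

end Pool.Agent.H852.J
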